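import Pool.Agent.MQ3.NDefs
import Pool.Agent.MQ2.CC2A

/-!
# MQ3 AlgR3: the form `Ra` which vanishes on all algebraic separatrices
-/

set_option autoImplicit false

open Topology Filter Metric MvPolynomial MeasureTheory Asymptotics

noncomputable section

namespace Pool.Agent.MQ3

open Pool.Agent.H36.BP (EN fs)
open Pool.Agent.H17EF (projVar coneE)
open Pool.Agent.H17LG.Variety (FunField)
open Pool.Agent.MQ2 (Iso Sep FZero)

variable {M : ℕ} {P : Ideal (MvPolynomial (Fin (M + 1)) ℂ)} {RD : MvPolynomial (Fin (M + 1)) ℂ} {m : ℕ} {X : NCModel P RD} {θ : WDiff (coneE P) m}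
  {l : LF M}

/-- isolated points of a compact set are finitely many -/
theorem finite_of_iso {K : Set (ℂ × ℂ)} (hK : IsCompact K) {Z : Set (ℂ × ℂ)} (h : ∀ q ∈ K, ∀ᶠ x in 𝓝 q, x ≠ q → x ∉ Z) : (K ∩ Z).Finite := by
  by_contra hinf
  obtain ⟨q, hq, hacc⟩ := Set.Infinite.exists_accPt_of_subset_isCompact (s := K ∩ Z) hinf hK Set.inter_subset_left
  rw [accPt_iff_frequently] at hacc
  exact hacc ((h q hq).mono fun x hx h1 => hx h1.1 h1.2.2)

theorem continuous_mono' (w w' : ℕ × ℕ) : Continuous (mono w w') := by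
  unfold mono
  fun_prop

theorem Web.cp_sub_D (S : Web X θ l) (k : S.ι) : S.cp k ⊆ (S.c k).D := by
  rintro q ⟨-, -, h⟩
  have h1 := X.sub _ (X.C_sub _ h)
  exact ⟨h1.1, h1.2⟩

theorem Web.isCompact_cp (S : Web X θ l) (k : S.ι) : IsCompact (S.cp k) := by
  have h1 : IsClosed (S.cp k) := by
    have e1 : IsClosed {q : ℂ × ℂ | ‖q.1‖ ≤ 1} := isClosed_le (continuous_fst.norm) continuous_const
    have e2 : IsClosed {q : ℂ × ℂ | ‖q.2‖ ≤ 1} := isClosed_le (continuous_snd.norm) continuous_const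
    have e3 : IsClosed {q : ℂ × ℂ | S.κ k q ∈ X.C k.1} := (X.compact k.1).isClosed.preimage (continuous_mono' _ _)
    exact e1.inter (e2.inter e3)
  refine (isCompact_closedBall (0 : ℂ × ℂ) 1).of_isClosed_subset h1 ?_
  rintro q ⟨h2, h3, -⟩
  rw [mem_closedBall_zero_iff, Prod.norm_def]
  exact max_le h2 h3

theorem Web.σ_an (S : Web X θ l) (k : S.ι) {q : ℂ × ℂ} (hq : q ∈ S.cp k) : AnalyticAt ℂ (S.σ k) q := by
  have h1 := X.sub _ (X.C_sub _ hq.2.2)
  have h2 : AnalyticAt ℂ (S.κ k) q := by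
    have e1 : AnalyticAt ℂ (fun q : ℂ × ℂ => q.1 ^ (S.c k).w.1 * q.2 ^ (S.c k).w'.1) q := (analyticAt_fst.pow _).mul (analyticAt_snd.pow _)
    have e2 : AnalyticAt ℂ (fun q : ℂ × ℂ => q.1 ^ (S.c k).w.2 * q.2 ^ (S.c k).w'.2) q := (analyticAt_fst.pow _).mul (analyticAt_snd.pow _)
    exact e1.prod e2
  exact AnalyticAt.comp (g := X.ρ k.1) (f := S.κ k) ((X.box k.1).an _ h1.1.le h1.2.le) h2

theorem Web.iso (S : Web X θ l) (k : S.ι) {q : ℂ × ℂ} (hq : q ∈ S.cp k) (h0 : S.v k q = 0) : Iso fun x => S.v k (q + x) := by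
  have hD := S.cp_sub_D k hq
  have ht : Tendsto (fun x : ℂ × ℂ => q + x) (𝓝 0) (𝓝 q) := by
    have : Continuous fun x : ℂ × ℂ => q + x := by fun_prop
    exact this.tendsto' _ _ (add_zero q)
  refine ⟨?_, ?_, ?_⟩
  · have h1 : AnalyticAt ℂ (fun x : ℂ × ℂ => q + x) 0 := analyticAt_const.add analyticAt_id
    exact AnalyticAt.comp_of_eq (f := fun x : ℂ × ℂ => q + x) ((S.c k).v_an q hD) h1 (add_zero q)
  · show S.v k (q + 0) = 0
    rw [add_zero, h0]
  · filter_upwards [ht.eventually ((S.c k).v_iso q hD)] with x hx hx0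
    exact hx fun h => hx0 (by simpa using h)

/-- module AlgR3 -/
theorem exists_Ra [P.IsPrime] {z : Fin 2 → FunField P} (_hz : IsTranscendenceBasis ℂ z) (S : Web X θ l) (m : (ℂ × ℂ → ℂ × ℂ) → ℕ)
    (fam : ∀ v : ℂ × ℂ → ℂ × ℂ, Fin (m v) → ℕ → ℂ → ℂ × ℂ) (hfam : ∀ v, Iso v → ∀ i, Sep v (fam v i)) :
    ∃ (Ra : MvPolynomial (Fin (M + 1)) ℂ) (d : ℕ), Ra.IsHomogeneous d ∧ Ra ∉ P ∧ ∀ k : S.ι, ∀ q ∈ S.cp k, S.v k q = 0 → ∀ i,
      FZero (fam (fun x => S.v k (q + x)) i) (fun x => eval (S.σ k (q + x)).ofLp Ra) ∨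
        ∀ (R' : MvPolynomial (Fin (M + 1)) ℂ) (d' : ℕ), R'.IsHomogeneous d' → R' ∉ P →
          ¬ FZero (fam (fun x => S.v k (q + x)) i) fun x => eval (S.σ k (q + x)).ofLp R' := by
  classical
  have hfin : ∀ k : S.ι, Finite {q : ℂ × ℂ // q ∈ S.cp k ∩ {q | S.v k q = 0}} := fun k => by
    refine (finite_of_iso (S.isCompact_cp k) (Z := {q | S.v k q = 0}) fun q hq => ?_).to_subtype
    filter_upwards [(S.c k).v_iso q (S.cp_sub_D k hq)] with x hx h1
    exact hx h1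
  have hF := fun k => Fintype.ofFinite {q : ℂ × ℂ // q ∈ S.cp k ∩ {q | S.v k q = 0}}
  obtain ⟨R, d, hR, hRP, h⟩ := Pool.Agent.MQ2.exists_alg2 (P := P)
    (ι := Σ k : S.ι, Σ q : {q : ℂ × ℂ // q ∈ S.cp k ∩ {q | S.v k q = 0}}, Fin (m fun x => S.v k (q.1 + x)))
    (fun i x => S.σ i.1 (i.2.1.1 + x)) fun i => fam (fun x => S.v i.1 (i.2.1.1 + x)) i.2.2
  refine ⟨R, d, hR, hRP, fun k q hq h0 i => ?_⟩
  rcases h ⟨k, ⟨q, hq, h0⟩, i⟩ with h1 | ⟨R', d', -, -, ⟨Q, hQ⟩, h2⟩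
  · exact Or.inr h1
  · left
    intro N
    have hs := hfam _ (S.iso k hq h0) i
    have h3 : ContinuousAt (fun t => eval (S.σ k (q + fam (fun x => S.v k (q + x)) i N t)).ofLp Q) 0 := by
      have e1 : ContinuousAt (fun t => q + fam (fun x => S.v k (q + x)) i N t) 0 := continuousAt_const.add (hs.an N).continuousAt
      have e2 : ContinuousAt (S.σ k) (q + fam (fun x => S.v k (q + x)) i N 0) := by
        rw [hs.zero, add_zero]
        exact (S.σ_an k hq).continuousAt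
      have e3 : ContinuousAt (fun y : EN M => eval y.ofLp Q) (S.σ k (q + fam (fun x => S.v k (q + x)) i N 0)) :=
        (Pool.Agent.H14.PP.analyticAt_evalEN Q _).continuousAt
      have e4 : ContinuousAt (fun t => S.σ k (q + fam (fun x => S.v k (q + x)) i N t)) 0 :=
        ContinuousAt.comp (g := S.σ k) (f := fun t => q + fam (fun x => S.v k (q + x)) i N t) e2 e1
      exact ContinuousAt.comp (g := fun y : EN M => eval y.ofLp Q) (f := fun t => S.σ k (q + fam (fun x => S.v k (q + x)) i N t)) e3 e4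
    have h4 := (h2 N).mul (h3.isBigO_one ℂ)
    simp only [mul_one] at h4
    refine h4.congr_left fun t => ?_
    show _ = eval (S.σ k (q + fam (fun x => S.v k (q + x)) i N t)).ofLp R
    rw [hQ, map_mul]

end Pool.Agent.MQ3
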