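import Pool.Agent.MQ.Core
import Pool.Agent.MQ.GeoDefs

/-!
# MQ3 AsmA: the pack of a curve from an atlas with disjoint cores

The version of `Core.core` without a sign of the error terms: the core `K i` meets no other patch.
-/

set_option autoImplicit false

open Topology Filter Metric MeasureTheory Laplacian

noncomputable section

namespace Pool.Agent.MQ3

open Pool.Agent.H30M (tau avg LogSing rhoR)
open Pool.Agent.H36.BP (EN)
open Pool.Agent.MQ (lam En gr dv Pack Patches lp_eq_lap continuousAt_lp continuousAt_dv)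
open Pool.Agent.MQ.Core (Eg fld mem_some logSing_Eg fld_smooth fld_le lap_Eg Eg_le integrable_pos measurable_one continuous_err en_nonneg)

variable {ι : Type} [Fintype ι] {l : ℂ → ℝ} {U : ι → Set ℂ} {χ e : ι → ℂ → ℝ} {η : ι → ℂ → ℂ} {C : ℝ}

/-- **The pack from an atlas with disjoint cores.** -/
theorem pack_of_patches_dis {M : ℕ} {F : ℂ → EN M} (hF : Continuous (lam F)) (hl : Continuous l) (hl0 : ∀ z, 0 ≤ l z) (hC : 0 ≤ C)
    (h : Patches l U χ e η C) {K : ι → Set ℂ} {err : ι → ℂ → ℝ} (hK : ∀ i, IsClosed (K i)) (hKU : ∀ i, K i ⊆ U i) (herr : ∀ i, ContinuousOn (err i) (U i))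
    (hdis : ∀ i j, i ≠ j → ∀ z ∈ K i, z ∉ U j) (herrK : ∀ i, ∀ z ∈ U i, z ∉ K i → err i z = 0) {D : ι → ℝ}
    (herri : ∀ i, ∃ C : ℝ, ∀ R, 1 ≤ R → ∫ z in U i, tau R z * err i z ≤ D i * En F R + C * (∫ z, ‖gr (tau R) z‖ * l z) + C)
    {v : ℂ → ℝ} {ε₀ : ℝ} (hv : ∀ z, ∃ c, LogSing v c z)
    (hlap : ∀ i, ∀ z ∈ U i, ContDiffAt ℝ 2 (e i) z → ContDiffAt ℝ 2 v z → ε₀ * lam F z ^ 2 ≤ Δ (e i) z + Δ v z + dv (η i) z + err i z)
    (hp : ∀ i, ∀ z ∈ U i, ∃ c, 0 ≤ c ∧ LogSing (fun w => e i w + v w) c z)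
    (hm : ∀ i, ∃ C : ℝ, ∀ R, 1 ≤ R → ∫ z in {z | χ i z = 1}, rhoR R z * max 0 (e i z + v z) ≤ D i * En F R + C * Real.log (1 + En F R) + C) :
    Pack F l ε₀ (∑ i, D i) := by
  classical
  choose C₁ hC₁ using herri
  choose C₂ hC₂ using hm
  have hce : ∀ i, Continuous ((U i).indicator (err i)) := fun i => continuous_err (h.isOpen i) (hK i) (herr i) (herrK i) (hKU i)
  have hs1 : 0 ≤ ∑ i, |C₁ i| := Finset.sum_nonneg fun i _ => abs_nonneg _
  have hs2 : 0 ≤ ∑ i, |C₂ i| := Finset.sum_nonneg fun i _ => abs_nonneg _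
  have hs3 : 0 ≤ (Fintype.card ι * (Real.exp C * (3 * C)) + C : ℝ) := by positivity
  refine ⟨(Fintype.card ι * (Real.exp C * (3 * C)) + C) + ∑ i, |C₁ i| + ∑ i, |C₂ i|, fun w => Eg χ e w + v w, fld U χ e η,
    fun z => ∑ i, (U i).indicator (err i) z, by positivity, ?_, fld_smooth h, ?_, continuous_finsetSum _ fun i _ => hce i, ?_, ?_, ?_⟩
  · intro z
    obtain ⟨i, hi, -⟩ := mem_some h z
    obtain ⟨c, hc, h1⟩ := hp i z hi
    exact ⟨c, hc, logSing_Eg h hi h1⟩
  · intro z
    refine (fld_le h hl hl0 hC z).trans (mul_le_mul_of_nonneg_right ?_ (hl0 z))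
    linarith
  · intro z hz
    obtain ⟨i, hi, -⟩ := mem_some h z
    have hlE : ContinuousAt (Δ fun w => Eg χ e w + v w) z := by
      have h2 : Pool.Agent.MQ.lp (fun w => Eg χ e w + v w) =ᶠ[𝓝 z] Δ fun w => Eg χ e w + v w := by
        filter_upwards [hz.eventually (by simp)] with w hw using lp_eq_lap hw
      exact (continuousAt_lp hz).congr h2
    have hdv : ContinuousAt (dv (fld U χ e η)) z := continuousAt_dv (fld_smooth h).contDiffAt
    have herc : Continuous fun z => ∑ i, (U i).indicator (err i) z := continuous_finsetSum _ fun i _ => hce i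
    have t1 : Tendsto (fun w => ε₀ * lam F w ^ 2) (𝓝[≠] z) (𝓝 (ε₀ * lam F z ^ 2)) :=
      ((continuous_const.mul (hF.pow 2)).tendsto z).mono_left nhdsWithin_le_nhds
    have t2 : Tendsto (fun w => Δ (fun w => Eg χ e w + v w) w + dv (fld U χ e η) w + ∑ i, (U i).indicator (err i) w) (𝓝[≠] z)
        (𝓝 (Δ (fun w => Eg χ e w + v w) z + dv (fld U χ e η) z + ∑ i, (U i).indicator (err i) z)) :=
      ((hlE.add hdv).add herc.continuousAt).tendsto.mono_left nhdsWithin_le_nhds
    refine le_of_tendsto_of_tendsto t1 t2 ?_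
    filter_upwards [lap_Eg h hi (hv z)] with w hw
    obtain ⟨h1, h2, h3, h4⟩ := hw
    have h5 := hlap i w h3 h1 h2
    have h6 : ∑ j, (U j).indicator (err j) w = err i w := by
      rw [Finset.sum_eq_single i, Set.indicator_of_mem h3]
      · intro j _ hji
        by_cases hj : w ∈ U j
        · rw [Set.indicator_of_mem hj, herrK j w hj fun hK' => hdis j i hji w hK' h3]
        · rw [Set.indicator_of_notMem hj]
      · intro h7
        exact absurd (Finset.mem_univ i) h7
    show _ ≤ _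
    rw [h4, h6]
    linarith
  · intro R hR
    have hLen : 0 ≤ ∫ z, ‖gr (tau R) z‖ * l z := integral_nonneg fun z => mul_nonneg (norm_nonneg _) (hl0 z)
    have h1 : ∀ i, Integrable fun z => tau R z * (U i).indicator (err i) z := fun i =>
      ((Pool.Agent.H30M.contDiff_tau R).continuous.mul (hce i)).integrable_of_hasCompactSupport (Pool.Agent.H30M.hcs_tau hR).mul_right
    have h2 : ∫ z, tau R z * ∑ i, (U i).indicator (err i) z = ∑ i, ∫ z in U i, tau R z * err i z := by
      rw [show (fun z => tau R z * ∑ i, (U i).indicator (err i) z) = fun z => ∑ i, tau R z * (U i).indicator (err i) z from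
        funext fun z => Finset.mul_sum _ _ _]
      rw [integral_finsetSum _ fun i _ => h1 i]
      refine Finset.sum_congr rfl fun i _ => ?_
      rw [← integral_indicator (h.isOpen i).measurableSet]
      congr 1
      funext z
      by_cases hz : z ∈ U i
      · rw [Set.indicator_of_mem hz, Set.indicator_of_mem hz]
      · rw [Set.indicator_of_notMem hz, Set.indicator_of_notMem hz, mul_zero]
    rw [h2]
    have h3 : ∀ i, ∫ z in U i, tau R z * err i z ≤ D i * En F R + |C₁ i| * (∫ z, ‖gr (tau R) z‖ * l z) + |C₁ i| := by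
      intro i
      have := hC₁ i R hR
      have := mul_le_mul_of_nonneg_right (le_abs_self (C₁ i)) hLen
      linarith [le_abs_self (C₁ i)]
    calc ∑ i, ∫ z in U i, tau R z * err i z ≤ ∑ i, (D i * En F R + |C₁ i| * (∫ z, ‖gr (tau R) z‖ * l z) + |C₁ i|) := Finset.sum_le_sum fun i _ => h3 i
      _ = (∑ i, D i) * En F R + (∑ i, |C₁ i|) * (∫ z, ‖gr (tau R) z‖ * l z) + ∑ i, |C₁ i| := by
        rw [Finset.sum_add_distrib, Finset.sum_add_distrib, Finset.sum_mul, Finset.sum_mul]
      _ ≤ _ := by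
        have := mul_le_mul_of_nonneg_right (show (∑ i, |C₁ i|) ≤ (Fintype.card ι * (Real.exp C * (3 * C)) + C) + ∑ i, |C₁ i| + ∑ i, |C₂ i| by linarith) hLen
        linarith
  · intro R hR
    have hEn := en_nonneg F hR
    have hlog : 0 ≤ Real.log (1 + En F R) := Real.log_nonneg (by linarith)
    have hcE : ∀ z, ∃ c, LogSing (fun w => Eg χ e w + v w) c z := by
      intro z
      obtain ⟨i, hi, -⟩ := mem_some h z
      obtain ⟨c, -, h1⟩ := hp i z hi
      exact ⟨c, logSing_Eg h hi h1⟩
    choose c hc using hcE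
    have i1 : Integrable fun z => rhoR R z * (Eg χ e z + v z) :=
      LogSing.integrable_mul (Pool.Agent.H30M.continuous_rhoR R) (Pool.Agent.H30M.hcs_rhoR hR) (w := fun z => Eg χ e z + v z) (c := c) fun z _ => hc z
    have i2 := fun i => integrable_pos h i (hp i) hR
    have h1 : avg R (fun w => Eg χ e w + v w) ≤ ∫ z, ∑ i, ({z | χ i z = 1} : Set ℂ).indicator (fun z => rhoR R z * max 0 (e i z + v z)) z := by
      refine integral_mono i1 (integrable_finsetSum _ fun i _ => i2 i) fun z => ?_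
      obtain ⟨k, hk⟩ := h.cover z
      have h0 := Pool.Agent.H30M.rhoR_nonneg R z
      have h2 : (({z | χ k z = 1} : Set ℂ).indicator fun z => rhoR R z * max 0 (e k z + v z)) z = rhoR R z * max 0 (e k z + v z) :=
        Set.indicator_of_mem (show z ∈ {z | χ k z = 1} from hk) _
      have h3 := Finset.single_le_sum (f := fun i => (({z | χ i z = 1} : Set ℂ).indicator fun z => rhoR R z * max 0 (e i z + v z)) z)
        (fun i _ => Set.indicator_nonneg (fun z _ => mul_nonneg (Pool.Agent.H30M.rhoR_nonneg R z) (le_max_left _ _)) z) (Finset.mem_univ k)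
      have h4 : rhoR R z * (Eg χ e z + v z) ≤ rhoR R z * max 0 (e k z + v z) :=
        mul_le_mul_of_nonneg_left ((add_le_add (Eg_le h hk) le_rfl).trans (le_max_right _ _)) h0
      rw [h2] at h3
      exact h4.trans h3
    refine h1.trans ?_
    rw [integral_finsetSum _ fun i _ => i2 i]
    have h3 : ∀ i, ∫ z, ({z | χ i z = 1} : Set ℂ).indicator (fun z => rhoR R z * max 0 (e i z + v z)) z ≤
        D i * En F R + |C₂ i| * Real.log (1 + En F R) + |C₂ i| := by
      intro i
      rw [integral_indicator (measurable_one h i)]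
      have := hC₂ i R hR
      have := mul_le_mul_of_nonneg_right (le_abs_self (C₂ i)) hlog
      linarith [le_abs_self (C₂ i)]
    calc _ ≤ ∑ i, (D i * En F R + |C₂ i| * Real.log (1 + En F R) + |C₂ i|) := Finset.sum_le_sum fun i _ => h3 i
      _ = (∑ i, D i) * En F R + (∑ i, |C₂ i|) * Real.log (1 + En F R) + ∑ i, |C₂ i| := by
        rw [Finset.sum_add_distrib, Finset.sum_add_distrib, Finset.sum_mul, Finset.sum_mul]
      _ ≤ _ := by
        have := mul_le_mul_of_nonneg_right (show (∑ i, |C₂ i|) ≤ (Fintype.card ι * (Real.exp C * (3 * C)) + C) + ∑ i, |C₁ i| + ∑ i, |C₂ i| by linarith) hlog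
        linarith

end Pool.Agent.MQ3
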