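import Pool.Agent.MQ3.NDefs
import Pool.Agent.MQ.CoreD

/-!
# MQ3 AsmI: the interface of the patches

`Psi` is the common value of `gr e + η`.  `IsPatch` collects what is needed of one patch: the open set `U`, the potential `e`, the field `η`, the error term
`err` with support in the closed core `K`, the density `l`.
-/

set_option autoImplicit false

open Topology Filter Metric MvPolynomial MeasureTheory Laplacian

noncomputable section

namespace Pool.Agent.MQ3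

open Pool.Agent.H36.BP (EN fs)
open Pool.Agent.H30M (tau LogSing)
open Pool.Agent.MQ (lam En ztv dvg DDv gr dv)

variable {M : ℕ}

/-- the common value of `gr e + η` -/
def Psi (mK jH : ℕ) (F : ℂ → EN M) (Θ : ℂ → ℂ) (w : ℂ) : ℂ :=
  (starRingEnd ℂ) (Θ w) + gr (fun w => jH / mK * Real.log ‖F w‖) w

/-- one patch -/
structure IsPatch (F : ℂ → EN M) (Ψ : ℂ → ℂ) (ε₀ : ℝ) (l : ℂ → ℝ) (U : Set ℂ) (e : ℂ → ℝ) (η : ℂ → ℂ) (err : ℂ → ℝ) (K : Set ℂ) (C δ : ℝ) : Prop where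
  isOpen : IsOpen U
  pos : ∀ z ∈ U, ∃ c, 0 ≤ c ∧ LogSing e c z
  field : ContDiffOn ℝ 1 η U
  field_le : ∀ z ∈ U, ‖η z‖ ≤ C * l z
  comp : ∀ z ∈ U, z ∉ K → ∀ᶠ w in 𝓝[≠] z, gr e w + η w = Ψ w
  closed : IsClosed K
  sub : K ⊆ U
  err_cont : ContinuousOn err U
  err_off : ∀ z ∈ U, z ∉ K → err z = 0
  lap : ∀ z ∈ U, ContDiffAt ℝ 2 e z → ε₀ * lam F z ^ 2 ≤ Δ e z + dv η z + err z
  int : ∀ R, 1 ≤ R → ∫ z in U, tau R z * err z ≤ δ * En F R + C * (∫ z, ‖gr (tau R) z‖ * l z) + C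
  up : ∀ z ∈ U, ContDiffAt ℝ 2 e z → e z ≤ C + Real.log (1 + l z)

end Pool.Agent.MQ3
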