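import Pool.Agent.MQ3.NDefs

/-!
# MQ3 SatN: elementary properties of the charts of the web over the model

The vector field `S.v k` is analytic with isolated zeros, `S.D k` is open, `S.cp k` is compact, the zeros of `RD` in a chart are the axes, the chart maps to the
cone.
-/

set_option autoImplicit false

open Topology Filter Metric MvPolynomial

noncomputable section

namespace Pool.Agent.MQ3

open Pool.Agent.H36.BP (EN)
open Pool.Agent.H17EF (coneE)

variable {M : ℕ} {P : Ideal (MvPolynomial (Fin (M + 1)) ℂ)} {RD : MvPolynomial (Fin (M + 1)) ℂ} {m : ℕ} {X : NCModel P RD} {θ : WDiff (coneE P) m}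
  {l : LF M} {S : Web X θ l}

theorem v_an (k : S.ι) : AnalyticOnNhd ℂ (S.v k) (S.D k) := fun q hq => (S.c k).v_an q hq.1

theorem v_iso (k : S.ι) : ∀ q ∈ S.D k, ∀ᶠ x in 𝓝[≠] q, S.v k x ≠ 0 := fun q hq =>
  eventually_nhdsWithin_iff.2 ((S.c k).v_iso q hq.1)

private theorem continuous_κ (k : S.ι) : Continuous (S.κ k) :=
  continuous_iff_continuousAt.2 fun q => (analyticAt_mono q).continuousAt

theorem D_open (k : S.ι) : IsOpen (S.D k) :=
  (isOpen_Dm (w := (S.c k).w) (w' := (S.c k).w')).inter ((X.isOpen k.1).preimage (continuous_κ k))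

theorem cp_compact (k : S.ι) : IsCompact (S.cp k) ∧ S.cp k ⊆ S.D k := by
  refine ⟨?_, fun q hq => ⟨X.sub k.1 (X.C_sub k.1 hq.2.2), X.C_sub k.1 hq.2.2⟩⟩
  have h1 : IsClosed (S.cp k) := by
    have h2 : S.cp k = {q : ℂ × ℂ | ‖q.1‖ ≤ 1} ∩ ({q : ℂ × ℂ | ‖q.2‖ ≤ 1} ∩ S.κ k ⁻¹' X.C k.1) := rfl
    rw [h2]
    exact (isClosed_le continuous_fst.norm continuous_const).inter
      ((isClosed_le continuous_snd.norm continuous_const).inter ((X.compact k.1).isClosed.preimage (continuous_κ k)))
  refine (isCompact_closedBall (0 : ℂ × ℂ) 1).of_isClosed_subset h1 fun q hq => ?_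
  rw [mem_closedBall_zero_iff, Prod.norm_def]
  exact max_le hq.1 hq.2.1

/-- the zeros of `RD` upstairs are the axes -/
theorem zero_iff (k : S.ι) : ∀ q ∈ S.D k, eval (S.σ k q).ofLp RD = 0 ↔ q.1 * q.2 = 0 := by
  intro q hq
  rw [show S.σ k q = X.ρ k.1 (S.κ k q) from rfl, X.div k.1 _ hq.2]
  constructor
  · intro h
    by_contra h0
    exact (mem_DS.1 (mono_mem_DS hq.1 h0)).2 h
  · intro h
    have hd : dt (S.c k).w (S.c k).w' ≠ 0 := (S.c k).basis.det
    rw [show S.κ k q = mono (S.c k).w (S.c k).w' q from rfl, mono]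
    dsimp only
    rcases mul_eq_zero.1 h with h | h
    · rw [h]
      rcases Nat.eq_zero_or_pos (S.c k).w.1 with h1 | h1
      · rcases Nat.eq_zero_or_pos (S.c k).w.2 with h2 | h2
        · refine absurd ?_ hd
          rw [dt, h1, h2]
          simp
        · rw [zero_pow h2.ne']
          simp
      · rw [zero_pow h1.ne']
        simp
    · rw [h]
      rcases Nat.eq_zero_or_pos (S.c k).w'.1 with h1 | h1
      · rcases Nat.eq_zero_or_pos (S.c k).w'.2 with h2 | h2
        · refine absurd ?_ hd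
          rw [dt, h1, h2]
          simp
        · rw [zero_pow h2.ne']
          simp
      · rw [zero_pow h1.ne']
        simp

theorem σ_an (k : S.ι) : ∀ q ∈ S.D k, AnalyticAt ℂ (S.σ k) q ∧ S.σ k q ∈ coneE P := by
  intro q hq
  have h1 : S.κ k q ∈ DD := hq.1
  refine ⟨?_, ((X.box k.1).mem _ h1.1.le h1.2.le).self_of_nhds⟩
  exact AnalyticAt.comp (f := S.κ k) (g := X.ρ k.1) ((X.box k.1).an _ h1.1.le h1.2.le) (analyticAt_mono q)

end Pool.Agent.MQ3
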