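import Pool.Agent.MQ3.LfN
import Pool.Agent.MQ3.SatN
import Pool.Agent.MQ3.WtN3
import Pool.Agent.MQ2.StepA
import Pool.Agent.MQ.Bridge
import Pool.Agent.MQ.Fub

/-!
# MQ3 EtaL: the gradient of the potential of a chart point
-/

set_option autoImplicit false

open Topology Filter Metric MvPolynomial MeasureTheory Laplacian

noncomputable section

namespace Pool.Agent.MQ3

open Pool.Agent.H36.BP (EN fs)
open Pool.Agent.H17BP (Surface IsForm)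
open Pool.Agent.H17EF (coneE)

open Pool.Agent.MQ (lam ztv dvg DDv gr dv)

variable {M : ℕ} {P : Ideal (MvPolynomial (Fin (M + 1)) ℂ)} {RD : MvPolynomial (Fin (M + 1)) ℂ} {m : ℕ} {X : NCModel P RD} {θ : WDiff (coneE P) m}
  {l : LF M} {S : Web X θ l}

/-- regularity, Laplacian and gradient of a function -/
private def Tri (u : ℂ → ℝ) (z : ℂ) (a : ℝ) (b : ℂ) : Prop := ContDiffAt ℝ 2 u z ∧ Δ u z = a ∧ gr u z = b

private theorem tri_add {u v : ℂ → ℝ} {z : ℂ} {a a' : ℝ} {b b' : ℂ} (h : Tri u z a b) (h' : Tri v z a' b') :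
    Tri (fun w => u w + v w) z (a + a') (b + b') := by
  obtain ⟨h1, h2, h3⟩ := h
  obtain ⟨k1, k2, k3⟩ := h'
  refine ⟨h1.add k1, ?_, ?_⟩
  · rw [Pool.Agent.H30M.lap_add h1 k1, h2, k2]
  · rw [MQ.gr_add (h1.differentiableAt (by norm_num)) (k1.differentiableAt (by norm_num)), h3, k3]

private theorem tri_mul (c : ℝ) {u : ℂ → ℝ} {z : ℂ} {a : ℝ} {b : ℂ} (h : Tri u z a b) : Tri (fun w => c * u w) z (c * a) (c * b) := by
  obtain ⟨h1, h2, h3⟩ := h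
  refine ⟨contDiffAt_const.mul h1, ?_, ?_⟩
  · rw [Pool.Agent.H30M.lap_const_mul h1, h2]
  · rw [MQ.gr_const_mul c (h1.differentiableAt (by norm_num)), h3]

private theorem tri_log {f : ℂ → ℂ} {z : ℂ} (hf : AnalyticAt ℂ f z) (h0 : f z ≠ 0) :
    Tri (fun w => Real.log ‖f w‖) z 0 ((starRingEnd ℂ) (deriv f z / f z)) :=
  ⟨(hf.harmonicAt_log_norm h0).1, Pool.Agent.H30M.lap_log_norm hf h0, MQ.gr_log_norm hf.differentiableAt h0⟩

private theorem etaL_dvg {v : ℂ × ℂ → ℂ × ℂ} {x : ℂ × ℂ} (hv : AnalyticAt ℂ v x) : AnalyticAt ℂ (dvg v) x := by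
  have h1 : ∀ e : ℂ × ℂ, AnalyticAt ℂ (fun Q => fderiv ℂ v Q e) x := fun e =>
    ((ContinuousLinearMap.apply ℂ (ℂ × ℂ) e).analyticAt _).comp hv.fderiv
  exact (analyticAt_fst.comp (h1 (1, 0))).add (analyticAt_snd.comp (h1 (0, 1)))

private theorem etaL_jc {κ : ℂ × ℂ → ℂ × ℂ} {x : ℂ × ℂ} (hv : AnalyticAt ℂ κ x) : AnalyticAt ℂ (jc κ) x := by
  have h1 : ∀ e : ℂ × ℂ, AnalyticAt ℂ (fun Q => fderiv ℂ κ Q e) x := fun e =>
    ((ContinuousLinearMap.apply ℂ (ℂ × ℂ) e).analyticAt _).comp hv.fderiv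
  exact ((analyticAt_fst.comp (h1 (1, 0))).mul (analyticAt_snd.comp (h1 (0, 1)))).sub
    ((analyticAt_fst.comp (h1 (0, 1))).mul (analyticAt_snd.comp (h1 (1, 0))))

/-- the gradient of the potential of a chart point -/
theorem gr_eP {F : ℂ → EN M} {Wf : EN M → EN M → EN M → ℂ} {mK jH : ℕ} (hX : Surface (coneE P)) (hm : 1 ≤ mK)
    (hW : IsForm (coneE P) mK jH Wf) (hF : WCrv θ RD F) (Y : NCLift X F) (hne : WNe Wf Y) {Θ : ℂ → ℂ} (hΘ : IsTh S Wf mK Y Θ) {k : S.ι} {z : ℂ}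
    (hz : z ∈ S.Om Y k) {g : ℂ × ℂ → ℂ} (hg : AnalyticAt ℂ g (S.lf Y k z)) (hgn : ∃ᶠ w in 𝓝 z, g (S.lf Y k w) ≠ 0) :
    ∀ᶠ w in 𝓝[≠] z, ContDiffAt ℝ 2 (eP S g Wf mK jH Y k) w ∧ Δ (eP S g Wf mK jH Y k) w = 2 * jH / mK * lam F w ^ 2 ∧
      gr (eP S g Wf mK jH Y k) w + (starRingEnd ℂ) (DDv (S.v k) g (S.lf Y k) w) =
        (starRingEnd ℂ) (Θ w) + gr (fun w => jH / mK * Real.log ‖F w‖) w := by
  set p : ℂ → ℂ × ℂ := S.lf Y k with hpdef
  have hp : AnalyticAt ℂ p z := lfN_an hF Y k z hz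
  have hOm : ∀ᶠ w in 𝓝 z, w ∈ S.Om Y k := (Om_open hF Y k).mem_nhds hz
  have hFne : ∀ w, F w ≠ 0 := by
    intro w h0
    have h1 := hF.mem w
    rw [h0] at h1
    exact hX.zero h1
  have hgp : AnalyticAt ℂ (fun w => g (p w)) z := AnalyticAt.fun_comp (g := g) (f := p) hg hp
  have hgne : ∀ᶠ w in 𝓝[≠] z, g (p w) ≠ 0 := by
    rcases hgp.eventually_eq_zero_or_eventually_ne_zero with h | h
    · exact absurd (h.mono fun w hw => not_not.2 hw) hgn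
    · exact h
  have hga : ∀ᶠ w in 𝓝 z, AnalyticAt ℂ g (p w) := hp.continuousAt.eventually hg.eventually_analyticAt
  filter_upwards [hgne, hOm.filter_mono nhdsWithin_le_nhds, hOm.eventually_nhds.filter_mono nhdsWithin_le_nhds, lfN_ne hF Y k z hz,
    hne k.1 z (Om_sub hF Y k hz), hΘ k z hz, hga.filter_mono nhdsWithin_le_nhds] with w h1 h2 h3 h4 h5 h6 h7
  obtain ⟨-, -, hv0, hζ0, hJ0⟩ := h4
  have hpw : AnalyticAt ℂ p w := lfN_an hF Y k w h2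
  have hvw : AnalyticAt ℂ (S.v k) (p w) := v_an k (p w) (lfN_mem hF Y k w h2).1
  have hode : ∀ᶠ x in 𝓝 w, (S.v k (p x)).1 * (deriv p x).2 - (S.v k (p x)).2 * (deriv p x).1 = 0 := h3.mono fun x hx => lfN_tan hF Y k x hx
  have hζ : AnalyticAt ℂ (ztv (S.v k) p) w := ztv_an hpw hvw hode hv0
  have hκ : AnalyticAt ℂ (S.κ k) (p w) := analyticAt_mchart (S.c k).w.1 (S.c k).w'.1 (S.c k).w.2 (S.c k).w'.2 (p w)
  have hJ : AnalyticAt ℂ (fun x => jc (S.κ k) (p x)) w := AnalyticAt.fun_comp (g := jc (S.κ k)) (f := p) (etaL_jc hκ) hpw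
  have hgw : AnalyticAt ℂ (fun x => g (p x)) w := AnalyticAt.fun_comp (g := g) (f := p) h7 hpw
  have hwt : AnalyticAt ℂ (wt Wf Y k.1) w := wt_an hX hm hW hF.diff Y k.1 w (Om_sub hF Y k h2)
  have t5 : Tri (fun w => Real.log ‖F w‖) w (2 * lam F w ^ 2) (gr (fun w => Real.log ‖F w‖) w) :=
    ⟨(MQ.lap_log_norm (hF.diff.analyticAt w) (hFne w)).1, (MQ.lap_log_norm (hF.diff.analyticAt w) (hFne w)).2, rfl⟩
  have t6 : Tri (fun w => (jH : ℝ) / mK * Real.log ‖F w‖) w ((jH : ℝ) / mK * (2 * lam F w ^ 2)) (((jH / mK : ℝ) : ℂ) * gr (fun w => Real.log ‖F w‖) w) :=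
    tri_mul _ t5
  have key := tri_add (tri_add (tri_add (tri_add (tri_log hζ hζ0) (tri_log hJ hJ0)) (tri_log hgw h1)) (tri_mul (1 / mK : ℝ) (tri_log hwt h5))) t6
  obtain ⟨k1, k2, k3⟩ := key
  refine ⟨k1, ?_, ?_⟩
  · have h8 : Δ (eP S g Wf mK jH Y k) w = _ := k2
    rw [h8]
    ring
  · have h8 : gr (eP S g Wf mK jH Y k) w = _ := k3
    rw [h8, t6.2.2, h6, ThC, DDv]
    simp only [map_add, map_sub, map_mul, map_div₀, map_one, Complex.ofReal_div, Complex.ofReal_one, Complex.ofReal_natCast, map_natCast]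
    ring

end Pool.Agent.MQ3
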