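import Pool.Agent.MQ3.LfN
import Pool.Agent.MQ3.SatN
import Pool.Agent.MQ3.EtaL
import Pool.Agent.MQ2.StepA
import Pool.Agent.MQ.Bridge
import Pool.Agent.MQ.Fub

/-!
# MQ3 EtaLoc: the local form of the field `η` of a box

Along the curve `eN - eP = log ‖L (p)‖`, and `Θ - 2 ∂ eH = ζ (div v - c) (p) - 2 ∂ log ‖L (p)‖` with `v (g) = c g`.
-/

set_option autoImplicit false

open Topology Filter Metric MvPolynomial MeasureTheory Laplacian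

noncomputable section

namespace Pool.Agent.MQ3

open Pool.Agent.H36.BP (EN fs)
open Pool.Agent.H17BP (Surface IsForm)
open Pool.Agent.H17EF (coneE)
open Pool.Agent.MQ (lam ztv dvg DDv gr dv)

variable {M : ℕ} {P : Ideal (MvPolynomial (Fin (M + 1)) ℂ)} {RD : MvPolynomial (Fin (M + 1)) ℂ} {m : ℕ} {X : NCModel P RD} {θ : WDiff (coneE P) m}
  {l : LF M} {S : Web X θ l} {Ra : MvPolynomial (Fin (M + 1)) ℂ}

theorem EtaLoc_punct {z : ℂ} {p : ℂ → Prop} (h : ∀ᶠ w in 𝓝[≠] z, p w) : ∀ᶠ w in 𝓝[≠] z, ∀ᶠ w' in 𝓝 w, p w' := by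
  have h1 := eventually_eventually_nhdsWithin.2 h
  filter_upwards [h1, self_mem_nhdsWithin] with w hw hne
  rwa [isOpen_compl_singleton.nhdsWithin_eq hne] at hw

/-- the algebra of the gradients -/
theorem EtaLoc_alg {eN eH eP ψ lF : ℂ → ℝ} {G : ℂ → ℂ} {Θw : ℂ} {w : ℂ} (h1 : ∀ᶠ x in 𝓝 w, eN x = eP x + ψ x) (h2 : ∀ x, eN x = eH x + lF x)
    (hP : ContDiffAt ℝ 2 eP w) (hψ : ContDiffAt ℝ 2 ψ w) (hF : ContDiffAt ℝ 2 lF w) (hG : DifferentiableAt ℂ G w)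
    (hgr : gr eP w + (starRingEnd ℂ) (G w) = (starRingEnd ℂ) Θw + gr lF w) :
    ContDiffAt ℝ 2 eN w ∧ (starRingEnd ℂ) (G w) - gr ψ w = (starRingEnd ℂ) Θw - gr eH w ∧
      Δ eN w + dv (fun x => (starRingEnd ℂ) (G x) - gr ψ x) w = Δ eP w := by
  have e1 : eN =ᶠ[𝓝 w] fun x => eP x + ψ x := h1
  have hN : ContDiffAt ℝ 2 eN w := (hP.add hψ).congr_of_eventuallyEq e1
  have dP : DifferentiableAt ℝ eP w := hP.differentiableAt (by norm_num)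
  have dψ : DifferentiableAt ℝ ψ w := hψ.differentiableAt (by norm_num)
  have dF : DifferentiableAt ℝ lF w := hF.differentiableAt (by norm_num)
  have dN : DifferentiableAt ℝ eN w := hN.differentiableAt (by norm_num)
  have g1 : gr eN w = gr eP w + gr ψ w := by
    rw [MQ.gr_congr e1, MQ.gr_add dP dψ]
  have g2 : gr eH w = gr eN w - gr lF w := by
    have e2 : eH = fun x => eN x - lF x := by
      funext x
      rw [h2 x, add_sub_cancel_right]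
    rw [e2, MQ.gr_sub dN dF]
  refine ⟨hN, ?_, ?_⟩
  · rw [g2, g1]
    linear_combination hgr
  · have l1 : Δ eN w = Δ eP w + Δ ψ w := by
      rw [Pool.Agent.H30M.lap_congr e1]
      exact Pool.Agent.H30M.lap_add hP hψ
    have l2 : DifferentiableAt ℝ (fun x => (starRingEnd ℂ) (G x)) w := (MQ.hasFDerivAt_conj_holo hG).differentiableAt
    have l3 : dv (fun x => (starRingEnd ℂ) (G x) - gr ψ x) w = - Δ ψ w := by
      rw [MQ.dv_sub l2 (MQ.differentiableAt_gr hψ), MQ.dv_conj hG, zero_sub]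
      congr 1
      exact MQ.lp_eq_lap hψ
    rw [l1, l3]
    ring

/-- the gradient of the logarithm of a vector along a curve -/
theorem EtaLoc_gr {n : ℕ} {L : ℂ × ℂ → EN n} {p : ℂ → ℂ × ℂ} {z : ℂ} (hL : AnalyticAt ℂ L (p z)) (hp : AnalyticAt ℂ p z) {b D : ℝ} (hb : 0 < b)
    (hbL : b ≤ ‖L (p z)‖) (hD : ‖fderiv ℂ L (p z)‖ ≤ D) : ‖gr (fun w => Real.log ‖L (p w)‖) z‖ ≤ D / b * ‖deriv p z‖ := by
  have h0 : L (p z) ≠ 0 := by
    intro h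
    rw [h, norm_zero] at hbL
    exact absurd hbL (not_le.2 hb)
  have hd : HasDerivAt (fun w => L (p w)) (fderiv ℂ L (p z) (deriv p z)) z :=
    hL.differentiableAt.hasFDerivAt.comp_hasDerivAt z hp.differentiableAt.hasDerivAt
  rw [MQ.gr_log_normV hd h0, norm_mul, RCLike.norm_conj, Complex.norm_real, norm_inv, norm_pow, norm_norm]
  have hn : 0 < ‖L (p z)‖ := norm_pos_iff.2 h0
  have h1 : ‖inner ℂ (L (p z)) (fderiv ℂ L (p z) (deriv p z))‖ ≤ ‖L (p z)‖ * (D * ‖deriv p z‖) := by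
    refine (norm_inner_le_norm _ _).trans (mul_le_mul_of_nonneg_left ?_ hn.le)
    exact ((fderiv ℂ L (p z)).le_opNorm _).trans (mul_le_mul_of_nonneg_right hD (norm_nonneg _))
  have hD0 : 0 ≤ D := (norm_nonneg _).trans hD
  calc (‖L (p z)‖ ^ 2)⁻¹ * ‖inner ℂ (L (p z)) (fderiv ℂ L (p z) (deriv p z))‖ ≤ (‖L (p z)‖ ^ 2)⁻¹ * (‖L (p z)‖ * (D * ‖deriv p z‖)) := by
        gcongr
    _ = D / ‖L (p z)‖ * ‖deriv p z‖ := by
        field_simp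
    _ ≤ D / b * ‖deriv p z‖ := by gcongr

theorem EtaLoc_dvg {v : ℂ × ℂ → ℂ × ℂ} {x : ℂ × ℂ} (hv : AnalyticAt ℂ v x) : AnalyticAt ℂ (dvg v) x := by
  have h1 : ∀ e : ℂ × ℂ, AnalyticAt ℂ (fun Q => fderiv ℂ v Q e) x := fun e =>
    ((ContinuousLinearMap.apply ℂ (ℂ × ℂ) e).analyticAt _).comp hv.fderiv
  exact (analyticAt_fst.comp (h1 (1, 0))).add (analyticAt_snd.comp (h1 (0, 1)))

theorem EtaLoc_κ (k : S.ι) (x : ℂ × ℂ) : AnalyticAt ℂ (S.κ k) x := analyticAt_mchart (S.c k).w.1 (S.c k).w'.1 (S.c k).w.2 (S.c k).w'.2 x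

/-- a polynomial which is not zero along the curve -/
theorem EtaLoc_ne {F : ℂ → EN M} (hF : Differentiable ℂ F) {R : MvPolynomial (Fin (M + 1)) ℂ} (h : ∃ z, eval (F z).ofLp R ≠ 0) (z : ℂ) :
    ∀ᶠ w in 𝓝[≠] z, eval (F w).ofLp R ≠ 0 := by
  have ha : AnalyticOnNhd ℂ (fun w => eval (F w).ofLp R) Set.univ := fun w _ =>
    AnalyticAt.fun_comp (g := fun x : EN M => eval x.ofLp R) (f := F) (Pool.Agent.H14.PP.analyticAt_evalEN R (F w)) (hF.analyticAt w)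
  rcases (ha z (Set.mem_univ z)).eventually_eq_zero_or_eventually_ne_zero with h0 | h0
  · exfalso
    obtain ⟨a, ha0⟩ := h
    have h1 := ha.eqOn_zero_of_preconnected_of_eventuallyEq_zero isPreconnected_univ (Set.mem_univ z) h0
    exact ha0 (h1 (Set.mem_univ a))
  · exact h0

/-- **EtaLoc.** The local form of the field `η` of a box; the constants do not depend on the curve. -/
theorem eta_loc {Wf : EN M → EN M → EN M → ℂ} {mK jH : ℕ} (hX : Surface (coneE P)) (hm : 1 ≤ mK)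
    (hW : IsForm (coneE P) mK jH Wf) {k : S.ι} {q : ℂ × ℂ} (hq : q ∈ S.D k) (hv : S.v k q ≠ 0) {g : ℂ × ℂ → ℂ} (hg : InvAt S Ra k q g)
    {H : ℂ × ℂ → ℂ × ℂ → EN 2} (hH : ∀ p w (a : ℂ), H p (a • w) = a • H p w) {L : ℂ × ℂ → EN 2} (hL : AnalyticAt ℂ L q) (hL0 : L q ≠ 0)
    (hHL : ∀ᶠ x in 𝓝 q, H (S.κ k x) (fderiv ℂ (S.κ k) x (S.v k x)) = (jc (S.κ k) x * g x) • L x) :
    ∃ N ∈ 𝓝 q, ∃ C : ℝ, ∀ F : ℂ → EN M, RCrv θ RD Ra F → ∀ Y : NCLift X F, WNe Wf Y → ∀ Θ : ℂ → ℂ, IsTh S Wf mK Y Θ →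
      ∀ z ∈ S.Om Y k, S.lf Y k z ∈ N → ∃ (η : ℂ → ℂ) (ψ : ℂ → ℝ), ContDiffAt ℝ 1 η z ∧ ‖η z‖ ≤ C * ‖deriv (S.lf Y k) z‖ ∧ ContDiffAt ℝ 2 ψ z ∧ |ψ z| ≤ C ∧
        ∀ᶠ w in 𝓝[≠] z, ContDiffAt ℝ 2 (eN H Wf mK jH Y k.1) w ∧ η w = (starRingEnd ℂ) (Θ w) - gr (eH H Wf mK Y k.1) w ∧
          Δ (eN H Wf mK jH Y k.1) w + dv η w = 2 * jH / mK * lam F w ^ 2 ∧ eN H Wf mK jH Y k.1 w - eP S g Wf mK jH Y k w = ψ w := by
  obtain ⟨hga, -, ⟨c, hc, hcv⟩, h, hh, hRh, -⟩ := hg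
  have hva : AnalyticAt ℂ (S.v k) q := v_an k q hq
  -- the constants
  obtain ⟨a, ha, ha'⟩ : ∃ a : ℝ, 0 < a ∧ a < ‖S.v k q‖ := exists_between (norm_pos_iff.2 hv)
  obtain ⟨b, hb, hb'⟩ : ∃ b : ℝ, 0 < b ∧ b < ‖L q‖ := exists_between (norm_pos_iff.2 hL0)
  set B : ℝ := ‖L q‖ + 1 with hB
  set D : ℝ := ‖fderiv ℂ L q‖ + 1 with hD
  set C₁ : ℝ := ‖dvg (S.v k) q - c q‖ + 1 with hC₁
  have e1 : ∀ᶠ x in 𝓝 q, a < ‖S.v k x‖ := hva.continuousAt.norm.eventually (lt_mem_nhds ha')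
  have e2 : ∀ᶠ x in 𝓝 q, b < ‖L x‖ := hL.continuousAt.norm.eventually (lt_mem_nhds hb')
  have e3 : ∀ᶠ x in 𝓝 q, ‖L x‖ < B := hL.continuousAt.norm.eventually (gt_mem_nhds (by rw [hB]; linarith))
  have e4 : ∀ᶠ x in 𝓝 q, ‖fderiv ℂ L x‖ < D := hL.fderiv.continuousAt.norm.eventually (gt_mem_nhds (by rw [hD]; linarith))
  have e5 : ∀ᶠ x in 𝓝 q, ‖dvg (S.v k) x - c x‖ < C₁ :=
    ((EtaLoc_dvg hva).continuousAt.sub hc.continuousAt).norm.eventually (gt_mem_nhds (by show ‖dvg (S.v k) q - c q‖ < C₁; rw [hC₁]; linarith))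
  have e6 : ∀ᶠ x in 𝓝 q, x ∈ S.D k := (D_open k).mem_nhds hq
  obtain ⟨N, hN, hNo, hqN⟩ := _root_.mem_nhds_iff.1 (((((((((((e1.and e2).and e3).and e4).and e5).and e6).and hga.eventually_analyticAt).and
    hc.eventually_analyticAt).and hL.eventually_analyticAt).and hcv).and hHL).and hRh)
  have hC₁0 : 0 < C₁ := by rw [hC₁]; positivity
  have hD0 : 0 < D := by rw [hD]; positivity
  have hB0 : 0 < B := by rw [hB]; positivity
  set C : ℝ := C₁ / a + D / b + (|Real.log b| + |Real.log B|) with hC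
  refine ⟨N, hNo.mem_nhds hqN, C, ?_⟩
  intro F hF Y hne Θ hΘ z hz hzN
  have hFW := hF.toWCrv
  set p : ℂ → ℂ × ℂ := S.lf Y k with hpdef
  have hp : AnalyticAt ℂ p z := lfN_an hFW Y k z hz
  have hOm : ∀ᶠ w in 𝓝 z, w ∈ S.Om Y k := (Om_open hFW Y k).mem_nhds hz
  have hpN : ∀ᶠ w in 𝓝 z, p w ∈ N := hp.continuousAt.eventually (hNo.mem_nhds hzN)
  have hode : ∀ᶠ w in 𝓝 z, (S.v k (p w)).1 * (deriv p w).2 - (S.v k (p w)).2 * (deriv p w).1 = 0 := hOm.mono fun w hw => lfN_tan hFW Y k w hw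
  have hvN : ∀ x ∈ N, AnalyticAt ℂ (S.v k) x ∧ S.v k x ≠ 0 := by
    intro x hx
    have hx' := hN hx
    simp only [Set.mem_ofPred_eq] at hx'
    obtain ⟨⟨⟨⟨⟨⟨⟨⟨⟨⟨⟨h1, h2⟩, h3⟩, h4⟩, h5⟩, h6⟩, h7⟩, h8⟩, h9⟩, h10⟩, h11⟩, h12⟩ := hx'
    exact ⟨v_an k x h6, norm_pos_iff.1 (ha.trans h1)⟩
  have hNN : ∀ x ∈ N, a < ‖S.v k x‖ ∧ b < ‖L x‖ ∧ ‖L x‖ < B ∧ ‖fderiv ℂ L x‖ < D ∧ ‖dvg (S.v k) x - c x‖ < C₁ ∧ AnalyticAt ℂ g x ∧ AnalyticAt ℂ c x ∧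
      AnalyticAt ℂ L x ∧ fderiv ℂ g x (S.v k x) = c x * g x ∧ H (S.κ k x) (fderiv ℂ (S.κ k) x (S.v k x)) = (jc (S.κ k) x * g x) • L x ∧
      (eval (S.σ k x).ofLp (RD * Ra) = 0 ↔ g x * h x = 0) := by
    intro x hx
    have hx' := hN hx
    simp only [Set.mem_ofPred_eq] at hx'
    obtain ⟨⟨⟨⟨⟨⟨⟨⟨⟨⟨⟨h1, h2⟩, h3⟩, h4⟩, h5⟩, h6⟩, h7⟩, h8⟩, h9⟩, h10⟩, h11⟩, h12⟩ := hx'
    exact ⟨h1, h2, h3, h4, h5, h7, h8, h9, h10, h11, h12⟩
  obtain ⟨hv0, hb0, hB1, hDz, hCz, hgz, hcz, hLz, -, -, -⟩ := hNN _ hzN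
  set ζ : ℂ → ℂ := ztv (S.v k) p with hζdef
  have hζ : AnalyticAt ℂ ζ z := ztv_an hp (hvN _ hzN).1 hode (hvN _ hzN).2
  have hder : ∀ᶠ w in 𝓝 z, deriv p w = ζ w • S.v k (p w) := by
    filter_upwards [hode, hpN] with w h1 h2
    exact ztv_smul h1 (hvN _ h2).2
  have hGp : AnalyticAt ℂ (fun w => dvg (S.v k) (p w) - c (p w)) z :=
    AnalyticAt.fun_comp (g := fun x => dvg (S.v k) x - c x) (f := p) ((EtaLoc_dvg (hvN _ hzN).1).sub hcz) hp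
  set G : ℂ → ℂ := fun w => ζ w * (dvg (S.v k) (p w) - c (p w)) with hG
  have hGa : AnalyticAt ℂ G z := hζ.mul hGp
  have hLp : AnalyticAt ℂ (fun w => L (p w)) z := AnalyticAt.fun_comp (g := L) (f := p) hLz hp
  have hLp0 : L (p z) ≠ 0 := norm_pos_iff.1 (hb.trans hb0)
  set ψ : ℂ → ℝ := fun w => Real.log ‖L (p w)‖ with hψ
  have hψc : ContDiffAt ℝ 2 ψ z := MQ.contDiffAt_log_norm (F := fun w => L (p w)) hLp hLp0
  refine ⟨fun w => (starRingEnd ℂ) (G w) - gr ψ w, ψ, ?_, ?_, hψc, ?_, ?_⟩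
  · -- regularity
    have h1 : ContDiffAt ℝ 1 G z := (hGa.contDiffAt (n := 1)).restrict_scalars ℝ
    have h2 : ContDiffAt ℝ 1 (fun w => (starRingEnd ℂ) (G w)) z := (Complex.conjCLE.contDiff (n := 1)).contDiffAt.comp z h1
    exact h2.sub (MQ.contDiffAt_gr (m := 1) hψc (by norm_num))
  · -- the bound
    have h1 : ‖G z‖ ≤ C₁ / a * ‖deriv p z‖ := by
      have h2 : ‖ζ z‖ * a ≤ ‖deriv p z‖ := by
        rw [hder.self_of_nhds, norm_smul]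
        exact mul_le_mul_of_nonneg_left hv0.le (norm_nonneg _)
      have h3 : ‖ζ z‖ ≤ ‖deriv p z‖ / a := by rwa [le_div_iff₀ ha]
      calc ‖G z‖ = ‖ζ z‖ * ‖dvg (S.v k) (p z) - c (p z)‖ := norm_mul _ _
        _ ≤ ‖deriv p z‖ / a * C₁ := mul_le_mul h3 hCz.le (norm_nonneg _) (by positivity)
        _ = C₁ / a * ‖deriv p z‖ := by ring
    have h4 := EtaLoc_gr hLz hp hb hb0.le hDz.le
    calc ‖(starRingEnd ℂ) (G z) - gr ψ z‖ ≤ ‖(starRingEnd ℂ) (G z)‖ + ‖gr ψ z‖ := norm_sub_le _ _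
      _ ≤ C₁ / a * ‖deriv p z‖ + D / b * ‖deriv p z‖ := by
          rw [RCLike.norm_conj]
          exact add_le_add h1 h4
      _ = (C₁ / a + D / b) * ‖deriv p z‖ := by ring
      _ ≤ C * ‖deriv p z‖ := by
          refine mul_le_mul_of_nonneg_right ?_ (norm_nonneg _)
          rw [hC]
          linarith [abs_nonneg (Real.log b), abs_nonneg (Real.log B)]
  · -- the difference
    have h1 : Real.log b ≤ ψ z := Real.log_le_log hb hb0.le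
    have h2 : ψ z ≤ Real.log B := Real.log_le_log (hb.trans hb0) hB1.le
    have h3 : 0 ≤ C₁ / a := by positivity
    have h4 : 0 ≤ D / b := by positivity
    rw [abs_le]
    constructor
    · have := neg_abs_le (Real.log b)
      rw [hC]
      linarith [abs_nonneg (Real.log B)]
    · have := le_abs_self (Real.log B)
      rw [hC]
      linarith [abs_nonneg (Real.log b)]
  -- the identities off `z`
  have hFne : ∀ w, F w ≠ 0 := by
    intro w h0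
    have h1 := hFW.mem w
    rw [h0] at h1
    exact hX.zero h1
  have hgne : ∀ᶠ w in 𝓝[≠] z, g (p w) ≠ 0 := by
    have h1 := EtaLoc_ne hFW.diff hFW.ne z
    have h2 := EtaLoc_ne hFW.diff hF.neR z
    filter_upwards [h1, h2, hOm.filter_mono nhdsWithin_le_nhds, hpN.filter_mono nhdsWithin_le_nhds] with w h3 h4 h5 h6 h7
    obtain ⟨-, -, -, -, -, -, -, -, -, -, h8⟩ := hNN _ h6
    obtain ⟨d, hd⟩ := hFW.hom
    obtain ⟨d', hd'⟩ := hF.homR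
    obtain ⟨r, hr, hr'⟩ := Y.eq k.1 w (Om_sub hFW Y k h5)
    have h9 : X.ρ k.1 (Y.p k.1 w) = S.σ k (p w) := by
      show _ = X.ρ k.1 (S.κ k (p w))
      rw [(lfN_mem hFW Y k w h5).2]
    rw [h9] at hr'
    have h10 := h8.2 (by rw [h7, zero_mul])
    rw [map_mul] at h10
    rcases mul_eq_zero.1 h10 with h11 | h11
    · exact h3 (by rw [hr', Pool.Agent.H14.PP.eval_smulEN hd, h11, mul_zero])
    · exact h4 (by rw [hr', Pool.Agent.H14.PP.eval_smulEN hd', h11, mul_zero])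
  have hgf : ∃ᶠ w in 𝓝 z, g (p w) ≠ 0 := hgne.frequently.filter_mono nhdsWithin_le_nhds
  have hkey := gr_eP hX hm hW hFW Y hne hΘ hz hgz hgf
  -- the difference of the potentials
  have hdiff : ∀ᶠ w in 𝓝[≠] z, eN H Wf mK jH Y k.1 w = eP S g Wf mK jH Y k w + ψ w := by
    filter_upwards [hgne, hOm.filter_mono nhdsWithin_le_nhds, hOm.eventually_nhds.filter_mono nhdsWithin_le_nhds, hpN.filter_mono nhdsWithin_le_nhds,
      hder.filter_mono nhdsWithin_le_nhds, lfN_ne hFW Y k z hz, hp.eventually_analyticAt.filter_mono nhdsWithin_le_nhds] with w h1 h2 h3 h4 h5 h6 h7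
    obtain ⟨-, h8, -, -, -, -, -, -, -, h9, -⟩ := hNN _ h4
    have h10 : Y.p k.1 w = S.κ k (p w) := (lfN_mem hFW Y k w h2).2.symm
    have h11 : deriv (Y.p k.1) w = ζ w • fderiv ℂ (S.κ k) (p w) (S.v k (p w)) := by
      have h12 : Y.p k.1 =ᶠ[𝓝 w] fun x => S.κ k (p x) := h3.mono fun x hx => (lfN_mem hFW Y k x hx).2.symm
      have h13 : deriv (fun x => S.κ k (p x)) w = fderiv ℂ (S.κ k) (p w) (deriv p w) :=
        ((EtaLoc_κ k (p w)).differentiableAt.hasFDerivAt.comp_hasDerivAt w h7.differentiableAt.hasDerivAt).deriv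
      rw [h12.deriv_eq, h13, h5, map_smul]
    have h13 : H (Y.p k.1 w) (deriv (Y.p k.1) w) = (ζ w * (jc (S.κ k) (p w) * g (p w))) • L (p w) := by
      rw [h11, h10, hH, h9, smul_smul]
    have h14 : L (p w) ≠ 0 := norm_pos_iff.1 (hb.trans h8)
    have n1 : ‖ζ w‖ ≠ 0 := norm_ne_zero_iff.2 h6.2.2.2.1
    have n2 : ‖jc (S.κ k) (p w)‖ ≠ 0 := norm_ne_zero_iff.2 h6.2.2.2.2
    have n3 : ‖g (p w)‖ ≠ 0 := norm_ne_zero_iff.2 h1
    have n4 : ‖L (p w)‖ ≠ 0 := norm_ne_zero_iff.2 h14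
    show Real.log ‖H (Y.p k.1 w) (deriv (Y.p k.1) w)‖ + 1 / mK * Real.log ‖wt Wf Y k.1 w‖ + jH / mK * Real.log ‖F w‖ =
      Real.log ‖ζ w‖ + Real.log ‖jc (S.κ k) (p w)‖ + Real.log ‖g (p w)‖ + 1 / mK * Real.log ‖wt Wf Y k.1 w‖ + jH / mK * Real.log ‖F w‖ +
        Real.log ‖L (p w)‖
    rw [h13, norm_smul, norm_mul, norm_mul, Real.log_mul (mul_ne_zero n1 (mul_ne_zero n2 n3)) n4, Real.log_mul n1 (mul_ne_zero n2 n3), Real.log_mul n2 n3]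
    ring
  have hdiff' := EtaLoc_punct hdiff
  filter_upwards [hkey, hdiff, hdiff', hgne, hpN.filter_mono nhdsWithin_le_nhds, hder.filter_mono nhdsWithin_le_nhds,
    hGa.eventually_analyticAt.filter_mono nhdsWithin_le_nhds, hLp.eventually_analyticAt.filter_mono nhdsWithin_le_nhds,
    hp.eventually_analyticAt.filter_mono nhdsWithin_le_nhds] with w h1 h2 h3 h4 h5 h6 h7 h8 h9
  obtain ⟨k1, k2, k3⟩ := h1
  obtain ⟨-, h10, -, -, -, hgw, -, -, hcw, -, -⟩ := hNN _ h5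
  have hψw : ContDiffAt ℝ 2 ψ w := MQ.contDiffAt_log_norm (F := fun w => L (p w)) h8 (norm_pos_iff.1 (hb.trans h10))
  have hlF : ContDiffAt ℝ 2 (fun w => (jH : ℝ) / mK * Real.log ‖F w‖) w :=
    contDiffAt_const.mul (MQ.lap_log_norm (hFW.diff.analyticAt w) (hFne w)).1
  have hDD : DDv (S.v k) g p w = G w := by
    have h11 : deriv (fun x => g (p x)) w = ζ w * (c (p w) * g (p w)) := by
      have h12 : deriv (fun x => g (p x)) w = fderiv ℂ g (p w) (deriv p w) :=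
        (hgw.differentiableAt.hasFDerivAt.comp_hasDerivAt w h9.differentiableAt.hasDerivAt).deriv
      rw [h12, h6, map_smul, hcw, smul_eq_mul]
    rw [DDv, h11, ← mul_assoc, mul_div_cancel_right₀ _ h4]
    show dvg (S.v k) (p w) * ζ w - ζ w * c (p w) = ζ w * (dvg (S.v k) (p w) - c (p w))
    ring
  rw [hDD] at k3
  obtain ⟨r1, r2, r3⟩ := EtaLoc_alg (eN := eN H Wf mK jH Y k.1) (eH := eH H Wf mK Y k.1) (lF := fun w => (jH : ℝ) / mK * Real.log ‖F w‖) h3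
    (fun x => rfl) k1 hψw hlF h7.differentiableAt k3
  refine ⟨r1, r2, ?_, ?_⟩
  · rw [r3, k2]
  · rw [h2, add_sub_cancel_left]

end Pool.Agent.MQ3
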