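import Pool.Agent.MQ3.NCB
import Pool.Agent.H17BP.Ift
import Pool.Agent.H17BP.Div

/-!
# MQ3 NCD: division by an equation of a smooth curve, and lemma NC at an invariant curve
-/

set_option autoImplicit false

open Topology Filter Metric

noncomputable section

namespace Pool.Agent.MQ3

open Pool.Agent.H17BP (Coord Bihol coord_iff dx dy exists_div_x)

variable {P : ℂ × ℂ}

private theorem quot0 {F : Type} [NormedAddCommGroup F] [NormedSpace ℂ F] [CompleteSpace F] {G T : ℂ × ℂ → ℂ} {f : ℂ × ℂ → F} (hC : Coord G T)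
    (hf : AnalyticAt ℂ f 0) (h : ∀ᶠ Q in 𝓝 (0 : ℂ × ℂ), G Q = 0 → f Q = 0) :
    ∃ a : ℂ × ℂ → F, AnalyticAt ℂ a 0 ∧ ∀ᶠ Q in 𝓝 (0 : ℂ × ℂ), f Q = G Q • a Q := by
  obtain ⟨θ, hθ, hθ0, h1, h2⟩ := hC.inv
  have hψ : AnalyticAt ℂ (fun s => f (θ s)) 0 := by
    have h3 : AnalyticAt ℂ f (θ 0) := by rwa [hθ0]
    exact h3.fun_comp hθ
  have ht : Tendsto θ (𝓝 0) (𝓝 0) := by
    have := hθ.continuousAt.tendsto
    rwa [hθ0] at this
  have h4 : ∀ᶠ y in 𝓝 (0 : ℂ), f (θ (0, y)) = 0 := by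
    have h5 : Tendsto (fun y : ℂ => ((0 : ℂ), y)) (𝓝 0) (𝓝 (0 : ℂ × ℂ)) := (Continuous.prodMk_right (0 : ℂ)).tendsto 0
    filter_upwards [h5.eventually h2, h5.eventually (ht.eventually h)] with y h6 h7
    exact h7 (congrArg Prod.fst h6)
  obtain ⟨g, hg, hg'⟩ := exists_div_x hψ h4
  have hC0 : (fun x => (G x, T x)) (0 : ℂ × ℂ) = 0 := hC.zero
  have htC : Tendsto (fun x => (G x, T x)) (𝓝 0) (𝓝 (0 : ℂ × ℂ)) := by
    have := hC.an.continuousAt.tendsto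
    have h0 : ((G 0, T 0) : ℂ × ℂ) = 0 := hC0
    rwa [h0] at this
  refine ⟨fun Q => g (G Q, T Q), ?_, ?_⟩
  · have h3 : AnalyticAt ℂ g ((fun x => (G x, T x)) (0 : ℂ × ℂ)) := by rwa [hC0]
    exact AnalyticAt.comp (g := g) (f := fun x => (G x, T x)) (x := (0 : ℂ × ℂ)) h3 hC.an
  · filter_upwards [h1, htC.eventually hg'] with Q h5 h6
    rw [h5] at h6
    exact h6

/-- **Division by an equation of a smooth curve.** -/
theorem exists_quot_smooth {F : Type} [NormedAddCommGroup F] [NormedSpace ℂ F] [CompleteSpace F] {G : ℂ × ℂ → ℂ} {f : ℂ × ℂ → F}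
    (hG : AnalyticAt ℂ G P) (hG0 : G P = 0) (hdG : fderiv ℂ G P ≠ 0) (hf : AnalyticAt ℂ f P) (h : ∀ᶠ Q in 𝓝 P, G Q = 0 → f Q = 0) :
    ∃ a : ℂ × ℂ → F, AnalyticAt ℂ a P ∧ ∀ᶠ Q in 𝓝 P, f Q = G Q • a Q := by
  have hl : AnalyticAt ℂ (fun q : ℂ × ℂ => P + q) 0 := analyticAt_const.add analyticAt_id
  have hl' : AnalyticAt ℂ (fun q : ℂ × ℂ => q - P) P := analyticAt_id.sub analyticAt_const
  have ht : Tendsto (fun q : ℂ × ℂ => P + q) (𝓝 0) (𝓝 P) := by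
    have := hl.continuousAt.tendsto
    rwa [add_zero] at this
  have ht' : Tendsto (fun q : ℂ × ℂ => q - P) (𝓝 P) (𝓝 0) := by
    have := hl'.continuousAt.tendsto
    rwa [sub_self] at this
  have hG' : AnalyticAt ℂ (fun q => G (P + q)) 0 := by
    have h1 : AnalyticAt ℂ G (P + 0) := by rwa [add_zero]
    exact AnalyticAt.comp (g := G) (f := fun q : ℂ × ℂ => P + q) (x := 0) h1 hl
  have hf' : AnalyticAt ℂ (fun q => f (P + q)) 0 := by
    have h1 : AnalyticAt ℂ f (P + 0) := by rwa [add_zero]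
    exact AnalyticAt.comp (g := f) (f := fun q : ℂ × ℂ => P + q) (x := 0) h1 hl
  have hG00 : (fun q => G (P + q)) 0 = 0 := by
    show G (P + 0) = 0
    rw [add_zero, hG0]
  have hd : fderiv ℂ (fun q => G (P + q)) 0 = fderiv ℂ G P := by
    rw [fderiv_comp_add_left, add_zero]
  have hC : ∃ T : ℂ × ℂ → ℂ, Coord (fun q => G (P + q)) T := by
    by_cases hx : fderiv ℂ G P (1, 0) = 0
    · have hy : fderiv ℂ G P (0, 1) ≠ 0 := by
        intro hy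
        apply hdG
        ext
        · simpa using hx
        · simpa using hy
      refine ⟨Prod.fst, (coord_iff hG' analyticAt_fst hG00 rfl).2 ?_⟩
      have h1 : dx (Prod.fst : ℂ × ℂ → ℂ) 0 = 1 := by simp [dx, fderiv_fst]
      have h2 : dy (Prod.fst : ℂ × ℂ → ℂ) 0 = 0 := by simp [dy, fderiv_fst]
      rw [h1, h2, dx, dy, hd, hx, mul_zero, mul_one, zero_sub, neg_ne_zero]
      exact hy
    · refine ⟨Prod.snd, (coord_iff hG' analyticAt_snd hG00 rfl).2 ?_⟩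
      have h1 : dx (Prod.snd : ℂ × ℂ → ℂ) 0 = 0 := by simp [dx, fderiv_snd]
      have h2 : dy (Prod.snd : ℂ × ℂ → ℂ) 0 = 1 := by simp [dy, fderiv_snd]
      rw [h1, h2, dx, dy, hd, mul_zero, mul_one, sub_zero]
      exact hx
  obtain ⟨T, hC⟩ := hC
  obtain ⟨a, ha, ha'⟩ := quot0 hC hf' (ht.eventually h)
  refine ⟨fun Q => a (Q - P), ?_, ?_⟩
  · have h1 : AnalyticAt ℂ a (P - P) := by rwa [sub_self]
    exact AnalyticAt.comp (g := a) (f := fun q : ℂ × ℂ => q - P) (x := P) h1 hl'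
  · filter_upwards [ht'.eventually ha'] with Q hQ
    rwa [add_sub_cancel] at hQ

/-- a smooth invariant curve has a cofactor -/
theorem exists_cof {G : ℂ × ℂ → ℂ} {v : ℂ × ℂ → ℂ × ℂ} (hG : AnalyticAt ℂ G P) (hG0 : G P = 0) (hdG : fderiv ℂ G P ≠ 0) (hv : AnalyticAt ℂ v P)
    (h : ∀ᶠ Q in 𝓝 P, G Q = 0 → fderiv ℂ G Q (v Q) = 0) : ∃ a : ℂ × ℂ → ℂ, AnalyticAt ℂ a P ∧ ∀ᶠ Q in 𝓝 P, fderiv ℂ G Q (v Q) = G Q * a Q :=
  exists_quot_smooth hG hG0 hdG (analyticAt_fderiv_app hG hv) h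

/-- **Lemma NC at a smooth point of an invariant curve.** -/
theorem ncB_inv' {κ v : ℂ × ℂ → ℂ × ℂ} {u : ℂ × ℂ → ℂ} (hκ : AnalyticAt ℂ κ P) (hJ : jc κ P ≠ 0) (hu : AnalyticAt ℂ u (κ P)) (hu0 : u (κ P) = 0)
    (hdu : fderiv ℂ u (κ P) ≠ 0) (hv : AnalyticAt ℂ v P) (hv0 : v P ≠ 0)
    (h : ∀ᶠ Q in 𝓝 P, u (κ Q) = 0 → fderiv ℂ (fun q => u (κ q)) Q (v Q) = 0) :
    ∃ N : ℂ × ℂ → ℂ × (ℂ × ℂ), AnalyticAt ℂ N P ∧ N P ≠ 0 ∧ ∀ᶠ Q in 𝓝 P, hvB u κ v Q = (jc κ Q * u (κ Q)) • N Q := by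
  have hG : AnalyticAt ℂ (fun q => u (κ q)) P := hu.fun_comp hκ
  have hdG : fderiv ℂ (fun q => u (κ q)) P ≠ 0 := by
    intro h1
    have h2 : fderiv ℂ (fun q => u (κ q)) P = (fderiv ℂ u (κ P)).comp (fderiv ℂ κ P) :=
      (hu.differentiableAt.hasFDerivAt.comp P hκ.differentiableAt.hasFDerivAt).fderiv
    apply hdu
    -- `fderiv κ P` is injective, so surjective
    have hinj : Function.Injective (fderiv ℂ κ P) := by
      rw [injective_iff_map_eq_zero]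
      intro w hw
      exact eq_zero_of_jc hJ hw
    have hsurj : Function.Surjective (fderiv ℂ κ P) := by
      have h3 : Function.Injective ((fderiv ℂ κ P : ℂ × ℂ →L[ℂ] ℂ × ℂ) : ℂ × ℂ →ₗ[ℂ] ℂ × ℂ) := hinj
      exact LinearMap.injective_iff_surjective.1 h3
    ext1
    · ext1
      obtain ⟨w, hw⟩ := hsurj (1, 0)
      have h4 := congrArg (fun L : ℂ × ℂ →L[ℂ] ℂ => L w) (h2.symm.trans h1)
      simpa [hw] using h4
    · ext1
      obtain ⟨w, hw⟩ := hsurj (0, 1)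
      have h4 := congrArg (fun L : ℂ × ℂ →L[ℂ] ℂ => L w) (h2.symm.trans h1)
      simpa [hw] using h4
  obtain ⟨a, ha, ha'⟩ := exists_cof hG hu0 hdG hv h
  exact ncB_inv hκ hJ hv hv0 ha ha'

end Pool.Agent.MQ3
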