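import Pool.Agent.MQ3.NDefs
import Pool.Agent.MQ3.NCD

/-!
# MQ3 NLocB: the local form of the potential of a box of the second type, at a chart point off the axes
-/

set_option autoImplicit false

open Topology Filter Metric MvPolynomial MeasureTheory Laplacian

noncomputable section

namespace Pool.Agent.MQ3

open Pool.Agent.H36.BP (EN fs)
open Pool.Agent.H17EF (projVar coneE)

/-! ### vectors with three coordinates -/

theorem an_vec3 {a b c : ℂ × ℂ → ℂ} {q : ℂ × ℂ} (ha : AnalyticAt ℂ a q) (hb : AnalyticAt ℂ b q) (hc : AnalyticAt ℂ c q) :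
    AnalyticAt ℂ (fun x => (WithLp.toLp 2 ![a x, b x, c x] : EN 2)) q := by
  have h1 : AnalyticAt ℂ (fun x => (![a x, b x, c x] : Fin 3 → ℂ)) q := by
    rw [analyticAt_pi_iff]
    intro i
    fin_cases i
    · exact ha
    · exact hb
    · exact hc
  exact ((PiLp.continuousLinearEquiv 2 ℂ (fun _ : Fin 3 => ℂ)).symm.toContinuousLinearMap.analyticAt _).comp h1

theorem vec3_eq_zero {a b c : ℂ} (h : (WithLp.toLp 2 ![a, b, c] : EN 2) = 0) : a = 0 ∧ b = 0 ∧ c = 0 := by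
  have h1 : (![a, b, c] : Fin 3 → ℂ) = 0 := congrArg (fun v : EN 2 => v.ofLp) h
  exact ⟨congrFun h1 0, congrFun h1 1, congrFun h1 2⟩

theorem smul_vec3 (t a b c : ℂ) : t • (WithLp.toLp 2 ![a, b, c] : EN 2) = WithLp.toLp 2 ![t * a, t * b, t * c] := by
  rw [← WithLp.toLp_smul]
  congr 1
  ext i
  fin_cases i <;> rfl

/-! ### smooth curves -/

/-- division with the derivative at the point -/
theorem quot_fderiv {P : ℂ × ℂ} {G f a : ℂ × ℂ → ℂ} (hG : AnalyticAt ℂ G P) (hG0 : G P = 0) (ha : AnalyticAt ℂ a P) (h : ∀ᶠ Q in 𝓝 P, f Q = G Q • a Q) :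
    ∀ w, fderiv ℂ f P w = a P * fderiv ℂ G P w := by
  intro w
  have h1 : HasFDerivAt (fun Q => G Q * a Q) (G P • fderiv ℂ a P + a P • fderiv ℂ G P) P :=
    hG.differentiableAt.hasFDerivAt.mul ha.differentiableAt.hasFDerivAt
  have h2 : f =ᶠ[𝓝 P] fun Q => G Q * a Q := h
  rw [h2.fderiv_eq, h1.fderiv, hG0]
  simp

theorem quot_ne {P : ℂ × ℂ} {G f a : ℂ × ℂ → ℂ} (hf : fderiv ℂ f P ≠ 0) (h : ∀ w, fderiv ℂ f P w = a P * fderiv ℂ G P w) : a P ≠ 0 := by
  intro h0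
  apply hf
  ext1
  · ext1
    rw [ContinuousLinearMap.comp_apply, h, h0, zero_mul]
    rfl
  · ext1
    rw [ContinuousLinearMap.comp_apply, h, h0, zero_mul]
    rfl

variable {M : ℕ} {P : Ideal (MvPolynomial (Fin (M + 1)) ℂ)} {RD : MvPolynomial (Fin (M + 1)) ℂ} {m : ℕ} {X : NCModel P RD} {θ : WDiff (coneE P) m}
  {l : LF M} {S : Web X θ l} {Ra : MvPolynomial (Fin (M + 1)) ℂ}

theorem nloc_B {k : S.ι} {q : ℂ × ℂ} (hq : Reg S Ra k q) (hq' : q.1 * q.2 ≠ 0) {u : ℂ × ℂ → ℂ} (hu : AnalyticAt ℂ u (S.κ k q))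
    (hu0 : ∀ᶠ p in 𝓝 (S.κ k q), (eval (X.ρ k.1 p).ofLp Ra = 0 ↔ u p = 0) ∧ (u p = 0 → fderiv ℂ u p ≠ 0)) {g : ℂ × ℂ → ℂ} (hg : InvAt S Ra k q g) :
    ∃ L : ℂ × ℂ → EN 2, AnalyticAt ℂ L q ∧ L q ≠ 0 ∧ ∀ᶠ x in 𝓝 q, hB u (S.κ k x) (fderiv ℂ (S.κ k) x (S.v k x)) = (jc (S.κ k) x * g x) • L x := by
  have hmem : q ∈ S.D k := by
    rcases hq with h | h
    · exact h.mem
    · exact h.mem
  have hv0 : S.v k q ≠ 0 := by
    rcases hq with h | h
    · exact h.v_ne
    · exact h.v_ne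
  have hv : AnalyticAt ℂ (S.v k) q := (S.c k).v_an q hmem.1
  have hκ : ∀ x, AnalyticAt ℂ (S.κ k) x := fun x => analyticAt_mono x
  have hκt : Tendsto (S.κ k) (𝓝 q) (𝓝 (S.κ k q)) := (hκ q).continuousAt
  have hκ0 : (S.κ k q).1 * (S.κ k q).2 ≠ 0 := by
    have h1 : q.1 ≠ 0 := left_ne_zero_of_mul hq'
    have h2 : q.2 ≠ 0 := right_ne_zero_of_mul hq'
    exact mul_ne_zero (mul_ne_zero (pow_ne_zero _ h1) (pow_ne_zero _ h2)) (mul_ne_zero (pow_ne_zero _ h1) (pow_ne_zero _ h2))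
  have hJ : jc (S.κ k) q ≠ 0 := by
    intro h0
    have h1 := jc_mono (w := (S.c k).w) (w' := (S.c k).w') q
    have h2 : jc (mono (S.c k).w (S.c k).w') q = 0 := h0
    rw [h2, mul_zero] at h1
    have h3 : ((dt (S.c k).w (S.c k).w' : ℤ) : ℂ) ≠ 0 := by
      exact_mod_cast (S.c k).pos.ne'
    exact mul_ne_zero h3 hκ0 h1.symm
  have hJa : AnalyticAt ℂ (jc (S.κ k)) q := jc_an (hκ q)
  -- the divisor is empty near `q`
  have hRD : ∀ᶠ x in 𝓝 q, eval (S.σ k x).ofLp RD ≠ 0 := by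
    have h1 : ∀ᶠ x in 𝓝 q, S.κ k x ∈ X.B k.1 := hκt.eventually ((X.isOpen k.1).mem_nhds hmem.2)
    have h2 : ∀ᶠ x in 𝓝 q, (S.κ k x).1 * (S.κ k x).2 ≠ 0 := by
      have h3 : ContinuousAt (fun x => (S.κ k x).1 * (S.κ k x).2) q := (hκ q).continuousAt.fst.mul (hκ q).continuousAt.snd
      exact h3.eventually_ne hκ0
    filter_upwards [h1, h2] with x h3 h4 h5
    exact h4 ((X.div k.1 _ h3).1 h5)
  have hU : AnalyticAt ℂ (fun x => u (S.κ k x)) q := hu.fun_comp (hκ q)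
  have hRU : ∀ᶠ x in 𝓝 q, (eval (S.σ k x).ofLp Ra = 0 ↔ u (S.κ k x) = 0) := by
    filter_upwards [hκt.eventually hu0] with x hx
    exact hx.1
  have hdU : ∀ᶠ x in 𝓝 q, fderiv ℂ (fun y => u (S.κ k y)) x (S.v k x) = fderiv ℂ u (S.κ k x) (fderiv ℂ (S.κ k) x (S.v k x)) := by
    filter_upwards [hκt.eventually hu.eventually_analyticAt] with x hx
    have h1 : HasFDerivAt (fun y => u (S.κ k y)) ((fderiv ℂ u (S.κ k x)).comp (fderiv ℂ (S.κ k) x)) x :=
      hx.differentiableAt.hasFDerivAt.comp x (hκ x).differentiableAt.hasFDerivAt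
    rw [h1.fderiv]
    rfl
  obtain ⟨hga, hgr, ⟨c, hca, hc⟩, h, hha, hgh, hhr⟩ := hg
  have hgh' : ∀ᶠ x in 𝓝 q, (u (S.κ k x) = 0 ↔ g x * h x = 0) := by
    filter_upwards [hRD, hRU, hgh] with x h1 h2 h3
    rw [← h3, ← h2, map_mul, mul_eq_zero, or_iff_right h1]
  -- the vector
  have hκv := analyticAt_fderiv_app (hκ q) hv
  have hE : AnalyticAt ℂ (fun x => hB u (S.κ k x) (fderiv ℂ (S.κ k) x (S.v k x))) q := by
    have h1 : AnalyticAt ℂ (fun x => (WithLp.toLp 2 ![fderiv ℂ (fun y => u (S.κ k y)) x (S.v k x), u (S.κ k x) * (fderiv ℂ (S.κ k) x (S.v k x)).1,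
        u (S.κ k x) * (fderiv ℂ (S.κ k) x (S.v k x)).2] : EN 2)) q :=
      an_vec3 (analyticAt_fderiv_app hU hv) (hU.mul (analyticAt_fst.fun_comp hκv)) (hU.mul (analyticAt_snd.fun_comp hκv))
    refine h1.congr ?_
    filter_upwards [hdU] with x hx
    rw [hx]
    rfl
  -- the case of a unit `g`
  have hunit : g q ≠ 0 → hB u (S.κ k q) (fderiv ℂ (S.κ k) q (S.v k q)) ≠ 0 →
      ∃ L : ℂ × ℂ → EN 2, AnalyticAt ℂ L q ∧ L q ≠ 0 ∧ ∀ᶠ x in 𝓝 q, hB u (S.κ k x) (fderiv ℂ (S.κ k) x (S.v k x)) = (jc (S.κ k) x * g x) • L x := by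
    intro h1 h2
    have h3 : jc (S.κ k) q * g q ≠ 0 := mul_ne_zero hJ h1
    refine ⟨fun x => (jc (S.κ k) x * g x)⁻¹ • hB u (S.κ k x) (fderiv ℂ (S.κ k) x (S.v k x)), ((hJa.mul hga).inv h3).smul hE,
      smul_ne_zero (inv_ne_zero h3) h2, ?_⟩
    filter_upwards [(hJa.mul hga).continuousAt.eventually_ne h3] with x hx
    have hx' : jc (S.κ k) x * g x ≠ 0 := hx
    rw [smul_smul, mul_inv_cancel₀ hx', one_smul]
  by_cases hU0 : u (S.κ k q) = 0
  · -- the curve goes through `q`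
    have hdu : fderiv ℂ u (S.κ k q) ≠ 0 := hu0.self_of_nhds.2 hU0
    have hB' : RegB S Ra k q := by
      rcases hq with h1 | h1
      · exact absurd (hRU.self_of_nhds.2 hU0) (h1.alg.self_of_nhds hq')
      · exact h1
    obtain ⟨G, hGa, hG0, hdG, hGR, hGv⟩ := hB'.crv
    have hUG : ∀ᶠ x in 𝓝 q, (u (S.κ k x) = 0 ↔ G x = 0) := by
      filter_upwards [hRU, hGR] with x h1 h2
      rw [← h1, h2]
    have hdU0 : fderiv ℂ (fun y => u (S.κ k y)) q ≠ 0 := by
      intro h1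
      have h2 : fderiv ℂ (fun y => u (S.κ k y)) q = (fderiv ℂ u (S.κ k q)).comp (fderiv ℂ (S.κ k) q) :=
        (hu.differentiableAt.hasFDerivAt.comp q (hκ q).differentiableAt.hasFDerivAt).fderiv
      apply hdu
      have hinj : Function.Injective (fderiv ℂ (S.κ k) q) := by
        rw [injective_iff_map_eq_zero]
        intro w hw
        exact eq_zero_of_jc hJ hw
      have hsurj : Function.Surjective (fderiv ℂ (S.κ k) q) := by
        have h3 : Function.Injective ((fderiv ℂ (S.κ k) q : ℂ × ℂ →L[ℂ] ℂ × ℂ) : ℂ × ℂ →ₗ[ℂ] ℂ × ℂ) := hinj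
        exact LinearMap.injective_iff_surjective.1 h3
      have key : ∀ y : ℂ × ℂ, fderiv ℂ u (S.κ k q) y = 0 := by
        intro y
        obtain ⟨w, hw⟩ := hsurj y
        have h4 := congrArg (fun L : ℂ × ℂ →L[ℂ] ℂ => L w) (h2.symm.trans h1)
        simpa [hw] using h4
      exact ContinuousLinearMap.ext key
    obtain ⟨b, hba, hb⟩ := exists_quot_smooth hGa hG0 hdG hU (by filter_upwards [hUG] with x hx using hx.2)
    have hdb := quot_fderiv hGa hG0 hba hb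
    have hbq : b q ≠ 0 := quot_ne hdU0 hdb
    rcases hGv with ht | hi
    · -- transversal
      have htU : fderiv ℂ (fun y => u (S.κ k y)) q (S.v k q) ≠ 0 := by
        rw [hdb]
        exact mul_ne_zero hbq ht
      apply hunit
      · intro hg0
        have h1 : fderiv ℂ g q (S.v k q) = 0 := by rw [hc.self_of_nhds, hg0, mul_zero]
        obtain ⟨a', ha', h2⟩ := exists_quot_smooth hga hg0 (hgr.self_of_nhds hg0) hU (by
          filter_upwards [hgh'] with x hx h3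
          rw [hx, h3, zero_mul])
        have h3 := quot_fderiv hga hg0 ha' h2
        exact htU (by rw [h3, h1, mul_zero])
      · intro h1
        exact htU (by rw [hdU.self_of_nhds]; exact (vec3_eq_zero h1).1)
    · -- invariant
      have hinvU : ∀ᶠ x in 𝓝 q, u (S.κ k x) = 0 → fderiv ℂ (fun y => u (S.κ k y)) x (S.v k x) = 0 := by
        have h1 : ∀ᶠ x in 𝓝 q, ∀ᶠ y in 𝓝 x, u (S.κ k y) = G y • b y := eventually_eventually_nhds.2 hb
        filter_upwards [h1, hUG, hi, hGa.eventually_analyticAt, hba.eventually_analyticAt] with x h2 h3 h4 h5 h6 h7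
        have h8 : G x = 0 := h3.1 h7
        rw [quot_fderiv h5 h8 h6 h2, h4 h8, mul_zero]
      obtain ⟨a, haa, ha⟩ := exists_cof hU hU0 hdU0 hv hinvU
      have hhq : h q ≠ 0 := by
        intro hh0
        obtain ⟨hg1, hd1⟩ := hhr.self_of_nhds hh0
        have hdh : fderiv ℂ h q ≠ 0 := fun h1 => hd1 (by rw [h1]; rfl)
        obtain ⟨a', ha', h2⟩ := exists_quot_smooth hha hh0 hdh hU (by
          filter_upwards [hgh'] with x hx h3
          rw [hx, h3, mul_zero])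
        have h3 := quot_fderiv hha hh0 ha' h2
        have h4 := h3 (S.v k q)
        rw [hinvU.self_of_nhds hU0] at h4
        exact quot_ne hdU0 h3 ((mul_eq_zero.1 h4.symm).resolve_right hd1)
      have hg0 : g q = 0 := (mul_eq_zero.1 (hgh'.self_of_nhds.1 hU0)).resolve_right hhq
      obtain ⟨a', ha', h2⟩ := exists_quot_smooth hga hg0 (hgr.self_of_nhds hg0) hU (by
        filter_upwards [hgh'] with x hx h3
        rw [hx, h3, zero_mul])
      have h3 := quot_fderiv hga hg0 ha' h2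
      have ha'q : a' q ≠ 0 := quot_ne hdU0 h3
      refine ⟨fun x => ((jc (S.κ k) x)⁻¹ * a' x) • (WithLp.toLp 2 ![a x, (fderiv ℂ (S.κ k) x (S.v k x)).1, (fderiv ℂ (S.κ k) x (S.v k x)).2] : EN 2),
        ((hJa.inv hJ).mul ha').smul (an_vec3 haa (analyticAt_fst.fun_comp hκv) (analyticAt_snd.fun_comp hκv)),
        smul_ne_zero (mul_ne_zero (inv_ne_zero hJ) ha'q) ?_, ?_⟩
      · intro h4
        obtain ⟨-, h5, h6⟩ := vec3_eq_zero h4
        exact hv0 (eq_zero_of_jc hJ (Prod.ext h5 h6))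
      · filter_upwards [hdU, ha, h2, hJa.continuousAt.eventually_ne hJ] with x h4 h5 h6 h7
        have h8 : hB u (S.κ k x) (fderiv ℂ (S.κ k) x (S.v k x)) =
            u (S.κ k x) • (WithLp.toLp 2 ![a x, (fderiv ℂ (S.κ k) x (S.v k x)).1, (fderiv ℂ (S.κ k) x (S.v k x)).2] : EN 2) := by
          rw [smul_vec3]
          unfold hB
          rw [← h4, h5]
        rw [h8, smul_smul]
        congr 1
        rw [h6, smul_eq_mul]
        field_simp
  · -- the curve does not go through `q`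
    have hg0 : g q ≠ 0 := fun h1 => hU0 (hgh'.self_of_nhds.2 (by rw [h1, zero_mul]))
    refine hunit hg0 fun h1 => ?_
    obtain ⟨-, h2, h3⟩ := vec3_eq_zero h1
    exact hv0 (eq_zero_of_jc hJ (Prod.ext ((mul_eq_zero.1 h2).resolve_left hU0) ((mul_eq_zero.1 h3).resolve_left hU0)))

end Pool.Agent.MQ3
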