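import Pool.Agent.MQ3.NLoc
import Pool.Agent.MQ3.NLocB
import Pool.Agent.MQ3.EtaLoc
import Pool.Agent.MQ.FS

/-!
# MQ3 EtaN: the fields `η` of the boxes

At a point `z` of the open set of the box the local field of `EtaLoc` is `conj Θ - gr eH` outside `z`; so the limits of this function are one field `η`, and
the constants of the finitely many neighbourhoods which cover the compact sets `K k a` of regular chart points bound it.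
-/

set_option autoImplicit false

open Topology Filter Metric MvPolynomial MeasureTheory Laplacian

noncomputable section

namespace Pool.Agent.MQ3

open Pool.Agent.H36.BP (EN fs)
open Pool.Agent.H17BP (Surface IsForm)
open Pool.Agent.H17EF (coneE)
open Pool.Agent.MQ (lam ztv dvg DDv gr dv)

variable {M : ℕ} {P : Ideal (MvPolynomial (Fin (M + 1)) ℂ)} {RD : MvPolynomial (Fin (M + 1)) ℂ} {m : ℕ} {X : NCModel P RD} {θ : WDiff (coneE P) m}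
  {l : LF M} {S : Web X θ l} {Ra : MvPolynomial (Fin (M + 1)) ℂ} {Wf : EN M → EN M → EN M → ℂ} {mK jH : ℕ}

/-- a local field at the point `z`, with the bound `B` -/
def EtaNPt (Wf : EN M → EN M → EN M → ℂ) (mK jH : ℕ) (H : ℂ × ℂ → ℂ × ℂ → EN 2) {F : ℂ → EN M} (Y : NCLift X F) (i : X.ι) (Θ : ℂ → ℂ) (B : ℝ) (z : ℂ) :
    Prop :=
  ∃ η : ℂ → ℂ, ContDiffAt ℝ 1 η z ∧ ‖η z‖ ≤ B ∧ ∀ᶠ w in 𝓝[≠] z, ContDiffAt ℝ 2 (eN H Wf mK jH Y i) w ∧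
    η w = (starRingEnd ℂ) (Θ w) - gr (eH H Wf mK Y i) w ∧ Δ (eN H Wf mK jH Y i) w + dv η w = 2 * jH / mK * lam F w ^ 2

theorem EtaN_hA (p w : ℂ × ℂ) (a : ℂ) : hA p (a • w) = a • hA p w := by
  unfold hA
  rw [← WithLp.toLp_smul]
  congr 1
  ext i
  fin_cases i <;> simp <;> ring

theorem EtaN_hB (u : ℂ × ℂ → ℂ) (p w : ℂ × ℂ) (a : ℂ) : hB u p (a • w) = a • hB u p w := by
  unfold hB
  rw [← WithLp.toLp_smul]
  congr 1
  ext i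
  fin_cases i <;> simp <;> ring

theorem EtaN_ne (k : S.ι) {q : ℂ × ℂ} (h : S.κ k q ∈ DS) : q.1 * q.2 ≠ 0 := by
  have hd := (S.c k).pos
  unfold dt at hd
  intro h0
  have h1 : (S.κ k q).1 = q.1 ^ (S.c k).w.1 * q.2 ^ (S.c k).w'.1 := rfl
  have h2 : (S.κ k q).2 = q.1 ^ (S.c k).w.2 * q.2 ^ (S.c k).w'.2 := rfl
  have h3 := h.1.1
  have h4 := h.2.1
  rw [h1] at h3
  rw [h2] at h4
  rcases mul_eq_zero.1 h0 with h5 | h5 <;> rw [h5] at h3 h4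
  · have h6 : (S.c k).w.1 = 0 := by
      by_contra h6
      exact h3 (by rw [zero_pow h6, zero_mul])
    have h7 : (S.c k).w.2 = 0 := by
      by_contra h7
      exact h4 (by rw [zero_pow h7, zero_mul])
    rw [h6, h7] at hd
    simp at hd
  · have h6 : (S.c k).w'.1 = 0 := by
      by_contra h6
      exact h3 (by rw [zero_pow h6, mul_zero])
    have h7 : (S.c k).w'.2 = 0 := by
      by_contra h7
      exact h4 (by rw [zero_pow h7, mul_zero])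
    rw [h6, h7] at hd
    simp at hd

/-- the local fields near one regular chart point -/
theorem EtaN_loc (hX : Surface (coneE P)) (hm : 1 ≤ mK) (hW : IsForm (coneE P) mK jH Wf) (C : Cov S Ra) (k : Fin C.nN) (a : (S.V (C.b k)).ι) {q : ℂ × ℂ}
    (hq : q ∈ C.K k a) : ∃ N ∈ 𝓝 q, ∃ B : ℝ, ∀ F : ℂ → EN M, RCrv θ RD Ra F → ∀ Y : NCLift X F, WNe Wf Y → ∀ Θ : ℂ → ℂ, IsTh S Wf mK Y Θ →
      ∀ z ∈ S.Om Y ⟨C.b k, a⟩, S.lf Y ⟨C.b k, a⟩ z ∈ N → EtaNPt Wf mK jH (C.H k) Y (C.b k) Θ (B * ‖deriv (S.lf Y ⟨C.b k, a⟩) z‖) z := by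
  -- the equation of the invariant curve and the vector
  obtain ⟨hD, hv, hH, g, hg, L, hL, hL0, hHL⟩ : q ∈ S.D ⟨C.b k, a⟩ ∧ S.v ⟨C.b k, a⟩ q ≠ 0 ∧ (∀ p w (c : ℂ), C.H k p (c • w) = c • C.H k p w) ∧
      ∃ g, InvAt S Ra ⟨C.b k, a⟩ q g ∧ ∃ L : ℂ × ℂ → EN 2, AnalyticAt ℂ L q ∧ L q ≠ 0 ∧
        ∀ᶠ x in 𝓝 q, C.H k (S.κ ⟨C.b k, a⟩ x) (fderiv ℂ (S.κ ⟨C.b k, a⟩) x (S.v ⟨C.b k, a⟩ x)) = (jc (S.κ ⟨C.b k, a⟩) x * g x) • L x := by
    rcases hu : C.u k with _ | u'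
    · have hR := (C.K_A k a hu q hq).1
      obtain ⟨g, hg⟩ := exists_invAt (Or.inl hR)
      have hH : C.H k = hA := by unfold Cov.H; rw [hu]; rfl
      rw [hH]
      exact ⟨hR.mem, hR.v_ne, EtaN_hA, g, hg, nloc_A hR hg⟩
    · obtain ⟨hR, hκ⟩ := C.K_B k a u' hu q hq
      obtain ⟨h1, h2, h3⟩ := C.N_B k u' hu
      obtain ⟨g, hg⟩ := exists_invAt hR
      have hH : C.H k = hB u' := by unfold Cov.H; rw [hu]; rfl
      rw [hH]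
      have hD : q ∈ S.D ⟨C.b k, a⟩ := hR.elim (fun h => h.mem) fun h => h.mem
      have hv : S.v ⟨C.b k, a⟩ q ≠ 0 := hR.elim (fun h => h.v_ne) fun h => h.v_ne
      exact ⟨hD, hv, EtaN_hB u', g, hg, nloc_B hR (EtaN_ne _ (h1 hκ)) (h2 _ hκ) (h3 _ hκ) hg⟩
  obtain ⟨N, hN, B, h⟩ := eta_loc (mK := mK) (jH := jH) hX hm hW hD hv hg hH hL hL0 hHL
  refine ⟨N, hN, B, fun F hF Y hne Θ hΘ z hz hzN => ?_⟩
  obtain ⟨η, ψ, h1, h2, -, -, h3⟩ := h F hF Y hne Θ hΘ z hz hzN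
  exact ⟨η, h1, h2, h3.mono fun w hw => ⟨hw.1, hw.2.1, hw.2.2.1⟩⟩

/-- the local fields over a compact set of regular chart points -/
theorem EtaN_cpt (hX : Surface (coneE P)) (hm : 1 ≤ mK) (hW : IsForm (coneE P) mK jH Wf) (C : Cov S Ra) (k : Fin C.nN) (a : (S.V (C.b k)).ι) :
    ∃ B : ℝ, ∀ F : ℂ → EN M, RCrv θ RD Ra F → ∀ Y : NCLift X F, WNe Wf Y → ∀ Θ : ℂ → ℂ, IsTh S Wf mK Y Θ →
      ∀ z ∈ S.Om Y ⟨C.b k, a⟩, S.lf Y ⟨C.b k, a⟩ z ∈ C.K k a → EtaNPt Wf mK jH (C.H k) Y (C.b k) Θ (B * ‖deriv (S.lf Y ⟨C.b k, a⟩) z‖) z := by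
  refine (C.K_compact k a).induction_on (p := fun s => ∃ B : ℝ, ∀ F : ℂ → EN M, RCrv θ RD Ra F → ∀ Y : NCLift X F, WNe Wf Y → ∀ Θ : ℂ → ℂ, IsTh S Wf mK Y Θ →
      ∀ z ∈ S.Om Y ⟨C.b k, a⟩, S.lf Y ⟨C.b k, a⟩ z ∈ s → EtaNPt Wf mK jH (C.H k) Y (C.b k) Θ (B * ‖deriv (S.lf Y ⟨C.b k, a⟩) z‖) z) ?_ ?_ ?_ ?_
  · exact ⟨0, fun F _ Y _ Θ _ z _ h => h.elim⟩
  · rintro s t hst ⟨B, hB⟩
    exact ⟨B, fun F hF Y hne Θ hΘ z hz h => hB F hF Y hne Θ hΘ z hz (hst h)⟩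
  · rintro s t ⟨B, hB⟩ ⟨B', hB'⟩
    refine ⟨max B B', fun F hF Y hne Θ hΘ z hz h => ?_⟩
    rcases h with h | h
    · obtain ⟨η, h1, h2, h3⟩ := hB F hF Y hne Θ hΘ z hz h
      exact ⟨η, h1, h2.trans (mul_le_mul_of_nonneg_right (le_max_left _ _) (norm_nonneg _)), h3⟩
    · obtain ⟨η, h1, h2, h3⟩ := hB' F hF Y hne Θ hΘ z hz h
      exact ⟨η, h1, h2.trans (mul_le_mul_of_nonneg_right (le_max_right _ _) (norm_nonneg _)), h3⟩
  · intro q hq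
    obtain ⟨N, hN, h⟩ := EtaN_loc (mK := mK) (jH := jH) hX hm hW C k a hq
    exact ⟨N, mem_nhdsWithin_of_mem_nhds hN, h⟩

/-- the limits of a function which has locally a continuous extension -/
theorem EtaN_lim {E η : ℂ → ℂ} {z : ℂ} (hη : ContDiffAt ℝ 1 η z) (h : ∀ᶠ w in 𝓝[≠] z, η w = E w) : (fun w => limUnder (𝓝[≠] w) E) =ᶠ[𝓝 z] η := by
  have h1 : ∀ᶠ w in 𝓝 z, ContinuousAt η w := (hη.eventually (by simp)).mono fun w hw => hw.continuousAt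
  have h2 : ∀ᶠ w in 𝓝 z, w ≠ z → ∀ᶠ w' in 𝓝 w, η w' = E w' := eventually_nhdsWithin_iff.1 (EtaLoc_punct h)
  filter_upwards [h1, h2] with w h3 h4
  have h5 : ∀ᶠ w' in 𝓝[≠] w, η w' = E w' := by
    by_cases hw : w = z
    · rw [hw]; exact h
    · exact (h4 hw).filter_mono nhdsWithin_le_nhds
  exact ((h3.tendsto.mono_left nhdsWithin_le_nhds).congr' h5).limUnder_eq

theorem exists_etaN (hX : Surface (coneE P)) (hm : 1 ≤ mK) (hW : IsForm (coneE P) mK jH Wf) (C : Cov S Ra) (k : Fin C.nN) :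
    ∃ B : ℝ, ∀ F : ℂ → EN M, RCrv θ RD Ra F → ∀ Y : NCLift X F, WNe Wf Y → ∀ Θ : ℂ → ℂ, IsTh S Wf mK Y Θ →
      ∀ (A : ℝ) (lm : ℂ → ℝ), Dens C Y A lm → ∃ η : ℂ → ℂ, ContDiffOn ℝ 1 η (C.UN Y k) ∧ (∀ z ∈ C.UN Y k, ‖η z‖ ≤ B * lm z) ∧
        ∀ z ∈ C.UN Y k, ∀ᶠ w in 𝓝[≠] z, η w + gr (eN (C.H k) Wf mK jH Y (C.b k)) w = (starRingEnd ℂ) (Θ w) + gr (fun w => jH / mK * Real.log ‖F w‖) w ∧
          ContDiffAt ℝ 2 (eN (C.H k) Wf mK jH Y (C.b k)) w ∧ Δ (eN (C.H k) Wf mK jH Y (C.b k)) w + dv η w = 2 * jH / mK * lam F w ^ 2 := by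
  choose B hB using fun a => EtaN_cpt (mK := mK) (jH := jH) hX hm hW C k a
  refine ⟨∑ a, |B a|, fun F hF Y hne Θ hΘ A lm hl => ?_⟩
  -- the local field at a point of the open set
  have hloc : ∀ z ∈ C.UN Y k, ∃ η : ℂ → ℂ, ContDiffAt ℝ 1 η z ∧ ‖η z‖ ≤ (∑ a, |B a|) * lm z ∧ ∀ᶠ w in 𝓝[≠] z,
      ContDiffAt ℝ 2 (eN (C.H k) Wf mK jH Y (C.b k)) w ∧ η w = (starRingEnd ℂ) (Θ w) - gr (eH (C.H k) Wf mK Y (C.b k)) w ∧
        Δ (eN (C.H k) Wf mK jH Y (C.b k)) w + dv η w = 2 * jH / mK * lam F w ^ 2 := by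
    intro z hz
    obtain ⟨hz1, hz2, hz3⟩ := hz
    obtain ⟨a, ha1, ha2⟩ := C.lift F hF.toWCrv Y k z hz1 (ball_subset_closedBall hz2) fun j hj hjb => hz3 j ⟨hj, ball_subset_closedBall hjb⟩
    obtain ⟨η, h1, h2, h3⟩ := hB a F hF Y hne Θ hΘ z ha1 ha2
    refine ⟨η, h1, h2.trans ?_, h3⟩
    have h4 : ‖deriv (S.lf Y ⟨C.b k, a⟩) z‖ ≤ lm z := hl.chart k a z ha1 ha2
    have h5 : |B a| ≤ ∑ a, |B a| := Finset.single_le_sum (f := fun a => |B a|) (fun _ _ => abs_nonneg _) (Finset.mem_univ a)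
    calc B a * ‖deriv (S.lf Y ⟨C.b k, a⟩) z‖ ≤ |B a| * ‖deriv (S.lf Y ⟨C.b k, a⟩) z‖ := mul_le_mul_of_nonneg_right (le_abs_self _) (norm_nonneg _)
      _ ≤ (∑ a, |B a|) * lm z := mul_le_mul h5 h4 (norm_nonneg _) ((abs_nonneg _).trans h5)
  refine ⟨fun w => limUnder (𝓝[≠] w) fun w => (starRingEnd ℂ) (Θ w) - gr (eH (C.H k) Wf mK Y (C.b k)) w, fun z hz => ?_, fun z hz => ?_, fun z hz => ?_⟩
  · obtain ⟨η, h1, -, h3⟩ := hloc z hz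
    exact (h1.congr_of_eventuallyEq (EtaN_lim h1 (h3.mono fun w hw => hw.2.1))).contDiffWithinAt
  · obtain ⟨η, h1, h2, h3⟩ := hloc z hz
    have h4 := (EtaN_lim h1 (h3.mono fun w hw => hw.2.1)).self_of_nhds
    simp only at h4 ⊢
    rw [h4]
    exact h2
  · obtain ⟨η, h1, -, h3⟩ := hloc z hz
    have h4 := EtaN_lim h1 (h3.mono fun w hw => hw.2.1)
    have hF0 : ∀ w, F w ≠ 0 := fun w h0 => hX.zero (by have := hF.mem w; rwa [h0] at this)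
    filter_upwards [h3, h4.eventuallyEq_nhds.filter_mono nhdsWithin_le_nhds] with w h5 h6
    obtain ⟨h7, h8, h9⟩ := h5
    have h10 := h6.self_of_nhds
    have h11 : ContDiffAt ℝ 2 (fun w => (jH / mK : ℝ) * Real.log ‖F w‖) w :=
      contDiffAt_const.mul (Pool.Agent.MQ.contDiffAt_log_norm (hF.diff.analyticAt w) (hF0 w))
    have h12 : DifferentiableAt ℝ (eH (C.H k) Wf mK Y (C.b k)) w := by
      have h13 : eH (C.H k) Wf mK Y (C.b k) = fun w => eN (C.H k) Wf mK jH Y (C.b k) w - (jH / mK : ℝ) * Real.log ‖F w‖ := by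
        funext w
        unfold eN
        ring
      rw [h13]
      exact (h7.differentiableAt (by norm_num)).sub (h11.differentiableAt (by norm_num))
    have h14 : gr (eN (C.H k) Wf mK jH Y (C.b k)) w = gr (eH (C.H k) Wf mK Y (C.b k)) w + gr (fun w => (jH / mK : ℝ) * Real.log ‖F w‖) w :=
      Pool.Agent.MQ.gr_add h12 (h11.differentiableAt (by norm_num))
    refine ⟨?_, h7, ?_⟩
    · simp only at h10 ⊢
      rw [h10, h8, h14]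
      ring
    · rw [Pool.Agent.MQ.dv_congr h6]
      exact h9

end Pool.Agent.MQ3
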