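import Pool.Agent.MQ3.BoxW

/-!
# MQ3 BLift: the lift of the curve to a monomial chart
-/

set_option autoImplicit false

open Topology Filter Metric MvPolynomial MeasureTheory

noncomputable section

namespace Pool.Agent.MQ3

open Pool.Agent.H36.BP (EN fs)
open Pool.Agent.H17BP (Surface)

variable {M : ℕ} {X : Set (EN M)} {m : ℕ} {θ : WDiff X m} {l : LF M} {ρ : ℂ × ℂ → EN M} {W : BoxWeb θ l ρ} {F : ℂ → EN M} {U : Set ℂ}
  {p : ℂ → ℂ × ℂ}

theorem BCrv.lft (h : BCrv θ l ρ F U p) (c : MChart W) :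
    Lft W.T c.k c.w c.w' U (fun z => (p z).1) (fun z => (p z).2) (slp l F) (c.Om F U p) (fun z => (c.lf F U p z).1) (fun z => (c.lf F U p z).2) :=
  lift W.web c.basis (BCrv.crv h).1

theorem om_open (h : BCrv θ l ρ F U p) (c : MChart W) : IsOpen (c.Om F U p) := (h.lft c).op

theorem om_sub (h : BCrv θ l ρ F U p) (c : MChart W) : c.Om F U p ⊆ U := (h.lft c).sub

theorem lf_an (h : BCrv θ l ρ F U p) (c : MChart W) : ∀ z ∈ c.Om F U p, AnalyticAt ℂ (c.lf F U p) z :=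
  fun z hz => ((h.lft c).s_an z hz).prod ((h.lft c).t_an z hz)

theorem lf_mem (h : BCrv θ l ρ F U p) (c : MChart W) : ∀ z ∈ c.Om F U p, c.lf F U p z ∈ c.D ∧ c.κ (c.lf F U p z) = p z := by
  intro z hz
  have h1 : c.κ (c.lf F U p z) = p z := Prod.ext ((h.lft c).eq_x z hz).symm ((h.lft c).eq_y z hz).symm
  refine ⟨?_, h1⟩
  have h2 : c.κ (c.lf F U p z) ∈ DD := by
    rw [h1]
    exact h.mem z (om_sub h c hz)
  exact h2

theorem lf_ev (h : BCrv θ l ρ F U p) (c : MChart W) : ∀ z ∈ c.Om F U p, ∀ᶠ w in 𝓝[≠] z, w ∈ c.Om F U p ∧ (c.lf F U p w).1 * (c.lf F U p w).2 ≠ 0 ∧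
    p w ∈ DS ∧ deriv p w ≠ 0 := by
  intro z hz
  filter_upwards [h.ne z (om_sub h c hz), h.nc z (om_sub h c hz), eventually_nhdsWithin_of_eventually_nhds ((om_open h c).mem_nhds hz)] with w h1 h2 h3
  refine ⟨h3, ?_, ⟨⟨h1.1, (h.mem w (om_sub h c h3)).1⟩, h1.2, (h.mem w (om_sub h c h3)).2⟩, h2⟩
  intro h4
  have e1 := (h.lft c).eq_x w h3
  have e2 := (h.lft c).eq_y w h3
  have hd := c.basis.det
  have hx := h1.1
  have hy := h1.2
  rw [e1] at hx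
  rw [e2] at hy
  rcases mul_eq_zero.1 h4 with h5 | h5
  · rw [h5] at hx hy
    have w1 : c.w.1 = 0 := by
      by_contra hne
      exact hx (by rw [zero_pow hne, zero_mul])
    have w2 : c.w.2 = 0 := by
      by_contra hne
      exact hy (by rw [zero_pow hne, zero_mul])
    apply hd
    rw [dt, w1, w2]
    simp
  · rw [h5] at hx hy
    have w1 : c.w'.1 = 0 := by
      by_contra hne
      exact hx (by rw [zero_pow hne, mul_zero])
    have w2 : c.w'.2 = 0 := by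
      by_contra hne
      exact hy (by rw [zero_pow hne, mul_zero])
    apply hd
    rw [dt, w1, w2]
    simp

/-- the derivative of the curve in the box -/
theorem lf_deriv (h : BCrv θ l ρ F U p) (c : MChart W) {z : ℂ} (hz : z ∈ c.Om F U p) :
    deriv p z = fderiv ℂ (mono c.w c.w') (c.lf F U p z) (deriv (c.lf F U p) z) := by
  have h1 : HasDerivAt (fun w => mono c.w c.w' (c.lf F U p w)) (fderiv ℂ (mono c.w c.w') (c.lf F U p z) (deriv (c.lf F U p) z)) z :=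
    (analyticAt_mono (c.lf F U p z)).differentiableAt.hasFDerivAt.comp_hasDerivAt z (lf_an h c z hz).differentiableAt.hasDerivAt
  have h2 : (fun w => mono c.w c.w' (c.lf F U p w)) =ᶠ[𝓝 z] p := by
    filter_upwards [(om_open h c).mem_nhds hz] with w hw using (lf_mem h c w hw).2
  rw [← h2.deriv_eq, h1.deriv]

theorem lf_ne (h : BCrv θ l ρ F U p) (c : MChart W) : ∀ z ∈ c.Om F U p, ∀ᶠ w in 𝓝[≠] z, (c.lf F U p w).1 * (c.lf F U p w).2 ≠ 0 ∧
    deriv (c.lf F U p) w ≠ 0 := by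
  intro z hz
  filter_upwards [lf_ev h c z hz] with w hw
  refine ⟨hw.2.1, fun h1 => hw.2.2.2 ?_⟩
  rw [lf_deriv h c hw.1, h1, map_zero]

/-- off the axes the slope is the value of the sheet -/
theorem lf_slope (h : BCrv θ l ρ F U p) (c : MChart W) : ∀ z ∈ c.Om F U p, ∀ P : ℂ × ℂ, pexp P = c.lf F U p z → slp l F z = W.T c.k (ln c.w c.w' P) := by
  intro z hz P hP
  exact (h.lft c).root z hz P.1 P.2 (congrArg Prod.fst hP) (congrArg Prod.snd hP)

/-- the lift is tangent to the foliation -/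
theorem lf_tan (h : BCrv θ l ρ F U p) (c : MChart W) : ∀ z ∈ c.Om F U p,
    (c.v (c.lf F U p z)).1 * (deriv (c.lf F U p) z).2 = (c.v (c.lf F U p z)).2 * (deriv (c.lf F U p) z).1 := by
  intro z hz
  have hev : ∀ᶠ w in 𝓝[≠] z, (c.v (c.lf F U p w)).1 * (deriv (c.lf F U p) w).2 = (c.v (c.lf F U p w)).2 * (deriv (c.lf F U p) w).1 := by
    filter_upwards [lf_ev h c z hz] with w ⟨hw, h0, hS, hd⟩
    set q := c.lf F U p w with hq
    have h1 : pexp (Complex.log q.1, Complex.log q.2) = q :=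
      Prod.ext (Complex.exp_log (left_ne_zero_of_mul h0)) (Complex.exp_log (right_ne_zero_of_mul h0))
    have h2 := lf_slope h c w hw _ (h1.trans hq)
    have h3 : pexp (ln c.w c.w' (Complex.log q.1, Complex.log q.2)) = p w := by
      rw [pexp_ln, h1, hq]
      exact (lf_mem h c w hw).2
    have h4 : ln c.w c.w' (Complex.log q.1, Complex.log q.2) ∈ HH := by
      rw [mem_HH_iff, h3]
      exact h.mem w (om_sub h c hw)
    have h5 := c.v_eq _ h4 (deriv (c.lf F U p) w)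
    rw [h1, h3, ← h2, hq, ← lf_deriv h c hw] at h5
    obtain ⟨a, ha, -⟩ := (BCrv.crv (W := W) h).2.2 w (om_sub h c hw) hS
    have h6 : (v₁ l ρ (p w) + slp l F w • v₂ l ρ (p w)).1 * (deriv p w).2 - (v₁ l ρ (p w) + slp l F w • v₂ l ρ (p w)).2 * (deriv p w).1 = 0 := by
      rw [ha]
      simp only [Prod.smul_fst, Prod.smul_snd, smul_eq_mul]
      ring
    rw [h6, mul_zero] at h5
    have h7 : (c.lf F U p w).1 ^ c.i * (c.lf F U p w).2 ^ c.j ≠ 0 :=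
      mul_ne_zero (pow_ne_zero _ (left_ne_zero_of_mul h0)) (pow_ne_zero _ (right_ne_zero_of_mul h0))
    exact sub_eq_zero.1 ((mul_eq_zero.1 h5.symm).resolve_left h7)
  have hlf := lf_an h c z hz
  have hv : ContinuousAt (fun w => c.v (c.lf F U p w)) z := ((c.v_an _ (lf_mem h c z hz).1).continuousAt).comp' hlf.continuousAt
  have hdc := hlf.deriv.continuousAt
  exact eq_of_punct (f := fun w => (c.v (c.lf F U p w)).1 * (deriv (c.lf F U p) w).2) (g := fun w => (c.v (c.lf F U p w)).2 * (deriv (c.lf F U p) w).1)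
    (hv.fst.mul hdc.snd) (hv.snd.mul hdc.fst) hev

theorem lf_closed (h : BCrv θ l ρ F U p) (c : MChart W) {C : Set ℂ} (hC : IsClosed C) (hCU : C ⊆ U) {K : Set (ℂ × ℂ)} (hK : IsCompact K) :
    IsClosed {z | z ∈ C ∧ z ∈ c.Om F U p ∧ c.lf F U p z ∈ K} := by
  obtain ⟨R, hR⟩ := hK.isBounded.exists_norm_le
  have h1 := (h.lft c).closed C hC hCU R
  have h2 : {z | z ∈ C ∧ z ∈ c.Om F U p ∧ c.lf F U p z ∈ K} =
      {z | z ∈ C ∧ z ∈ c.Om F U p ∧ ‖(c.lf F U p z).1‖ ≤ R ∧ ‖(c.lf F U p z).2‖ ≤ R} ∩ {z | z ∈ c.Om F U p → c.lf F U p z ∈ K} := by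
    ext z
    constructor
    · rintro ⟨g1, g2, g3⟩
      exact ⟨⟨g1, g2, (norm_fst_le _).trans (hR _ g3), (norm_snd_le _).trans (hR _ g3)⟩, fun _ => g3⟩
    · rintro ⟨⟨g1, g2, g3⟩, g4⟩
      exact ⟨g1, g2, g4 g2⟩
  rw [h2]
  have hcont : ContinuousOn (c.lf F U p) {z | z ∈ C ∧ z ∈ c.Om F U p ∧ ‖(c.lf F U p z).1‖ ≤ R ∧ ‖(c.lf F U p z).2‖ ≤ R} :=
    fun z hz => (lf_an h c z hz.2.1).continuousAt.continuousWithinAt
  have h3 := hcont.preimage_isClosed_of_isClosed h1 hK.isClosed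
  have h4 : {z | z ∈ C ∧ z ∈ c.Om F U p ∧ ‖(c.lf F U p z).1‖ ≤ R ∧ ‖(c.lf F U p z).2‖ ≤ R} ∩ {z | z ∈ c.Om F U p → c.lf F U p z ∈ K} =
      {z | z ∈ C ∧ z ∈ c.Om F U p ∧ ‖(c.lf F U p z).1‖ ≤ R ∧ ‖(c.lf F U p z).2‖ ≤ R} ∩ c.lf F U p ⁻¹' K := by
    ext z
    constructor
    · rintro ⟨g1, g2⟩
      exact ⟨g1, g2 g1.2.1⟩
    · rintro ⟨g1, g2⟩
      exact ⟨g1, fun _ => g2⟩
  rw [h4]
  exact h3

theorem om_disjoint (h : BCrv θ l ρ F U p) (c c' : MChart W) (hcc : ∀ r s : ℤ, (W.a ^ r * W.b ^ s) c.k ≠ c'.k) {z : ℂ} (hz : z ∈ c.Om F U p) :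
    z ∉ c'.Om F U p := by
  intro hz'
  obtain ⟨w, ⟨⟨hw, -, hS, -⟩, ⟨hw', -, -, -⟩⟩⟩ := ((lf_ev h c z hz).and (lf_ev h c' z hz')).exists
  have h1 := ((h.lft c).mem w hS.1.1 hS.2.1).1 hw
  have h2 := ((h.lft c').mem w hS.1.1 hS.2.1).1 hw'
  obtain ⟨-, -, -, v, e1, e2, e3⟩ := h1
  obtain ⟨-, -, -, v', e1', e2', e3'⟩ := h2
  obtain ⟨r, s, hrs⟩ := exists_per (v := v) (v' := v') (e1'.trans e1.symm) (e2'.trans e2.symm)
  have hv : v ∈ HH := HH_of_exp (x := fun z => (p z).1) (y := fun z => (p z).2) hS.1.2 hS.2.2 e1 e2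
  have h3 : W.T c.k v = W.T ((W.a ^ r * W.b ^ s) c'.k) v := by
    rw [← e3, e3', hrs, W.web.mon c'.k hv]
  have h4 := W.web.inj v hv _ _ h3
  apply hcc (-r) (-s)
  rw [h4, ← Equiv.Perm.mul_apply]
  have hab := W.web.comm
  have h5 : Commute (W.b ^ (-s)) (W.a ^ r) := (hab.symm.zpow_right r).zpow_left (-s)
  have h6 : (W.a ^ (-r) * W.b ^ (-s)) * (W.a ^ r * W.b ^ s) = 1 := by
    rw [mul_assoc, ← mul_assoc (W.b ^ (-s)), h5.eq, mul_assoc, ← mul_assoc, ← zpow_add, ← zpow_add]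
    simp
  rw [h6]
  rfl

end Pool.Agent.MQ3
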