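import Pool.Agent.MQ3.NDefs
import Pool.Agent.MQ3.BLift

/-!
# MQ3 LfN: the lifts of the curves of the theorem to the charts

The curve in a box of the model is a curve of the kind `BCrv`: the divisor is an algebraic curve which does not contain the curve, and the curve is not
contained in a point.  The rest is `BLift`.
-/

set_option autoImplicit false

open Topology Filter Metric MvPolynomial MeasureTheory Laplacian

noncomputable section

namespace Pool.Agent.MQ3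

open Pool.Agent.H36.BP (EN fs)
open Pool.Agent.H17BP (Surface)
open Pool.Agent.H17EF (projVar coneE)
open Pool.Agent.MQ (ztv)

variable {M : ℕ} {P : Ideal (MvPolynomial (Fin (M + 1)) ℂ)} {RD : MvPolynomial (Fin (M + 1)) ℂ} {m : ℕ} {X : NCModel P RD} {θ : WDiff (coneE P) m}
  {l : LF M} {S : Web X θ l}

/-! ### the curve in the plane -/

private theorem eval_smul_hom' {Q : MvPolynomial (Fin (M + 1)) ℂ} {d : ℕ} (hQ : Q.IsHomogeneous d) (c : ℂ) (x : EN M) :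
    eval (c • x).ofLp Q = c ^ d * eval x.ofLp Q := by
  have h0 : (c • x).ofLp = fun i => c * x.ofLp i := rfl
  rw [h0, eval_eq', eval_eq', Finset.mul_sum]
  refine Finset.sum_congr rfl fun s hs => ?_
  have h1 : ∑ i, s i = d := by
    have h2 := hQ (mem_support_iff.1 hs)
    rw [← h2, Finsupp.weight_apply, Finsupp.sum_fintype]
    · simp
    · simp
  simp only [mul_pow, Finset.prod_mul_distrib, Finset.prod_pow_eq_pow_sum, h1]
  ring

private theorem coneE_ne {x : EN M} (hx : x ∈ coneE P) : x ≠ 0 := by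
  intro h
  have h1 : ((Pool.Agent.H17EF.LE M).symm x) ∈ Pool.Agent.H13.SM.cone P := hx
  exact h1.1 (by rw [h, map_zero])

variable {F : ℂ → EN M}

private theorem coord_an (hF : Differentiable ℂ F) (z : ℂ) (i : Fin (M + 1)) : AnalyticAt ℂ (fun w => (F w).ofLp i) z := by
  have h1 : AnalyticAt ℂ F z := hF.analyticAt z
  exact ((EuclideanSpace.proj i : EN M →L[ℂ] ℂ).analyticAt _).comp h1

private theorem eval_an (hF : Differentiable ℂ F) (Q : MvPolynomial (Fin (M + 1)) ℂ) (z : ℂ) : AnalyticAt ℂ (fun w => eval (F w).ofLp Q) z := by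
  refine (AnalyticAt.aeval_mvPolynomial (fun i => coord_an hF z i) Q).congr (Eventually.of_forall fun y => ?_)
  exact congrArg (fun f : MvPolynomial (Fin (M + 1)) ℂ →+* ℂ => f Q) (MvPolynomial.coe_aeval_eq_eval (F y).ofLp)

private theorem eval_ne (hF : Differentiable ℂ F) {Q : MvPolynomial (Fin (M + 1)) ℂ} (h : ∃ z, eval (F z).ofLp Q ≠ 0) (z : ℂ) :
    ∀ᶠ w in 𝓝[≠] z, eval (F w).ofLp Q ≠ 0 := by
  rcases (eval_an hF Q z).eventually_eq_zero_or_eventually_ne_zero with h1 | h1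
  · exfalso
    obtain ⟨w, hw⟩ := h
    have h2 : AnalyticOnNhd ℂ (fun w => eval (F w).ofLp Q) Set.univ := fun w _ => eval_an hF Q w
    exact hw (h2.eqOn_zero_of_preconnected_of_eventuallyEq_zero isPreconnected_univ (Set.mem_univ z) h1 (Set.mem_univ w))
  · exact h1

/-- a curve which is contained in a line near a point is constant -/
private theorem const_line (hF : Differentiable ℂ F) (hm : ∀ z, F z ∈ coneE P) {z : ℂ} (h : ∀ᶠ w in 𝓝 z, ∃ c : ℂ, F w = c • F z) (a b : ℂ) :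
    ∃ c : ℂ, F a = c • F b := by
  have h0 : ∀ i j, ∀ w, (F w).ofLp i * (F z).ofLp j = (F w).ofLp j * (F z).ofLp i := by
    intro i j w
    have h2 : AnalyticOnNhd ℂ (fun w => (F w).ofLp i * (F z).ofLp j - (F w).ofLp j * (F z).ofLp i) Set.univ := fun w _ =>
      ((coord_an hF w i).mul analyticAt_const).sub ((coord_an hF w j).mul analyticAt_const)
    have h3 : (fun w => (F w).ofLp i * (F z).ofLp j - (F w).ofLp j * (F z).ofLp i) =ᶠ[𝓝 z] 0 := by
      filter_upwards [h] with w hw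
      obtain ⟨c, hc⟩ := hw
      show (F w).ofLp i * (F z).ofLp j - (F w).ofLp j * (F z).ofLp i = 0
      rw [hc, PiLp.smul_apply, PiLp.smul_apply, smul_eq_mul, smul_eq_mul]
      ring
    exact sub_eq_zero.1 (h2.eqOn_zero_of_preconnected_of_eventuallyEq_zero isPreconnected_univ (Set.mem_univ z) h3 (Set.mem_univ w))
  obtain ⟨j, hj⟩ : ∃ j, (F z).ofLp j ≠ 0 := by
    by_contra hcon
    push Not at hcon
    apply coneE_ne (hm z)
    ext j
    exact hcon j
  have h1 : ∀ w, F w = ((F w).ofLp j / (F z).ofLp j) • F z := by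
    intro w
    ext i
    rw [PiLp.smul_apply, smul_eq_mul, div_mul_eq_mul_div, eq_div_iff hj]
    exact h0 i j w
  have h2 : ∀ w, (F w).ofLp j / (F z).ofLp j ≠ 0 := by
    intro w h2
    have h3 := h1 w
    rw [h2, zero_smul] at h3
    exact coneE_ne (hm w) h3
  refine ⟨(F a).ofLp j / (F z).ofLp j * ((F b).ofLp j / (F z).ofLp j)⁻¹, ?_⟩
  have h3 : ∀ r s : ℂ, s ≠ 0 → F a = r • F z → F b = s • F z → F a = (r * s⁻¹) • F b := by
    intro r s hs e1 e2
    rw [e1, e2, smul_smul, mul_assoc, inv_mul_cancel₀ hs, mul_one]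
  exact h3 _ _ (h2 b) (h1 a) (h1 b)

/-! ### the curve in the boxes -/

/-- `RD` is homogeneous: `F z = c ρ (p z)`, so `p z` is off the axes where `RD (F z) ≠ 0` -/
theorem bcrv (hF : WCrv θ RD F) (Y : NCLift X F) (i : X.ι) : BCrv θ l (X.ρ i) F (Y.U i) (Y.p i) where
  isOpen := Y.isOpen i
  F_an := fun z => hF.diff.analyticAt z
  tan := fun z _ => hF.tan z
  p_an := Y.an i
  mem := fun z hz => X.sub i (Y.mem i z hz)
  ne := by
    intro z hz
    obtain ⟨d, hd⟩ := hF.hom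
    filter_upwards [eval_ne hF.diff hF.ne z, eventually_nhdsWithin_of_eventually_nhds ((Y.isOpen i).mem_nhds hz)] with w h1 h2
    obtain ⟨c, -, hc⟩ := Y.eq i w h2
    have h3 : eval (X.ρ i (Y.p i w)).ofLp RD ≠ 0 := by
      intro h3
      apply h1
      rw [hc, eval_smul_hom' hd, h3, mul_zero]
    have h4 : (Y.p i w).1 * (Y.p i w).2 ≠ 0 := fun h4 => h3 ((X.div i _ (Y.mem i w h2)).2 h4)
    exact ⟨left_ne_zero_of_mul h4, right_ne_zero_of_mul h4⟩
  nc := by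
    intro z hz
    rcases (Y.an i z hz).deriv.eventually_eq_zero_or_eventually_ne_zero with h1 | h1
    · exfalso
      obtain ⟨a, b, hab⟩ := hF.nc
      have h2 : ∀ᶠ w in 𝓝 z, Y.p i w = Y.p i z := by
        obtain ⟨r, hr, hball⟩ := Metric.eventually_nhds_iff_ball.1 (h1.and ((Y.isOpen i).mem_nhds hz))
        filter_upwards [ball_mem_nhds z hr] with w hw
        exact (convex_ball z r).is_const_of_fderivWithin_eq_zero (𝕜 := ℂ)
          (fun x hx => ((Y.an i x (hball x hx).2).differentiableAt.differentiableWithinAt))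
          (fun x hx => by
            rw [fderivWithin_of_isOpen isOpen_ball hx, ← toSpanSingleton_deriv, (hball x hx).1]
            simp) hw (mem_ball_self hr)
      have h3 : ∀ᶠ w in 𝓝 z, ∃ c : ℂ, F w = c • F z := by
        filter_upwards [h2, (Y.isOpen i).mem_nhds hz] with w hw hwU
        obtain ⟨c, -, hc⟩ := Y.eq i w hwU
        obtain ⟨c', hc', hc2⟩ := Y.eq i z hz
        refine ⟨c * c'⁻¹, ?_⟩
        rw [hc2, smul_smul, mul_assoc, inv_mul_cancel₀ hc', mul_one, ← hw]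
        exact hc
      obtain ⟨c, hc⟩ := const_line hF.diff hF.mem h3 a b
      exact hab c hc
    · exact h1
  eq := Y.eq i

theorem Om_open (hF : WCrv θ RD F) (Y : NCLift X F) (k : S.ι) : IsOpen (S.Om Y k) := om_open (bcrv hF Y k.1) (S.c k)

theorem Om_sub (hF : WCrv θ RD F) (Y : NCLift X F) (k : S.ι) : S.Om Y k ⊆ Y.U k.1 := om_sub (bcrv hF Y k.1) (S.c k)

theorem lfN_an (hF : WCrv θ RD F) (Y : NCLift X F) (k : S.ι) : ∀ z ∈ S.Om Y k, AnalyticAt ℂ (S.lf Y k) z := lf_an (bcrv hF Y k.1) (S.c k)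

theorem lfN_mem (hF : WCrv θ RD F) (Y : NCLift X F) (k : S.ι) :
    ∀ z ∈ S.Om Y k, S.lf Y k z ∈ S.D k ∧ S.κ k (S.lf Y k z) = Y.p k.1 z := by
  intro z hz
  obtain ⟨h1, h2⟩ := lf_mem (bcrv hF Y k.1) (S.c k) z hz
  have h3 : S.κ k (S.lf Y k z) = Y.p k.1 z := h2
  refine ⟨⟨h1, ?_⟩, h3⟩
  rw [h3]
  exact Y.mem k.1 z (Om_sub hF Y k hz)

theorem lfN_tan (hF : WCrv θ RD F) (Y : NCLift X F) (k : S.ι) :
    ∀ z ∈ S.Om Y k, (S.v k (S.lf Y k z)).1 * (deriv (S.lf Y k) z).2 - (S.v k (S.lf Y k z)).2 * (deriv (S.lf Y k) z).1 = 0 := by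
  intro z hz
  exact sub_eq_zero.2 (lf_tan (bcrv hF Y k.1) (S.c k) z hz)

theorem lfN_ne (hF : WCrv θ RD F) (Y : NCLift X F) (k : S.ι) :
    ∀ z ∈ S.Om Y k, ∀ᶠ w in 𝓝[≠] z, (S.lf Y k w).1 * (S.lf Y k w).2 ≠ 0 ∧ deriv (S.lf Y k) w ≠ 0 ∧ S.v k (S.lf Y k w) ≠ 0 ∧ ztv (S.v k) (S.lf Y k) w ≠ 0 ∧
      jc (S.κ k) (S.lf Y k w) ≠ 0 := by
  intro z hz
  have h1 : ∀ᶠ w in 𝓝[≠] z, (S.lf Y k w).1 * (S.lf Y k w).2 ≠ 0 ∧ deriv (S.lf Y k) w ≠ 0 := lf_ne (bcrv hF Y k.1) (S.c k) z hz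
  have ha : AnalyticAt ℂ (S.lf Y k) z := lfN_an hF Y k z hz
  have h2 : ∀ᶠ w in 𝓝[≠] z, S.lf Y k w ≠ S.lf Y k z := by
    rcases ha.eventually_eq_or_eventually_ne (analyticAt_const (v := S.lf Y k z)) with h2 | h2
    · exfalso
      have h3 : deriv (S.lf Y k) =ᶠ[𝓝 z] fun _ => 0 := by
        have h4 : S.lf Y k =ᶠ[𝓝 z] fun _ => S.lf Y k z := h2
        have h5 := h4.deriv
        simpa using h5
      obtain ⟨w, hw1, hw2⟩ := (h1.and (h3.filter_mono nhdsWithin_le_nhds)).exists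
      exact hw1.2 hw2
    · exact h2
  have h3 : ∀ᶠ w in 𝓝[≠] z, S.lf Y k w ≠ S.lf Y k z → (S.c k).v (S.lf Y k w) ≠ 0 :=
    (ha.continuousAt.tendsto.eventually ((S.c k).v_iso _ (lf_mem (bcrv hF Y k.1) (S.c k) z hz).1)).filter_mono nhdsWithin_le_nhds
  filter_upwards [h1, h2, h3, eventually_nhdsWithin_of_eventually_nhds ((Om_open hF Y k).mem_nhds hz)] with w g1 g2 g3 g4
  have g5 : S.v k (S.lf Y k w) ≠ 0 := g3 g2
  refine ⟨g1.1, g1.2, g5, ?_, ?_⟩
  · have g6 := lfN_tan hF Y k w g4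
    classical
    unfold ztv
    split_ifs with g7
    · have g8 : (S.v k (S.lf Y k w)).1 ≠ 0 := fun g8 => g5 (Prod.ext g8 g7)
      rw [g7, zero_mul, sub_zero] at g6
      have g9 := (mul_eq_zero.1 g6).resolve_left g8
      exact div_ne_zero (fun g10 => g1.2 (Prod.ext g10 g9)) g8
    · refine div_ne_zero (fun g8 => g1.2 ?_) g7
      rw [g8, mul_zero, zero_sub, neg_eq_zero] at g6
      exact Prod.ext ((mul_eq_zero.1 g6).resolve_left g7) g8
  · have g6 := jac_mono_ne (w := (S.c k).w) (w' := (S.c k).w') (S.c k).basis.det g1.1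
    intro g7
    apply g6
    have g8 : jc (S.κ k) (S.lf Y k w) = (fderiv ℂ (mono (S.c k).w (S.c k).w') (S.lf Y k w) (1, 0)).1 *
        (fderiv ℂ (mono (S.c k).w (S.c k).w') (S.lf Y k w) (0, 1)).2 -
        (fderiv ℂ (mono (S.c k).w (S.c k).w') (S.lf Y k w) (0, 1)).1 * (fderiv ℂ (mono (S.c k).w (S.c k).w') (S.lf Y k w) (1, 0)).2 := rfl
    rw [g7] at g8
    linear_combination -g8

theorem lfN_closed (hF : WCrv θ RD F) (Y : NCLift X F) (k : S.ι) {K : Set (ℂ × ℂ)} (hK : IsCompact K) (hKD : K ⊆ S.D k) :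
    IsClosed {z | z ∈ S.Om Y k ∧ S.lf Y k z ∈ K} := by
  have hκ : Continuous (S.κ k) := by
    have h1 : ∀ q, AnalyticAt ℂ (S.κ k) q := fun q => analyticAt_mono q
    exact continuous_iff_continuousAt.2 fun q => (h1 q).continuousAt
  have h1 : S.κ k '' K ⊆ X.B k.1 := by
    rintro _ ⟨q, hq, rfl⟩
    exact (hKD hq).2
  have h2 := Y.closed k.1 _ h1 (hK.image hκ)
  have h3 := lf_closed (bcrv hF Y k.1) (S.c k) h2 (fun z hz => hz.1) hK
  have h4 : {z | z ∈ S.Om Y k ∧ S.lf Y k z ∈ K} =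
      {z | z ∈ {z | z ∈ Y.U k.1 ∧ Y.p k.1 z ∈ S.κ k '' K} ∧ z ∈ (S.c k).Om F (Y.U k.1) (Y.p k.1) ∧ (S.c k).lf F (Y.U k.1) (Y.p k.1) z ∈ K} := by
    ext z
    constructor
    · rintro ⟨g1, g2⟩
      refine ⟨⟨Om_sub hF Y k g1, ⟨_, g2, (lfN_mem hF Y k z g1).2⟩⟩, g1, g2⟩
    · rintro ⟨-, g1, g2⟩
      exact ⟨g1, g2⟩
  rw [h4]
  exact h3

/-- every point over a box has a lift in the unit bidisc of a chart over this box -/
theorem lfN_cover (hF : WCrv θ RD F) (Y : NCLift X F) (i : X.ι) :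
    ∀ z ∈ Y.U i, ∃ a : (S.V i).ι, z ∈ S.Om Y ⟨i, a⟩ ∧ ‖(S.lf Y ⟨i, a⟩ z).1‖ ≤ 1 ∧ ‖(S.lf Y ⟨i, a⟩ z).2‖ ≤ 1 :=
  fun z hz => (S.V i).cover F (Y.U i) (Y.p i) (bcrv hF Y i) z hz

end Pool.Agent.MQ3
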