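import Pool.Agent.H30M.Mean
import Pool.Agent.MQ.Frame

/-!
# MQ3 LogS0: logarithmic singularities, general lemmas

`log ‖f‖` for a vector valued analytic function `f` (Euclidean norm), for a pair of analytic functions, for `ζ'` (`ztv`); the coefficient is `≥ 0` if the function
is bounded above.
-/

set_option autoImplicit false

open Topology Filter Metric

noncomputable section

namespace Pool.Agent.MQ3

open Pool.Agent.H30M
open Pool.Agent.MQ (Crv1 ztv)

/-- `log ‖f‖`, `f` analytic with values in a complex inner product space -/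
theorem logSing_norm {E : Type*} [NormedAddCommGroup E] [InnerProductSpace ℂ E] [CompleteSpace E] {f : ℂ → E} {z : ℂ} (hf : AnalyticAt ℂ f z)
    (h : ∃ᶠ w in 𝓝 z, f w ≠ 0) : ∃ k : ℕ, LogSing (fun w => Real.log ‖f w‖) k z := by
  obtain ⟨k, g, hg, hg0, he⟩ := hf.exists_eventuallyEq_pow_smul_nonzero_iff.2 (by
    intro h0
    exact h (h0.mono fun w hw h1 => h1 hw))
  refine ⟨k, fun w => Real.log ‖g w‖, ?_, ?_⟩
  · have h1 : ContDiffAt ℝ 2 g z := (hg.contDiffAt (n := 2)).restrict_scalars ℝ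
    exact (h1.norm ℂ hg0).log (norm_ne_zero_iff.2 hg0)
  · have h3 : ∀ᶠ w in 𝓝[≠] z, g w ≠ 0 := (hg.continuousAt.eventually_ne hg0).filter_mono nhdsWithin_le_nhds
    filter_upwards [he.filter_mono nhdsWithin_le_nhds, h3, self_mem_nhdsWithin] with w e hne hw
    have hz : ‖w - z‖ ≠ 0 := norm_ne_zero_iff.2 (sub_ne_zero.2 hw)
    rw [e, norm_smul, norm_pow, Real.log_mul (pow_ne_zero _ hz) (norm_ne_zero_iff.2 hne), Real.log_pow]

/-- scalar functions -/
theorem logSing_log {g : ℂ → ℂ} {z : ℂ} (hg : AnalyticAt ℂ g z) (h : ∃ᶠ w in 𝓝 z, g w ≠ 0) : ∃ k : ℕ, LogSing (fun w => Real.log ‖g w‖) k z :=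
  logSing_norm hg h

/-- pairs -/
theorem logSing_pair {a b : ℂ → ℂ} {z : ℂ} (ha : AnalyticAt ℂ a z) (hb : AnalyticAt ℂ b z) (h : ∃ᶠ w in 𝓝 z, a w ≠ 0 ∨ b w ≠ 0) :
    ∃ k : ℕ, LogSing (fun w => Real.log (‖a w‖ ^ 2 + ‖b w‖ ^ 2) / 2) k z := by
  have hf : AnalyticAt ℂ (fun w => (WithLp.toLp 2 ![a w, b w] : EuclideanSpace ℂ (Fin 2))) z := by
    have h1 : AnalyticAt ℂ (fun w => (![a w, b w] : Fin 2 → ℂ)) z := by
      refine AnalyticAt.pi fun i => ?_
      fin_cases i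
      · exact ha
      · exact hb
    exact ((EuclideanSpace.equiv (Fin 2) ℂ).symm.toContinuousLinearMap.analyticAt _).comp h1
  obtain ⟨k, hk⟩ := logSing_norm hf (h.mono fun w hw h0 => by
    have h1 : (![a w, b w] : Fin 2 → ℂ) = 0 := by
      have := congrArg WithLp.ofLp h0
      exact this
    rcases hw with hw | hw
    · exact hw (congrFun h1 0)
    · exact hw (congrFun h1 1))
  refine ⟨k, hk.congr (Eventually.of_forall fun w => ?_)⟩
  show Real.log (‖a w‖ ^ 2 + ‖b w‖ ^ 2) / 2 = Real.log ‖(WithLp.toLp 2 ![a w, b w] : EuclideanSpace ℂ (Fin 2))‖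
  rw [EuclideanSpace.norm_eq, Fin.sum_univ_two, Real.log_sqrt (by positivity)]
  rfl

/-- the coefficient is nonnegative if the function is bounded above near the point -/
theorem logSing_nonneg {w : ℂ → ℝ} {c B : ℝ} {z : ℂ} (h : LogSing w c z) (hB : ∃ᶠ ζ in 𝓝[≠] z, w ζ ≤ B) : 0 ≤ c := by
  by_contra hc
  push Not at hc
  obtain ⟨s, hs, h1⟩ := h
  have h2 : ∀ᶠ ζ in 𝓝[≠] z, s z - 1 < s ζ :=
    (hs.continuousAt.tendsto.eventually (lt_mem_nhds (by linarith))).filter_mono nhdsWithin_le_nhds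
  have h3 : Tendsto (fun ζ : ℂ => Real.log ‖ζ - z‖) (𝓝[≠] z) atBot := by
    refine Real.tendsto_log_nhdsGT_zero.comp ?_
    refine tendsto_nhdsWithin_iff.2 ⟨?_, ?_⟩
    · have h4 : Tendsto (fun ζ : ℂ => ‖ζ - z‖) (𝓝 z) (𝓝 ‖z - z‖) := (by fun_prop : Continuous fun ζ : ℂ => ‖ζ - z‖).tendsto z
      rw [sub_self, norm_zero] at h4
      exact h4.mono_left nhdsWithin_le_nhds
    · filter_upwards [self_mem_nhdsWithin] with ζ hζ
      exact norm_pos_iff.2 (sub_ne_zero.2 hζ)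
  have h4 : Tendsto (fun ζ : ℂ => c * Real.log ‖ζ - z‖) (𝓝[≠] z) atTop := h3.const_mul_atBot_of_neg hc
  have h5 : ∀ᶠ ζ in 𝓝[≠] z, B - s z + 1 < c * Real.log ‖ζ - z‖ := h4.eventually_gt_atTop _
  refine hB ?_
  filter_upwards [h1, h2, h5] with ζ e1 e2 e3 e4
  rw [e1] at e4
  linarith

/-- the coefficient is unique -/
theorem logSing_unique {w : ℂ → ℝ} {c c' : ℝ} {z : ℂ} (h : LogSing w c z) (h' : LogSing w c' z) : c = c' := by
  have h0 := h.sub h'
  have h1 : LogSing (fun _ : ℂ => (0 : ℝ)) (c - c') z := h0.congr (Eventually.of_forall fun ζ => by simp)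
  have h2 : LogSing (fun _ : ℂ => (0 : ℝ)) (-(c - c')) z := by
    have := h1.neg
    simpa using this
  have h3 := logSing_nonneg (B := 0) h1 (Eventually.of_forall fun _ => le_rfl).frequently
  have h4 := logSing_nonneg (B := 0) h2 (Eventually.of_forall fun _ => le_rfl).frequently
  linarith

/-- `ζ'` is meromorphic -/
theorem mero_ztv {v : ℂ × ℂ → ℂ × ℂ} {r : ℝ} {Om : Set ℂ} {p : ℂ → ℂ × ℂ} (h : Crv1 v r Om p) {z : ℂ} (hz : z ∈ Om) (hv : AnalyticAt ℂ v (p z))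
    (hne : ∃ᶠ w in 𝓝 z, v (p w) ≠ 0) : MeromorphicAt (ztv v p) z := by
  have hp := h.an z hz
  have hvp : AnalyticAt ℂ (fun w => v (p w)) z := hv.comp hp
  have h1 := Pool.Agent.MQ.an_fst hvp
  have h2 := Pool.Agent.MQ.an_snd hvp
  rcases h2.eventually_eq_zero_or_eventually_ne_zero with h3 | h3
  · rcases h1.eventually_eq_zero_or_eventually_ne_zero with h4 | h4
    · exfalso
      refine hne ?_
      filter_upwards [h3, h4] with w e1 e2 e3
      exact e3 (Prod.ext e2 e1)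
    · have h5 : MeromorphicAt (fun w => (deriv p w).1 / (v (p w)).1) z := (Pool.Agent.MQ.an_fst hp.deriv).meromorphicAt.fun_div h1.meromorphicAt
      refine h5.congr ?_
      filter_upwards [h4, (h.isOpen.mem_nhds hz |> fun hh => nhdsWithin_le_nhds hh : Om ∈ 𝓝[≠] z)] with w e1 e2
      exact (h.ztv_fst e2 e1).symm
  · have h5 : MeromorphicAt (fun w => (deriv p w).2 / (v (p w)).2) z := (Pool.Agent.MQ.an_snd hp.deriv).meromorphicAt.fun_div h2.meromorphicAt
    refine h5.congr ?_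
    filter_upwards [h3] with w e1
    exact (Pool.Agent.MQ.ztv_snd e1).symm

/-- `log |ζ'|` -/
theorem logSing_ztv {v : ℂ × ℂ → ℂ × ℂ} {r : ℝ} {Om : Set ℂ} {p : ℂ → ℂ × ℂ} (h : Crv1 v r Om p) {z : ℂ} (hz : z ∈ Om) (hv : AnalyticAt ℂ v (p z))
    (hne : ∃ᶠ w in 𝓝 z, v (p w) ≠ 0) (hd : ∃ᶠ w in 𝓝 z, deriv p w ≠ 0) : ∃ k : ℤ, LogSing (fun w => Real.log ‖ztv v p w‖) k z := by
  have hm := mero_ztv h hz hv hne
  have hp := h.an z hz
  have hvp : AnalyticAt ℂ (fun w => v (p w)) z := hv.comp hp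
  refine ⟨_, LogSing.log_norm_mero hm ?_⟩
  intro htop
  have h0 : ∀ᶠ w in 𝓝[≠] z, ztv v p w = 0 := meromorphicOrderAt_eq_top_iff.1 htop
  -- `v (p w) ≠ 0` near `z`
  have hv0 : ∀ᶠ w in 𝓝[≠] z, v (p w) ≠ 0 := by
    rcases hvp.eventually_eq_zero_or_eventually_ne_zero with h3 | h3
    · exact (hne (h3.mono fun w e e' => e' e)).elim
    · exact h3
  have hd0 : ∀ᶠ w in 𝓝[≠] z, deriv p w ≠ 0 := by
    rcases hp.deriv.eventually_eq_zero_or_eventually_ne_zero with h3 | h3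
    · exact (hd (h3.mono fun w e e' => e' e)).elim
    · exact h3
  have hO : Om ∈ 𝓝[≠] z := nhdsWithin_le_nhds (h.isOpen.mem_nhds hz)
  obtain ⟨w, e1, e2, e3, e4⟩ := (h0.and (hv0.and (hd0.and hO))).exists
  apply e3
  have e5 := h.deriv_fst e4 e2
  have e6 := h.deriv_snd e4 e2
  rw [e1, zero_mul] at e5 e6
  exact Prod.ext e5 e6

end Pool.Agent.MQ3
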