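import Pool.Agent.MQ3.NDefs
import Pool.Agent.MQ3.LogS0
import Pool.Agent.MQ3.LfN
import Pool.Agent.MQ3.WtN3

/-!
# MQ3 LogN: the potentials have logarithmic singularities
-/

set_option autoImplicit false

open Topology Filter Metric MvPolynomial MeasureTheory Laplacian

noncomputable section

namespace Pool.Agent.MQ3

open Pool.Agent.H36.BP (EN fs)
open Pool.Agent.H14.PP (Tan)
open Pool.Agent.H17BP (Surface IsForm)
open Pool.Agent.H17EF (projVar coneE)
open Pool.Agent.H30M (tau LogSing)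
open Pool.Agent.MQ (lam En ztv dvg DDv gr dv)

variable {M : ℕ} {P : Ideal (MvPolynomial (Fin (M + 1)) ℂ)} {RD : MvPolynomial (Fin (M + 1)) ℂ} {m : ℕ} {X : NCModel P RD} {θ : WDiff (coneE P) m}
  {l : LF M} {S : Web X θ l} {Ra : MvPolynomial (Fin (M + 1)) ℂ}

/-! ## general facts -/

/-- a form along an entire curve -/
private theorem ln_ev {F : ℂ → EN M} (hF : Differentiable ℂ F) {R : MvPolynomial (Fin (M + 1)) ℂ} (hR : ∃ z, eval (F z).ofLp R ≠ 0) (z : ℂ) :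
    ∀ᶠ w in 𝓝[≠] z, eval (F w).ofLp R ≠ 0 := by
  have han : AnalyticOnNhd ℂ (fun w => eval (F w).ofLp R) Set.univ := by
    intro w _
    have h1 : AnalyticAt ℂ (fun w => (F w).ofLp) w := by
      have h2 : Differentiable ℂ fun w => (F w).ofLp := (EuclideanSpace.equiv (Fin (M + 1)) ℂ).differentiable.comp hF
      exact h2.analyticAt w
    have h2 : AnalyticAt ℂ (fun w => aeval (fun s => (F w).ofLp s) R) w :=
      AnalyticAt.aeval_mvPolynomial (fun s => (analyticAt_pi_iff.1 h1) s) R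
    simpa only [MvPolynomial.aeval_eq_eval] using h2
  rcases (han z (Set.mem_univ z)).eventually_eq_zero_or_eventually_ne_zero with h | h
  · exfalso
    obtain ⟨w, hw⟩ := hR
    exact hw (han.eqOn_zero_of_preconnected_of_eventuallyEq_zero isPreconnected_univ (Set.mem_univ z) h (Set.mem_univ w))
  · exact h

/-- a vector with three analytic components -/
private theorem ln_vec {a b c : ℂ → ℂ} {z : ℂ} (ha : AnalyticAt ℂ a z) (hb : AnalyticAt ℂ b z) (hc : AnalyticAt ℂ c z) :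
    AnalyticAt ℂ (fun w => (WithLp.toLp 2 ![a w, b w, c w] : EN 2)) z := by
  have h1 : AnalyticAt ℂ (fun w => (![a w, b w, c w] : Fin 3 → ℂ)) z := by
    refine AnalyticAt.pi fun i => ?_
    fin_cases i
    · exact ha
    · exact hb
    · exact hc
  exact ((EuclideanSpace.equiv (Fin 3) ℂ).symm.toContinuousLinearMap.analyticAt _).comp h1

private theorem ln_vec_ne {a b c : ℂ} (h : a ≠ 0 ∨ b ≠ 0 ∨ c ≠ 0) : (WithLp.toLp 2 ![a, b, c] : EN 2) ≠ 0 := by
  intro h0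
  have h1 : (![a, b, c] : Fin 3 → ℂ) = 0 := congrArg WithLp.ofLp h0
  rcases h with h | h | h
  · exact h (congrFun h1 0)
  · exact h (congrFun h1 1)
  · exact h (congrFun h1 2)

/-- `ζ'` is meromorphic -/
private theorem ln_mero {v : ℂ × ℂ → ℂ × ℂ} {p : ℂ → ℂ × ℂ} {z : ℂ} (hp : AnalyticAt ℂ p z) (hv : AnalyticAt ℂ v (p z)) :
    MeromorphicAt (ztv v p) z := by
  classical
  have hvp : AnalyticAt ℂ (fun w => v (p w)) z := hv.comp hp
  have h1 := Pool.Agent.MQ.an_fst hvp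
  have h2 := Pool.Agent.MQ.an_snd hvp
  rcases h2.eventually_eq_zero_or_eventually_ne_zero with h3 | h3
  · have h5 : MeromorphicAt (fun w => (deriv p w).1 / (v (p w)).1) z := (Pool.Agent.MQ.an_fst hp.deriv).meromorphicAt.fun_div h1.meromorphicAt
    refine h5.congr ?_
    filter_upwards [h3.filter_mono nhdsWithin_le_nhds] with w e1
    unfold ztv
    rw [if_pos e1]
  · have h5 : MeromorphicAt (fun w => (deriv p w).2 / (v (p w)).2) z := (Pool.Agent.MQ.an_snd hp.deriv).meromorphicAt.fun_div h2.meromorphicAt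
    refine h5.congr ?_
    filter_upwards [h3] with w e1
    exact (Pool.Agent.MQ.ztv_snd e1).symm

private theorem ln_log_mero {f : ℂ → ℂ} {z : ℂ} (hf : MeromorphicAt f z) (hne : ∀ᶠ w in 𝓝[≠] z, f w ≠ 0) : ∃ c, LogSing (fun w => Real.log ‖f w‖) c z := by
  refine ⟨_, LogSing.log_norm_mero hf ?_⟩
  intro htop
  obtain ⟨w, h1, h2⟩ := ((meromorphicOrderAt_eq_top_iff.1 htop).and hne).exists
  exact h2 h1

private theorem ln_ne0 {x : EN M} (hx : x ∈ coneE P) : x ≠ 0 := by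
  intro h
  have h1 : (Pool.Agent.H17EF.LE M).symm x ∈ Pool.Agent.H13.SM.cone P := hx
  apply h1.1
  rw [h, map_zero]

private theorem ln_freq {Q : ℂ → Prop} {z : ℂ} (h : ∀ᶠ w in 𝓝[≠] z, Q w) : ∃ᶠ w in 𝓝 z, Q w :=
  h.frequently.filter_mono nhdsWithin_le_nhds

section

variable {Wf : EN M → EN M → EN M → ℂ} {mK jH : ℕ}

theorem logSing_N (hX : Surface (coneE P)) (hm : 1 ≤ mK) (hW : IsForm (coneE P) mK jH Wf) (C : Cov S Ra) (k : Fin C.nN) {F : ℂ → EN M}
    (hF : RCrv θ RD Ra F) (Y : NCLift X F) (hne : WNe Wf Y) :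
    ∀ z ∈ Y.U (C.b k), Y.p (C.b k) z ∈ ball (C.y k) (C.t k) → ∃ c, 0 ≤ c ∧ LogSing (eN (C.H k) Wf mK jH Y (C.b k)) c z := by
  intro z hz hzb
  have hBC : BCrv θ l (X.ρ (C.b k)) F (Y.U (C.b k)) (Y.p (C.b k)) := bcrv hF.toWCrv Y (C.b k)
  have hp := hBC.p_an z hz
  obtain ⟨p, hpe⟩ : ∃ p, p = Y.p (C.b k) := ⟨_, rfl⟩
  rw [← hpe] at hp hzb
  have hpd : ∀ᶠ w in 𝓝[≠] z, deriv p w ≠ 0 := hpe ▸ hBC.nc z hz
  have hp0 : ∀ᶠ w in 𝓝[≠] z, (p w).1 ≠ 0 ∧ (p w).2 ≠ 0 := hpe ▸ hBC.ne z hz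
  -- the vector
  have hvec : AnalyticAt ℂ (fun w => C.H k (p w) (deriv p w)) z ∧ ∀ᶠ w in 𝓝[≠] z, C.H k (p w) (deriv p w) ≠ 0 := by
    have hp1 := Pool.Agent.MQ.an_fst hp
    have hp2 := Pool.Agent.MQ.an_snd hp
    have hd1 := Pool.Agent.MQ.an_fst hp.deriv
    have hd2 := Pool.Agent.MQ.an_snd hp.deriv
    cases hu : C.u k with
    | none =>
      have hH : C.H k = hA := by
        unfold Cov.H
        rw [hu]
        rfl
      rw [hH]
      refine ⟨ln_vec (hp2.mul hd1) (hp1.mul hd2) analyticAt_const, ?_⟩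
      filter_upwards [hpd, hp0] with w h1 h2
      refine ln_vec_ne ?_
      by_cases h3 : (deriv p w).1 = 0
      · right; left
        refine mul_ne_zero h2.1 fun h4 => h1 (Prod.ext h3 h4)
      · left
        exact mul_ne_zero h2.2 h3
    | some u' =>
      have hH : C.H k = hB u' := by
        unfold Cov.H
        rw [hu]
        rfl
      obtain ⟨-, hu', hu''⟩ := C.N_B k u' hu
      have hua : AnalyticAt ℂ u' (p z) := hu' _ (ball_subset_closedBall hzb)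
      have hup : AnalyticAt ℂ (fun w => u' (p w)) z := hua.comp hp
      rw [hH]
      have hfd : AnalyticAt ℂ (fun w => fderiv ℂ u' (p w) (deriv p w)) z := by
        refine hup.deriv.congr ?_
        filter_upwards [hp.continuousAt.eventually hua.eventually_analyticAt, hp.eventually_analyticAt] with w h1 h2
        exact (h1.differentiableAt.hasFDerivAt.comp_hasDerivAt w h2.differentiableAt.hasDerivAt).deriv
      refine ⟨ln_vec hfd (hup.mul hd1) (hup.mul hd2), ?_⟩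
      have hU : ∀ᶠ w in 𝓝 z, w ∈ Y.U (C.b k) ∧ p w ∈ ball (C.y k) (C.t k) := by
        filter_upwards [(Y.isOpen _).mem_nhds hz, hp.continuousAt.eventually (isOpen_ball.mem_nhds hzb)] with w h1 h2 using ⟨h1, h2⟩
      have hup0 : ∀ᶠ w in 𝓝[≠] z, u' (p w) ≠ 0 := by
        obtain ⟨d, hd⟩ := hF.homR
        filter_upwards [ln_ev hF.diff hF.neR z, hU.filter_mono nhdsWithin_le_nhds] with w h1 h2 h3
        obtain ⟨c, hc, h4⟩ := Y.eq (C.b k) w h2.1
        apply h1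
        rw [h4, Pool.Agent.H14.PP.eval_smulEN hd, ← hpe, ((hu'' _ (ball_subset_closedBall h2.2)).self_of_nhds.1).2 h3, mul_zero]
      filter_upwards [hpd, hup0] with w h1 h2
      refine ln_vec_ne ?_
      by_cases h3 : (deriv p w).1 = 0
      · right; right
        exact mul_ne_zero h2 fun h4 => h1 (Prod.ext h3 h4)
      · right; left
        exact mul_ne_zero h2 h3
  obtain ⟨k₁, h1⟩ := logSing_norm hvec.1 (ln_freq hvec.2)
  obtain ⟨k₂, h2⟩ := logSing_log (wt_an hX hm hW hF.diff Y (C.b k) z hz) (ln_freq (hne (C.b k) z hz))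
  obtain ⟨k₃, h3⟩ := logSing_norm (hF.diff.analyticAt z) (Eventually.of_forall fun w => ln_ne0 (hF.mem w)).frequently
  refine ⟨k₁ + 1 / mK * k₂ + jH / mK * k₃, by positivity, ?_⟩
  have h4 := (h1.add (h2.const_mul (1 / mK))).add (h3.const_mul (jH / mK))
  refine h4.congr (Eventually.of_forall fun w => ?_)
  rw [hpe]
  rfl


/-- the curve is not contained in the invariant curve -/
theorem g_ne (C : Cov S Ra) {g : Fin C.nP → ℂ × ℂ → ℂ} (hg : PG C g) (j : Fin C.nP) {F : ℂ → EN M} (hF : RCrv θ RD Ra F) (Y : NCLift X F) :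
    ∀ z ∈ C.UP Y j, ∀ᶠ w in 𝓝[≠] z, g j (S.lf Y (C.ck j) w) ≠ 0 := by
  rintro z ⟨hz, hzb⟩
  have hlf := lfN_an hF.toWCrv Y (C.ck j) z hz
  have hO : ∀ᶠ w in 𝓝 z, w ∈ S.Om Y (C.ck j) ∧ S.lf Y (C.ck j) w ∈ ball (C.Q j) (C.r j) := by
    filter_upwards [(Om_open hF.toWCrv Y (C.ck j)).mem_nhds hz, hlf.continuousAt.eventually (isOpen_ball.mem_nhds hzb)] with w h1 h2 using ⟨h1, h2⟩
  -- the lift is not constant
  have hQ : ∀ᶠ w in 𝓝[≠] z, S.lf Y (C.ck j) w ≠ C.Q j := by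
    rcases (hlf.sub (analyticAt_const (v := C.Q j))).eventually_eq_zero_or_eventually_ne_zero with h | h
    · exfalso
      have h1 : ∀ᶠ w in 𝓝 z, deriv (S.lf Y (C.ck j)) w = 0 := by
        filter_upwards [h.eventually_nhds] with w hw
        have h2 : S.lf Y (C.ck j) =ᶠ[𝓝 w] fun _ => C.Q j := by
          filter_upwards [hw] with w' hw'
          exact sub_eq_zero.1 hw'
        rw [h2.deriv_eq, deriv_const]
      obtain ⟨w, h2, h3⟩ := ((h1.filter_mono nhdsWithin_le_nhds).and (lfN_ne hF.toWCrv Y (C.ck j) z hz)).exists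
      exact h3.2.1 h2
    · filter_upwards [h] with w hw h2
      exact hw (sub_eq_zero.2 h2)
  obtain ⟨d, hd⟩ := hF.hom
  obtain ⟨e, he⟩ := hF.homR
  filter_upwards [hO.filter_mono nhdsWithin_le_nhds, hQ, ln_ev hF.diff hF.ne z, ln_ev hF.diff hF.neR z] with w h1 h2 h3 h4 h5
  obtain ⟨-, -, -, h, -, hiff, -⟩ := hg.inv j _ (ball_subset_closedBall h1.2) h2
  have h7 : eval (S.σ (C.ck j) (S.lf Y (C.ck j) w)).ofLp (RD * Ra) = 0 := hiff.self_of_nhds.2 (by rw [h5, zero_mul])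
  have h8 := (lfN_mem hF.toWCrv Y (C.ck j) w h1.1).2
  obtain ⟨c, hc, h10⟩ := Y.eq _ w (Om_sub hF.toWCrv Y (C.ck j) h1.1)
  have h11 : S.σ (C.ck j) (S.lf Y (C.ck j) w) = X.ρ (C.ck j).1 (Y.p (C.ck j).1 w) := by
    unfold Web.σ
    rw [h8]
  rw [map_mul, mul_eq_zero, h11] at h7
  rcases h7 with h7 | h7
  · apply h3
    rw [h10, Pool.Agent.H14.PP.eval_smulEN hd, h7, mul_zero]
  · apply h4
    rw [h10, Pool.Agent.H14.PP.eval_smulEN he, h7, mul_zero]

theorem logSing_P (hX : Surface (coneE P)) (hm : 1 ≤ mK) (hW : IsForm (coneE P) mK jH Wf) (C : Cov S Ra) {g : Fin C.nP → ℂ × ℂ → ℂ}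
    (hg : PG C g) (j : Fin C.nP) {F : ℂ → EN M} (hF : RCrv θ RD Ra F) (Y : NCLift X F) (hne : WNe Wf Y) :
    ∀ z ∈ C.UP Y j, ∃ c, LogSing (eP S (g j) Wf mK jH Y (C.ck j)) c z := by
  intro z hzU
  have hgne := g_ne C hg j hF Y z hzU
  obtain ⟨hz, hzb⟩ := hzU
  obtain ⟨k, hk⟩ : ∃ k, k = C.ck j := ⟨_, rfl⟩
  rw [← hk] at hz hzb hgne ⊢
  have hlf := lfN_an hF.toWCrv Y k z hz
  have hmem := lfN_mem hF.toWCrv Y k z hz
  have hlne := lfN_ne hF.toWCrv Y k z hz
  -- the five terms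
  obtain ⟨c₁, h1⟩ := ln_log_mero (ln_mero hlf ((S.c k).v_an _ hmem.1.1)) (hlne.mono fun w hw => hw.2.2.2.1)
  have hκ : AnalyticAt ℂ (S.κ k) (S.lf Y k z) := by
    show AnalyticAt ℂ (fun q : ℂ × ℂ => (q.1 ^ (S.c k).w.1 * q.2 ^ (S.c k).w'.1, q.1 ^ (S.c k).w.2 * q.2 ^ (S.c k).w'.2)) _
    exact ((analyticAt_fst.pow _).mul (analyticAt_snd.pow _)).prod ((analyticAt_fst.pow _).mul (analyticAt_snd.pow _))
  obtain ⟨c₂, h2⟩ := logSing_log (AnalyticAt.fun_comp (jc_an hκ) hlf) (ln_freq (hlne.mono fun w hw => hw.2.2.2.2))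
  have hga : AnalyticAt ℂ (g j) (S.lf Y k z) := by
    by_cases h0 : S.lf Y k z = C.Q j
    · rw [h0]
      exact hg.an j
    · exact (hg.inv j _ (ball_subset_closedBall hzb) h0).1
  obtain ⟨c₃, h3⟩ := logSing_log (AnalyticAt.fun_comp hga hlf) (ln_freq hgne)
  obtain ⟨c₄, h4⟩ := logSing_log (wt_an hX hm hW hF.diff Y k.1 z (Om_sub hF.toWCrv Y k hz)) (ln_freq (hne k.1 z (Om_sub hF.toWCrv Y k hz)))
  obtain ⟨c₅, h5⟩ := logSing_norm (hF.diff.analyticAt z) (Eventually.of_forall fun w => ln_ne0 (hF.mem w)).frequently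
  exact ⟨_, (((h1.add h2).add h3).add (h4.const_mul (1 / mK))).add (h5.const_mul (jH / mK))⟩

end

end Pool.Agent.MQ3
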