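import Pool.Agent.MQ3.NDefs

/-!
# MQ3 UpN: the upper bound of the potential of a box
-/

set_option autoImplicit false

open Topology Filter Metric MvPolynomial MeasureTheory Laplacian

noncomputable section

namespace Pool.Agent.MQ3

open Pool.Agent.H36.BP (EN fs)
open Pool.Agent.H14.PP (Tan)
open Pool.Agent.H17BP (Surface IsForm)
open Pool.Agent.H17EF (projVar coneE)

open Pool.Agent.H30M (tau LogSing rhoR)
open Pool.Agent.MQ (lam En ztv dvg DDv gr dv Pack)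

variable {M : ℕ} {P : Ideal (MvPolynomial (Fin (M + 1)) ℂ)} {RD : MvPolynomial (Fin (M + 1)) ℂ} {m : ℕ} {X : NCModel P RD} {θ : WDiff (coneE P) m}
  {l : LF M} {S : Web X θ l} {Ra : MvPolynomial (Fin (M + 1)) ℂ} {Wf : EN M → EN M → EN M → ℂ} {mK jH : ℕ}

/-- the section in a parametrization -/
def sec0 (Wf : EN M → EN M → EN M → ℂ) (ρ : ℂ × ℂ → EN M) (p : ℂ × ℂ) : ℂ := Wf (ρ p) (fderiv ℂ ρ p (1, 0)) (fderiv ℂ ρ p (0, 1))

theorem sec0_an (hW : IsForm (coneE P) mK jH Wf) (X : NCModel P RD) (i : X.ι) {p : ℂ × ℂ} (hp : p ∈ DD) : AnalyticAt ℂ (sec0 Wf (X.ρ i)) p :=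
  hW.analytic (X.ρ i) p ((X.box i).an p hp.1.le hp.2.le) ((X.box i).mem p hp.1.le hp.2.le)

theorem sec0_tan {ρ : ℂ × ℂ → EN M} {Y : Set (EN M)} {p : ℂ × ℂ} (hρ : AnalyticAt ℂ ρ p) (hm : ∀ᶠ q in 𝓝 p, ρ q ∈ Y) (w : ℂ × ℂ) :
    fderiv ℂ ρ p w ∈ Pool.Agent.H17BP.Tan Y (ρ p) := by
  have hl : AnalyticAt ℂ (fun s : ℂ => p + s • w) 0 := analyticAt_const.add (analyticAt_id.smul analyticAt_const)
  have h0 : p + (0 : ℂ) • w = p := by rw [zero_smul, add_zero]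
  refine ⟨fun s => ρ (p + s • w), AnalyticAt.fun_comp (g := ρ) (f := fun s : ℂ => p + s • w) (by rw [h0]; exact hρ) hl, ?_, by simp, ?_⟩
  · have h1 : Tendsto (fun s : ℂ => p + s • w) (𝓝 0) (𝓝 p) := by
      have := hl.continuousAt.tendsto
      rwa [h0] at this
    exact h1.eventually hm
  · have h1 : HasFDerivAt ρ (fderiv ℂ ρ p) (p + (0 : ℂ) • w) := by
      rw [h0]
      exact hρ.differentiableAt.hasFDerivAt
    have h2 : HasDerivAt (fun s : ℂ => p + s • w) w 0 := by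
      have h3 : HasDerivAt (fun s : ℂ => s • w) ((1 : ℂ) • w) 0 := (hasDerivAt_id (0 : ℂ)).smul_const w
      rw [one_smul] at h3
      exact h3.const_add p
    exact (h1.comp_hasDerivAt (0 : ℂ) h2).deriv

/-- the weight and the section -/
theorem wt_sec0 (hW : IsForm (coneE P) mK jH Wf) {F : ℂ → EN M} (Y : NCLift X F) (i : X.ι) {z : ℂ} (hz : z ∈ Y.U i) :
    ∃ c : ℂ, c ≠ 0 ∧ F z = c • X.ρ i (Y.p i z) ∧ c ^ jH * wt Wf Y i z = sec0 Wf (X.ρ i) (Y.p i z) := by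
  have h : ∃ c : ℂ, c ≠ 0 ∧ F z = c • X.ρ i (Y.p i z) := Y.eq i z hz
  have hc : cf Y i z = h.choose := by
    unfold cf
    rw [dif_pos h]
  obtain ⟨h1, h2⟩ := h.choose_spec
  rw [← hc] at h1 h2
  refine ⟨cf Y i z, h1, h2, ?_⟩
  have hp : Y.p i z ∈ DD := X.sub i (Y.mem i z hz)
  have hρ := (X.box i).an _ hp.1.le hp.2.le
  have hm := (X.box i).mem _ hp.1.le hp.2.le
  unfold wt sec0
  rw [h2]
  exact hW.scale _ hm.self_of_nhds _ (sec0_tan hρ hm _) _ (sec0_tan hρ hm _) _ h1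

theorem norm_vec3_le (a b c : ℂ) : ‖(WithLp.toLp 2 ![a, b, c] : EN 2)‖ ≤ ‖a‖ + ‖b‖ + ‖c‖ := by
  rw [EuclideanSpace.norm_eq, Real.sqrt_le_left (by positivity)]
  have h : (∑ i : Fin (2 + 1), ‖(WithLp.toLp 2 ![a, b, c] : EN 2) i‖ ^ 2) = ‖a‖ ^ 2 + ‖b‖ ^ 2 + ‖c‖ ^ 2 :=
    (Fin.sum_univ_three fun i => ‖(WithLp.toLp 2 ![a, b, c] : EN 2) i‖ ^ 2).trans rfl
  rw [h]
  nlinarith [norm_nonneg a, norm_nonneg b, norm_nonneg c, mul_nonneg (norm_nonneg a) (norm_nonneg b), mul_nonneg (norm_nonneg a) (norm_nonneg c),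
    mul_nonneg (norm_nonneg b) (norm_nonneg c)]

theorem ncpt_bound {K : Set (ℂ × ℂ)} (hK : IsCompact K) {V : Type} [NormedAddCommGroup V] {f : ℂ × ℂ → V} (hf : ContinuousOn f K) :
    ∃ C : ℝ, 0 ≤ C ∧ ∀ p ∈ K, ‖f p‖ ≤ C := by
  obtain ⟨C, hC⟩ := hK.exists_bound_of_continuousOn hf
  exact ⟨max C 0, le_max_right _ _, fun p hp => (hC p hp).trans (le_max_left _ _)⟩

/-- the vector of a box is bounded by the velocity -/
theorem hN_le (C : Cov S Ra) (k : Fin C.nN) : ∃ C₁ : ℝ, 0 ≤ C₁ ∧ ∀ p ∈ closedBall (C.y k) (C.t k), ∀ w, ‖C.H k p w‖ ≤ C₁ * ‖w‖ := by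
  have hsub : ∀ p ∈ closedBall (C.y k) (C.t k), p ∈ DD := fun p hp => X.sub _ (C.N_sub k hp)
  unfold Cov.H
  rcases hu : C.u k with _ | u
  · refine ⟨2, by norm_num, fun p hp w => ?_⟩
    show ‖hA p w‖ ≤ 2 * ‖w‖
    unfold hA
    refine (norm_vec3_le _ _ _).trans ?_
    have h1 := (hsub p hp).1.le
    have h2 := (hsub p hp).2.le
    have e1 : ‖w.1‖ ≤ ‖w‖ := norm_fst_le w
    have e2 : ‖w.2‖ ≤ ‖w‖ := norm_snd_le w
    rw [norm_mul, norm_mul, norm_zero, add_zero]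
    have e3 : ‖p.2‖ * ‖w.1‖ ≤ 1 * ‖w‖ := mul_le_mul h2 e1 (norm_nonneg _) zero_le_one
    have e4 : ‖p.1‖ * ‖w.2‖ ≤ 1 * ‖w‖ := mul_le_mul h1 e2 (norm_nonneg _) zero_le_one
    linarith
  · obtain ⟨-, hua, -⟩ := C.N_B k u hu
    obtain ⟨A, hA, hA'⟩ := ncpt_bound (isCompact_closedBall (C.y k) (C.t k)) (f := u) fun p hp => (hua p hp).continuousAt.continuousWithinAt
    obtain ⟨A', hA1, hA1'⟩ := ncpt_bound (isCompact_closedBall (C.y k) (C.t k)) (f := fderiv ℂ u)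
      fun p hp => (hua p hp).fderiv.continuousAt.continuousWithinAt
    refine ⟨A' + A + A, by positivity, fun p hp w => ?_⟩
    show ‖hB u p w‖ ≤ _
    unfold hB
    refine (norm_vec3_le _ _ _).trans ?_
    have e1 : ‖w.1‖ ≤ ‖w‖ := norm_fst_le w
    have e2 : ‖w.2‖ ≤ ‖w‖ := norm_snd_le w
    have e3 : ‖fderiv ℂ u p w‖ ≤ A' * ‖w‖ := (ContinuousLinearMap.le_opNorm _ _).trans (mul_le_mul_of_nonneg_right (hA1' p hp) (norm_nonneg _))
    have e4 : ‖u p * w.1‖ ≤ A * ‖w‖ := by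
      rw [norm_mul]
      exact mul_le_mul (hA' p hp) e1 (norm_nonneg _) hA
    have e5 : ‖u p * w.2‖ ≤ A * ‖w‖ := by
      rw [norm_mul]
      exact mul_le_mul (hA' p hp) e2 (norm_nonneg _) hA
    linarith

/-- the section part of the potential of a box is bounded above -/
theorem sec_le (hW : IsForm (coneE P) mK jH Wf) (C : Cov S Ra) (k : Fin C.nN) : ∃ B : ℝ, ∀ {F : ℂ → EN M} (Y : NCLift X F), ∀ z ∈ Y.U (C.b k),
    Y.p (C.b k) z ∈ closedBall (C.y k) (C.t k) → wt Wf Y (C.b k) z ≠ 0 → 1 / mK * Real.log ‖wt Wf Y (C.b k) z‖ + jH / mK * Real.log ‖F z‖ ≤ B := by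
  have hsub : ∀ p ∈ closedBall (C.y k) (C.t k), p ∈ DD := fun p hp => X.sub _ (C.N_sub k hp)
  obtain ⟨C₀, hC₀, h0⟩ := ncpt_bound (isCompact_closedBall (C.y k) (C.t k)) (f := sec0 Wf (X.ρ (C.b k)))
    fun p hp => (sec0_an hW X _ (hsub p hp)).continuousAt.continuousWithinAt
  obtain ⟨C₂, hC₂, h2⟩ := ncpt_bound (isCompact_closedBall (C.y k) (C.t k)) (f := X.ρ (C.b k))
    fun p hp => ((X.box _).an p (hsub p hp).1.le (hsub p hp).2.le).continuousAt.continuousWithinAt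
  refine ⟨1 / mK * Real.log (1 + C₀) + jH / mK * Real.log (1 + C₂), fun {F} Y z hz hzt hw => ?_⟩
  obtain ⟨c, hc, hF, hs⟩ := wt_sec0 hW Y (C.b k) hz
  have hs0 : sec0 Wf (X.ρ (C.b k)) (Y.p (C.b k) z) ≠ 0 := by
    rw [← hs]
    exact mul_ne_zero (pow_ne_zero _ hc) hw
  have hc0 : 0 < ‖c‖ := norm_pos_iff.2 hc
  have hw0 : 0 < ‖wt Wf Y (C.b k) z‖ := norm_pos_iff.2 hw
  have e1 : Real.log ‖sec0 Wf (X.ρ (C.b k)) (Y.p (C.b k) z)‖ = jH * Real.log ‖c‖ + Real.log ‖wt Wf Y (C.b k) z‖ := by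
    rw [← hs, norm_mul, norm_pow, Real.log_mul (pow_pos hc0 _).ne' hw0.ne', Real.log_pow]
  have e2 : Real.log ‖sec0 Wf (X.ρ (C.b k)) (Y.p (C.b k) z)‖ ≤ Real.log (1 + C₀) :=
    Real.log_le_log (norm_pos_iff.2 hs0) ((h0 _ hzt).trans (by linarith))
  have hm0 : (0 : ℝ) ≤ 1 / mK := by positivity
  have hj0 : (0 : ℝ) ≤ jH / mK := by positivity
  have e3 : Real.log ‖F z‖ - Real.log ‖c‖ ≤ Real.log (1 + C₂) := by
    rcases eq_or_ne (X.ρ (C.b k) (Y.p (C.b k) z)) 0 with h3 | h3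
    · exact absurd h3 (fun h3 => by
        have h4 : X.ρ (C.b k) (Y.p (C.b k) z) ∈ coneE P := ((X.box _).mem _ (hsub _ hzt).1.le (hsub _ hzt).2.le).self_of_nhds
        rw [h3, coneE, Set.mem_preimage, map_zero] at h4
        exact h4.1 rfl)
    · have h4 : 0 < ‖X.ρ (C.b k) (Y.p (C.b k) z)‖ := norm_pos_iff.2 h3
      rw [hF, norm_smul, Real.log_mul hc0.ne' h4.ne', add_sub_cancel_left]
      exact Real.log_le_log h4 ((h2 _ hzt).trans (by linarith))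
  have e4 : 1 / mK * Real.log ‖wt Wf Y (C.b k) z‖ + jH / mK * Real.log ‖F z‖ =
      1 / mK * Real.log ‖sec0 Wf (X.ρ (C.b k)) (Y.p (C.b k) z)‖ + jH / mK * (Real.log ‖F z‖ - Real.log ‖c‖) := by
    rw [e1]
    ring
  rw [e4]
  exact add_le_add (mul_le_mul_of_nonneg_left e2 hm0) (mul_le_mul_of_nonneg_left e3 hj0)

/-- **The upper bound.** -/
theorem up_N (hX : Surface (coneE P)) (hm : 1 ≤ mK) (hW : IsForm (coneE P) mK jH Wf) (C : Cov S Ra) (k : Fin C.nN) :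
    ∃ B : ℝ, ∀ F : ℂ → EN M, RCrv θ RD Ra F → ∀ Y : NCLift X F, WNe Wf Y → ∀ (A : ℝ) (lm : ℂ → ℝ), Dens C Y A lm →
      ∀ z ∈ Y.U (C.b k), Y.p (C.b k) z ∈ ball (C.y k) (C.t k) → ContDiffAt ℝ 2 (eN (C.H k) Wf mK jH Y (C.b k)) z →
        eN (C.H k) Wf mK jH Y (C.b k) z ≤ B + Real.log (1 + lm z) := by
  obtain ⟨C₁, hC₁, hH⟩ := hN_le C k
  obtain ⟨B, hB⟩ := sec_le hW C k
  refine ⟨Real.log (1 + C₁) + B, fun F hF Y hne A lm hl z hz hzt hcd => ?_⟩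
  have hlm : ∀ z, 0 ≤ lm z := fun z => (div_nonneg (Real.sqrt_nonneg _) (sq_nonneg _)).trans (hl.le z)
  have hpt : ∀ w ∈ Y.U (C.b k), Y.p (C.b k) w ∈ ball (C.y k) (C.t k) → wt Wf Y (C.b k) w ≠ 0 →
      eN (C.H k) Wf mK jH Y (C.b k) w ≤ Real.log (1 + C₁) + B + Real.log (1 + lm w) := fun w hw hwt hne0 => by
    have hc := ball_subset_closedBall hwt
    have h1 := hB Y w hw hc hne0
    have h2 : ‖C.H k (Y.p (C.b k) w) (deriv (Y.p (C.b k)) w)‖ ≤ (1 + C₁) * (1 + lm w) := by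
      refine (hH _ hc _).trans ?_
      have h3 : C₁ * ‖deriv (Y.p (C.b k)) w‖ ≤ C₁ * lm w := mul_le_mul_of_nonneg_left (hl.box k w hw hc) hC₁
      nlinarith [hlm w]
    have h3 : Real.log ‖C.H k (Y.p (C.b k) w) (deriv (Y.p (C.b k)) w)‖ ≤ Real.log (1 + C₁) + Real.log (1 + lm w) := by
      rw [← Real.log_mul (by positivity) (by linarith [hlm w])]
      rcases (norm_nonneg (C.H k (Y.p (C.b k) w) (deriv (Y.p (C.b k)) w))).eq_or_lt with h4 | h4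
      · rw [← h4, Real.log_zero]
        exact Real.log_nonneg (by nlinarith [hlm w, mul_nonneg hC₁ (hlm w)])
      · exact Real.log_le_log h4 h2
    unfold eN eH
    linarith
  have hcont : ContinuousAt (fun w => Real.log (1 + C₁) + B + Real.log (1 + lm w)) z :=
    continuousAt_const.add (ContinuousAt.log (continuousAt_const.add hl.cont.continuousAt) (by linarith [hlm z]))
  refine le_of_tendsto_of_tendsto (b := 𝓝[≠] z) (hcd.continuousAt.tendsto.mono_left nhdsWithin_le_nhds) (hcont.tendsto.mono_left nhdsWithin_le_nhds) ?_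
  filter_upwards [hne (C.b k) z hz, nhdsWithin_le_nhds ((Y.isOpen (C.b k)).mem_nhds hz),
    nhdsWithin_le_nhds ((Y.an (C.b k) z hz).continuousAt.eventually (isOpen_ball.mem_nhds hzt))] with w e1 e2 e3
  exact hpt w e2 e3 e1

end Pool.Agent.MQ3
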