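import Pool.Agent.MQ3.AsmI
import Pool.Agent.MQ3.LfN
import Pool.Agent.MQ3.LogN
import Pool.Agent.MQ3.UpN
import Pool.Agent.MQ3.EtaN
import Pool.Agent.MQ2.StepF
import Pool.Agent.MQ.Fub

/-!
# MQ3 AsmNA: the patches of type `N`, the sum of the densities
-/

set_option autoImplicit false

open Topology Filter Metric MvPolynomial MeasureTheory Laplacian

noncomputable section

namespace Pool.Agent.MQ3

open Pool.Agent.H36.BP (EN fs)
open Pool.Agent.H14.PP (Tan)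
open Pool.Agent.H17BP (Surface IsForm)
open Pool.Agent.H17EF (projVar coneE)
open Pool.Agent.H30M (tau LogSing)
open Pool.Agent.MQ (lam En ztv dvg DDv gr dv)

variable {M : ℕ} {P : Ideal (MvPolynomial (Fin (M + 1)) ℂ)} {RD : MvPolynomial (Fin (M + 1)) ℂ} {m : ℕ} {X : NCModel P RD} {θ : WDiff (coneE P) m}
  {l : LF M} {S : Web X θ l} {Ra : MvPolynomial (Fin (M + 1)) ℂ}

/-! ## the open sets and the cores -/

theorem core_closed (C : Cov S Ra) {F : ℂ → EN M} (hF : WCrv θ RD F) (Y : NCLift X F) (j : Fin C.nP) : IsClosed (C.core Y j) :=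
  lfN_closed hF Y (C.ck j) (isCompact_closedBall (C.Q j) (C.s j)) ((closedBall_subset_closedBall (C.s_lt j).le).trans (C.P_sub j))

theorem UP_open (C : Cov S Ra) {F : ℂ → EN M} (hF : WCrv θ RD F) (Y : NCLift X F) (j : Fin C.nP) : IsOpen (C.UP Y j) := by
  rw [isOpen_iff_mem_nhds]
  rintro z ⟨h1, h2⟩
  filter_upwards [(Om_open hF Y (C.ck j)).mem_nhds h1, (lfN_an hF Y (C.ck j) z h1).continuousAt.eventually_mem (isOpen_ball.mem_nhds h2)] with w h3 h4
  exact ⟨h3, h4⟩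

theorem UN_open (C : Cov S Ra) {F : ℂ → EN M} (hF : WCrv θ RD F) (Y : NCLift X F) (k : Fin C.nN) : IsOpen (C.UN Y k) := by
  rw [isOpen_iff_mem_nhds]
  rintro z ⟨h1, h2, h3⟩
  have h4 : ∀ᶠ w in 𝓝 z, ∀ j, w ∉ C.core Y j := eventually_all.2 fun j => (core_closed C hF Y j).isOpen_compl.mem_nhds (h3 j)
  filter_upwards [(Y.isOpen (C.b k)).mem_nhds h1, (Y.an (C.b k) z h1).continuousAt.eventually_mem (isOpen_ball.mem_nhds h2), h4] with w h5 h6 h7
  exact ⟨h5, h6, h7⟩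

theorem core_sub_UP (C : Cov S Ra) {F : ℂ → EN M} (Y : NCLift X F) (j : Fin C.nP) : C.core Y j ⊆ C.UP Y j :=
  fun _ hz => ⟨hz.1, closedBall_subset_ball (C.s_lt j) hz.2⟩

/-! ## continuity -/

/-- an inequality at the generic points holds at all points where the potential is of class `C²` -/
theorem lap_of_near {e : ℂ → ℝ} {η : ℂ → ℂ} {err f : ℂ → ℝ} {z : ℂ} (he : ContDiffAt ℝ 2 e z) (hη : ContDiffAt ℝ 1 η z) (herr : ContinuousAt err z)
    (hf : ContinuousAt f z) (h : ∀ᶠ w in 𝓝[≠] z, f w ≤ Δ e w + dv η w + err w) : f z ≤ Δ e z + dv η z + err z := by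
  have h1 : ∀ᶠ w in 𝓝[≠] z, f w ≤ Pool.Agent.MQ.lp e w + dv η w + err w := by
    filter_upwards [h, (he.eventually (by simp)).filter_mono nhdsWithin_le_nhds] with w h2 h3
    rwa [Pool.Agent.MQ.lp_eq_lap h3]
  have c2 : Tendsto (fun w => Pool.Agent.MQ.lp e w + dv η w + err w) (𝓝[≠] z) (𝓝 (Pool.Agent.MQ.lp e z + dv η z + err z)) :=
    (((Pool.Agent.MQ.continuousAt_lp he).add (Pool.Agent.MQ.continuousAt_dv hη)).add herr).tendsto.mono_left nhdsWithin_le_nhds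
  have := le_of_tendsto_of_tendsto (hf.tendsto.mono_left nhdsWithin_le_nhds) c2 h1
  rwa [Pool.Agent.MQ.lp_eq_lap he] at this

theorem WCrv.F_ne {F : ℂ → EN M} (hF : WCrv θ RD F) (z : ℂ) : F z ≠ 0 := by
  intro h
  exact (hF.mem z).1 (by rw [h]; rfl)

theorem WCrv.lam_cont {F : ℂ → EN M} (hF : WCrv θ RD F) : Continuous (lam F) :=
  Pool.Agent.MQ.continuous_lam hF.diff hF.F_ne

/-! ## the patches of type `N` -/

theorem isPatch_N {Wf : EN M → EN M → EN M → ℂ} {mK jH : ℕ} (hX : Surface (coneE P)) (hm : 1 ≤ mK)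
    (hW : IsForm (coneE P) mK jH Wf) (C : Cov S Ra) {F : ℂ → EN M} (hF : RCrv θ RD Ra F) (Y : NCLift X F) (hne : WNe Wf Y) {Θ : ℂ → ℂ}
    (hΘ : IsTh S Wf mK Y Θ) {A : ℝ} {lm : ℂ → ℝ} (hl : Dens C Y A lm) (k : Fin C.nN) :
    ∃ (B : ℝ) (η : ℂ → ℂ), 0 ≤ B ∧
      IsPatch F (Psi mK jH F Θ) (2 * jH / mK) lm (C.UN Y k) (eN (C.H k) Wf mK jH Y (C.b k)) η (fun _ => 0) ∅ B 0 := by
  obtain ⟨B₁, h₁⟩ := exists_etaN hX hm hW C k
  obtain ⟨η, h2, h3, h4⟩ := h₁ F hF Y hne Θ hΘ A lm hl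
  obtain ⟨B₂, h5⟩ := up_N hX hm hW C k
  have h6 := h5 F hF Y hne A lm hl
  have hO := UN_open C hF.toWCrv Y k
  have hlm0 : ∀ z, 0 ≤ lm z := fun z => (Pool.Agent.MQ.lam_nonneg F z).trans (hl.le z)
  refine ⟨|B₁| + |B₂|, η, by positivity, ⟨hO, fun z hz => logSing_N hX hm hW C k hF Y hne z hz.1 hz.2.1, h2, fun z hz => ?_, fun z hz _ => ?_,
    isClosed_empty, Set.empty_subset _, continuousOn_const, fun _ _ _ => rfl, fun z hz he => ?_, fun R hR => ?_, fun z hz he => ?_⟩⟩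
  · refine (h3 z hz).trans (mul_le_mul_of_nonneg_right ?_ (hlm0 z))
    linarith [le_abs_self B₁, abs_nonneg B₂]
  · filter_upwards [h4 z hz] with w hw
    rw [add_comm]
    exact hw.1
  · refine lap_of_near (e := eN (C.H k) Wf mK jH Y (C.b k)) (f := fun z => 2 * jH / mK * lam F z ^ 2) he (h2.contDiffAt (hO.mem_nhds hz))
      continuousAt_const (continuous_const.mul (hF.toWCrv.lam_cont.pow 2)).continuousAt ?_
    filter_upwards [h4 z hz] with w hw
    rw [hw.2.2, add_zero]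
  · simp only [mul_zero, integral_zero, zero_mul, zero_add]
    have h7 : 0 ≤ ∫ z, ‖gr (tau R) z‖ * lm z := integral_nonneg fun z => mul_nonneg (norm_nonneg _) (hlm0 z)
    positivity
  · have := h6 z hz.1 hz.2.1 he
    linarith [le_abs_self B₂, abs_nonneg B₁]

/-! ## monotonicity -/

theorem IsPatch.mono {F : ℂ → EN M} {Ψ : ℂ → ℂ} {ε₀ : ℝ} {l l' : ℂ → ℝ} {U : Set ℂ} {e : ℂ → ℝ} {η : ℂ → ℂ} {err : ℂ → ℝ} {K : Set ℂ} {C C' δ : ℝ}
    (h : IsPatch F Ψ ε₀ l U e η err K C δ) (hl : Continuous l) (hl' : Continuous l') (h0 : ∀ z, 0 ≤ l z) (hle : ∀ z, l z ≤ l' z) (hC : 0 ≤ C)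
    (hCC : C ≤ C') : IsPatch F Ψ ε₀ l' U e η err K C' δ := by
  refine ⟨h.isOpen, h.pos, h.field, fun z hz => (h.field_le z hz).trans (mul_le_mul hCC (hle z) (h0 z) (hC.trans hCC)), h.comp, h.closed, h.sub,
    h.err_cont, h.err_off, h.lap, fun R hR => (h.int R hR).trans ?_, fun z hz he => (h.up z hz he).trans ?_⟩
  · have h1 : ∫ z, ‖gr (tau R) z‖ * l z ≤ ∫ z, ‖gr (tau R) z‖ * l' z :=
      integral_mono (Pool.Agent.MQ2.integrable_gr_mul hR hl) (Pool.Agent.MQ2.integrable_gr_mul hR hl') fun z =>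
        mul_le_mul_of_nonneg_left (hle z) (norm_nonneg _)
    have h2 : 0 ≤ ∫ z, ‖gr (tau R) z‖ * l z := integral_nonneg fun z => mul_nonneg (norm_nonneg _) (h0 z)
    have h3 : C * (∫ z, ‖gr (tau R) z‖ * l z) ≤ C' * ∫ z, ‖gr (tau R) z‖ * l' z := mul_le_mul hCC h1 h2 (hC.trans hCC)
    linarith
  · have h1 : Real.log (1 + l z) ≤ Real.log (1 + l' z) := Real.log_le_log (by linarith [h0 z]) (by linarith [hle z])
    linarith

/-- the error constant -/
theorem IsPatch.mono_δ {F : ℂ → EN M} {Ψ : ℂ → ℂ} {ε₀ : ℝ} {l : ℂ → ℝ} {U : Set ℂ} {e : ℂ → ℝ} {η : ℂ → ℂ} {err : ℂ → ℝ} {K : Set ℂ} {C δ δ' : ℝ}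
    (h : IsPatch F Ψ ε₀ l U e η err K C δ) (hδ : δ ≤ δ') : IsPatch F Ψ ε₀ l U e η err K C δ' := by
  refine ⟨h.isOpen, h.pos, h.field, h.field_le, h.comp, h.closed, h.sub, h.err_cont, h.err_off, h.lap, fun R hR => (h.int R hR).trans ?_, h.up⟩
  have h1 : 0 ≤ En F R := integral_nonneg fun z => mul_nonneg (Pool.Agent.H30M.tau_nonneg hR z) (sq_nonneg _)
  have h2 := mul_le_mul_of_nonneg_right hδ h1
  linarith

/-! ## the sum of the densities -/

/-- the energy of `lm + ∑ l j` -/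
theorem energy_sum {F : ℂ → EN M} {lm : ℂ → ℝ} (hlm : Continuous lm) {n : ℕ} {l : Fin n → ℂ → ℝ} (hl : ∀ j, Continuous (l j))
    {A : ℝ} (hE : ∃ K : ℝ, ∀ R, 1 ≤ R → ∫ z, tau R z * lm z ^ 2 ≤ A * En F R + K) {A' : Fin n → ℝ}
    (hEj : ∀ j, ∃ K : ℝ, ∀ R, 1 ≤ R → ∫ z, tau R z * l j z ^ 2 ≤ A' j * (∫ z, tau R z * lm z ^ 2) + K) :
    ∃ B : ℝ, ∀ R, 1 ≤ R → ∫ z, tau R z * (lm z + ∑ j, l j z) ^ 2 ≤ B * (En F R + 1) := by
  obtain ⟨K, hK⟩ := hE
  choose K' hK' using hEj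
  have hEn : ∀ R, 1 ≤ R → 0 ≤ En F R := fun R hR => integral_nonneg fun z => mul_nonneg (Pool.Agent.H30M.tau_nonneg hR z) (sq_nonneg _)
  -- the energy of `lm`
  have h1 : ∀ R, 1 ≤ R → ∫ z, tau R z * lm z ^ 2 ≤ (|A| + |K|) * (En F R + 1) := by
    intro R hR
    have h2 := hK R hR
    have h3 := mul_le_mul_of_nonneg_right (le_abs_self A) (hEn R hR)
    have h4 : 0 ≤ |K| * En F R := mul_nonneg (abs_nonneg _) (hEn R hR)
    have h5 : (|A| + |K|) * (En F R + 1) = |A| * En F R + |A| + |K| * En F R + |K| := by ring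
    rw [h5]
    linarith [le_abs_self K, abs_nonneg A]
  have h2 : ∀ j R, 1 ≤ R → ∫ z, tau R z * l j z ^ 2 ≤ (|A' j| * (|A| + |K|) + |K' j|) * (En F R + 1) := by
    intro j R hR
    have h3 := hK' j R hR
    have h4 : 0 ≤ ∫ z, tau R z * lm z ^ 2 := integral_nonneg fun z => mul_nonneg (Pool.Agent.H30M.tau_nonneg hR z) (sq_nonneg _)
    have h5 := mul_le_mul_of_nonneg_right (le_abs_self (A' j)) h4
    have h6 := mul_le_mul_of_nonneg_left (h1 R hR) (abs_nonneg (A' j))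
    have h7 : |K' j| ≤ |K' j| * (En F R + 1) := le_mul_of_one_le_right (abs_nonneg _) (by linarith [hEn R hR])
    have h8 : (|A' j| * (|A| + |K|) + |K' j|) * (En F R + 1) = |A' j| * ((|A| + |K|) * (En F R + 1)) + |K' j| * (En F R + 1) := by ring
    rw [h8]
    linarith [le_abs_self (K' j)]
  refine ⟨2 * ((|A| + |K|) + n * ∑ j, (|A' j| * (|A| + |K|) + |K' j|)), fun R hR => ?_⟩
  have hint : Integrable fun z => tau R z * lm z ^ 2 := Pool.Agent.MQ2.integrable_tau_mul hR (hlm.pow 2)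
  have hintj : ∀ j, Integrable fun z => tau R z * l j z ^ 2 := fun j => Pool.Agent.MQ2.integrable_tau_mul hR ((hl j).pow 2)
  have hint2 : Integrable fun z => tau R z * (lm z + ∑ j, l j z) ^ 2 :=
    Pool.Agent.MQ2.integrable_tau_mul hR ((hlm.add (continuous_finsetSum _ fun j _ => hl j)).pow 2)
  have hle : ∀ z, tau R z * (lm z + ∑ j, l j z) ^ 2 ≤ 2 * (tau R z * lm z ^ 2) + 2 * (n * ∑ j, tau R z * l j z ^ 2) := by
    intro z
    have h3 : (lm z + ∑ j, l j z) ^ 2 ≤ 2 * lm z ^ 2 + 2 * (∑ j, l j z) ^ 2 := by nlinarith [sq_nonneg (lm z - ∑ j, l j z)]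
    have h4 : (∑ j, l j z) ^ 2 ≤ n * ∑ j, l j z ^ 2 := by
      have := sq_sum_le_card_mul_sum_sq (s := (Finset.univ : Finset (Fin n))) (f := fun j => l j z)
      simpa using this
    have h5 : (lm z + ∑ j, l j z) ^ 2 ≤ 2 * lm z ^ 2 + 2 * (n * ∑ j, l j z ^ 2) := by linarith
    have h6 := mul_le_mul_of_nonneg_left h5 (Pool.Agent.H30M.tau_nonneg hR z)
    refine h6.trans (le_of_eq ?_)
    rw [← Finset.mul_sum]
    ring
  calc ∫ z, tau R z * (lm z + ∑ j, l j z) ^ 2 ≤ ∫ z, (2 * (tau R z * lm z ^ 2) + 2 * (n * ∑ j, tau R z * l j z ^ 2)) := by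
        refine integral_mono hint2 ?_ hle
        exact (hint.const_mul 2).add (((integrable_finsetSum _ fun j _ => hintj j).const_mul _).const_mul 2)
    _ = 2 * (∫ z, tau R z * lm z ^ 2) + 2 * (n * ∑ j, ∫ z, tau R z * l j z ^ 2) := by
        rw [integral_add (hint.const_mul 2) (((integrable_finsetSum _ fun j _ => hintj j).const_mul _).const_mul 2), integral_const_mul,
          integral_const_mul, integral_const_mul, integral_finsetSum _ fun j _ => hintj j]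
    _ ≤ 2 * ((|A| + |K|) * (En F R + 1)) + 2 * (n * ∑ j, (|A' j| * (|A| + |K|) + |K' j|) * (En F R + 1)) := by
        refine add_le_add (mul_le_mul_of_nonneg_left (h1 R hR) (by norm_num)) (mul_le_mul_of_nonneg_left ?_ (by norm_num))
        exact mul_le_mul_of_nonneg_left (Finset.sum_le_sum fun j _ => h2 j R hR) (Nat.cast_nonneg _)
    _ = _ := by
        rw [← Finset.sum_mul]
        ring

end Pool.Agent.MQ3
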