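import Pool.Agent.MQ3.WtN3
import Pool.Agent.H36.TB.Cur
import Pool.Agent.H14.PP.Poly

/-!
# MQ3 WtNB: the upper bound for the weight, and where it is not identically zero

`wt_le`: `|wt|^(1/m) |F|^(j/m) = |w0 (p)|^(1/m) |ρ (p)|^(j/m)`, `w0 y = Wf (ρ y; ∂₁ρ, ∂₂ρ)`.
`wne`: the set of the points near which the weight is zero in a box is open and closed (`wt_chg`); if `Wf (F z; F' z, w) ≠ 0` then the form is not zero in a
chart of the surface at `F z`, so it is not zero in the boxes at the points near `z` off the axes.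
-/

set_option autoImplicit false

open Topology Filter Metric MvPolynomial

noncomputable section

namespace Pool.Agent.MQ3

open Pool.Agent.H36.BP (EN)
open Pool.Agent.H17BP (Surface IsForm)
open Pool.Agent.H17EF (projVar coneE)

variable {M : ℕ} {P : Ideal (MvPolynomial (Fin (M + 1)) ℂ)} {RD : MvPolynomial (Fin (M + 1)) ℂ} {m : ℕ} {X : NCModel P RD} {θ : WDiff (coneE P) m}
  {F : ℂ → EN M} {Wf : EN M → EN M → EN M → ℂ} {mK jH : ℕ}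

/-- the upper bound -/
theorem wt_le (hX : Surface (coneE P)) (hm : 1 ≤ mK) (hW : IsForm (coneE P) mK jH Wf) (i : X.ι) {K : Set (ℂ × ℂ)} (hK : IsCompact K) (hKB : K ⊆ X.B i) :
    ∃ C : ℝ, ∀ F : ℂ → EN M, Differentiable ℂ F → ∀ Y : NCLift X F, ∀ z ∈ Y.U i, Y.p i z ∈ K → wt Wf Y i z ≠ 0 →
      1 / mK * Real.log ‖wt Wf Y i z‖ + jH / mK * Real.log ‖F z‖ ≤ C := by
  have hmK : 0 < (mK : ℝ) := by exact_mod_cast hm
  obtain ⟨w0, hw0⟩ : ∃ w0 : ℂ × ℂ → ℂ, w0 = fun y => Wf (X.ρ i y) (fderiv ℂ (X.ρ i) y (1, 0)) (fderiv ℂ (X.ρ i) y (0, 1)) := ⟨_, rfl⟩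
  have hwc : ContinuousOn w0 K := fun p hp => by
    rw [hw0]
    exact (hW.analytic (X.ρ i) p (wtn_rho_an (hKB hp)) (wtn_rho_mem (hKB hp))).continuousAt.continuousWithinAt
  have hρc : ContinuousOn (X.ρ i) K := fun p hp => (wtn_rho_an (hKB hp)).continuousAt.continuousWithinAt
  obtain ⟨C₁, hC₁⟩ := hK.exists_bound_of_continuousOn hwc
  obtain ⟨C₂, hC₂⟩ := hK.exists_bound_of_continuousOn hρc
  refine ⟨1 / mK * Real.log (|C₁| + 1) + jH / mK * Real.log (|C₂| + 1), fun F hF Y z hz hpK h0 => ?_⟩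
  obtain ⟨hc, he⟩ := cf_spec Y hz
  have h1 := wt_eq hX hW Y hz
  have h2 : wt Wf Y i z = (cf Y i z ^ jH)⁻¹ * w0 (Y.p i z) := by rw [h1, hw0]
  have hw : w0 (Y.p i z) ≠ 0 := by
    intro h3
    exact h0 (by rw [h2, h3, mul_zero])
  have hρ : X.ρ i (Y.p i z) ≠ 0 := wtn_rho_ne hX (Y.mem i z hz)
  have hcn : ‖cf Y i z‖ ≠ 0 := norm_ne_zero_iff.2 hc
  have h3 : Real.log ‖wt Wf Y i z‖ = -(jH * Real.log ‖cf Y i z‖) + Real.log ‖w0 (Y.p i z)‖ := by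
    rw [h2, norm_mul, norm_inv, norm_pow, Real.log_mul (inv_ne_zero (pow_ne_zero _ hcn)) (norm_ne_zero_iff.2 hw), Real.log_inv, Real.log_pow]
  have h4 : Real.log ‖F z‖ = Real.log ‖cf Y i z‖ + Real.log ‖X.ρ i (Y.p i z)‖ := by
    rw [he, norm_smul, Real.log_mul hcn (norm_ne_zero_iff.2 hρ)]
  have h5 : Real.log ‖w0 (Y.p i z)‖ ≤ Real.log (|C₁| + 1) :=
    Real.log_le_log (norm_pos_iff.2 hw) (((hC₁ _ hpK).trans (le_abs_self _)).trans (by linarith))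
  have h6 : Real.log ‖X.ρ i (Y.p i z)‖ ≤ Real.log (|C₂| + 1) :=
    Real.log_le_log (norm_pos_iff.2 hρ) (((hC₂ _ hpK).trans (le_abs_self _)).trans (by linarith))
  have h7 : 1 / (mK : ℝ) * Real.log ‖wt Wf Y i z‖ + jH / mK * Real.log ‖F z‖ =
      1 / mK * Real.log ‖w0 (Y.p i z)‖ + jH / mK * Real.log ‖X.ρ i (Y.p i z)‖ := by
    rw [h3, h4]
    field_simp
    ring
  rw [h7]
  exact add_le_add (mul_le_mul_of_nonneg_left h5 (by positivity)) (mul_le_mul_of_nonneg_left h6 (by positivity))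

/-- the linear combinations of two tangent vectors, modulo the radial direction -/
private theorem form_comb {Z : Set (EN M)} (hW : IsForm Z mK jH Wf) {ρ : ℂ × ℂ → EN M} {p : ℂ × ℂ} (hρ : AnalyticAt ℂ ρ p) (hm : ∀ᶠ q in 𝓝 p, ρ q ∈ Z)
    (w₁ w₂ : ℂ × ℂ) (a₁ a₂ : ℂ) : Wf (ρ p) (fderiv ℂ ρ p w₁ + a₁ • ρ p) (fderiv ℂ ρ p w₂ + a₂ • ρ p) =
      (w₁.1 * w₂.2 - w₁.2 * w₂.1) ^ mK * Wf (ρ p) (fderiv ℂ ρ p (1, 0)) (fderiv ℂ ρ p (0, 1)) := by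
  have hT : ∀ v, fderiv ℂ ρ p v ∈ Pool.Agent.H17BP.Tan Z (ρ p) := fun v => by
    obtain ⟨γ, ⟨h1, h2⟩, h3, h4⟩ := Pool.Agent.E1.ResL_tan hρ hm v
    exact ⟨γ, h1, h2, h3, h4⟩
  have hs : ∀ v : ℂ × ℂ, fderiv ℂ ρ p v = v.1 • fderiv ℂ ρ p (1, 0) + v.2 • fderiv ℂ ρ p (0, 1) := fun v => by
    have h6 : v = v.1 • ((1 : ℂ), (0 : ℂ)) + v.2 • ((0 : ℂ), (1 : ℂ)) := by
      ext <;> simp
    conv_lhs => rw [h6, map_add, map_smul, map_smul]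
  rw [hW.add_smul _ hm.self_of_nhds _ (hT _) _ (hT _), hs w₁, hs w₂, hW.det _ hm.self_of_nhds _ (hT _) _ (hT _)]

/-- not zero in a box at a point off the axes, if not zero in a parametrization of the same point -/
private theorem form_box (hX : Surface (coneE P)) (hW : IsForm (coneE P) mK jH Wf) {i : X.ι} {p : ℂ × ℂ} (hp : p ∈ DS) (hpB : p ∈ X.B i)
    {σ : ℂ × ℂ → EN M} {y : ℂ × ℂ} (hσ : AnalyticAt ℂ σ y) (hσm : ∀ᶠ q in 𝓝 y, σ q ∈ coneE P) {κ : ℂ} (hκ : κ ≠ 0) (h : σ y = κ • X.ρ i p)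
    (h0 : Wf (σ y) (fderiv ℂ σ y (1, 0)) (fderiv ℂ σ y (0, 1)) ≠ 0) :
    Wf (X.ρ i p) (fderiv ℂ (X.ρ i) p (1, 0)) (fderiv ℂ (X.ρ i) p (0, 1)) ≠ 0 := by
  have hρ := wtn_rho_an hpB
  have hρm := wtn_rho_mem hpB
  -- the vectors in the box
  have hv : ∀ v, ∃ (w : ℂ × ℂ) (a : ℂ), fderiv ℂ (X.ρ i) p w + a • X.ρ i p ∈ Pool.Agent.H17BP.Tan (coneE P) (X.ρ i p) ∧
      fderiv ℂ σ y v = κ • (fderiv ℂ (X.ρ i) p w + a • X.ρ i p) := by
    intro v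
    obtain ⟨γ, ⟨h1, h2⟩, h3, h4⟩ := Pool.Agent.E1.ResL_tan hσ hσm v
    have h5 : Pool.Agent.H14.PP.Tan (coneE P) (X.ρ i p) (κ⁻¹ • fderiv ℂ σ y v) := by
      refine ⟨fun t => κ⁻¹ • γ t, ⟨(analyticAt_const (v := κ⁻¹)).fun_smul h1, ?_⟩, ?_, ?_⟩
      · filter_upwards [h2] with t ht
        exact hX.smul _ ht _ (inv_ne_zero hκ)
      · show κ⁻¹ • γ 0 = _
        rw [h3, h, smul_smul, inv_mul_cancel₀ hκ, one_smul]
      · rw [deriv_fun_const_smul _ h1.differentiableAt, h4]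
    obtain ⟨w, a, h6⟩ := (X.box i).span hX hp _ h5
    refine ⟨w, a, ?_, ?_⟩
    · rw [← h6]
      obtain ⟨γ', ⟨g1, g2⟩, g3, g4⟩ := h5
      exact ⟨γ', g1, g2, g3, g4⟩
    · rw [← h6, smul_smul, mul_inv_cancel₀ hκ, one_smul]
  obtain ⟨w₁, a₁, t₁, e₁⟩ := hv (1, 0)
  obtain ⟨w₂, a₂, t₂, e₂⟩ := hv (0, 1)
  intro hcon
  apply h0
  have h7 := hW.scale _ hρm.self_of_nhds _ t₁ _ t₂ κ hκ
  rw [form_comb hW hρ hρm, hcon, mul_zero, ← e₁, ← e₂, ← h] at h7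
  exact (mul_eq_zero.1 h7).resolve_left (pow_ne_zero _ hκ)

private theorem jc_ne' {Φ : ℂ × ℂ → ℂ × ℂ} {p : ℂ × ℂ} (h : (fderiv ℂ Φ p).det ≠ 0) : jc Φ p ≠ 0 := by
  have h1 : (fderiv ℂ Φ p).det = jc Φ p := by
    have h2 : (fderiv ℂ Φ p).det = LinearMap.det (fderiv ℂ Φ p : ℂ × ℂ →ₗ[ℂ] ℂ × ℂ) := rfl
    rw [h2, ← LinearMap.det_toMatrix (Module.Basis.finTwoProd ℂ), Matrix.det_fin_two]
    simp [LinearMap.toMatrix_apply, jc]
  rwa [h1] at h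

/-- the curve is off the axes, with isolated exceptions -/
theorem wtn_off (hF : WCrv θ RD F) (Y : NCLift X F) {i : X.ι} {z : ℂ} (hz : z ∈ Y.U i) : ∀ᶠ w in 𝓝[≠] z, Y.p i w ∈ DS := by
  obtain ⟨d, hd⟩ := hF.hom
  have han : ∀ z, AnalyticAt ℂ (fun w => eval (F w).ofLp RD) z := fun z =>
    AnalyticAt.comp (g := fun x : EN M => eval x.ofLp RD) (f := F) (Pool.Agent.H14.PP.analyticAt_evalEN RD (F z)) (hF.diff.analyticAt z)
  have h1 : ∀ᶠ w in 𝓝[≠] z, eval (F w).ofLp RD ≠ 0 := by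
    rcases (han z).eventually_eq_zero_or_eventually_ne_zero with h | h
    · exfalso
      obtain ⟨w, hw⟩ := hF.ne
      have h2 : AnalyticOnNhd ℂ (fun w => eval (F w).ofLp RD) Set.univ := fun z _ => han z
      have h3 := h2.eq_of_eventuallyEq (g := fun _ => (0 : ℂ)) (fun z _ => analyticAt_const) (z₀ := z) h
      exact hw (congrFun h3 w)
    · exact h
  filter_upwards [h1, nhdsWithin_le_nhds ((Y.isOpen i).mem_nhds hz)] with w hw hwU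
  have hB := Y.mem i w hwU
  obtain ⟨c, hc, he⟩ := Y.eq i w hwU
  have h2 : eval (X.ρ i (Y.p i w)).ofLp RD ≠ 0 := by
    intro h3
    apply hw
    have h4 : (F w).ofLp = c • (X.ρ i (Y.p i w)).ofLp := by rw [he]; rfl
    rw [h4, Pool.Agent.H17EF.eval_smul_form hd, h3, mul_zero]
  have h3 : (Y.p i w).1 * (Y.p i w).2 ≠ 0 := fun h4 => h2 ((X.div i _ hB).2 h4)
  obtain ⟨l1, l2⟩ := wtn_lt hB
  exact ⟨⟨left_ne_zero_of_mul h3, l1⟩, ⟨right_ne_zero_of_mul h3, l2⟩⟩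

/-- not identically zero at one point: not identically zero anywhere -/
theorem wne (hX : Surface (coneE P)) (hm : 1 ≤ mK) (hW : IsForm (coneE P) mK jH Wf) (hF : WCrv θ RD F) (Y : NCLift X F)
    (h : ∃ z w, Pool.Agent.H17BP.Tan (coneE P) (F z) w ∧ Wf (F z) (deriv F z) w ≠ 0) : WNe Wf Y := by
  have an := wt_an hX hm hW hF.diff Y
  have dich : ∀ i, ∀ z ∈ Y.U i, (∀ᶠ w in 𝓝 z, wt Wf Y i w = 0) ∨ ∀ᶠ w in 𝓝[≠] z, wt Wf Y i w ≠ 0 := fun i z hz =>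
    (an i z hz).eventually_eq_zero_or_eventually_ne_zero
  have tr : ∀ i j z, z ∈ Y.U i → z ∈ Y.U j → (wt Wf Y i z = 0 ↔ wt Wf Y j z = 0) := by
    intro i j z hi hj
    obtain ⟨Φ, hΦ, h0⟩ := exists_chg Y hi hj
    have h1 := (wt_chg hX hm hW hF.diff Y hi hj hΦ h0).self_of_nhds.2
    rw [h1, mul_eq_zero, or_iff_right (pow_ne_zero _ (jc_ne' hΦ.det))]
  obtain ⟨B, hB⟩ : ∃ B : Set ℂ, B = {z | ∃ i, z ∈ Y.U i ∧ ∀ᶠ w in 𝓝 z, wt Wf Y i w = 0} := ⟨_, rfl⟩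
  have hopen : IsOpen B := by
    rw [isOpen_iff_mem_nhds]
    intro z hz
    rw [hB] at hz ⊢
    obtain ⟨i, hi, h1⟩ := hz
    filter_upwards [(Y.isOpen i).mem_nhds hi, h1.eventually_nhds] with w h2 h3
    exact ⟨i, h2, h3⟩
  have hclosed : IsClosed B := by
    rw [← isOpen_compl_iff, isOpen_iff_mem_nhds]
    intro z hz
    obtain ⟨i, hi, _⟩ := Y.cover z
    have h1 : ∀ᶠ w in 𝓝[≠] z, wt Wf Y i w ≠ 0 := by
      rcases dich i z hi with h1 | h1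
      · exfalso
        apply hz
        rw [hB]
        exact ⟨i, hi, h1⟩
      · exact h1
    rw [eventually_nhdsWithin_iff] at h1
    filter_upwards [h1, (Y.isOpen i).mem_nhds hi] with w h2 h3 h4
    by_cases hwz : w = z
    · rw [hwz] at h4
      exact hz h4
    · rw [hB] at h4
      obtain ⟨j, hj, h5⟩ := h4
      exact h2 hwz ((tr i j w h3 hj).2 h5.self_of_nhds)
  rcases isClopen_iff.1 ⟨hclosed, hopen⟩ with h1 | h1
  · intro i z hz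
    rcases dich i z hz with h2 | h2
    · exfalso
      have h3 : z ∈ B := by
        rw [hB]
        exact ⟨i, hz, h2⟩
      rw [h1] at h3
      exact h3
    · exact h2
  · exfalso
    obtain ⟨z, w₀, hw₀, hne⟩ := h
    obtain ⟨i, hi, hzero⟩ : z ∈ {z | ∃ i, z ∈ Y.U i ∧ ∀ᶠ w in 𝓝 z, wt Wf Y i w = 0} := by
      rw [← hB, h1]
      exact Set.mem_univ z
    obtain ⟨σ, τ, hσ, h0⟩ := hX.chart (F z) (hF.mem z)
    have hcoef := (Pool.Agent.H36.TB.exists_coef hσ).self_of_nhds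
    have hτ0 : τ (σ 0) = 0 := hσ.left.self_of_nhds
    obtain ⟨c₁, a₁, _, _, g₁⟩ := hcoef F z (hF.diff.analyticAt z) (Eventually.of_forall hF.mem) h0.symm
    obtain ⟨γ, k1, k2, k3, k4⟩ := hw₀
    obtain ⟨c₂, a₂, _, _, g₂⟩ := hcoef γ 0 k1 k2 (k3.trans h0.symm)
    rw [hτ0, ← map_smul] at g₁ g₂
    rw [k4] at g₂
    have hσ0 : Wf (σ 0) (fderiv ℂ σ 0 (1, 0)) (fderiv ℂ σ 0 (0, 1)) ≠ 0 := by
      intro h2
      apply hne
      rw [g₁, g₂, ← h0, form_comb hW hσ.σ_an hσ.σ_mem, h2, mul_zero]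
    have hWσ := hW.analytic σ 0 hσ.σ_an hσ.σ_mem
    have e1 : ∀ᶠ y in 𝓝 (0 : ℂ × ℂ), Wf (σ y) (fderiv ℂ σ y (1, 0)) (fderiv ℂ σ y (0, 1)) ≠ 0 := hWσ.continuousAt.eventually_ne hσ0
    have hFt : Tendsto F (𝓝 z) (𝓝 (σ 0)) := by
      rw [h0]
      exact (hF.diff z).continuousAt.tendsto
    have hτt : Tendsto (fun w => τ (F w)) (𝓝 z) (𝓝 0) := by
      have h2 := hσ.τ_an.continuousAt.tendsto.comp hFt
      rw [hτ0] at h2
      exact h2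
    have e2 := hFt.eventually hσ.right
    have e3 := hτt.eventually e1
    have e4 := hτt.eventually hσ.σ_an.eventually_analyticAt
    have e5 := hτt.eventually hσ.σ_mem.eventually_nhds
    have e6 : ∀ᶠ w in 𝓝 z, w ∈ Y.U i := (Y.isOpen i).mem_nhds hi
    have e7 := (((e2.and e3).and (e4.and e5)).and (hzero.and e6)).filter_mono (nhdsWithin_le_nhds (s := {z}ᶜ))
    obtain ⟨w, ⟨⟨⟨f2, f3⟩, f4, f5⟩, f7, f8⟩, f6⟩ := (e7.and (wtn_off hF Y hi)).exists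
    obtain ⟨c, hc, f9⟩ := f2 (hF.mem w)
    obtain ⟨hcf, f10⟩ := cf_spec Y f8
    have f11 : σ (τ (F w)) = (c⁻¹ * cf Y i w) • X.ρ i (Y.p i w) := by
      rw [mul_smul, ← f10]
      conv_rhs => rw [f9]
      rw [smul_smul, inv_mul_cancel₀ hc, one_smul]
    have f12 := form_box hX hW f6 (Y.mem i w f8) f4 f5 (mul_ne_zero (inv_ne_zero hc) hcf) f11 f3
    rw [wt_eq hX hW Y f8] at f7
    exact (mul_ne_zero (inv_ne_zero (pow_ne_zero _ hcf)) f12) f7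

end Pool.Agent.MQ3
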