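import Pool.Agent.MQ3.AsmNA
import Pool.Agent.MQ3.EtaL
import Pool.Agent.MQ3.WtNB
import Pool.Agent.MQ3.LogN
import Pool.Agent.MQ3.LogS0
import Pool.Agent.MQ3.SatN

/-!
# MQ3 AsmP: the patch of a special point

The potential is `eP + Φ`, the field is the one of the package `LocX`.
-/

set_option autoImplicit false

open Topology Filter Metric MvPolynomial MeasureTheory Laplacian

noncomputable section

namespace Pool.Agent.MQ3

open Pool.Agent.H36.BP (EN fs)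
open Pool.Agent.H17BP (Surface IsForm)
open Pool.Agent.H17EF (projVar coneE)
open Pool.Agent.H30M (tau LogSing)
open Pool.Agent.MQ (lam En ztv dvg DDv gr dv Pack)
open Pool.Agent.MQ2 (LocX)

variable {M : ℕ} {P : Ideal (MvPolynomial (Fin (M + 1)) ℂ)} {RD : MvPolynomial (Fin (M + 1)) ℂ} {m : ℕ} {X : NCModel P RD} {θ : WDiff (coneE P) m}
  {l : LF M} {S : Web X θ l} {Ra : MvPolynomial (Fin (M + 1)) ℂ}

/-! ## translation -/

theorem aP_add (C : Cov S Ra) {F : ℂ → EN M} (Y : NCLift X F) (j : Fin C.nP) (z : ℂ) : C.Q j + C.pj Y j z = S.lf Y (C.ck j) z := by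
  unfold Cov.pj
  abel

theorem aP_deriv (C : Cov S Ra) {F : ℂ → EN M} (Y : NCLift X F) (j : Fin C.nP) (z : ℂ) : deriv (C.pj Y j) z = deriv (S.lf Y (C.ck j)) z := by
  unfold Cov.pj
  exact deriv_sub_const (C.Q j)

theorem aP_ztv (C : Cov S Ra) {F : ℂ → EN M} (Y : NCLift X F) (j : Fin C.nP) (z : ℂ) :
    ztv (C.vj j) (C.pj Y j) z = ztv (S.v (C.ck j)) (S.lf Y (C.ck j)) z := by
  unfold ztv Cov.vj
  rw [aP_add, aP_deriv]

theorem aP_DDv (C : Cov S Ra) {F : ℂ → EN M} (Y : NCLift X F) (j : Fin C.nP) (g : ℂ × ℂ → ℂ) (z : ℂ) :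
    DDv (C.vj j) (fun x => g (C.Q j + x)) (C.pj Y j) z = DDv (S.v (C.ck j)) g (S.lf Y (C.ck j)) z := by
  unfold DDv
  show dvg (C.vj j) (C.pj Y j z) * ztv (C.vj j) (C.pj Y j) z - deriv (fun w => g (C.Q j + C.pj Y j w)) z / g (C.Q j + C.pj Y j z) = _
  rw [aP_ztv, aP_add]
  have h1 : (fun w => g (C.Q j + C.pj Y j w)) = fun w => g (S.lf Y (C.ck j) w) := by
    funext w
    rw [aP_add]
  have h2 : dvg (C.vj j) (C.pj Y j z) = dvg (S.v (C.ck j)) (S.lf Y (C.ck j) z) := by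
    unfold dvg
    have h3 : fderiv ℂ (C.vj j) (C.pj Y j z) = fderiv ℂ (S.v (C.ck j)) (S.lf Y (C.ck j) z) := by
      show fderiv ℂ (fun x => S.v (C.ck j) (C.Q j + x)) (C.pj Y j z) = _
      rw [fderiv_comp_add_left, aP_add]
    rw [h3]
  rw [h1, h2]

theorem aP_notin (C : Cov S Ra) {F : ℂ → EN M} (Y : NCLift X F) (j : Fin C.nP) {z : ℂ} (hz : z ∈ C.UP Y j) (hc : z ∉ C.core Y j) :
    C.pj Y j z ∉ ball (0 : ℂ × ℂ) (C.s j) := by
  intro h
  refine hc ⟨hz.1, ball_subset_closedBall ?_⟩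
  rw [mem_ball_zero_iff] at h
  rw [mem_ball, dist_eq_norm]
  exact h

theorem aP_norm_eq (C : Cov S Ra) {F : ℂ → EN M} (Y : NCLift X F) (j : Fin C.nP) {z : ℂ} (h : C.pj Y j z ∉ ball (0 : ℂ × ℂ) (C.s j)) :
    S.lf Y (C.ck j) z ∉ ball (C.Q j) (C.s j) := by
  intro h1
  apply h
  rw [mem_ball, dist_eq_norm] at h1
  rw [mem_ball_zero_iff]
  exact h1

/-! ## the shell -/

/-- the norm of `z'` -/
theorem norm_ztv_le {v : ℂ × ℂ → ℂ × ℂ} {p : ℂ → ℂ × ℂ} {z : ℂ} (hv : v (p z) ≠ 0)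
    (ht : (v (p z)).1 * (deriv p z).2 - (v (p z)).2 * (deriv p z).1 = 0) : deriv p z = ztv v p z • v (p z) ∧ ‖ztv v p z‖ * ‖v (p z)‖ = ‖deriv p z‖ := by
  have h1 : deriv p z = ztv v p z • v (p z) := by
    unfold ztv
    by_cases h2 : (v (p z)).2 = 0
    · rw [if_pos h2]
      have h3 : (v (p z)).1 ≠ 0 := fun h3 => hv (Prod.ext h3 h2)
      refine Prod.ext ?_ ?_
      · show (deriv p z).1 = (deriv p z).1 / (v (p z)).1 * (v (p z)).1
        rw [div_mul_cancel₀ _ h3]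
      · show (deriv p z).2 = (deriv p z).1 / (v (p z)).1 * (v (p z)).2
        rw [h2, mul_zero]
        rw [h2, zero_mul, sub_zero] at ht
        exact (mul_eq_zero.1 ht).resolve_left h3
    · rw [if_neg h2]
      refine Prod.ext ?_ ?_
      · show (deriv p z).1 = (deriv p z).2 / (v (p z)).2 * (v (p z)).1
        rw [div_mul_eq_mul_div, eq_div_iff h2]
        linear_combination -ht
      · show (deriv p z).2 = (deriv p z).2 / (v (p z)).2 * (v (p z)).2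
        rw [div_mul_cancel₀ _ h2]
  refine ⟨h1, ?_⟩
  conv_rhs => rw [h1, norm_smul]

/-- the field is bounded on the shell -/
theorem aP_shell (C : Cov S Ra) {g : Fin C.nP → ℂ × ℂ → ℂ} (hg : PG C g) (j : Fin C.nP) :
    ∃ B : ℝ, 0 ≤ B ∧ ∀ {F : ℂ → EN M}, WCrv θ RD F → ∀ Y : NCLift X F, ∀ z ∈ C.UP Y j, S.lf Y (C.ck j) z ∉ ball (C.Q j) (C.s j) →
      ‖DDv (S.v (C.ck j)) (g j) (S.lf Y (C.ck j)) z‖ ≤ B * ‖deriv (S.lf Y (C.ck j)) z‖ := by
  obtain ⟨k, hk⟩ : ∃ k, k = C.ck j := ⟨_, rfl⟩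
  obtain ⟨Sh, hSh⟩ : ∃ Sh : Set (ℂ × ℂ), Sh = closedBall (C.Q j) (C.r j) \ ball (C.Q j) (C.s j) := ⟨_, rfl⟩
  have hShc : IsCompact Sh := by
    rw [hSh]
    exact (isCompact_closedBall _ _).diff isOpen_ball
  have hne : ∀ x ∈ Sh, x ≠ C.Q j := by
    intro x hx h
    rw [hSh] at hx
    apply hx.2
    rw [h]
    exact mem_ball_self (C.s_pos j)
  have hSD : ∀ x ∈ Sh, x ∈ S.D k := by
    intro x hx
    rw [hSh] at hx
    rw [hk]
    exact C.P_sub j hx.1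
  -- the local bound
  have hloc : ∀ x ∈ Sh, ∃ N ∈ 𝓝 x, ∃ B : ℝ, 0 ≤ B ∧ ∀ y ∈ N, S.v k y ≠ 0 ∧ ‖dvg (S.v k) y‖ + 1 ≤ B * ‖S.v k y‖ ∧
      ‖fderiv ℂ (g j) y (S.v k y)‖ ≤ B * ‖S.v k y‖ * ‖g j y‖ ∧ DifferentiableAt ℂ (g j) y := by
    intro x hx
    have hxb : x ∈ closedBall (C.Q j) (C.r j) := by
      rw [hSh] at hx
      exact hx.1
    have hv0 : S.v k x ≠ 0 := by
      rw [hk]
      rcases C.P_reg j x hxb (hne x hx) with h | h
      · exact h.v_ne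
      · exact h.v_ne
    obtain ⟨hga, -, ⟨c, hc, hce⟩, -⟩ := hg.inv j x hxb (hne x hx)
    have hva : AnalyticAt ℂ (S.v k) x := v_an k x (hSD x hx)
    have h1 : ContinuousAt (fun y => ‖S.v k y‖) x := hva.continuousAt.norm
    have h2 : ∀ᶠ y in 𝓝 x, ‖S.v k x‖ / 2 < ‖S.v k y‖ := h1.eventually_const_lt (by
      have := norm_pos_iff.2 hv0
      show ‖S.v k x‖ / 2 < ‖S.v k x‖
      linarith)
    have hdv : ContinuousAt (fun y => ‖dvg (S.v k) y‖) x := by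
      have h3 : ContinuousAt (fun y => dvg (S.v k) y) x := by
        have h4 := hva.fderiv.continuousAt
        unfold dvg
        exact (h4.clm_apply continuousAt_const).fst.add (h4.clm_apply continuousAt_const).snd
      exact h3.norm
    have h3 : ∀ᶠ y in 𝓝 x, ‖dvg (S.v k) y‖ < ‖dvg (S.v k) x‖ + 1 := hdv.eventually_lt_const (by linarith)
    have h4 : ∀ᶠ y in 𝓝 x, ‖c y‖ < ‖c x‖ + 1 := hc.continuousAt.norm.eventually_lt_const (by linarith)
    have hp := norm_pos_iff.2 hv0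
    refine ⟨{y | ‖S.v k x‖ / 2 < ‖S.v k y‖ ∧ ‖dvg (S.v k) y‖ < ‖dvg (S.v k) x‖ + 1 ∧ ‖c y‖ < ‖c x‖ + 1 ∧
      fderiv ℂ (g j) y (S.v k y) = c y * g j y ∧ DifferentiableAt ℂ (g j) y}, ?_, (‖dvg (S.v k) x‖ + 2 + (‖c x‖ + 1)) / (‖S.v k x‖ / 2), by positivity, ?_⟩
    · rw [← hk] at hce
      filter_upwards [h2, h3, h4, hce, hga.eventually_analyticAt] with y a1 a2 a3 a4 a5
      exact ⟨a1, a2, a3, a4, a5.differentiableAt⟩
    · rintro y ⟨a1, a2, a3, a4, a5⟩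
      have hy : 0 < ‖S.v k y‖ := by linarith
      have hb : ‖dvg (S.v k) x‖ + 2 + (‖c x‖ + 1) ≤ (‖dvg (S.v k) x‖ + 2 + (‖c x‖ + 1)) / (‖S.v k x‖ / 2) * ‖S.v k y‖ := by
        rw [div_mul_eq_mul_div, le_div_iff₀ (by positivity)]
        exact mul_le_mul_of_nonneg_left a1.le (by positivity)
      refine ⟨norm_pos_iff.1 hy, ?_, ?_, a5⟩
      · have := norm_nonneg (c x)
        linarith
      · rw [a4, norm_mul]
        refine mul_le_mul_of_nonneg_right (le_trans ?_ hb) (norm_nonneg _)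
        have := norm_nonneg (dvg (S.v k) x)
        linarith
  choose! N hN B hB hNB using hloc
  obtain ⟨T, hT, hcov⟩ := hShc.elim_nhds_subcover N hN
  refine ⟨2 * ∑ x ∈ T, B x, mul_nonneg (by norm_num) (Finset.sum_nonneg fun x hx => hB x (hT x hx)), ?_⟩
  intro F hF Y z hz hzs
  rw [← hk] at hzs ⊢
  have hz1 : z ∈ S.Om Y k := by
    rw [hk]
    exact hz.1
  have hzSh : S.lf Y k z ∈ Sh := by
    rw [hSh, hk]
    exact ⟨ball_subset_closedBall hz.2, by rw [← hk]; exact hzs⟩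
  obtain ⟨x, hxT, hxN⟩ := Set.mem_iUnion₂.1 (hcov hzSh)
  obtain ⟨h1, h2, h3, h4⟩ := hNB x (hT x hxT) _ hxN
  have hBx : B x ≤ ∑ x ∈ T, B x := Finset.single_le_sum (f := B) (fun y hy => hB y (hT y hy)) hxT
  obtain ⟨hd, hn⟩ := norm_ztv_le h1 (lfN_tan hF Y k z hz1)
  have hlf := lfN_an hF Y k z hz1
  have hch : deriv (fun w => g j (S.lf Y k w)) z = fderiv ℂ (g j) (S.lf Y k z) (deriv (S.lf Y k) z) :=
    (h4.hasFDerivAt.comp_hasDerivAt z hlf.differentiableAt.hasDerivAt).deriv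
  have hx0 := hB x (hT x hxT)
  have e1 : ‖dvg (S.v k) (S.lf Y k z) * ztv (S.v k) (S.lf Y k) z‖ ≤ B x * ‖deriv (S.lf Y k) z‖ := by
    rw [norm_mul, ← hn]
    calc ‖dvg (S.v k) (S.lf Y k z)‖ * ‖ztv (S.v k) (S.lf Y k) z‖ ≤ B x * ‖S.v k (S.lf Y k z)‖ * ‖ztv (S.v k) (S.lf Y k) z‖ :=
          mul_le_mul_of_nonneg_right (by linarith) (norm_nonneg _)
      _ = _ := by ring
  have e2 : ‖deriv (fun w => g j (S.lf Y k w)) z / g j (S.lf Y k z)‖ ≤ B x * ‖deriv (S.lf Y k) z‖ := by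
    rw [hch]
    by_cases h0 : g j (S.lf Y k z) = 0
    · rw [h0, div_zero, norm_zero]
      positivity
    · rw [norm_div, div_le_iff₀ (norm_pos_iff.2 h0)]
      conv_lhs => rw [hd, map_smul, norm_smul]
      rw [← hn]
      calc ‖ztv (S.v k) (S.lf Y k) z‖ * ‖fderiv ℂ (g j) (S.lf Y k z) (S.v k (S.lf Y k z))‖ ≤
          ‖ztv (S.v k) (S.lf Y k) z‖ * (B x * ‖S.v k (S.lf Y k z)‖ * ‖g j (S.lf Y k z)‖) := mul_le_mul_of_nonneg_left h3 (norm_nonneg _)
        _ = _ := by ring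
  unfold DDv
  refine (norm_sub_le _ _).trans ?_
  have h5 := norm_nonneg (deriv (S.lf Y k) z)
  have h6 : B x * ‖deriv (S.lf Y k) z‖ ≤ (∑ x ∈ T, B x) * ‖deriv (S.lf Y k) z‖ := mul_le_mul_of_nonneg_right hBx h5
  linarith

/-! ## the patch -/

/-- AsmP: a special point -/
theorem patch_P {Wf : EN M → EN M → EN M → ℂ} {mK jH : ℕ} (hX : Surface (coneE P)) (hm : 1 ≤ mK)
    (hW : IsForm (coneE P) mK jH Wf) (C : Cov S Ra) {g : Fin C.nP → ℂ × ℂ → ℂ} (hg : PG C g) {F : ℂ → EN M} (hF : RCrv θ RD Ra F)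
    (Y : NCLift X F) (hne : WNe Wf Y) {Θ : ℂ → ℂ} (hΘ : IsTh S Wf mK Y Θ) {A : ℝ} (hA : 0 ≤ A) {lm : ℂ → ℝ} (hl : Dens C Y A lm) {A' δ : ℝ} (hδ : 0 ≤ δ)
    (j : Fin C.nP) (hL : LocX (C.vj j) (fun x => g j (C.Q j + x)) (C.Jj j) (C.UP Y j) (C.pj Y j) lm (C.s j) A' δ) :
    ∃ (c : ℝ) (l : ℂ → ℝ) (e : ℂ → ℝ) (η : ℂ → ℂ) (err : ℂ → ℝ),
      IsPatch F (Psi mK jH F Θ) (2 * jH / mK) l (C.UP Y j) e η err (C.core Y j) c (δ * A) ∧ Continuous l ∧ (∀ z, lm z ≤ l z) ∧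
        (∃ B : ℝ, ∀ R, 1 ≤ R → ∫ z, tau R z * l z ^ 2 ≤ B * (En F R + 1)) ∧
        ∀ z ∈ C.UP Y j, z ∉ C.core Y j → e =ᶠ[𝓝 z] eP S (g j) Wf mK jH Y (C.ck j) := by
  obtain ⟨C₀, l, η, Φ, err, hC0, hlc, hlm, hE, hη, herr, hPhi, hout, hin, hlap, hup, hint⟩ := hL
  have hW' := hF.toWCrv
  have hO := UP_open C hW' Y j
  have hcl := core_closed C hW' Y j
  have hlm0 : ∀ z, 0 ≤ lm z := fun z => (Pool.Agent.MQ.lam_nonneg F z).trans (hl.le z)
  have hl0 : ∀ z, 0 ≤ l z := fun z => (hlm0 z).trans (hlm z)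
  have hEn : ∀ R, 1 ≤ R → 0 ≤ En F R := fun R hR => integral_nonneg fun z => mul_nonneg (Pool.Agent.H30M.tau_nonneg hR z) (sq_nonneg _)
  -- the equation at the points of the patch
  have hga : ∀ z ∈ C.UP Y j, AnalyticAt ℂ (g j) (S.lf Y (C.ck j) z) := by
    intro z hz
    by_cases h0 : S.lf Y (C.ck j) z = C.Q j
    · rw [h0]
      exact hg.an j
    · exact (hg.inv j _ (ball_subset_closedBall hz.2) h0).1
  have hgn := g_ne C hg j hF Y
  have hgr := fun z (hz : z ∈ C.UP Y j) => gr_eP hX hm hW hW' Y hne hΘ hz.1 (hga z hz) ((hgn z hz).frequently.filter_mono nhdsWithin_le_nhds)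
  -- off the core
  have hoff : ∀ z ∈ C.UP Y j, z ∉ C.core Y j → ∀ᶠ w in 𝓝 z, w ∈ C.UP Y j ∧ C.pj Y j w ∉ ball (0 : ℂ × ℂ) (C.s j) := by
    intro z hz hc
    filter_upwards [hO.mem_nhds hz, hcl.isOpen_compl.mem_nhds hc] with w h1 h2
    exact ⟨h1, aP_notin C Y j h1 h2⟩
  have heq : ∀ z ∈ C.UP Y j, z ∉ C.core Y j → (fun z => eP S (g j) Wf mK jH Y (C.ck j) z + Φ z) =ᶠ[𝓝 z] eP S (g j) Wf mK jH Y (C.ck j) := by
    intro z hz hc
    filter_upwards [hoff z hz hc] with w hw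
    rw [(hout w hw.1 hw.2).2.2, add_zero]
  -- the weight
  obtain ⟨Bw, hBw⟩ := wt_le hX hm hW (C.ck j).1 (K := S.κ (C.ck j) '' closedBall (C.Q j) (C.r j))
    ((isCompact_closedBall _ _).image_of_continuousOn fun q hq => (by
      have : Continuous (S.κ (C.ck j)) := by
        show Continuous fun q : ℂ × ℂ => (q.1 ^ (S.c (C.ck j)).w.1 * q.2 ^ (S.c (C.ck j)).w'.1, q.1 ^ (S.c (C.ck j)).w.2 * q.2 ^ (S.c (C.ck j)).w'.2)
        fun_prop
      exact this.continuousWithinAt)) (by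
      rintro _ ⟨q, hq, rfl⟩
      exact (C.P_sub j hq).2)
  -- the upper bound at the generic points
  have hupg : ∀ z ∈ C.UP Y j, ∀ᶠ w in 𝓝[≠] z, eP S (g j) Wf mK jH Y (C.ck j) w + Φ w ≤ C₀ + Bw + Real.log (1 + l w) := by
    intro z hz
    obtain ⟨c, hc⟩ := hPhi z hz
    filter_upwards [hc.eventually, lfN_ne hW' Y (C.ck j) z hz.1, hgn z hz, hne (C.ck j).1 z (Om_sub hW' Y (C.ck j) hz.1),
      mem_nhdsWithin_of_mem_nhds (hO.mem_nhds hz)] with w h1 h2 h3 h4 h5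
    have h6 := hup w h5 h1 (by rw [aP_ztv]; exact h2.2.2.2.1) (by
      show g j (C.Q j + C.pj Y j w) ≠ 0
      rw [aP_add]
      exact h3) (by
      show jc (S.κ (C.ck j)) (C.Q j + C.pj Y j w) ≠ 0
      rw [aP_add]
      exact h2.2.2.2.2)
    have h7 : Real.log ‖ztv (S.v (C.ck j)) (S.lf Y (C.ck j)) w‖ + Real.log ‖g j (S.lf Y (C.ck j) w)‖ + Real.log ‖jc (S.κ (C.ck j)) (S.lf Y (C.ck j) w)‖ +
        Φ w ≤ C₀ + Real.log (1 + l w) := by
      rw [← aP_ztv, ← aP_add C Y j w]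
      exact h6
    have h8 := hBw F hF.diff Y w (Om_sub hW' Y (C.ck j) h5.1) (by
      rw [← (lfN_mem hW' Y (C.ck j) w h5.1).2]
      exact ⟨_, ball_subset_closedBall h5.2, rfl⟩) h4
    unfold eP
    linarith
  -- the shell
  obtain ⟨Bs, hBs0, hBs⟩ := aP_shell C hg j
  obtain ⟨K, hK⟩ := hl.energy
  refine ⟨C₀ + |Bw| + Bs + δ * |K|, l, fun z => eP S (g j) Wf mK jH Y (C.ck j) z + Φ z, η, err, ⟨hO, fun z hz => ?_, hη, fun z hz => ?_, fun z hz hc => ?_, hcl,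
    core_sub_UP C Y j, herr, fun z hz hc => (hout z hz (aP_notin C Y j hz hc)).2.1, fun z hz he => ?_, fun R hR => ?_, fun z hz he => ?_⟩, hlc, hlm, ?_, heq⟩
  · -- positivity
    obtain ⟨c₁, h1⟩ := logSing_P hX hm hW C hg j hF Y hne z hz
    obtain ⟨c₂, h2⟩ := hPhi z hz
    refine ⟨c₁ + c₂, logSing_nonneg (h1.add h2) (B := C₀ + Bw + Real.log (1 + (l z + 1))) ?_, h1.add h2⟩
    have h3 : ∀ᶠ w in 𝓝[≠] z, l w < l z + 1 := (hlc.continuousAt.eventually_lt_const (by linarith)).filter_mono nhdsWithin_le_nhds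
    refine Eventually.frequently ?_
    filter_upwards [hupg z hz, h3] with w h4 h5
    exact h4.trans (add_le_add le_rfl (Real.log_le_log (by linarith [hl0 w]) (by linarith)))
  · -- the bound of the field
    have hb0 : 0 ≤ |Bw| + δ * |K| := by positivity
    by_cases h1 : C.pj Y j z ∈ ball (0 : ℂ × ℂ) (C.s j)
    · refine (hin z hz h1).trans (mul_le_mul_of_nonneg_right ?_ (hl0 z))
      linarith
    · rw [(hout z hz h1).1, aP_DDv, RCLike.norm_conj]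
      refine (hBs hW' Y z hz (aP_norm_eq C Y j h1)).trans ?_
      have h2 := hl.pt j z hz.1 (ball_subset_closedBall hz.2)
      calc Bs * ‖deriv (S.lf Y (C.ck j)) z‖ ≤ Bs * l z := mul_le_mul_of_nonneg_left (h2.trans (hlm z)) hBs0
        _ ≤ _ := mul_le_mul_of_nonneg_right (by linarith) (hl0 z)
  · -- the gradient
    filter_upwards [hgr z hz, (eventually_eventually_nhds.2 (heq z hz hc)).filter_mono nhdsWithin_le_nhds, (hoff z hz hc).filter_mono nhdsWithin_le_nhds] with w h1 h2 h3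
    have h4 : gr (fun z => eP S (g j) Wf mK jH Y (C.ck j) z + Φ z) w = gr (eP S (g j) Wf mK jH Y (C.ck j)) w := by
      unfold gr
      rw [EventuallyEq.fderiv_eq h2]
    rw [h4, (hout w h3.1 h3.2).1, aP_DDv]
    exact h1.2.2
  · -- the Laplacian
    refine lap_of_near (e := fun z => eP S (g j) Wf mK jH Y (C.ck j) z + Φ z) (f := fun z => 2 * jH / mK * lam F z ^ 2) he (hη.contDiffAt (hO.mem_nhds hz))
      (herr.continuousAt (hO.mem_nhds hz)) (continuous_const.mul (hW'.lam_cont.pow 2)).continuousAt ?_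
    obtain ⟨c, hc⟩ := hPhi z hz
    filter_upwards [hgr z hz, hc.eventually, mem_nhdsWithin_of_mem_nhds (hO.mem_nhds hz)] with w h1 h2 h3
    have h4 : Δ (fun z => eP S (g j) Wf mK jH Y (C.ck j) z + Φ z) w = Δ (eP S (g j) Wf mK jH Y (C.ck j)) w + Δ Φ w :=
      Pool.Agent.H30M.lap_add h1.1 h2
    have h5 := hlap w h3 h2
    rw [h4, h1.2.1]
    linarith
  · -- the error
    have h1 := hint R hR
    have h2 := hK R hR
    have h3 : 0 ≤ ∫ z, ‖gr (tau R) z‖ * l z := integral_nonneg fun z => mul_nonneg (norm_nonneg _) (hl0 z)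
    have h4 : δ * (∫ z, tau R z * lm z ^ 2) ≤ δ * (A * En F R + |K|) := mul_le_mul_of_nonneg_left (by linarith [le_abs_self K]) hδ
    have h5 : 0 ≤ (|Bw| + Bs + δ * |K|) * ∫ z, ‖gr (tau R) z‖ * l z := by positivity
    have h6 : 0 ≤ |Bw| + Bs := by positivity
    nlinarith
  · -- the upper bound
    have h1 : Tendsto (fun w => eP S (g j) Wf mK jH Y (C.ck j) w + Φ w) (𝓝[≠] z) (𝓝 (eP S (g j) Wf mK jH Y (C.ck j) z + Φ z)) :=
      he.continuousAt.tendsto.mono_left nhdsWithin_le_nhds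
    have h2 : Tendsto (fun w => C₀ + Bw + Real.log (1 + l w)) (𝓝[≠] z) (𝓝 (C₀ + Bw + Real.log (1 + l z))) := by
      have h3 : Continuous fun w => C₀ + Bw + Real.log (1 + l w) :=
        continuous_const.add ((continuous_const.add hlc).log fun w => (by linarith [hl0 w] : (0 : ℝ) < 1 + l w).ne')
      exact h3.continuousAt.tendsto.mono_left nhdsWithin_le_nhds
    have h3 := le_of_tendsto_of_tendsto h1 h2 (hupg z hz)
    have h4 : 0 ≤ Bs + δ * |K| := by positivity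
    show eP S (g j) Wf mK jH Y (C.ck j) z + Φ z ≤ _
    linarith [le_abs_self Bw]
  · -- the energy
    refine ⟨|A'| * (A + |K|) + C₀, fun R hR => ?_⟩
    have h1 := hE R hR
    have h2 := hK R hR
    have h3 := hEn R hR
    have h4 : 0 ≤ ∫ z, tau R z * lm z ^ 2 := integral_nonneg fun z => mul_nonneg (Pool.Agent.H30M.tau_nonneg hR z) (sq_nonneg _)
    have h5 : ∫ z, tau R z * lm z ^ 2 ≤ (A + |K|) * (En F R + 1) := by
      have h6 : 0 ≤ |K| * En F R := by positivity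
      have h7 : (A + |K|) * (En F R + 1) = A * En F R + A + |K| * En F R + |K| := by ring
      rw [h7]
      linarith [le_abs_self K]
    have h6 := mul_le_mul_of_nonneg_right (le_abs_self A') h4
    have h7 := mul_le_mul_of_nonneg_left h5 (abs_nonneg A')
    have h8 : C₀ ≤ C₀ * (En F R + 1) := le_mul_of_one_le_right hC0 (by linarith)
    have h9 : (|A'| * (A + |K|) + C₀) * (En F R + 1) = |A'| * ((A + |K|) * (En F R + 1)) + C₀ * (En F R + 1) := by ring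
    rw [h9]
    linarith

end Pool.Agent.MQ3
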