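import Pool.Agent.MQ3.BdL
import Pool.Agent.MQ3.ChgN
import Pool.Agent.MQ3.LfN

/-!
# MQ3 BdN: the potentials of two boxes differ by a bounded function
-/

set_option autoImplicit false

open Topology Filter Metric MvPolynomial MeasureTheory Laplacian

noncomputable section

namespace Pool.Agent.MQ3

open Pool.Agent.H36.BP (EN fs)
open Pool.Agent.H14.PP (Tan)
open Pool.Agent.H17BP (Surface IsForm)
open Pool.Agent.H17EF (projVar coneE)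
open Pool.Agent.H30M (tau LogSing)
open Pool.Agent.MQ (lam En ztv dvg DDv gr dv)

namespace BdN

variable {M : ℕ} {P : Ideal (MvPolynomial (Fin (M + 1)) ℂ)} {RD : MvPolynomial (Fin (M + 1)) ℂ} {m : ℕ} {X : NCModel P RD} {θ : WDiff (coneE P) m}
  {l : LF M} {S : Web X θ l} {Ra : MvPolynomial (Fin (M + 1)) ℂ}

/-- `RD ≠ 0` at a chart point: the point is off the axes -/
theorem ax_ne {k : S.ι} {q : ℂ × ℂ} (h : q ∈ S.D k) (h0 : eval (X.ρ k.1 (S.κ k q)).ofLp RD ≠ 0) : q.1 * q.2 ≠ 0 := by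
  intro h2
  apply h0
  rw [X.div k.1 _ h.2]
  have hpos := (S.c k).pos
  unfold dt at hpos
  show (q.1 ^ (S.c k).w.1 * q.2 ^ (S.c k).w'.1) * (q.1 ^ (S.c k).w.2 * q.2 ^ (S.c k).w'.2) = 0
  have h3 : (q.1 ^ (S.c k).w.1 * q.2 ^ (S.c k).w'.1) * (q.1 ^ (S.c k).w.2 * q.2 ^ (S.c k).w'.2) =
      q.1 ^ ((S.c k).w.1 + (S.c k).w.2) * q.2 ^ ((S.c k).w'.1 + (S.c k).w'.2) := by ring
  rw [h3]
  rcases mul_eq_zero.1 h2 with h4 | h4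
  · have h5 : (S.c k).w.1 + (S.c k).w.2 ≠ 0 := by
      intro h5
      have h6 : (S.c k).w.1 = 0 := by omega
      have h7 : (S.c k).w.2 = 0 := by omega
      rw [h6, h7] at hpos
      simp at hpos
    rw [h4, zero_pow h5, zero_mul]
  · have h5 : (S.c k).w'.1 + (S.c k).w'.2 ≠ 0 := by
      intro h5
      have h6 : (S.c k).w'.1 = 0 := by omega
      have h7 : (S.c k).w'.2 = 0 := by omega
      rw [h6, h7] at hpos
      simp at hpos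
    rw [h4, zero_pow h5, mul_zero]

/-- `Ra ≠ 0` at the regular points of the first type, off the axes -/
theorem Ra_ne {k : S.ι} {q : ℂ × ℂ} (h : RegA S Ra k q) (h0 : eval (X.ρ k.1 (S.κ k q)).ofLp RD ≠ 0) : eval (X.ρ k.1 (S.κ k q)).ofLp Ra ≠ 0 := by
  exact h.alg.self_of_nhds (ax_ne h.mem h0)

theorem vrel (hd : ∃ d, RD.IsHomogeneous d) (hdR : ∃ d, Ra.IsHomogeneous d) (C : Cov S Ra) (k k' : Fin C.nN) {a : (S.V (C.b k)).ι}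
    {a' : (S.V (C.b k')).ι} {q q' : ℂ × ℂ} (hq : q ∈ C.K k a) (hq' : q' ∈ C.K k' a') {Φ : ℂ × ℂ → ℂ × ℂ}
    (h : Chg X (C.b k) (C.b k') Φ (S.κ ⟨C.b k, a⟩ q)) (h0 : Φ (S.κ ⟨C.b k, a⟩ q) = S.κ ⟨C.b k', a'⟩ q') :
    VRel (C.H k) (C.H k') Φ (S.κ ⟨C.b k, a⟩ q) := by
  obtain ⟨c, hc, hceq⟩ := h.eq.self_of_nhds
  rw [h0] at hceq
  have eD : eval (X.ρ (C.b k) (S.κ ⟨C.b k, a⟩ q)).ofLp RD = 0 ↔ eval (X.ρ (C.b k') (S.κ ⟨C.b k', a'⟩ q')).ofLp RD = 0 := by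
    obtain ⟨d, hd⟩ := hd
    rw [hceq]
    exact eval_smul_hom hd hc _
  have eR : eval (X.ρ (C.b k) (S.κ ⟨C.b k, a⟩ q)).ofLp Ra = 0 ↔ eval (X.ρ (C.b k') (S.κ ⟨C.b k', a'⟩ q')).ofLp Ra = 0 := by
    obtain ⟨d, hd⟩ := hdR
    rw [hceq]
    exact eval_smul_hom hd hc _
  unfold Cov.H
  rcases hu : C.u k with _ | u <;> rcases hu' : C.u k' with _ | u'
  · exact vrel_A hd h
  · obtain ⟨b1, b2, b3⟩ := C.N_B k' u' hu'
    have hp' := (C.K_B k' a' u' hu' q' hq').2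
    have hD' := X.good (C.b k') _ (b1 hp')
    have hD : eval (X.ρ (C.b k) (S.κ ⟨C.b k, a⟩ q)).ofLp RD ≠ 0 := fun h2 => hD' (eD.1 h2)
    have hA := C.K_A k a hu q hq
    have hR := Ra_ne hA.1 hD
    have hpDS : S.κ ⟨C.b k, a⟩ q ∈ DS := by
      have h1 := X.sub _ h.mem
      have h2 : (S.κ ⟨C.b k, a⟩ q).1 * (S.κ ⟨C.b k, a⟩ q).2 ≠ 0 := fun h3 => hD ((X.div _ _ h.mem).2 h3)
      exact ⟨⟨left_ne_zero_of_mul h2, h1.1⟩, right_ne_zero_of_mul h2, h1.2⟩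
    refine vrel_AB h hpDS (by rw [h0]; exact b2 _ hp') ?_
    rw [h0]
    intro h3
    exact hR (eR.2 ((b3 _ hp').self_of_nhds.1.2 h3))
  · obtain ⟨b1, b2, b3⟩ := C.N_B k u hu
    have hp := (C.K_B k a u hu q hq).2
    have hD := X.good (C.b k) _ (b1 hp)
    have hA := C.K_A k' a' hu' q' hq'
    have hR := Ra_ne hA.1 fun h2 => hD (eD.2 h2)
    refine vrel_BA hd h (b1 hp) (b2 _ hp) ?_
    intro h3
    exact hR (eR.1 ((b3 _ hp).self_of_nhds.1.2 h3))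
  · obtain ⟨b1, b2, b3⟩ := C.N_B k u hu
    obtain ⟨b1', b2', b3'⟩ := C.N_B k' u' hu'
    have hp := (C.K_B k a u hu q hq).2
    have hp' := (C.K_B k' a' u' hu' q' hq').2
    rw [← h0] at hp'
    refine vrel_B h (b2 _ hp) (b2' _ hp') ((b3 _ hp).mono fun x hx => hx.2) ((b3' _ hp').mono fun x hx => hx.2) ?_
    filter_upwards [b3 _ hp, h.an.continuousAt.eventually (b3' _ hp'), h.eq] with x h1 h2 h3
    obtain ⟨c, hc, h4⟩ := h3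
    obtain ⟨d, hd⟩ := hdR
    rw [← h1.1, ← h2.1, h4]
    exact eval_smul_hom hd hc _

end BdN

section

variable {M : ℕ} {P : Ideal (MvPolynomial (Fin (M + 1)) ℂ)} {RD : MvPolynomial (Fin (M + 1)) ℂ} {m : ℕ} {X : NCModel P RD} {θ : WDiff (coneE P) m}
  {l : LF M} {S : Web X θ l} {Ra : MvPolynomial (Fin (M + 1)) ℂ} {Wf : EN M → EN M → EN M → ℂ} {mK jH : ℕ}

theorem bd_NN (hX : Surface (coneE P)) (hm : 1 ≤ mK) (hW : IsForm (coneE P) mK jH Wf) (C : Cov S Ra) (k k' : Fin C.nN) :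
    ∃ B : ℝ, ∀ F : ℂ → EN M, RCrv θ RD Ra F → ∀ Y : NCLift X F, WNe Wf Y → ∀ z ∈ C.UN Y k, z ∈ C.UN Y k' →
      ContDiffAt ℝ 2 (eN (C.H k) Wf mK jH Y (C.b k)) z → ContDiffAt ℝ 2 (eN (C.H k') Wf mK jH Y (C.b k')) z →
        |eN (C.H k) Wf mK jH Y (C.b k) z - eN (C.H k') Wf mK jH Y (C.b k') z| ≤ B := by
  classical
  by_cases hex : ∃ F : ℂ → EN M, RCrv θ RD Ra F
  swap
  · exact ⟨0, fun F hF => absurd ⟨F, hF⟩ hex⟩
  obtain ⟨F₀, hF₀⟩ := hex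
  have hd := hF₀.hom
  have hdR := hF₀.homR
  have main : ∀ (a : (S.V (C.b k)).ι) (a' : (S.V (C.b k')).ι), ∃ B : ℝ, ∀ F : ℂ → EN M, RCrv θ RD Ra F → ∀ Y : NCLift X F, ∀ z, z ∈ Y.U (C.b k) →
      z ∈ Y.U (C.b k') → z ∈ S.Om Y ⟨C.b k, a⟩ → z ∈ S.Om Y ⟨C.b k', a'⟩ →
      (S.lf Y ⟨C.b k, a⟩ z, S.lf Y ⟨C.b k', a'⟩ z) ∈ C.K k a ×ˢ C.K k' a' →
        |eN (C.H k) Wf mK jH Y (C.b k) z - eN (C.H k') Wf mK jH Y (C.b k') z| ≤ B := by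
    intro a a'
    refine ((C.K_compact k a).prod (C.K_compact k' a')).induction_on (p := fun s => ∃ B : ℝ, ∀ F : ℂ → EN M, RCrv θ RD Ra F → ∀ Y : NCLift X F, ∀ z,
      z ∈ Y.U (C.b k) → z ∈ Y.U (C.b k') → z ∈ S.Om Y ⟨C.b k, a⟩ → z ∈ S.Om Y ⟨C.b k', a'⟩ →
      (S.lf Y ⟨C.b k, a⟩ z, S.lf Y ⟨C.b k', a'⟩ z) ∈ s → |eN (C.H k) Wf mK jH Y (C.b k) z - eN (C.H k') Wf mK jH Y (C.b k') z| ≤ B) ?_ ?_ ?_ ?_
    · exact ⟨0, fun F _ Y z _ _ _ _ h => absurd h (Set.notMem_empty _)⟩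
    · rintro s t hst ⟨B, hB⟩
      exact ⟨B, fun F hF Y z h1 h2 h3 h4 h5 => hB F hF Y z h1 h2 h3 h4 (hst h5)⟩
    · rintro s t ⟨B, hB⟩ ⟨B', hB'⟩
      refine ⟨max B B', fun F hF Y z h1 h2 h3 h4 h5 => ?_⟩
      rcases h5 with h5 | h5
      · exact (hB F hF Y z h1 h2 h3 h4 h5).trans (le_max_left _ _)
      · exact (hB' F hF Y z h1 h2 h3 h4 h5).trans (le_max_right _ _)
    · rintro ⟨q, q'⟩ ⟨hq, hq'⟩
      have hq : q ∈ C.K k a := hq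
      have hq' : q' ∈ C.K k' a' := hq'
      have hmem : ∀ (k : Fin C.nN) (a : (S.V (C.b k)).ι), ∀ q ∈ C.K k a, S.κ ⟨C.b k, a⟩ q ∈ X.B (C.b k) := by
        intro k a q hq
        rcases hu : C.u k with _ | u
        · exact C.N_sub k (C.K_A k a hu q hq).2
        · exact C.N_sub k (C.K_B k a u hu q hq).2
      have hp := hmem k a q hq
      have hp' := hmem k' a' q' hq'
      have hc1 : Tendsto (fun x : (ℂ × ℂ) × (ℂ × ℂ) => S.κ ⟨C.b k, a⟩ x.1) (𝓝 (q, q')) (𝓝 (S.κ ⟨C.b k, a⟩ q)) :=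
        ((BdN.κ_cont S ⟨C.b k, a⟩).comp continuous_fst).tendsto (q, q')
      have hc2 : Tendsto (fun x : (ℂ × ℂ) × (ℂ × ℂ) => S.κ ⟨C.b k', a'⟩ x.2) (𝓝 (q, q')) (𝓝 (S.κ ⟨C.b k', a'⟩ q')) :=
        ((BdN.κ_cont S ⟨C.b k', a'⟩).comp continuous_snd).tendsto (q, q')
      by_cases hrel : X.rel (C.b k) (S.κ ⟨C.b k, a⟩ q) (C.b k') (S.κ ⟨C.b k', a'⟩ q')
      · obtain ⟨Φ, h1, h2, h3, h4, h5⟩ := X.iso _ _ _ hp _ hp' hrel
        have hch : Chg X (C.b k) (C.b k') Φ (S.κ ⟨C.b k, a⟩ q) := ⟨hp, by rw [h2]; exact hp', h1, h3, h4, h5⟩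
        obtain ⟨N, hN, B, hB⟩ := BdN.loc (jH := jH) hX hm hW hch (BdN.vrel hd hdR C k k' hq hq' hch h2)
        refine ⟨_, mem_nhdsWithin_of_mem_nhds (hc1 hN), B, fun F hF Y z i1 i2 i3 i4 i5 => hB F hF.diff Y z i1 i2 ?_⟩
        have h6 := (lfN_mem hF.toWCrv Y ⟨C.b k, a⟩ z i3).2
        have h7 : S.κ ⟨C.b k, a⟩ (S.lf Y ⟨C.b k, a⟩ z) ∈ N := i5
        rwa [h6] at h7
      · have h1 : ∀ᶠ x in 𝓝 (q, q'), ¬ X.rel (C.b k) (S.κ ⟨C.b k, a⟩ x.1) (C.b k') (S.κ ⟨C.b k', a'⟩ x.2) :=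
          (hc1.prodMk_nhds hc2).eventually (X.sep _ _ _ hp _ hp' hrel)
        refine ⟨_, mem_nhdsWithin_of_mem_nhds h1, 0, fun F hF Y z i1 i2 i3 i4 i5 => ?_⟩
        exfalso
        have h6 := (lfN_mem hF.toWCrv Y ⟨C.b k, a⟩ z i3).2
        have h7 := (lfN_mem hF.toWCrv Y ⟨C.b k', a'⟩ z i4).2
        have h8 : ¬ X.rel (C.b k) (S.κ ⟨C.b k, a⟩ (S.lf Y ⟨C.b k, a⟩ z)) (C.b k') (S.κ ⟨C.b k', a'⟩ (S.lf Y ⟨C.b k', a'⟩ z)) := i5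
        rw [h6, h7] at h8
        exact h8 (Y.rel _ _ z i1 i2)
  choose B hB using main
  refine ⟨∑ a, ∑ a', |B a a'|, fun F hF Y _ z hz hz' _ _ => ?_⟩
  have hlift : ∀ k, z ∈ C.UN Y k → ∃ a, z ∈ S.Om Y ⟨C.b k, a⟩ ∧ S.lf Y ⟨C.b k, a⟩ z ∈ C.K k a := by
    rintro k ⟨h1, h2, h3⟩
    refine C.lift F hF.toWCrv Y k z h1 (ball_subset_closedBall h2) fun j hj hj' => h3 j ⟨hj, ball_subset_closedBall hj'⟩
  obtain ⟨a, ha, ha'⟩ := hlift k hz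
  obtain ⟨a₁, hb, hb'⟩ := hlift k' hz'
  refine (hB a a₁ F hF Y z hz.1 hz'.1 ha hb ⟨ha', hb'⟩).trans ((le_abs_self _).trans ?_)
  calc |B a a₁| ≤ ∑ a', |B a a'| := Finset.single_le_sum (f := fun a' => |B a a'|) (fun _ _ => abs_nonneg _) (Finset.mem_univ a₁)
    _ ≤ ∑ a, ∑ a', |B a a'| := Finset.single_le_sum (f := fun a => ∑ a', |B a a'|) (fun _ _ => Finset.sum_nonneg fun _ _ => abs_nonneg _) (Finset.mem_univ a)

end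

end Pool.Agent.MQ3
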