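import Pool.Agent.H17BP.ArtA
import Pool.Agent.H17BP.Div

/-!
# MQ3 Sat: saturation

A pair of germs in two variables without common zeros off the axes is a monomial times a pair with an isolated zero.  Application: the pull-back of
`A dy - B dx` under a map which is étale off the axes.
-/

set_option autoImplicit false

open Topology Filter

noncomputable section

namespace Pool.Agent.MQ3

open Pool.Agent.H17BP (exists_div_x exists_div_y ArtA_order)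

private theorem Sat_diag {f : ℂ × ℂ → ℂ} (hf : AnalyticAt ℂ f 0) : AnalyticAt ℂ (fun z : ℂ => f (z, z)) 0 := by
  have h1 : AnalyticAt ℂ (fun z : ℂ => (z, z)) 0 := analyticAt_id.prod analyticAt_id
  exact AnalyticAt.comp (g := f) (f := fun z : ℂ => (z, z)) hf h1

private theorem Sat_fst {f : ℂ × ℂ → ℂ} (hf : AnalyticAt ℂ f 0) : AnalyticAt ℂ (fun z : ℂ => f (z, 0)) 0 := by
  have h1 : AnalyticAt ℂ (fun z : ℂ => (z, (0 : ℂ))) 0 := analyticAt_id.prod analyticAt_const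
  exact AnalyticAt.comp (g := f) (f := fun z : ℂ => (z, (0 : ℂ))) hf h1

private theorem Sat_snd {f : ℂ × ℂ → ℂ} (hf : AnalyticAt ℂ f 0) : AnalyticAt ℂ (fun z : ℂ => f (0, z)) 0 := by
  have h1 : AnalyticAt ℂ (fun z : ℂ => ((0 : ℂ), z)) 0 := analyticAt_const.prod analyticAt_id
  exact AnalyticAt.comp (g := f) (f := fun z : ℂ => ((0 : ℂ), z)) hf h1

private theorem Sat_diag_tendsto : Tendsto (fun z : ℂ => ((z, z) : ℂ × ℂ)) (𝓝 0) (𝓝 0) := by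
  have h : Continuous fun z : ℂ => ((z, z) : ℂ × ℂ) := by fun_prop
  exact h.tendsto 0

/-- the order of the restriction to the diagonal after division by a coordinate -/
private theorem Sat_order {f g : ℂ × ℂ → ℂ} {l : ℂ × ℂ → ℂ} (hl : ∀ z : ℂ, l (z, z) = z) (hg : AnalyticAt ℂ g 0) (h : ∀ᶠ x in 𝓝 (0 : ℂ × ℂ), f x = l x * g x)
    {N : ℕ} (hN : analyticOrderAt (fun z : ℂ => f (z, z)) 0 = (N : ℕ∞)) :
    1 ≤ N ∧ analyticOrderAt (fun z : ℂ => g (z, z)) 0 = ((N - 1 : ℕ) : ℕ∞) := by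
  have h1 : ∀ᶠ z in 𝓝 (0 : ℂ), f (z, z) = z ^ 1 * g (z, z) := by
    filter_upwards [Sat_diag_tendsto.eventually h] with z hz
    rw [hz, hl, pow_one]
  exact ArtA_order (Sat_diag hg) h1 hN

private theorem Sat_ax {f : ℂ → ℂ} (hf : AnalyticAt ℂ f 0) (h : ¬ ∀ᶠ y in 𝓝 (0 : ℂ), f y = 0) : ∀ᶠ y in 𝓝 (0 : ℂ), y ≠ 0 → f y ≠ 0 := by
  rcases hf.eventually_eq_zero_or_eventually_ne_zero with h1 | h1
  · exact absurd h1 h
  · exact eventually_nhdsWithin_iff.1 h1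

private theorem Sat_main (N : ℕ) : ∀ {c₁ c₂ : ℂ × ℂ → ℂ}, AnalyticAt ℂ c₁ 0 → AnalyticAt ℂ c₂ 0 →
    (∀ᶠ p in 𝓝 (0 : ℂ × ℂ), p.1 * p.2 ≠ 0 → c₁ p ≠ 0 ∨ c₂ p ≠ 0) →
    (analyticOrderAt (fun z : ℂ => c₁ (z, z)) 0 = (N : ℕ∞) ∨ analyticOrderAt (fun z : ℂ => c₂ (z, z)) 0 = (N : ℕ∞)) →
    ∃ (i j : ℕ) (v₁ v₂ : ℂ × ℂ → ℂ), AnalyticAt ℂ v₁ 0 ∧ AnalyticAt ℂ v₂ 0 ∧
      (∀ᶠ p in 𝓝 (0 : ℂ × ℂ), c₁ p = p.1 ^ i * p.2 ^ j * v₁ p ∧ c₂ p = p.1 ^ i * p.2 ^ j * v₂ p) ∧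
      ∀ᶠ p in 𝓝 (0 : ℂ × ℂ), p ≠ 0 → v₁ p ≠ 0 ∨ v₂ p ≠ 0 := by
  induction N with
  | zero =>
    intro c₁ c₂ h1 h2 h hN
    refine ⟨0, 0, c₁, c₂, h1, h2, Eventually.of_forall fun p => by simp, ?_⟩
    rcases hN with hN | hN
    · have h3 : c₁ 0 ≠ 0 := by
        have := (Sat_diag h1).analyticOrderAt_eq_zero.1 (by exact_mod_cast hN)
        exact this
      filter_upwards [h1.continuousAt.eventually_ne h3] with p hp _
      exact Or.inl hp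
    · have h3 : c₂ 0 ≠ 0 := by
        have := (Sat_diag h2).analyticOrderAt_eq_zero.1 (by exact_mod_cast hN)
        exact this
      filter_upwards [h2.continuousAt.eventually_ne h3] with p hp _
      exact Or.inr hp
  | succ N ih =>
    intro c₁ c₂ h1 h2 h hN
    by_cases hx : (∀ᶠ y in 𝓝 (0 : ℂ), c₁ (0, y) = 0) ∧ ∀ᶠ y in 𝓝 (0 : ℂ), c₂ (0, y) = 0
    · obtain ⟨g₁, hg₁, e₁⟩ := exists_div_x h1 hx.1
      obtain ⟨g₂, hg₂, e₂⟩ := exists_div_x h2 hx.2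
      have hN' : analyticOrderAt (fun z : ℂ => g₁ (z, z)) 0 = (N : ℕ∞) ∨ analyticOrderAt (fun z : ℂ => g₂ (z, z)) 0 = (N : ℕ∞) := by
        rcases hN with hN | hN
        · exact Or.inl (Sat_order (l := fun x => x.1) (fun z => rfl) hg₁ e₁ hN).2
        · exact Or.inr (Sat_order (l := fun x => x.1) (fun z => rfl) hg₂ e₂ hN).2
      obtain ⟨i, j, v₁, v₂, hv₁, hv₂, he, hz⟩ := ih hg₁ hg₂ (by
        filter_upwards [h, e₁, e₂] with p hp hp1 hp2 hne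
        rcases hp hne with h3 | h3
        · left
          rintro h4
          exact h3 (by rw [hp1, h4, smul_zero])
        · right
          rintro h4
          exact h3 (by rw [hp2, h4, smul_zero])) hN'
      refine ⟨i + 1, j, v₁, v₂, hv₁, hv₂, ?_, hz⟩
      filter_upwards [he, e₁, e₂] with p hp hp1 hp2
      constructor
      · rw [hp1, hp.1, smul_eq_mul, pow_succ]; ring
      · rw [hp2, hp.2, smul_eq_mul, pow_succ]; ring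
    by_cases hy : (∀ᶠ x in 𝓝 (0 : ℂ), c₁ (x, 0) = 0) ∧ ∀ᶠ x in 𝓝 (0 : ℂ), c₂ (x, 0) = 0
    · obtain ⟨g₁, hg₁, e₁⟩ := exists_div_y h1 hy.1
      obtain ⟨g₂, hg₂, e₂⟩ := exists_div_y h2 hy.2
      have hN' : analyticOrderAt (fun z : ℂ => g₁ (z, z)) 0 = (N : ℕ∞) ∨ analyticOrderAt (fun z : ℂ => g₂ (z, z)) 0 = (N : ℕ∞) := by
        rcases hN with hN | hN
        · exact Or.inl (Sat_order (l := fun x => x.2) (fun z => rfl) hg₁ e₁ hN).2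
        · exact Or.inr (Sat_order (l := fun x => x.2) (fun z => rfl) hg₂ e₂ hN).2
      obtain ⟨i, j, v₁, v₂, hv₁, hv₂, he, hz⟩ := ih hg₁ hg₂ (by
        filter_upwards [h, e₁, e₂] with p hp hp1 hp2 hne
        rcases hp hne with h3 | h3
        · left
          rintro h4
          exact h3 (by rw [hp1, h4, smul_zero])
        · right
          rintro h4
          exact h3 (by rw [hp2, h4, smul_zero])) hN'
      refine ⟨i, j + 1, v₁, v₂, hv₁, hv₂, ?_, hz⟩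
      filter_upwards [he, e₁, e₂] with p hp hp1 hp2
      constructor
      · rw [hp1, hp.1, smul_eq_mul, pow_succ]; ring
      · rw [hp2, hp.2, smul_eq_mul, pow_succ]; ring
    -- neither axis divides both
    refine ⟨0, 0, c₁, c₂, h1, h2, Eventually.of_forall fun p => by simp, ?_⟩
    have hX : ∀ᶠ y in 𝓝 (0 : ℂ), y ≠ 0 → c₁ (0, y) ≠ 0 ∨ c₂ (0, y) ≠ 0 := by
      rcases not_and_or.1 hx with h3 | h3
      · filter_upwards [Sat_ax (Sat_snd h1) h3] with y hy h4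
        exact Or.inl (hy h4)
      · filter_upwards [Sat_ax (Sat_snd h2) h3] with y hy h4
        exact Or.inr (hy h4)
    have hY : ∀ᶠ x in 𝓝 (0 : ℂ), x ≠ 0 → c₁ (x, 0) ≠ 0 ∨ c₂ (x, 0) ≠ 0 := by
      rcases not_and_or.1 hy with h3 | h3
      · filter_upwards [Sat_ax (Sat_fst h1) h3] with y hy h4
        exact Or.inl (hy h4)
      · filter_upwards [Sat_ax (Sat_fst h2) h3] with y hy h4
        exact Or.inr (hy h4)
    have t1 : Tendsto (fun p : ℂ × ℂ => p.1) (𝓝 0) (𝓝 0) := by simpa using continuous_fst.tendsto (0 : ℂ × ℂ)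
    have t2 : Tendsto (fun p : ℂ × ℂ => p.2) (𝓝 0) (𝓝 0) := by simpa using continuous_snd.tendsto (0 : ℂ × ℂ)
    filter_upwards [h, t2.eventually hX, t1.eventually hY] with p hp hpX hpY hp0
    by_cases h3 : p.1 = 0
    · have h4 : p.2 ≠ 0 := fun h4 => hp0 (Prod.ext h3 h4)
      have h5 : p = (0, p.2) := Prod.ext h3 rfl
      have := hpX h4
      rwa [← h5] at this
    · by_cases h4 : p.2 = 0
      · have h5 : p = (p.1, 0) := Prod.ext rfl h4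
        have := hpY h3
        rwa [← h5] at this
      · exact hp (mul_ne_zero h3 h4)

/-- **Saturation**: a pair without common zeros off the axes is a monomial times a pair with an isolated zero. -/
theorem exists_sat {c₁ c₂ : ℂ × ℂ → ℂ} (h₁ : AnalyticAt ℂ c₁ 0) (h₂ : AnalyticAt ℂ c₂ 0)
    (h : ∀ᶠ p in 𝓝 (0 : ℂ × ℂ), p.1 * p.2 ≠ 0 → c₁ p ≠ 0 ∨ c₂ p ≠ 0) :
    ∃ (i j : ℕ) (v₁ v₂ : ℂ × ℂ → ℂ), AnalyticAt ℂ v₁ 0 ∧ AnalyticAt ℂ v₂ 0 ∧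
      (∀ᶠ p in 𝓝 (0 : ℂ × ℂ), c₁ p = p.1 ^ i * p.2 ^ j * v₁ p ∧ c₂ p = p.1 ^ i * p.2 ^ j * v₂ p) ∧
      ∀ᶠ p in 𝓝 (0 : ℂ × ℂ), p ≠ 0 → v₁ p ≠ 0 ∨ v₂ p ≠ 0 := by
  by_cases ht : analyticOrderAt (fun z : ℂ => c₁ (z, z)) 0 = ⊤ ∧ analyticOrderAt (fun z : ℂ => c₂ (z, z)) 0 = ⊤
  · exfalso
    have e1 := analyticOrderAt_eq_top.1 ht.1
    have e2 := analyticOrderAt_eq_top.1 ht.2
    have h3 : ∀ᶠ z in 𝓝 (0 : ℂ), z = 0 := by
      filter_upwards [e1, e2, Sat_diag_tendsto.eventually h] with z hz1 hz2 hz3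
      by_contra hz
      rcases hz3 (mul_ne_zero hz hz) with h4 | h4
      · exact h4 hz1
      · exact h4 hz2
    have h4 : ∀ᶠ z in 𝓝[≠] (0 : ℂ), False := by
      filter_upwards [h3.filter_mono nhdsWithin_le_nhds, self_mem_nhdsWithin] with z hz hz'
      exact hz' hz
    exact (NormedField.nhdsNE_neBot (0 : ℂ)).ne (Filter.eventually_false_iff_eq_bot.1 h4)
  · rcases not_and_or.1 ht with h3 | h3
    · obtain ⟨N, hN⟩ := ENat.ne_top_iff_exists.1 h3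
      exact Sat_main N h₁ h₂ h (Or.inl hN.symm)
    · obtain ⟨N, hN⟩ := ENat.ne_top_iff_exists.1 h3
      exact Sat_main N h₁ h₂ h (Or.inr hN.symm)

/-- Saturation at a point of one axis only. -/
theorem exists_sat_fst {c₁ c₂ : ℂ × ℂ → ℂ} (h₁ : AnalyticAt ℂ c₁ 0) (h₂ : AnalyticAt ℂ c₂ 0)
    (h : ∀ᶠ p in 𝓝 (0 : ℂ × ℂ), p.1 ≠ 0 → c₁ p ≠ 0 ∨ c₂ p ≠ 0) :
    ∃ (i : ℕ) (v₁ v₂ : ℂ × ℂ → ℂ), AnalyticAt ℂ v₁ 0 ∧ AnalyticAt ℂ v₂ 0 ∧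
      (∀ᶠ p in 𝓝 (0 : ℂ × ℂ), c₁ p = p.1 ^ i * v₁ p ∧ c₂ p = p.1 ^ i * v₂ p) ∧
      ∀ᶠ p in 𝓝 (0 : ℂ × ℂ), p ≠ 0 → v₁ p ≠ 0 ∨ v₂ p ≠ 0 := by
  obtain ⟨i, j, v₁, v₂, a1, a2, he, hz⟩ := exists_sat h₁ h₂ (h.mono fun p hp hne => hp (left_ne_zero_of_mul hne))
  have hj : j = 0 := by
    by_contra hj
    have t1 : Tendsto (fun x : ℂ => ((x, 0) : ℂ × ℂ)) (𝓝 0) (𝓝 0) := by
      have h : Continuous fun x : ℂ => ((x, 0) : ℂ × ℂ) := by fun_prop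
      exact h.tendsto 0
    have h3 : ∀ᶠ x in 𝓝 (0 : ℂ), x = 0 := by
      filter_upwards [t1.eventually h, t1.eventually he] with x hx1 hx2
      by_contra hx
      simp only [zero_pow hj, mul_zero, zero_mul] at hx2
      rcases hx1 hx with h4 | h4
      · exact h4 hx2.1
      · exact h4 hx2.2
    have h4 : ∀ᶠ z in 𝓝[≠] (0 : ℂ), False := by
      filter_upwards [h3.filter_mono nhdsWithin_le_nhds, self_mem_nhdsWithin] with z hz hz'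
      exact hz' hz
    exact (NormedField.nhdsNE_neBot (0 : ℂ)).ne (Filter.eventually_false_iff_eq_bot.1 h4)
  subst hj
  refine ⟨i, v₁, v₂, a1, a2, ?_, hz⟩
  filter_upwards [he] with p hp
  simpa using hp

/-- the coefficients of the pull-back of `A dy - B dx` under `φ` -/
def pb (A B : ℂ × ℂ → ℂ) (φ : ℂ × ℂ → ℂ × ℂ) (p w : ℂ × ℂ) : ℂ := A p * (fderiv ℂ φ p w).2 - B p * (fderiv ℂ φ p w).1

/-- off the common zeros of `A`, `B` and the zeros of the Jacobian the pull-back of `A dy - B dx` has no zeros -/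
theorem pb_ne {A B : ℂ × ℂ → ℂ} {φ : ℂ × ℂ → ℂ × ℂ} {p : ℂ × ℂ} (hA : A p ≠ 0 ∨ B p ≠ 0)
    (hJ : (fderiv ℂ φ p (1, 0)).1 * (fderiv ℂ φ p (0, 1)).2 - (fderiv ℂ φ p (1, 0)).2 * (fderiv ℂ φ p (0, 1)).1 ≠ 0) :
    pb A B φ p (1, 0) ≠ 0 ∨ pb A B φ p (0, 1) ≠ 0 := by
  by_contra hcon
  push Not at hcon
  obtain ⟨h1, h2⟩ := hcon
  unfold pb at h1 h2
  have h3 : A p * ((fderiv ℂ φ p (1, 0)).1 * (fderiv ℂ φ p (0, 1)).2 - (fderiv ℂ φ p (1, 0)).2 * (fderiv ℂ φ p (0, 1)).1) = 0 := by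
    linear_combination (fderiv ℂ φ p (1, 0)).1 * h2 - (fderiv ℂ φ p (0, 1)).1 * h1
  have h4 : B p * ((fderiv ℂ φ p (1, 0)).1 * (fderiv ℂ φ p (0, 1)).2 - (fderiv ℂ φ p (1, 0)).2 * (fderiv ℂ φ p (0, 1)).1) = 0 := by
    linear_combination (fderiv ℂ φ p (1, 0)).2 * h2 - (fderiv ℂ φ p (0, 1)).2 * h1
  rcases hA with hA | hA
  · exact (mul_ne_zero hA hJ) h3
  · exact (mul_ne_zero hA hJ) h4

theorem pb_add_smul (A B : ℂ × ℂ → ℂ) (φ : ℂ × ℂ → ℂ × ℂ) (p w : ℂ × ℂ) : pb A B φ p w = w.1 * pb A B φ p (1, 0) + w.2 * pb A B φ p (0, 1) := by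
  have h : w = w.1 • ((1 : ℂ), (0 : ℂ)) + w.2 • ((0 : ℂ), (1 : ℂ)) := by
    ext <;> simp
  have h1 : fderiv ℂ φ p w = w.1 • fderiv ℂ φ p (1, 0) + w.2 • fderiv ℂ φ p (0, 1) := by
    conv_lhs => rw [h]
    rw [map_add, map_smul, map_smul]
  unfold pb
  rw [h1]
  simp only [Prod.fst_add, Prod.snd_add, Prod.smul_fst, Prod.smul_snd, smul_eq_mul]
  ring

theorem analyticAt_pb {A B : ℂ × ℂ → ℂ} {φ : ℂ × ℂ → ℂ × ℂ} {p : ℂ × ℂ} (hA : AnalyticAt ℂ A p) (hB : AnalyticAt ℂ B p) (hφ : AnalyticAt ℂ φ p) (w : ℂ × ℂ) :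
    AnalyticAt ℂ (fun q => pb A B φ q w) p := by
  have h1 : AnalyticAt ℂ (fun q => fderiv ℂ φ q w) p := ((ContinuousLinearMap.apply ℂ (ℂ × ℂ) w).analyticAt (fderiv ℂ φ p)).comp hφ.fderiv
  have h2 : AnalyticAt ℂ (fun q => (fderiv ℂ φ q w).1) p := (ContinuousLinearMap.fst ℂ ℂ ℂ).analyticAt _ |>.comp h1
  have h3 : AnalyticAt ℂ (fun q => (fderiv ℂ φ q w).2) p := (ContinuousLinearMap.snd ℂ ℂ ℂ).analyticAt _ |>.comp h1
  exact (hA.mul h3).sub (hB.mul h2)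

/-- **The foliation upstairs.**  If `(A, B)` and the Jacobian of `φ` have no zeros off the axes, then the pull-back of `A dy - B dx` is
`s ^ i t ^ j (v₁ dt - v₂ ds)` where the vector field `(v₁, v₂)` has an isolated zero. -/
theorem exists_fol {A B : ℂ × ℂ → ℂ} {φ : ℂ × ℂ → ℂ × ℂ} (hA : AnalyticAt ℂ A 0) (hB : AnalyticAt ℂ B 0) (hφ : AnalyticAt ℂ φ 0)
    (hA0 : ∀ᶠ p in 𝓝 (0 : ℂ × ℂ), p.1 * p.2 ≠ 0 → A p ≠ 0 ∨ B p ≠ 0)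
    (hJ : ∀ᶠ p in 𝓝 (0 : ℂ × ℂ), p.1 * p.2 ≠ 0 →
      (fderiv ℂ φ p (1, 0)).1 * (fderiv ℂ φ p (0, 1)).2 - (fderiv ℂ φ p (1, 0)).2 * (fderiv ℂ φ p (0, 1)).1 ≠ 0) :
    ∃ (i j : ℕ) (v₁ v₂ : ℂ × ℂ → ℂ), AnalyticAt ℂ v₁ 0 ∧ AnalyticAt ℂ v₂ 0 ∧
      (∀ᶠ p in 𝓝 (0 : ℂ × ℂ), ∀ w : ℂ × ℂ, pb A B φ p w = p.1 ^ i * p.2 ^ j * (v₁ p * w.2 - v₂ p * w.1)) ∧
      ∀ᶠ p in 𝓝 (0 : ℂ × ℂ), p ≠ 0 → v₁ p ≠ 0 ∨ v₂ p ≠ 0 := by
  obtain ⟨i, j, u₁, u₂, hu₁, hu₂, he, hz⟩ := exists_sat (analyticAt_pb hA hB hφ (0, 1)) (analyticAt_pb hA hB hφ (1, 0)) (by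
    filter_upwards [hA0, hJ] with p h1 h2 h3
    exact (pb_ne (h1 h3) (h2 h3)).symm)
  refine ⟨i, j, u₁, fun p => - u₂ p, hu₁, hu₂.neg, ?_, ?_⟩
  · filter_upwards [he] with p hp w
    rw [pb_add_smul, hp.1, hp.2]
    ring
  · filter_upwards [hz] with p hp h3
    rcases hp h3 with h4 | h4
    · exact Or.inl h4
    · exact Or.inr (neg_ne_zero.2 h4)

/-- The foliation upstairs at a point of one axis only. -/
theorem exists_fol_fst {A B : ℂ × ℂ → ℂ} {φ : ℂ × ℂ → ℂ × ℂ} (hA : AnalyticAt ℂ A 0) (hB : AnalyticAt ℂ B 0) (hφ : AnalyticAt ℂ φ 0)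
    (hA0 : ∀ᶠ p in 𝓝 (0 : ℂ × ℂ), p.1 ≠ 0 → A p ≠ 0 ∨ B p ≠ 0)
    (hJ : ∀ᶠ p in 𝓝 (0 : ℂ × ℂ), p.1 ≠ 0 →
      (fderiv ℂ φ p (1, 0)).1 * (fderiv ℂ φ p (0, 1)).2 - (fderiv ℂ φ p (1, 0)).2 * (fderiv ℂ φ p (0, 1)).1 ≠ 0) :
    ∃ (i : ℕ) (v₁ v₂ : ℂ × ℂ → ℂ), AnalyticAt ℂ v₁ 0 ∧ AnalyticAt ℂ v₂ 0 ∧
      (∀ᶠ p in 𝓝 (0 : ℂ × ℂ), ∀ w : ℂ × ℂ, pb A B φ p w = p.1 ^ i * (v₁ p * w.2 - v₂ p * w.1)) ∧
      ∀ᶠ p in 𝓝 (0 : ℂ × ℂ), p ≠ 0 → v₁ p ≠ 0 ∨ v₂ p ≠ 0 := by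
  obtain ⟨i, u₁, u₂, hu₁, hu₂, he, hz⟩ := exists_sat_fst (analyticAt_pb hA hB hφ (0, 1)) (analyticAt_pb hA hB hφ (1, 0)) (by
    filter_upwards [hA0, hJ] with p h1 h2 h3
    exact (pb_ne (h1 h3) (h2 h3)).symm)
  refine ⟨i, u₁, fun p => - u₂ p, hu₁, hu₂.neg, ?_, ?_⟩
  · filter_upwards [he] with p hp w
    rw [pb_add_smul, hp.1, hp.2]
    ring
  · filter_upwards [hz] with p hp h3
    rcases hp h3 with h4 | h4
    · exact Or.inl h4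
    · exact Or.inr (neg_ne_zero.2 h4)

end Pool.Agent.MQ3
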