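import Pool.Agent.MQ3.WebBox

/-!
Monomial charts over a normal crossing point of the discriminant of a web:
the roots live on the product of two left half planes.
-/

namespace Pool.Agent.MQ3

open Complex Set Filter Topology

/-- Translation by the periods of the exponential. -/
noncomputable def shift (n : ℤ × ℤ) (P : ℂ × ℂ) : ℂ × ℂ :=
  (P.1 + n.1 * (2 * Real.pi * I), P.2 + n.2 * (2 * Real.pi * I))

/-- The linear map with columns `w`, `w'`. -/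
noncomputable def lin (w w' : ℕ × ℕ) (Q : ℂ × ℂ) : ℂ × ℂ :=
  (w.1 * Q.1 + w'.1 * Q.2, w.2 * Q.1 + w'.2 * Q.2)

/-- The monomial map. -/
def mono (w w' : ℕ × ℕ) (q : ℂ × ℂ) : ℂ × ℂ :=
  (q.1 ^ w.1 * q.2 ^ w'.1, q.1 ^ w.2 * q.2 ^ w'.2)

/-- `p` everywhere distinct continuous functions on `HH`, permuted by the translations. -/
structure Roots {p : ℕ} (T : Fin p → ℂ × ℂ → ℂ) : Prop where
  cont : ∀ j, ContinuousOn (T j) HH
  ne : ∀ P ∈ HH, ∀ j k, j ≠ k → T j P ≠ T k P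
  perm : ∀ n : ℤ × ℤ, ∀ j, ∃ k, ∀ P ∈ HH, T j (shift n P) = T k P

/-- `w`, `w'` is a basis of the stabilizer of the root `k`. -/
structure LatBasis {p : ℕ} (T : Fin p → ℂ × ℂ → ℂ) (k : Fin p) (w w' : ℕ × ℕ) : Prop where
  det : (w.1 : ℤ) * w'.2 - w.2 * w'.1 ≠ 0
  mem : ∀ n : ℤ × ℤ, (∀ P ∈ HH, T k (shift n P) = T k P) ↔
    ∃ a b : ℤ, n.1 = a * w.1 + b * w'.1 ∧ n.2 = a * w.2 + b * w'.2

/-- The root in the monomial chart. -/
noncomputable def Tt {p : ℕ} (T : Fin p → ℂ × ℂ → ℂ) (k : Fin p) (w w' : ℕ × ℕ)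
    (q : ℂ × ℂ) : ℂ := T k (lin w w' (log q.1, log q.2))

/-- `m` is one of the roots over `(x, y)`. -/
def IsSlope {p : ℕ} (T : Fin p → ℂ × ℂ → ℂ) (x y m : ℂ) : Prop :=
  ∃ j, ∃ P ∈ HH, exp P.1 = x ∧ exp P.2 = y ∧ T j P = m

end Pool.Agent.MQ3
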