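import Pool.Agent.MQ3.WebR
import Pool.Agent.MQ3.Lift
import Pool.Agent.MQ3.LiftDefs
import Pool.Agent.MQ3.Glue

/-!
# MQ3 Branch: the sheet of a web in a monomial chart

`Dm w w'` = the domain `|s ^ w.1 t ^ w'.1| < 1`, `|s ^ w.2 t ^ w'.2| < 1` of the monomial chart.  Bounded functions of the sheet `k` are analytic
functions on `Dm w w'`; the foliation of the sheet is given by a vector field on `Dm w w'` with isolated zeros.
-/

set_option autoImplicit false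

open Topology Filter

noncomputable section

namespace Pool.Agent.MQ3

variable {p : ℕ} {T : Fin p → ℂ × ℂ → ℂ} {a b : Equiv.Perm (Fin p)} {k : Fin p} {w w' : ℕ × ℕ}

/-- the domain of the monomial chart -/
def Dm (w w' : ℕ × ℕ) : Set (ℂ × ℂ) := {q | ‖q.1 ^ w.1 * q.2 ^ w'.1‖ < 1 ∧ ‖q.1 ^ w.2 * q.2 ^ w'.2‖ < 1}

/-- the linear map -/
def ln (w w' : ℕ × ℕ) (P : ℂ × ℂ) : ℂ × ℂ := (P.1 * w.1 + P.2 * w'.1, P.1 * w.2 + P.2 * w'.2)

theorem isOpen_Dm : IsOpen (Dm w w') := by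
  have h1 : Continuous fun q : ℂ × ℂ => ‖q.1 ^ w.1 * q.2 ^ w'.1‖ := by fun_prop
  have h2 : Continuous fun q : ℂ × ℂ => ‖q.1 ^ w.2 * q.2 ^ w'.2‖ := by fun_prop
  exact (isOpen_lt h1 continuous_const).inter (isOpen_lt h2 continuous_const)

theorem mono_mem {q : ℂ × ℂ} (hq : q ∈ Dm w w') : mono w w' q ∈ DD := hq

theorem mono_mem_DS {q : ℂ × ℂ} (hq : q ∈ Dm w w') (h0 : q.1 * q.2 ≠ 0) : mono w w' q ∈ DS :=
  mem_DS.2 ⟨hq, mul_ne_zero (mul_ne_zero (pow_ne_zero _ (left_ne_zero_of_mul h0)) (pow_ne_zero _ (right_ne_zero_of_mul h0)))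
    (mul_ne_zero (pow_ne_zero _ (left_ne_zero_of_mul h0)) (pow_ne_zero _ (right_ne_zero_of_mul h0)))⟩

theorem pexp_ln (P : ℂ × ℂ) : pexp (ln w w' P) = mono w w' (pexp P) := by
  unfold pexp ln mono
  refine Prod.ext ?_ ?_ <;>
  · simp only
    rw [Complex.exp_add, mul_comm P.1, mul_comm P.2, Complex.exp_nat_mul, Complex.exp_nat_mul]

theorem mem_HH_iff (v : ℂ × ℂ) : v ∈ HH ↔ pexp v ∈ DD := by
  unfold HH DD pexp
  rw [Set.mem_ofPred_eq, Set.mem_ofPred_eq]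
  simp only [Complex.norm_exp, Real.exp_lt_one_iff]

theorem ln_mem_iff (P : ℂ × ℂ) : ln w w' P ∈ HH ↔ pexp P ∈ Dm w w' := by
  rw [mem_HH_iff, pexp_ln]
  rfl

theorem pexp_off (P : ℂ × ℂ) : (pexp P).1 * (pexp P).2 ≠ 0 := mul_ne_zero (Complex.exp_ne_zero _) (Complex.exp_ne_zero _)

theorem zero_mem_Dm (hd : dt w w' ≠ 0) : (0 : ℂ × ℂ) ∈ Dm w w' := by
  have h : ∀ m n : ℕ, (m ≠ 0 ∨ n ≠ 0) → ‖(0 : ℂ × ℂ).1 ^ m * (0 : ℂ × ℂ).2 ^ n‖ < 1 := by
    intro m n hmn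
    rcases hmn with h | h
    · simp [zero_pow h]
    · simp [zero_pow h]
  unfold dt at hd
  refine ⟨h _ _ ?_, h _ _ ?_⟩
  · by_contra hcon
    push Not at hcon
    rw [hcon.1, hcon.2] at hd
    simp at hd
  · by_contra hcon
    push Not at hcon
    rw [hcon.1, hcon.2] at hd
    simp at hd

theorem convex_pow (m n : ℕ) : Convex ℝ {t : ℂ | ‖(0 : ℂ) ^ m * t ^ n‖ < 1} := by
  by_cases hm : m = 0
  · subst hm
    by_cases hn : n = 0
    · subst hn
      simp [convex_empty]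
    · have h : {t : ℂ | ‖(0 : ℂ) ^ 0 * t ^ n‖ < 1} = Metric.ball 0 1 := by
        ext t
        rw [Set.mem_ofPred_eq, pow_zero, one_mul, norm_pow, mem_ball_zero_iff]
        exact pow_lt_one_iff_of_nonneg (norm_nonneg _) hn
      rw [h]
      exact convex_ball (0 : ℂ) 1
  · have h : {t : ℂ | ‖(0 : ℂ) ^ m * t ^ n‖ < 1} = Set.univ := by
      ext t
      simp [zero_pow hm]
    rw [h]
    exact convex_univ

theorem conn_Dm₁ : IsPreconnected {t : ℂ | ((0 : ℂ), t) ∈ Dm w w'} := ((convex_pow w.1 w'.1).inter (convex_pow w.2 w'.2)).isPreconnected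

theorem conn_Dm₂ : IsPreconnected {s : ℂ | (s, (0 : ℂ)) ∈ Dm w w'} := by
  have h : {s : ℂ | (s, (0 : ℂ)) ∈ Dm w w'} = {s : ℂ | ‖(0 : ℂ) ^ w'.1 * s ^ w.1‖ < 1} ∩ {s : ℂ | ‖(0 : ℂ) ^ w'.2 * s ^ w.2‖ < 1} := by
    ext s
    unfold Dm
    simp only [Set.mem_inter_iff, Set.mem_ofPred_eq]
    rw [mul_comm (s ^ w.1), mul_comm (s ^ w.2)]
  rw [h]
  exact ((convex_pow w'.1 w.1).inter (convex_pow w'.2 w.2)).isPreconnected

/-- shift of the linear map -/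
theorem ln_per (P : ℂ × ℂ) (m n : ℤ) : ln w w' (P + per m n) = ln w w' P + per (m * w.1 + n * w'.1) (m * w.2 + n * w'.2) := by
  unfold ln per
  refine Prod.ext ?_ ?_ <;>
  · simp only [Prod.fst_add, Prod.snd_add]
    push_cast
    ring

theorem per_zsmul {S : ℂ × ℂ → ℂ} {c : ℤ × ℤ} (h : ∀ v ∈ HH, S (v + per c.1 c.2) = S v) (m : ℤ) : ∀ v ∈ HH, S (v + per (m * c.1) (m * c.2)) = S v := by
  induction m with
  | zero =>
    intro v _
    rw [zero_mul, zero_mul, per_zero, add_zero]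
  | succ n ih =>
    intro v hv
    have h1 : v + per (((n : ℤ) + 1) * c.1) (((n : ℤ) + 1) * c.2) = v + per (n * c.1) (n * c.2) + per c.1 c.2 := by
      rw [add_assoc, ← per_add]
      congr 2 <;> ring
    rw [h1, h _ (HH_add_per hv _ _), ih v hv]
  | pred n ih =>
    intro v hv
    have h1 := h _ (HH_add_per hv ((-(n : ℤ) - 1) * c.1) ((-(n : ℤ) - 1) * c.2))
    have h2 : v + per ((-(n : ℤ) - 1) * c.1) ((-(n : ℤ) - 1) * c.2) + per c.1 c.2 = v + per (-(n : ℤ) * c.1) (-(n : ℤ) * c.2) := by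
      rw [add_assoc, ← per_add]
      congr 2 <;> ring
    rw [h2, ih v hv] at h1
    exact h1.symm

/-- **Functions of the sheet in the chart.** -/
theorem exists_pull {S : ℂ × ℂ → ℂ} (hS : ∀ v ∈ HH, AnalyticAt ℂ S v) (h1 : ∀ v ∈ HH, S (v + per w.1 w.2) = S v)
    (h2 : ∀ v ∈ HH, S (v + per w'.1 w'.2) = S v) {C : ℝ} (hC : ∀ v ∈ HH, ‖S v‖ ≤ C) :
    ∃ B : ℂ × ℂ → ℂ, (∀ q ∈ Dm w w', AnalyticAt ℂ B q) ∧ ∀ P, ln w w' P ∈ HH → B (pexp P) = S (ln w w' P) := by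
  have hinv : ∀ P, ln w w' P ∈ HH → ∀ m n : ℤ, S (ln w w' (P + per m n)) = S (ln w w' P) := by
    intro P hP m n
    have h3 := per_zsmul (c := ((w.1 : ℤ), (w.2 : ℤ))) h1 m
    have h4 := per_zsmul (c := ((w'.1 : ℤ), (w'.2 : ℤ))) h2 n
    rw [ln_per, per_add, ← add_assoc, h4 _ (HH_add_per hP _ _), h3 _ hP]
  set B0 : ℂ × ℂ → ℂ := fun q => S (ln w w' (Complex.log q.1, Complex.log q.2)) with hB0
  have hval : ∀ P, ln w w' P ∈ HH → B0 (pexp P) = S (ln w w' P) := by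
    intro P hP
    obtain ⟨m, n, hmn⟩ := exists_per (v := P) (v' := (Complex.log (pexp P).1, Complex.log (pexp P).2))
      (Complex.exp_log (Complex.exp_ne_zero _)) (Complex.exp_log (Complex.exp_ne_zero _))
    show S (ln w w' (Complex.log (pexp P).1, Complex.log (pexp P).2)) = _
    rw [hmn, hinv P hP]
  have hlog : ∀ q ∈ Dm w w', q.1 * q.2 ≠ 0 → pexp (Complex.log q.1, Complex.log q.2) = q := fun q _ h0 =>
    Prod.ext (Complex.exp_log (left_ne_zero_of_mul h0)) (Complex.exp_log (right_ne_zero_of_mul h0))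
  obtain ⟨B, hB1, hB2⟩ := exists_ext (U := Dm w w') (B := B0) (C := C) isOpen_Dm (fun q₀ hq₀ h0 => by
    have h01 := left_ne_zero_of_mul h0
    have h02 := right_ne_zero_of_mul h0
    have hl1 : AnalyticAt ℂ (fun p : ℂ × ℂ => Complex.log (p.1 / q₀.1) + Complex.log q₀.1) q₀ := by
      have hs : q₀.1 / q₀.1 ∈ Complex.slitPlane := by rw [div_self h01]; exact Complex.one_mem_slitPlane
      exact ((analyticAt_fst.div_const).clog hs).add analyticAt_const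
    have hl2 : AnalyticAt ℂ (fun p : ℂ × ℂ => Complex.log (p.2 / q₀.2) + Complex.log q₀.2) q₀ := by
      have hs : q₀.2 / q₀.2 ∈ Complex.slitPlane := by rw [div_self h02]; exact Complex.one_mem_slitPlane
      exact ((analyticAt_snd.div_const).clog hs).add analyticAt_const
    have hl := hl1.prod hl2
    have hln : AnalyticAt ℂ (fun p : ℂ × ℂ => ln w w' (Complex.log (p.1 / q₀.1) + Complex.log q₀.1, Complex.log (p.2 / q₀.2) + Complex.log q₀.2)) q₀ :=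
      ((hl1.mul analyticAt_const).add (hl2.mul analyticAt_const)).prod ((hl1.mul analyticAt_const).add (hl2.mul analyticAt_const))
    have hexp : ∀ q : ℂ × ℂ, q.1 ≠ 0 → q.2 ≠ 0 → pexp (Complex.log (q.1 / q₀.1) + Complex.log q₀.1, Complex.log (q.2 / q₀.2) + Complex.log q₀.2) = q := by
      intro q g1 g2
      refine Prod.ext ?_ ?_
      · show Complex.exp (Complex.log (q.1 / q₀.1) + Complex.log q₀.1) = q.1
        rw [Complex.exp_add, Complex.exp_log (div_ne_zero g1 h01), Complex.exp_log h01, div_mul_cancel₀ _ h01]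
      · show Complex.exp (Complex.log (q.2 / q₀.2) + Complex.log q₀.2) = q.2
        rw [Complex.exp_add, Complex.exp_log (div_ne_zero g2 h02), Complex.exp_log h02, div_mul_cancel₀ _ h02]
    have hmem : ln w w' (Complex.log (q₀.1 / q₀.1) + Complex.log q₀.1, Complex.log (q₀.2 / q₀.2) + Complex.log q₀.2) ∈ HH := by
      rw [ln_mem_iff, hexp q₀ h01 h02]
      exact hq₀
    have hcomp : AnalyticAt ℂ (fun p : ℂ × ℂ => S (ln w w' (Complex.log (p.1 / q₀.1) + Complex.log q₀.1, Complex.log (p.2 / q₀.2) + Complex.log q₀.2))) q₀ :=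
      AnalyticAt.fun_comp (g := S)
        (f := fun p : ℂ × ℂ => ln w w' (Complex.log (p.1 / q₀.1) + Complex.log q₀.1, Complex.log (p.2 / q₀.2) + Complex.log q₀.2)) (hS _ hmem) hln
    refine hcomp.congr ?_
    filter_upwards [isOpen_Dm.mem_nhds hq₀, continuous_fst.continuousAt.eventually_ne h01, continuous_snd.continuousAt.eventually_ne h02] with q g1 g2 g3
    have h3 := hval (Complex.log (q.1 / q₀.1) + Complex.log q₀.1, Complex.log (q.2 / q₀.2) + Complex.log q₀.2) (by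
      rw [ln_mem_iff, hexp q g2 g3]
      exact g1)
    rw [hexp q g2 g3] at h3
    exact h3.symm) (fun q hq h0 => by
    have h3 := hval (Complex.log q.1, Complex.log q.2) (by rw [ln_mem_iff, hlog q hq h0]; exact hq)
    rw [hlog q hq h0] at h3
    rw [h3]
    exact hC _ (by rw [ln_mem_iff, hlog q hq h0]; exact hq))
  exact ⟨B, hB1, fun P hP => by rw [hB2 _ ((ln_mem_iff P).1 hP) (pexp_off P), hval P hP]⟩

/-- **Monomial times unit.**  Functions of the sheet without zeros. -/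
theorem exists_pull_unit (hd : dt w w' ≠ 0) {S : ℂ × ℂ → ℂ} (hS : ∀ v ∈ HH, AnalyticAt ℂ S v) (h1 : ∀ v ∈ HH, S (v + per w.1 w.2) = S v)
    (h2 : ∀ v ∈ HH, S (v + per w'.1 w'.2) = S v) {C : ℝ} (hC : ∀ v ∈ HH, ‖S v‖ ≤ C) (hne : ∀ v ∈ HH, S v ≠ 0) :
    ∃ (i j : ℕ) (u : ℂ × ℂ → ℂ), (∀ q ∈ Dm w w', AnalyticAt ℂ u q) ∧ (∀ q ∈ Dm w w', u q ≠ 0) ∧
      ∀ P, ln w w' P ∈ HH → S (ln w w' P) = (pexp P).1 ^ i * (pexp P).2 ^ j * u (pexp P) := by
  obtain ⟨B, hB1, hB2⟩ := exists_pull hS h1 h2 hC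
  obtain ⟨i, j, u, g1, g2, g3⟩ := exists_unit_global isOpen_Dm (zero_mem_Dm hd) conn_Dm₁ conn_Dm₂ hB1 (fun q hq h0 => by
    have h3 : pexp (Complex.log q.1, Complex.log q.2) = q := Prod.ext (Complex.exp_log (left_ne_zero_of_mul h0)) (Complex.exp_log (right_ne_zero_of_mul h0))
    have h4 : ln w w' (Complex.log q.1, Complex.log q.2) ∈ HH := by rw [ln_mem_iff, h3]; exact hq
    have h5 := hB2 _ h4
    rw [h3] at h5
    rw [h5]
    exact hne _ h4)
  exact ⟨i, j, u, g1, g2, fun P hP => by rw [← hB2 P hP, g3 _ ((ln_mem_iff P).1 hP)]⟩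

theorem Basis.per₁ (hB : Basis a b k w w') (h : WebBox p T a b) {v : ℂ × ℂ} (hv : v ∈ HH) : T k (v + per w.1 w.2) = T k v := by
  rw [h.mon k hv, hB.mem]

theorem Basis.per₂ (hB : Basis a b k w w') (h : WebBox p T a b) {v : ℂ × ℂ} (hv : v ∈ HH) : T k (v + per w'.1 w'.2) = T k v := by
  rw [h.mon k hv, hB.mem']

theorem pexp_per (v : ℂ × ℂ) (m n : ℤ) : pexp (v + per m n) = pexp v := Prod.ext (exp_per₁ v m n) (exp_per₂ v m n)

theorem analyticAt_pexp (v : ℂ × ℂ) : AnalyticAt ℂ pexp v := by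
  unfold pexp
  exact (analyticAt_fst.cexp).prod (analyticAt_snd.cexp)

theorem analyticAt_mono (q : ℂ × ℂ) : AnalyticAt ℂ (mono w w') q :=
  ((analyticAt_fst.pow _).mul (analyticAt_snd.pow _)).prod ((analyticAt_fst.pow _).mul (analyticAt_snd.pow _))

theorem fderiv_mono (q u : ℂ × ℂ) : fderiv ℂ (mono w w') q u =
    (w.1 * q.1 ^ (w.1 - 1) * q.2 ^ w'.1 * u.1 + w'.1 * q.1 ^ w.1 * q.2 ^ (w'.1 - 1) * u.2,
      w.2 * q.1 ^ (w.2 - 1) * q.2 ^ w'.2 * u.1 + w'.2 * q.1 ^ w.2 * q.2 ^ (w'.2 - 1) * u.2) :=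
  fderiv_mchart w.1 w'.1 w.2 w'.2 q u

/-- the Jacobian of the monomial chart -/
theorem jac_mono (q : ℂ × ℂ) : q.1 * q.2 * ((fderiv ℂ (mono w w') q (1, 0)).1 * (fderiv ℂ (mono w w') q (0, 1)).2 -
    (fderiv ℂ (mono w w') q (1, 0)).2 * (fderiv ℂ (mono w w') q (0, 1)).1) = dt w w' * (mono w w' q).1 * (mono w w' q).2 := by
  have hp : ∀ (n : ℕ) (z : ℂ), (n : ℂ) * z ^ (n - 1) * z = n * z ^ n := by
    intro n z
    rcases n with _ | n
    · simp
    · rw [Nat.add_sub_cancel, pow_succ]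
      ring
  rw [fderiv_mono, fderiv_mono, dt_cast]
  unfold mono
  simp only [mul_one, mul_zero, add_zero, zero_add]
  linear_combination (hp w.1 q.1) * (q.2 ^ w'.1) * (w'.2 * q.1 ^ w.2 * q.2 ^ (w'.2 - 1) * q.2)
    + (w.1 * q.1 ^ w.1 * q.2 ^ w'.1 * q.1 ^ w.2) * (hp w'.2 q.2)
    - (hp w.2 q.1) * (q.2 ^ w'.2) * (w'.1 * q.1 ^ w.1 * q.2 ^ (w'.1 - 1) * q.2)
    - (w.2 * q.1 ^ w.2 * q.2 ^ w'.2 * q.1 ^ w.1) * (hp w'.1 q.2)

theorem jac_mono_ne (hd : dt w w' ≠ 0) {q : ℂ × ℂ} (h0 : q.1 * q.2 ≠ 0) : (fderiv ℂ (mono w w') q (1, 0)).1 * (fderiv ℂ (mono w w') q (0, 1)).2 -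
    (fderiv ℂ (mono w w') q (1, 0)).2 * (fderiv ℂ (mono w w') q (0, 1)).1 ≠ 0 := by
  intro h
  have h1 := jac_mono (w := w) (w' := w') q
  rw [h, mul_zero] at h1
  have h2 : ((dt w w' : ℤ) : ℂ) ≠ 0 := by exact_mod_cast hd
  have h3 := left_ne_zero_of_mul h0
  have h4 := right_ne_zero_of_mul h0
  refine (mul_ne_zero (mul_ne_zero h2 ?_) ?_) h1.symm
  · exact mul_ne_zero (pow_ne_zero _ h3) (pow_ne_zero _ h4)
  · exact mul_ne_zero (pow_ne_zero _ h3) (pow_ne_zero _ h4)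

/-- **The foliation of a sheet in a monomial chart.** -/
theorem exists_field (h : WebBox p T a b) (hB : Basis a b k w w') {F : ℂ × ℂ → ℂ} {V₁ V₂ : ℂ × ℂ → ℂ × ℂ} (hF : ∀ x ∈ DD, AnalyticAt ℂ F x)
    (hV₁ : ∀ x ∈ DD, AnalyticAt ℂ V₁ x) (hV₂ : ∀ x ∈ DD, AnalyticAt ℂ V₂ x) (hF0 : ∀ x ∈ DS, F x ≠ 0)
    (hδ : ∀ x ∈ DS, (V₁ x).1 * (V₂ x).2 - (V₁ x).2 * (V₂ x).1 ≠ 0) {C : ℝ} (hC : ∀ v ∈ HH, ‖F (pexp v) * T k v‖ ≤ C) :
    ∃ (i j : ℕ) (X : ℂ × ℂ → ℂ × ℂ), (∀ q ∈ Dm w w', AnalyticAt ℂ X q) ∧ (∀ q ∈ Dm w w', ∀ᶠ q' in 𝓝 q, q' ≠ q → X q' ≠ 0) ∧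
      ∀ P, ln w w' P ∈ HH → ∀ u : ℂ × ℂ,
        F (pexp (ln w w' P)) * ((V₁ (pexp (ln w w' P)) + T k (ln w w' P) • V₂ (pexp (ln w w' P))).1 * (fderiv ℂ (mono w w') (pexp P) u).2 -
          (V₁ (pexp (ln w w' P)) + T k (ln w w' P) • V₂ (pexp (ln w w' P))).2 * (fderiv ℂ (mono w w') (pexp P) u).1) =
        (pexp P).1 ^ i * (pexp P).2 ^ j * ((X (pexp P)).1 * u.2 - (X (pexp P)).2 * u.1) := by
  obtain ⟨B, hB1, hB2⟩ := exists_pull (w := w) (w' := w') (S := fun v => F (pexp v) * T k v) (fun v hv =>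
    ((hF _ ((mem_HH_iff v).1 hv)).fun_comp (analyticAt_pexp v)).fun_mul (h.an k v hv)) (fun v hv => by rw [pexp_per, hB.per₁ h hv])
    (fun v hv => by rw [pexp_per, hB.per₂ h hv]) hC
  -- the direction field upstairs
  set D : ℂ × ℂ → ℂ × ℂ := fun q => F (mono w w' q) • V₁ (mono w w' q) + B q • V₂ (mono w w' q) with hD
  have hDa : ∀ q ∈ Dm w w', AnalyticAt ℂ D q := by
    intro q hq
    have h1 := analyticAt_mono (w := w) (w' := w') q
    exact (((hF _ hq).fun_comp h1).fun_smul ((hV₁ _ hq).fun_comp h1)).fun_add ((hB1 q hq).fun_smul ((hV₂ _ hq).fun_comp h1))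
  have hlift : ∀ q ∈ Dm w w', q.1 * q.2 ≠ 0 → ∃ P, pexp P = q ∧ ln w w' P ∈ HH := by
    intro q hq h0
    have h3 : pexp (Complex.log q.1, Complex.log q.2) = q := Prod.ext (Complex.exp_log (left_ne_zero_of_mul h0)) (Complex.exp_log (right_ne_zero_of_mul h0))
    exact ⟨_, h3, by rw [ln_mem_iff, h3]; exact hq⟩
  have hDP : ∀ P, ln w w' P ∈ HH → D (pexp P) = F (pexp (ln w w' P)) • (V₁ (pexp (ln w w' P)) + T k (ln w w' P) • V₂ (pexp (ln w w' P))) := by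
    intro P hP
    rw [hD]
    simp only
    rw [hB2 P hP, ← pexp_ln, smul_add, smul_smul]
  have hDne : ∀ q ∈ Dm w w', q.1 * q.2 ≠ 0 → (D q).1 ≠ 0 ∨ (D q).2 ≠ 0 := by
    intro q hq h0
    obtain ⟨P, rfl, hP⟩ := hlift q hq h0
    rw [hDP P hP]
    have hx : pexp (ln w w' P) ∈ DS := pexp_mem hP
    have h1 := hF0 _ hx
    have h2 := hδ _ hx
    by_contra hcon
    push Not at hcon
    simp only [Prod.smul_fst, Prod.smul_snd, Prod.fst_add, Prod.snd_add, smul_eq_mul] at hcon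
    have h3 := (mul_eq_zero.1 hcon.1).resolve_left h1
    have h4 := (mul_eq_zero.1 hcon.2).resolve_left h1
    apply h2
    linear_combination (V₂ (pexp (ln w w' P))).2 * h3 - (V₂ (pexp (ln w w' P))).1 * h4
  -- the pulled back form
  obtain ⟨i, j, v, hv1, hv2, hv3⟩ := exists_sat_global isOpen_Dm (zero_mem_Dm hB.det) conn_Dm₁ conn_Dm₂
    (c := fun q => (pb (fun q => (D q).1) (fun q => (D q).2) (mono w w') q (0, 1), -pb (fun q => (D q).1) (fun q => (D q).2) (mono w w') q (1, 0)))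
    (fun q hq => by
      have h1 := analyticAt_pb (A := fun q => (D q).1) (B := fun q => (D q).2) (φ := mono w w') (analyticAt_fst.fun_comp (hDa q hq))
        (analyticAt_snd.fun_comp (hDa q hq)) (analyticAt_mono q)
      exact (h1 (0, 1)).prod (h1 (1, 0)).fun_neg) (fun q hq h0 h1 => by
      rcases pb_ne (A := fun q => (D q).1) (B := fun q => (D q).2) (hDne q hq h0) (jac_mono_ne hB.det h0) with h2 | h2
      · exact h2 (neg_eq_zero.1 (congrArg Prod.snd h1))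
      · exact h2 (congrArg Prod.fst h1))
  refine ⟨i, j, v, hv1, hv3, fun P hP u => ?_⟩
  have hq := (ln_mem_iff P).1 hP
  have h1 := hv2 _ hq
  have h2 := congrArg Prod.fst h1
  have h3 := congrArg Prod.snd h1
  simp only [Prod.smul_fst, Prod.smul_snd, smul_eq_mul] at h2 h3
  have h4 := pb_add_smul (fun q => (D q).1) (fun q => (D q).2) (mono w w') (pexp P) u
  have h5 : pb (fun q => (D q).1) (fun q => (D q).2) (mono w w') (pexp P) u = F (pexp (ln w w' P)) *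
      ((V₁ (pexp (ln w w' P)) + T k (ln w w' P) • V₂ (pexp (ln w w' P))).1 * (fderiv ℂ (mono w w') (pexp P) u).2 -
          (V₁ (pexp (ln w w' P)) + T k (ln w w' P) • V₂ (pexp (ln w w' P))).2 * (fderiv ℂ (mono w w') (pexp P) u).1) := by
    unfold pb
    simp only [hDP P hP, Prod.smul_fst, Prod.smul_snd, smul_eq_mul]
    ring
  rw [← h5, h4, h2]
  linear_combination (-u.1) * h3

end Pool.Agent.MQ3
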