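import Pool.Agent.MQ3.DivR
import Pool.Agent.MQ3.Branch

/-!
# MQ3 NC: the canonical vector of a regular box and the vector field of a chart upstairs

`κ : ℂ² → ℂ²` is the map from a chart upstairs to a box, `v` the vector field upstairs, `jc κ` the Jacobian.  The vectors `hv0 = Dκ v`,
`hv1 = (v x, x v y)`, `hv2 = (y v x, x v y)`, `κ = (x, y)`, are `jc κ * g` times a vector without zeros, where `g = 1` if the exceptional curve
`{G = 0}` is transversal to `v`, and `g = G` if it is invariant.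
-/

set_option autoImplicit false

open Topology Filter Metric

noncomputable section

namespace Pool.Agent.MQ3

variable {κ v : ℂ × ℂ → ℂ × ℂ} {G u a : ℂ × ℂ → ℂ} {P : ℂ × ℂ} {n : ℕ}

/-- the canonical vector off the divisor -/
def hv0 (κ v : ℂ × ℂ → ℂ × ℂ) (Q : ℂ × ℂ) : ℂ × ℂ := fderiv ℂ κ Q (v Q)

/-- the canonical vector at a smooth point of the divisor `{x = 0}` -/
def hv1 (κ v : ℂ × ℂ → ℂ × ℂ) (Q : ℂ × ℂ) : ℂ × ℂ := ((fderiv ℂ κ Q (v Q)).1, (κ Q).1 * (fderiv ℂ κ Q (v Q)).2)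

/-- the canonical vector at a crossing point of the divisor `{x y = 0}` -/
def hv2 (κ v : ℂ × ℂ → ℂ × ℂ) (Q : ℂ × ℂ) : ℂ × ℂ := ((κ Q).2 * (fderiv ℂ κ Q (v Q)).1, (κ Q).1 * (fderiv ℂ κ Q (v Q)).2)

theorem analyticAt_fderiv_app {E : Type*} [NormedAddCommGroup E] [NormedSpace ℂ E] {f : ℂ × ℂ → E} {v : ℂ × ℂ → ℂ × ℂ} {P : ℂ × ℂ}
    (hf : AnalyticAt ℂ f P) (hv : AnalyticAt ℂ v P) [CompleteSpace E] : AnalyticAt ℂ (fun Q => fderiv ℂ f Q (v Q)) P :=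
  AnalyticAt.comp (g := fun z : (ℂ × ℂ →L[ℂ] E) × (ℂ × ℂ) => z.1 z.2) (f := fun q => (fderiv ℂ f q, v q))
    (ContinuousLinearMap.analyticAt_bilinear (ContinuousLinearMap.id ℂ (ℂ × ℂ →L[ℂ] E)) _) (hf.fderiv.prod hv)

theorem analyticAt_hv0 (hκ : AnalyticAt ℂ κ P) (hv : AnalyticAt ℂ v P) : AnalyticAt ℂ (hv0 κ v) P := analyticAt_fderiv_app hκ hv

theorem analyticAt_hv1 (hκ : AnalyticAt ℂ κ P) (hv : AnalyticAt ℂ v P) : AnalyticAt ℂ (hv1 κ v) P :=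
  (analyticAt_fst.fun_comp (analyticAt_fderiv_app hκ hv)).prod
    ((analyticAt_fst.fun_comp hκ).mul (analyticAt_snd.fun_comp (analyticAt_fderiv_app hκ hv)))

theorem analyticAt_hv2 (hκ : AnalyticAt ℂ κ P) (hv : AnalyticAt ℂ v P) : AnalyticAt ℂ (hv2 κ v) P :=
  ((analyticAt_snd.fun_comp hκ).mul (analyticAt_fst.fun_comp (analyticAt_fderiv_app hκ hv))).prod
    ((analyticAt_fst.fun_comp hκ).mul (analyticAt_snd.fun_comp (analyticAt_fderiv_app hκ hv)))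

/-- a linear map with nonzero determinant is injective -/
theorem eq_zero_of_jc (h : jc κ P ≠ 0) {w : ℂ × ℂ} (hw : fderiv ℂ κ P w = 0) : w = 0 := by
  rw [split_vec] at hw
  have h1 := congrArg Prod.fst hw
  have h2 := congrArg Prod.snd hw
  simp only [Prod.fst_add, Prod.snd_add, Prod.smul_fst, Prod.smul_snd, smul_eq_mul, Prod.fst_zero, Prod.snd_zero] at h1 h2
  unfold jc at h
  have h3 : w.1 * ((fderiv ℂ κ P (1, 0)).1 * (fderiv ℂ κ P (0, 1)).2 - (fderiv ℂ κ P (0, 1)).1 * (fderiv ℂ κ P (1, 0)).2) = 0 := by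
    linear_combination (fderiv ℂ κ P (0, 1)).2 * h1 - (fderiv ℂ κ P (0, 1)).1 * h2
  have h4 : w.2 * ((fderiv ℂ κ P (1, 0)).1 * (fderiv ℂ κ P (0, 1)).2 - (fderiv ℂ κ P (0, 1)).1 * (fderiv ℂ κ P (1, 0)).2) = 0 := by
    linear_combination (fderiv ℂ κ P (1, 0)).1 * h2 - (fderiv ℂ κ P (1, 0)).2 * h1
  exact Prod.ext ((mul_eq_zero.1 h3).resolve_right h) ((mul_eq_zero.1 h4).resolve_right h)

/-! ### at the points where `κ` is etale -/

/-- If `κ` is etale at `P` and the canonical vector has no zero there, it is `jc κ` times a vector without zeros. -/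
theorem nc_etale {H : ℂ × ℂ → ℂ × ℂ} (hκ : AnalyticAt ℂ κ P) (hJ : jc κ P ≠ 0) (hH : AnalyticAt ℂ H P) (h0 : H P ≠ 0) :
    ∃ N : ℂ × ℂ → ℂ × ℂ, AnalyticAt ℂ N P ∧ N P ≠ 0 ∧ ∀ᶠ Q in 𝓝 P, H Q = jc κ Q • N Q := by
  refine ⟨fun Q => (jc κ Q)⁻¹ • H Q, ((jc_an hκ).inv hJ).smul hH, smul_ne_zero (inv_ne_zero hJ) h0, ?_⟩
  filter_upwards [(jc_an hκ).continuousAt.eventually_ne hJ] with Q hQ
  rw [smul_smul, mul_inv_cancel₀ hQ, one_smul]

theorem hv0_ne (hJ : jc κ P ≠ 0) (hv : v P ≠ 0) : hv0 κ v P ≠ 0 := fun h => hv (eq_zero_of_jc hJ h)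

theorem hv2_ne (hJ : jc κ P ≠ 0) (hv : v P ≠ 0) (h1 : (κ P).1 ≠ 0) (h2 : (κ P).2 ≠ 0) : hv2 κ v P ≠ 0 := by
  intro h
  refine hv0_ne hJ hv (Prod.ext ?_ ?_)
  · exact (mul_eq_zero.1 (congrArg Prod.fst h)).resolve_left h2
  · exact (mul_eq_zero.1 (congrArg Prod.snd h)).resolve_left h1

theorem hv1_ne (hJ : jc κ P ≠ 0) (hv : v P ≠ 0) (h1 : (κ P).1 ≠ 0) : hv1 κ v P ≠ 0 := by
  intro h
  have h2 : (fderiv ℂ κ P (v P)).1 = 0 := congrArg Prod.fst h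
  have h3 : (κ P).1 * (fderiv ℂ κ P (v P)).2 = 0 := congrArg Prod.snd h
  exact hv0_ne hJ hv (Prod.ext h2 ((mul_eq_zero.1 h3).resolve_left h1))

/-! ### over a smooth point of the divisor -/

/-- the derivative of `x = G ^ n u` -/
theorem fderiv_pow_mul (hn : 1 ≤ n) (hκ : AnalyticAt ℂ κ P) (hG : AnalyticAt ℂ G P) (hu : AnalyticAt ℂ u P)
    (hX : ∀ᶠ Q in 𝓝 P, (κ Q).1 = G Q ^ n * u Q) :
    ∀ᶠ Q in 𝓝 P, ∀ w : ℂ × ℂ, (fderiv ℂ κ Q w).1 = G Q ^ (n - 1) * (n * u Q * fderiv ℂ G Q w + G Q * fderiv ℂ u Q w) := by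
  filter_upwards [eventually_eventually_nhds.2 hX, hκ.eventually_analyticAt, hG.eventually_analyticAt, hu.eventually_analyticAt] with Q h1 h2 h3 h4 w
  have h5 : HasFDerivAt (fun Q => (κ Q).1) ((ContinuousLinearMap.fst ℂ ℂ ℂ).comp (fderiv ℂ κ Q)) Q :=
    (ContinuousLinearMap.fst ℂ ℂ ℂ).hasFDerivAt.comp Q h2.differentiableAt.hasFDerivAt
  have h6 := (h3.differentiableAt.hasFDerivAt.pow n).mul h4.differentiableAt.hasFDerivAt
  have h7 := h5.unique (h6.congr_of_eventuallyEq h1)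
  have h8 := congrArg (fun L : ℂ × ℂ →L[ℂ] ℂ => L w) h7
  have h9 : G Q ^ n = G Q ^ (n - 1) * G Q := by
    rw [← pow_succ]
    congr 1
    omega
  simp at h8
  rw [h8, h9]
  ring

/-- **Over a smooth point of the divisor, transversal case.** -/
theorem nc1_trans (hn : 1 ≤ n) (hκ : AnalyticAt ℂ κ P) (hv : AnalyticAt ℂ v P) (hG : AnalyticAt ℂ G P) (hu : AnalyticAt ℂ u P) (hu0 : u P ≠ 0)
    (hG0 : G P = 0) (hX : ∀ᶠ Q in 𝓝 P, (κ Q).1 = G Q ^ n * u Q) {j : ℂ × ℂ → ℂ} (hj : AnalyticAt ℂ j P) (hj0 : j P ≠ 0)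
    (hJ : ∀ᶠ Q in 𝓝 P, jc κ Q = G Q ^ (n - 1) * j Q) (ht : fderiv ℂ G P (v P) ≠ 0) :
    ∃ N : ℂ × ℂ → ℂ × ℂ, AnalyticAt ℂ N P ∧ N P ≠ 0 ∧ ∀ᶠ Q in 𝓝 P, hv1 κ v Q = jc κ Q • N Q := by
  have hGv := analyticAt_fderiv_app hG hv
  have huv := analyticAt_fderiv_app hu hv
  have hκv := analyticAt_snd.fun_comp (analyticAt_fderiv_app hκ hv)
  refine ⟨fun Q => ((n * u Q * fderiv ℂ G Q (v Q) + G Q * fderiv ℂ u Q (v Q)) / j Q, G Q * u Q * (fderiv ℂ κ Q (v Q)).2 / j Q), ?_, ?_, ?_⟩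
  · exact ((((analyticAt_const.fun_mul hu).fun_mul hGv).fun_add (hG.fun_mul huv)).fun_div hj hj0).prod
      (((hG.fun_mul hu).fun_mul hκv).fun_div hj hj0)
  · intro h
    have h1 := congrArg Prod.fst h
    simp only [hG0, zero_mul, add_zero, Prod.fst_zero] at h1
    have h2 : (n : ℂ) ≠ 0 := by
      have : n ≠ 0 := by omega
      exact_mod_cast this
    exact div_ne_zero (mul_ne_zero (mul_ne_zero h2 hu0) ht) hj0 h1
  · filter_upwards [fderiv_pow_mul hn hκ hG hu hX, hX, hJ, hj.continuousAt.eventually_ne hj0] with Q h1 h2 h3 h4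
    have h9 : G Q ^ n = G Q ^ (n - 1) * G Q := by
      rw [← pow_succ]
      congr 1
      omega
    rw [hv1, h3]
    ext
    · simp only [Prod.smul_fst, smul_eq_mul]
      rw [h1]
      field_simp
    · simp only [Prod.smul_snd, smul_eq_mul]
      rw [h2, h9]
      field_simp

/-- **Over a smooth point of the divisor, invariant case.** -/
theorem nc1_inv (hn : 1 ≤ n) (hκ : AnalyticAt ℂ κ P) (hv : AnalyticAt ℂ v P) (hv0 : v P ≠ 0) (hG : AnalyticAt ℂ G P) (hdG : fderiv ℂ G P ≠ 0)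
    (hu : AnalyticAt ℂ u P) (hu0 : u P ≠ 0) (hG0 : G P = 0) (hX : ∀ᶠ Q in 𝓝 P, (κ Q).1 = G Q ^ n * u Q) {j : ℂ × ℂ → ℂ} (hj : AnalyticAt ℂ j P)
    (hj0 : j P ≠ 0) (hJ : ∀ᶠ Q in 𝓝 P, jc κ Q = G Q ^ (n - 1) * j Q) (ha : AnalyticAt ℂ a P) (hinv : ∀ᶠ Q in 𝓝 P, fderiv ℂ G Q (v Q) = G Q * a Q) :
    ∃ N : ℂ × ℂ → ℂ × ℂ, AnalyticAt ℂ N P ∧ N P ≠ 0 ∧ ∀ᶠ Q in 𝓝 P, hv1 κ v Q = (jc κ Q * G Q) • N Q := by
  have hGv := analyticAt_fderiv_app hG hv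
  have huv := analyticAt_fderiv_app hu hv
  have hκv := analyticAt_snd.fun_comp (analyticAt_fderiv_app hκ hv)
  have hn0 : (n : ℂ) ≠ 0 := by
    have : n ≠ 0 := by omega
    exact_mod_cast this
  -- the Jacobian of `(G, y)` at `P`
  have hGe : ∀ e : ℂ × ℂ, AnalyticAt ℂ (fun Q => fderiv ℂ G Q e) P := fun e => analyticAt_fderiv_app hG analyticAt_const
  have hue : ∀ e : ℂ × ℂ, AnalyticAt ℂ (fun Q => fderiv ℂ u Q e) P := fun e => analyticAt_fderiv_app hu analyticAt_const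
  have hκe : ∀ e : ℂ × ℂ, AnalyticAt ℂ (fun Q => (fderiv ℂ κ Q e).2) P := fun e => analyticAt_snd.fun_comp (analyticAt_fderiv_app hκ analyticAt_const)
  set W : ℂ × ℂ → ℂ := fun Q => (n * u Q * fderiv ℂ G Q (1, 0) + G Q * fderiv ℂ u Q (1, 0)) * (fderiv ℂ κ Q (0, 1)).2 -
    (n * u Q * fderiv ℂ G Q (0, 1) + G Q * fderiv ℂ u Q (0, 1)) * (fderiv ℂ κ Q (1, 0)).2 with hW
  have hWa : AnalyticAt ℂ W P :=
    ((((analyticAt_const.fun_mul hu).fun_mul (hGe _)).fun_add (hG.fun_mul (hue _))).fun_mul (hκe _)).fun_sub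
      ((((analyticAt_const.fun_mul hu).fun_mul (hGe _)).fun_add (hG.fun_mul (hue _))).fun_mul (hκe _))
  have hJW : ∀ᶠ Q in 𝓝 P, jc κ Q = G Q ^ (n - 1) * W Q := by
    filter_upwards [fderiv_pow_mul hn hκ hG hu hX] with Q h1
    rw [jc, h1, h1, hW]
    ring
  have hGfr : ∃ᶠ Q in 𝓝 P, G Q ≠ 0 := by
    intro h1
    apply hdG
    have h2 : G =ᶠ[𝓝 P] fun _ => 0 := by
      filter_upwards [h1] with Q hQ
      exact not_not.1 hQ
    rw [h2.fderiv_eq]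
    simp
  have hjW : j P = W P := by
    by_contra hne
    apply hGfr
    filter_upwards [(hj.sub hWa).continuousAt.eventually_ne (sub_ne_zero.2 hne), hJ, hJW] with Q h1 h2 h3 h4
    refine h1 (sub_eq_zero.2 (mul_left_cancel₀ (pow_ne_zero (n - 1) h4) ?_))
    rw [← h2, h3]
  have hWP : W P = n * u P * (fderiv ℂ G P (1, 0) * (fderiv ℂ κ P (0, 1)).2 - fderiv ℂ G P (0, 1) * (fderiv ℂ κ P (1, 0)).2) := by
    rw [hW]
    simp only [hG0, zero_mul, add_zero]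
    ring
  have hGvP : fderiv ℂ G P (v P) = 0 := by
    rw [hinv.self_of_nhds, hG0, zero_mul]
  have hYv : (fderiv ℂ κ P (v P)).2 ≠ 0 := by
    intro h1
    have hdet : fderiv ℂ G P (1, 0) * (fderiv ℂ κ P (0, 1)).2 - fderiv ℂ G P (0, 1) * (fderiv ℂ κ P (1, 0)).2 ≠ 0 := by
      intro h2
      rw [hjW, hWP, h2, mul_zero] at hj0
      exact hj0 rfl
    rw [split_sc] at hGvP
    rw [split_vec] at h1
    simp only [Prod.snd_add, Prod.smul_snd, smul_eq_mul] at h1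
    have h3 : (v P).1 * (fderiv ℂ G P (1, 0) * (fderiv ℂ κ P (0, 1)).2 - fderiv ℂ G P (0, 1) * (fderiv ℂ κ P (1, 0)).2) = 0 := by
      linear_combination (fderiv ℂ κ P (0, 1)).2 * hGvP - fderiv ℂ G P (0, 1) * h1
    have h4 : (v P).2 * (fderiv ℂ G P (1, 0) * (fderiv ℂ κ P (0, 1)).2 - fderiv ℂ G P (0, 1) * (fderiv ℂ κ P (1, 0)).2) = 0 := by
      linear_combination fderiv ℂ G P (1, 0) * h1 - (fderiv ℂ κ P (1, 0)).2 * hGvP
    exact hv0 (Prod.ext ((mul_eq_zero.1 h3).resolve_right hdet) ((mul_eq_zero.1 h4).resolve_right hdet))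
  refine ⟨fun Q => ((n * u Q * a Q + fderiv ℂ u Q (v Q)) / j Q, u Q * (fderiv ℂ κ Q (v Q)).2 / j Q), ?_, ?_, ?_⟩
  · exact ((((analyticAt_const.fun_mul hu).fun_mul ha).fun_add huv).fun_div hj hj0).prod ((hu.fun_mul hκv).fun_div hj hj0)
  · intro h
    have h1 := congrArg Prod.snd h
    exact div_ne_zero (mul_ne_zero hu0 hYv) hj0 h1
  · filter_upwards [fderiv_pow_mul hn hκ hG hu hX, hX, hJ, hj.continuousAt.eventually_ne hj0, hinv] with Q h1 h2 h3 h4 h5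
    have h9 : G Q ^ n = G Q ^ (n - 1) * G Q := by
      rw [← pow_succ]
      congr 1
      omega
    rw [hv1, h3]
    ext
    · simp only [Prod.smul_fst, smul_eq_mul]
      rw [h1, h5]
      field_simp
    · simp only [Prod.smul_snd, smul_eq_mul]
      rw [h2, h9]
      field_simp

/-! ### over a crossing point of the divisor -/

variable {w w' : ℕ × ℕ}

/-- the vector `M (α, β)`, `M` the matrix of the exponents -/
def mv (w w' : ℕ × ℕ) (L : ℂ × ℂ) : ℂ × ℂ := (w.1 * L.1 + w'.1 * L.2, w.2 * L.1 + w'.2 * L.2)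

theorem mv_smul (c : ℂ) (L : ℂ × ℂ) : mv w w' (c • L) = c • mv w w' L := by
  unfold mv
  ext
  · simp only [Prod.smul_fst, Prod.smul_snd, smul_eq_mul]
    ring
  · simp only [Prod.smul_fst, Prod.smul_snd, smul_eq_mul]
    ring

theorem mv_ne (hd : dt w w' ≠ 0) {L : ℂ × ℂ} (h : L ≠ 0) : mv w w' L ≠ 0 := by
  intro h0
  apply h
  have h1 : ((dt w w' : ℤ) : ℂ) ≠ 0 := by exact_mod_cast hd
  have h2 : (w.1 : ℂ) * L.1 + w'.1 * L.2 = 0 := congrArg Prod.fst h0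
  have h3 : (w.2 : ℂ) * L.1 + w'.2 * L.2 = 0 := congrArg Prod.snd h0
  rw [dt_cast] at h1
  refine Prod.ext ?_ ?_
  · refine (mul_eq_zero.1 (?_ : L.1 * ((w.1 : ℂ) * w'.2 - w.2 * w'.1) = 0)).resolve_right h1
    linear_combination (w'.2 : ℂ) * h2 - (w'.1 : ℂ) * h3
  · refine (mul_eq_zero.1 (?_ : L.2 * ((w.1 : ℂ) * w'.2 - w.2 * w'.1) = 0)).resolve_right h1
    linear_combination (w.1 : ℂ) * h3 - (w.2 : ℂ) * h2

theorem analyticAt_mv {L : ℂ × ℂ → ℂ × ℂ} (hL : AnalyticAt ℂ L P) : AnalyticAt ℂ (fun Q => mv w w' (L Q)) P := by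
  have h1 := analyticAt_fst.fun_comp hL
  have h2 := analyticAt_snd.fun_comp hL
  exact ((analyticAt_const.fun_mul h1).fun_add (analyticAt_const.fun_mul h2)).prod ((analyticAt_const.fun_mul h1).fun_add (analyticAt_const.fun_mul h2))

/-- the logarithmic vector `(t v₁, s v₂)` of a vector field -/
def Lv (v : ℂ × ℂ → ℂ × ℂ) (Q : ℂ × ℂ) : ℂ × ℂ := (Q.2 * (v Q).1, Q.1 * (v Q).2)

theorem analyticAt_Lv (hv : AnalyticAt ℂ v P) : AnalyticAt ℂ (Lv v) P :=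
  (analyticAt_snd.mul (analyticAt_fst.fun_comp hv)).prod (analyticAt_fst.mul (analyticAt_snd.fun_comp hv))

/-- `s t (y v x, x v y) = x y M L`. -/
theorem hv2_mono (v : ℂ × ℂ → ℂ × ℂ) (Q : ℂ × ℂ) : (Q.1 * Q.2) • hv2 (mono w w') v Q =
    ((mono w w' Q).1 * (mono w w' Q).2) • mv w w' (Lv v Q) := by
  have key : ∀ m n : ℕ, Q.1 * Q.2 * (m * Q.1 ^ (m - 1) * Q.2 ^ n * (v Q).1 + n * Q.1 ^ m * Q.2 ^ (n - 1) * (v Q).2) =
      Q.1 ^ m * Q.2 ^ n * (m * (Q.2 * (v Q).1) + n * (Q.1 * (v Q).2)) := by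
    intro m n
    rcases m with _ | m <;> rcases n with _ | n <;> simp [pow_succ] <;> ring
  unfold hv2 mv Lv
  rw [fderiv_mono]
  ext
  · simp only [Prod.smul_fst, smul_eq_mul]
    show Q.1 * Q.2 * ((Q.1 ^ w.2 * Q.2 ^ w'.2) * (w.1 * Q.1 ^ (w.1 - 1) * Q.2 ^ w'.1 * (v Q).1 + w'.1 * Q.1 ^ w.1 * Q.2 ^ (w'.1 - 1) * (v Q).2)) =
      ((Q.1 ^ w.1 * Q.2 ^ w'.1) * (Q.1 ^ w.2 * Q.2 ^ w'.2)) * (w.1 * (Q.2 * (v Q).1) + w'.1 * (Q.1 * (v Q).2))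
    linear_combination (Q.1 ^ w.2 * Q.2 ^ w'.2) * key w.1 w'.1
  · simp only [Prod.smul_snd, smul_eq_mul]
    show Q.1 * Q.2 * ((Q.1 ^ w.1 * Q.2 ^ w'.1) * (w.2 * Q.1 ^ (w.2 - 1) * Q.2 ^ w'.2 * (v Q).1 + w'.2 * Q.1 ^ w.2 * Q.2 ^ (w'.2 - 1) * (v Q).2)) =
      ((Q.1 ^ w.1 * Q.2 ^ w'.1) * (Q.1 ^ w.2 * Q.2 ^ w'.2)) * (w.2 * (Q.2 * (v Q).1) + w'.2 * (Q.1 * (v Q).2))
    linear_combination (Q.1 ^ w.1 * Q.2 ^ w'.1) * key w.2 w'.2

theorem jc_mono (Q : ℂ × ℂ) : Q.1 * Q.2 * jc (mono w w') Q = dt w w' * ((mono w w' Q).1 * (mono w w' Q).2) := by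
  rw [← mul_assoc, ← jac_mono, jc]
  ring

/-- **The canonical vector in a monomial chart**: `det M (y v x, x v y) = J M L`. -/
theorem hv2_mono_jc (v : ℂ × ℂ → ℂ × ℂ) (Q : ℂ × ℂ) :
    ((dt w w' : ℤ) : ℂ) • hv2 (mono w w') v Q = jc (mono w w') Q • mv w w' (Lv v Q) := by
  -- both sides are continuous in `Q` for a constant vector field
  have h1 : ∀ c : ℂ × ℂ, ((dt w w' : ℤ) : ℂ) • hv2 (mono w w') (fun _ => c) Q = jc (mono w w') Q • mv w w' (Lv (fun _ => c) Q) := by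
    intro c
    have hc : ∀ q, AnalyticAt ℂ (fun _ : ℂ × ℂ => c) q := fun q => analyticAt_const
    refine eq_of_off (f := fun Q => ((dt w w' : ℤ) : ℂ) • hv2 (mono w w') (fun _ => c) Q)
      (g := fun Q => jc (mono w w') Q • mv w w' (Lv (fun _ => c) Q)) ?_ ?_ (Eventually.of_forall fun q hq => ?_)
    · exact (analyticAt_hv2 (analyticAt_mono Q) (hc Q)).continuousAt.const_smul (((dt w w' : ℤ) : ℂ))
    · exact (jc_an (analyticAt_mono Q)).continuousAt.smul (analyticAt_mv (analyticAt_Lv (hc Q))).continuousAt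
    · have h2 := hv2_mono (w := w) (w' := w') (fun _ => c) q
      have h3 := jc_mono (w := w) (w' := w') q
      have h4 : (q.1 * q.2) • (((dt w w' : ℤ) : ℂ) • hv2 (mono w w') (fun _ => c) q) = (q.1 * q.2) • (jc (mono w w') q • mv w w' (Lv (fun _ => c) q)) := by
        rw [smul_comm, h2, smul_smul, smul_smul, h3]
      exact smul_right_injective _ hq h4
  exact h1 (v Q)

/-- **Lemma NC**, with a logarithmic vector `L = g U`. -/
theorem nc_A (hd : dt w w' ≠ 0) {g : ℂ × ℂ → ℂ} {U : ℂ × ℂ → ℂ × ℂ} (hU : AnalyticAt ℂ U P) (hU0 : U P ≠ 0)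
    (hL : ∀ᶠ Q in 𝓝 P, Lv v Q = g Q • U Q) :
    ∃ N : ℂ × ℂ → ℂ × ℂ, AnalyticAt ℂ N P ∧ N P ≠ 0 ∧ ∀ᶠ Q in 𝓝 P, hv2 (mono w w') v Q = (jc (mono w w') Q * g Q) • N Q := by
  have h1 : ((dt w w' : ℤ) : ℂ) ≠ 0 := by exact_mod_cast hd
  refine ⟨fun Q => ((dt w w' : ℤ) : ℂ)⁻¹ • mv w w' (U Q), (analyticAt_mv hU).fun_const_smul, smul_ne_zero (inv_ne_zero h1) (mv_ne hd hU0), ?_⟩
  filter_upwards [hL] with Q hQ
  have h2 := hv2_mono_jc (w := w) (w' := w') v Q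
  rw [hQ, mv_smul] at h2
  rw [smul_comm, mul_smul, ← h2, smul_smul, inv_mul_cancel₀ h1, one_smul]

/-! ### the logarithmic vector at the regular points of a chart -/

/-- division by the first coordinate at a point of the axis -/
theorem exists_div₁ {F : Type} [NormedAddCommGroup F] [NormedSpace ℂ F] [CompleteSpace F] {f : ℂ × ℂ → F} (hf : AnalyticAt ℂ f P) (hP : P.1 = 0)
    (h : ∀ᶠ Q in 𝓝 P, Q.1 = 0 → f Q = 0) : ∃ g : ℂ × ℂ → F, AnalyticAt ℂ g P ∧ ∀ᶠ Q in 𝓝 P, f Q = Q.1 • g Q := by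
  have hl : AnalyticAt ℂ (fun q : ℂ × ℂ => P + q) 0 := analyticAt_const.add analyticAt_id
  have ht : Tendsto (fun q : ℂ × ℂ => P + q) (𝓝 0) (𝓝 P) := by
    have := hl.continuousAt.tendsto
    rwa [add_zero] at this
  have hf' : AnalyticAt ℂ (fun q => f (P + q)) 0 := by
    have h1 : AnalyticAt ℂ f (P + 0) := by rwa [add_zero]
    exact AnalyticAt.comp (g := f) (f := fun q : ℂ × ℂ => P + q) (x := 0) h1 hl
  have h0 : ∀ᶠ y in 𝓝 (0 : ℂ), f (P + (0, y)) = 0 := by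
    have h1 : Tendsto (fun y : ℂ => ((0 : ℂ), y)) (𝓝 0) (𝓝 (0 : ℂ × ℂ)) := by
      have : Continuous fun y : ℂ => ((0 : ℂ), y) := by fun_prop
      exact this.tendsto 0
    filter_upwards [(ht.comp h1).eventually h] with y hy
    exact hy (by simp [hP])
  obtain ⟨g, hg, hg'⟩ := Pool.Agent.H17BP.exists_div_x hf' h0
  have hs : AnalyticAt ℂ (fun q : ℂ × ℂ => q - P) P := analyticAt_id.sub analyticAt_const
  have hst : Tendsto (fun q : ℂ × ℂ => q - P) (𝓝 P) (𝓝 0) := by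
    have := hs.continuousAt.tendsto
    rwa [sub_self] at this
  refine ⟨fun Q => g (Q - P), ?_, ?_⟩
  · have h1 : AnalyticAt ℂ g (P - P) := by rwa [sub_self]
    exact AnalyticAt.comp (g := g) (f := fun q : ℂ × ℂ => q - P) (x := P) h1 hs
  · filter_upwards [hst.eventually hg'] with Q hQ
    rw [add_sub_cancel, Prod.fst_sub, hP, sub_zero] at hQ
    exact hQ

theorem exists_div₂ {F : Type} [NormedAddCommGroup F] [NormedSpace ℂ F] [CompleteSpace F] {f : ℂ × ℂ → F} (hf : AnalyticAt ℂ f P) (hP : P.2 = 0)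
    (h : ∀ᶠ Q in 𝓝 P, Q.2 = 0 → f Q = 0) : ∃ g : ℂ × ℂ → F, AnalyticAt ℂ g P ∧ ∀ᶠ Q in 𝓝 P, f Q = Q.2 • g Q := by
  have hs : ∀ q, AnalyticAt ℂ (fun w : ℂ × ℂ => (w.2, w.1)) q := fun q => analyticAt_snd.prod analyticAt_fst
  have hst : Tendsto (fun w : ℂ × ℂ => (w.2, w.1)) (𝓝 (P.2, P.1)) (𝓝 P) := (hs (P.2, P.1)).continuousAt.tendsto
  have hst' : Tendsto (fun w : ℂ × ℂ => (w.2, w.1)) (𝓝 P) (𝓝 (P.2, P.1)) := (hs P).continuousAt.tendsto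
  obtain ⟨g, hg, hg'⟩ := exists_div₁ (P := (P.2, P.1)) (f := fun w => f (w.2, w.1))
    (AnalyticAt.comp (g := f) (f := fun w : ℂ × ℂ => (w.2, w.1)) (x := (P.2, P.1)) hf (hs _)) hP (by
      filter_upwards [hst.eventually h] with Q hQ hQ0
      exact hQ hQ0)
  refine ⟨fun w => g (w.2, w.1), AnalyticAt.comp (g := g) (f := fun w : ℂ × ℂ => (w.2, w.1)) (x := P) hg (hs _), ?_⟩
  filter_upwards [hst'.eventually hg'] with Q hQ
  exact hQ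

/-- off the axes -/
theorem Lv_off (h0 : P.1 * P.2 ≠ 0) (hv : v P ≠ 0) : Lv v P ≠ 0 := by
  intro h
  have h1 : P.2 * (v P).1 = 0 := congrArg Prod.fst h
  have h2 : P.1 * (v P).2 = 0 := congrArg Prod.snd h
  exact hv (Prod.ext ((mul_eq_zero.1 h1).resolve_left (right_ne_zero_of_mul h0)) ((mul_eq_zero.1 h2).resolve_left (left_ne_zero_of_mul h0)))

theorem Lv_trans₁ (h2 : P.2 ≠ 0) (hv : (v P).1 ≠ 0) : Lv v P ≠ 0 := fun h => mul_ne_zero h2 hv (congrArg Prod.fst h)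

theorem Lv_trans₂ (h1 : P.1 ≠ 0) (hv : (v P).2 ≠ 0) : Lv v P ≠ 0 := fun h => mul_ne_zero h1 hv (congrArg Prod.snd h)

/-- on the invariant axis `{s = 0}` -/
theorem Lv_inv₁ (hv : AnalyticAt ℂ v P) (h1 : P.1 = 0) (hv0 : v P ≠ 0) (hi : ∀ᶠ Q in 𝓝 P, Q.1 = 0 → (v Q).1 = 0) :
    ∃ U : ℂ × ℂ → ℂ × ℂ, AnalyticAt ℂ U P ∧ U P ≠ 0 ∧ ∀ᶠ Q in 𝓝 P, Lv v Q = Q.1 • U Q := by
  obtain ⟨g, hg, hg'⟩ := exists_div₁ (analyticAt_fst.fun_comp hv) h1 hi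
  refine ⟨fun Q => (Q.2 * g Q, (v Q).2), (analyticAt_snd.mul hg).prod (analyticAt_snd.fun_comp hv), ?_, ?_⟩
  · intro h
    have h2 : (v P).2 = 0 := congrArg Prod.snd h
    exact hv0 (Prod.ext (hi.self_of_nhds h1) h2)
  · filter_upwards [hg'] with Q hQ
    rw [smul_eq_mul] at hQ
    unfold Lv
    ext
    · simp only [Prod.smul_fst, smul_eq_mul]
      rw [hQ]
      ring
    · simp only [Prod.smul_snd, smul_eq_mul]

/-- on the invariant axis `{t = 0}` -/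
theorem Lv_inv₂ (hv : AnalyticAt ℂ v P) (h2 : P.2 = 0) (hv0 : v P ≠ 0) (hi : ∀ᶠ Q in 𝓝 P, Q.2 = 0 → (v Q).2 = 0) :
    ∃ U : ℂ × ℂ → ℂ × ℂ, AnalyticAt ℂ U P ∧ U P ≠ 0 ∧ ∀ᶠ Q in 𝓝 P, Lv v Q = Q.2 • U Q := by
  obtain ⟨g, hg, hg'⟩ := exists_div₂ (analyticAt_snd.fun_comp hv) h2 hi
  refine ⟨fun Q => ((v Q).1, Q.1 * g Q), (analyticAt_fst.fun_comp hv).prod (analyticAt_fst.mul hg), ?_, ?_⟩
  · intro h
    have h3 : (v P).1 = 0 := congrArg Prod.fst h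
    exact hv0 (Prod.ext h3 (hi.self_of_nhds h2))
  · filter_upwards [hg'] with Q hQ
    rw [smul_eq_mul] at hQ
    unfold Lv
    ext
    · simp only [Prod.smul_fst, smul_eq_mul]
    · simp only [Prod.smul_snd, smul_eq_mul]
      rw [hQ]
      ring

end Pool.Agent.MQ3
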