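import Pool.Agent.MQ3.NDefs
import Pool.Agent.MQ3.NC
import Pool.Agent.MQ3.NCD

/-!
# MQ3 NLoc: the local form of the potentials at a regular chart point
-/

set_option autoImplicit false

open Topology Filter Metric MvPolynomial

noncomputable section

namespace Pool.Agent.MQ3

open Pool.Agent.H36.BP (EN)
open Pool.Agent.H17EF (coneE)

variable {M : ℕ} {P : Ideal (MvPolynomial (Fin (M + 1)) ℂ)} {RD : MvPolynomial (Fin (M + 1)) ℂ} {m : ℕ} {X : NCModel P RD} {θ : WDiff (coneE P) m}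
  {l : LF M} {S : Web X θ l} {Ra : MvPolynomial (Fin (M + 1)) ℂ}

/-! ### charts -/

private theorem NLoc_dt (k : S.ι) : dt (S.c k).w (S.c k).w' ≠ 0 := (S.c k).pos.ne'

private theorem NLoc_an (k : S.ι) (q : ℂ × ℂ) : AnalyticAt ℂ (S.κ k) q := analyticAt_mono q

private theorem NLoc_open (k : S.ι) : IsOpen (S.D k) :=
  isOpen_Dm.inter ((X.isOpen k.1).preimage (continuous_iff_continuousAt.2 fun q => (NLoc_an k q).continuousAt))

private theorem NLoc_v {k : S.ι} {q : ℂ × ℂ} (hq : q ∈ S.D k) : AnalyticAt ℂ (S.v k) q := (S.c k).v_an q hq.1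

private theorem NLoc_mono {w w' : ℕ × ℕ} (hd : dt w w' ≠ 0) (x : ℂ × ℂ) : (mono w w' x).1 * (mono w w' x).2 = 0 ↔ x.1 * x.2 = 0 := by
  constructor
  · intro h
    by_contra h0
    have h1 := left_ne_zero_of_mul h0
    have h2 := right_ne_zero_of_mul h0
    exact mul_ne_zero (mul_ne_zero (pow_ne_zero _ h1) (pow_ne_zero _ h2)) (mul_ne_zero (pow_ne_zero _ h1) (pow_ne_zero _ h2)) h
  · intro h
    show (x.1 ^ w.1 * x.2 ^ w'.1) * (x.1 ^ w.2 * x.2 ^ w'.2) = 0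
    have h1 : (x.1 ^ w.1 * x.2 ^ w'.1) * (x.1 ^ w.2 * x.2 ^ w'.2) = x.1 ^ (w.1 + w.2) * x.2 ^ (w'.1 + w'.2) := by
      rw [pow_add, pow_add]
      ring
    rw [h1]
    rcases mul_eq_zero.1 h with h2 | h2
    · have h3 : w.1 + w.2 ≠ 0 := by
        intro h4
        apply hd
        have h5 : w.1 = 0 := by omega
        have h6 : w.2 = 0 := by omega
        simp [dt, h5, h6]
      rw [h2, zero_pow h3, zero_mul]
    · have h3 : w'.1 + w'.2 ≠ 0 := by
        intro h4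
        apply hd
        have h5 : w'.1 = 0 := by omega
        have h6 : w'.2 = 0 := by omega
        simp [dt, h5, h6]
      rw [h2, zero_pow h3, mul_zero]

/-- the zeros of `RD Ra` upstairs -/
private theorem NLoc_zero {k : S.ι} {x : ℂ × ℂ} (hx : x ∈ S.D k) :
    eval (S.σ k x).ofLp (RD * Ra) = 0 ↔ x.1 * x.2 = 0 ∨ eval (S.σ k x).ofLp Ra = 0 := by
  rw [map_mul, mul_eq_zero]
  have h1 : eval (S.σ k x).ofLp RD = 0 ↔ (S.κ k x).1 * (S.κ k x).2 = 0 := X.div k.1 _ hx.2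
  rw [h1]
  have h2 : (S.κ k x).1 * (S.κ k x).2 = 0 ↔ x.1 * x.2 = 0 := NLoc_mono (NLoc_dt k) x
  rw [h2]

private theorem NLoc_fst (x w : ℂ × ℂ) : fderiv ℂ (fun y : ℂ × ℂ => y.1) x w = w.1 := by
  rw [fderiv_fst]
  rfl

private theorem NLoc_snd (x w : ℂ × ℂ) : fderiv ℂ (fun y : ℂ × ℂ => y.2) x w = w.2 := by
  rw [fderiv_snd]
  rfl

private theorem NLoc_one (x w : ℂ × ℂ) : fderiv ℂ (fun _ : ℂ × ℂ => (1 : ℂ)) x w = 0 := by
  simp

/-! ### the equations -/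

/-- no invariant curve, a transversal curve `{h = 0}` -/
private theorem NLoc_trans {k : S.ι} {q : ℂ × ℂ} {h : ℂ × ℂ → ℂ} (hh : AnalyticAt ℂ h q)
    (hZ : ∀ᶠ x in 𝓝 q, eval (S.σ k x).ofLp (RD * Ra) = 0 ↔ h x = 0) (ht : ∀ᶠ x in 𝓝 q, h x = 0 → fderiv ℂ h x (S.v k x) ≠ 0) :
    InvAt S Ra k q fun _ => 1 := by
  refine ⟨analyticAt_const, Eventually.of_forall fun x hx => absurd hx one_ne_zero, ⟨fun _ => 0, analyticAt_const, Eventually.of_forall fun x => ?_⟩,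
    h, hh, ?_, ?_⟩
  · rw [NLoc_one, zero_mul]
  · filter_upwards [hZ] with x hx
    rw [hx, one_mul]
  · filter_upwards [ht] with x hx h0
    exact ⟨one_ne_zero, hx h0⟩

/-- an invariant curve `{g = 0}` -/
private theorem NLoc_inv {k : S.ι} {q : ℂ × ℂ} {g c : ℂ × ℂ → ℂ} (hg : AnalyticAt ℂ g q) (hd : ∀ᶠ x in 𝓝 q, fderiv ℂ g x ≠ 0) (hc : AnalyticAt ℂ c q)
    (hcg : ∀ᶠ x in 𝓝 q, fderiv ℂ g x (S.v k x) = c x * g x) (hZ : ∀ᶠ x in 𝓝 q, eval (S.σ k x).ofLp (RD * Ra) = 0 ↔ g x = 0) : InvAt S Ra k q g := by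
  refine ⟨hg, hd.mono fun x hx _ => hx, ⟨c, hc, hcg⟩, fun _ => 1, analyticAt_const, ?_, Eventually.of_forall fun x hx => absurd hx one_ne_zero⟩
  filter_upwards [hZ] with x hx
  rw [hx, mul_one]

/-- the canonical equation at a regular point off the curve, with the local form of the vector -/
theorem nloc_A0 {k : S.ι} {q : ℂ × ℂ} (hq : RegA S Ra k q) : ∃ (g : ℂ × ℂ → ℂ) (N : ℂ × ℂ → ℂ × ℂ), InvAt S Ra k q g ∧ AnalyticAt ℂ N q ∧ N q ≠ 0 ∧
    ∀ᶠ x in 𝓝 q, hv2 (S.κ k) (S.v k) x = (jc (S.κ k) x * g x) • N x := by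
  have hD : ∀ᶠ x in 𝓝 q, x ∈ S.D k := (NLoc_open k).mem_nhds hq.mem
  have hva := NLoc_v hq.mem
  have hd := NLoc_dt k
  have c1 : ContinuousAt (fun x : ℂ × ℂ => x.1) q := continuousAt_fst
  have c2 : ContinuousAt (fun x : ℂ × ℂ => x.2) q := continuousAt_snd
  have hv1 : ContinuousAt (fun x : ℂ × ℂ => (S.v k x).1) q := (analyticAt_fst.fun_comp hva).continuousAt
  have hv2' : ContinuousAt (fun x : ℂ × ℂ => (S.v k x).2) q := (analyticAt_snd.fun_comp hva).continuousAt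
  have hone : Lv (S.v k) q ≠ 0 → ∃ N : ℂ × ℂ → ℂ × ℂ, AnalyticAt ℂ N q ∧ N q ≠ 0 ∧
      ∀ᶠ x in 𝓝 q, hv2 (S.κ k) (S.v k) x = (jc (S.κ k) x * (1 : ℂ)) • N x := fun h =>
    nc_A (w := (S.c k).w) (w' := (S.c k).w') hd (g := fun _ => 1) (U := Lv (S.v k)) (analyticAt_Lv hva) h
      (Eventually.of_forall fun x => by rw [one_smul])
  by_cases h1 : q.1 = 0
  · -- the first axis
    have h2 : q.2 ≠ 0 := fun h2 => hq.ne (Prod.ext h1 h2)
    have e2 : ∀ᶠ x in 𝓝 q, x.2 ≠ 0 := c2.eventually_ne h2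
    have hZ : ∀ᶠ x in 𝓝 q, eval (S.σ k x).ofLp (RD * Ra) = 0 ↔ x.1 = 0 := by
      filter_upwards [hD, e2, hq.alg] with x hx hx2 hx3
      rw [NLoc_zero hx]
      constructor
      · intro h
        by_contra h0
        rcases h with h | h
        · exact mul_ne_zero h0 hx2 h
        · exact hx3 (mul_ne_zero h0 hx2) h
      · intro h
        left
        rw [h, zero_mul]
    rcases hq.ax₁ h1 with ht | hi
    · obtain ⟨N, hN, hN0, hNe⟩ := hone (Lv_trans₁ h2 ht)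
      refine ⟨fun _ => 1, N, NLoc_trans analyticAt_fst hZ ?_, hN, hN0, hNe⟩
      filter_upwards [hv1.eventually_ne ht] with x hx _
      rw [NLoc_fst]
      exact hx
    · obtain ⟨U, hU, hU0, hUe⟩ := Lv_inv₁ hva h1 hq.v_ne hi
      obtain ⟨N, hN, hN0, hNe⟩ := nc_A (w := (S.c k).w) (w' := (S.c k).w') hd (g := fun x => x.1) hU hU0 hUe
      obtain ⟨c, hc, hce⟩ := exists_div₁ (analyticAt_fst.fun_comp hva) h1 hi
      refine ⟨fun x => x.1, N, NLoc_inv analyticAt_fst (Eventually.of_forall fun x hx => ?_) hc ?_ hZ, hN, hN0, hNe⟩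
      · have h3 := NLoc_fst x (1, 0)
        rw [hx] at h3
        exact one_ne_zero h3.symm
      · filter_upwards [hce] with x hx
        rw [NLoc_fst, hx, smul_eq_mul, mul_comm]
  by_cases h2 : q.2 = 0
  · -- the second axis
    have e1 : ∀ᶠ x in 𝓝 q, x.1 ≠ 0 := c1.eventually_ne h1
    have hZ : ∀ᶠ x in 𝓝 q, eval (S.σ k x).ofLp (RD * Ra) = 0 ↔ x.2 = 0 := by
      filter_upwards [hD, e1, hq.alg] with x hx hx2 hx3
      rw [NLoc_zero hx]
      constructor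
      · intro h
        by_contra h0
        rcases h with h | h
        · exact mul_ne_zero hx2 h0 h
        · exact hx3 (mul_ne_zero hx2 h0) h
      · intro h
        left
        rw [h, mul_zero]
    rcases hq.ax₂ h2 with ht | hi
    · obtain ⟨N, hN, hN0, hNe⟩ := hone (Lv_trans₂ h1 ht)
      refine ⟨fun _ => 1, N, NLoc_trans analyticAt_snd hZ ?_, hN, hN0, hNe⟩
      filter_upwards [hv2'.eventually_ne ht] with x hx _
      rw [NLoc_snd]
      exact hx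
    · obtain ⟨U, hU, hU0, hUe⟩ := Lv_inv₂ hva h2 hq.v_ne hi
      obtain ⟨N, hN, hN0, hNe⟩ := nc_A (w := (S.c k).w) (w' := (S.c k).w') hd (g := fun x => x.2) hU hU0 hUe
      obtain ⟨c, hc, hce⟩ := exists_div₂ (analyticAt_snd.fun_comp hva) h2 hi
      refine ⟨fun x => x.2, N, NLoc_inv analyticAt_snd (Eventually.of_forall fun x hx => ?_) hc ?_ hZ, hN, hN0, hNe⟩
      · have h3 := NLoc_snd x (0, 1)
        rw [hx] at h3
        exact one_ne_zero h3.symm
      · filter_upwards [hce] with x hx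
        rw [NLoc_snd, hx, smul_eq_mul, mul_comm]
  · -- off the axes
    have h0 : q.1 * q.2 ≠ 0 := mul_ne_zero h1 h2
    obtain ⟨N, hN, hN0, hNe⟩ := hone (Lv_off h0 hq.v_ne)
    refine ⟨fun _ => 1, N, NLoc_trans (h := fun _ => 1) analyticAt_const ?_ (Eventually.of_forall fun x hx => absurd hx one_ne_zero), hN, hN0, hNe⟩
    filter_upwards [hD, hq.alg, (c1.mul c2).eventually_ne h0] with x hx hx2 hx3
    rw [NLoc_zero hx]
    constructor
    · rintro (h | h)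
      · exact absurd h hx3
      · exact absurd h (hx2 hx3)
    · intro h
      exact absurd h one_ne_zero

theorem exists_invAt {k : S.ι} {q : ℂ × ℂ} (hq : Reg S Ra k q) : ∃ g, InvAt S Ra k q g := by
  rcases hq with hq | hq
  · obtain ⟨g, -, h, -⟩ := nloc_A0 hq
    exact ⟨g, h⟩
  · have hD : ∀ᶠ x in 𝓝 q, x ∈ S.D k := (NLoc_open k).mem_nhds hq.mem
    have hva := NLoc_v hq.mem
    obtain ⟨G, hG, hG0, hdG, hGZ, hGi⟩ := hq.crv
    have hdGe : ∀ᶠ x in 𝓝 q, fderiv ℂ G x ≠ 0 := hG.fderiv.continuousAt.eventually_ne hdG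
    have h0 : ∀ᶠ x : ℂ × ℂ in 𝓝 q, x.1 * x.2 ≠ 0 := (continuousAt_fst.mul continuousAt_snd).eventually_ne hq.ne
    have hZ : ∀ᶠ x in 𝓝 q, eval (S.σ k x).ofLp (RD * Ra) = 0 ↔ G x = 0 := by
      filter_upwards [hD, h0, hGZ] with x hx hx2 hx3
      rw [NLoc_zero hx, or_iff_right hx2, hx3]
    rcases hGi with ht | hi
    · refine ⟨_, NLoc_trans hG hZ ?_⟩
      filter_upwards [(analyticAt_fderiv_app hG hva).continuousAt.eventually_ne ht] with x hx _
      exact hx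
    · obtain ⟨c, hc, hce⟩ := exists_cof hG hG0 hdG hva hi
      refine ⟨G, NLoc_inv hG hdGe hc ?_ hZ⟩
      filter_upwards [hce] with x hx
      rw [hx, mul_comm]

/-! ### uniqueness -/

/-- if `g` has no zero at `q`, then `g'` has none -/
private theorem NLoc_ne {k : S.ι} {q : ℂ × ℂ} (hq : q ∈ S.D k) {g g' : ℂ × ℂ → ℂ} (h : InvAt S Ra k q g) (h' : InvAt S Ra k q g') (h0 : g q ≠ 0) : g' q ≠ 0 := by
  intro h0'
  obtain ⟨hg, -, -, e, he, heZ, het⟩ := h
  obtain ⟨hg', hr', ⟨c', -, hc'⟩, e', he', heZ', -⟩ := h'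
  have hdg' := hr'.self_of_nhds h0'
  have h1 : ∀ᶠ x in 𝓝 q, g' x = 0 → e x = 0 := by
    filter_upwards [heZ, heZ', hg.continuousAt.eventually_ne h0] with x x1 x2 x3 x4
    have h2 : eval (S.σ k x).ofLp (RD * Ra) = 0 := x2.2 (by rw [x4, zero_mul])
    exact (mul_eq_zero.1 (x1.1 h2)).resolve_left x3
  obtain ⟨a, ha, hae⟩ := exists_quot_smooth hg' h0' hdg' he h1
  have he0 : e q = 0 := h1.self_of_nhds h0'
  have h2 := (het.self_of_nhds he0).2
  apply h2
  have h3 : e =ᶠ[𝓝 q] fun x => g' x * a x := by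
    filter_upwards [hae] with x hx
    rw [hx, smul_eq_mul]
  have h4 := (hg'.differentiableAt.hasFDerivAt.mul ha.differentiableAt.hasFDerivAt).congr_of_eventuallyEq h3
  rw [h4.fderiv]
  have h5 := hc'.self_of_nhds
  rw [h0', mul_zero] at h5
  simp [h0', h5]

/-- two local equations -/
theorem invAt_unit {k : S.ι} {q : ℂ × ℂ} (hv : S.v k q ≠ 0) (hq : q ∈ S.D k) {g g' : ℂ × ℂ → ℂ} (h : InvAt S Ra k q g) (h' : InvAt S Ra k q g') :
    ∃ u : ℂ × ℂ → ℂ, AnalyticAt ℂ u q ∧ u q ≠ 0 ∧ ∀ᶠ x in 𝓝 q, g' x = u x * g x := by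
  by_cases h0 : g q = 0
  · have h0' : g' q = 0 := by
      by_contra h1
      exact NLoc_ne hq h' h h1 h0
    obtain ⟨hg, hr, -, e, he, heZ, het⟩ := h
    obtain ⟨hg', hr', -, e', he', heZ', het'⟩ := h'
    have he0 : e q ≠ 0 := fun h1 => (het.self_of_nhds h1).1 h0
    have he0' : e' q ≠ 0 := fun h1 => (het'.self_of_nhds h1).1 h0'
    have h1 : ∀ᶠ x in 𝓝 q, g x = 0 → g' x = 0 := by
      filter_upwards [heZ, heZ', he'.continuousAt.eventually_ne he0'] with x x1 x2 x3 x4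
      have h2 : eval (S.σ k x).ofLp (RD * Ra) = 0 := x1.2 (by rw [x4, zero_mul])
      exact (mul_eq_zero.1 (x2.1 h2)).resolve_right x3
    obtain ⟨a, ha, hae⟩ := exists_quot_smooth hg h0 (hr.self_of_nhds h0) hg' h1
    refine ⟨a, ha, fun ha0 => ?_, ?_⟩
    · have h3 : g' =ᶠ[𝓝 q] fun x => g x * a x := by
        filter_upwards [hae] with x hx
        rw [hx, smul_eq_mul]
      have h4 := (hg.differentiableAt.hasFDerivAt.mul ha.differentiableAt.hasFDerivAt).congr_of_eventuallyEq h3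
      apply hr'.self_of_nhds h0'
      rw [h4.fderiv]
      refine ContinuousLinearMap.ext fun w => ?_
      simp [h0, ha0]
    · filter_upwards [hae] with x hx
      rw [hx, smul_eq_mul, mul_comm]
  · have h0' := NLoc_ne hq h h' h0
    refine ⟨fun x => g' x / g x, h'.1.fun_div h.1 h0, div_ne_zero h0' h0, ?_⟩
    filter_upwards [h.1.continuousAt.eventually_ne h0] with x hx
    rw [div_mul_cancel₀ _ hx]

/-! ### the vector -/

/-- the vectors with the third coordinate `0` -/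
private def NLoc_emb : ℂ × ℂ →L[ℂ] EN 2 :=
  LinearMap.toContinuousLinearMap
    { toFun := fun a => WithLp.toLp 2 ![a.1, a.2, 0]
      map_add' := fun a b => by
        ext i
        fin_cases i <;> simp
      map_smul' := fun c a => by
        ext i
        fin_cases i <;> simp }

private theorem NLoc_emb_apply (a : ℂ × ℂ) : NLoc_emb a = WithLp.toLp 2 ![a.1, a.2, 0] := rfl

private theorem NLoc_emb_ne {a : ℂ × ℂ} (h : a ≠ 0) : NLoc_emb a ≠ 0 := by
  intro h0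
  rw [NLoc_emb_apply] at h0
  apply h
  have h1 := congrArg (fun x : EN 2 => x.ofLp 0) h0
  have h2 := congrArg (fun x : EN 2 => x.ofLp 1) h0
  exact Prod.ext (by simpa using h1) (by simpa using h2)

theorem nloc_A {k : S.ι} {q : ℂ × ℂ} (hq : RegA S Ra k q) {g : ℂ × ℂ → ℂ} (hg : InvAt S Ra k q g) :
    ∃ L : ℂ × ℂ → EN 2, AnalyticAt ℂ L q ∧ L q ≠ 0 ∧ ∀ᶠ x in 𝓝 q, hA (S.κ k x) (fderiv ℂ (S.κ k) x (S.v k x)) = (jc (S.κ k) x * g x) • L x := by
  obtain ⟨g₀, N, hg₀, hN, hN0, hNe⟩ := nloc_A0 hq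
  obtain ⟨u, hu, hu0, hue⟩ := invAt_unit hq.v_ne hq.mem hg₀ hg
  refine ⟨fun x => (u x)⁻¹ • NLoc_emb (N x), (hu.fun_inv hu0).fun_smul ((NLoc_emb.analyticAt _).fun_comp hN),
    smul_ne_zero (inv_ne_zero hu0) (NLoc_emb_ne hN0), ?_⟩
  filter_upwards [hNe, hue, hu.continuousAt.eventually_ne hu0] with x h1 h2 h3
  have h4 : hA (S.κ k x) (fderiv ℂ (S.κ k) x (S.v k x)) = NLoc_emb (hv2 (S.κ k) (S.v k) x) := rfl
  rw [h4, h1, map_smul, h2, smul_smul]
  congr 1
  field_simp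

end Pool.Agent.MQ3
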