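import Pool.Agent.MQ3.BdL
import Pool.Agent.MQ3.LfN
import Pool.Agent.MQ3.SatN
import Pool.Agent.MQ3.ChgN
import Pool.Agent.MQ3.NLoc
import Pool.Agent.MQ3.NLocB
import Pool.Agent.MQ3.LogN

/-!
# MQ3 BdPN: the potential of a special point and the potentials of the boxes differ by bounded functions

The points of the annulus `s ≤ |x - Q| ≤ r'` are regular: near each of them `nloc_A`, `nloc_B` compare the potential of the chart with the potential of the box of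
the chart, for the vector `hA` or `hB (u ∘ Φ)`, and `BdN.loc` the potentials of two boxes.  Compactness of the annulus times `K k a`.
-/

set_option autoImplicit false

open Topology Filter Metric MvPolynomial MeasureTheory Laplacian

noncomputable section

namespace Pool.Agent.MQ3

open Pool.Agent.H36.BP (EN fs)
open Pool.Agent.H14.PP (Tan)
open Pool.Agent.H17BP (Surface IsForm)
open Pool.Agent.H17EF (projVar coneE)
open Pool.Agent.H30M (tau LogSing)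
open Pool.Agent.MQ (lam En ztv dvg DDv gr dv)

variable {M : ℕ} {P : Ideal (MvPolynomial (Fin (M + 1)) ℂ)} {RD : MvPolynomial (Fin (M + 1)) ℂ} {m : ℕ} {X : NCModel P RD} {θ : WDiff (coneE P) m}
  {l : LF M} {S : Web X θ l} {Ra : MvPolynomial (Fin (M + 1)) ℂ}

namespace BdPN

theorem hA_smul (p w : ℂ × ℂ) (a : ℂ) : hA p (a • w) = a • hA p w := by
  unfold hA
  ext i
  fin_cases i <;> simp <;> ring

theorem hB_smul (u : ℂ × ℂ → ℂ) (p w : ℂ × ℂ) (a : ℂ) : hB u p (a • w) = a • hB u p w := by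
  unfold hB
  ext i
  fin_cases i <;> simp <;> ring

theorem κ_an (S : Web X θ l) (k : S.ι) (q : ℂ × ℂ) : AnalyticAt ℂ (S.κ k) q := analyticAt_mono q

/-- the potential of the chart and the potential of its box -/
theorem chart (Wf : EN M → EN M → EN M → ℂ) (mK jH : ℕ) {k : S.ι} {q : ℂ × ℂ} {g : ℂ × ℂ → ℂ} {H : ℂ × ℂ → ℂ × ℂ → EN 2}
    (hH : ∀ p w (a : ℂ), H p (a • w) = a • H p w) {L : ℂ × ℂ → EN 2} (hL : AnalyticAt ℂ L q) (hL0 : L q ≠ 0)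
    (hHL : ∀ᶠ x in 𝓝 q, H (S.κ k x) (fderiv ℂ (S.κ k) x (S.v k x)) = (jc (S.κ k) x * g x) • L x) :
    ∃ N ∈ 𝓝 q, ∃ B : ℝ, ∀ F : ℂ → EN M, WCrv θ RD F → ∀ Y : NCLift X F, ∀ z ∈ S.Om Y k, S.lf Y k z ∈ N →
      (∀ᶠ w in 𝓝[≠] z, g (S.lf Y k w) ≠ 0) → ∀ᶠ w in 𝓝[≠] z, |eP S g Wf mK jH Y k w - eN H Wf mK jH Y k.1 w| ≤ B := by
  have hLc : ContinuousAt (fun x => Real.log ‖L x‖) q := hL.continuousAt.norm.log (norm_ne_zero_iff.2 hL0)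
  have hev := hHL.and ((hL.continuousAt.eventually_ne hL0).and (hLc.abs.eventually_lt_const (lt_add_one |Real.log ‖L q‖|)))
  refine ⟨_, hev.eventually_nhds, |Real.log ‖L q‖| + 1, ?_⟩
  intro F hF Y z hz hzN hg
  have hcont : Tendsto (S.lf Y k) (𝓝 z) (𝓝 (S.lf Y k z)) := (lfN_an hF Y k z hz).continuousAt
  have hOm : ∀ᶠ w in 𝓝 z, w ∈ S.Om Y k := (Om_open hF Y k).mem_nhds hz
  filter_upwards [(hcont.eventually hzN).filter_mono nhdsWithin_le_nhds, hOm.eventually_nhds.filter_mono nhdsWithin_le_nhds, lfN_ne hF Y k z hz, hg]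
    with w hw hOmw hne hgw
  obtain ⟨w1, w2, w3⟩ := hw
  obtain ⟨n1, n2, n3, n4, n5⟩ := hne
  have hwO := hOmw.self_of_nhds
  have hd := ztv_smul (lfN_tan hF Y k w hwO) n3
  have hpw : Y.p k.1 w = S.κ k (S.lf Y k w) := (lfN_mem hF Y k w hwO).2.symm
  have hp : deriv (Y.p k.1) w = fderiv ℂ (S.κ k) (S.lf Y k w) (deriv (S.lf Y k) w) := by
    rw [EventuallyEq.deriv_eq (show Y.p k.1 =ᶠ[𝓝 w] fun u => S.κ k (S.lf Y k u) from hOmw.mono fun u hu => (lfN_mem hF Y k u hu).2.symm)]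
    exact ((κ_an S k _).differentiableAt.hasFDerivAt.comp_hasDerivAt w (lfN_an hF Y k w hwO).differentiableAt.hasDerivAt).deriv
  have hHw : H (Y.p k.1 w) (deriv (Y.p k.1) w) =
      (ztv (S.v k) (S.lf Y k) w * (jc (S.κ k) (S.lf Y k w) * g (S.lf Y k w))) • L (S.lf Y k w) := by
    rw [hp, hpw, hd, map_smul, hH, w1, smul_smul]
  have z1 : ‖ztv (S.v k) (S.lf Y k) w‖ ≠ 0 := norm_ne_zero_iff.2 n4
  have z2 : ‖jc (S.κ k) (S.lf Y k w)‖ ≠ 0 := norm_ne_zero_iff.2 n5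
  have z3 : ‖g (S.lf Y k w)‖ ≠ 0 := norm_ne_zero_iff.2 hgw
  have z4 : ‖L (S.lf Y k w)‖ ≠ 0 := norm_ne_zero_iff.2 w2
  unfold eP eN eH
  rw [hHw, norm_smul, norm_mul, norm_mul, Real.log_mul (mul_ne_zero z1 (mul_ne_zero z2 z3)) z4, Real.log_mul z1 (mul_ne_zero z2 z3), Real.log_mul z2 z3]
  rw [show Real.log ‖ztv (S.v k) (S.lf Y k) w‖ + Real.log ‖jc (S.κ k) (S.lf Y k w)‖ + Real.log ‖g (S.lf Y k w)‖ + 1 / (mK : ℝ) * Real.log ‖wt Wf Y k.1 w‖ +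
      (jH : ℝ) / mK * Real.log ‖F w‖ - (Real.log ‖ztv (S.v k) (S.lf Y k) w‖ + (Real.log ‖jc (S.κ k) (S.lf Y k w)‖ + Real.log ‖g (S.lf Y k w)‖) +
      Real.log ‖L (S.lf Y k w)‖ + 1 / (mK : ℝ) * Real.log ‖wt Wf Y k.1 w‖ + (jH : ℝ) / mK * Real.log ‖F w‖) = -Real.log ‖L (S.lf Y k w)‖ by ring, abs_neg]
  exact w3.le

theorem comp_ne {L : ℂ × ℂ →L[ℂ] ℂ} {A : ℂ × ℂ →L[ℂ] ℂ × ℂ} (hA : A.det ≠ 0) (hL : L ≠ 0) : L.comp A ≠ 0 := by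
  intro h
  apply hL
  ext1
  all_goals
    refine ContinuousLinearMap.ext fun y => ?_
  · have h1 := (A.toContinuousLinearEquivOfDetNeZero hA).apply_symm_apply ((ContinuousLinearMap.inl ℂ ℂ ℂ) y)
    have h2 := congrArg (fun T : ℂ × ℂ →L[ℂ] ℂ => T ((A.toContinuousLinearEquivOfDetNeZero hA).symm ((ContinuousLinearMap.inl ℂ ℂ ℂ) y))) h
    simp only [ContinuousLinearMap.comp_apply] at h2
    rw [ContinuousLinearMap.toContinuousLinearEquivOfDetNeZero_apply] at h1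
    rw [h1] at h2
    exact h2
  · have h1 := (A.toContinuousLinearEquivOfDetNeZero hA).apply_symm_apply ((ContinuousLinearMap.inr ℂ ℂ ℂ) y)
    have h2 := congrArg (fun T : ℂ × ℂ →L[ℂ] ℂ => T ((A.toContinuousLinearEquivOfDetNeZero hA).symm ((ContinuousLinearMap.inr ℂ ℂ ℂ) y))) h
    simp only [ContinuousLinearMap.comp_apply] at h2
    rw [ContinuousLinearMap.toContinuousLinearEquivOfDetNeZero_apply] at h1
    rw [h1] at h2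
    exact h2

/-- the vector of the box `k`, seen in the chart of the special point `j` -/
theorem vec {dD dR : ℕ} (hd : RD.IsHomogeneous dD) (hdR : Ra.IsHomogeneous dR) (C : Cov S Ra) {g : Fin C.nP → ℂ × ℂ → ℂ} (hg : PG C g) (j : Fin C.nP)
    (k : Fin C.nN) (a : (S.V (C.b k)).ι) {q q' : ℂ × ℂ} (hq : q ∈ closedBall (C.Q j) (C.r j)) (hqQ : q ≠ C.Q j) (hq' : q' ∈ C.K k a)
    {Φ : ℂ × ℂ → ℂ × ℂ} (hΦ : Chg X (C.ck j).1 (C.b k) Φ (S.κ (C.ck j) q)) (h0 : Φ (S.κ (C.ck j) q) = S.κ ⟨C.b k, a⟩ q') :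
    ∃ H : ℂ × ℂ → ℂ × ℂ → EN 2, (∀ p w (a : ℂ), H p (a • w) = a • H p w) ∧ VRel H (C.H k) Φ (S.κ (C.ck j) q) ∧
      ∃ L : ℂ × ℂ → EN 2, AnalyticAt ℂ L q ∧ L q ≠ 0 ∧
        ∀ᶠ x in 𝓝 q, H (S.κ (C.ck j) x) (fderiv ℂ (S.κ (C.ck j)) x (S.v (C.ck j) x)) = (jc (S.κ (C.ck j)) x * g j x) • L x := by
  have hqD : q ∈ S.D (C.ck j) := C.P_sub j hq
  have hReg := C.P_reg j q hq hqQ
  have hInv := hg.inv j q hq hqQ
  obtain ⟨c, hc0, hc⟩ := hΦ.eq.self_of_nhds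
  rw [h0] at hc
  have hσ : S.σ (C.ck j) q = c • S.σ ⟨C.b k, a⟩ q' := hc
  have hRDiff : eval (S.σ (C.ck j) q).ofLp RD = 0 ↔ eval (S.σ ⟨C.b k, a⟩ q').ofLp RD = 0 := by
    rw [hσ]
    exact BdN.eval_smul_hom hd hc0 _
  have hRaiff : eval (S.σ (C.ck j) q).ofLp Ra = 0 ↔ eval (S.σ ⟨C.b k, a⟩ q').ofLp Ra = 0 := by
    rw [hσ]
    exact BdN.eval_smul_hom hdR hc0 _
  rcases hu : C.u k with _ | u'
  · -- type A
    have hA' := (C.K_A k a hu q' hq').1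
    have hA0 : RegA S Ra (C.ck j) q := by
      rcases hReg with hA0 | hB0
      · exact hA0
      · exfalso
        have e0 : eval (S.σ (C.ck j) q).ofLp RD ≠ 0 := fun h => hB0.ne ((zero_iff _ q hB0.mem).1 h)
        have e1 : q'.1 * q'.2 ≠ 0 := fun h => e0 (hRDiff.2 ((zero_iff _ q' hA'.mem).2 h))
        have e2 := hA'.alg.self_of_nhds e1
        obtain ⟨G, -, hG0, -, hiff, -⟩ := hB0.crv
        exact e2 (hRaiff.1 (hiff.self_of_nhds.2 hG0))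
    refine ⟨hA, hA_smul, ?_, nloc_A hA0 hInv⟩
    have hH : C.H k = hA := by
      unfold Cov.H
      rw [hu]
      rfl
    rw [hH]
    exact vrel_A ⟨dD, hd⟩ hΦ
  · -- type B
    obtain ⟨-, hcb⟩ := C.K_B k a u' hu q' hq'
    obtain ⟨hDS, hu'an, hN⟩ := C.N_B k u' hu
    have e0 : eval (S.σ ⟨C.b k, a⟩ q').ofLp RD ≠ 0 := X.good _ _ (hDS hcb)
    have e1 : q.1 * q.2 ≠ 0 := fun h => e0 (hRDiff.1 ((zero_iff _ q hqD).2 h))
    have hu'a : AnalyticAt ℂ u' (Φ (S.κ (C.ck j) q)) := by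
      rw [h0]
      exact hu'an _ hcb
    have hua : AnalyticAt ℂ (fun x => u' (Φ x)) (S.κ (C.ck j) q) := AnalyticAt.fun_comp (g := u') (f := Φ) hu'a hΦ.an
    have hNΦ := hN _ hcb
    rw [← h0] at hNΦ
    have hev : ∀ᶠ p in 𝓝 (S.κ (C.ck j) q), (eval (X.ρ (C.ck j).1 p).ofLp Ra = 0 ↔ u' (Φ p) = 0) ∧ (u' (Φ p) = 0 → fderiv ℂ (fun x => u' (Φ x)) p ≠ 0) := by
      filter_upwards [hΦ.an.continuousAt.eventually hNΦ, BdN.Chg.ev hΦ, hΦ.an.continuousAt.eventually hu'a.eventually_analyticAt] with p hp1 hp2 hp3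
      obtain ⟨c', hc0', hc'⟩ := hp2.eq.self_of_nhds
      refine ⟨?_, fun h => ?_⟩
      · rw [hc', BdN.eval_smul_hom hdR hc0']
        exact hp1.1
      · have e2 : fderiv ℂ (fun x => u' (Φ x)) p = (fderiv ℂ u' (Φ p)).comp (fderiv ℂ Φ p) :=
          (hp3.differentiableAt.hasFDerivAt.comp p hp2.an.differentiableAt.hasFDerivAt).fderiv
        rw [e2]
        exact comp_ne hp2.det (hp1.2 h)
    refine ⟨hB fun x => u' (Φ x), hB_smul _, ?_, nloc_B hReg e1 hua hev hInv⟩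
    have hH : C.H k = hB u' := by
      unfold Cov.H
      rw [hu]
      rfl
    rw [hH]
    exact vrel_B hΦ hua hu'a (hev.mono fun p hp => hp.2) (hNΦ.mono fun p hp => hp.2) (Eventually.of_forall fun p => Iff.rfl)

/-- the local bound for a pair of chart points -/
theorem pair {Wf : EN M → EN M → EN M → ℂ} {mK jH : ℕ} (hX : Surface (coneE P)) (hm : 1 ≤ mK) (hW : IsForm (coneE P) mK jH Wf)
    {dD dR : ℕ} (hd : RD.IsHomogeneous dD) (hdR : Ra.IsHomogeneous dR) (C : Cov S Ra) {g : Fin C.nP → ℂ × ℂ → ℂ} (hg : PG C g) (j : Fin C.nP)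
    (k : Fin C.nN) (a : (S.V (C.b k)).ι) {q q' : ℂ × ℂ} (hq : q ∈ closedBall (C.Q j) (C.r j)) (hqQ : q ≠ C.Q j) (hq' : q' ∈ C.K k a) :
    ∃ N ∈ 𝓝 (q, q'), ∃ B : ℝ, ∀ F : ℂ → EN M, RCrv θ RD Ra F → ∀ Y : NCLift X F, ∀ z, z ∈ S.Om Y (C.ck j) → z ∈ S.Om Y ⟨C.b k, a⟩ →
      (S.lf Y (C.ck j) z, S.lf Y ⟨C.b k, a⟩ z) ∈ N → (∀ᶠ w in 𝓝[≠] z, g j (S.lf Y (C.ck j) w) ≠ 0) →
        ∀ᶠ w in 𝓝[≠] z, |eP S (g j) Wf mK jH Y (C.ck j) w - eN (C.H k) Wf mK jH Y (C.b k) w| ≤ B := by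
  have hqD : q ∈ S.D (C.ck j) := C.P_sub j hq
  have hq'D : q' ∈ S.D ⟨C.b k, a⟩ := by
    rcases hu : C.u k with _ | u'
    · exact (C.K_A k a hu q' hq').1.mem
    · rcases (C.K_B k a u' hu q' hq').1 with h | h
      · exact h.mem
      · exact h.mem
  have hκ : Continuous fun x : (ℂ × ℂ) × (ℂ × ℂ) => (S.κ (C.ck j) x.1, S.κ ⟨C.b k, a⟩ x.2) :=
    ((BdN.κ_cont S (C.ck j)).comp continuous_fst).prodMk ((BdN.κ_cont S ⟨C.b k, a⟩).comp continuous_snd)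
  by_cases hr : X.rel (C.ck j).1 (S.κ (C.ck j) q) (C.b k) (S.κ ⟨C.b k, a⟩ q')
  · obtain ⟨Φ, h1, h2, h3, h4, h5⟩ := X.iso _ _ _ hqD.2 _ hq'D.2 hr
    have hΦ : Chg X (C.ck j).1 (C.b k) Φ (S.κ (C.ck j) q) := ⟨hqD.2, by rw [h2]; exact hq'D.2, h1, h3, h4, h5⟩
    obtain ⟨H, hH, hV, L, hL, hL0, hHL⟩ := vec hd hdR C hg j k a hq hqQ hq' hΦ h2
    obtain ⟨N₁, hN₁, B₁, hB₁⟩ := BdN.loc (jH := jH) hX hm hW hΦ hV
    obtain ⟨N₂, hN₂, B₂, hB₂⟩ := chart Wf mK jH hH hL hL0 hHL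
    have hN₁' : ∀ᶠ x in 𝓝 q, N₁ ∈ 𝓝 (S.κ (C.ck j) x) :=
      (BdN.κ_cont S (C.ck j)).continuousAt.eventually (eventually_mem_nhds_iff.2 hN₁)
    refine ⟨(N₂ ∩ {x | N₁ ∈ 𝓝 (S.κ (C.ck j) x)}) ×ˢ Set.univ, prod_mem_nhds (inter_mem hN₂ hN₁') univ_mem, B₂ + B₁, ?_⟩
    rintro F hF Y z hz hz' ⟨⟨hzN₂, hzN₁⟩, -⟩ hgn
    have hzU : z ∈ Y.U (C.ck j).1 := Om_sub hF.toWCrv Y (C.ck j) hz
    have hzU' : z ∈ Y.U (C.b k) := Om_sub hF.toWCrv Y ⟨C.b k, a⟩ hz'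
    have hpz : S.κ (C.ck j) (S.lf Y (C.ck j) z) = Y.p (C.ck j).1 z := (lfN_mem hF.toWCrv Y (C.ck j) z hz).2
    have hzN : N₁ ∈ 𝓝 (Y.p (C.ck j).1 z) := by
      rw [← hpz]
      exact hzN₁
    have hU₁ : ∀ᶠ w in 𝓝 z, w ∈ Y.U (C.ck j).1 := (Y.isOpen _).mem_nhds hzU
    have hU₂ : ∀ᶠ w in 𝓝 z, w ∈ Y.U (C.b k) := (Y.isOpen _).mem_nhds hzU'
    filter_upwards [hB₂ F hF.toWCrv Y z hz hzN₂ hgn, ((Y.an _ z hzU).continuousAt.eventually hzN).filter_mono nhdsWithin_le_nhds,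
      hU₁.filter_mono nhdsWithin_le_nhds, hU₂.filter_mono nhdsWithin_le_nhds] with w w1 w2 w3 w4
    have w5 := hB₁ F hF.diff Y w w3 w4 w2
    exact (abs_sub_le _ _ _).trans (add_le_add w1 w5)
  · refine ⟨_, hκ.continuousAt.eventually (X.sep _ _ _ hqD.2 _ hq'D.2 hr), 0, ?_⟩
    intro F hF Y z hz hz' hzN
    exfalso
    have hzU : z ∈ Y.U (C.ck j).1 := Om_sub hF.toWCrv Y (C.ck j) hz
    have hzU' : z ∈ Y.U (C.b k) := Om_sub hF.toWCrv Y ⟨C.b k, a⟩ hz'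
    have e1 : S.κ (C.ck j) (S.lf Y (C.ck j) z) = Y.p (C.ck j).1 z := (lfN_mem hF.toWCrv Y (C.ck j) z hz).2
    have e2 : S.κ ⟨C.b k, a⟩ (S.lf Y ⟨C.b k, a⟩ z) = Y.p (C.b k) z := (lfN_mem hF.toWCrv Y ⟨C.b k, a⟩ z hz').2
    have hzN' : ¬ X.rel (C.ck j).1 (S.κ (C.ck j) (S.lf Y (C.ck j) z)) (C.b k) (S.κ ⟨C.b k, a⟩ (S.lf Y ⟨C.b k, a⟩ z)) := hzN
    rw [e1, e2] at hzN'
    exact hzN' (Y.rel _ _ z hzU hzU')

end BdPN

theorem bd_PN {Wf : EN M → EN M → EN M → ℂ} {mK jH : ℕ} (hX : Surface (coneE P)) (hm : 1 ≤ mK) (hW : IsForm (coneE P) mK jH Wf) (C : Cov S Ra)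
    {g : Fin C.nP → ℂ × ℂ → ℂ} (hg : PG C g) (j : Fin C.nP) (k : Fin C.nN) {r' : ℝ} (hr' : r' < C.r j) :
    ∃ B : ℝ, ∀ F : ℂ → EN M, RCrv θ RD Ra F → ∀ Y : NCLift X F, WNe Wf Y → ∀ z ∈ C.UP Y j, z ∈ C.UN Y k →
      S.lf Y (C.ck j) z ∈ closedBall (C.Q j) r' →
      ContDiffAt ℝ 2 (eP S (g j) Wf mK jH Y (C.ck j)) z → ContDiffAt ℝ 2 (eN (C.H k) Wf mK jH Y (C.b k)) z →
        |eP S (g j) Wf mK jH Y (C.ck j) z - eN (C.H k) Wf mK jH Y (C.b k) z| ≤ B := by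
  classical
  by_cases hex : ∃ F : ℂ → EN M, RCrv θ RD Ra F
  · obtain ⟨F₀, hF₀⟩ := hex
    obtain ⟨dD, hd⟩ := hF₀.hom
    obtain ⟨dR, hdR⟩ := hF₀.homR
    -- compactness
    have hcomp : ∀ a : (S.V (C.b k)).ι, ∃ B : ℝ, ∀ F : ℂ → EN M, RCrv θ RD Ra F → ∀ Y : NCLift X F, ∀ z, z ∈ S.Om Y (C.ck j) → z ∈ S.Om Y ⟨C.b k, a⟩ →
        (S.lf Y (C.ck j) z, S.lf Y ⟨C.b k, a⟩ z) ∈ (closedBall (C.Q j) r' \ ball (C.Q j) (C.s j)) ×ˢ C.K k a →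
        (∀ᶠ w in 𝓝[≠] z, g j (S.lf Y (C.ck j) w) ≠ 0) →
          ∀ᶠ w in 𝓝[≠] z, |eP S (g j) Wf mK jH Y (C.ck j) w - eN (C.H k) Wf mK jH Y (C.b k) w| ≤ B := by
      intro a
      have hc : IsCompact ((closedBall (C.Q j) r' \ ball (C.Q j) (C.s j)) ×ˢ C.K k a) :=
        ((isCompact_closedBall _ _).diff isOpen_ball).prod (C.K_compact k a)
      refine hc.induction_on (p := fun s => ∃ B : ℝ, ∀ F : ℂ → EN M, RCrv θ RD Ra F → ∀ Y : NCLift X F, ∀ z, z ∈ S.Om Y (C.ck j) → z ∈ S.Om Y ⟨C.b k, a⟩ →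
        (S.lf Y (C.ck j) z, S.lf Y ⟨C.b k, a⟩ z) ∈ s → (∀ᶠ w in 𝓝[≠] z, g j (S.lf Y (C.ck j) w) ≠ 0) →
          ∀ᶠ w in 𝓝[≠] z, |eP S (g j) Wf mK jH Y (C.ck j) w - eN (C.H k) Wf mK jH Y (C.b k) w| ≤ B) ?_ ?_ ?_ ?_
      · exact ⟨0, fun F hF Y z hz hz' h => absurd h (Set.notMem_empty _)⟩
      · rintro s t hst ⟨B, hB⟩
        exact ⟨B, fun F hF Y z hz hz' h => hB F hF Y z hz hz' (hst h)⟩
      · rintro s t ⟨B, hB⟩ ⟨B', hB'⟩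
        refine ⟨max B B', fun F hF Y z hz hz' h hgn => ?_⟩
        rcases h with h | h
        · exact (hB F hF Y z hz hz' h hgn).mono fun w hw => hw.trans (le_max_left _ _)
        · exact (hB' F hF Y z hz hz' h hgn).mono fun w hw => hw.trans (le_max_right _ _)
      · rintro ⟨q, q'⟩ ⟨⟨h1, h2⟩, h3⟩
        have h4 : q ∈ closedBall (C.Q j) (C.r j) := closedBall_subset_closedBall hr'.le h1
        have h5 : q ≠ C.Q j := by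
          rintro rfl
          exact h2 (mem_ball_self (C.s_pos j))
        obtain ⟨N, hN, B, hB⟩ := BdPN.pair (jH := jH) hX hm hW hd hdR C hg j k a h4 h5 h3
        exact ⟨N, mem_nhdsWithin_of_mem_nhds hN, B, hB⟩
    choose B hB using hcomp
    refine ⟨∑ a, |B a|, fun F hF Y hne z hzP hzN hzr hcP hcN => ?_⟩
    obtain ⟨hzO, hzb⟩ := hzP
    obtain ⟨hzU, hzt, hzc⟩ := hzN
    obtain ⟨a, ha, ha'⟩ := C.lift F hF.toWCrv Y k z hzU (ball_subset_closedBall hzt) (fun i hi hi' => hzc i ⟨hi, ball_subset_closedBall hi'⟩)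
    have hnb : S.lf Y (C.ck j) z ∉ ball (C.Q j) (C.s j) := fun h => hzc j ⟨hzO, ball_subset_closedBall h⟩
    have hgn := g_ne C hg j hF Y z ⟨hzO, hzb⟩
    have h1 := hB a F hF Y z hzO ha ⟨⟨hzr, hnb⟩, ha'⟩ hgn
    have h2 : Tendsto (fun w => |eP S (g j) Wf mK jH Y (C.ck j) w - eN (C.H k) Wf mK jH Y (C.b k) w|) (𝓝[≠] z)
        (𝓝 |eP S (g j) Wf mK jH Y (C.ck j) z - eN (C.H k) Wf mK jH Y (C.b k) z|) :=
      ((hcP.continuousAt.sub hcN.continuousAt).abs).tendsto.mono_left nhdsWithin_le_nhds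
    have h3 := le_of_tendsto h2 h1
    exact h3.trans ((le_abs_self _).trans (Finset.single_le_sum (f := fun a => |B a|) (fun _ _ => abs_nonneg _) (Finset.mem_univ a)))
  · exact ⟨0, fun F hF => absurd ⟨F, hF⟩ hex⟩

end Pool.Agent.MQ3
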