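import Pool.Agent.MQ3.LfN

/-!
# MQ3 CutN: the cut-offs of the cover
-/

set_option autoImplicit false

open Topology Filter Metric MvPolynomial MeasureTheory Laplacian

noncomputable section

namespace Pool.Agent.MQ3

open Pool.Agent.H36.BP (EN fs)
open Pool.Agent.H14.PP (Tan)
open Pool.Agent.H17BP (Surface IsForm)
open Pool.Agent.H17EF (projVar coneE)
open Pool.Agent.H30M (tau LogSing rhoR)
open Pool.Agent.MQ (lam En ztv dvg DDv gr dv)

variable {M : ℕ} {P : Ideal (MvPolynomial (Fin (M + 1)) ℂ)} {RD : MvPolynomial (Fin (M + 1)) ℂ} {m : ℕ} {X : NCModel P RD} {θ : WDiff (coneE P) m}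
  {l : LF M} {S : Web X θ l} {Ra : MvPolynomial (Fin (M + 1)) ℂ}

/-! ## a cut-off along a curve -/

open Classical in
/-- the function `h` along the curve, extended by `0` -/
def cn (U : Set ℂ) (q : ℂ → ℂ × ℂ) (h : ℂ × ℂ → ℝ) (z : ℂ) : ℝ := if z ∈ U then h (q z) else 0

section

variable {U : Set ℂ} {q : ℂ → ℂ × ℂ} {h : ℂ × ℂ → ℝ} {c : ℂ × ℂ} {b : ℝ}

theorem cn_of_mem {z : ℂ} (hz : z ∈ U) : cn U q h z = h (q z) := if_pos hz

theorem cn_ne {z : ℂ} (hz : cn U q h z ≠ 0) : z ∈ U ∧ h (q z) ≠ 0 := by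
  unfold cn at hz
  by_cases h1 : z ∈ U
  · rw [if_pos h1] at hz
    exact ⟨h1, hz⟩
  · rw [if_neg h1] at hz
    exact absurd rfl hz

theorem cn_nonneg (hh : ∀ x, 0 ≤ h x) (z : ℂ) : 0 ≤ cn U q h z := by
  unfold cn
  split_ifs
  · exact hh _
  · exact le_rfl

theorem cn_le_one (hh : ∀ x, h x ≤ 1) (z : ℂ) : cn U q h z ≤ 1 := by
  unfold cn
  split_ifs
  · exact hh _
  · exact zero_le_one

theorem cn_supp (hs : Function.support h ⊆ closedBall c b) (hcl : IsClosed {z | z ∈ U ∧ q z ∈ closedBall c b}) :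
    tsupport (cn U q h) ⊆ {z | z ∈ U ∧ q z ∈ closedBall c b} := by
  refine closure_minimal (fun z hz => ?_) hcl
  obtain ⟨h1, h2⟩ := cn_ne (Function.mem_support.1 hz)
  exact ⟨h1, hs (Function.mem_support.2 h2)⟩

theorem cn_zero (hs : Function.support h ⊆ closedBall c b) (hcl : IsClosed {z | z ∈ U ∧ q z ∈ closedBall c b}) {z : ℂ}
    (hz : ¬ (z ∈ U ∧ q z ∈ closedBall c b)) : cn U q h =ᶠ[𝓝 z] 0 :=
  notMem_tsupport_iff_eventuallyEq.1 fun h1 => hz (cn_supp hs hcl h1)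

theorem cn_near (hU : IsOpen U) {z : ℂ} (hz : z ∈ U) : cn U q h =ᶠ[𝓝 z] fun w => h (q w) := by
  filter_upwards [hU.mem_nhds hz] with w hw
  exact cn_of_mem hw

theorem cn_cd (hU : IsOpen U) (hq : ∀ z ∈ U, AnalyticAt ℂ q z) (hh : ContDiff ℝ 2 h) (hs : Function.support h ⊆ closedBall c b)
    (hcl : IsClosed {z | z ∈ U ∧ q z ∈ closedBall c b}) : ContDiff ℝ 2 (cn U q h) := by
  rw [contDiff_iff_contDiffAt]
  intro z
  by_cases hz : z ∈ U ∧ q z ∈ closedBall c b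
  · refine ContDiffAt.congr_of_eventuallyEq ?_ (cn_near hU hz.1)
    exact ContDiffAt.comp (g := h) z hh.contDiffAt (((hq z hz.1).contDiffAt (n := 2)).restrict_scalars ℝ)
  · exact contDiffAt_const.congr_of_eventuallyEq (cn_zero hs hcl hz)

/-- the bound of the derivative -/
theorem cn_fderiv (hh : ContDiff ℝ 2 h) (hs : Function.support h ⊆ closedBall c b) : ∃ K : ℝ, 0 ≤ K ∧ ∀ (U : Set ℂ) (q : ℂ → ℂ × ℂ) (l : ℂ → ℝ), IsOpen U →
    (∀ z ∈ U, AnalyticAt ℂ q z) → IsClosed {z | z ∈ U ∧ q z ∈ closedBall c b} → (∀ z, 0 ≤ l z) →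
    (∀ z ∈ U, q z ∈ closedBall c b → ‖deriv q z‖ ≤ l z) → ∀ z, ‖fderiv ℝ (cn U q h) z‖ ≤ K * l z := by
  have hcs : HasCompactSupport h := HasCompactSupport.intro (isCompact_closedBall c b) fun x hx => by
    by_contra h1
    exact hx (hs h1)
  obtain ⟨K, hK⟩ := (hcs.fderiv ℝ).exists_bound_of_continuous (hh.continuous_fderiv (by norm_num))
  have hK0 : 0 ≤ K := (norm_nonneg _).trans (hK 0)
  refine ⟨K, hK0, fun U q l hU hq hcl hl hl' z => ?_⟩
  by_cases hz : z ∈ U ∧ q z ∈ closedBall c b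
  · rw [(cn_near hU hz.1).fderiv_eq]
    have h1 : HasFDerivAt q ((fderiv ℂ q z).restrictScalars ℝ) z := (hq z hz.1).differentiableAt.hasFDerivAt.restrictScalars ℝ
    have h2 : HasFDerivAt h (fderiv ℝ h (q z)) (q z) := (hh.differentiable (by norm_num) _).hasFDerivAt
    rw [show fderiv ℝ (fun w => h (q w)) z = (fderiv ℝ h (q z)).comp ((fderiv ℂ q z).restrictScalars ℝ) from (h2.comp z h1).fderiv]
    refine (ContinuousLinearMap.opNorm_comp_le _ _).trans ?_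
    rw [ContinuousLinearMap.norm_restrictScalars, ← norm_deriv_eq_norm_fderiv]
    exact mul_le_mul (hK _) (hl' z hz.1 hz.2) (norm_nonneg _) hK0
  · rw [(cn_zero hs hcl hz).fderiv_eq]
    have : fderiv ℝ (0 : ℂ → ℝ) z = 0 := fderiv_const_apply (0 : ℝ)
    rw [this, norm_zero]
    exact mul_nonneg hK0 (hl z)

end

/-- `gr` and the derivative -/
theorem norm_gr_le_two (u : ℂ → ℝ) (z : ℂ) : ‖gr u z‖ ≤ 2 * ‖fderiv ℝ u z‖ := by
  have h1 : ‖fderiv ℝ u z 1‖ ≤ ‖fderiv ℝ u z‖ := by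
    have := (fderiv ℝ u z).le_opNorm 1
    rwa [norm_one, mul_one] at this
  have h2 : ‖fderiv ℝ u z Complex.I‖ ≤ ‖fderiv ℝ u z‖ := by
    have := (fderiv ℝ u z).le_opNorm Complex.I
    rwa [Complex.norm_I, mul_one] at this
  have h3 := Complex.norm_le_abs_re_add_abs_im (gr u z)
  unfold gr at h3 ⊢
  rw [Real.norm_eq_abs] at h1 h2
  simp only at h3
  linarith

/-- a smooth function which is `1` on the small ball and whose support is the large ball -/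
theorem exists_bmp (c : ℂ × ℂ) {a b : ℝ} (ha : 0 < a) (hab : a < b) : ∃ h : ℂ × ℂ → ℝ, ContDiff ℝ 2 h ∧ (∀ x, 0 ≤ h x) ∧ (∀ x, h x ≤ 1) ∧
    (∀ x ∈ closedBall c a, h x = 1) ∧ Function.support h = ball c b := by
  let f : ContDiffBump c := ⟨a, b, ha, hab⟩
  exact ⟨f, f.contDiff, fun x => f.nonneg, fun x => f.le_one, fun x hx => f.one_of_mem_closedBall hx, f.support_eq⟩

/-! ## the cut-offs -/

/-- the open sets of the cover -/
def UU (C : Cov S Ra) {F : ℂ → EN M} (Y : NCLift X F) : Fin C.nP ⊕ Fin C.nN → Set ℂ := Sum.elim (C.UP Y) (C.UN Y)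

/-- MODULE CutN -/
theorem exists_cut (C : Cov S Ra) : ∃ (B : ℝ) (r' : Fin C.nP → ℝ), (∀ j, C.s j < r' j ∧ r' j < C.r j) ∧ ∀ F : ℂ → EN M, WCrv θ RD F →
    ∀ Y : NCLift X F, ∀ (A : ℝ) (lm : ℂ → ℝ), Dens C Y A lm → ∃ χ : Fin C.nP ⊕ Fin C.nN → ℂ → ℝ, (∀ i, ContDiff ℝ 2 (χ i)) ∧ (∀ i z, 0 ≤ χ i z ∧ χ i z ≤ 1) ∧
      (∀ i, tsupport (χ i) ⊆ UU C Y i) ∧ (∀ i z, ‖gr (χ i) z‖ ≤ B * lm z) ∧ (∀ z, ∃ i, χ i z = 1) ∧
      (∀ j, ∀ z ∈ tsupport (χ (Sum.inl j)), S.lf Y (C.ck j) z ∈ closedBall (C.Q j) (r' j)) ∧ ∀ j, ∀ z ∈ C.core Y j, χ (Sum.inl j) z = 1 := by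
  have hs := C.s_pos
  have hsr := C.s_lt
  have ht := C.t_pos
  -- radii
  set a : Fin C.nP → ℝ := fun j => C.s j + (C.r j - C.s j) / 4 with ha
  set b : Fin C.nP → ℝ := fun j => C.s j + (C.r j - C.s j) / 2 with hb
  set r' : Fin C.nP → ℝ := fun j => C.s j + 3 * (C.r j - C.s j) / 4 with hr'
  have hsa : ∀ j, C.s j < a j := fun j => by simp only [ha]; linarith [hsr j]
  have hab : ∀ j, a j < b j := fun j => by simp only [ha, hb]; linarith [hsr j]
  have hbr : ∀ j, b j < r' j := fun j => by simp only [hb, hr']; linarith [hsr j]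
  have hrr : ∀ j, r' j < C.r j := fun j => by simp only [hr']; linarith [hsr j]
  -- the functions
  choose hψ cψ nψ oψ iψ sψ using fun j => exists_bmp (C.Q j) (a := a j) (b := b j) ((hs j).trans (hsa j)) (hab j)
  choose hχ cχ nχ oχ iχ sχ using fun j => exists_bmp (C.Q j) (a := b j) (b := r' j) ((hs j).trans ((hsa j).trans (hab j))) (hbr j)
  choose hζ cζ nζ oζ iζ sζ using fun k => exists_bmp (C.y k) (a := C.t k / 4) (b := C.t k / 2) (by linarith [ht k]) (by linarith [ht k])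
  have sψ' : ∀ j, Function.support (hψ j) ⊆ closedBall (C.Q j) (b j) := fun j => by rw [sψ]; exact ball_subset_closedBall
  have sχ' : ∀ j, Function.support (hχ j) ⊆ closedBall (C.Q j) (r' j) := fun j => by rw [sχ]; exact ball_subset_closedBall
  have sζ' : ∀ k, Function.support (hζ k) ⊆ closedBall (C.y k) (C.t k / 2) := fun k => by rw [sζ]; exact ball_subset_closedBall
  choose Kψ kψ0 kψ using fun j => cn_fderiv (cψ j) (sψ' j)
  choose Kχ kχ0 kχ using fun j => cn_fderiv (cχ j) (sχ' j)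
  choose Kζ kζ0 kζ using fun k => cn_fderiv (cζ k) (sζ' k)
  refine ⟨2 * (∑ j, Kχ j + (∑ k, Kζ k + ∑ j, Kψ j)), r', fun j => ⟨(hsa j).trans ((hab j).trans (hbr j)), hrr j⟩, ?_⟩
  intro F hF Y A lm hl
  have hl0 : ∀ z, 0 ≤ lm z := fun z => (show (0 : ℝ) ≤ lam F z from div_nonneg (Real.sqrt_nonneg _) (by positivity)).trans (hl.le z)
  -- closed sets
  have hsubP : ∀ j (t : ℝ), t < C.r j → closedBall (C.Q j) t ⊆ closedBall (C.Q j) (C.r j) := fun j t h => closedBall_subset_closedBall h.le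
  have hclP : ∀ j (t : ℝ), t < C.r j → IsClosed {z | z ∈ S.Om Y (C.ck j) ∧ S.lf Y (C.ck j) z ∈ closedBall (C.Q j) t} := fun j t h =>
    lfN_closed hF Y (C.ck j) (isCompact_closedBall _ _) ((hsubP j t h).trans (C.P_sub j))
  have hclN : ∀ k, IsClosed {z | z ∈ Y.U (C.b k) ∧ Y.p (C.b k) z ∈ closedBall (C.y k) (C.t k / 2)} := fun k =>
    Y.closed (C.b k) _ ((closedBall_subset_closedBall (by linarith [ht k])).trans (C.N_sub k)) (isCompact_closedBall _ _)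
  have hbr' : ∀ j, b j < C.r j := fun j => (hbr j).trans (hrr j)
  -- the cut-offs
  set ψ : Fin C.nP → ℂ → ℝ := fun j => cn (S.Om Y (C.ck j)) (S.lf Y (C.ck j)) (hψ j) with hψd
  set χP : Fin C.nP → ℂ → ℝ := fun j => cn (S.Om Y (C.ck j)) (S.lf Y (C.ck j)) (hχ j) with hχd
  set ζ : Fin C.nN → ℂ → ℝ := fun k => cn (Y.U (C.b k)) (Y.p (C.b k)) (hζ k) with hζd
  have ψcd : ∀ j, ContDiff ℝ 2 (ψ j) := fun j => cn_cd (Om_open hF Y _) (lfN_an hF Y _) (cψ j) (sψ' j) (hclP j _ (hbr' j))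
  have χcd : ∀ j, ContDiff ℝ 2 (χP j) := fun j => cn_cd (Om_open hF Y _) (lfN_an hF Y _) (cχ j) (sχ' j) (hclP j _ (hrr j))
  have ζcd : ∀ k, ContDiff ℝ 2 (ζ k) := fun k => cn_cd (Y.isOpen _) (Y.an _) (cζ k) (sζ' k) (hclN k)
  have ψ0 : ∀ j z, 0 ≤ ψ j z := fun j z => cn_nonneg (nψ j) z
  have ψ1 : ∀ j z, ψ j z ≤ 1 := fun j z => cn_le_one (oψ j) z
  -- the sum of the functions `ψ`
  have hdisj : ∀ z j j', ψ j z ≠ 0 → j' ≠ j → ψ j' z = 0 := by
    intro z j j' h1 h2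
    by_contra h3
    obtain ⟨g1, g2⟩ := cn_ne h1
    obtain ⟨g3, g4⟩ := cn_ne h3
    exact C.disj F hF Y j j' h2.symm z g1 (hsubP j _ (hbr' j) (sψ' j (Function.mem_support.2 g2))) g3
      (hsubP j' _ (hbr' j') (sψ' j' (Function.mem_support.2 g4)))
  have hsum : ∀ z, (∑ j, ψ j z) ≤ 1 := by
    intro z
    by_cases h : ∃ j, ψ j z ≠ 0
    · obtain ⟨j, hj⟩ := h
      rw [Finset.sum_eq_single j (fun j' _ h => hdisj z j j' hj h) (fun h => absurd (Finset.mem_univ j) h)]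
      exact ψ1 j z
    · push Not at h
      rw [Finset.sum_eq_zero fun j _ => h j]
      exact zero_le_one
  have hsum0 : ∀ z, 0 ≤ ∑ j, ψ j z := fun z => Finset.sum_nonneg fun j _ => ψ0 j z
  set χN : Fin C.nN → ℂ → ℝ := fun k z => ζ k z * (1 - ∑ j, ψ j z) with hχN
  have hSd : ContDiff ℝ 2 fun z => ∑ j, ψ j z := ContDiff.sum fun j _ => ψcd j
  have χNcd : ∀ k, ContDiff ℝ 2 (χN k) := fun k => (ζcd k).mul (contDiff_const.sub hSd)
  -- derivatives
  have dψ : ∀ j z, ‖fderiv ℝ (ψ j) z‖ ≤ Kψ j * lm z := fun j =>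
    kψ j _ _ lm (Om_open hF Y _) (lfN_an hF Y _) (hclP j _ (hbr' j)) hl0 fun z hz h => hl.pt j z hz (hsubP j _ (hbr' j) h)
  have dχ : ∀ j z, ‖fderiv ℝ (χP j) z‖ ≤ Kχ j * lm z := fun j =>
    kχ j _ _ lm (Om_open hF Y _) (lfN_an hF Y _) (hclP j _ (hrr j)) hl0 fun z hz h => hl.pt j z hz (hsubP j _ (hrr j) h)
  have dζ : ∀ k z, ‖fderiv ℝ (ζ k) z‖ ≤ Kζ k * lm z := fun k =>
    kζ k _ _ lm (Y.isOpen _) (Y.an _) (hclN k) hl0 fun z hz h => hl.box k z hz (closedBall_subset_closedBall (by linarith [ht k]) h)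
  have dN : ∀ k z, ‖fderiv ℝ (χN k) z‖ ≤ (Kζ k + ∑ j, Kψ j) * lm z := by
    intro k z
    have e1 : HasFDerivAt (fun z => ∑ j, ψ j z) (∑ j, fderiv ℝ (ψ j) z) z :=
      HasFDerivAt.fun_sum fun j _ => ((ψcd j).differentiable (by norm_num) z).hasFDerivAt
    have e2 := ((ζcd k).differentiable (by norm_num) z).hasFDerivAt.mul (e1.const_sub 1)
    rw [show fderiv ℝ (χN k) z = _ from e2.fderiv]
    refine (norm_add_le _ _).trans ?_
    rw [norm_smul, norm_smul, norm_neg]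
    have h1 : ‖∑ j, fderiv ℝ (ψ j) z‖ ≤ (∑ j, Kψ j) * lm z := by
      rw [Finset.sum_mul]
      exact (norm_sum_le _ _).trans (Finset.sum_le_sum fun j _ => dψ j z)
    have h2 : ‖ζ k z‖ ≤ 1 := by
      rw [Real.norm_of_nonneg (cn_nonneg (nζ k) z)]
      exact cn_le_one (oζ k) z
    have h3 : ‖1 - ∑ j, ψ j z‖ ≤ 1 := by
      rw [Real.norm_of_nonneg (by linarith [hsum z])]
      linarith [hsum0 z]
    have h4 := dζ k z
    have h5 : ‖ζ k z‖ * ‖∑ j, fderiv ℝ (ψ j) z‖ ≤ 1 * ((∑ j, Kψ j) * lm z) := mul_le_mul h2 h1 (norm_nonneg _) zero_le_one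
    have h6 : ‖1 - ∑ j, ψ j z‖ * ‖fderiv ℝ (ζ k) z‖ ≤ 1 * (Kζ k * lm z) := mul_le_mul h3 h4 (norm_nonneg _) zero_le_one
    linarith
  refine ⟨Sum.elim χP χN, ?_, ?_, ?_, ?_, ?_, ?_, ?_⟩
  · rintro (j | k)
    · exact χcd j
    · exact χNcd k
  · rintro (j | k) z
    · exact ⟨cn_nonneg (nχ j) z, cn_le_one (oχ j) z⟩
    · have h1 : 0 ≤ ζ k z := cn_nonneg (nζ k) z
      have h2 : ζ k z ≤ 1 := cn_le_one (oζ k) z
      have h3 := hsum z
      have h4 := hsum0 z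
      exact ⟨mul_nonneg h1 (by linarith), mul_le_one₀ h2 (by linarith) (by linarith)⟩
  · rintro (j | k) z hz
    · obtain ⟨h1, h2⟩ := cn_supp (sχ' j) (hclP j _ (hrr j)) hz
      exact ⟨h1, closedBall_subset_ball (hrr j) h2⟩
    · obtain ⟨h1, h2⟩ := cn_supp (sζ' k) (hclN k) (tsupport_mul_subset_left hz)
      refine ⟨h1, closedBall_subset_ball (by linarith [ht k]) h2, fun j hj => ?_⟩
      refine (notMem_tsupport_iff_eventuallyEq.2 ?_) hz
      have h3 : ∀ᶠ w in 𝓝 z, S.lf Y (C.ck j) w ∈ ball (C.Q j) (a j) :=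
        (lfN_an hF Y _ z hj.1).continuousAt.eventually (isOpen_ball.mem_nhds (closedBall_subset_ball (hsa j) hj.2))
      filter_upwards [h3, (Om_open hF Y (C.ck j)).mem_nhds hj.1] with w h4 h5
      have h6 : ψ j w = 1 := by
        simp only [hψd]
        rw [cn_of_mem h5]
        exact iψ j _ (ball_subset_closedBall h4)
      have h7 : (∑ j', ψ j' w) = 1 := by
        rw [Finset.sum_eq_single j (fun j' _ h => hdisj w j j' (by rw [h6]; exact one_ne_zero) h) (fun h => absurd (Finset.mem_univ j) h), h6]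
      show ζ k w * (1 - ∑ j', ψ j' w) = 0
      rw [h7, sub_self, mul_zero]
  · have hS1 : ∀ j, Kχ j ≤ ∑ j, Kχ j := fun j => Finset.single_le_sum (fun j _ => kχ0 j) (Finset.mem_univ j)
    have hS2 : ∀ k, Kζ k ≤ ∑ k, Kζ k := fun k => Finset.single_le_sum (fun k _ => kζ0 k) (Finset.mem_univ k)
    have hS3 : 0 ≤ ∑ j, Kψ j := Finset.sum_nonneg fun j _ => kψ0 j
    have hS4 : 0 ≤ ∑ j, Kχ j := Finset.sum_nonneg fun j _ => kχ0 j
    have hS5 : 0 ≤ ∑ k, Kζ k := Finset.sum_nonneg fun k _ => kζ0 k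
    rintro (j | k) z
    · refine (norm_gr_le_two _ _).trans ?_
      have h1 := dχ j z
      have h2 : Kχ j * lm z ≤ (∑ j, Kχ j + (∑ k, Kζ k + ∑ j, Kψ j)) * lm z := mul_le_mul_of_nonneg_right (by linarith [hS1 j]) (hl0 z)
      show 2 * ‖fderiv ℝ (χP j) z‖ ≤ _
      linarith
    · refine (norm_gr_le_two _ _).trans ?_
      have h1 := dN k z
      have h2 : (Kζ k + ∑ j, Kψ j) * lm z ≤ (∑ j, Kχ j + (∑ k, Kζ k + ∑ j, Kψ j)) * lm z := mul_le_mul_of_nonneg_right (by linarith [hS2 k]) (hl0 z)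
      show 2 * ‖fderiv ℝ (χN k) z‖ ≤ _
      linarith
  · intro z
    by_cases h : ∃ j, ψ j z ≠ 0
    · obtain ⟨j, hj⟩ := h
      obtain ⟨g1, g2⟩ := cn_ne hj
      refine ⟨Sum.inl j, ?_⟩
      show χP j z = 1
      simp only [hχd]
      rw [cn_of_mem g1]
      exact iχ j _ (sψ' j (Function.mem_support.2 g2))
    · push Not at h
      obtain ⟨k, hk, hk'⟩ := C.cover F hF Y z
      refine ⟨Sum.inr k, ?_⟩
      show ζ k z * (1 - ∑ j', ψ j' z) = 1
      rw [Finset.sum_eq_zero fun j _ => h j, sub_zero, mul_one]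
      simp only [hζd]
      rw [cn_of_mem hk]
      exact iζ k _ (ball_subset_closedBall hk')
  · intro j z hz
    exact (cn_supp (sχ' j) (hclP j _ (hrr j)) hz).2
  · rintro j z ⟨h1, h2⟩
    show χP j z = 1
    simp only [hχd]
    rw [cn_of_mem h1]
    exact iχ j _ (closedBall_subset_closedBall ((hsa j).trans (hab j)).le h2)

end Pool.Agent.MQ3
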