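import Pool.Agent.MQ.Frame

/-!
# MQ3 DivR: the divergence of a vector field under a map, and the transformation rule of `Θ`

`κ : ℂ² → ℂ²`, `Dκ v = h • w ∘ κ`, `J = det Dκ`: `h (v J + J div v) = h² J (div w) ∘ κ + J v h`.
For a curve with `p' = ζ v (p)`, `ζ₁ = h (p) ζ` (so `(κ p)' = ζ₁ w (κ p)`): `ζ₁' / ζ₁ + ζ₁ div w = ζ' / ζ + ζ div v + J' / J`.
-/

set_option autoImplicit false

open Topology Filter Metric

noncomputable section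

namespace Pool.Agent.MQ3

open Pool.Agent.MQ (dvg)

/-- the Jacobian -/
def jc (κ : ℂ × ℂ → ℂ × ℂ) (p : ℂ × ℂ) : ℂ :=
  (fderiv ℂ κ p (1, 0)).1 * (fderiv ℂ κ p (0, 1)).2 - (fderiv ℂ κ p (0, 1)).1 * (fderiv ℂ κ p (1, 0)).2

theorem split_vec (L : ℂ × ℂ →L[ℂ] ℂ × ℂ) (u : ℂ × ℂ) : L u = u.1 • L (1, 0) + u.2 • L (0, 1) := by
  rw [← map_smul, ← map_smul, ← map_add]
  congr 1
  ext <;> simp

theorem split_sc (L : ℂ × ℂ →L[ℂ] ℂ) (u : ℂ × ℂ) : L u = u.1 * L (1, 0) + u.2 * L (0, 1) := by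
  rw [← smul_eq_mul, ← smul_eq_mul, ← map_smul, ← map_smul, ← map_add]
  congr 1
  ext <;> simp

theorem jc_an {κ : ℂ × ℂ → ℂ × ℂ} {P : ℂ × ℂ} (hκ : AnalyticAt ℂ κ P) : AnalyticAt ℂ (jc κ) P := by
  have h1 : ∀ e : ℂ × ℂ, AnalyticAt ℂ (fun Q => fderiv ℂ κ Q e) P := fun e =>
    ((ContinuousLinearMap.apply ℂ (ℂ × ℂ) e).analyticAt _).comp hκ.fderiv
  have h2 : ∀ e : ℂ × ℂ, AnalyticAt ℂ (fun Q => (fderiv ℂ κ Q e).1) P := fun e => analyticAt_fst.comp (h1 e)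
  have h3 : ∀ e : ℂ × ℂ, AnalyticAt ℂ (fun Q => (fderiv ℂ κ Q e).2) P := fun e => analyticAt_snd.comp (h1 e)
  exact ((h2 _).mul (h3 _)).sub ((h2 _).mul (h3 _))

/-- the derivative of the Jacobian -/
theorem fderiv_jc {κ : ℂ × ℂ → ℂ × ℂ} {P : ℂ × ℂ} (hκ : AnalyticAt ℂ κ P) (u : ℂ × ℂ) : fderiv ℂ (jc κ) P u =
    ((fderiv ℂ (fderiv ℂ κ) P u (1, 0)).1 * (fderiv ℂ κ P (0, 1)).2 + (fderiv ℂ κ P (1, 0)).1 * (fderiv ℂ (fderiv ℂ κ) P u (0, 1)).2) -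
      ((fderiv ℂ (fderiv ℂ κ) P u (0, 1)).1 * (fderiv ℂ κ P (1, 0)).2 + (fderiv ℂ κ P (0, 1)).1 * (fderiv ℂ (fderiv ℂ κ) P u (1, 0)).2) := by
  have hD : HasFDerivAt (fderiv ℂ κ) (fderiv ℂ (fderiv ℂ κ) P) P := hκ.fderiv.differentiableAt.hasFDerivAt
  have h1 : ∀ e : ℂ × ℂ, HasFDerivAt (fun Q => fderiv ℂ κ Q e) ((ContinuousLinearMap.apply ℂ (ℂ × ℂ) e).comp (fderiv ℂ (fderiv ℂ κ) P)) P := fun e =>
    (ContinuousLinearMap.apply ℂ (ℂ × ℂ) e).hasFDerivAt.comp P hD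
  have h2 : ∀ e : ℂ × ℂ, HasFDerivAt (fun Q => (fderiv ℂ κ Q e).1)
      ((ContinuousLinearMap.fst ℂ ℂ ℂ).comp ((ContinuousLinearMap.apply ℂ (ℂ × ℂ) e).comp (fderiv ℂ (fderiv ℂ κ) P))) P := fun e =>
    (ContinuousLinearMap.fst ℂ ℂ ℂ).hasFDerivAt.comp P (h1 e)
  have h3 : ∀ e : ℂ × ℂ, HasFDerivAt (fun Q => (fderiv ℂ κ Q e).2)
      ((ContinuousLinearMap.snd ℂ ℂ ℂ).comp ((ContinuousLinearMap.apply ℂ (ℂ × ℂ) e).comp (fderiv ℂ (fderiv ℂ κ) P))) P := fun e =>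
    (ContinuousLinearMap.snd ℂ ℂ ℂ).hasFDerivAt.comp P (h1 e)
  have h4 := ((h2 (1, 0)).mul (h3 (0, 1))).sub ((h2 (0, 1)).mul (h3 (1, 0)))
  have h5 : HasFDerivAt (jc κ) _ P := h4
  rw [h5.fderiv]
  simp
  ring

/-- **The divergence rule.** -/
theorem div_rule {κ v w : ℂ × ℂ → ℂ × ℂ} {h : ℂ × ℂ → ℂ} {P : ℂ × ℂ} (hκ : AnalyticAt ℂ κ P) (hv : AnalyticAt ℂ v P) (hw : AnalyticAt ℂ w (κ P))
    (hh : AnalyticAt ℂ h P) (hrel : ∀ᶠ Q in 𝓝 P, fderiv ℂ κ Q (v Q) = h Q • w (κ Q)) :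
    h P * (fderiv ℂ (jc κ) P (v P) + jc κ P * dvg v P) = h P ^ 2 * (jc κ P * dvg w (κ P)) + jc κ P * fderiv ℂ h P (v P) := by
  have hD : HasFDerivAt (fderiv ℂ κ) (fderiv ℂ (fderiv ℂ κ) P) P := hκ.fderiv.differentiableAt.hasFDerivAt
  have hκ' : HasFDerivAt κ (fderiv ℂ κ P) P := hκ.differentiableAt.hasFDerivAt
  have hv' : HasFDerivAt v (fderiv ℂ v P) P := hv.differentiableAt.hasFDerivAt
  have hh' : HasFDerivAt h (fderiv ℂ h P) P := hh.differentiableAt.hasFDerivAt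
  have hw' : HasFDerivAt w (fderiv ℂ w (κ P)) (κ P) := hw.differentiableAt.hasFDerivAt
  have hsym : ∀ a b : ℂ × ℂ, fderiv ℂ (fderiv ℂ κ) P a b = fderiv ℂ (fderiv ℂ κ) P b a := by
    have h1 : ContDiffAt ℂ ⊤ κ P := hκ.contDiffAt
    exact fun a b => h1.isSymmSndFDerivAt_of_omega a b
  have hL := hD.clm_apply hv'
  have hR := hh'.smul (hw'.comp P hκ')
  have heq := (hL.congr_of_eventuallyEq (hrel.mono fun Q hQ => hQ.symm)).unique hR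
  have key : ∀ u : ℂ × ℂ, fderiv ℂ κ P (fderiv ℂ v P u) + fderiv ℂ (fderiv ℂ κ) P (v P) u =
      h P • fderiv ℂ w (κ P) (fderiv ℂ κ P u) + fderiv ℂ h P u • w (κ P) := by
    intro u
    have h1 := congrArg (fun L : ℂ × ℂ →L[ℂ] ℂ × ℂ => L u) heq
    simp at h1
    rw [hsym (v P) u]
    exact h1
  have h0 := hrel.self_of_nhds
  have e1 := key (1, 0)
  have e2 := key (0, 1)
  rw [split_vec (fderiv ℂ κ P) (fderiv ℂ v P (1, 0)), split_vec (fderiv ℂ w (κ P)) (fderiv ℂ κ P (1, 0))] at e1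
  rw [split_vec (fderiv ℂ κ P) (fderiv ℂ v P (0, 1)), split_vec (fderiv ℂ w (κ P)) (fderiv ℂ κ P (0, 1))] at e2
  rw [split_vec (fderiv ℂ κ P) (v P)] at h0
  rw [fderiv_jc hκ, split_sc (fderiv ℂ h P) (v P), dvg, dvg, jc]
  have e11 := congrArg Prod.fst e1
  have e12 := congrArg Prod.snd e1
  have e21 := congrArg Prod.fst e2
  have e22 := congrArg Prod.snd e2
  have h01 := congrArg Prod.fst h0
  have h02 := congrArg Prod.snd h0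
  simp only [Prod.fst_add, Prod.snd_add, Prod.smul_fst, Prod.smul_snd, smul_eq_mul] at e11 e12 e21 e22 h01 h02
  set x1 := (fderiv ℂ κ P (1, 0)).1
  set y1 := (fderiv ℂ κ P (1, 0)).2
  set x2 := (fderiv ℂ κ P (0, 1)).1
  set y2 := (fderiv ℂ κ P (0, 1)).2
  set A1 := (fderiv ℂ (fderiv ℂ κ) P (v P) (1, 0)).1
  set B1 := (fderiv ℂ (fderiv ℂ κ) P (v P) (1, 0)).2
  set A2 := (fderiv ℂ (fderiv ℂ κ) P (v P) (0, 1)).1
  set B2 := (fderiv ℂ (fderiv ℂ κ) P (v P) (0, 1)).2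
  linear_combination h P * y2 * e11 - h P * x2 * e12 - h P * y1 * e21 + h P * x1 * e22 +
    (- y2 * fderiv ℂ h P (1, 0) + y1 * fderiv ℂ h P (0, 1)) * h01 + (x2 * fderiv ℂ h P (1, 0) - x1 * fderiv ℂ h P (0, 1)) * h02

/-- **The rule along a curve.**  `p' = ζ v (p)`, `(κ p)' = h (p) ζ w (κ p)`. -/
theorem curve_rule {κ v w : ℂ × ℂ → ℂ × ℂ} {h : ℂ × ℂ → ℂ} {p : ℂ → ℂ × ℂ} {ζ : ℂ → ℂ} {z : ℂ} (hκ : AnalyticAt ℂ κ (p z)) (hv : AnalyticAt ℂ v (p z))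
    (hw : AnalyticAt ℂ w (κ (p z))) (hh : AnalyticAt ℂ h (p z)) (hrel : ∀ᶠ Q in 𝓝 (p z), fderiv ℂ κ Q (v Q) = h Q • w (κ Q))
    (hp : AnalyticAt ℂ p z) (hζ : AnalyticAt ℂ ζ z) (hode : deriv p z = ζ z • v (p z)) (hζ0 : ζ z ≠ 0) (hh0 : h (p z) ≠ 0) (hJ0 : jc κ (p z) ≠ 0) :
    deriv (fun u => h (p u) * ζ u) z / (h (p z) * ζ z) + h (p z) * ζ z * dvg w (κ (p z)) =
      deriv ζ z / ζ z + ζ z * dvg v (p z) + deriv (fun u => jc κ (p u)) z / jc κ (p z) := by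
  have hd := div_rule hκ hv hw hh hrel
  have h1 : HasDerivAt (fun u => h (p u)) (fderiv ℂ h (p z) (deriv p z)) z :=
    hh.differentiableAt.hasFDerivAt.comp_hasDerivAt z hp.differentiableAt.hasDerivAt
  have h2 : HasDerivAt (fun u => jc κ (p u)) (fderiv ℂ (jc κ) (p z) (deriv p z)) z :=
    (jc_an hκ).differentiableAt.hasFDerivAt.comp_hasDerivAt z hp.differentiableAt.hasDerivAt
  have h3 := h1.mul hζ.differentiableAt.hasDerivAt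
  have h3' : deriv (fun u => h (p u) * ζ u) z = fderiv ℂ h (p z) (deriv p z) * ζ z + h (p z) * deriv ζ z := h3.deriv
  rw [h3', h2.deriv, hode, map_smul, map_smul, smul_eq_mul, smul_eq_mul]
  field_simp
  linear_combination - ζ z ^ 2 * hd

/-- the rule with the weights `om` and `J ^ m * om ∘ κ` -/
theorem theta_rule {κ v w : ℂ × ℂ → ℂ × ℂ} {h om : ℂ × ℂ → ℂ} {p : ℂ → ℂ × ℂ} {ζ : ℂ → ℂ} {z : ℂ} {m : ℕ} (hm : m ≠ 0) (hκ : AnalyticAt ℂ κ (p z))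
    (hv : AnalyticAt ℂ v (p z)) (hw : AnalyticAt ℂ w (κ (p z))) (hh : AnalyticAt ℂ h (p z)) (hom : AnalyticAt ℂ om (κ (p z)))
    (hrel : ∀ᶠ Q in 𝓝 (p z), fderiv ℂ κ Q (v Q) = h Q • w (κ Q))
    (hp : AnalyticAt ℂ p z) (hζ : AnalyticAt ℂ ζ z) (hode : deriv p z = ζ z • v (p z)) (hζ0 : ζ z ≠ 0) (hh0 : h (p z) ≠ 0) (hJ0 : jc κ (p z) ≠ 0)
    (ho0 : om (κ (p z)) ≠ 0) :
    deriv (fun u => h (p u) * ζ u) z / (h (p z) * ζ z) + h (p z) * ζ z * dvg w (κ (p z)) + 1 / m * (deriv (fun u => om (κ (p u))) z / om (κ (p z))) =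
      deriv ζ z / ζ z + ζ z * dvg v (p z) + 1 / m * (deriv (fun u => jc κ (p u) ^ m * om (κ (p u))) z / (jc κ (p z) ^ m * om (κ (p z)))) := by
  rw [curve_rule hκ hv hw hh hrel hp hζ hode hζ0 hh0 hJ0]
  have h1 : DifferentiableAt ℂ (fun u => jc κ (p u)) z := ((jc_an hκ).comp hp).differentiableAt
  have h2 : DifferentiableAt ℂ (fun u => om (κ (p u))) z := by
    have h3 : AnalyticAt ℂ (fun u => κ (p u)) z := hκ.comp hp
    exact (AnalyticAt.fun_comp (g := om) (f := fun u => κ (p u)) hom h3).differentiableAt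
  have h4 : deriv (fun u => jc κ (p u) ^ m * om (κ (p u))) z =
      (m * jc κ (p z) ^ (m - 1) * deriv (fun u => jc κ (p u)) z) * om (κ (p z)) + jc κ (p z) ^ m * deriv (fun u => om (κ (p u))) z :=
    ((h1.hasDerivAt.pow m).mul h2.hasDerivAt).deriv
  rw [h4]
  obtain ⟨n, rfl⟩ : ∃ n, m = n + 1 := ⟨m - 1, by omega⟩
  have hm' : ((n + 1 : ℕ) : ℂ) ≠ 0 := by exact_mod_cast hm
  simp only [Nat.add_sub_cancel]
  field_simp
  ring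

end Pool.Agent.MQ3
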