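import Pool.Agent.MQ3.Defs
import Pool.Agent.MQ3.DivR

/-!
# MQ3 FolT: the foliations of two charts at a common point off the axes

`ρ (κ x) = b x • ρ' (κ' (Ψ x))` near `q`, the slopes agree at `q`: then they agree near `q` (`roots_agree`: the slopes are continuous functions with values
in the finite set of the slopes of the null directions), and `DΨ (v) = h • v' ∘ Ψ` with a unit `h`.
-/

set_option autoImplicit false

open Topology Filter Metric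

noncomputable section

namespace Pool.Agent.MQ3

open Pool.Agent.H36.BP (EN)
open Pool.Agent.H14.PP (Tan)

variable {M : ℕ} {X : Set (EN M)} {m : ℕ} {θ : WDiff X m} {l : LF M} {ρ ρ' : ℂ × ℂ → EN M}

/-- continuous functions with values in a finite set of continuous functions with distinct values -/
theorem roots_agree {α : Type*} [TopologicalSpace α] {e : ℕ} {t : Fin e → α → ℂ} {f g : α → ℂ} {q : α} (ht : ∀ k, ContinuousAt (t k) q)
    (hd : ∀ j k, j ≠ k → t j q ≠ t k q) (hf : ContinuousAt f q) (hg : ContinuousAt g q) (hft : ∀ᶠ x in 𝓝 q, ∃ k, t k x = f x)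
    (hgt : ∀ᶠ x in 𝓝 q, ∃ k, t k x = g x) (h : f q = g q) : ∀ᶠ x in 𝓝 q, f x = g x := by
  obtain ⟨k₀, hk₀⟩ := hft.self_of_nhds
  have key : ∀ F : α → ℂ, ContinuousAt F q → F q = t k₀ q → (∀ᶠ x in 𝓝 q, ∃ k, t k x = F x) → ∀ᶠ x in 𝓝 q, F x = t k₀ x := by
    intro F hF hq hFt
    have h1 : ∀ k, k ≠ k₀ → ∀ᶠ x in 𝓝 q, t k x - F x ≠ 0 := by
      intro k hk
      refine ((ht k).sub hF).eventually_ne ?_
      show t k q - F q ≠ 0
      rw [hq]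
      exact sub_ne_zero.2 (hd k k₀ hk)
    have h2 : ∀ᶠ x in 𝓝 q, ∀ k, k ≠ k₀ → t k x - F x ≠ 0 := by
      rw [eventually_all]
      intro k
      by_cases hk : k = k₀
      · exact Eventually.of_forall fun x h => absurd hk h
      · exact (h1 k hk).mono fun x hx _ => hx
    filter_upwards [hFt, h2] with x ⟨k, hk⟩ hx
    by_cases hkk : k = k₀
    · rw [← hkk]
      exact hk.symm
    · exact absurd (sub_eq_zero.2 hk) (hx k hkk)
  have h1 := key f hf hk₀.symm hft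
  have h2 := key g hg (h.symm.trans hk₀.symm) hgt
  filter_upwards [h1, h2] with x hx hx'
  rw [hx, hx']

/-- a branch of the logarithm with a given value -/
theorem exists_pbranch (P : ℂ × ℂ) : ∃ Λ : ℂ × ℂ → ℂ × ℂ, AnalyticAt ℂ Λ (pexp P) ∧ Λ (pexp P) = P ∧ ∀ᶠ y in 𝓝 (pexp P), pexp (Λ y) = y := by
  set p := pexp P with hp
  have h1 : p.1 ≠ 0 := Complex.exp_ne_zero _
  have h2 : p.2 ≠ 0 := Complex.exp_ne_zero _
  refine ⟨fun q => (Complex.log (q.1 / p.1) + P.1, Complex.log (q.2 / p.2) + P.2), ?_, ?_, ?_⟩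
  · have hs1 : p.1 / p.1 ∈ Complex.slitPlane := by rw [div_self h1]; exact Complex.one_mem_slitPlane
    have hs2 : p.2 / p.2 ∈ Complex.slitPlane := by rw [div_self h2]; exact Complex.one_mem_slitPlane
    exact (((analyticAt_fst.div_const).clog hs1).add analyticAt_const).prod (((analyticAt_snd.div_const).clog hs2).add analyticAt_const)
  · simp [div_self h1, div_self h2]
  · have e1 : ∀ᶠ y : ℂ × ℂ in 𝓝 p, y.1 ≠ 0 := continuous_fst.continuousAt.eventually_ne h1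
    have e2 : ∀ᶠ y : ℂ × ℂ in 𝓝 p, y.2 ≠ 0 := continuous_snd.continuousAt.eventually_ne h2
    filter_upwards [e1, e2] with y hy1 hy2
    refine Prod.ext ?_ ?_
    · show Complex.exp (Complex.log (y.1 / p.1) + P.1) = y.1
      have h3 : Complex.exp P.1 = p.1 := rfl
      rw [Complex.exp_add, Complex.exp_log (div_ne_zero hy1 h1), h3, div_mul_cancel₀ _ h1]
    · show Complex.exp (Complex.log (y.2 / p.2) + P.2) = y.2
      have h3 : Complex.exp P.2 = p.2 := rfl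
      rw [Complex.exp_add, Complex.exp_log (div_ne_zero hy2 h2), h3, div_mul_cancel₀ _ h2]

theorem analyticAt_ln (w w' : ℕ × ℕ) (P : ℂ × ℂ) : AnalyticAt ℂ (ln w w') P := by
  unfold ln
  exact ((analyticAt_fst.mul analyticAt_const).add (analyticAt_snd.mul analyticAt_const)).prod
    ((analyticAt_fst.mul analyticAt_const).add (analyticAt_snd.mul analyticAt_const))

/-- the wedge product with the frame vector of slope `s` -/
theorem wedge_om (l : LF M) (ρ : ℂ × ℂ → EN M) (p w : ℂ × ℂ) (s : ℂ) :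
    (v₁ l ρ p + s • v₂ l ρ p).1 * w.2 - (v₁ l ρ p + s • v₂ l ρ p).2 * w.1 = om l 2 (ρ p) (fderiv ℂ ρ p w) - s * om l 1 (ρ p) (fderiv ℂ ρ p w) := by
  rw [om_chart, om_chart, v₁, v₂]
  simp only [Prod.fst_add, Prod.snd_add, Prod.smul_fst, Prod.smul_snd, smul_eq_mul]
  ring

theorem om_scale (l : LF M) (i : Fin 3) (x w : EN M) (c μ : ℂ) : om l i (c • x) (c • w + μ • x) = c ^ 2 * om l i x w := by
  simp only [om, map_add, map_smul, smul_eq_mul]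
  ring

section

variable {W : BoxWeb θ l ρ} {W' : BoxWeb θ l ρ'}

theorem MChart.an_κ (c : MChart W) (q : ℂ × ℂ) : AnalyticAt ℂ c.κ q := analyticAt_mchart c.w.1 c.w'.1 c.w.2 c.w'.2 q

theorem MChart.κ_DS (c : MChart W) {q : ℂ × ℂ} (hq : q ∈ c.D) (h0 : q.1 * q.2 ≠ 0) : c.κ q ∈ DS := mono_mem_DS hq h0

theorem MChart.pexp_κ (c : MChart W) {P q : ℂ × ℂ} (hP : pexp P = q) : pexp (ln c.w c.w' P) = c.κ q := by
  rw [pexp_ln, hP]
  rfl

theorem MChart.ln_HH (c : MChart W) {P q : ℂ × ℂ} (hP : pexp P = q) (hq : q ∈ c.D) : ln c.w c.w' P ∈ HH := by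
  rw [ln_mem_iff, hP]
  exact hq

/-- off the axes the map to the box is a local isomorphism -/
theorem MChart.inj_κ (c : MChart W) {q : ℂ × ℂ} (h : q.1 * q.2 ≠ 0) (v : ℂ × ℂ) (hv : fderiv ℂ c.κ q v = 0) : v = 0 := by
  have h1 := left_ne_zero_of_mul h
  have h2 := right_ne_zero_of_mul h
  have hd : c.w'.1 * c.w.2 < c.w.1 * c.w'.2 := by
    have h3 := c.pos
    rw [dt] at h3
    have h4 : (c.w.2 : ℤ) * c.w'.1 < c.w.1 * c.w'.2 := by linarith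
    have h5 : c.w.2 * c.w'.1 < c.w.1 * c.w'.2 := by exact_mod_cast h4
    rwa [mul_comm c.w'.1]
  have hj := jac_mchart hd q
  have hj0 : (((c.w.1 * c.w'.2 - c.w'.1 * c.w.2 : ℕ) : ℂ) * q.1 ^ (c.w.1 + c.w.2 - 1) * q.2 ^ (c.w'.1 + c.w'.2 - 1)) ≠ 0 := by
    refine mul_ne_zero (mul_ne_zero ?_ (pow_ne_zero _ h1)) (pow_ne_zero _ h2)
    have : c.w.1 * c.w'.2 - c.w'.1 * c.w.2 ≠ 0 := by omega
    exact_mod_cast this
  set L := fderiv ℂ (mchart c.w.1 c.w'.1 c.w.2 c.w'.2) q with hL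
  have hL0 : L v = 0 := hv
  rw [← hj] at hj0
  rw [split_vec] at hL0
  have e1 : v.1 * (L (1, 0)).1 + v.2 * (L (0, 1)).1 = 0 := congrArg Prod.fst hL0
  have e2 : v.1 * (L (1, 0)).2 + v.2 * (L (0, 1)).2 = 0 := congrArg Prod.snd hL0
  have e3 : v.1 = 0 := by
    have : v.1 * ((L (1, 0)).1 * (L (0, 1)).2 - (L (0, 1)).1 * (L (1, 0)).2) = 0 := by
      linear_combination (L (0, 1)).2 * e1 - (L (0, 1)).1 * e2
    exact (mul_eq_zero.1 this).resolve_right hj0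
  have e4 : v.2 = 0 := by
    have : v.2 * ((L (1, 0)).1 * (L (0, 1)).2 - (L (0, 1)).1 * (L (1, 0)).2) = 0 := by
      linear_combination (L (1, 0)).1 * e2 - (L (1, 0)).2 * e1
    exact (mul_eq_zero.1 this).resolve_right hj0
  exact Prod.ext e3 e4

/-- the directions of the foliation: `om l 2 = s om l 1` -/
theorem MChart.dir_iff (c : MChart W) {q P : ℂ × ℂ} (hP : pexp P = q) (hq : q ∈ c.D) (h0 : q.1 * q.2 ≠ 0) (u : ℂ × ℂ) :
    om l 2 (ρ (c.κ q)) (fderiv ℂ ρ (c.κ q) (fderiv ℂ c.κ q u)) =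
      W.T c.k (ln c.w c.w' P) * om l 1 (ρ (c.κ q)) (fderiv ℂ ρ (c.κ q) (fderiv ℂ c.κ q u)) ↔ (c.v q).1 * u.2 - (c.v q).2 * u.1 = 0 := by
  have hS := c.κ_DS hq h0
  have h1 := c.v_eq P (c.ln_HH hP hq) u
  rw [c.pexp_κ hP, hP] at h1
  have h2 := wedge_om l ρ (c.κ q) (fderiv ℂ c.κ q u) (W.T c.k (ln c.w c.w' P))
  have h3 : sA θ l ρ m (c.κ q) ≠ 0 := W.box.lead_ne W.surf W.hm hS (W.good _ hS).1 (W.good _ hS).2.1
  have h4 : q.1 ^ c.i * q.2 ^ c.j ≠ 0 := mul_ne_zero (pow_ne_zero _ (left_ne_zero_of_mul h0)) (pow_ne_zero _ (right_ne_zero_of_mul h0))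
  have h5 : fderiv ℂ (mono c.w c.w') q u = fderiv ℂ c.κ q u := rfl
  rw [h5, h2] at h1
  constructor
  · intro h
    rw [h, sub_self, mul_zero] at h1
    exact (mul_eq_zero.1 h1.symm).resolve_left h4
  · intro h
    rw [h, mul_zero] at h1
    exact sub_eq_zero.1 ((mul_eq_zero.1 h1).resolve_left h3)

/-- off the axes the vector field has no zeros -/
theorem MChart.v_ne (c : MChart W) {q : ℂ × ℂ} (hq : q ∈ c.D) (h0 : q.1 * q.2 ≠ 0) : c.v q ≠ 0 := by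
  intro hv
  have hP : pexp (Complex.log q.1, Complex.log q.2) = q :=
    Prod.ext (Complex.exp_log (left_ne_zero_of_mul h0)) (Complex.exp_log (right_ne_zero_of_mul h0))
  have hS := c.κ_DS hq h0
  have hinj : Function.Injective (fderiv ℂ c.κ q : ℂ × ℂ →ₗ[ℂ] ℂ × ℂ) := by
    rw [injective_iff_map_eq_zero]
    exact c.inj_κ h0
  have hsur := LinearMap.injective_iff_surjective.1 hinj
  have key : ∀ w : ℂ × ℂ, om l 2 (ρ (c.κ q)) (fderiv ℂ ρ (c.κ q) w) =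
      W.T c.k (ln c.w c.w' (Complex.log q.1, Complex.log q.2)) * om l 1 (ρ (c.κ q)) (fderiv ℂ ρ (c.κ q) w) := by
    intro w
    obtain ⟨u, hu⟩ := hsur w
    have h1 := (c.dir_iff hP hq h0 u).2 (by rw [hv]; simp)
    have h2 : fderiv ℂ c.κ q u = w := hu
    rwa [h2] at h1
  have hd := W.box.dl_ne W.surf hS (W.good _ hS).1
  have h1 := key (v₂ l ρ (c.κ q))
  rw [om_v₂_1, om_v₂_2, mul_zero] at h1
  exact hd h1

/-- **The slopes agree near the point.** -/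
theorem slopes_agree (c : MChart W) (c' : MChart W') {q q' : ℂ × ℂ} (hq : q ∈ c.D) (hq' : q' ∈ c'.D) (h0 : q.1 * q.2 ≠ 0)
    (h0' : q'.1 * q'.2 ≠ 0) {Ψ : ℂ × ℂ → ℂ × ℂ} (hΨ : ContinuousAt Ψ q) (hΨq : Ψ q = q') {b : ℂ × ℂ → ℂ} (hb : ContinuousAt b q) (hb0 : b q ≠ 0)
    (heq : ∀ᶠ x in 𝓝 q, ρ (c.κ x) = b x • ρ' (c'.κ (Ψ x))) {Λ Λ' : ℂ × ℂ → ℂ × ℂ} (hΛ : ContinuousAt Λ q) (hΛe : ∀ᶠ x in 𝓝 q, pexp (Λ x) = x)
    (hΛ' : ContinuousAt Λ' q') (hΛe' : ∀ᶠ x in 𝓝 q', pexp (Λ' x) = x)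
    (hs : W.T c.k (ln c.w c.w' (Λ q)) = W'.T c'.k (ln c'.w c'.w' (Λ' q'))) :
    ∀ᶠ x in 𝓝 q, W.T c.k (ln c.w c.w' (Λ x)) = W'.T c'.k (ln c'.w c'.w' (Λ' (Ψ x))) := by
  have hΨt : Tendsto Ψ (𝓝 q) (𝓝 q') := by
    have := hΨ.tendsto
    rwa [hΨq] at this
  have hD : ∀ᶠ x in 𝓝 q, x ∈ c.D := isOpen_Dm.mem_nhds hq
  have hD' : ∀ᶠ x in 𝓝 q, Ψ x ∈ c'.D := hΨt.eventually (isOpen_Dm.mem_nhds hq')
  have hz : ∀ᶠ x : ℂ × ℂ in 𝓝 q, x.1 * x.2 ≠ 0 := (continuous_fst.mul continuous_snd).continuousAt.eventually_ne h0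
  have hz' : ∀ᶠ x in 𝓝 q, (Ψ x).1 * (Ψ x).2 ≠ 0 := hΨt.eventually ((continuous_fst.mul continuous_snd).continuousAt.eventually_ne h0')
  have he' : ∀ᶠ x in 𝓝 q, pexp (Λ' (Ψ x)) = Ψ x := hΨt.eventually hΛe'
  have hbx : ∀ᶠ x in 𝓝 q, b x ≠ 0 := hb.eventually_ne hb0
  have hcl : ∀ (w w' : ℕ × ℕ), Continuous (ln w w') := fun w w' => by
    unfold ln
    fun_prop
  have hT : ∀ k, ContinuousAt (fun x => W'.T k (ln c'.w c'.w' (Λ' (Ψ x)))) q := by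
    intro k
    have h1 : Tendsto (fun x => ln c'.w c'.w' (Λ' (Ψ x))) (𝓝 q) (𝓝 (ln c'.w c'.w' (Λ' q'))) :=
      ((hcl _ _).tendsto _).comp (hΛ'.tendsto.comp hΨt)
    have h2 : ContinuousAt (W'.T k) (ln c'.w c'.w' (Λ' q')) := (W'.web.an k _ (c'.ln_HH hΛe'.self_of_nhds hq')).continuousAt
    have h3 := h2.tendsto.comp h1
    show Tendsto _ _ (𝓝 (W'.T k (ln c'.w c'.w' (Λ' (Ψ q)))))
    rw [hΨq]
    exact h3
  have hsl : ContinuousAt (fun x => W.T c.k (ln c.w c.w' (Λ x))) q := by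
    have h2 : ContinuousAt (W.T c.k) (ln c.w c.w' (Λ q)) := (W.web.an c.k _ (c.ln_HH hΛe.self_of_nhds hq)).continuousAt
    exact h2.tendsto.comp (((hcl _ _).tendsto _).comp hΛ.tendsto)
  refine roots_agree (t := fun k x => W'.T k (ln c'.w c'.w' (Λ' (Ψ x)))) hT ?_ hsl (hT c'.k) ?_ ?_ ?_
  · intro j k hjk h1
    have h2 : ln c'.w c'.w' (Λ' (Ψ q)) ∈ HH := c'.ln_HH he'.self_of_nhds hD'.self_of_nhds
    exact hjk (W'.web.inj _ h2 _ _ h1)
  · filter_upwards [hD, hD', hz, hz', he', hbx, heq, hΛe] with x a1 a2 a3 a4 a5 a6 a7 a8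
    have h1 : W.T c.k (ln c.w c.w' (Λ x)) ∈ NS θ l (ρ (pexp (ln c.w c.w' (Λ x)))) := (W.ns _ (c.ln_HH a8 a1) _).2 ⟨c.k, rfl⟩
    rw [c.pexp_κ a8, a7, ns_smul W.surf.smul θ l a6, ← c'.pexp_κ a5] at h1
    exact (W'.ns _ (c'.ln_HH a5 a2) _).1 h1
  · exact Eventually.of_forall fun x => ⟨c'.k, rfl⟩
  · show _ = W'.T c'.k (ln c'.w c'.w' (Λ' (Ψ q)))
    rw [hΨq]
    exact hs

/-- **FolT.** The change of charts carries the foliation to the foliation. -/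
theorem fol_trans (c : MChart W) (c' : MChart W') {q q' : ℂ × ℂ} (hq : q ∈ c.D) (hq' : q' ∈ c'.D) (h0 : q.1 * q.2 ≠ 0)
    (h0' : q'.1 * q'.2 ≠ 0) {Ψ : ℂ × ℂ → ℂ × ℂ} (hΨ : AnalyticAt ℂ Ψ q) (hΨq : Ψ q = q') (hinj : ∀ w, fderiv ℂ Ψ q w = 0 → w = 0)
    {b : ℂ × ℂ → ℂ} (hb : AnalyticAt ℂ b q) (hb0 : b q ≠ 0) (heq : ∀ᶠ x in 𝓝 q, ρ (c.κ x) = b x • ρ' (c'.κ (Ψ x))) {P P' : ℂ × ℂ}
    (hP : pexp P = q) (hP' : pexp P' = q') (hs : W.T c.k (ln c.w c.w' P) = W'.T c'.k (ln c'.w c'.w' P')) :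
    ∃ h : ℂ × ℂ → ℂ, AnalyticAt ℂ h q ∧ h q ≠ 0 ∧ ∀ᶠ x in 𝓝 q, fderiv ℂ Ψ x (c.v x) = h x • c'.v (Ψ x) := by
  obtain ⟨Λ, hΛ, hΛP, hΛe⟩ := exists_pbranch P
  obtain ⟨Λ', hΛ', hΛP', hΛe'⟩ := exists_pbranch P'
  rw [hP] at hΛ hΛP hΛe
  rw [hP'] at hΛ' hΛP' hΛe'
  have hΨt : Tendsto Ψ (𝓝 q) (𝓝 q') := by
    have := hΨ.continuousAt.tendsto
    rwa [hΨq] at this
  have hsl := slopes_agree c c' hq hq' h0 h0' hΨ.continuousAt hΨq hb.continuousAt hb0 heq hΛ.continuousAt hΛe hΛ'.continuousAt hΛe' (by rw [hΛP, hΛP', hs])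
  have hD : ∀ᶠ x in 𝓝 q, x ∈ c.D := isOpen_Dm.mem_nhds hq
  have hD' : ∀ᶠ x in 𝓝 q, Ψ x ∈ c'.D := hΨt.eventually (isOpen_Dm.mem_nhds hq')
  have hz : ∀ᶠ x : ℂ × ℂ in 𝓝 q, x.1 * x.2 ≠ 0 := (continuous_fst.mul continuous_snd).continuousAt.eventually_ne h0
  have hz' : ∀ᶠ x in 𝓝 q, (Ψ x).1 * (Ψ x).2 ≠ 0 := hΨt.eventually ((continuous_fst.mul continuous_snd).continuousAt.eventually_ne h0')
  have he' : ∀ᶠ x in 𝓝 q, pexp (Λ' (Ψ x)) = Ψ x := hΨt.eventually hΛe'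
  have hbx : ∀ᶠ x in 𝓝 q, b x ≠ 0 := hb.continuousAt.eventually_ne hb0
  -- the image of the vector field is tangent to the foliation
  have hpar : ∀ᶠ x in 𝓝 q, (c'.v (Ψ x)).1 * (fderiv ℂ Ψ x (c.v x)).2 - (c'.v (Ψ x)).2 * (fderiv ℂ Ψ x (c.v x)).1 = 0 := by
    filter_upwards [hD, hD', hz, hz', he', hbx, heq.eventually_nhds, hΛe, hsl, hΨ.eventually_analyticAt, hb.eventually_analyticAt] with x a1 a2 a3 a4 a5 a6
      a7 a8 a9 a10 a11
    rw [← c'.dir_iff a5 a2 a4, ← a9]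
    have h1 := (c.dir_iff a8 a1 a3 (c.v x)).2 (by ring)
    have hS := c.κ_DS a1 a3
    have hS' := c'.κ_DS a2 a4
    -- the derivatives
    have d1 : HasFDerivAt (fun y => ρ (c.κ y)) ((fderiv ℂ ρ (c.κ x)).comp (fderiv ℂ c.κ x)) x :=
      (W.box.an' hS).differentiableAt.hasFDerivAt.comp x (c.an_κ x).differentiableAt.hasFDerivAt
    have d2 : HasFDerivAt (fun y => ρ' (c'.κ (Ψ y))) ((fderiv ℂ ρ' (c'.κ (Ψ x))).comp ((fderiv ℂ c'.κ (Ψ x)).comp (fderiv ℂ Ψ x))) x :=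
      (W'.box.an' hS').differentiableAt.hasFDerivAt.comp x ((c'.an_κ (Ψ x)).differentiableAt.hasFDerivAt.comp x a10.differentiableAt.hasFDerivAt)
    have d3 := a11.differentiableAt.hasFDerivAt.smul d2
    have d4 := d3.congr_of_eventuallyEq a7
    have d5 := d1.unique d4
    have d6 : ∀ u, fderiv ℂ ρ (c.κ x) (fderiv ℂ c.κ x u) =
        b x • fderiv ℂ ρ' (c'.κ (Ψ x)) (fderiv ℂ c'.κ (Ψ x) (fderiv ℂ Ψ x u)) + fderiv ℂ b x u • ρ' (c'.κ (Ψ x)) := by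
      intro u
      exact congrArg (fun L : ℂ × ℂ →L[ℂ] EN M => L u) d5
    rw [d6, a7.self_of_nhds, om_scale, om_scale, mul_left_comm] at h1
    exact mul_left_cancel₀ (pow_ne_zero 2 a6) h1
  -- the unit
  have hva : AnalyticAt ℂ (fun x => c'.v (Ψ x)) q := by
    have h1 : AnalyticAt ℂ c'.v (Ψ q) := by
      rw [hΨq]
      exact c'.v_an q' hq'
    exact AnalyticAt.fun_comp (g := c'.v) (f := Ψ) h1 hΨ
  have hvn : c'.v (Ψ q) ≠ 0 := by
    rw [hΨq]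
    exact c'.v_ne hq' h0'
  have hga : AnalyticAt ℂ (fun x => fderiv ℂ Ψ x (c.v x)) q :=
    AnalyticAt.comp (g := fun z : (ℂ × ℂ →L[ℂ] ℂ × ℂ) × (ℂ × ℂ) => z.1 z.2) (f := fun x => (fderiv ℂ Ψ x, c.v x))
      (ContinuousLinearMap.analyticAt_bilinear (ContinuousLinearMap.id ℂ (ℂ × ℂ →L[ℂ] ℂ × ℂ)) _) (hΨ.fderiv.prod (c.v_an q hq))
  have hgn : fderiv ℂ Ψ q (c.v q) ≠ 0 := fun h1 => c.v_ne hq h0 (hinj _ h1)
  have main : ∃ h : ℂ × ℂ → ℂ, AnalyticAt ℂ h q ∧ ∀ᶠ x in 𝓝 q, fderiv ℂ Ψ x (c.v x) = h x • c'.v (Ψ x) := by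
    by_cases h1 : (c'.v (Ψ q)).1 = 0
    · have h2 : (c'.v (Ψ q)).2 ≠ 0 := fun h2 => hvn (Prod.ext h1 h2)
      have h3 : AnalyticAt ℂ (fun x => (c'.v (Ψ x)).2) q := analyticAt_snd.comp hva
      have h4 : AnalyticAt ℂ (fun x => (fderiv ℂ Ψ x (c.v x)).2) q := analyticAt_snd.comp hga
      refine ⟨fun x => (fderiv ℂ Ψ x (c.v x)).2 / (c'.v (Ψ x)).2, h4.div h3 h2, ?_⟩
      filter_upwards [hpar, h3.continuousAt.eventually_ne h2] with x e1 e2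
      refine Prod.ext ?_ ?_
      · simp only [Prod.smul_fst, smul_eq_mul]
        rw [div_mul_eq_mul_div, eq_div_iff e2]
        linear_combination -e1
      · simp only [Prod.smul_snd, smul_eq_mul]
        rw [div_mul_cancel₀ _ e2]
    · have h3 : AnalyticAt ℂ (fun x => (c'.v (Ψ x)).1) q := analyticAt_fst.comp hva
      have h4 : AnalyticAt ℂ (fun x => (fderiv ℂ Ψ x (c.v x)).1) q := analyticAt_fst.comp hga
      refine ⟨fun x => (fderiv ℂ Ψ x (c.v x)).1 / (c'.v (Ψ x)).1, h4.div h3 h1, ?_⟩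
      filter_upwards [hpar, h3.continuousAt.eventually_ne h1] with x e1 e2
      refine Prod.ext ?_ ?_
      · simp only [Prod.smul_fst, smul_eq_mul]
        rw [div_mul_cancel₀ _ e2]
      · simp only [Prod.smul_snd, smul_eq_mul]
        rw [div_mul_eq_mul_div, eq_div_iff e2]
        linear_combination e1
  obtain ⟨h, hh, hhx⟩ := main
  refine ⟨h, hh, fun h1 => hgn ?_, hhx⟩
  rw [hhx.self_of_nhds, h1, zero_smul]

end

end Pool.Agent.MQ3
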