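import Pool.Agent.E1.ResL

/-!
# MQ3 WBxA: the tangent spaces of a surface in a parametrization which is an immersion at a point
-/

set_option autoImplicit false

open Topology Filter

noncomputable section

namespace Pool.Agent.MQ3

open Pool.Agent.H36.BP (EN)
open Pool.Agent.H14.PP (Tan)
open Pool.Agent.H17BP (Surface)

variable {N : ℕ} {X : Set (EN N)} {ρ : ℂ × ℂ → EN N} {p : ℂ × ℂ}

/-- The tangent vectors of the cone at `ρ p` are the vectors `Dρ w + a ρ p`, if the differential of `ρ` is injective modulo `ρ p`. -/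
theorem span_of_indep (hX : Surface X) (hρ : AnalyticAt ℂ ρ p) (hm : ∀ᶠ q in 𝓝 p, ρ q ∈ X)
    (hi : ∀ (w : ℂ × ℂ) (a : ℂ), fderiv ℂ ρ p w = a • ρ p → w = 0) {v : EN N} (hv : Tan X (ρ p) v) :
    ∃ (w : ℂ × ℂ) (a : ℂ), v = fderiv ℂ ρ p w + a • ρ p := by
  obtain ⟨σ, τ, hσ, h0⟩ := hX.chart (ρ p) hm.self_of_nhds
  have hs := (Pool.Agent.E1.ResL_span hσ).self_of_nhds
  have hin := (Pool.Agent.E1.ResL_indep hσ).self_of_nhds
  rw [h0] at hs hin
  have huniq : ∀ (u u' : ℂ × ℂ) (a a' : ℂ), fderiv ℂ σ 0 u + a • ρ p = fderiv ℂ σ 0 u' + a' • ρ p → u = u' := by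
    intro u u' a a' h
    have h1 : fderiv ℂ σ 0 (u - u') = (a' - a) • ρ p := by
      rw [map_sub, sub_smul, sub_eq_iff_eq_add, sub_add_eq_add_sub, eq_sub_iff_add_eq, h]
      abel
    exact sub_eq_zero.1 (hin _ _ h1)
  choose B c hB using fun w : ℂ × ℂ => hs _ (Pool.Agent.E1.ResL_tan hρ hm w)
  let L : (ℂ × ℂ) →ₗ[ℂ] (ℂ × ℂ) :=
    { toFun := B
      map_add' := fun w w' => by
        refine huniq _ _ (c (w + w')) (c w + c w') ?_
        rw [← hB, map_add, hB w, hB w', map_add, add_smul]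
        abel
      map_smul' := fun a w => by
        refine huniq _ _ (c (a • w)) (a * c w) ?_
        rw [← hB, map_smul, hB w, RingHom.id_apply, map_smul, smul_add, smul_smul] }
  have hLi : Function.Injective L := by
    rw [injective_iff_map_eq_zero]
    intro w hw
    have h1 : B w = 0 := hw
    have h2 := hB w
    rw [h1, map_zero, zero_add] at h2
    exact hi w _ h2
  obtain ⟨u, a, hu⟩ := hs v hv
  obtain ⟨w, hw⟩ := (LinearMap.injective_iff_surjective.1 hLi) u
  have hw' : B w = u := hw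
  refine ⟨w, a - c w, ?_⟩
  rw [hB w, hw', hu, sub_smul]
  abel

end Pool.Agent.MQ3
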