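import Pool.Agent.MQ3.DivR
import Pool.Agent.MQ3.WBxA
import Pool.Agent.H62.BU.Inv

/-!
# MQ3 ThA: two parametrizations of a surface near a common point
-/

set_option autoImplicit false

open Topology Filter

noncomputable section

namespace Pool.Agent.MQ3

open Pool.Agent.H36.BP (EN)
open Pool.Agent.H17BP (Surface IsChart IsForm)

variable {N : ℕ} {X : Set (EN N)}

/-- an immersion into the surface, modulo the scaling -/
structure Imm (X : Set (EN N)) (ρ : ℂ × ℂ → EN N) (Q : ℂ × ℂ) : Prop where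
  an : AnalyticAt ℂ ρ Q
  mem : ∀ᶠ q in 𝓝 Q, ρ q ∈ X
  inj : ∀ (w : ℂ × ℂ) (a : ℂ), fderiv ℂ ρ Q w = a • ρ Q → w = 0

theorem ne_coord {x : EN N} (hx : x ≠ 0) : ∃ j, x.ofLp j ≠ 0 := by
  by_contra hcon
  push Not at hcon
  exact hx (by ext j; exact hcon j)

theorem Imm.ne (hX : Surface X) {ρ : ℂ × ℂ → EN N} {Q : ℂ × ℂ} (h : Imm X ρ Q) : ρ Q ≠ 0 := fun h0 => hX.zero (h0 ▸ h.mem.self_of_nhds)

theorem an_coord {E : Type*} [NormedAddCommGroup E] [NormedSpace ℂ E] {f : E → EN N} {x : E} (hf : AnalyticAt ℂ f x) (j : Fin (N + 1)) :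
    AnalyticAt ℂ (fun y => (f y).ofLp j) x :=
  ((EuclideanSpace.proj (𝕜 := ℂ) j : EN N →L[ℂ] ℂ).analyticAt _).comp hf

/-- a pointwise scalar factor is analytic -/
theorem exists_scalar {E : Type*} [NormedAddCommGroup E] [NormedSpace ℂ E] {f g : E → EN N} {x : E} (hf : AnalyticAt ℂ f x) (hg : AnalyticAt ℂ g x) (h0 : g x ≠ 0)
    (h : ∀ᶠ y in 𝓝 x, ∃ c : ℂ, c ≠ 0 ∧ f y = c • g y) : ∃ b : E → ℂ, AnalyticAt ℂ b x ∧ b x ≠ 0 ∧ ∀ᶠ y in 𝓝 x, f y = b y • g y := by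
  obtain ⟨j, hj⟩ := ne_coord h0
  have hj' : ∀ᶠ y in 𝓝 x, (g y).ofLp j ≠ 0 := (an_coord hg j).continuousAt.eventually_ne hj
  have key : ∀ᶠ y in 𝓝 x, (f y).ofLp j / (g y).ofLp j ≠ 0 ∧ f y = ((f y).ofLp j / (g y).ofLp j) • g y := by
    filter_upwards [h, hj'] with y hy hy'
    obtain ⟨c, hc, hcy⟩ := hy
    have h1 : (f y).ofLp j = c * (g y).ofLp j := by
      have := congrArg (fun v : EN N => v.ofLp j) hcy
      simpa using this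
    rw [h1, mul_div_cancel_right₀ _ hy']
    exact ⟨hc, hcy⟩
  exact ⟨fun y => (f y).ofLp j / (g y).ofLp j, (an_coord hf j).div (an_coord hg j) hj, key.self_of_nhds.1, key.mono fun y hy => hy.2⟩

theorem jc_ne_of_inj {κ : ℂ × ℂ → ℂ × ℂ} {Q : ℂ × ℂ} (h : ∀ w, fderiv ℂ κ Q w = 0 → w = 0) : jc κ Q ≠ 0 := by
  intro h0
  rw [jc] at h0
  have h1 : fderiv ℂ κ Q ((fderiv ℂ κ Q (0, 1)).2, -(fderiv ℂ κ Q (1, 0)).2) = 0 := by
    rw [split_vec]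
    refine Prod.ext ?_ ?_
    · simp only [Prod.fst_add, Prod.smul_fst, smul_eq_mul, Prod.fst_zero]
      linear_combination h0
    · simp only [Prod.snd_add, Prod.smul_snd, smul_eq_mul, Prod.snd_zero]
      ring
  have h2 := h _ h1
  have e1 : (fderiv ℂ κ Q (0, 1)).2 = 0 := congrArg Prod.fst h2
  have e2 : (fderiv ℂ κ Q (1, 0)).2 = 0 := by
    have := congrArg Prod.snd h2
    simpa using this
  have h3 : fderiv ℂ κ Q ((fderiv ℂ κ Q (0, 1)).1, -(fderiv ℂ κ Q (1, 0)).1) = 0 := by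
    rw [split_vec]
    refine Prod.ext ?_ ?_
    · simp only [Prod.fst_add, Prod.smul_fst, smul_eq_mul, Prod.fst_zero]
      ring
    · simp only [Prod.snd_add, Prod.smul_snd, smul_eq_mul, Prod.snd_zero]
      rw [e1, e2]
      ring
  have h4 := h _ h3
  have e3 : (fderiv ℂ κ Q (0, 1)).1 = 0 := congrArg Prod.fst h4
  have h5 : fderiv ℂ κ Q (0, 1) = 0 := Prod.ext e3 e1
  have h6 := congrArg Prod.snd (h _ h5)
  exact one_ne_zero h6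

/-- the coordinate map composed with an immersion -/
theorem chart_imm {σ : ℂ × ℂ → EN N} {τ : EN N → ℂ × ℂ} (hσ : IsChart X σ τ) {ρ : ℂ × ℂ → EN N} {Q : ℂ × ℂ} (hρ : Imm X ρ Q) (h0 : ρ Q = σ 0) :
    AnalyticAt ℂ (fun q => τ (ρ q)) Q ∧ τ (ρ Q) = 0 ∧ (∀ᶠ q in 𝓝 Q, ∃ c : ℂ, c ≠ 0 ∧ ρ q = c • σ (τ (ρ q))) ∧
      ∀ w, fderiv ℂ (fun q => τ (ρ q)) Q w = 0 → w = 0 := by
  have hτ : AnalyticAt ℂ τ (ρ Q) := by rw [h0]; exact hσ.τ_an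
  have hκ : AnalyticAt ℂ (fun q => τ (ρ q)) Q := AnalyticAt.fun_comp (g := τ) (f := ρ) hτ hρ.an
  have hτ0 : τ (ρ Q) = 0 := by rw [h0]; exact hσ.left.self_of_nhds
  have hc : ∀ᶠ q in 𝓝 Q, ∃ c : ℂ, c ≠ 0 ∧ ρ q = c • σ (τ (ρ q)) := by
    have h1 : Tendsto ρ (𝓝 Q) (𝓝 (σ 0)) := by rw [← h0]; exact hρ.an.continuousAt
    filter_upwards [h1.eventually hσ.right, hρ.mem] with q h2 h3
    exact h2 h3
  refine ⟨hκ, hτ0, hc, ?_⟩
  have hσκ : AnalyticAt ℂ (fun q => σ (τ (ρ q))) Q := by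
    have h1 : AnalyticAt ℂ σ (τ (ρ Q)) := by rw [hτ0]; exact hσ.σ_an
    exact AnalyticAt.fun_comp (g := σ) (f := fun q => τ (ρ q)) h1 hκ
  obtain ⟨b, hb, hb0, hbe⟩ := exists_scalar hρ.an hσκ (by rw [hτ0]; exact hσ.ne) hc
  intro w hw
  have h1 : HasFDerivAt (fun q => b q • σ (τ (ρ q))) _ Q := hb.differentiableAt.hasFDerivAt.smul hσκ.differentiableAt.hasFDerivAt
  have h2 : fderiv ℂ ρ Q = fderiv ℂ (fun q => b q • σ (τ (ρ q))) Q := Filter.EventuallyEq.fderiv_eq hbe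
  have h3 : fderiv ℂ (fun q => σ (τ (ρ q))) Q w = 0 := by
    have h4 : HasFDerivAt (fun q => σ (τ (ρ q))) ((fderiv ℂ σ (τ (ρ Q))).comp (fderiv ℂ (fun q => τ (ρ q)) Q)) Q := by
      have h5 : AnalyticAt ℂ σ (τ (ρ Q)) := by rw [hτ0]; exact hσ.σ_an
      exact h5.differentiableAt.hasFDerivAt.comp Q hκ.differentiableAt.hasFDerivAt
    rw [h4.fderiv, ContinuousLinearMap.comp_apply, hw, map_zero]
  refine hρ.inj w (fderiv ℂ b Q w / b Q) ?_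
  rw [h2, h1.fderiv]
  have h6 := hbe.self_of_nhds
  simp only [add_apply, smul_apply, ContinuousLinearMap.smulRight_apply, h3, smul_zero, zero_add]
  conv_rhs => rw [h6]
  rw [smul_smul, div_mul_cancel₀ _ hb0]

/-- **The change of parametrization.** -/
theorem exists_trans (hX : Surface X) {ρ ρ' : ℂ × ℂ → EN N} {Q Q' : ℂ × ℂ} (hρ : Imm X ρ Q) (hρ' : Imm X ρ' Q') {c : ℂ} (hc : c ≠ 0)
    (h : ρ Q = c • ρ' Q') : ∃ (Ψ : ℂ × ℂ → ℂ × ℂ) (b : ℂ × ℂ → ℂ), AnalyticAt ℂ Ψ Q ∧ Ψ Q = Q' ∧ AnalyticAt ℂ b Q ∧ b Q ≠ 0 ∧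
      (∀ᶠ q in 𝓝 Q, ρ q = b q • ρ' (Ψ q)) ∧ jc Ψ Q ≠ 0 ∧ (∀ w, fderiv ℂ Ψ Q w = 0 → w = 0) ∧
      ∀ᶠ x in 𝓝 (Q, Q'), (∃ a : ℂ, a ≠ 0 ∧ ρ x.1 = a • ρ' x.2) → x.2 = Ψ x.1 := by
  obtain ⟨σ, τ, hσ, h0⟩ := hX.chart (ρ Q) hρ.mem.self_of_nhds
  have hρc : Imm X (fun q => c • ρ' q) Q' := by
    refine ⟨(analyticAt_const (v := c)).fun_smul hρ'.an, hρ'.mem.mono fun q hq => hX.smul _ hq c hc, ?_⟩
    intro w a hw
    have h1 : fderiv ℂ (fun q => c • ρ' q) Q' = c • fderiv ℂ ρ' Q' := (hρ'.an.differentiableAt.hasFDerivAt.const_smul c).fderiv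
    rw [h1, smul_apply, smul_comm a c] at hw
    exact hρ'.inj w a (smul_right_injective _ hc hw)
  obtain ⟨hk, hk0, hkc, hki⟩ := chart_imm hσ hρ h0.symm
  obtain ⟨hk', hk0', hkc', hki'⟩ := chart_imm hσ hρc (by rw [← h, h0])
  obtain ⟨ψ, hψ, hψl, hψr, hψ0⟩ := Pool.Agent.H62.BU.local_inverse hk' hki'
  have hkk : τ (c • ρ' Q') = τ (ρ Q) := by rw [hk0', hk0]
  rw [hkk] at hψ hψr hψ0
  have hΨ : AnalyticAt ℂ (fun q => ψ (τ (ρ q))) Q := AnalyticAt.fun_comp (g := ψ) (f := fun q => τ (ρ q)) hψ hk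
  have hΨ0 : ψ (τ (ρ Q)) = Q' := hψ0
  have hρ'Ψ : AnalyticAt ℂ (fun q => ρ' (ψ (τ (ρ q)))) Q := by
    have h1 : AnalyticAt ℂ ρ' (ψ (τ (ρ Q))) := by rw [hΨ0]; exact hρ'.an
    exact AnalyticAt.fun_comp (g := ρ') (f := fun q => ψ (τ (ρ q))) h1 hΨ
  have hex : ∀ᶠ q in 𝓝 Q, ∃ a : ℂ, a ≠ 0 ∧ ρ q = a • ρ' (ψ (τ (ρ q))) := by
    have h1 : Tendsto (fun q => ψ (τ (ρ q))) (𝓝 Q) (𝓝 Q') := by
      have := hΨ.continuousAt.tendsto
      rwa [hΨ0] at this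
    have h2 : Tendsto (fun q => τ (ρ q)) (𝓝 Q) (𝓝 (τ (ρ Q))) := hk.continuousAt
    filter_upwards [hkc, h1.eventually hkc', h2.eventually hψr] with q e1 e2 e3
    obtain ⟨c₁, hc₁, e1⟩ := e1
    obtain ⟨c₂, hc₂, e2⟩ := e2
    rw [e3] at e2
    refine ⟨c₁ / c₂ * c, mul_ne_zero (div_ne_zero hc₁ hc₂) hc, ?_⟩
    rw [mul_smul, e2, smul_smul, div_mul_cancel₀ _ hc₂]
    exact e1
  have hρ'0 : ρ' (ψ (τ (ρ Q))) ≠ 0 := by rw [hΨ0]; exact hρ'.ne hX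
  obtain ⟨b, hb, hb0, hbe⟩ := exists_scalar hρ.an hρ'Ψ hρ'0 hex
  have hinj : ∀ w, fderiv ℂ (fun q => ψ (τ (ρ q))) Q w = 0 → w = 0 := by
    intro w hw
    have h1 : HasFDerivAt (fun q => b q • ρ' (ψ (τ (ρ q)))) _ Q := hb.differentiableAt.hasFDerivAt.smul hρ'Ψ.differentiableAt.hasFDerivAt
    have h2 : fderiv ℂ ρ Q = fderiv ℂ (fun q => b q • ρ' (ψ (τ (ρ q)))) Q := Filter.EventuallyEq.fderiv_eq hbe
    have h3 : fderiv ℂ (fun q => ρ' (ψ (τ (ρ q)))) Q w = 0 := by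
      have h4 : HasFDerivAt (fun q => ρ' (ψ (τ (ρ q)))) ((fderiv ℂ ρ' (ψ (τ (ρ Q)))).comp (fderiv ℂ (fun q => ψ (τ (ρ q))) Q)) Q := by
        have h5 : AnalyticAt ℂ ρ' (ψ (τ (ρ Q))) := by rw [hΨ0]; exact hρ'.an
        exact h5.differentiableAt.hasFDerivAt.comp Q hΨ.differentiableAt.hasFDerivAt
      rw [h4.fderiv, ContinuousLinearMap.comp_apply, hw, map_zero]
    refine hρ.inj w (fderiv ℂ b Q w / b Q) ?_
    rw [h2, h1.fderiv]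
    have h6 := hbe.self_of_nhds
    simp only [add_apply, smul_apply, ContinuousLinearMap.smulRight_apply, h3, smul_zero, zero_add]
    conv_rhs => rw [h6]
    rw [smul_smul, div_mul_cancel₀ _ hb0]
  refine ⟨fun q => ψ (τ (ρ q)), b, hΨ, hΨ0, hb, hb0, hbe, jc_ne_of_inj hinj, hinj, ?_⟩
  -- uniqueness
  obtain ⟨j, hj⟩ := ne_coord (hρ'.ne hX)
  have hcoord : ContinuousAt (fun x : (ℂ × ℂ) × (ℂ × ℂ) => (ρ x.1).ofLp j / (ρ' x.2).ofLp j) (Q, Q') := by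
    have h1 : ContinuousAt (fun x : (ℂ × ℂ) × (ℂ × ℂ) => (ρ x.1).ofLp j) (Q, Q') :=
      ContinuousAt.comp (f := Prod.fst) (g := fun q => (ρ q).ofLp j) (an_coord hρ.an j).continuousAt continuousAt_fst
    have h2 : ContinuousAt (fun x : (ℂ × ℂ) × (ℂ × ℂ) => (ρ' x.2).ofLp j) (Q, Q') :=
      ContinuousAt.comp (f := Prod.snd) (g := fun q => (ρ' q).ofLp j) (an_coord hρ'.an j).continuousAt continuousAt_snd
    exact h1.div h2 hj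
  have hval : (ρ Q).ofLp j / (ρ' Q').ofLp j = c := by
    rw [h]
    simp [hj]
  have hinv : ∀ᶠ x in 𝓝 (Q, Q'), τ (((ρ x.1).ofLp j / (ρ' x.2).ofLp j / c) • (c • ρ' x.2)) = τ (c • ρ' x.2) := by
    have h1 : ContinuousAt (fun x : (ℂ × ℂ) × (ℂ × ℂ) => (c • ρ' x.2, (ρ x.1).ofLp j / (ρ' x.2).ofLp j / c)) (Q, Q') := by
      refine ContinuousAt.prodMk ?_ (hcoord.div continuousAt_const hc)
      exact ContinuousAt.comp (f := Prod.snd) (g := fun q => c • ρ' q) hρc.an.continuousAt continuousAt_snd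
    have h2 : Tendsto (fun x : (ℂ × ℂ) × (ℂ × ℂ) => (c • ρ' x.2, (ρ x.1).ofLp j / (ρ' x.2).ofLp j / c)) (𝓝 (Q, Q')) (𝓝 (σ 0, (1 : ℂ))) := by
      have h3 := h1.tendsto
      simp only [hval, div_self hc] at h3
      rwa [← h, ← h0] at h3
    exact h2.eventually hσ.inv
  have hρ'j : ∀ᶠ x in 𝓝 (Q, Q'), (ρ' x.2).ofLp j ≠ 0 :=
    (ContinuousAt.comp (f := Prod.snd) (g := fun q => (ρ' q).ofLp j) (an_coord hρ'.an j).continuousAt continuousAt_snd).eventually_ne hj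
  have hψ' : ∀ᶠ x in 𝓝 (Q, Q'), ψ (τ (c • ρ' x.2)) = x.2 := (continuousAt_snd (p := (Q, Q'))).eventually hψl
  filter_upwards [hinv, hρ'j, hψ'] with x e1 e2 e3
  rintro ⟨a, ha, hax⟩
  have h1 : (ρ x.1).ofLp j / (ρ' x.2).ofLp j = a := by
    rw [hax]
    simp [e2]
  rw [h1, smul_smul, div_mul_cancel₀ _ hc, ← hax] at e1
  rw [e1]
  exact e3.symm

end Pool.Agent.MQ3
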