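import Pool.Agent.MQ3.NDefs
import Pool.Agent.MQ3.BLift
import Pool.Agent.MQ3.ThA
import Pool.Agent.MQ3.WtN3
import Pool.Agent.MQ3.LfN
import Pool.Agent.MQ3.FolT
import Pool.Agent.E2.Bd

/-!
# MQ3 ThN: the function `Θ` of all charts
-/

set_option autoImplicit false

open Topology Filter Metric MvPolynomial

noncomputable section

namespace Pool.Agent.MQ3

open Pool.Agent.H36.BP (EN fs)
open Pool.Agent.H17BP (Surface IsForm)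
open Pool.Agent.H17EF (projVar coneE)
open Pool.Agent.MQ (dvg ztv)

/-! ## calculus -/

/-- the invariance, with weights which are functions on the curve -/
theorem Th_core {v v' Ψ : ℂ × ℂ → ℂ × ℂ} {h : ℂ × ℂ → ℂ} {m : ℕ} (hm : m ≠ 0) {p p₁ : ℂ → ℂ × ℂ} {o o₁ : ℂ → ℂ} {z : ℂ} (hΨ : AnalyticAt ℂ Ψ (p z))
    (hv : AnalyticAt ℂ v (p z)) (hv' : AnalyticAt ℂ v' (Ψ (p z))) (hh : AnalyticAt ℂ h (p z))
    (hrel : ∀ᶠ Q in 𝓝 (p z), fderiv ℂ Ψ Q (v Q) = h Q • v' (Ψ Q)) (ho : ∀ᶠ w in 𝓝 z, o w = jc Ψ (p w) ^ m * o₁ w) (ho₁ : AnalyticAt ℂ o₁ z)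
    (hp : AnalyticAt ℂ p z) (hp₁ : ∀ᶠ w in 𝓝 z, p₁ w = Ψ (p w)) (hode : ∀ᶠ w in 𝓝 z, (v (p w)).1 * (deriv p w).2 - (v (p w)).2 * (deriv p w).1 = 0)
    (hv0 : v (p z) ≠ 0) (hd : deriv p z ≠ 0) (hJ : jc Ψ (p z) ≠ 0) (ho0 : o₁ z ≠ 0) (hh0 : h (p z) ≠ 0) (hv'0 : v' (Ψ (p z)) ≠ 0) :
    deriv (ztv v p) z / ztv v p z + dvg v (p z) * ztv v p z + 1 / m * (deriv o z / o z) =
      deriv (ztv v' p₁) z / ztv v' p₁ z + dvg v' (p₁ z) * ztv v' p₁ z + 1 / m * (deriv o₁ z / o₁ z) := by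
  have hvp : AnalyticAt ℂ (fun w => v (p w)) z := AnalyticAt.fun_comp (g := v) (f := p) hv hp
  have hvne : ∀ᶠ w in 𝓝 z, v (p w) ≠ 0 := hvp.continuousAt.eventually_ne hv0
  have hζ : AnalyticAt ℂ (ztv v p) z := ztv_an hp hv hode hv0
  have hder : ∀ᶠ w in 𝓝 z, deriv p w = ztv v p w • v (p w) := by
    filter_upwards [hode, hvne] with w e1 e2
    exact ztv_smul e1 e2
  have hζ0 : ztv v p z ≠ 0 := by
    intro h1
    have h2 := hder.self_of_nhds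
    rw [h1, zero_smul] at h2
    exact hd h2
  have hv'p : AnalyticAt ℂ (fun w => v' (Ψ (p w))) z :=
    AnalyticAt.fun_comp (g := v') (f := fun w => Ψ (p w)) hv' (AnalyticAt.fun_comp (g := Ψ) (f := p) hΨ hp)
  have hz₁ : ∀ᶠ w in 𝓝 z, ztv v' p₁ w = h (p w) * ztv v p w := by
    filter_upwards [hder, hp₁, hp₁.eventually_nhds, hp.continuousAt.eventually hrel, hp.continuousAt.eventually hΨ.eventually_analyticAt,
      hp.eventually_analyticAt, hv'p.continuousAt.eventually_ne hv'0] with w e1 e2 e3 e4 e5 e6 e7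
    refine ztv_of ?_ (by rw [e2]; exact e7)
    have h1 : deriv p₁ w = fderiv ℂ Ψ (p w) (deriv p w) := by
      have h2 : p₁ =ᶠ[𝓝 w] fun w => Ψ (p w) := e3
      rw [h2.deriv_eq]
      exact (e5.differentiableAt.hasFDerivAt.comp_hasDerivAt w e6.differentiableAt.hasDerivAt).deriv
    rw [h1, e1, map_smul, e4, smul_smul, e2, mul_comm]
  have hz₁' : ztv v' p₁ =ᶠ[𝓝 z] fun w => h (p w) * ztv v p w := hz₁
  have ho' : o =ᶠ[𝓝 z] fun w => jc Ψ (p w) ^ m * o₁ w := ho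
  have key := curve_rule hΨ hv hv' hh hrel hp hζ hder.self_of_nhds hζ0 hh0 hJ
  have h1 : DifferentiableAt ℂ (fun u => jc Ψ (p u)) z := ((jc_an hΨ).comp hp).differentiableAt
  have h4 : deriv (fun u => jc Ψ (p u) ^ m * o₁ u) z =
      (m * jc Ψ (p z) ^ (m - 1) * deriv (fun u => jc Ψ (p u)) z) * o₁ z + jc Ψ (p z) ^ m * deriv o₁ z :=
    ((h1.hasDerivAt.pow m).mul ho₁.differentiableAt.hasDerivAt).deriv
  have h5 : 1 / (m : ℂ) * (deriv o z / o z) = deriv (fun u => jc Ψ (p u)) z / jc Ψ (p z) + 1 / m * (deriv o₁ z / o₁ z) := by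
    rw [ho'.deriv_eq, ho.self_of_nhds, h4]
    obtain ⟨n, rfl⟩ : ∃ n, m = n + 1 := ⟨m - 1, by omega⟩
    have hm' : ((n + 1 : ℕ) : ℂ) ≠ 0 := by exact_mod_cast hm
    simp only [Nat.add_sub_cancel]
    field_simp
    ring
  rw [hz₁'.deriv_eq, hz₁.self_of_nhds, hp₁.self_of_nhds, h5]
  linear_combination -key

/-- the logarithmic derivative of `J ^ m o` -/
theorem logder_pow {J o : ℂ → ℂ} {z : ℂ} {m : ℕ} (hm : m ≠ 0) (hJ : DifferentiableAt ℂ J z) (ho : DifferentiableAt ℂ o z) (hJ0 : J z ≠ 0) (ho0 : o z ≠ 0) :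
    deriv J z / J z + 1 / m * (deriv o z / o z) = 1 / m * (deriv (fun w => J w ^ m * o w) z / (J z ^ m * o z)) := by
  have h4 : deriv (fun u => J u ^ m * o u) z = (m * J z ^ (m - 1) * deriv J z) * o z + J z ^ m * deriv o z :=
    ((hJ.hasDerivAt.pow m).mul ho.hasDerivAt).deriv
  rw [h4]
  obtain ⟨n, rfl⟩ : ∃ n, m = n + 1 := ⟨m - 1, by omega⟩
  have hm' : ((n + 1 : ℕ) : ℂ) ≠ 0 := by exact_mod_cast hm
  simp only [Nat.add_sub_cancel]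
  field_simp
  ring

theorem inj_of_jc {κ : ℂ × ℂ → ℂ × ℂ} {Q : ℂ × ℂ} (h : jc κ Q ≠ 0) {w : ℂ × ℂ} (hw : fderiv ℂ κ Q w = 0) : w = 0 := by
  rw [split_vec] at hw
  have e1 := congrArg Prod.fst hw
  have e2 := congrArg Prod.snd hw
  simp only [Prod.fst_add, Prod.snd_add, Prod.smul_fst, Prod.smul_snd, smul_eq_mul, Prod.fst_zero, Prod.snd_zero] at e1 e2
  rw [jc] at h
  refine Prod.ext ?_ ?_
  · refine (mul_eq_zero.1 (?_ : w.1 * _ = 0)).resolve_right h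
    linear_combination (fderiv ℂ κ Q (0, 1)).2 * e1 - (fderiv ℂ κ Q (0, 1)).1 * e2
  · refine (mul_eq_zero.1 (?_ : w.2 * _ = 0)).resolve_right h
    linear_combination (fderiv ℂ κ Q (1, 0)).1 * e2 - (fderiv ℂ κ Q (1, 0)).2 * e1

/-! ## tangent vectors and the form -/

variable {M : ℕ} {X₀ : Set (EN M)}

theorem tanS_smul (hX : Surface X₀) {x u : EN M} (h : u ∈ Pool.Agent.H17BP.Tan X₀ x) {c : ℂ} (hc : c ≠ 0) : c • u ∈ Pool.Agent.H17BP.Tan X₀ (c • x) := by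
  obtain ⟨γ, h1, h2, h3, h4⟩ := h
  refine ⟨fun z => c • γ z, (analyticAt_const (v := c)).fun_smul h1, h2.mono fun z hz => hX.smul _ hz c hc, by simp only [h3], ?_⟩
  have h5 : HasDerivAt (fun z => c • γ z) (c • deriv γ 0) 0 := h1.differentiableAt.hasDerivAt.const_smul c
  rw [h5.deriv, h4]

theorem tan_fderiv {ρ : ℂ × ℂ → EN M} {Q : ℂ × ℂ} (hρ : AnalyticAt ℂ ρ Q) (hm : ∀ᶠ q in 𝓝 Q, ρ q ∈ X₀) (e : ℂ × ℂ) :
    fderiv ℂ ρ Q e ∈ Pool.Agent.H17BP.Tan X₀ (ρ Q) := Pool.Agent.E2.tan_iff.1 (Pool.Agent.E1.ResL_tan hρ hm e)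

theorem form_comb {mK jH : ℕ} {Wf : EN M → EN M → EN M → ℂ} (hW : IsForm X₀ mK jH Wf) {x u w : EN M} (hx : x ∈ X₀)
    (hu : u ∈ Pool.Agent.H17BP.Tan X₀ x) (hw : w ∈ Pool.Agent.H17BP.Tan X₀ x) (hsum : ∀ a b : ℂ, a • u + b • w ∈ Pool.Agent.H17BP.Tan X₀ x)
    (a b c d a' c' : ℂ) : Wf x ((a • u + b • w) + a' • x) ((c • u + d • w) + c' • x) = (a * d - b * c) ^ mK * Wf x u w := by
  rw [hW.add_smul x hx _ (hsum a b) _ (hsum c d), hW.det x hx u hu w hw]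

/-! ## the charts -/

theorem split_E {E : Type*} [NormedAddCommGroup E] [NormedSpace ℂ E] (L : ℂ × ℂ →L[ℂ] E) (u : ℂ × ℂ) : L u = u.1 • L (1, 0) + u.2 • L (0, 1) := by
  rw [← map_smul, ← map_smul, ← map_add]
  congr 1
  refine Prod.ext ?_ ?_ <;> simp

section

variable {P : Ideal (MvPolynomial (Fin (M + 1)) ℂ)} {RD : MvPolynomial (Fin (M + 1)) ℂ} {m : ℕ} {X : NCModel P RD} {θ : WDiff (coneE P) m}
  {l : LF M} {S : Web X θ l}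

theorem kap_an (k : S.ι) (q : ℂ × ℂ) : AnalyticAt ℂ (S.κ k) q := analyticAt_mono q

theorem kap_jc (k : S.ι) {q : ℂ × ℂ} (h0 : q.1 * q.2 ≠ 0) : jc (S.κ k) q ≠ 0 := by
  have h := jac_mono_ne (S.c k).basis.det h0
  rw [mul_comm (fderiv ℂ (mono (S.c k).w (S.c k).w') q (1, 0)).2] at h
  exact h

theorem kap_DS (k : S.ι) {q : ℂ × ℂ} (hq : q ∈ S.D k) (h0 : q.1 * q.2 ≠ 0) : S.κ k q ∈ DS := mono_mem_DS hq.1 h0

theorem sig_an (k : S.ι) {q : ℂ × ℂ} (hq : q ∈ S.D k) : AnalyticAt ℂ (S.σ k) q :=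
  AnalyticAt.fun_comp (g := X.ρ k.1) (f := S.κ k) (wtn_rho_an hq.2) (kap_an k q)

theorem sig_mem (k : S.ι) {q : ℂ × ℂ} (hq : q ∈ S.D k) : ∀ᶠ x in 𝓝 q, S.σ k x ∈ coneE P :=
  (kap_an k q).continuousAt.eventually (wtn_rho_mem hq.2)

theorem sig_fderiv (k : S.ι) {q : ℂ × ℂ} (hq : q ∈ S.D k) (e : ℂ × ℂ) :
    fderiv ℂ (S.σ k) q e = fderiv ℂ (X.ρ k.1) (S.κ k q) (fderiv ℂ (S.κ k) q e) := by
  have h1 : HasFDerivAt (S.σ k) ((fderiv ℂ (X.ρ k.1) (S.κ k q)).comp (fderiv ℂ (S.κ k) q)) q :=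
    (wtn_rho_an (X := X) hq.2).differentiableAt.hasFDerivAt.comp q (kap_an k q).differentiableAt.hasFDerivAt
  rw [h1.fderiv]
  rfl

theorem sig_imm (k : S.ι) {q : ℂ × ℂ} (hq : q ∈ S.D k) (h0 : q.1 * q.2 ≠ 0) : Imm (coneE P) (S.σ k) q := by
  refine ⟨sig_an k hq, sig_mem k hq, fun w a h => ?_⟩
  rw [sig_fderiv k hq] at h
  exact inj_of_jc (kap_jc k h0) ((X.box k.1).indep _ (kap_DS k hq h0) _ a h)

/-! ## the factor and the weight -/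

variable {F : ℂ → EN M}

theorem cf_tan (hX : Surface (coneE P)) (Y : NCLift X F) {i : X.ι} {z : ℂ} (hz : z ∈ Y.U i) (e : ℂ × ℂ) :
    cf Y i z • fderiv ℂ (X.ρ i) (Y.p i z) e ∈ Pool.Agent.H17BP.Tan (coneE P) (F z) := by
  obtain ⟨h1, h2⟩ := cf_spec Y hz
  rw [h2]
  exact tanS_smul hX (tan_fderiv (wtn_rho_an (Y.mem i z hz)) (wtn_rho_mem (Y.mem i z hz)) e) h1

variable {Wf : EN M → EN M → EN M → ℂ} {mK jH : ℕ}

/-- the weight in the chart `k` -/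
def oc (S : Web X θ l) (Wf : EN M → EN M → EN M → ℂ) (Y : NCLift X F) (k : S.ι) (w : ℂ) : ℂ :=
  Wf (F w) (cf Y k.1 w • fderiv ℂ (S.σ k) (S.lf Y k w) (1, 0)) (cf Y k.1 w • fderiv ℂ (S.σ k) (S.lf Y k w) (0, 1))

/-- the weight in the chart and the weight in the box -/
theorem oc_eq (hX : Surface (coneE P)) (hW : IsForm (coneE P) mK jH Wf) (Y : NCLift X F) {k : S.ι} {w : ℂ} (hM : F w ∈ coneE P) (hU : w ∈ Y.U k.1)
    (hD : S.lf Y k w ∈ S.D k) (hκ : S.κ k (S.lf Y k w) = Y.p k.1 w) : oc S Wf Y k w = jc (S.κ k) (S.lf Y k w) ^ mK * wt Wf Y k.1 w := by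
  have hv : ∀ e, cf Y k.1 w • fderiv ℂ (S.σ k) (S.lf Y k w) e = (fderiv ℂ (S.κ k) (S.lf Y k w) e).1 • (cf Y k.1 w • fderiv ℂ (X.ρ k.1) (Y.p k.1 w) (1, 0)) +
      (fderiv ℂ (S.κ k) (S.lf Y k w) e).2 • (cf Y k.1 w • fderiv ℂ (X.ρ k.1) (Y.p k.1 w) (0, 1)) := by
    intro e
    rw [sig_fderiv k hD, hκ, split_E (fderiv ℂ (X.ρ k.1) (Y.p k.1 w))]
    rw [smul_add, smul_comm (cf Y k.1 w), smul_comm (cf Y k.1 w)]
  rw [oc, hv, hv, hW.det _ hM _ (cf_tan hX Y hU _) _ (cf_tan hX Y hU _), jc, wt,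
    mul_comm (fderiv ℂ (S.κ k) (S.lf Y k w) (1, 0)).2]

theorem cf_tan' (hX : Surface (coneE P)) (Y : NCLift X F) {k : S.ι} {w : ℂ} (hU : w ∈ Y.U k.1) (hD : S.lf Y k w ∈ S.D k)
    (hκ : S.κ k (S.lf Y k w) = Y.p k.1 w) (e : ℂ × ℂ) : cf Y k.1 w • fderiv ℂ (S.σ k) (S.lf Y k w) e ∈ Pool.Agent.H17BP.Tan (coneE P) (F w) := by
  rw [sig_fderiv k hD, hκ]
  exact cf_tan hX Y hU _

/-- the weights in two charts -/
theorem oc_chg (hX : Surface (coneE P)) (hW : IsForm (coneE P) mK jH Wf) (Y : NCLift X F) {k k' : S.ι} {w : ℂ} (hM : F w ∈ coneE P)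
    (hU : w ∈ Y.U k.1) (hκ : S.κ k (S.lf Y k w) = Y.p k.1 w)
    (hU' : w ∈ Y.U k'.1) (hD' : S.lf Y k' w ∈ S.D k') (hκ' : S.κ k' (S.lf Y k' w) = Y.p k'.1 w)
    {Ψ : ℂ × ℂ → ℂ × ℂ} {b : ℂ × ℂ → ℂ} (hΨ : AnalyticAt ℂ Ψ (S.lf Y k w)) (hb : AnalyticAt ℂ b (S.lf Y k w))
    (he : ∀ᶠ x in 𝓝 (S.lf Y k w), S.σ k x = b x • S.σ k' (Ψ x)) (h0 : Ψ (S.lf Y k w) = S.lf Y k' w) :
    oc S Wf Y k w = jc Ψ (S.lf Y k w) ^ mK * oc S Wf Y k' w := by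
  set q := S.lf Y k w with hq
  set q' := S.lf Y k' w with hq'
  obtain ⟨c1, c2⟩ := cf_spec Y hU
  obtain ⟨c1', c2'⟩ := cf_spec Y hU'
  have hσ' : AnalyticAt ℂ (S.σ k') (Ψ q) := by rw [h0]; exact sig_an k' hD'
  have hσΨ : AnalyticAt ℂ (fun x => S.σ k' (Ψ x)) q := AnalyticAt.fun_comp (g := S.σ k') (f := Ψ) hσ' hΨ
  have hFk : F w = cf Y k.1 w • S.σ k q := by rw [Web.σ, hκ]; exact c2
  have hFk' : F w = cf Y k'.1 w • S.σ k' q' := by rw [Web.σ, hκ']; exact c2'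
  have hne : S.σ k' q' ≠ 0 := by rw [Web.σ]; exact wtn_rho_ne hX hD'.2
  have hcc : cf Y k'.1 w = cf Y k.1 w * b q := by
    have h1 := he.self_of_nhds
    rw [h1, h0, smul_smul, hFk'] at hFk
    exact smul_left_injective ℂ hne hFk
  have hv : ∀ e, cf Y k.1 w • fderiv ℂ (S.σ k) q e = ((fderiv ℂ Ψ q e).1 • (cf Y k'.1 w • fderiv ℂ (S.σ k') q' (1, 0)) +
      (fderiv ℂ Ψ q e).2 • (cf Y k'.1 w • fderiv ℂ (S.σ k') q' (0, 1))) + (cf Y k.1 w * fderiv ℂ b q e / cf Y k'.1 w) • F w := by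
    intro e
    have h1 : HasFDerivAt (fun x => b x • S.σ k' (Ψ x)) _ q := hb.differentiableAt.hasFDerivAt.smul hσΨ.differentiableAt.hasFDerivAt
    have h2 : fderiv ℂ (S.σ k) q = fderiv ℂ (fun x => b x • S.σ k' (Ψ x)) q := Filter.EventuallyEq.fderiv_eq he
    have h3 : HasFDerivAt (fun x => S.σ k' (Ψ x)) ((fderiv ℂ (S.σ k') (Ψ q)).comp (fderiv ℂ Ψ q)) q :=
      hσ'.differentiableAt.hasFDerivAt.comp q hΨ.differentiableAt.hasFDerivAt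
    rw [h2, h1.fderiv]
    simp only [add_apply, smul_apply, ContinuousLinearMap.smulRight_apply, h3.fderiv, ContinuousLinearMap.comp_apply]
    rw [h0, split_E (fderiv ℂ (S.σ k') q') (fderiv ℂ Ψ q e), smul_add, smul_smul, ← hcc, smul_smul, smul_add, smul_smul, smul_smul, smul_smul, smul_smul, hFk',
      smul_smul, div_mul_cancel₀ _ c1', mul_comm _ (cf Y k'.1 w), mul_comm _ (cf Y k'.1 w)]
  have hs : ∀ a b : ℂ, a • (cf Y k'.1 w • fderiv ℂ (S.σ k') q' (1, 0)) + b • (cf Y k'.1 w • fderiv ℂ (S.σ k') q' (0, 1)) ∈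
      Pool.Agent.H17BP.Tan (coneE P) (F w) := by
    intro a b
    have h1 := cf_tan' hX Y hU' hD' hκ' (a, b)
    rw [← hq', split_E (fderiv ℂ (S.σ k') q') (a, b), smul_add, smul_comm _ a, smul_comm _ b] at h1
    exact h1
  rw [oc, oc, ← hq, ← hq', hv, hv, form_comb hW hM (cf_tan' hX Y hU' hD' hκ' _) (cf_tan' hX Y hU' hD' hκ' _) hs, jc,
    mul_comm (fderiv ℂ Ψ q (1, 0)).2]

/-! ## good points -/

/-- the conditions at a good point -/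
structure Gd (S : Web X θ l) (Wf : EN M → EN M → EN M → ℂ) (Y : NCLift X F) (k : S.ι) (w : ℂ) : Prop where
  mem : w ∈ S.Om Y k
  off : (S.lf Y k w).1 * (S.lf Y k w).2 ≠ 0
  der : deriv (S.lf Y k) w ≠ 0
  v_ne : S.v k (S.lf Y k w) ≠ 0
  wt_ne : wt Wf Y k.1 w ≠ 0

theorem thn_mem (Y : NCLift X F) {k : S.ι} (hc : BCrv θ l (X.ρ k.1) F (Y.U k.1) (Y.p k.1)) {w : ℂ} (hw : w ∈ S.Om Y k) :
    w ∈ Y.U k.1 ∧ S.lf Y k w ∈ S.D k ∧ S.κ k (S.lf Y k w) = Y.p k.1 w := by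
  have h1 : w ∈ Y.U k.1 := om_sub hc (S.c k) hw
  obtain ⟨h2, h3⟩ := lf_mem hc (S.c k) w hw
  refine ⟨h1, ⟨h2, ?_⟩, h3⟩
  show S.κ k (S.lf Y k w) ∈ X.B k.1
  rw [show S.κ k (S.lf Y k w) = Y.p k.1 w from h3]
  exact Y.mem _ _ h1

theorem pexp_log {q : ℂ × ℂ} (h0 : q.1 * q.2 ≠ 0) : pexp (Complex.log q.1, Complex.log q.2) = q :=
  Prod.ext (Complex.exp_log (left_ne_zero_of_mul h0)) (Complex.exp_log (right_ne_zero_of_mul h0))

/-- the function `Θ` does not depend on the chart -/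
theorem thc_eq (hX : Surface (coneE P)) (hm : 1 ≤ mK) (hW : IsForm (coneE P) mK jH Wf) (hF : Differentiable ℂ F) (hM : ∀ z, F z ∈ coneE P) (Y : NCLift X F)
    (hc : ∀ i, BCrv θ l (X.ρ i) F (Y.U i) (Y.p i)) {k k' : S.ι} {w : ℂ} (g : Gd S Wf Y k w) (g' : Gd S Wf Y k' w) :
    ThC S Wf mK Y k w = ThC S Wf mK Y k' w := by
  obtain ⟨hU, hD, hκ⟩ := thn_mem Y (hc k.1) g.mem
  obtain ⟨hU', hD', hκ'⟩ := thn_mem Y (hc k'.1) g'.mem
  have hO : IsOpen (S.Om Y k) := om_open (hc k.1) (S.c k)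
  have hO' : IsOpen (S.Om Y k') := om_open (hc k'.1) (S.c k')
  have hlf : AnalyticAt ℂ (S.lf Y k) w := lf_an (hc k.1) (S.c k) w g.mem
  have hlf' : AnalyticAt ℂ (S.lf Y k') w := lf_an (hc k'.1) (S.c k') w g'.mem
  have hσ : ∀ u ∈ S.Om Y k, u ∈ S.Om Y k' → ∃ a : ℂ, a ≠ 0 ∧ S.σ k (S.lf Y k u) = a • S.σ k' (S.lf Y k' u) := by
    intro u hu hu'
    obtain ⟨e1, -, e3⟩ := thn_mem Y (hc k.1) hu
    obtain ⟨e1', -, e3'⟩ := thn_mem Y (hc k'.1) hu'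
    obtain ⟨c1, c2⟩ := cf_spec Y e1
    obtain ⟨c1', c2'⟩ := cf_spec Y e1'
    refine ⟨(cf Y k.1 u)⁻¹ * cf Y k'.1 u, mul_ne_zero (inv_ne_zero c1) c1', ?_⟩
    rw [Web.σ, Web.σ, e3, e3', mul_smul, ← c2']
    conv_rhs => rw [c2]
    rw [inv_smul_smul₀ c1]
  obtain ⟨a, ha, hae⟩ := hσ w g.mem g'.mem
  obtain ⟨Ψ, b, hΨ, hΨ0, hb, hb0, he, hJ, hinj, huniq⟩ := exists_trans hX (sig_imm k hD g.off) (sig_imm k' hD' g'.off) ha hae
  have hs1 := lf_slope (hc k.1) (S.c k) w g.mem _ (pexp_log g.off)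
  have hs2 := lf_slope (hc k'.1) (S.c k') w g'.mem _ (pexp_log g'.off)
  obtain ⟨h, hh, hh0, hrel⟩ := fol_trans (S.c k) (S.c k') hD.1 hD'.1 g.off g'.off hΨ hΨ0 hinj hb hb0 he (pexp_log g.off) (pexp_log g'.off) (hs1.symm.trans hs2)
  have hp₁ : ∀ᶠ u in 𝓝 w, S.lf Y k' u = Ψ (S.lf Y k u) := by
    have h1 : Tendsto (fun u => (S.lf Y k u, S.lf Y k' u)) (𝓝 w) (𝓝 (S.lf Y k w, S.lf Y k' w)) :=
      hlf.continuousAt.prodMk hlf'.continuousAt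
    filter_upwards [h1.eventually huniq, hO.mem_nhds g.mem, hO'.mem_nhds g'.mem] with u e1 e2 e3
    exact e1 (hσ u e2 e3)
  have ho : ∀ᶠ u in 𝓝 w, oc S Wf Y k u = jc Ψ (S.lf Y k u) ^ mK * oc S Wf Y k' u := by
    filter_upwards [hp₁, hlf.continuousAt.eventually he.eventually_nhds, hlf.continuousAt.eventually hΨ.eventually_analyticAt,
      hlf.continuousAt.eventually hb.eventually_analyticAt, hO.mem_nhds g.mem, hO'.mem_nhds g'.mem] with u e1 e2 e3 e4 e5 e6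
    obtain ⟨f1, -, f3⟩ := thn_mem Y (hc k.1) e5
    obtain ⟨f1', f2', f3'⟩ := thn_mem Y (hc k'.1) e6
    exact oc_chg hX hW Y (hM u) f1 f3 f1' f2' f3' e3 e4 e2 e1.symm
  have hoc : ∀ {j : S.ι}, Gd S Wf Y j w → (oc S Wf Y j =ᶠ[𝓝 w] fun u => jc (S.κ j) (S.lf Y j u) ^ mK * wt Wf Y j.1 u) ∧
      AnalyticAt ℂ (fun u => jc (S.κ j) (S.lf Y j u)) w ∧ AnalyticAt ℂ (wt Wf Y j.1) w := by
    intro j gj
    obtain ⟨f1, -, -⟩ := thn_mem Y (hc j.1) gj.mem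
    refine ⟨?_, ?_, wt_an hX hm hW hF Y j.1 w f1⟩
    · filter_upwards [(om_open (hc j.1) (S.c j)).mem_nhds gj.mem] with u e1
      obtain ⟨f1, f2, f3⟩ := thn_mem Y (hc j.1) e1
      exact oc_eq hX hW Y (hM u) f1 f2 f3
    · exact AnalyticAt.fun_comp (g := jc (S.κ j)) (f := S.lf Y j) (jc_an (kap_an j _)) (lf_an (hc j.1) (S.c j) w gj.mem)
  have hfin : ∀ {j : S.ι}, Gd S Wf Y j w → ThC S Wf mK Y j w = deriv (ztv (S.v j) (S.lf Y j)) w / ztv (S.v j) (S.lf Y j) w +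
      dvg (S.v j) (S.lf Y j w) * ztv (S.v j) (S.lf Y j) w + 1 / mK * (deriv (oc S Wf Y j) w / oc S Wf Y j w) := by
    intro j gj
    obtain ⟨f1, f2, f3⟩ := hoc gj
    have h1 := logder_pow (m := mK) (by omega) f2.differentiableAt f3.differentiableAt (kap_jc j gj.off) gj.wt_ne
    rw [f1.deriv_eq, f1.self_of_nhds, ← h1, ThC]
    ring
  rw [hfin g, hfin g']
  have hoan : AnalyticAt ℂ (oc S Wf Y k') w := by
    obtain ⟨f1, f2, f3⟩ := hoc g'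
    exact ((f2.fun_pow mK).fun_mul f3).congr f1.symm
  have hone : oc S Wf Y k' w ≠ 0 := by
    rw [(hoc g').1.self_of_nhds]
    exact mul_ne_zero (pow_ne_zero _ (kap_jc k' g'.off)) g'.wt_ne
  refine Th_core (Ψ := Ψ) (h := h) (by omega) hΨ ((S.c k).v_an _ hD.1) ?_ hh hrel ho hoan hlf hp₁ ?_ g.v_ne g.der hJ hone hh0 ?_
  · rw [hΨ0]
    exact (S.c k').v_an _ hD'.1
  · filter_upwards [hO.mem_nhds g.mem] with u e1
    exact sub_eq_zero.2 (lf_tan (hc k.1) (S.c k) u e1)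
  · rw [hΨ0]
    exact g'.v_ne

theorem gd_ev (Y : NCLift X F) {k : S.ι} (hc : BCrv θ l (X.ρ k.1) F (Y.U k.1) (Y.p k.1)) (hne : WNe Wf Y) {z : ℂ} (hz : z ∈ S.Om Y k) :
    ∀ᶠ w in 𝓝[≠] z, Gd S Wf Y k w := by
  obtain ⟨hU, hD, -⟩ := thn_mem Y hc hz
  have hlf : AnalyticAt ℂ (S.lf Y k) z := lf_an hc (S.c k) z hz
  have hder : ∀ᶠ w in 𝓝[≠] z, (S.lf Y k w).1 * (S.lf Y k w).2 ≠ 0 ∧ deriv (S.lf Y k) w ≠ 0 := lf_ne hc (S.c k) z hz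
  have hnc : ∀ᶠ w in 𝓝[≠] z, S.lf Y k w ≠ S.lf Y k z := by
    rcases hlf.eventually_eq_or_eventually_ne analyticAt_const (g := fun _ => S.lf Y k z) with h | h
    · exfalso
      have h1 : ∀ᶠ w in 𝓝 z, deriv (S.lf Y k) w = 0 := by
        filter_upwards [h.eventually_nhds] with w hw
        have h2 : S.lf Y k =ᶠ[𝓝 w] fun _ => S.lf Y k z := hw
        rw [h2.deriv_eq, deriv_const]
      obtain ⟨w, h3, h4⟩ := (hder.and (eventually_nhdsWithin_of_eventually_nhds h1)).exists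
      exact h3.2 h4
    · exact h
  filter_upwards [hder, hnc, eventually_nhdsWithin_of_eventually_nhds ((om_open hc (S.c k)).mem_nhds hz), hne k.1 z hU,
    eventually_nhdsWithin_of_eventually_nhds (hlf.continuousAt.eventually ((S.c k).v_iso _ hD.1))] with w e1 e2 e3 e4 e5
  exact ⟨e3, e1.1, e1.2, e5 e2, e4⟩

/-- **The function `Θ`.** -/
theorem exists_theta (hX : Surface (coneE P)) (hm : 1 ≤ mK) (hW : IsForm (coneE P) mK jH Wf) (hF : WCrv θ RD F) (Y : NCLift X F) (hne : WNe Wf Y) :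
    ∃ Θ : ℂ → ℂ, IsTh S Wf mK Y Θ := by
  classical
  refine ⟨fun w => if h : ∃ k : S.ι, Gd S Wf Y k w then ThC S Wf mK Y h.choose w else 0, fun k z hz => ?_⟩
  filter_upwards [gd_ev Y (bcrv hF Y k.1) hne hz] with w hw
  have h : ∃ k : S.ι, Gd S Wf Y k w := ⟨k, hw⟩
  simp only [dif_pos h]
  exact thc_eq hX hm hW hF.diff hF.mem Y (fun i => bcrv hF Y i) h.choose_spec hw

end

end Pool.Agent.MQ3
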