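import Pool.Agent.MQ3.AsmA
import Pool.Agent.MQ3.AsmNA
import Pool.Agent.MQ3.AsmP
import Pool.Agent.MQ3.CutN
import Pool.Agent.MQ3.ThN
import Pool.Agent.MQ3.BdPN
import Pool.Agent.MQ3.BdN
import Pool.Agent.MQ.CoreMn
import Pool.Agent.MQ.OrdV

/-!
# MQ3 AsmN: the pack of a curve from the local packages
-/

set_option autoImplicit false

open Topology Filter Metric MvPolynomial MeasureTheory Laplacian

noncomputable section

namespace Pool.Agent.MQ3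

open Pool.Agent.H36.BP (EN fs)
open Pool.Agent.H17BP (Surface IsForm)
open Pool.Agent.H17EF (projVar coneE)
open Pool.Agent.H30M (tau LogSing)
open Pool.Agent.MQ (lam En gr dv Pack Patches)
open Pool.Agent.MQ2 (LocX)

/-! ## abstract patches -/

section

variable {M : ℕ} {F : ℂ → EN M} {Ψ : ℂ → ℂ} {ε₀ : ℝ}

theorem IsPatch.abs' {l : ℂ → ℝ} {U : Set ℂ} {e : ℂ → ℝ} {η : ℂ → ℂ} {err : ℂ → ℝ} {K : Set ℂ} {C δ : ℝ} (h0 : ∀ z, 0 ≤ l z)
    (h : IsPatch F Ψ ε₀ l U e η err K C δ) : IsPatch F Ψ ε₀ l U e η err K |C| δ := by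
  refine ⟨h.isOpen, h.pos, h.field, fun z hz => (h.field_le z hz).trans (mul_le_mul_of_nonneg_right (le_abs_self C) (h0 z)), h.comp, h.closed, h.sub,
    h.err_cont, h.err_off, h.lap, fun R hR => (h.int R hR).trans ?_, fun z hz he => (h.up z hz he).trans ?_⟩
  · have h2 : 0 ≤ ∫ z, ‖gr (tau R) z‖ * l z := integral_nonneg fun z => mul_nonneg (norm_nonneg _) (h0 z)
    have h3 := mul_le_mul_of_nonneg_right (le_abs_self C) h2
    have h4 := le_abs_self C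
    linarith
  · have h4 := le_abs_self C
    linarith

theorem energy_add {a b : ℂ → ℝ} (ha : Continuous a) (hb : Continuous b) (h1 : ∃ B : ℝ, ∀ R, 1 ≤ R → ∫ z, tau R z * a z ^ 2 ≤ B * (En F R + 1))
    (h2 : ∃ B : ℝ, ∀ R, 1 ≤ R → ∫ z, tau R z * b z ^ 2 ≤ B * (En F R + 1)) :
    ∃ B : ℝ, ∀ R, 1 ≤ R → ∫ z, tau R z * (a z + b z) ^ 2 ≤ B * (En F R + 1) := by
  obtain ⟨B₁, h1⟩ := h1
  obtain ⟨B₂, h2⟩ := h2
  refine ⟨2 * B₁ + 2 * B₂, fun R hR => ?_⟩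
  have i1 : ∀ {f : ℂ → ℝ}, Continuous f → Integrable fun z => tau R z * f z := fun hf =>
    ((Pool.Agent.H30M.contDiff_tau R).continuous.mul hf).integrable_of_hasCompactSupport (Pool.Agent.H30M.hcs_tau hR).mul_right
  have h3 : ∫ z, tau R z * (a z + b z) ^ 2 ≤ ∫ z, (2 * (tau R z * a z ^ 2) + 2 * (tau R z * b z ^ 2)) := by
    refine integral_mono (i1 ((ha.add hb).pow 2)) (((i1 (ha.pow 2)).const_mul 2).add ((i1 (hb.pow 2)).const_mul 2)) fun z => ?_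
    have h4 := Pool.Agent.H30M.tau_nonneg hR z
    have h5 : (a z + b z) ^ 2 ≤ 2 * a z ^ 2 + 2 * b z ^ 2 := by nlinarith [sq_nonneg (a z - b z)]
    have h6 := mul_le_mul_of_nonneg_left h5 h4
    dsimp only
    linarith
  have ia : Integrable fun z => 2 * (tau R z * a z ^ 2) := (i1 (ha.pow 2)).const_mul 2
  have ib : Integrable fun z => 2 * (tau R z * b z ^ 2) := (i1 (hb.pow 2)).const_mul 2
  rw [integral_add ia ib, integral_const_mul, integral_const_mul] at h3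
  have h7 := h1 R hR
  have h8 := h2 R hR
  linarith

theorem energy_sum' {n : Type} (s : Finset n) {l : n → ℂ → ℝ} (hl : ∀ j, Continuous (l j))
    (h : ∀ j, ∃ B : ℝ, ∀ R, 1 ≤ R → ∫ z, tau R z * l j z ^ 2 ≤ B * (En F R + 1)) {a : ℂ → ℝ} (ha : Continuous a)
    (h1 : ∃ B : ℝ, ∀ R, 1 ≤ R → ∫ z, tau R z * a z ^ 2 ≤ B * (En F R + 1)) :
    ∃ B : ℝ, ∀ R, 1 ≤ R → ∫ z, tau R z * (a z + ∑ j ∈ s, l j z) ^ 2 ≤ B * (En F R + 1) := by
  classical
  induction s using Finset.induction_on with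
  | empty => simpa using h1
  | insert j s hj ih =>
    have e : ∀ z, a z + ∑ i ∈ insert j s, l i z = (a z + ∑ i ∈ s, l i z) + l j z := fun z => by
      rw [Finset.sum_insert hj]
      ring
    simp only [e]
    exact energy_add (ha.add (continuous_finsetSum _ fun i _ => hl i)) (hl j) ih (h j)

/-- **The pack from finitely many patches.** -/
theorem pack_of_isPatch {ι : Type} [Fintype ι] {lm : ℂ → ℝ} {U K : ι → Set ℂ} {l : ι → ℂ → ℝ} {c D : ι → ℝ} {e : ι → ℂ → ℝ}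
    {η : ι → ℂ → ℂ} {err : ι → ℂ → ℝ} (hF : Differentiable ℂ F) (hF0 : ∀ z, F z ≠ 0)
    (hord : ∃ A : ℝ, ∀ r : ℝ, 0 < r → Real.circleAverage (fun z => Real.log ‖F z‖) 0 r ≤ A * (1 + r ^ 2)) (hlm : Continuous lm) (hle : ∀ z, lam F z ≤ lm z)
    (hen : ∃ B : ℝ, ∀ R, 1 ≤ R → ∫ z, tau R z * lm z ^ 2 ≤ B * (En F R + 1)) (hlc : ∀ i, Continuous (l i)) (hll : ∀ i z, lm z ≤ l i z)
    (hel : ∀ i, ∃ B : ℝ, ∀ R, 1 ≤ R → ∫ z, tau R z * l i z ^ 2 ≤ B * (En F R + 1)) (hD : ∀ i, 0 ≤ D i)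
    (h : ∀ i, IsPatch F Ψ ε₀ (l i) (U i) (e i) (η i) (err i) (K i) (c i) (D i)) (hdis : ∀ i j, i ≠ j → ∀ z ∈ K i, z ∉ U j)
    {χ : ι → ℂ → ℝ} {B : ℝ} (h1 : ∀ i, ContDiff ℝ 2 (χ i)) (h2 : ∀ i z, 0 ≤ χ i z ∧ χ i z ≤ 1) (h3 : ∀ i, tsupport (χ i) ⊆ U i)
    (h4 : ∀ i z, ‖gr (χ i) z‖ ≤ B * lm z) (h5 : ∀ z, ∃ i, χ i z = 1)
    (h6 : ∀ i j, ∃ B' : ℝ, ∀ z, χ i z = 1 → z ∈ tsupport (χ j) → ContDiffAt ℝ 2 (e i) z → ContDiffAt ℝ 2 (e j) z → |e i z - e j z| ≤ B') :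
    ∃ L : ℂ → ℝ, Continuous L ∧ (∀ z, lam F z ≤ L z) ∧ (∃ B : ℝ, ∀ R, 1 ≤ R → ∫ z, tau R z * L z ^ 2 ≤ B * (En F R + 1)) ∧ Pack F L ε₀ (∑ i, D i) := by
  classical
  choose Bb hBb using h6
  have hlm0 : ∀ z, 0 ≤ lm z := fun z => (Pool.Agent.MQ.lam_nonneg F z).trans (hle z)
  have hl0 : ∀ i z, 0 ≤ l i z := fun i z => (hlm0 z).trans (hll i z)
  set L : ℂ → ℝ := fun z => lm z + ∑ i, l i z with hL
  have hLc : Continuous L := hlm.add (continuous_finsetSum _ fun i _ => hlc i)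
  have hlL : ∀ i z, l i z ≤ L z := fun i z => by
    have h7 := Finset.single_le_sum (f := fun i => l i z) (fun k _ => hl0 k z) (Finset.mem_univ i)
    have h8 := hlm0 z
    show _ ≤ lm z + ∑ i, l i z
    linarith
  have hmL : ∀ z, lm z ≤ L z := fun z => by
    have h7 : 0 ≤ ∑ i, l i z := Finset.sum_nonneg fun i _ => hl0 i z
    show _ ≤ lm z + ∑ i, l i z
    linarith
  have hL0 : ∀ z, 0 ≤ L z := fun z => (hlm0 z).trans (hmL z)
  have hLe := energy_sum' (F := F) Finset.univ hlc hel hlm hen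
  set CC : ℝ := |B| + ∑ i, |c i| + ∑ i, ∑ j, |Bb i j| with hCC
  have n1 : 0 ≤ ∑ i, |c i| := Finset.sum_nonneg fun i _ => abs_nonneg _
  have n2 : 0 ≤ ∑ i, ∑ j, |Bb i j| := Finset.sum_nonneg fun i _ => Finset.sum_nonneg fun j _ => abs_nonneg _
  have hCC0 : 0 ≤ CC := by positivity
  have hcC : ∀ i, |c i| ≤ CC := fun i => by
    have h7 := Finset.single_le_sum (f := fun i => |c i|) (fun k _ => abs_nonneg _) (Finset.mem_univ i)
    have h8 := abs_nonneg B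
    linarith
  have hbC : ∀ i j, |Bb i j| ≤ CC := fun i j => by
    have h7 := Finset.single_le_sum (f := fun j => |Bb i j|) (fun k _ => abs_nonneg _) (Finset.mem_univ j)
    have h9 := Finset.single_le_sum (f := fun i => ∑ j, |Bb i j|) (fun k _ => Finset.sum_nonneg fun j _ => abs_nonneg _) (Finset.mem_univ i)
    have h8 := abs_nonneg B
    linarith
  have hBC : |B| ≤ CC := by linarith
  have hP : ∀ i, IsPatch F Ψ ε₀ L (U i) (e i) (η i) (err i) (K i) CC (D i) := fun i =>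
    ((h i).abs' (hl0 i)).mono (hlc i) hLc (hl0 i) (hlL i) (abs_nonneg _) (hcC i)
  have hPt : Patches L U χ e η CC :=
    { isOpen := fun i => (h i).isOpen
      smooth := h1
      nonneg := fun i z => (h2 i z).1
      le_one := fun i z => (h2 i z).2
      supp := h3
      gr_le := fun i z => (h4 i z).trans (mul_le_mul ((le_abs_self B).trans hBC) (hmL z) (hlm0 z) hCC0)
      cover := h5
      log := fun i z hz => let ⟨c', _, h7⟩ := (h i).pos z hz; ⟨c', h7⟩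
      field := fun i => (h i).field
      field_le := fun i => (hP i).field_le
      comp := fun i j z hi hj => by
        by_cases hij : i = j
        · subst hij
          exact Eventually.of_forall fun _ => rfl
        · filter_upwards [(h i).comp z hi fun hK => hdis i j hij z hK hj, (h j).comp z hj fun hK => hdis j i (Ne.symm hij) z hK hi] with w h7 h8
          rw [h7, h8]
      bound := fun i j z a1 a2 a3 a4 => (hBb i j z a1 a2 a3 a4).trans ((le_abs_self _).trans (hbC i j)) }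
  have hv : ∀ z : ℂ, ∃ c, LogSing (fun _ : ℂ => (0 : ℝ)) c z := fun z => ⟨0, LogSing.of_contDiffAt contDiffAt_const⟩
  have hΔ : ∀ z : ℂ, Δ (fun _ : ℂ => (0 : ℝ)) z = 0 := fun z => by simp
  obtain ⟨B₁, hB₁⟩ := hLe
  obtain ⟨A, hA⟩ := hord
  obtain ⟨A₁, hA₁⟩ := Pool.Agent.MQ.ord hF hF0 hA
  have hEn : ∀ R, 1 ≤ R → 0 ≤ En F R := fun R hR => integral_nonneg fun z => mul_nonneg (Pool.Agent.H30M.tau_nonneg hR z) (sq_nonneg _)
  have hA₂ : ∀ R, 1 ≤ R → ∫ z, tau R z * L z ^ 2 ≤ (|B₁| * (|A₁| + 1)) * R ^ 2 := fun R hR => by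
    have h7 := hB₁ R hR
    have h8 := hA₁ R hR
    have h9 : 1 ≤ R ^ 2 := one_le_pow₀ hR
    have h10 : En F R + 1 ≤ (|A₁| + 1) * R ^ 2 := by
      have h11 : A₁ * R ^ 2 ≤ |A₁| * R ^ 2 := mul_le_mul_of_nonneg_right (le_abs_self _) (sq_nonneg R)
      nlinarith
    have h12 : B₁ * (En F R + 1) ≤ |B₁| * (En F R + 1) := mul_le_mul_of_nonneg_right (le_abs_self _) (by linarith [hEn R hR])
    have h13 := mul_le_mul_of_nonneg_left h10 (abs_nonneg B₁)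
    linarith
  have hp : ∀ i, ∀ z ∈ U i, ∃ c, 0 ≤ c ∧ LogSing (fun w => e i w + (fun _ : ℂ => (0 : ℝ)) w) c z := fun i z hz => by
    obtain ⟨c', h7, h8⟩ := (h i).pos z hz
    exact ⟨c', h7, h8.congr (Eventually.of_forall fun w => add_zero _)⟩
  refine ⟨L, hLc, fun z => (hle z).trans (hmL z), ⟨B₁, hB₁⟩, ?_⟩
  refine pack_of_patches_dis (v := fun _ => 0) (Pool.Agent.MQ.continuous_lam hF hF0) hLc hL0 hCC0 hPt (fun i => (h i).closed) (fun i => (h i).sub)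
    (fun i => (h i).err_cont) hdis (fun i => (h i).err_off) (fun i => ⟨CC, (hP i).int⟩) hv (fun i z hz he _ => ?_) hp (fun i => ?_)
  · have h7 := (h i).lap z hz he
    rw [hΔ z]
    linarith
  · refine Pool.Agent.MQ.Core.mean_of_le F hPt hLc hL0 hA₂ i hv (hp i) (C₀ := CC) (fun z h7 h8 _ => ?_) (hD i)
    have h9 : z ∈ U i := h3 i (subset_tsupport _ (by rw [Function.mem_support, h7]; exact one_ne_zero))
    have h10 := (hP i).up z h9 h8
    linarith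

end

variable {M : ℕ} {P : Ideal (MvPolynomial (Fin (M + 1)) ℂ)} {RD : MvPolynomial (Fin (M + 1)) ℂ} {m : ℕ} {X : NCModel P RD} {θ : WDiff (coneE P) m}
  {l : LF M} {S : Web X θ l} {Ra : MvPolynomial (Fin (M + 1)) ℂ}

/-- **The pack of a curve from the local packages.** -/
theorem pack_web {Wf : EN M → EN M → EN M → ℂ} {mK jH : ℕ} (hX : Surface (coneE P)) (hm : 1 ≤ mK)
    (hW : IsForm (coneE P) mK jH Wf) (C : Cov S Ra) {g : Fin C.nP → ℂ × ℂ → ℂ} (hg : PG C g) {F : ℂ → EN M} (hF : RCrv θ RD Ra F)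
    (Y : NCLift X F) (hne : WNe Wf Y) {A : ℝ} (hA : 0 ≤ A) {lm : ℂ → ℝ} (hl : Dens C Y A lm) {A' δ : ℝ} (hδ : 0 ≤ δ)
    (hL : ∀ j, LocX (C.vj j) (fun x => g j (C.Q j + x)) (C.Jj j) (C.UP Y j) (C.pj Y j) lm (C.s j) A' δ) :
    ∃ L : ℂ → ℝ, Continuous L ∧ (∀ z, lam F z ≤ L z) ∧ (∃ B : ℝ, ∀ R, 1 ≤ R → ∫ z, tau R z * L z ^ 2 ≤ B * (En F R + 1)) ∧
      Pack F L (2 * jH / mK) (C.nP * (δ * A)) := by
  classical
  obtain ⟨Θ, hΘ⟩ := exists_theta hX hm hW hF.toWCrv Y hne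
  choose c ll e η err hP hlc hll hel heP using fun j => patch_P hX hm hW C hg hF Y hne hΘ hA hl hδ j (hL j)
  choose c' η' hc' hN using fun k => isPatch_N hX hm hW C hF Y hne hΘ hl k
  obtain ⟨B, r', hr', hcut⟩ := exists_cut C
  obtain ⟨χ, x1, x2, x3, x4, x5, x6, x7⟩ := hcut F hF.toWCrv Y A lm hl
  have hen : ∃ B : ℝ, ∀ R, 1 ≤ R → ∫ z, tau R z * lm z ^ 2 ≤ B * (En F R + 1) := by
    obtain ⟨K, hK⟩ := hl.energy
    refine ⟨A + |K|, fun R hR => (hK R hR).trans ?_⟩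
    have h1 : 0 ≤ En F R := integral_nonneg fun z => mul_nonneg (Pool.Agent.H30M.tau_nonneg hR z) (sq_nonneg _)
    have h2 : 0 ≤ |K| * En F R := mul_nonneg (abs_nonneg _) h1
    have h3 := le_abs_self K
    nlinarith
  have hPP : ∀ {a b : Fin C.nP}, a ≠ b → ∀ {z : ℂ}, z ∈ C.UP Y a → z ∉ C.UP Y b := fun {a b} hab {z} hz hz' =>
    C.disj F hF.toWCrv Y a b hab z hz.1 (ball_subset_closedBall hz.2) hz'.1 (ball_subset_closedBall hz'.2)
  have hPN : ∀ (a : Fin C.nP) (k : Fin C.nN), ∃ B' : ℝ, ∀ z ∈ C.UP Y a, z ∈ C.UN Y k → S.lf Y (C.ck a) z ∈ closedBall (C.Q a) (r' a) →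
      ContDiffAt ℝ 2 (e a) z → ContDiffAt ℝ 2 (eN (C.H k) Wf mK jH Y (C.b k)) z → |e a z - eN (C.H k) Wf mK jH Y (C.b k) z| ≤ B' := fun a k => by
    obtain ⟨B', hB'⟩ := bd_PN hX hm hW C hg a k (hr' a).2
    refine ⟨B', fun z hz hz' hr he he' => ?_⟩
    have h1 := heP a z hz (hz'.2.2 a)
    rw [h1.self_of_nhds]
    exact hB' F hF Y hne z hz hz' hr (he.congr_of_eventuallyEq h1.symm) he'
  have hsup : ∀ i z, χ i z = 1 → z ∈ tsupport (χ i) := fun i z h7 => subset_tsupport _ (by rw [Function.mem_support, h7]; exact one_ne_zero)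
  have hD : ∑ i : Fin C.nP ⊕ Fin C.nN, (Sum.elim (fun _ => δ * A) (fun _ => 0) : Fin C.nP ⊕ Fin C.nN → ℝ) i = C.nP * (δ * A) := by
    rw [Fintype.sum_sum_type]
    simp
  rw [← hD]
  refine pack_of_isPatch (Ψ := Psi mK jH F Θ) (lm := lm) (U := UU C Y) (K := Sum.elim (C.core Y) fun _ => ∅) (l := Sum.elim ll fun _ => lm)
    (c := Sum.elim c c') (e := Sum.elim e fun k => eN (C.H k) Wf mK jH Y (C.b k)) (η := Sum.elim η η') (err := Sum.elim err fun _ _ => 0)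
    hF.diff hF.toWCrv.F_ne hF.ord hl.cont hl.le hen ?_ ?_ ?_ ?_ ?_ ?_ x1 x2 x3 x4 x5 ?_
  · rintro (j | k)
    · exact hlc j
    · exact hl.cont
  · rintro (j | k) z
    · exact hll j z
    · exact le_rfl
  · rintro (j | k)
    · exact hel j
    · exact hen
  · rintro (j | k)
    · exact mul_nonneg hδ hA
    · exact le_rfl
  · rintro (j | k)
    · exact hP j
    · exact hN k
  · rintro (a | k) (b | k') hij z hz
    · exact hPP (fun h => hij (by rw [h])) (core_sub_UP C Y a hz)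
    · exact fun h => h.2.2 a hz
    · exact absurd hz (Set.notMem_empty z)
    · exact absurd hz (Set.notMem_empty z)
  · rintro (a | k) (b | k')
    · by_cases hab : a = b
      · subst hab
        exact ⟨0, fun z _ _ _ _ => by simp⟩
      · exact ⟨0, fun z h1 h2 _ _ => absurd (x3 (Sum.inl b) h2) (hPP hab (x3 (Sum.inl a) (hsup _ z h1)))⟩
    · obtain ⟨B', hB'⟩ := hPN a k'
      exact ⟨B', fun z h1 h2 h3 h4 => hB' z (x3 (Sum.inl a) (hsup _ z h1)) (x3 (Sum.inr k') h2) (x6 a z (hsup _ z h1)) h3 h4⟩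
    · obtain ⟨B', hB'⟩ := hPN b k
      refine ⟨B', fun z h1 h2 h3 h4 => ?_⟩
      have h5 := hB' z (x3 (Sum.inl b) h2) (x3 (Sum.inr k) (hsup _ z h1)) (x6 b z h2) h4 h3
      rw [abs_sub_comm] at h5
      exact h5
    · obtain ⟨B', hB'⟩ := bd_NN hX hm hW C k k'
      exact ⟨B', fun z h1 h2 h3 h4 => hB' F hF Y hne z (x3 (Sum.inr k) (hsup _ z h1)) (x3 (Sum.inr k') h2) h3 h4⟩

end Pool.Agent.MQ3
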