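import Pool.Agent.MQ3.NDefs
import Pool.Agent.MQ.GeoDefs
import Pool.Agent.AD.T.NCDefs

/-!
# MQ3 StubN: the global part for webs (statements; never import this file in a hand-in)

Every section is one module `Pool/Agent/MQ3/<Module>.lean`, namespace `Pool.Agent.MQ3`, with the same statements.
The order of the constants: `X`, `S`, `Ra`, the cover `C`, the equations `g`, the constant `A` of the density, then the form `Q` (degree `d`, contact `n`), then the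
curve.
-/

set_option autoImplicit false

open Topology Filter Metric MvPolynomial MeasureTheory Laplacian

noncomputable section

namespace Pool.Agent.MQ3.Stub

open Pool.Agent.H36.BP (EN fs)
open Pool.Agent.H14.PP (Tan)
open Pool.Agent.H17BP (Surface IsForm)
open Pool.Agent.H17EF (projVar coneE)
open Pool.Agent.H30M (tau LogSing rhoR)
open Pool.Agent.H62.FC (Homog)
open Pool.Agent.H17LG.Variety (FunField)
open Pool.Agent.MQ (lam En ztv dvg DDv gr dv Pack)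
open Pool.Agent.MQ3
open Pool.Agent.MQ2 (Iso Wt Sep FZero HasOrd LocX Good PT Dat)

variable {M : ℕ} {P : Ideal (MvPolynomial (Fin (M + 1)) ℂ)} {RD : MvPolynomial (Fin (M + 1)) ℂ} {m : ℕ} {X : NCModel P RD} {θ : WDiff (coneE P) m}
  {l : LF M} {S : Web X θ l} {Ra : MvPolynomial (Fin (M + 1)) ℂ}

/-! ## module LfN (helper75): the lifts of the curves of the theorem, from BLift -/

section

variable {F : ℂ → EN M}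

/-- `RD` is homogeneous: `F z = c ρ (p z)`, so `p z` is off the axes where `RD (F z) ≠ 0` -/
theorem bcrv (hF : WCrv θ RD F) (Y : NCLift X F) (i : X.ι) : BCrv θ l (X.ρ i) F (Y.U i) (Y.p i) := by sorry

theorem Om_open (hF : WCrv θ RD F) (Y : NCLift X F) (k : S.ι) : IsOpen (S.Om Y k) := by sorry

theorem Om_sub (hF : WCrv θ RD F) (Y : NCLift X F) (k : S.ι) : S.Om Y k ⊆ Y.U k.1 := by sorry

theorem lf_an (hF : WCrv θ RD F) (Y : NCLift X F) (k : S.ι) : ∀ z ∈ S.Om Y k, AnalyticAt ℂ (S.lf Y k) z := by sorry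

theorem lf_mem (hF : WCrv θ RD F) (Y : NCLift X F) (k : S.ι) :
    ∀ z ∈ S.Om Y k, S.lf Y k z ∈ S.D k ∧ S.κ k (S.lf Y k z) = Y.p k.1 z := by sorry

theorem lf_ne (hF : WCrv θ RD F) (Y : NCLift X F) (k : S.ι) :
    ∀ z ∈ S.Om Y k, ∀ᶠ w in 𝓝[≠] z, (S.lf Y k w).1 * (S.lf Y k w).2 ≠ 0 ∧ deriv (S.lf Y k) w ≠ 0 ∧ S.v k (S.lf Y k w) ≠ 0 ∧ ztv (S.v k) (S.lf Y k) w ≠ 0 ∧
      jc (S.κ k) (S.lf Y k w) ≠ 0 := by sorry

theorem lf_tan (hF : WCrv θ RD F) (Y : NCLift X F) (k : S.ι) :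
    ∀ z ∈ S.Om Y k, (S.v k (S.lf Y k z)).1 * (deriv (S.lf Y k) z).2 - (S.v k (S.lf Y k z)).2 * (deriv (S.lf Y k) z).1 = 0 := by sorry

theorem lf_closed (hF : WCrv θ RD F) (Y : NCLift X F) (k : S.ι) {K : Set (ℂ × ℂ)} (hK : IsCompact K) (hKD : K ⊆ S.D k) :
    IsClosed {z | z ∈ S.Om Y k ∧ S.lf Y k z ∈ K} := by sorry

/-- every point over a box has a lift in the unit bidisc of a chart over this box -/
theorem lf_cover (hF : WCrv θ RD F) (Y : NCLift X F) (i : X.ι) :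
    ∀ z ∈ Y.U i, ∃ a : (S.V i).ι, z ∈ S.Om Y ⟨i, a⟩ ∧ ‖(S.lf Y ⟨i, a⟩ z).1‖ ≤ 1 ∧ ‖(S.lf Y ⟨i, a⟩ z).2‖ ≤ 1 := by sorry

end

/-! ## module SatN (helper89): the isolated zeros; sheets with the same direction at a point -/

theorem v_an (k : S.ι) : AnalyticOnNhd ℂ (S.v k) (S.D k) := by sorry

theorem v_iso (k : S.ι) : ∀ q ∈ S.D k, ∀ᶠ x in 𝓝[≠] q, S.v k x ≠ 0 := by sorry

theorem D_open (k : S.ι) : IsOpen (S.D k) := by sorry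

theorem cp_compact (k : S.ι) : IsCompact (S.cp k) ∧ S.cp k ⊆ S.D k := by sorry

/-- the zeros of `RD` upstairs are the axes -/
theorem zero_iff (k : S.ι) : ∀ q ∈ S.D k, eval (S.σ k q).ofLp RD = 0 ↔ q.1 * q.2 = 0 := by sorry

theorem σ_an (k : S.ι) : ∀ q ∈ S.D k, AnalyticAt ℂ (S.σ k) q ∧ S.σ k q ∈ coneE P := by sorry

/-! ## module WtN3 (helper84): the weight along a curve, from `IsForm` -/

section

variable {F : ℂ → EN M} {Wf : EN M → EN M → EN M → ℂ} {mK jH : ℕ}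

theorem wt_an (hX : Surface (coneE P)) (hm : 1 ≤ mK) (hW : IsForm (coneE P) mK jH Wf) (hF : Differentiable ℂ F) (Y : NCLift X F) (i : X.ι) :
    ∀ z ∈ Y.U i, AnalyticAt ℂ (wt Wf Y i) z := by sorry

/-- the transformation rule -/
theorem wt_chg (hX : Surface (coneE P)) (hm : 1 ≤ mK) (hW : IsForm (coneE P) mK jH Wf) (hF : Differentiable ℂ F) (Y : NCLift X F) {i j : X.ι} {z : ℂ}
    (hi : z ∈ Y.U i) (hj : z ∈ Y.U j) {Φ : ℂ × ℂ → ℂ × ℂ} (hΦ : Chg X i j Φ (Y.p i z)) (h0 : Φ (Y.p i z) = Y.p j z) :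
    ∀ᶠ w in 𝓝 z, Y.p j w = Φ (Y.p i w) ∧ wt Wf Y i w = jc Φ (Y.p i w) ^ mK * wt Wf Y j w := by sorry

/-- a change of boxes at every common point -/
theorem exists_chg {F : ℂ → EN M} (Y : NCLift X F) {i j : X.ι} {z : ℂ} (hi : z ∈ Y.U i) (hj : z ∈ Y.U j) :
    ∃ Φ, Chg X i j Φ (Y.p i z) ∧ Φ (Y.p i z) = Y.p j z := by sorry

/-- the upper bound -/
theorem wt_le (hX : Surface (coneE P)) (hm : 1 ≤ mK) (hW : IsForm (coneE P) mK jH Wf) (i : X.ι) {K : Set (ℂ × ℂ)} (hK : IsCompact K) (hKB : K ⊆ X.B i) :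
    ∃ C : ℝ, ∀ F : ℂ → EN M, Differentiable ℂ F → ∀ Y : NCLift X F, ∀ z ∈ Y.U i, Y.p i z ∈ K → wt Wf Y i z ≠ 0 →
      1 / mK * Real.log ‖wt Wf Y i z‖ + jH / mK * Real.log ‖F z‖ ≤ C := by sorry

/-- not identically zero at one point: not identically zero anywhere -/
theorem wne (hX : Surface (coneE P)) (hm : 1 ≤ mK) (hW : IsForm (coneE P) mK jH Wf) (hF : WCrv θ RD F) (Y : NCLift X F)
    (h : ∃ z w, Pool.Agent.H17BP.Tan (coneE P) (F z) w ∧ Wf (F z) (deriv F z) w ≠ 0) : WNe Wf Y := by sorry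

end

/-! ## module ThN (helper26): the function `Θ` -/

theorem exists_theta {F : ℂ → EN M} {Wf : EN M → EN M → EN M → ℂ} {mK jH : ℕ} (hX : Surface (coneE P)) (hm : 1 ≤ mK)
    (hW : IsForm (coneE P) mK jH Wf) (hF : WCrv θ RD F) (Y : NCLift X F) (hne : WNe Wf Y) : ∃ Θ : ℂ → ℂ, IsTh S Wf mK Y Θ := by sorry

/-! ## module ChgN (helper59, helper6): change of boxes for the vectors -/

theorem vrel_A (hd : ∃ d, RD.IsHomogeneous d) {i j : X.ι} {Φ : ℂ × ℂ → ℂ × ℂ} {p : ℂ × ℂ} (h : Chg X i j Φ p) : VRel hA hA Φ p := by sorry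

/-- `u` is a unit at `p` -/
theorem vrel_AB {i j : X.ι} {Φ : ℂ × ℂ → ℂ × ℂ} {p : ℂ × ℂ} (h : Chg X i j Φ p) (hp : p ∈ DS) {u : ℂ × ℂ → ℂ} (hu : AnalyticAt ℂ u (Φ p)) (h0 : u (Φ p) ≠ 0) :
    VRel hA (hB u) Φ p := by sorry

theorem vrel_BA (hd : ∃ d, RD.IsHomogeneous d) {i j : X.ι} {Φ : ℂ × ℂ → ℂ × ℂ} {p : ℂ × ℂ} (h : Chg X i j Φ p) (hp : p ∈ DS) {u : ℂ × ℂ → ℂ} (hu : AnalyticAt ℂ u p) (h0 : u p ≠ 0) :
    VRel (hB u) hA Φ p := by sorry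

/-- two reduced equations of the same curve -/
theorem vrel_B {i j : X.ι} {Φ : ℂ × ℂ → ℂ × ℂ} {p : ℂ × ℂ} (h : Chg X i j Φ p) {u u' : ℂ × ℂ → ℂ} (hu : AnalyticAt ℂ u p) (hu' : AnalyticAt ℂ u' (Φ p))
    (hr : ∀ᶠ x in 𝓝 p, u x = 0 → fderiv ℂ u x ≠ 0) (hr' : ∀ᶠ x in 𝓝 (Φ p), u' x = 0 → fderiv ℂ u' x ≠ 0) (he : ∀ᶠ x in 𝓝 p, u x = 0 ↔ u' (Φ x) = 0) :
    VRel (hB u) (hB u') Φ p := by sorry

/-- related vectors along a curve: the difference of the logarithms is of class `C²`, and bounded by the norms of the matrices -/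
theorem vrel_log {H H' : ℂ × ℂ → ℂ × ℂ → EN 2} {Φ : ℂ × ℂ → ℂ × ℂ} {g g' : ℂ → ℂ × ℂ} {z : ℂ} (hV : VRel H H' Φ (g z)) (hg : AnalyticAt ℂ g z)
    (hΦ : AnalyticAt ℂ Φ (g z)) (hgg : ∀ᶠ w in 𝓝 z, g' w = Φ (g w)) (hH : AnalyticAt ℂ (fun w => H (g w) (deriv g w)) z)
    (hne : ∀ᶠ w in 𝓝[≠] z, H (g w) (deriv g w) ≠ 0) :
    ∃ ψ : ℂ → ℝ, ContDiffAt ℝ 2 ψ z ∧ ∀ᶠ w in 𝓝[≠] z, Real.log ‖H' (g' w) (deriv g' w)‖ - Real.log ‖H (g w) (deriv g w)‖ = ψ w := by sorry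

/-! ## module NLoc (helper34, helper76): the local form of the potentials at a regular chart point -/

theorem exists_invAt {k : S.ι} {q : ℂ × ℂ} (hq : Reg S Ra k q) : ∃ g, InvAt S Ra k q g := by sorry

/-- two local equations -/
theorem invAt_unit {k : S.ι} {q : ℂ × ℂ} (hv : S.v k q ≠ 0) (hq : q ∈ S.D k) {g g' : ℂ × ℂ → ℂ} (h : InvAt S Ra k q g) (h' : InvAt S Ra k q g') :
    ∃ u : ℂ × ℂ → ℂ, AnalyticAt ℂ u q ∧ u q ≠ 0 ∧ ∀ᶠ x in 𝓝 q, g' x = u x * g x := by sorry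

theorem nloc_A {k : S.ι} {q : ℂ × ℂ} (hq : RegA S Ra k q) {g : ℂ × ℂ → ℂ} (hg : InvAt S Ra k q g) :
    ∃ L : ℂ × ℂ → EN 2, AnalyticAt ℂ L q ∧ L q ≠ 0 ∧ ∀ᶠ x in 𝓝 q, hA (S.κ k x) (fderiv ℂ (S.κ k) x (S.v k x)) = (jc (S.κ k) x * g x) • L x := by sorry

theorem nloc_B {k : S.ι} {q : ℂ × ℂ} (hq : Reg S Ra k q) (hq' : q.1 * q.2 ≠ 0) {u : ℂ × ℂ → ℂ} (hu : AnalyticAt ℂ u (S.κ k q))
    (hu0 : ∀ᶠ p in 𝓝 (S.κ k q), (eval (X.ρ k.1 p).ofLp Ra = 0 ↔ u p = 0) ∧ (u p = 0 → fderiv ℂ u p ≠ 0)) {g : ℂ × ℂ → ℂ} (hg : InvAt S Ra k q g) :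
    ∃ L : ℂ × ℂ → EN 2, AnalyticAt ℂ L q ∧ L q ≠ 0 ∧ ∀ᶠ x in 𝓝 q, hB u (S.κ k x) (fderiv ℂ (S.κ k) x (S.v k x)) = (jc (S.κ k) x * g x) • L x := by sorry

/-! ## module EtaL (helper13, helper79): one curve, one chart point -/

/-- the gradient of the potential of a chart point -/
theorem gr_eP {F : ℂ → EN M} {Wf : EN M → EN M → EN M → ℂ} {mK jH : ℕ} (hX : Surface (coneE P)) (hm : 1 ≤ mK)
    (hW : IsForm (coneE P) mK jH Wf) (hF : WCrv θ RD F) (Y : NCLift X F) (hne : WNe Wf Y) {Θ : ℂ → ℂ} (hΘ : IsTh S Wf mK Y Θ) {k : S.ι} {z : ℂ}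
    (hz : z ∈ S.Om Y k) {g : ℂ × ℂ → ℂ} (hg : AnalyticAt ℂ g (S.lf Y k z)) (hgn : ∃ᶠ w in 𝓝 z, g (S.lf Y k w) ≠ 0) :
    ∀ᶠ w in 𝓝[≠] z, ContDiffAt ℝ 2 (eP S g Wf mK jH Y k) w ∧ Δ (eP S g Wf mK jH Y k) w = 2 * jH / mK * lam F w ^ 2 ∧
      gr (eP S g Wf mK jH Y k) w + (starRingEnd ℂ) (DDv (S.v k) g (S.lf Y k) w) =
        (starRingEnd ℂ) (Θ w) + gr (fun w => jH / mK * Real.log ‖F w‖) w := by sorry

/-- the local form of the field `η` of a box; the constants do not depend on the curve -/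
theorem eta_loc {Wf : EN M → EN M → EN M → ℂ} {mK jH : ℕ} (hX : Surface (coneE P)) (hm : 1 ≤ mK)
    (hW : IsForm (coneE P) mK jH Wf) {k : S.ι} {q : ℂ × ℂ} (hq : q ∈ S.D k) (hv : S.v k q ≠ 0) {g : ℂ × ℂ → ℂ} (hg : InvAt S Ra k q g)
    {H : ℂ × ℂ → ℂ × ℂ → EN 2} (hH : ∀ p w (a : ℂ), H p (a • w) = a • H p w) {L : ℂ × ℂ → EN 2} (hL : AnalyticAt ℂ L q) (hL0 : L q ≠ 0)
    (hHL : ∀ᶠ x in 𝓝 q, H (S.κ k x) (fderiv ℂ (S.κ k) x (S.v k x)) = (jc (S.κ k) x * g x) • L x) :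
    ∃ N ∈ 𝓝 q, ∃ C : ℝ, ∀ F : ℂ → EN M, RCrv θ RD Ra F → ∀ Y : NCLift X F, WNe Wf Y → ∀ Θ : ℂ → ℂ, IsTh S Wf mK Y Θ →
      ∀ z ∈ S.Om Y k, S.lf Y k z ∈ N → ∃ (η : ℂ → ℂ) (ψ : ℂ → ℝ), ContDiffAt ℝ 1 η z ∧ ‖η z‖ ≤ C * ‖deriv (S.lf Y k) z‖ ∧ ContDiffAt ℝ 2 ψ z ∧ |ψ z| ≤ C ∧
        ∀ᶠ w in 𝓝[≠] z, ContDiffAt ℝ 2 (eN H Wf mK jH Y k.1) w ∧ η w = (starRingEnd ℂ) (Θ w) - gr (eH H Wf mK Y k.1) w ∧
          Δ (eN H Wf mK jH Y k.1) w + dv η w = 2 * jH / mK * lam F w ^ 2 ∧ eN H Wf mK jH Y k.1 w - eP S g Wf mK jH Y k w = ψ w := by sorry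

/-! ## module EtaN (helper18, helper12): the fields `η` of the boxes -/

section

variable {Wf : EN M → EN M → EN M → ℂ} {mK jH : ℕ}

theorem exists_etaN (hX : Surface (coneE P)) (hm : 1 ≤ mK) (hW : IsForm (coneE P) mK jH Wf) (C : Cov S Ra) (k : Fin C.nN) :
    ∃ B : ℝ, ∀ F : ℂ → EN M, RCrv θ RD Ra F → ∀ Y : NCLift X F, WNe Wf Y → ∀ Θ : ℂ → ℂ, IsTh S Wf mK Y Θ →
      ∀ (A : ℝ) (lm : ℂ → ℝ), Dens C Y A lm → ∃ η : ℂ → ℂ, ContDiffOn ℝ 1 η (C.UN Y k) ∧ (∀ z ∈ C.UN Y k, ‖η z‖ ≤ B * lm z) ∧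
        ∀ z ∈ C.UN Y k, ∀ᶠ w in 𝓝[≠] z, η w + gr (eN (C.H k) Wf mK jH Y (C.b k)) w = (starRingEnd ℂ) (Θ w) + gr (fun w => jH / mK * Real.log ‖F w‖) w ∧
          ContDiffAt ℝ 2 (eN (C.H k) Wf mK jH Y (C.b k)) w ∧ Δ (eN (C.H k) Wf mK jH Y (C.b k)) w + dv η w = 2 * jH / mK * lam F w ^ 2 := by sorry

/-! ## module BdN (helper40): the potentials differ by bounded functions -/

theorem bd_NN (hX : Surface (coneE P)) (hm : 1 ≤ mK) (hW : IsForm (coneE P) mK jH Wf) (C : Cov S Ra) (k k' : Fin C.nN) :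
    ∃ B : ℝ, ∀ F : ℂ → EN M, RCrv θ RD Ra F → ∀ Y : NCLift X F, WNe Wf Y → ∀ z ∈ C.UN Y k, z ∈ C.UN Y k' →
      ContDiffAt ℝ 2 (eN (C.H k) Wf mK jH Y (C.b k)) z → ContDiffAt ℝ 2 (eN (C.H k') Wf mK jH Y (C.b k')) z →
        |eN (C.H k) Wf mK jH Y (C.b k) z - eN (C.H k') Wf mK jH Y (C.b k') z| ≤ B := by sorry

theorem bd_PN (hX : Surface (coneE P)) (hm : 1 ≤ mK) (hW : IsForm (coneE P) mK jH Wf) (C : Cov S Ra) {g : Fin C.nP → ℂ × ℂ → ℂ}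
    (hg : PG C g) (j : Fin C.nP) (k : Fin C.nN) {r' : ℝ} (hr' : r' < C.r j) :
    ∃ B : ℝ, ∀ F : ℂ → EN M, RCrv θ RD Ra F → ∀ Y : NCLift X F, WNe Wf Y → ∀ z ∈ C.UP Y j, z ∈ C.UN Y k →
      S.lf Y (C.ck j) z ∈ closedBall (C.Q j) r' →
      ContDiffAt ℝ 2 (eP S (g j) Wf mK jH Y (C.ck j)) z → ContDiffAt ℝ 2 (eN (C.H k) Wf mK jH Y (C.b k)) z →
        |eP S (g j) Wf mK jH Y (C.ck j) z - eN (C.H k) Wf mK jH Y (C.b k) z| ≤ B := by sorry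

/-! ## module LogN (helper66) -/

theorem logSing_N (hX : Surface (coneE P)) (hm : 1 ≤ mK) (hW : IsForm (coneE P) mK jH Wf) (C : Cov S Ra) (k : Fin C.nN) {F : ℂ → EN M}
    (hF : RCrv θ RD Ra F) (Y : NCLift X F) (hne : WNe Wf Y) :
    ∀ z ∈ Y.U (C.b k), Y.p (C.b k) z ∈ ball (C.y k) (C.t k) → ∃ c, 0 ≤ c ∧ LogSing (eN (C.H k) Wf mK jH Y (C.b k)) c z := by sorry

theorem logSing_P (hX : Surface (coneE P)) (hm : 1 ≤ mK) (hW : IsForm (coneE P) mK jH Wf) (C : Cov S Ra) {g : Fin C.nP → ℂ × ℂ → ℂ}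
    (hg : PG C g) (j : Fin C.nP) {F : ℂ → EN M} (hF : RCrv θ RD Ra F) (Y : NCLift X F) (hne : WNe Wf Y) :
    ∀ z ∈ C.UP Y j, ∃ c, LogSing (eP S (g j) Wf mK jH Y (C.ck j)) c z := by sorry

/-- the curve is not contained in the invariant curve -/
theorem g_ne (C : Cov S Ra) {g : Fin C.nP → ℂ × ℂ → ℂ} (hg : PG C g) (j : Fin C.nP) {F : ℂ → EN M} (hF : RCrv θ RD Ra F) (Y : NCLift X F) :
    ∀ z ∈ C.UP Y j, ∀ᶠ w in 𝓝[≠] z, g j (S.lf Y (C.ck j) w) ≠ 0 := by sorry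

/-! ## module UpN (helper44): upper bounds -/

theorem up_N (hX : Surface (coneE P)) (hm : 1 ≤ mK) (hW : IsForm (coneE P) mK jH Wf) (C : Cov S Ra) (k : Fin C.nN) :
    ∃ B : ℝ, ∀ F : ℂ → EN M, RCrv θ RD Ra F → ∀ Y : NCLift X F, WNe Wf Y → ∀ (A : ℝ) (lm : ℂ → ℝ), Dens C Y A lm →
      ∀ z ∈ Y.U (C.b k), Y.p (C.b k) z ∈ ball (C.y k) (C.t k) → ContDiffAt ℝ 2 (eN (C.H k) Wf mK jH Y (C.b k)) z →
        eN (C.H k) Wf mK jH Y (C.b k) z ≤ B + Real.log (1 + lm z) := by sorry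

end

/-! ## module CutN (helper2): the cut-offs; `U` is the union of the index sets -/

/-- the open sets of the cover -/
def UU (C : Cov S Ra) {F : ℂ → EN M} (Y : NCLift X F) : Fin C.nP ⊕ Fin C.nN → Set ℂ := Sum.elim (C.UP Y) (C.UN Y)

theorem exists_cut (C : Cov S Ra) : ∃ (B : ℝ) (r' : Fin C.nP → ℝ), (∀ j, C.s j < r' j ∧ r' j < C.r j) ∧ ∀ F : ℂ → EN M, WCrv θ RD F →
    ∀ Y : NCLift X F, ∀ (A : ℝ) (lm : ℂ → ℝ), Dens C Y A lm → ∃ χ : Fin C.nP ⊕ Fin C.nN → ℂ → ℝ, (∀ i, ContDiff ℝ 2 (χ i)) ∧ (∀ i z, 0 ≤ χ i z ∧ χ i z ≤ 1) ∧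
      (∀ i, tsupport (χ i) ⊆ UU C Y i) ∧ (∀ i z, ‖gr (χ i) z‖ ≤ B * lm z) ∧ (∀ z, ∃ i, χ i z = 1) ∧
      (∀ j, ∀ z ∈ tsupport (χ (Sum.inl j)), S.lf Y (C.ck j) z ∈ closedBall (C.Q j) (r' j)) ∧ ∀ j, ∀ z ∈ C.core Y j, χ (Sum.inl j) z = 1 := by sorry

/-! ## module AsmN (helper93, helper86, helper11): the pack from the local packages, with 53's `Core` -/

theorem pack_web {Wf : EN M → EN M → EN M → ℂ} {mK jH : ℕ} (hX : Surface (coneE P)) (hm : 1 ≤ mK)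
    (hW : IsForm (coneE P) mK jH Wf) (C : Cov S Ra) {g : Fin C.nP → ℂ × ℂ → ℂ} (hg : PG C g) {F : ℂ → EN M} (hF : RCrv θ RD Ra F)
    (Y : NCLift X F) (hne : WNe Wf Y) {A : ℝ} (hA : 0 ≤ A) {lm : ℂ → ℝ} (hl : Dens C Y A lm) {A' δ : ℝ} (hδ : 0 ≤ δ)
    (hL : ∀ j, LocX (C.vj j) (fun x => g j (C.Q j + x)) (C.Jj j) (C.UP Y j) (C.pj Y j) lm (C.s j) A' δ) :
    ∃ L : ℂ → ℝ, Continuous L ∧ (∀ z, lam F z ≤ L z) ∧ (∃ B : ℝ, ∀ R, 1 ≤ R → ∫ z, tau R z * L z ^ 2 ≤ B * (En F R + 1)) ∧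
      Pack F L (2 * jH / mK) (C.nP * (δ * A)) := by sorry

/-! ## module DensN (helper58, helper74): the density of the cover, from `exists_dens` for finitely many charts and compact sets -/

theorem exists_densN (C : Cov S Ra) (A₀ : ℝ) (CK : X.ι → Set (ℂ × ℂ) → ℝ) : ∃ A : ℝ, 0 ≤ A ∧ ∀ F : ℂ → EN M, WCrv θ RD F →
    ∀ (Y : NCLift X F) (lm₀ : ℂ → ℝ), NCDens Y A₀ CK lm₀ → ∃ lm : ℂ → ℝ, Dens C Y A lm := by sorry

/-! ## module RNe (helper27) -/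

theorem rne_of [P.IsPrime] (hP : Homog P) {z : Fin 2 → FunField P} (hz : IsTranscendenceBasis ℂ z)
    (hsm : ∀ y : Fin (M + 1) → ℂ, y ≠ 0 → (∀ Q ∈ P, eval y Q = 0) → Module.finrank ℂ (Pool.Agent.H13.SM.conTan P y) ≤ 3) (X : NCModel P RD) {d : ℕ}
    (hd : Ra.IsHomogeneous d) (hRa : Ra ∉ P) : RNe X Ra := by sorry

/-! ## module Spec (helper4, helper54): special points; module Rad (helper62, helper49): radii; see StubR -/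

/-- the regular points are the complement of a discrete set (27's `regPt_off`) -/
theorem reg_off {d dR : ℕ} (hd : RD.IsHomogeneous d) (hdR : Ra.IsHomogeneous dR) (hRa : RNe X Ra) (k : S.ι) : ∀ q ∈ S.D k, ∀ᶠ x in 𝓝[≠] q, Reg S Ra k x := by sorry

/-- avatars: two chart points over the same point of a box -/
theorem avatar (i : X.ι) (a a' : (S.V i).ι) {q q' : ℂ × ℂ} (hq : q ∈ S.D ⟨i, a⟩) (hq' : q' ∈ S.D ⟨i, a'⟩) :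
    (∃ N ∈ 𝓝 q, ∃ N' ∈ 𝓝 q', ∀ F : ℂ → EN M, WCrv θ RD F → ∀ Y : NCLift X F, ∀ z, z ∈ S.Om Y ⟨i, a⟩ → S.lf Y ⟨i, a⟩ z ∈ N → z ∈ S.Om Y ⟨i, a'⟩ →
      S.lf Y ⟨i, a'⟩ z ∉ N') ∨
    ∃ Φ : ℂ × ℂ → ℂ × ℂ, AnalyticAt ℂ Φ q ∧ Φ q = q' ∧ (∀ᶠ x in 𝓝 q, S.κ ⟨i, a'⟩ (Φ x) = S.κ ⟨i, a⟩ x ∧ (Reg S Ra ⟨i, a⟩ x ↔ Reg S Ra ⟨i, a'⟩ (Φ x))) ∧
      ∃ N ∈ 𝓝 q, ∀ F : ℂ → EN M, WCrv θ RD F → ∀ Y : NCLift X F, ∀ z ∈ S.Om Y ⟨i, a⟩, S.lf Y ⟨i, a⟩ z ∈ N → z ∈ S.Om Y ⟨i, a'⟩ ∧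
        S.lf Y ⟨i, a'⟩ z = Φ (S.lf Y ⟨i, a⟩ z) := by sorry

theorem exists_cov {d dR : ℕ} (hd : RD.IsHomogeneous d) (hdR : Ra.IsHomogeneous dR) (hRa : RNe X Ra) (S : Web X θ l) (r₀ : S.ι → ℂ × ℂ → ℝ)
    (h₀ : ∀ k, ∀ q ∈ S.D k, 0 < r₀ k q) : ∃ C : Cov S Ra, ∀ j, C.r j ≤ r₀ (C.ck j) (C.Q j) := by sorry

/-! ## module AlgR3 (helper52): the form `Ra`; `fam` are the separatrices of the packages -/

theorem exists_Ra [P.IsPrime] {z : Fin 2 → FunField P} (hz : IsTranscendenceBasis ℂ z) (S : Web X θ l) (m : (ℂ × ℂ → ℂ × ℂ) → ℕ)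
    (fam : ∀ v : ℂ × ℂ → ℂ × ℂ, Fin (m v) → ℕ → ℂ → ℂ × ℂ) (hfam : ∀ v, Iso v → ∀ i, Sep v (fam v i)) :
    ∃ (Ra : MvPolynomial (Fin (M + 1)) ℂ) (d : ℕ), Ra.IsHomogeneous d ∧ Ra ∉ P ∧ ∀ k : S.ι, ∀ q ∈ S.cp k, S.v k q = 0 → ∀ i,
      FZero (fam (fun x => S.v k (q + x)) i) (fun x => eval (S.σ k (q + x)).ofLp Ra) ∨
        ∀ (R' : MvPolynomial (Fin (M + 1)) ℂ) (d' : ℕ), R'.IsHomogeneous d' → R' ∉ P →
          ¬ FZero (fam (fun x => S.v k (q + x)) i) fun x => eval (S.σ k (q + x)).ofLp R' := by sorry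

/-! ## module GInvN (helper27, helper29): the equation of the invariant curve at a chart point; the radius -/

theorem exists_gq {d dR : ℕ} (hd : RD.IsHomogeneous d) (hdR : Ra.IsHomogeneous dR) (hRa : RNe X Ra) {k : S.ι} {q : ℂ × ℂ} (hq : q ∈ S.D k) :
    ∃ g : ℂ × ℂ → ℂ, Wt (fun x => S.v k (q + x)) (fun x => g (q + x)) ∧ (∀ᶠ x in 𝓝[≠] q, InvAt S Ra k x g) ∧
      ∀ c : ℕ → ℂ → ℂ × ℂ, Sep (fun x => S.v k (q + x)) c → FZero c (fun x => eval (S.σ k (q + x)).ofLp Ra) → FZero c fun x => g (q + x) := by sorry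

/-! ## module LocN (helper57, helper30): the local packages at the special points -/

/-- the data of the package; `q`, `ψ` for the form `Qf` -/
theorem dat_web (C : Cov S Ra) {g : Fin C.nP → ℂ × ℂ → ℂ} (hg : PG C g) (j : Fin C.nP) {F : ℂ → EN M} (hF : RCrv θ RD Ra F) (Y : NCLift X F) {A : ℝ} {lm : ℂ → ℝ} (hl : Dens C Y A lm)
    {Qf : MvPolynomial (Fin (M + 1)) ℂ} {dQ : ℕ} (hQ : Qf.IsHomogeneous dQ) (hQF : ∃ z, eval (F z).ofLp Qf ≠ 0) :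
    ∃ Q : ℂ → ℂ, Dat (C.vj j) (fun x => g j (C.Q j + x)) (C.r j) 1 dQ (fun x => eval (S.σ (C.ck j) (C.Q j + x)).ofLp Qf)
      (fun x => Real.log ‖S.σ (C.ck j) (C.Q j + x)‖) F Q lm (C.UP Y j) (C.pj Y j) := by sorry

/-! ## module FinW (helper98, helper54): the theorem -/

theorem exists_R_web [P.IsPrime] (hP : Homog P) (hdim : ∃ z : Fin 2 → FunField P, IsTranscendenceBasis ℂ z) (hsmooth : Pool.Agent.AD.NC.IsSmooth P 2)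
    (hgt : Pool.Agent.AD.NC.IsOfLogGeneralType P (Fin.elim0 : Fin 0 → MvPolynomial (Fin (M + 1)) ℂ) 2) (hm : 1 ≤ m) (θ : WDiff (coneE P) m)
    (hθ : coneE P ⊆ closure {x | x ∈ coneE P ∧ ∃ v, Tan (coneE P) x v ∧ θ.toFun x v ≠ 0}) :
    ∃ (R : MvPolynomial (Fin (M + 1)) ℂ) (d : ℕ), R.IsHomogeneous d ∧ R ∉ P ∧ ∀ F : ℂ → EN M, Differentiable ℂ F → (∀ z, F z ∈ coneE P) →
      (∃ A : ℝ, ∀ r : ℝ, 0 < r → Real.circleAverage (fun z => Real.log ‖F z‖) 0 r ≤ A * (1 + r ^ 2)) → (∃ z w, ∀ c : ℂ, F z ≠ c • F w) →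
      (∀ z, θ.toFun (F z) (deriv F z) = 0) → ∀ z, eval (F z).ofLp R = 0 := by sorry

end Pool.Agent.MQ3.Stub
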