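import Pool.Agent.MQ3.AsmI
import Pool.Agent.MQ3.StubN

/-!
# MQ3 AsmS: the parts of AsmN (statements; never import this file in a hand-in)

`AsmP` (helper11): `patch_P`; `AsmNA` (helper86): `patch_N`; `AsmA` (helper93): `pack_of_isPatch`; `AsmN` (helper93): `pack_web`.
-/

set_option autoImplicit false

open Topology Filter Metric MvPolynomial MeasureTheory Laplacian

noncomputable section

namespace Pool.Agent.MQ3.AsmS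

open Pool.Agent.H36.BP (EN fs)
open Pool.Agent.H17BP (Surface IsForm)
open Pool.Agent.H17EF (projVar coneE)
open Pool.Agent.H30M (tau LogSing)
open Pool.Agent.MQ (lam En gr dv Pack)
open Pool.Agent.MQ3
open Pool.Agent.MQ2 (LocX)

variable {M : ℕ} {P : Ideal (MvPolynomial (Fin (M + 1)) ℂ)} {RD : MvPolynomial (Fin (M + 1)) ℂ} {m : ℕ} {X : NCModel P RD} {θ : WDiff (coneE P) m}
  {l : LF M} {S : Web X θ l} {Ra : MvPolynomial (Fin (M + 1)) ℂ}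

/-- AsmP (helper11): a special point -/
theorem patch_P {Wf : EN M → EN M → EN M → ℂ} {mK jH : ℕ} (hX : Surface (coneE P)) (hm : 1 ≤ mK)
    (hW : IsForm (coneE P) mK jH Wf) (C : Cov S Ra) {g : Fin C.nP → ℂ × ℂ → ℂ} (hg : PG C g) {F : ℂ → EN M} (hF : RCrv θ RD Ra F)
    (Y : NCLift X F) (hne : WNe Wf Y) {Θ : ℂ → ℂ} (hΘ : IsTh S Wf mK Y Θ) {A : ℝ} (hA : 0 ≤ A) {lm : ℂ → ℝ} (hl : Dens C Y A lm) {A' δ : ℝ} (hδ : 0 ≤ δ)
    (j : Fin C.nP) (hL : LocX (C.vj j) (fun x => g j (C.Q j + x)) (C.Jj j) (C.UP Y j) (C.pj Y j) lm (C.s j) A' δ) :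
    ∃ (c : ℝ) (l : ℂ → ℝ) (e : ℂ → ℝ) (η : ℂ → ℂ) (err : ℂ → ℝ),
      IsPatch F (Psi mK jH F Θ) (2 * jH / mK) l (C.UP Y j) e η err (C.core Y j) c (δ * A) ∧ Continuous l ∧ (∀ z, lm z ≤ l z) ∧
        (∃ B : ℝ, ∀ R, 1 ≤ R → ∫ z, tau R z * l z ^ 2 ≤ B * (En F R + 1)) ∧
        ∀ z ∈ C.UP Y j, z ∉ C.core Y j → e =ᶠ[𝓝 z] eP S (g j) Wf mK jH Y (C.ck j) := by sorry

/-- AsmNA (helper86): a box -/
theorem patch_N {Wf : EN M → EN M → EN M → ℂ} {mK jH : ℕ} (hX : Surface (coneE P)) (hm : 1 ≤ mK)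
    (hW : IsForm (coneE P) mK jH Wf) (C : Cov S Ra) {F : ℂ → EN M} (hF : RCrv θ RD Ra F)
    (Y : NCLift X F) (hne : WNe Wf Y) {Θ : ℂ → ℂ} (hΘ : IsTh S Wf mK Y Θ) {A : ℝ} {lm : ℂ → ℝ} (hl : Dens C Y A lm) (k : Fin C.nN) :
    ∃ (c : ℝ) (η : ℂ → ℂ), IsPatch F (Psi mK jH F Θ) (2 * jH / mK) lm (C.UN Y k) (eN (C.H k) Wf mK jH Y (C.b k)) η (fun _ => 0) ∅ c 0 := by sorry

end Pool.Agent.MQ3.AsmS
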