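import Pool.Agent.MQ3.BLift

/-!
# MQ3 Avat: the same point in two monomial charts over one box

`Nbr c c' P P'`: the points `P` and `P'` of two charts of the same sheet are limits of corresponding points off the axes. If not `Nbr`, then no curve has
its lifts near `P` and near `P'` at the same time; if `Nbr` and the two cones belong to a fan, then the charts are glued near `P`, `P'`.
-/

set_option autoImplicit false

open Topology Filter Metric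

noncomputable section

namespace Pool.Agent.MQ3

open Pool.Agent.H36.BP (EN)
open Pool.Agent.H17BP (Surface)

variable {M : ℕ} {X : Set (EN M)} {m : ℕ} {θ : WDiff X m} {l : LF M} {ρ : ℂ × ℂ → EN M} {W : BoxWeb θ l ρ} {F : ℂ → EN M} {U : Set ℂ}
  {p : ℂ → ℂ × ℂ}

/-- the points are limits of corresponding points off the axes -/
def Nbr (c c' : MChart W) (P P' : ℂ × ℂ) : Prop :=
  c.k = c'.k ∧ ∃ᶠ Q in 𝓝 (P, P'), ∃ V V' : ℂ × ℂ, pexp V = Q.1 ∧ pexp V' = Q.2 ∧ ln c.w c.w' V ∈ HH ∧ ln c.w c.w' V = ln c'.w c'.w' V'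

theorem Nbr.symm {c c' : MChart W} {P P' : ℂ × ℂ} (h : Nbr c c' P P') : Nbr c' c P' P := by
  refine ⟨h.1.symm, ?_⟩
  have h1 : Tendsto (Prod.swap : (ℂ × ℂ) × (ℂ × ℂ) → (ℂ × ℂ) × (ℂ × ℂ)) (𝓝 (P, P')) (𝓝 (P', P)) := continuous_swap.tendsto _
  refine h1.frequently (h.2.mono ?_)
  rintro Q ⟨V, V', h1, h2, h3, h4⟩
  exact ⟨V', V, h2, h1, h4 ▸ h3, h4.symm⟩

/-- a number of points off the axes close to any given point of the domain -/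
theorem Nbr.refl (c : MChart W) {P : ℂ × ℂ} (hP : P ∈ c.D) : Nbr c c P P := by
  refine ⟨rfl, ?_⟩
  have h1 : ∃ᶠ q : ℂ × ℂ in 𝓝 P, q.1 * q.2 ≠ 0 ∧ q ∈ c.D := by
    refine Frequently.and_eventually ?_ (isOpen_Dm.mem_nhds hP)
    intro hcon
    have h2 : ∀ᶠ t : ℂ in 𝓝 0, ¬ ((P.1 + t) * (P.2 + t) ≠ 0) := by
      have h3 : Tendsto (fun t : ℂ => (P.1 + t, P.2 + t)) (𝓝 0) (𝓝 P) := by
        have h4 : Continuous (fun t : ℂ => (P.1 + t, P.2 + t)) := by fun_prop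
        have := h4.tendsto 0
        simpa using this
      exact h3.eventually hcon
    have h3 : ∀ᶠ t : ℂ in 𝓝[≠] 0, t ≠ -P.1 ∧ t ≠ -P.2 := by
      have h4 : ∀ a : ℂ, ∀ᶠ t : ℂ in 𝓝[≠] 0, t ≠ a := by
        intro a
        rcases eq_or_ne a 0 with rfl | ha
        · exact eventually_mem_nhdsWithin
        · exact (eventually_ne_nhds ha.symm).filter_mono nhdsWithin_le_nhds
      exact (h4 _).and (h4 _)
    obtain ⟨t, h4, h5, h6⟩ := ((h2.filter_mono nhdsWithin_le_nhds).and h3).exists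
    apply h4
    refine mul_ne_zero ?_ ?_
    · intro h7
      exact h5 (by linear_combination h7)
    · intro h7
      exact h6 (by linear_combination h7)
  have h2 : Tendsto (fun q : ℂ × ℂ => (q, q)) (𝓝 P) (𝓝 (P, P)) := (continuous_id.prodMk continuous_id).tendsto P
  refine h2.frequently (h1.mono ?_)
  rintro q ⟨h0, hD⟩
  have h3 : pexp (Complex.log q.1, Complex.log q.2) = q :=
    Prod.ext (Complex.exp_log (left_ne_zero_of_mul h0)) (Complex.exp_log (right_ne_zero_of_mul h0))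
  exact ⟨_, _, h3, h3, by rw [ln_mem_iff, h3]; exact hD, rfl⟩

/-- the value of the lift off the axes -/
theorem lf_val (h : BCrv θ l ρ F U p) (c : MChart W) {w : ℂ} (hw : w ∈ U) (hS : p w ∈ DS) {v : ℂ × ℂ} (h1 : Complex.exp v.1 = (p w).1)
    (h2 : Complex.exp v.2 = (p w).2) (h3 : slp l F w = W.T c.k v) :
    w ∈ c.Om F U p ∧ c.lf F U p w = pexp (sgf c.w c.w' v, taf c.w c.w' v) := by
  have hU : w ∈ Uk W.T c.k U (fun z => (p z).1) (fun z => (p z).2) (slp l F) := ⟨hw, hS.1.1, hS.2.1, v, h1, h2, h3⟩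
  obtain ⟨e1, e2⟩ := st_eq W.web c.basis (BCrv.crv h).1 hw hS.1.1 hS.2.1 h1 h2 h3
  refine ⟨((h.lft c).mem w hS.1.1 hS.2.1).2 hU, ?_⟩
  simp only [MChart.lf, MQ3.sl, MQ3.tl, if_pos hU]
  exact Prod.ext e1 e2

theorem ln_sgf {w w' : ℕ × ℕ} (hd : dt w w' ≠ 0) (v : ℂ × ℂ) : ln w w' (sgf w w' v, taf w w' v) = v :=
  Prod.ext (sgf_taf₁ hd v) (sgf_taf₂ hd v)

theorem sgf_taf_ln {w w' : ℕ × ℕ} (hd : dt w w' ≠ 0) (V : ℂ × ℂ) : (sgf w w' (ln w w' V), taf w w' (ln w w' V)) = V := by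
  have hd' : ((dt w w' : ℤ) : ℂ) ≠ 0 := Int.cast_ne_zero.2 hd
  refine Prod.ext ?_ ?_
  · simp only [sgf, ln]
    rw [div_eq_iff hd', dt_cast]
    ring
  · simp only [taf, ln]
    rw [div_eq_iff hd', dt_cast]
    ring

/-- the logarithms of a point of the curve off the axes -/
theorem lf_log (h : BCrv θ l ρ F U p) (c : MChart W) {w : ℂ} (hw : w ∈ c.Om F U p) (hS : p w ∈ DS) :
    ∃ v ∈ HH, Complex.exp v.1 = (p w).1 ∧ Complex.exp v.2 = (p w).2 ∧ slp l F w = W.T c.k v ∧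
      c.lf F U p w = pexp (sgf c.w c.w' v, taf c.w c.w' v) := by
  obtain ⟨hwU, -, -, v, h1, h2, h3⟩ := ((h.lft c).mem w hS.1.1 hS.2.1).1 hw
  exact ⟨v, HH_of_exp (x := fun z => (p z).1) (y := fun z => (p z).2) hS.1.2 hS.2.2 h1 h2, h1, h2, h3, (lf_val h c hwU hS h1 h2 h3).2⟩

theorem lf_pair (h : BCrv θ l ρ F U p) (c c' : MChart W) (hk : c.k = c'.k) {w : ℂ} (hw : w ∈ c.Om F U p) (hS : p w ∈ DS) :
    w ∈ c'.Om F U p ∧ ∃ V V' : ℂ × ℂ, pexp V = c.lf F U p w ∧ pexp V' = c'.lf F U p w ∧ ln c.w c.w' V ∈ HH ∧ ln c.w c.w' V = ln c'.w c'.w' V' := by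
  obtain ⟨v, hv, h1, h2, h3, h4⟩ := lf_log h c hw hS
  obtain ⟨h5, h6⟩ := lf_val h c' (om_sub h c hw) hS h1 h2 (hk ▸ h3)
  exact ⟨h5, _, _, h4.symm, h6.symm, by rw [ln_sgf c.basis.det]; exact hv, by rw [ln_sgf c.basis.det, ln_sgf c'.basis.det]⟩

/-- **(R1)** No curve is near both points. -/
theorem nbr_sep {c c' : MChart W} {P P' : ℂ × ℂ} (hn : ¬ Nbr c c' P P')
    (ho : c.k = c'.k ∨ ∀ r s : ℤ, (W.a ^ r * W.b ^ s) c.k ≠ c'.k) :
    ∃ r > 0, ∀ (F : ℂ → EN M) (U : Set ℂ) (p : ℂ → ℂ × ℂ), BCrv θ l ρ F U p → ∀ z, z ∈ c.Om F U p → z ∈ c'.Om F U p →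
      c.lf F U p z ∈ ball P r → c'.lf F U p z ∈ ball P' r → False := by
  rcases ho with hk | ho
  · have h1 : ∀ᶠ Q in 𝓝 (P, P'), ¬ ∃ V V' : ℂ × ℂ, pexp V = Q.1 ∧ pexp V' = Q.2 ∧ ln c.w c.w' V ∈ HH ∧ ln c.w c.w' V = ln c'.w c'.w' V' := by
      by_contra hcon
      exact hn ⟨hk, hcon⟩
    obtain ⟨r, hr, h2⟩ := Metric.eventually_nhds_iff_ball.1 h1
    refine ⟨r, hr, fun F U p h z hz hz' hq hq' => ?_⟩
    have h3 := ((lf_an h c z hz).continuousAt.eventually_mem (isOpen_ball.mem_nhds hq)).filter_mono (nhdsWithin_le_nhds (s := {z}ᶜ))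
    have h4 := ((lf_an h c' z hz').continuousAt.eventually_mem (isOpen_ball.mem_nhds hq')).filter_mono (nhdsWithin_le_nhds (s := {z}ᶜ))
    obtain ⟨w, h5, h6, h7⟩ := (h3.and (h4.and (lf_ev h c z hz))).exists
    obtain ⟨-, V, V', g1, g2, g3, g4⟩ := lf_pair h c c' hk h7.1 h7.2.2.1
    refine h2 (c.lf F U p w, c'.lf F U p w) ?_ ⟨V, V', g1, g2, g3, g4⟩
    rw [← ball_prod_same]
    exact ⟨h5, h6⟩
  · exact ⟨1, one_pos, fun F U p h z hz hz' _ _ => om_disjoint h c c' ho hz hz'⟩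

/-- the monomial transition with integer exponents -/
def tr (α β γ δ : ℤ) (q : ℂ × ℂ) : ℂ × ℂ := (q.1 ^ α * q.2 ^ γ, q.1 ^ β * q.2 ^ δ)

/-- the transition is analytic at the point -/
def TrOk (α β γ δ : ℤ) (q : ℂ × ℂ) : Prop := (q.1 ≠ 0 ∨ (0 ≤ α ∧ 0 ≤ β)) ∧ (q.2 ≠ 0 ∨ (0 ≤ γ ∧ 0 ≤ δ))

theorem analyticAt_zpow {f : ℂ × ℂ → ℂ} {q : ℂ × ℂ} (hf : AnalyticAt ℂ f q) {n : ℤ} (h : f q ≠ 0 ∨ 0 ≤ n) : AnalyticAt ℂ (fun q => f q ^ n) q := by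
  rcases h with h | h
  · exact hf.fun_zpow h
  · obtain ⟨k, rfl⟩ := Int.eq_ofNat_of_zero_le h
    simp only [Int.ofNat_eq_natCast, zpow_natCast]
    exact hf.fun_pow k

theorem trOk_of {α β γ δ : ℤ} {q : ℂ × ℂ} (h1 : q.1 ≠ 0 ∨ (α = 0 ∧ β = 1)) (h2 : q.2 ≠ 0 ∨ (γ = 1 ∧ δ = 0)) : TrOk α β γ δ q := by
  constructor
  · rcases h1 with h1 | ⟨rfl, rfl⟩
    · exact Or.inl h1
    · exact Or.inr ⟨le_rfl, zero_le_one⟩
  · rcases h2 with h2 | ⟨rfl, rfl⟩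
    · exact Or.inl h2
    · exact Or.inr ⟨zero_le_one, le_rfl⟩

theorem TrOk.an {α β γ δ : ℤ} {q : ℂ × ℂ} (h : TrOk α β γ δ q) : AnalyticAt ℂ (tr α β γ δ) q := by
  have h1 : ∀ n : ℤ, (q.1 ≠ 0 ∨ 0 ≤ n) → AnalyticAt ℂ (fun q : ℂ × ℂ => q.1 ^ n) q := fun n hn => analyticAt_zpow analyticAt_fst hn
  have h2 : ∀ n : ℤ, (q.2 ≠ 0 ∨ 0 ≤ n) → AnalyticAt ℂ (fun q : ℂ × ℂ => q.2 ^ n) q := fun n hn => analyticAt_zpow analyticAt_snd hn
  exact ((h1 α (h.1.imp_right fun h => h.1)).fun_mul (h2 γ (h.2.imp_right fun h => h.1))).prod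
    ((h1 β (h.1.imp_right fun h => h.2)).fun_mul (h2 δ (h.2.imp_right fun h => h.2)))

theorem TrOk.ev {α β γ δ : ℤ} {q : ℂ × ℂ} (h : TrOk α β γ δ q) : ∀ᶠ q' in 𝓝 q, TrOk α β γ δ q' := by
  have h1 : ∀ᶠ q' : ℂ × ℂ in 𝓝 q, q'.1 ≠ 0 ∨ (0 ≤ α ∧ 0 ≤ β) := by
    rcases h.1 with h | h
    · exact (continuousAt_fst.eventually_ne h).mono fun _ h => Or.inl h
    · exact Eventually.of_forall fun _ => Or.inr h
  have h2 : ∀ᶠ q' : ℂ × ℂ in 𝓝 q, q'.2 ≠ 0 ∨ (0 ≤ γ ∧ 0 ≤ δ) := by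
    rcases h.2 with h | h
    · exact (continuousAt_snd.eventually_ne h).mono fun _ h => Or.inl h
    · exact Eventually.of_forall fun _ => Or.inr h
  filter_upwards [h1, h2] with q' h3 h4 using ⟨h3, h4⟩

theorem tr_pexp (α β γ δ : ℤ) (σ τ : ℂ) : tr α β γ δ (pexp (σ, τ)) = pexp (α * σ + γ * τ, β * σ + δ * τ) := by
  simp only [tr, pexp, Complex.exp_add, Complex.exp_int_mul]

/-- two bases of one lattice -/
theorem exists_tr (c c' : MChart W) (hk : c.k = c'.k) : ∃ α β γ δ : ℤ, ((c.w.1 : ℤ) = α * c'.w.1 + β * c'.w'.1 ∧ (c.w.2 : ℤ) = α * c'.w.2 + β * c'.w'.2) ∧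
    (c.w'.1 : ℤ) = γ * c'.w.1 + δ * c'.w'.1 ∧ (c.w'.2 : ℤ) = γ * c'.w.2 + δ * c'.w'.2 := by
  obtain ⟨α, β, h1, h2⟩ := c'.basis.gen _ _ (hk ▸ c.basis.mem)
  obtain ⟨γ, δ, h3, h4⟩ := c'.basis.gen _ _ (hk ▸ c.basis.mem')
  exact ⟨α, β, γ, δ, ⟨h1, h2⟩, h3, h4⟩

theorem tr_log {w w' u u' : ℕ × ℕ} {α β γ δ : ℤ} (h1 : (w.1 : ℤ) = α * u.1 + β * u'.1) (h2 : (w.2 : ℤ) = α * u.2 + β * u'.2)
    (h3 : (w'.1 : ℤ) = γ * u.1 + δ * u'.1) (h4 : (w'.2 : ℤ) = γ * u.2 + δ * u'.2) (hd : dt u u' ≠ 0) {σ τ σ' τ' : ℂ}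
    (h : ln w w' (σ, τ) = ln u u' (σ', τ')) : σ' = α * σ + γ * τ ∧ τ' = β * σ + δ * τ := by
  have c1 : (w.1 : ℂ) = α * u.1 + β * u'.1 := by exact_mod_cast congrArg (Int.cast : ℤ → ℂ) h1
  have c2 : (w.2 : ℂ) = α * u.2 + β * u'.2 := by exact_mod_cast congrArg (Int.cast : ℤ → ℂ) h2
  have c3 : (w'.1 : ℂ) = γ * u.1 + δ * u'.1 := by exact_mod_cast congrArg (Int.cast : ℤ → ℂ) h3
  have c4 : (w'.2 : ℂ) = γ * u.2 + δ * u'.2 := by exact_mod_cast congrArg (Int.cast : ℤ → ℂ) h4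
  have e1 : σ * w.1 + τ * w'.1 = σ' * u.1 + τ' * u'.1 := congrArg Prod.fst h
  have e2 : σ * w.2 + τ * w'.2 = σ' * u.2 + τ' * u'.2 := congrArg Prod.snd h
  rw [c1, c3] at e1
  rw [c2, c4] at e2
  have hd' : (u.1 : ℂ) * u'.2 - u.2 * u'.1 ≠ 0 := by
    have := (Int.cast_ne_zero (α := ℂ)).2 hd
    rwa [dt_cast] at this
  constructor
  · apply mul_left_cancel₀ hd'
    linear_combination (u'.1 : ℂ) * e2 - (u'.2 : ℂ) * e1
  · apply mul_left_cancel₀ hd'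
    linear_combination (u.2 : ℂ) * e1 - (u.1 : ℂ) * e2

/-- corresponding points are related by the transition -/
theorem tr_eq {c c' : MChart W} {α β γ δ : ℤ} (h1 : (c.w.1 : ℤ) = α * c'.w.1 + β * c'.w'.1 ∧ (c.w.2 : ℤ) = α * c'.w.2 + β * c'.w'.2)
    (h2 : (c.w'.1 : ℤ) = γ * c'.w.1 + δ * c'.w'.1 ∧ (c.w'.2 : ℤ) = γ * c'.w.2 + δ * c'.w'.2) {V V' : ℂ × ℂ}
    (h : ln c.w c.w' V = ln c'.w c'.w' V') : tr α β γ δ (pexp V) = pexp V' := by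
  obtain ⟨h3, h4⟩ := tr_log (σ := V.1) (τ := V.2) (σ' := V'.1) (τ' := V'.2) h1.1 h1.2 h2.1 h2.2 c'.basis.det h
  rw [show V = (V.1, V.2) from rfl, tr_pexp, ← h3, ← h4]

/-- **The lift to the other chart.** -/
theorem lf_tr (h : BCrv θ l ρ F U p) (c c' : MChart W) (hk : c.k = c'.k) {α β γ δ : ℤ}
    (h1 : (c.w.1 : ℤ) = α * c'.w.1 + β * c'.w'.1 ∧ (c.w.2 : ℤ) = α * c'.w.2 + β * c'.w'.2)
    (h2 : (c.w'.1 : ℤ) = γ * c'.w.1 + δ * c'.w'.1 ∧ (c.w'.2 : ℤ) = γ * c'.w.2 + δ * c'.w'.2) {z : ℂ} (hz : z ∈ c.Om F U p)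
    (hok : TrOk α β γ δ (c.lf F U p z)) : z ∈ c'.Om F U p ∧ c'.lf F U p z = tr α β γ δ (c.lf F U p z) := by
  have hzU := om_sub h c hz
  have hlf := lf_an h c z hz
  have htr : ContinuousAt (fun w => tr α β γ δ (c.lf F U p w)) z := (hok.an.continuousAt).comp' hlf.continuousAt
  have hev : ∀ᶠ w in 𝓝[≠] z, w ∈ c'.Om F U p ∧ c'.lf F U p w = tr α β γ δ (c.lf F U p w) := by
    filter_upwards [lf_ev h c z hz] with w hw
    obtain ⟨g1, V, V', g2, g3, -, g4⟩ := lf_pair h c c' hk hw.1 hw.2.2.1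
    exact ⟨g1, by rw [← g2, ← g3, tr_eq h1 h2 g4]⟩
  obtain ⟨r, hr, hrU⟩ := Metric.nhds_basis_closedBall.mem_iff.1 (h.isOpen.mem_nhds hzU)
  have hcl := lf_closed h c' (C := closedBall z r) isClosed_closedBall hrU
    (K := closedBall (0 : ℂ × ℂ) (‖tr α β γ δ (c.lf F U p z)‖ + 1)) (isCompact_closedBall _ _)
  have hzO : z ∈ c'.Om F U p := by
    have h3 : ∀ᶠ w in 𝓝[≠] z, w ∈ {z' | z' ∈ closedBall z r ∧ z' ∈ c'.Om F U p ∧
        c'.lf F U p z' ∈ closedBall (0 : ℂ × ℂ) (‖tr α β γ δ (c.lf F U p z)‖ + 1)} := by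
      have h4 : ∀ᶠ w in 𝓝[≠] z, ‖tr α β γ δ (c.lf F U p w)‖ < ‖tr α β γ δ (c.lf F U p z)‖ + 1 :=
        (htr.norm.eventually_lt_const (lt_add_one _)).filter_mono nhdsWithin_le_nhds
      filter_upwards [hev, h4, eventually_nhdsWithin_of_eventually_nhds (closedBall_mem_nhds z hr)] with w g1 g2 g3
      refine ⟨g3, g1.1, ?_⟩
      rw [mem_closedBall_zero_iff, g1.2]
      exact g2.le
    exact (hcl.mem_of_frequently_of_tendsto h3.frequently (tendsto_id.mono_left nhdsWithin_le_nhds)).2.1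
  refine ⟨hzO, ?_⟩
  have h3 := tendsto_nhds_unique_of_eventuallyEq ((lf_an h c' z hzO).continuousAt.tendsto.mono_left (nhdsWithin_le_nhds (s := {z}ᶜ)))
    (htr.tendsto.mono_left nhdsWithin_le_nhds) (hev.mono fun w hw => hw.2)
  exact h3

/-- a monomial relation holds in the limit -/
theorem Nbr.lim {c c' : MChart W} {P P' : ℂ × ℂ} (hn : Nbr c c' P P') {a b d e : ℕ}
    (h : ∀ V V' : ℂ × ℂ, ln c.w c.w' V = ln c'.w c'.w' V' → (a : ℂ) * V.1 + b * V.2 + d * V'.1 + e * V'.2 = 0) :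
    P.1 ^ a * P.2 ^ b * P'.1 ^ d * P'.2 ^ e = 1 := by
  have h1 : IsClosed {Q : (ℂ × ℂ) × (ℂ × ℂ) | Q.1.1 ^ a * Q.1.2 ^ b * Q.2.1 ^ d * Q.2.2 ^ e = 1} := isClosed_eq (by fun_prop) continuous_const
  refine h1.mem_of_frequently_of_tendsto (x := (P, P')) (f := id) (hn.2.mono ?_) tendsto_id
  rintro Q ⟨V, V', h2, h3, -, h4⟩
  show Q.1.1 ^ a * Q.1.2 ^ b * Q.2.1 ^ d * Q.2.2 ^ e = 1
  rw [← h2, ← h3]
  simp only [pexp]
  rw [← Complex.exp_nat_mul, ← Complex.exp_nat_mul, ← Complex.exp_nat_mul, ← Complex.exp_nat_mul, ← Complex.exp_add, ← Complex.exp_add,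
    ← Complex.exp_add, h V V' h4, Complex.exp_zero]

theorem cast_dt {w w' : ℕ × ℕ} {n : ℕ} (h : dt w w' = n) : (n : ℂ) = (w.1 : ℂ) * w'.2 - w.2 * w'.1 := by
  rw [← dt_cast, h, Int.cast_natCast]

theorem Basis.pos₁ {a b : Equiv.Perm (Fin W.e)} {k : Fin W.e} {w w' : ℕ × ℕ} (hB : Basis a b k w w') : 0 < w.1 + w.2 := by
  by_contra hcon
  have h1 : w.1 = 0 := by omega
  have h2 : w.2 = 0 := by omega
  apply hB.det
  rw [dt, h1, h2]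
  simp

theorem Basis.pos₂ {a b : Equiv.Perm (Fin W.e)} {k : Fin W.e} {w w' : ℕ × ℕ} (hB : Basis a b k w w') : 0 < w'.1 + w'.2 := by
  by_contra hcon
  have h1 : w'.1 = 0 := by omega
  have h2 : w'.2 = 0 := by omega
  apply hB.det
  rw [dt, h1, h2]
  simp

/-- two primitive vectors on the same ray -/
theorem basis_eq₃ {q : ℕ} {a b : Equiv.Perm (Fin q)} {k : Fin q} {w w' u u' : ℕ × ℕ} (hB : Basis a b k w w') (hB' : Basis a b k u u')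
    (h : dt w' u = 0) : w' = u := by
  have hs : Basis a b k w' w := by
    refine ⟨?_, hB.mem', hB.mem, fun m n hmn => ?_⟩
    · rw [dt_swap]
      exact neg_ne_zero.2 hB.det
    · obtain ⟨α, β, h1, h2⟩ := hB.gen m n hmn
      exact ⟨β, α, by rw [h1]; ring, by rw [h2]; ring⟩
  exact basis_eq₁ hs hB' h

/-- **(R2)** Neighbours: the transition is analytic and maps `P` to `P'`. -/
theorem nbr_tr' {c c' : MChart W} {P P' : ℂ × ℂ} (hn : Nbr c c' P P') (hf : 0 ≤ dt c.w' c'.w ∨ 0 ≤ dt c'.w' c.w) :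
    ∃ α β γ δ : ℤ, ((c.w.1 : ℤ) = α * c'.w.1 + β * c'.w'.1 ∧ (c.w.2 : ℤ) = α * c'.w.2 + β * c'.w'.2) ∧
      ((c.w'.1 : ℤ) = γ * c'.w.1 + δ * c'.w'.1 ∧ (c.w'.2 : ℤ) = γ * c'.w.2 + δ * c'.w'.2) ∧
      (P.1 ≠ 0 ∨ (α = 0 ∧ β = 1)) ∧ (P.2 ≠ 0 ∨ (γ = 1 ∧ δ = 0)) ∧ P ≠ 0 ∧ tr α β γ δ P = P' := by
  have hk := hn.1
  obtain ⟨α, β, γ, δ, h1, h2⟩ := exists_tr c c' hk
  have hB' : Basis W.a W.b c.k c'.w c'.w' := hk ▸ c'.basis
  have pw := Basis.pos₁ c.basis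
  have pw' := Basis.pos₂ c.basis
  have pu := Basis.pos₁ c'.basis
  have pu' := Basis.pos₂ c'.basis
  have hc := c.pos
  have hc' := c'.pos
  have key : ∀ a b d e : ℕ, ∀ V V' : ℂ × ℂ, ln c.w c.w' V = ln c'.w c'.w' V' →
      V.1 * c.w.1 + V.2 * c.w'.1 = V'.1 * c'.w.1 + V'.2 * c'.w'.1 ∧ V.1 * c.w.2 + V.2 * c.w'.2 = V'.1 * c'.w.2 + V'.2 * c'.w'.2 :=
    fun _ _ _ _ V V' h => ⟨congrArg Prod.fst h, congrArg Prod.snd h⟩
  have hok' : (P.1 ≠ 0 ∨ (α = 0 ∧ β = 1)) ∧ (P.2 ≠ 0 ∨ (γ = 1 ∧ δ = 0)) ∧ (P.1 ≠ 0 ∨ P.2 ≠ 0) := by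
    rcases hf with hf | hf
    · obtain ⟨n1, e1⟩ := Int.eq_ofNat_of_zero_le hc.le
      obtain ⟨n2, e2⟩ := Int.eq_ofNat_of_zero_le hf
      obtain ⟨n3, e3⟩ := Int.eq_ofNat_of_zero_le (dt_trans pu hf hc'.le)
      obtain ⟨n4, e4⟩ := Int.eq_ofNat_of_zero_le (dt_trans pw' hc.le hf)
      obtain ⟨n5, e5⟩ := Int.eq_ofNat_of_zero_le hc'.le
      have c1 := cast_dt e1
      have c2 := cast_dt e2
      have c3 := cast_dt e3
      have c4 := cast_dt e4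
      have c5 := cast_dt e5
      have g1 := hn.lim (a := n1) (b := 0) (d := n2) (e := n3) (fun V V' h => by
        obtain ⟨k1, k2⟩ := key 0 0 0 0 V V' h
        rw [c1, c2, c3]
        push_cast
        linear_combination (c.w'.2 : ℂ) * k1 - (c.w'.1 : ℂ) * k2)
      have g2 := hn.lim (a := n4) (b := n2) (d := 0) (e := n5) (fun V V' h => by
        obtain ⟨k1, k2⟩ := key 0 0 0 0 V V' h
        rw [c4, c2, c5]
        push_cast
        linear_combination (c'.w.2 : ℂ) * k1 - (c'.w.1 : ℂ) * k2)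
      have g0 : P.1 ≠ 0 := by
        intro h0
        have hn1 : n1 ≠ 0 := by
          intro h
          rw [h] at e1
          rw [e1] at hc
          simp at hc
        rw [h0, zero_pow hn1] at g1
        simp at g1
      refine ⟨Or.inl g0, ?_, Or.inl g0⟩
      · by_cases hn2 : n2 = 0
        · right
          rw [hn2] at e2
          have hwu : c.w' = c'.w := basis_eq₃ c.basis hB' (by rw [e2]; rfl)
          obtain ⟨r1, r2⟩ := det_inj c'.basis.det (α := γ) (β := δ) (α' := 1) (β' := 0) (by rw [← h2.1, hwu]; ring) (by rw [← h2.2, hwu]; ring)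
          exact ⟨r1, r2⟩
        · left
          intro h0
          rw [h0, zero_pow hn2] at g2
          simp at g2
    · obtain ⟨n1, e1⟩ := Int.eq_ofNat_of_zero_le hc.le
      obtain ⟨n2, e2⟩ := Int.eq_ofNat_of_zero_le hf
      obtain ⟨n3, e3⟩ := Int.eq_ofNat_of_zero_le (dt_trans pu' hc'.le hf)
      obtain ⟨n4, e4⟩ := Int.eq_ofNat_of_zero_le (dt_trans pw hf hc.le)
      obtain ⟨n5, e5⟩ := Int.eq_ofNat_of_zero_le hc'.le
      have c1 := cast_dt e1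
      have c2 := cast_dt e2
      have c3 := cast_dt e3
      have c4 := cast_dt e4
      have c5 := cast_dt e5
      have g1 := hn.lim (a := 0) (b := n1) (d := n3) (e := n2) (fun V V' h => by
        obtain ⟨k1, k2⟩ := key 0 0 0 0 V V' h
        rw [c1, c2, c3]
        push_cast
        linear_combination (c.w.1 : ℂ) * k2 - (c.w.2 : ℂ) * k1)
      have g2 := hn.lim (a := n2) (b := n4) (d := n5) (e := 0) (fun V V' h => by
        obtain ⟨k1, k2⟩ := key 0 0 0 0 V V' h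
        rw [c4, c2, c5]
        push_cast
        linear_combination (c'.w'.1 : ℂ) * k2 - (c'.w'.2 : ℂ) * k1)
      have g0 : P.2 ≠ 0 := by
        intro h0
        have hn1 : n1 ≠ 0 := by
          intro h
          rw [h] at e1
          rw [e1] at hc
          simp at hc
        rw [h0, zero_pow hn1] at g1
        simp at g1
      refine ⟨?_, Or.inl g0, Or.inr g0⟩
      · by_cases hn2 : n2 = 0
        · right
          rw [hn2] at e2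
          have hwu : c'.w' = c.w := basis_eq₃ hB' c.basis (by rw [e2]; rfl)
          obtain ⟨r1, r2⟩ := det_inj c'.basis.det (α := α) (β := β) (α' := 0) (β' := 1) (by rw [← h1.1, ← hwu]; ring) (by rw [← h1.2, ← hwu]; ring)
          exact ⟨r1, r2⟩
        · left
          intro h0
          rw [h0, zero_pow hn2] at g2
          simp at g2
  have hok : TrOk α β γ δ P := trOk_of hok'.1 hok'.2.1
  have hP0 : P ≠ 0 := by
    rintro rfl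
    rcases hok'.2.2 with h | h
    · exact h rfl
    · exact h rfl
  refine ⟨α, β, γ, δ, h1, h2, hok'.1, hok'.2.1, hP0, ?_⟩
  -- the values
  have h3 : ∃ᶠ Q in 𝓝 (P, P'), tr α β γ δ Q.1 = Q.2 := by
    refine hn.2.mono ?_
    rintro Q ⟨V, V', g1, g2, -, g4⟩
    rw [← g1, ← g2]
    exact tr_eq h1 h2 g4
  have h4 : ContinuousAt (fun Q : (ℂ × ℂ) × (ℂ × ℂ) => tr α β γ δ Q.1 - Q.2) (P, P') :=
    ((hok.an.continuousAt).comp' (x := (P, P')) continuousAt_fst).sub continuousAt_snd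
  have h5 : tr α β γ δ P - P' ∈ ({0} : Set (ℂ × ℂ)) :=
    isClosed_singleton.mem_of_frequently_of_tendsto (h3.mono fun Q hQ => by
      show tr α β γ δ Q.1 - Q.2 ∈ ({0} : Set (ℂ × ℂ))
      rw [hQ, sub_self]
      rfl) h4.tendsto
  exact sub_eq_zero.1 h5

theorem nbr_tr {c c' : MChart W} {P P' : ℂ × ℂ} (hn : Nbr c c' P P') (hf : 0 ≤ dt c.w' c'.w ∨ 0 ≤ dt c'.w' c.w) :
    ∃ α β γ δ : ℤ, ((c.w.1 : ℤ) = α * c'.w.1 + β * c'.w'.1 ∧ (c.w.2 : ℤ) = α * c'.w.2 + β * c'.w'.2) ∧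
      ((c.w'.1 : ℤ) = γ * c'.w.1 + δ * c'.w'.1 ∧ (c.w'.2 : ℤ) = γ * c'.w.2 + δ * c'.w'.2) ∧ TrOk α β γ δ P ∧ tr α β γ δ P = P' := by
  obtain ⟨α, β, γ, δ, h1, h2, h3, h4, -, h5⟩ := nbr_tr' hn hf
  exact ⟨α, β, γ, δ, h1, h2, trOk_of h3 h4, h5⟩

/-- corresponding logarithms -/
theorem ln_tr {c c' : MChart W} {α β γ δ : ℤ} (h1 : (c.w.1 : ℤ) = α * c'.w.1 + β * c'.w'.1 ∧ (c.w.2 : ℤ) = α * c'.w.2 + β * c'.w'.2)
    (h2 : (c.w'.1 : ℤ) = γ * c'.w.1 + δ * c'.w'.1 ∧ (c.w'.2 : ℤ) = γ * c'.w.2 + δ * c'.w'.2) (V : ℂ × ℂ) :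
    ln c'.w c'.w' (α * V.1 + γ * V.2, β * V.1 + δ * V.2) = ln c.w c.w' V := by
  have c1 : (c.w.1 : ℂ) = α * c'.w.1 + β * c'.w'.1 := by exact_mod_cast congrArg (Int.cast : ℤ → ℂ) h1.1
  have c2 : (c.w.2 : ℂ) = α * c'.w.2 + β * c'.w'.2 := by exact_mod_cast congrArg (Int.cast : ℤ → ℂ) h1.2
  have c3 : (c.w'.1 : ℂ) = γ * c'.w.1 + δ * c'.w'.1 := by exact_mod_cast congrArg (Int.cast : ℤ → ℂ) h2.1
  have c4 : (c.w'.2 : ℂ) = γ * c'.w.2 + δ * c'.w'.2 := by exact_mod_cast congrArg (Int.cast : ℤ → ℂ) h2.2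
  refine Prod.ext ?_ ?_
  · show (α * V.1 + γ * V.2) * c'.w.1 + (β * V.1 + δ * V.2) * c'.w'.1 = V.1 * c.w.1 + V.2 * c.w'.1
    rw [c1, c3]
    ring
  · show (α * V.1 + γ * V.2) * c'.w.2 + (β * V.1 + δ * V.2) * c'.w'.2 = V.1 * c.w.2 + V.2 * c.w'.2
    rw [c2, c4]
    ring

/-- the transition is compatible with the maps to the box -/
theorem tr_mono {c c' : MChart W} {α β γ δ : ℤ} (h1 : (c.w.1 : ℤ) = α * c'.w.1 + β * c'.w'.1 ∧ (c.w.2 : ℤ) = α * c'.w.2 + β * c'.w'.2)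
    (h2 : (c.w'.1 : ℤ) = γ * c'.w.1 + δ * c'.w'.1 ∧ (c.w'.2 : ℤ) = γ * c'.w.2 + δ * c'.w'.2) {q : ℂ × ℂ} (h0 : q.1 * q.2 ≠ 0) :
    c'.κ (tr α β γ δ q) = c.κ q := by
  have h3 : pexp (Complex.log q.1, Complex.log q.2) = q :=
    Prod.ext (Complex.exp_log (left_ne_zero_of_mul h0)) (Complex.exp_log (right_ne_zero_of_mul h0))
  set V : ℂ × ℂ := (Complex.log q.1, Complex.log q.2) with hV
  have c1 : (c.w.1 : ℂ) = α * c'.w.1 + β * c'.w'.1 := by exact_mod_cast congrArg (Int.cast : ℤ → ℂ) h1.1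
  have c2 : (c.w.2 : ℂ) = α * c'.w.2 + β * c'.w'.2 := by exact_mod_cast congrArg (Int.cast : ℤ → ℂ) h1.2
  have c3 : (c.w'.1 : ℂ) = γ * c'.w.1 + δ * c'.w'.1 := by exact_mod_cast congrArg (Int.cast : ℤ → ℂ) h2.1
  have c4 : (c.w'.2 : ℂ) = γ * c'.w.2 + δ * c'.w'.2 := by exact_mod_cast congrArg (Int.cast : ℤ → ℂ) h2.2
  rw [← h3, show V = (V.1, V.2) from rfl, tr_pexp]
  show mono c'.w c'.w' _ = mono c.w c.w' _
  rw [← pexp_ln, ← pexp_ln]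
  congr 1
  refine Prod.ext ?_ ?_
  · show (α * V.1 + γ * V.2) * c'.w.1 + (β * V.1 + δ * V.2) * c'.w'.1 = V.1 * c.w.1 + V.2 * c.w'.1
    rw [c1, c3]
    ring
  · show (α * V.1 + γ * V.2) * c'.w.2 + (β * V.1 + δ * V.2) * c'.w'.2 = V.1 * c.w.2 + V.2 * c.w'.2
    rw [c2, c4]
    ring

/-- **(R2)** in terms of curves -/
theorem nbr_glue {c c' : MChart W} {P P' : ℂ × ℂ} (hn : Nbr c c' P P') (hf : 0 ≤ dt c.w' c'.w ∨ 0 ≤ dt c'.w' c.w) :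
    ∃ Φ : ℂ × ℂ → ℂ × ℂ, AnalyticAt ℂ Φ P ∧ Φ P = P' ∧ (∀ᶠ q in 𝓝 P, q.1 * q.2 ≠ 0 → c'.κ (Φ q) = c.κ q) ∧
      ∃ r > 0, ∀ (F : ℂ → EN M) (U : Set ℂ) (p : ℂ → ℂ × ℂ), BCrv θ l ρ F U p → ∀ z ∈ c.Om F U p, c.lf F U p z ∈ ball P r →
        z ∈ c'.Om F U p ∧ c'.lf F U p z = Φ (c.lf F U p z) := by
  obtain ⟨α, β, γ, δ, h1, h2, h3, h4⟩ := nbr_tr hn hf
  obtain ⟨r, hr, h5⟩ := Metric.eventually_nhds_iff_ball.1 h3.ev
  exact ⟨tr α β γ δ, h3.an, h4, Eventually.of_forall fun q hq => tr_mono h1 h2 hq, r, hr, fun F U p h z hz hq =>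
    lf_tr h c c' hn.1 h1 h2 hz (h5 _ hq)⟩

/-- in one chart only equal points are neighbours -/
theorem nbr_self {c : MChart W} {P P' : ℂ × ℂ} (hn : Nbr c c P P') : P = P' := by
  have h1 : ∃ᶠ Q in 𝓝 (P, P'), Q.1 = Q.2 := by
    refine hn.2.mono ?_
    rintro Q ⟨V, V', g1, g2, -, g4⟩
    have h2 : V = V' := by
      have e1 := sgf_taf_ln c.basis.det V
      have e2 := sgf_taf_ln c.basis.det V'
      rw [g4] at e1
      exact e1.symm.trans e2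
    rw [← g1, ← g2, h2]
  have h2 : IsClosed {Q : (ℂ × ℂ) × (ℂ × ℂ) | Q.1 = Q.2} := isClosed_eq continuous_fst continuous_snd
  exact h2.mem_of_frequently_of_tendsto (x := (P, P')) (f := id) h1 tendsto_id

end Pool.Agent.MQ3
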