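import Pool.Agent.MQ2.Hart
import Pool.Agent.MQ3.Glue

/-!
# MQ3 Par: parallel vector fields with isolated zeros differ by a unit
-/

set_option autoImplicit false

open Topology Filter Metric

noncomputable section

namespace Pool.Agent.MQ3

/-- Hartogs at any point -/
theorem hartogs_at {f : ℂ × ℂ → ℂ} {q : ℂ × ℂ} (hf : ∀ᶠ p in 𝓝[≠] q, AnalyticAt ℂ f p) :
    ∃ F : ℂ × ℂ → ℂ, AnalyticAt ℂ F q ∧ ∀ᶠ p in 𝓝[≠] q, F p = f p := by
  have h1 : Tendsto (fun x : ℂ × ℂ => q + x) (𝓝 0) (𝓝 q) := by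
    have : Continuous fun x : ℂ × ℂ => q + x := by fun_prop
    have h := this.tendsto 0
    rwa [add_zero] at h
  have h2 : Tendsto (fun x : ℂ × ℂ => x - q) (𝓝 q) (𝓝 0) := by
    have : Continuous fun x : ℂ × ℂ => x - q := by fun_prop
    have h := this.tendsto q
    rwa [sub_self] at h
  obtain ⟨F, hF, hF'⟩ := Pool.Agent.MQ2.hartogs (f := fun x => f (q + x)) (by
    filter_upwards [h1.eventually (eventually_nhdsWithin_iff.1 hf)] with x hx h0
    have h3 : AnalyticAt ℂ f (q + x) := hx (by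
      intro h
      exact h0 (by simpa using h))
    exact AnalyticAt.comp (g := f) (f := fun x : ℂ × ℂ => q + x) (x := x) h3 (analyticAt_const.add analyticAt_id))
  refine ⟨fun p => F (p - q), ?_, ?_⟩
  · have h3 : AnalyticAt ℂ F (q - q) := by rwa [sub_self]
    exact AnalyticAt.comp (g := F) (f := fun x : ℂ × ℂ => x - q) (x := q) h3 (analyticAt_id.sub analyticAt_const)
  · rw [eventually_nhdsWithin_iff]
    filter_upwards [h2.eventually hF'] with p hp hpq
    rw [hp (sub_ne_zero.2 hpq), add_sub_cancel]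

/-- Two parallel vector fields with isolated zeros differ by a unit. -/
theorem par_unit {V V' : ℂ × ℂ → ℂ × ℂ} {q : ℂ × ℂ} (hV : AnalyticAt ℂ V q) (hV' : AnalyticAt ℂ V' q) (h0 : ∀ᶠ x in 𝓝[≠] q, V x ≠ 0)
    (h0' : ∀ᶠ x in 𝓝[≠] q, V' x ≠ 0) (h : ∀ᶠ x in 𝓝 q, x.1 * x.2 ≠ 0 → (V x).1 * (V' x).2 = (V x).2 * (V' x).1) :
    ∃ f : ℂ × ℂ → ℂ, AnalyticAt ℂ f q ∧ f q ≠ 0 ∧ ∀ᶠ x in 𝓝 q, V x = f x • V' x := by
  classical
  have a1 : ∀ {V : ℂ × ℂ → ℂ × ℂ} {x : ℂ × ℂ}, AnalyticAt ℂ V x → AnalyticAt ℂ (fun x => (V x).1) x := fun h => analyticAt_fst.fun_comp h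
  have a2 : ∀ {V : ℂ × ℂ → ℂ × ℂ} {x : ℂ × ℂ}, AnalyticAt ℂ V x → AnalyticAt ℂ (fun x => (V x).2) x := fun h => analyticAt_snd.fun_comp h
  have hpar : ∀ᶠ x in 𝓝 q, (V x).1 * (V' x).2 = (V x).2 * (V' x).1 :=
    eventuallyEq_of_off ((a1 hV).fun_mul (a2 hV')) ((a2 hV).fun_mul (a1 hV')) h
  set f : ℂ × ℂ → ℂ := fun x => if (V' x).1 ≠ 0 then (V x).1 / (V' x).1 else (V x).2 / (V' x).2 with hf
  have hne : ∀ x : ℂ × ℂ, x ≠ 0 → x.1 ≠ 0 ∨ x.2 ≠ 0 := by
    intro x hx
    by_contra hcon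
    rw [not_or, not_not, not_not] at hcon
    exact hx (Prod.ext hcon.1 hcon.2)
  have hfa : ∀ᶠ x in 𝓝[≠] q, AnalyticAt ℂ f x := by
    filter_upwards [h0', (eventually_eventually_nhds.2 hpar).filter_mono nhdsWithin_le_nhds, hV.eventually_analyticAt.filter_mono nhdsWithin_le_nhds,
      hV'.eventually_analyticAt.filter_mono nhdsWithin_le_nhds] with x h1 h2 h3 h4
    by_cases h5 : (V' x).1 = 0
    · have h6 : (V' x).2 ≠ 0 := (hne _ h1).resolve_left (fun h => h h5)
      refine ((a2 h3).fun_div (a2 h4) h6).congr ?_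
      filter_upwards [h2, (a2 h4).continuousAt.eventually_ne h6] with y hy h7
      by_cases h8 : (V' y).1 = 0
      · simp only [hf, h8, ne_eq, not_true_eq_false, if_false]
      · simp only [hf, ne_eq, h8, not_false_eq_true, if_true]
        rw [div_eq_div_iff h7 h8]
        exact hy.symm
    · refine ((a1 h3).fun_div (a1 h4) h5).congr ?_
      filter_upwards [(a1 h4).continuousAt.eventually_ne h5] with y h7
      simp only [hf, ne_eq, h7, not_false_eq_true, if_true]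
  obtain ⟨G, hG, hG'⟩ := hartogs_at hfa
  have hrel : ∀ᶠ x in 𝓝[≠] q, V x = G x • V' x := by
    filter_upwards [hG', h0', hpar.filter_mono nhdsWithin_le_nhds] with x h1 h2 h3
    rw [h1]
    by_cases h5 : (V' x).1 = 0
    · have h6 : (V' x).2 ≠ 0 := (hne _ h2).resolve_left (fun h => h h5)
      have h7 : f x = (V x).2 / (V' x).2 := by simp only [hf, h5, ne_eq, not_true_eq_false, if_false]
      rw [h7]
      refine Prod.ext ?_ ?_
      · rw [Prod.smul_fst, smul_eq_mul, h5, mul_zero]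
        rw [h5, mul_zero] at h3
        exact (mul_eq_zero.1 h3).resolve_right h6
      · rw [Prod.smul_snd, smul_eq_mul, div_mul_cancel₀ _ h6]
    · have h7 : f x = (V x).1 / (V' x).1 := by simp only [hf, ne_eq, h5, not_false_eq_true, if_true]
      rw [h7]
      refine Prod.ext ?_ ?_
      · rw [Prod.smul_fst, smul_eq_mul, div_mul_cancel₀ _ h5]
      · rw [Prod.smul_snd, smul_eq_mul, div_mul_eq_mul_div, h3, mul_div_cancel_right₀ _ h5]
  have hG0 : G q ≠ 0 := by
    refine ne_of_isolated hG ?_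
    have h1 : ∀ᶠ x in 𝓝[≠] q, G x ≠ 0 := by
      filter_upwards [hrel, h0] with x h1 h2 h3
      rw [h3, zero_smul] at h1
      exact h2 h1
    exact eventually_nhdsWithin_iff.1 h1
  refine ⟨G, hG, hG0, ?_⟩
  have h1 : AnalyticAt ℂ (fun x => G x • V' x) q := hG.fun_smul hV'
  haveI := Module.punctured_nhds_neBot ℂ (ℂ × ℂ) q
  have hq : V q = G q • V' q :=
    tendsto_nhds_unique_of_eventuallyEq (hV.continuousAt.tendsto.mono_left nhdsWithin_le_nhds) (h1.continuousAt.tendsto.mono_left nhdsWithin_le_nhds) hrel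
  filter_upwards [eventually_nhdsWithin_iff.1 hrel] with x h2
  by_cases hx : x = q
  · rw [hx]
    exact hq
  · exact h2 hx

end Pool.Agent.MQ3
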