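import Pool.Agent.MQ3.Avat
import Pool.Agent.MQ3.Par
import Pool.Agent.MQ3.NC

/-!
# MQ3 AvatB: gluing of two charts at neighbouring points: the transition respects the foliation and the axes
-/

set_option autoImplicit false

open Topology Filter Metric

noncomputable section

namespace Pool.Agent.MQ3

open Pool.Agent.H36.BP (EN)
open Pool.Agent.H17BP (Surface)

variable {M : ℕ} {X : Set (EN M)} {m : ℕ} {θ : WDiff X m} {l : LF M} {ρ : ℂ × ℂ → EN M} {W : BoxWeb θ l ρ}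

/-- `Φ` and `Ψ` glue the charts `c` and `c'` near `q` -/
structure Gl (c c' : MChart W) (Φ Ψ : ℂ × ℂ → ℂ × ℂ) (q : ℂ × ℂ) : Prop where
  an : AnalyticAt ℂ Φ q
  an' : AnalyticAt ℂ Ψ (Φ q)
  inv : ∀ᶠ y in 𝓝 q, Ψ (Φ y) = y
  inv' : ∀ᶠ y in 𝓝 (Φ q), Φ (Ψ y) = y
  kap : ∀ᶠ y in 𝓝 q, c'.κ (Φ y) = c.κ y
  fld : ∃ h : ℂ × ℂ → ℂ, AnalyticAt ℂ h q ∧ h q ≠ 0 ∧ ∀ᶠ y in 𝓝 q, fderiv ℂ Φ y (c.v y) = h y • c'.v (Φ y)
  ax : ∃ ε : ℂ × ℂ → ℂ, AnalyticAt ℂ ε q ∧ ε q ≠ 0 ∧ ∀ᶠ y in 𝓝 q, (Φ y).1 * (Φ y).2 = ε y * (y.1 * y.2)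
  ne : ∀ᶠ y in 𝓝 q, y ≠ 0 ↔ Φ y ≠ 0

theorem Gl.ev {c c' : MChart W} {Φ Ψ : ℂ × ℂ → ℂ × ℂ} {q : ℂ × ℂ} (h : Gl c c' Φ Ψ q) : ∀ᶠ y in 𝓝 q, Gl c c' Φ Ψ y := by
  obtain ⟨g, hg, hg0, hg'⟩ := h.fld
  obtain ⟨ε, he, he0, he'⟩ := h.ax
  filter_upwards [h.an.eventually_analyticAt, h.an.continuousAt.eventually h.an'.eventually_analyticAt, eventually_eventually_nhds.2 h.inv,
    h.an.continuousAt.eventually (eventually_eventually_nhds.2 h.inv'), eventually_eventually_nhds.2 h.kap, hg.eventually_analyticAt,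
    hg.continuousAt.eventually_ne hg0, eventually_eventually_nhds.2 hg', he.eventually_analyticAt, he.continuousAt.eventually_ne he0,
    eventually_eventually_nhds.2 he', eventually_eventually_nhds.2 h.ne] with y h1 h2 h3 h4 h5 h6 h7 h8 h9 h10 h11 h12
  exact ⟨h1, h2, h3, h4, h5, ⟨g, h6, h7, h8⟩, ⟨ε, h9, h10, h11⟩, h12⟩

theorem Gl.symm {c c' : MChart W} {Φ Ψ : ℂ × ℂ → ℂ × ℂ} {q : ℂ × ℂ} (h : Gl c c' Φ Ψ q) : Gl c' c Ψ Φ (Φ q) := by
  have hq : Ψ (Φ q) = q := h.inv.self_of_nhds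
  have hΨ : ContinuousAt Ψ (Φ q) := h.an'.continuousAt
  have ht : Tendsto Ψ (𝓝 (Φ q)) (𝓝 q) := by
    have := hΨ.tendsto
    rwa [hq] at this
  obtain ⟨g, hg, hg0, hg'⟩ := h.fld
  obtain ⟨ε, he, he0, he'⟩ := h.ax
  refine ⟨h.an', by rw [hq]; exact h.an, h.inv', by rw [hq]; exact h.inv, ?_, ?_, ?_, ?_⟩
  · filter_upwards [ht.eventually h.kap, h.inv'] with y h1 h2
    rw [h2] at h1
    exact h1.symm
  · have hgΨ : AnalyticAt ℂ (fun y => g (Ψ y)) (Φ q) := AnalyticAt.comp (g := g) (f := Ψ) (x := Φ q) (by rw [hq]; exact hg) h.an'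
    refine ⟨fun y => (g (Ψ y))⁻¹, hgΨ.fun_inv (by rw [hq]; exact hg0), inv_ne_zero (by rw [hq]; exact hg0), ?_⟩
    filter_upwards [ht.eventually hg', h.inv', ht.eventually (eventually_eventually_nhds.2 h.inv), ht.eventually h.an.eventually_analyticAt,
      ht.eventually (hg.continuousAt.eventually_ne hg0), h.an'.eventually_analyticAt] with y h1 h2 h3 h4 h5 h6
    rw [h2] at h1
    have h7 : c'.v y = (g (Ψ y))⁻¹ • fderiv ℂ Φ (Ψ y) (c.v (Ψ y)) := by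
      rw [h1, smul_smul, inv_mul_cancel₀ h5, one_smul]
    have h8 : fderiv ℂ (fun x => Ψ (Φ x)) (Ψ y) = (fderiv ℂ Ψ y).comp (fderiv ℂ Φ (Ψ y)) := by
      have := fderiv_comp (𝕜 := ℂ) (g := Ψ) (f := Φ) (Ψ y) (by rw [h2]; exact h6.differentiableAt) h4.differentiableAt
      rw [h2] at this
      exact this
    have h9 : fderiv ℂ (fun x => Ψ (Φ x)) (Ψ y) = ContinuousLinearMap.id ℂ (ℂ × ℂ) := by
      rw [Filter.EventuallyEq.fderiv_eq (f := id) h3, fderiv_id]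
    have h10 : fderiv ℂ Ψ y (fderiv ℂ Φ (Ψ y) (c.v (Ψ y))) = c.v (Ψ y) := by
      have := congrArg (fun L : ℂ × ℂ →L[ℂ] ℂ × ℂ => L (c.v (Ψ y))) (h8.symm.trans h9)
      exact this
    rw [h7, map_smul, h10]
  · have heΨ : AnalyticAt ℂ (fun y => ε (Ψ y)) (Φ q) := AnalyticAt.comp (g := ε) (f := Ψ) (x := Φ q) (by rw [hq]; exact he) h.an'
    refine ⟨fun y => (ε (Ψ y))⁻¹, heΨ.fun_inv (by rw [hq]; exact he0), inv_ne_zero (by rw [hq]; exact he0), ?_⟩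
    filter_upwards [ht.eventually he', h.inv', ht.eventually (he.continuousAt.eventually_ne he0)] with y h1 h2 h3
    rw [h2] at h1
    rw [h1, inv_mul_cancel_left₀ h3]
  · filter_upwards [ht.eventually h.ne, h.inv'] with y h1 h2
    rw [h2] at h1
    exact h1.symm

/-- the identity -/
theorem Gl.id (c : MChart W) (q : ℂ × ℂ) : Gl c c id id q := by
  refine ⟨analyticAt_id, analyticAt_id, Eventually.of_forall fun _ => rfl, Eventually.of_forall fun _ => rfl, Eventually.of_forall fun _ => rfl,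
    ⟨fun _ => 1, analyticAt_const, one_ne_zero, Eventually.of_forall fun y => ?_⟩, ⟨fun _ => 1, analyticAt_const, one_ne_zero,
      Eventually.of_forall fun y => by simp⟩, Eventually.of_forall fun _ => Iff.rfl⟩
  rw [fderiv_id]
  simp

/-- **Neighbouring points: the charts are glued.** -/
theorem nbr_gl {c c' : MChart W} {q q' : ℂ × ℂ} (hn : Nbr c c' q q') (hf : c = c' ∨ 0 ≤ dt c.w' c'.w ∨ 0 ≤ dt c'.w' c.w) (hq : q ∈ c.D) (hq' : q' ∈ c'.D) :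
    ∃ Φ Ψ : ℂ × ℂ → ℂ × ℂ, Gl c c' Φ Ψ q ∧ Φ q = q' ∧
      ∃ N ∈ 𝓝 q, ∀ (F : ℂ → EN M) (U : Set ℂ) (p : ℂ → ℂ × ℂ), BCrv θ l ρ F U p → ∀ z ∈ c.Om F U p, c.lf F U p z ∈ N →
        z ∈ c'.Om F U p ∧ c'.lf F U p z = Φ (c.lf F U p z) := by
  rcases hf with rfl | hf
  · have h1 := nbr_self hn
    subst h1
    exact ⟨id, id, Gl.id c q, rfl, Set.univ, univ_mem, fun F U p _ z hz _ => ⟨hz, rfl⟩⟩
  obtain ⟨α, β, γ, δ, h1, h2, h3, h4, h5, h6⟩ := nbr_tr' hn hf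
  obtain ⟨α', β', γ', δ', h1', h2', h3', h4', h5', h6'⟩ := nbr_tr' hn.symm hf.symm
  have hok := trOk_of h3 h4
  have hok' := trOk_of h3' h4'
  have hΦ := hok.an
  have hΨ : AnalyticAt ℂ (tr α' β' γ' δ') (tr α β γ δ q) := by
    rw [h6]
    exact hok'.an
  have hlog : ∀ y : ℂ × ℂ, y.1 * y.2 ≠ 0 → pexp (Complex.log y.1, Complex.log y.2) = y := fun y h0 =>
    Prod.ext (Complex.exp_log (left_ne_zero_of_mul h0)) (Complex.exp_log (right_ne_zero_of_mul h0))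
  -- the inverse
  have hinv0 : ∀ y : ℂ × ℂ, y.1 * y.2 ≠ 0 → tr α' β' γ' δ' (tr α β γ δ y) = y := by
    intro y h0
    set V : ℂ × ℂ := (Complex.log y.1, Complex.log y.2) with hV
    have e1 : tr α β γ δ y = pexp (α * V.1 + γ * V.2, β * V.1 + δ * V.2) := by rw [← tr_pexp, hlog y h0]
    rw [e1, tr_eq h1' h2' (ln_tr h1 h2 V), hlog y h0]
  have hinv0' : ∀ y : ℂ × ℂ, y.1 * y.2 ≠ 0 → tr α β γ δ (tr α' β' γ' δ' y) = y := by
    intro y h0
    set V : ℂ × ℂ := (Complex.log y.1, Complex.log y.2) with hV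
    have e1 : tr α' β' γ' δ' y = pexp (α' * V.1 + γ' * V.2, β' * V.1 + δ' * V.2) := by rw [← tr_pexp, hlog y h0]
    rw [e1, tr_eq h1 h2 (ln_tr h1' h2' V), hlog y h0]
  have hinv : ∀ᶠ y in 𝓝 q, tr α' β' γ' δ' (tr α β γ δ y) = y :=
    eventuallyEq_of_off (f := fun y => tr α' β' γ' δ' (tr α β γ δ y)) (g := fun y => y) (hΨ.comp hΦ) analyticAt_id
      (Eventually.of_forall fun y h0 => hinv0 y h0)
  have hinv' : ∀ᶠ y in 𝓝 (tr α β γ δ q), tr α β γ δ (tr α' β' γ' δ' y) = y := by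
    rw [h6]
    refine eventuallyEq_of_off (f := fun y => tr α β γ δ (tr α' β' γ' δ' y)) (g := fun y => y) ?_ analyticAt_id
      (Eventually.of_forall fun y h0 => hinv0' y h0)
    refine AnalyticAt.comp (g := tr α β γ δ) (f := tr α' β' γ' δ') (x := q') ?_ hok'.an
    rw [h6']
    exact hΦ
  have hkap : ∀ᶠ y in 𝓝 q, c'.κ (tr α β γ δ y) = c.κ y :=
    eventuallyEq_of_off (f := fun y => c'.κ (tr α β γ δ y)) (g := fun y => c.κ y)
      (AnalyticAt.comp (g := c'.κ) (f := tr α β γ δ) (x := q) (analyticAt_mono _) hΦ) (analyticAt_mono _)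
      (Eventually.of_forall fun y h0 => tr_mono h1 h2 h0)
  -- the fields
  have hD : ∀ᶠ y in 𝓝 q, y ∈ c.D := isOpen_Dm.mem_nhds hq
  have hv : AnalyticAt ℂ c.v q := c.v_an q hq
  have hv' : AnalyticAt ℂ c'.v (tr α β γ δ q) := by
    rw [h6]
    exact c'.v_an q' hq'
  have hV : AnalyticAt ℂ (fun y => fderiv ℂ (tr α β γ δ) y (c.v y)) q := analyticAt_fderiv_app hΦ hv
  have hV' : AnalyticAt ℂ (fun y => c'.v (tr α β γ δ y)) q := AnalyticAt.comp (g := c'.v) (f := tr α β γ δ) (x := q) hv' hΦ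
  have hinj : ∀ᶠ y in 𝓝 q, ∀ w, fderiv ℂ (tr α' β' γ' δ') (tr α β γ δ y) (fderiv ℂ (tr α β γ δ) y w) = w := by
    filter_upwards [eventually_eventually_nhds.2 hinv, hΦ.eventually_analyticAt, hΦ.continuousAt.eventually hΨ.eventually_analyticAt] with y g1 g2 g3 w
    have g4 : fderiv ℂ (fun x => tr α' β' γ' δ' (tr α β γ δ x)) y = (fderiv ℂ (tr α' β' γ' δ') (tr α β γ δ y)).comp (fderiv ℂ (tr α β γ δ) y) :=
      fderiv_comp (𝕜 := ℂ) (g := tr α' β' γ' δ') (f := tr α β γ δ) y g3.differentiableAt g2.differentiableAt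
    have g5 : fderiv ℂ (fun x => tr α' β' γ' δ' (tr α β γ δ x)) y = ContinuousLinearMap.id ℂ (ℂ × ℂ) := by
      rw [Filter.EventuallyEq.fderiv_eq (f := id) g1, fderiv_id]
    exact congrArg (fun L : ℂ × ℂ →L[ℂ] ℂ × ℂ => L w) (g4.symm.trans g5)
  have hVne : ∀ᶠ y in 𝓝[≠] q, fderiv ℂ (tr α β γ δ) y (c.v y) ≠ 0 := by
    rw [eventually_nhdsWithin_iff]
    filter_upwards [hinj, c.v_iso q hq] with y g1 g2 hy g3
    have g4 := g1 (c.v y)
    rw [g3, map_zero] at g4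
    exact g2 hy g4.symm
  have hVne' : ∀ᶠ y in 𝓝[≠] q, c'.v (tr α β γ δ y) ≠ 0 := by
    have ht : Tendsto (tr α β γ δ) (𝓝 q) (𝓝 q') := by
      have := hΦ.continuousAt.tendsto
      rwa [h6] at this
    rw [eventually_nhdsWithin_iff]
    filter_upwards [ht.eventually (c'.v_iso q' hq'), hinv] with y g1 g2 hy
    refine g1 fun g3 => hy ?_
    rw [g3, h6'] at g2
    exact g2.symm
  have hpar : ∀ᶠ y in 𝓝 q, y.1 * y.2 ≠ 0 → (fderiv ℂ (tr α β γ δ) y (c.v y)).1 * (c'.v (tr α β γ δ y)).2 =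
      (fderiv ℂ (tr α β γ δ) y (c.v y)).2 * (c'.v (tr α β γ δ y)).1 := by
    filter_upwards [hD, eventually_eventually_nhds.2 hkap, hΦ.eventually_analyticAt] with y g1 g2 g3 h0
    set V : ℂ × ℂ := (Complex.log y.1, Complex.log y.2) with hVd
    have e0 : pexp V = y := hlog y h0
    have e1 : tr α β γ δ y = pexp (α * V.1 + γ * V.2, β * V.1 + δ * V.2) := by rw [← tr_pexp, hlog y h0]
    have e2 : ln c.w c.w' V ∈ HH := by
      rw [ln_mem_iff, e0]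
      exact g1
    have e3 := ln_tr h1 h2 V
    have e4 := c.v_eq V e2 (c.v y)
    have e5 := c'.v_eq (α * V.1 + γ * V.2, β * V.1 + δ * V.2) (by rw [e3]; exact e2) (fderiv ℂ (tr α β γ δ) y (c.v y))
    have e6 : fderiv ℂ (mono c'.w c'.w') (tr α β γ δ y) (fderiv ℂ (tr α β γ δ) y (c.v y)) = fderiv ℂ (mono c.w c.w') y (c.v y) := by
      have k1 : fderiv ℂ (fun x => mono c'.w c'.w' (tr α β γ δ x)) y = (fderiv ℂ (mono c'.w c'.w') (tr α β γ δ y)).comp (fderiv ℂ (tr α β γ δ) y) :=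
        fderiv_comp (𝕜 := ℂ) (g := mono c'.w c'.w') (f := tr α β γ δ) y (analyticAt_mono _).differentiableAt g3.differentiableAt
      have k2 : fderiv ℂ (fun x => mono c'.w c'.w' (tr α β γ δ x)) y = fderiv ℂ (mono c.w c.w') y :=
        Filter.EventuallyEq.fderiv_eq g2
      exact congrArg (fun L : ℂ × ℂ →L[ℂ] ℂ × ℂ => L (c.v y)) (k1.symm.trans k2)
    rw [← e1, e3, e6, ← hn.1] at e5
    rw [e0] at e4
    have e7 : (c.v y).1 * (c.v y).2 - (c.v y).2 * (c.v y).1 = 0 := by ring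
    rw [e7, mul_zero] at e4
    rw [e4] at e5
    have e8 : (tr α β γ δ y).1 ^ c'.i * (tr α β γ δ y).2 ^ c'.j ≠ 0 := by
      rw [e1]
      exact mul_ne_zero (pow_ne_zero _ (Complex.exp_ne_zero _)) (pow_ne_zero _ (Complex.exp_ne_zero _))
    have e9 := (mul_eq_zero.1 e5.symm).resolve_left e8
    linear_combination -e9
  refine ⟨tr α β γ δ, tr α' β' γ' δ', ⟨hΦ, hΨ, hinv, hinv', hkap, par_unit hV hV' hVne hVne' hpar, ?_, ?_⟩, h6, ?_⟩
  · -- the axes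
    have k1 : q.1 ≠ 0 ∨ α + β - 1 = 0 := h3.imp_right fun h => by rw [h.1, h.2]; ring
    have k2 : q.2 ≠ 0 ∨ γ + δ - 1 = 0 := h4.imp_right fun h => by rw [h.1, h.2]; ring
    have a1 : AnalyticAt ℂ (fun y : ℂ × ℂ => y.1 ^ (α + β - 1)) q := analyticAt_zpow analyticAt_fst (k1.imp_right fun h => h.ge)
    have a2 : AnalyticAt ℂ (fun y : ℂ × ℂ => y.2 ^ (γ + δ - 1)) q := analyticAt_zpow analyticAt_snd (k2.imp_right fun h => h.ge)
    refine ⟨fun y => y.1 ^ (α + β - 1) * y.2 ^ (γ + δ - 1), a1.fun_mul a2, ?_, ?_⟩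
    · refine mul_ne_zero ?_ ?_
      · rcases k1 with k | k
        · exact zpow_ne_zero _ k
        · rw [k, zpow_zero]
          exact one_ne_zero
      · rcases k2 with k | k
        · exact zpow_ne_zero _ k
        · rw [k, zpow_zero]
          exact one_ne_zero
    · refine eventuallyEq_of_off (f := fun y => (tr α β γ δ y).1 * (tr α β γ δ y).2) (g := fun y : ℂ × ℂ => y.1 ^ (α + β - 1) * y.2 ^ (γ + δ - 1) * (y.1 * y.2))
        ((analyticAt_fst.fun_comp hΦ).fun_mul (analyticAt_snd.fun_comp hΦ)) ((a1.fun_mul a2).fun_mul (analyticAt_fst.fun_mul analyticAt_snd))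
        (Eventually.of_forall fun y h0 => ?_)
      have y1 := left_ne_zero_of_mul h0
      have y2 := right_ne_zero_of_mul h0
      show y.1 ^ α * y.2 ^ γ * (y.1 ^ β * y.2 ^ δ) = y.1 ^ (α + β - 1) * y.2 ^ (γ + δ - 1) * (y.1 * y.2)
      rw [zpow_sub_one₀ y1, zpow_sub_one₀ y2, zpow_add₀ y1, zpow_add₀ y2]
      field_simp
  · have k1 : tr α β γ δ q ≠ 0 := by
      rw [h6]
      exact h5'
    filter_upwards [hΦ.continuousAt.eventually_ne k1, eventually_ne_nhds h5] with y g1 g2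
    exact ⟨fun _ => g1, fun _ => g2⟩
  · exact ⟨{y | TrOk α β γ δ y}, hok.ev, fun F U p h z hz hzN => lf_tr h c c' hn.1 h1 h2 hz hzN⟩

end Pool.Agent.MQ3
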