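import Pool.Agent.MQ3.LfN
import Pool.Agent.MQ3.AvatB

/-!
# MQ3 Avatar: two chart points over the same box: separated, or glued; regular points are respected by the gluing
-/

set_option autoImplicit false

open Topology Filter Metric MvPolynomial

noncomputable section

namespace Pool.Agent.MQ3

open Pool.Agent.H36.BP (EN fs)
open Pool.Agent.H17BP (Surface)
open Pool.Agent.H17EF (projVar coneE)

variable {M : ℕ} {P : Ideal (MvPolynomial (Fin (M + 1)) ℂ)} {RD : MvPolynomial (Fin (M + 1)) ℂ} {m : ℕ} {X : NCModel P RD} {θ : WDiff (coneE P) m}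
  {l : LF M} {S : Web X θ l} {Ra : MvPolynomial (Fin (M + 1)) ℂ}

/-- properties near `q` and near `Φ q` -/
theorem Gl.push {i : X.ι} {a a' : (S.V i).ι} {Φ Ψ : ℂ × ℂ → ℂ × ℂ} {q : ℂ × ℂ} (h : Gl (S.c ⟨i, a⟩) (S.c ⟨i, a'⟩) Φ Ψ q) {R : ℂ × ℂ → Prop}
    (hR : ∀ᶠ x in 𝓝 q, R x) : ∀ᶠ y in 𝓝 (Φ q), R (Ψ y) := by
  have hq : Ψ (Φ q) = q := h.inv.self_of_nhds
  have ht : Tendsto Ψ (𝓝 (Φ q)) (𝓝 q) := by
    have := h.an'.continuousAt.tendsto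
    rwa [hq] at this
  exact ht.eventually hR

/-- the product of the coordinates -/
theorem fderiv_mul_coord (x w : ℂ × ℂ) : fderiv ℂ (fun y : ℂ × ℂ => y.1 * y.2) x w = x.2 * w.1 + x.1 * w.2 := by
  have h1 : HasFDerivAt (fun y : ℂ × ℂ => y.1 * y.2) (x.1 • ContinuousLinearMap.snd ℂ ℂ ℂ + x.2 • ContinuousLinearMap.fst ℂ ℂ ℂ) x :=
    (hasFDerivAt_fst (p := x)).mul (hasFDerivAt_snd (p := x))
  rw [h1.fderiv]
  simp
  ring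

/-- regularity off the curve, with the product of the coordinates -/
theorem regA_iff {k : S.ι} {q : ℂ × ℂ} : RegA S Ra k q ↔ q ∈ S.D k ∧ S.v k q ≠ 0 ∧ q ≠ 0 ∧
    (q.1 * q.2 = 0 → fderiv ℂ (fun y : ℂ × ℂ => y.1 * y.2) q (S.v k q) ≠ 0 ∨
      ∀ᶠ x in 𝓝 q, x.1 * x.2 = 0 → fderiv ℂ (fun y : ℂ × ℂ => y.1 * y.2) x (S.v k x) = 0) ∧
    ∀ᶠ x in 𝓝 q, x.1 * x.2 ≠ 0 → eval (S.σ k x).ofLp Ra ≠ 0 := by
  constructor
  · intro h
    refine ⟨h.mem, h.v_ne, h.ne, fun h0 => ?_, h.alg⟩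
    rcases mul_eq_zero.1 h0 with h1 | h1
    · have h2 : q.2 ≠ 0 := fun h2 => h.ne (Prod.ext h1 h2)
      rcases h.ax₁ h1 with h3 | h3
      · left
        rw [fderiv_mul_coord, h1, zero_mul, add_zero]
        exact mul_ne_zero h2 h3
      · right
        filter_upwards [h3, continuousAt_snd.eventually_ne h2] with x h4 h5 h6
        have h7 := (mul_eq_zero.1 h6).resolve_right h5
        rw [fderiv_mul_coord, h7, h4 h7]
        ring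
    · have h2 : q.1 ≠ 0 := fun h2 => h.ne (Prod.ext h2 h1)
      rcases h.ax₂ h1 with h3 | h3
      · left
        rw [fderiv_mul_coord, h1, zero_mul, zero_add]
        exact mul_ne_zero h2 h3
      · right
        filter_upwards [h3, continuousAt_fst.eventually_ne h2] with x h4 h5 h6
        have h7 := (mul_eq_zero.1 h6).resolve_left h5
        rw [fderiv_mul_coord, h7, h4 h7]
        ring
  · rintro ⟨h1, h2, h3, h4, h5⟩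
    refine ⟨h1, h2, h3, fun h6 => ?_, fun h6 => ?_, h5⟩
    · have h7 : q.2 ≠ 0 := fun h7 => h3 (Prod.ext h6 h7)
      rcases h4 (by rw [h6, zero_mul]) with h8 | h8
      · left
        rw [fderiv_mul_coord, h6, zero_mul, add_zero] at h8
        exact right_ne_zero_of_mul h8
      · right
        filter_upwards [h8, continuousAt_snd.eventually_ne h7] with x h9 h10 h11
        have h12 := h9 (by rw [h11, zero_mul])
        rw [fderiv_mul_coord, h11, zero_mul, add_zero] at h12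
        exact (mul_eq_zero.1 h12).resolve_left h10
    · have h7 : q.1 ≠ 0 := fun h7 => h3 (Prod.ext h7 h6)
      rcases h4 (by rw [h6, mul_zero]) with h8 | h8
      · left
        rw [fderiv_mul_coord, h6, zero_mul, zero_add] at h8
        exact right_ne_zero_of_mul h8
      · right
        filter_upwards [h8, continuousAt_fst.eventually_ne h7] with x h9 h10 h11
        have h12 := h9 (by rw [h11, mul_zero])
        rw [fderiv_mul_coord, h11, zero_mul, zero_add] at h12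
        exact (mul_eq_zero.1 h12).resolve_left h10

section

variable {i : X.ι} {a a' : (S.V i).ι} {Φ Ψ : ℂ × ℂ → ℂ × ℂ} {q : ℂ × ℂ}

theorem Gl.mem_iff (h : Gl (S.c ⟨i, a⟩) (S.c ⟨i, a'⟩) Φ Ψ q) (hq : q ∈ S.D ⟨i, a⟩) : Φ q ∈ S.D ⟨i, a'⟩ := by
  have h1 : S.κ ⟨i, a'⟩ (Φ q) = S.κ ⟨i, a⟩ q := h.kap.self_of_nhds
  refine ⟨?_, ?_⟩
  · have h2 : S.κ ⟨i, a'⟩ (Φ q) ∈ DD := by
      rw [h1]
      exact hq.1
    exact h2
  · show S.κ ⟨i, a'⟩ (Φ q) ∈ X.B i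
    rw [h1]
    exact hq.2

theorem Gl.v_ne (h : Gl (S.c ⟨i, a⟩) (S.c ⟨i, a'⟩) Φ Ψ q) (hq : S.v ⟨i, a⟩ q ≠ 0) : S.v ⟨i, a'⟩ (Φ q) ≠ 0 := by
  obtain ⟨g, -, hg0, hg'⟩ := h.symm.fld
  have h1 := hg'.self_of_nhds
  rw [h.inv.self_of_nhds] at h1
  intro h2
  have h3 : (S.c ⟨i, a'⟩).v (Φ q) = 0 := h2
  rw [h3, map_zero] at h1
  exact hq ((smul_eq_zero.1 h1.symm).resolve_left hg0)

/-- the derivative of a function along the field, in the other chart: a function `A'` with `A' ∘ Φ = ε A` -/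
theorem Gl.dir (h : Gl (S.c ⟨i, a⟩) (S.c ⟨i, a'⟩) Φ Ψ q) {A A' : ℂ × ℂ → ℂ} (hA : AnalyticAt ℂ A q) (hA' : AnalyticAt ℂ A' (Φ q))
    (hAA : ∃ ε : ℂ × ℂ → ℂ, AnalyticAt ℂ ε q ∧ ε q ≠ 0 ∧ ∀ᶠ y in 𝓝 q, A' (Φ y) = ε y * A y) :
    ∀ᶠ y in 𝓝 q, A y = 0 → (fderiv ℂ A y (S.v ⟨i, a⟩ y) = 0 ↔ fderiv ℂ A' (Φ y) (S.v ⟨i, a'⟩ (Φ y)) = 0) := by
  obtain ⟨ε, he, he0, he'⟩ := hAA
  obtain ⟨g, hg, hg0, hg'⟩ := h.fld
  filter_upwards [hA.eventually_analyticAt, h.an.continuousAt.eventually hA'.eventually_analyticAt, he.eventually_analyticAt,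
    he.continuousAt.eventually_ne he0, eventually_eventually_nhds.2 he', hg.continuousAt.eventually_ne hg0, hg', h.an.eventually_analyticAt] with
      y h1 h2 h3 h4 h5 h6 h7 h8 h9
  have e1 : HasFDerivAt (fun x => A' (Φ x)) ((fderiv ℂ A' (Φ y)).comp (fderiv ℂ Φ y)) y :=
    h2.differentiableAt.hasFDerivAt.comp y h8.differentiableAt.hasFDerivAt
  have e2 : HasFDerivAt (fun x => ε x * A x) (ε y • fderiv ℂ A y + A y • fderiv ℂ ε y) y :=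
    h3.differentiableAt.hasFDerivAt.mul h1.differentiableAt.hasFDerivAt
  have e3 : (fderiv ℂ A' (Φ y)).comp (fderiv ℂ Φ y) = ε y • fderiv ℂ A y + A y • fderiv ℂ ε y := by
    rw [← e1.fderiv, ← e2.fderiv]
    exact Filter.EventuallyEq.fderiv_eq h5
  have e4 : ε y • fderiv ℂ A y + A y • fderiv ℂ ε y = ε y • fderiv ℂ A y := by
    have : A y • fderiv ℂ ε y = 0 := by
      rw [h9]
      exact zero_smul ℂ (fderiv ℂ ε y)
    rw [this, add_zero]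
  have e5 : fderiv ℂ A' (Φ y) (fderiv ℂ Φ y (S.v ⟨i, a⟩ y)) = ε y * fderiv ℂ A y (S.v ⟨i, a⟩ y) :=
    congrArg (fun L : ℂ × ℂ →L[ℂ] ℂ => L (S.v ⟨i, a⟩ y)) (e3.trans e4)
  have e6 : fderiv ℂ Φ y (S.v ⟨i, a⟩ y) = g y • S.v ⟨i, a'⟩ (Φ y) := h7
  rw [e6, map_smul, smul_eq_mul] at e5
  constructor
  · intro h10
    rw [h10, mul_zero] at e5
    exact (mul_eq_zero.1 e5).resolve_left h6
  · intro h10
    rw [h10, mul_zero] at e5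
    exact (mul_eq_zero.1 e5.symm).resolve_left h4

theorem Gl.σ_eq (h : Gl (S.c ⟨i, a⟩) (S.c ⟨i, a'⟩) Φ Ψ q) : ∀ᶠ y in 𝓝 q, S.σ ⟨i, a'⟩ (Φ y) = S.σ ⟨i, a⟩ y := by
  filter_upwards [h.kap] with y hy
  exact congrArg (X.ρ i) hy

theorem Gl.regA (h : Gl (S.c ⟨i, a⟩) (S.c ⟨i, a'⟩) Φ Ψ q) (hq : RegA S Ra ⟨i, a⟩ q) : RegA S Ra ⟨i, a'⟩ (Φ q) := by
  rw [regA_iff] at hq ⊢
  obtain ⟨h1, h2, h3, h4, h5⟩ := hq
  obtain ⟨ε, he, he0, he'⟩ := h.ax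
  have hm : ∀ x : ℂ × ℂ, AnalyticAt ℂ (fun y : ℂ × ℂ => y.1 * y.2) x := fun x => analyticAt_fst.fun_mul analyticAt_snd
  have hdir := h.dir (A := fun y => y.1 * y.2) (A' := fun y => y.1 * y.2) (hm _) (hm _) h.ax
  have hax : ∀ᶠ y in 𝓝 q, (Φ y).1 * (Φ y).2 = 0 ↔ y.1 * y.2 = 0 := by
    filter_upwards [he', he.continuousAt.eventually_ne he0] with y g1 g2
    rw [g1, mul_eq_zero, or_iff_right g2]
  refine ⟨h.mem_iff h1, h.v_ne h2, h.ne.self_of_nhds.1 h3, fun h6 => ?_, ?_⟩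
  · have h7 := hax.self_of_nhds.1 h6
    rcases h4 h7 with h8 | h8
    · left
      exact fun h9 => h8 ((hdir.self_of_nhds h7).2 h9)
    · right
      have h9 : ∀ᶠ y in 𝓝 q, (Φ y).1 * (Φ y).2 = 0 → fderiv ℂ (fun y : ℂ × ℂ => y.1 * y.2) (Φ y) (S.v ⟨i, a'⟩ (Φ y)) = 0 := by
        filter_upwards [h8, hdir, hax] with y g1 g2 g3 g4
        exact (g2 (g3.1 g4)).1 (g1 (g3.1 g4))
      filter_upwards [h.push h9, h.inv'] with y g1 g2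
      rwa [g2] at g1
  · have h9 : ∀ᶠ y in 𝓝 q, (Φ y).1 * (Φ y).2 ≠ 0 → eval (S.σ ⟨i, a'⟩ (Φ y)).ofLp Ra ≠ 0 := by
      filter_upwards [h5, hax, h.σ_eq] with y g1 g2 g3 g4
      rw [g3]
      exact g1 fun g5 => g4 (g2.2 g5)
    filter_upwards [h.push h9, h.inv'] with y g1 g2
    rwa [g2] at g1

theorem Gl.regB (h : Gl (S.c ⟨i, a⟩) (S.c ⟨i, a'⟩) Φ Ψ q) (hq : RegB S Ra ⟨i, a⟩ q) : RegB S Ra ⟨i, a'⟩ (Φ q) := by
  obtain ⟨h1, h2, h3, G, h4, h5, h6, h7, h8⟩ := hq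
  have hΨq : Ψ (Φ q) = q := h.inv.self_of_nhds
  have hG' : AnalyticAt ℂ (fun y => G (Ψ y)) (Φ q) := AnalyticAt.comp (g := G) (f := Ψ) (x := Φ q) (by rw [hΨq]; exact h4) h.an'
  obtain ⟨ε, he, he0, he'⟩ := h.ax
  refine ⟨h.mem_iff h1, h.v_ne h2, ?_, fun y => G (Ψ y), hG', ?_, ?_, ?_, ?_⟩
  · rw [he'.self_of_nhds]
    exact mul_ne_zero he0 h3
  · show G (Ψ (Φ q)) = 0
    rw [hΨq, h5]
  · intro h9
    apply h6
    have h10 : fderiv ℂ (fun y => G (Ψ (Φ y))) q = (fderiv ℂ (fun y => G (Ψ y)) (Φ q)).comp (fderiv ℂ Φ q) :=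
      fderiv_comp (𝕜 := ℂ) (g := fun y => G (Ψ y)) (f := Φ) q hG'.differentiableAt h.an.differentiableAt
    rw [h9, ContinuousLinearMap.zero_comp] at h10
    rw [← h10]
    refine (Filter.EventuallyEq.fderiv_eq ?_).symm
    filter_upwards [h.inv] with y hy
    rw [hy]
  · have h9 : ∀ᶠ y in 𝓝 q, eval (S.σ ⟨i, a'⟩ (Φ y)).ofLp Ra = 0 ↔ G (Ψ (Φ y)) = 0 := by
      filter_upwards [h7, h.σ_eq, h.inv] with y g1 g2 g3
      rw [g2, g3]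
      exact g1
    filter_upwards [h.push h9, h.inv'] with y g1 g2
    rwa [g2] at g1
  · have hdir := h.dir (A := G) (A' := fun y => G (Ψ y)) h4 hG' ⟨fun _ => 1, analyticAt_const, one_ne_zero, by
      filter_upwards [h.inv] with y hy
      show G (Ψ (Φ y)) = 1 * G y
      rw [hy, one_mul]⟩
    rcases h8 with h8 | h8
    · left
      exact fun h9 => h8 ((hdir.self_of_nhds h5).2 h9)
    · right
      have h9 : ∀ᶠ y in 𝓝 q, G (Ψ (Φ y)) = 0 → fderiv ℂ (fun y => G (Ψ y)) (Φ y) (S.v ⟨i, a'⟩ (Φ y)) = 0 := by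
        filter_upwards [h8, hdir, h.inv] with y g1 g2 g3 g4
        rw [g3] at g4
        exact (g2 g4).1 (g1 g4)
      filter_upwards [h.push h9, h.inv'] with y g1 g2
      rwa [g2] at g1

theorem Gl.reg (h : Gl (S.c ⟨i, a⟩) (S.c ⟨i, a'⟩) Φ Ψ q) (hq : Reg S Ra ⟨i, a⟩ q) : Reg S Ra ⟨i, a'⟩ (Φ q) := hq.imp h.regA h.regB

/-- near `q` the regular points correspond -/
theorem Gl.reg_iff (h : Gl (S.c ⟨i, a⟩) (S.c ⟨i, a'⟩) Φ Ψ q) : ∀ᶠ x in 𝓝 q, (Reg S Ra ⟨i, a⟩ x ↔ Reg S Ra ⟨i, a'⟩ (Φ x)) ∧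
    (RegA S Ra ⟨i, a⟩ x ↔ RegA S Ra ⟨i, a'⟩ (Φ x)) := by
  filter_upwards [h.ev, h.inv] with x hx hi
  refine ⟨⟨hx.reg, fun h1 => ?_⟩, hx.regA, fun h1 => ?_⟩
  · have := hx.symm.reg h1
    rwa [hi] at this
  · have := hx.symm.regA h1
    rwa [hi] at this

end

/-- **Avatars**: two chart points over the same box are separated or glued. -/
theorem avatar (i : X.ι) (a a' : (S.V i).ι) {q q' : ℂ × ℂ} (hq : q ∈ S.D ⟨i, a⟩) (hq' : q' ∈ S.D ⟨i, a'⟩) :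
    (∃ N ∈ 𝓝 q, ∃ N' ∈ 𝓝 q', ∀ F : ℂ → EN M, WCrv θ RD F → ∀ Y : NCLift X F, ∀ z, z ∈ S.Om Y ⟨i, a⟩ → S.lf Y ⟨i, a⟩ z ∈ N → z ∈ S.Om Y ⟨i, a'⟩ →
      S.lf Y ⟨i, a'⟩ z ∉ N') ∨
    ∃ Φ : ℂ × ℂ → ℂ × ℂ, AnalyticAt ℂ Φ q ∧ Φ q = q' ∧ (∀ᶠ x in 𝓝 q, S.κ ⟨i, a'⟩ (Φ x) = S.κ ⟨i, a⟩ x ∧ (Reg S Ra ⟨i, a⟩ x ↔ Reg S Ra ⟨i, a'⟩ (Φ x))) ∧
      ∃ N ∈ 𝓝 q, ∀ F : ℂ → EN M, WCrv θ RD F → ∀ Y : NCLift X F, ∀ z ∈ S.Om Y ⟨i, a⟩, S.lf Y ⟨i, a⟩ z ∈ N → z ∈ S.Om Y ⟨i, a'⟩ ∧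
        S.lf Y ⟨i, a'⟩ z = Φ (S.lf Y ⟨i, a⟩ z) := by
  by_cases hn : Nbr (S.c ⟨i, a⟩) (S.c ⟨i, a'⟩) q q'
  · right
    have hf : S.c ⟨i, a⟩ = S.c ⟨i, a'⟩ ∨ 0 ≤ dt (S.c ⟨i, a⟩).w' (S.c ⟨i, a'⟩).w ∨ 0 ≤ dt (S.c ⟨i, a'⟩).w' (S.c ⟨i, a⟩).w := by
      by_cases haa : a = a'
      · left
        rw [haa]
      · right
        exact (S.V i).fan a a' haa hn.1
    obtain ⟨Φ, Ψ, h1, h2, N, hN, h3⟩ := nbr_gl hn hf hq.1 hq'.1
    refine ⟨Φ, h1.an, h2, ?_, N, hN, fun F hF Y z hz hzN => ?_⟩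
    · filter_upwards [h1.kap, h1.reg_iff (Ra := Ra)] with x g1 g2
      exact ⟨g1, g2.1⟩
    · exact h3 F (Y.U i) (Y.p i) (bcrv hF Y i) z hz hzN
  · left
    obtain ⟨r, hr, h1⟩ := nbr_sep hn ((S.V i).orb a a')
    exact ⟨ball q r, ball_mem_nhds q hr, ball q' r, ball_mem_nhds q' hr, fun F hF Y z hz hzN hz' hzN' =>
      h1 F (Y.U i) (Y.p i) (bcrv hF Y i) z hz hz' hzN hzN'⟩

end Pool.Agent.MQ3
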