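import Pool.Agent.MQ.AJM

/-!
# MQ3 Hank: the number of distinct roots of an analytic family of polynomials

`A i` are functions on `ℂ × ℂ`, analytic at `0`, and the leading one does not vanish identically near `0`. The number of distinct roots of
`∑ A i p * t ^ i` is at most a number `e` for all `p` near `0` with `A m p ≠ 0`, and it is equal to `e` exactly where a function `D`, analytic
at `0` and not identically zero near `0`, does not vanish.
-/

set_option autoImplicit false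

open Topology Filter

noncomputable section

namespace Pool.Agent.MQ3

open Pool.Agent.MQ.AJ

/-- The Hankel determinant of the power sums vanishes if there are fewer than `e` distinct numbers. -/
theorem hankel_zero {d e f : ℕ} {l : Fin d → ℂ} {m : Fin f → ℂ} (hf : f < e) (h : ∀ j, ∃ k, l j = m k) :
    (Matrix.of fun i j : Fin e => ∑ k, l k ^ ((i : ℕ) + j)).det = 0 := by
  rw [← Matrix.exists_mulVec_eq_zero_iff]
  refine ⟨fun j => (mp m).coeff j, ?_, ?_⟩
  · intro h0
    have h1 := congrFun h0 ⟨f, hf⟩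
    have h2 : (mp m).coeff f = 1 := by
      have := (mp_monic m).coeff_natDegree
      rwa [mp_natDegree] at this
    exact one_ne_zero (h2.symm.trans h1)
  · funext i
    have hev : ∀ k, (mp m).eval (l k) = ∑ j : Fin e, (mp m).coeff j * l k ^ (j : ℕ) := by
      intro k
      rw [Polynomial.eval_eq_sum_range' (n := e) (by rw [mp_natDegree]; exact hf),
        ← Fin.sum_univ_eq_sum_range (fun j => (mp m).coeff j * l k ^ j)]
    have h1 : ∀ k, (mp m).eval (l k) = 0 := by
      intro k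
      obtain ⟨j, hj⟩ := h k
      rw [mp_eval, Finset.prod_eq_zero (Finset.mem_univ j) (by rw [hj, sub_self])]
    have h3 : ∑ j : Fin e, (∑ k, l k ^ ((i : ℕ) + j)) * (mp m).coeff j = ∑ k, l k ^ (i : ℕ) * (mp m).eval (l k) := by
      simp only [hev, Finset.mul_sum, Finset.sum_mul]
      rw [Finset.sum_comm]
      exact Finset.sum_congr rfl fun k _ => Finset.sum_congr rfl fun j _ => by rw [pow_add]; ring
    have h4 : ∑ k, l k ^ (i : ℕ) * (mp m).eval (l k) = 0 := Finset.sum_eq_zero fun k _ => by rw [h1, mul_zero]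
    show ∑ j : Fin e, (∑ k, l k ^ ((i : ℕ) + j)) * (mp m).coeff j = 0
    rw [h3, h4]

/-- The Hankel determinant of the power sums detects the number of distinct roots, if that number is at most `e`. -/
theorem hankel_iff {d e : ℕ} {l : Fin d → ℂ} (h : (Finset.univ.image l).card ≤ e) :
    (Matrix.of fun i j : Fin e => ∑ k, l k ^ ((i : ℕ) + j)).det ≠ 0 ↔ (Finset.univ.image l).card = e := by
  classical
  constructor
  · intro hd
    by_contra hne
    obtain ⟨m, -, h1, -⟩ := exists_distinct (l := l) rfl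
    exact hd (hankel_zero (lt_of_le_of_ne h hne) h1)
  · intro he
    obtain ⟨m, h1, h2, h3⟩ := exists_distinct he
    exact hankel_det h1 h2 h3

/-- The coefficients of the monic polynomial whose roots are `A m * t`, for the roots `t` of `∑ A i * t ^ i`. -/
def mon {m : ℕ} (A : Fin (m + 1) → ℂ) : Fin m → ℂ := fun i => A i.castSucc * A (Fin.last m) ^ (m - 1 - (i : ℕ))

theorem pv_mon {m : ℕ} (hm : 1 ≤ m) (A : Fin (m + 1) → ℂ) (t : ℂ) :
    pv m (mon A) (A (Fin.last m) * t) = A (Fin.last m) ^ (m - 1) * ∑ i, A i * t ^ (i : ℕ) := by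
  rw [pv, Fin.sum_univ_castSucc, mul_add, Finset.mul_sum, add_comm]
  congr 1
  · refine Finset.sum_congr rfl fun i _ => ?_
    have h1 : A (Fin.last m) ^ (m - 1) = A (Fin.last m) ^ (m - 1 - (i : ℕ)) * A (Fin.last m) ^ (i : ℕ) := by
      rw [← pow_add]
      congr 1
      have := i.2
      omega
    rw [mon, h1, mul_pow, Fin.val_castSucc]
    ring
  · have h1 : A (Fin.last m) ^ m = A (Fin.last m) ^ (m - 1) * A (Fin.last m) := by
      rw [← pow_succ]
      congr 1
      omega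
    rw [mul_pow, h1, Fin.val_last]
    ring

theorem ncard_roots {m : ℕ} {A : Fin (m + 1) → ℂ} (h : A (Fin.last m) ≠ 0) {l : Fin m → ℂ}
    (hl : ∀ t, pv m (mon A) t = ∏ j, (t - l j)) :
    {t : ℂ | ∑ i, A i * t ^ (i : ℕ) = 0}.Finite ∧ {t : ℂ | ∑ i, A i * t ^ (i : ℕ) = 0}.ncard = (Finset.univ.image l).card := by
  classical
  have h1 : {t : ℂ | ∑ i, A i * t ^ (i : ℕ) = 0} = (fun s => s / A (Fin.last m)) '' ((Finset.univ.image l : Finset ℂ) : Set ℂ) := by
    rcases Nat.eq_zero_or_pos m with rfl | hm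
    · ext t
      simp only [Set.mem_ofPred_eq, Finset.univ_eq_empty, Finset.image_empty, Finset.coe_empty, Set.image_empty, Set.mem_empty_iff_false, iff_false]
      intro h0
      apply h
      simpa using h0
    · ext t
      have h2 : ∑ i, A i * t ^ (i : ℕ) = 0 ↔ pv m (mon A) (A (Fin.last m) * t) = 0 := by
        rw [pv_mon hm, mul_eq_zero]
        exact ⟨Or.inr, fun h' => h'.resolve_left (pow_ne_zero _ h)⟩
      simp only [Set.mem_ofPred_eq, Set.mem_image, Finset.coe_image, Finset.coe_univ, Set.image_univ, Set.mem_range]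
      rw [h2, hl, Finset.prod_eq_zero_iff]
      constructor
      · rintro ⟨j, -, hj⟩
        exact ⟨l j, ⟨j, rfl⟩, by rw [← sub_eq_zero.1 hj, mul_div_cancel_left₀ _ h]⟩
      · rintro ⟨s, ⟨j, rfl⟩, rfl⟩
        exact ⟨j, Finset.mem_univ j, by rw [mul_div_cancel₀ _ h, sub_self]⟩
  rw [h1]
  refine ⟨(Finset.finite_toSet _).image _, ?_⟩
  rw [Set.ncard_image_of_injective _ (fun a b hab => (div_left_inj' h).1 hab), Set.ncard_coe_finset]

/-- The number of distinct roots of an analytic family of polynomials. -/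
theorem hank {m : ℕ} {A : Fin (m + 1) → ℂ × ℂ → ℂ} (hA : ∀ i, AnalyticAt ℂ (A i) 0)
    (hm : ¬ ∀ᶠ p in 𝓝 (0 : ℂ × ℂ), A (Fin.last m) p = 0) :
    ∃ (e : ℕ) (D : ℂ × ℂ → ℂ), e ≤ m ∧ AnalyticAt ℂ D 0 ∧ (¬ ∀ᶠ p in 𝓝 (0 : ℂ × ℂ), D p = 0) ∧
      ∀ᶠ p in 𝓝 (0 : ℂ × ℂ), A (Fin.last m) p ≠ 0 →
        {t : ℂ | ∑ i, A i p * t ^ (i : ℕ) = 0}.Finite ∧ {t : ℂ | ∑ i, A i p * t ^ (i : ℕ) = 0}.ncard ≤ e ∧
        (D p ≠ 0 ↔ {t : ℂ | ∑ i, A i p * t ^ (i : ℕ) = 0}.ncard = e) := by
  classical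
  choose l hl using fun p : ℂ × ℂ => exists_roots (mon fun i => A i p)
  have hle : ∀ p, (Finset.univ.image (l p)).card ≤ m := fun p => (Finset.card_image_le).trans (by simp)
  -- the maximal number of distinct roots
  have hex : ∃ e : ℕ, ∀ᶠ p in 𝓝 (0 : ℂ × ℂ), A (Fin.last m) p ≠ 0 → (Finset.univ.image (l p)).card ≤ e :=
    ⟨m, Eventually.of_forall fun p _ => hle p⟩
  let e := Nat.find hex
  have he : ∀ᶠ p in 𝓝 (0 : ℂ × ℂ), A (Fin.last m) p ≠ 0 → (Finset.univ.image (l p)).card ≤ e := Nat.find_spec hex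
  have hem : e ≤ m := Nat.find_min' hex (Eventually.of_forall fun p _ => hle p)
  have hfr : ∃ᶠ p in 𝓝 (0 : ℂ × ℂ), A (Fin.last m) p ≠ 0 ∧ (Finset.univ.image (l p)).card = e := by
    rcases Nat.eq_zero_or_pos e with h0 | h0
    · intro h1
      apply hm
      filter_upwards [h1, he] with p hp hep
      by_contra hne
      exact hp ⟨hne, by have := hep hne; omega⟩
    · have h1 := Nat.find_min hex (m := e - 1) (by show e - 1 < e; omega)
      intro h2
      apply h1
      filter_upwards [h2, he] with p hp hep hne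
      have h3 := hep hne
      have h4 : (Finset.univ.image (l p)).card ≠ e := fun h5 => hp ⟨hne, h5⟩
      omega
  -- the Hankel determinant
  choose S hSa hS using fun k => exists_psum (d := m) k
  have hmon : AnalyticAt ℂ (fun p => mon fun i => A i p) (0 : ℂ × ℂ) :=
    analyticAt_pi_iff.2 fun i => (hA i.castSucc).mul ((hA (Fin.last m)).pow _)
  have hDe : ∀ p, (Matrix.of fun i j : Fin e => S ((i : ℕ) + j) (mon fun i => A i p)).det
      = (Matrix.of fun i j : Fin e => ∑ k, l p k ^ ((i : ℕ) + j)).det := by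
    intro p
    congr 1
    ext i j
    exact (hS _ _ _ (hl p)).symm
  refine ⟨e, fun p => (Matrix.of fun i j : Fin e => S ((i : ℕ) + j) (mon fun i => A i p)).det, hem, ?_, ?_, ?_⟩
  · refine det_analytic (A := fun p => Matrix.of fun i j : Fin e => S ((i : ℕ) + j) (mon fun i => A i p)) fun i j => ?_
    exact (hSa _ _).fun_comp hmon
  · intro h0
    refine hfr ?_
    filter_upwards [h0] with p hp h1
    rw [hDe] at hp
    exact (hankel_iff h1.2.le).2 h1.2 hp
  · filter_upwards [he] with p hp hne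
    obtain ⟨h1, h2⟩ := ncard_roots (A := fun i => A i p) hne (hl p)
    refine ⟨h1, ?_, ?_⟩
    · rw [h2]
      exact hp hne
    · rw [h2, hDe]
      exact hankel_iff (hp hne)

/-- The hypothesis of the theorem of Abhyankar and Jung with multiplicities for the monic family. -/
theorem mon_card {m e : ℕ} {A : Fin (m + 1) → ℂ} (h : A (Fin.last m) ≠ 0) (he : {t : ℂ | ∑ i, A i * t ^ (i : ℕ) = 0}.ncard = e)
    (l : Fin m → ℂ) (hl : ∀ t, pv m (mon A) t = ∏ j, (t - l j)) : (Finset.univ.image l).card = e := by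
  rw [← (ncard_roots h hl).2, he]

/-- The coefficients of the monic family are analytic. -/
theorem mon_analytic {m : ℕ} {A : Fin (m + 1) → ℂ × ℂ → ℂ} {x : ℂ × ℂ} (hA : ∀ i, AnalyticAt ℂ (A i) x) (i : Fin m) :
    AnalyticAt ℂ (fun p => mon (fun j => A j p) i) x := (hA i.castSucc).mul ((hA (Fin.last m)).pow _)

/-- The roots of an analytic family of polynomials over the complement of the axes, if their number is constant there: they are quotients of
functions analytic in `(x ^ (1 / n), y ^ (1 / n))`, with the leading coefficient as the denominator. -/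
theorem hank_aj {m e : ℕ} {A : Fin (m + 1) → ℂ × ℂ → ℂ} (hA : ∀ i, AnalyticAt ℂ (A i) 0)
    (hs : ∀ᶠ p in 𝓝 (0 : ℂ × ℂ), p.1 ≠ 0 → p.2 ≠ 0 →
      A (Fin.last m) p ≠ 0 ∧ {t : ℂ | ∑ i, A i p * t ^ (i : ℕ) = 0}.ncard = e) :
    ∃ n : ℕ, 1 ≤ n ∧ ∃ (L : Fin e → ℂ × ℂ → ℂ) (μ : Fin e → ℕ), (∀ k, 1 ≤ μ k) ∧ (∀ k, AnalyticAt ℂ (L k) 0) ∧
      (∀ᶠ s in 𝓝 (0 : ℂ × ℂ), s.1 ≠ 0 → s.2 ≠ 0 → Function.Injective fun k => L k s) ∧
      (∀ᶠ s in 𝓝 (0 : ℂ × ℂ), ∀ t, pv m (mon fun i => A i (s.1 ^ n, s.2 ^ n)) t = ∏ k, (t - L k s) ^ μ k) ∧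
      ∀ᶠ s in 𝓝 (0 : ℂ × ℂ), s.1 ≠ 0 → s.2 ≠ 0 →
        {t : ℂ | ∑ i, A i (s.1 ^ n, s.2 ^ n) * t ^ (i : ℕ) = 0} = Set.range fun k => L k s / A (Fin.last m) (s.1 ^ n, s.2 ^ n) := by
  classical
  obtain ⟨n, hn, L, μ, h1, h2, h3, h4⟩ := abhyankar_jung_mul (e := e) (p := fun i p => mon (fun j => A j p) i) (mon_analytic hA) (by
    filter_upwards [hs] with p hp hx hy l hl
    obtain ⟨ha, hb⟩ := hp hx hy
    exact mon_card ha hb l hl)
  refine ⟨n, hn, L, μ, h1, h2, h3, h4, ?_⟩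
  have htend : Tendsto (fun s : ℂ × ℂ => (s.1 ^ n, s.2 ^ n)) (𝓝 0) (𝓝 0) := by
    have hc : Continuous fun s : ℂ × ℂ => (s.1 ^ n, s.2 ^ n) := by fun_prop
    have h5 := hc.tendsto (0 : ℂ × ℂ)
    have h6 : ((0 : ℂ × ℂ).1 ^ n, (0 : ℂ × ℂ).2 ^ n) = (0 : ℂ × ℂ) := by
      simp only [Prod.fst_zero, Prod.snd_zero, zero_pow (by omega : n ≠ 0)]
      rfl
    rwa [h6] at h5
  filter_upwards [h4, htend.eventually hs] with s hs4 hs5 hx hy
  obtain ⟨ha, hb⟩ := hs5 (pow_ne_zero n hx) (pow_ne_zero n hy)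
  rcases Nat.eq_zero_or_pos m with rfl | hm
  · -- no roots
    have hE : {t : ℂ | ∑ i, A i (s.1 ^ n, s.2 ^ n) * t ^ (i : ℕ) = 0} = ∅ := by
      ext t
      simp only [Set.mem_ofPred_eq, Set.mem_empty_iff_false, iff_false]
      intro h0
      apply ha
      simpa using h0
    have he : e = 0 := by rw [← hb, hE, Set.ncard_empty]
    subst he
    rw [hE]
    ext t
    simp
  · ext t
    have h5 : ∑ i, A i (s.1 ^ n, s.2 ^ n) * t ^ (i : ℕ) = 0 ↔
        pv m (mon fun i => A i (s.1 ^ n, s.2 ^ n)) (A (Fin.last m) (s.1 ^ n, s.2 ^ n) * t) = 0 := by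
      rw [pv_mon hm (fun i => A i (s.1 ^ n, s.2 ^ n)) t, mul_eq_zero]
      exact ⟨Or.inr, fun h' => h'.resolve_left (pow_ne_zero _ ha)⟩
    simp only [Set.mem_ofPred_eq, Set.mem_range]
    rw [h5, hs4, Finset.prod_eq_zero_iff]
    constructor
    · rintro ⟨k, -, hk⟩
      have h6 := pow_eq_zero_iff (by have := h1 k; omega) |>.1 hk
      exact ⟨k, by rw [← sub_eq_zero.1 h6, mul_div_cancel_left₀ _ ha]⟩
    · rintro ⟨k, rfl⟩
      refine ⟨k, Finset.mem_univ k, ?_⟩
      rw [mul_div_cancel₀ _ ha, sub_self, zero_pow (by have := h1 k; omega)]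

end Pool.Agent.MQ3
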