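import Pool.Agent.MQ3.FrE
import Pool.Agent.MQ3.Hank
import Pool.Agent.E1.Chow

/-!
# MQ3 Bad: the points where the slopes of a symmetric differential are not distinct lie in an algebraic curve

`NS θ l x` is the set of the slopes `om l 2 / om l 1` of the null directions of `θ` at `x`.  `GoodPt θ l x`: the two forms are independent, the kernel of the
first is not a null direction, and the number of slopes is locally constant at `x`.  The points of the surface which are not good lie in the zero set of a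
form `R` which does not vanish on the surface (`exists_R_good`).
-/

set_option autoImplicit false

open Topology Filter Metric

noncomputable section

namespace Pool.Agent.MQ3

open Pool.Agent.H36.BP (EN)
open Pool.Agent.H14.PP (Tan)
open Pool.Agent.H17BP (Surface IsChart LocalEq)
open Pool.Agent.H17EF (coneE)
open Pool.Agent.H17LG.Variety (FunField)
open Pool.Agent.E1 (ResL_tan ResL_span ResL_indep ResX_family)

variable {N : ℕ} {X : Set (EN N)} {m : ℕ}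

/-- the slopes of the null directions of `θ` at `x` -/
def NS (θ : WDiff X m) (l : LF N) (x : EN N) : Set ℂ :=
  {t | ∃ v, Tan X x v ∧ om l 1 x v ≠ 0 ∧ om l 2 x v = t * om l 1 x v ∧ θ.toFun x v = 0}

/-- good points: the number of slopes is locally constant -/
def GoodPt (θ : WDiff X m) (l : LF N) (x : EN N) : Prop :=
  GA X l x ∧ GB θ l x ∧ (NS θ l x).Finite ∧ ∀ᶠ y in 𝓝 x, y ∈ X → (NS θ l y).ncard = (NS θ l x).ncard

theorem ns_smul (hX : ∀ x ∈ X, ∀ c : ℂ, c ≠ 0 → c • x ∈ X) (θ : WDiff X m) (l : LF N) {x : EN N} {c : ℂ} (hc : c ≠ 0) :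
    NS θ l (c • x) = NS θ l x := by
  have hc2 : c ^ 2 ≠ 0 := pow_ne_zero 2 hc
  ext t
  constructor
  · rintro ⟨v, hv, h1, h2, h3⟩
    have e : v = c • (c⁻¹ • v) := by rw [smul_smul, mul_inv_cancel₀ hc, one_smul]
    rw [e] at hv h1 h2 h3
    have hv' := (tan_smul_iff hX hc).1 hv
    rw [om_smul_smul] at h1 h2
    rw [om_smul_smul] at h2
    rw [θ.scale_eq_zero hv' hc] at h3
    refine ⟨c⁻¹ • v, hv', right_ne_zero_of_mul h1, mul_left_cancel₀ hc2 ?_, h3⟩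
    rw [h2]
    ring
  · rintro ⟨v, hv, h1, h2, h3⟩
    refine ⟨c • v, tan_smul hX hv hc, ?_, ?_, ?_⟩
    · rw [om_smul_smul]
      exact mul_ne_zero hc2 h1
    · rw [om_smul_smul, om_smul_smul, h2]
      ring
    · rw [θ.scale_eq_zero hv hc, h3]

/-- good points form a cone -/
theorem goodPt_smul (hX : ∀ x ∈ X, ∀ c : ℂ, c ≠ 0 → c • x ∈ X) {θ : WDiff X m} {l : LF N} {x : EN N} (h : GoodPt θ l x) {c : ℂ} (hc : c ≠ 0) :
    GoodPt θ l (c • x) := by
  obtain ⟨h1, h2, h3, h4⟩ := h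
  refine ⟨ga_smul hX h1 hc, gb_smul hX h2 hc, by rwa [ns_smul hX θ l hc], ?_⟩
  have ht : Tendsto (fun y : EN N => c⁻¹ • y) (𝓝 (c • x)) (𝓝 x) := by
    have h5 : Continuous fun y : EN N => c⁻¹ • y := continuous_const_smul _
    have h6 := h5.tendsto (c • x)
    rwa [smul_smul, inv_mul_cancel₀ hc, one_smul] at h6
  filter_upwards [ht.eventually h4] with y hy hyX
  have h5 := hy (hX y hyX _ (inv_ne_zero hc))
  rw [ns_smul hX θ l (inv_ne_zero hc)] at h5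
  rw [h5, ns_smul hX θ l hc]

theorem goodPt_smul_iff (hX : ∀ x ∈ X, ∀ c : ℂ, c ≠ 0 → c • x ∈ X) {θ : WDiff X m} {l : LF N} {x : EN N} {c : ℂ} (hc : c ≠ 0) :
    GoodPt θ l (c • x) ↔ GoodPt θ l x := by
  refine ⟨fun h => ?_, fun h => goodPt_smul hX h hc⟩
  have := goodPt_smul hX h (inv_ne_zero hc)
  rwa [smul_smul, inv_mul_cancel₀ hc, one_smul] at this

/-- if the two forms are independent on the tangent space of a point of a surface then `l 0` is not zero there -/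
theorem GA.ne_zero (hX : Surface X) {l : LF N} {x : EN N} (hx : x ∈ X) (h : GA X l x) : l 0 x ≠ 0 := by
  intro h0
  obtain ⟨σ, τ, hσ, rfl⟩ := hX.chart x hx
  have hT : ∀ v, Tan X (σ 0) (fderiv ℂ σ 0 v) := fun v => ResL_tan hσ.σ_an hσ.σ_mem v
  have hd := (ga_chart hT (ResL_span hσ).self_of_nhds (ResL_indep hσ).self_of_nhds).1 h
  apply hd
  simp only [dl, ca, cb, om, h0]
  ring

/-! ### in a chart -/

/-- the slopes in a chart -/
theorem ns_chart {θ : WDiff X m} {l : LF N} {σ : ℂ × ℂ → EN N} {p : ℂ × ℂ} (hT : ∀ v, Tan X (σ p) (fderiv ℂ σ p v))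
    (hsp : ∀ w, Tan X (σ p) w → ∃ (v : ℂ × ℂ) (a : ℂ), w = fderiv ℂ σ p v + a • σ p) (hd : dl l σ p ≠ 0) :
    NS θ l (σ p) = {t | θ.toFun (σ p) (fderiv ℂ σ p (v₁ l σ p + t • v₂ l σ p)) = 0} := by
  ext t
  constructor
  · rintro ⟨v, hv, h1, h2, h3⟩
    obtain ⟨w, a, rfl⟩ := hsp v hv
    rw [om_add_smul] at h1 h2
    rw [om_add_smul] at h2
    rw [θ.add_smul _ _ (hT w)] at h3
    have h4 := dl_smul l σ p w
    rw [h2, mul_comm, ← smul_smul, ← smul_add] at h4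
    have h5 : v₁ l σ p + t • v₂ l σ p = ((om l 1 (σ p) (fderiv ℂ σ p w))⁻¹ * dl l σ p) • w := by
      rw [← smul_smul, h4, smul_smul, inv_mul_cancel₀ h1, one_smul]
    show θ.toFun (σ p) (fderiv ℂ σ p (v₁ l σ p + t • v₂ l σ p)) = 0
    rw [h5, map_smul, θ.smul _ _ (hT w), h3, mul_zero]
  · intro h
    refine ⟨fderiv ℂ σ p (v₁ l σ p + t • v₂ l σ p), hT _, ?_, ?_, h⟩
    · rw [map_add, map_smul, om_add, om_smul, om_v₁_1, om_v₂_1, mul_zero, add_zero]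
      exact hd
    · rw [map_add, map_smul, om_add, om_smul, om_v₁_2, om_v₂_2, om_add, om_smul, om_v₁_1, om_v₂_1]
      ring

/-- the data of a chart on a ball: the slopes are the roots of a polynomial whose coefficients are analytic, and off the zeros of `ph` their number is
at most `e`, with equality where `D` is not zero -/
private theorem Bad_ball (hm : 1 ≤ m) (θ : WDiff X m) (l : LF N) {σ : ℂ × ℂ → EN N} {τ : EN N → ℂ × ℂ} (hσ : IsChart X σ τ)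
    (hph : ¬ ∀ᶠ p in 𝓝 (0 : ℂ × ℂ), ph θ l σ p = 0) :
    ∃ (e : ℕ) (f D : ℂ × ℂ → ℂ) (r : ℝ), 0 < r ∧ (¬ ∀ᶠ p in 𝓝 (0 : ℂ × ℂ), D p = 0) ∧ ∀ p ∈ ball (0 : ℂ × ℂ) r,
      AnalyticAt ℂ f p ∧ AnalyticAt ℂ D p ∧ f p = ph θ l σ p ∧ σ p ∈ X ∧ (∀ᶠ y in 𝓝 (σ p), y ∈ X → ∃ c : ℂ, c ≠ 0 ∧ y = c • σ (τ y)) ∧
      ContinuousAt τ (σ p) ∧ τ (σ p) = p ∧ ContinuousAt σ p ∧ ((GA X l (σ p) ∧ GB θ l (σ p)) ↔ ph θ l σ p ≠ 0) ∧
      (ph θ l σ p ≠ 0 → (NS θ l (σ p)).Finite ∧ (NS θ l (σ p)).ncard ≤ e ∧ (D p ≠ 0 ↔ (NS θ l (σ p)).ncard = e)) := by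
  obtain ⟨A, hA, hA'⟩ := exists_fam θ l hσ.σ_an hσ.σ_mem
  have hm' : ¬ ∀ᶠ p in 𝓝 (0 : ℂ × ℂ), (fun (i : Fin (m + 1)) p => (A p).coeff (i : ℕ)) (Fin.last m) p = 0 := by
    intro h
    apply hph
    filter_upwards [h, hA'] with p h1 h2
    rw [ph, ← h2.2.2]
    have h3 : (A p).coeff m = 0 := by simpa using h1
    rw [h3, mul_zero]
  obtain ⟨e, D, -, hD, hD0, hE⟩ := hank (A := fun (i : Fin (m + 1)) p => (A p).coeff (i : ℕ)) (fun i => hA i) hm'
  have hf : AnalyticAt ℂ (fun p => dl l σ p * (A p).coeff m) 0 := (analyticAt_dl l hσ.σ_an).mul (hA m)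
  have hσc : Tendsto σ (𝓝 (0 : ℂ × ℂ)) (𝓝 (σ 0)) := hσ.σ_an.continuousAt.tendsto
  have hr1 : ∀ᶠ p in 𝓝 (0 : ℂ × ℂ), ∀ᶠ y in 𝓝 (σ p), y ∈ X → ∃ c : ℂ, c ≠ 0 ∧ y = c • σ (τ y) :=
    hσc.eventually (eventually_eventually_nhds.2 hσ.right)
  have hr2 : ∀ᶠ p in 𝓝 (0 : ℂ × ℂ), ContinuousAt τ (σ p) :=
    hσc.eventually (hσ.τ_an.eventually_analyticAt.mono fun y hy => hy.continuousAt)
  obtain ⟨r, hr, h⟩ := Metric.eventually_nhds_iff_ball.1 (hσ.σ_an.eventually_analyticAt.and ((eventually_eventually_nhds.2 hσ.σ_mem).and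
    ((ResL_span hσ).and ((ResL_indep hσ).and (hf.eventually_analyticAt.and (hD.eventually_analyticAt.and (hA'.and (hE.and (hr1.and
      (hr2.and hσ.left))))))))))
  refine ⟨e, fun p => dl l σ p * (A p).coeff m, D, r, hr, hD0, fun p hp => ?_⟩
  obtain ⟨h1, h2, h3, h4, h5, h6, ⟨h7, h7', h7''⟩, h8, h9, h10, h11⟩ := h p hp
  have hT : ∀ v, Tan X (σ p) (fderiv ℂ σ p v) := fun v => ResL_tan h1 h2 v
  refine ⟨h5, h6, by simp only [ph, h7''], h2.self_of_nhds, h9, h10, h11, h1.continuousAt, gab_chart hm hT h3 h4, fun hne => ?_⟩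
  have hd : dl l σ p ≠ 0 := left_ne_zero_of_mul hne
  have hA0 : (A p).coeff m ≠ 0 := by
    rw [h7'']
    exact right_ne_zero_of_mul hne
  have hNS : NS θ l (σ p) = {t : ℂ | ∑ i : Fin (m + 1), (A p).coeff (i : ℕ) * t ^ (i : ℕ) = 0} := by
    rw [ns_chart hT h3 hd]
    ext t
    show θ.toFun (σ p) (fderiv ℂ σ p (v₁ l σ p + t • v₂ l σ p)) = 0 ↔ ∑ i : Fin (m + 1), (A p).coeff (i : ℕ) * t ^ (i : ℕ) = 0
    rw [← h7' t, Polynomial.eval_eq_sum_range' (Nat.lt_succ_of_le h7) t, ← Fin.sum_univ_eq_sum_range (fun j => (A p).coeff j * t ^ j)]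
  rw [hNS]
  exact h8 (by simpa using hA0)

/-- the points which are not good are given locally by one equation -/
theorem bad_localEq (hX : Surface X) (hm : 1 ≤ m) (θ : WDiff X m) {l : LF N} (hl : X ⊆ closure {x | x ∈ X ∧ GA X l x ∧ GB θ l x})
    {σ : ℂ × ℂ → EN N} {τ : EN N → ℂ × ℂ} (hσ : IsChart X σ τ) :
    ∃ g : ℂ × ℂ → ℂ, LocalEq {x | x ∈ X ∧ ¬ GoodPt θ l x} σ g ∧ ¬ ∀ᶠ p in 𝓝 (0 : ℂ × ℂ), g p = 0 := by
  -- `ph` is not identically zero
  have hph : ¬ ∀ᶠ p in 𝓝 (0 : ℂ × ℂ), ph θ l σ p = 0 := by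
    intro hcon
    have hσX : σ 0 ∈ X := hσ.σ_mem.self_of_nhds
    have hτ0 : τ (σ 0) = 0 := hσ.left.self_of_nhds
    have hτ : Tendsto τ (𝓝 (σ 0)) (𝓝 0) := by
      have h1 := hσ.τ_an.continuousAt.tendsto
      rwa [hτ0] at h1
    obtain ⟨y, ⟨hyX, g1, g2⟩, ⟨h1, h2, h3, h4, h5⟩, hyr⟩ := ((mem_closure_iff_frequently.1 (hl hσX)).and_eventually
      ((hτ.eventually (hcon.and (hσ.σ_an.eventually_analyticAt.and ((eventually_eventually_nhds.2 hσ.σ_mem).and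
        ((ResL_span hσ).and (ResL_indep hσ)))))).and hσ.right)).exists
    obtain ⟨a, ha, hya⟩ := hyr hyX
    have hT : ∀ v, Tan X (σ (τ y)) (fderiv ℂ σ (τ y) v) := fun v => ResL_tan h2 h3 v
    have e : σ (τ y) = a⁻¹ • y := by
      conv_rhs => rw [hya]
      rw [smul_smul, inv_mul_cancel₀ ha, one_smul]
    refine (gab_chart hm hT h4 h5).1 ?_ h1
    rw [e]
    exact ⟨ga_smul hX.smul g1 (inv_ne_zero ha), gb_smul hX.smul g2 (inv_ne_zero ha)⟩
  obtain ⟨e, f, D, r, hr, hD0, H⟩ := Bad_ball hm θ l hσ hph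
  have hb0 : ball (0 : ℂ × ℂ) r ∈ 𝓝 (0 : ℂ × ℂ) := ball_mem_nhds 0 hr
  have h0 : (0 : ℂ × ℂ) ∈ ball (0 : ℂ × ℂ) r := mem_ball_self hr
  have hDa : AnalyticOnNhd ℂ D (ball 0 r) := fun q hq => (H q hq).2.1
  have hfa : AnalyticOnNhd ℂ f (ball 0 r) := fun q hq => (H q hq).1
  -- `D` is not identically zero near any point of the ball
  have hDf : ∀ p ∈ ball (0 : ℂ × ℂ) r, ∃ᶠ q in 𝓝 p, D q ≠ 0 := by
    intro p hp hcon
    have h3 : ∀ᶠ q in 𝓝 p, D q = 0 := by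
      filter_upwards [hcon] with q hq using not_not.1 hq
    have h4 := hDa.eqOn_zero_of_preconnected_of_eventuallyEq_zero (convex_ball (0 : ℂ × ℂ) r).isPreconnected hp h3
    apply hD0
    filter_upwards [hb0] with q hq using h4 hq
  refine ⟨fun p => f p * D p, ⟨(hfa 0 h0).mul (hDa 0 h0), ?_⟩, ?_⟩
  · filter_upwards [hb0] with p hp
    obtain ⟨k1, k2, k3, k4, k5, k6, k7, k8, k9, k10⟩ := H p hp
    have hbp : ∀ᶠ q in 𝓝 p, q ∈ ball (0 : ℂ × ℂ) r := isOpen_ball.eventually_mem hp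
    have hfp : ph θ l σ p ≠ 0 → ∀ᶠ q in 𝓝 p, ph θ l σ q ≠ 0 := by
      intro h
      rw [← k3] at h
      filter_upwards [k1.continuousAt.eventually_ne h, hbp] with q hq hqb
      rwa [← (H q hqb).2.2.1]
    constructor
    · rintro ⟨-, hbad⟩
      by_contra hg
      have hf0 : ph θ l σ p ≠ 0 := by
        rw [← k3]
        exact left_ne_zero_of_mul hg
      have hD0' : D p ≠ 0 := right_ne_zero_of_mul hg
      apply hbad
      obtain ⟨g1, g2⟩ := k9.2 hf0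
      obtain ⟨n1, n2, n3⟩ := k10 hf0
      refine ⟨g1, g2, n1, ?_⟩
      have ht : Tendsto τ (𝓝 (σ p)) (𝓝 p) := by
        have := k6.tendsto
        rwa [k7] at this
      filter_upwards [ht.eventually (hbp.and ((hfp hf0).and (k2.continuousAt.eventually_ne hD0'))), k5] with y ⟨hy1, hy2, hy3⟩ hy4 hyX
      obtain ⟨a, ha, hya⟩ := hy4 hyX
      rw [hya, ns_smul hX.smul θ l ha, (((H _ hy1).2.2.2.2.2.2.2.2.2 hy2).2.2.1 hy3), n3.1 hD0']
    · intro hg
      refine ⟨k4, ?_⟩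
      rintro ⟨g1, g2, g3, g4⟩
      have hf0 : ph θ l σ p ≠ 0 := k9.1 ⟨g1, g2⟩
      have hD0' : D p = 0 := by
        rcases mul_eq_zero.1 hg with h | h
        · exact absurd (k3 ▸ h) hf0
        · exact h
      obtain ⟨n1, n2, n3⟩ := k10 hf0
      obtain ⟨q, hq1, hq2, hq3, hq4⟩ := ((hDf p hp).and_eventually (hbp.and ((hfp hf0).and (k8.tendsto.eventually g4)))).exists
      have h5 := hq4 (H q hq2).2.2.2.1
      have h6 := (((H q hq2).2.2.2.2.2.2.2.2.2 hq3).2.2.1 hq1)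
      exact n3.2 (h5 ▸ h6) hD0'
  · intro hcon
    -- the product of two functions which are not identically zero
    have hff : ∃ᶠ q in 𝓝 (0 : ℂ × ℂ), f q ≠ 0 := by
      intro h
      apply hph
      filter_upwards [h, hb0] with q hq hqb
      rw [← (H q hqb).2.2.1]
      exact not_not.1 hq
    obtain ⟨q, hq1, hq2, hq3⟩ := (hff.and_eventually ((eventually_eventually_nhds.2 hcon).and hb0)).exists
    obtain ⟨q', hq1', hq2', hq3'⟩ := ((hDf q hq3).and_eventually (hq2.and ((hfa q hq3).continuousAt.eventually_ne hq1))).exists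
    exact mul_ne_zero hq3' hq1' hq2'

/-- **The points which are not good lie in an algebraic curve.** -/
theorem exists_R_good {P : Ideal (MvPolynomial (Fin (N + 1)) ℂ)} [P.IsPrime] {z : Fin 2 → FunField P} (hz : IsTranscendenceBasis ℂ z)
    (hX : Surface (coneE P)) (hm : 1 ≤ m) (θ : WDiff (coneE P) m)
    (hd : coneE P ⊆ closure {x | x ∈ coneE P ∧ ∃ v, Tan (coneE P) x v ∧ θ.toFun x v ≠ 0}) :
    ∃ (l : LF N) (R : MvPolynomial (Fin (N + 1)) ℂ) (d : ℕ), R.IsHomogeneous d ∧ R ∉ P ∧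
      ∀ x ∈ coneE P, MvPolynomial.eval x.ofLp R ≠ 0 → GoodPt θ l x := by
  obtain ⟨l, hl⟩ := exists_frame hX hm θ hd
  obtain ⟨R, d, hR, hRP, hRZ⟩ := Pool.Agent.E1.exists_form_of_analytic hz hX (Z := {x | x ∈ coneE P ∧ ¬ GoodPt θ l x}) (fun x hx => hx.1)
    (fun x hx c hc => ⟨hX.smul x hx.1 c hc, fun h => hx.2 ((goodPt_smul_iff hX.smul hc).1 h)⟩) (fun x hx => by
      obtain ⟨σ, τ, hσ, h0⟩ := hX.chart x hx
      obtain ⟨g, hg1, hg2⟩ := bad_localEq hX hm θ hl hσ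
      exact ⟨σ, τ, g, hσ, h0, hg1, hg2⟩)
  refine ⟨l, R, d, hR, hRP, fun x hx hR0 => ?_⟩
  by_contra hbad
  exact hR0 (hRZ x ⟨hx, hbad⟩)

end Pool.Agent.MQ3
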