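import Pool.Agent.MQ3.WtN3

/-!
# MQ3 BdL: a change of boxes changes the potential by a bounded function (local form)
-/

set_option autoImplicit false

open Topology Filter Metric MvPolynomial MeasureTheory Laplacian

noncomputable section

namespace Pool.Agent.MQ3

open Pool.Agent.H36.BP (EN fs)
open Pool.Agent.H14.PP (Tan)
open Pool.Agent.H17BP (Surface IsForm)
open Pool.Agent.H17EF (projVar coneE)
open Pool.Agent.H30M (tau LogSing)
open Pool.Agent.MQ (lam En ztv dvg DDv gr dv)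

namespace BdN

variable {M : ℕ} {P : Ideal (MvPolynomial (Fin (M + 1)) ℂ)} {RD : MvPolynomial (Fin (M + 1)) ℂ} {m : ℕ} {X : NCModel P RD} {θ : WDiff (coneE P) m}
  {l : LF M} {S : Web X θ l} {Ra : MvPolynomial (Fin (M + 1)) ℂ}

theorem det_eq (L : ℂ × ℂ →L[ℂ] ℂ × ℂ) : L.det = (L (1, 0)).1 * (L (0, 1)).2 - (L (0, 1)).1 * (L (1, 0)).2 := by
  have h : L.det = LinearMap.det (L : ℂ × ℂ →ₗ[ℂ] ℂ × ℂ) := rfl
  rw [h, ← LinearMap.det_toMatrix (Module.Basis.finTwoProd ℂ), Matrix.det_fin_two]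
  simp [LinearMap.toMatrix_apply]

theorem jc_ne {Φ : ℂ × ℂ → ℂ × ℂ} {p : ℂ × ℂ} (h : (fderiv ℂ Φ p).det ≠ 0) : jc Φ p ≠ 0 := by
  rw [det_eq] at h
  exact h

theorem eval_smul_hom {R : MvPolynomial (Fin (M + 1)) ℂ} {d : ℕ} (hR : R.IsHomogeneous d) {c : ℂ} (hc : c ≠ 0) (x : EN M) :
    eval (c • x).ofLp R = 0 ↔ eval x.ofLp R = 0 := by
  have h : eval (c • x).ofLp R = c ^ d * eval x.ofLp R := by
    have h1 : (c • x).ofLp = c • x.ofLp := rfl
    rw [h1]
    exact Pool.Agent.H17EF.eval_smul_form hR c x.ofLp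
  rw [h, mul_eq_zero, or_iff_right (pow_ne_zero d hc)]

theorem Chg.ev {i j : X.ι} {Φ : ℂ × ℂ → ℂ × ℂ} {p : ℂ × ℂ} (h : Chg X i j Φ p) : ∀ᶠ x in 𝓝 p, Chg X i j Φ x := by
  have hdet : ContinuousAt (fun x => (fderiv ℂ Φ x).det) p :=
    ContinuousLinearMap.continuous_det.continuousAt.comp h.an.fderiv.continuousAt
  filter_upwards [(X.isOpen i).mem_nhds h.mem, h.an.continuousAt.eventually ((X.isOpen j).mem_nhds h.mem'), h.an.eventually_analyticAt,
    hdet.eventually_ne h.det, h.rel.eventually_nhds, h.eq.eventually_nhds] with x h1 h2 h3 h4 h5 h6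
  exact ⟨h1, h2, h3, h4, h5, h6⟩

/-- near `p` the change of boxes sends the curve in the box `i` to the curve in the box `j` -/
theorem p_eq {F : ℂ → EN M} (Y : NCLift X F) {i j : X.ι} {Φ : ℂ × ℂ → ℂ × ℂ} {z : ℂ} (hi : z ∈ Y.U i) (hj : z ∈ Y.U j) (h : Chg X i j Φ (Y.p i z)) :
    Φ (Y.p i z) = Y.p j z := by
  have h1 := h.rel.self_of_nhds
  have h2 := Y.rel i j z hi hj
  have h3 := X.symm i j _ _ h.mem h.mem' h1
  exact (X.refl j _ h.mem' _ (Y.mem j z hj)).1 (X.trans j i j _ _ _ h.mem' h.mem (Y.mem j z hj) h3 h2)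

theorem log_bd {a b α α' : ℝ} (ha : 0 ≤ a) (hb : 0 ≤ b) (hα : 1 ≤ α) (hα' : 1 ≤ α') (h1 : b ≤ α * a) (h2 : a ≤ α' * b) :
    |Real.log a - Real.log b| ≤ Real.log α + Real.log α' := by
  have l1 := Real.log_nonneg hα
  have l2 := Real.log_nonneg hα'
  rcases ha.eq_or_lt with h3 | h3
  · have h4 : b = 0 := le_antisymm (by rw [← h3, mul_zero] at h1; exact h1) hb
    rw [← h3, h4, sub_self, abs_zero]
    positivity
  · have h4 : 0 < b := by
      by_contra h5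
      have h6 : b = 0 := le_antisymm (not_lt.1 h5) hb
      rw [h6, mul_zero] at h2
      linarith
    have h5 : Real.log b ≤ Real.log α + Real.log a := by
      rw [← Real.log_mul (by linarith) h3.ne']
      exact Real.log_le_log h4 h1
    have h6 : Real.log a ≤ Real.log α' + Real.log b := by
      rw [← Real.log_mul (by linarith) h4.ne']
      exact Real.log_le_log h3 h2
    rw [abs_le]
    constructor <;> linarith

variable {Wf : EN M → EN M → EN M → ℂ} {mK jH : ℕ}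

/-- the local bound -/
theorem loc (hX : Surface (coneE P)) (hm : 1 ≤ mK) (hW : IsForm (coneE P) mK jH Wf) {i j : X.ι} {H H' : ℂ × ℂ → ℂ × ℂ → EN 2} {Φ : ℂ × ℂ → ℂ × ℂ}
    {p : ℂ × ℂ} (h : Chg X i j Φ p) (hV : VRel H H' Φ p) :
    ∃ N ∈ 𝓝 p, ∃ B : ℝ, ∀ F : ℂ → EN M, Differentiable ℂ F → ∀ Y : NCLift X F, ∀ z, z ∈ Y.U i → z ∈ Y.U j → Y.p i z ∈ N →
      |eN H Wf mK jH Y i z - eN H' Wf mK jH Y j z| ≤ B := by
  obtain ⟨A, A', hA, hA', hrel⟩ := hV
  have hJ := Pool.Agent.MQ3.jc_an h.an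
  have hJ0 := jc_ne h.det
  have hJc : ContinuousAt (fun x => Real.log ‖jc Φ x‖) p := hJ.continuousAt.norm.log (norm_ne_zero_iff.2 hJ0)
  refine ⟨_, (Chg.ev h).and (hrel.and ((hA.continuousAt.norm.eventually_lt_const (lt_add_one ‖A p‖)).and
    ((hA'.continuousAt.norm.eventually_lt_const (lt_add_one ‖A' p‖)).and ((hJ.continuousAt.eventually_ne hJ0).and
      (hJc.abs.eventually_lt_const (lt_add_one |Real.log ‖jc Φ p‖|)))))),
    Real.log (‖A p‖ + 1) + Real.log (‖A' p‖ + 1) + (|Real.log ‖jc Φ p‖| + 1), ?_⟩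
  rintro F hF Y z hi hj ⟨h1, h2, h3, h4, h5, h6⟩
  have h0 := p_eq Y hi hj h1
  have hw := wt_chg hX hm hW hF Y hi hj h1 h0
  have hwz := hw.self_of_nhds.2
  have hd : deriv (Y.p j) z = fderiv ℂ Φ (Y.p i z) (deriv (Y.p i) z) := by
    rw [EventuallyEq.deriv_eq (show Y.p j =ᶠ[𝓝 z] fun w => Φ (Y.p i w) from hw.mono fun w hw => hw.1)]
    exact (h1.an.differentiableAt.hasFDerivAt.comp_hasDerivAt z (Y.an i z hi).differentiableAt.hasDerivAt).deriv
  have e1 := (h2 (deriv (Y.p i) z)).1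
  have e2 := (h2 (deriv (Y.p i) z)).2
  rw [h0, ← hd] at e1 e2
  unfold eN eH
  set a := H (Y.p i z) (deriv (Y.p i) z)
  set b := H' (Y.p j z) (deriv (Y.p j) z)
  have k1 : |Real.log ‖a‖ - Real.log ‖b‖| ≤ Real.log (‖A p‖ + 1) + Real.log (‖A' p‖ + 1) := by
    refine log_bd (norm_nonneg _) (norm_nonneg _) (by linarith [norm_nonneg (A p)]) (by linarith [norm_nonneg (A' p)]) ?_ ?_
    · rw [e1]
      exact ((A _).le_opNorm _).trans (mul_le_mul_of_nonneg_right h3.le (norm_nonneg _))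
    · rw [e2]
      exact ((A' _).le_opNorm _).trans (mul_le_mul_of_nonneg_right h4.le (norm_nonneg _))
  have k2 : |1 / mK * Real.log ‖wt Wf Y i z‖ - 1 / mK * Real.log ‖wt Wf Y j z‖| ≤ |Real.log ‖jc Φ p‖| + 1 := by
    rw [hwz]
    by_cases h7 : wt Wf Y j z = 0
    · rw [h7, mul_zero, sub_self, abs_zero]
      positivity
    · have hmK : (mK : ℝ) ≠ 0 := by positivity
      rw [norm_mul, norm_pow, Real.log_mul (pow_ne_zero _ (norm_ne_zero_iff.2 h5)) (norm_ne_zero_iff.2 h7), Real.log_pow]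
      have h8 : 1 / (mK : ℝ) * (mK * Real.log ‖jc Φ (Y.p i z)‖ + Real.log ‖wt Wf Y j z‖) - 1 / mK * Real.log ‖wt Wf Y j z‖ =
          Real.log ‖jc Φ (Y.p i z)‖ := by
        field_simp
        ring
      rw [h8]
      exact h6.le
  have k3 : Real.log ‖a‖ + 1 / mK * Real.log ‖wt Wf Y i z‖ + jH / mK * Real.log ‖F z‖ -
      (Real.log ‖b‖ + 1 / mK * Real.log ‖wt Wf Y j z‖ + jH / mK * Real.log ‖F z‖) =
      (Real.log ‖a‖ - Real.log ‖b‖) + (1 / mK * Real.log ‖wt Wf Y i z‖ - 1 / mK * Real.log ‖wt Wf Y j z‖) := by ring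
  rw [k3]
  exact (abs_add_le _ _).trans (add_le_add k1 k2)

theorem κ_cont (S : Web X θ l) (k : S.ι) : Continuous (S.κ k) := by
  show Continuous fun q => mono (S.c k).w (S.c k).w' q
  unfold mono
  fun_prop

end BdN

end Pool.Agent.MQ3
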