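import Pool.Agent.MQ3.LiftW
import Pool.Agent.MQ3.Lift

/-!
Every lattice of finite index in `ℤ × ℤ` has a finite family of bases in the quadrant whose
cones cover the quadrant.
-/

namespace Pool.Agent.MQ3

/-- the vector in `ℤ × ℤ` -/
def cst (w : ℕ × ℕ) : ℤ × ℤ := (w.1, w.2)

/-- primitive in `L` -/
structure Prim (L : AddSubgroup (ℤ × ℤ)) (w : ℕ × ℕ) : Prop where
  mem : cst w ∈ L
  pos : 0 < w.1 + w.2
  prim : ∀ v ∈ L, ∀ j k : ℤ, 0 < j → j < k → k * v.1 = j * w.1 → k * v.2 = j * w.2 → False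

/-- a primitive vector on the ray of a given vector -/
lemma exists_prim {L : AddSubgroup (ℤ × ℤ)} {u : ℕ × ℕ} (hu : cst u ∈ L) (hpos : 0 < u.1 + u.2) :
    ∃ v : ℕ × ℕ, Prim L v ∧ ∃ j k : ℕ, 0 < j ∧ j ≤ k ∧ k * v.1 = j * u.1 ∧ k * v.2 = j * u.2 := by
  classical
  let Q : ℕ → Prop := fun n => ∃ v : ℕ × ℕ, cst v ∈ L ∧ 0 < v.1 + v.2 ∧ v.1 + v.2 = n ∧
    ∃ j k : ℕ, 0 < j ∧ 0 < k ∧ k * v.1 = j * u.1 ∧ k * v.2 = j * u.2
  have hQ : ∃ n, Q n := ⟨u.1 + u.2, u, hu, hpos, rfl, 1, 1, one_pos, one_pos, rfl, rfl⟩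
  obtain ⟨v, hv, hv0, hvn, j, k, hj, hk, h1, h2⟩ := Nat.find_spec hQ
  have hmin : ∀ v' : ℕ × ℕ, cst v' ∈ L → 0 < v'.1 + v'.2 →
      (∃ j k : ℕ, 0 < j ∧ 0 < k ∧ k * v'.1 = j * u.1 ∧ k * v'.2 = j * u.2) →
      v.1 + v.2 ≤ v'.1 + v'.2 := by
    intro v' a1 a2 a3
    rw [hvn]
    exact Nat.find_min' hQ ⟨v', a1, a2, rfl, a3⟩
  refine ⟨v, ⟨hv, hv0, ?_⟩, j, k, hj, ?_, h1, h2⟩
  · intro w hw i l hi hil e1 e2
    have hl : 0 < l := hi.trans hil
    have w1 : 0 ≤ w.1 := by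
      by_contra hneg
      rw [not_le] at hneg
      have : l * w.1 < 0 := mul_neg_of_pos_of_neg hl hneg
      have : 0 ≤ i * (v.1 : ℤ) := by positivity
      omega
    have w2 : 0 ≤ w.2 := by
      by_contra hneg
      rw [not_le] at hneg
      have : l * w.2 < 0 := mul_neg_of_pos_of_neg hl hneg
      have : 0 ≤ i * (v.2 : ℤ) := by positivity
      omega
    obtain ⟨a, ha⟩ := Int.eq_ofNat_of_zero_le w1
    obtain ⟨b, hb⟩ := Int.eq_ofNat_of_zero_le w2
    obtain ⟨i', hi'⟩ := Int.eq_ofNat_of_zero_le hi.le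
    obtain ⟨l', hl'⟩ := Int.eq_ofNat_of_zero_le hl.le
    subst hi' hl'
    rw [ha] at e1
    rw [hb] at e2
    have e1' : l' * a = i' * v.1 := by exact_mod_cast e1
    have e2' : l' * b = i' * v.2 := by exact_mod_cast e2
    have hi0 : 0 < i' := by exact_mod_cast hi
    have hl0 : 0 < l' := by exact_mod_cast hl
    have hil0 : i' < l' := by exact_mod_cast hil
    have hsum : l' * (a + b) = i' * (v.1 + v.2) := by rw [mul_add, mul_add, e1', e2']
    have hab : 0 < a + b := by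
      rcases Nat.eq_zero_or_pos (a + b) with h0 | h0
      · rw [h0, mul_zero] at hsum
        have : 0 < i' * (v.1 + v.2) := Nat.mul_pos hi0 hv0
        omega
      · exact h0
    have hle := hmin (a, b) (by
      have : cst (a, b) = w := by
        ext
        · simp [cst, ha]
        · simp [cst, hb]
      rw [this]; exact hw) hab
      ⟨i' * j, l' * k, Nat.mul_pos hi0 hj, Nat.mul_pos hl0 hk, by
        calc l' * k * a = k * (l' * a) := by ring
          _ = i' * (k * v.1) := by rw [e1']; ring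
          _ = i' * j * u.1 := by rw [h1]; ring, by
        calc l' * k * b = k * (l' * b) := by ring
          _ = i' * (k * v.2) := by rw [e2']; ring
          _ = i' * j * u.2 := by rw [h2]; ring⟩
    simp only at hle
    have : i' * (v.1 + v.2) < l' * (v.1 + v.2) := Nat.mul_lt_mul_of_pos_right hil0 hv0
    have h3 : l' * (v.1 + v.2) ≤ l' * (a + b) := Nat.mul_le_mul_left _ hle
    omega
  · have hle := hmin u hu hpos ⟨1, 1, one_pos, one_pos, rfl, rfl⟩
    by_contra hcon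
    rw [not_le] at hcon
    have hsum : k * (v.1 + v.2) = j * (u.1 + u.2) := by rw [mul_add, mul_add, h1, h2]
    have h3 : k * (v.1 + v.2) < j * (v.1 + v.2) := Nat.mul_lt_mul_of_pos_right hcon hv0
    have h4 : j * (v.1 + v.2) ≤ j * (u.1 + u.2) := Nat.mul_le_mul_left _ hle
    omega

/-- `u` lies in the closed cone of `w`, `w'` -/
def InC (w w' u : ℕ × ℕ) : Prop := 0 ≤ dt w u ∧ 0 ≤ dt u w' ∧ 0 < u.1 + u.2

/-- `u` does not lie in the open cone of `w`, `w'` -/
def NoIn (w w' u : ℕ × ℕ) : Prop := ¬ (0 < dt w u ∧ 0 < dt u w')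

/-- a fan: positively oriented pairs, no ray inside a cone -/
structure IsFan (F : Finset ((ℕ × ℕ) × (ℕ × ℕ))) : Prop where
  pos : ∀ c ∈ F, 0 < dt c.1 c.2
  fan₁ : ∀ c ∈ F, ∀ c' ∈ F, NoIn c.1 c.2 c'.1
  fan₂ : ∀ c ∈ F, ∀ c' ∈ F, NoIn c.1 c.2 c'.2

lemma dt_self (w : ℕ × ℕ) : dt w w = 0 := by unfold dt; ring

lemma dt_swap (w w' : ℕ × ℕ) : dt w' w = - dt w w' := by unfold dt; ring

/-- the order of the directions in the quadrant -/
lemma dt_trans {a b c : ℕ × ℕ} (hb : 0 < b.1 + b.2) (h1 : 0 ≤ dt a b) (h2 : 0 ≤ dt b c) : 0 ≤ dt a c := by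
  have e : ((b.1 : ℤ) + b.2) * dt a c = (c.1 + c.2) * dt a b + (a.1 + a.2) * dt b c := by
    unfold dt; ring
  by_contra hneg
  rw [not_le] at hneg
  have hb' : (0 : ℤ) < (b.1 : ℤ) + b.2 := by exact_mod_cast hb
  have h3 : ((b.1 : ℤ) + b.2) * dt a c < 0 := mul_neg_of_pos_of_neg hb' hneg
  have h4 : 0 ≤ ((c.1 : ℤ) + c.2) * dt a b := by positivity
  have h5 : 0 ≤ ((a.1 : ℤ) + a.2) * dt b c := by positivity
  omega

/-- the cone of a pair is covered by cones of bases -/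
lemma cover_cone {L : AddSubgroup (ℤ × ℤ)} (D : ℕ) : ∀ w w' : ℕ × ℕ, Prim L w → Prim L w' →
    0 < dt w w' → dt w w' ≤ D →
    ∃ F : Finset ((ℕ × ℕ) × (ℕ × ℕ)), (∀ c ∈ F, IsBas L c.1 c.2) ∧
      (IsFan F ∧ ∀ c ∈ F, InC w w' c.1 ∧ InC w w' c.2) ∧
      ∀ x y : ℝ, 0 ≤ x → 0 ≤ y → ∃ c ∈ F, ∃ l l' : ℝ, 0 ≤ l ∧ 0 ≤ l' ∧
        x * w.1 + y * w'.1 = l * c.1.1 + l' * c.2.1 ∧
        x * w.2 + y * w'.2 = l * c.1.2 + l' * c.2.2 := by
  classical
  induction D with
  | zero =>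
    intro w w' _ _ h1 h2
    exfalso
    have : dt w w' ≤ 0 := by exact_mod_cast h2
    omega
  | succ D ih =>
    intro w w' hw hw' hd hD
    by_cases hbas : IsBas L w w'
    · refine ⟨{(w, w')}, fun c hc => ?_, ⟨⟨?_, ?_, ?_⟩, ?_⟩,
        fun x y hx hy => ⟨(w, w'), by simp, x, y, hx, hy, rfl, rfl⟩⟩
      · rw [Finset.mem_singleton] at hc
        subst hc
        exact hbas
      · intro c hc
        rw [Finset.mem_singleton] at hc
        subst hc
        exact hd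
      · intro c hc c' hc'
        rw [Finset.mem_singleton] at hc hc'
        subst hc hc'
        rintro ⟨h1, -⟩
        simp only [dt_self, lt_irrefl] at h1
      · intro c hc c' hc'
        rw [Finset.mem_singleton] at hc hc'
        subst hc hc'
        rintro ⟨-, h1⟩
        simp only [dt_self, lt_irrefl] at h1
      · intro c hc
        rw [Finset.mem_singleton] at hc
        subst hc
        exact ⟨⟨(dt_self w).ge, hd.le, hw.pos⟩, ⟨hd.le, (dt_self w').ge, hw'.pos⟩⟩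
    -- a lattice vector which is not an integral combination
    have hex : ∃ n ∈ L, ¬ ∃ i j : ℤ, n.1 = i * w.1 + j * w'.1 ∧ n.2 = i * w.2 + j * w'.2 := by
      by_contra hcon
      push Not at hcon
      apply hbas
      refine ⟨by unfold dt at hd; omega, fun n => ⟨fun hn => ?_, ?_⟩⟩
      · exact hcon n hn
      · rintro ⟨i, j, h1, h2⟩
        have : n = i • cst w + j • cst w' := by
          ext
          · simp [cst, h1]
          · simp [cst, h2]
        rw [this]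
        exact L.add_mem (L.zsmul_mem hw.mem i) (L.zsmul_mem hw'.mem j)
    obtain ⟨n, hn, hno⟩ := hex
    set d : ℤ := dt w w' with hd_def
    set P : ℤ := n.1 * w'.2 - n.2 * w'.1 with hP
    set R : ℤ := w.1 * n.2 - w.2 * n.1 with hR
    have hc1 : d * n.1 = P * w.1 + R * w'.1 := by
      rw [hd_def, hP, hR]; unfold dt; ring
    have hc2 : d * n.2 = P * w.2 + R * w'.2 := by
      rw [hd_def, hP, hR]; unfold dt; ring
    obtain ⟨i, p0, hp0, hp1, hPi⟩ : ∃ i p0 : ℤ, 0 ≤ p0 ∧ p0 < d ∧ P = d * i + p0 :=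
      ⟨P / d, P % d, Int.emod_nonneg _ hd.ne', Int.emod_lt_of_pos _ hd, (Int.mul_ediv_add_emod P d).symm⟩
    obtain ⟨j, q0, hq0, hq1, hRj⟩ : ∃ j q0 : ℤ, 0 ≤ q0 ∧ q0 < d ∧ R = d * j + q0 :=
      ⟨R / d, R % d, Int.emod_nonneg _ hd.ne', Int.emod_lt_of_pos _ hd, (Int.mul_ediv_add_emod R d).symm⟩
    set u : ℤ × ℤ := n - i • cst w - j • cst w' with hu_def
    have huL : u ∈ L := L.sub_mem (L.sub_mem hn (L.zsmul_mem hw.mem i)) (L.zsmul_mem hw'.mem j)
    have hu1' : u.1 = n.1 - i * w.1 - j * w'.1 := by simp [hu_def, cst]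
    have hu2' : u.2 = n.2 - i * w.2 - j * w'.2 := by simp [hu_def, cst]
    have hu1 : d * u.1 = p0 * w.1 + q0 * w'.1 := by
      rw [hu1']
      linear_combination hc1 + (w.1 : ℤ) * hPi + (w'.1 : ℤ) * hRj
    have hu2 : d * u.2 = p0 * w.2 + q0 * w'.2 := by
      rw [hu2']
      linear_combination hc2 + (w.2 : ℤ) * hPi + (w'.2 : ℤ) * hRj
    have hp0' : p0 ≠ 0 := by
      intro h0
      rw [h0, zero_mul, zero_add] at hu1 hu2
      rcases hq0.eq_or_lt with h | h
      · rw [← h, zero_mul] at hu1 hu2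
        apply hno
        refine ⟨i, j, ?_, ?_⟩
        · have := (mul_eq_zero.1 hu1).resolve_left hd.ne'
          rw [hu1'] at this; linarith
        · have := (mul_eq_zero.1 hu2).resolve_left hd.ne'
          rw [hu2'] at this; linarith
      · exact hw'.prim u huL q0 d h hq1 hu1 hu2
    have hq0' : q0 ≠ 0 := by
      intro h0
      rw [h0, zero_mul, add_zero] at hu1 hu2
      exact hw.prim u huL p0 d (lt_of_le_of_ne hp0 (Ne.symm hp0')) hp1 hu1 hu2
    have hp0p : 0 < p0 := lt_of_le_of_ne hp0 (Ne.symm hp0')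
    have hq0p : 0 < q0 := lt_of_le_of_ne hq0 (Ne.symm hq0')
    have hun1 : 0 ≤ u.1 := by
      by_contra hneg
      rw [not_le] at hneg
      have h1 : d * u.1 < 0 := mul_neg_of_pos_of_neg hd hneg
      have h2 : 0 ≤ p0 * (w.1 : ℤ) + q0 * w'.1 := by positivity
      omega
    have hun2 : 0 ≤ u.2 := by
      by_contra hneg
      rw [not_le] at hneg
      have h1 : d * u.2 < 0 := mul_neg_of_pos_of_neg hd hneg
      have h2 : 0 ≤ p0 * (w.2 : ℤ) + q0 * w'.2 := by positivity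
      omega
    obtain ⟨u1, hu1n⟩ := Int.eq_ofNat_of_zero_le hun1
    obtain ⟨u2, hu2n⟩ := Int.eq_ofNat_of_zero_le hun2
    have hcu : cst (u1, u2) = u := by
      ext
      · simp [cst, hu1n]
      · simp [cst, hu2n]
    have hupos : 0 < u1 + u2 := by
      rcases Nat.eq_zero_or_pos (u1 + u2) with h0 | h0
      · exfalso
        have a1 : u1 = 0 := by omega
        have a2 : u2 = 0 := by omega
        rw [hu1n, a1] at hu1
        rw [hu2n, a2] at hu2
        have b1 : 0 ≤ p0 * (w.1 : ℤ) := by positivity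
        have b2 : 0 ≤ q0 * (w'.1 : ℤ) := by positivity
        have b3 : 0 ≤ p0 * (w.2 : ℤ) := by positivity
        have b4 : 0 ≤ q0 * (w'.2 : ℤ) := by positivity
        have c1 : p0 * (w.1 : ℤ) = 0 := by
          have : d * ((0 : ℕ) : ℤ) = 0 := by simp
          omega
        have c2 : p0 * (w.2 : ℤ) = 0 := by
          have : d * ((0 : ℕ) : ℤ) = 0 := by simp
          omega
        have c3 : (w.1 : ℤ) = 0 := (mul_eq_zero.1 c1).resolve_left hp0'
        have c4 : (w.2 : ℤ) = 0 := (mul_eq_zero.1 c2).resolve_left hp0'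
        have := hw.pos
        omega
      · exact h0
    obtain ⟨v, hv, jj, kk, hjj, hjk, hv1, hv2⟩ := exists_prim (L := L) (u := (u1, u2))
      (by rw [hcu]; exact huL) hupos
    simp only at hv1 hv2
    have hkk : 0 < kk := lt_of_lt_of_le hjj hjk
    have hv1' : (kk : ℤ) * v.1 = jj * u.1 := by rw [hu1n]; exact_mod_cast hv1
    have hv2' : (kk : ℤ) * v.2 = jj * u.2 := by rw [hu2n]; exact_mod_cast hv2
    have hkkz : (0 : ℤ) < kk := by exact_mod_cast hkk
    have hjjz : (0 : ℤ) < jj := by exact_mod_cast hjj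
    have hjkz : (jj : ℤ) ≤ kk := by exact_mod_cast hjk
    -- determinants
    have dwu : w.1 * u.2 - w.2 * u.1 = q0 := by
      apply mul_left_cancel₀ hd.ne'
      calc d * (w.1 * u.2 - w.2 * u.1) = w.1 * (d * u.2) - w.2 * (d * u.1) := by ring
        _ = q0 * dt w w' := by rw [hu1, hu2]; unfold dt; ring
        _ = d * q0 := by rw [hd_def]; ring
    have duw : u.1 * w'.2 - u.2 * w'.1 = p0 := by
      apply mul_left_cancel₀ hd.ne'
      calc d * (u.1 * w'.2 - u.2 * w'.1) = w'.2 * (d * u.1) - w'.1 * (d * u.2) := by ring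
        _ = p0 * dt w w' := by rw [hu1, hu2]; unfold dt; ring
        _ = d * p0 := by rw [hd_def]; ring
    have kd1 : kk * dt w v = jj * q0 := by
      unfold dt
      calc (kk : ℤ) * (w.1 * v.2 - w.2 * v.1) = w.1 * (kk * v.2) - w.2 * (kk * v.1) := by ring
        _ = jj * (w.1 * u.2 - w.2 * u.1) := by rw [hv1', hv2']; ring
        _ = jj * q0 := by rw [dwu]
    have kd2 : kk * dt v w' = jj * p0 := by
      unfold dt
      calc (kk : ℤ) * (v.1 * w'.2 - v.2 * w'.1) = w'.2 * (kk * v.1) - w'.1 * (kk * v.2) := by ring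
        _ = jj * (u.1 * w'.2 - u.2 * w'.1) := by rw [hv1', hv2']; ring
        _ = jj * p0 := by rw [duw]
    have pd1 : 0 < dt w v := by
      by_contra hneg
      rw [not_lt] at hneg
      have h1 : (kk : ℤ) * dt w v ≤ 0 := mul_nonpos_of_nonneg_of_nonpos hkkz.le hneg
      have h2 : 0 < jj * q0 := mul_pos hjjz hq0p
      omega
    have pd2 : 0 < dt v w' := by
      by_contra hneg
      rw [not_lt] at hneg
      have h1 : (kk : ℤ) * dt v w' ≤ 0 := mul_nonpos_of_nonneg_of_nonpos hkkz.le hneg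
      have h2 : 0 < jj * p0 := mul_pos hjjz hp0p
      omega
    have ld1 : dt w v ≤ q0 := by
      by_contra hcon
      rw [not_le] at hcon
      have h1 : (kk : ℤ) * q0 < kk * dt w v := mul_lt_mul_of_pos_left hcon hkkz
      have h2 : (jj : ℤ) * q0 ≤ kk * q0 := mul_le_mul_of_nonneg_right hjkz hq0
      omega
    have ld2 : dt v w' ≤ p0 := by
      by_contra hcon
      rw [not_le] at hcon
      have h1 : (kk : ℤ) * p0 < kk * dt v w' := mul_lt_mul_of_pos_left hcon hkkz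
      have h2 : (jj : ℤ) * p0 ≤ kk * p0 := mul_le_mul_of_nonneg_right hjkz hp0
      omega
    have hDz : d ≤ (D : ℤ) + 1 := by exact_mod_cast hD
    obtain ⟨F1, hF1, ⟨hfan1, hin1⟩, hC1⟩ := ih w v hw hv pd1 (by omega)
    obtain ⟨F2, hF2, ⟨hfan2, hin2⟩, hC2⟩ := ih v w' hv hw' pd2 (by omega)
    -- rays of the two families
    have cross1 : ∀ c ∈ F1, ∀ u, InC v w' u → NoIn c.1 c.2 u := by
      rintro c hc u hu ⟨h1, h2⟩
      have h3 : 0 ≤ dt c.2 v := (hin1 c hc).2.2.1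
      have h4 := dt_trans hv.pos h3 hu.1
      rw [dt_swap] at h2
      omega
    have cross2 : ∀ c ∈ F2, ∀ u, InC w v u → NoIn c.1 c.2 u := by
      rintro c hc u hu ⟨h1, h2⟩
      have h3 : 0 ≤ dt v c.1 := (hin2 c hc).1.1
      have h4 := dt_trans hv.pos hu.2.1 h3
      rw [dt_swap] at h1
      omega
    refine ⟨F1 ∪ F2, fun c hc => ?_, ⟨⟨?_, ?_, ?_⟩, ?_⟩, fun x y hx hy => ?_⟩
    · rcases Finset.mem_union.1 hc with h | h
      · exact hF1 c h
      · exact hF2 c h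
    · intro c hc
      rcases Finset.mem_union.1 hc with h | h
      · exact hfan1.pos c h
      · exact hfan2.pos c h
    · intro c hc c' hc'
      rcases Finset.mem_union.1 hc with h | h <;> rcases Finset.mem_union.1 hc' with h' | h'
      · exact hfan1.fan₁ c h c' h'
      · exact cross1 c h _ (hin2 c' h').1
      · exact cross2 c h _ (hin1 c' h').1
      · exact hfan2.fan₁ c h c' h'
    · intro c hc c' hc'
      rcases Finset.mem_union.1 hc with h | h <;> rcases Finset.mem_union.1 hc' with h' | h'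
      · exact hfan1.fan₂ c h c' h'
      · exact cross1 c h _ (hin2 c' h').2
      · exact cross2 c h _ (hin1 c' h').2
      · exact hfan2.fan₂ c h c' h'
    · intro c hc
      rcases Finset.mem_union.1 hc with h | h
      · obtain ⟨⟨a1, a2, a3⟩, ⟨b1, b2, b3⟩⟩ := hin1 c h
        exact ⟨⟨a1, dt_trans hv.pos a2 pd2.le, a3⟩, ⟨b1, dt_trans hv.pos b2 pd2.le, b3⟩⟩
      · obtain ⟨⟨a1, a2, a3⟩, ⟨b1, b2, b3⟩⟩ := hin2 c h
        exact ⟨⟨dt_trans hv.pos pd1.le a1, a2, a3⟩, ⟨dt_trans hv.pos pd1.le b1, b2, b3⟩⟩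
    -- real coefficients
    have hdR : (0 : ℝ) < (d : ℝ) := by exact_mod_cast hd
    have hkR : (0 : ℝ) < (kk : ℝ) := by exact_mod_cast hkk
    have hjR : (0 : ℝ) < (jj : ℝ) := by exact_mod_cast hjj
    have hpR : (0 : ℝ) < (p0 : ℝ) := by exact_mod_cast hp0p
    have hqR : (0 : ℝ) < (q0 : ℝ) := by exact_mod_cast hq0p
    set α : ℝ := jj * p0 / (d * kk) with hα
    set β : ℝ := jj * q0 / (d * kk) with hβ
    have hα0 : 0 < α := by positivity
    have hβ0 : 0 < β := by positivity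
    have z1 : (d : ℝ) * kk * v.1 = jj * (p0 * w.1 + q0 * w'.1) := by
      have h1 : d * (kk * v.1) = jj * (p0 * w.1 + q0 * w'.1) := by
        rw [hv1', ← hu1]; ring
      have h2 : (d : ℝ) * (kk * v.1) = jj * (p0 * w.1 + q0 * w'.1) := by exact_mod_cast h1
      rw [← h2]; ring
    have z2 : (d : ℝ) * kk * v.2 = jj * (p0 * w.2 + q0 * w'.2) := by
      have h1 : d * (kk * v.2) = jj * (p0 * w.2 + q0 * w'.2) := by
        rw [hv2', ← hu2]; ring
      have h2 : (d : ℝ) * (kk * v.2) = jj * (p0 * w.2 + q0 * w'.2) := by exact_mod_cast h1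
      rw [← h2]; ring
    have r1 : (v.1 : ℝ) = α * w.1 + β * w'.1 := by
      rw [hα, hβ]
      field_simp
      linear_combination z1
    have r2 : (v.2 : ℝ) = α * w.2 + β * w'.2 := by
      rw [hα, hβ]
      field_simp
      linear_combination z2
    rcases le_total (y * α) (x * β) with hle | hle
    · obtain ⟨c, hc, l, l', hl, hl', e1, e2⟩ := hC1 (x - y * α / β) (y / β)
        (by rw [sub_nonneg, div_le_iff₀ hβ0]; exact hle) (by positivity)
      refine ⟨c, Finset.mem_union_left _ hc, l, l', hl, hl', ?_, ?_⟩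
      · rw [← e1, r1]; field_simp; ring
      · rw [← e2, r2]; field_simp; ring
    · obtain ⟨c, hc, l, l', hl, hl', e1, e2⟩ := hC2 (x / α) (y - x * β / α)
        (by positivity) (by rw [sub_nonneg, div_le_iff₀ hα0]; exact hle)
      refine ⟨c, Finset.mem_union_right _ hc, l, l', hl, hl', ?_, ?_⟩
      · rw [← e1, r1]; field_simp; ring
      · rw [← e2, r2]; field_simp; ring

/-- MODULE Latt, with the fan property. -/
theorem exists_fan (L : AddSubgroup (ℤ × ℤ)) (hL : L.FiniteIndex) :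
    ∃ F : Finset ((ℕ × ℕ) × (ℕ × ℕ)), (∀ c ∈ F, IsBas L c.1 c.2) ∧ IsFan F ∧ Covers F := by
  classical
  set N := L.index with hN
  have hN0 : 0 < N := Nat.pos_of_ne_zero hL.index_ne_zero
  have hmem : ∀ n : ℤ × ℤ, N • n ∈ L := fun n => L.nsmul_index_mem n
  have h1 : cst (N, 0) ∈ L := by
    have := hmem (1, 0)
    have e : cst (N, 0) = N • ((1 : ℤ), (0 : ℤ)) := by ext <;> simp [cst]
    rw [e]; exact this
  have h2 : cst (0, N) ∈ L := by
    have := hmem (0, 1)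
    have e : cst (0, N) = N • ((0 : ℤ), (1 : ℤ)) := by ext <;> simp [cst]
    rw [e]; exact this
  obtain ⟨v, hv, j, k, hj, hjk, e1, e2⟩ := exists_prim (L := L) (u := (N, 0)) h1 (by simpa using hN0)
  obtain ⟨v', hv', j', k', hj', hjk', e1', e2'⟩ := exists_prim (L := L) (u := (0, N)) h2
    (by simpa using hN0)
  simp only [mul_zero] at e1 e2 e1' e2'
  have v2 : v.2 = 0 := by
    rcases Nat.mul_eq_zero.1 e2 with h | h
    · omega
    · exact h
  have v1' : v'.1 = 0 := by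
    rcases Nat.mul_eq_zero.1 e1' with h | h
    · omega
    · exact h
  have v1 : 0 < v.1 := by have := hv.pos; omega
  have v2' : 0 < v'.2 := by have := hv'.pos; omega
  have hdt : 0 < dt v v' := by
    unfold dt
    rw [v2, v1']
    have a1 : (0 : ℤ) < v.1 := by exact_mod_cast v1
    have a2 : (0 : ℤ) < v'.2 := by exact_mod_cast v2'
    simpa using mul_pos a1 a2
  obtain ⟨F, hF, ⟨hfan, -⟩, hC⟩ := cover_cone (L := L) (dt v v').toNat v v' hv hv' hdt
    (by rw [Int.toNat_of_nonneg hdt.le])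
  refine ⟨F, hF, hfan, fun A B hA hB => ?_⟩
  have a1 : (0 : ℝ) < v.1 := by exact_mod_cast v1
  have a2 : (0 : ℝ) < v'.2 := by exact_mod_cast v2'
  obtain ⟨c, hc, l, l', hl, hl', q1, q2⟩ := hC (A / v.1) (B / v'.2) (by positivity) (by positivity)
  refine ⟨c, hc, l, l', hl, hl', ?_, ?_⟩
  · rw [← q1, v1']; field_simp; simp
  · rw [← q2, v2]; field_simp; simp

/-- MODULE Latt. -/
theorem exists_bases (L : AddSubgroup (ℤ × ℤ)) (hL : L.FiniteIndex) :
    ∃ F : Finset ((ℕ × ℕ) × (ℕ × ℕ)), (∀ c ∈ F, IsBas L c.1 c.2) ∧ Covers F := by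
  obtain ⟨F, hF, -, hC⟩ := exists_fan L hL
  exact ⟨F, hF, hC⟩

/-- The bases of all stabilizers of a web box, in the form of `cover`, with the fan property. -/
theorem exists_fan_web {p : ℕ} {a b : Equiv.Perm (Fin p)} (hab : Commute a b) :
    ∃ (K : Finset (Fin p)) (Bs : Fin p → Finset ((ℕ × ℕ) × (ℕ × ℕ))),
      (∀ i, ∃ k ∈ K, ∃ m n : ℤ, i = (a ^ m * b ^ n) k) ∧
      (∀ k ∈ K, ∀ c ∈ Bs k, Basis a b k c.1 c.2) ∧ (∀ k ∈ K, IsFan (Bs k)) ∧
      (∀ k ∈ K, ∀ A B : ℝ, 0 < A → 0 < B → ∃ c ∈ Bs k, ∃ l l' : ℝ, 0 ≤ l ∧ 0 ≤ l' ∧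
        A = l * c.1.1 + l' * c.2.1 ∧ B = l * c.1.2 + l' * c.2.2) := by
  have h : ∀ k : Fin p, ∃ F : Finset ((ℕ × ℕ) × (ℕ × ℕ)),
      (∀ c ∈ F, IsBas (stab a b hab k) c.1 c.2) ∧ IsFan F ∧ Covers F :=
    fun k => exists_fan _ (stab_finiteIndex hab k)
  choose Bs hB hFan hC using h
  refine ⟨Finset.univ, Bs, fun i => ⟨i, Finset.mem_univ _, 0, 0, by simp⟩, fun k _ c hc => ?_,
    fun k _ => hFan k, fun k _ A B hA hB' => hC k A B hA.le hB'.le⟩
  have hb := hB k c hc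
  refine ⟨hb.det, ?_, ?_, ?_⟩
  · exact mem_stab.1 ((hb.mem (c.1.1, c.1.2)).2 ⟨1, 0, by simp, by simp⟩)
  · exact mem_stab.1 ((hb.mem (c.2.1, c.2.2)).2 ⟨0, 1, by simp, by simp⟩)
  · intro m n hmn
    exact (hb.mem (m, n)).1 (mem_stab.2 hmn)

/-- The bases of all stabilizers of a web box, in the form of `cover`. -/
theorem exists_bases_web {p : ℕ} {a b : Equiv.Perm (Fin p)} (hab : Commute a b) :
    ∃ (K : Finset (Fin p)) (Bs : Fin p → Finset ((ℕ × ℕ) × (ℕ × ℕ))),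
      (∀ i, ∃ k ∈ K, ∃ m n : ℤ, i = (a ^ m * b ^ n) k) ∧
      (∀ k ∈ K, ∀ c ∈ Bs k, Basis a b k c.1 c.2) ∧
      (∀ k ∈ K, ∀ A B : ℝ, 0 < A → 0 < B → ∃ c ∈ Bs k, ∃ l l' : ℝ, 0 ≤ l ∧ 0 ≤ l' ∧
        A = l * c.1.1 + l' * c.2.1 ∧ B = l * c.1.2 + l' * c.2.2) := by
  obtain ⟨K, Bs, h1, h2, -, h4⟩ := exists_fan_web hab
  exact ⟨K, Bs, h1, h2, h4⟩

end Pool.Agent.MQ3
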