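import Pool.Agent.MQ3.Defs
import Pool.Agent.MQ3.Latt

/-!
# MQ3 BoxW: the webs over one box exist, and so do the monomial charts
-/

set_option autoImplicit false

open Topology Filter Metric MvPolynomial MeasureTheory

noncomputable section

namespace Pool.Agent.MQ3

open Pool.Agent.H36.BP (EN fs)
open Pool.Agent.H14.PP (Tan)
open Pool.Agent.H17BP (Surface)
open Pool.Agent.H17EF (projVar coneE)
open Pool.Agent.H30M (tau)
open Pool.Agent.MQ (lam En)

variable {M : ℕ} {X : Set (EN M)} {m : ℕ} {θ : WDiff X m} {l : LF M} {ρ : ℂ × ℂ → EN M}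

/-- **The web over one box.** -/
theorem exists_boxWeb (hX : Surface X) (hm : 1 ≤ m) (hb : NCBox X ρ) (hg : ∀ p ∈ DS, GoodPt θ l (ρ p)) : Nonempty (BoxWeb θ l ρ) := by
  obtain ⟨e, T, a, b, μ, -, h1, -, -, -, -, h2, h3⟩ := hb.exists_sheets hX hm hg
  exact ⟨⟨hX, hm, hb, hg, e, T, a, b, h1, h2, h3⟩⟩

/-- two cones of a fan: one after the other, or the same rays -/
theorem fan_sep {w w' u u' : ℕ × ℕ} (h1 : NoIn w w' u) (h2 : NoIn w w' u') (h3 : NoIn u u' w) (h4 : NoIn u u' w') :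
    0 ≤ dt w' u ∨ 0 ≤ dt u' w ∨ (dt w u = 0 ∧ dt w' u' = 0) := by
  by_contra hcon
  rw [not_or, not_or, not_le, not_le] at hcon
  obtain ⟨c1, c2, c3⟩ := hcon
  have e1 := dt_swap u w'
  have e2 := dt_swap w u'
  have e3 := dt_swap w u
  have e4 := dt_swap w' u'
  apply c3
  unfold NoIn at h1 h2 h3 h4
  omega

theorem basis_eq₁ {p : ℕ} {a b : Equiv.Perm (Fin p)} {k : Fin p} {w w' u u' : ℕ × ℕ} (hB : Basis a b k w w') (hB' : Basis a b k u u')
    (h : dt w u = 0) : w = u := by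
  obtain ⟨α, β, e1, e2⟩ := hB.gen u.1 u.2 hB'.mem
  obtain ⟨α', β', e1', e2'⟩ := hB'.gen w.1 w.2 hB.mem
  have hβ : β = 0 := by
    have h1 : β * dt w w' = 0 := by
      rw [← h]
      unfold dt
      rw [e1, e2]
      ring
    exact (mul_eq_zero.1 h1).resolve_right hB.det
  have hβ' : β' = 0 := by
    have h1 : β' * dt u u' = 0 := by
      have h2 : dt u w = 0 := by
        rw [dt_swap, h, neg_zero]
      rw [← h2]
      unfold dt
      rw [e1', e2']
      ring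
    exact (mul_eq_zero.1 h1).resolve_right hB'.det
  subst hβ
  subst hβ'
  simp only [zero_mul, add_zero] at e1 e2 e1' e2'
  have hu : (u.1 : ℤ) ≠ 0 ∨ (u.2 : ℤ) ≠ 0 := by
    by_contra hcon
    rw [not_or, not_not, not_not] at hcon
    apply hB'.det
    unfold dt
    rw [hcon.1, hcon.2]
    ring
  have hαα : α * α' = 1 := by
    rcases hu with h0 | h0
    · have h1 : (α * α' - 1) * (u.1 : ℤ) = 0 := by
        rw [e1'] at e1
        linear_combination -e1
      exact sub_eq_zero.1 ((mul_eq_zero.1 h1).resolve_right h0)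
    · have h1 : (α * α' - 1) * (u.2 : ℤ) = 0 := by
        rw [e2'] at e2
        linear_combination -e2
      exact sub_eq_zero.1 ((mul_eq_zero.1 h1).resolve_right h0)
  have hα : α = 1 := by
    rcases Int.eq_one_or_neg_one_of_mul_eq_one hαα with h1 | h1
    · exact h1
    · exfalso
      rw [h1] at e1 e2
      omega
  rw [hα] at e1 e2
  refine Prod.ext ?_ ?_
  · omega
  · omega

theorem basis_eq₂ {p : ℕ} {a b : Equiv.Perm (Fin p)} {k : Fin p} {w w' u u' : ℕ × ℕ} (hB : Basis a b k w w') (hB' : Basis a b k u u')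
    (h : dt w' u' = 0) : w' = u' := by
  obtain ⟨α, β, e1, e2⟩ := hB.gen u'.1 u'.2 hB'.mem'
  obtain ⟨α', β', e1', e2'⟩ := hB'.gen w'.1 w'.2 hB.mem'
  have hα : α = 0 := by
    have h1 : α * dt w w' = 0 := by
      have h2 : dt u' w' = 0 := by rw [dt_swap, h, neg_zero]
      rw [← h2]
      unfold dt
      rw [e1, e2]
      ring
    exact (mul_eq_zero.1 h1).resolve_right hB.det
  have hα' : α' = 0 := by
    have h1 : α' * dt u u' = 0 := by
      rw [← h]
      unfold dt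
      rw [e1', e2']
      ring
    exact (mul_eq_zero.1 h1).resolve_right hB'.det
  subst hα
  subst hα'
  simp only [zero_mul, zero_add] at e1 e2 e1' e2'
  have hu : (u'.1 : ℤ) ≠ 0 ∨ (u'.2 : ℤ) ≠ 0 := by
    by_contra hcon
    rw [not_or, not_not, not_not] at hcon
    apply hB'.det
    unfold dt
    rw [hcon.1, hcon.2]
    ring
  have hββ : β * β' = 1 := by
    rcases hu with h0 | h0
    · have h1 : (β * β' - 1) * (u'.1 : ℤ) = 0 := by
        rw [e1'] at e1
        linear_combination -e1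
      exact sub_eq_zero.1 ((mul_eq_zero.1 h1).resolve_right h0)
    · have h1 : (β * β' - 1) * (u'.2 : ℤ) = 0 := by
        rw [e2'] at e2
        linear_combination -e2
      exact sub_eq_zero.1 ((mul_eq_zero.1 h1).resolve_right h0)
  have hβ : β = 1 := by
    rcases Int.eq_one_or_neg_one_of_mul_eq_one hββ with h1 | h1
    · exact h1
    · exfalso
      rw [h1] at e1 e2
      omega
  rw [hβ] at e1 e2
  refine Prod.ext ?_ ?_
  · omega
  · omega

/-- representatives of the orbits -/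
theorem exists_reps {p : ℕ} {a b : Equiv.Perm (Fin p)} (hab : Commute a b) :
    ∃ K : Finset (Fin p), (∀ i, ∃ k ∈ K, ∃ m n : ℤ, i = (a ^ m * b ^ n) k) ∧
      ∀ k ∈ K, ∀ k' ∈ K, k ≠ k' → ∀ m n : ℤ, (a ^ m * b ^ n) k ≠ k' := by
  classical
  have hmul : ∀ m n m' n' : ℤ, (a ^ m * b ^ n) * (a ^ m' * b ^ n') = a ^ (m + m') * b ^ (n + n') := by
    intro m n m' n'
    have h1 : Commute (b ^ n) (a ^ m') := (hab.symm.zpow_right m').zpow_left n
    rw [mul_assoc, ← mul_assoc (b ^ n), h1.eq, mul_assoc, ← mul_assoc, ← zpow_add, ← zpow_add]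
  let st : Setoid (Fin p) :=
    { r := fun i j => ∃ m n : ℤ, j = (a ^ m * b ^ n) i
      iseqv :=
        { refl := fun i => ⟨0, 0, by simp⟩
          symm := by
            rintro i j ⟨m, n, rfl⟩
            refine ⟨-m, -n, ?_⟩
            rw [← Equiv.Perm.mul_apply, hmul]
            simp
          trans := by
            rintro i j k ⟨m, n, rfl⟩ ⟨m', n', rfl⟩
            refine ⟨m' + m, n' + n, ?_⟩
            rw [← hmul]
            rfl } }
  let f : Fin p → Fin p := fun i => (Quotient.mk st i).out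
  have hf : ∀ i, ∃ m n : ℤ, i = (a ^ m * b ^ n) (f i) := fun i => (Quotient.mk_out (s := st) i : st.r _ _)
  have hfi : ∀ i j, (∃ m n : ℤ, j = (a ^ m * b ^ n) i) → f i = f j := by
    intro i j h
    show (Quotient.mk st i).out = (Quotient.mk st j).out
    rw [Quotient.sound (s := st) (a := i) (b := j) h]
  refine ⟨Finset.univ.image f, fun i => ⟨f i, Finset.mem_image_of_mem f (Finset.mem_univ i), hf i⟩, ?_⟩
  intro k hk k' hk' hne m n hmn
  rw [Finset.mem_image] at hk hk'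
  obtain ⟨i, -, rfl⟩ := hk
  obtain ⟨i', -, rfl⟩ := hk'
  have hff : ∀ i, f (f i) = f i := fun i => hfi _ _ (hf i)
  apply hne
  rw [← hff i, ← hff i']
  exact hfi _ _ ⟨m, n, hmn.symm⟩

/-- the chart of a sheet and a basis -/
theorem exists_mChart (W : BoxWeb θ l ρ) {k : Fin W.e} {w w' : ℕ × ℕ} (hB : Basis W.a W.b k w w') (hpos : 0 < dt w w') :
    ∃ c : MChart W, c.k = k ∧ c.w = w ∧ c.w' = w' := by
  obtain ⟨C, hC⟩ := W.bdd
  have hd : ∀ x ∈ DD, ‖x.1‖ ≤ 1 ∧ ‖x.2‖ ≤ 1 := fun x hx => ⟨hx.1.le, hx.2.le⟩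
  obtain ⟨i, j, v, h1, h2, h3⟩ := exists_field (F := sA θ l ρ m) (V₁ := v₁ l ρ) (V₂ := v₂ l ρ) W.web hB
    (fun x hx => analyticAt_sA θ l (W.box.an x (hd x hx).1 (hd x hx).2) (W.box.mem x (hd x hx).1 (hd x hx).2) m)
    (fun x hx => analyticAt_v₁ l (W.box.an x (hd x hx).1 (hd x hx).2)) (fun x hx => analyticAt_v₂ l (W.box.an x (hd x hx).1 (hd x hx).2))
    (fun x hx => W.box.lead_ne W.surf W.hm hx (W.good x hx).1 (W.good x hx).2.1)
    (fun x hx => by
      have h4 := W.box.dl_ne W.surf hx (W.good x hx).1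
      have h5 : (v₁ l ρ x).1 * (v₂ l ρ x).2 - (v₁ l ρ x).2 * (v₂ l ρ x).1 = dl l ρ x := by
        simp only [v₁, v₂, dl]
        ring
      rw [h5]
      exact h4) (hC k)
  exact ⟨⟨k, w, w', hB, hpos, i, j, v, h1, h2, h3⟩, rfl, rfl, rfl⟩

/-- the curve in the box satisfies the hypotheses of the module Lift -/
theorem BCrv.crv {W : BoxWeb θ l ρ} {F : ℂ → EN M} {U : Set ℂ} {p : ℂ → ℂ × ℂ} (h : BCrv θ l ρ F U p) :
    Crv W.T U (fun z => (p z).1) (fun z => (p z).2) (slp l F) ∧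
      (∀ z ∈ U, p z ∈ DS → deriv p z ≠ 0 → om l 1 (F z) (deriv F z) ≠ 0 ∧ slp l F z = gm l F z) ∧
      ∀ z ∈ U, p z ∈ DS → ∃ a : ℂ, deriv p z = a • (v₁ l ρ (p z) + slp l F z • v₂ l ρ (p z)) ∧ (a = 0 ↔ deriv p z = 0) :=
  W.box.crv W.surf W.good W.web.an (fun v hv t ht => (W.ns v hv t).1 ht) h.isOpen (fun z _ => h.F_an z) h.p_an h.mem h.ne h.eq h.tan h.nc

/-- **The monomial charts over a box.** -/
theorem exists_webOver (W : BoxWeb θ l ρ) : Nonempty (WebOver W) := by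
  classical
  have hab := W.web.comm
  have h : ∀ k : Fin W.e, ∃ F : Finset ((ℕ × ℕ) × (ℕ × ℕ)), (∀ c ∈ F, IsBas (stab W.a W.b hab k) c.1 c.2) ∧ IsFan F ∧ Covers F :=
    fun k => exists_fan _ (stab_finiteIndex hab k)
  choose Bs hB0 hFan hC using h
  have hB : ∀ k, ∀ c ∈ Bs k, Basis W.a W.b k c.1 c.2 := by
    intro k c hc
    have hb := hB0 k c hc
    refine ⟨hb.det, ?_, ?_, ?_⟩
    · exact mem_stab.1 ((hb.mem (c.1.1, c.1.2)).2 ⟨1, 0, by simp, by simp⟩)
    · exact mem_stab.1 ((hb.mem (c.2.1, c.2.2)).2 ⟨0, 1, by simp, by simp⟩)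
    · intro m n hmn
      exact (hb.mem (m, n)).1 (mem_stab.2 hmn)
  obtain ⟨K, hK, hK'⟩ := exists_reps hab
  have hch : ∀ i : (K.sigma Bs : Finset (Σ _ : Fin W.e, (ℕ × ℕ) × (ℕ × ℕ))), ∃ c : MChart W, c.k = i.1.1 ∧ c.w = i.1.2.1 ∧ c.w' = i.1.2.2 := by
    intro i
    have h1 := Finset.mem_sigma.1 i.2
    exact exists_mChart W (hB _ _ h1.2) ((hFan _).pos _ h1.2)
  choose c hc1 hc2 hc3 using hch
  refine ⟨⟨(K.sigma Bs : Finset (Σ _ : Fin W.e, (ℕ × ℕ) × (ℕ × ℕ))), c, ?_, ?_, ?_⟩⟩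
  · intro i j
    by_cases hij : (c i).k = (c j).k
    · exact Or.inl hij
    · right
      intro r s
      rw [hc1, hc1] at hij
      rw [hc1, hc1]
      exact hK' _ (Finset.mem_sigma.1 i.2).1 _ (Finset.mem_sigma.1 j.2).1 hij r s
  · intro i j hij hk
    have h1 : i.1.2 ∈ Bs i.1.1 := (Finset.mem_sigma.1 i.2).2
    have h2 : j.1.2 ∈ Bs i.1.1 := by
      rw [hc1, hc1] at hk
      rw [hk]
      exact (Finset.mem_sigma.1 j.2).2
    rw [hc3, hc2, hc3, hc2]
    rcases fan_sep ((hFan _).fan₁ _ h1 _ h2) ((hFan _).fan₂ _ h1 _ h2) ((hFan _).fan₁ _ h2 _ h1) ((hFan _).fan₂ _ h2 _ h1) with h3 | h3 | ⟨h3, h4⟩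
    · exact Or.inl h3
    · exact Or.inr h3
    · exfalso
      apply hij
      have e1 := basis_eq₁ (hB _ _ h1) (hB _ _ h2) h3
      have e2 := basis_eq₂ (hB _ _ h1) (hB _ _ h2) h4
      apply Subtype.ext
      rw [hc1, hc1] at hk
      exact Sigma.ext hk (heq_of_eq (Prod.ext e1 e2))
  · intro F U p hbc z hz
    obtain ⟨k, hk, b, hb, h1, h2, h3⟩ := cover W.web (BCrv.crv hbc).1 K hK Bs (fun k _ => hB k) (fun k _ A B hA hB' => hC k A B hA.le hB'.le) hz
    refine ⟨⟨⟨k, b⟩, Finset.mem_sigma.2 ⟨hk, hb⟩⟩, ?_, ?_, ?_⟩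
    · rw [MChart.Om, hc1, hc2, hc3]
      exact h1
    · simp only [MChart.lf, hc1, hc2, hc3]
      exact h2
    · simp only [MChart.lf, hc1, hc2, hc3]
      exact h3

end Pool.Agent.MQ3
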