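import Pool.Agent.MQ3.NDefs

/-!
# MQ3 ChgL: related vectors along a curve
-/

set_option autoImplicit false

open Topology Filter Metric

noncomputable section

namespace Pool.Agent.MQ3

open Pool.Agent.H36.BP (EN)

private theorem log_norm_c2 {f : ℂ → EN 2} {z : ℂ} (hf : AnalyticAt ℂ f z) (h0 : f z ≠ 0) : ContDiffAt ℝ 2 (fun w => Real.log ‖f w‖) z := by
  have h1 : ContDiffAt ℝ 2 f z := (hf.contDiffAt (n := 2)).restrict_scalars ℝ
  have h2 : ContDiffAt ℝ 2 (fun w => ‖f w‖) z := h1.norm ℂ h0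
  exact h2.log (norm_ne_zero_iff.2 h0)

private theorem an_apply {f : ℂ → EN 2 →L[ℂ] EN 2} {h : ℂ → EN 2} {z : ℂ} (hf : AnalyticAt ℂ f z) (hh : AnalyticAt ℂ h z) :
    AnalyticAt ℂ (fun w => f w (h w)) z := by
  rw [Complex.analyticAt_iff_eventually_differentiableAt] at hf hh ⊢
  filter_upwards [hf, hh] with w h1 h2
  exact h1.clm_apply h2

/-- related vectors along a curve: the difference of the logarithms is of class `C²`, and bounded by the norms of the matrices -/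
theorem vrel_log {H H' : ℂ × ℂ → ℂ × ℂ → EN 2} {Φ : ℂ × ℂ → ℂ × ℂ} {g g' : ℂ → ℂ × ℂ} {z : ℂ} (hV : VRel H H' Φ (g z)) (hg : AnalyticAt ℂ g z)
    (hΦ : AnalyticAt ℂ Φ (g z)) (hgg : ∀ᶠ w in 𝓝 z, g' w = Φ (g w)) (hH : AnalyticAt ℂ (fun w => H (g w) (deriv g w)) z)
    (hne : ∀ᶠ w in 𝓝[≠] z, H (g w) (deriv g w) ≠ 0) :
    ∃ ψ : ℂ → ℝ, ContDiffAt ℝ 2 ψ z ∧ ∀ᶠ w in 𝓝[≠] z, Real.log ‖H' (g' w) (deriv g' w)‖ - Real.log ‖H (g w) (deriv g w)‖ = ψ w := by
  obtain ⟨A, A', hA, hA', hrel⟩ := hV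
  have hgc : Tendsto g (𝓝 z) (𝓝 (g z)) := hg.continuousAt
  -- the two vectors along the curve
  have h1 : ∀ᶠ w in 𝓝 z, H' (g' w) (deriv g' w) = A (g w) (H (g w) (deriv g w)) ∧
      H (g w) (deriv g w) = A' (g w) (A (g w) (H (g w) (deriv g w))) := by
    filter_upwards [eventually_eventually_nhds.2 hgg, hg.eventually_analyticAt, hgc.eventually hΦ.eventually_analyticAt, hgc.eventually hrel]
      with w h2 h3 h4 h5
    have h6 : deriv g' w = fderiv ℂ Φ (g w) (deriv g w) := by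
      have h7 : g' =ᶠ[𝓝 w] fun x => Φ (g x) := h2
      rw [h7.deriv_eq]
      exact (h4.differentiableAt.hasFDerivAt.comp_hasDerivAt w h3.differentiableAt.hasDerivAt).deriv
    have h7 := h5 (deriv g w)
    rw [← h6, ← h2.self_of_nhds] at h7
    refine ⟨h7.1, ?_⟩
    rw [← h7.1]
    exact h7.2
  -- the order of vanishing
  have h2 : ¬∀ᶠ w in 𝓝 z, H (g w) (deriv g w) = 0 := fun h3 => by
    obtain ⟨w, h4, h5⟩ := ((h3.filter_mono nhdsWithin_le_nhds).and hne).exists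
    exact h5 h4
  obtain ⟨n, h, hha, hh0, hhe⟩ := (hH.exists_eventuallyEq_pow_smul_nonzero_iff).2 h2
  have hAg : AnalyticAt ℂ (fun w => A (g w)) z := hA.comp hg
  have hA'g : AnalyticAt ℂ (fun w => A' (g w)) z := hA'.comp hg
  have hAh : AnalyticAt ℂ (fun w => A (g w) (h w)) z := an_apply hAg hha
  have hA'h : AnalyticAt ℂ (fun w => A' (g w) (A (g w) (h w))) z := an_apply hA'g hAh
  have hinv : A' (g z) (A (g z) (h z)) = h z := by
    have h3 : ∀ᶠ w in 𝓝[≠] z, A' (g w) (A (g w) (h w)) = h w := by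
      filter_upwards [h1.filter_mono nhdsWithin_le_nhds, hhe.filter_mono nhdsWithin_le_nhds, self_mem_nhdsWithin] with w h4 h5 h6
      have h7 := h4.2
      rw [h5] at h7
      simp only [map_smul] at h7
      exact (smul_right_injective _ (pow_ne_zero n (sub_ne_zero.2 h6)) h7).symm
    have h4 : Tendsto (fun w => A' (g w) (A (g w) (h w))) (𝓝[≠] z) (𝓝 (A' (g z) (A (g z) (h z)))) :=
      hA'h.continuousAt.tendsto.mono_left nhdsWithin_le_nhds
    have h5 : Tendsto h (𝓝[≠] z) (𝓝 (h z)) := hha.continuousAt.tendsto.mono_left nhdsWithin_le_nhds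
    exact tendsto_nhds_unique h4 (h5.congr' (h3.mono fun w hw => hw.symm))
  have hAh0 : A (g z) (h z) ≠ 0 := fun h3 => hh0 (by rw [← hinv, h3, map_zero])
  refine ⟨fun w => Real.log ‖A (g w) (h w)‖ - Real.log ‖h w‖, (log_norm_c2 hAh hAh0).sub (log_norm_c2 hha hh0), ?_⟩
  filter_upwards [h1.filter_mono nhdsWithin_le_nhds, hhe.filter_mono nhdsWithin_le_nhds, self_mem_nhdsWithin,
    (hAh.continuousAt.eventually_ne hAh0).filter_mono nhdsWithin_le_nhds, (hha.continuousAt.eventually_ne hh0).filter_mono nhdsWithin_le_nhds]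
    with w h4 h5 h6 h7 h8
  have h9 : ‖(w - z) ^ n‖ ≠ 0 := norm_ne_zero_iff.2 (pow_ne_zero n (sub_ne_zero.2 h6))
  rw [h4.1, h5, map_smul, norm_smul, norm_smul, Real.log_mul h9 (norm_ne_zero_iff.2 h7), Real.log_mul h9 (norm_ne_zero_iff.2 h8)]
  ring

end Pool.Agent.MQ3
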