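import Mathlib

/-!
MQ, stage 3: the ideal of a saturated 1-form with monomial Jacobian has finite colength
(note 4592 (5)).  Pure commutative algebra, any commutative ring.
-/

namespace Pool.Agent.MQ3

/-- `s ^ a * t ^ b * m ^ N ≤ I`, `m = (s, t)`, and `I` contains a power of `t` modulo `s` and a
power of `s` modulo `t`; then `I` contains a power of `m`. -/
theorem exists_pow_le_of_monomial {R : Type*} [CommRing R] {s t : R} {I : Ideal R}
    {a b N k l : ℕ}
    (h : ∀ c ∈ (Ideal.span {s, t} : Ideal R) ^ N, s ^ a * t ^ b * c ∈ I)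
    (ht : t ^ k ∈ I ⊔ Ideal.span {s}) (hs : s ^ l ∈ I ⊔ Ideal.span {t}) :
    ∃ M : ℕ, (Ideal.span {s, t} : Ideal R) ^ M ≤ I := by
  have key : ∀ P : Ideal R, P.IsPrime → I ≤ P → s ∈ P ∧ t ∈ P := by
    intro P hP hI
    have h1 : s ∈ P → t ∈ P := by
      intro hsP
      have : t ^ k ∈ P := (sup_le hI ((Ideal.span_singleton_le_iff_mem P).2 hsP)) ht
      exact hP.mem_of_pow_mem _ this
    have h2 : t ∈ P → s ∈ P := by
      intro htP
      have : s ^ l ∈ P := (sup_le hI ((Ideal.span_singleton_le_iff_mem P).2 htP)) hs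
      exact hP.mem_of_pow_mem _ this
    by_cases hsP : s ∈ P
    · exact ⟨hsP, h1 hsP⟩
    by_cases htP : t ∈ P
    · exact ⟨h2 htP, htP⟩
    exfalso
    have hsN : s ^ N ∈ (Ideal.span {s, t} : Ideal R) ^ N :=
      Ideal.pow_mem_pow (Ideal.subset_span (by simp)) N
    have := hI (h _ hsN)
    rcases hP.mem_or_mem this with h3 | h3
    · rcases hP.mem_or_mem h3 with h4 | h4
      · exact hsP (hP.mem_of_pow_mem _ h4)
      · exact htP (hP.mem_of_pow_mem _ h4)
    · exact hsP (hP.mem_of_pow_mem _ h3)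
  have hrs : s ∈ I.radical := by
    rw [Ideal.radical_eq_sInf, Ideal.mem_sInf]
    intro P hP
    exact (key P hP.2 hP.1).1
  have hrt : t ∈ I.radical := by
    rw [Ideal.radical_eq_sInf, Ideal.mem_sInf]
    intro P hP
    exact (key P hP.2 hP.1).2
  have hle : (Ideal.span {s, t} : Ideal R) ≤ I.radical := by
    rw [Ideal.span_le]
    rintro x (rfl | rfl)
    · exact hrs
    · exact hrt
  exact Ideal.exists_pow_le_of_le_radical_of_fg hle
    (Submodule.fg_span (Set.toFinite _))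

/-- Cramer: `p = A * y₁ - B * x₁`, `q = A * y₂ - B * x₂`; then `A * J` and `B * J` are in `(p, q)`,
`J = x₁ * y₂ - x₂ * y₁`. -/
theorem cramer_mem {R : Type*} [CommRing R] {A B x₁ x₂ y₁ y₂ p q : R}
    (hp : p = A * y₁ - B * x₁) (hq : q = A * y₂ - B * x₂) :
    (x₁ * y₂ - x₂ * y₁) * A ∈ Ideal.span {p, q} ∧
      (x₁ * y₂ - x₂ * y₁) * B ∈ Ideal.span {p, q} := by
  rw [Ideal.mem_span_pair, Ideal.mem_span_pair]
  subst hp hq
  exact ⟨⟨-x₂, x₁, by ring⟩, ⟨-y₂, y₁, by ring⟩⟩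

/-- The saturated form: `A, B` with `m ^ N ≤ (A, B)`, `g * p' = A * y₁ - B * x₁`,
`g * q' = A * y₂ - B * x₂`, Jacobian `= s ^ a * t ^ b * u` with a unit `u`, and `p', q'` do not
both vanish on an axis (`t ^ k ∈ (p', q', s)`, `s ^ l ∈ (p', q', t)`); then
`m ^ M ≤ (p', q')`. -/
theorem exists_pow_le_saturated {R : Type*} [CommRing R] {s t A B x₁ x₂ y₁ y₂ g p' q' u : R}
    {a b N k l : ℕ} (hAB : (Ideal.span {s, t} : Ideal R) ^ N ≤ Ideal.span {A, B})
    (hu : IsUnit u) (hJ : x₁ * y₂ - x₂ * y₁ = s ^ a * t ^ b * u)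
    (hp : g * p' = A * y₁ - B * x₁) (hq : g * q' = A * y₂ - B * x₂)
    (ht : t ^ k ∈ Ideal.span {p', q'} ⊔ Ideal.span {s})
    (hs : s ^ l ∈ Ideal.span {p', q'} ⊔ Ideal.span {t}) :
    ∃ M : ℕ, (Ideal.span {s, t} : Ideal R) ^ M ≤ Ideal.span {p', q'} := by
  refine exists_pow_le_of_monomial (a := a) (b := b) (N := N) (k := k) (l := l) ?_ ht hs
  intro c hc
  obtain ⟨v, hv⟩ := hu.exists_right_inv
  have hc' := hAB hc
  rw [Ideal.mem_span_pair] at hc'
  obtain ⟨α, β, hαβ⟩ := hc'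
  have h1 := cramer_mem hp hq
  have hsub : Ideal.span {g * p', g * q'} ≤ Ideal.span {p', q'} := by
    rw [Ideal.span_le]
    rintro x (rfl | rfl)
    · exact Ideal.mul_mem_left _ _ (Ideal.subset_span (by simp))
    · exact Ideal.mul_mem_left _ _ (Ideal.subset_span (by simp))
  have h2 : (x₁ * y₂ - x₂ * y₁) * c ∈ Ideal.span {p', q'} := by
    have : (x₁ * y₂ - x₂ * y₁) * c
        = α * ((x₁ * y₂ - x₂ * y₁) * A) + β * ((x₁ * y₂ - x₂ * y₁) * B) := by
      rw [← hαβ]; ring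
    rw [this]
    exact Ideal.add_mem _ (Ideal.mul_mem_left _ _ (hsub h1.1))
      (Ideal.mul_mem_left _ _ (hsub h1.2))
  have h3 : s ^ a * t ^ b * c = v * ((x₁ * y₂ - x₂ * y₁) * c) := by
    rw [hJ]
    linear_combination (-(s ^ a * t ^ b * c)) * hv
  rw [h3]
  exact Ideal.mul_mem_left _ _ h2

end Pool.Agent.MQ3
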