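import Pool.Agent.MQ3.NDefs

/-!
# MQ3 FibN: the chart map is locally invertible off the axes
-/

set_option autoImplicit false

open Topology Filter Metric MvPolynomial

noncomputable section

namespace Pool.Agent.MQ3

open Pool.Agent.H36.BP (EN)
open Pool.Agent.H17EF (coneE)

/-- a map with nonzero Jacobian has a local inverse -/
theorem loc_inv {κ : ℂ × ℂ → ℂ × ℂ} {q : ℂ × ℂ} (hκ : AnalyticAt ℂ κ q)
    (h : (fderiv ℂ κ q (1, 0)).1 * (fderiv ℂ κ q (0, 1)).2 - (fderiv ℂ κ q (1, 0)).2 * (fderiv ℂ κ q (0, 1)).1 ≠ 0) :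
    ∃ ψ : ℂ × ℂ → ℂ × ℂ, AnalyticAt ℂ ψ (κ q) ∧ ψ (κ q) = q ∧ (∀ᶠ p in 𝓝 (κ q), κ (ψ p) = p) ∧ ∀ᶠ x in 𝓝 q, ψ (κ x) = x := by
  have hinj : Function.Injective (fderiv ℂ κ q : (ℂ × ℂ) →ₗ[ℂ] (ℂ × ℂ)) := by
    rw [← LinearMap.ker_eq_bot, LinearMap.ker_eq_bot']
    intro v hv
    have e : v = v.1 • ((1 : ℂ), (0 : ℂ)) + v.2 • ((0 : ℂ), (1 : ℂ)) := by
      refine Prod.ext ?_ ?_ <;> simp
    have h1 : v.1 • fderiv ℂ κ q (1, 0) + v.2 • fderiv ℂ κ q (0, 1) = 0 := by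
      rw [← map_smul, ← map_smul, ← map_add, ← e]
      exact hv
    have h2 : v.1 * (fderiv ℂ κ q (1, 0)).1 + v.2 * (fderiv ℂ κ q (0, 1)).1 = 0 := congrArg Prod.fst h1
    have h3 : v.1 * (fderiv ℂ κ q (1, 0)).2 + v.2 * (fderiv ℂ κ q (0, 1)).2 = 0 := congrArg Prod.snd h1
    refine Prod.ext ?_ ?_
    · exact (mul_eq_zero.1 (show v.1 * ((fderiv ℂ κ q (1, 0)).1 * (fderiv ℂ κ q (0, 1)).2 -
        (fderiv ℂ κ q (1, 0)).2 * (fderiv ℂ κ q (0, 1)).1) = 0 by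
          linear_combination (fderiv ℂ κ q (0, 1)).2 * h2 - (fderiv ℂ κ q (0, 1)).1 * h3)).resolve_right h
    · exact (mul_eq_zero.1 (show v.2 * ((fderiv ℂ κ q (1, 0)).1 * (fderiv ℂ κ q (0, 1)).2 -
        (fderiv ℂ κ q (1, 0)).2 * (fderiv ℂ κ q (0, 1)).1) = 0 by
          linear_combination (fderiv ℂ κ q (1, 0)).1 * h3 - (fderiv ℂ κ q (1, 0)).2 * h2)).resolve_right h
  obtain ⟨i, hi⟩ : ∃ i : (ℂ × ℂ) ≃L[ℂ] (ℂ × ℂ), (i : (ℂ × ℂ) →L[ℂ] (ℂ × ℂ)) = fderiv ℂ κ q :=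
    ⟨(LinearEquiv.ofInjectiveEndo (fderiv ℂ κ q : (ℂ × ℂ) →ₗ[ℂ] (ℂ × ℂ)) hinj).toContinuousLinearEquiv, by
      apply ContinuousLinearMap.ext
      intro x
      rfl⟩
  have hd : HasFDerivAt κ (i : (ℂ × ℂ) →L[ℂ] (ℂ × ℂ)) q := by
    rw [hi]
    exact hκ.differentiableAt.hasFDerivAt
  have hs : HasStrictFDerivAt κ (i : (ℂ × ℂ) →L[ℂ] (ℂ × ℂ)) q := hκ.hasStrictFDerivAt.congr_fderiv hd.fderiv
  have hsrc := hs.mem_toOpenPartialHomeomorph_source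
  have hco := hs.toOpenPartialHomeomorph_coe
  refine ⟨(hs.toOpenPartialHomeomorph κ).symm, ?_, ?_, ?_, ?_⟩
  · have h1 : AnalyticAt ℂ (hs.toOpenPartialHomeomorph κ).symm (hs.toOpenPartialHomeomorph κ q) := by
      refine OpenPartialHomeomorph.analyticAt_symm' (i := i) _ hsrc ?_ ?_
      · rw [hco]
        exact hκ
      · rw [hco]
        exact hd.fderiv
    rwa [hco] at h1
  · have h1 := (hs.toOpenPartialHomeomorph κ).left_inv hsrc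
    rwa [hco] at h1
  · have h1 := (hs.toOpenPartialHomeomorph κ).eventually_right_inverse ((hs.toOpenPartialHomeomorph κ).map_source hsrc)
    rwa [hco] at h1
  · have h1 := (hs.toOpenPartialHomeomorph κ).eventually_left_inverse hsrc
    rwa [hco] at h1

variable {M : ℕ} {P : Ideal (MvPolynomial (Fin (M + 1)) ℂ)} {RD : MvPolynomial (Fin (M + 1)) ℂ} {m : ℕ} {X : NCModel P RD} {θ : WDiff (coneE P) m}
  {l : LF M} {S : Web X θ l}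

/-- off the axes the chart map is locally invertible -/
theorem fib_iso {k : S.ι} {q : ℂ × ℂ} (_hq : q ∈ S.D k) (h0 : q.1 * q.2 ≠ 0) : ∃ ψ : ℂ × ℂ → ℂ × ℂ, AnalyticAt ℂ ψ (S.κ k q) ∧ ψ (S.κ k q) = q ∧
    (∀ᶠ p in 𝓝 (S.κ k q), S.κ k (ψ p) = p) ∧ ∀ᶠ x in 𝓝 q, ψ (S.κ k x) = x :=
  loc_inv (κ := S.κ k) (analyticAt_mono q) (jac_mono_ne (S.c k).pos.ne' h0)

end Pool.Agent.MQ3
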