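import Pool.Agent.MQ3.NDefs

/-!
# MQ3 LocU: a reduced equation of the curve `{Ra = 0}` in a box, from a regular chart point of the second type

`u = G ∘ ψ`, `ψ` a local inverse of the map of the chart to its box.
-/

set_option autoImplicit false

open Topology Filter Metric MvPolynomial

noncomputable section

namespace Pool.Agent.MQ3

open Pool.Agent.H36.BP (EN fs)
open Pool.Agent.H17EF (projVar coneE)

variable {M : ℕ} {P : Ideal (MvPolynomial (Fin (M + 1)) ℂ)} {RD : MvPolynomial (Fin (M + 1)) ℂ} {m : ℕ} {X : NCModel P RD} {θ : WDiff (coneE P) m}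
  {l : LF M} {S : Web X θ l} {Ra : MvPolynomial (Fin (M + 1)) ℂ}

theorem locU_of {κ ψ : ℂ × ℂ → ℂ × ℂ} {G e : ℂ × ℂ → ℂ} {q : ℂ × ℂ} (hψ : AnalyticAt ℂ ψ (κ q)) (hψq : ψ (κ q) = q) (h1 : ∀ᶠ p in 𝓝 (κ q), κ (ψ p) = p)
    (h2 : ∀ᶠ x in 𝓝 q, ψ (κ x) = x) (hκ : AnalyticAt ℂ κ q) (hG : AnalyticAt ℂ G q) (hG' : fderiv ℂ G q ≠ 0) (he : ∀ᶠ x in 𝓝 q, e (κ x) = 0 ↔ G x = 0) :
    ∃ u : ℂ × ℂ → ℂ, AnalyticAt ℂ u (κ q) ∧ ∀ᶠ p in 𝓝 (κ q), (e p = 0 ↔ u p = 0) ∧ (u p = 0 → fderiv ℂ u p ≠ 0) := by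
  have hψt : Tendsto ψ (𝓝 (κ q)) (𝓝 q) := by
    have h3 := hψ.continuousAt.tendsto
    rwa [hψq] at h3
  have hGa : AnalyticAt ℂ G (ψ (κ q)) := by rwa [hψq]
  refine ⟨fun p => G (ψ p), AnalyticAt.comp (g := G) (f := ψ) hGa hψ, ?_⟩
  have hGn : ∀ᶠ x in 𝓝 q, fderiv ℂ G x ≠ 0 := hG.fderiv.continuousAt.eventually_ne hG'
  filter_upwards [h1, hψt.eventually he, hψt.eventually hGn, hψt.eventually h2.eventually_nhds, hψ.eventually_analyticAt, hψt.eventually hκ.eventually_analyticAt,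
    hψt.eventually hG.eventually_analyticAt] with p hp hp1 hp2 hp3 hp4 hp5 hp6
  rw [hp] at hp1
  refine ⟨hp1, fun _ h0 => hp2 ?_⟩
  have h3 : fderiv ℂ (fun p => G (ψ p)) p = (fderiv ℂ G (ψ p)).comp (fderiv ℂ ψ p) := fderiv_comp p hp6.differentiableAt hp4.differentiableAt
  have h4 : (fderiv ℂ ψ p).comp (fderiv ℂ κ (ψ p)) = ContinuousLinearMap.id ℂ (ℂ × ℂ) := by
    have h5 : HasFDerivAt (fun x => ψ (κ x)) ((fderiv ℂ ψ p).comp (fderiv ℂ κ (ψ p))) (ψ p) := by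
      have h6 : HasFDerivAt ψ (fderiv ℂ ψ p) (κ (ψ p)) := by
        rw [hp]
        exact hp4.differentiableAt.hasFDerivAt
      exact HasFDerivAt.comp (g := ψ) (f := κ) (ψ p) h6 hp5.differentiableAt.hasFDerivAt
    exact h5.unique ((hasFDerivAt_id (ψ p)).congr_of_eventuallyEq hp3)
  have h5 : ((fderiv ℂ G (ψ p)).comp (fderiv ℂ ψ p)).comp (fderiv ℂ κ (ψ p)) = fderiv ℂ G (ψ p) := by
    rw [ContinuousLinearMap.comp_assoc, h4, ContinuousLinearMap.comp_id]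
  rw [← h3, h0, ContinuousLinearMap.zero_comp] at h5
  exact h5.symm

/-- the map of a chart to its box is analytic -/
theorem κ_analyticAt (k : S.ι) (q : ℂ × ℂ) : AnalyticAt ℂ (S.κ k) q := by
  show AnalyticAt ℂ (mono (S.c k).w (S.c k).w') q
  exact ((analyticAt_fst.pow _).mul (analyticAt_snd.pow _)).prod ((analyticAt_fst.pow _).mul (analyticAt_snd.pow _))

/-- **LocU**, from the local inverse of `fib_iso`: `locU_of_fib h (fib_iso h.mem h.ne)`. -/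
theorem locU_of_fib {k : S.ι} {q : ℂ × ℂ} (h : RegB S Ra k q)
    (hfib : ∃ ψ : ℂ × ℂ → ℂ × ℂ, AnalyticAt ℂ ψ (S.κ k q) ∧ ψ (S.κ k q) = q ∧ (∀ᶠ p in 𝓝 (S.κ k q), S.κ k (ψ p) = p) ∧ ∀ᶠ x in 𝓝 q, ψ (S.κ k x) = x) :
    ∃ u : ℂ × ℂ → ℂ, AnalyticAt ℂ u (S.κ k q) ∧ ∀ᶠ p in 𝓝 (S.κ k q), (eval (X.ρ k.1 p).ofLp Ra = 0 ↔ u p = 0) ∧ (u p = 0 → fderiv ℂ u p ≠ 0) := by
  obtain ⟨ψ, h1, h2, h3, h4⟩ := hfib
  obtain ⟨G, h5, -, h6, h7, -⟩ := h.crv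
  exact locU_of (e := fun p => eval (X.ρ k.1 p).ofLp Ra) h1 h2 h3 h4 (κ_analyticAt k q) h5 h6 h7

end Pool.Agent.MQ3
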