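import Pool.Agent.MQ3.RegOff

/-!
# MQ3 RegO: the regular chart points form an open set
-/

set_option autoImplicit false

open Topology Filter Metric MvPolynomial

noncomputable section

namespace Pool.Agent.MQ3

open Pool.Agent.H36.BP (EN)
open Pool.Agent.H17BP (Surface)
open Pool.Agent.H17EF (projVar coneE)

variable {M : ℕ} {P : Ideal (MvPolynomial (Fin (M + 1)) ℂ)} {RD : MvPolynomial (Fin (M + 1)) ℂ} {m : ℕ} {X : NCModel P RD} {θ : WDiff (coneE P) m}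
  {l : LF M} {S : Web X θ l} {Ra : MvPolynomial (Fin (M + 1)) ℂ}

theorem web_v_cont {k : S.ι} {q : ℂ × ℂ} (hq : q ∈ S.D k) : ContinuousAt (S.v k) q := ((S.c k).v_an q hq.1).continuousAt

theorem regA_open {k : S.ι} {q : ℂ × ℂ} (h : RegA S Ra k q) : ∀ᶠ x in 𝓝 q, RegA S Ra k x := by
  have hv : ContinuousAt (S.v k) q := web_v_cont h.mem
  have h1 : ∀ᶠ x in 𝓝 q, x ∈ S.D k := (web_D_open k).eventually_mem h.mem
  have h2 : ∀ᶠ x in 𝓝 q, S.v k x ≠ 0 := hv.eventually_ne h.v_ne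
  have h3 : ∀ᶠ x in 𝓝 q, x ≠ 0 := continuousAt_id.eventually_ne h.ne
  have h4 : ∀ᶠ x in 𝓝 q, x.1 = 0 → (S.v k x).1 ≠ 0 ∨ ∀ᶠ y in 𝓝 x, y.1 = 0 → (S.v k y).1 = 0 := by
    by_cases hq : q.1 = 0
    · rcases h.ax₁ hq with g | g
      · filter_upwards [hv.fst.eventually_ne g] with x hx _ using Or.inl hx
      · filter_upwards [eventually_eventually_nhds.2 g] with x hx _ using Or.inr hx
    · filter_upwards [continuousAt_fst.eventually_ne hq] with x hx hx' using absurd hx' hx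
  have h5 : ∀ᶠ x in 𝓝 q, x.2 = 0 → (S.v k x).2 ≠ 0 ∨ ∀ᶠ y in 𝓝 x, y.2 = 0 → (S.v k y).2 = 0 := by
    by_cases hq : q.2 = 0
    · rcases h.ax₂ hq with g | g
      · filter_upwards [hv.snd.eventually_ne g] with x hx _ using Or.inl hx
      · filter_upwards [eventually_eventually_nhds.2 g] with x hx _ using Or.inr hx
    · filter_upwards [continuousAt_snd.eventually_ne hq] with x hx hx' using absurd hx' hx
  filter_upwards [h1, h2, h3, h4, h5, eventually_eventually_nhds.2 h.alg] with x a1 a2 a3 a4 a5 a6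
  exact ⟨a1, a2, a3, a4, a5, a6⟩

theorem reg_open {k : S.ι} {q : ℂ × ℂ} (h : Reg S Ra k q) : ∀ᶠ x in 𝓝 q, Reg S Ra k x := by
  rcases h with h | h
  · filter_upwards [regA_open h] with x hx using Or.inl hx
  obtain ⟨G, hG, hG0, hG1, hG2, hG3⟩ := h.crv
  have hv : ContinuousAt (S.v k) q := web_v_cont h.mem
  have hdG : ContinuousAt (fderiv ℂ G) q := hG.fderiv.continuousAt
  have h1 : ∀ᶠ x in 𝓝 q, x ∈ S.D k := (web_D_open k).eventually_mem h.mem
  have h2 : ∀ᶠ x in 𝓝 q, S.v k x ≠ 0 := hv.eventually_ne h.v_ne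
  have hmul : ContinuousAt (fun x : ℂ × ℂ => x.1 * x.2) q := by fun_prop
  have h3 : ∀ᶠ x in 𝓝 q, x.1 * x.2 ≠ 0 := hmul.eventually_ne h.ne
  have h4 : ∀ᶠ x in 𝓝 q, fderiv ℂ G x ≠ 0 := hdG.eventually_ne hG1
  have h5 : ∀ᶠ x in 𝓝 q, (fderiv ℂ G x (S.v k x) ≠ 0 ∨ ∀ᶠ y in 𝓝 x, G y = 0 → fderiv ℂ G y (S.v k y) = 0) := by
    rcases hG3 with g | g
    · filter_upwards [(hdG.clm_apply hv).eventually_ne g] with x hx using Or.inl hx
    · filter_upwards [eventually_eventually_nhds.2 g] with x hx using Or.inr hx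
  filter_upwards [h1, h2, h3, h4, h5, hG.eventually_analyticAt, eventually_eventually_nhds.2 hG2] with x a1 a2 a3 a4 a5 a6 a7
  have b1 : x.1 ≠ 0 := left_ne_zero_of_mul a3
  have b2 : x.2 ≠ 0 := right_ne_zero_of_mul a3
  by_cases hx : G x = 0
  · exact Or.inr ⟨a1, a2, a3, G, a6, hx, a4, a7, a5⟩
  · refine Or.inl ⟨a1, a2, fun e => b1 (by rw [e]; rfl), fun e => absurd e b1, fun e => absurd e b2, ?_⟩
    filter_upwards [a7, a6.continuousAt.eventually_ne hx] with y c1 c2 _ c3 using c2 (c1.1 c3)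

theorem regA_of {k : S.ι} {q : ℂ × ℂ} (h : Reg S Ra k q) (h0 : q.1 * q.2 = 0 ∨ eval (S.σ k q).ofLp Ra ≠ 0) : RegA S Ra k q := by
  rcases h with h | h
  · exact h
  obtain ⟨G, hG, hG0, hG1, hG2, hG3⟩ := h.crv
  rcases h0 with h0 | h0
  · exact absurd h0 h.ne
  · exact absurd (hG2.self_of_nhds.2 hG0) h0

end Pool.Agent.MQ3
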