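import Pool.Agent.MQ3.InvP
import Pool.Agent.H22.HF.Div

/-!
# MQ3 RegL: the local form of the regular chart points

`q` is a point of the plane, `v` a vector field with at most an isolated zero at `q`, `f` a function, not identically zero near `q`.  The points `x ≠ q` near `q`
are regular: off the axes for `v` and `{f = 0}` (`RegPt`), on the axes: transversal to the axis or the axis is invariant, and the zeros of `f` near `x` are in
the axes.
-/

set_option autoImplicit false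

open Topology Filter

noncomputable section

namespace Pool.Agent.MQ3

/-- the local form of `RegA` -/
def LA (v : ℂ × ℂ → ℂ × ℂ) (f : ℂ × ℂ → ℂ) (x : ℂ × ℂ) : Prop :=
  v x ≠ 0 ∧ x ≠ 0 ∧ (x.1 = 0 → (v x).1 ≠ 0 ∨ ∀ᶠ y in 𝓝 x, y.1 = 0 → (v y).1 = 0) ∧ (x.2 = 0 → (v x).2 ≠ 0 ∨ ∀ᶠ y in 𝓝 x, y.2 = 0 → (v y).2 = 0) ∧
    ∀ᶠ y in 𝓝 x, y.1 * y.2 ≠ 0 → f y ≠ 0

/-- the local form of `RegB` -/
def LB (v : ℂ × ℂ → ℂ × ℂ) (f : ℂ × ℂ → ℂ) (x : ℂ × ℂ) : Prop :=
  v x ≠ 0 ∧ x.1 * x.2 ≠ 0 ∧ ∃ G : ℂ × ℂ → ℂ, AnalyticAt ℂ G x ∧ G x = 0 ∧ fderiv ℂ G x ≠ 0 ∧ (∀ᶠ w in 𝓝 x, (f w = 0 ↔ G w = 0)) ∧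
    (fderiv ℂ G x (v x) ≠ 0 ∨ ∀ᶠ w in 𝓝 x, G w = 0 → fderiv ℂ G w (v w) = 0)

private theorem RegL_shift (q : ℂ × ℂ) : Tendsto (fun x : ℂ × ℂ => x - q) (𝓝 q) (𝓝 0) := by
  have : Continuous fun w : ℂ × ℂ => w - q := by fun_prop
  simpa using this.tendsto q

private theorem RegL_shift' (q x : ℂ × ℂ) : Tendsto (fun y : ℂ × ℂ => y - q) (𝓝 x) (𝓝 (x - q)) := by
  have : Continuous fun w : ℂ × ℂ => w - q := by fun_prop
  exact this.tendsto x

private theorem RegL_an {E : Type*} [NormedAddCommGroup E] [NormedSpace ℂ E] {f : ℂ × ℂ → E} {q : ℂ × ℂ} (hf : AnalyticAt ℂ f q) :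
    AnalyticAt ℂ (fun x => f (q + x)) 0 :=
  AnalyticAt.fun_comp (g := f) (f := fun x : ℂ × ℂ => q + x) (by rwa [add_zero]) (analyticAt_const.add analyticAt_id)

/-- `regPt_off` at any point -/
theorem regPt_off' {v : ℂ × ℂ → ℂ × ℂ} {f : ℂ × ℂ → ℂ} {q : ℂ × ℂ} (hv : AnalyticAt ℂ v q) (hv0 : ∀ᶠ x in 𝓝 q, x ≠ q → v x ≠ 0) (hf : AnalyticAt ℂ f q)
    (hf0 : ∃ᶠ x in 𝓝 q, f x ≠ 0) : ∀ᶠ x in 𝓝 q, x ≠ q → RegPt v f x := by
  have hq : Tendsto (fun x : ℂ × ℂ => q + x) (𝓝 0) (𝓝 q) := by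
    have : Continuous fun x : ℂ × ℂ => q + x := by fun_prop
    simpa using this.tendsto 0
  have h1 := regPt_off (v := fun x => v (q + x)) (f := fun x => f (q + x)) (RegL_an hv) (by
    filter_upwards [hq.eventually hv0] with x hx hx0
    exact hx (by simpa using hx0)) (RegL_an hf) (by
    intro hcon
    apply hf0
    filter_upwards [(RegL_shift q).eventually hcon] with x hx
    simpa using hx)
  filter_upwards [(RegL_shift q).eventually h1] with x hx hxq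
  obtain ⟨r1, r2⟩ := hx (sub_ne_zero.2 hxq)
  simp only [add_sub_cancel] at r1 r2
  refine ⟨r1, r2.imp_right ?_⟩
  rintro ⟨G, g1, g2, g3, g4, g5⟩
  have hsa : AnalyticAt ℂ (fun y : ℂ × ℂ => y - q) x := analyticAt_id.sub analyticAt_const
  have hfd : ∀ y : ℂ × ℂ, fderiv ℂ (fun y : ℂ × ℂ => G (y - q)) y = fderiv ℂ G (y - q) := fun y => by
    have := fderiv_comp_add_right (𝕜 := ℂ) (f := G) (x := y) (-q)
    simpa [sub_eq_add_neg] using this
  have hqx : Tendsto (fun w : ℂ × ℂ => q + w) (𝓝 (x - q)) (𝓝 x) := by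
    have h : Continuous fun w : ℂ × ℂ => q + w := by fun_prop
    have h2 := h.tendsto (x - q)
    simpa using h2
  refine ⟨fun y => G (y - q), AnalyticAt.fun_comp (g := G) g1 hsa, g2, by rwa [hfd], ?_, ?_⟩
  · filter_upwards [(RegL_shift' q x).eventually g4] with y hy
    simpa using hy
  · rcases g5 with g5 | g5
    · left
      rwa [hfd]
    · right
      filter_upwards [(RegL_shift' q x).eventually g5] with y hy
      simpa [hfd] using hy

/-- on the first axis -/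
private theorem RegL_ax {v : ℂ × ℂ → ℂ × ℂ} {f : ℂ × ℂ → ℂ} {q : ℂ × ℂ} (hv : AnalyticAt ℂ v q) (hf : AnalyticAt ℂ f q)
    (hf0 : ∃ᶠ x in 𝓝 q, f x ≠ 0) (hq : q.1 = 0) : ∀ᶠ x in 𝓝 q, x ≠ q → x.1 = 0 →
      ((v x).1 ≠ 0 ∨ ∀ᶠ y in 𝓝 x, y.1 = 0 → (v y).1 = 0) ∧ ∀ᶠ y in 𝓝 x, y.1 ≠ 0 → f y ≠ 0 := by
  have hqe : q = (0, q.2) := Prod.ext hq rfl
  -- the restriction of a function to the axis
  have hres : ∀ {g : ℂ × ℂ → ℂ}, AnalyticAt ℂ g q → AnalyticAt ℂ (fun y : ℂ => g (0, y)) q.2 := by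
    intro g hg
    exact AnalyticAt.fun_comp (g := g) (f := fun y : ℂ => ((0, y) : ℂ × ℂ)) (by rwa [← hqe]) (analyticAt_const.prod analyticAt_id)
  have ht2 : Tendsto (fun x : ℂ × ℂ => x.2) (𝓝 q) (𝓝 q.2) := continuous_snd.tendsto q
  have hne2 : ∀ {x : ℂ × ℂ}, x ≠ q → x.1 = 0 → x.2 ≠ q.2 := fun h1 h2 h3 => h1 (Prod.ext (h2.trans hq.symm) h3)
  have hx : ∀ {x : ℂ × ℂ}, x.1 = 0 → x = (0, x.2) := fun h => Prod.ext h rfl
  -- the vector field
  have hA : ∀ᶠ x in 𝓝 q, x ≠ q → x.1 = 0 → ((v x).1 ≠ 0 ∨ ∀ᶠ y in 𝓝 x, y.1 = 0 → (v y).1 = 0) := by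
    have h1 := hres (g := fun x => (v x).1) (analyticAt_fst.comp hv)
    rcases h1.eventually_eq_zero_or_eventually_ne_zero with h2 | h2
    · have h3 : ∀ᶠ x in 𝓝 q, ∀ᶠ y in 𝓝 x, (v (0, y.2)).1 = 0 := eventually_eventually_nhds.2 (ht2.eventually h2)
      filter_upwards [h3] with x hx1 _ _
      right
      filter_upwards [hx1] with y hy hy0
      rwa [← hx hy0] at hy
    · rw [eventually_nhdsWithin_iff] at h2
      filter_upwards [ht2.eventually h2] with x hx1 hx2 hx3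
      left
      have := hx1 (hne2 hx2 hx3)
      rwa [← hx hx3] at this
  -- the function
  have hB : ∀ᶠ x in 𝓝 q, x ≠ q → x.1 = 0 → ∀ᶠ y in 𝓝 x, y.1 ≠ 0 → f y ≠ 0 := by
    obtain ⟨a, g, hg, hfg, hg0⟩ := Pool.Agent.H22.HF.exists_div (g := fun x : ℂ × ℂ => f (q + x)) (RegL_an hf) (by
      intro hcon
      apply hf0
      filter_upwards [(RegL_shift q).eventually hcon] with x hx
      simpa using hx)
    have hg1 : AnalyticAt ℂ (fun y : ℂ => g (0, y)) 0 :=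
      AnalyticAt.fun_comp (g := g) (f := fun y : ℂ => ((0, y) : ℂ × ℂ)) hg (analyticAt_const.prod analyticAt_id)
    have h2 := hg1.eventually_eq_zero_or_eventually_ne_zero.resolve_left hg0
    rw [eventually_nhdsWithin_iff] at h2
    have ht3 : Tendsto (fun x : ℂ × ℂ => x.2 - q.2) (𝓝 q) (𝓝 0) := by
      have := ht2.sub_const q.2
      rwa [sub_self] at this
    have hfg' := (RegL_shift q).eventually hfg
    filter_upwards [ht3.eventually h2, eventually_eventually_nhds.2 hfg', (RegL_shift q).eventually hg.eventually_analyticAt] with x x1 x2 x3 x4 x5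
    have h6 : g (x - q) ≠ 0 := by
      have h7 := x1 (sub_ne_zero.2 (hne2 x4 x5))
      have h8 : x - q = (0, x.2 - q.2) := by
        ext
        · show x.1 - q.1 = 0
          rw [x5, hq, sub_zero]
        · rfl
      rwa [h8]
    have h7 : ∀ᶠ y in 𝓝 x, g (y - q) ≠ 0 := (RegL_shift' q x).eventually (x3.continuousAt.eventually_ne h6)
    filter_upwards [x2, h7] with y y1 y2 y3
    simp only [add_sub_cancel] at y1
    rw [y1]
    refine mul_ne_zero (pow_ne_zero _ ?_) y2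
    show y.1 - q.1 ≠ 0
    rwa [hq, sub_zero]
  filter_upwards [hA, hB] with x x1 x2 x3 x4
  exact ⟨x1 x3 x4, x2 x3 x4⟩

private theorem RegL_swap_tendsto (x : ℂ × ℂ) : Tendsto (fun y : ℂ × ℂ => y.swap) (𝓝 x) (𝓝 x.swap) := continuous_swap.tendsto x

private theorem RegL_swap_an (x : ℂ × ℂ) : AnalyticAt ℂ (fun y : ℂ × ℂ => y.swap) x :=
  analyticAt_snd.prod analyticAt_fst

/-- **The regular points.** -/
theorem lreg_off {v : ℂ × ℂ → ℂ × ℂ} {f : ℂ × ℂ → ℂ} {q : ℂ × ℂ} (hv : AnalyticAt ℂ v q) (hv0 : ∀ᶠ x in 𝓝 q, x ≠ q → v x ≠ 0) (hf : AnalyticAt ℂ f q)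
    (hf0 : ∃ᶠ x in 𝓝 q, f x ≠ 0) : ∀ᶠ x in 𝓝[≠] q, LA v f x ∨ LB v f x := by
  have h1 : ∀ᶠ x in 𝓝 q, x ≠ q → x.1 = 0 → ((v x).1 ≠ 0 ∨ ∀ᶠ y in 𝓝 x, y.1 = 0 → (v y).1 = 0) ∧ ∀ᶠ y in 𝓝 x, y.1 ≠ 0 → f y ≠ 0 := by
    by_cases hq : q.1 = 0
    · exact RegL_ax hv hf hf0 hq
    · filter_upwards [continuous_fst.continuousAt.eventually_ne hq] with x hx _ hx0
      exact absurd hx0 hx
  have h2 : ∀ᶠ x in 𝓝 q, x ≠ q → x.2 = 0 → ((v x).2 ≠ 0 ∨ ∀ᶠ y in 𝓝 x, y.2 = 0 → (v y).2 = 0) ∧ ∀ᶠ y in 𝓝 x, y.2 ≠ 0 → f y ≠ 0 := by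
    by_cases hq : q.2 = 0
    · have h3 := RegL_ax (v := fun x => (v x.swap).swap) (f := fun x => f x.swap) (q := q.swap)
        (AnalyticAt.fun_comp (g := fun y : ℂ × ℂ => y.swap) (f := fun x : ℂ × ℂ => v x.swap) (RegL_swap_an _)
          (AnalyticAt.fun_comp (g := v) (f := fun x : ℂ × ℂ => x.swap) (by simpa using hv) (RegL_swap_an _)))
        (AnalyticAt.fun_comp (g := f) (f := fun x : ℂ × ℂ => x.swap) (by simpa using hf) (RegL_swap_an _)) (by
          intro hcon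
          apply hf0
          filter_upwards [(RegL_swap_tendsto q).eventually hcon] with x hx
          simpa using hx) hq
      filter_upwards [(RegL_swap_tendsto q).eventually h3] with x hx hx1 hx2
      obtain ⟨a1, a2⟩ := hx (fun h => hx1 (Prod.swap_injective h)) hx2
      refine ⟨a1.imp (fun h => by simpa using h) fun h => ?_, ?_⟩
      · filter_upwards [(RegL_swap_tendsto x).eventually h] with y hy hy0
        simpa using hy hy0
      · filter_upwards [(RegL_swap_tendsto x).eventually a2] with y hy hy0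
        simpa using hy hy0
    · filter_upwards [continuous_snd.continuousAt.eventually_ne hq] with x hx _ hx0
      exact absurd hx0 hx
  have h3 : ∀ᶠ x in 𝓝 q, x ≠ q → x ≠ 0 := by
    by_cases hq : q = 0
    · exact Eventually.of_forall fun x hx => by rwa [hq] at hx
    · filter_upwards [continuous_id.continuousAt.eventually_ne hq] with x hx _
      exact hx
  rw [eventually_nhdsWithin_iff]
  filter_upwards [h1, h2, h3, regPt_off' hv hv0 hf hf0, hf.eventually_analyticAt] with x x1 x2 x3 x4 x5 hxq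
  have hxq' : x ≠ q := hxq
  obtain ⟨r1, r2⟩ := x4 hxq'
  by_cases hax : x.1 * x.2 = 0
  · left
    refine ⟨r1, x3 hxq', fun h => (x1 hxq' h).1, fun h => (x2 hxq' h).1, ?_⟩
    rcases mul_eq_zero.1 hax with h | h
    · filter_upwards [(x1 hxq' h).2] with y hy hy0
      exact hy (left_ne_zero_of_mul hy0)
    · filter_upwards [(x2 hxq' h).2] with y hy hy0
      exact hy (right_ne_zero_of_mul hy0)
  · rcases r2 with r2 | r2
    · left
      refine ⟨r1, x3 hxq', fun h => absurd (by rw [h, zero_mul]) hax, fun h => absurd (by rw [h, mul_zero]) hax, ?_⟩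
      filter_upwards [x5.continuousAt.eventually_ne r2] with y hy _
      exact hy
    · exact Or.inr ⟨r1, hax, r2⟩

end Pool.Agent.MQ3
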