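import Pool.Agent.MQ3.WBxC

/-!
# MQ3 WPoly: the boxes of the normal crossings model

A parametrization `ρ` of the surface over the closed unit bidisc, with values in `coneE P` only there, and immersive off the axes, is an `NCBox`.
-/

set_option autoImplicit false

open Topology Filter Metric MvPolynomial

noncomputable section

namespace Pool.Agent.MQ3

open Pool.Agent.H36.BP (EN)
open Pool.Agent.H14.PP (Tan)
open Pool.Agent.H17BP (Surface IsChart)
open Pool.Agent.H17EF (coneE LE)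

variable {N : ℕ} {P : Ideal (MvPolynomial (Fin (N + 1)) ℂ)}

theorem mem_coneE {x : EN N} : x ∈ coneE P ↔ x ≠ 0 ∧ ∀ Q ∈ P, eval x.ofLp Q = 0 := by
  constructor
  · rintro ⟨h1, h2⟩
    exact ⟨fun h => h1 (by rw [h, map_zero]), h2⟩
  · rintro ⟨h1, h2⟩
    exact ⟨fun h => h1 ((LE N).symm.injective (by rw [h, map_zero])), h2⟩

theorem analyticAt_evalE {E : Type*} [NormedAddCommGroup E] [NormedSpace ℂ E] {f : E → EN N} {x : E} (hf : AnalyticAt ℂ f x)
    (Q : MvPolynomial (Fin (N + 1)) ℂ) : AnalyticAt ℂ (fun y => eval (f y).ofLp Q) x := by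
  have h1 : ∀ i, AnalyticAt ℂ (fun y => (f y).ofLp i) x := fun i =>
    ((EuclideanSpace.proj i : EN N →L[ℂ] ℂ).analyticAt _).comp hf
  induction Q using MvPolynomial.induction_on with
  | C a => simpa using (analyticAt_const : AnalyticAt ℂ (fun _ : E => a) x)
  | add p q hp hq => simpa using hp.fun_add hq
  | mul_X p i hp => simpa using hp.fun_mul (h1 i)

/-- Values in the cone on one side of a point imply values in the cone near the point. -/
theorem eventually_coneE {ρ : ℂ × ℂ → EN N} {p : ℂ × ℂ} (hρ : AnalyticAt ℂ ρ p) {D : Set (ℂ × ℂ)} (hD : IsOpen D) (hp : p ∈ closure D)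
    (hpc : ρ p ∈ coneE P) (hc : ∀ q ∈ D, ρ q ∈ coneE P) : ∀ᶠ q in 𝓝 p, ρ q ∈ coneE P := by
  have h0 : ∀ᶠ q in 𝓝 p, ρ q ≠ 0 := hρ.continuousAt.eventually_ne (mem_coneE.1 hpc).1
  obtain ⟨r, hr, hb⟩ := Metric.eventually_nhds_iff_ball.1 (hρ.eventually_analyticAt.and h0)
  obtain ⟨q₀, hq₀, hq₀D⟩ := mem_closure_iff_nhds.1 hp (ball p r) (ball_mem_nhds p hr)
  filter_upwards [ball_mem_nhds p hr] with q hq
  refine mem_coneE.2 ⟨(hb q hq).2, fun Q hQ => ?_⟩
  have h1 : AnalyticOnNhd ℂ (fun y => eval (ρ y).ofLp Q) (ball p r) := fun y hy => analyticAt_evalE (hb y hy).1 Q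
  have h2 : (fun y => eval (ρ y).ofLp Q) =ᶠ[𝓝 q₀] 0 := by
    filter_upwards [hD.mem_nhds hq₀D] with y hy
    exact (mem_coneE.1 (hc y hy)).2 Q hQ
  exact h1.eqOn_zero_of_preconnected_of_eventuallyEq_zero (convex_ball p r).isPreconnected hq₀ h2 hq

theorem closure_DD : closure DD = {p : ℂ × ℂ | ‖p.1‖ ≤ 1 ∧ ‖p.2‖ ≤ 1} := by
  have h1 : DD = ball (0 : ℂ × ℂ) 1 := by
    ext p
    rw [mem_ball_zero_iff, Prod.norm_def, max_lt_iff]
    rfl
  rw [h1, closure_ball _ one_ne_zero]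
  ext p
  rw [mem_closedBall_zero_iff, Prod.norm_def, max_le_iff]
  rfl

/-- **The boxes of a normal crossings model.** -/
theorem NCBox.of_closure {ρ : ℂ × ℂ → EN N} (han : AnalyticOnNhd ℂ ρ (closure DD)) (hc : ∀ p ∈ closure DD, ρ p ∈ coneE P)
    (hli : ∀ p ∈ DS, LinearIndependent ℂ ![ρ p, fderiv ℂ ρ p (1, 0), fderiv ℂ ρ p (0, 1)]) : NCBox (coneE P) ρ := by
  have hcl : ∀ p : ℂ × ℂ, ‖p.1‖ ≤ 1 → ‖p.2‖ ≤ 1 → p ∈ closure DD := fun p h1 h2 => by
    rw [closure_DD]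
    exact ⟨h1, h2⟩
  refine ⟨fun p h1 h2 => han p (hcl p h1 h2), fun p h1 h2 => ?_, fun p hp w a h => ?_⟩
  · exact eventually_coneE (han p (hcl p h1 h2)) isOpen_DD (hcl p h1 h2) (hc p (hcl p h1 h2)) fun q hq => hc q (subset_closure hq)
  · have h1 : w = w.1 • ((1 : ℂ), (0 : ℂ)) + w.2 • ((0 : ℂ), (1 : ℂ)) := by
      ext <;> simp
    have h2 : ∑ i, (![-a, w.1, w.2] : Fin 3 → ℂ) i • (![ρ p, fderiv ℂ ρ p (1, 0), fderiv ℂ ρ p (0, 1)] : Fin 3 → EN N) i = 0 := by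
      have h3 : fderiv ℂ ρ p w = w.1 • fderiv ℂ ρ p (1, 0) + w.2 • fderiv ℂ ρ p (0, 1) := by
        conv_lhs => rw [h1]
        rw [map_add, map_smul, map_smul]
      rw [Fin.sum_univ_three]
      show (-a) • ρ p + w.1 • fderiv ℂ ρ p (1, 0) + w.2 • fderiv ℂ ρ p (0, 1) = 0
      rw [add_assoc, ← h3, h, neg_smul, neg_add_cancel]
    have h4 := Fintype.linearIndependent_iff.1 (hli p hp) _ h2
    exact Prod.ext (h4 1) (h4 2)

end Pool.Agent.MQ3
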