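import Pool.Agent.MQ3.RNe
import Pool.Agent.MQ3.RegL
import Pool.Agent.MQ3.WPoly

/-!
# MQ3 RegOff: the chart points which are not regular are isolated
-/

set_option autoImplicit false

open Topology Filter Metric MvPolynomial

noncomputable section

namespace Pool.Agent.MQ3

open Pool.Agent.H36.BP (EN)
open Pool.Agent.H17BP (Surface)
open Pool.Agent.H17EF (projVar coneE)


variable {M : ℕ} {P : Ideal (MvPolynomial (Fin (M + 1)) ℂ)} {RD : MvPolynomial (Fin (M + 1)) ℂ} {m : ℕ} {X : NCModel P RD} {θ : WDiff (coneE P) m}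
  {l : LF M} {S : Web X θ l} {Ra : MvPolynomial (Fin (M + 1)) ℂ}

theorem web_D_open (k : S.ι) : IsOpen (S.D k) := by
  have h1 : IsOpen ((S.c k).D) := isOpen_Dm
  have h2 : Continuous (S.κ k) := continuous_iff_continuousAt.2 fun q => (analyticAt_mono (w := (S.c k).w) (w' := (S.c k).w') q).continuousAt
  exact h1.inter ((X.isOpen k.1).preimage h2)

/-- `Ra` is not identically zero near any point of a chart -/
theorem web_rne (hRa : RNe X Ra) (k : S.ι) {q : ℂ × ℂ} (hq : q ∈ S.D k) : ∃ᶠ x in 𝓝 q, eval (S.σ k x).ofLp Ra ≠ 0 := by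
  intro hcon
  obtain ⟨q', h1, h2, h3⟩ := ((frequently_off q).and_eventually (((web_D_open k).eventually_mem hq).and (eventually_eventually_nhds.2 hcon))).exists
  have hκ : AnalyticAt ℂ (S.κ k) q' := analyticAt_mono (w := (S.c k).w) (w' := (S.c k).w') q'
  have hJ := map_nhds_jac hκ (jac_mono_ne (ne_of_gt (S.c k).pos) h1)
  refine hRa k.1 (S.κ k q') (X.sub k.1 h2.2) ?_
  rw [← hJ, eventually_map]
  filter_upwards [h3] with x hx using hx

theorem reg_off {d dR : ℕ} (hd : RD.IsHomogeneous d) (hdR : Ra.IsHomogeneous dR) (hRa : RNe X Ra) (k : S.ι) : ∀ q ∈ S.D k, ∀ᶠ x in 𝓝[≠] q, Reg S Ra k x := by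
  intro q hq
  have _ := hd
  have _ := hdR
  have hqD : q ∈ (S.c k).D := hq.1
  have hκ : AnalyticAt ℂ (S.κ k) q := analyticAt_mono (w := (S.c k).w) (w' := (S.c k).w') q
  have hp : S.κ k q ∈ DD := X.sub k.1 hq.2
  have hσ : AnalyticAt ℂ (S.σ k) q := AnalyticAt.fun_comp (g := X.ρ k.1) (f := S.κ k) ((X.box k.1).an _ (le_of_lt hp.1) (le_of_lt hp.2)) hκ
  have hf : AnalyticAt ℂ (fun x => eval (S.σ k x).ofLp Ra) q := analyticAt_evalE hσ Ra
  have hmem : ∀ᶠ x in 𝓝[≠] q, x ∈ S.D k := ((web_D_open k).eventually_mem hq).filter_mono nhdsWithin_le_nhds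
  filter_upwards [lreg_off ((S.c k).v_an q hqD) ((S.c k).v_iso q hqD) hf (web_rne hRa k hq), hmem] with x hx hxD
  rcases hx with ⟨a1, a2, a3, a4, a5⟩ | ⟨b1, b2, b3⟩
  · exact Or.inl ⟨hxD, a1, a2, a3, a4, a5⟩
  · exact Or.inr ⟨hxD, b1, b2, b3⟩

end Pool.Agent.MQ3
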