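import Pool.Agent.MQ3.CovA
import Pool.Agent.MQ3.LfN
import Pool.Agent.MQ3.RegO
import Pool.Agent.MQ3.RegOff
import Pool.Agent.MQ3.FibN
import Pool.Agent.MQ3.LocU
import Pool.Agent.MQ3.Avatar

/-!
# MQ3 Cov: the cover
-/

set_option autoImplicit false

open Topology Filter Metric MvPolynomial MeasureTheory Laplacian

noncomputable section

namespace Pool.Agent.MQ3

open Pool.Agent.H36.BP (EN fs)
open Pool.Agent.H17EF (projVar coneE)

variable {M : ℕ} {P : Ideal (MvPolynomial (Fin (M + 1)) ℂ)} {RD : MvPolynomial (Fin (M + 1)) ℂ} {m : ℕ} {X : NCModel P RD} {θ : WDiff (coneE P) m}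
  {l : LF M} {Ra : MvPolynomial (Fin (M + 1)) ℂ}

theorem exists_cov {d dR : ℕ} (hd : RD.IsHomogeneous d) (hdR : Ra.IsHomogeneous dR) (hRa : RNe X Ra) (S : Web X θ l) (r₀ : S.ι → ℂ × ℂ → ℝ)
    (h₀ : ∀ k, ∀ q ∈ S.D k, 0 < r₀ k q) : ∃ C : Cov S Ra, ∀ j, C.r j ≤ r₀ (C.ck j) (C.Q j) := by
  refine exists_cov_aux ⟨fun F hF Y k z hz => ⟨Om_sub hF Y k hz, (lfN_mem hF Y k z hz).2⟩, fun F hF Y i z hz => lfN_cover hF Y i z hz⟩
    (reg_off hd hdR hRa) (fun i a a' q q' hq hq' => ?_) (fun k q hq h0 => ?_) (fun k q h => regA_open h) (fun k q h => reg_open h)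
    (fun k q h => locU_of_fib h (fib_iso h.mem h.ne)) r₀ h₀
  · rcases avatar (Ra := Ra) i a a' hq hq' with h | ⟨Φ, h1, h2, -, h3⟩
    · exact Or.inl h
    · exact Or.inr ⟨Φ, h1, h2, h3⟩
  · obtain ⟨ψ, -, h1, -, h2⟩ := fib_iso hq h0
    filter_upwards [h2] with x hx hxq
    rw [← hx, hxq, h1]

end Pool.Agent.MQ3
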