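import Pool.Agent.MQ3.NDefs

/-!
# MQ3 CovA: the cover, from local statements

`exists_cov_aux`: the special points are the base points of the chart points which are not regular; over one representative of each of them finitely many
polydiscs `P` are placed, one for each class of avatars.  A maximal subset of pairwise unrelated (separated) points replaces the classes.
-/

set_option autoImplicit false

open Topology Filter Metric MvPolynomial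

noncomputable section

namespace Pool.Agent.MQ3

open Pool.Agent.H36.BP (EN fs)
open Pool.Agent.H17EF (projVar coneE)

/-! ### general lemmas -/

/-- a maximal subset of pairwise unrelated points -/
private theorem CovA_max {α : Type*} [DecidableEq α] (T : Finset α) (R : α → α → Prop) :
    ∃ T₀ ⊆ T, (∀ x ∈ T₀, ∀ y ∈ T₀, x ≠ y → ¬ R x y) ∧ ∀ x ∈ T, ∃ y ∈ T₀, x = y ∨ R x y ∨ R y x := by
  classical
  induction T using Finset.induction_on with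
  | empty => exact ⟨∅, subset_rfl, by simp, by simp⟩
  | insert a T ha ih =>
    obtain ⟨T₀, h1, h2, h3⟩ := ih
    by_cases h4 : ∃ y ∈ T₀, R a y ∨ R y a
    · obtain ⟨y, hy, h5⟩ := h4
      refine ⟨T₀, h1.trans (Finset.subset_insert _ _), h2, fun x hx => ?_⟩
      rcases Finset.mem_insert.1 hx with rfl | hx
      · exact ⟨y, hy, Or.inr h5⟩
      · exact h3 x hx
    · refine ⟨insert a T₀, Finset.insert_subset_insert _ h1, fun x hx y hy hxy => ?_, fun x hx => ?_⟩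
      · rcases Finset.mem_insert.1 hx with h5 | h5
        · rcases Finset.mem_insert.1 hy with h6 | h6
          · exact absurd (h5.trans h6.symm) hxy
          · rw [h5]
            exact fun h7 => h4 ⟨y, h6, Or.inl h7⟩
        · rcases Finset.mem_insert.1 hy with h6 | h6
          · rw [h6]
            exact fun h7 => h4 ⟨x, h5, Or.inr h7⟩
          · exact h2 x h5 y h6 hxy
      · rcases Finset.mem_insert.1 hx with h5 | h5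
        · exact ⟨a, Finset.mem_insert_self _ _, Or.inl h5⟩
        · obtain ⟨y, hy, h6⟩ := h3 x h5
          exact ⟨y, Finset.mem_insert_of_mem hy, h6⟩

/-- a property which holds near the fibre over `y` holds over a small ball -/
private theorem CovA_fib {K : Set (ℂ × ℂ)} (hK : IsCompact K) {f : ℂ × ℂ → ℂ × ℂ} (hf : Continuous f) {y : ℂ × ℂ} {Pr : ℂ × ℂ → Prop}
    (h : ∀ q ∈ K, f q = y → ∀ᶠ x in 𝓝 q, Pr x) : ∀ᶠ t in 𝓝[>] (0 : ℝ), ∀ q ∈ K, f q ∈ closedBall y t → Pr q := by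
  obtain ⟨O, hO⟩ : ∃ O : Set (ℂ × ℂ), O = interior {x | Pr x} := ⟨_, rfl⟩
  have h1 : IsCompact (K \ O) := hK.diff (by rw [hO]; exact isOpen_interior)
  have h2 : IsClosed (f '' (K \ O)) := (h1.image hf).isClosed
  have h3 : y ∉ f '' (K \ O) := by
    rintro ⟨q, ⟨hq, hqO⟩, hqy⟩
    exact hqO (by rw [hO]; exact mem_interior_iff_mem_nhds.2 (h q hq hqy))
  have h4 : ∀ᶠ t in 𝓝 (0 : ℝ), closedBall y t ⊆ (f '' (K \ O))ᶜ := eventually_closedBall_subset (h2.isOpen_compl.mem_nhds h3)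
  filter_upwards [h4.filter_mono nhdsWithin_le_nhds] with t ht q hq hqt
  by_contra h5
  have h6 : q ∉ O := fun h7 => h5 (by rw [hO] at h7; exact interior_subset h7)
  exact ht hqt ⟨q, ⟨hq, h6⟩, rfl⟩

/-- a set which is discrete in a compact set is finite -/
private theorem CovA_fin {K A : Set (ℂ × ℂ)} (hK : IsCompact K) (h : ∀ q ∈ K, ∀ᶠ x in 𝓝[≠] q, x ∉ A) : (K ∩ A).Finite := by
  have h1 : ∀ q ∈ K, {x | x ≠ q → x ∉ A} ∈ 𝓝 q := fun q hq => by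
    have := h q hq
    rw [eventually_nhdsWithin_iff] at this
    exact this
  obtain ⟨t, ht, hcov⟩ := hK.elim_nhds_subcover (fun q => {x | x ≠ q → x ∉ A}) h1
  refine t.finite_toSet.subset fun x hx => ?_
  obtain ⟨q, hq, hxq⟩ := Set.mem_iUnion₂.1 (hcov hx.1)
  by_contra h2
  have h3 : x ≠ q := by
    rintro rfl
    exact h2 hq
  exact hxq h3 hx.2

variable {M : ℕ} {P : Ideal (MvPolynomial (Fin (M + 1)) ℂ)} {RD : MvPolynomial (Fin (M + 1)) ℂ} {m : ℕ} {X : NCModel P RD} {θ : WDiff (coneE P) m}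
  {l : LF M} {S : Web X θ l} {Ra : MvPolynomial (Fin (M + 1)) ℂ}

private theorem CovA_cont (k : S.ι) : Continuous (S.κ k) := by
  have h1 : S.κ k = fun q : ℂ × ℂ => (q.1 ^ (S.c k).w.1 * q.2 ^ (S.c k).w'.1, q.1 ^ (S.c k).w.2 * q.2 ^ (S.c k).w'.2) := rfl
  rw [h1]
  fun_prop

private theorem CovA_D {k : S.ι} {q : ℂ × ℂ} : q ∈ S.D k ↔ S.κ k q ∈ X.B k.1 :=
  ⟨fun h => h.2, fun h => ⟨X.sub k.1 h, h⟩⟩

private theorem CovA_ub {q : ℂ × ℂ} : q ∈ closedBall (0 : ℂ × ℂ) 1 ↔ ‖q.1‖ ≤ 1 ∧ ‖q.2‖ ≤ 1 := by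
  rw [mem_closedBall_zero_iff, Prod.norm_def, max_le_iff]

private theorem CovA_cp {k : S.ι} {q : ℂ × ℂ} : q ∈ S.cp k ↔ q ∈ closedBall (0 : ℂ × ℂ) 1 ∧ S.κ k q ∈ X.C k.1 := by
  rw [CovA_ub]
  exact ⟨fun h => ⟨⟨h.1, h.2.1⟩, h.2.2⟩, fun h => ⟨h.1.1, h.1.2, h.2⟩⟩

private theorem CovA_cpc (k : S.ι) : IsCompact (S.cp k) := by
  have h1 : S.cp k = closedBall (0 : ℂ × ℂ) 1 ∩ (S.κ k) ⁻¹' (X.C k.1) := by
    ext q
    exact CovA_cp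
  rw [h1]
  exact (isCompact_closedBall _ _).inter_right ((X.compact k.1).isClosed.preimage (CovA_cont k))

private theorem CovA_cpD {k : S.ι} {q : ℂ × ℂ} (hq : q ∈ S.cp k) : q ∈ S.D k := CovA_D.2 (X.C_sub k.1 (CovA_cp.1 hq).2)

private theorem CovA_Do (k : S.ι) : IsOpen (S.D k) := by
  have h1 : S.D k = (S.κ k) ⁻¹' (X.B k.1) := by
    ext q
    exact CovA_D
  rw [h1]
  exact (X.isOpen k.1).preimage (CovA_cont k)

/-- the two chart points are never seen together -/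
def SepPt (S : Web X θ l) (k : S.ι) (q : ℂ × ℂ) (k' : S.ι) (q' : ℂ × ℂ) : Prop :=
  ∃ N ∈ 𝓝 q, ∃ N' ∈ 𝓝 q', ∀ F : ℂ → EN M, WCrv θ RD F → ∀ Y : NCLift X F, ∀ z, z ∈ S.Om Y k → S.lf Y k z ∈ N → z ∈ S.Om Y k' → S.lf Y k' z ∉ N'

private theorem SepPt.symm {k k' : S.ι} {q q' : ℂ × ℂ} (h : SepPt S k q k' q') : SepPt S k' q' k q := by
  obtain ⟨N, hN, N', hN', h1⟩ := h
  exact ⟨N', hN', N, hN, fun F hF Y z hz hzN hz' hzN' => h1 F hF Y z hz' hzN' hz hzN⟩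

/-- The statements about the lifts of curves which are used. -/
structure LfHyp (S : Web X θ l) : Prop where
  κ_lf : ∀ F : ℂ → EN M, WCrv θ RD F → ∀ Y : NCLift X F, ∀ k, ∀ z ∈ S.Om Y k, z ∈ Y.U k.1 ∧ S.κ k (S.lf Y k z) = Y.p k.1 z
  cover : ∀ F : ℂ → EN M, WCrv θ RD F → ∀ Y : NCLift X F, ∀ i, ∀ z ∈ Y.U i, ∃ a : (S.V i).ι, z ∈ S.Om Y ⟨i, a⟩ ∧ ‖(S.lf Y ⟨i, a⟩ z).1‖ ≤ 1 ∧
    ‖(S.lf Y ⟨i, a⟩ z).2‖ ≤ 1

/-- points over unrelated points of the model are separated -/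
private theorem CovA_sep (hL : LfHyp S) {k k' : S.ι} {q q' : ℂ × ℂ} (hq : q ∈ S.D k) (hq' : q' ∈ S.D k')
    (h : ¬ X.rel k.1 (S.κ k q) k'.1 (S.κ k' q')) : SepPt S k q k' q' := by
  have h1 := X.sep k.1 k'.1 _ (CovA_D.1 hq) _ (CovA_D.1 hq') h
  have h2 : Tendsto (fun x : (ℂ × ℂ) × (ℂ × ℂ) => (S.κ k x.1, S.κ k' x.2)) (𝓝 (q, q')) (𝓝 (S.κ k q, S.κ k' q')) :=
    (((CovA_cont k).comp continuous_fst).prodMk ((CovA_cont k').comp continuous_snd)).tendsto (q, q')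
  have h3 := h2.eventually h1
  rw [nhds_prod_eq] at h3
  obtain ⟨A, hA, B, hB, hAB⟩ := Filter.eventually_prod_iff.1 h3
  refine ⟨{x | A x}, hA, {x | B x}, hB, fun F hF Y z hz hzN hz' hzN' => ?_⟩
  have h4 := hAB hzN hzN'
  obtain ⟨h5, h6⟩ := hL.κ_lf F hF Y k z hz
  obtain ⟨h7, h8⟩ := hL.κ_lf F hF Y k' z hz'
  simp only [h6, h8] at h4
  exact h4 (Y.rel k.1 k'.1 z h5 h7)

private theorem CovA_axes (k : S.ι) (q : ℂ × ℂ) : (S.κ k q).1 * (S.κ k q).2 = 0 ↔ q.1 * q.2 = 0 := by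
  have h1 : (S.κ k q).1 * (S.κ k q).2 = q.1 ^ ((S.c k).w.1 + (S.c k).w.2) * q.2 ^ ((S.c k).w'.1 + (S.c k).w'.2) := by
    change (q.1 ^ (S.c k).w.1 * q.2 ^ (S.c k).w'.1) * (q.1 ^ (S.c k).w.2 * q.2 ^ (S.c k).w'.2) = _
    ring
  have h2 : 0 < dt (S.c k).w (S.c k).w' := (S.c k).pos
  have h3 : (S.c k).w.1 + (S.c k).w.2 ≠ 0 := by
    intro h
    have h4 : (S.c k).w.1 = 0 := by omega
    have h5 : (S.c k).w.2 = 0 := by omega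
    simp [dt, h4, h5] at h2
  have h4 : (S.c k).w'.1 + (S.c k).w'.2 ≠ 0 := by
    intro h
    have h4 : (S.c k).w'.1 = 0 := by omega
    have h5 : (S.c k).w'.2 = 0 := by omega
    simp [dt, h4, h5] at h2
  rw [h1, mul_eq_zero, mul_eq_zero, pow_eq_zero_iff h3, pow_eq_zero_iff h4]

/-! ### the polydiscs `P` -/

/-- The polydiscs `P`; `T` is the set of the special points of the boxes. -/
structure PPart (S : Web X θ l) (Ra : MvPolynomial (Fin (M + 1)) ℂ) (r₀ : S.ι → ℂ × ℂ → ℝ) where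
  nP : ℕ
  ck : Fin nP → S.ι
  Q : Fin nP → ℂ × ℂ
  r : Fin nP → ℝ
  s : Fin nP → ℝ
  s_pos : ∀ j, 0 < s j
  s_lt : ∀ j, s j < r j
  Q_mem : ∀ j, Q j ∈ S.cp (ck j)
  P_sub : ∀ j, closedBall (Q j) (r j) ⊆ S.D (ck j)
  P_reg : ∀ j, ∀ x ∈ closedBall (Q j) (r j), x ≠ Q j → Reg S Ra (ck j) x
  r_le : ∀ j, r j ≤ r₀ (ck j) (Q j)
  disj : ∀ F : ℂ → EN M, WCrv θ RD F → ∀ Y : NCLift X F, ∀ j j', j ≠ j' → ∀ z, z ∈ S.Om Y (ck j) → S.lf Y (ck j) z ∈ closedBall (Q j) (r j) →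
    z ∈ S.Om Y (ck j') → S.lf Y (ck j') z ∉ closedBall (Q j') (r j')
  T : Set (X.ι × (ℂ × ℂ))
  T_mem : ∀ b ∈ T, b.2 ∈ X.C b.1
  rep : ∀ i, ∀ x ∈ X.C i, (∃ a, ∃ q ∈ closedBall (0 : ℂ × ℂ) 1, S.κ ⟨i, a⟩ q = x ∧ ¬ Reg S Ra ⟨i, a⟩ q) → ∃ b ∈ T, X.rel i x b.1 b.2
  core : ∀ b ∈ T, ∀ a, ∀ q ∈ closedBall (0 : ℂ × ℂ) 1, S.κ ⟨b.1, a⟩ q = b.2 → ¬ RegA S Ra ⟨b.1, a⟩ q → ∃ j, ∃ N ∈ 𝓝 q, ∀ F : ℂ → EN M,
    WCrv θ RD F → ∀ Y : NCLift X F, ∀ z ∈ S.Om Y ⟨b.1, a⟩, S.lf Y ⟨b.1, a⟩ z ∈ N → z ∈ S.Om Y (ck j) ∧ S.lf Y (ck j) z ∈ ball (Q j) (s j)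

theorem exists_PPart (hL : LfHyp S) (hreg : ∀ k, ∀ q ∈ S.D k, ∀ᶠ x in 𝓝[≠] q, Reg S Ra k x)
    (hav : ∀ (i : X.ι) (a a' : (S.V i).ι) (q q' : ℂ × ℂ), q ∈ S.D ⟨i, a⟩ → q' ∈ S.D ⟨i, a'⟩ → SepPt S ⟨i, a⟩ q ⟨i, a'⟩ q' ∨
      ∃ Φ : ℂ × ℂ → ℂ × ℂ, AnalyticAt ℂ Φ q ∧ Φ q = q' ∧ ∃ N ∈ 𝓝 q, ∀ F : ℂ → EN M, WCrv θ RD F → ∀ Y : NCLift X F, ∀ z ∈ S.Om Y ⟨i, a⟩,
        S.lf Y ⟨i, a⟩ z ∈ N → z ∈ S.Om Y ⟨i, a'⟩ ∧ S.lf Y ⟨i, a'⟩ z = Φ (S.lf Y ⟨i, a⟩ z))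
    (hfib : ∀ k, ∀ q ∈ S.D k, q.1 * q.2 ≠ 0 → ∀ᶠ x in 𝓝 q, S.κ k x = S.κ k q → x = q)
    (r₀ : S.ι → ℂ × ℂ → ℝ) (h₀ : ∀ k, ∀ q ∈ S.D k, 0 < r₀ k q) : Nonempty (PPart S Ra r₀) := by
  classical
  -- the special points
  have hNR : ∀ k : S.ι, (S.cp k ∩ {x | ¬ Reg S Ra k x}).Finite := fun k => CovA_fin (CovA_cpc k) fun q hq => by
    filter_upwards [hreg k q (CovA_cpD hq)] with x hx hxA
    exact hxA hx
  obtain ⟨SP, hSP⟩ : ∃ SP : Set (X.ι × (ℂ × ℂ)), SP = {b | b.2 ∈ X.C b.1 ∧ ∃ a, ∃ q ∈ closedBall (0 : ℂ × ℂ) 1, S.κ ⟨b.1, a⟩ q = b.2 ∧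
    ¬ Reg S Ra ⟨b.1, a⟩ q} := ⟨_, rfl⟩
  have hSPf : SP.Finite := by
    have h1 : (⋃ k : S.ι, (fun q => (k.1, S.κ k q)) '' (S.cp k ∩ {x | ¬ Reg S Ra k x})).Finite := Set.finite_iUnion fun k => (hNR k).image _
    refine h1.subset ?_
    rintro ⟨i, x⟩ hb
    rw [hSP] at hb
    obtain ⟨hx, a, q, hq, hqx, hn⟩ := hb
    refine Set.mem_iUnion.2 ⟨⟨i, a⟩, q, ⟨CovA_cp.2 ⟨hq, ?_⟩, hn⟩, ?_⟩
    · rw [hqx]
      exact hx
    · exact Prod.ext rfl hqx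
  obtain ⟨T₀, hT₀, hT₀u, hT₀m⟩ := CovA_max hSPf.toFinset (fun b b' : X.ι × (ℂ × ℂ) => X.rel b.1 b.2 b'.1 b'.2)
  have hTC : ∀ b ∈ T₀, b.2 ∈ X.C b.1 := fun b hb => by
    have := (Set.Finite.mem_toFinset hSPf).1 (hT₀ hb)
    rw [hSP] at this
    exact this.1
  -- the chart points over them
  obtain ⟨PP, hPP⟩ : ∃ PP : Set (S.ι × (ℂ × ℂ)), PP = {p | (p.1.1, S.κ p.1 p.2) ∈ T₀ ∧ p.2 ∈ closedBall (0 : ℂ × ℂ) 1 ∧ ¬ RegA S Ra p.1 p.2} := ⟨_, rfl⟩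
  have hPPf : PP.Finite := by
    have h1 : ∀ (k : S.ι) (b : X.ι × (ℂ × ℂ)), (S.cp k ∩ {x | S.κ k x = b.2 ∧ ¬ RegA S Ra k x}).Finite := fun k b => CovA_fin (CovA_cpc k) fun q hq => by
      have hqD := CovA_cpD hq
      by_cases h2 : S.κ k q = b.2
      · by_cases h3 : q.1 * q.2 = 0
        · filter_upwards [hreg k q hqD] with x hx hxA
          rcases hx with hx | hx
          · exact hxA.2 hx
          · refine hx.ne ((CovA_axes k x).1 ?_)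
            rw [hxA.1, ← h2]
            exact (CovA_axes k q).2 h3
        · have h4 := hfib k q hqD h3
          rw [eventually_nhdsWithin_iff]
          filter_upwards [h4] with x hx hxq hxA
          exact hxq (hx (hxA.1.trans h2.symm))
      · have h3 : ∀ᶠ x in 𝓝 q, S.κ k x ≠ b.2 := (CovA_cont k).continuousAt.eventually_ne h2
        filter_upwards [h3.filter_mono nhdsWithin_le_nhds] with x hx hxA
        exact hx hxA.1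
    have h2 : (⋃ k : S.ι, ⋃ b ∈ T₀, (fun q => (k, q)) '' (S.cp k ∩ {x | S.κ k x = b.2 ∧ ¬ RegA S Ra k x})).Finite :=
      Set.finite_iUnion fun k => Set.Finite.biUnion T₀.finite_toSet fun b _ => (h1 k b).image _
    refine h2.subset ?_
    rintro ⟨k, q⟩ hp
    rw [hPP] at hp
    obtain ⟨h3, h4, h5⟩ := hp
    exact Set.mem_iUnion.2 ⟨k, Set.mem_iUnion₂.2 ⟨_, h3, q, ⟨CovA_cp.2 ⟨h4, hTC _ h3⟩, rfl, h5⟩, rfl⟩⟩
  obtain ⟨T₁, hT₁, hT₁u, hT₁m⟩ := CovA_max hPPf.toFinset (fun p p' : S.ι × (ℂ × ℂ) => ¬ SepPt S p.1 p.2 p'.1 p'.2)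
  have hT₁P : ∀ p ∈ T₁, (p.1.1, S.κ p.1 p.2) ∈ T₀ ∧ p.2 ∈ closedBall (0 : ℂ × ℂ) 1 ∧ ¬ RegA S Ra p.1 p.2 := fun p hp => by
    have := (Set.Finite.mem_toFinset hPPf).1 (hT₁ hp)
    rw [hPP] at this
    exact this
  have hcpT : ∀ p ∈ T₁, p.2 ∈ S.cp p.1 := fun p hp => CovA_cp.2 ⟨(hT₁P p hp).2.1, hTC _ (hT₁P p hp).1⟩
  -- enumeration
  obtain ⟨n, ⟨e⟩⟩ : ∃ n, Nonempty (T₁ ≃ Fin n) := ⟨_, ⟨T₁.equivFin⟩⟩
  obtain ⟨f, hf⟩ : ∃ f : Fin n → S.ι × (ℂ × ℂ), f = fun j => (e.symm j).1 := ⟨_, rfl⟩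
  have hfT : ∀ j, f j ∈ T₁ := fun j => by rw [hf]; exact (e.symm j).2
  have hfi : ∀ j j', j ≠ j' → f j ≠ f j' := fun j j' hjj h => by
    rw [hf] at h
    exact hjj (e.symm.injective (Subtype.ext h))
  have hfe : ∀ p, ∀ hp : p ∈ T₁, f (e ⟨p, hp⟩) = p := fun p hp => by
    rw [hf]
    simp only [Equiv.symm_apply_apply]
  have hsep : ∀ j j', j ≠ j' → SepPt S (f j).1 (f j).2 (f j').1 (f j').2 := fun j j' hjj =>
    not_not.1 (hT₁u _ (hfT j) _ (hfT j') (hfi j j' hjj))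
  choose N hN N' hN' hNN using hsep
  have hr : ∀ j, ∃ r : ℝ, 0 < r ∧ r ≤ r₀ (f j).1 (f j).2 ∧ closedBall (f j).2 r ⊆ S.D (f j).1 ∧ closedBall (f j).2 r ⊆ {x | x ≠ (f j).2 → Reg S Ra (f j).1 x} ∧
      (∀ j', ∀ h : j ≠ j', closedBall (f j).2 r ⊆ N j j' h) ∧ ∀ j', ∀ h : j' ≠ j, closedBall (f j).2 r ⊆ N' j' j h := fun j => by
    have hD := CovA_cpD (hcpT _ (hfT j))
    have h1 : ∀ᶠ r in 𝓝[>] (0 : ℝ), 0 < r := self_mem_nhdsWithin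
    have h2 : ∀ᶠ r in 𝓝[>] (0 : ℝ), r ≤ r₀ (f j).1 (f j).2 := nhdsWithin_le_nhds (Iic_mem_nhds (h₀ _ _ hD))
    have h3 : ∀ V ∈ 𝓝 (f j).2, ∀ᶠ r in 𝓝[>] (0 : ℝ), closedBall (f j).2 r ⊆ V := fun V hV => (eventually_closedBall_subset hV).filter_mono nhdsWithin_le_nhds
    have h4 : {x | x ≠ (f j).2 → Reg S Ra (f j).1 x} ∈ 𝓝 (f j).2 := by
      have := hreg _ _ hD
      rw [eventually_nhdsWithin_iff] at this
      exact this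
    have h5 : ∀ᶠ r in 𝓝[>] (0 : ℝ), ∀ j', ∀ h : j ≠ j', closedBall (f j).2 r ⊆ N j j' h := by
      rw [eventually_all]
      intro j'
      by_cases h : j ≠ j'
      · filter_upwards [h3 _ (hN j j' h)] with r hr _
        exact hr
      · exact Eventually.of_forall fun _ h' => absurd h' h
    have h6 : ∀ᶠ r in 𝓝[>] (0 : ℝ), ∀ j', ∀ h : j' ≠ j, closedBall (f j).2 r ⊆ N' j' j h := by
      rw [eventually_all]
      intro j'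
      by_cases h : j' ≠ j
      · filter_upwards [h3 _ (hN' j' j h)] with r hr _
        exact hr
      · exact Eventually.of_forall fun _ h' => absurd h' h
    exact (h1.and (h2.and ((h3 _ ((CovA_Do _).mem_nhds hD)).and ((h3 _ h4).and (h5.and h6))))).exists
  choose r hr0 hr1 hr2 hr3 hr4 hr5 using hr
  refine ⟨⟨n, fun j => (f j).1, fun j => (f j).2, r, fun j => r j / 2, fun j => half_pos (hr0 j), fun j => half_lt_self (hr0 j), fun j => hcpT _ (hfT j),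
    hr2, fun j x hx hxn => hr3 j hx hxn, hr1, ?_, ↑T₀, fun b hb => hTC b hb, ?_, ?_⟩⟩
  · intro F hF Y j j' hjj z hz hz1 hz' hz1'
    exact hNN j j' hjj F hF Y z hz (hr4 j j' hjj hz1) hz' (hr5 j' j hjj hz1')
  · rintro i x hx ⟨a, q, hq, hqx, hn⟩
    have h1 : (i, x) ∈ SP := by
      rw [hSP]
      exact ⟨hx, a, q, hq, hqx, hn⟩
    obtain ⟨b, hb, h2⟩ := hT₀m _ ((Set.Finite.mem_toFinset hSPf).2 h1)
    refine ⟨b, hb, ?_⟩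
    rcases h2 with h2 | h2 | h2
    · rw [← h2]
      exact (X.refl i x (X.C_sub i hx) x (X.C_sub i hx)).2 rfl
    · exact h2
    · exact X.symm _ _ _ _ (X.C_sub _ (hTC b hb)) (X.C_sub i hx) h2
  · rintro ⟨i, y⟩ hb a q hq hqy hn
    have h1 : ((⟨i, a⟩ : S.ι), q) ∈ PP := by
      rw [hPP]
      refine ⟨?_, hq, hn⟩
      change (i, S.κ ⟨i, a⟩ q) ∈ T₀
      rw [hqy]
      exact hb
    obtain ⟨p, hp, h2⟩ := hT₁m _ ((Set.Finite.mem_toFinset hPPf).2 h1)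
    have hqD : q ∈ S.D ⟨i, a⟩ := CovA_D.2 (by
      change S.κ ⟨i, a⟩ q ∈ X.B i
      rw [hqy]
      exact X.C_sub i (hTC _ hb))
    refine ⟨e ⟨p, hp⟩, ?_⟩
    have hpe := hfe p hp
    have hr0' := hr0 (e ⟨p, hp⟩)
    simp only [hpe]
    by_cases h3 : ((⟨i, a⟩ : S.ι), q) = p
    · obtain rfl : p = ((⟨i, a⟩ : S.ι), q) := h3.symm
      exact ⟨ball q (r (e ⟨_, hp⟩) / 2), ball_mem_nhds _ (half_pos hr0'), fun F hF Y z hz hz1 => ⟨hz, hz1⟩⟩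
    have h4 : ¬ SepPt S ⟨i, a⟩ q p.1 p.2 := by
      rcases h2 with h2 | h2 | h2
      · exact absurd h2 h3
      · exact h2
      · exact fun h5 => h2 h5.symm
    obtain ⟨⟨i', a'⟩, q'⟩ := p
    have hpD : q' ∈ S.D ⟨i', a'⟩ := CovA_cpD (hcpT _ hp)
    have h5 : (i, y) = (i', S.κ ⟨i', a'⟩ q') := by
      by_contra h5
      refine h4 (CovA_sep hL hqD hpD ?_)
      have h6 := hT₀u _ hb _ (hT₁P _ hp).1 h5
      change ¬ X.rel i (S.κ ⟨i, a⟩ q) i' (S.κ ⟨i', a'⟩ q')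
      rw [hqy]
      exact h6
    obtain rfl : i = i' := (Prod.ext_iff.1 h5).1
    rcases hav i a a' q q' hqD hpD with h6 | ⟨Φ, hΦ, hΦq, V, hV, h6⟩
    · exact absurd h6 h4
    · have h7 : Φ ⁻¹' (ball q' (r (e ⟨(⟨i, a'⟩, q'), hp⟩) / 2)) ∈ 𝓝 q := by
        refine hΦ.continuousAt.preimage_mem_nhds ?_
        rw [hΦq]
        exact ball_mem_nhds _ (half_pos hr0')
      refine ⟨V ∩ Φ ⁻¹' (ball q' (r (e ⟨(⟨i, a'⟩, q'), hp⟩) / 2)), inter_mem hV h7, fun F hF Y z hz hz1 => ?_⟩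
      obtain ⟨h8, h9⟩ := h6 F hF Y z hz hz1.1
      refine ⟨h8, ?_⟩
      rw [h9]
      exact hz1.2

/-! ### the polydiscs `N` -/

/-- a polydisc in the box `i` with center `y` -/
structure NDat {r₀ : S.ι → ℂ × ℂ → ℝ} (D : PPart S Ra r₀) (i : X.ι) (y : ℂ × ℂ) where
  t : ℝ
  u : Option (ℂ × ℂ → ℂ)
  K : (S.V i).ι → Set (ℂ × ℂ)
  t_pos : 0 < t
  sub : closedBall y t ⊆ X.B i
  eqn : ∀ u', u = some u' → closedBall y t ⊆ DS ∧ AnalyticOnNhd ℂ u' (closedBall y t) ∧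
    ∀ p ∈ closedBall y t, ∀ᶠ x in 𝓝 p, (eval (X.ρ i x).ofLp Ra = 0 ↔ u' x = 0) ∧ (u' x = 0 → fderiv ℂ u' x ≠ 0)
  K_compact : ∀ a, IsCompact (K a)
  K_A : ∀ a, u = none → ∀ q ∈ K a, RegA S Ra ⟨i, a⟩ q ∧ S.κ ⟨i, a⟩ q ∈ closedBall y t
  K_B : ∀ a u', u = some u' → ∀ q ∈ K a, Reg S Ra ⟨i, a⟩ q ∧ S.κ ⟨i, a⟩ q ∈ closedBall y t
  lift : ∀ F : ℂ → EN M, WCrv θ RD F → ∀ Y : NCLift X F, ∀ z ∈ Y.U i, Y.p i z ∈ closedBall y t →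
    (∀ j, z ∈ S.Om Y (D.ck j) → S.lf Y (D.ck j) z ∉ ball (D.Q j) (D.s j)) → ∃ a, z ∈ S.Om Y ⟨i, a⟩ ∧ S.lf Y ⟨i, a⟩ z ∈ K a

private theorem CovA_NA {r₀ : S.ι → ℂ × ℂ → ℝ} (D : PPart S Ra r₀) (hL : LfHyp S) (hAo : ∀ k q, RegA S Ra k q → ∀ᶠ x in 𝓝 q, RegA S Ra k x)
    {i : X.ι} {x : ℂ × ℂ} (hx : x ∈ X.B i)
    (h : ∀ a, ∀ q ∈ closedBall (0 : ℂ × ℂ) 1, S.κ ⟨i, a⟩ q = x → RegA S Ra ⟨i, a⟩ q ∨ ∃ j, ∃ N ∈ 𝓝 q, ∀ F : ℂ → EN M, WCrv θ RD F →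
      ∀ Y : NCLift X F, ∀ z ∈ S.Om Y ⟨i, a⟩, S.lf Y ⟨i, a⟩ z ∈ N → z ∈ S.Om Y (D.ck j) ∧ S.lf Y (D.ck j) z ∈ ball (D.Q j) (D.s j)) :
    Nonempty (NDat D i x) := by
  classical
  obtain ⟨O, hO⟩ : ∃ O : (S.V i).ι → Set (ℂ × ℂ), O = fun a => interior {q | ∀ F : ℂ → EN M, WCrv θ RD F → ∀ Y : NCLift X F, ∀ z ∈ S.Om Y ⟨i, a⟩,
    S.lf Y ⟨i, a⟩ z = q → ∃ j, z ∈ S.Om Y (D.ck j) ∧ S.lf Y (D.ck j) z ∈ ball (D.Q j) (D.s j)} := ⟨_, rfl⟩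
  have hOo : ∀ a, IsOpen (O a) := fun a => by rw [hO]; exact isOpen_interior
  have h1 : ∀ a, ∀ᶠ t in 𝓝[>] (0 : ℝ), ∀ q ∈ closedBall (0 : ℂ × ℂ) 1, S.κ ⟨i, a⟩ q ∈ closedBall x t → RegA S Ra ⟨i, a⟩ q ∨ q ∈ O a := fun a =>
    CovA_fib (isCompact_closedBall _ _) (CovA_cont _) fun q hq hqx => by
      rcases h a q hq hqx with h2 | ⟨j, N, hN, h2⟩
      · exact (hAo _ _ h2).mono fun _ h => Or.inl h
      · have h3 : q ∈ O a := by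
          rw [hO]
          refine mem_interior_iff_mem_nhds.2 ?_
          filter_upwards [hN] with q' hq' F hF Y z hz hzq
          exact ⟨j, h2 F hF Y z hz (by rw [hzq]; exact hq')⟩
        filter_upwards [(hOo a).mem_nhds h3] with q' hq'
        exact Or.inr hq'
  have h2 : ∀ᶠ t in 𝓝[>] (0 : ℝ), closedBall x t ⊆ X.B i :=
    (eventually_closedBall_subset ((X.isOpen i).mem_nhds hx)).filter_mono nhdsWithin_le_nhds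
  have h3 : ∀ᶠ t in 𝓝[>] (0 : ℝ), 0 < t := self_mem_nhdsWithin
  obtain ⟨t, ht, htB, htO⟩ := (h3.and (h2.and (eventually_all.2 h1))).exists
  refine ⟨⟨t, none, fun a => (closedBall (0 : ℂ × ℂ) 1 ∩ (S.κ ⟨i, a⟩) ⁻¹' closedBall x t) \ O a, ht, htB, fun u' hu' => by simp at hu', ?_, ?_, ?_, ?_⟩⟩
  · intro a
    exact ((isCompact_closedBall _ _).inter_right (isClosed_closedBall.preimage (CovA_cont _))).diff (hOo a)
  · rintro a - q ⟨⟨hq, hqt⟩, hqO⟩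
    exact ⟨(htO a q hq hqt).resolve_right hqO, hqt⟩
  · intro a u' hu'
    simp at hu'
  · intro F hF Y z hz hzt hcore
    obtain ⟨a, hza, h4, h5⟩ := hL.cover F hF Y i z hz
    have h6 := (hL.κ_lf F hF Y ⟨i, a⟩ z hza).2
    refine ⟨a, hza, ⟨CovA_ub.2 ⟨h4, h5⟩, ?_⟩, fun h7 => ?_⟩
    · change S.κ ⟨i, a⟩ (S.lf Y ⟨i, a⟩ z) ∈ closedBall x t
      rw [h6]
      exact hzt
    · rw [hO] at h7
      obtain ⟨j, h8, h9⟩ := interior_subset h7 F hF Y z hza rfl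
      exact hcore j h8 h9

private theorem CovA_NB {r₀ : S.ι → ℂ × ℂ → ℝ} (D : PPart S Ra r₀) (hL : LfHyp S) (hRo : ∀ k q, Reg S Ra k q → ∀ᶠ x in 𝓝 q, Reg S Ra k x)
    {i : X.ι} {x : ℂ × ℂ} (hx : x ∈ X.B i) (hxS : x ∈ DS) {u : ℂ × ℂ → ℂ} (hu : AnalyticAt ℂ u x)
    (hu' : ∀ᶠ p in 𝓝 x, (eval (X.ρ i p).ofLp Ra = 0 ↔ u p = 0) ∧ (u p = 0 → fderiv ℂ u p ≠ 0))
    (h : ∀ a, ∀ q ∈ closedBall (0 : ℂ × ℂ) 1, S.κ ⟨i, a⟩ q = x → Reg S Ra ⟨i, a⟩ q) : Nonempty (NDat D i x) := by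
  classical
  have h1 : ∀ a, ∀ᶠ t in 𝓝[>] (0 : ℝ), ∀ q ∈ closedBall (0 : ℂ × ℂ) 1, S.κ ⟨i, a⟩ q ∈ closedBall x t → Reg S Ra ⟨i, a⟩ q := fun a =>
    CovA_fib (isCompact_closedBall _ _) (CovA_cont _) fun q hq hqx => hRo _ _ (h a q hq hqx)
  have h0 : ∀ V ∈ 𝓝 x, ∀ᶠ t in 𝓝[>] (0 : ℝ), closedBall x t ⊆ V := fun V hV => (eventually_closedBall_subset hV).filter_mono nhdsWithin_le_nhds
  have h3 : ∀ᶠ t in 𝓝[>] (0 : ℝ), 0 < t := self_mem_nhdsWithin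
  obtain ⟨t, ht, htB, htS, htu, hte, htR⟩ := (h3.and ((h0 _ ((X.isOpen i).mem_nhds hx)).and ((h0 _ (isOpen_DS.mem_nhds hxS)).and
    ((h0 _ hu.eventually_analyticAt).and ((h0 _ (eventually_eventually_nhds.2 hu')).and (eventually_all.2 h1)))))).exists
  refine ⟨⟨t, some u, fun a => closedBall (0 : ℂ × ℂ) 1 ∩ (S.κ ⟨i, a⟩) ⁻¹' closedBall x t, ht, htB, fun v hv => ?_, ?_, ?_, ?_, ?_⟩⟩
  · obtain rfl : u = v := Option.some.inj hv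
    exact ⟨htS, fun p hp => htu hp, fun p hp => hte hp⟩
  · intro a
    exact (isCompact_closedBall _ _).inter_right (isClosed_closedBall.preimage (CovA_cont _))
  · intro a hv
    simp at hv
  · rintro a v - q ⟨hq, hqt⟩
    exact ⟨htR a q hq hqt, hqt⟩
  · intro F hF Y z hz hzt _
    obtain ⟨a, hza, h4, h5⟩ := hL.cover F hF Y i z hz
    have h6 := (hL.κ_lf F hF Y ⟨i, a⟩ z hza).2
    refine ⟨a, hza, CovA_ub.2 ⟨h4, h5⟩, ?_⟩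
    change S.κ ⟨i, a⟩ (S.lf Y ⟨i, a⟩ z) ∈ closedBall x t
    rw [h6]
    exact hzt

/-- **The cover, from local statements.** -/
theorem exists_cov_aux (hL : LfHyp S) (hreg : ∀ k, ∀ q ∈ S.D k, ∀ᶠ x in 𝓝[≠] q, Reg S Ra k x)
    (hav : ∀ (i : X.ι) (a a' : (S.V i).ι) (q q' : ℂ × ℂ), q ∈ S.D ⟨i, a⟩ → q' ∈ S.D ⟨i, a'⟩ → SepPt S ⟨i, a⟩ q ⟨i, a'⟩ q' ∨
      ∃ Φ : ℂ × ℂ → ℂ × ℂ, AnalyticAt ℂ Φ q ∧ Φ q = q' ∧ ∃ N ∈ 𝓝 q, ∀ F : ℂ → EN M, WCrv θ RD F → ∀ Y : NCLift X F, ∀ z ∈ S.Om Y ⟨i, a⟩,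
        S.lf Y ⟨i, a⟩ z ∈ N → z ∈ S.Om Y ⟨i, a'⟩ ∧ S.lf Y ⟨i, a'⟩ z = Φ (S.lf Y ⟨i, a⟩ z))
    (hfib : ∀ k, ∀ q ∈ S.D k, q.1 * q.2 ≠ 0 → ∀ᶠ x in 𝓝 q, S.κ k x = S.κ k q → x = q)
    (hAo : ∀ k q, RegA S Ra k q → ∀ᶠ x in 𝓝 q, RegA S Ra k x) (hRo : ∀ k q, Reg S Ra k q → ∀ᶠ x in 𝓝 q, Reg S Ra k x)
    (hU : ∀ k q, RegB S Ra k q → ∃ u : ℂ × ℂ → ℂ, AnalyticAt ℂ u (S.κ k q) ∧
      ∀ᶠ p in 𝓝 (S.κ k q), (eval (X.ρ k.1 p).ofLp Ra = 0 ↔ u p = 0) ∧ (u p = 0 → fderiv ℂ u p ≠ 0))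
    (r₀ : S.ι → ℂ × ℂ → ℝ) (h₀ : ∀ k, ∀ q ∈ S.D k, 0 < r₀ k q) : ∃ C : Cov S Ra, ∀ j, C.r j ≤ r₀ (C.ck j) (C.Q j) := by
  classical
  obtain ⟨D⟩ := exists_PPart hL hreg hav hfib r₀ h₀
  have hex : ∀ i, ∀ x ∈ X.C i, ∃ n : (Σ i' : X.ι, Σ y' : ℂ × ℂ, NDat D i' y'), {x' : ℂ × ℂ | ∀ F : ℂ → EN M, WCrv θ RD F → ∀ Y : NCLift X F,
      ∀ z ∈ Y.U i, Y.p i z = x' → z ∈ Y.U n.1 ∧ Y.p n.1 z ∈ ball n.2.1 (n.2.2.t / 4)} ∈ 𝓝 x := by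
    intro i x hx
    have hxB := X.C_sub i hx
    have hown : ∀ n : NDat D i x, {x' : ℂ × ℂ | ∀ F : ℂ → EN M, WCrv θ RD F → ∀ Y : NCLift X F,
        ∀ z ∈ Y.U i, Y.p i z = x' → z ∈ Y.U i ∧ Y.p i z ∈ ball x (n.t / 4)} ∈ 𝓝 x := fun n => by
      filter_upwards [ball_mem_nhds x (div_pos n.t_pos four_pos)] with x' hx' F hF Y z hz hzx
      exact ⟨hz, by rw [hzx]; exact hx'⟩
    by_cases h1 : ∃ a, ∃ q ∈ closedBall (0 : ℂ × ℂ) 1, S.κ ⟨i, a⟩ q = x ∧ ¬ Reg S Ra ⟨i, a⟩ q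
    · obtain ⟨b, hb, hrel⟩ := D.rep i x hx h1
      have hbB := X.C_sub _ (D.T_mem b hb)
      obtain ⟨n⟩ := CovA_NA D hL hAo hbB fun a q hq hqx => by
        by_cases h2 : RegA S Ra ⟨b.1, a⟩ q
        · exact Or.inl h2
        · exact Or.inr (D.core b hb a q hq hqx h2)
      obtain ⟨Φ, hΦ, hΦx, -, hΦr, -⟩ := X.iso i b.1 x hxB b.2 hbB hrel
      refine ⟨⟨b.1, b.2, n⟩, ?_⟩
      have h3 : Φ ⁻¹' (ball b.2 (n.t / 4)) ∈ 𝓝 x := by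
        refine hΦ.continuousAt.preimage_mem_nhds ?_
        rw [hΦx]
        exact ball_mem_nhds _ (div_pos n.t_pos four_pos)
      filter_upwards [hΦr, h3] with x' h4 h5 F hF Y z hz hzx
      have h6 : Φ x' ∈ X.B b.1 := by
        refine n.sub (closedBall_subset_closedBall ?_ (ball_subset_closedBall h5))
        linarith [n.t_pos]
      obtain ⟨h7, h8⟩ := Y.full i b.1 z hz (Φ x') h6 (by rw [hzx]; exact h4)
      exact ⟨h7, by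
        rw [h8]
        exact h5⟩
    · push Not at h1
      by_cases h2 : ∀ a, ∀ q ∈ closedBall (0 : ℂ × ℂ) 1, S.κ ⟨i, a⟩ q = x → RegA S Ra ⟨i, a⟩ q
      · obtain ⟨n⟩ := CovA_NA D hL hAo hxB fun a q hq hqx => Or.inl (h2 a q hq hqx)
        exact ⟨⟨i, x, n⟩, hown n⟩
      · push Not at h2
        obtain ⟨a, q, hq, hqx, hn⟩ := h2
        have h3 : RegB S Ra ⟨i, a⟩ q := (h1 a q hq hqx).resolve_left hn
        obtain ⟨u, hu, hu'⟩ := hU _ _ h3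
        have h4 : S.κ ⟨i, a⟩ q ∈ DS := by
          refine mem_DS.2 ⟨X.sub i (by rw [hqx]; exact hxB), fun h5 => ?_⟩
          exact h3.ne ((CovA_axes _ q).1 h5)
        rw [hqx] at hu hu' h4
        obtain ⟨n⟩ := CovA_NB D hL hRo hxB h4 hu hu' fun a q hq hqx => h1 a q hq hqx
        exact ⟨⟨i, x, n⟩, hown n⟩
  choose n hn using hex
  have hfin : ∀ i, ∃ t : Finset (X.C i), X.C i ⊆ ⋃ x ∈ t, {x' : ℂ × ℂ | ∀ F : ℂ → EN M, WCrv θ RD F → ∀ Y : NCLift X F,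
      ∀ z ∈ Y.U i, Y.p i z = x' → z ∈ Y.U (n i x.1 x.2).1 ∧ Y.p (n i x.1 x.2).1 z ∈ ball (n i x.1 x.2).2.1 ((n i x.1 x.2).2.2.t / 4)} := fun i =>
    (X.compact i).elim_nhds_subcover' (fun x hx => {x' : ℂ × ℂ | ∀ F : ℂ → EN M, WCrv θ RD F → ∀ Y : NCLift X F,
      ∀ z ∈ Y.U i, Y.p i z = x' → z ∈ Y.U (n i x hx).1 ∧ Y.p (n i x hx).1 z ∈ ball (n i x hx).2.1 ((n i x hx).2.2.t / 4)}) fun x hx => hn i x hx
  choose t ht using hfin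
  obtain ⟨k, ⟨e⟩⟩ : ∃ k, Nonempty ((Σ i : X.ι, {x : X.C i // x ∈ t i}) ≃ Fin k) := ⟨_, ⟨Fintype.equivFin _⟩⟩
  obtain ⟨G, hG⟩ : ∃ G : (Σ i : X.ι, {x : X.C i // x ∈ t i}) → (Σ i' : X.ι, Σ y' : ℂ × ℂ, NDat D i' y'), ∀ v, G v = n v.1 v.2.1.1 v.2.1.2 :=
    ⟨_, fun _ => rfl⟩
  obtain ⟨g, hg⟩ : ∃ g : Fin k → (Σ i' : X.ι, Σ y' : ℂ × ℂ, NDat D i' y'), ∀ j, g j = G (e.symm j) := ⟨_, fun _ => rfl⟩
  refine ⟨{ nP := D.nP
            ck := D.ck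
            Q := D.Q
            r := D.r
            s := D.s
            nN := k
            b := fun j => (g j).1
            y := fun j => (g j).2.1
            t := fun j => (g j).2.2.t
            u := fun j => (g j).2.2.u
            s_pos := D.s_pos
            s_lt := D.s_lt
            Q_mem := D.Q_mem
            P_sub := D.P_sub
            P_reg := D.P_reg
            t_pos := fun j => (g j).2.2.t_pos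
            N_sub := fun j => (g j).2.2.sub
            N_B := fun j => (g j).2.2.eqn
            K := fun j => (g j).2.2.K
            K_compact := fun j => (g j).2.2.K_compact
            K_A := fun j => (g j).2.2.K_A
            K_B := fun j => (g j).2.2.K_B
            cover := ?_
            disj := D.disj
            lift := fun F hF Y j => (g j).2.2.lift F hF Y }, D.r_le⟩
  intro F hF Y z
  obtain ⟨i, hz, hzC⟩ := Y.cover z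
  obtain ⟨x, hx, hxz⟩ := Set.mem_iUnion₂.1 (ht i hzC)
  refine ⟨e ⟨i, ⟨x, hx⟩⟩, ?_⟩
  have h1 : g (e ⟨i, ⟨x, hx⟩⟩) = n i x.1 x.2 := by
    rw [hg, Equiv.symm_apply_apply, hG]
  have h2 : ∀ w : (Σ i' : X.ι, Σ y' : ℂ × ℂ, NDat D i' y'), w = n i x.1 x.2 → z ∈ Y.U w.1 ∧ Y.p w.1 z ∈ ball w.2.1 (w.2.2.t / 4) := by
    rintro w rfl
    exact hxz F hF Y z hz rfl
  exact h2 _ h1

end Pool.Agent.MQ3
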