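import Pool.Agent.MQ.VDefs
import Pool.Agent.MQ.FS
import Pool.Agent.MQ.Bridge

/-!
# MQ3 Cut: the setting of the energy estimates, the cut-off, the basic inequality
-/

set_option autoImplicit false

open MeasureTheory Topology Filter Metric Laplacian

noncomputable section

namespace Pool.Agent.MQ3

open Pool.Agent.MQ
open Pool.Agent.H30M (tau rhoR avg rho gg lap_comp lap_mul lap_congr gg_congr gg_sq_le gg_self_nonneg gg_comm gg_comp green_tau tau_nonneg contDiff_tau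
  hcs_tau rhoR_nonneg continuous_rhoR hcs_rhoR int_rhoR)

/-- the coordinates of a curve in a box -/
structure Crd (U : Set ℂ) (x y : ℂ → ℂ) : Prop where
  isOpen : IsOpen U
  hx : DifferentiableOn ℂ x U
  hy : DifferentiableOn ℂ y U
  closed : ∀ r : ℝ, r < 1 → IsClosed {z | z ∈ U ∧ ‖x z‖ ≤ r ∧ ‖y z‖ ≤ r}

/-- the same, with a bound for the speed -/
structure Crds (U : Set ℂ) (x y : ℂ → ℂ) (l : ℂ → ℝ) : Prop where
  isOpen : IsOpen U
  hx : DifferentiableOn ℂ x U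
  hy : DifferentiableOn ℂ y U
  closed : ∀ r : ℝ, r < 1 → IsClosed {z | z ∈ U ∧ ‖x z‖ ≤ r ∧ ‖y z‖ ≤ r}
  nonneg : ∀ z, 0 ≤ l z
  bd : ∃ C : ℝ, ∀ z ∈ U, ‖deriv x z‖ ≤ C * l z ∧ ‖deriv y z‖ ≤ C * l z

variable {U : Set ℂ} {x y : ℂ → ℂ} {l : ℂ → ℝ}

theorem Crds.crd (h : Crds U x y l) : Crd U x y := ⟨h.isOpen, h.hx, h.hy, h.closed⟩

theorem Crd.ax (h : Crd U x y) {z : ℂ} (hz : z ∈ U) : AnalyticAt ℂ x z := h.hx.analyticAt (h.isOpen.mem_nhds hz)

theorem Crd.ay (h : Crd U x y) {z : ℂ} (hz : z ∈ U) : AnalyticAt ℂ y z := h.hy.analyticAt (h.isOpen.mem_nhds hz)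

theorem Crd.symm (h : Crd U x y) : Crd U y x := by
  refine ⟨h.isOpen, h.hy, h.hx, fun r hr => ?_⟩
  have := h.closed r hr
  convert this using 1
  ext z
  constructor
  · rintro ⟨h1, h2, h3⟩
    exact ⟨h1, h3, h2⟩
  · rintro ⟨h1, h2, h3⟩
    exact ⟨h1, h3, h2⟩

theorem Crds.symm (h : Crds U x y l) : Crds U y x l := by
  refine ⟨h.isOpen, h.hy, h.hx, h.crd.symm.closed, h.nonneg, ?_⟩
  obtain ⟨C, hC⟩ := h.bd
  exact ⟨C, fun z hz => ⟨(hC z hz).2, (hC z hz).1⟩⟩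

/-! ## the square of the modulus -/

theorem cd_sq {x : ℂ → ℂ} {z : ℂ} (hx : AnalyticAt ℂ x z) : ContDiffAt ℝ 2 (fun w => ‖x w‖ ^ 2) z := contDiffAt_sqnorm hx

theorem lap_sq {x : ℂ → ℂ} {z : ℂ} (hx : AnalyticAt ℂ x z) : Δ (fun w => ‖x w‖ ^ 2) z = 4 * ‖deriv x z‖ ^ 2 := by
  rw [← lp_eq_lap (cd_sq hx), lp_sqnorm hx]

theorem gg_sq {x : ℂ → ℂ} {z : ℂ} (hx : AnalyticAt ℂ x z) :
    gg (fun w => ‖x w‖ ^ 2) (fun w => ‖x w‖ ^ 2) z = 4 * ‖x z‖ ^ 2 * ‖deriv x z‖ ^ 2 := by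
  rw [gg_self, gr_sqnorm hx.differentiableAt.hasDerivAt, norm_mul, RCLike.norm_conj, Complex.norm_ofNat]
  have : ‖inner ℂ (x z) (deriv x z)‖ = ‖x z‖ * ‖deriv x z‖ := by
    rw [RCLike.inner_apply, norm_mul, RCLike.norm_conj, mul_comm]
  rw [this]
  ring

/-! ## the cut-off -/

/-- a smooth function, `1` for `t ≤ a`, `0` for `b ≤ t` -/
def et (a b t : ℝ) : ℝ := Real.smoothTransition ((b - t) / (b - a))

theorem et_nonneg (a b t : ℝ) : 0 ≤ et a b t := Real.smoothTransition.nonneg _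

theorem et_le_one (a b t : ℝ) : et a b t ≤ 1 := Real.smoothTransition.le_one _

theorem et_one {a b t : ℝ} (hab : a < b) (ht : t ≤ a) : et a b t = 1 :=
  Real.smoothTransition.one_of_one_le (by rw [one_le_div (by linarith)]; linarith)

theorem et_zero {a b t : ℝ} (hab : a < b) (ht : b ≤ t) : et a b t = 0 :=
  Real.smoothTransition.zero_of_nonpos (div_nonpos_of_nonpos_of_nonneg (by linarith) (by linarith))

theorem et_cd (a b : ℝ) : ContDiff ℝ 2 (et a b) :=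
  Real.smoothTransition.contDiff.comp ((contDiff_const.sub contDiff_id).div_const _)

theorem et_bd (a b : ℝ) : ∃ C : ℝ, 0 ≤ C ∧ ∀ t, 0 ≤ t → t ≤ 1 → |deriv (et a b) t| ≤ C ∧ |deriv (deriv (et a b)) t| ≤ C := by
  have h1 : ContDiff ℝ 1 (deriv (et a b)) := by
    have := (et_cd a b).iterate_deriv' 1 1
    simpa using this
  have h0 : Continuous (deriv (et a b)) := h1.continuous
  have h2 : Continuous (deriv (deriv (et a b))) := h1.continuous_deriv le_rfl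
  obtain ⟨C1, hC1⟩ := (isCompact_Icc (a := (0 : ℝ)) (b := 1)).exists_bound_of_continuousOn h0.continuousOn
  obtain ⟨C2, hC2⟩ := (isCompact_Icc (a := (0 : ℝ)) (b := 1)).exists_bound_of_continuousOn h2.continuousOn
  refine ⟨max 0 (max C1 C2), le_max_left _ _, fun t h0 h1 => ⟨?_, ?_⟩⟩
  · exact (hC1 t ⟨h0, h1⟩).trans ((le_max_left _ _).trans (le_max_right _ _))
  · exact (hC2 t ⟨h0, h1⟩).trans ((le_max_right _ _).trans (le_max_right _ _))

open Classical in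
/-- the cut-off along the curve -/
def cut (U : Set ℂ) (x y : ℂ → ℂ) (a b : ℝ) (z : ℂ) : ℝ := if z ∈ U then et a b (‖x z‖ ^ 2) * et a b (‖y z‖ ^ 2) else 0

/-- the support of the cut-off -/
def Kb (U : Set ℂ) (x y : ℂ → ℂ) (b : ℝ) : Set ℂ := {z | z ∈ U ∧ ‖x z‖ ^ 2 ≤ b ∧ ‖y z‖ ^ 2 ≤ b}

theorem cut_nonneg (a b : ℝ) (z : ℂ) : 0 ≤ cut U x y a b z := by
  unfold cut
  split_ifs
  · exact mul_nonneg (et_nonneg _ _ _) (et_nonneg _ _ _)
  · exact le_rfl

theorem cut_le_one (a b : ℝ) (z : ℂ) : cut U x y a b z ≤ 1 := by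
  unfold cut
  split_ifs
  · exact mul_le_one₀ (et_le_one _ _ _) (et_nonneg _ _ _) (et_le_one _ _ _)
  · exact zero_le_one

theorem closed_Kb (h : Crd U x y) {b : ℝ} (hb0 : 0 ≤ b) (hb : b < 1) : IsClosed (Kb U x y b) := by
  have := h.closed (√b) (by rw [Real.sqrt_lt' one_pos]; simpa using hb)
  convert this using 1
  ext z
  simp only [Kb, Set.mem_ofPred_eq]
  rw [Real.le_sqrt (norm_nonneg _) hb0, Real.le_sqrt (norm_nonneg _) hb0]

theorem cut_eq_zero {a b : ℝ} (hab : a < b) {z : ℂ} (hz : z ∉ Kb U x y b) : cut U x y a b z = 0 := by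
  unfold cut
  split_ifs with h1
  · by_cases h2 : ‖x z‖ ^ 2 ≤ b
    · by_cases h3 : ‖y z‖ ^ 2 ≤ b
      · exact absurd ⟨h1, h2, h3⟩ hz
      · rw [et_zero hab (not_le.1 h3).le, mul_zero]
    · rw [et_zero hab (not_le.1 h2).le, zero_mul]
  · rfl

theorem cut_ev_zero (h : Crd U x y) {a b : ℝ} (hb0 : 0 ≤ b) (hab : a < b) (hb : b < 1) {z : ℂ} (hz : z ∉ Kb U x y b) :
    cut U x y a b =ᶠ[𝓝 z] fun _ => 0 := by
  filter_upwards [(closed_Kb h hb0 hb).isOpen_compl.mem_nhds hz] with w hw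
  exact cut_eq_zero hab hw

theorem cut_ev (h : Crd U x y) {a b : ℝ} {z : ℂ} (hz : z ∈ U) :
    cut U x y a b =ᶠ[𝓝 z] fun w => et a b (‖x w‖ ^ 2) * et a b (‖y w‖ ^ 2) := by
  filter_upwards [h.isOpen.mem_nhds hz] with w hw
  unfold cut
  rw [if_pos hw]

theorem cut_cd (h : Crd U x y) {a b : ℝ} (hb0 : 0 ≤ b) (hab : a < b) (hb : b < 1) : ContDiff ℝ 2 (cut U x y a b) := by
  rw [contDiff_iff_contDiffAt]
  intro z
  by_cases hz : z ∈ Kb U x y b
  · refine ContDiffAt.congr_of_eventuallyEq ?_ (cut_ev h hz.1)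
    exact ((et_cd a b).contDiffAt.comp z (cd_sq (h.ax hz.1))).mul ((et_cd a b).contDiffAt.comp z (cd_sq (h.ay hz.1)))
  · exact contDiffAt_const.congr_of_eventuallyEq (cut_ev_zero h hb0 hab hb hz)

/-- the inner region, where the cut-off is `1` -/
def Inn (x y : ℂ → ℂ) (a : ℝ) (z : ℂ) : Prop := ‖x z‖ ^ 2 < a ∧ ‖y z‖ ^ 2 < a

theorem cut_ev_one (h : Crd U x y) {a b : ℝ} (hab : a < b) {z : ℂ} (hz : z ∈ U) (hi : Inn x y a z) :
    cut U x y a b =ᶠ[𝓝 z] fun _ => 1 := by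
  have h1 := (cd_sq (h.ax hz)).continuousAt.eventually (gt_mem_nhds hi.1)
  have h2 := (cd_sq (h.ay hz)).continuousAt.eventually (gt_mem_nhds hi.2)
  filter_upwards [h.isOpen.mem_nhds hz, h1, h2] with w hw hw1 hw2
  unfold cut
  rw [if_pos hw, et_one hab hw1.le, et_one hab hw2.le, one_mul]

theorem gg_add_le {u v : ℂ → ℝ} {z : ℂ} (hu : DifferentiableAt ℝ u z) (hv : DifferentiableAt ℝ v z) :
    gg (fun w => u w + v w) (fun w => u w + v w) z ≤ 2 * gg u u z + 2 * gg v v z := by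
  unfold gg
  rw [fderiv_fun_add hu hv]
  simp only [add_apply]
  nlinarith [sq_nonneg (fderiv ℝ u z 1 - fderiv ℝ v z 1), sq_nonneg (fderiv ℝ u z Complex.I - fderiv ℝ v z Complex.I)]

theorem abs_mul_le' {p q E Q : ℝ} (hp : |p| ≤ E) (hq : 0 ≤ q) (hQ : q ≤ Q) : |p * q| ≤ E * Q := by
  rw [abs_mul, abs_of_nonneg hq]
  exact mul_le_mul hp hQ hq ((abs_nonneg _).trans hp)

/-- bounds for the cut-off -/
theorem cut_bd (h : Crd U x y) (hl0 : ∀ z, 0 ≤ l z) {a b : ℝ} (hb0 : 0 ≤ b) (hab : a < b) (hb : b < 1)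
    (hbd : ∃ D : ℝ, ∀ z ∈ Kb U x y b, ‖deriv x z‖ ≤ D * l z ∧ ‖deriv y z‖ ≤ D * l z) : ∃ C : ℝ, 0 ≤ C ∧ ∀ z,
    gg (cut U x y a b) (cut U x y a b) z ≤ C * l z ^ 2 ∧ |Δ (cut U x y a b) z| ≤ C * l z ^ 2 := by
  obtain ⟨E, hE0, hE⟩ := et_bd a b
  obtain ⟨D, hD⟩ := hbd
  refine ⟨64 * (E + 1) ^ 2 * D ^ 2, by positivity, fun z => ?_⟩
  by_cases hz : z ∈ Kb U x y b
  · obtain ⟨dx, dy⟩ := hD z hz
    obtain ⟨hzU, hx1, hy1⟩ := hz
    set u : ℂ → ℝ := fun w => ‖x w‖ ^ 2 with hu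
    set v : ℂ → ℝ := fun w => ‖y w‖ ^ 2 with hv
    have cu : ContDiffAt ℝ 2 u z := cd_sq (h.ax hzU)
    have cv : ContDiffAt ℝ 2 v z := cd_sq (h.ay hzU)
    have du := cu.differentiableAt (by norm_num)
    have dv := cv.differentiableAt (by norm_num)
    have ce := (et_cd a b).contDiffAt (x := u z)
    have ce' := (et_cd a b).contDiffAt (x := v z)
    have de := ce.differentiableAt (by norm_num)
    have de' := ce'.differentiableAt (by norm_num)
    have hu0 : 0 ≤ u z := by positivity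
    have hv0 : 0 ≤ v z := by positivity
    have hub : u z ≤ 1 := hx1.trans hb.le
    have hvb : v z ≤ 1 := hy1.trans hb.le
    obtain ⟨p1, p2⟩ := hE (u z) hu0 hub
    obtain ⟨q1, q2⟩ := hE (v z) hv0 hvb
    have hl := hl0 z
    have nx : ‖deriv x z‖ ^ 2 ≤ D ^ 2 * l z ^ 2 := by
      rw [← mul_pow]
      exact pow_le_pow_left₀ (norm_nonneg _) dx 2
    have ny : ‖deriv y z‖ ^ 2 ≤ D ^ 2 * l z ^ 2 := by
      rw [← mul_pow]
      exact pow_le_pow_left₀ (norm_nonneg _) dy 2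
    set m := D ^ 2 * l z ^ 2 with hm
    have hm0 : 0 ≤ m := (sq_nonneg _).trans nx
    -- the two factors
    set f : ℂ → ℝ := fun w => et a b (u w) with hf
    set g : ℂ → ℝ := fun w => et a b (v w) with hg
    have cf : ContDiffAt ℝ 2 f z := ce.comp z cu
    have cg : ContDiffAt ℝ 2 g z := ce'.comp z cv
    have gu : gg u u z = 4 * u z * ‖deriv x z‖ ^ 2 := gg_sq (h.ax hzU)
    have gv : gg v v z = 4 * v z * ‖deriv y z‖ ^ 2 := gg_sq (h.ay hzU)
    have gf : gg f f z ≤ 4 * E ^ 2 * m := by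
      have e1 : gg f f z = deriv (et a b) (u z) ^ 2 * gg u u z := by
        rw [gg_comp de du, gg_comm u f, gg_comp de du]
        ring
      rw [e1, gu]
      have e2 : deriv (et a b) (u z) ^ 2 ≤ E ^ 2 := sq_le_sq' (by linarith [(abs_le.1 p1).1]) (abs_le.1 p1).2
      calc deriv (et a b) (u z) ^ 2 * (4 * u z * ‖deriv x z‖ ^ 2) ≤ E ^ 2 * (4 * 1 * m) := by gcongr
        _ = _ := by ring
    have gg' : gg g g z ≤ 4 * E ^ 2 * m := by
      have e1 : gg g g z = deriv (et a b) (v z) ^ 2 * gg v v z := by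
        rw [gg_comp de' dv, gg_comm v g, gg_comp de' dv]
        ring
      rw [e1, gv]
      have e2 : deriv (et a b) (v z) ^ 2 ≤ E ^ 2 := sq_le_sq' (by linarith [(abs_le.1 q1).1]) (abs_le.1 q1).2
      calc deriv (et a b) (v z) ^ 2 * (4 * v z * ‖deriv y z‖ ^ 2) ≤ E ^ 2 * (4 * 1 * m) := by gcongr
        _ = _ := by ring
    have lf : |Δ f z| ≤ 8 * E * m := by
      rw [lap_comp ce cu, lap_sq (h.ax hzU), gu]
      refine (abs_add_le _ _).trans ((add_le_add (abs_mul_le' p1 (by positivity) (show 4 * ‖deriv x z‖ ^ 2 ≤ 4 * m by gcongr))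
        (abs_mul_le' p2 (by positivity) (show 4 * u z * ‖deriv x z‖ ^ 2 ≤ 4 * 1 * m by gcongr))).trans (le_of_eq (by ring)))
    have lg : |Δ g z| ≤ 8 * E * m := by
      rw [lap_comp ce' cv, lap_sq (h.ay hzU), gv]
      refine (abs_add_le _ _).trans ((add_le_add (abs_mul_le' q1 (by positivity) (show 4 * ‖deriv y z‖ ^ 2 ≤ 4 * m by gcongr))
        (abs_mul_le' q2 (by positivity) (show 4 * v z * ‖deriv y z‖ ^ 2 ≤ 4 * 1 * m by gcongr))).trans (le_of_eq (by ring)))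
    have f0 : 0 ≤ f z := et_nonneg _ _ _
    have f1 : f z ≤ 1 := et_le_one _ _ _
    have g0 : 0 ≤ g z := et_nonneg _ _ _
    have g1 : g z ≤ 1 := et_le_one _ _ _
    have hcut : cut U x y a b =ᶠ[𝓝 z] fun w => f w * g w := cut_ev h hzU
    have gfg : |gg f g z| ≤ 4 * E ^ 2 * m := by
      refine (Pool.Agent.H30M.abs_gg_le f g z).trans ?_
      have s1 : √(gg f f z) * √(gg g g z) ≤ √(4 * E ^ 2 * m) * √(4 * E ^ 2 * m) := by
        gcongr
      refine s1.trans ?_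
      rw [Real.mul_self_sqrt (by positivity)]
    constructor
    · rw [gg_congr hcut, gg_comm, gg_congr hcut]
      have e1 : gg (fun w => f w * g w) (fun w => f w * g w) z =
          f z ^ 2 * gg g g z + g z ^ 2 * gg f f z + 2 * (f z * g z) * gg f g z := by
        unfold gg
        rw [fderiv_fun_mul (cf.differentiableAt (by norm_num)) (cg.differentiableAt (by norm_num))]
        simp only [add_apply, smul_apply, smul_eq_mul]
        ring
      rw [e1]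
      have e2 : f z ^ 2 * gg g g z ≤ 1 ^ 2 * (4 * E ^ 2 * m) := by
        have := gg_self_nonneg g z
        gcongr
      have e3 : g z ^ 2 * gg f f z ≤ 1 ^ 2 * (4 * E ^ 2 * m) := by
        have := gg_self_nonneg f z
        gcongr
      have e4 : 2 * (f z * g z) * gg f g z ≤ 2 * (1 * 1) * (4 * E ^ 2 * m) := by
        refine (le_abs_self _).trans ?_
        rw [abs_mul, abs_of_nonneg (by positivity)]
        gcongr
      have e5 : E ^ 2 ≤ (E + 1) ^ 2 := by nlinarith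
      have : 16 * E ^ 2 * m ≤ 16 * (E + 1) ^ 2 * m := by gcongr
      have e6 : 64 * (E + 1) ^ 2 * D ^ 2 * l z ^ 2 = 64 * (E + 1) ^ 2 * m := by rw [hm]; ring
      rw [e6]
      nlinarith [mul_nonneg (sq_nonneg (E + 1)) hm0]
    · rw [lap_congr hcut, lap_mul cf cg]
      have e2 : |f z * Δ g z| ≤ 1 * (8 * E * m) := by
        rw [abs_mul, abs_of_nonneg f0]
        gcongr
      have e3 : |g z * Δ f z| ≤ 1 * (8 * E * m) := by
        rw [abs_mul, abs_of_nonneg g0]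
        gcongr
      have e4 : |2 * gg f g z| ≤ 2 * (4 * E ^ 2 * m) := by
        rw [abs_mul, abs_of_nonneg (by norm_num : (0 : ℝ) ≤ 2)]
        gcongr
      have e5 : |f z * Δ g z + g z * Δ f z + 2 * gg f g z| ≤ 1 * (8 * E * m) + 1 * (8 * E * m) + 2 * (4 * E ^ 2 * m) :=
        (abs_add_le _ _).trans (add_le_add ((abs_add_le _ _).trans (add_le_add e2 e3)) e4)
      refine e5.trans ?_
      have e6 : 64 * (E + 1) ^ 2 * D ^ 2 * l z ^ 2 = 64 * (E + 1) ^ 2 * m := by rw [hm]; ring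
      rw [e6]
      nlinarith [mul_nonneg hE0 hm0, mul_nonneg (sq_nonneg E) hm0]
  · have h0 := cut_ev_zero h hb0 hab hb hz
    have e1 : gg (cut U x y a b) (cut U x y a b) z = 0 := by
      rw [gg_congr h0]
      unfold gg
      simp
    have e2 : Δ (cut U x y a b) z = 0 := by
      rw [lap_congr h0]
      simp [InnerProductSpace.laplacian_const]
    rw [e1, e2, abs_zero]
    constructor <;> positivity

end Pool.Agent.MQ3
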