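import Pool.Agent.MQ3.EnT

/-!
# MQ3 EnL: the energy of the coordinates of a monomial chart
-/

set_option autoImplicit false

open MeasureTheory Topology Filter Metric Laplacian

noncomputable section

namespace Pool.Agent.MQ3

open Pool.Agent.MQ
open Pool.Agent.H36.BP (EN)
open Pool.Agent.H30M (tau tau_nonneg contDiff_tau)

variable {U V : Set ℂ} {x y s t : ℂ → ℂ} {l : ℂ → ℝ}

/-- the density of `EnT` -/
def dT (x y : ℂ → ℂ) (p q : ℝ) (z : ℂ) : ℝ := ‖x z‖ ^ (2 * p) * ‖y z‖ ^ (2 * q) / (‖x z‖ ^ (2 * p) + ‖y z‖ ^ (2 * q)) ^ 2 *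
  ‖(p : ℂ) * (deriv x z / x z) - q * (deriv y z / y z)‖ ^ 2

theorem rpow_two_inv {u : ℝ} (hu : 0 < u) {a : ℕ} (ha : 1 ≤ a) : (u ^ a) ^ (2 * (1 / (a : ℝ)) - 2) = u ^ 2 * ((u ^ a) ^ 2)⁻¹ := by
  have ha' : (0 : ℝ) < a := by exact_mod_cast ha
  have h1 : 0 < u ^ a := by positivity
  rw [Real.rpow_sub h1, Real.rpow_two, div_eq_mul_inv]
  congr 1
  rw [← Real.rpow_natCast u a, ← Real.rpow_mul hu.le, ← Real.rpow_natCast u 2]
  congr 1
  push_cast
  field_simp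

/-- logarithmic derivative of a monomial -/
theorem dlog_mono (hV : IsOpen V) (hs : DifferentiableOn ℂ s V) (ht : DifferentiableOn ℂ t V) {a b : ℕ} (hx : ∀ z ∈ V, x z = s z ^ a * t z ^ b) {z : ℂ}
    (hz : z ∈ V) (hs0 : s z ≠ 0) (ht0 : t z ≠ 0) : deriv x z / x z = a * (deriv s z / s z) + b * (deriv t z / t z) := by
  have hsd := (hs.differentiableAt (hV.mem_nhds hz)).hasDerivAt
  have htd := (ht.differentiableAt (hV.mem_nhds hz)).hasDerivAt
  have h1 : HasDerivAt (fun w => s w ^ a * t w ^ b) (a * s z ^ (a - 1) * deriv s z * t z ^ b + s z ^ a * (b * t z ^ (b - 1) * deriv t z)) z :=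
    (hsd.fun_pow a).mul (htd.fun_pow b)
  have e : x =ᶠ[𝓝 z] fun w => s w ^ a * t w ^ b := by
    filter_upwards [hV.mem_nhds hz] with w hw
    exact hx w hw
  rw [e.deriv_eq, h1.deriv, hx z hz]
  have hsa : ((a : ℂ) * s z ^ (a - 1)) * s z = a * s z ^ a := by
    rcases Nat.eq_zero_or_pos a with h | h
    · simp [h]
    · rw [mul_assoc, ← pow_succ, Nat.sub_add_cancel h]
  have htb : ((b : ℂ) * t z ^ (b - 1)) * t z = b * t z ^ b := by
    rcases Nat.eq_zero_or_pos b with h | h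
    · simp [h]
    · rw [mul_assoc, ← pow_succ, Nat.sub_add_cancel h]
  have h2 : s z ^ a ≠ 0 := pow_ne_zero _ hs0
  have h3 : t z ^ b ≠ 0 := pow_ne_zero _ ht0
  rw [div_eq_iff (mul_ne_zero h2 h3)]
  have e1 : (a * s z ^ (a - 1) * deriv s z * t z ^ b) * s z = (a : ℂ) * (deriv s z) * s z ^ a * t z ^ b := by
    calc _ = ((a : ℂ) * s z ^ (a - 1)) * s z * (deriv s z * t z ^ b) := by ring
      _ = _ := by rw [hsa]; ring
  have e2 : (s z ^ a * (b * t z ^ (b - 1) * deriv t z)) * t z = (b : ℂ) * (deriv t z) * s z ^ a * t z ^ b := by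
    calc _ = ((b : ℂ) * t z ^ (b - 1)) * t z * (deriv t z * s z ^ a) := by ring
      _ = _ := by rw [htb]; ring
  have e1' : a * s z ^ (a - 1) * deriv s z * t z ^ b = (a : ℂ) * (deriv s z / s z) * (s z ^ a * t z ^ b) := by
    refine mul_right_cancel₀ hs0 ?_
    rw [e1]
    field_simp
  have e2' : s z ^ a * (b * t z ^ (b - 1) * deriv t z) = (b : ℂ) * (deriv t z / t z) * (s z ^ a * t z ^ b) := by
    refine mul_right_cancel₀ ht0 ?_
    rw [e2]
    field_simp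
  rw [e1', e2']
  ring

theorem coef_ge {u α β : ℝ} (hu : 0 < u) (hu1 : u ≤ 1) (h1 : α - β ≤ 2) (h2 : β - α ≤ 2) : u ^ 2 / 4 ≤ u ^ α * u ^ β / (u ^ α + u ^ β) ^ 2 := by
  have key : ∀ {α β : ℝ}, α - β ≤ 2 → β ≤ α → u ^ 2 / 4 ≤ u ^ α * u ^ β / (u ^ α + u ^ β) ^ 2 := by
    intro α β h1 h
    have hA := Real.rpow_pos_of_pos hu α
    have hB := Real.rpow_pos_of_pos hu β
    have hAB : u ^ α ≤ u ^ β := Real.rpow_le_rpow_of_exponent_ge hu hu1 h
    have h3 : (u ^ α + u ^ β) ^ 2 ≤ 4 * (u ^ β) ^ 2 := by nlinarith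
    have h4 : u ^ α = u ^ (α - β) * u ^ β := by rw [← Real.rpow_add hu]; congr 1; ring
    have h5 : u ^ (2 : ℝ) ≤ u ^ (α - β) := Real.rpow_le_rpow_of_exponent_ge hu hu1 h1
    rw [Real.rpow_two] at h5
    rw [div_le_div_iff₀ (by norm_num) (by positivity)]
    calc u ^ 2 * (u ^ α + u ^ β) ^ 2 ≤ u ^ 2 * (4 * (u ^ β) ^ 2) := mul_le_mul_of_nonneg_left h3 (by positivity)
      _ ≤ u ^ (α - β) * (4 * (u ^ β) ^ 2) := mul_le_mul_of_nonneg_right h5 (by positivity)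
      _ = u ^ α * u ^ β * 4 := by rw [h4]; ring
  rcases le_total β α with h | h
  · exact key h1 h
  · have := key h2 h
    rwa [mul_comm (u ^ β), add_comm (u ^ β)] at this

/-- the pointwise estimate, interior case -/
theorem pt_T (hV : IsOpen V) (hs : DifferentiableOn ℂ s V) (ht : DifferentiableOn ℂ t V) {a b c d : ℕ} (hD : (a : ℤ) * d - b * c ≠ 0)
    (hb : 1 ≤ b) (hd : 1 ≤ d) (hx : ∀ z ∈ V, x z = s z ^ a * t z ^ b) (hy : ∀ z ∈ V, y z = s z ^ c * t z ^ d) {z : ℂ} (hz : z ∈ V)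
    (hs0 : s z ≠ 0) (ht0 : t z ≠ 0) (hs1 : ‖s z‖ ≤ 1) :
    ‖deriv s z‖ ^ 2 ≤ 4 * ((b : ℝ) * d) ^ 2 * dT x y (1 / (|(a : ℝ) * d - b * c| * b)) (1 / (|(a : ℝ) * d - b * c| * d)) z := by
  have hDR : (a : ℝ) * d - b * c ≠ 0 := by exact_mod_cast hD
  set D : ℝ := (a : ℝ) * d - b * c with hDd
  have hD1 : 1 ≤ |D| := by
    have h1 : (1 : ℤ) ≤ |(a : ℤ) * d - b * c| := Int.one_le_abs hD
    have h2 : ((|(a : ℤ) * d - b * c| : ℤ) : ℝ) = |D| := by
      rw [Int.cast_abs]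
      push_cast
      rfl
    rw [← h2]
    exact_mod_cast h1
  have hDpos : 0 < |D| := by linarith
  have hb' : (0 : ℝ) < b := by exact_mod_cast hb
  have hd' : (0 : ℝ) < d := by exact_mod_cast hd
  have hbd1 : (1 : ℝ) ≤ b * d := by
    have : 1 ≤ b * d := Nat.one_le_iff_ne_zero.2 (by positivity)
    exact_mod_cast this
  have hu : 0 < ‖s z‖ := norm_pos_iff.2 hs0
  have hv : 0 < ‖t z‖ := norm_pos_iff.2 ht0
  set p : ℝ := 1 / (|D| * b) with hp
  set q : ℝ := 1 / (|D| * d) with hq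
  have hpb : p * b = 1 / |D| := by rw [hp]; field_simp
  have hqd : q * d = 1 / |D| := by rw [hq]; field_simp
  set T : ℝ := ‖t z‖ ^ (2 * (1 / |D|)) with hT
  have hTpos : 0 < T := Real.rpow_pos_of_pos hv _
  have ex : ‖x z‖ ^ (2 * p) = ‖s z‖ ^ (2 * p * a) * T := by
    rw [hx z hz, norm_mul, norm_pow, norm_pow, Real.mul_rpow (by positivity) (by positivity), ← Real.rpow_natCast, ← Real.rpow_natCast,
      ← Real.rpow_mul hu.le, ← Real.rpow_mul hv.le, hT, ← hpb]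
    congr 2 <;> ring
  have ey : ‖y z‖ ^ (2 * q) = ‖s z‖ ^ (2 * q * c) * T := by
    rw [hy z hz, norm_mul, norm_pow, norm_pow, Real.mul_rpow (by positivity) (by positivity), ← Real.rpow_natCast, ← Real.rpow_natCast,
      ← Real.rpow_mul hu.le, ← Real.rpow_mul hv.le, hT, ← hqd]
    congr 2 <;> ring
  have hA := Real.rpow_pos_of_pos hu (2 * p * a)
  have hB := Real.rpow_pos_of_pos hu (2 * q * c)
  have hcoef : ‖x z‖ ^ (2 * p) * ‖y z‖ ^ (2 * q) / (‖x z‖ ^ (2 * p) + ‖y z‖ ^ (2 * q)) ^ 2 =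
      ‖s z‖ ^ (2 * p * a) * ‖s z‖ ^ (2 * q * c) / (‖s z‖ ^ (2 * p * a) + ‖s z‖ ^ (2 * q * c)) ^ 2 := by
    rw [ex, ey]
    field_simp
  have hdiff : p * a - q * c = D / (|D| * (b * d)) := by
    rw [hp, hq, hDd]
    field_simp
  have habs : |p * a - q * c| = 1 / (b * d) := by
    rw [hdiff, abs_div, abs_of_pos (show 0 < |D| * (b * d) by positivity)]
    field_simp
  have hle : |p * a - q * c| ≤ 1 := by
    rw [habs, div_le_one (by positivity)]
    exact hbd1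
  have hc1 := coef_ge hu hs1 (α := 2 * p * a) (β := 2 * q * c) (by linarith [le_abs_self (p * a - q * c)]) (by linarith [neg_abs_le (p * a - q * c)])
  have hlog : (p : ℂ) * (deriv x z / x z) - q * (deriv y z / y z) = ((p * a - q * c : ℝ) : ℂ) * (deriv s z / s z) := by
    rw [dlog_mono hV hs ht hx hz hs0 ht0, dlog_mono hV hs ht hy hz hs0 ht0]
    have h1 : ((p * b : ℝ) : ℂ) = ((q * d : ℝ) : ℂ) := by rw [hpb, hqd]
    push_cast at h1 ⊢
    linear_combination (deriv t z / t z) * h1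
  unfold dT
  rw [hcoef, hlog, norm_mul, Complex.norm_real, Real.norm_eq_abs, habs, norm_div]
  have h3 : ‖s z‖ ^ 2 / 4 * (1 / (b * d) * (‖deriv s z‖ / ‖s z‖)) ^ 2 ≤
      ‖s z‖ ^ (2 * p * a) * ‖s z‖ ^ (2 * q * c) / (‖s z‖ ^ (2 * p * a) + ‖s z‖ ^ (2 * q * c)) ^ 2 * (1 / (b * d) * (‖deriv s z‖ / ‖s z‖)) ^ 2 :=
    mul_le_mul_of_nonneg_right hc1 (sq_nonneg _)
  have h4 : ‖s z‖ ^ 2 / 4 * (1 / ((b : ℝ) * d) * (‖deriv s z‖ / ‖s z‖)) ^ 2 = ‖deriv s z‖ ^ 2 / (4 * (b * d) ^ 2) := by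
    field_simp
  rw [h4] at h3
  calc ‖deriv s z‖ ^ 2 = 4 * (b * d) ^ 2 * (‖deriv s z‖ ^ 2 / (4 * (b * d) ^ 2)) := by field_simp
    _ ≤ _ := mul_le_mul_of_nonneg_left h3 (by positivity)

/-- the pointwise estimate, `x = s ^ a` -/
theorem pt_R (hV : IsOpen V) (hs : DifferentiableOn ℂ s V) {a : ℕ} (ha : 1 ≤ a) (hx : ∀ z ∈ V, x z = s z ^ a) {z : ℂ} (hz : z ∈ V)
    (hs0 : s z ≠ 0) : ‖deriv s z‖ ^ 2 ≤ ‖x z‖ ^ (2 * (1 / (a : ℝ)) - 2) * ‖deriv x z‖ ^ 2 := by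
  have hu : 0 < ‖s z‖ := norm_pos_iff.2 hs0
  have h1 := dlog_mono (x := x) (t := s) (b := 0) hV hs hs (a := a) (fun z hz => by rw [hx z hz, pow_zero, mul_one]) hz hs0 hs0
  have hx0 : x z ≠ 0 := by rw [hx z hz]; exact pow_ne_zero _ hs0
  have h2 : ‖deriv x z‖ = a * (‖deriv s z‖ / ‖s z‖) * ‖s z‖ ^ a := by
    have h3 : deriv x z = (a * (deriv s z / s z)) * s z ^ a := by
      rw [div_eq_iff hx0, hx z hz] at h1
      rw [h1]
      simp
    rw [h3, norm_mul, norm_mul, norm_pow, norm_div, Complex.norm_natCast]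
  have ha' : (1 : ℝ) ≤ a := by exact_mod_cast ha
  rw [h2, hx z hz, norm_pow, rpow_two_inv hu ha]
  have h4 : ‖s z‖ ^ 2 * ((‖s z‖ ^ a) ^ 2)⁻¹ * (a * (‖deriv s z‖ / ‖s z‖) * ‖s z‖ ^ a) ^ 2 = (a : ℝ) ^ 2 * ‖deriv s z‖ ^ 2 := by
    field_simp
  rw [h4]
  have h5 : (1 : ℝ) ≤ (a : ℝ) ^ 2 := by nlinarith
  nlinarith [sq_nonneg ‖deriv s z‖]

/-- comparison of the integrals -/
theorem comp_int {f g : ℂ → ℝ} {S : Set ℂ} (hS : MeasurableSet S) (hf : ContinuousOn f S) (hf0 : ∀ z ∈ S, 0 ≤ f z) {K C E R : ℝ} (hR : 1 ≤ R) (hK : 0 ≤ K)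
    (hg : Integrable fun z => tau R z * g z) (hle : ∀ᵐ z : ℂ, S.indicator f z ≤ K * g z) (hE : ∫ z, tau R z * g z ≤ C * E) :
    Integrable (fun z => tau R z * S.indicator f z) ∧ ∫ z, tau R z * S.indicator f z ≤ K * C * E := by
  have h0 : ∀ z, 0 ≤ S.indicator f z := fun z => Set.indicator_nonneg hf0 z
  have hm : AEStronglyMeasurable fun z => tau R z * S.indicator f z := (contDiff_tau R).continuous.aestronglyMeasurable.mul (meas_ind hS hf)
  have hle' : ∀ᵐ z : ℂ, tau R z * S.indicator f z ≤ K * (tau R z * g z) := by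
    filter_upwards [hle] with z hz
    calc tau R z * S.indicator f z ≤ tau R z * (K * g z) := mul_le_mul_of_nonneg_left hz (tau_nonneg hR z)
      _ = _ := by ring
  have hi : Integrable fun z => tau R z * S.indicator f z := by
    refine (hg.const_mul K).mono' hm ?_
    filter_upwards [hle'] with z hz
    rwa [Real.norm_of_nonneg (mul_nonneg (tau_nonneg hR z) (h0 z))]
  refine ⟨hi, ?_⟩
  calc _ ≤ ∫ z, K * (tau R z * g z) := integral_mono_ae hi (hg.const_mul K) hle'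
    _ = K * ∫ z, tau R z * g z := integral_const_mul _ _
    _ ≤ K * (C * E) := mul_le_mul_of_nonneg_left hE hK
    _ = _ := by ring

/-- the part of the plane in the monomial chart -/
def Ks (V : Set ℂ) (s t : ℂ → ℂ) (r : ℝ) : Set ℂ := {z | z ∈ V ∧ ‖s z‖ ≤ r ∧ ‖t z‖ ≤ r}

theorem meas_Ks (hV : IsOpen V) (hs : DifferentiableOn ℂ s V) (ht : DifferentiableOn ℂ t V) (r : ℝ) : MeasurableSet (Ks V s t r) := by
  have h1 : ContinuousOn (fun z => (‖s z‖, ‖t z‖)) V := hs.continuousOn.norm.prodMk ht.continuousOn.norm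
  obtain ⟨W, hW, e⟩ := (continuousOn_iff_isClosed.1 h1) (Set.Iic r ×ˢ Set.Iic r) (isClosed_Iic.prod isClosed_Iic)
  have h2 : Ks V s t r = W ∩ V := by
    rw [← e]
    ext z
    simp only [Ks, Set.mem_ofPred_eq, Set.mem_inter_iff, Set.mem_preimage, Set.mem_prod, Set.mem_Iic]
    tauto
  rw [h2]
  exact hW.measurableSet.inter hV.measurableSet

/-- **the energy of one coordinate of a monomial chart** -/
theorem enL_one {N : ℕ} {F : ℂ → EN N} (h : Crds U x y l) (hne : ∀ z ∈ U, ∀ᶠ w in 𝓝[≠] z, x w ≠ 0 ∨ y w ≠ 0) (hl : Continuous l)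
    (hB : ∃ B : ℝ, ∀ R, 1 ≤ R → ∫ z, tau R z * l z ^ 2 ≤ B * (En F R + 1)) (hV : IsOpen V) (hVU : V ⊆ U) (hs : DifferentiableOn ℂ s V)
    (ht : DifferentiableOn ℂ t V) {a b c d : ℕ} (hD : (a : ℤ) * d - b * c ≠ 0) (hx : ∀ z ∈ V, x z = s z ^ a * t z ^ b)
    (hy : ∀ z ∈ V, y z = s z ^ c * t z ^ d) (hae : ∀ᵐ z : ℂ, z ∈ V → x z ≠ 0 ∧ y z ≠ 0) {r : ℝ} (hr : r < 1) : ∃ C : ℝ, 0 ≤ C ∧ ∀ R, 1 ≤ R →
      Integrable (fun z => tau R z * (Ks V s t r).indicator (fun z => ‖deriv s z‖ ^ 2) z) ∧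
      ∫ z, tau R z * (Ks V s t r).indicator (fun z => ‖deriv s z‖ ^ 2) z ≤ C * (En F R + 1) := by
  have hab : 1 ≤ a + b := by
    by_contra h0
    have h1 : a = 0 := by omega
    have h2 : b = 0 := by omega
    rw [h1, h2] at hD
    simp at hD
  have hcd : 1 ≤ c + d := by
    by_contra h0
    have h1 : c = 0 := by omega
    have h2 : d = 0 := by omega
    rw [h1, h2] at hD
    simp at hD
  have hsub : ∀ {a b : ℕ} {u : ℂ → ℂ}, 1 ≤ a + b → (∀ z ∈ V, u z = s z ^ a * t z ^ b) → ∀ z ∈ Ks V s t r, ‖u z‖ ≤ r := by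
    intro a b u hab hu z hz
    have hr0 : 0 ≤ r := (norm_nonneg _).trans hz.2.1
    rw [hu z hz.1, norm_mul, norm_pow, norm_pow]
    calc ‖s z‖ ^ a * ‖t z‖ ^ b ≤ r ^ a * r ^ b :=
          mul_le_mul (pow_le_pow_left₀ (norm_nonneg _) hz.2.1 a) (pow_le_pow_left₀ (norm_nonneg _) hz.2.2 b) (by positivity) (by positivity)
      _ = r ^ (a + b) := (pow_add _ _ _).symm
      _ ≤ r ^ 1 := pow_le_pow_of_le_one hr0 hr.le hab
      _ = r := pow_one r
  have hKr : ∀ z ∈ Ks V s t r, z ∈ Kr U x y r := fun z hz => ⟨hVU hz.1, hsub hab hx z hz, hsub hcd hy z hz⟩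
  have hS := meas_Ks hV hs ht r
  have hds : ContinuousOn (fun z => ‖deriv s z‖ ^ 2) (Ks V s t r) :=
    (((hs.deriv hV).continuousOn.norm.pow 2).mono fun z hz => hz.1)
  -- `s` is not zero almost everywhere
  have hsne : ∀ z ∈ V, x z ≠ 0 → y z ≠ 0 → s z ≠ 0 := by
    intro z hz hx0 hy0 h0
    rw [hx z hz, h0] at hx0
    rw [hy z hz, h0] at hy0
    have h1 : a = 0 := by
      by_contra ha
      exact hx0 (by rw [zero_pow ha, zero_mul])
    have h2 : c = 0 := by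
      by_contra hc
      exact hy0 (by rw [zero_pow hc, zero_mul])
    rw [h1, h2] at hD
    simp at hD
  have htne : ∀ z ∈ V, x z ≠ 0 → y z ≠ 0 → t z ≠ 0 := by
    intro z hz hx0 hy0 h0
    rw [hx z hz, h0] at hx0
    rw [hy z hz, h0] at hy0
    have h1 : b = 0 := by
      by_contra ha
      exact hx0 (by rw [zero_pow ha, mul_zero])
    have h2 : d = 0 := by
      by_contra hc
      exact hy0 (by rw [zero_pow hc, mul_zero])
    rw [h1, h2] at hD
    simp at hD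
  rcases Nat.eq_zero_or_pos b with hb | hb
  · -- `x = s ^ a`
    have ha : 1 ≤ a := by omega
    have hp : (0 : ℝ) < 1 / a := by positivity
    have hp1 : 1 / (a : ℝ) ≤ 1 := by
      rw [div_le_one (by exact_mod_cast ha)]
      exact_mod_cast ha
    obtain ⟨C, hC, hE⟩ := enR (F := F) h hl hB hp hp1 hr
    refine ⟨1 * C, by linarith, fun R hR => comp_int hS hds (fun z _ => sq_nonneg _) hR zero_le_one (hE R hR).1 ?_ (hE R hR).2⟩
    filter_upwards [hae] with z hz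
    by_cases hzK : z ∈ Ks V s t r
    · have hne' := hz hzK.1
      rw [Set.indicator_of_mem hzK, Set.indicator_of_mem (show z ∈ Kr U x y r ∩ {z | x z ≠ 0} from ⟨hKr z hzK, hne'.1⟩), one_mul]
      exact pt_R hV hs ha (fun z hz => by rw [hx z hz, hb, pow_zero, mul_one]) hzK.1 (hsne z hzK.1 hne'.1 hne'.2)
    · rw [Set.indicator_of_notMem hzK, one_mul]
      exact Set.indicator_nonneg (fun z _ => by positivity) z
  rcases Nat.eq_zero_or_pos d with hd | hd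
  · -- `y = s ^ c`
    have hc : 1 ≤ c := by omega
    have hp : (0 : ℝ) < 1 / c := by positivity
    have hp1 : 1 / (c : ℝ) ≤ 1 := by
      rw [div_le_one (by exact_mod_cast hc)]
      exact_mod_cast hc
    obtain ⟨C, hC, hE⟩ := enR (F := F) h.symm hl hB hp hp1 hr
    refine ⟨1 * C, by linarith, fun R hR => comp_int hS hds (fun z _ => sq_nonneg _) hR zero_le_one (hE R hR).1 ?_ (hE R hR).2⟩
    filter_upwards [hae] with z hz
    by_cases hzK : z ∈ Ks V s t r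
    · have hne' := hz hzK.1
      have h1 := hKr z hzK
      rw [Set.indicator_of_mem hzK, Set.indicator_of_mem (show z ∈ Kr U y x r ∩ {z | y z ≠ 0} from ⟨⟨h1.1, h1.2.2, h1.2.1⟩, hne'.2⟩), one_mul]
      exact pt_R hV hs hc (fun z hz => by rw [hy z hz, hd, pow_zero, mul_one]) hzK.1 (hsne z hzK.1 hne'.1 hne'.2)
    · rw [Set.indicator_of_notMem hzK, one_mul]
      exact Set.indicator_nonneg (fun z _ => by positivity) z
  · -- the interior case
    have hDR : (a : ℝ) * d - b * c ≠ 0 := by exact_mod_cast hD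
    have hD1 : 1 ≤ |(a : ℝ) * d - b * c| := by
      have h1 : (1 : ℤ) ≤ |(a : ℤ) * d - b * c| := Int.one_le_abs hD
      have h2 : ((|(a : ℤ) * d - b * c| : ℤ) : ℝ) = |(a : ℝ) * d - b * c| := by
        rw [Int.cast_abs]
        push_cast
        rfl
      rw [← h2]
      exact_mod_cast h1
    have hb1 : (1 : ℝ) ≤ b := by exact_mod_cast hb
    have hd1 : (1 : ℝ) ≤ d := by exact_mod_cast hd
    have hp : 0 < 1 / (|(a : ℝ) * d - b * c| * b) := by positivity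
    have hq : 0 < 1 / (|(a : ℝ) * d - b * c| * d) := by positivity
    have hp1 : 1 / (|(a : ℝ) * d - b * c| * b) ≤ 1 := by
      rw [div_le_one (by positivity)]
      nlinarith
    have hq1 : 1 / (|(a : ℝ) * d - b * c| * d) ≤ 1 := by
      rw [div_le_one (by positivity)]
      nlinarith
    obtain ⟨C, hC, hE⟩ := enT (F := F) h hne hl hB hp hp1 hq hq1 hr
    refine ⟨4 * ((b : ℝ) * d) ^ 2 * C, by positivity, fun R hR => comp_int hS hds (fun z _ => sq_nonneg _) hR (by positivity) (hE R hR).1 ?_ (hE R hR).2⟩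
    filter_upwards [hae] with z hz
    by_cases hzK : z ∈ Ks V s t r
    · have hne' := hz hzK.1
      rw [Set.indicator_of_mem hzK, Set.indicator_of_mem (show z ∈ Kr U x y r ∩ {z | x z ≠ 0 ∧ y z ≠ 0} from ⟨hKr z hzK, hne'⟩)]
      exact pt_T hV hs ht hD hb hd hx hy hzK.1 (hsne z hzK.1 hne'.1 hne'.2) (htne z hzK.1 hne'.1 hne'.2) (hzK.2.1.trans hr.le)
    · rw [Set.indicator_of_notMem hzK]
      refine mul_nonneg (by positivity) (Set.indicator_nonneg (fun z _ => by positivity) z)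

/-- **EnL: the energy of a monomial chart.** -/
theorem enL {N : ℕ} {F : ℂ → EN N} (h : Crds U x y l) (hne : ∀ z ∈ U, ∀ᶠ w in 𝓝[≠] z, x w ≠ 0 ∨ y w ≠ 0) (hl : Continuous l)
    (hB : ∃ B : ℝ, ∀ R, 1 ≤ R → ∫ z, tau R z * l z ^ 2 ≤ B * (En F R + 1)) (hV : IsOpen V) (hVU : V ⊆ U) (hs : DifferentiableOn ℂ s V)
    (ht : DifferentiableOn ℂ t V) {a b c d : ℕ} (hD : (a : ℤ) * d - b * c ≠ 0) (hx : ∀ z ∈ V, x z = s z ^ a * t z ^ b)
    (hy : ∀ z ∈ V, y z = s z ^ c * t z ^ d) (hae : ∀ᵐ z : ℂ, z ∈ V → x z ≠ 0 ∧ y z ≠ 0) {r : ℝ} (hr : r < 1) : ∃ C : ℝ, 0 ≤ C ∧ ∀ R, 1 ≤ R →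
      Integrable (fun z => tau R z * (Ks V s t r).indicator (fun z => ‖deriv s z‖ ^ 2 + ‖deriv t z‖ ^ 2) z) ∧
      ∫ z, tau R z * (Ks V s t r).indicator (fun z => ‖deriv s z‖ ^ 2 + ‖deriv t z‖ ^ 2) z ≤ C * (En F R + 1) := by
  obtain ⟨C₁, hC₁, h1⟩ := enL_one (F := F) h hne hl hB hV hVU hs ht hD hx hy hae hr
  have hD' : (b : ℤ) * c - a * d ≠ 0 := by
    intro h0
    apply hD
    linarith
  obtain ⟨C₂, hC₂, h2⟩ := enL_one (F := F) (s := t) (t := s) h hne hl hB hV hVU ht hs hD' (fun z hz => by rw [hx z hz, mul_comm])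
    (fun z hz => by rw [hy z hz, mul_comm]) hae hr
  have hset : Ks V t s r = Ks V s t r := by
    ext z
    simp only [Ks, Set.mem_ofPred_eq]
    tauto
  rw [hset] at h2
  have e : ∀ R, (fun z => tau R z * (Ks V s t r).indicator (fun z => ‖deriv s z‖ ^ 2 + ‖deriv t z‖ ^ 2) z) =
      fun z => tau R z * (Ks V s t r).indicator (fun z => ‖deriv s z‖ ^ 2) z + tau R z * (Ks V s t r).indicator (fun z => ‖deriv t z‖ ^ 2) z := by
    intro R
    funext z
    by_cases hz : z ∈ Ks V s t r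
    · rw [Set.indicator_of_mem hz, Set.indicator_of_mem hz, Set.indicator_of_mem hz, mul_add]
    · rw [Set.indicator_of_notMem hz, Set.indicator_of_notMem hz, Set.indicator_of_notMem hz, mul_zero, add_zero]
  refine ⟨C₁ + C₂, by positivity, fun R hR => ?_⟩
  rw [e R]
  refine ⟨(h1 R hR).1.add (h2 R hR).1, ?_⟩
  rw [integral_add (h1 R hR).1 (h2 R hR).1]
  have := add_le_add (h1 R hR).2 (h2 R hR).2
  linarith

end Pool.Agent.MQ3
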