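import Pool.Agent.MQ3.WBx

/-!
# MQ3 WBxC: the curves tangent to `θ` in a normal crossings box

`F z = c • ρ (P z)`; the slope `slp l F` is the value of `om l 2 / om l 1` on `(F, F')`, extended to the isolated points with `P' = 0`.
-/

set_option autoImplicit false

open Topology Filter Metric

noncomputable section

namespace Pool.Agent.MQ3

open Pool.Agent.H36.BP (EN)
open Pool.Agent.H14.PP (Tan)
open Pool.Agent.H17BP (Surface IsChart)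
open Pool.Agent.E1 (ResL_tan)

variable {N : ℕ} {X : Set (EN N)} {m : ℕ} {ρ : ℂ × ℂ → EN N} {F : ℂ → EN N} {P : ℂ → ℂ × ℂ} {z : ℂ}

/-- the derivative of a curve on the cone in a parametrization -/
theorem curve_deriv (hF : AnalyticAt ℂ F z) (hP : AnalyticAt ℂ P z) (hρ : AnalyticAt ℂ ρ (P z)) (h0 : ρ (P z) ≠ 0)
    (hFP : ∀ᶠ w in 𝓝 z, ∃ c : ℂ, c ≠ 0 ∧ F w = c • ρ (P w)) :
    ∃ c a : ℂ, c ≠ 0 ∧ F z = c • ρ (P z) ∧ deriv F z = c • fderiv ℂ ρ (P z) (deriv P z) + a • ρ (P z) := by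
  obtain ⟨f, hf⟩ : ∃ f : EN N →L[ℂ] ℂ, f (ρ (P z)) ≠ 0 := SeparatingDual.exists_ne_zero h0
  have hρP : AnalyticAt ℂ (fun w => ρ (P w)) z := AnalyticAt.comp (g := ρ) (f := P) hρ hP
  have hfa : AnalyticAt ℂ (fun w => f (ρ (P w))) z := (f.analyticAt _).comp hρP
  have hfF : AnalyticAt ℂ (fun w => f (F w)) z := (f.analyticAt _).comp hF
  set c : ℂ → ℂ := fun w => f (F w) / f (ρ (P w)) with hcd
  have hc : AnalyticAt ℂ c z := hfF.fun_div hfa hf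
  have hne : ∀ᶠ w in 𝓝 z, f (ρ (P w)) ≠ 0 := hfa.continuousAt.eventually_ne hf
  have hcw : ∀ w, f (ρ (P w)) ≠ 0 → ∀ c' : ℂ, F w = c' • ρ (P w) → c w = c' := by
    intro w h3 c' h2
    show f (F w) / f (ρ (P w)) = c'
    rw [h2, map_smul, smul_eq_mul, mul_div_assoc, div_self h3, mul_one]
  have hev : ∀ᶠ w in 𝓝 z, F w = c w • ρ (P w) := by
    filter_upwards [hFP, hne] with w ⟨c', h1, h2⟩ h3
    rw [hcw w h3 c' h2, h2]
  have h1 : HasDerivAt F (c z • fderiv ℂ ρ (P z) (deriv P z) + deriv c z • ρ (P z)) z := by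
    have h2 : HasDerivAt (fun w => ρ (P w)) (fderiv ℂ ρ (P z) (deriv P z)) z :=
      hρ.differentiableAt.hasFDerivAt.comp_hasDerivAt z hP.differentiableAt.hasDerivAt
    exact (hc.differentiableAt.hasDerivAt.fun_smul h2).congr_of_eventuallyEq hev
  obtain ⟨c', hc', h3⟩ := hFP.self_of_nhds
  have h4 := hcw z hf c' h3
  refine ⟨c', deriv c z, hc', h3, ?_⟩
  rw [h1.deriv, h4]

/-- `om l 2 / om l 1` on the curve -/
def gm (l : LF N) (F : ℂ → EN N) (z : ℂ) : ℂ := om l 2 (F z) (deriv F z) / om l 1 (F z) (deriv F z)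

theorem meromorphicAt_gm (l : LF N) (hF : AnalyticAt ℂ F z) : MeromorphicAt (gm l F) z := by
  have h1 : ∀ i, AnalyticAt ℂ (fun w => om l i (F w) (deriv F w)) z := by
    intro i
    have h2 : ∀ j, AnalyticAt ℂ (fun q => l j (F q)) z := fun j => ((l j).analyticAt _).comp hF
    have h3 : ∀ j, AnalyticAt ℂ (fun q => l j (deriv F q)) z := fun j => ((l j).analyticAt _).comp hF.deriv
    exact ((h2 0).mul (h3 i)).sub ((h2 i).mul (h3 0))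
  exact (h1 2).meromorphicAt.fun_div (h1 1).meromorphicAt

theorem analyticAt_gm (l : LF N) (hF : AnalyticAt ℂ F z) (h : om l 1 (F z) (deriv F z) ≠ 0) : AnalyticAt ℂ (gm l F) z := by
  have h1 : ∀ i, AnalyticAt ℂ (fun w => om l i (F w) (deriv F w)) z := by
    intro i
    have h2 : ∀ j, AnalyticAt ℂ (fun q => l j (F q)) z := fun j => ((l j).analyticAt _).comp hF
    have h3 : ∀ j, AnalyticAt ℂ (fun q => l j (deriv F q)) z := fun j => ((l j).analyticAt _).comp hF.deriv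
    exact ((h2 0).mul (h3 i)).sub ((h2 i).mul (h3 0))
  exact (h1 2).fun_div (h1 1) h

theorem NCBox.slope (hb : NCBox X ρ) (hX : Surface X) {θ : WDiff X m} {l : LF N} (hF : AnalyticAt ℂ F z)
    (hP : AnalyticAt ℂ P z) (hFP : ∀ᶠ w in 𝓝 z, ∃ c : ℂ, c ≠ 0 ∧ F w = c • ρ (P w)) (hz : P z ∈ DS) (hGA : GA X l (ρ (P z))) (hGB : GB θ l (ρ (P z)))
    (ht : θ.toFun (F z) (deriv F z) = 0) :
    (om l 1 (F z) (deriv F z) = 0 ↔ deriv P z = 0) ∧ (deriv P z ≠ 0 → gm l F z ∈ NS θ l (ρ (P z))) ∧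
      ∃ a : ℂ, deriv P z = a • (v₁ l ρ (P z) + gm l F z • v₂ l ρ (P z)) ∧ (a = 0 ↔ deriv P z = 0) := by
  have hρ := hb.an' hz
  have hmem := hb.mem' hz
  have h0 : ρ (P z) ≠ 0 := fun h => hX.zero (h ▸ hmem.self_of_nhds)
  obtain ⟨c, a, hc, h1, h2⟩ := curve_deriv hF hP hρ h0 hFP
  have hT := ResL_tan hρ hmem (deriv P z)
  have h3 : deriv F z = c • fderiv ℂ ρ (P z) (deriv P z) + (a / c) • (c • ρ (P z)) := by
    rw [h2, smul_smul, div_mul_cancel₀ _ hc]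
  have hom : ∀ i, om l i (F z) (deriv F z) = c ^ 2 * om l i (ρ (P z)) (fderiv ℂ ρ (P z) (deriv P z)) := by
    intro i
    rw [h3, h1, om_add_smul, om_smul_smul]
  have hc2 : c ^ 2 ≠ 0 := pow_ne_zero 2 hc
  have hθ : θ.toFun (ρ (P z)) (fderiv ℂ ρ (P z) (deriv P z)) = 0 := by
    rw [h3, h1, θ.add_smul _ _ (tan_smul hX.smul hT hc), θ.scale_eq_zero hT hc] at ht
    exact ht
  have hd := hb.dl_ne hX hz hGA
  have h4 : om l 1 (ρ (P z)) (fderiv ℂ ρ (P z) (deriv P z)) = 0 ↔ deriv P z = 0 := by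
    constructor
    · intro h5
      obtain ⟨a', ha'⟩ := hGB _ hT h5 hθ
      exact hb.indep _ hz _ a' ha'
    · intro h5
      rw [h5, map_zero]
      simp [om]
  have h5 : om l 1 (F z) (deriv F z) = 0 ↔ deriv P z = 0 := by
    rw [hom, mul_eq_zero, or_iff_right hc2, h4]
  have h6 : ∀ h : deriv P z ≠ 0, om l 2 (ρ (P z)) (fderiv ℂ ρ (P z) (deriv P z)) = gm l F z * om l 1 (ρ (P z)) (fderiv ℂ ρ (P z) (deriv P z)) := by
    intro h
    have h7 : om l 1 (ρ (P z)) (fderiv ℂ ρ (P z) (deriv P z)) ≠ 0 := fun h8 => h (h4.1 h8)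
    rw [gm, hom, hom, mul_div_mul_left _ _ hc2, div_mul_cancel₀ _ h7]
  refine ⟨h5, fun h => ⟨_, hT, fun h8 => h (h4.1 h8), h6 h, hθ⟩, ?_⟩
  by_cases h : deriv P z = 0
  · exact ⟨0, by rw [h, zero_smul], by simp [h]⟩
  · have h7 : om l 1 (ρ (P z)) (fderiv ℂ ρ (P z) (deriv P z)) ≠ 0 := fun h8 => h (h4.1 h8)
    refine ⟨(dl l ρ (P z))⁻¹ * om l 1 (ρ (P z)) (fderiv ℂ ρ (P z) (deriv P z)), ?_, ?_⟩
    · have h8 := dl_smul l ρ (P z) (deriv P z)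
      rw [h6 h] at h8
      rw [← smul_smul, smul_add, smul_smul _ (gm l F z), mul_comm _ (gm l F z), ← h8, smul_smul, inv_mul_cancel₀ hd, one_smul]
    · constructor
      · intro h8
        exact absurd h8 (mul_ne_zero (inv_ne_zero hd) h7)
      · intro h8
        exact absurd h8 h

/-- the slope of the curve -/
def slp (l : LF N) (F : ℂ → EN N) (z : ℂ) : ℂ := limUnder (𝓝[≠] z) (gm l F)

theorem slp_eq {g : ℂ → ℂ} {l : LF N} (hg : AnalyticAt ℂ g z) (h : gm l F =ᶠ[𝓝[≠] z] g) : slp l F =ᶠ[𝓝 z] g := by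
  have h1 : ∀ᶠ w in 𝓝 z, w ≠ z → gm l F w = g w := eventually_nhdsWithin_iff.1 h
  filter_upwards [eventually_eventually_nhds.2 h1, hg.eventually_analyticAt] with w hw hgw
  have h2 : ∀ᶠ u in 𝓝[≠] w, gm l F u = g u := by
    rcases eq_or_ne w z with rfl | hwz
    · exact h
    · filter_upwards [hw.filter_mono nhdsWithin_le_nhds, (eventually_ne_nhds hwz).filter_mono nhdsWithin_le_nhds] with u hu hu'
      exact hu hu'
  have h3 : Tendsto g (𝓝[≠] w) (𝓝 (g w)) := hgw.continuousAt.tendsto.mono_left nhdsWithin_le_nhds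
  exact (h3.congr' (h2.mono fun _ h => h.symm)).limUnder_eq

theorem slp_eq_gm {l : LF N} (hF : AnalyticAt ℂ F z) (h : om l 1 (F z) (deriv F z) ≠ 0) : slp l F z = gm l F z :=
  (slp_eq (analyticAt_gm l hF h) EventuallyEq.rfl).self_of_nhds

/-- a branch of the logarithm of an analytic function -/
theorem exists_log_branch {x : ℂ → ℂ} (hx : AnalyticAt ℂ x z) (h0 : x z ≠ 0) {ξ : ℂ} (hξ : Complex.exp ξ = x z) :
    ∃ Ξ : ℂ → ℂ, AnalyticAt ℂ Ξ z ∧ Ξ z = ξ ∧ ∀ᶠ w in 𝓝 z, Complex.exp (Ξ w) = x w := by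
  have h1 : x z / x z = 1 := div_self h0
  refine ⟨fun w => ξ + Complex.log (x w / x z), ?_, ?_, ?_⟩
  · refine analyticAt_const.add (AnalyticAt.clog (hx.fun_div analyticAt_const h0) ?_)
    rw [h1]
    exact Complex.one_mem_slitPlane
  · show ξ + Complex.log (x z / x z) = ξ
    rw [h1, Complex.log_one, add_zero]
  · filter_upwards [hx.continuousAt.eventually_ne h0] with w hw
    rw [Complex.exp_add, Complex.exp_log (div_ne_zero hw h0), hξ, mul_div_cancel₀ _ h0]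

/-- **The slope is one of the sheets.** -/
theorem NCBox.slope_sheet (hb : NCBox X ρ) (hX : Surface X) {θ : WDiff X m} {l : LF N} (hG : ∀ p ∈ DS, GoodPt θ l (ρ p)) {e : ℕ}
    {T : Fin e → ℂ × ℂ → ℂ} (hTa : ∀ k, ∀ v ∈ HH, AnalyticAt ℂ (T k) v) (hT : ∀ v ∈ HH, ∀ t, t ∈ NS θ l (ρ (pexp v)) → ∃ k, T k v = t)
    (hF : AnalyticAt ℂ F z) (hP : AnalyticAt ℂ P z) (hFP : ∀ᶠ w in 𝓝 z, ∃ c : ℂ, c ≠ 0 ∧ F w = c • ρ (P w)) (hz : P z ∈ DS)
    (ht : ∀ᶠ w in 𝓝 z, θ.toFun (F w) (deriv F w) = 0) (hnc : ∀ᶠ w in 𝓝[≠] z, deriv P w ≠ 0) {ξ η : ℂ} (hξ : Complex.exp ξ = (P z).1)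
    (hη : Complex.exp η = (P z).2) : AnalyticAt ℂ (slp l F) z ∧ ∃ k, slp l F z = T k (ξ, η) := by
  obtain ⟨Ξ, h1, h2, h3⟩ := exists_log_branch (analyticAt_fst.fun_comp hP) hz.1.1 hξ
  obtain ⟨H, h4, h5, h6⟩ := exists_log_branch (analyticAt_snd.fun_comp hP) hz.2.1 hη
  have hv : ((ξ, η) : ℂ × ℂ) ∈ HH := by
    refine ⟨?_, ?_⟩
    · have := hz.1.2
      rw [← hξ, Complex.norm_exp, Real.exp_lt_one_iff] at this
      exact this
    · have := hz.2.2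
      rw [← hη, Complex.norm_exp, Real.exp_lt_one_iff] at this
      exact this
  have hvz : ((Ξ z, H z) : ℂ × ℂ) = (ξ, η) := by rw [h2, h5]
  have hΞH : AnalyticAt ℂ (fun w => (Ξ w, H w)) z := h1.prod h4
  have hHH : ∀ᶠ w in 𝓝 z, ((Ξ w, H w) : ℂ × ℂ) ∈ HH := by
    refine hΞH.continuousAt.eventually_mem ?_
    rw [hvz]
    exact isOpen_HH.mem_nhds hv
  have hDS : ∀ᶠ w in 𝓝 z, P w ∈ DS := hP.continuousAt.eventually_mem (isOpen_DS.mem_nhds hz)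
  have hTg : ∀ k, AnalyticAt ℂ (fun w => T k (Ξ w, H w)) z := fun k =>
    AnalyticAt.comp (g := T k) (f := fun w => (Ξ w, H w)) (by rw [hvz]; exact hTa k _ hv) hΞH
  have hex : ∀ᶠ w in 𝓝[≠] z, ∃ k, gm l F w = T k (Ξ w, H w) := by
    filter_upwards [hnc, (eventually_eventually_nhds.2 hFP).filter_mono nhdsWithin_le_nhds, ht.filter_mono nhdsWithin_le_nhds,
      hHH.filter_mono nhdsWithin_le_nhds, hDS.filter_mono nhdsWithin_le_nhds, h3.filter_mono nhdsWithin_le_nhds,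
      h6.filter_mono nhdsWithin_le_nhds, hF.eventually_analyticAt.filter_mono nhdsWithin_le_nhds,
      hP.eventually_analyticAt.filter_mono nhdsWithin_le_nhds] with w w1 w2 w3 w4 w5 w6 w7 w8 w9
    have h7 := (hb.slope hX w8 w9 w2 w5 (hG _ w5).1 (hG _ w5).2.1 w3).2.1 w1
    have h8 : pexp (Ξ w, H w) = P w := by
      ext
      · exact w6
      · exact w7
    rw [← h8] at h7
    obtain ⟨k, hk⟩ := hT _ w4 _ h7
    exact ⟨k, hk.symm⟩
  obtain ⟨k, hk⟩ : ∃ k, ∃ᶠ w in 𝓝[≠] z, gm l F w = T k (Ξ w, H w) := by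
    by_contra hcon
    push Not at hcon
    have h7 : ∀ᶠ w in 𝓝[≠] z, ∀ k, ¬ gm l F w = T k (Ξ w, H w) := eventually_all.2 fun k => hcon k
    obtain ⟨w, ⟨k, hw⟩, hw'⟩ := (hex.and h7).exists
    exact hw' k hw
  have hk' := ((meromorphicAt_gm l hF).frequently_eq_iff_eventuallyEq (hTg k).meromorphicAt).1 hk
  have h7 := slp_eq (hTg k) hk'
  refine ⟨(hTg k).congr h7.symm, k, ?_⟩
  have h8 : slp l F z = T k (Ξ z, H z) := h7.self_of_nhds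
  rw [h8, hvz]

/-- **The curves tangent to `θ` in a normal crossings box.** -/
theorem NCBox.crv (hb : NCBox X ρ) (hX : Surface X) {θ : WDiff X m} {l : LF N} (hG : ∀ p ∈ DS, GoodPt θ l (ρ p)) {e : ℕ}
    {T : Fin e → ℂ × ℂ → ℂ} (hTa : ∀ k, ∀ v ∈ HH, AnalyticAt ℂ (T k) v) (hT : ∀ v ∈ HH, ∀ t, t ∈ NS θ l (ρ (pexp v)) → ∃ k, T k v = t)
    {U : Set ℂ} (hU : IsOpen U) (hF : ∀ z ∈ U, AnalyticAt ℂ F z) (hP : ∀ z ∈ U, AnalyticAt ℂ P z) (hPD : ∀ z ∈ U, P z ∈ DD)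
    (hne : ∀ z ∈ U, ∀ᶠ w in 𝓝[≠] z, (P w).1 ≠ 0 ∧ (P w).2 ≠ 0) (hFP : ∀ z ∈ U, ∃ c : ℂ, c ≠ 0 ∧ F z = c • ρ (P z))
    (ht : ∀ z ∈ U, θ.toFun (F z) (deriv F z) = 0) (hnc : ∀ z ∈ U, ∀ᶠ w in 𝓝[≠] z, deriv P w ≠ 0) :
    Crv T U (fun z => (P z).1) (fun z => (P z).2) (slp l F) ∧
      (∀ z ∈ U, P z ∈ DS → deriv P z ≠ 0 → om l 1 (F z) (deriv F z) ≠ 0 ∧ slp l F z = gm l F z) ∧
      ∀ z ∈ U, P z ∈ DS → ∃ a : ℂ, deriv P z = a • (v₁ l ρ (P z) + slp l F z • v₂ l ρ (P z)) ∧ (a = 0 ↔ deriv P z = 0) := by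
  have hFP' : ∀ z ∈ U, ∀ᶠ w in 𝓝 z, ∃ c : ℂ, c ≠ 0 ∧ F w = c • ρ (P w) := fun z hz => by
    filter_upwards [hU.mem_nhds hz] with w hw using hFP w hw
  have ht' : ∀ z ∈ U, ∀ᶠ w in 𝓝 z, θ.toFun (F w) (deriv F w) = 0 := fun z hz => by
    filter_upwards [hU.mem_nhds hz] with w hw using ht w hw
  have hds : ∀ z ∈ U, (P z).1 ≠ 0 → (P z).2 ≠ 0 → P z ∈ DS := fun z hz h1 h2 => ⟨⟨h1, (hPD z hz).1⟩, h2, (hPD z hz).2⟩
  have hsl : ∀ z ∈ U, P z ∈ DS → deriv P z ≠ 0 → om l 1 (F z) (deriv F z) ≠ 0 ∧ slp l F z = gm l F z := by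
    intro z hz hzD hz'
    obtain ⟨h1, -, -⟩ := hb.slope hX (hF z hz) (hP z hz) (hFP' z hz) hzD (hG _ hzD).1 (hG _ hzD).2.1 (ht z hz)
    have h2 : om l 1 (F z) (deriv F z) ≠ 0 := fun h => hz' (h1.1 h)
    exact ⟨h2, slp_eq_gm (hF z hz) h2⟩
  refine ⟨⟨hU, fun z hz => analyticAt_fst.fun_comp (hP z hz), fun z hz => analyticAt_snd.fun_comp (hP z hz), fun z hz => (hPD z hz).1,
    fun z hz => (hPD z hz).2, hne, fun z hz h1 h2 => ?_, fun z hz h1 h2 ξ η hξ hη => ?_⟩, hsl, fun z hz hzD => ?_⟩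
  · exact (hb.slope_sheet hX hG hTa hT (hF z hz) (hP z hz) (hFP' z hz) (hds z hz h1 h2) (ht' z hz) (hnc z hz) (Complex.exp_log h1) (Complex.exp_log h2)).1
  · exact (hb.slope_sheet hX hG hTa hT (hF z hz) (hP z hz) (hFP' z hz) (hds z hz h1 h2) (ht' z hz) (hnc z hz) hξ hη).2
  · obtain ⟨h1, -, a, h2, h3⟩ := hb.slope hX (hF z hz) (hP z hz) (hFP' z hz) hzD (hG _ hzD).1 (hG _ hzD).2.1 (ht z hz)
    by_cases h : deriv P z = 0
    · exact ⟨0, by rw [h, zero_smul], by simp [h]⟩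
    · exact ⟨a, by rw [(hsl z hz hzD h).2]; exact h2, h3⟩

end Pool.Agent.MQ3
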