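import Pool.Agent.MQ3.Branch
import Pool.Agent.MQ3.WBxC
import Pool.Agent.MQ3.EnL
import Pool.Agent.MQ.GeoDefs

/-!
# MQ3 Defs: webs over one box, the normal crossings model

`P` is the ideal of a smooth projective surface, `coneE P` its cone, `θ` a symmetric differential of degree `m` (possibly not reduced), `l : LF M` three linear
forms; the slope of a tangent vector `v` at `x` is `om l 2 x v / om l 1 x v`.
`BoxWeb θ l ρ`: the sheets of the web over the parametrization `ρ` of the bidisc; `MChart W`: a monomial chart `mono w w' : Dm w w' → DD` with the vector field `X`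
of the foliation of a sheet; `BCrv θ l ρ F U p`: the curve `F` is `ρ ∘ p` on `U`.
-/

set_option autoImplicit false

open Topology Filter Metric MvPolynomial MeasureTheory

noncomputable section

namespace Pool.Agent.MQ3

open Pool.Agent.H36.BP (EN fs)
open Pool.Agent.H14.PP (Tan)
open Pool.Agent.H17BP (Surface)
open Pool.Agent.H17EF (projVar coneE)
open Pool.Agent.H30M (tau)
open Pool.Agent.MQ (lam En)

variable {M : ℕ} {X : Set (EN M)} {m : ℕ} {θ : WDiff X m} {l : LF M} {ρ : ℂ × ℂ → EN M}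

/-! ## the web over one box -/

/-- the sheets of the web over the parametrization `ρ`: the slopes `T k` over the product of two half planes; `sA θ l ρ m` is the leading coefficient -/
structure BoxWeb (θ : WDiff X m) (l : LF M) (ρ : ℂ × ℂ → EN M) where
  surf : Surface X
  hm : 1 ≤ m
  box : NCBox X ρ
  good : ∀ p ∈ DS, GoodPt θ l (ρ p)
  e : ℕ
  T : Fin e → ℂ × ℂ → ℂ
  a : Equiv.Perm (Fin e)
  b : Equiv.Perm (Fin e)
  web : WebBox e T a b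
  ns : ∀ v ∈ HH, ∀ t, t ∈ NS θ l (ρ (pexp v)) ↔ ∃ k, T k v = t
  bdd : ∃ C : ℝ, ∀ k, ∀ v ∈ HH, ‖sA θ l ρ m (pexp v) * T k v‖ ≤ C

/-- A monomial chart: the sheet `k`, the basis `w, w'` of its stabilizer, the vector field `v` with isolated zeros which defines the foliation of the sheet. -/
structure MChart (W : BoxWeb θ l ρ) where
  k : Fin W.e
  w : ℕ × ℕ
  w' : ℕ × ℕ
  basis : Basis W.a W.b k w w'
  pos : 0 < dt w w'
  i : ℕ
  j : ℕ
  v : ℂ × ℂ → ℂ × ℂ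
  v_an : ∀ q ∈ Dm w w', AnalyticAt ℂ v q
  v_iso : ∀ q ∈ Dm w w', ∀ᶠ q' in 𝓝 q, q' ≠ q → v q' ≠ 0
  v_eq : ∀ P, ln w w' P ∈ HH → ∀ u : ℂ × ℂ,
    sA θ l ρ m (pexp (ln w w' P)) * ((v₁ l ρ (pexp (ln w w' P)) + W.T k (ln w w' P) • v₂ l ρ (pexp (ln w w' P))).1 *
      (fderiv ℂ (mono w w') (pexp P) u).2 -
      (v₁ l ρ (pexp (ln w w' P)) + W.T k (ln w w' P) • v₂ l ρ (pexp (ln w w' P))).2 * (fderiv ℂ (mono w w') (pexp P) u).1) =
    (pexp P).1 ^ i * (pexp P).2 ^ j * ((v (pexp P)).1 * u.2 - (v (pexp P)).2 * u.1)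

/-- the curve in the box -/
structure BCrv (θ : WDiff X m) (l : LF M) (ρ : ℂ × ℂ → EN M) (F : ℂ → EN M) (U : Set ℂ) (p : ℂ → ℂ × ℂ) : Prop where
  isOpen : IsOpen U
  F_an : ∀ z, AnalyticAt ℂ F z
  tan : ∀ z ∈ U, θ.toFun (F z) (deriv F z) = 0
  p_an : ∀ z ∈ U, AnalyticAt ℂ p z
  mem : ∀ z ∈ U, p z ∈ DD
  ne : ∀ z ∈ U, ∀ᶠ w in 𝓝[≠] z, (p w).1 ≠ 0 ∧ (p w).2 ≠ 0
  nc : ∀ z ∈ U, ∀ᶠ w in 𝓝[≠] z, deriv p w ≠ 0
  eq : ∀ z ∈ U, ∃ c : ℂ, c ≠ 0 ∧ F z = c • ρ (p z)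

section

variable {W : BoxWeb θ l ρ}

/-- the map to the box -/
def MChart.κ (c : MChart W) (q : ℂ × ℂ) : ℂ × ℂ := mono c.w c.w' q

/-- the domain -/
def MChart.D (c : MChart W) : Set (ℂ × ℂ) := Dm c.w c.w'

/-- the part of the plane where the curve lifts to the chart -/
def MChart.Om (c : MChart W) (F : ℂ → EN M) (U : Set ℂ) (p : ℂ → ℂ × ℂ) : Set ℂ :=
  MQ3.Om W.T c.k c.w c.w' U (fun z => (p z).1) (fun z => (p z).2) (slp l F)

/-- the lift -/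
def MChart.lf (c : MChart W) (F : ℂ → EN M) (U : Set ℂ) (p : ℂ → ℂ × ℂ) (z : ℂ) : ℂ × ℂ :=
  (MQ3.sl W.T c.k c.w c.w' U (fun z => (p z).1) (fun z => (p z).2) (slp l F) z,
    MQ3.tl W.T c.k c.w c.w' U (fun z => (p z).1) (fun z => (p z).2) (slp l F) z)

end

/-- The monomial charts over a box: representatives of the orbits of the sheets, fans of bases. -/
structure WebOver (W : BoxWeb θ l ρ) where
  ι : Type
  [fin : Fintype ι]
  c : ι → MChart W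
  /-- two charts belong to the same sheet or to sheets of different orbits -/
  orb : ∀ i j, (c i).k = (c j).k ∨ ∀ r s : ℤ, (W.a ^ r * W.b ^ s) (c i).k ≠ (c j).k
  /-- charts of the same sheet: the same cone, or one after the other -/
  fan : ∀ i j, i ≠ j → (c i).k = (c j).k → 0 ≤ dt (c i).w' (c j).w ∨ 0 ≤ dt (c j).w' (c i).w
  cover : ∀ (F : ℂ → EN M) (U : Set ℂ) (p : ℂ → ℂ × ℂ), BCrv θ l ρ F U p → ∀ z ∈ U, ∃ i, z ∈ (c i).Om F U p ∧
    ‖((c i).lf F U p z).1‖ ≤ 1 ∧ ‖((c i).lf F U p z).2‖ ≤ 1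

attribute [instance] WebOver.fin

/-! ## the model of the surface on which `{RD = 0}` has normal crossings -/

/-- Finitely many parametrizations `ρ i` of the surface by the bidisc, which are immersive off the axes; `B i` is the part of the bidisc which is used, `C i` a
compact subset; `rel i p j q`: the two points are the same point of the blown-up surface. -/
structure NCModel (P : Ideal (MvPolynomial (Fin (M + 1)) ℂ)) (RD : MvPolynomial (Fin (M + 1)) ℂ) where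
  ι : Type
  [fin : Fintype ι]
  ρ : ι → ℂ × ℂ → EN M
  B : ι → Set (ℂ × ℂ)
  C : ι → Set (ℂ × ℂ)
  rel : ι → ℂ × ℂ → ι → ℂ × ℂ → Prop
  box : ∀ i, NCBox (coneE P) (ρ i)
  good : ∀ i, ∀ p ∈ DS, eval (ρ i p).ofLp RD ≠ 0
  isOpen : ∀ i, IsOpen (B i)
  sub : ∀ i, B i ⊆ DD
  compact : ∀ i, IsCompact (C i)
  C_sub : ∀ i, C i ⊆ B i
  /-- in `B i` both axes belong to the divisor -/
  div : ∀ i, ∀ p ∈ B i, eval (ρ i p).ofLp RD = 0 ↔ p.1 * p.2 = 0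
  /-- a crossing point is used in only one box, and this box is the whole bidisc -/
  corner : ∀ i, (0 : ℂ × ℂ) ∈ B i → B i = DD ∧ ∀ j p, p ∈ B j → rel i 0 j p → j = i ∧ p = 0
  /-- a box which is not centered at a crossing point contains no point of the second axis -/
  side : ∀ i, (0 : ℂ × ℂ) ∉ B i → ∀ p ∈ B i, p.2 ≠ 0
  refl : ∀ i, ∀ p ∈ B i, ∀ q ∈ B i, rel i p i q ↔ p = q
  symm : ∀ i j p q, p ∈ B i → q ∈ B j → rel i p j q → rel j q i p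
  trans : ∀ i j k p q r, p ∈ B i → q ∈ B j → r ∈ B k → rel i p j q → rel j q k r → rel i p k r
  iso : ∀ i j, ∀ p ∈ B i, ∀ q ∈ B j, rel i p j q → ∃ Φ : ℂ × ℂ → ℂ × ℂ, AnalyticAt ℂ Φ p ∧ Φ p = q ∧ (fderiv ℂ Φ p).det ≠ 0 ∧
    (∀ᶠ x in 𝓝 p, rel i x j (Φ x)) ∧ ∀ᶠ x in 𝓝 p, ∃ c : ℂ, c ≠ 0 ∧ ρ i x = c • ρ j (Φ x)
  sep : ∀ i j, ∀ p ∈ B i, ∀ q ∈ B j, ¬ rel i p j q → ∀ᶠ x in 𝓝 (p, q), ¬ rel i x.1 j x.2

attribute [instance] NCModel.fin

/-- The curve in the boxes of the model. -/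
structure NCLift {P : Ideal (MvPolynomial (Fin (M + 1)) ℂ)} {RD : MvPolynomial (Fin (M + 1)) ℂ} (X : NCModel P RD) (F : ℂ → EN M) where
  U : X.ι → Set ℂ
  p : X.ι → ℂ → ℂ × ℂ
  isOpen : ∀ i, IsOpen (U i)
  an : ∀ i, ∀ z ∈ U i, AnalyticAt ℂ (p i) z
  mem : ∀ i, ∀ z ∈ U i, p i z ∈ X.B i
  eq : ∀ i, ∀ z ∈ U i, ∃ c : ℂ, c ≠ 0 ∧ F z = c • X.ρ i (p i z)
  closed : ∀ i, ∀ K ⊆ X.B i, IsCompact K → IsClosed {z | z ∈ U i ∧ p i z ∈ K}
  cover : ∀ z, ∃ i, z ∈ U i ∧ p i z ∈ X.C i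
  rel : ∀ i j z, z ∈ U i → z ∈ U j → X.rel i (p i z) j (p j z)
  full : ∀ i j z, z ∈ U i → ∀ q ∈ X.B j, X.rel i (p i z) j q → z ∈ U j ∧ p j z = q

/-- The density `lm` bounds the curve in the boxes; `A` and `CK` will not depend on the curve. -/
structure NCDens {P : Ideal (MvPolynomial (Fin (M + 1)) ℂ)} {RD : MvPolynomial (Fin (M + 1)) ℂ} {X : NCModel P RD} {F : ℂ → EN M} (Y : NCLift X F)
    (A : ℝ) (CK : X.ι → Set (ℂ × ℂ) → ℝ) (lm : ℂ → ℝ) : Prop where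
  cont : Continuous lm
  le : ∀ z, lam F z ≤ lm z
  energy : ∃ K : ℝ, ∀ R, 1 ≤ R → ∫ z, tau R z * lm z ^ 2 ≤ A * En F R + K
  deriv_le : ∀ i, ∀ K ⊆ X.B i, IsCompact K → ∀ z ∈ Y.U i, Y.p i z ∈ K → ‖deriv (Y.p i) z‖ ≤ CK i K * lm z

end Pool.Agent.MQ3
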