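import Pool.Agent.MQ3.EnU

/-!
# MQ3 EnV: the energy estimates on compact sets, for the lifts, with constants which do not depend on the curve
-/

set_option autoImplicit false

open MeasureTheory Topology Filter Metric Laplacian

noncomputable section

namespace Pool.Agent.MQ3

open Pool.Agent.MQ
open Pool.Agent.H30M (tau tau_nonneg contDiff_tau hcs_tau)

/-- the energy of a density -/
def eL (lm : ℂ → ℝ) (R : ℝ) : ℝ := ∫ z, tau R z * lm z ^ 2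

theorem eL_nonneg (lm : ℂ → ℝ) (R : ℝ) (hR : 1 ≤ R) : 0 ≤ eL lm R := integral_nonneg fun z => mul_nonneg (tau_nonneg hR z) (sq_nonneg _)

/-- a curve in the set `B`, and a density which bounds its speed on the compact subsets of `B` -/
structure CrvU (B : Set (ℂ × ℂ)) (CK : Set (ℂ × ℂ) → ℝ) (U : Set ℂ) (p : ℂ → ℂ × ℂ) (lm : ℂ → ℝ) : Prop where
  isOpen : IsOpen U
  an : ∀ z ∈ U, AnalyticAt ℂ p z
  mem : ∀ z ∈ U, p z ∈ B
  closed : ∀ K ⊆ B, IsCompact K → IsClosed {z | z ∈ U ∧ p z ∈ K}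
  cont : Continuous lm
  nonneg : ∀ z, 0 ≤ lm z
  le : ∀ K ⊆ B, IsCompact K → ∀ z ∈ U, p z ∈ K → ‖deriv p z‖ ≤ CK K * lm z

variable {B : Set (ℂ × ℂ)} {CK : Set (ℂ × ℂ) → ℝ} {U : Set ℂ} {p : ℂ → ℂ × ℂ} {lm : ℂ → ℝ}

theorem CrvU.fst (h : CrvU B CK U p lm) : DifferentiableOn ℂ (fun z => (p z).1) U := fun z hz =>
  (h.an z hz).differentiableAt.fst.differentiableWithinAt

theorem CrvU.snd (h : CrvU B CK U p lm) : DifferentiableOn ℂ (fun z => (p z).2) U := fun z hz =>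
  (h.an z hz).differentiableAt.snd.differentiableWithinAt

theorem CrvU.crd (h : CrvU B CK U p lm) {q : ℂ × ℂ} {s : ℝ} (hs : 0 < s) (hB : closedBall q s ⊆ B) : Crd U (cx p q s) (cy p q s) := by
  refine ⟨h.isOpen, (h.fst.sub_const _).div_const _, (h.snd.sub_const _).div_const _, fun r hr => ?_⟩
  have h1 : {z | z ∈ U ∧ ‖cx p q s z‖ ≤ r ∧ ‖cy p q s z‖ ≤ r} = Kr U (cx p q s) (cy p q s) r := rfl
  rw [h1, Kr_eq hs]
  refine h.closed _ (Set.Subset.trans (closedBall_subset_closedBall ?_) hB) (isCompact_closedBall _ _)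
  nlinarith

theorem CrvU.energy_ed (h : CrvU B CK U p lm) {q : ℂ × ℂ} {s : ℝ} (hs : 0 < s) (hB : closedBall q s ⊆ B) {r : ℝ} (hr : r < 1) {R : ℝ} (hR : 1 ≤ R) :
    ∫ z, tau R z * ed (cx p q s) (cy p q s) (Kr U (cx p q s) (cy p q s) r) z ≤ 2 / s ^ 2 * CK (closedBall q (r * s)) ^ 2 * eL lm R := by
  have hcr := h.crd hs hB
  have hsub : closedBall q (r * s) ⊆ B := Set.Subset.trans (closedBall_subset_closedBall (by nlinarith)) hB
  have i1 := ed_int hcr hR (Kr_closed hcr hr) fun z hz => hz.1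
  have i2 := (tau_int hR (h.cont.pow 2)).const_mul (2 / s ^ 2 * CK (closedBall q (r * s)) ^ 2)
  unfold eL
  rw [← integral_const_mul]
  refine integral_mono i1 i2 fun z => ?_
  have h2 : ed (cx p q s) (cy p q s) (Kr U (cx p q s) (cy p q s) r) z ≤ 2 / s ^ 2 * CK (closedBall q (r * s)) ^ 2 * lm z ^ 2 := by
    unfold ed
    rw [Kr_eq hs]
    by_cases hz : z ∈ {z | z ∈ U ∧ p z ∈ closedBall q (r * s)}
    · rw [Set.indicator_of_mem hz]
      have h3 := h.le _ hsub (isCompact_closedBall _ _) z hz.1 hz.2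
      have h4 := pow_le_pow_left₀ (norm_nonneg _) h3 2
      have h5 := norm_deriv_pair (h.an z hz.1) q hs
      have h6 := mul_le_mul_of_nonneg_left h4 (show 0 ≤ 2 / s ^ 2 by positivity)
      rw [mul_pow] at h6
      linarith
    · rw [Set.indicator_of_notMem hz]
      positivity
  have := mul_le_mul_of_nonneg_left h2 (tau_nonneg hR z)
  show tau R z * ed (cx p q s) (cy p q s) (Kr U (cx p q s) (cy p q s) r) z ≤ 2 / s ^ 2 * CK (closedBall q (r * s)) ^ 2 * (tau R z * lm z ^ 2)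
  linarith

/-- the energy of a function on a compact set; the constant does not depend on the curve -/
theorem enVB (hBo : IsOpen B) (CK : Set (ℂ × ℂ) → ℝ) {K : Set (ℂ × ℂ)} (hK : IsCompact K) (hKB : K ⊆ B) {a : ℝ} (ha : 0 < a) (ha1 : a ≤ 1) :
    ∃ A : ℝ, 0 ≤ A ∧ ∀ (U : Set ℂ) (p : ℂ → ℂ × ℂ) (lm : ℂ → ℝ), CrvU B CK U p lm → ∀ v : ℂ → ℂ, DifferentiableOn ℂ v U → (∀ z ∈ U, ‖v z‖ ≤ 1) →
      EU A (eL lm) ({z | z ∈ U ∧ p z ∈ K} ∩ {z | v z ≠ 0}) fun z => ‖v z‖ ^ (2 * a - 2) * ‖deriv v z‖ ^ 2 := by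
  have hex : ∀ q ∈ K, ∃ s : ℝ, 0 < s ∧ closedBall q s ⊆ B := fun q hq => Metric.nhds_basis_closedBall.mem_iff.1 (hBo.mem_nhds (hKB hq))
  choose! s hs hsB using hex
  obtain ⟨t, htK, ht⟩ := hK.elim_nhds_subcover (fun q => ball q (s q / 2)) fun q hq => ball_mem_nhds q (half_pos (hs q hq))
  obtain ⟨A₀, r', hA₀, hr', hE⟩ := enRVU ha ha1 (show (1 / 2 : ℝ) < 1 by norm_num)
  refine ⟨1 * ∑ q ∈ t, A₀ * (2 / s q ^ 2 * CK (closedBall q (r' * s q)) ^ 2), by positivity, fun U p lm h v hv hv1 => ?_⟩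
  have hm : MeasurableSet ({z | z ∈ U ∧ p z ∈ K} ∩ {z | v z ≠ 0}) := meas_ne' (h.closed K hKB hK) (hv.continuousOn.mono fun z hz => hz.1)
  refine EU.of_cover (D := 1) t (A := fun q => A₀ * (2 / s q ^ 2 * CK (closedBall q (r' * s q)) ^ 2))
    (S := fun q => Kr U (cx p q (s q)) (cy p q (s q)) (1 / 2) ∩ {z | v z ≠ 0})
    (f := fun _ z => ‖v z‖ ^ (2 * a - 2) * ‖deriv v z‖ ^ 2) (fun q hq => ?_) (fun _ _ z _ => by positivity) zero_le_one ?_ (fun z _ => by positivity) fun z hz => ?_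
  · refine ⟨A₀, fun R hR => ?_⟩
    obtain ⟨h1, h2⟩ := hE U _ _ (h.crd (hs q (htK q hq)) (hsB q (htK q hq))) v hv (fun z hz _ _ => hv1 z hz) R hR
    refine ⟨h1, h2.trans ?_⟩
    have h3 := mul_le_mul_of_nonneg_left (h.energy_ed (hs q (htK q hq)) (hsB q (htK q hq)) hr' hR) hA₀
    have e1 : A₀ * (2 / s q ^ 2 * CK (closedBall q (r' * s q)) ^ 2) * eL lm R = A₀ * (2 / s q ^ 2 * CK (closedBall q (r' * s q)) ^ 2 * eL lm R) := by ring
    rw [e1]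
    linarith
  · refine meas_ind hm ?_
    have c1 : ContinuousOn v ({z | z ∈ U ∧ p z ∈ K} ∩ {z | v z ≠ 0}) := hv.continuousOn.mono fun z hz => hz.1.1
    have c2 : ContinuousOn (deriv v) ({z | z ∈ U ∧ p z ∈ K} ∩ {z | v z ≠ 0}) := (hv.deriv h.isOpen).continuousOn.mono fun z hz => hz.1.1
    exact (c1.norm.rpow_const fun z hz => Or.inl (norm_ne_zero_iff.2 hz.2)).mul (c2.norm.pow 2)
  · obtain ⟨q, hq, hzq⟩ := Set.mem_iUnion₂.1 (ht hz.1.2)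
    refine ⟨q, hq, ⟨?_, hz.2⟩, by rw [one_mul]⟩
    rw [Kr_eq (hs q (htK q hq))]
    refine ⟨hz.1.1, ball_subset_closedBall ?_⟩
    have : (1 : ℝ) / 2 * s q = s q / 2 := by ring
    rw [this]
    exact hzq

theorem meas_xy (h : CrvU B CK U p lm) {K : Set (ℂ × ℂ)} (hK : IsCompact K) (hKB : K ⊆ B) :
    MeasurableSet ({z | z ∈ U ∧ p z ∈ K} ∩ {z | (p z).1 ≠ 0 ∧ (p z).2 ≠ 0}) := by
  have hcl := h.closed K hKB hK
  have h1 := meas_ne' hcl (v := fun z => (p z).1) (h.fst.continuousOn.mono fun z hz => hz.1)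
  have h2 := meas_ne' hcl (v := fun z => (p z).2) (h.snd.continuousOn.mono fun z hz => hz.1)
  have h3 : {z | z ∈ U ∧ p z ∈ K} ∩ {z | (p z).1 ≠ 0 ∧ (p z).2 ≠ 0} =
      ({z | z ∈ U ∧ p z ∈ K} ∩ {z | (p z).1 ≠ 0}) ∩ ({z | z ∈ U ∧ p z ∈ K} ∩ {z | (p z).2 ≠ 0}) := by
    ext z
    constructor
    · rintro ⟨h4, h5, h6⟩
      exact ⟨⟨h4, h5⟩, h4, h6⟩
    · rintro ⟨⟨h4, h5⟩, _, h6⟩
      exact ⟨h4, h5, h6⟩
  rw [h3]
  exact h1.inter h2

/-- the second energy on a compact set; the constant does not depend on the curve -/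
theorem enTB (hBo : IsOpen B) (hB1 : ∀ q ∈ B, ‖q.1‖ ≤ 1 ∧ ‖q.2‖ ≤ 1) (CK : Set (ℂ × ℂ) → ℝ) {K : Set (ℂ × ℂ)} (hK : IsCompact K) (hKB : K ⊆ B)
    {a b : ℝ} (ha : 0 < a) (ha1 : a ≤ 1) (hb : 0 < b) (hb1 : b ≤ 1) :
    ∃ A : ℝ, 0 ≤ A ∧ ∀ (U : Set ℂ) (p : ℂ → ℂ × ℂ) (lm : ℂ → ℝ), CrvU B CK U p lm → (∀ z ∈ U, ∀ᶠ w in 𝓝[≠] z, (p w).1 ≠ 0 ∨ (p w).2 ≠ 0) →
      EU A (eL lm) ({z | z ∈ U ∧ p z ∈ K} ∩ {z | (p z).1 ≠ 0 ∧ (p z).2 ≠ 0}) (td (fun z => (p z).1) (fun z => (p z).2) a b) := by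
  obtain ⟨A₁, hA₁, hE₁⟩ := enVB hBo CK hK hKB ha ha1
  obtain ⟨A₂, hA₂, hE₂⟩ := enVB hBo CK hK hKB hb hb1
  obtain ⟨c, D₀, A₀, hc, hc1, hD0, hA₀, hcov'⟩ : ∃ (c D₀ A₀ : ℝ), 0 < c ∧ c ≤ 1 ∧ 0 ≤ D₀ ∧ 0 ≤ A₀ ∧ ∀ (U : Set ℂ) (p : ℂ → ℂ × ℂ) (lm : ℂ → ℝ), CrvU B CK U p lm →
      (∀ z ∈ U, ∀ᶠ w in 𝓝[≠] z, (p w).1 ≠ 0 ∨ (p w).2 ≠ 0) → ∃ (S₀ : Set ℂ) (f₀ : ℂ → ℝ), EU A₀ (eL lm) S₀ f₀ ∧ (∀ z ∈ S₀, 0 ≤ f₀ z) ∧
      ∀ z ∈ U, p z ∈ K → (p z).1 ≠ 0 → (p z).2 ≠ 0 → (z ∈ S₀ ∧ td (fun z => (p z).1) (fun z => (p z).2) a b z ≤ D₀ * f₀ z) ∨ c ≤ ‖(p z).1‖ ∨ c ≤ ‖(p z).2‖ := by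
    by_cases h0 : (0 : ℂ × ℂ) ∈ B
    · obtain ⟨s₁, hs₁, hB₁⟩ := Metric.nhds_basis_closedBall.mem_iff.1 (hBo.mem_nhds h0)
      set s := min s₁ 1 with hsd
      have hs : 0 < s := lt_min hs₁ one_pos
      have hs1 : s ≤ 1 := min_le_right _ _
      have hB : closedBall (0 : ℂ × ℂ) s ⊆ B := (closedBall_subset_closedBall (min_le_left _ _)).trans hB₁
      obtain ⟨A₀, r', hA₀, hr', hE⟩ := enTU ha ha1 hb hb1 (show (1 / 2 : ℝ) < 1 by norm_num)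
      refine ⟨s / 2, 1 / s ^ 4, A₀ * (2 / s ^ 2 * CK (closedBall 0 (r' * s)) ^ 2), by positivity, by linarith, by positivity, by positivity, fun U p lm h hne => ?_⟩
      have hcr := h.crd hs hB
      have hcx : ∀ w, cx p 0 s w = (p w).1 / s := fun w => by
        unfold cx
        rw [Prod.fst_zero, sub_zero]
      have hcy : ∀ w, cy p 0 s w = (p w).2 / s := fun w => by
        unfold cy
        rw [Prod.snd_zero, sub_zero]
      have hsc : (s : ℂ) ≠ 0 := Complex.ofReal_ne_zero.2 hs.ne'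
      have hne' : ∀ z ∈ U, ∀ᶠ w in 𝓝[≠] z, cx p 0 s w ≠ 0 ∨ cy p 0 s w ≠ 0 := by
        intro z hz
        filter_upwards [hne z hz] with w hw
        rcases hw with hw | hw
        · left
          rw [hcx]
          exact div_ne_zero hw hsc
        · right
          rw [hcy]
          exact div_ne_zero hw hsc
      obtain ⟨K₀, hK₀⟩ := hE U _ _ hcr hne'
      refine ⟨_, td (cx p 0 s) (cy p 0 s) a b, ⟨K₀, fun R hR => ⟨(hK₀ R hR).1, (hK₀ R hR).2.trans ?_⟩⟩, fun z _ => td_nonneg _ _ _ _ z, ?_⟩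
      · have h3 := mul_le_mul_of_nonneg_left (h.energy_ed hs hB hr' hR) hA₀
        have e1 : A₀ * (2 / s ^ 2 * CK (closedBall 0 (r' * s)) ^ 2) * eL lm R = A₀ * (2 / s ^ 2 * CK (closedBall 0 (r' * s)) ^ 2 * eL lm R) := by ring
        rw [e1]
        linarith
      intro z hz hzK hxz hyz
      by_cases hin : p z ∈ closedBall (0 : ℂ × ℂ) (1 / 2 * s)
      · left
        refine ⟨⟨?_, ?_, ?_⟩, td_scale ha ha1 hb hb1 hs hs1 hxz hyz hcx hcy⟩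
        · rw [Kr_eq hs]
          exact ⟨hz, hin⟩
        · rw [hcx]
          exact div_ne_zero hxz hsc
        · rw [hcy]
          exact div_ne_zero hyz hsc
      · right
        rw [mem_closedBall_zero_iff, not_le, Prod.norm_def, lt_sup_iff] at hin
        rcases hin with hin | hin
        · left
          linarith
        · right
          linarith
    · have h1 : (0 : ℂ × ℂ) ∉ K := fun h2 => h0 (hKB h2)
      obtain ⟨r, hr, hr2⟩ := Metric.nhds_basis_ball.mem_iff.1 (hK.isClosed.isOpen_compl.mem_nhds h1)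
      refine ⟨min r 1, 0, 0, lt_min hr one_pos, min_le_right _ _, le_rfl, le_rfl, fun U p lm h hne => ⟨∅, fun _ => 0, EU.empty, fun _ _ => le_rfl,
        fun z hz hzK hxz hyz => Or.inr ?_⟩⟩
      have h2 : r ≤ ‖p z‖ := by
        by_contra h3
        exact hr2 (mem_ball_zero_iff.2 (not_le.1 h3)) hzK
      rw [Prod.norm_def, le_sup_iff] at h2
      rcases h2 with h2 | h2
      · exact Or.inl ((min_le_left _ _).trans h2)
      · exact Or.inr ((min_le_left _ _).trans h2)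
  refine ⟨(D₀ + 4 / c ^ 4) * ∑ j : Fin 3, ![A₀, A₁, A₂] j, ?_, fun U p lm h hne => ?_⟩
  · have : 0 ≤ ∑ j : Fin 3, ![A₀, A₁, A₂] j := Finset.sum_nonneg fun j _ => by
      fin_cases j
      · exact hA₀
      · exact hA₁
      · exact hA₂
    positivity
  obtain ⟨S₀, f₀, hS0, hf0, hcov⟩ := hcov' U p lm h hne
  set x : ℂ → ℂ := fun z => (p z).1 with hxd
  set y : ℂ → ℂ := fun z => (p z).2 with hyd
  have hx1 : ∀ z ∈ U, ‖x z‖ ≤ 1 := fun z hz => (hB1 _ (h.mem z hz)).1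
  have hy1 : ∀ z ∈ U, ‖y z‖ ≤ 1 := fun z hz => (hB1 _ (h.mem z hz)).2
  have e1 := hE₁ U p lm h x h.fst hx1
  have e2 := hE₂ U p lm h y h.snd hy1
  have hT := meas_xy h hK hKB
  set f₁ : ℂ → ℝ := fun z => ‖x z‖ ^ (2 * a - 2) * ‖deriv x z‖ ^ 2 with hf1
  set f₂ : ℂ → ℝ := fun z => ‖y z‖ ^ (2 * b - 2) * ‖deriv y z‖ ^ 2 with hf2
  have f1n : ∀ z, 0 ≤ f₁ z := fun z => by positivity
  have f2n : ∀ z, 0 ≤ f₂ z := fun z => by positivity
  refine EU.of_cover (D := D₀ + 4 / c ^ 4) (Finset.univ : Finset (Fin 3)) (A := ![A₀, A₁, A₂])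
    (S := ![S₀, {z | z ∈ U ∧ p z ∈ K} ∩ {z | x z ≠ 0}, {z | z ∈ U ∧ p z ∈ K} ∩ {z | y z ≠ 0}])
    (f := ![f₀, f₁, f₂]) (fun j _ => ?_) (fun j _ => ?_) (by positivity) (td_meas h.isOpen h.fst h.snd hT (fun z hz => hz.1.1) (fun z hz => hz.2) a b)
    (fun z _ => td_nonneg _ _ _ _ z) fun z hz => ?_
  · fin_cases j
    · exact hS0
    · exact e1
    · exact e2
  · fin_cases j
    · exact hf0
    · exact fun z _ => f1n z
    · exact fun z _ => f2n z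
  · rcases hcov z hz.1.1 hz.1.2 hz.2.1 hz.2.2 with ⟨h1, h2⟩ | h1
    · refine ⟨0, Finset.mem_univ _, h1, h2.trans ?_⟩
      show D₀ * f₀ z ≤ (D₀ + 4 / c ^ 4) * f₀ z
      have := hf0 z h1
      have : 0 ≤ 4 / c ^ 4 * f₀ z := by positivity
      linarith
    · have h2 := td_le ha ha1 hb hb1 hc hc1 hz.2.1 hz.2.2 (hx1 z hz.1.1) (hy1 z hz.1.1) h1
      have hcc : 0 ≤ 2 / c ^ 4 := by positivity
      rcases le_total (f₁ z) (f₂ z) with h3 | h3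
      · refine ⟨2, Finset.mem_univ _, ⟨hz.1, hz.2.2⟩, h2.trans ?_⟩
        show 2 / c ^ 4 * (f₁ z + f₂ z) ≤ (D₀ + 4 / c ^ 4) * f₂ z
        have h4 : 2 / c ^ 4 * (f₁ z + f₂ z) ≤ 2 / c ^ 4 * (f₂ z + f₂ z) := by gcongr
        have h5 : 0 ≤ D₀ * f₂ z := mul_nonneg hD0 (f2n z)
        calc _ ≤ _ := h4
          _ = 4 / c ^ 4 * f₂ z := by ring
          _ ≤ _ := by linarith
      · refine ⟨1, Finset.mem_univ _, ⟨hz.1, hz.2.1⟩, h2.trans ?_⟩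
        show 2 / c ^ 4 * (f₁ z + f₂ z) ≤ (D₀ + 4 / c ^ 4) * f₁ z
        have h4 : 2 / c ^ 4 * (f₁ z + f₂ z) ≤ 2 / c ^ 4 * (f₁ z + f₁ z) := by gcongr
        have h5 : 0 ≤ D₀ * f₁ z := mul_nonneg hD0 (f1n z)
        calc _ ≤ _ := h4
          _ = 4 / c ^ 4 * f₁ z := by ring
          _ ≤ _ := by linarith

/-! ## the lifts -/

section

variable {V : Set ℂ} {x y s t : ℂ → ℂ}

theorem coef_geM {u α β M : ℝ} (hu : 0 < u) (hM : 1 ≤ M) (hu1 : u ≤ M) (h1 : α - β ≤ 2) (h2 : β - α ≤ 2) :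
    u ^ 2 / (4 * M ^ 4) ≤ u ^ α * u ^ β / (u ^ α + u ^ β) ^ 2 := by
  have hM4 : (1 : ℝ) ≤ M ^ 4 := one_le_pow₀ hM
  rcases le_total u 1 with h | h
  · refine le_trans ?_ (coef_ge hu h h1 h2)
    exact div_le_div_of_nonneg_left (by positivity) (by norm_num) (by linarith)
  · have h3 := coef_ge (u := u⁻¹) (α := -α) (β := -β) (inv_pos.2 hu) (inv_le_one_of_one_le₀ h) (by linarith) (by linarith)
    rw [Real.inv_rpow hu.le, Real.inv_rpow hu.le, Real.rpow_neg hu.le, Real.rpow_neg hu.le, inv_inv, inv_inv] at h3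
    refine le_trans ?_ h3
    rw [div_le_div_iff₀ (by positivity) (by norm_num)]
    have h4 : u ^ 4 ≤ M ^ 4 := pow_le_pow_left₀ hu.le hu1 4
    have h5 : u⁻¹ ^ 2 * u ^ 4 = u ^ 2 := by field_simp
    nlinarith [sq_nonneg (u⁻¹), mul_le_mul_of_nonneg_left h4 (sq_nonneg (u⁻¹))]

/-- the pointwise estimate, interior case -/
theorem pt_TM {M : ℝ} (hM1 : 1 ≤ M) (hV : IsOpen V) (hs : DifferentiableOn ℂ s V) (ht : DifferentiableOn ℂ t V) {a b c d : ℕ} (hD : (a : ℤ) * d - b * c ≠ 0)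
    (hb : 1 ≤ b) (hd : 1 ≤ d) (hx : ∀ z ∈ V, x z = s z ^ a * t z ^ b) (hy : ∀ z ∈ V, y z = s z ^ c * t z ^ d) {z : ℂ} (hz : z ∈ V)
    (hs0 : s z ≠ 0) (ht0 : t z ≠ 0) (hs1 : ‖s z‖ ≤ M) :
    ‖deriv s z‖ ^ 2 ≤ 4 * M ^ 4 * ((b : ℝ) * d) ^ 2 * td x y (1 / (|(a : ℝ) * d - b * c| * b)) (1 / (|(a : ℝ) * d - b * c| * d)) z := by
  have hDR : (a : ℝ) * d - b * c ≠ 0 := by exact_mod_cast hD
  set D : ℝ := (a : ℝ) * d - b * c with hDd
  have hD1 : 1 ≤ |D| := by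
    have h1 : (1 : ℤ) ≤ |(a : ℤ) * d - b * c| := Int.one_le_abs hD
    have h2 : ((|(a : ℤ) * d - b * c| : ℤ) : ℝ) = |D| := by
      rw [Int.cast_abs]
      push_cast
      rfl
    rw [← h2]
    exact_mod_cast h1
  have hDpos : 0 < |D| := by linarith
  have hb' : (0 : ℝ) < b := by exact_mod_cast hb
  have hd' : (0 : ℝ) < d := by exact_mod_cast hd
  have hbd1 : (1 : ℝ) ≤ b * d := by
    have : 1 ≤ b * d := Nat.one_le_iff_ne_zero.2 (by positivity)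
    exact_mod_cast this
  have hu : 0 < ‖s z‖ := norm_pos_iff.2 hs0
  have hv : 0 < ‖t z‖ := norm_pos_iff.2 ht0
  set p : ℝ := 1 / (|D| * b) with hp
  set q : ℝ := 1 / (|D| * d) with hq
  have hpb : p * b = 1 / |D| := by rw [hp]; field_simp
  have hqd : q * d = 1 / |D| := by rw [hq]; field_simp
  set T : ℝ := ‖t z‖ ^ (2 * (1 / |D|)) with hT
  have hTpos : 0 < T := Real.rpow_pos_of_pos hv _
  have ex : ‖x z‖ ^ (2 * p) = ‖s z‖ ^ (2 * p * a) * T := by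
    rw [hx z hz, norm_mul, norm_pow, norm_pow, Real.mul_rpow (by positivity) (by positivity), ← Real.rpow_natCast, ← Real.rpow_natCast,
      ← Real.rpow_mul hu.le, ← Real.rpow_mul hv.le, hT, ← hpb]
    congr 2 <;> ring
  have ey : ‖y z‖ ^ (2 * q) = ‖s z‖ ^ (2 * q * c) * T := by
    rw [hy z hz, norm_mul, norm_pow, norm_pow, Real.mul_rpow (by positivity) (by positivity), ← Real.rpow_natCast, ← Real.rpow_natCast,
      ← Real.rpow_mul hu.le, ← Real.rpow_mul hv.le, hT, ← hqd]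
    congr 2 <;> ring
  have hA := Real.rpow_pos_of_pos hu (2 * p * a)
  have hB := Real.rpow_pos_of_pos hu (2 * q * c)
  have hcoef : ‖x z‖ ^ (2 * p) * ‖y z‖ ^ (2 * q) / (‖x z‖ ^ (2 * p) + ‖y z‖ ^ (2 * q)) ^ 2 =
      ‖s z‖ ^ (2 * p * a) * ‖s z‖ ^ (2 * q * c) / (‖s z‖ ^ (2 * p * a) + ‖s z‖ ^ (2 * q * c)) ^ 2 := by
    rw [ex, ey]
    field_simp
  have hdiff : p * a - q * c = D / (|D| * (b * d)) := by
    rw [hp, hq, hDd]
    field_simp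
  have habs : |p * a - q * c| = 1 / (b * d) := by
    rw [hdiff, abs_div, abs_of_pos (show 0 < |D| * (b * d) by positivity)]
    field_simp
  have hle : |p * a - q * c| ≤ 1 := by
    rw [habs, div_le_one (by positivity)]
    exact hbd1
  have hc1 := coef_geM hu hM1 hs1 (α := 2 * p * a) (β := 2 * q * c) (by linarith [le_abs_self (p * a - q * c)]) (by linarith [neg_abs_le (p * a - q * c)])
  have hlog : (p : ℂ) * (deriv x z / x z) - q * (deriv y z / y z) = ((p * a - q * c : ℝ) : ℂ) * (deriv s z / s z) := by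
    rw [dlog_mono hV hs ht hx hz hs0 ht0, dlog_mono hV hs ht hy hz hs0 ht0]
    have h1 : ((p * b : ℝ) : ℂ) = ((q * d : ℝ) : ℂ) := by rw [hpb, hqd]
    push_cast at h1 ⊢
    linear_combination (deriv t z / t z) * h1
  unfold td
  rw [hcoef, hlog, norm_mul, Complex.norm_real, Real.norm_eq_abs, habs, norm_div]
  have h3 : ‖s z‖ ^ 2 / (4 * M ^ 4) * (1 / (b * d) * (‖deriv s z‖ / ‖s z‖)) ^ 2 ≤
      ‖s z‖ ^ (2 * p * a) * ‖s z‖ ^ (2 * q * c) / (‖s z‖ ^ (2 * p * a) + ‖s z‖ ^ (2 * q * c)) ^ 2 * (1 / (b * d) * (‖deriv s z‖ / ‖s z‖)) ^ 2 :=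
    mul_le_mul_of_nonneg_right hc1 (sq_nonneg _)
  have h4 : ‖s z‖ ^ 2 / (4 * M ^ 4) * (1 / ((b : ℝ) * d) * (‖deriv s z‖ / ‖s z‖)) ^ 2 = ‖deriv s z‖ ^ 2 / (4 * M ^ 4 * (b * d) ^ 2) := by
    field_simp
  rw [h4] at h3
  calc ‖deriv s z‖ ^ 2 = 4 * M ^ 4 * (b * d) ^ 2 * (‖deriv s z‖ ^ 2 / (4 * M ^ 4 * (b * d) ^ 2)) := by field_simp
    _ ≤ _ := mul_le_mul_of_nonneg_left h3 (by positivity)

/-- the energy of one coordinate of a lift; the constant does not depend on the curve -/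
theorem enLB_one (hBo : IsOpen B) (hB1 : ∀ q ∈ B, ‖q.1‖ ≤ 1 ∧ ‖q.2‖ ≤ 1) (CK : Set (ℂ × ℂ) → ℝ) {K : Set (ℂ × ℂ)} (hK : IsCompact K) (hKB : K ⊆ B)
    {a b c d : ℕ} (hD : (a : ℤ) * d - b * c ≠ 0) (M : ℝ) :
    ∃ A : ℝ, 0 ≤ A ∧ ∀ (U : Set ℂ) (p : ℂ → ℂ × ℂ) (lm : ℂ → ℝ), CrvU B CK U p lm → (∀ z ∈ U, ∀ᶠ w in 𝓝[≠] z, (p w).1 ≠ 0 ∨ (p w).2 ≠ 0) →
      ∀ (V : Set ℂ) (s t : ℂ → ℂ), IsOpen V → V ⊆ U → DifferentiableOn ℂ s V → DifferentiableOn ℂ t V → (∀ z ∈ V, (p z).1 = s z ^ a * t z ^ b) →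
        (∀ z ∈ V, (p z).2 = s z ^ c * t z ^ d) → ∀ T : Set ℂ, MeasurableSet T → T ⊆ V → (∀ z ∈ T, p z ∈ K ∧ ‖s z‖ ≤ M ∧ (p z).1 ≠ 0 ∧ (p z).2 ≠ 0) →
          EU A (eL lm) T fun z => ‖deriv s z‖ ^ 2 := by
  -- `s`, `t` are not zero
  have hsne : ∀ (V : Set ℂ) (x y s t : ℂ → ℂ), (∀ z ∈ V, x z = s z ^ a * t z ^ b) → (∀ z ∈ V, y z = s z ^ c * t z ^ d) → ∀ z ∈ V, x z ≠ 0 → y z ≠ 0 → s z ≠ 0 := by
    intro V x y s t hx hy z hz hx0 hy0 h0
    rw [hx z hz, h0] at hx0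
    rw [hy z hz, h0] at hy0
    have h1 : a = 0 := by
      by_contra ha
      exact hx0 (by rw [zero_pow ha, zero_mul])
    have h2 : c = 0 := by
      by_contra hc
      exact hy0 (by rw [zero_pow hc, zero_mul])
    rw [h1, h2] at hD
    simp at hD
  have htne : ∀ (V : Set ℂ) (x y s t : ℂ → ℂ), (∀ z ∈ V, x z = s z ^ a * t z ^ b) → (∀ z ∈ V, y z = s z ^ c * t z ^ d) → ∀ z ∈ V, x z ≠ 0 → y z ≠ 0 → t z ≠ 0 := by
    intro V x y s t hx hy z hz hx0 hy0 h0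
    rw [hx z hz, h0] at hx0
    rw [hy z hz, h0] at hy0
    have h1 : b = 0 := by
      by_contra ha
      exact hx0 (by rw [zero_pow ha, mul_zero])
    have h2 : d = 0 := by
      by_contra hc
      exact hy0 (by rw [zero_pow hc, mul_zero])
    rw [h1, h2] at hD
    simp at hD
  have hmeas : ∀ (V T : Set ℂ) (s : ℂ → ℂ), IsOpen V → DifferentiableOn ℂ s V → MeasurableSet T → T ⊆ V → AEStronglyMeasurable (T.indicator fun z => ‖deriv s z‖ ^ 2) := by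
    intro V T s hV hs hT hTV
    exact meas_ind hT (((hs.deriv hV).continuousOn.norm.pow 2).mono hTV)
  rcases Nat.eq_zero_or_pos b with hb | hb
  · -- `x = s ^ a`
    have ha : 1 ≤ a := by
      rcases Nat.eq_zero_or_pos a with h0 | h0
      · rw [h0, hb] at hD
        simp at hD
      · exact h0
    have hp : (0 : ℝ) < 1 / a := by positivity
    have hp1 : 1 / (a : ℝ) ≤ 1 := by
      rw [div_le_one (by exact_mod_cast ha)]
      exact_mod_cast ha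
    obtain ⟨A, hA, hE⟩ := enVB hBo CK hK hKB hp hp1
    refine ⟨1 * A, by linarith, fun U p lm h hne V s t hV hVU hs ht hx hy T hT hTV hTz => ?_⟩
    refine EU.of_le (hE U p lm h (fun z => (p z).1) h.fst fun z hz => (hB1 _ (h.mem z hz)).1) (fun z _ => by positivity) zero_le_one (hmeas V T s hV hs hT hTV)
      (fun z _ => sq_nonneg _) (fun z hz => ?_) fun z hz => ?_
    · obtain ⟨h1, h2, h3, h4⟩ := hTz z hz
      exact ⟨⟨hVU (hTV hz), h1⟩, h3⟩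
    · obtain ⟨h1, h2, h3, h4⟩ := hTz z hz
      rw [one_mul]
      exact pt_R (x := fun z => (p z).1) hV hs ha (fun z hz => by rw [hx z hz, hb, pow_zero, mul_one]) (hTV hz) (hsne V _ _ s t hx hy z (hTV hz) h3 h4)
  rcases Nat.eq_zero_or_pos d with hd | hd
  · -- `y = s ^ c`
    have hc : 1 ≤ c := by
      rcases Nat.eq_zero_or_pos c with h0 | h0
      · rw [h0, hd] at hD
        simp at hD
      · exact h0
    have hp : (0 : ℝ) < 1 / c := by positivity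
    have hp1 : 1 / (c : ℝ) ≤ 1 := by
      rw [div_le_one (by exact_mod_cast hc)]
      exact_mod_cast hc
    obtain ⟨A, hA, hE⟩ := enVB hBo CK hK hKB hp hp1
    refine ⟨1 * A, by linarith, fun U p lm h hne V s t hV hVU hs ht hx hy T hT hTV hTz => ?_⟩
    refine EU.of_le (hE U p lm h (fun z => (p z).2) h.snd fun z hz => (hB1 _ (h.mem z hz)).2) (fun z _ => by positivity) zero_le_one (hmeas V T s hV hs hT hTV)
      (fun z _ => sq_nonneg _) (fun z hz => ?_) fun z hz => ?_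
    · obtain ⟨h1, h2, h3, h4⟩ := hTz z hz
      exact ⟨⟨hVU (hTV hz), h1⟩, h4⟩
    · obtain ⟨h1, h2, h3, h4⟩ := hTz z hz
      rw [one_mul]
      exact pt_R (x := fun z => (p z).2) hV hs hc (fun z hz => by rw [hy z hz, hd, pow_zero, mul_one]) (hTV hz) (hsne V _ _ s t hx hy z (hTV hz) h3 h4)
  · -- the interior case
    have hDR : (a : ℝ) * d - b * c ≠ 0 := by exact_mod_cast hD
    have hD1 : 1 ≤ |(a : ℝ) * d - b * c| := by
      have h1 : (1 : ℤ) ≤ |(a : ℤ) * d - b * c| := Int.one_le_abs hD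
      have h2 : ((|(a : ℤ) * d - b * c| : ℤ) : ℝ) = |(a : ℝ) * d - b * c| := by
        rw [Int.cast_abs]
        push_cast
        rfl
      rw [← h2]
      exact_mod_cast h1
    have hb1 : (1 : ℝ) ≤ b := by exact_mod_cast hb
    have hd1 : (1 : ℝ) ≤ d := by exact_mod_cast hd
    have hp : 0 < 1 / (|(a : ℝ) * d - b * c| * b) := by positivity
    have hq : 0 < 1 / (|(a : ℝ) * d - b * c| * d) := by positivity
    have hp1 : 1 / (|(a : ℝ) * d - b * c| * b) ≤ 1 := by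
      rw [div_le_one (by positivity)]
      nlinarith
    have hq1 : 1 / (|(a : ℝ) * d - b * c| * d) ≤ 1 := by
      rw [div_le_one (by positivity)]
      nlinarith
    obtain ⟨A, hA, hE⟩ := enTB hBo hB1 CK hK hKB hp hp1 hq hq1
    refine ⟨4 * (max M 1) ^ 4 * ((b : ℝ) * d) ^ 2 * A, by positivity, fun U p lm h hne V s t hV hVU hs ht hx hy T hT hTV hTz => ?_⟩
    refine EU.of_le (hE U p lm h hne) (fun z _ => td_nonneg _ _ _ _ z) (by positivity) (hmeas V T s hV hs hT hTV)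
      (fun z _ => sq_nonneg _) (fun z hz => ?_) fun z hz => ?_
    · obtain ⟨h1, h2, h3, h4⟩ := hTz z hz
      exact ⟨⟨hVU (hTV hz), h1⟩, h3, h4⟩
    · obtain ⟨h1, h2, h3, h4⟩ := hTz z hz
      exact pt_TM (x := fun z => (p z).1) (y := fun z => (p z).2) (le_max_right _ _) hV hs ht hD hb hd hx hy (hTV hz) (hsne V _ _ s t hx hy z (hTV hz) h3 h4)
        (htne V _ _ s t hx hy z (hTV hz) h3 h4) (h2.trans (le_max_left _ _))

/-- the energy of a lift; the constant does not depend on the curve -/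
theorem enLB (hBo : IsOpen B) (hB1 : ∀ q ∈ B, ‖q.1‖ ≤ 1 ∧ ‖q.2‖ ≤ 1) (CK : Set (ℂ × ℂ) → ℝ) {K : Set (ℂ × ℂ)} (hK : IsCompact K) (hKB : K ⊆ B)
    {a b c d : ℕ} (hD : (a : ℤ) * d - b * c ≠ 0) (M : ℝ) :
    ∃ A : ℝ, 0 ≤ A ∧ ∀ (U : Set ℂ) (p : ℂ → ℂ × ℂ) (lm : ℂ → ℝ), CrvU B CK U p lm → (∀ z ∈ U, ∀ᶠ w in 𝓝[≠] z, (p w).1 ≠ 0 ∨ (p w).2 ≠ 0) →
      ∀ (V : Set ℂ) (s t : ℂ → ℂ), IsOpen V → V ⊆ U → DifferentiableOn ℂ s V → DifferentiableOn ℂ t V → (∀ z ∈ V, (p z).1 = s z ^ a * t z ^ b) →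
        (∀ z ∈ V, (p z).2 = s z ^ c * t z ^ d) → ∀ T : Set ℂ, MeasurableSet T → T ⊆ V → (∀ z ∈ T, p z ∈ K ∧ ‖s z‖ ≤ M ∧ ‖t z‖ ≤ M ∧ (p z).1 ≠ 0 ∧ (p z).2 ≠ 0) →
          EU A (eL lm) T fun z => max ‖deriv s z‖ ‖deriv t z‖ ^ 2 := by
  have hD' : (b : ℤ) * c - a * d ≠ 0 := by
    intro h0
    apply hD
    linarith
  obtain ⟨A₁, hA₁, hE₁⟩ := enLB_one hBo hB1 CK hK hKB hD M
  obtain ⟨A₂, hA₂, hE₂⟩ := enLB_one hBo hB1 CK hK hKB hD' M
  refine ⟨1 * ∑ j : Fin 2, ![A₁, A₂] j, ?_, fun U p lm h hne V s t hV hVU hs ht hx hy T hT hTV hTz => ?_⟩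
  · have : 0 ≤ ∑ j : Fin 2, ![A₁, A₂] j := Finset.sum_nonneg fun j _ => by
      fin_cases j
      · exact hA₁
      · exact hA₂
    linarith
  have e1 := hE₁ U p lm h hne V s t hV hVU hs ht hx hy T hT hTV fun z hz => ⟨(hTz z hz).1, (hTz z hz).2.1, (hTz z hz).2.2.2⟩
  have e2 := hE₂ U p lm h hne V t s hV hVU ht hs (fun z hz => by rw [hx z hz, mul_comm]) (fun z hz => by rw [hy z hz, mul_comm]) T hT hTV
    fun z hz => ⟨(hTz z hz).1, (hTz z hz).2.2.1, (hTz z hz).2.2.2⟩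
  have c1 := ((hs.deriv hV).continuousOn.norm).mono hTV
  have c2 := ((ht.deriv hV).continuousOn.norm).mono hTV
  refine EU.of_cover (D := 1) (Finset.univ : Finset (Fin 2)) (A := ![A₁, A₂]) (S := fun _ => T) (f := ![fun z => ‖deriv s z‖ ^ 2, fun z => ‖deriv t z‖ ^ 2])
    (fun j _ => ?_) (fun j _ => ?_) zero_le_one (meas_ind hT ((c1.sup c2).pow 2)) (fun z _ => sq_nonneg _) fun z hz => ?_
  · fin_cases j
    · exact e1
    · exact e2
  · fin_cases j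
    · exact fun z _ => sq_nonneg _
    · exact fun z _ => sq_nonneg _
  · rcases le_total ‖deriv s z‖ ‖deriv t z‖ with h1 | h1
    · refine ⟨1, Finset.mem_univ _, hz, ?_⟩
      rw [max_eq_right h1, one_mul]
      exact le_rfl
    · refine ⟨0, Finset.mem_univ _, hz, ?_⟩
      rw [max_eq_left h1, one_mul]
      exact le_rfl

end

end Pool.Agent.MQ3
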