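import Pool.Agent.MQ3.LfN
import Pool.Agent.MQ3.EnV

/-!
# MQ3 DensC: a continuous density for the lifts to one chart, on a compact set
-/

set_option autoImplicit false

open Topology Filter Metric MvPolynomial MeasureTheory Laplacian

noncomputable section

namespace Pool.Agent.MQ3

open Pool.Agent.H36.BP (EN fs)
open Pool.Agent.H17EF (projVar coneE)
open Pool.Agent.H30M (tau tau_nonneg contDiff_tau hcs_tau)
open Pool.Agent.MQ (lam En ztv dvg DDv gr dv Pack)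

/-- an open condition which fails at isolated points holds almost everywhere -/
theorem ae_of_ev {U : Set ℂ} (hU : IsOpen U) {Q : ℂ → Prop} (h : ∀ z ∈ U, ∀ᶠ w in 𝓝[≠] z, Q w) : ∀ᵐ z : ℂ, z ∈ U → Q z := by
  rw [← ae_restrict_iff' hU.measurableSet]
  have h1 : {z | Q z} ∈ codiscreteWithin U := by
    rw [mem_codiscreteWithin_iff_forall_mem_nhdsNE]
    intro z hz
    filter_upwards [h z hz] with w hw
    exact Or.inl hw
  exact ae_restrict_le_codiscreteWithin hU.measurableSet h1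

variable {M : ℕ} {P : Ideal (MvPolynomial (Fin (M + 1)) ℂ)} {RD : MvPolynomial (Fin (M + 1)) ℂ} {m : ℕ} {X : NCModel P RD} {θ : WDiff (coneE P) m}
  {l : LF M} {S : Web X θ l}

theorem kap_cont (k : S.ι) : Continuous (S.κ k) := by
  show Continuous fun q => mono (S.c k).w (S.c k).w' q
  unfold mono
  fun_prop

theorem chD_open (k : S.ι) : IsOpen (S.D k) := isOpen_Dm.inter ((X.isOpen k.1).preimage (kap_cont k))

theorem chart_dens (k : S.ι) {K : Set (ℂ × ℂ)} (hK : IsCompact K) (hKD : K ⊆ S.D k) (CK : X.ι → Set (ℂ × ℂ) → ℝ) : ∃ A : ℝ, 0 ≤ A ∧ ∀ F : ℂ → EN M, WCrv θ RD F →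
    ∀ (Y : NCLift X F) (lm : ℂ → ℝ), Continuous lm → (∀ z, 0 ≤ lm z) → (∀ i K, K ⊆ X.B i → IsCompact K → ∀ z ∈ Y.U i, Y.p i z ∈ K → ‖deriv (Y.p i) z‖ ≤ CK i K * lm z) →
      ∃ g : ℂ → ℝ, Continuous g ∧ (∀ z, 0 ≤ g z) ∧ (∃ K' : ℝ, ∀ R, 1 ≤ R → ∫ z, tau R z * g z ^ 2 ≤ A * (∫ z, tau R z * lm z ^ 2) + K') ∧
        ∀ z ∈ S.Om Y k, S.lf Y k z ∈ K → ‖deriv (S.lf Y k) z‖ ≤ g z := by
  classical
  obtain ⟨L, hL, hKL, hLD⟩ := exists_compact_between hK (chD_open k) hKD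
  obtain ⟨χ, hχ0, hχ1, hχ⟩ := exists_continuous_zero_one_of_isClosed (isOpen_interior (s := L)).isClosed_compl hK.isClosed
    (Set.disjoint_left.2 fun q h1 h2 => h1 (hKL h2))
  have hK₁ : IsCompact (S.κ k '' L) := hL.image (kap_cont k)
  have hK₁B : S.κ k '' L ⊆ X.B k.1 := by
    rintro _ ⟨q, hq, rfl⟩
    exact (hLD hq).2
  obtain ⟨Mb, hMb⟩ := hL.isBounded.exists_norm_le
  have hD : ((S.c k).w.1 : ℤ) * (S.c k).w'.2 - (S.c k).w'.1 * (S.c k).w.2 ≠ 0 := by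
    have h1 := (S.c k).pos
    unfold dt at h1
    intro h2
    have h3 : ((S.c k).w.1 : ℤ) * (S.c k).w'.2 - (S.c k).w.2 * (S.c k).w'.1 = 0 := by
      rw [← h2]
      ring
    omega
  have hB1 : ∀ q ∈ X.B k.1, ‖q.1‖ ≤ 1 ∧ ‖q.2‖ ≤ 1 := fun q hq => ⟨(X.sub k.1 hq).1.le, (X.sub k.1 hq).2.le⟩
  obtain ⟨A, hA, hE⟩ := enLB (X.isOpen k.1) hB1 (CK k.1) hK₁ hK₁B hD Mb
  refine ⟨A, hA, fun F hF Y lm hc h0 hle => ?_⟩
  have hcr : CrvU (X.B k.1) (CK k.1) (Y.U k.1) (Y.p k.1) lm :=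
    ⟨Y.isOpen k.1, Y.an k.1, Y.mem k.1, Y.closed k.1, hc, h0, fun K hK hKc => hle k.1 K hK hKc⟩
  have hbc := bcrv (l := l) hF Y k.1
  have hOo := Om_open hF Y k
  have hOs := Om_sub hF Y k
  have han := lfN_an hF Y k
  have hmem := lfN_mem hF Y k
  obtain ⟨V, hV⟩ : ∃ V, V = S.Om Y k := ⟨_, rfl⟩
  obtain ⟨f, hf⟩ : ∃ f, f = S.lf Y k := ⟨_, rfl⟩
  rw [← hV] at hOo hOs han hmem
  rw [← hf] at han hmem
  have hs : DifferentiableOn ℂ (fun z => (f z).1) V := fun z hz => (han z hz).differentiableAt.fst.differentiableWithinAt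
  have ht : DifferentiableOn ℂ (fun z => (f z).2) V := fun z hz => (han z hz).differentiableAt.snd.differentiableWithinAt
  have hcl : IsClosed {z | z ∈ V ∧ f z ∈ L} := by
    rw [hV, hf]
    exact lfN_closed hF Y k hL hLD
  have hT : MeasurableSet ({z | z ∈ V ∧ f z ∈ L} ∩ {z | (Y.p k.1 z).1 ≠ 0 ∧ (Y.p k.1 z).2 ≠ 0}) := by
    have h1 := hcl.measurableSet.inter (meas_xy hcr hK₁ hK₁B)
    have h2 : {z | z ∈ V ∧ f z ∈ L} ∩ {z | (Y.p k.1 z).1 ≠ 0 ∧ (Y.p k.1 z).2 ≠ 0} =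
        {z | z ∈ V ∧ f z ∈ L} ∩ ({z | z ∈ Y.U k.1 ∧ Y.p k.1 z ∈ S.κ k '' L} ∩ {z | (Y.p k.1 z).1 ≠ 0 ∧ (Y.p k.1 z).2 ≠ 0}) := by
      ext z
      constructor
      · rintro ⟨⟨h3, h4⟩, h5⟩
        exact ⟨⟨h3, h4⟩, ⟨hOs h3, ⟨f z, h4, (hmem z h3).2⟩⟩, h5⟩
      · rintro ⟨h3, _, h5⟩
        exact ⟨h3, h5⟩
    rw [h2]
    exact h1
  have hx : ∀ z ∈ V, (Y.p k.1 z).1 = (f z).1 ^ (S.c k).w.1 * (f z).2 ^ (S.c k).w'.1 := fun z hz => by
    rw [← (hmem z hz).2]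
    rfl
  have hy : ∀ z ∈ V, (Y.p k.1 z).2 = (f z).1 ^ (S.c k).w.2 * (f z).2 ^ (S.c k).w'.2 := fun z hz => by
    rw [← (hmem z hz).2]
    rfl
  obtain ⟨K', hK'⟩ := hE (Y.U k.1) (Y.p k.1) lm hcr (fun z hz => (hbc.ne z hz).mono fun w hw => Or.inl hw.1) V (fun z => (f z).1) (fun z => (f z).2) hOo hOs hs ht hx hy
    _ hT (fun z hz => hz.1.1) fun z hz => ⟨⟨f z, hz.1.2, (hmem z hz.1.1).2⟩, (norm_fst_le _).trans (hMb _ hz.1.2), (norm_snd_le _).trans (hMb _ hz.1.2), hz.2⟩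
  have hnd : ∀ z ∈ V, ‖deriv f z‖ = max ‖deriv (fun z => (f z).1) z‖ ‖deriv (fun z => (f z).2) z‖ := by
    intro z hz
    have h1 : HasDerivAt f (deriv f z) z := (han z hz).differentiableAt.hasDerivAt
    have h2 : HasDerivAt (fun w => (f w).1) (deriv f z).1 z := h1.fst
    have h3 : HasDerivAt (fun w => (f w).2) (deriv f z).2 z := h1.snd
    rw [h2.deriv, h3.deriv, Prod.norm_def]
  obtain ⟨g, hg⟩ : ∃ g : ℂ → ℝ, g = fun z => if z ∈ V then χ (f z) * ‖deriv f z‖ else 0 := ⟨_, rfl⟩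
  have hχn : ∀ q, 0 ≤ χ q := fun q => (hχ q).1
  have hχle : ∀ q, χ q ≤ 1 := fun q => (hχ q).2
  have hχL : ∀ q, q ∉ L → χ q = 0 := fun q hq => hχ0 fun h1 => hq (interior_subset h1)
  have hg0 : ∀ z, z ∉ {z | z ∈ V ∧ f z ∈ L} → g z = 0 := by
    intro z hz
    rw [hg]
    by_cases hzV : z ∈ V
    · show (if z ∈ V then χ (f z) * ‖deriv f z‖ else 0) = 0
      rw [if_pos hzV, hχL _ fun h1 => hz ⟨hzV, h1⟩, zero_mul]
    · show (if z ∈ V then χ (f z) * ‖deriv f z‖ else 0) = 0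
      rw [if_neg hzV]
  have hgn : ∀ z, 0 ≤ g z := by
    intro z
    rw [hg]
    show 0 ≤ (if z ∈ V then χ (f z) * ‖deriv f z‖ else 0)
    split_ifs
    · exact mul_nonneg (hχn _) (norm_nonneg _)
    · exact le_rfl
  have hgle : ∀ z ∈ V, g z ≤ ‖deriv f z‖ := by
    intro z hz
    rw [hg]
    show (if z ∈ V then χ (f z) * ‖deriv f z‖ else 0) ≤ _
    rw [if_pos hz]
    exact mul_le_of_le_one_left (norm_nonneg _) (hχle _)
  have hgc : Continuous g := by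
    rw [continuous_iff_continuousAt]
    intro z
    by_cases hz : z ∈ V
    · have h1 : ContinuousAt (fun w => χ (f w) * ‖deriv f w‖) z :=
        (χ.continuous.continuousAt.comp (han z hz).continuousAt).mul (han z hz).deriv.continuousAt.norm
      refine h1.congr ?_
      filter_upwards [hOo.mem_nhds hz] with w hw
      rw [hg]
      show _ = (if w ∈ V then χ (f w) * ‖deriv f w‖ else 0)
      rw [if_pos hw]
    · have h1 : z ∉ {z | z ∈ V ∧ f z ∈ L} := fun h2 => hz h2.1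
      refine (continuousAt_const (y := (0 : ℝ))).congr ?_
      filter_upwards [hcl.isOpen_compl.mem_nhds h1] with w hw
      exact (hg0 w hw).symm
  refine ⟨g, hgc, hgn, ⟨K', fun R hR => ?_⟩, ?_⟩
  · obtain ⟨i1, i2⟩ := hK' R hR
    refine le_trans ?_ i2
    refine integral_mono_ae (tau_int hR (hgc.pow 2)) i1 ?_
    filter_upwards [ae_of_ev (Y.isOpen k.1) hbc.ne] with z hz
    refine mul_le_mul_of_nonneg_left ?_ (tau_nonneg hR z)
    by_cases hzT : z ∈ {z | z ∈ V ∧ f z ∈ L}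
    · rw [Set.indicator_of_mem (show z ∈ {z | z ∈ V ∧ f z ∈ L} ∩ {z | (Y.p k.1 z).1 ≠ 0 ∧ (Y.p k.1 z).2 ≠ 0} from ⟨hzT, hz (hOs hzT.1)⟩), ← hnd z hzT.1]
      exact pow_le_pow_left₀ (hgn z) (hgle z hzT.1) 2
    · rw [hg0 z hzT]
      have : (0 : ℝ) ^ 2 = 0 := by norm_num
      rw [this]
      exact Set.indicator_nonneg (fun z _ => sq_nonneg _) z
  · rw [← hV, ← hf]
    intro z hz hzK
    rw [hg]
    show _ ≤ (if z ∈ V then χ (f z) * ‖deriv f z‖ else 0)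
    rw [if_pos hz, hχ1 hzK]
    simp

end Pool.Agent.MQ3
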