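import Pool.Agent.MQ3.DensC

/-!
# MQ3 DensN: the density of the cover
-/

set_option autoImplicit false

open Topology Filter Metric MvPolynomial MeasureTheory Laplacian

noncomputable section

namespace Pool.Agent.MQ3

open Pool.Agent.H36.BP (EN fs)
open Pool.Agent.H17EF (projVar coneE)
open Pool.Agent.H30M (tau tau_nonneg contDiff_tau hcs_tau)
open Pool.Agent.MQ (lam En ztv dvg DDv gr dv Pack)

variable {M : ℕ} {P : Ideal (MvPolynomial (Fin (M + 1)) ℂ)} {RD : MvPolynomial (Fin (M + 1)) ℂ} {m : ℕ} {X : NCModel P RD} {θ : WDiff (coneE P) m}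
  {l : LF M} {S : Web X θ l} {Ra : MvPolynomial (Fin (M + 1)) ℂ}

/-- `g` is a function whose energy is at most `A` times the energy of `lm`, up to a constant -/
def EG (A : ℝ) (lm g : ℂ → ℝ) : Prop :=
  Continuous g ∧ (∀ z, 0 ≤ g z) ∧ ∃ K : ℝ, ∀ R, 1 ≤ R → ∫ z, tau R z * g z ^ 2 ≤ A * (∫ z, tau R z * lm z ^ 2) + K

theorem EG.add {A B : ℝ} {lm g h : ℂ → ℝ} (h1 : EG A lm g) (h2 : EG B lm h) : EG (2 * A + 2 * B) lm fun z => g z + h z := by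
  obtain ⟨c1, n1, K1, e1⟩ := h1
  obtain ⟨c2, n2, K2, e2⟩ := h2
  refine ⟨c1.add c2, fun z => add_nonneg (n1 z) (n2 z), 2 * K1 + 2 * K2, fun R hR => ?_⟩
  have i1 : Integrable fun z => tau R z * g z ^ 2 := tau_int hR (c1.pow 2)
  have i2 : Integrable fun z => tau R z * h z ^ 2 := tau_int hR (c2.pow 2)
  have i3 : Integrable fun z => tau R z * (g z + h z) ^ 2 := tau_int hR ((c1.add c2).pow 2)
  have h3 : ∫ z, tau R z * (g z + h z) ^ 2 ≤ ∫ z, (2 * (tau R z * g z ^ 2) + 2 * (tau R z * h z ^ 2)) := by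
    refine integral_mono i3 ((i1.const_mul 2).add (i2.const_mul 2)) fun z => ?_
    have h4 : (g z + h z) ^ 2 ≤ 2 * g z ^ 2 + 2 * h z ^ 2 := by nlinarith [sq_nonneg (g z - h z)]
    have h5 := mul_le_mul_of_nonneg_left h4 (tau_nonneg hR z)
    show tau R z * (g z + h z) ^ 2 ≤ 2 * (tau R z * g z ^ 2) + 2 * (tau R z * h z ^ 2)
    linarith
  rw [integral_add (i1.const_mul 2) (i2.const_mul 2), integral_const_mul, integral_const_mul] at h3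
  have h6 := e1 R hR
  have h7 := e2 R hR
  nlinarith

theorem EG.zero {lm : ℂ → ℝ} : EG 0 lm fun _ => 0 := by
  refine ⟨continuous_const, fun _ => le_rfl, 0, fun R _ => ?_⟩
  simp

theorem EG.mul {lm : ℂ → ℝ} (hc : Continuous lm) (h0 : ∀ z, 0 ≤ lm z) {C : ℝ} (hC : 0 ≤ C) : EG (C ^ 2) lm fun z => C * lm z := by
  refine ⟨continuous_const.mul hc, fun z => mul_nonneg hC (h0 z), 0, fun R hR => ?_⟩
  rw [← integral_const_mul, add_zero]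
  refine le_of_eq (integral_congr_ae (Eventually.of_forall fun z => ?_))
  show tau R z * (C * lm z) ^ 2 = C ^ 2 * (tau R z * lm z ^ 2)
  ring

/-- finitely many densities have a common majorant -/
theorem exists_EG {ι : Type} [Fintype ι] {A : ι → ℝ} (hA : ∀ i, 0 ≤ A i) : ∃ B : ℝ, 0 ≤ B ∧ ∀ (lm : ℂ → ℝ) (g : ι → ℂ → ℝ), (∀ i, EG (A i) lm (g i)) →
    ∃ G : ℂ → ℝ, EG B lm G ∧ ∀ i z, g i z ≤ G z := by
  classical
  have key : ∀ s : Finset ι, ∃ B : ℝ, 0 ≤ B ∧ ∀ (lm : ℂ → ℝ) (g : ι → ℂ → ℝ), (∀ i, EG (A i) lm (g i)) →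
      ∃ G : ℂ → ℝ, EG B lm G ∧ ∀ i ∈ s, ∀ z, g i z ≤ G z := by
    intro s
    induction s using Finset.induction_on with
    | empty => exact ⟨0, le_rfl, fun lm g _ => ⟨fun _ => 0, EG.zero, fun i hi => absurd hi (Finset.notMem_empty i)⟩⟩
    | insert j s hj ih =>
      obtain ⟨B, hB, h⟩ := ih
      refine ⟨2 * A j + 2 * B, by linarith [hA j], fun lm g hg => ?_⟩
      obtain ⟨G, hG, hle⟩ := h lm g hg
      refine ⟨fun z => g j z + G z, (hg j).add hG, fun i hi z => ?_⟩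
      rcases Finset.mem_insert.1 hi with h1 | h1
      · rw [h1]
        linarith [hG.2.1 z]
      · linarith [hle i h1 z, (hg j).2.1 z]
  obtain ⟨B, hB, h⟩ := key Finset.univ
  exact ⟨B, hB, fun lm g hg => by
    obtain ⟨G, hG, hle⟩ := h lm g hg
    exact ⟨G, hG, fun i z => hle i (Finset.mem_univ i) z⟩⟩

theorem exists_densN (C : Cov S Ra) (A₀ : ℝ) (CK : X.ι → Set (ℂ × ℂ) → ℝ) : ∃ A : ℝ, 0 ≤ A ∧ ∀ F : ℂ → EN M, WCrv θ RD F →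
    ∀ (Y : NCLift X F) (lm₀ : ℂ → ℝ), NCDens Y A₀ CK lm₀ → ∃ lm : ℂ → ℝ, Dens C Y A lm := by
  have hKD : ∀ (k : Fin C.nN) (a : (S.V (C.b k)).ι), C.K k a ⊆ S.D ⟨C.b k, a⟩ := by
    intro k a q hq
    rcases hu : C.u k with _ | u'
    · exact (C.K_A k a hu q hq).1.mem
    · rcases (C.K_B k a u' hu q hq).1 with h | h
      · exact h.mem
      · exact h.mem
  have h1 : ∀ k a, ∃ A : ℝ, 0 ≤ A ∧ ∀ F : ℂ → EN M, WCrv θ RD F → ∀ (Y : NCLift X F) (lm : ℂ → ℝ), Continuous lm → (∀ z, 0 ≤ lm z) →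
      (∀ i K, K ⊆ X.B i → IsCompact K → ∀ z ∈ Y.U i, Y.p i z ∈ K → ‖deriv (Y.p i) z‖ ≤ CK i K * lm z) →
      ∃ g : ℂ → ℝ, Continuous g ∧ (∀ z, 0 ≤ g z) ∧ (∃ K' : ℝ, ∀ R, 1 ≤ R → ∫ z, tau R z * g z ^ 2 ≤ A * (∫ z, tau R z * lm z ^ 2) + K') ∧
        ∀ z ∈ S.Om Y ⟨C.b k, a⟩, S.lf Y ⟨C.b k, a⟩ z ∈ C.K k a → ‖deriv (S.lf Y ⟨C.b k, a⟩) z‖ ≤ g z :=
    fun k a => chart_dens ⟨C.b k, a⟩ (C.K_compact k a) (hKD k a) CK
  have h2 : ∀ j, ∃ A : ℝ, 0 ≤ A ∧ ∀ F : ℂ → EN M, WCrv θ RD F → ∀ (Y : NCLift X F) (lm : ℂ → ℝ), Continuous lm → (∀ z, 0 ≤ lm z) →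
      (∀ i K, K ⊆ X.B i → IsCompact K → ∀ z ∈ Y.U i, Y.p i z ∈ K → ‖deriv (Y.p i) z‖ ≤ CK i K * lm z) →
      ∃ g : ℂ → ℝ, Continuous g ∧ (∀ z, 0 ≤ g z) ∧ (∃ K' : ℝ, ∀ R, 1 ≤ R → ∫ z, tau R z * g z ^ 2 ≤ A * (∫ z, tau R z * lm z ^ 2) + K') ∧
        ∀ z ∈ S.Om Y (C.ck j), S.lf Y (C.ck j) z ∈ closedBall (C.Q j) (C.r j) → ‖deriv (S.lf Y (C.ck j)) z‖ ≤ g z :=
    fun j => chart_dens (C.ck j) (isCompact_closedBall _ _) (C.P_sub j) CK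
  choose A₁ hA₁ hE₁ using h1
  choose A₂ hA₂ hE₂ using h2
  obtain ⟨B₁, hB₁, hG₁⟩ := exists_EG (ι := Σ k : Fin C.nN, (S.V (C.b k)).ι) (A := fun i => A₁ i.1 i.2) fun i => hA₁ i.1 i.2
  obtain ⟨B₂, hB₂, hG₂⟩ := exists_EG (ι := Fin C.nP) (A := A₂) hA₂
  obtain ⟨D, hD⟩ : ∃ D, D = 1 + ∑ k, |CK (C.b k) (closedBall (C.y k) (C.t k))| := ⟨_, rfl⟩
  have hD1 : 1 ≤ D := by
    rw [hD]
    have : 0 ≤ ∑ k, |CK (C.b k) (closedBall (C.y k) (C.t k))| := Finset.sum_nonneg fun k _ => abs_nonneg _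
    linarith
  have hDk : ∀ k, CK (C.b k) (closedBall (C.y k) (C.t k)) ≤ D := by
    intro k
    rw [hD]
    have h3 := Finset.single_le_sum (f := fun k => |CK (C.b k) (closedBall (C.y k) (C.t k))|) (fun k _ => abs_nonneg _) (Finset.mem_univ k)
    have h4 := le_abs_self (CK (C.b k) (closedBall (C.y k) (C.t k)))
    linarith
  obtain ⟨E, hE⟩ : ∃ E, E = 2 * D ^ 2 + 2 * (2 * B₁ + 2 * B₂) := ⟨_, rfl⟩
  have hE0 : 0 ≤ E := by
    rw [hE]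
    positivity
  refine ⟨E * |A₀|, by positivity, fun F hF Y lm₀ h => ?_⟩
  have hc := h.cont
  have h0 : ∀ z, 0 ≤ lm₀ z := fun z => (Pool.Agent.H36.BP.fs_nonneg (F z) (deriv F z)).trans (h.le z)
  have hle := h.deriv_le
  obtain ⟨K₀, hK₀⟩ := h.energy
  choose g₁ hg₁ using fun (i : Σ k : Fin C.nN, (S.V (C.b k)).ι) => hE₁ i.1 i.2 F hF Y lm₀ hc h0 hle
  choose g₂ hg₂ using fun j => hE₂ j F hF Y lm₀ hc h0 hle
  obtain ⟨G₁, hG₁', hle₁⟩ := hG₁ lm₀ g₁ fun i => ⟨(hg₁ i).1, (hg₁ i).2.1, (hg₁ i).2.2.1⟩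
  obtain ⟨G₂, hG₂', hle₂⟩ := hG₂ lm₀ g₂ fun j => ⟨(hg₂ j).1, (hg₂ j).2.1, (hg₂ j).2.2.1⟩
  have hfin := (EG.mul hc h0 (show 0 ≤ D by linarith)).add (hG₁'.add hG₂')
  rw [← hE] at hfin
  obtain ⟨cf, nf, K, eK⟩ := hfin
  have n1 := hG₁'.2.1
  have n2 := hG₂'.2.1
  have hDl : ∀ z, lm₀ z ≤ D * lm₀ z := fun z => le_mul_of_one_le_left (h0 z) hD1
  refine ⟨fun z => D * lm₀ z + (G₁ z + G₂ z), cf, fun z => ?_, ⟨E * K₀ + K, fun R hR => ?_⟩, fun k z hz hzK => ?_, fun k a z hz hzK => ?_, fun j z hz hzK => ?_⟩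
  · have := h.le z
    linarith [hDl z, n1 z, n2 z]
  · refine (eK R hR).trans ?_
    have h3 := mul_le_mul_of_nonneg_left (hK₀ R hR) hE0
    have h4 : 0 ≤ En F R := integral_nonneg fun z => mul_nonneg (tau_nonneg hR z) (sq_nonneg _)
    have h5 : A₀ * En F R ≤ |A₀| * En F R := mul_le_mul_of_nonneg_right (le_abs_self _) h4
    have h6 := mul_le_mul_of_nonneg_left h5 hE0
    have e1 : E * |A₀| * En F R = E * (|A₀| * En F R) := by ring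
    rw [e1]
    linarith
  · have h3 := hle (C.b k) _ (C.N_sub k) (isCompact_closedBall _ _) z hz hzK
    have h4 : CK (C.b k) (closedBall (C.y k) (C.t k)) * lm₀ z ≤ D * lm₀ z := mul_le_mul_of_nonneg_right (hDk k) (h0 z)
    linarith [n1 z, n2 z]
  · have h3 := (hg₁ ⟨k, a⟩).2.2.2 z hz hzK
    have h4 := hle₁ ⟨k, a⟩ z
    have h5 := hDl z
    simp only at h3
    linarith [n2 z, h0 z]
  · have h3 := (hg₂ j).2.2.2 z hz hzK
    have h4 := hle₂ j z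
    have h5 := hDl z
    linarith [n1 z, h0 z]

end Pool.Agent.MQ3
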