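import Pool.Agent.MQ3.EnT

/-!
# MQ3 EnK: the energy estimates on compact sets
-/

set_option autoImplicit false

open MeasureTheory Topology Filter Metric Laplacian

noncomputable section

namespace Pool.Agent.MQ3

open Pool.Agent.MQ
open Pool.Agent.H30M (tau tau_nonneg contDiff_tau hcs_tau)

/-- the energy of the function `f` on the set `S` is bounded by a multiple of `e` -/
def EB (e : ℝ → ℝ) (S : Set ℂ) (f : ℂ → ℝ) : Prop :=
  ∃ C : ℝ, 0 ≤ C ∧ ∀ R, 1 ≤ R → Integrable (fun z => tau R z * S.indicator f z) ∧ ∫ z, tau R z * S.indicator f z ≤ C * e R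

/-- comparison with finitely many energies -/
theorem EB.of_cover {e : ℝ → ℝ} {ι : Type*} (s : Finset ι) {S : ι → Set ℂ} {f : ι → ℂ → ℝ} {T : Set ℂ} {g : ℂ → ℝ} {D : ℝ}
    (hS : ∀ j ∈ s, EB e (S j) (f j)) (hf : ∀ j ∈ s, ∀ z ∈ S j, 0 ≤ f j z) (hD : 0 ≤ D) (hg : AEStronglyMeasurable (T.indicator g)) (hg0 : ∀ z ∈ T, 0 ≤ g z)
    (h : ∀ z ∈ T, ∃ j ∈ s, z ∈ S j ∧ g z ≤ D * f j z) : EB e T g := by
  choose! C hC0 hC using hS
  have key : ∀ R, 1 ≤ R → ∀ z, tau R z * T.indicator g z ≤ D * ∑ j ∈ s, tau R z * (S j).indicator (f j) z := by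
    intro R hR z
    have hτ := tau_nonneg hR z
    have h0 : ∀ j ∈ s, 0 ≤ tau R z * (S j).indicator (f j) z := by
      intro j hj
      refine mul_nonneg hτ ?_
      by_cases hz : z ∈ S j
      · rw [Set.indicator_of_mem hz]
        exact hf j hj z hz
      · rw [Set.indicator_of_notMem hz]
    by_cases hz : z ∈ T
    · obtain ⟨j, hj, hzj, hle⟩ := h z hz
      have h1 : tau R z * (S j).indicator (f j) z ≤ ∑ j ∈ s, tau R z * (S j).indicator (f j) z := Finset.single_le_sum h0 hj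
      rw [Set.indicator_of_mem hzj] at h1
      rw [Set.indicator_of_mem hz]
      calc tau R z * g z ≤ tau R z * (D * f j z) := mul_le_mul_of_nonneg_left hle hτ
        _ = D * (tau R z * f j z) := by ring
        _ ≤ _ := mul_le_mul_of_nonneg_left h1 hD
    · rw [Set.indicator_of_notMem hz, mul_zero]
      exact mul_nonneg hD (Finset.sum_nonneg h0)
  refine ⟨D * ∑ j ∈ s, C j, mul_nonneg hD (Finset.sum_nonneg fun j hj => hC0 j hj), fun R hR => ?_⟩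
  have hi : Integrable fun z => D * ∑ j ∈ s, tau R z * (S j).indicator (f j) z :=
    (integrable_finsetSum s fun j hj => (hC j hj R hR).1).const_mul D
  have h0 : ∀ z, 0 ≤ tau R z * T.indicator g z := by
    intro z
    refine mul_nonneg (tau_nonneg hR z) ?_
    by_cases hz : z ∈ T
    · rw [Set.indicator_of_mem hz]
      exact hg0 z hz
    · rw [Set.indicator_of_notMem hz]
  have hi2 : Integrable fun z => tau R z * T.indicator g z := by
    refine hi.mono' ((contDiff_tau R).continuous.aestronglyMeasurable.mul hg) (Eventually.of_forall fun z => ?_)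
    rw [Real.norm_of_nonneg (h0 z)]
    exact key R hR z
  refine ⟨hi2, (integral_mono hi2 hi (key R hR)).trans ?_⟩
  rw [integral_const_mul, integral_finsetSum s fun j hj => (hC j hj R hR).1, mul_assoc, Finset.sum_mul]
  exact mul_le_mul_of_nonneg_left (Finset.sum_le_sum fun j hj => (hC j hj R hR).2) hD

/-- comparison with one energy -/
theorem EB.of_le {e : ℝ → ℝ} {S T : Set ℂ} {f g : ℂ → ℝ} {D : ℝ} (hS : EB e S f) (hf : ∀ z ∈ S, 0 ≤ f z) (hD : 0 ≤ D) (hg : AEStronglyMeasurable (T.indicator g))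
    (hg0 : ∀ z ∈ T, 0 ≤ g z) (hTS : T ⊆ S) (h : ∀ z ∈ T, g z ≤ D * f z) : EB e T g :=
  EB.of_cover {()} (S := fun _ => S) (f := fun _ => f) (fun _ _ => hS) (fun _ _ => hf) hD hg hg0 fun z hz => ⟨(), by simp, hTS hz, h z hz⟩

/-- a curve in the open subset `B` of the closed unit bidisc, whose energy on compact sets is bounded by multiples of `e` -/
structure CrvB (B : Set (ℂ × ℂ)) (U : Set ℂ) (p : ℂ → ℂ × ℂ) (e : ℝ → ℝ) : Prop where
  isOpen : IsOpen U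
  B_open : IsOpen B
  B_sub : ∀ q ∈ B, ‖q.1‖ ≤ 1 ∧ ‖q.2‖ ≤ 1
  an : ∀ z ∈ U, AnalyticAt ℂ p z
  mem : ∀ z ∈ U, p z ∈ B
  closed : ∀ K ⊆ B, IsCompact K → IsClosed {z | z ∈ U ∧ p z ∈ K}
  one_le : ∀ R, 1 ≤ R → 1 ≤ e R
  energy : ∀ K ⊆ B, IsCompact K → ∃ C : ℝ, ∀ R, 1 ≤ R → ∫ z, tau R z * {z | z ∈ U ∧ p z ∈ K}.indicator (fun z => ‖deriv p z‖ ^ 2) z ≤ C * e R

variable {B : Set (ℂ × ℂ)} {U : Set ℂ} {p : ℂ → ℂ × ℂ} {e : ℝ → ℝ}

theorem CrvB.fst (h : CrvB B U p e) : DifferentiableOn ℂ (fun z => (p z).1) U := fun z hz =>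
  (h.an z hz).differentiableAt.fst.differentiableWithinAt

theorem CrvB.snd (h : CrvB B U p e) : DifferentiableOn ℂ (fun z => (p z).2) U := fun z hz =>
  (h.an z hz).differentiableAt.snd.differentiableWithinAt

/-- the coordinates of a polydisc of radius `s` around `q` -/
def cx (p : ℂ → ℂ × ℂ) (q : ℂ × ℂ) (s : ℝ) (z : ℂ) : ℂ := ((p z).1 - q.1) / s

def cy (p : ℂ → ℂ × ℂ) (q : ℂ × ℂ) (s : ℝ) (z : ℂ) : ℂ := ((p z).2 - q.2) / s

theorem Kr_eq {q : ℂ × ℂ} {s : ℝ} (hs : 0 < s) (r : ℝ) : Kr U (cx p q s) (cy p q s) r = {z | z ∈ U ∧ p z ∈ closedBall q (r * s)} := by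
  ext z
  have h1 : ‖cx p q s z‖ = ‖(p z).1 - q.1‖ / s := by
    unfold cx
    rw [norm_div, Complex.norm_real, Real.norm_of_nonneg hs.le]
  have h2 : ‖cy p q s z‖ = ‖(p z).2 - q.2‖ / s := by
    unfold cy
    rw [norm_div, Complex.norm_real, Real.norm_of_nonneg hs.le]
  simp only [Kr, Set.mem_ofPred_eq, h1, h2, div_le_iff₀ hs]
  rw [mem_closedBall, dist_eq_norm, Prod.norm_def, Prod.fst_sub, Prod.snd_sub, sup_le_iff]

theorem CrvB.crd (h : CrvB B U p e) {q : ℂ × ℂ} {s : ℝ} (hs : 0 < s) (hB : closedBall q s ⊆ B) : Crd U (cx p q s) (cy p q s) := by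
  refine ⟨h.isOpen, (h.fst.sub_const _).div_const _, (h.snd.sub_const _).div_const _, fun r hr => ?_⟩
  have h1 : {z | z ∈ U ∧ ‖cx p q s z‖ ≤ r ∧ ‖cy p q s z‖ ≤ r} = Kr U (cx p q s) (cy p q s) r := rfl
  rw [h1, Kr_eq hs]
  refine h.closed _ (Set.Subset.trans (closedBall_subset_closedBall ?_) hB) (isCompact_closedBall _ _)
  nlinarith

theorem norm_deriv_pair {z : ℂ} (hp : AnalyticAt ℂ p z) (q : ℂ × ℂ) {s : ℝ} (hs : 0 < s) :
    ‖deriv (cx p q s) z‖ ^ 2 + ‖deriv (cy p q s) z‖ ^ 2 ≤ 2 / s ^ 2 * ‖deriv p z‖ ^ 2 := by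
  have h1 : HasDerivAt p (deriv p z) z := hp.differentiableAt.hasDerivAt
  have hx : HasDerivAt (fun w => (p w).1) (deriv p z).1 z := h1.fst
  have hy : HasDerivAt (fun w => (p w).2) (deriv p z).2 z := h1.snd
  have hx' : deriv (cx p q s) z = (deriv p z).1 / s := ((hx.sub_const q.1).div_const (s : ℂ)).deriv
  have hy' : deriv (cy p q s) z = (deriv p z).2 / s := ((hy.sub_const q.2).div_const (s : ℂ)).deriv
  rw [hx', hy', norm_div, norm_div, Complex.norm_real, Real.norm_of_nonneg hs.le, div_pow, div_pow]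
  have h2 : ‖(deriv p z).1‖ ^ 2 ≤ ‖deriv p z‖ ^ 2 := pow_le_pow_left₀ (norm_nonneg _) (norm_fst_le _) 2
  have h3 : ‖(deriv p z).2‖ ^ 2 ≤ ‖deriv p z‖ ^ 2 := pow_le_pow_left₀ (norm_nonneg _) (norm_snd_le _) 2
  have hs2 : 0 < s ^ 2 := by positivity
  rw [← add_div, div_mul_eq_mul_div, div_le_div_iff_of_pos_right hs2]
  linarith

theorem CrvB.energy_ed (h : CrvB B U p e) {q : ℂ × ℂ} {s : ℝ} (hs : 0 < s) (hB : closedBall q s ⊆ B) (r : ℝ) (hr : r < 1) :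
    ∃ C : ℝ, ∀ R, 1 ≤ R → ∫ z, tau R z * ed (cx p q s) (cy p q s) (Kr U (cx p q s) (cy p q s) r) z ≤ C * e R := by
  have hcr := h.crd hs hB
  have hsub : closedBall q (r * s) ⊆ B := Set.Subset.trans (closedBall_subset_closedBall (by nlinarith)) hB
  obtain ⟨C, hC⟩ := h.energy _ hsub (isCompact_closedBall _ _)
  refine ⟨2 / s ^ 2 * C, fun R hR => ?_⟩
  have hcl : IsClosed {z | z ∈ U ∧ p z ∈ closedBall q (r * s)} := h.closed _ hsub (isCompact_closedBall _ _)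
  have hdp : ContinuousOn (fun z => ‖deriv p z‖ ^ 2) {z | z ∈ U ∧ p z ∈ closedBall q (r * s)} := fun z hz =>
    (((h.an z hz.1).deriv.continuousAt.norm).pow 2).continuousWithinAt
  have i1 := ed_int hcr hR (Kr_closed hcr hr) fun z hz => hz.1
  have i2 := (tau_ind_int hR hcl hdp).const_mul (2 / s ^ 2)
  have h1 := integral_mono i1 i2 fun z => by
    have h2 : ed (cx p q s) (cy p q s) (Kr U (cx p q s) (cy p q s) r) z ≤
        2 / s ^ 2 * {z | z ∈ U ∧ p z ∈ closedBall q (r * s)}.indicator (fun z => ‖deriv p z‖ ^ 2) z := by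
      unfold ed
      rw [Kr_eq hs]
      by_cases hz : z ∈ {z | z ∈ U ∧ p z ∈ closedBall q (r * s)}
      · rw [Set.indicator_of_mem hz, Set.indicator_of_mem hz]
        exact norm_deriv_pair (h.an z hz.1) q hs
      · rw [Set.indicator_of_notMem hz, Set.indicator_of_notMem hz, mul_zero]
    have := mul_le_mul_of_nonneg_left h2 (tau_nonneg hR z)
    show tau R z * ed (cx p q s) (cy p q s) (Kr U (cx p q s) (cy p q s) r) z ≤
      2 / s ^ 2 * (tau R z * {z | z ∈ U ∧ p z ∈ closedBall q (r * s)}.indicator (fun z => ‖deriv p z‖ ^ 2) z)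
    linarith
  rw [integral_const_mul] at h1
  have := mul_le_mul_of_nonneg_left (hC R hR) (show 0 ≤ 2 / s ^ 2 by positivity)
  linarith

/-- **the energy of a function on a compact set** -/
theorem CrvB.enV (h : CrvB B U p e) {K : Set (ℂ × ℂ)} (hK : IsCompact K) (hKB : K ⊆ B) {v : ℂ → ℂ} (hv : DifferentiableOn ℂ v U) (hv1 : ∀ z ∈ U, ‖v z‖ ≤ 1)
    {a : ℝ} (ha : 0 < a) (ha1 : a ≤ 1) : EB e ({z | z ∈ U ∧ p z ∈ K} ∩ {z | v z ≠ 0}) fun z => ‖v z‖ ^ (2 * a - 2) * ‖deriv v z‖ ^ 2 := by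
  have hex : ∀ q ∈ K, ∃ s : ℝ, 0 < s ∧ closedBall q s ⊆ B := fun q hq => Metric.nhds_basis_closedBall.mem_iff.1 (h.B_open.mem_nhds (hKB hq))
  choose! s hs hsB using hex
  obtain ⟨t, htK, ht⟩ := hK.elim_nhds_subcover (fun q => ball q (s q / 2)) fun q hq => ball_mem_nhds q (half_pos (hs q hq))
  have hm : MeasurableSet ({z | z ∈ U ∧ p z ∈ K} ∩ {z | v z ≠ 0}) := meas_ne' (h.closed K hKB hK) (hv.continuousOn.mono fun z hz => hz.1)
  refine EB.of_cover (D := 1) t (S := fun q => Kr U (cx p q (s q)) (cy p q (s q)) (1 / 2) ∩ {z | v z ≠ 0})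
    (f := fun _ z => ‖v z‖ ^ (2 * a - 2) * ‖deriv v z‖ ^ 2) (fun q hq => ?_) (fun _ _ z _ => by positivity) zero_le_one ?_ (fun z _ => by positivity) fun z hz => ?_
  · exact enRV (h.crd (hs q (htK q hq)) (hsB q (htK q hq))) h.one_le (h.energy_ed (hs q (htK q hq)) (hsB q (htK q hq))) hv (fun z hz _ _ => hv1 z hz) ha ha1 (by norm_num)
  · refine meas_ind hm ?_
    have c1 : ContinuousOn v ({z | z ∈ U ∧ p z ∈ K} ∩ {z | v z ≠ 0}) := hv.continuousOn.mono fun z hz => hz.1.1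
    have c2 : ContinuousOn (deriv v) ({z | z ∈ U ∧ p z ∈ K} ∩ {z | v z ≠ 0}) := (hv.deriv h.isOpen).continuousOn.mono fun z hz => hz.1.1
    exact (c1.norm.rpow_const fun z hz => Or.inl (norm_ne_zero_iff.2 hz.2)).mul (c2.norm.pow 2)
  · obtain ⟨q, hq, hzq⟩ := Set.mem_iUnion₂.1 (ht hz.1.2)
    refine ⟨q, hq, ⟨?_, hz.2⟩, by rw [one_mul]⟩
    rw [Kr_eq (hs q (htK q hq))]
    refine ⟨hz.1.1, ball_subset_closedBall ?_⟩
    have : (1 : ℝ) / 2 * s q = s q / 2 := by ring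
    rw [this]
    exact hzq

theorem EB.empty {e : ℝ → ℝ} {f : ℂ → ℝ} : EB e ∅ f := by
  refine ⟨0, le_rfl, fun R _ => ?_⟩
  simp

/-- the density of the second energy -/
def td (x y : ℂ → ℂ) (a b : ℝ) (z : ℂ) : ℝ :=
  ‖x z‖ ^ (2 * a) * ‖y z‖ ^ (2 * b) / (‖x z‖ ^ (2 * a) + ‖y z‖ ^ (2 * b)) ^ 2 * ‖(a : ℂ) * (deriv x z / x z) - b * (deriv y z / y z)‖ ^ 2

theorem td_nonneg (x y : ℂ → ℂ) (a b : ℝ) (z : ℂ) : 0 ≤ td x y a b z := by
  unfold td
  positivity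

theorem td_meas {x y : ℂ → ℂ} (hU : IsOpen U) (hx : DifferentiableOn ℂ x U) (hy : DifferentiableOn ℂ y U) {T : Set ℂ} (hT : MeasurableSet T) (hTU : T ⊆ U)
    (h0 : ∀ z ∈ T, x z ≠ 0 ∧ y z ≠ 0) (a b : ℝ) : AEStronglyMeasurable (T.indicator (td x y a b)) := by
  refine meas_ind hT ?_
  have cx := hx.continuousOn.mono hTU
  have cy := hy.continuousOn.mono hTU
  have dx := (hx.deriv hU).continuousOn.mono hTU
  have dy := (hy.deriv hU).continuousOn.mono hTU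
  have c1 := cx.norm.rpow_const (p := 2 * a) fun z hz => Or.inl (norm_ne_zero_iff.2 (h0 z hz).1)
  have c2 := cy.norm.rpow_const (p := 2 * b) fun z hz => Or.inl (norm_ne_zero_iff.2 (h0 z hz).2)
  refine ((c1.mul c2).div ((c1.add c2).pow 2) fun z hz => ?_).mul
    (((continuousOn_const.mul (dx.div cx fun z hz => (h0 z hz).1)).sub (continuousOn_const.mul (dy.div cy fun z hz => (h0 z hz).2))).norm.pow 2)
  exact pow_ne_zero _ (add_pos (Real.rpow_pos_of_pos (norm_pos_iff.2 (h0 z hz).1) (2 * a)) (Real.rpow_pos_of_pos (norm_pos_iff.2 (h0 z hz).2) (2 * b))).ne'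

/-- away from the origin the second density is bounded by the first ones -/
theorem td_le {x y : ℂ → ℂ} {a b c : ℝ} (ha : 0 < a) (ha1 : a ≤ 1) (hb : 0 < b) (hb1 : b ≤ 1) (hc : 0 < c) (hc1 : c ≤ 1) {z : ℂ} (hx : x z ≠ 0) (hy : y z ≠ 0)
    (hx1 : ‖x z‖ ≤ 1) (hy1 : ‖y z‖ ≤ 1) (hxy : c ≤ ‖x z‖ ∨ c ≤ ‖y z‖) :
    td x y a b z ≤ 2 / c ^ 4 * (‖x z‖ ^ (2 * a - 2) * ‖deriv x z‖ ^ 2 + ‖y z‖ ^ (2 * b - 2) * ‖deriv y z‖ ^ 2) := by
  have hx0 := norm_pos_iff.2 hx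
  have hy0 := norm_pos_iff.2 hy
  have hA0 : 0 < ‖x z‖ ^ (2 * a) := Real.rpow_pos_of_pos hx0 _
  have hB0 : 0 < ‖y z‖ ^ (2 * b) := Real.rpow_pos_of_pos hy0 _
  have hA1 : ‖x z‖ ^ (2 * a) ≤ 1 := Real.rpow_le_one hx0.le hx1 (by positivity)
  have hB1 : ‖y z‖ ^ (2 * b) ≤ 1 := Real.rpow_le_one hy0.le hy1 (by positivity)
  have hAx : ‖x z‖ ^ (2 * a - 2) = ‖x z‖ ^ (2 * a) / ‖x z‖ ^ 2 := by
    rw [Real.rpow_sub hx0]
    norm_num
  have hBy : ‖y z‖ ^ (2 * b - 2) = ‖y z‖ ^ (2 * b) / ‖y z‖ ^ 2 := by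
    rw [Real.rpow_sub hy0]
    norm_num
  have hS : c ^ 2 ≤ ‖x z‖ ^ (2 * a) + ‖y z‖ ^ (2 * b) := by
    have key : ∀ (t s : ℝ), 0 < s → s ≤ 1 → c ≤ t → t ≤ 1 → c ^ 2 ≤ t ^ (2 * s) := by
      intro t s hs hs1 hct ht1
      calc c ^ 2 = c ^ (2 : ℝ) := (Real.rpow_natCast c 2).symm
        _ ≤ c ^ (2 * s) := Real.rpow_le_rpow_of_exponent_ge hc hc1 (by linarith)
        _ ≤ t ^ (2 * s) := Real.rpow_le_rpow hc.le hct (by positivity)
    rcases hxy with h | h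
    · have := key _ a ha ha1 h hx1
      linarith
    · have := key _ b hb hb1 h hy1
      linarith
  have hn : ‖(a : ℂ) * (deriv x z / x z) - b * (deriv y z / y z)‖ ^ 2 ≤ 2 * (‖deriv x z‖ ^ 2 / ‖x z‖ ^ 2) + 2 * (‖deriv y z‖ ^ 2 / ‖y z‖ ^ 2) := by
    have h1 : ‖(a : ℂ) * (deriv x z / x z) - b * (deriv y z / y z)‖ ≤ ‖deriv x z‖ / ‖x z‖ + ‖deriv y z‖ / ‖y z‖ := by
      refine (norm_sub_le _ _).trans (add_le_add ?_ ?_)
      · rw [norm_mul, norm_div, Complex.norm_real, Real.norm_of_nonneg ha.le]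
        exact mul_le_of_le_one_left (by positivity) ha1
      · rw [norm_mul, norm_div, Complex.norm_real, Real.norm_of_nonneg hb.le]
        exact mul_le_of_le_one_left (by positivity) hb1
    have h2 := pow_le_pow_left₀ (norm_nonneg _) h1 2
    rw [← div_pow, ← div_pow]
    nlinarith [sq_nonneg (‖deriv x z‖ / ‖x z‖ - ‖deriv y z‖ / ‖y z‖)]
  unfold td
  set A := ‖x z‖ ^ (2 * a) with hA
  set B' := ‖y z‖ ^ (2 * b) with hB
  have h3 : A * B' / (A + B') ^ 2 ≤ A * B' / c ^ 4 := by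
    refine div_le_div_of_nonneg_left (by positivity) (by positivity) ?_
    have : (c ^ 2) ^ 2 ≤ (A + B') ^ 2 := pow_le_pow_left₀ (by positivity) hS 2
    calc c ^ 4 = (c ^ 2) ^ 2 := by ring
      _ ≤ _ := this
  have hX : 0 ≤ ‖deriv x z‖ ^ 2 / ‖x z‖ ^ 2 := by positivity
  have hY : 0 ≤ ‖deriv y z‖ ^ 2 / ‖y z‖ ^ 2 := by positivity
  calc A * B' / (A + B') ^ 2 * ‖(a : ℂ) * (deriv x z / x z) - b * (deriv y z / y z)‖ ^ 2 ≤
      A * B' / c ^ 4 * (2 * (‖deriv x z‖ ^ 2 / ‖x z‖ ^ 2) + 2 * (‖deriv y z‖ ^ 2 / ‖y z‖ ^ 2)) := mul_le_mul h3 hn (sq_nonneg _) (by positivity)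
    _ = 2 / c ^ 4 * (B' * (A * (‖deriv x z‖ ^ 2 / ‖x z‖ ^ 2)) + A * (B' * (‖deriv y z‖ ^ 2 / ‖y z‖ ^ 2))) := by ring
    _ ≤ 2 / c ^ 4 * (1 * (A * (‖deriv x z‖ ^ 2 / ‖x z‖ ^ 2)) + 1 * (B' * (‖deriv y z‖ ^ 2 / ‖y z‖ ^ 2))) := by gcongr
    _ = _ := by
      rw [hAx, hBy]
      ring

/-- scaling -/
theorem td_scale {x y : ℂ → ℂ} {a b s : ℝ} (ha : 0 < a) (ha1 : a ≤ 1) (hb : 0 < b) (hb1 : b ≤ 1) (hs : 0 < s) (hs1 : s ≤ 1) {z : ℂ} (hx : x z ≠ 0) (hy : y z ≠ 0)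
    {X Y : ℂ → ℂ} (hX : ∀ w, X w = x w / s) (hY : ∀ w, Y w = y w / s) : td x y a b z ≤ 1 / s ^ 4 * td X Y a b z := by
  have hX' : X = fun w => x w / s := funext hX
  have hY' : Y = fun w => y w / s := funext hY
  have hsc : (s : ℂ) ≠ 0 := Complex.ofReal_ne_zero.2 hs.ne'
  have dX : deriv X z / X z = deriv x z / x z := by
    rw [hX', deriv_div_const]
    field_simp
  have dY : deriv Y z / Y z = deriv y z / y z := by
    rw [hY', deriv_div_const]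
    field_simp
  have hx0 := norm_pos_iff.2 hx
  have hy0 := norm_pos_iff.2 hy
  have nX : ‖X z‖ = ‖x z‖ / s := by rw [hX, norm_div, Complex.norm_real, Real.norm_of_nonneg hs.le]
  have nY : ‖Y z‖ = ‖y z‖ / s := by rw [hY, norm_div, Complex.norm_real, Real.norm_of_nonneg hs.le]
  unfold td
  rw [dX, dY, nX, nY, Real.div_rpow hx0.le hs.le, Real.div_rpow hy0.le hs.le]
  have hA0 : 0 < ‖x z‖ ^ (2 * a) := Real.rpow_pos_of_pos hx0 _
  have hB0 : 0 < ‖y z‖ ^ (2 * b) := Real.rpow_pos_of_pos hy0 _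
  have key : ∀ t : ℝ, 0 < t → t ≤ 1 → 0 < s ^ (2 * t) ∧ s ^ 2 ≤ s ^ (2 * t) ∧ s ^ (2 * t) ≤ 1 := by
    intro t ht ht1
    refine ⟨Real.rpow_pos_of_pos hs _, ?_, Real.rpow_le_one hs.le hs1 (by positivity)⟩
    calc s ^ 2 = s ^ (2 : ℝ) := (Real.rpow_natCast s 2).symm
      _ ≤ s ^ (2 * t) := Real.rpow_le_rpow_of_exponent_ge hs hs1 (by linarith)
  obtain ⟨p0, p1, p2⟩ := key a ha ha1
  obtain ⟨q0, q1, q2⟩ := key b hb hb1
  set A := ‖x z‖ ^ (2 * a) with hA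
  set B' := ‖y z‖ ^ (2 * b) with hB
  set P := s ^ (2 * a) with hP
  set Q := s ^ (2 * b) with hQ
  rw [← mul_assoc]
  refine mul_le_mul_of_nonneg_right ?_ (sq_nonneg _)
  have h1 : A * B' / (A + B') ^ 2 ≤ A / P * (B' / Q) / (A + B') ^ 2 := by
    refine div_le_div_of_nonneg_right ?_ (by positivity)
    exact mul_le_mul (le_div_self hA0.le p0 p2) (le_div_self hB0.le q0 q2) hB0.le (by positivity)
  have h2 : s ^ 2 * (A / P + B' / Q) ≤ A + B' := by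
    have h3 : s ^ 2 * (A / P) ≤ A := by
      rw [mul_div_assoc', div_le_iff₀ p0]
      nlinarith
    have h4 : s ^ 2 * (B' / Q) ≤ B' := by
      rw [mul_div_assoc', div_le_iff₀ q0]
      nlinarith
    linarith
  have h5 : A / P * (B' / Q) / (A + B') ^ 2 ≤ A / P * (B' / Q) / (s ^ 2 * (A / P + B' / Q)) ^ 2 := by
    refine div_le_div_of_nonneg_left (by positivity) (by positivity) ?_
    exact pow_le_pow_left₀ (by positivity) h2 2
  refine h1.trans (h5.trans (le_of_eq ?_))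
  field_simp

/-- **the second energy on a compact set** -/
theorem CrvB.enT (h : CrvB B U p e) (hne : ∀ z ∈ U, ∀ᶠ w in 𝓝[≠] z, (p w).1 ≠ 0 ∨ (p w).2 ≠ 0) {K : Set (ℂ × ℂ)} (hK : IsCompact K) (hKB : K ⊆ B)
    {a b : ℝ} (ha : 0 < a) (ha1 : a ≤ 1) (hb : 0 < b) (hb1 : b ≤ 1) :
    EB e ({z | z ∈ U ∧ p z ∈ K} ∩ {z | (p z).1 ≠ 0 ∧ (p z).2 ≠ 0}) (td (fun z => (p z).1) (fun z => (p z).2) a b) := by
  set x : ℂ → ℂ := fun z => (p z).1 with hxd
  set y : ℂ → ℂ := fun z => (p z).2 with hyd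
  have hx1 : ∀ z ∈ U, ‖x z‖ ≤ 1 := fun z hz => (h.B_sub _ (h.mem z hz)).1
  have hy1 : ∀ z ∈ U, ‖y z‖ ≤ 1 := fun z hz => (h.B_sub _ (h.mem z hz)).2
  have e1 := h.enV hK hKB h.fst hx1 ha ha1
  have e2 := h.enV hK hKB h.snd hy1 hb hb1
  have hcl := h.closed K hKB hK
  have hT : MeasurableSet ({z | z ∈ U ∧ p z ∈ K} ∩ {z | x z ≠ 0 ∧ y z ≠ 0}) := by
    have h1 := meas_ne' hcl (v := x) (h.fst.continuousOn.mono fun z hz => hz.1)
    have h2 := meas_ne' hcl (v := y) (h.snd.continuousOn.mono fun z hz => hz.1)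
    have h3 : {z | z ∈ U ∧ p z ∈ K} ∩ {z | x z ≠ 0 ∧ y z ≠ 0} = ({z | z ∈ U ∧ p z ∈ K} ∩ {z | x z ≠ 0}) ∩ ({z | z ∈ U ∧ p z ∈ K} ∩ {z | y z ≠ 0}) := by
      ext z
      constructor
      · rintro ⟨h4, h5, h6⟩
        exact ⟨⟨h4, h5⟩, h4, h6⟩
      · rintro ⟨⟨h4, h5⟩, _, h6⟩
        exact ⟨h4, h5, h6⟩
    rw [h3]
    exact h1.inter h2
  obtain ⟨c, S₀, f₀, D₀, hc, hc1, hS0, hf0, hD0, hcov⟩ : ∃ (c : ℝ) (S₀ : Set ℂ) (f₀ : ℂ → ℝ) (D₀ : ℝ), 0 < c ∧ c ≤ 1 ∧ EB e S₀ f₀ ∧ (∀ z ∈ S₀, 0 ≤ f₀ z) ∧ 0 ≤ D₀ ∧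
      ∀ z ∈ U, p z ∈ K → x z ≠ 0 → y z ≠ 0 → (z ∈ S₀ ∧ td x y a b z ≤ D₀ * f₀ z) ∨ c ≤ ‖x z‖ ∨ c ≤ ‖y z‖ := by
    by_cases h0 : (0 : ℂ × ℂ) ∈ B
    · obtain ⟨s₁, hs₁, hB₁⟩ := Metric.nhds_basis_closedBall.mem_iff.1 (h.B_open.mem_nhds h0)
      set s := min s₁ 1 with hsd
      have hs : 0 < s := lt_min hs₁ one_pos
      have hs1 : s ≤ 1 := min_le_right _ _
      have hB : closedBall (0 : ℂ × ℂ) s ⊆ B := (closedBall_subset_closedBall (min_le_left _ _)).trans hB₁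
      have hcr := h.crd hs hB
      have hcx : ∀ w, cx p 0 s w = x w / s := fun w => by
        unfold cx
        rw [Prod.fst_zero, sub_zero]
      have hcy : ∀ w, cy p 0 s w = y w / s := fun w => by
        unfold cy
        rw [Prod.snd_zero, sub_zero]
      have hsc : (s : ℂ) ≠ 0 := Complex.ofReal_ne_zero.2 hs.ne'
      have hne' : ∀ z ∈ U, ∀ᶠ w in 𝓝[≠] z, cx p 0 s w ≠ 0 ∨ cy p 0 s w ≠ 0 := by
        intro z hz
        filter_upwards [hne z hz] with w hw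
        rcases hw with hw | hw
        · left
          rw [hcx]
          exact div_ne_zero hw hsc
        · right
          rw [hcy]
          exact div_ne_zero hw hsc
      have hE := enTK hcr hne' h.one_le (h.energy_ed hs hB) ha ha1 hb hb1 (show (1 / 2 : ℝ) < 1 by norm_num)
      refine ⟨s / 2, _, td (cx p 0 s) (cy p 0 s) a b, 1 / s ^ 4, by positivity, by linarith, hE, fun z _ => td_nonneg _ _ _ _ z, by positivity, ?_⟩
      intro z hz hzK hxz hyz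
      by_cases hin : p z ∈ closedBall (0 : ℂ × ℂ) (1 / 2 * s)
      · left
        refine ⟨⟨?_, ?_, ?_⟩, td_scale ha ha1 hb hb1 hs hs1 hxz hyz hcx hcy⟩
        · rw [Kr_eq hs]
          exact ⟨hz, hin⟩
        · rw [hcx]
          exact div_ne_zero hxz hsc
        · rw [hcy]
          exact div_ne_zero hyz hsc
      · right
        rw [mem_closedBall_zero_iff, not_le, Prod.norm_def, lt_sup_iff] at hin
        rcases hin with hin | hin
        · left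
          show s / 2 ≤ ‖(p z).1‖
          linarith
        · right
          show s / 2 ≤ ‖(p z).2‖
          linarith
    · have h1 : (0 : ℂ × ℂ) ∉ K := fun h2 => h0 (hKB h2)
      obtain ⟨r, hr, hr2⟩ := Metric.nhds_basis_ball.mem_iff.1 (hK.isClosed.isOpen_compl.mem_nhds h1)
      refine ⟨min r 1, ∅, fun _ => 0, 0, lt_min hr one_pos, min_le_right _ _, EB.empty, fun _ _ => le_rfl, le_rfl, fun z hz hzK hxz hyz => Or.inr ?_⟩
      have h2 : r ≤ ‖p z‖ := by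
        by_contra h3
        exact hr2 (mem_ball_zero_iff.2 (not_le.1 h3)) hzK
      rw [Prod.norm_def, le_sup_iff] at h2
      rcases h2 with h2 | h2
      · exact Or.inl ((min_le_left _ _).trans h2)
      · exact Or.inr ((min_le_left _ _).trans h2)
  set f₁ : ℂ → ℝ := fun z => ‖x z‖ ^ (2 * a - 2) * ‖deriv x z‖ ^ 2 with hf1
  set f₂ : ℂ → ℝ := fun z => ‖y z‖ ^ (2 * b - 2) * ‖deriv y z‖ ^ 2 with hf2
  have f1n : ∀ z, 0 ≤ f₁ z := fun z => by positivity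
  have f2n : ∀ z, 0 ≤ f₂ z := fun z => by positivity
  refine EB.of_cover (D := D₀ + 4 / c ^ 4) (Finset.univ : Finset (Fin 3)) (S := ![S₀, {z | z ∈ U ∧ p z ∈ K} ∩ {z | x z ≠ 0}, {z | z ∈ U ∧ p z ∈ K} ∩ {z | y z ≠ 0}])
    (f := ![f₀, f₁, f₂]) (fun j _ => ?_) (fun j _ => ?_) (by positivity) (td_meas h.isOpen h.fst h.snd hT (fun z hz => hz.1.1) (fun z hz => hz.2) a b)
    (fun z _ => td_nonneg _ _ _ _ z) fun z hz => ?_
  · fin_cases j
    · exact hS0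
    · exact e1
    · exact e2
  · fin_cases j
    · exact hf0
    · exact fun z _ => f1n z
    · exact fun z _ => f2n z
  · rcases hcov z hz.1.1 hz.1.2 hz.2.1 hz.2.2 with ⟨h1, h2⟩ | h1
    · refine ⟨0, Finset.mem_univ _, h1, h2.trans ?_⟩
      show D₀ * f₀ z ≤ (D₀ + 4 / c ^ 4) * f₀ z
      have := hf0 z h1
      have : 0 ≤ 4 / c ^ 4 * f₀ z := by positivity
      linarith
    · have h2 := td_le ha ha1 hb hb1 hc hc1 hz.2.1 hz.2.2 (hx1 z hz.1.1) (hy1 z hz.1.1) h1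
      have hcc : 0 ≤ 2 / c ^ 4 := by positivity
      rcases le_total (f₁ z) (f₂ z) with h3 | h3
      · refine ⟨2, Finset.mem_univ _, ⟨hz.1, hz.2.2⟩, h2.trans ?_⟩
        show 2 / c ^ 4 * (f₁ z + f₂ z) ≤ (D₀ + 4 / c ^ 4) * f₂ z
        have h4 : 2 / c ^ 4 * (f₁ z + f₂ z) ≤ 2 / c ^ 4 * (f₂ z + f₂ z) := by gcongr
        have h5 : 0 ≤ D₀ * f₂ z := mul_nonneg hD0 (f2n z)
        calc _ ≤ _ := h4
          _ = 4 / c ^ 4 * f₂ z := by ring
          _ ≤ _ := by linarith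
      · refine ⟨1, Finset.mem_univ _, ⟨hz.1, hz.2.1⟩, h2.trans ?_⟩
        show 2 / c ^ 4 * (f₁ z + f₂ z) ≤ (D₀ + 4 / c ^ 4) * f₁ z
        have h4 : 2 / c ^ 4 * (f₁ z + f₂ z) ≤ 2 / c ^ 4 * (f₁ z + f₁ z) := by gcongr
        have h5 : 0 ≤ D₀ * f₁ z := mul_nonneg hD0 (f1n z)
        calc _ ≤ _ := h4
          _ = 4 / c ^ 4 * f₁ z := by ring
          _ ≤ _ := by linarith

end Pool.Agent.MQ3
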