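import Pool.Agent.MQ3.EnC

/-!
# MQ3 EnR: the energy of the power of one coordinate
-/

set_option autoImplicit false

open MeasureTheory Topology Filter Metric Laplacian

noncomputable section

namespace Pool.Agent.MQ3

open Pool.Agent.MQ
open Pool.Agent.H36.BP (EN)
open Pool.Agent.H30M (tau rhoR avg rho gg lap_comp lap_mul lap_congr gg_congr gg_sq_le gg_self_nonneg gg_comm gg_comp green_tau tau_nonneg contDiff_tau
  hcs_tau rhoR_nonneg continuous_rhoR hcs_rhoR int_rhoR abs_gg_le)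

variable {U : Set ℂ} {x y : ℂ → ℂ} {l : ℂ → ℝ}

/-! ## the function `(t + ε) ^ a` -/

theorem rp_deriv {ε a t : ℝ} (ht : 0 < t + ε) : deriv (fun s : ℝ => (s + ε) ^ a) t = a * (t + ε) ^ (a - 1) := by
  have h1 : HasDerivAt (fun s : ℝ => s + ε) 1 t := (hasDerivAt_id t).add_const ε
  have h2 := h1.rpow_const (p := a) (Or.inl ht.ne')
  rw [h2.deriv]
  ring

theorem rp_deriv2 {ε a t : ℝ} (ht : 0 < t + ε) : deriv (deriv (fun s : ℝ => (s + ε) ^ a)) t = a * ((a - 1) * (t + ε) ^ (a - 1 - 1)) := by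
  have h0 : deriv (fun s : ℝ => (s + ε) ^ a) =ᶠ[𝓝 t] fun s => a * (s + ε) ^ (a - 1) := by
    have : ∀ᶠ s in 𝓝 t, 0 < s + ε := (continuous_id.add continuous_const).continuousAt.eventually (lt_mem_nhds ht)
    filter_upwards [this] with s hs
    exact rp_deriv hs
  rw [h0.deriv_eq, deriv_const_mul_field, rp_deriv ht]

theorem rp_cd {ε a t : ℝ} (ht : 0 < t + ε) : ContDiffAt ℝ 2 (fun s : ℝ => (s + ε) ^ a) t :=
  (contDiffAt_id.add contDiffAt_const).rpow_const_of_ne ht.ne'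

/-- the regularized power -/
def pw (x : ℂ → ℂ) (ε a : ℝ) (z : ℂ) : ℝ := (‖x z‖ ^ 2 + ε) ^ a

/-- the energy density -/
def dn (x : ℂ → ℂ) (ε a : ℝ) (z : ℂ) : ℝ := (‖x z‖ ^ 2 + ε) ^ (a - 1) * ‖deriv x z‖ ^ 2

theorem pw_pos {ε a : ℝ} (hε : 0 < ε) (z : ℂ) : 0 < pw x ε a z := Real.rpow_pos_of_pos (by positivity) _

theorem dn_nonneg {ε a : ℝ} (hε : 0 < ε) (z : ℂ) : 0 ≤ dn x ε a z :=
  mul_nonneg (Real.rpow_nonneg (by positivity) _) (sq_nonneg _)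

theorem pw_cd {ε a : ℝ} (hε : 0 < ε) {z : ℂ} (hx : AnalyticAt ℂ x z) : ContDiffAt ℝ 2 (pw x ε a) z := by
  have h1 : ContDiffAt ℝ 2 (fun s : ℝ => (s + ε) ^ a) ((fun w => ‖x w‖ ^ 2) z) := rp_cd (show 0 < ‖x z‖ ^ 2 + ε by positivity)
  exact h1.comp z (cd_sq hx)

theorem pw_gg {ε a : ℝ} (hε : 0 < ε) {z : ℂ} (hx : AnalyticAt ℂ x z) :
    gg (pw x ε a) (pw x ε a) z = 4 * a ^ 2 * ((‖x z‖ ^ 2 + ε) ^ (a - 1)) ^ 2 * ‖x z‖ ^ 2 * ‖deriv x z‖ ^ 2 := by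
  have hp : 0 < ‖x z‖ ^ 2 + ε := by positivity
  have ce : DifferentiableAt ℝ (fun s : ℝ => (s + ε) ^ a) (‖x z‖ ^ 2) := (rp_cd hp).differentiableAt (by norm_num)
  have cu : DifferentiableAt ℝ (fun w => ‖x w‖ ^ 2) z := (cd_sq hx).differentiableAt (by norm_num)
  have e1 : pw x ε a = fun w => (fun s : ℝ => (s + ε) ^ a) ((fun w => ‖x w‖ ^ 2) w) := rfl
  rw [e1, gg_comp ce cu, gg_comm, gg_comp ce cu, rp_deriv hp, gg_sq hx]
  ring

theorem pw_lap {ε a : ℝ} (hε : 0 < ε) {z : ℂ} (hx : AnalyticAt ℂ x z) :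
    Δ (pw x ε a) z = 4 * a * (‖x z‖ ^ 2 + ε) ^ (a - 1 - 1) * (a * ‖x z‖ ^ 2 + ε) * ‖deriv x z‖ ^ 2 := by
  have hp : 0 < ‖x z‖ ^ 2 + ε := by positivity
  have e1 : pw x ε a = fun w => (fun s : ℝ => (s + ε) ^ a) ((fun w => ‖x w‖ ^ 2) w) := rfl
  rw [e1, lap_comp (rp_cd hp) (cd_sq hx), rp_deriv hp, rp_deriv2 hp, gg_sq hx, lap_sq hx]
  have e2 : (‖x z‖ ^ 2 + ε) ^ (a - 1) = (‖x z‖ ^ 2 + ε) ^ (a - 1 - 1) * (‖x z‖ ^ 2 + ε) := by
    rw [← Real.rpow_add_one hp.ne']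
    congr 1
    ring
  rw [e2]
  ring

/-- lower bound for the Laplacian -/
theorem pw_lap_ge {ε a : ℝ} (hε : 0 < ε) (ha : 0 < a) (ha1 : a ≤ 1) {z : ℂ} (hx : AnalyticAt ℂ x z) : 4 * a ^ 2 * dn x ε a z ≤ Δ (pw x ε a) z := by
  rw [pw_lap hε hx]
  have hp : 0 < ‖x z‖ ^ 2 + ε := by positivity
  have e2 : (‖x z‖ ^ 2 + ε) ^ (a - 1) = (‖x z‖ ^ 2 + ε) ^ (a - 1 - 1) * (‖x z‖ ^ 2 + ε) := by
    rw [← Real.rpow_add_one hp.ne']
    congr 1
    ring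
  unfold dn
  rw [e2]
  have h1 : a * (‖x z‖ ^ 2 + ε) ≤ a * ‖x z‖ ^ 2 + ε := by nlinarith
  have h2 : 0 ≤ 4 * a * (‖x z‖ ^ 2 + ε) ^ (a - 1 - 1) * ‖deriv x z‖ ^ 2 := by positivity
  have := mul_le_mul_of_nonneg_left h1 h2
  nlinarith

/-- upper bound for the gradient -/
theorem pw_gg_le {ε a : ℝ} (hε : 0 < ε) {z : ℂ} (hx : AnalyticAt ℂ x z) :
    gg (pw x ε a) (pw x ε a) z ≤ pw x ε a z * (4 * a ^ 2 * dn x ε a z) := by
  rw [pw_gg hε hx]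
  have hp : 0 < ‖x z‖ ^ 2 + ε := by positivity
  have e2 : (‖x z‖ ^ 2 + ε) ^ a = (‖x z‖ ^ 2 + ε) ^ (a - 1) * (‖x z‖ ^ 2 + ε) := by
    rw [← Real.rpow_add_one hp.ne']
    congr 1
    ring
  unfold pw dn
  rw [e2]
  have h2 : 0 ≤ 4 * a ^ 2 * ((‖x z‖ ^ 2 + ε) ^ (a - 1)) ^ 2 * ‖deriv x z‖ ^ 2 := by positivity
  have := mul_le_mul_of_nonneg_left (show ‖x z‖ ^ 2 ≤ ‖x z‖ ^ 2 + ε by linarith) h2
  nlinarith

theorem pw_le_two {ε a : ℝ} (hε : 0 < ε) (hε1 : ε ≤ 1) (ha : 0 < a) (ha1 : a ≤ 1) {z : ℂ} (hx : ‖x z‖ ^ 2 ≤ 1) : pw x ε a z ≤ 2 := by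
  unfold pw
  calc (‖x z‖ ^ 2 + ε) ^ a ≤ 2 ^ a := Real.rpow_le_rpow (by positivity) (by linarith) ha.le
    _ ≤ 2 ^ (1 : ℝ) := Real.rpow_le_rpow_of_exponent_le (by norm_num) ha1
    _ = 2 := Real.rpow_one 2

theorem deriv_cont (h : Crd U x y) : ContinuousOn (deriv x) U := (h.hx.deriv h.isOpen).continuousOn

theorem dn_cont' (hU : IsOpen U) {v : ℂ → ℂ} (hv : DifferentiableOn ℂ v U) {ε a : ℝ} (hε : 0 < ε) : ContinuousOn (dn v ε a) U := by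
  unfold dn
  refine ContinuousOn.mul ?_ ((hv.deriv hU).continuousOn.norm.pow 2)
  refine ContinuousOn.rpow_const ((hv.continuousOn.norm.pow 2).add continuousOn_const) fun z _ => Or.inl ?_
  positivity

theorem dn_cont (h : Crd U x y) {ε a : ℝ} (hε : 0 < ε) : ContinuousOn (dn x ε a) U := dn_cont' h.isOpen h.hx hε

theorem cut_mul_le {a b : ℝ} (hab : a < b) {D : ℂ → ℝ} {C : ℝ} (hC : 0 ≤ C) (hD : ∀ z ∈ Kb U x y b, D z ≤ C) (z : ℂ) :
    cut U x y a b z ^ 2 * D z ≤ C := by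
  by_cases hz : z ∈ Kb U x y b
  · have h0 := cut_nonneg (U := U) (x := x) (y := y) a b z
    have h1 := cut_le_one (U := U) (x := x) (y := y) a b z
    have h2 : cut U x y a b z ^ 2 ≤ 1 := pow_le_one₀ h0 h1
    rcases le_total (D z) 0 with h3 | h3
    · exact (mul_nonpos_of_nonneg_of_nonpos (sq_nonneg _) h3).trans hC
    · calc _ ≤ 1 * D z := mul_le_mul_of_nonneg_right h2 h3
        _ ≤ C := by rw [one_mul]; exact hD z hz
  · rw [cut_eq_zero hab hz]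
    simpa using hC

/-- the uniform energy estimate of one coordinate -/
theorem enR_eps (h : Crd U x y) (hl0 : ∀ z, 0 ≤ l z) (hl : ∀ R, 1 ≤ R → Integrable fun z => tau R z * l z ^ 2) {B : ℝ} {e : ℝ → ℝ} (he : ∀ R, 1 ≤ R → 1 ≤ e R) (hB : ∀ R, 1 ≤ R → ∫ z, tau R z * l z ^ 2 ≤ B * e R)
    {a b : ℝ} (hb0 : 0 ≤ b) (hab : a < b) (hb : b < 1) (hbd : ∃ D : ℝ, ∀ z ∈ Kb U x y b, ‖deriv x z‖ ≤ D * l z ∧ ‖deriv y z‖ ≤ D * l z)
    {v : ℂ → ℂ} (hv : DifferentiableOn ℂ v U) (hv1 : ∀ z ∈ Kb U x y b, ‖v z‖ ^ 2 ≤ 1) {p : ℝ} (hp : 0 < p) (hp1 : p ≤ 1) :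
    ∃ C : ℝ, 0 ≤ C ∧ ∀ ε, 0 < ε → ε ≤ 1 → ∀ R, 1 ≤ R → ∫ z, tau R z * (cut U x y a b z ^ 2 * dn v ε p z) ≤ C * e R := by
  have hva : ∀ z ∈ U, AnalyticAt ℂ v z := fun z hz => hv.analyticAt (h.isOpen.mem_nhds hz)
  obtain ⟨C1, hC10, hC1⟩ := cut_bd h hl0 hb0 hab hb hbd
  have hB0 : 0 ≤ B * e 1 := (integral_nonneg fun z => mul_nonneg (tau_nonneg le_rfl z) (sq_nonneg _)).trans (hB 1 le_rfl)
  have hB1 : 0 ≤ B := by
    by_contra hn
    have := he 1 le_rfl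
    nlinarith [not_le.1 hn]
  refine ⟨(2 * Real.pi * 2 + 24 * C1 * B) / (2 * p ^ 2), by positivity, fun ε hε hε1 R hR => ?_⟩
  have key := core_int (R := R) hl hB (G := fun z => cut U x y a b z ^ 2 * pw v ε p z) (P := fun z => 2 * p ^ 2 * (cut U x y a b z ^ 2 * dn v ε p z)) (Q := fun _ => 0)
    (cut_mul_cd h hb0 hab hb fun z hz => pw_cd hε (hva z hz)) (continuous_const.mul (cut_mul_cont h hb0 hab hb (dn_cont' h.isOpen hv hε))) continuous_const (C := 24 * C1) (C2 := 2) (C3 := 0)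
    (by positivity) (fun z => ?_) (cut_mul_le hab (by norm_num) fun z hz => pw_le_two hε hε1 hp hp1 (hv1 z hz)) ?_ hR
  · have e1 : ∫ z, tau R z * (2 * p ^ 2 * (cut U x y a b z ^ 2 * dn v ε p z)) = 2 * p ^ 2 * ∫ z, tau R z * (cut U x y a b z ^ 2 * dn v ε p z) := by
      rw [← integral_const_mul]
      refine integral_congr_ae (Eventually.of_forall fun z => ?_)
      ring
    rw [e1] at key
    simp only [mul_zero, integral_zero, add_zero] at key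
    have he' := he R hR
    rw [div_mul_eq_mul_div, le_div_iff₀ (by positivity)]
    have hpi := Real.pi_pos
    nlinarith [mul_le_mul_of_nonneg_left he' (show 0 ≤ 2 * Real.pi * 2 by positivity)]
  · show 2 * p ^ 2 * (cut U x y a b z ^ 2 * dn v ε p z) ≤ Δ (fun z => cut U x y a b z ^ 2 * pw v ε p z) z + 24 * C1 * l z ^ 2 + 0
    by_cases hz : z ∈ U
    · have hD0 : 0 ≤ dn v ε p z := dn_nonneg hε z
      have h1 := core_pt h hb0 hab hb hC10 hC1 hz (pw_cd (a := p) hε (hva z hz)) (C0 := 2) (θ := 1 / 8) (H := 2 * (4 * p ^ 2 * dn v ε p z)) (by norm_num)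
        (by norm_num) (by positivity) (fun hK _ => ?_)
      · have h2 := pw_lap_ge hε hp hp1 (hva z hz)
        have h3 := mul_le_mul_of_nonneg_left h2 (sq_nonneg (cut U x y a b z))
        have e3 : (4 * 2 + 2 / (1 / 8)) * C1 * l z ^ 2 = 24 * C1 * l z ^ 2 := by ring
        rw [e3] at h1
        nlinarith
      · have hx1 : pw v ε p z ≤ 2 := pw_le_two hε hε1 hp hp1 (hv1 z hK)
        refine ⟨by rw [abs_of_pos (pw_pos hε z)]; exact hx1, (pw_gg_le hε (hva z hz)).trans ?_⟩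
        exact mul_le_mul_of_nonneg_right hx1 (by positivity)
    · have hK : z ∉ Kb U x y b := fun hK => hz hK.1
      have e1 := cut_mul_zero h hb0 hab hb (pw v ε p) hK
      have e2 : Δ (fun w => cut U x y a b w ^ 2 * pw v ε p w) z = 0 := by
        rw [lap_congr e1]
        simp [InnerProductSpace.laplacian_const]
      rw [e2, cut_eq_zero hab hK]
      have : 0 ≤ 24 * C1 * l z ^ 2 := by positivity
      nlinarith
  · rw [neg_zero]
    exact integral_nonneg fun z => mul_nonneg (rhoR_nonneg _ _) (mul_nonneg (sq_nonneg _) (pw_pos hε z).le)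

/-! ## the limit -/

/-- the region of the estimates -/
def Kr (U : Set ℂ) (x y : ℂ → ℂ) (r : ℝ) : Set ℂ := {z | z ∈ U ∧ ‖x z‖ ≤ r ∧ ‖y z‖ ≤ r}

theorem Kr_closed (h : Crd U x y) {r : ℝ} (hr : r < 1) : IsClosed (Kr U x y r) := h.closed r hr

theorem meas_ne' {S : Set ℂ} (hS : IsClosed S) {v : ℂ → ℂ} (hv : ContinuousOn v S) : MeasurableSet (S ∩ {z | v z ≠ 0}) := by
  have h1 : IsClosed (S ∩ v ⁻¹' {0}) := hv.preimage_isClosed_of_isClosed hS isClosed_singleton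
  have h2 : S ∩ {z | v z ≠ 0} = S \ (S ∩ v ⁻¹' {0}) := by
    ext z
    constructor
    · rintro ⟨h3, h4⟩
      exact ⟨h3, fun h5 => h4 h5.2⟩
    · rintro ⟨h3, h4⟩
      exact ⟨h3, fun h5 => h4 ⟨h3, h5⟩⟩
  rw [h2]
  exact hS.measurableSet.diff h1.measurableSet

theorem meas_ne (h : Crd U x y) {r : ℝ} (hr : r < 1) : MeasurableSet (Kr U x y r ∩ {z | x z ≠ 0}) :=
  meas_ne' (Kr_closed h hr) (h.hx.continuousOn.mono fun _ hz => hz.1)

theorem meas_ind {T : Set ℂ} (hT : MeasurableSet T) {D : ℂ → ℝ} (hD : ContinuousOn D T) : AEStronglyMeasurable (T.indicator D) :=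
  (aestronglyMeasurable_indicator_iff hT).2 (hD.aestronglyMeasurable hT)

/-- parameters of the cut-off -/
theorem exists_par {r : ℝ} (hr : r < 1) : ∃ a b : ℝ, 0 ≤ b ∧ a < b ∧ b < 1 ∧ 0 < a ∧ ∀ t : ℝ, 0 ≤ t → t ≤ r → t ^ 2 < a := by
  set s := max r 0 with hs
  have hs0 : 0 ≤ s := le_max_right _ _
  have hs1 : s < 1 := max_lt hr one_pos
  have hs2 : s ^ 2 < 1 := by nlinarith
  refine ⟨(2 * s ^ 2 + 1) / 3, (s ^ 2 + 2) / 3, by positivity, by linarith, by linarith, by positivity, fun t h0 h1 => ?_⟩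
  have h2 : t ^ 2 ≤ s ^ 2 := pow_le_pow_left₀ h0 (h1.trans (le_max_left _ _)) 2
  linarith

theorem cut_Kr (h : Crd U x y) {r a b : ℝ} (hab : a < b) (hra : ∀ t : ℝ, 0 ≤ t → t ≤ r → t ^ 2 < a) {z : ℂ} (hz : z ∈ Kr U x y r) :
    cut U x y a b z = 1 :=
  (cut_ev_one h hab hz.1 ⟨hra _ (norm_nonneg _) hz.2.1, hra _ (norm_nonneg _) hz.2.2⟩).self_of_nhds

/-! ## the energy on compact parts -/

/-- the energy density of the pair of coordinates, cut off -/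
def ed (x y : ℂ → ℂ) (S : Set ℂ) (z : ℂ) : ℝ := S.indicator (fun z => ‖deriv x z‖ ^ 2 + ‖deriv y z‖ ^ 2) z

theorem ed_nonneg (S : Set ℂ) (z : ℂ) : 0 ≤ ed x y S z := Set.indicator_nonneg (fun z _ => by positivity) z

theorem tau_ind_int {R : ℝ} (hR : 1 ≤ R) {S : Set ℂ} (hS : IsClosed S) {D : ℂ → ℝ} (hD : ContinuousOn D S) : Integrable fun z => tau R z * S.indicator D z := by
  have hK : IsCompact (S ∩ closedBall (0 : ℂ) (Real.exp 1 * R)) := (isCompact_closedBall _ _).inter_left hS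
  have h1 : IntegrableOn (fun z => tau R z * D z) (S ∩ closedBall (0 : ℂ) (Real.exp 1 * R)) :=
    ((contDiff_tau R).continuous.continuousOn.mul (hD.mono Set.inter_subset_left)).integrableOn_compact hK
  have h2 : (fun z => tau R z * S.indicator D z) = (S ∩ closedBall (0 : ℂ) (Real.exp 1 * R)).indicator fun z => tau R z * D z := by
    funext z
    by_cases hz : z ∈ S
    · by_cases hb : z ∈ closedBall (0 : ℂ) (Real.exp 1 * R)
      · rw [Set.indicator_of_mem hz, Set.indicator_of_mem (show z ∈ S ∩ closedBall (0 : ℂ) (Real.exp 1 * R) from ⟨hz, hb⟩)]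
      · have h3 : tau R z = 0 := by
          refine Pool.Agent.H30M.tau_eq_zero hR ?_
          rw [mem_closedBall_zero_iff, not_le] at hb
          exact hb.le
        rw [Set.indicator_of_notMem (show z ∉ S ∩ closedBall (0 : ℂ) (Real.exp 1 * R) from fun h4 => hb h4.2), h3, zero_mul]
    · rw [Set.indicator_of_notMem hz, Set.indicator_of_notMem (show z ∉ S ∩ closedBall (0 : ℂ) (Real.exp 1 * R) from fun h4 => hz h4.1), mul_zero]
  rw [h2]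
  exact (integrable_indicator_iff hK.measurableSet).2 h1

theorem ed_int (h : Crd U x y) {R : ℝ} (hR : 1 ≤ R) {S : Set ℂ} (hS : IsClosed S) (hSU : S ⊆ U) : Integrable fun z => tau R z * ed x y S z :=
  tau_ind_int hR hS ((((deriv_cont h).mono hSU).norm.pow 2).add (((deriv_cont h.symm).mono hSU).norm.pow 2))

theorem Kb_eq {b : ℝ} (hb0 : 0 ≤ b) : Kb U x y b = Kr U x y (√b) := by
  ext z
  simp only [Kb, Kr, Set.mem_ofPred_eq]
  rw [Real.le_sqrt (norm_nonneg _) hb0, Real.le_sqrt (norm_nonneg _) hb0]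

/-- the speed on a compact part -/
theorem exists_l (h : Crd U x y) {e : ℝ → ℝ} (hE : ∀ r : ℝ, r < 1 → ∃ B : ℝ, ∀ R, 1 ≤ R → ∫ z, tau R z * ed x y (Kr U x y r) z ≤ B * e R)
    {b : ℝ} (hb0 : 0 ≤ b) (hb : b < 1) : ∃ l : ℂ → ℝ, (∀ z, 0 ≤ l z) ∧ (∀ R, 1 ≤ R → Integrable fun z => tau R z * l z ^ 2) ∧
      (∃ B : ℝ, ∀ R, 1 ≤ R → ∫ z, tau R z * l z ^ 2 ≤ B * e R) ∧ ∃ D : ℝ, ∀ z ∈ Kb U x y b, ‖deriv x z‖ ≤ D * l z ∧ ‖deriv y z‖ ≤ D * l z := by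
  have hsb : √b < 1 := by
    rw [Real.sqrt_lt' one_pos]
    simpa using hb
  have h2 : ∀ z, √(ed x y (Kr U x y (√b)) z) ^ 2 = ed x y (Kr U x y (√b)) z := fun z => Real.sq_sqrt (ed_nonneg _ _)
  refine ⟨fun z => √(ed x y (Kr U x y (√b)) z), fun z => Real.sqrt_nonneg _, fun R hR => ?_, ?_, 1, fun z hz => ?_⟩
  · simp only [h2]
    exact ed_int h hR (h.closed _ hsb) fun z hz => hz.1
  · simp only [h2]
    exact hE _ hsb
  · rw [Kb_eq hb0] at hz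
    have h3 : ed x y (Kr U x y (√b)) z = ‖deriv x z‖ ^ 2 + ‖deriv y z‖ ^ 2 := Set.indicator_of_mem hz _
    simp only [h3, one_mul]
    constructor
    · exact Real.le_sqrt_of_sq_le (by nlinarith [sq_nonneg ‖deriv y z‖])
    · exact Real.le_sqrt_of_sq_le (by nlinarith [sq_nonneg ‖deriv x z‖])

/-- the energy hypothesis from a bound for the speed -/
theorem Crds.energy (h : Crds U x y l) (hl : Continuous l) {B : ℝ} {e : ℝ → ℝ} (hB : ∀ R, 1 ≤ R → ∫ z, tau R z * l z ^ 2 ≤ B * e R) (r : ℝ) (hr : r < 1) :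
    ∃ B : ℝ, ∀ R, 1 ≤ R → ∫ z, tau R z * ed x y (Kr U x y r) z ≤ B * e R := by
  obtain ⟨C, hC⟩ := h.bd
  refine ⟨2 * C ^ 2 * B, fun R hR => ?_⟩
  have h1 : ∫ z, tau R z * ed x y (Kr U x y r) z ≤ ∫ z, 2 * C ^ 2 * (tau R z * l z ^ 2) := by
    refine integral_mono (ed_int h.crd hR (h.closed _ hr) fun z hz => hz.1) ((tau_int hR (hl.pow 2)).const_mul _) fun z => ?_
    have h2 : ed x y (Kr U x y r) z ≤ 2 * C ^ 2 * l z ^ 2 := by
      by_cases hz : z ∈ Kr U x y r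
      · obtain ⟨h3, h4⟩ := hC z hz.1
        have h5 := pow_le_pow_left₀ (norm_nonneg _) h3 2
        have h6 := pow_le_pow_left₀ (norm_nonneg _) h4 2
        unfold ed
        rw [Set.indicator_of_mem hz]
        rw [mul_pow] at h5 h6
        linarith
      · unfold ed
        rw [Set.indicator_of_notMem hz]
        positivity
    have := mul_le_mul_of_nonneg_left h2 (tau_nonneg hR z)
    show tau R z * ed x y (Kr U x y r) z ≤ 2 * C ^ 2 * (tau R z * l z ^ 2)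
    linarith
  rw [integral_const_mul] at h1
  have := mul_le_mul_of_nonneg_left (hB R hR) (show 0 ≤ 2 * C ^ 2 by positivity)
  linarith

/-- **the energy estimate of one function** -/
theorem enRV (h : Crd U x y) {e : ℝ → ℝ} (he : ∀ R, 1 ≤ R → 1 ≤ e R)
    (hE : ∀ r : ℝ, r < 1 → ∃ B : ℝ, ∀ R, 1 ≤ R → ∫ z, tau R z * ed x y (Kr U x y r) z ≤ B * e R) {v : ℂ → ℂ} (hv : DifferentiableOn ℂ v U)
    (hv1 : ∀ z ∈ U, ‖x z‖ < 1 → ‖y z‖ < 1 → ‖v z‖ ≤ 1) {p r : ℝ} (hp : 0 < p) (hp1 : p ≤ 1) (hr : r < 1) : ∃ C : ℝ, 0 ≤ C ∧ ∀ R, 1 ≤ R →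
      Integrable (fun z => tau R z * (Kr U x y r ∩ {z | v z ≠ 0}).indicator (fun z => ‖v z‖ ^ (2 * p - 2) * ‖deriv v z‖ ^ 2) z) ∧
      ∫ z, tau R z * (Kr U x y r ∩ {z | v z ≠ 0}).indicator (fun z => ‖v z‖ ^ (2 * p - 2) * ‖deriv v z‖ ^ 2) z ≤ C * e R := by
  obtain ⟨a, b, hb0, hab, hb, _, hra⟩ := exists_par hr
  obtain ⟨l, hl0, hl, ⟨B, hB⟩, hbd⟩ := exists_l h hE hb0 hb
  obtain ⟨C, hC0, hC⟩ := enR_eps h hl0 hl he hB hb0 hab hb hbd hv (fun z hz => by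
    have h1 : ∀ w : ℂ, ‖w‖ ^ 2 ≤ b → ‖w‖ < 1 := fun w hw => by nlinarith [norm_nonneg w]
    exact pow_le_one₀ (norm_nonneg _) (hv1 z hz.1 (h1 _ hz.2.1) (h1 _ hz.2.2))) hp hp1
  refine ⟨C, hC0, fun R hR => ?_⟩
  have hT := meas_ne' (Kr_closed h hr) (hv.continuousOn.mono fun z hz => hz.1)
  have hε : ∀ n : ℕ, 0 < 1 / ((n : ℝ) + 1) := fun n => by positivity
  have hε1 : ∀ n : ℕ, 1 / ((n : ℝ) + 1) ≤ 1 := fun n => by
    rw [div_le_one (by positivity)]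
    linarith [(Nat.cast_nonneg n : (0 : ℝ) ≤ n)]
  have he' := he R hR
  refine fatou_real (S := Kr U x y r ∩ {z | v z ≠ 0}) (f := fun n z => tau R z * (cut U x y a b z ^ 2 * dn v (1 / ((n : ℝ) + 1)) p z)) (by positivity)
    (fun n => tau_int hR (cut_mul_cont h hb0 hab hb (dn_cont' h.isOpen hv (hε n)))) (fun n z => mul_nonneg (tau_nonneg hR z) (mul_nonneg (sq_nonneg _) (dn_nonneg (hε n) z)))
    (fun n => hC _ (hε n) (hε1 n) R hR) ?_ (fun z => mul_nonneg (tau_nonneg hR z) (Set.indicator_nonneg (fun z _ => by positivity) z)) (fun z hz => ?_) fun z hz => ?_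
  · refine (contDiff_tau R).continuous.aestronglyMeasurable.mul (meas_ind hT ?_)
    have c1 : ContinuousOn v (Kr U x y r ∩ {z | v z ≠ 0}) := hv.continuousOn.mono fun z hz => hz.1.1
    have c2 : ContinuousOn (deriv v) (Kr U x y r ∩ {z | v z ≠ 0}) := (hv.deriv h.isOpen).continuousOn.mono fun z hz => hz.1.1
    exact (c1.norm.rpow_const fun z hz => Or.inl (norm_ne_zero_iff.2 hz.2)).mul (c2.norm.pow 2)
  · rw [Set.indicator_of_notMem hz, mul_zero]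
  · rw [Set.indicator_of_mem hz]
    refine Tendsto.const_mul _ ?_
    simp only [cut_Kr h hab hra hz.1, one_pow, one_mul]
    unfold dn
    refine Tendsto.mul_const _ ?_
    have hx0 : 0 < ‖v z‖ := norm_pos_iff.2 hz.2
    have h1 : Tendsto (fun n : ℕ => ‖v z‖ ^ 2 + 1 / ((n : ℝ) + 1)) atTop (𝓝 (‖v z‖ ^ 2 + 0)) := tendsto_one_div_add_atTop_nhds_zero_nat.const_add _
    rw [add_zero] at h1
    have h2 := h1.rpow_const (p := p - 1) (Or.inl (by positivity))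
    have h3 : (‖v z‖ ^ 2) ^ (p - 1) = ‖v z‖ ^ (2 * p - 2) := by
      rw [← Real.rpow_natCast, ← Real.rpow_mul hx0.le]
      congr 1
      push_cast
      ring
    rwa [h3] at h2

/-- **the energy estimate of one coordinate** -/
theorem enRK (h : Crd U x y) {e : ℝ → ℝ} (he : ∀ R, 1 ≤ R → 1 ≤ e R)
    (hE : ∀ r : ℝ, r < 1 → ∃ B : ℝ, ∀ R, 1 ≤ R → ∫ z, tau R z * ed x y (Kr U x y r) z ≤ B * e R)
    {p r : ℝ} (hp : 0 < p) (hp1 : p ≤ 1) (hr : r < 1) : ∃ C : ℝ, 0 ≤ C ∧ ∀ R, 1 ≤ R →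
      Integrable (fun z => tau R z * (Kr U x y r ∩ {z | x z ≠ 0}).indicator (fun z => ‖x z‖ ^ (2 * p - 2) * ‖deriv x z‖ ^ 2) z) ∧
      ∫ z, tau R z * (Kr U x y r ∩ {z | x z ≠ 0}).indicator (fun z => ‖x z‖ ^ (2 * p - 2) * ‖deriv x z‖ ^ 2) z ≤ C * e R :=
  enRV h he hE h.hx (fun _ _ h1 _ => h1.le) hp hp1 hr

theorem one_le_En {N : ℕ} (F : ℂ → EN N) (R : ℝ) (hR : 1 ≤ R) : 1 ≤ En F R + 1 := by
  have : 0 ≤ En F R := integral_nonneg fun z => mul_nonneg (tau_nonneg hR z) (sq_nonneg _)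
  linarith

/-- **EnR** -/
theorem enR {N : ℕ} {F : ℂ → EN N} (h : Crds U x y l) (hl : Continuous l) (hB : ∃ B : ℝ, ∀ R, 1 ≤ R → ∫ z, tau R z * l z ^ 2 ≤ B * (En F R + 1))
    {p r : ℝ} (hp : 0 < p) (hp1 : p ≤ 1) (hr : r < 1) : ∃ C : ℝ, 0 ≤ C ∧ ∀ R, 1 ≤ R →
      Integrable (fun z => tau R z * (Kr U x y r ∩ {z | x z ≠ 0}).indicator (fun z => ‖x z‖ ^ (2 * p - 2) * ‖deriv x z‖ ^ 2) z) ∧
      ∫ z, tau R z * (Kr U x y r ∩ {z | x z ≠ 0}).indicator (fun z => ‖x z‖ ^ (2 * p - 2) * ‖deriv x z‖ ^ 2) z ≤ C * (En F R + 1) := by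
  obtain ⟨B, hB⟩ := hB
  exact enRK h.crd (e := fun R => En F R + 1) (one_le_En F) (h.energy hl (e := fun R => En F R + 1) hB) hp hp1 hr

end Pool.Agent.MQ3
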