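import Pool.Agent.MQ3.EnR
import Pool.Agent.H30M.Fund
import Pool.Agent.H30M.Mean

/-!
# MQ3 EnT: the energy of the coordinate of an exceptional curve
-/

set_option autoImplicit false

open MeasureTheory Topology Filter Metric Laplacian

noncomputable section

namespace Pool.Agent.MQ3

open Pool.Agent.MQ
open Pool.Agent.H36.BP (EN)
open Pool.Agent.H30M (tau rhoR avg rho gg lap_comp lap_mul lap_add lap_congr gg_congr gg_sq_le gg_self_nonneg gg_comm gg_comp green_tau tau_nonneg contDiff_tau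
  hcs_tau rhoR_nonneg continuous_rhoR hcs_rhoR int_rhoR abs_gg_le LogSing rhoR_eq_zero)

variable {U : Set ℂ} {x y : ℂ → ℂ} {l : ℂ → ℝ}

/-- the potential -/
def ps (x y : ℂ → ℂ) (ε p q : ℝ) (z : ℂ) : ℝ := Real.log (pw x ε p z + pw y ε q z)

/-- the logarithmic derivative -/
def wv (x y : ℂ → ℂ) (ε p q : ℝ) (z : ℂ) : ℂ :=
  p * (x z * (starRingEnd ℂ) (deriv x z)) / ((‖x z‖ ^ 2 + ε : ℝ) : ℂ) - q * (y z * (starRingEnd ℂ) (deriv y z)) / ((‖y z‖ ^ 2 + ε : ℝ) : ℂ)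

/-- the energy density -/
def tn (x y : ℂ → ℂ) (ε p q : ℝ) (z : ℂ) : ℝ := pw x ε p z * pw y ε q z / (pw x ε p z + pw y ε q z) ^ 2 * ‖wv x y ε p q z‖ ^ 2

theorem tn_nonneg {ε p q : ℝ} (hε : 0 < ε) (z : ℂ) : 0 ≤ tn x y ε p q z := by
  have h1 := pw_pos (x := x) (a := p) hε z
  have h2 := pw_pos (x := y) (a := q) hε z
  unfold tn
  positivity

theorem pw_gr {ε p : ℝ} (hε : 0 < ε) {z : ℂ} (hx : AnalyticAt ℂ x z) :
    gr (pw x ε p) z = (pw x ε p z : ℂ) * (2 * (p * (x z * (starRingEnd ℂ) (deriv x z)) / ((‖x z‖ ^ 2 + ε : ℝ) : ℂ))) := by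
  have hp : 0 < ‖x z‖ ^ 2 + ε := by positivity
  have ce : DifferentiableAt ℝ (fun s : ℝ => (s + ε) ^ p) (‖x z‖ ^ 2) := (rp_cd hp).differentiableAt (by norm_num)
  have cu : DifferentiableAt ℝ (fun w => ‖x w‖ ^ 2) z := (cd_sq hx).differentiableAt (by norm_num)
  have h1 : gr (pw x ε p) z = ((p * (‖x z‖ ^ 2 + ε) ^ (p - 1) : ℝ) : ℂ) * gr (fun w => ‖x w‖ ^ 2) z := by
    have e1 : ∀ v : ℂ, fderiv ℝ (pw x ε p) z v = p * (‖x z‖ ^ 2 + ε) ^ (p - 1) * fderiv ℝ (fun w => ‖x w‖ ^ 2) z v := by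
      intro v
      have := Pool.Agent.H30M.fderiv_comp_real (φ := fun s : ℝ => (s + ε) ^ p) (u := fun w => ‖x w‖ ^ 2) (z := z) ce cu v
      rw [rp_deriv hp] at this
      exact this
    unfold gr
    rw [e1, e1]
    apply Complex.ext
    · rw [Complex.re_ofReal_mul]
    · rw [Complex.im_ofReal_mul]
  rw [h1, gr_sqnorm hx.differentiableAt.hasDerivAt, RCLike.inner_apply, map_mul, Complex.conj_conj]
  have e2 : pw x ε p z = (‖x z‖ ^ 2 + ε) ^ (p - 1) * (‖x z‖ ^ 2 + ε) := by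
    unfold pw
    rw [← Real.rpow_add_one hp.ne']
    congr 1
    ring
  rw [e2]
  have hne : ((‖x z‖ ^ 2 + ε : ℝ) : ℂ) ≠ 0 := Complex.ofReal_ne_zero.2 hp.ne'
  rw [Complex.ofReal_mul, Complex.ofReal_mul]
  field_simp

theorem ip_sub_sq (A B : ℝ) (hA : 0 < A) (hB : 0 < B) (s t : ℂ) :
    A * B * ‖s - t‖ ^ 2 = B / A * ‖(A : ℂ) * s‖ ^ 2 + A / B * ‖(B : ℂ) * t‖ ^ 2 - 2 * ip ((A : ℂ) * s) ((B : ℂ) * t) := by
  have h1 : ∀ c : ℂ, ‖c‖ ^ 2 = c.re ^ 2 + c.im ^ 2 := by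
    intro c
    rw [← Complex.normSq_eq_norm_sq, Complex.normSq_apply]
    ring
  rw [h1, h1, h1]
  unfold ip
  simp only [Complex.re_ofReal_mul, Complex.im_ofReal_mul, Complex.sub_re, Complex.sub_im]
  field_simp
  ring

theorem pw_sub {ε p : ℝ} (hε : 0 < ε) (hp : 0 < p) {z : ℂ} (hx : AnalyticAt ℂ x z) : gg (pw x ε p) (pw x ε p) z ≤ pw x ε p z * Δ (pw x ε p) z := by
  rw [pw_gg hε hx, pw_lap hε hx]
  have h0 : 0 < ‖x z‖ ^ 2 + ε := by positivity
  have e2 : (‖x z‖ ^ 2 + ε) ^ (p - 1) = (‖x z‖ ^ 2 + ε) ^ (p - 1 - 1) * (‖x z‖ ^ 2 + ε) := by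
    rw [← Real.rpow_add_one h0.ne']
    congr 1
    ring
  have e3 : pw x ε p z = (‖x z‖ ^ 2 + ε) ^ (p - 1 - 1) * (‖x z‖ ^ 2 + ε) * (‖x z‖ ^ 2 + ε) := by
    unfold pw
    rw [← Real.rpow_add_one h0.ne', ← Real.rpow_add_one h0.ne']
    congr 1
    ring
  rw [e2, e3]
  have h1 : 0 ≤ (‖x z‖ ^ 2 + ε) ^ (p - 1 - 1) := Real.rpow_nonneg h0.le _
  have h2 : 0 ≤ 4 * p * ((‖x z‖ ^ 2 + ε) ^ (p - 1 - 1)) ^ 2 * (‖x z‖ ^ 2 + ε) ^ 2 * ‖deriv x z‖ ^ 2 := by positivity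
  have h3 : p * ‖x z‖ ^ 2 ≤ p * ‖x z‖ ^ 2 + ε := by linarith
  have := mul_le_mul_of_nonneg_left h3 h2
  nlinarith

theorem ps_cd {ε p q : ℝ} (hε : 0 < ε) {z : ℂ} (hx : AnalyticAt ℂ x z) (hy : AnalyticAt ℂ y z) : ContDiffAt ℝ 2 (ps x y ε p q) z :=
  ((pw_cd hε hx).add (pw_cd hε hy)).log (add_pos (pw_pos hε z) (pw_pos hε z)).ne'

/-- lower bound for the Laplacian -/
theorem ps_lap_ge {ε p q : ℝ} (hε : 0 < ε) (hp : 0 < p) (hq : 0 < q) {z : ℂ} (hx : AnalyticAt ℂ x z) (hy : AnalyticAt ℂ y z) :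
    4 * tn x y ε p q z ≤ Δ (ps x y ε p q) z := by
  set A := pw x ε p with hA
  set B := pw y ε q with hB
  have hA0 : 0 < A z := pw_pos hε z
  have hB0 : 0 < B z := pw_pos hε z
  have cA : ContDiffAt ℝ 2 A z := pw_cd hε hx
  have cB : ContDiffAt ℝ 2 B z := pw_cd hε hy
  have hS0 : 0 < A z + B z := add_pos hA0 hB0
  have cS : ContDiffAt ℝ 2 (fun w => A w + B w) z := cA.add cB
  have e1 : Δ (ps x y ε p q) z = (A z + B z)⁻¹ * Δ (fun w => A w + B w) z - ((A z + B z) ^ 2)⁻¹ * gg (fun w => A w + B w) (fun w => A w + B w) z := by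
    have h1 : ps x y ε p q = fun w => Real.log ((fun w => A w + B w) w) := rfl
    have h2 : ContDiffAt ℝ 2 Real.log ((fun w => A w + B w) z) := Real.contDiffAt_log.2 hS0.ne'
    rw [h1, lap_comp h2 cS]
    have h3 : deriv (deriv Real.log) (A z + B z) = -((A z + B z) ^ 2)⁻¹ := by
      rw [Real.deriv_log', deriv_inv]
    show deriv Real.log (A z + B z) * _ + deriv (deriv Real.log) (A z + B z) * _ = _
    rw [h3, Real.deriv_log]
    ring
  have e2 : Δ (fun w => A w + B w) z = Δ A z + Δ B z := lap_add cA cB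
  have e3 : gg (fun w => A w + B w) (fun w => A w + B w) z = gg A A z + gg B B z + 2 * gg A B z := by
    unfold gg
    rw [fderiv_fun_add (cA.differentiableAt (by norm_num)) (cB.differentiableAt (by norm_num))]
    simp only [add_apply]
    ring
  have i1 : gg A A z ≤ A z * Δ A z := pw_sub hε hp hx
  have i2 : gg B B z ≤ B z * Δ B z := pw_sub hε hq hy
  have i1' : gg A A z / A z ≤ Δ A z := by
    rw [div_le_iff₀ hA0]
    linarith
  have i2' : gg B B z / B z ≤ Δ B z := by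
    rw [div_le_iff₀ hB0]
    linarith
  have key := ip_sub_sq (A z) (B z) hA0 hB0 (2 * (p * (x z * (starRingEnd ℂ) (deriv x z)) / ((‖x z‖ ^ 2 + ε : ℝ) : ℂ)))
    (2 * (q * (y z * (starRingEnd ℂ) (deriv y z)) / ((‖y z‖ ^ 2 + ε : ℝ) : ℂ)))
  rw [← pw_gr hε hx, ← pw_gr hε hy, ← hA, ← hB, ← gg_self, ← gg_self, ← gg_eq_ip, ← mul_sub, norm_mul, mul_pow] at key
  have e4 : ‖(2 : ℂ)‖ ^ 2 = 4 := by
    rw [Complex.norm_ofNat]
    norm_num
  rw [e4] at key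
  have e5 : 4 * tn x y ε p q z = (A z * B z * (4 * ‖wv x y ε p q z‖ ^ 2)) / (A z + B z) ^ 2 := by
    unfold tn
    rw [← hA, ← hB]
    ring
  rw [e5, wv, key, e1, e2, e3, div_le_iff₀ (by positivity)]
  have e6 : ((A z + B z)⁻¹ * (Δ A z + Δ B z) - ((A z + B z) ^ 2)⁻¹ * (gg A A z + gg B B z + 2 * gg A B z)) * (A z + B z) ^ 2 =
      (A z + B z) * (Δ A z + Δ B z) - (gg A A z + gg B B z + 2 * gg A B z) := by
    field_simp
  rw [e6]
  have e7 : B z / A z * gg A A z + A z / B z * gg B B z - 2 * gg A B z =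
      (A z + B z) * (gg A A z / A z + gg B B z / B z) - (gg A A z + gg B B z + 2 * gg A B z) := by
    field_simp
    ring
  rw [e7]
  have := mul_le_mul_of_nonneg_left (add_le_add i1' i2') hS0.le
  linarith

/-- the gradient -/
theorem ps_gg_le {ε p q : ℝ} (hε : 0 < ε) (hε1 : ε ≤ 1) (hp : 0 < p) (hp1 : p ≤ 1) (hq : 0 < q) (hq1 : q ≤ 1) {z : ℂ} (hx : AnalyticAt ℂ x z) (hy : AnalyticAt ℂ y z)
    (hx1 : ‖x z‖ ^ 2 ≤ 1) (hy1 : ‖y z‖ ^ 2 ≤ 1) {c : ℝ} (hc : 0 < c) (hcS : c ≤ pw x ε p z + pw y ε q z) :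
    gg (ps x y ε p q) (ps x y ε p q) z ≤ 16 / c ^ 2 * (dn x ε p z + dn y ε q z) := by
  set A := pw x ε p with hA
  set B := pw y ε q with hB
  have cA : ContDiffAt ℝ 2 A z := pw_cd hε hx
  have cB : ContDiffAt ℝ 2 B z := pw_cd hε hy
  have hS0 : 0 < A z + B z := hc.trans_le hcS
  have dS : DifferentiableAt ℝ (fun w => A w + B w) z := (cA.add cB).differentiableAt (by norm_num)
  have dl : DifferentiableAt ℝ Real.log ((fun w => A w + B w) z) := Real.differentiableAt_log hS0.ne'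
  have h1 : ps x y ε p q = fun w => Real.log ((fun w => A w + B w) w) := rfl
  rw [h1, gg_comp dl dS, gg_comm, gg_comp dl dS, Real.deriv_log]
  have h2 := gg_add_le (cA.differentiableAt (by norm_num)) (cB.differentiableAt (by norm_num)) (z := z)
  have h3 : gg A A z ≤ 8 * dn x ε p z := by
    refine (pw_gg_le hε hx).trans ?_
    have h4 : pw x ε p z ≤ 2 := pw_le_two hε hε1 hp hp1 hx1
    have h5 : p ^ 2 ≤ 1 := pow_le_one₀ hp.le hp1
    have h6 := dn_nonneg (x := x) (a := p) hε z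
    have h7 := (pw_pos (x := x) (a := p) hε z).le
    calc pw x ε p z * (4 * p ^ 2 * dn x ε p z) ≤ 2 * (4 * 1 * dn x ε p z) := by gcongr
      _ = _ := by ring
  have h3' : gg B B z ≤ 8 * dn y ε q z := by
    refine (pw_gg_le hε hy).trans ?_
    have h4 : pw y ε q z ≤ 2 := pw_le_two hε hε1 hq hq1 hy1
    have h5 : q ^ 2 ≤ 1 := pow_le_one₀ hq.le hq1
    have h6 := dn_nonneg (x := y) (a := q) hε z
    have h7 := (pw_pos (x := y) (a := q) hε z).le
    calc pw y ε q z * (4 * q ^ 2 * dn y ε q z) ≤ 2 * (4 * 1 * dn y ε q z) := by gcongr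
      _ = _ := by ring
  have h8 : gg (fun w => A w + B w) (fun w => A w + B w) z ≤ 16 * (dn x ε p z + dn y ε q z) := by linarith
  have h9 : ((A z + B z)⁻¹) ^ 2 ≤ (c⁻¹) ^ 2 := by
    have : (A z + B z)⁻¹ ≤ c⁻¹ := inv_anti₀ hc hcS
    exact pow_le_pow_left₀ (by positivity) this 2
  show (A z + B z)⁻¹ * ((A z + B z)⁻¹ * _) ≤ _
  calc (A z + B z)⁻¹ * ((A z + B z)⁻¹ * gg (fun w => A w + B w) (fun w => A w + B w) z) =
      ((A z + B z)⁻¹) ^ 2 * gg (fun w => A w + B w) (fun w => A w + B w) z := by ring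
    _ ≤ (c⁻¹) ^ 2 * (16 * (dn x ε p z + dn y ε q z)) := mul_le_mul h9 h8 (gg_self_nonneg _ _) (by positivity)
    _ = _ := by
      field_simp

theorem le_pw {ε p : ℝ} (hε : 0 < ε) (hp : 0 < p) (hp1 : p ≤ 1) {z : ℂ} (hx : ‖x z‖ ^ 2 ≤ 1) : ‖x z‖ ^ 2 ≤ pw x ε p z := by
  unfold pw
  have h0 : 0 ≤ ‖x z‖ ^ 2 := by positivity
  calc ‖x z‖ ^ 2 = (‖x z‖ ^ 2) ^ (1 : ℝ) := (Real.rpow_one _).symm
    _ ≤ (‖x z‖ ^ 2) ^ p := by
        rcases h0.eq_or_lt with h1 | h1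
        · rw [← h1, Real.zero_rpow one_ne_zero, Real.zero_rpow hp.ne']
        · exact Real.rpow_le_rpow_of_exponent_ge h1 hx hp1
    _ ≤ _ := Real.rpow_le_rpow h0 (by linarith) hp.le

/-! ## local integrability of the logarithm -/

theorem logSing_int {w : ℂ → ℝ} {c : ℝ} {z : ℂ} (h : LogSing w c z) : ∃ r : ℝ, 0 < r ∧ ∀ ρ : ℝ, ρ ≤ r → IntegrableOn w (closedBall z ρ) := by
  obtain ⟨s, hs, h1⟩ := h
  have h2 : ∀ᶠ ζ in 𝓝 z, ContinuousAt s ζ := (hs.eventually (by simp)).mono fun ζ hζ => hζ.continuousAt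
  rw [Filter.EventuallyEq, eventually_nhdsWithin_iff] at h1
  obtain ⟨r, hr, h3⟩ := Metric.eventually_nhds_iff_ball.1 (h1.and h2)
  refine ⟨r / 2, by positivity, fun ρ hρ => ?_⟩
  have hsub : closedBall z ρ ⊆ ball z r := closedBall_subset_ball (by linarith)
  have i1 : IntegrableOn (fun ζ : ℂ => Real.log ‖ζ - z‖) (closedBall z ρ) :=
    (Pool.Agent.H30M.locInt_log z).integrableOn_isCompact (isCompact_closedBall _ _)
  have i2 : IntegrableOn s (closedBall z ρ) := by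
    have : ContinuousOn s (closedBall z ρ) := fun ζ hζ => (h3 ζ (hsub hζ)).2.continuousWithinAt
    exact this.integrableOn_compact (isCompact_closedBall _ _)
  refine Integrable.congr ((i1.const_mul c).add i2) ?_
  have hne : ∀ᵐ ζ : ℂ, ζ ≠ z := by
    rw [ae_iff]
    simp
  rw [Filter.EventuallyEq, ae_restrict_iff' measurableSet_closedBall]
  filter_upwards [hne] with ζ h4 h5
  exact ((h3 ζ (hsub h5)).1 h4).symm

theorem log_bd {s u v : ℝ} (hs : 0 < s) (hu : s ^ 2 = u) (hv : 0 ≤ v) (h2 : u + v ≤ 2) : |Real.log (u + v)| ≤ Real.log 2 + 2 * |Real.log s| := by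
  have hu0 : 0 < u := by rw [← hu]; positivity
  have h1 : Real.log u = 2 * Real.log s := by
    rw [← hu, Real.log_pow]
    norm_num
  have h3 : Real.log u ≤ Real.log (u + v) := Real.log_le_log hu0 (by linarith)
  have h4 : Real.log (u + v) ≤ Real.log 2 := Real.log_le_log (by linarith) h2
  have h5 : 0 ≤ Real.log 2 := Real.log_nonneg (by norm_num)
  rw [abs_le]
  constructor
  · have := neg_abs_le (Real.log s)
    rw [h1] at h3
    linarith
  · have := abs_nonneg (Real.log s)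
    linarith

/-- the logarithm of the sum of squares near one point -/
theorem log_at (h : Crd U x y) {K : Set ℂ} (hKm : MeasurableSet K) (hKU : K ⊆ U) (hx1 : ∀ z ∈ K, ‖x z‖ ^ 2 ≤ 1) (hy1 : ∀ z ∈ K, ‖y z‖ ^ 2 ≤ 1) {z : ℂ} (hz : z ∈ U)
    (h0 : analyticOrderAt x z ≠ ⊤) : IntegrableAtFilter (fun z => Real.log (‖x z‖ ^ 2 + ‖y z‖ ^ 2)) (𝓝[K] z) := by
  obtain ⟨r, hr, h1⟩ := logSing_int (LogSing.log_norm (h.ax hz) h0)
  have h2 : ∀ᶠ w in 𝓝 z, w ≠ z → x w ≠ 0 := by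
    rcases (h.ax hz).eventually_eq_zero_or_eventually_ne_zero with h3 | h3
    · exact absurd (analyticOrderAt_eq_top.2 h3) h0
    · exact eventually_nhdsWithin_iff.1 h3
  obtain ⟨r', hr', h3⟩ := Metric.eventually_nhds_iff_ball.1 h2
  set ρ := min r (r' / 2) with hρ
  have hρ0 : 0 < ρ := lt_min hr (by positivity)
  have hm : MeasurableSet (K ∩ closedBall z ρ) := hKm.inter measurableSet_closedBall
  refine ⟨K ∩ closedBall z ρ, inter_mem_nhdsWithin _ (closedBall_mem_nhds _ hρ0), ?_⟩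
  have i1 : IntegrableOn (fun w => Real.log ‖x w‖) (K ∩ closedBall z ρ) := (h1 ρ (min_le_left _ _)).mono_set Set.inter_subset_right
  have i0 : IntegrableOn (fun _ : ℂ => Real.log 2) (K ∩ closedBall z ρ) := by
    have : IntegrableOn (fun _ : ℂ => Real.log 2) (closedBall z ρ) := continuous_const.continuousOn.integrableOn_compact (isCompact_closedBall _ _)
    exact this.mono_set Set.inter_subset_right
  have i2 : IntegrableOn (fun w => Real.log 2 + 2 * |Real.log ‖x w‖|) (K ∩ closedBall z ρ) := i0.add (i1.norm.const_mul 2)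
  refine Integrable.mono' i2 ?_ ?_
  · have c1 : ContinuousOn (fun w => ‖x w‖ ^ 2 + ‖y w‖ ^ 2) (K ∩ closedBall z ρ) :=
      ((h.hx.continuousOn.norm.pow 2).add (h.hy.continuousOn.norm.pow 2)).mono fun w hw => hKU hw.1
    exact (Real.measurable_log.comp_aemeasurable (c1.aestronglyMeasurable hm).aemeasurable).aestronglyMeasurable
  · have hne : ∀ᵐ ζ : ℂ, ζ ≠ z := by
      rw [ae_iff]
      simp
    rw [ae_restrict_iff' hm]
    filter_upwards [hne] with w hw1 hw2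
    have hb : w ∈ ball z r' := closedBall_subset_ball (lt_of_le_of_lt (min_le_right _ _) (by linarith)) hw2.2
    have hxw : x w ≠ 0 := h3 w hb hw1
    rw [Real.norm_eq_abs]
    exact log_bd (norm_pos_iff.2 hxw) rfl (by positivity) (by linarith [hx1 w hw2.1, hy1 w hw2.1])

theorem log_int (h : Crd U x y) (hne : ∀ z ∈ U, ∀ᶠ w in 𝓝[≠] z, x w ≠ 0 ∨ y w ≠ 0) {K : Set ℂ} (hK : IsCompact K) (hKU : K ⊆ U) (hx1 : ∀ z ∈ K, ‖x z‖ ^ 2 ≤ 1)
    (hy1 : ∀ z ∈ K, ‖y z‖ ^ 2 ≤ 1) : IntegrableOn (fun z => Real.log (‖x z‖ ^ 2 + ‖y z‖ ^ 2)) K := by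
  refine LocallyIntegrableOn.integrableOn_isCompact (fun z hz => ?_) hK
  have hzU := hKU hz
  by_cases h0 : analyticOrderAt x z = ⊤
  · have h1 : analyticOrderAt y z ≠ ⊤ := by
      intro h2
      have h3 := analyticOrderAt_eq_top.1 h0
      have h4 := analyticOrderAt_eq_top.1 h2
      obtain ⟨w, hw1, hw2, hw3⟩ := ((hne z hzU).and ((h3.filter_mono nhdsWithin_le_nhds).and (h4.filter_mono nhdsWithin_le_nhds))).exists
      rcases hw1 with hw1 | hw1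
      · exact hw1 hw2
      · exact hw1 hw3
    have := log_at h.symm hK.measurableSet hKU hy1 hx1 hzU h1
    refine this.congr (Eventually.of_forall fun w => ?_) |>.mono_measure le_rfl
    simp only [add_comm]
  · exact log_at h hK.measurableSet hKU hx1 hy1 hzU h0

theorem ne_ae (h : Crd U x y) (hne : ∀ z ∈ U, ∀ᶠ w in 𝓝[≠] z, x w ≠ 0 ∨ y w ≠ 0) : ∀ᵐ z : ℂ, z ∈ U → x z ≠ 0 ∨ y z ≠ 0 := by
  rw [← ae_restrict_iff' h.isOpen.measurableSet]
  have h1 : {z | x z ≠ 0 ∨ y z ≠ 0} ∈ codiscreteWithin U := by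
    rw [mem_codiscreteWithin_iff_forall_mem_nhdsNE]
    intro z hz
    filter_upwards [hne z hz] with w hw
    exact Or.inl hw
  exact ae_restrict_le_codiscreteWithin h.isOpen.measurableSet h1

/-- the mean of the potential is bounded below, uniformly in `ε` -/
theorem avg_lb (h : Crd U x y) (hne : ∀ z ∈ U, ∀ᶠ w in 𝓝[≠] z, x w ≠ 0 ∨ y w ≠ 0) {a b : ℝ} (hb0 : 0 ≤ b) (hab : a < b) (hb : b < 1) {p q : ℝ}
    (hp : 0 < p) (hp1 : p ≤ 1) (hq : 0 < q) (hq1 : q ≤ 1) :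
    ∃ C : ℝ, 0 ≤ C ∧ ∀ ε, 0 < ε → ε ≤ 1 → -C ≤ avg 1 (fun z => cut U x y a b z ^ 2 * ps x y ε p q z) := by
  set K := Kb U x y b ∩ closedBall 0 (Real.exp 1 * 1) with hK
  have hKc : IsCompact K := (isCompact_closedBall _ _).inter_left (closed_Kb h hb0 hb)
  have hi := log_int h hne hKc (fun z hz => hz.1.1) (fun z hz => hz.1.2.1.trans hb.le) (fun z hz => hz.1.2.2.trans hb.le)
  have hi2 : IntegrableOn (fun z => rhoR 1 z * |Real.log (‖x z‖ ^ 2 + ‖y z‖ ^ 2)|) K :=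
    IntegrableOn.continuousOn_mul (continuous_rhoR 1).continuousOn hi.norm hKc
  refine ⟨∫ z in K, rhoR 1 z * |Real.log (‖x z‖ ^ 2 + ‖y z‖ ^ 2)|, integral_nonneg fun z => mul_nonneg (rhoR_nonneg _ _) (abs_nonneg _), fun ε hε hε1 => ?_⟩
  unfold avg
  rw [neg_le, ← integral_neg, ← integral_indicator hKc.measurableSet]
  have hc : Continuous fun z => cut U x y a b z ^ 2 * ps x y ε p q z :=
    cut_mul_cont h hb0 hab hb fun z hz => (ps_cd hε (h.ax hz) (h.ay hz)).continuousAt.continuousWithinAt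
  refine integral_mono_ae ?_ ((integrable_indicator_iff hKc.measurableSet).2 hi2) ?_
  · exact (((continuous_rhoR 1).mul hc).integrable_of_hasCompactSupport (hcs_rhoR le_rfl).mul_right).neg
  · filter_upwards [ne_ae h hne] with z hz
    by_cases hzK : z ∈ K
    · rw [Set.indicator_of_mem hzK]
      have hzU := hzK.1.1
      have hx1 : ‖x z‖ ^ 2 ≤ 1 := hzK.1.2.1.trans hb.le
      have hy1 : ‖y z‖ ^ 2 ≤ 1 := hzK.1.2.2.trans hb.le
      have hpos : 0 < ‖x z‖ ^ 2 + ‖y z‖ ^ 2 := by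
        rcases hz hzU with h1 | h1
        · have := norm_pos_iff.2 h1
          positivity
        · have := norm_pos_iff.2 h1
          positivity
      have h2 : Real.log (‖x z‖ ^ 2 + ‖y z‖ ^ 2) ≤ ps x y ε p q z := Real.log_le_log hpos (add_le_add (le_pw hε hp hp1 hx1) (le_pw hε hq hq1 hy1))
      have h3 := cut_nonneg (U := U) (x := x) (y := y) a b z
      have h4 : cut U x y a b z ^ 2 ≤ 1 := pow_le_one₀ h3 (cut_le_one _ _ _)
      have h5 := neg_abs_le (Real.log (‖x z‖ ^ 2 + ‖y z‖ ^ 2))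
      have h6 := abs_nonneg (Real.log (‖x z‖ ^ 2 + ‖y z‖ ^ 2))
      have h7 : -(cut U x y a b z ^ 2 * ps x y ε p q z) ≤ |Real.log (‖x z‖ ^ 2 + ‖y z‖ ^ 2)| := by
        nlinarith [sq_nonneg (cut U x y a b z), mul_le_mul_of_nonneg_left h2 (sq_nonneg (cut U x y a b z)), mul_le_mul_of_nonneg_right h4 h6,
          mul_le_mul_of_nonneg_left h5 (sq_nonneg (cut U x y a b z))]
      have := mul_le_mul_of_nonneg_left h7 (rhoR_nonneg 1 z)
      linarith
    · rw [Set.indicator_of_notMem hzK]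
      by_cases h1 : z ∈ Kb U x y b
      · have h2 : z ∉ closedBall (0 : ℂ) (Real.exp 1 * 1) := fun h3 => hzK ⟨h1, h3⟩
        rw [mem_closedBall_zero_iff, not_le] at h2
        rw [rhoR_eq_zero le_rfl (Or.inr h2.le)]
        simp
      · rw [cut_eq_zero hab h1]
        simp

theorem cut_symm (a b : ℝ) (z : ℂ) : cut U y x a b z = cut U x y a b z := by
  unfold cut
  split_ifs
  · ring
  · rfl

theorem tn_cont (h : Crd U x y) {ε p q : ℝ} (hε : 0 < ε) : ContinuousOn (tn x y ε p q) U := by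
  have cx := h.hx.continuousOn
  have cy := h.hy.continuousOn
  have dx := deriv_cont h
  have dy := deriv_cont h.symm
  have c1 : ContinuousOn (pw x ε p) U := fun z hz => (pw_cd hε (h.ax hz)).continuousAt.continuousWithinAt
  have c2 : ContinuousOn (pw y ε q) U := fun z hz => (pw_cd hε (h.ay hz)).continuousAt.continuousWithinAt
  have hw : ContinuousOn (wv x y ε p q) U := by
    unfold wv
    refine ContinuousOn.sub (ContinuousOn.div (continuousOn_const.mul (cx.mul (Complex.continuous_conj.comp_continuousOn dx)))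
      (Complex.continuous_ofReal.comp_continuousOn ((cx.norm.pow 2).add continuousOn_const)) fun z _ => ?_)
      (ContinuousOn.div (continuousOn_const.mul (cy.mul (Complex.continuous_conj.comp_continuousOn dy)))
      (Complex.continuous_ofReal.comp_continuousOn ((cy.norm.pow 2).add continuousOn_const)) fun z _ => ?_)
    · exact Complex.ofReal_ne_zero.2 (by positivity)
    · exact Complex.ofReal_ne_zero.2 (by positivity)
  unfold tn
  refine ((c1.mul c2).div ((c1.add c2).pow 2) fun z _ => ?_).mul (hw.norm.pow 2)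
  exact pow_ne_zero _ (add_pos (pw_pos hε z) (pw_pos hε z)).ne'

/-- the uniform energy estimate -/
theorem enT_eps (h : Crd U x y) (hne : ∀ z ∈ U, ∀ᶠ w in 𝓝[≠] z, x w ≠ 0 ∨ y w ≠ 0) (hl0 : ∀ z, 0 ≤ l z)
    (hl : ∀ R, 1 ≤ R → Integrable fun z => tau R z * l z ^ 2) {B : ℝ} {e : ℝ → ℝ} (he : ∀ R, 1 ≤ R → 1 ≤ e R)
    (hB : ∀ R, 1 ≤ R → ∫ z, tau R z * l z ^ 2 ≤ B * e R) {a b : ℝ} (ha0 : 0 < a) (hb0 : 0 ≤ b) (hab : a < b) (hb : b < 1)
    (hbd : ∃ D : ℝ, ∀ z ∈ Kb U x y b, ‖deriv x z‖ ≤ D * l z ∧ ‖deriv y z‖ ≤ D * l z) {p q : ℝ}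
    (hp : 0 < p) (hp1 : p ≤ 1) (hq : 0 < q) (hq1 : q ≤ 1) :
    ∃ C : ℝ, 0 ≤ C ∧ ∀ ε, 0 < ε → ε ≤ 1 → ∀ R, 1 ≤ R → ∫ z, tau R z * (cut U x y a b z ^ 2 * tn x y ε p q z) ≤ C * e R := by
  obtain ⟨C1, hC10, hC1⟩ := cut_bd h hl0 hb0 hab hb hbd
  obtain ⟨CX, hCX0, hCX⟩ := enR_eps h hl0 hl he hB hb0 hab hb hbd h.hx (fun z hz => hz.2.1.trans hb.le) hp hp1
  obtain ⟨CY, hCY0, hCY'⟩ := enR_eps h hl0 hl he hB hb0 hab hb hbd h.hy (fun z hz => hz.2.2.trans hb.le) hq hq1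
  obtain ⟨C3, hC30, hC3⟩ := avg_lb h hne hb0 hab hb hp hp1 hq hq1
  have hB0 : 0 ≤ B * e 1 := (integral_nonneg fun z => mul_nonneg (tau_nonneg le_rfl z) (sq_nonneg _)).trans (hB 1 le_rfl)
  have hB1 : 0 ≤ B := by
    by_contra hn
    have := he 1 le_rfl
    nlinarith [not_le.1 hn]
  set C0 := max (Real.log 4) (-Real.log a) with hC0
  have hC00 : 0 ≤ C0 := (Real.log_nonneg (by norm_num)).trans (le_max_left _ _)
  have hl4 : 0 ≤ Real.log 4 := Real.log_nonneg (by norm_num)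
  refine ⟨(2 * Real.pi * Real.log 4 + C3 + (4 * C0 + 2) * C1 * B + 32 / a ^ 2 * (CX + CY)) / 4, by positivity, fun ε hε hε1 R hR => ?_⟩
  have hup : ∀ z ∈ Kb U x y b, ps x y ε p q z ≤ Real.log 4 := by
    intro z hz
    have h1 := pw_le_two hε hε1 hp hp1 (hz.2.1.trans hb.le)
    have h2 := pw_le_two hε hε1 hq hq1 (hz.2.2.trans hb.le)
    have h3 := pw_pos (x := x) (a := p) hε z
    have h4 := pw_pos (x := y) (a := q) hε z
    exact Real.log_le_log (by linarith) (by linarith)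
  have hlow : ∀ z ∈ Kb U x y b, ¬ Inn x y a z → a ≤ pw x ε p z + pw y ε q z := by
    intro z hz hi
    have h3 := pw_pos (x := x) (a := p) hε z
    have h4 := pw_pos (x := y) (a := q) hε z
    by_cases h5 : ‖x z‖ ^ 2 < a
    · have h6 : a ≤ ‖y z‖ ^ 2 := by
        by_contra h7
        exact hi ⟨h5, not_le.1 h7⟩
      have := le_pw hε hq hq1 (hz.2.2.trans hb.le)
      linarith
    · have := le_pw hε hp hp1 (hz.2.1.trans hb.le)
      linarith [not_lt.1 h5]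
  have c1 : Continuous fun z => cut U x y a b z ^ 2 * tn x y ε p q z := cut_mul_cont h hb0 hab hb (tn_cont h hε)
  have c2 : Continuous fun z => cut U x y a b z ^ 2 * dn x ε p z := cut_mul_cont h hb0 hab hb (dn_cont h hε)
  have c3 : Continuous fun z => cut U x y a b z ^ 2 * dn y ε q z := cut_mul_cont h hb0 hab hb (dn_cont h.symm hε)
  have key := core_int (R := R) hl hB (G := fun z => cut U x y a b z ^ 2 * ps x y ε p q z) (P := fun z => 4 * (cut U x y a b z ^ 2 * tn x y ε p q z))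
    (Q := fun z => 32 / a ^ 2 * (cut U x y a b z ^ 2 * dn x ε p z + cut U x y a b z ^ 2 * dn y ε q z))
    (cut_mul_cd h hb0 hab hb fun z hz => ps_cd hε (h.ax hz) (h.ay hz)) (continuous_const.mul c1) (continuous_const.mul (c2.add c3)) (C := (4 * C0 + 2) * C1)
    (C2 := Real.log 4) (C3 := C3) (by positivity) (fun z => ?_) (cut_mul_le hab hl4 hup) (hC3 ε hε hε1) hR
  · have e1 : ∫ z, tau R z * (4 * (cut U x y a b z ^ 2 * tn x y ε p q z)) = 4 * ∫ z, tau R z * (cut U x y a b z ^ 2 * tn x y ε p q z) := by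
      rw [← integral_const_mul]
      refine integral_congr_ae (Eventually.of_forall fun z => ?_)
      ring
    have e2 : ∫ z, tau R z * (32 / a ^ 2 * (cut U x y a b z ^ 2 * dn x ε p z + cut U x y a b z ^ 2 * dn y ε q z)) =
        32 / a ^ 2 * ((∫ z, tau R z * (cut U x y a b z ^ 2 * dn x ε p z)) + ∫ z, tau R z * (cut U x y a b z ^ 2 * dn y ε q z)) := by
      rw [← integral_add (tau_int hR c2) (tau_int hR c3), ← integral_const_mul]
      refine integral_congr_ae (Eventually.of_forall fun z => ?_)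
      ring
    rw [e1, e2] at key
    have he' := he R hR
    have k1 := hCX ε hε hε1 R hR
    have k2 := hCY' ε hε hε1 R hR
    have k3 := mul_le_mul_of_nonneg_left (add_le_add k1 k2) (show 0 ≤ 32 / a ^ 2 by positivity)
    have k4 : 2 * Real.pi * Real.log 4 + C3 ≤ (2 * Real.pi * Real.log 4 + C3) * e R := by
      have : 0 ≤ 2 * Real.pi * Real.log 4 + C3 := by positivity
      nlinarith
    nlinarith
  · show 4 * (cut U x y a b z ^ 2 * tn x y ε p q z) ≤ Δ (fun z => cut U x y a b z ^ 2 * ps x y ε p q z) z + (4 * C0 + 2) * C1 * l z ^ 2 +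
      32 / a ^ 2 * (cut U x y a b z ^ 2 * dn x ε p z + cut U x y a b z ^ 2 * dn y ε q z)
    have n1 := dn_nonneg (x := x) (a := p) hε z
    have n2 := dn_nonneg (x := y) (a := q) hε z
    by_cases hz : z ∈ U
    · have h1 := core_pt h hb0 hab hb hC10 hC1 hz (ps_cd (p := p) (q := q) hε (h.ax hz) (h.ay hz)) (C0 := C0) (θ := 1) (H := 16 / a ^ 2 * (dn x ε p z + dn y ε q z))
        one_pos hC00 (by positivity) (fun hK hi => ?_)
      · have h2 := ps_lap_ge hε hp hq (h.ax hz) (h.ay hz)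
        have h3 := mul_le_mul_of_nonneg_left h2 (sq_nonneg (cut U x y a b z))
        have e3 : (4 * C0 + 2 / 1) * C1 * l z ^ 2 = (4 * C0 + 2) * C1 * l z ^ 2 := by ring
        have e4 : 2 * 1 * cut U x y a b z ^ 2 * (16 / a ^ 2 * (dn x ε p z + dn y ε q z)) =
          32 / a ^ 2 * (cut U x y a b z ^ 2 * dn x ε p z + cut U x y a b z ^ 2 * dn y ε q z) := by ring
        rw [e3, e4] at h1
        linarith
      · have h4 := hlow z hK hi
        have h5 := hup z hK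
        have h6 : Real.log a ≤ ps x y ε p q z := Real.log_le_log ha0 h4
        refine ⟨?_, ps_gg_le hε hε1 hp hp1 hq hq1 (h.ax hz) (h.ay hz) (hK.2.1.trans hb.le) (hK.2.2.trans hb.le) ha0 h4⟩
        rw [abs_le]
        constructor
        · have := le_max_right (Real.log 4) (-Real.log a)
          linarith
        · exact h5.trans (le_max_left _ _)
    · have hK : z ∉ Kb U x y b := fun hK => hz hK.1
      have e1 := cut_mul_zero h hb0 hab hb (ps x y ε p q) hK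
      have e2 : Δ (fun w => cut U x y a b w ^ 2 * ps x y ε p q w) z = 0 := by
        rw [lap_congr e1]
        simp [InnerProductSpace.laplacian_const]
      rw [e2, cut_eq_zero hab hK]
      have : 0 ≤ (4 * C0 + 2) * C1 * l z ^ 2 := by positivity
      have e5 : (4 : ℝ) * (0 ^ 2 * tn x y ε p q z) = 0 := by ring
      have e6 : 32 / a ^ 2 * ((0 : ℝ) ^ 2 * dn x ε p z + 0 ^ 2 * dn y ε q z) = 0 := by ring
      rw [e5, e6]
      linarith

theorem meas_ne2 (h : Crd U x y) {r : ℝ} (hr : r < 1) : MeasurableSet (Kr U x y r ∩ {z | x z ≠ 0 ∧ y z ≠ 0}) := by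
  have h1 := meas_ne h hr
  have h2 := meas_ne h.symm hr
  have h3 : Kr U x y r ∩ {z | x z ≠ 0 ∧ y z ≠ 0} = (Kr U x y r ∩ {z | x z ≠ 0}) ∩ (Kr U y x r ∩ {z | y z ≠ 0}) := by
    ext z
    constructor
    · rintro ⟨h4, h5, h6⟩
      exact ⟨⟨h4, h5⟩, ⟨h4.1, h4.2.2, h4.2.1⟩, h6⟩
    · rintro ⟨⟨h4, h5⟩, _, h6⟩
      exact ⟨h4, h5, h6⟩
  rw [h3]
  exact h1.inter h2

theorem wv_lim {p q : ℝ} {z : ℂ} (hx : x z ≠ 0) (hy : y z ≠ 0) :
    Tendsto (fun n : ℕ => ‖wv x y (1 / ((n : ℝ) + 1)) p q z‖ ^ 2) atTop (𝓝 (‖(p : ℂ) * (deriv x z / x z) - q * (deriv y z / y z)‖ ^ 2)) := by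
  have hA : ∀ (f : ℂ → ℂ) (s : ℝ), f z ≠ 0 → Tendsto (fun n : ℕ => (s : ℂ) * (f z * (starRingEnd ℂ) (deriv f z)) / ((‖f z‖ ^ 2 + 1 / ((n : ℝ) + 1) : ℝ) : ℂ)) atTop
      (𝓝 ((starRingEnd ℂ) ((s : ℂ) * (deriv f z / f z)))) := by
    intro f s hf
    have h1 : Tendsto (fun n : ℕ => ‖f z‖ ^ 2 + 1 / ((n : ℝ) + 1)) atTop (𝓝 (‖f z‖ ^ 2 + 0)) := tendsto_one_div_add_atTop_nhds_zero_nat.const_add _
    rw [add_zero] at h1
    have h2 : Tendsto (fun n : ℕ => ((‖f z‖ ^ 2 + 1 / ((n : ℝ) + 1) : ℝ) : ℂ)) atTop (𝓝 ((‖f z‖ ^ 2 : ℝ) : ℂ)) := (Complex.continuous_ofReal.tendsto _).comp h1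
    have hne : ((‖f z‖ ^ 2 : ℝ) : ℂ) ≠ 0 := Complex.ofReal_ne_zero.2 (by positivity)
    have h3 := (tendsto_const_nhds (x := (s : ℂ) * (f z * (starRingEnd ℂ) (deriv f z)))).div h2 hne
    have h4 : (s : ℂ) * (f z * (starRingEnd ℂ) (deriv f z)) / ((‖f z‖ ^ 2 : ℝ) : ℂ) = (starRingEnd ℂ) ((s : ℂ) * (deriv f z / f z)) := by
      have h5 : ((‖f z‖ ^ 2 : ℝ) : ℂ) = f z * (starRingEnd ℂ) (f z) := by
        rw [Complex.mul_conj, Complex.normSq_eq_norm_sq]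
      have h6 : (starRingEnd ℂ) (f z) ≠ 0 := (map_ne_zero _).2 hf
      rw [h5, map_mul, map_div₀, Complex.conj_ofReal]
      field_simp
    rwa [h4] at h3
  have h1 := (hA x p hx).sub (hA y q hy)
  rw [← map_sub] at h1
  have h2 := h1.norm.pow 2
  rw [RCLike.norm_conj] at h2
  exact h2

theorem pw_lim {p : ℝ} {z : ℂ} (hx : x z ≠ 0) : Tendsto (fun n : ℕ => pw x (1 / ((n : ℝ) + 1)) p z) atTop (𝓝 (‖x z‖ ^ (2 * p))) := by
  have hx0 : 0 < ‖x z‖ := norm_pos_iff.2 hx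
  have h1 : Tendsto (fun n : ℕ => ‖x z‖ ^ 2 + 1 / ((n : ℝ) + 1)) atTop (𝓝 (‖x z‖ ^ 2 + 0)) := tendsto_one_div_add_atTop_nhds_zero_nat.const_add _
  rw [add_zero] at h1
  have h2 := h1.rpow_const (p := p) (Or.inl (by positivity))
  have h3 : (‖x z‖ ^ 2) ^ p = ‖x z‖ ^ (2 * p) := by
    rw [← Real.rpow_natCast, ← Real.rpow_mul hx0.le]
    norm_num
  rw [h3] at h2
  exact h2

/-- **the energy estimate of the coordinate of an exceptional curve** -/
theorem enTK (h : Crd U x y) (hne : ∀ z ∈ U, ∀ᶠ w in 𝓝[≠] z, x w ≠ 0 ∨ y w ≠ 0) {e : ℝ → ℝ} (he : ∀ R, 1 ≤ R → 1 ≤ e R)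
    (hE : ∀ r : ℝ, r < 1 → ∃ B : ℝ, ∀ R, 1 ≤ R → ∫ z, tau R z * ed x y (Kr U x y r) z ≤ B * e R) {p q r : ℝ} (hp : 0 < p) (hp1 : p ≤ 1) (hq : 0 < q) (hq1 : q ≤ 1) (hr : r < 1) : ∃ C : ℝ, 0 ≤ C ∧ ∀ R, 1 ≤ R →
      Integrable (fun z => tau R z * (Kr U x y r ∩ {z | x z ≠ 0 ∧ y z ≠ 0}).indicator (fun z => ‖x z‖ ^ (2 * p) * ‖y z‖ ^ (2 * q) /
        (‖x z‖ ^ (2 * p) + ‖y z‖ ^ (2 * q)) ^ 2 * ‖(p : ℂ) * (deriv x z / x z) - q * (deriv y z / y z)‖ ^ 2) z) ∧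
      ∫ z, tau R z * (Kr U x y r ∩ {z | x z ≠ 0 ∧ y z ≠ 0}).indicator (fun z => ‖x z‖ ^ (2 * p) * ‖y z‖ ^ (2 * q) /
        (‖x z‖ ^ (2 * p) + ‖y z‖ ^ (2 * q)) ^ 2 * ‖(p : ℂ) * (deriv x z / x z) - q * (deriv y z / y z)‖ ^ 2) z ≤ C * e R := by
  obtain ⟨a, b, hb0, hab, hb, ha0, hra⟩ := exists_par hr
  obtain ⟨l, hl0, hl, ⟨B, hB⟩, hbd⟩ := exists_l h hE hb0 hb
  obtain ⟨C, hC0, hC⟩ := enT_eps h hne hl0 hl he hB ha0 hb0 hab hb hbd hp hp1 hq hq1
  refine ⟨C, hC0, fun R hR => ?_⟩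
  have hT := meas_ne2 h hr
  have hε : ∀ n : ℕ, 0 < 1 / ((n : ℝ) + 1) := fun n => by positivity
  have hε1 : ∀ n : ℕ, 1 / ((n : ℝ) + 1) ≤ 1 := fun n => by
    rw [div_le_one (by positivity)]
    linarith [(Nat.cast_nonneg n : (0 : ℝ) ≤ n)]
  have he' := he R hR
  refine fatou_real (S := Kr U x y r ∩ {z | x z ≠ 0 ∧ y z ≠ 0}) (f := fun n z => tau R z * (cut U x y a b z ^ 2 * tn x y (1 / ((n : ℝ) + 1)) p q z)) (by positivity)
    (fun n => tau_int hR (cut_mul_cont h hb0 hab hb (tn_cont h (hε n)))) (fun n z => mul_nonneg (tau_nonneg hR z) (mul_nonneg (sq_nonneg _) (tn_nonneg (hε n) z)))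
    (fun n => hC _ (hε n) (hε1 n) R hR) ?_ (fun z => mul_nonneg (tau_nonneg hR z) (Set.indicator_nonneg (fun z _ => by positivity) z)) (fun z hz => ?_) fun z hz => ?_
  · refine (contDiff_tau R).continuous.aestronglyMeasurable.mul (meas_ind hT ?_)
    have hsub : Kr U x y r ∩ {z | x z ≠ 0 ∧ y z ≠ 0} ⊆ U := fun z hz => hz.1.1
    have cx := h.hx.continuousOn.mono hsub
    have cy := h.hy.continuousOn.mono hsub
    have dx := (deriv_cont h).mono hsub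
    have dy := (deriv_cont h.symm).mono hsub
    have c1 := cx.norm.rpow_const (p := 2 * p) fun z hz => Or.inl (norm_ne_zero_iff.2 hz.2.1)
    have c2 := cy.norm.rpow_const (p := 2 * q) fun z hz => Or.inl (norm_ne_zero_iff.2 hz.2.2)
    refine ((c1.mul c2).div ((c1.add c2).pow 2) fun z hz => ?_).mul
      (((continuousOn_const.mul (dx.div cx fun z hz => hz.2.1)).sub (continuousOn_const.mul (dy.div cy fun z hz => hz.2.2))).norm.pow 2)
    exact pow_ne_zero _ (add_pos (Real.rpow_pos_of_pos (norm_pos_iff.2 hz.2.1) (2 * p)) (Real.rpow_pos_of_pos (norm_pos_iff.2 hz.2.2) (2 * q))).ne'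
  · rw [Set.indicator_of_notMem hz, mul_zero]
  · rw [Set.indicator_of_mem hz]
    refine Tendsto.const_mul _ ?_
    simp only [cut_Kr h hab hra hz.1, one_pow, one_mul]
    unfold tn
    have h1 := Real.rpow_pos_of_pos (norm_pos_iff.2 hz.2.1) (2 * p)
    have h2 := Real.rpow_pos_of_pos (norm_pos_iff.2 hz.2.2) (2 * q)
    exact (((pw_lim hz.2.1).mul (pw_lim hz.2.2)).div (((pw_lim hz.2.1).add (pw_lim hz.2.2)).pow 2) (by positivity)).mul (wv_lim hz.2.1 hz.2.2)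

/-- **EnT** -/
theorem enT {N : ℕ} {F : ℂ → EN N} (h : Crds U x y l) (hne : ∀ z ∈ U, ∀ᶠ w in 𝓝[≠] z, x w ≠ 0 ∨ y w ≠ 0) (hl : Continuous l)
    (hB : ∃ B : ℝ, ∀ R, 1 ≤ R → ∫ z, tau R z * l z ^ 2 ≤ B * (En F R + 1)) {p q r : ℝ} (hp : 0 < p) (hp1 : p ≤ 1) (hq : 0 < q) (hq1 : q ≤ 1) (hr : r < 1) :
    ∃ C : ℝ, 0 ≤ C ∧ ∀ R, 1 ≤ R →
      Integrable (fun z => tau R z * (Kr U x y r ∩ {z | x z ≠ 0 ∧ y z ≠ 0}).indicator (fun z => ‖x z‖ ^ (2 * p) * ‖y z‖ ^ (2 * q) /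
        (‖x z‖ ^ (2 * p) + ‖y z‖ ^ (2 * q)) ^ 2 * ‖(p : ℂ) * (deriv x z / x z) - q * (deriv y z / y z)‖ ^ 2) z) ∧
      ∫ z, tau R z * (Kr U x y r ∩ {z | x z ≠ 0 ∧ y z ≠ 0}).indicator (fun z => ‖x z‖ ^ (2 * p) * ‖y z‖ ^ (2 * q) /
        (‖x z‖ ^ (2 * p) + ‖y z‖ ^ (2 * q)) ^ 2 * ‖(p : ℂ) * (deriv x z / x z) - q * (deriv y z / y z)‖ ^ 2) z ≤ C * (En F R + 1) := by
  obtain ⟨B, hB⟩ := hB
  exact enTK h.crd hne (e := fun R => En F R + 1) (one_le_En F) (h.energy hl (e := fun R => En F R + 1) hB) hp hp1 hq hq1 hr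

end Pool.Agent.MQ3
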