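import Pool.Agent.MQ3.EnK
import Pool.Agent.MQ3.EnL

/-!
# MQ3 EnU: the energy estimates with constants which do not depend on the curve
-/

set_option autoImplicit false

open MeasureTheory Topology Filter Metric Laplacian

noncomputable section

namespace Pool.Agent.MQ3

open Pool.Agent.MQ
open Pool.Agent.H30M (tau rhoR avg rho gg lap_comp lap_mul lap_add lap_congr gg_congr gg_sq_le gg_self_nonneg gg_comm gg_comp green_tau tau_nonneg contDiff_tau
  hcs_tau rhoR_nonneg continuous_rhoR hcs_rhoR int_rhoR abs_gg_le)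

/-- the energy of `f` on `S` is at most `A` times `e`, up to a constant -/
def EU (A : ℝ) (e : ℝ → ℝ) (S : Set ℂ) (f : ℂ → ℝ) : Prop :=
  ∃ K : ℝ, ∀ R, 1 ≤ R → Integrable (fun z => tau R z * S.indicator f z) ∧ ∫ z, tau R z * S.indicator f z ≤ A * e R + K

/-- comparison with finitely many energies -/
theorem EU.of_cover {e : ℝ → ℝ} {ι : Type*} (s : Finset ι) {A : ι → ℝ} {S : ι → Set ℂ} {f : ι → ℂ → ℝ} {T : Set ℂ} {g : ℂ → ℝ} {D : ℝ}
    (hS : ∀ j ∈ s, EU (A j) e (S j) (f j)) (hf : ∀ j ∈ s, ∀ z ∈ S j, 0 ≤ f j z) (hD : 0 ≤ D) (hg : AEStronglyMeasurable (T.indicator g)) (hg0 : ∀ z ∈ T, 0 ≤ g z)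
    (h : ∀ z ∈ T, ∃ j ∈ s, z ∈ S j ∧ g z ≤ D * f j z) : EU (D * ∑ j ∈ s, A j) e T g := by
  choose! C hC using hS
  have key : ∀ R, 1 ≤ R → ∀ z, tau R z * T.indicator g z ≤ D * ∑ j ∈ s, tau R z * (S j).indicator (f j) z := by
    intro R hR z
    have hτ := tau_nonneg hR z
    have h0 : ∀ j ∈ s, 0 ≤ tau R z * (S j).indicator (f j) z := by
      intro j hj
      refine mul_nonneg hτ ?_
      by_cases hz : z ∈ S j
      · rw [Set.indicator_of_mem hz]
        exact hf j hj z hz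
      · rw [Set.indicator_of_notMem hz]
    by_cases hz : z ∈ T
    · obtain ⟨j, hj, hzj, hle⟩ := h z hz
      have h1 : tau R z * (S j).indicator (f j) z ≤ ∑ j ∈ s, tau R z * (S j).indicator (f j) z := Finset.single_le_sum h0 hj
      rw [Set.indicator_of_mem hzj] at h1
      rw [Set.indicator_of_mem hz]
      calc tau R z * g z ≤ tau R z * (D * f j z) := mul_le_mul_of_nonneg_left hle hτ
        _ = D * (tau R z * f j z) := by ring
        _ ≤ _ := mul_le_mul_of_nonneg_left h1 hD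
    · rw [Set.indicator_of_notMem hz, mul_zero]
      exact mul_nonneg hD (Finset.sum_nonneg h0)
  refine ⟨D * ∑ j ∈ s, C j, fun R hR => ?_⟩
  have hi : Integrable fun z => D * ∑ j ∈ s, tau R z * (S j).indicator (f j) z :=
    (integrable_finsetSum s fun j hj => (hC j hj R hR).1).const_mul D
  have h0 : ∀ z, 0 ≤ tau R z * T.indicator g z := by
    intro z
    refine mul_nonneg (tau_nonneg hR z) ?_
    by_cases hz : z ∈ T
    · rw [Set.indicator_of_mem hz]
      exact hg0 z hz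
    · rw [Set.indicator_of_notMem hz]
  have hi2 : Integrable fun z => tau R z * T.indicator g z := by
    refine hi.mono' ((contDiff_tau R).continuous.aestronglyMeasurable.mul hg) (Eventually.of_forall fun z => ?_)
    rw [Real.norm_of_nonneg (h0 z)]
    exact key R hR z
  refine ⟨hi2, (integral_mono hi2 hi (key R hR)).trans ?_⟩
  rw [integral_const_mul, integral_finsetSum s fun j hj => (hC j hj R hR).1]
  have h2 : D * ∑ j ∈ s, ∫ z, tau R z * (S j).indicator (f j) z ≤ D * ∑ j ∈ s, (A j * e R + C j) :=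
    mul_le_mul_of_nonneg_left (Finset.sum_le_sum fun j hj => (hC j hj R hR).2) hD
  refine h2.trans (le_of_eq ?_)
  rw [Finset.sum_add_distrib, ← Finset.sum_mul]
  ring

/-- comparison with one energy -/
theorem EU.of_le {e : ℝ → ℝ} {A : ℝ} {S T : Set ℂ} {f g : ℂ → ℝ} {D : ℝ} (hS : EU A e S f) (hf : ∀ z ∈ S, 0 ≤ f z) (hD : 0 ≤ D)
    (hg : AEStronglyMeasurable (T.indicator g)) (hg0 : ∀ z ∈ T, 0 ≤ g z) (hTS : T ⊆ S) (h : ∀ z ∈ T, g z ≤ D * f z) : EU (D * A) e T g := by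
  have := EU.of_cover {()} (A := fun _ => A) (S := fun _ => S) (f := fun _ => f) (D := D) (fun _ _ => hS) (fun _ _ => hf) hD hg hg0
    fun z hz => ⟨(), by simp, hTS hz, h z hz⟩
  simpa using this

theorem EU.mono {e : ℝ → ℝ} (he : ∀ R, 1 ≤ R → 0 ≤ e R) {A A' : ℝ} (hA : A ≤ A') {S : Set ℂ} {f : ℂ → ℝ} (h : EU A e S f) : EU A' e S f := by
  obtain ⟨K, hK⟩ := h
  refine ⟨K, fun R hR => ⟨(hK R hR).1, (hK R hR).2.trans ?_⟩⟩
  have := mul_le_mul_of_nonneg_right hA (he R hR)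
  linarith

theorem EU.empty {e : ℝ → ℝ} {f : ℂ → ℝ} : EU 0 e ∅ f := by
  refine ⟨0, fun R _ => ?_⟩
  simp

/-! ## polydiscs -/

/-- bounds for the cut-off; the constant does not depend on the curve -/
theorem cut_bdU {a b : ℝ} (hb0 : 0 ≤ b) (hab : a < b) (hb : b < 1) (D : ℝ) : ∃ C : ℝ, 0 ≤ C ∧ ∀ (U : Set ℂ) (x y : ℂ → ℂ) (l : ℂ → ℝ),
    Crd U x y → (∀ z, 0 ≤ l z) → (∀ z ∈ Kb U x y b, ‖deriv x z‖ ≤ D * l z ∧ ‖deriv y z‖ ≤ D * l z) → ∀ z,
      gg (cut U x y a b) (cut U x y a b) z ≤ C * l z ^ 2 ∧ |Δ (cut U x y a b) z| ≤ C * l z ^ 2 := by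
  obtain ⟨E, hE0, hE⟩ := et_bd a b
  refine ⟨64 * (E + 1) ^ 2 * D ^ 2, by positivity, fun U x y l h hl0 hD z => ?_⟩
  by_cases hz : z ∈ Kb U x y b
  · obtain ⟨dx, dy⟩ := hD z hz
    obtain ⟨hzU, hx1, hy1⟩ := hz
    set u : ℂ → ℝ := fun w => ‖x w‖ ^ 2 with hu
    set v : ℂ → ℝ := fun w => ‖y w‖ ^ 2 with hv
    have cu : ContDiffAt ℝ 2 u z := cd_sq (h.ax hzU)
    have cv : ContDiffAt ℝ 2 v z := cd_sq (h.ay hzU)
    have du := cu.differentiableAt (by norm_num)
    have dv := cv.differentiableAt (by norm_num)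
    have ce := (et_cd a b).contDiffAt (x := u z)
    have ce' := (et_cd a b).contDiffAt (x := v z)
    have de := ce.differentiableAt (by norm_num)
    have de' := ce'.differentiableAt (by norm_num)
    have hu0 : 0 ≤ u z := by positivity
    have hv0 : 0 ≤ v z := by positivity
    have hub : u z ≤ 1 := hx1.trans hb.le
    have hvb : v z ≤ 1 := hy1.trans hb.le
    obtain ⟨p1, p2⟩ := hE (u z) hu0 hub
    obtain ⟨q1, q2⟩ := hE (v z) hv0 hvb
    have hl := hl0 z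
    have nx : ‖deriv x z‖ ^ 2 ≤ D ^ 2 * l z ^ 2 := by
      rw [← mul_pow]
      exact pow_le_pow_left₀ (norm_nonneg _) dx 2
    have ny : ‖deriv y z‖ ^ 2 ≤ D ^ 2 * l z ^ 2 := by
      rw [← mul_pow]
      exact pow_le_pow_left₀ (norm_nonneg _) dy 2
    set m := D ^ 2 * l z ^ 2 with hm
    have hm0 : 0 ≤ m := (sq_nonneg _).trans nx
    -- the two factors
    set f : ℂ → ℝ := fun w => et a b (u w) with hf
    set g : ℂ → ℝ := fun w => et a b (v w) with hg
    have cf : ContDiffAt ℝ 2 f z := ce.comp z cu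
    have cg : ContDiffAt ℝ 2 g z := ce'.comp z cv
    have gu : gg u u z = 4 * u z * ‖deriv x z‖ ^ 2 := gg_sq (h.ax hzU)
    have gv : gg v v z = 4 * v z * ‖deriv y z‖ ^ 2 := gg_sq (h.ay hzU)
    have gf : gg f f z ≤ 4 * E ^ 2 * m := by
      have e1 : gg f f z = deriv (et a b) (u z) ^ 2 * gg u u z := by
        rw [gg_comp de du, gg_comm u f, gg_comp de du]
        ring
      rw [e1, gu]
      have e2 : deriv (et a b) (u z) ^ 2 ≤ E ^ 2 := sq_le_sq' (by linarith [(abs_le.1 p1).1]) (abs_le.1 p1).2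
      calc deriv (et a b) (u z) ^ 2 * (4 * u z * ‖deriv x z‖ ^ 2) ≤ E ^ 2 * (4 * 1 * m) := by gcongr
        _ = _ := by ring
    have gg' : gg g g z ≤ 4 * E ^ 2 * m := by
      have e1 : gg g g z = deriv (et a b) (v z) ^ 2 * gg v v z := by
        rw [gg_comp de' dv, gg_comm v g, gg_comp de' dv]
        ring
      rw [e1, gv]
      have e2 : deriv (et a b) (v z) ^ 2 ≤ E ^ 2 := sq_le_sq' (by linarith [(abs_le.1 q1).1]) (abs_le.1 q1).2
      calc deriv (et a b) (v z) ^ 2 * (4 * v z * ‖deriv y z‖ ^ 2) ≤ E ^ 2 * (4 * 1 * m) := by gcongr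
        _ = _ := by ring
    have lf : |Δ f z| ≤ 8 * E * m := by
      rw [lap_comp ce cu, lap_sq (h.ax hzU), gu]
      refine (abs_add_le _ _).trans ((add_le_add (abs_mul_le' p1 (by positivity) (show 4 * ‖deriv x z‖ ^ 2 ≤ 4 * m by gcongr))
        (abs_mul_le' p2 (by positivity) (show 4 * u z * ‖deriv x z‖ ^ 2 ≤ 4 * 1 * m by gcongr))).trans (le_of_eq (by ring)))
    have lg : |Δ g z| ≤ 8 * E * m := by
      rw [lap_comp ce' cv, lap_sq (h.ay hzU), gv]
      refine (abs_add_le _ _).trans ((add_le_add (abs_mul_le' q1 (by positivity) (show 4 * ‖deriv y z‖ ^ 2 ≤ 4 * m by gcongr))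
        (abs_mul_le' q2 (by positivity) (show 4 * v z * ‖deriv y z‖ ^ 2 ≤ 4 * 1 * m by gcongr))).trans (le_of_eq (by ring)))
    have f0 : 0 ≤ f z := et_nonneg _ _ _
    have f1 : f z ≤ 1 := et_le_one _ _ _
    have g0 : 0 ≤ g z := et_nonneg _ _ _
    have g1 : g z ≤ 1 := et_le_one _ _ _
    have hcut : cut U x y a b =ᶠ[𝓝 z] fun w => f w * g w := cut_ev h hzU
    have gfg : |gg f g z| ≤ 4 * E ^ 2 * m := by
      refine (Pool.Agent.H30M.abs_gg_le f g z).trans ?_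
      have s1 : √(gg f f z) * √(gg g g z) ≤ √(4 * E ^ 2 * m) * √(4 * E ^ 2 * m) := by
        gcongr
      refine s1.trans ?_
      rw [Real.mul_self_sqrt (by positivity)]
    constructor
    · rw [gg_congr hcut, gg_comm, gg_congr hcut]
      have e1 : gg (fun w => f w * g w) (fun w => f w * g w) z =
          f z ^ 2 * gg g g z + g z ^ 2 * gg f f z + 2 * (f z * g z) * gg f g z := by
        unfold gg
        rw [fderiv_fun_mul (cf.differentiableAt (by norm_num)) (cg.differentiableAt (by norm_num))]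
        simp only [add_apply, smul_apply, smul_eq_mul]
        ring
      rw [e1]
      have e2 : f z ^ 2 * gg g g z ≤ 1 ^ 2 * (4 * E ^ 2 * m) := by
        have := gg_self_nonneg g z
        gcongr
      have e3 : g z ^ 2 * gg f f z ≤ 1 ^ 2 * (4 * E ^ 2 * m) := by
        have := gg_self_nonneg f z
        gcongr
      have e4 : 2 * (f z * g z) * gg f g z ≤ 2 * (1 * 1) * (4 * E ^ 2 * m) := by
        refine (le_abs_self _).trans ?_
        rw [abs_mul, abs_of_nonneg (by positivity)]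
        gcongr
      have e5 : E ^ 2 ≤ (E + 1) ^ 2 := by nlinarith
      have : 16 * E ^ 2 * m ≤ 16 * (E + 1) ^ 2 * m := by gcongr
      have e6 : 64 * (E + 1) ^ 2 * D ^ 2 * l z ^ 2 = 64 * (E + 1) ^ 2 * m := by rw [hm]; ring
      rw [e6]
      nlinarith [mul_nonneg (sq_nonneg (E + 1)) hm0]
    · rw [lap_congr hcut, lap_mul cf cg]
      have e2 : |f z * Δ g z| ≤ 1 * (8 * E * m) := by
        rw [abs_mul, abs_of_nonneg f0]
        gcongr
      have e3 : |g z * Δ f z| ≤ 1 * (8 * E * m) := by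
        rw [abs_mul, abs_of_nonneg g0]
        gcongr
      have e4 : |2 * gg f g z| ≤ 2 * (4 * E ^ 2 * m) := by
        rw [abs_mul, abs_of_nonneg (by norm_num : (0 : ℝ) ≤ 2)]
        gcongr
      have e5 : |f z * Δ g z + g z * Δ f z + 2 * gg f g z| ≤ 1 * (8 * E * m) + 1 * (8 * E * m) + 2 * (4 * E ^ 2 * m) :=
        (abs_add_le _ _).trans (add_le_add ((abs_add_le _ _).trans (add_le_add e2 e3)) e4)
      refine e5.trans ?_
      have e6 : 64 * (E + 1) ^ 2 * D ^ 2 * l z ^ 2 = 64 * (E + 1) ^ 2 * m := by rw [hm]; ring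
      rw [e6]
      nlinarith [mul_nonneg hE0 hm0, mul_nonneg (sq_nonneg E) hm0]
  · have h0 := cut_ev_zero h hb0 hab hb hz
    have e1 : gg (cut U x y a b) (cut U x y a b) z = 0 := by
      rw [gg_congr h0]
      unfold gg
      simp
    have e2 : Δ (cut U x y a b) z = 0 := by
      rw [lap_congr h0]
      simp [InnerProductSpace.laplacian_const]
    rw [e1, e2, abs_zero]
    constructor <;> positivity


/-- the length of the derivative of the pair -/
def le' (x y : ℂ → ℂ) (S : Set ℂ) (z : ℂ) : ℝ := √(ed x y S z)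

theorem le'_sq (x y : ℂ → ℂ) (S : Set ℂ) (z : ℂ) : le' x y S z ^ 2 = ed x y S z := Real.sq_sqrt (ed_nonneg _ _)

theorem le'_bd {U : Set ℂ} {x y : ℂ → ℂ} {b : ℝ} (hb0 : 0 ≤ b) : ∀ z ∈ Kb U x y b,
    ‖deriv x z‖ ≤ 1 * le' x y (Kr U x y (√b)) z ∧ ‖deriv y z‖ ≤ 1 * le' x y (Kr U x y (√b)) z := by
  intro z hz
  rw [Kb_eq hb0] at hz
  have h3 : ed x y (Kr U x y (√b)) z = ‖deriv x z‖ ^ 2 + ‖deriv y z‖ ^ 2 := Set.indicator_of_mem hz _
  unfold le'
  simp only [h3, one_mul]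
  constructor
  · exact Real.le_sqrt_of_sq_le (by nlinarith [sq_nonneg ‖deriv y z‖])
  · exact Real.le_sqrt_of_sq_le (by nlinarith [sq_nonneg ‖deriv x z‖])

theorem sqrt_lt_one' {b : ℝ} (hb : b < 1) : √b < 1 := by
  rw [Real.sqrt_lt' one_pos]
  simpa using hb

theorem le'_int {U : Set ℂ} {x y : ℂ → ℂ} (h : Crd U x y) {b : ℝ} (hb : b < 1) {R : ℝ} (hR : 1 ≤ R) :
    Integrable fun z => tau R z * le' x y (Kr U x y (√b)) z ^ 2 := by
  simp only [le'_sq]
  exact ed_int h hR (h.closed _ (sqrt_lt_one' hb)) fun z hz => hz.1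

/-- the uniform energy estimate of one function -/
theorem enR_epsU {a b : ℝ} (hb0 : 0 ≤ b) (hab : a < b) (hb : b < 1) {p : ℝ} (hp : 0 < p) (hp1 : p ≤ 1) : ∃ A : ℝ, 0 ≤ A ∧ ∀ (U : Set ℂ) (x y : ℂ → ℂ),
    Crd U x y → ∀ v : ℂ → ℂ, DifferentiableOn ℂ v U → (∀ z ∈ Kb U x y b, ‖v z‖ ^ 2 ≤ 1) → ∀ ε, 0 < ε → ε ≤ 1 → ∀ R, 1 ≤ R →
      ∫ z, tau R z * (cut U x y a b z ^ 2 * dn v ε p z) ≤ A * (∫ z, tau R z * ed x y (Kr U x y (√b)) z) + A := by
  obtain ⟨C1, hC10, hC1'⟩ := cut_bdU hb0 hab hb 1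
  refine ⟨(2 * Real.pi * 2 + 24 * C1) / (2 * p ^ 2), by positivity, fun U x y h v hv hv1 ε hε hε1 R hR => ?_⟩
  have hC1 := hC1' U x y (le' x y (Kr U x y (√b))) h (fun z => Real.sqrt_nonneg _) (le'_bd hb0)
  obtain ⟨l, hl⟩ : ∃ l, l = le' x y (Kr U x y (√b)) := ⟨_, rfl⟩
  have hli : ∀ R, 1 ≤ R → Integrable fun z => tau R z * l z ^ 2 := fun R hR => by
    rw [hl]
    exact le'_int h hb hR
  have hE : (∫ z, tau R z * ed x y (Kr U x y (√b)) z) = ∫ z, tau R z * l z ^ 2 := by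
    rw [hl]
    simp only [le'_sq]
  rw [← hl] at hC1
  rw [hE]
  have hE0 : 0 ≤ ∫ z, tau R z * l z ^ 2 := integral_nonneg fun z => mul_nonneg (tau_nonneg hR z) (sq_nonneg _)
  have hva : ∀ z ∈ U, AnalyticAt ℂ v z := fun z hz => hv.analyticAt (h.isOpen.mem_nhds hz)
  have key := core_int (R := R) hli (B := 1) (e := fun R => ∫ z, tau R z * l z ^ 2) (fun R hR => by rw [one_mul]) (G := fun z => cut U x y a b z ^ 2 * pw v ε p z)
    (P := fun z => 2 * p ^ 2 * (cut U x y a b z ^ 2 * dn v ε p z)) (Q := fun _ => 0)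
    (cut_mul_cd h hb0 hab hb fun z hz => pw_cd hε (hva z hz)) (continuous_const.mul (cut_mul_cont h hb0 hab hb (dn_cont' h.isOpen hv hε))) continuous_const (C := 24 * C1) (C2 := 2) (C3 := 0)
    (by positivity) (fun z => ?_) (cut_mul_le hab (by norm_num) fun z hz => pw_le_two hε hε1 hp hp1 (hv1 z hz)) ?_ hR
  · have e1 : ∫ z, tau R z * (2 * p ^ 2 * (cut U x y a b z ^ 2 * dn v ε p z)) = 2 * p ^ 2 * ∫ z, tau R z * (cut U x y a b z ^ 2 * dn v ε p z) := by
      rw [← integral_const_mul]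
      refine integral_congr_ae (Eventually.of_forall fun z => ?_)
      ring
    rw [e1] at key
    simp only [mul_zero, integral_zero, add_zero, one_mul] at key
    rw [← mul_add_one, div_mul_eq_mul_div, le_div_iff₀ (by positivity)]
    have hpi := Real.pi_pos
    nlinarith [mul_nonneg (show 0 ≤ 2 * Real.pi * 2 by positivity) hE0]
  · show 2 * p ^ 2 * (cut U x y a b z ^ 2 * dn v ε p z) ≤ Δ (fun z => cut U x y a b z ^ 2 * pw v ε p z) z + 24 * C1 * l z ^ 2 + 0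
    by_cases hz : z ∈ U
    · have hD0 : 0 ≤ dn v ε p z := dn_nonneg hε z
      have h1 := core_pt h hb0 hab hb hC10 hC1 hz (pw_cd (a := p) hε (hva z hz)) (C0 := 2) (θ := 1 / 8) (H := 2 * (4 * p ^ 2 * dn v ε p z)) (by norm_num)
        (by norm_num) (by positivity) (fun hK _ => ?_)
      · have h2 := pw_lap_ge hε hp hp1 (hva z hz)
        have h3 := mul_le_mul_of_nonneg_left h2 (sq_nonneg (cut U x y a b z))
        have e3 : (4 * 2 + 2 / (1 / 8)) * C1 * l z ^ 2 = 24 * C1 * l z ^ 2 := by ring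
        rw [e3] at h1
        nlinarith
      · have hx1 : pw v ε p z ≤ 2 := pw_le_two hε hε1 hp hp1 (hv1 z hK)
        refine ⟨by rw [abs_of_pos (pw_pos hε z)]; exact hx1, (pw_gg_le hε (hva z hz)).trans ?_⟩
        exact mul_le_mul_of_nonneg_right hx1 (by positivity)
    · have hK : z ∉ Kb U x y b := fun hK => hz hK.1
      have e1 := cut_mul_zero h hb0 hab hb (pw v ε p) hK
      have e2 : Δ (fun w => cut U x y a b w ^ 2 * pw v ε p w) z = 0 := by
        rw [lap_congr e1]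
        simp [InnerProductSpace.laplacian_const]
      rw [e2, cut_eq_zero hab hK]
      have : 0 ≤ 24 * C1 * l z ^ 2 := by positivity
      nlinarith
  · rw [neg_zero]
    exact integral_nonneg fun z => mul_nonneg (rhoR_nonneg _ _) (mul_nonneg (sq_nonneg _) (pw_pos hε z).le)

/-- the energy estimate of one function; the constants do not depend on the curve -/
theorem enRVU {p r : ℝ} (hp : 0 < p) (hp1 : p ≤ 1) (hr : r < 1) : ∃ A r' : ℝ, 0 ≤ A ∧ r' < 1 ∧ ∀ (U : Set ℂ) (x y : ℂ → ℂ), Crd U x y →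
    ∀ v : ℂ → ℂ, DifferentiableOn ℂ v U → (∀ z ∈ U, ‖x z‖ < 1 → ‖y z‖ < 1 → ‖v z‖ ≤ 1) → ∀ R, 1 ≤ R →
      Integrable (fun z => tau R z * (Kr U x y r ∩ {z | v z ≠ 0}).indicator (fun z => ‖v z‖ ^ (2 * p - 2) * ‖deriv v z‖ ^ 2) z) ∧
      ∫ z, tau R z * (Kr U x y r ∩ {z | v z ≠ 0}).indicator (fun z => ‖v z‖ ^ (2 * p - 2) * ‖deriv v z‖ ^ 2) z ≤
        A * (∫ z, tau R z * ed x y (Kr U x y r') z) + A := by
  obtain ⟨a, b, hb0, hab, hb, _, hra⟩ := exists_par hr
  obtain ⟨A, hA0, hA⟩ := enR_epsU hb0 hab hb hp hp1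
  refine ⟨A, √b, hA0, sqrt_lt_one' hb, fun U x y h v hv hv1 R hR => ?_⟩
  have hT := meas_ne' (Kr_closed h hr) (hv.continuousOn.mono fun z hz => hz.1)
  have hε : ∀ n : ℕ, 0 < 1 / ((n : ℝ) + 1) := fun n => by positivity
  have hε1 : ∀ n : ℕ, 1 / ((n : ℝ) + 1) ≤ 1 := fun n => by
    rw [div_le_one (by positivity)]
    linarith [(Nat.cast_nonneg n : (0 : ℝ) ≤ n)]
  have hE0 : 0 ≤ ∫ z, tau R z * ed x y (Kr U x y (√b)) z := integral_nonneg fun z => mul_nonneg (tau_nonneg hR z) (ed_nonneg _ _)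
  have hvb : ∀ z ∈ Kb U x y b, ‖v z‖ ^ 2 ≤ 1 := fun z hz => by
    have h1 : ∀ w : ℂ, ‖w‖ ^ 2 ≤ b → ‖w‖ < 1 := fun w hw => by nlinarith [norm_nonneg w]
    exact pow_le_one₀ (norm_nonneg _) (hv1 z hz.1 (h1 _ hz.2.1) (h1 _ hz.2.2))
  refine fatou_real (S := Kr U x y r ∩ {z | v z ≠ 0}) (f := fun n z => tau R z * (cut U x y a b z ^ 2 * dn v (1 / ((n : ℝ) + 1)) p z)) (by positivity)
    (fun n => tau_int hR (cut_mul_cont h hb0 hab hb (dn_cont' h.isOpen hv (hε n)))) (fun n z => mul_nonneg (tau_nonneg hR z) (mul_nonneg (sq_nonneg _) (dn_nonneg (hε n) z)))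
    (fun n => hA U x y h v hv hvb _ (hε n) (hε1 n) R hR) ?_ (fun z => mul_nonneg (tau_nonneg hR z) (Set.indicator_nonneg (fun z _ => by positivity) z)) (fun z hz => ?_) fun z hz => ?_
  · refine (contDiff_tau R).continuous.aestronglyMeasurable.mul (meas_ind hT ?_)
    have c1 : ContinuousOn v (Kr U x y r ∩ {z | v z ≠ 0}) := hv.continuousOn.mono fun z hz => hz.1.1
    have c2 : ContinuousOn (deriv v) (Kr U x y r ∩ {z | v z ≠ 0}) := (hv.deriv h.isOpen).continuousOn.mono fun z hz => hz.1.1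
    exact (c1.norm.rpow_const fun z hz => Or.inl (norm_ne_zero_iff.2 hz.2)).mul (c2.norm.pow 2)
  · rw [Set.indicator_of_notMem hz, mul_zero]
  · rw [Set.indicator_of_mem hz]
    refine Tendsto.const_mul _ ?_
    simp only [cut_Kr h hab hra hz.1, one_pow, one_mul]
    unfold dn
    refine Tendsto.mul_const _ ?_
    have hx0 : 0 < ‖v z‖ := norm_pos_iff.2 hz.2
    have h1 : Tendsto (fun n : ℕ => ‖v z‖ ^ 2 + 1 / ((n : ℝ) + 1)) atTop (𝓝 (‖v z‖ ^ 2 + 0)) := tendsto_one_div_add_atTop_nhds_zero_nat.const_add _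
    rw [add_zero] at h1
    have h2 := h1.rpow_const (p := p - 1) (Or.inl (by positivity))
    have h3 : (‖v z‖ ^ 2) ^ (p - 1) = ‖v z‖ ^ (2 * p - 2) := by
      rw [← Real.rpow_natCast, ← Real.rpow_mul hx0.le]
      congr 1
      push_cast
      ring
    rwa [h3] at h2

/-- the uniform second energy estimate -/
theorem enT_epsU {a b : ℝ} (ha0 : 0 < a) (hb0 : 0 ≤ b) (hab : a < b) (hb : b < 1) {p q : ℝ} (hp : 0 < p) (hp1 : p ≤ 1) (hq : 0 < q) (hq1 : q ≤ 1) :
    ∃ A : ℝ, 0 ≤ A ∧ ∀ (U : Set ℂ) (x y : ℂ → ℂ), Crd U x y → (∀ z ∈ U, ∀ᶠ w in 𝓝[≠] z, x w ≠ 0 ∨ y w ≠ 0) → ∃ K : ℝ, 0 ≤ K ∧ ∀ ε, 0 < ε → ε ≤ 1 → ∀ R, 1 ≤ R →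
      ∫ z, tau R z * (cut U x y a b z ^ 2 * tn x y ε p q z) ≤ A * (∫ z, tau R z * ed x y (Kr U x y (√b)) z) + K := by
  obtain ⟨C1, hC10, hC1'⟩ := cut_bdU hb0 hab hb 1
  obtain ⟨CX, hCX0, hCX'⟩ := enR_epsU hb0 hab hb hp hp1
  obtain ⟨CY, hCY0, hCY''⟩ := enR_epsU hb0 hab hb hq hq1
  set C0 := max (Real.log 4) (-Real.log a) with hC0
  have hC00 : 0 ≤ C0 := (Real.log_nonneg (by norm_num)).trans (le_max_left _ _)
  have hl4 : 0 ≤ Real.log 4 := Real.log_nonneg (by norm_num)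
  refine ⟨((4 * C0 + 2) * C1 + 32 / a ^ 2 * (CX + CY)) / 4, by positivity, fun U x y h hne => ?_⟩
  obtain ⟨C3, hC30, hC3⟩ := avg_lb h hne hb0 hab hb hp hp1 hq hq1
  refine ⟨(2 * Real.pi * Real.log 4 + C3 + 32 / a ^ 2 * (CX + CY)) / 4, by positivity, fun ε hε hε1 R hR => ?_⟩
  have hC1 := hC1' U x y (le' x y (Kr U x y (√b))) h (fun z => Real.sqrt_nonneg _) (le'_bd hb0)
  have hCX := hCX' U x y h x h.hx fun z hz => hz.2.1.trans hb.le
  have hCY' := hCY'' U x y h y h.hy fun z hz => hz.2.2.trans hb.le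
  obtain ⟨l, hl⟩ : ∃ l, l = le' x y (Kr U x y (√b)) := ⟨_, rfl⟩
  have hli : ∀ R, 1 ≤ R → Integrable fun z => tau R z * l z ^ 2 := fun R hR => by
    rw [hl]
    exact le'_int h hb hR
  have hE : ∀ R, (∫ z, tau R z * ed x y (Kr U x y (√b)) z) = ∫ z, tau R z * l z ^ 2 := fun R => by
    rw [hl]
    simp only [le'_sq]
  rw [← hl] at hC1
  simp only [hE] at hCX hCY' ⊢
  have hup : ∀ z ∈ Kb U x y b, ps x y ε p q z ≤ Real.log 4 := by
    intro z hz
    have h1 := pw_le_two hε hε1 hp hp1 (hz.2.1.trans hb.le)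
    have h2 := pw_le_two hε hε1 hq hq1 (hz.2.2.trans hb.le)
    have h3 := pw_pos (x := x) (a := p) hε z
    have h4 := pw_pos (x := y) (a := q) hε z
    exact Real.log_le_log (by linarith) (by linarith)
  have hlow : ∀ z ∈ Kb U x y b, ¬ Inn x y a z → a ≤ pw x ε p z + pw y ε q z := by
    intro z hz hi
    have h3 := pw_pos (x := x) (a := p) hε z
    have h4 := pw_pos (x := y) (a := q) hε z
    by_cases h5 : ‖x z‖ ^ 2 < a
    · have h6 : a ≤ ‖y z‖ ^ 2 := by
        by_contra h7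
        exact hi ⟨h5, not_le.1 h7⟩
      have := le_pw hε hq hq1 (hz.2.2.trans hb.le)
      linarith
    · have := le_pw hε hp hp1 (hz.2.1.trans hb.le)
      linarith [not_lt.1 h5]
  have c1 : Continuous fun z => cut U x y a b z ^ 2 * tn x y ε p q z := cut_mul_cont h hb0 hab hb (tn_cont h hε)
  have c2 : Continuous fun z => cut U x y a b z ^ 2 * dn x ε p z := cut_mul_cont h hb0 hab hb (dn_cont h hε)
  have c3 : Continuous fun z => cut U x y a b z ^ 2 * dn y ε q z := cut_mul_cont h hb0 hab hb (dn_cont h.symm hε)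
  have key := core_int (R := R) hli (B := 1) (e := fun R => ∫ z, tau R z * l z ^ 2) (fun R hR => by rw [one_mul]) (G := fun z => cut U x y a b z ^ 2 * ps x y ε p q z)
    (P := fun z => 4 * (cut U x y a b z ^ 2 * tn x y ε p q z))
    (Q := fun z => 32 / a ^ 2 * (cut U x y a b z ^ 2 * dn x ε p z + cut U x y a b z ^ 2 * dn y ε q z))
    (cut_mul_cd h hb0 hab hb fun z hz => ps_cd hε (h.ax hz) (h.ay hz)) (continuous_const.mul c1) (continuous_const.mul (c2.add c3)) (C := (4 * C0 + 2) * C1)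
    (C2 := Real.log 4) (C3 := C3) (by positivity) (fun z => ?_) (cut_mul_le hab hl4 hup) (hC3 ε hε hε1) hR
  · have e1 : ∫ z, tau R z * (4 * (cut U x y a b z ^ 2 * tn x y ε p q z)) = 4 * ∫ z, tau R z * (cut U x y a b z ^ 2 * tn x y ε p q z) := by
      rw [← integral_const_mul]
      refine integral_congr_ae (Eventually.of_forall fun z => ?_)
      ring
    have e2 : ∫ z, tau R z * (32 / a ^ 2 * (cut U x y a b z ^ 2 * dn x ε p z + cut U x y a b z ^ 2 * dn y ε q z)) =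
        32 / a ^ 2 * ((∫ z, tau R z * (cut U x y a b z ^ 2 * dn x ε p z)) + ∫ z, tau R z * (cut U x y a b z ^ 2 * dn y ε q z)) := by
      rw [← integral_add (tau_int hR c2) (tau_int hR c3), ← integral_const_mul]
      refine integral_congr_ae (Eventually.of_forall fun z => ?_)
      ring
    rw [e1, e2, one_mul] at key
    have k1 := hCX ε hε hε1 R hR
    have k2 := hCY' ε hε hε1 R hR
    have k3 := mul_le_mul_of_nonneg_left (add_le_add k1 k2) (show 0 ≤ 32 / a ^ 2 by positivity)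
    generalize (∫ z, tau R z * (cut U x y a b z ^ 2 * tn x y ε p q z)) = I at key ⊢
    generalize (∫ z, tau R z * l z ^ 2) = J at key k3 ⊢
    have e3 : ((4 * C0 + 2) * C1 + 32 / a ^ 2 * (CX + CY)) / 4 * J + (2 * Real.pi * Real.log 4 + C3 + 32 / a ^ 2 * (CX + CY)) / 4 =
        ((4 * C0 + 2) * C1 * J + 32 / a ^ 2 * (CX * J + CX + (CY * J + CY)) + (2 * Real.pi * Real.log 4 + C3)) / 4 := by ring
    rw [e3, le_div_iff₀ (by norm_num)]
    linarith
  · show 4 * (cut U x y a b z ^ 2 * tn x y ε p q z) ≤ Δ (fun z => cut U x y a b z ^ 2 * ps x y ε p q z) z + (4 * C0 + 2) * C1 * l z ^ 2 +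
      32 / a ^ 2 * (cut U x y a b z ^ 2 * dn x ε p z + cut U x y a b z ^ 2 * dn y ε q z)
    have n1 := dn_nonneg (x := x) (a := p) hε z
    have n2 := dn_nonneg (x := y) (a := q) hε z
    by_cases hz : z ∈ U
    · have h1 := core_pt h hb0 hab hb hC10 hC1 hz (ps_cd (p := p) (q := q) hε (h.ax hz) (h.ay hz)) (C0 := C0) (θ := 1) (H := 16 / a ^ 2 * (dn x ε p z + dn y ε q z))
        one_pos hC00 (by positivity) (fun hK hi => ?_)
      · have h2 := ps_lap_ge hε hp hq (h.ax hz) (h.ay hz)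
        have h3 := mul_le_mul_of_nonneg_left h2 (sq_nonneg (cut U x y a b z))
        have e3 : (4 * C0 + 2 / 1) * C1 * l z ^ 2 = (4 * C0 + 2) * C1 * l z ^ 2 := by ring
        have e4 : 2 * 1 * cut U x y a b z ^ 2 * (16 / a ^ 2 * (dn x ε p z + dn y ε q z)) =
          32 / a ^ 2 * (cut U x y a b z ^ 2 * dn x ε p z + cut U x y a b z ^ 2 * dn y ε q z) := by ring
        rw [e3, e4] at h1
        linarith
      · have h4 := hlow z hK hi
        have h5 := hup z hK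
        have h6 : Real.log a ≤ ps x y ε p q z := Real.log_le_log ha0 h4
        refine ⟨?_, ps_gg_le hε hε1 hp hp1 hq hq1 (h.ax hz) (h.ay hz) (hK.2.1.trans hb.le) (hK.2.2.trans hb.le) ha0 h4⟩
        rw [abs_le]
        constructor
        · have := le_max_right (Real.log 4) (-Real.log a)
          linarith
        · exact h5.trans (le_max_left _ _)
    · have hK : z ∉ Kb U x y b := fun hK => hz hK.1
      have e1 := cut_mul_zero h hb0 hab hb (ps x y ε p q) hK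
      have e2 : Δ (fun w => cut U x y a b w ^ 2 * ps x y ε p q w) z = 0 := by
        rw [lap_congr e1]
        simp [InnerProductSpace.laplacian_const]
      rw [e2, cut_eq_zero hab hK]
      have : 0 ≤ (4 * C0 + 2) * C1 * l z ^ 2 := by positivity
      have e5 : (4 : ℝ) * (0 ^ 2 * tn x y ε p q z) = 0 := by ring
      have e6 : 32 / a ^ 2 * ((0 : ℝ) ^ 2 * dn x ε p z + 0 ^ 2 * dn y ε q z) = 0 := by ring
      rw [e5, e6]
      linarith

/-- the second energy estimate; only the additive constant depends on the curve -/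
theorem enTU {p q r : ℝ} (hp : 0 < p) (hp1 : p ≤ 1) (hq : 0 < q) (hq1 : q ≤ 1) (hr : r < 1) : ∃ A r' : ℝ, 0 ≤ A ∧ r' < 1 ∧ ∀ (U : Set ℂ) (x y : ℂ → ℂ), Crd U x y →
    (∀ z ∈ U, ∀ᶠ w in 𝓝[≠] z, x w ≠ 0 ∨ y w ≠ 0) → ∃ K : ℝ, ∀ R, 1 ≤ R →
      Integrable (fun z => tau R z * (Kr U x y r ∩ {z | x z ≠ 0 ∧ y z ≠ 0}).indicator (td x y p q) z) ∧
      ∫ z, tau R z * (Kr U x y r ∩ {z | x z ≠ 0 ∧ y z ≠ 0}).indicator (td x y p q) z ≤ A * (∫ z, tau R z * ed x y (Kr U x y r') z) + K := by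
  obtain ⟨a, b, hb0, hab, hb, ha0, hra⟩ := exists_par hr
  obtain ⟨A, hA0, hA⟩ := enT_epsU ha0 hb0 hab hb hp hp1 hq hq1
  refine ⟨A, √b, hA0, sqrt_lt_one' hb, fun U x y h hne => ?_⟩
  obtain ⟨K, hK0, hK⟩ := hA U x y h hne
  refine ⟨K, fun R hR => ?_⟩
  have hT := meas_ne2 h hr
  have hε : ∀ n : ℕ, 0 < 1 / ((n : ℝ) + 1) := fun n => by positivity
  have hε1 : ∀ n : ℕ, 1 / ((n : ℝ) + 1) ≤ 1 := fun n => by
    rw [div_le_one (by positivity)]
    linarith [(Nat.cast_nonneg n : (0 : ℝ) ≤ n)]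
  have hE0 : 0 ≤ ∫ z, tau R z * ed x y (Kr U x y (√b)) z := integral_nonneg fun z => mul_nonneg (tau_nonneg hR z) (ed_nonneg _ _)
  refine fatou_real (S := Kr U x y r ∩ {z | x z ≠ 0 ∧ y z ≠ 0}) (f := fun n z => tau R z * (cut U x y a b z ^ 2 * tn x y (1 / ((n : ℝ) + 1)) p q z)) (by positivity)
    (fun n => tau_int hR (cut_mul_cont h hb0 hab hb (tn_cont h (hε n)))) (fun n z => mul_nonneg (tau_nonneg hR z) (mul_nonneg (sq_nonneg _) (tn_nonneg (hε n) z)))
    (fun n => hK _ (hε n) (hε1 n) R hR) ?_ (fun z => mul_nonneg (tau_nonneg hR z) (Set.indicator_nonneg (fun z _ => td_nonneg _ _ _ _ z) z)) (fun z hz => ?_) fun z hz => ?_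
  · refine (contDiff_tau R).continuous.aestronglyMeasurable.mul ?_
    exact td_meas h.isOpen h.hx h.hy hT (fun z hz => hz.1.1) (fun z hz => hz.2) p q
  · rw [Set.indicator_of_notMem hz, mul_zero]
  · rw [Set.indicator_of_mem hz]
    refine Tendsto.const_mul _ ?_
    simp only [cut_Kr h hab hra hz.1, one_pow, one_mul]
    unfold tn td
    have h1 := Real.rpow_pos_of_pos (norm_pos_iff.2 hz.2.1) (2 * p)
    have h2 := Real.rpow_pos_of_pos (norm_pos_iff.2 hz.2.2) (2 * q)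
    exact (((pw_lim hz.2.1).mul (pw_lim hz.2.2)).div (((pw_lim hz.2.1).add (pw_lim hz.2.2)).pow 2) (by positivity)).mul (wv_lim hz.2.1 hz.2.2)

end Pool.Agent.MQ3
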