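import Pool.Agent.MQ2.LeafN
import Pool.Agent.MQ2.SepC

/-!
# MQ3 GInvNC: a formal curve in an algebraic curve is a leaf in it
-/

set_option autoImplicit false

open Topology Filter Metric Asymptotics

noncomputable section

namespace Pool.Agent.MQ3

open Pool.Agent.MQ Pool.Agent.MQ2 Pool.Agent.MQ2.SepAux

/-- the derivative of a germ of order `n + 1` -/
private theorem deriv_isBigO {u : ℂ → ℂ} (hu : AnalyticAt ℂ u 0) {n : ℕ} (h : u =O[𝓝 0] fun t : ℂ => t ^ (n + 1)) :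
    (deriv u) =O[𝓝 0] fun t : ℂ => t ^ n := by
  rw [isBigO_pow_iff hu] at h
  obtain ⟨q, hq, huq⟩ := (natCast_le_analyticOrderAt hu).1 h
  have h1 : ∀ᶠ t in 𝓝 (0 : ℂ), deriv u t = t ^ n * (((n + 1 : ℕ) : ℂ) * q t + t * deriv q t) := by
    filter_upwards [huq.eventually_nhds, hq.eventually_analyticAt] with t ht hqt
    have h2 : u =ᶠ[𝓝 t] fun z => z ^ (n + 1) * q z := by
      filter_upwards [ht] with z hz
      rw [hz, sub_zero, smul_eq_mul]
    rw [h2.deriv_eq]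
    have h3 : HasDerivAt (fun z : ℂ => z ^ (n + 1) * q z) (((n + 1 : ℕ) : ℂ) * t ^ n * q t + t ^ (n + 1) * deriv q t) t :=
      (hasDerivAt_pow (n + 1) t).mul hqt.differentiableAt.hasDerivAt
    rw [h3.deriv]
    ring
  have h2' : ContinuousAt (fun t : ℂ => ((n + 1 : ℕ) : ℂ) * q t + t * deriv q t) 0 :=
    (continuousAt_const.mul hq.continuousAt).add (continuousAt_id.mul hq.deriv.continuousAt)
  have h2 : (fun t : ℂ => ((n + 1 : ℕ) : ℂ) * q t + t * deriv q t) =O[𝓝 0] fun _ : ℂ => (1 : ℂ) := h2'.isBigO_one ℂ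
  have h3 := (isBigO_refl (fun t : ℂ => t ^ n) (𝓝 0)).mul h2
  refine IsBigO.congr' h3 (h1.mono fun t ht => ht.symm) (Eventually.of_forall fun t => mul_one _)

/-- a germ of infinite order -/
private theorem zero_of_all {u : ℂ → ℂ} (hu : AnalyticAt ℂ u 0) (h : ∀ n : ℕ, u =O[𝓝 0] fun t : ℂ => t ^ n) : ∀ᶠ t in 𝓝 (0 : ℂ), u t = 0 := by
  rw [← analyticOrderAt_eq_top]
  by_contra hcon
  obtain ⟨n, hn⟩ := ENat.ne_top_iff_exists.1 hcon
  have h1 := (isBigO_pow_iff hu (n + 1)).1 (h (n + 1))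
  rw [← hn, Nat.cast_le] at h1
  omega

/-- a formal curve in `{f = 0}` lies in every curve which contains the leaves in `{f = 0}` -/
theorem fzero_leaf {v : ℂ × ℂ → ℂ × ℂ} (hv : AnalyticAt ℂ v 0) {c : ℕ → ℂ → ℂ × ℂ} (hc : Sep v c) {f : ℂ × ℂ → ℂ} (hf : AnalyticAt ℂ f 0)
    (hf0 : ∃ᶠ p in 𝓝 (0 : ℂ × ℂ), f p ≠ 0) (hz : FZero c f) {g : ℂ × ℂ → ℂ} (hg : AnalyticAt ℂ g 0)
    (hgz : ∀ᶠ p in 𝓝 (0 : ℂ × ℂ), p ≠ 0 → LeafIn v f p → g p = 0) : FZero c g := by
  obtain ⟨γ, hγ, hγc⟩ := hc.alg f hf hf0 hz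
  have hγ0 : γ 0 = 0 := by
    obtain ⟨B, hB⟩ := (hγc 0).bound
    have h1 := hB.self_of_nhds
    rw [hc.zero, sub_zero, zero_add, pow_one, norm_zero, mul_zero] at h1
    exact norm_le_zero_iff.1 h1
  -- functions along the two curves
  have hcomp : ∀ {q : ℂ × ℂ → ℂ}, AnalyticAt ℂ q 0 → ∀ N, (fun t => q (γ t) - q (c N t)) =O[𝓝 0] fun t : ℂ => t ^ (N + 1) := by
    intro q hq N
    refine comp_sub hγ.continuousAt (hc.an N).continuousAt ?_ ?_ (hγc N)
    · rw [hγ0, hc.zero]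
    · rw [hc.zero]; exact hq
  have han : ∀ {q : ℂ × ℂ → ℂ}, AnalyticAt ℂ q 0 → AnalyticAt ℂ (fun t => q (γ t)) 0 := fun {q} hq => AnalyticAt.comp_of_eq (f := γ) hq hγ hγ0
  have hzero : ∀ {q : ℂ × ℂ → ℂ}, AnalyticAt ℂ q 0 → FZero c q → ∀ᶠ t in 𝓝 (0 : ℂ), q (γ t) = 0 := by
    intro q hq hq0
    refine zero_of_all (han hq) fun n => ?_
    have h1 := (hcomp hq n).add (hq0 n)
    refine pow_mono (h1.congr_left fun t => ?_) (Nat.le_succ n)
    ring
  have hf1 := hzero hf hz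
  -- the curve is tangent to `v`
  have hγ1 : AnalyticAt ℂ (fun t => (γ t).1) 0 := analyticAt_fst.comp hγ
  have hγ2 : AnalyticAt ℂ (fun t => (γ t).2) 0 := analyticAt_snd.comp hγ
  have hc1 : ∀ N, AnalyticAt ℂ (fun t => (c N t).1) 0 := fun N => analyticAt_fst.comp (hc.an N)
  have hc2 : ∀ N, AnalyticAt ℂ (fun t => (c N t).2) 0 := fun N => analyticAt_snd.comp (hc.an N)
  have hv1 : AnalyticAt ℂ (fun p => (v p).1) 0 := analyticAt_fst.comp hv
  have hv2 : AnalyticAt ℂ (fun p => (v p).2) 0 := analyticAt_snd.comp hv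
  have hd1 : ∀ {a : ℂ → ℂ × ℂ}, AnalyticAt ℂ a 0 → ∀ᶠ t in 𝓝 (0 : ℂ), (deriv a t).1 = deriv (fun t => (a t).1) t ∧ (deriv a t).2 = deriv (fun t => (a t).2) t := by
    intro a ha
    filter_upwards [ha.eventually_analyticAt] with t ht
    have h1 := ht.differentiableAt.hasDerivAt
    exact ⟨(HasDerivAt.deriv h1.fst).symm, (HasDerivAt.deriv h1.snd).symm⟩
  have hdd : ∀ N, (fun t => deriv (fun t => (γ t).1) t - deriv (fun t => (c N t).1) t) =O[𝓝 0] fun t : ℂ => t ^ N := by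
    intro N
    have h1 : (fun t => (γ t).1 - (c N t).1) =O[𝓝 0] fun t : ℂ => t ^ (N + 1) := by
      refine IsBigO.trans ?_ (hγc N)
      exact IsBigO.of_bound 1 (Eventually.of_forall fun t => by
        rw [one_mul]; exact norm_fst_le (γ t - c N t))
    have h2 := deriv_isBigO (hγ1.sub (hc1 N)) h1
    refine IsBigO.congr' h2 ?_ EventuallyEq.rfl
    filter_upwards [hγ1.eventually_analyticAt, (hc1 N).eventually_analyticAt] with t ht ht'
    exact deriv_fun_sub ht.differentiableAt ht'.differentiableAt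
  have hdd2 : ∀ N, (fun t => deriv (fun t => (γ t).2) t - deriv (fun t => (c N t).2) t) =O[𝓝 0] fun t : ℂ => t ^ N := by
    intro N
    have h1 : (fun t => (γ t).2 - (c N t).2) =O[𝓝 0] fun t : ℂ => t ^ (N + 1) := by
      refine IsBigO.trans ?_ (hγc N)
      exact IsBigO.of_bound 1 (Eventually.of_forall fun t => by
        rw [one_mul]; exact norm_snd_le (γ t - c N t))
    have h2 := deriv_isBigO (hγ2.sub (hc2 N)) h1
    refine IsBigO.congr' h2 ?_ EventuallyEq.rfl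
    filter_upwards [hγ2.eventually_analyticAt, (hc2 N).eventually_analyticAt] with t ht ht'
    exact deriv_fun_sub ht.differentiableAt ht'.differentiableAt
  have hW : ∀ᶠ t in 𝓝 (0 : ℂ), (v (γ t)).1 * deriv (fun t => (γ t).2) t - (v (γ t)).2 * deriv (fun t => (γ t).1) t = 0 := by
    refine zero_of_all (((han hv1).mul hγ2.deriv).sub ((han hv2).mul hγ1.deriv)) fun N => ?_
    have b1 : (fun t => deriv (fun t => (γ t).2) t) =O[𝓝 0] fun _ : ℂ => (1 : ℂ) := hγ2.deriv.continuousAt.isBigO_one ℂ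
    have b2 : (fun t => deriv (fun t => (γ t).1) t) =O[𝓝 0] fun _ : ℂ => (1 : ℂ) := hγ1.deriv.continuousAt.isBigO_one ℂ
    have b3 : (fun t => (v (c N t)).1) =O[𝓝 0] fun _ : ℂ => (1 : ℂ) := (q_an hc hv1 N).continuousAt.isBigO_one ℂ
    have b4 : (fun t => (v (c N t)).2) =O[𝓝 0] fun _ : ℂ => (1 : ℂ) := (q_an hc hv2 N).continuousAt.isBigO_one ℂ
    have e1 := (pow_mono (hcomp hv1 N) (Nat.le_succ N)).mul b1
    have e2 := (pow_mono (hcomp hv2 N) (Nat.le_succ N)).mul b2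
    have e3 := b3.mul (hdd2 N)
    have e4 := b4.mul (hdd N)
    simp only [mul_one, one_mul] at e1 e2 e3 e4
    have e5 : (fun t => (v (c N t)).1 * deriv (fun t => (c N t).2) t - (v (c N t)).2 * deriv (fun t => (c N t).1) t) =O[𝓝 0] fun t : ℂ => t ^ N := by
      refine IsBigO.congr' (hc.tan N) ?_ EventuallyEq.rfl
      filter_upwards [hd1 (hc.an N)] with t ht
      rw [ht.1, ht.2]
    have e6 := ((e1.add e3).sub (e2.add e4)).add e5
    refine e6.congr_left fun t => ?_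
    ring
  have he : ∀ᶠ t in 𝓝 (0 : ℂ), (v (γ t)).1 * (deriv γ t).2 = (v (γ t)).2 * (deriv γ t).1 ∧ f (γ t) = 0 := by
    filter_upwards [hW, hd1 hγ, hf1] with t h1 h2 h3
    refine ⟨?_, h3⟩
    rw [h2.1, h2.2]
    exact sub_eq_zero.1 h1
  -- it is not constant
  have hnc : ∃ᶠ t in 𝓝 (0 : ℂ), γ t ≠ γ 0 := by
    intro hcon
    obtain ⟨N, hN⟩ := hc.nc
    apply hN
    have h1 := (hγc N).neg_left
    refine IsBigO.congr' h1 ?_ EventuallyEq.rfl
    filter_upwards [hcon] with t ht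
    rw [not_not] at ht
    rw [ht, hγ0, zero_sub, neg_neg]
  have hL := leafIn_shift hγ he hnc
  have hg1 : ∀ᶠ t in 𝓝 (0 : ℂ), g (γ t) = 0 := by
    rw [← (han hg).frequently_zero_iff_eventually_zero]
    have h0 : ∀ᶠ t in 𝓝[≠] (0 : ℂ), γ t ≠ 0 := by
      rcases hγ.eventually_eq_or_eventually_ne (analyticAt_const (v := (0 : ℂ × ℂ))) with h | h
      · exfalso
        apply hnc
        filter_upwards [h] with t ht
        rw [not_not, ht, hγ0]
      · exact h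
    have h2 : Tendsto γ (𝓝[≠] (0 : ℂ)) (𝓝 0) := by
      have := hγ.continuousAt.tendsto
      rw [hγ0] at this
      exact this.mono_left nhdsWithin_le_nhds
    refine Eventually.frequently ?_
    filter_upwards [h0, h2.eventually hgz, nhdsWithin_le_nhds hL] with t h3 h4 h5
    exact h4 h3 h5
  intro N
  refine ((hcomp hg N).neg_left.congr' ?_ EventuallyEq.rfl)
  filter_upwards [hg1] with t ht
  rw [ht]
  ring

end Pool.Agent.MQ3
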