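import Pool.Agent.MQ3.NDefs
import Pool.Agent.MQ3.DivR
import Pool.Agent.MQ3.WPoly

/-!
# MQ3 GInvNG: the forms `RD` and `Ra` in a chart

The zeros of `RD` are the axes; off the axes the map of the chart is a local isomorphism, so `RD Ra` is not identically zero near any point.
-/

set_option autoImplicit false

open Topology Filter Metric MvPolynomial

noncomputable section

namespace Pool.Agent.MQ3

open Pool.Agent.H36.BP (EN)
open Pool.Agent.H17EF (coneE)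

variable {M : ℕ} {P : Ideal (MvPolynomial (Fin (M + 1)) ℂ)} {RD : MvPolynomial (Fin (M + 1)) ℂ} {m : ℕ} {X : NCModel P RD} {θ : WDiff (coneE P) m}
  {l : LF M} {S : Web X θ l} {Ra : MvPolynomial (Fin (M + 1)) ℂ}

/-- off the axes the monomial map is open -/
theorem mono_map_nhds {w w' : ℕ × ℕ} (h : 0 < dt w w') {x : ℂ × ℂ} (hx : x.1 * x.2 ≠ 0) : map (mono w w') (𝓝 x) = 𝓝 (mono w w' x) := by
  have h1 : HasStrictFDerivAt (mono w w') (fderiv ℂ (mono w w') x) x := (analyticAt_mono x).hasStrictFDerivAt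
  have hJ : jc (mono w w') x ≠ 0 := by
    have e1 : mono w w' = mchart w.1 w'.1 w.2 w'.2 := rfl
    have e2 : w'.1 * w.2 < w.1 * w'.2 := by
      unfold dt at h
      have h3 : (w.2 : ℤ) * w'.1 < w.1 * w'.2 := by linarith
      have h4 : w.2 * w'.1 < w.1 * w'.2 := by exact_mod_cast h3
      rwa [mul_comm w.2] at h4
    unfold jc
    rw [e1, jac_mchart e2]
    refine mul_ne_zero (mul_ne_zero ?_ (pow_ne_zero _ (left_ne_zero_of_mul hx))) (pow_ne_zero _ (right_ne_zero_of_mul hx))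
    exact Nat.cast_ne_zero.2 (Nat.sub_ne_zero_of_lt e2)
  refine h1.map_nhds_eq_of_surj ?_
  rw [LinearMap.range_eq_top]
  intro y
  refine ⟨((y.1 * (fderiv ℂ (mono w w') x (0, 1)).2 - y.2 * (fderiv ℂ (mono w w') x (0, 1)).1) / jc (mono w w') x,
    (y.2 * (fderiv ℂ (mono w w') x (1, 0)).1 - y.1 * (fderiv ℂ (mono w w') x (1, 0)).2) / jc (mono w w') x), ?_⟩
  show fderiv ℂ (mono w w') x _ = y
  rw [split_vec]
  ext
  · simp only [Prod.fst_add, Prod.smul_fst, smul_eq_mul]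
    rw [div_mul_eq_mul_div, div_mul_eq_mul_div, ← add_div, div_eq_iff hJ]
    unfold jc
    ring
  · simp only [Prod.snd_add, Prod.smul_snd, smul_eq_mul]
    rw [div_mul_eq_mul_div, div_mul_eq_mul_div, ← add_div, div_eq_iff hJ]
    unfold jc
    ring

/-- a chart point -/
theorem gn_v_an {k : S.ι} {q : ℂ × ℂ} (hq : q ∈ S.D k) : AnalyticAt ℂ (S.v k) q := (S.c k).v_an q hq.1

theorem gn_v_iso {k : S.ι} {q : ℂ × ℂ} (hq : q ∈ S.D k) : ∀ᶠ x in 𝓝 q, x ≠ q → S.v k x ≠ 0 := (S.c k).v_iso q hq.1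

theorem gn_κ_an (k : S.ι) (q : ℂ × ℂ) : AnalyticAt ℂ (S.κ k) q := analyticAt_mono q

theorem gn_D_open (k : S.ι) : IsOpen (S.D k) :=
  isOpen_Dm.inter ((X.isOpen k.1).preimage (continuous_iff_continuousAt.2 fun q => (gn_κ_an k q).continuousAt))

theorem gn_σ_an {k : S.ι} {q : ℂ × ℂ} (hq : q ∈ S.D k) (Q : MvPolynomial (Fin (M + 1)) ℂ) : AnalyticAt ℂ (fun x => eval (S.σ k x).ofLp Q) q := by
  have h1 : S.κ k q ∈ DD := X.sub k.1 hq.2
  have h2 : AnalyticAt ℂ (X.ρ k.1) (S.κ k q) := (X.box k.1).an _ h1.1.le h1.2.le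
  exact analyticAt_evalE (AnalyticAt.comp (g := X.ρ k.1) (f := S.κ k) h2 (gn_κ_an k q)) Q

theorem gn_freq (hRa : RNe X Ra) {k : S.ι} {q : ℂ × ℂ} (hq : q ∈ S.D k) : ∃ᶠ x in 𝓝 q, eval (S.σ k x).ofLp Ra ≠ 0 ∧ eval (S.σ k x).ofLp (RD * Ra) ≠ 0 := by
  intro hcon
  have hm : ∀ᶠ x in 𝓝 q, x ∈ S.D k := (gn_D_open k).mem_nhds hq
  obtain ⟨x, hx0, hxD, hx⟩ := ((freq_off q).and_eventually (hm.and (eventually_eventually_nhds.2 hcon))).exists
  have hx1 : S.κ k x ∈ DD := X.sub k.1 hxD.2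
  apply hRa k.1 (S.κ k x) hx1
  have h1 : ∀ᶠ y in 𝓝 x, ¬ eval (X.ρ k.1 (S.κ k y)).ofLp Ra ≠ 0 := by
    have h2 : ∀ᶠ y : ℂ × ℂ in 𝓝 x, y.1 * y.2 ≠ 0 := (continuous_fst.mul continuous_snd).continuousAt.eventually_ne hx0
    filter_upwards [h2, hx, (gn_D_open k).mem_nhds hxD] with y y1 y2 y3 y4
    apply y2
    refine ⟨y4, ?_⟩
    rw [map_mul]
    exact mul_ne_zero (X.good k.1 _ (mono_mem_DS y3.1 y1)) y4
  have h3 := mono_map_nhds (S.c k).pos hx0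
  have h4 : ∀ᶠ p in map (mono (S.c k).w (S.c k).w') (𝓝 x), ¬ eval (X.ρ k.1 p).ofLp Ra ≠ 0 := eventually_map.2 h1
  rw [h3] at h4
  exact h4

end Pool.Agent.MQ3
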