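import Pool.Agent.MQ3.GInvNL
import Pool.Agent.MQ3.GInvNG
import Pool.Agent.MQ3.GInvNC

/-!
# MQ3 GInvN: the equation of the invariant curve at a chart point

`exists_gloc`, `linv_off` at the point `q` for `f = RD Ra`; `fzero_leaf` for the separatrices.
-/

set_option autoImplicit false

open Topology Filter Metric MvPolynomial

noncomputable section

namespace Pool.Agent.MQ3

open Pool.Agent.H36.BP (EN)
open Pool.Agent.H17EF (coneE)
open Pool.Agent.MQ (LeafIn)
open Pool.Agent.MQ2 (Wt Sep FZero)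

variable {M : ℕ} {P : Ideal (MvPolynomial (Fin (M + 1)) ℂ)} {RD : MvPolynomial (Fin (M + 1)) ℂ} {m : ℕ} {X : NCModel P RD} {θ : WDiff (coneE P) m}
  {l : LF M} {S : Web X θ l} {Ra : MvPolynomial (Fin (M + 1)) ℂ}

private theorem GInvN_shift (q : ℂ × ℂ) : Tendsto (fun x : ℂ × ℂ => q + x) (𝓝 0) (𝓝 q) := by
  have : Continuous fun x : ℂ × ℂ => q + x := by fun_prop
  simpa using this.tendsto 0

private theorem GInvN_back (q x : ℂ × ℂ) : Tendsto (fun y : ℂ × ℂ => y - q) (𝓝 x) (𝓝 (x - q)) := by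
  have : Continuous fun w : ℂ × ℂ => w - q := by fun_prop
  exact this.tendsto x

private theorem GInvN_an {E : Type*} [NormedAddCommGroup E] [NormedSpace ℂ E] {f : ℂ × ℂ → E} {q : ℂ × ℂ} (hf : AnalyticAt ℂ f q) :
    AnalyticAt ℂ (fun x => f (q + x)) 0 :=
  AnalyticAt.fun_comp (g := f) (f := fun x : ℂ × ℂ => q + x) (by rwa [add_zero]) (analyticAt_const.add analyticAt_id)

private theorem GInvN_ban {f : ℂ × ℂ → ℂ} {q x : ℂ × ℂ} (hf : AnalyticAt ℂ f (x - q)) : AnalyticAt ℂ (fun y => f (y - q)) x :=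
  AnalyticAt.fun_comp (g := f) (f := fun y : ℂ × ℂ => y - q) hf (analyticAt_id.sub analyticAt_const)

private theorem GInvN_fd (f : ℂ × ℂ → ℂ) (q y : ℂ × ℂ) : fderiv ℂ (fun y : ℂ × ℂ => f (y - q)) y = fderiv ℂ f (y - q) := by
  have := fderiv_comp_add_right (𝕜 := ℂ) (f := f) (x := y) (-q)
  simpa [sub_eq_add_neg] using this

/-- translation -/
private theorem GInvN_tr {v : ℂ × ℂ → ℂ × ℂ} {f g : ℂ × ℂ → ℂ} {q x : ℂ × ℂ} (h : LInv (fun x => v (q + x)) (fun x => f (q + x)) g (x - q)) :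
    LInv v f (fun y => g (y - q)) x := by
  obtain ⟨h1, h2, ⟨c, h3, h4⟩, k, h5, h6, h7⟩ := h
  refine ⟨GInvN_ban h1, ?_, ⟨fun y => c (y - q), GInvN_ban h3, ?_⟩, fun y => k (y - q), GInvN_ban h5, ?_, ?_⟩
  · filter_upwards [(GInvN_back q x).eventually h2] with y hy
    rw [GInvN_fd]
    exact hy
  · filter_upwards [(GInvN_back q x).eventually h4] with y hy
    rw [GInvN_fd]
    simpa using hy
  · filter_upwards [(GInvN_back q x).eventually h6] with y hy
    simpa using hy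
  · filter_upwards [(GInvN_back q x).eventually h7] with y hy
    rw [GInvN_fd]
    simpa using hy

theorem exists_gq {d dR : ℕ} (hd : RD.IsHomogeneous d) (hdR : Ra.IsHomogeneous dR) (hRa : RNe X Ra) {k : S.ι} {q : ℂ × ℂ} (hq : q ∈ S.D k) :
    ∃ g : ℂ × ℂ → ℂ, Wt (fun x => S.v k (q + x)) (fun x => g (q + x)) ∧ (∀ᶠ x in 𝓝[≠] q, InvAt S Ra k x g) ∧
      ∀ c : ℕ → ℂ → ℂ × ℂ, Sep (fun x => S.v k (q + x)) c → FZero c (fun x => eval (S.σ k (q + x)).ofLp Ra) → FZero c fun x => g (q + x) := by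
  have hv := GInvN_an (gn_v_an hq)
  have hv0 : ∀ᶠ p in 𝓝 (0 : ℂ × ℂ), p ≠ 0 → S.v k (q + p) ≠ 0 := by
    filter_upwards [(GInvN_shift q).eventually (gn_v_iso hq)] with x hx hx0
    exact hx (by simpa using hx0)
  have hf := GInvN_an (gn_σ_an hq (RD * Ra))
  have hfa := GInvN_an (gn_σ_an hq Ra)
  have hfr : ∃ᶠ x in 𝓝 (0 : ℂ × ℂ), eval (S.σ k (q + x)).ofLp Ra ≠ 0 ∧ eval (S.σ k (q + x)).ofLp (RD * Ra) ≠ 0 := by
    intro hcon
    apply gn_freq hRa hq
    have h1 := GInvN_back q q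
    rw [sub_self] at h1
    filter_upwards [h1.eventually hcon] with x hx
    simpa using hx
  obtain ⟨g, hg, h⟩ := exists_gloc hv hv0 hf (hfr.mono fun x hx => hx.2)
  have hoff := linv_off hv hv0 hf (hfr.mono fun x hx => hx.2) hg h
  have hsh : (fun x => (fun y => g (y - q)) (q + x)) = g := by
    funext x
    simp
  refine ⟨fun y => g (y - q), by rw [hsh]; exact hg, ?_, fun c hc hcz => ?_⟩
  · rw [eventually_nhdsWithin_iff]
    have h1 := GInvN_back q q
    rw [sub_self] at h1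
    filter_upwards [h1.eventually hoff] with x hx hxq
    exact GInvN_tr (v := S.v k) (f := fun x => eval (S.σ k x).ofLp (RD * Ra)) (hx (sub_ne_zero.2 hxq))
  · rw [hsh]
    refine fzero_leaf hv hc hfa (hfr.mono fun x hx => hx.1) hcz hg.an ?_
    filter_upwards [h] with p hp hp0 hl
    refine (hp hp0).1.2 ?_
    obtain ⟨γ, g1, g2, g3, g4⟩ := hl
    refine ⟨γ, g1, g2, ?_, g4⟩
    filter_upwards [g3] with t ht
    refine ⟨ht.1, ?_⟩
    rw [map_mul, ht.2, mul_zero]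

end Pool.Agent.MQ3
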