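import Pool.Agent.MQ3.GlobT
import Pool.Agent.H90.SG.Poly

/-!
# MQ3 GlobC: embedded resolution of a hypersurface section of a smooth projective surface
-/

set_option autoImplicit false

open Topology Filter MvPolynomial

noncomputable section

namespace Pool.Agent.MQ3

open Pool.Agent.H36.BP (EN)
open Pool.Agent.H17BP (Surface NodalAt IsChart)
open Pool.Agent.H17EF (coneE)
open Pool.Agent.H62.FC (Homog)
open Pool.Agent.H17LG.Variety (FunField)
open Pool.Agent.H13.SM (conTan)

variable {M : ℕ} {P : Ideal (MvPolynomial (Fin (M + 1)) ℂ)}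

/-- the part `{RD = 0}` of the cone -/
def zer (P : Ideal (MvPolynomial (Fin (M + 1)) ℂ)) (RD : MvPolynomial (Fin (M + 1)) ℂ) : Set (EN M) := {x | x ∈ coneE P ∧ eval x.ofLp RD = 0}

theorem exists_ncSurf_cone [P.IsPrime] (hP : Homog P) {z : Fin 2 → FunField P} (hz : IsTranscendenceBasis ℂ z)
    (hsm : ∀ y : Fin (M + 1) → ℂ, y ≠ 0 → (∀ Q ∈ P, eval y Q = 0) → Module.finrank ℂ (conTan P y) ≤ 3)
    {RD : MvPolynomial (Fin (M + 1)) ℂ} {d : ℕ} (hd : RD.IsHomogeneous d) (hR : RD ∉ P) : Nonempty (NCSurf (coneE P) (zer P RD)) := by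
  have hX : Surface (coneE P) := Pool.Agent.H90.SG.surface_coneE hP hz hsm
  rcases Nat.eq_zero_or_pos d with rfl | hd0
  · have h1 : RD = C (coeff 0 RD) := by
      rcases eq_or_ne RD 0 with h0 | h0
      · rw [h0]
        simp
      · exact totalDegree_eq_zero_iff_eq_C.1 (hd.totalDegree h0)
    have h2 : coeff 0 RD ≠ 0 := by
      intro h3
      rw [h3, C_0] at h1
      exact hR (by rw [h1]; exact P.zero_mem)
    have h3 : zer P RD = ∅ := by
      ext x
      simp only [zer, Set.mem_setOf_eq, Set.mem_empty_iff_false, iff_false, not_and]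
      intro _ h4
      rw [h1, eval_C] at h4
      exact h2 h4
    rw [h3]
    refine ⟨NCSurf.base hX (Set.empty_subset _) fun x hx => ?_⟩
    obtain ⟨σ, τ, hσ, hσ0⟩ := hX.chart x hx
    exact ⟨σ, τ, hσ, hσ0, Or.inl (Eventually.of_forall fun p => Set.notMem_empty _)⟩
  · refine exists_ncSurf hX (Pool.Agent.H90.SG.eqs_coneE hd0 hd) fun σ τ h => ?_
    have h1 := Pool.Agent.H90.SG.thin_coneE hP hz hsm hd hR h
    exact h1.mono fun p hp h2 => hp h2.2

end Pool.Agent.MQ3
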