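import Pool.Agent.MQ.Crd7

/-!
# MQ3 GlobE: the energy of a lift

`F`, `G` are entire without zeros, `|h| |G| ≤ K |F| ^ d` with an entire function `h`.  `2 En F R = avg_R log |F| - avg_1 log |F|` (Green), and
`avg_R log |h| ≥ avg_1 log |h|` (Jensen), so `En G R ≤ d En F R + C`.
-/

set_option autoImplicit false

open Topology Filter Metric MeasureTheory Laplacian

noncomputable section

namespace Pool.Agent.MQ3

open Pool.Agent.H36.BP (EN)
open Pool.Agent.H30M (tau avg rhoR rhoR_nonneg continuous_rhoR hcs_rhoR int_rhoR green_tau pl_tau tau_nonneg integrable_mul_log)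
open Pool.Agent.MQ (lam En)

variable {N N' : ℕ}

theorem contDiff_log_norm {F : ℂ → EN N} (hF : Differentiable ℂ F) (h0 : ∀ z, F z ≠ 0) : ContDiff ℝ 2 fun z => Real.log ‖F z‖ :=
  contDiff_iff_contDiffAt.2 fun z => (Pool.Agent.MQ.lap_log_norm (hF.analyticAt z) (h0 z)).1

/-- the energy is the growth of the mean of `log |F|` -/
theorem two_en {F : ℂ → EN N} (hF : Differentiable ℂ F) (h0 : ∀ z, F z ≠ 0) {R : ℝ} (hR : 1 ≤ R) :
    2 * En F R = avg R (fun z => Real.log ‖F z‖) - avg 1 fun z => Real.log ‖F z‖ := by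
  rw [← green_tau hR (contDiff_log_norm hF h0), En, ← integral_const_mul]
  refine integral_congr_ae (Eventually.of_forall fun z => ?_)
  simp only [(Pool.Agent.MQ.lap_log_norm (hF.analyticAt z) (h0 z)).2]
  ring

/-- the zeros of an entire function have measure zero -/
theorem ae_ne {h : ℂ → ℂ} (hh : Differentiable ℂ h) (hh0 : ∃ z, h z ≠ 0) : ∀ᵐ z : ℂ, h z ≠ 0 := by
  obtain ⟨w, hw⟩ := hh0
  have h1 : AnalyticOnNhd ℂ h Set.univ := fun z _ => hh.analyticAt z
  have h2 : h ⁻¹' {0}ᶜ ∈ codiscreteWithin (Set.univ : Set ℂ) := h1.preimage_zero_mem_codiscrete (x := w) hw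
  have h3 := ae_restrict_le_codiscreteWithin (μ := (volume : Measure ℂ)) MeasurableSet.univ h2
  rw [Measure.restrict_univ] at h3
  exact h3

/-- **the energy of a lift** -/
theorem en_le {F : ℂ → EN N} {G : ℂ → EN N'} {h : ℂ → ℂ} {K : ℝ} {d : ℕ} (hF : Differentiable ℂ F) (hF0 : ∀ z, F z ≠ 0) (hG : Differentiable ℂ G)
    (hG0 : ∀ z, G z ≠ 0) (hh : Differentiable ℂ h) (hh0 : ∃ z, h z ≠ 0) (hle : ∀ z, ‖h z‖ * ‖G z‖ ≤ K * ‖F z‖ ^ d) :
    ∃ C : ℝ, ∀ R, 1 ≤ R → En G R ≤ d * En F R + C := by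
  have hK : 0 < K := by
    obtain ⟨w, hw⟩ := hh0
    have h1 : 0 < ‖h w‖ * ‖G w‖ := mul_pos (norm_pos_iff.2 hw) (norm_pos_iff.2 (hG0 w))
    exact pos_of_mul_pos_left (h1.trans_le (hle w)) (by positivity)
  have hFl := (contDiff_log_norm hF hF0).continuous
  have hGl := (contDiff_log_norm hG hG0).continuous
  have ho : ∀ z, analyticOrderAt h z ≠ ⊤ := by
    obtain ⟨w, hw⟩ := hh0
    have hw' : analyticOrderAt h w ≠ ⊤ := by
      rw [(hh.analyticAt w).analyticOrderAt_eq_zero.2 hw]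
      simp
    intro z
    exact (show AnalyticOnNhd ℂ h Set.univ from fun z _ => hh.analyticAt z).analyticOrderAt_ne_top_of_isPreconnected isPreconnected_univ
      (Set.mem_univ w) (Set.mem_univ z) hw'
  refine ⟨(2 * Real.pi * Real.log K + d * avg 1 (fun z => Real.log ‖F z‖) - avg 1 (fun z => Real.log ‖h z‖) - avg 1 fun z => Real.log ‖G z‖) / 2,
    fun R hR => ?_⟩
  have i1 : Integrable fun z => rhoR R z * Real.log ‖G z‖ :=
    ((continuous_rhoR R).mul hGl).integrable_of_hasCompactSupport ((hcs_rhoR hR).mul_right)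
  have i2 : Integrable fun z => rhoR R z * Real.log ‖F z‖ :=
    ((continuous_rhoR R).mul hFl).integrable_of_hasCompactSupport ((hcs_rhoR hR).mul_right)
  have i3 : Integrable fun z => rhoR R z * Real.log ‖h z‖ :=
    integrable_mul_log (continuous_rhoR R) (hcs_rhoR hR) (fun z _ => hh.analyticAt z) fun z _ => ho z
  have i4 : Integrable fun z => rhoR R z * Real.log K :=
    ((continuous_rhoR R).mul continuous_const).integrable_of_hasCompactSupport ((hcs_rhoR hR).mul_right)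
  have h1 : avg R (fun z => Real.log ‖G z‖) ≤
      2 * Real.pi * Real.log K + d * avg R (fun z => Real.log ‖F z‖) - avg R fun z => Real.log ‖h z‖ := by
    have h2 : ∫ z, (rhoR R z * Real.log K + d * (rhoR R z * Real.log ‖F z‖) - rhoR R z * Real.log ‖h z‖) =
        2 * Real.pi * Real.log K + d * avg R (fun z => Real.log ‖F z‖) - avg R fun z => Real.log ‖h z‖ := by
      have j1 : Integrable fun z => rhoR R z * Real.log K + d * (rhoR R z * Real.log ‖F z‖) := i4.add (i2.const_mul _)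
      rw [integral_sub j1 i3, integral_add i4 (i2.const_mul _), integral_const_mul, integral_mul_const, int_rhoR hR]
      rfl
    rw [← h2]
    refine integral_mono_ae i1 ((i4.add (i2.const_mul _)).sub i3) ?_
    filter_upwards [ae_ne hh hh0] with z hz
    have h3 : 0 < ‖h z‖ := norm_pos_iff.2 hz
    have h4 : 0 < ‖G z‖ := norm_pos_iff.2 (hG0 z)
    have h5 : 0 < ‖F z‖ := norm_pos_iff.2 (hF0 z)
    have h6 := Real.log_le_log (by positivity) (hle z)
    rw [Real.log_mul h3.ne' h4.ne', Real.log_mul hK.ne' (by positivity), Real.log_pow] at h6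
    have h7 : Real.log ‖G z‖ ≤ Real.log K + d * Real.log ‖F z‖ - Real.log ‖h z‖ := by linarith
    calc rhoR R z * Real.log ‖G z‖ ≤ rhoR R z * (Real.log K + d * Real.log ‖F z‖ - Real.log ‖h z‖) :=
          mul_le_mul_of_nonneg_left h7 (rhoR_nonneg R z)
      _ = _ := by ring
  have h2 := two_en hF hF0 hR
  have h3 := two_en hG hG0 hR
  have h4 := pl_tau hR hh hh0
  have h5 : 0 ≤ 2 * Real.pi * ∑ᶠ z, (analyticOrderNatAt h z : ℝ) * tau R z :=
    mul_nonneg (by positivity) (finsum_nonneg fun z => mul_nonneg (by positivity) (tau_nonneg hR z))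
  have h6 : (d : ℝ) * (2 * En F R) = d * (avg R (fun z => Real.log ‖F z‖) - avg 1 fun z => Real.log ‖F z‖) := by rw [h2]
  linarith

/-- the form for a lift to any finite dimensional space -/
theorem en_le_iso {V : Type*} [NormedAddCommGroup V] [NormedSpace ℂ V] (e : V ≃L[ℂ] EN N') {F : ℂ → EN N} {G : ℂ → V} {h : ℂ → ℂ} {K : ℝ} {d : ℕ}
    (hF : Differentiable ℂ F) (hF0 : ∀ z, F z ≠ 0) (hG : Differentiable ℂ G) (hG0 : ∀ z, G z ≠ 0) (hh : Differentiable ℂ h) (hh0 : ∃ z, h z ≠ 0)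
    (hle : ∀ z, ‖h z‖ * ‖G z‖ ≤ K * ‖F z‖ ^ d) : ∃ C : ℝ, ∀ R, 1 ≤ R → En (fun z => e (G z)) R ≤ d * En F R + C := by
  refine en_le (G := fun z => e (G z)) (K := ‖(e : V →L[ℂ] EN N')‖ * K) hF hF0 (e.differentiable.comp hG) (fun z h0 => hG0 z ?_) hh hh0 fun z => ?_
  · exact e.map_eq_zero_iff.1 h0
  · have h1 : ‖e (G z)‖ ≤ ‖(e : V →L[ℂ] EN N')‖ * ‖G z‖ := (e : V →L[ℂ] EN N').le_opNorm (G z)
    calc ‖h z‖ * ‖e (G z)‖ ≤ ‖h z‖ * (‖(e : V →L[ℂ] EN N')‖ * ‖G z‖) := mul_le_mul_of_nonneg_left h1 (norm_nonneg _)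
      _ = ‖(e : V →L[ℂ] EN N')‖ * (‖h z‖ * ‖G z‖) := by ring
      _ ≤ ‖(e : V →L[ℂ] EN N')‖ * (K * ‖F z‖ ^ d) := mul_le_mul_of_nonneg_left (hle z) (norm_nonneg _)
      _ = _ := by ring

end Pool.Agent.MQ3
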