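import Pool.Agent.MQ3.GlobO
import Pool.Agent.MQ3.GlobC
import Pool.Agent.MQ3.GlobE

/-!
# MQ3 GlobI: the surface with normal crossings in helper22's form
-/

set_option autoImplicit false

open Topology Filter Metric MvPolynomial MeasureTheory

noncomputable section

namespace Pool.Agent.MQ3

open Pool.Agent.H36.BP (EN fs)
open Pool.Agent.H17BP (Surface IsChart NodalAt Pr Tan chart_iff)
open Pool.Agent.H17EF (projVar coneE)
open Pool.Agent.H62.FC (Homog)
open Pool.Agent.H17LG.Variety (FunField)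
open Pool.Agent.H13.SM (conTan)
open Pool.Agent.MQ (lam En)

variable {M : ℕ} {P : Ideal (MvPolynomial (Fin (M + 1)) ℂ)} {RD : MvPolynomial (Fin (M + 1)) ℂ}

/-- an injective map to a Hermitian space -/
theorem exists_inj_EN (V : Type) [NormedAddCommGroup V] [NormedSpace ℂ V] [FiniteDimensional ℂ V] : ∃ (N : ℕ) (e : V →L[ℂ] EN N), Function.Injective e := by
  classical
  let b := Module.finBasis ℂ V
  set n := Module.finrank ℂ V
  let f : V →ₗ[ℂ] (Fin (n + 1) → ℂ) := LinearMap.pi fun j : Fin (n + 1) => if h : (j : ℕ) < n then b.coord ⟨j, h⟩ else 0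
  let g : V →ₗ[ℂ] EN n := (WithLp.linearEquiv 2 ℂ (Fin (n + 1) → ℂ)).symm.toLinearMap.comp f
  have hf : Function.Injective f := by
    intro v w hvw
    refine b.ext_elem fun i => ?_
    have h1 := congrFun hvw i.castSucc
    simp only [f, LinearMap.pi_apply, Fin.val_castSucc] at h1
    rw [dif_pos i.2] at h1
    exact h1
  refine ⟨n, LinearMap.toContinuousLinearMap g, ?_⟩
  intro v w hvw
  exact hf ((WithLp.linearEquiv 2 ℂ (Fin (n + 1) → ℂ)).symm.injective hvw)

private theorem eval_smul' {d : ℕ} (hd : RD.IsHomogeneous d) {c : ℂ} (hc : c ≠ 0) (x : EN M) : eval (c • x).ofLp RD = 0 ↔ eval x.ofLp RD = 0 := by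
  have h1 : eval (c • x).ofLp RD = c ^ d * eval x.ofLp RD := Pool.Agent.H17EF.eval_smul_form hd c x.ofLp
  rw [h1, mul_eq_zero]
  constructor
  · rintro (h | h)
    · exact absurd h (pow_ne_zero _ hc)
    · exact h
  · exact Or.inr

theorem exists_ncOver (hX : Surface (coneE P)) {d : ℕ} (hd : RD.IsHomogeneous d) (T : NCSurf (coneE P) (zer P RD)) :
    ∃ S : NCOver P RD, ∀ F : ℂ → EN M, Differentiable ℂ F → (∀ z, F z ∈ coneE P) → (∃ z, eval (F z).ofLp RD ≠ 0) → ∃ G, S.Lift F G := by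
  obtain ⟨N, e, he⟩ := exists_inj_EN T.V'
  have hz : ∀ x y : EN M, Pr x y → (eval x.ofLp RD = 0 ↔ eval y.ofLp RD = 0) := by
    rintro x y ⟨c, hc, rfl⟩
    exact eval_smul' hd hc y
  have hcone : ∀ x y : EN M, Pr x y → x ∈ coneE P → y ∈ coneE P := by
    rintro x y ⟨c, hc, rfl⟩ h
    have h1 := hX.smul _ h c⁻¹ (inv_ne_zero hc)
    rwa [smul_smul, inv_mul_cancel₀ hc, one_smul] at h1
  have hne : ∀ x ∈ coneE P, x ≠ 0 := fun x hx h => hX.zero (h ▸ hx)
  let S : NCOver P RD :=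
    { V := T.V'
      Y := T.Y
      D := {y | y ∈ T.Y ∧ ∀ a, T.L a y ≠ 0 → T.L a y ∈ zer P RD}
      Ov := fun y x => y ∈ T.Y ∧ ∃ a, T.L a y ≠ 0 ∧ Pr (T.L a y) x
      N := N
      e := e
      e_inj := he
      A := T.d
      surf := T.surf
      D_smul := by
        rintro y ⟨hy, h⟩ c hc
        refine ⟨T.surf.smul y hy c hc, fun a ha => ?_⟩
        rw [map_smul] at ha ⊢
        have h1 : T.L a y ≠ 0 := fun h0 => ha (by rw [h0, smul_zero])
        obtain ⟨h2, h3⟩ := h a h1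
        exact ⟨hX.smul _ h2 c hc, (eval_smul' hd hc _).2 h3⟩
      nodal := T.nodal
      mem := by
        rintro y x ⟨hy, a, ha, h⟩
        exact ⟨hy, hcone _ _ h (T.mem y hy a ha)⟩
      germ := by
        intro y hy
        obtain ⟨a, ha⟩ := T.ex y hy
        refine ⟨T.L a, (T.L a).analyticAt y, ?_⟩
        filter_upwards [(T.L a).continuous.continuousAt.eventually_ne ha] with y' h hy'
        exact ⟨hy', a, h, Pr.refl _⟩
      uniq := by
        rintro y y' x x' ⟨c, hc, rfl⟩ ⟨hy, a, ha, h⟩ ⟨hy', a', ha', h'⟩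
        have h1 : T.L a y' ≠ 0 := fun h0 => ha (by rw [map_smul, h0, smul_zero])
        have h2 : Pr (T.L a (c • y')) (T.L a y') := ⟨c, hc, map_smul _ _ _⟩
        exact h.symm.trans (h2.trans ((T.pr y' hy' a a' h1 ha').trans h'))
      div := by
        rintro y x ⟨hy, a, ha, h⟩
        constructor
        · rintro ⟨-, h1⟩
          exact (hz _ _ h).1 (h1 a ha).2
        · intro h1
          refine ⟨hy, fun b hb => ⟨T.mem y hy b hb, ?_⟩⟩
          exact (hz _ _ ((T.pr y hy b a hb ha).trans h)).2 h1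
      imm := by
        intro σ τ hσ hD ρ hρ hov w a hw
        have hy : σ 0 ∈ T.Y := hσ.σ_mem.self_of_nhds
        obtain ⟨b, hb, hbz⟩ : ∃ b, T.L b (σ 0) ≠ 0 ∧ T.L b (σ 0) ∉ zer P RD := by
          by_contra hcon
          push Not at hcon
          exact hD ⟨hy, hcon⟩
        obtain ⟨Λ, hΛ⟩ := exists_dual_vector ℂ (T.L b (σ 0)) (norm_ne_zero_iff.mpr hb)
        have hΛ0 : Λ (T.L b (σ 0)) ≠ 0 := by
          rw [hΛ.2]
          simpa using hb
        have hLσ : AnalyticAt ℂ (fun p => T.L b (σ p)) 0 := ((T.L b).analyticAt _).comp hσ.σ_an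
        have h1 : ∀ᶠ p in 𝓝 (0 : ℂ × ℂ), Λ (T.L b (σ p)) • ρ p = Λ (ρ p) • T.L b (σ p) := by
          filter_upwards [hov, hLσ.continuousAt.eventually_ne hb] with p h2 h3
          obtain ⟨h4, a', h5, h6⟩ := h2
          obtain ⟨c, hc, h7⟩ := (T.pr _ h4 b a' h3 h5).trans h6
          rw [h7, map_smul, smul_eq_mul, smul_smul, mul_comm]
        -- the derivative
        have h2 : HasFDerivAt (fun p => Λ (T.L b (σ p)) • ρ p)
            (Λ (T.L b (σ 0)) • fderiv ℂ ρ 0 + ((Λ.comp (T.L b)).comp (fderiv ℂ σ 0)).smulRight (ρ 0)) 0 := by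
          have h3 : HasFDerivAt (fun p => Λ (T.L b (σ p))) ((Λ.comp (T.L b)).comp (fderiv ℂ σ 0)) 0 :=
            (Λ.comp (T.L b)).hasFDerivAt.comp 0 hσ.σ_an.differentiableAt.hasFDerivAt
          exact h3.smul hρ.differentiableAt.hasFDerivAt
        have h3 : HasFDerivAt (fun p => Λ (ρ p) • T.L b (σ p))
            (Λ (ρ 0) • (T.L b).comp (fderiv ℂ σ 0) + (Λ.comp (fderiv ℂ ρ 0)).smulRight (T.L b (σ 0))) 0 := by
          have h4 : HasFDerivAt (fun p => Λ (ρ p)) (Λ.comp (fderiv ℂ ρ 0)) 0 := Λ.hasFDerivAt.comp 0 hρ.differentiableAt.hasFDerivAt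
          have h5 : HasFDerivAt (fun p => T.L b (σ p)) ((T.L b).comp (fderiv ℂ σ 0)) 0 :=
            (T.L b).hasFDerivAt.comp 0 hσ.σ_an.differentiableAt.hasFDerivAt
          exact h4.smul h5
        have h4 := h2.unique (h3.congr_of_eventuallyEq h1)
        have h5 := DFunLike.congr_fun h4 w
        simp only [add_apply, smul_apply, ContinuousLinearMap.smulRight_apply,
          ContinuousLinearMap.comp_apply, hw, map_smul] at h5
        have h6 := h1.self_of_nhds
        have hρ0 : Λ (ρ 0) ≠ 0 := by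
          intro h7
          rw [h7, zero_smul] at h6
          have h8 : ρ 0 ≠ 0 := hne _ (by
            obtain ⟨h4, a', h5, h6⟩ := hov.self_of_nhds
            exact hcone _ _ h6 (T.mem _ h4 a' h5))
          exact (smul_ne_zero hΛ0 h8) h6
        -- `L (D σ w)` is a multiple of `L σ`
        obtain ⟨u, hu⟩ : ∃ u : ℂ, ρ 0 = u • T.L b (σ 0) := ⟨(Λ (T.L b (σ 0)))⁻¹ * Λ (ρ 0), by
          rw [mul_smul, ← h6, smul_smul, inv_mul_cancel₀ hΛ0, one_smul]⟩
        have hv : ∃ c : ℂ, T.L b (fderiv ℂ σ 0 w) = c • T.L b (σ 0) := by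
          refine ⟨(Λ (ρ 0))⁻¹ * (Λ (T.L b (σ 0)) * a * u + Λ (T.L b (fderiv ℂ σ 0 w)) * u - a * Λ (ρ 0)), ?_⟩
          have h7 : Λ (ρ 0) • T.L b (fderiv ℂ σ 0 w) =
              (Λ (T.L b (σ 0)) * a * u + Λ (T.L b (fderiv ℂ σ 0 w)) * u - a * Λ (ρ 0)) • T.L b (σ 0) := by
            rw [sub_smul, add_smul, eq_sub_iff_add_eq]
            calc Λ (ρ 0) • T.L b (fderiv ℂ σ 0 w) + (a * Λ (ρ 0)) • T.L b (σ 0)
                = Λ (T.L b (σ 0)) • a • ρ 0 + Λ (T.L b (fderiv ℂ σ 0 w)) • ρ 0 := by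
                  rw [h5, smul_eq_mul]
              _ = _ := by
                  rw [hu]
                  simp only [smul_smul, mul_assoc]
          rw [mul_smul, ← h7, smul_smul, inv_mul_cancel₀ hρ0, one_smul]
        have htan : fderiv ℂ σ 0 w ∈ Tan T.Y (σ 0) := by
          have h7 : AnalyticAt ℂ (fun t : ℂ => t • w) 0 := analyticAt_id.smul analyticAt_const
          have h8 : AnalyticAt ℂ σ ((0 : ℂ) • w) := by rw [zero_smul]; exact hσ.σ_an
          refine ⟨fun t => σ (t • w), AnalyticAt.comp (g := σ) (f := fun t : ℂ => t • w) h8 h7, ?_, by simp, ?_⟩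
          · have h9 : Tendsto (fun t : ℂ => t • w) (𝓝 0) (𝓝 (0 : ℂ × ℂ)) := by
              have h10 := h7.continuousAt.tendsto
              simp only [zero_smul] at h10
              exact h10
            exact h9.eventually hσ.σ_mem
          · have h9 : HasDerivAt (fun t : ℂ => t • w) w 0 := by
              have h10 := (hasDerivAt_id (0 : ℂ)).smul_const w
              simpa using h10
            have h10 : HasFDerivAt σ (fderiv ℂ σ 0) ((0 : ℂ) • w) := by
              rw [zero_smul]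
              exact hσ.σ_an.differentiableAt.hasFDerivAt
            exact (h10.comp_hasDerivAt (0 : ℂ) h9).deriv
        obtain ⟨c, hc⟩ := T.imm _ hy b hb hbz _ htan hv
        exact Pool.Agent.H62.BU.IsChart.indep (chart_iff.2 hσ) hc }
  refine ⟨S, fun F hF hFX hFR => ?_⟩
  obtain ⟨z₀, hz₀⟩ := hFR
  obtain ⟨G, h, h1, h2, h3, h4, h5, h6⟩ := T.lift F hF hFX ⟨z₀, fun h => hz₀ h.2⟩
  have hG0 : ∀ z, G z ≠ 0 := fun z h => T.surf.zero (h ▸ h2 z)
  refine ⟨G, ⟨fun z => h1.analyticAt z, fun z => ⟨h2 z, ?_⟩, ?_⟩⟩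
  · obtain ⟨a, ha⟩ := T.ex _ (h2 z)
    obtain ⟨c, hc⟩ := h6 z a
    refine ⟨a, ha, c, ?_, hc⟩
    rintro rfl
    exact ha (by rw [hc, zero_smul])
  · refine en_le (G := fun z => e (G z)) (K := ‖e‖ * T.K) hF (fun z => hne _ (hFX z)) (e.differentiable.comp h1) (fun z h0 => hG0 z ?_) h3 h4 fun z => ?_
    · exact (map_eq_zero_iff e he).1 h0
    · have h7 : ‖e (G z)‖ ≤ ‖e‖ * ‖G z‖ := e.le_opNorm (G z)
      calc ‖h z‖ * ‖e (G z)‖ ≤ ‖h z‖ * (‖e‖ * ‖G z‖) := mul_le_mul_of_nonneg_left h7 (norm_nonneg _)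
        _ = ‖e‖ * (‖h z‖ * ‖G z‖) := by ring
        _ ≤ ‖e‖ * (T.K * ‖F z‖ ^ T.d) := mul_le_mul_of_nonneg_left (h5 z) (norm_nonneg _)
        _ = ‖e‖ * T.K * ‖F z‖ ^ T.d := by ring

end Pool.Agent.MQ3
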