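import Pool.Agent.MQ3.GlobP
import Pool.Agent.MQ3.GlobI
import Pool.Agent.MQ3.Defs
import Pool.Agent.MQ2.Energy

/-!
# MQ3 GlobB: the normal crossings model and the lifts of curves
-/

set_option autoImplicit false

open Topology Filter Metric MvPolynomial MeasureTheory

noncomputable section

namespace Pool.Agent.MQ3

open Pool.Agent.H36.BP (EN fs wd)
open Pool.Agent.H17BP (Surface IsChart NodalAt Pr Bihol)
open Pool.Agent.H17EF (projVar coneE)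
open Pool.Agent.H62.FC (Homog)
open Pool.Agent.H17LG.Variety (FunField)
open Pool.Agent.H13.SM (conTan)
open Pool.Agent.H30M (tau)
open Pool.Agent.MQ (lam En)

variable {M : ℕ} {P : Ideal (MvPolynomial (Fin (M + 1)) ℂ)} {RD : MvPolynomial (Fin (M + 1)) ℂ} {S : NCOver P RD}

theorem det_bihol {θ : ℂ × ℂ → ℂ × ℂ} (h : Bihol θ) : (fderiv ℂ θ 0).det ≠ 0 := by
  obtain ⟨θ', h1, h2, h3, -⟩ := h.inv
  have d1 : HasFDerivAt θ (fderiv ℂ θ 0) 0 := h.an.differentiableAt.hasFDerivAt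
  have d2 : HasFDerivAt θ' (fderiv ℂ θ' 0) (θ 0) := by
    rw [h.zero]
    exact h1.differentiableAt.hasFDerivAt
  have d3 : HasFDerivAt (θ' ∘ θ) ((fderiv ℂ θ' 0).comp (fderiv ℂ θ 0)) 0 := d2.comp 0 d1
  have d4 : HasFDerivAt (θ' ∘ θ) (ContinuousLinearMap.id ℂ (ℂ × ℂ)) 0 := by
    refine (hasFDerivAt_id (0 : ℂ × ℂ)).congr_of_eventuallyEq ?_
    filter_upwards [h3] with x hx
    exact hx
  have d5 := d3.unique d4
  intro h0
  have d6 : LinearMap.det ((fderiv ℂ θ' 0 : ℂ × ℂ →ₗ[ℂ] ℂ × ℂ) ∘ₗ (fderiv ℂ θ 0 : ℂ × ℂ →ₗ[ℂ] ℂ × ℂ)) = 1 := by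
    have e1 : ((fderiv ℂ θ' 0 : ℂ × ℂ →ₗ[ℂ] ℂ × ℂ) ∘ₗ (fderiv ℂ θ 0 : ℂ × ℂ →ₗ[ℂ] ℂ × ℂ)) = LinearMap.id :=
      LinearMap.ext fun x => DFunLike.congr_fun d5 x
    rw [e1, LinearMap.det_id]
  rw [LinearMap.det_comp] at d6
  have d7 : LinearMap.det (fderiv ℂ θ 0 : ℂ × ℂ →ₗ[ℂ] ℂ × ℂ) = 0 := h0
  rw [d7, mul_zero] at d6
  exact zero_ne_one d6

theorem PBox.an (B : PBox S) {p : ℂ × ℂ} (hp : p ∈ closedBall (0 : ℂ × ℂ) 1) : AnalyticAt ℂ B.σ p := by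
  obtain ⟨τ, hτ⟩ := B.chart p hp
  have h1 : AnalyticAt ℂ (fun x => B.σ (p + x)) (p - p) := by rw [sub_self]; exact hτ.σ_an
  have h2 : AnalyticAt ℂ (fun x : ℂ × ℂ => x - p) p := analyticAt_id.sub analyticAt_const
  have h3 := AnalyticAt.comp (g := fun x => B.σ (p + x)) (f := fun x : ℂ × ℂ => x - p) h1 h2
  have h4 : ((fun x => B.σ (p + x)) ∘ fun x : ℂ × ℂ => x - p) = B.σ := by
    funext x
    simp
  rwa [h4] at h3

theorem gb_add (p : ℂ × ℂ) : Tendsto (fun x : ℂ × ℂ => p + x) (𝓝 0) (𝓝 p) := by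
  have h1 : Continuous fun x : ℂ × ℂ => p + x := by fun_prop
  simpa using h1.tendsto 0

theorem gb_fderiv {E : Type*} [NormedAddCommGroup E] [NormedSpace ℂ E] (f : ℂ × ℂ → E) (p : ℂ × ℂ) :
    fderiv ℂ (fun x => f (p + x)) 0 = fderiv ℂ f p := by
  rw [fderiv_comp_add_left, add_zero]

/-- the box as a parametrization of the given surface -/
theorem PBox.box (B : PBox S) : NCBox (coneE P) B.ρ := by
  have hcl : ∀ p : ℂ × ℂ, ‖p.1‖ ≤ 1 → ‖p.2‖ ≤ 1 → p ∈ closedBall (0 : ℂ × ℂ) 1 := fun p h1 h2 => by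
    rw [mem_closedBall_zero_iff, Prod.norm_def]
    exact max_le h1 h2
  refine ⟨fun p h1 h2 => B.ρ_an p (hcl p h1 h2), fun p h1 h2 => ?_, fun p hp w a hw => ?_⟩
  · filter_upwards [B.ov p (hcl p h1 h2)] with q hq
    exact (S.mem _ _ hq).2
  · obtain ⟨τ, hτ⟩ := B.chart p (DS_sub hp)
    refine S.imm _ τ hτ ?_ (fun x => B.ρ (p + x)) ?_ ?_ w a ?_
    · show B.σ (p + 0) ∉ S.D
      rw [add_zero]
      exact B.off p hp
    · have h1 : AnalyticAt ℂ B.ρ (p + 0) := by rw [add_zero]; exact B.ρ_an p (DS_sub hp)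
      exact AnalyticAt.comp (g := B.ρ) (f := fun x : ℂ × ℂ => p + x) h1 (analyticAt_const.add analyticAt_id)
    · exact (gb_add p).eventually (B.ov p (DS_sub hp))
    · rw [gb_fderiv, add_zero]
      exact hw

theorem PBox.good (B : PBox S) {p : ℂ × ℂ} (hp : p ∈ DS) : eval (B.ρ p).ofLp RD ≠ 0 := fun h =>
  B.off p hp ((S.div _ _ (B.ov p (DS_sub hp)).self_of_nhds).2 h)

theorem PBox.div' (B : PBox S) {p : ℂ × ℂ} (hp : p ∈ ball B.c B.b) : eval (B.ρ p).ofLp RD = 0 ↔ p.1 * p.2 = 0 :=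
  (S.div _ _ (B.ov p (B.sub' hp)).self_of_nhds).symm.trans (B.div p hp)

theorem PBox.zero_mem (B : PBox S) (h : (0 : ℂ × ℂ) ∈ ball B.c B.b) : B.c = 0 ∧ B.b = 1 := by
  rcases B.ty with h1 | ⟨h1, h2⟩ | ⟨h1, h2⟩
  · exact h1
  · rw [h1, h2, mem_ball, dist_eq_norm, Prod.norm_def, max_lt_iff] at h
    exfalso
    have := h.2
    norm_num at this
  · rw [h1, h2, mem_ball, dist_eq_norm, Prod.norm_def, max_lt_iff] at h
    exfalso
    have := h.2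
    norm_num at this

theorem PBox.side (B : PBox S) (h : (0 : ℂ × ℂ) ∉ ball B.c B.b) {p : ℂ × ℂ} (hp : p ∈ ball B.c B.b) : p.2 ≠ 0 := by
  have hhalf : ∀ z : ℂ, ‖z - 1 / 2‖ < 1 / 4 → z ≠ 0 := by
    rintro z hz rfl
    rw [zero_sub, norm_neg] at hz
    norm_num at hz
  rcases B.ty with ⟨h1, h2⟩ | ⟨h1, h2⟩ | ⟨h1, h2⟩
  · exfalso
    apply h
    rw [h1, h2]
    exact mem_ball_self one_pos
  · rw [h1, h2, mem_ball, dist_eq_norm, Prod.norm_def, max_lt_iff] at hp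
    exact hhalf _ hp.2
  · rw [h1, h2, mem_ball, dist_eq_norm, Prod.norm_def, max_lt_iff] at hp
    exact hhalf _ hp.2

/-- the change of the boxes -/
theorem PBox.iso (A B : PBox S) {p q : ℂ × ℂ} (hp : p ∈ closedBall (0 : ℂ × ℂ) 1) (hq : q ∈ closedBall (0 : ℂ × ℂ) 1) (h : Pr (A.σ p) (B.σ q)) :
    ∃ Φ : ℂ × ℂ → ℂ × ℂ, AnalyticAt ℂ Φ p ∧ Φ p = q ∧ (fderiv ℂ Φ p).det ≠ 0 ∧
    (∀ᶠ x in 𝓝 p, Pr (A.σ x) (B.σ (Φ x))) ∧ ∀ᶠ x in 𝓝 p, ∃ c : ℂ, c ≠ 0 ∧ A.ρ x = c • B.ρ (Φ x) := by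
  obtain ⟨τ, hτ⟩ := A.chart p hp
  obtain ⟨τ', hτ'⟩ := B.chart q hq
  obtain ⟨θ, hθ, hev⟩ := IsChart.trans S.surf.smul hτ' hτ (by simpa using h)
  have hsub : Tendsto (fun x : ℂ × ℂ => x - p) (𝓝 p) (𝓝 0) := by
    have h1 : Continuous fun x : ℂ × ℂ => x - p := by fun_prop
    simpa using h1.tendsto p
  have hΦan : AnalyticAt ℂ (fun x => q + θ (x - p)) p := by
    have h1 : AnalyticAt ℂ θ (p - p) := by rw [sub_self]; exact hθ.an
    exact analyticAt_const.add (AnalyticAt.comp (g := θ) (f := fun x : ℂ × ℂ => x - p) h1 (analyticAt_id.sub analyticAt_const))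
  have hΦ0 : q + θ (p - p) = q := by rw [sub_self, hθ.zero, add_zero]
  have hrel : ∀ᶠ x in 𝓝 p, Pr (A.σ x) (B.σ (q + θ (x - p))) := by
    filter_upwards [hsub.eventually hev] with x hx
    rwa [add_sub_cancel] at hx
  have hΦt : Tendsto (fun x => q + θ (x - p)) (𝓝 p) (𝓝 q) := by
    have := hΦan.continuousAt.tendsto
    rwa [hΦ0] at this
  refine ⟨fun x => q + θ (x - p), hΦan, hΦ0, ?_, hrel, ?_⟩
  · have h1 : fderiv ℂ (fun x => q + θ (x - p)) p = fderiv ℂ θ 0 := by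
      rw [fderiv_const_add, fderiv_comp_sub, sub_self]
    rw [h1]
    exact det_bihol hθ
  · filter_upwards [hrel, A.ov p hp, hΦt.eventually (B.ov q hq)] with x h1 h2 h3
    exact S.uniq _ _ _ _ h1 h2 h3

/-- **the normal crossings model** -/
def ncModel {ι : Type} [Fintype ι] (B : ι → PBox S) (hB : ∀ i j, Pr ((B i).σ (B i).c) ((B j).σ (B j).c) → i = j) : NCModel P RD where
  ι := ι
  ρ := fun i => (B i).ρ
  B := fun i => ball (B i).c (B i).b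
  C := fun i => closedBall (B i).c ((B i).b / 2)
  rel := fun i p j q => Pr ((B i).σ p) ((B j).σ q)
  box := fun i => (B i).box
  good := fun i p hp => (B i).good hp
  isOpen := fun i => isOpen_ball
  sub := fun i => by rw [DD_eq]; exact (B i).sub
  compact := fun i => isCompact_closedBall _ _
  C_sub := fun i => closedBall_subset_ball (half_lt_self (B i).b_pos)
  div := fun i p hp => (B i).div' hp
  corner := by
    intro i h0
    obtain ⟨hc, hb⟩ := (B i).zero_mem h0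
    refine ⟨by rw [DD_eq, hc, hb], fun j p hp hr => ?_⟩
    have h1 : Cr S ((B j).σ p) := ((B i).cr hc).pr hr
    have hp0 : p = 0 := by
      by_contra hp0
      exact (B j).ncr hp hp0 h1
    rw [hp0] at hp hr
    obtain ⟨hc', -⟩ := (B j).zero_mem hp
    refine ⟨(hB i j ?_).symm, hp0⟩
    rw [hc, hc']
    exact hr
  side := fun i h p hp => (B i).side h hp
  refl := fun i p hp q hq => ⟨fun h => (B i).inj p ((B i).sub' hp) q ((B i).sub' hq) h, fun h => by rw [h]; exact Pool.Agent.H17BP.Pr.refl _⟩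
  symm := fun i j p q _ _ h => h.symm
  trans := fun i j k p q r _ _ _ h h' => h.trans h'
  iso := fun i j p hp q hq h => (B i).iso (B j) ((B i).sub' hp) ((B j).sub' hq) h
  sep := by
    intro i j p hp q hq h
    have h1 := not_pr_eventually ((B i).ne_zero ((B i).sub' hp)) ((B j).ne_zero ((B j).sub' hq)) h
    have h2 : Tendsto (fun x : (ℂ × ℂ) × (ℂ × ℂ) => ((B i).σ x.1, (B j).σ x.2)) (𝓝 (p, q)) (𝓝 ((B i).σ p, (B j).σ q)) :=
      (((B i).an ((B i).sub' hp)).continuousAt.tendsto.comp (continuous_fst.tendsto (p, q))).prodMk_nhds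
        (((B j).an ((B j).sub' hq)).continuousAt.tendsto.comp (continuous_snd.tendsto (p, q)))
    exact h2.eventually h1

/-! ## curves in the boxes -/

open Classical in
/-- the coordinates in the box -/
def PBox.crd (B : PBox S) (y : S.V) : ℂ × ℂ := if h : ∃ q ∈ ball B.c B.b, Pr y (B.σ q) then h.choose else 0

theorem PBox.crd_spec (B : PBox S) {y : S.V} (h : ∃ q ∈ ball B.c B.b, Pr y (B.σ q)) : B.crd y ∈ ball B.c B.b ∧ Pr y (B.σ (B.crd y)) := by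
  unfold PBox.crd
  rw [dif_pos h]
  exact h.choose_spec

theorem PBox.crd_eq (B : PBox S) {y : S.V} {q : ℂ × ℂ} (hq : q ∈ ball B.c B.b) (h : Pr y (B.σ q)) : B.crd y = q := by
  obtain ⟨h1, h2⟩ := B.crd_spec ⟨q, hq, h⟩
  exact B.inj _ (B.sub' h1) _ (B.sub' hq) (h2.symm.trans h)

theorem PBox.curve (B : PBox S) {G : ℂ → S.V} (hG : ∀ z, AnalyticAt ℂ G z) (hY : ∀ z, G z ∈ S.Y) {z : ℂ} (hz : ∃ q ∈ ball B.c B.b, Pr (G z) (B.σ q)) :
    (∀ᶠ w in 𝓝 z, ∃ q ∈ ball B.c B.b, Pr (G w) (B.σ q)) ∧ AnalyticAt ℂ (fun w => B.crd (G w)) z := by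
  obtain ⟨q, hq, hr⟩ := hz
  obtain ⟨T, h1, h2, h3⟩ := B.loc (B.sub' hq) hr
  have hGt : Tendsto G (𝓝 z) (𝓝 (G z)) := (hG z).continuousAt.tendsto
  have hφ : AnalyticAt ℂ (fun w => T (G w)) z := AnalyticAt.comp (g := T) (f := G) h1 (hG z)
  have hφt : Tendsto (fun w => T (G w)) (𝓝 z) (𝓝 q) := by
    have := hφ.continuousAt.tendsto
    rwa [h2] at this
  have h4 : ∀ᶠ w in 𝓝 z, T (G w) ∈ ball B.c B.b ∧ Pr (G w) (B.σ (T (G w))) := by
    filter_upwards [hφt.eventually (isOpen_ball.mem_nhds hq), hGt.eventually h3] with w h5 h6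
    exact ⟨h5, h6 (hY w)⟩
  refine ⟨h4.mono fun w hw => ⟨_, hw.1, hw.2⟩, hφ.congr ?_⟩
  filter_upwards [h4] with w hw
  exact (B.crd_eq hw.1 hw.2).symm

theorem speed_gen {N : ℕ} {f : ℂ × ℂ → EN N} {K : Set (ℂ × ℂ)} (hK : IsCompact K) (han : ∀ q ∈ K, AnalyticAt ℂ f q) (h0 : ∀ q ∈ K, f q ≠ 0)
    (hi : ∀ q ∈ K, ∀ (w : ℂ × ℂ) (a : ℂ), fderiv ℂ f q w = a • f q → w = 0) :
    ∃ C : ℝ, 0 ≤ C ∧ ∀ q ∈ K, ∀ w : ℂ × ℂ, ‖w‖ ≤ C * fs (f q) (fderiv ℂ f q w) := by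
  rcases K.eq_empty_or_nonempty with he | ⟨q₁, hq₁⟩
  · exact ⟨0, le_rfl, fun q hq => by rw [he] at hq; exact absurd hq (Set.notMem_empty _)⟩
  have h1 : ((1, 0) : ℂ × ℂ) ∈ sphere (0 : ℂ × ℂ) 1 := by
    rw [mem_sphere_zero_iff_norm, Prod.norm_def]
    simp
  have hne : (K ×ˢ sphere (0 : ℂ × ℂ) 1).Nonempty := ⟨(q₁, (1, 0)), hq₁, h1⟩
  have hcont : ContinuousOn (fun x : (ℂ × ℂ) × (ℂ × ℂ) => fs (f x.1) (fderiv ℂ f x.1 x.2)) (K ×ˢ sphere (0 : ℂ × ℂ) 1) := by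
    rintro ⟨q, w⟩ ⟨hq, -⟩
    have hσ := han q hq
    have hσc : ContinuousAt (fun x : (ℂ × ℂ) × (ℂ × ℂ) => f x.1) (q, w) :=
      ContinuousAt.comp (g := f) (f := fun x : (ℂ × ℂ) × (ℂ × ℂ) => x.1) hσ.continuousAt continuousAt_fst
    have h2 : ContinuousAt (fun x : (ℂ × ℂ) × (ℂ × ℂ) => fderiv ℂ f x.1) (q, w) :=
      ContinuousAt.comp (g := fderiv ℂ f) (f := fun x : (ℂ × ℂ) × (ℂ × ℂ) => x.1) hσ.fderiv.continuousAt continuousAt_fst
    have hdc : ContinuousAt (fun x : (ℂ × ℂ) × (ℂ × ℂ) => fderiv ℂ f x.1 x.2) (q, w) := h2.clm_apply continuousAt_snd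
    have hw : ContinuousAt (fun x : (ℂ × ℂ) × (ℂ × ℂ) => wd (f x.1) (fderiv ℂ f x.1 x.2)) (q, w) :=
      ContinuousAt.comp (g := fun p : EN N × EN N => wd p.1 p.2) (f := fun x : (ℂ × ℂ) × (ℂ × ℂ) => (f x.1, fderiv ℂ f x.1 x.2))
        Pool.Agent.H36.BP.wd_cont.continuousAt (hσc.prodMk hdc)
    have h3 : ContinuousAt (fun x : (ℂ × ℂ) × (ℂ × ℂ) => wd (f x.1) (fderiv ℂ f x.1 x.2) / ‖f x.1‖ ^ 2) (q, w) :=
      hw.div (hσc.norm.pow 2) (pow_ne_zero 2 (norm_ne_zero_iff.2 (h0 q hq)))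
    exact h3.continuousWithinAt
  obtain ⟨⟨q₀, w₀⟩, ⟨hq₀, hw₀⟩, hmin⟩ := (hK.prod (isCompact_sphere (0 : ℂ × ℂ) 1)).exists_isMinOn hne hcont
  obtain ⟨μ, hμ⟩ : ∃ μ : ℝ, μ = fs (f q₀) (fderiv ℂ f q₀ w₀) := ⟨_, rfl⟩
  have hμ0 : 0 < μ := by
    rw [hμ]
    refine lt_of_le_of_ne (Pool.Agent.H36.BP.fs_nonneg _ _) fun h0' => ?_
    have h4 : wd (f q₀) (fderiv ℂ f q₀ w₀) = 0 := by
      have h5 : wd (f q₀) (fderiv ℂ f q₀ w₀) / ‖f q₀‖ ^ 2 = 0 := h0'.symm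
      exact (div_eq_zero_iff.1 h5).resolve_right (pow_ne_zero 2 (norm_ne_zero_iff.2 (h0 q₀ hq₀)))
    obtain ⟨a, ha⟩ := (Pool.Agent.H36.BP.wd_eq_zero (h0 q₀ hq₀)).1 h4
    have h6 : w₀ = 0 := hi q₀ hq₀ w₀ a ha
    have hw₀' := mem_sphere_zero_iff_norm.1 hw₀
    rw [h6, norm_zero] at hw₀'
    exact zero_ne_one hw₀'
  refine ⟨μ⁻¹, by positivity, fun q hq w => ?_⟩
  rcases eq_or_ne w 0 with rfl | hw
  · rw [norm_zero]
    exact mul_nonneg (by positivity) (Pool.Agent.H36.BP.fs_nonneg _ _)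
  have hwn : 0 < ‖w‖ := norm_pos_iff.2 hw
  obtain ⟨u, hu⟩ : ∃ u : ℂ × ℂ, u = ((‖w‖⁻¹ : ℝ) : ℂ) • w := ⟨_, rfl⟩
  have hu1 : u ∈ sphere (0 : ℂ × ℂ) 1 := by
    rw [mem_sphere_zero_iff_norm, hu, norm_smul, Complex.norm_real, norm_inv, norm_norm, inv_mul_cancel₀ hwn.ne']
  have h2 : fs (f q₀) (fderiv ℂ f q₀ w₀) ≤ fs (f q) (fderiv ℂ f q u) := isMinOn_iff.1 hmin (q, u) ⟨hq, hu1⟩
  rw [← hμ, hu, map_smul, Pool.Agent.H36.BP.fs_smul_right, Complex.norm_real, norm_inv, norm_norm] at h2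
  rw [inv_mul_eq_div, le_div_iff₀ hμ0]
  rw [inv_mul_eq_div, le_div_iff₀ hwn] at h2
  linarith

theorem PBox.ean (B : PBox S) {q : ℂ × ℂ} (hq : q ∈ closedBall (0 : ℂ × ℂ) 1) : AnalyticAt ℂ (fun q => S.e (B.σ q)) q :=
  AnalyticAt.comp (g := S.e) (f := B.σ) (S.e.analyticAt _) (B.an hq)

theorem PBox.e_ne (B : PBox S) {q : ℂ × ℂ} (hq : q ∈ closedBall (0 : ℂ × ℂ) 1) : S.e (B.σ q) ≠ 0 := fun h =>
  B.ne_zero hq (S.e_inj (by rw [h, map_zero]))

theorem PBox.e_fderiv (B : PBox S) {q : ℂ × ℂ} (hq : q ∈ closedBall (0 : ℂ × ℂ) 1) (w : ℂ × ℂ) :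
    fderiv ℂ (fun q => S.e (B.σ q)) q w = S.e (fderiv ℂ B.σ q w) := by
  have h1 : HasFDerivAt (fun q => S.e (B.σ q)) (S.e.comp (fderiv ℂ B.σ q)) q := S.e.hasFDerivAt.comp q (B.an hq).differentiableAt.hasFDerivAt
  rw [h1.fderiv]
  rfl

/-- the parametrization is an immersion on compact sets -/
theorem PBox.speed (B : PBox S) {K : Set (ℂ × ℂ)} (hK : IsCompact K) (hKB : K ⊆ closedBall (0 : ℂ × ℂ) 1) :
    ∃ C : ℝ, 0 ≤ C ∧ ∀ q ∈ K, ∀ w : ℂ × ℂ, ‖w‖ ≤ C * fs (S.e (B.σ q)) (fderiv ℂ (fun q => S.e (B.σ q)) q w) := by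
  refine speed_gen hK (fun q hq => B.ean (hKB hq)) (fun q hq => B.e_ne (hKB hq)) fun q hq w a h => ?_
  rw [B.e_fderiv (hKB hq), ← map_smul] at h
  have h5 : fderiv ℂ B.σ q w = a • B.σ q := S.e_inj h
  obtain ⟨τ, hτ⟩ := B.chart q (hKB hq)
  exact chart_imm_zero hτ (w := w) (a := a) (by rw [gb_fderiv, add_zero]; exact h5)

/-- the derivative of the coordinates is bounded by the length of the derivative of the curve -/
theorem PBox.deriv_le (B : PBox S) {G : ℂ → S.V} (hG : ∀ z, AnalyticAt ℂ G z) (hY : ∀ z, G z ∈ S.Y) {z : ℂ} (hz : ∃ q ∈ ball B.c B.b, Pr (G z) (B.σ q)) :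
    lam (fun w => S.e (G w)) z = fs (S.e (B.σ (B.crd (G z)))) (fderiv ℂ (fun q => S.e (B.σ q)) (B.crd (G z)) (deriv (fun w => B.crd (G w)) z)) := by
  obtain ⟨h1, h2⟩ := B.curve hG hY hz
  obtain ⟨h3, h4⟩ := B.crd_spec hz
  have hσ := B.an (B.sub' h3)
  have hσc : AnalyticAt ℂ (fun w => B.σ (B.crd (G w))) z := AnalyticAt.comp (g := B.σ) (f := fun w => B.crd (G w)) hσ h2
  obtain ⟨Λ, hΛ⟩ := gp_dual (B.ne_zero (B.sub' h3))
  have hΛσ : AnalyticAt ℂ (fun w => Λ (B.σ (B.crd (G w)))) z := AnalyticAt.comp (g := Λ) (f := fun w => B.σ (B.crd (G w))) (Λ.analyticAt _) hσc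
  have hΛG : AnalyticAt ℂ (fun w => Λ (G w)) z := AnalyticAt.comp (g := Λ) (f := G) (Λ.analyticAt _) (hG z)
  have ha : AnalyticAt ℂ (fun w => Λ (G w) / Λ (B.σ (B.crd (G w)))) z := hΛG.div hΛσ hΛ
  have hne : ∀ᶠ w in 𝓝 z, Λ (B.σ (B.crd (G w))) ≠ 0 := hΛσ.continuousAt.eventually_ne hΛ
  have heq : ∀ᶠ w in 𝓝 z, S.e (G w) = (Λ (G w) / Λ (B.σ (B.crd (G w)))) • S.e (B.σ (B.crd (G w))) := by
    filter_upwards [h1, hne] with w h5 h6
    obtain ⟨-, a, ha, h7⟩ := B.crd_spec h5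
    have h8 : Λ (G w) / Λ (B.σ (B.crd (G w))) = a := by
      rw [div_eq_iff h6]
      conv_lhs => rw [h7]
      rw [map_smul, smul_eq_mul]
    rw [h8, ← map_smul, ← h7]
  have ha0 : Λ (G z) / Λ (B.σ (B.crd (G z))) ≠ 0 := by
    obtain ⟨a, ha, h7⟩ := h4
    have h8 : Λ (G z) = a * Λ (B.σ (B.crd (G z))) := by
      conv_lhs => rw [h7]
      rw [map_smul, smul_eq_mul]
    rw [h8]
    exact div_ne_zero (mul_ne_zero ha hΛ) hΛ
  have hd : HasDerivAt (fun w => S.e (B.σ (B.crd (G w)))) (fderiv ℂ (fun q => S.e (B.σ q)) (B.crd (G z)) (deriv (fun w => B.crd (G w)) z)) z := by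
    have e1 : HasDerivAt (fun w => B.crd (G w)) (deriv (fun w => B.crd (G w)) z) z := h2.differentiableAt.hasDerivAt
    exact HasFDerivAt.comp_hasDerivAt (f := fun w => B.crd (G w)) (l := fun q => S.e (B.σ q)) z (B.ean (B.sub' h3)).differentiableAt.hasFDerivAt e1
  rw [Pool.Agent.MQ2.lam_smul heq ha.differentiableAt ha0 hd.differentiableAt]
  show fs (S.e (B.σ (B.crd (G z)))) (deriv (fun w => S.e (B.σ (B.crd (G w)))) z) = _
  rw [hd.deriv]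

/-- the curve in the boxes -/
def ncLift {ι : Type} [Fintype ι] (B : ι → PBox S) (hB : ∀ i j, Pr ((B i).σ (B i).c) ((B j).σ (B j).c) → i = j)
    (hcov : ∀ y ∈ S.Y, ∃ i, ∃ q ∈ closedBall (B i).c ((B i).b / 2), Pr y ((B i).σ q)) {F : ℂ → EN M} {G : ℂ → S.V} (h : S.Lift F G) :
    NCLift (ncModel B hB) F where
  U := fun i => {z | ∃ q ∈ ball (B i).c (B i).b, Pr (G z) ((B i).σ q)}
  p := fun i z => (B i).crd (G z)
  isOpen := fun i => isOpen_iff_mem_nhds.2 fun z hz => ((B i).curve h.an (fun z => (S.mem _ _ (h.ov z)).1) hz).1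
  an := fun i z hz => ((B i).curve h.an (fun z => (S.mem _ _ (h.ov z)).1) hz).2
  mem := fun i z hz => ((B i).crd_spec hz).1
  eq := fun i z hz => S.uniq _ _ _ _ ((B i).crd_spec hz).2 (h.ov z) ((B i).ov _ ((B i).sub' ((B i).crd_spec hz).1)).self_of_nhds
  closed := by
    intro i K hKB hK
    have hKB' : K ⊆ ball (B i).c (B i).b := hKB
    have e1 : {z | z ∈ {z | ∃ q ∈ ball (B i).c (B i).b, Pr (G z) ((B i).σ q)} ∧ (B i).crd (G z) ∈ K} = {z | ∃ q ∈ K, Pr (G z) ((B i).σ q)} := by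
      ext z
      constructor
      · rintro ⟨h1, h2⟩
        exact ⟨_, h2, ((B i).crd_spec h1).2⟩
      · rintro ⟨q, hq, hr⟩
        refine ⟨⟨q, hKB' hq, hr⟩, ?_⟩
        rw [(B i).crd_eq (hKB' hq) hr]
        exact hq
    have e2 : IsClosed {z | ∃ q ∈ K, Pr (G z) ((B i).σ q)} := by
      rw [← isOpen_compl_iff, isOpen_iff_mem_nhds]
      intro z hz
      have hz' : ∀ q ∈ K, ¬ Pr (G z) ((B i).σ q) := fun q hq hr => hz ⟨q, hq, hr⟩
      have h1 : ∀ᶠ w in 𝓝 z, ∀ q ∈ K, ¬ Pr (G w) ((B i).σ q) := by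
        refine hK.eventually_forall_of_forall_eventually fun q hq => ?_
        have hG0 : G z ≠ 0 := fun h0 => S.surf.zero (h0 ▸ (S.mem _ _ (h.ov z)).1)
        have h2 := not_pr_eventually hG0 ((B i).ne_zero ((B i).sub' (hKB' hq))) (hz' q hq)
        have h3 : Tendsto (fun x : ℂ × (ℂ × ℂ) => (G x.1, (B i).σ x.2)) (𝓝 (z, q)) (𝓝 (G z, (B i).σ q)) :=
          ((h.an z).continuousAt.tendsto.comp (continuous_fst.tendsto (z, q))).prodMk_nhds
            (((B i).an ((B i).sub' (hKB' hq))).continuousAt.tendsto.comp (continuous_snd.tendsto (z, q)))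
        exact h3.eventually h2
      filter_upwards [h1] with w hw
      rintro ⟨q, hq, hr⟩
      exact hw q hq hr
    exact e1 ▸ e2
  cover := by
    intro z
    obtain ⟨i, q, hq, hr⟩ := hcov (G z) (S.mem _ _ (h.ov z)).1
    have hq' : q ∈ ball (B i).c (B i).b := closedBall_subset_ball (half_lt_self (B i).b_pos) hq
    refine ⟨i, ⟨q, hq', hr⟩, ?_⟩
    show (B i).crd (G z) ∈ closedBall (B i).c ((B i).b / 2)
    rw [(B i).crd_eq hq' hr]
    exact hq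
  rel := fun i j z hi hj => ((B i).crd_spec hi).2.symm.trans ((B j).crd_spec hj).2
  full := by
    intro i j z hi q hq hr
    have h1 : Pr (G z) ((B j).σ q) := ((B i).crd_spec hi).2.trans hr
    exact ⟨⟨q, hq, h1⟩, (B j).crd_eq hq h1⟩

open Classical in
/-- the constants of the boxes -/
def ncCK {ι : Type} [Fintype ι] (B : ι → PBox S) (i : ι) (K : Set (ℂ × ℂ)) : ℝ :=
  if h : IsCompact K ∧ K ⊆ closedBall (0 : ℂ × ℂ) 1 then ((B i).speed h.1 h.2).choose else 0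

theorem ncDens {ι : Type} [Fintype ι] (B : ι → PBox S) (hB : ∀ i j, Pr ((B i).σ (B i).c) ((B j).σ (B j).c) → i = j)
    (hcov : ∀ y ∈ S.Y, ∃ i, ∃ q ∈ closedBall (B i).c ((B i).b / 2), Pr y ((B i).σ q)) {F : ℂ → EN M} {G : ℂ → S.V} (h : S.Lift F G)
    (hF : Differentiable ℂ F) (hF0 : ∀ z, F z ≠ 0) :
    NCDens (ncLift B hB hcov h) (2 + 2 * S.A) (fun i K => ncCK B i K) (fun z => lam F z + lam (fun w => S.e (G w)) z) := by
  have hG0 : ∀ z, S.e (G z) ≠ 0 := fun z h0 => S.surf.zero (by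
    have h1 : G z = 0 := S.e_inj (by rw [h0, map_zero])
    exact h1 ▸ (S.mem _ _ (h.ov z)).1)
  have hGd : Differentiable ℂ fun z => S.e (G z) := fun z => (S.e.hasFDerivAt.comp_hasDerivAt z (h.an z).differentiableAt.hasDerivAt).differentiableAt
  have c1 : Continuous (lam F) := Pool.Agent.MQ.continuous_lam hF hF0
  have c2 : Continuous (lam fun w => S.e (G w)) := Pool.Agent.MQ.continuous_lam hGd hG0
  have n1 : ∀ z, 0 ≤ lam F z := Pool.Agent.MQ.lam_nonneg F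
  have n2 : ∀ z, 0 ≤ lam (fun w => S.e (G w)) z := Pool.Agent.MQ.lam_nonneg _
  refine ⟨c1.add c2, fun z => le_add_of_nonneg_right (n2 z), ?_, ?_⟩
  · obtain ⟨K, hK⟩ := h.en
    refine ⟨2 * K, fun R hR => ?_⟩
    have ct := (Pool.Agent.H30M.contDiff_tau R).continuous
    have hi : ∀ f : ℂ → ℝ, Continuous f → Integrable fun z => tau R z * f z := fun f hf =>
      (ct.mul hf).integrable_of_hasCompactSupport ((Pool.Agent.H30M.hcs_tau hR).mul_right)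
    have i1 : Integrable fun z => tau R z * (2 * lam F z ^ 2) := hi (fun z => 2 * lam F z ^ 2) (continuous_const.mul (c1.pow 2))
    have i2 : Integrable fun z => tau R z * (2 * lam (fun w => S.e (G w)) z ^ 2) :=
      hi (fun z => 2 * lam (fun w => S.e (G w)) z ^ 2) (continuous_const.mul (c2.pow 2))
    have i3 : Integrable fun z => tau R z * (lam F z + lam (fun w => S.e (G w)) z) ^ 2 :=
      hi (fun z => (lam F z + lam (fun w => S.e (G w)) z) ^ 2) ((c1.add c2).pow 2)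
    have h1 : ∫ z, tau R z * (lam F z + lam (fun w => S.e (G w)) z) ^ 2 ≤
        ∫ z, (tau R z * (2 * lam F z ^ 2) + tau R z * (2 * lam (fun w => S.e (G w)) z ^ 2)) := by
      refine integral_mono i3 (i1.add i2) fun z => ?_
      show tau R z * (lam F z + lam (fun w => S.e (G w)) z) ^ 2 ≤ tau R z * (2 * lam F z ^ 2) + tau R z * (2 * lam (fun w => S.e (G w)) z ^ 2)
      rw [← mul_add]
      refine mul_le_mul_of_nonneg_left ?_ (Pool.Agent.H30M.tau_nonneg hR z)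
      nlinarith [sq_nonneg (lam F z - lam (fun w => S.e (G w)) z)]
    rw [integral_add i1 i2] at h1
    have e1 : ∫ z, tau R z * (2 * lam F z ^ 2) = 2 * En F R := by
      rw [En, ← integral_const_mul]
      congr 1
      funext z
      ring
    have e2 : ∫ z, tau R z * (2 * lam (fun w => S.e (G w)) z ^ 2) = 2 * En (fun w => S.e (G w)) R := by
      rw [En, ← integral_const_mul]
      congr 1
      funext z
      ring
    rw [e1, e2] at h1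
    have h2 := hK R hR
    show ∫ z, tau R z * (lam F z + lam (fun w => S.e (G w)) z) ^ 2 ≤ _
    linarith
  · intro i K hKB hK z hz hzK
    have hKB' : K ⊆ closedBall (0 : ℂ × ℂ) 1 := hKB.trans (B i).sub'
    have h1 : IsCompact K ∧ K ⊆ closedBall (0 : ℂ × ℂ) 1 := ⟨hK, hKB'⟩
    have h2 : ncCK B i K = ((B i).speed h1.1 h1.2).choose := by
      unfold ncCK
      rw [dif_pos h1]
    obtain ⟨h3, h4⟩ := ((B i).speed h1.1 h1.2).choose_spec
    rw [← h2] at h3 h4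
    show ‖deriv (fun z => (B i).crd (G z)) z‖ ≤ ncCK B i K * (lam F z + lam (fun w => S.e (G w)) z)
    have h5 := h4 ((B i).crd (G z)) hzK (deriv (fun z => (B i).crd (G z)) z)
    rw [← (B i).deriv_le h.an (fun z => (S.mem _ _ (h.ov z)).1) hz] at h5
    exact h5.trans (mul_le_mul_of_nonneg_left (le_add_of_nonneg_left (n1 z)) h3)

/-- **The normal crossings model.**  The constants `A`, `CK` do not depend on the curve. -/
theorem exists_ncModel {P : Ideal (MvPolynomial (Fin (M + 1)) ℂ)} [P.IsPrime] (hP : Homog P) {z : Fin 2 → FunField P} (hz : IsTranscendenceBasis ℂ z)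
    (hsm : ∀ y : Fin (M + 1) → ℂ, y ≠ 0 → (∀ Q ∈ P, eval y Q = 0) → Module.finrank ℂ (conTan P y) ≤ 3) {RD : MvPolynomial (Fin (M + 1)) ℂ}
    {d : ℕ} (hd : RD.IsHomogeneous d) (hR : RD ∉ P) :
    ∃ (X : NCModel P RD) (A : ℝ) (CK : X.ι → Set (ℂ × ℂ) → ℝ), ∀ F : ℂ → EN M, Differentiable ℂ F → (∀ z, F z ∈ coneE P) →
      (∃ z w, ∀ c : ℂ, F z ≠ c • F w) → (∃ z, eval (F z).ofLp RD ≠ 0) → ∃ (Y : NCLift X F) (lm : ℂ → ℝ), NCDens Y A CK lm := by
  have hX : Surface (coneE P) := Pool.Agent.H90.SG.surface_coneE hP hz hsm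
  obtain ⟨T⟩ := exists_ncSurf_cone hP hz hsm hd hR
  obtain ⟨S, hS⟩ := exists_ncOver hX hd T
  obtain ⟨ι, hι, B, hcov, hB⟩ := exists_family S
  refine ⟨ncModel B hB, 2 + 2 * S.A, fun i K => ncCK B i K, fun F hF hFX _ hne => ?_⟩
  obtain ⟨G, hG⟩ := hS F hF hFX hne
  exact ⟨ncLift B hB hcov hG, _, ncDens B hB hcov hG hF fun z h0 => hX.zero (h0 ▸ hFX z)⟩

end Pool.Agent.MQ3
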