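import Pool.Agent.MQ3.LogN
import Pool.Agent.MQ3.LfN
import Pool.Agent.MQ.KF
import Pool.Agent.MQ.AsmB0
import Pool.Agent.MQ.Fub

/-!
# MQ3 LocN: the data of the local packages at the special points
-/

set_option autoImplicit false

open Topology Filter Metric MvPolynomial MeasureTheory Laplacian

noncomputable section

namespace Pool.Agent.MQ3

open Pool.Agent.H36.BP (EN fs)
open Pool.Agent.H17EF (projVar coneE)
open Pool.Agent.MQ (lam Crv1 nt_form_le eval_smulE lam_nonneg)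
open Pool.Agent.MQ2 (Dat)

variable {M : ℕ} {P : Ideal (MvPolynomial (Fin (M + 1)) ℂ)} {RD : MvPolynomial (Fin (M + 1)) ℂ} {m : ℕ} {X : NCModel P RD} {θ : WDiff (coneE P) m}
  {l : LF M} {S : Web X θ l} {Ra : MvPolynomial (Fin (M + 1)) ℂ}

private theorem LocN_ne0 {x : EN M} (hx : x ∈ coneE P) : x ≠ 0 := by
  rintro rfl
  exact hx.1 (map_zero _)

/-- the curve at the special point -/
theorem crv_vj (C : Cov S Ra) (j : Fin C.nP) {F : ℂ → EN M} (hF : WCrv θ RD F) (Y : NCLift X F) :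
    Crv1 (C.vj j) (C.r j) (C.UP Y j) (C.pj Y j) where
  isOpen := by
    refine isOpen_iff_mem_nhds.2 fun z hz => ?_
    filter_upwards [(Om_open hF Y (C.ck j)).mem_nhds hz.1,
      (lfN_an hF Y (C.ck j) z hz.1).continuousAt.preimage_mem_nhds (isOpen_ball.mem_nhds hz.2)] with w h1 h2 using ⟨h1, h2⟩
  an := fun z hz => (lfN_an hF Y (C.ck j) z hz.1).sub analyticAt_const
  mem := by
    intro z hz
    have h1 := hz.2
    rw [mem_ball, dist_eq_norm] at h1
    rw [mem_ball_zero_iff]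
    exact h1
  closed := by
    intro s hs
    have h1 : {z | z ∈ C.UP Y j ∧ C.pj Y j z ∈ closedBall (0 : ℂ × ℂ) s} = {z | z ∈ S.Om Y (C.ck j) ∧ S.lf Y (C.ck j) z ∈ closedBall (C.Q j) s} := by
      ext z
      constructor
      · rintro ⟨h2, h3⟩
        rw [mem_closedBall_zero_iff] at h3
        refine ⟨h2.1, ?_⟩
        rw [mem_closedBall, dist_eq_norm]
        exact h3
      · rintro ⟨h2, h3⟩
        rw [mem_closedBall, dist_eq_norm] at h3
        refine ⟨⟨h2, ?_⟩, ?_⟩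
        · rw [mem_ball, dist_eq_norm]
          exact h3.trans_lt hs
        · rw [mem_closedBall_zero_iff]
          exact h3
    rw [h1]
    exact lfN_closed hF Y (C.ck j) (isCompact_closedBall _ _) ((closedBall_subset_closedBall hs.le).trans (C.P_sub j))
  ode := by
    intro z hz
    have h1 : deriv (C.pj Y j) z = deriv (S.lf Y (C.ck j)) z := deriv_sub_const _
    have h2 : C.vj j (C.pj Y j z) = S.v (C.ck j) (S.lf Y (C.ck j) z) := by
      unfold Cov.vj Cov.pj
      rw [add_sub_cancel]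
    rw [h1, h2]
    exact lfN_tan hF Y (C.ck j) z hz.1

/-- the data of the package; `q`, `ψ` for the form `Qf` -/
theorem dat_web (C : Cov S Ra) {g : Fin C.nP → ℂ × ℂ → ℂ} (hg : PG C g) (j : Fin C.nP) {F : ℂ → EN M} (hF : RCrv θ RD Ra F) (Y : NCLift X F) {A : ℝ} {lm : ℂ → ℝ} (hl : Dens C Y A lm)
    {Qf : MvPolynomial (Fin (M + 1)) ℂ} {dQ : ℕ} (hQ : Qf.IsHomogeneous dQ) (hQF : ∃ z, eval (F z).ofLp Qf ≠ 0) :
    ∃ Q : ℂ → ℂ, Dat (C.vj j) (fun x => g j (C.Q j + x)) (C.r j) 1 dQ (fun x => eval (S.σ (C.ck j) (C.Q j + x)).ofLp Qf)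
      (fun x => Real.log ‖S.σ (C.ck j) (C.Q j + x)‖) F Q lm (C.UP Y j) (C.pj Y j) := by
  obtain ⟨K, hK1, hK⟩ := nt_form_le hQ
  have hK0 : 0 < K := zero_lt_one.trans_le hK1
  have hadd : ∀ z, C.Q j + C.pj Y j z = S.lf Y (C.ck j) z := fun z => add_sub_cancel _ _
  refine ⟨fun z => (K : ℂ)⁻¹ * eval (F z).ofLp Qf, crv_vj C j hF.toWCrv Y, ?_, ?_, hl.cont, fun z => (lam_nonneg F z).trans (hl.le z), ?_, hF.diff,
    fun z => LocN_ne0 (hF.mem z), hl.le, ?_, ?_, ?_, K⁻¹, inv_pos.2 hK0, ?_⟩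
  · intro z hz
    have h1 := (lfN_ne hF.toWCrv Y (C.ck j) z hz.1).frequently.filter_mono nhdsWithin_le_nhds
    by_contra hcon
    rw [not_frequently] at hcon
    have h2 : ∀ᶠ w in 𝓝 z, deriv (S.lf Y (C.ck j)) w = 0 := by
      filter_upwards [hcon.eventually_nhds] with w hw
      have h3 : S.lf Y (C.ck j) =ᶠ[𝓝 w] fun _ => C.Q j := by
        filter_upwards [hw] with u hu
        rw [not_not] at hu
        exact sub_eq_zero.1 hu
      rw [h3.deriv_eq, deriv_const]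
    obtain ⟨w, h3, h4⟩ := (h1.and_eventually h2).exists
    exact h3.2.1 h4
  · intro z hz
    have h1 := (g_ne C hg j hF Y z hz).frequently.filter_mono nhdsWithin_le_nhds
    refine h1.mono fun w hw => ?_
    rw [hadd]
    exact hw
  · intro z hz
    have h1 : deriv (C.pj Y j) z = deriv (S.lf Y (C.ck j)) z := deriv_sub_const _
    rw [h1, one_mul]
    exact hl.pt j z hz.1 (ball_subset_closedBall hz.2)
  · exact (Differentiable.const_mul (fun z => (Pool.Agent.MQ.analyticAt_evalE (hF.diff.analyticAt z) Qf).differentiableAt) _)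
  · obtain ⟨z, hz⟩ := hQF
    exact ⟨z, mul_ne_zero (inv_ne_zero (Complex.ofReal_ne_zero.2 hK0.ne')) hz⟩
  · intro z
    rw [norm_mul, norm_inv, Complex.norm_real, Real.norm_of_nonneg hK0.le, inv_mul_le_iff₀ hK0]
    exact hK _
  · intro z hz
    rw [hadd]
    have h1 := lfN_mem hF.toWCrv Y (C.ck j) z hz.1
    have h2 := Om_sub hF.toWCrv Y (C.ck j) hz.1
    obtain ⟨c, hc, h3⟩ := Y.eq (C.ck j).1 z h2
    have h4 : S.σ (C.ck j) (S.lf Y (C.ck j) z) = X.ρ (C.ck j).1 (Y.p (C.ck j).1 z) := by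
      unfold Web.σ
      rw [h1.2]
    have h5 : X.ρ (C.ck j).1 (Y.p (C.ck j).1 z) ≠ 0 := by
      intro h6
      rw [h6, smul_zero] at h3
      exact LocN_ne0 (hF.mem z) h3
    have h6 : 0 < ‖X.ρ (C.ck j).1 (Y.p (C.ck j).1 z)‖ := norm_pos_iff.2 h5
    simp only [h4]
    rw [h3, eval_smulE hQ, norm_mul, norm_mul, norm_inv, Complex.norm_real, Real.norm_of_nonneg hK0.le, norm_smul, mul_pow, norm_pow,
      ← Real.log_pow, Real.exp_log (pow_pos h6 _)]
    ring

end Pool.Agent.MQ3
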