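import Pool.Agent.MQ3.NDefs
import Pool.Agent.H90.SG.Poly
import Pool.Agent.H17EF.Alg

/-!
# MQ3 RNe: a form which is not in the ideal does not vanish on a box
-/

set_option autoImplicit false

open Topology Filter Metric MvPolynomial

noncomputable section

namespace Pool.Agent.MQ3

open Pool.Agent.H36.BP (EN)
open Pool.Agent.H14.PP (Tan)
open Pool.Agent.H17BP (Surface IsChart)
open Pool.Agent.H17EF (projVar coneE)
open Pool.Agent.H62.FC (Homog)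
open Pool.Agent.H17LG.Variety (FunField)
open Pool.Agent.H13.SM (conTan)

variable {M : ℕ} {P : Ideal (MvPolynomial (Fin (M + 1)) ℂ)} {RD : MvPolynomial (Fin (M + 1)) ℂ} {m : ℕ}

/-- an analytic map with nonzero Jacobian is open -/
theorem map_nhds_jac {φ : ℂ × ℂ → ℂ × ℂ} {q : ℂ × ℂ} (h : AnalyticAt ℂ φ q)
    (hJ : (fderiv ℂ φ q (1, 0)).1 * (fderiv ℂ φ q (0, 1)).2 - (fderiv ℂ φ q (1, 0)).2 * (fderiv ℂ φ q (0, 1)).1 ≠ 0) : map φ (𝓝 q) = 𝓝 (φ q) := by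
  refine h.hasStrictFDerivAt.map_nhds_eq_of_surj ?_
  rw [LinearMap.range_eq_top]
  intro u
  set A := fderiv ℂ φ q (1, 0) with hA
  set B := fderiv ℂ φ q (0, 1) with hB
  refine ⟨((u.1 * B.2 - u.2 * B.1) / (A.1 * B.2 - A.2 * B.1), (A.1 * u.2 - A.2 * u.1) / (A.1 * B.2 - A.2 * B.1)), ?_⟩
  have h1 : ∀ a b : ℂ, fderiv ℂ φ q (a, b) = a • A + b • B := by
    intro a b
    have h2 : ((a, b) : ℂ × ℂ) = a • ((1 : ℂ), (0 : ℂ)) + b • ((0 : ℂ), (1 : ℂ)) := by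
      ext <;> simp
    rw [h2, map_add, map_smul, map_smul]
  show fderiv ℂ φ q _ = u
  rw [h1]
  ext
  · simp only [Prod.fst_add, Prod.smul_fst, smul_eq_mul]
    rw [div_mul_eq_mul_div, div_mul_eq_mul_div, ← add_div, div_eq_iff hJ]
    ring
  · simp only [Prod.snd_add, Prod.smul_snd, smul_eq_mul]
    rw [div_mul_eq_mul_div, div_mul_eq_mul_div, ← add_div, div_eq_iff hJ]
    ring

/-- the complement of the axes is dense -/
theorem frequently_off (q : ℂ × ℂ) : ∃ᶠ x in 𝓝 q, x.1 * x.2 ≠ 0 := by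
  intro hcon
  have ht : Tendsto (fun t : ℂ => (q.1 + t, q.2 + t)) (𝓝 0) (𝓝 q) := by
    have h4 : Continuous (fun t : ℂ => (q.1 + t, q.2 + t)) := by fun_prop
    have := h4.tendsto 0
    simpa using this
  have h1 : ∀ᶠ t : ℂ in 𝓝 0, (q.1 + t) * (q.2 + t) = 0 := by
    filter_upwards [ht.eventually hcon] with t ht
    exact not_not.1 ht
  have h2 : (fun t : ℂ => (q.1 + t) * (q.2 + t)) = 0 := by
    refine AnalyticOnNhd.eq_of_eventuallyEq (𝕜 := ℂ) (z₀ := (0 : ℂ)) (fun s _ => by fun_prop) (fun s _ => analyticAt_const) h1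
  have h3 := congrFun h2 (1 + ‖q.1‖ + ‖q.2‖ : ℝ)
  simp only [Pi.zero_apply] at h3
  have hne : ∀ a : ℂ, ‖a‖ < 1 + ‖q.1‖ + ‖q.2‖ → a + ((1 + ‖q.1‖ + ‖q.2‖ : ℝ) : ℂ) ≠ 0 := by
    intro a ha h0
    have h5 : a = -((1 + ‖q.1‖ + ‖q.2‖ : ℝ) : ℂ) := eq_neg_of_add_eq_zero_left h0
    rw [h5, norm_neg, Complex.norm_real, Real.norm_of_nonneg (by positivity)] at ha
    exact lt_irrefl _ ha
  rcases mul_eq_zero.1 h3 with h4 | h4
  · exact hne q.1 (by linarith [norm_nonneg q.2]) h4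
  · exact hne q.2 (by linarith [norm_nonneg q.1]) h4

/-- **A form which is not in the ideal does not vanish on a box.** -/
theorem rne_of [P.IsPrime] (hP : Homog P) {z : Fin 2 → FunField P} (hz : IsTranscendenceBasis ℂ z)
    (hsm : ∀ y : Fin (M + 1) → ℂ, y ≠ 0 → (∀ Q ∈ P, eval y Q = 0) → Module.finrank ℂ (conTan P y) ≤ 3) (X : NCModel P RD)
    {Ra : MvPolynomial (Fin (M + 1)) ℂ} {d : ℕ} (hd : Ra.IsHomogeneous d) (hRa : Ra ∉ P) : RNe X Ra := by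
  intro i p hp hcon
  have hX : Surface (coneE P) := Pool.Agent.H90.SG.surface_coneE hP hz hsm
  -- a point off the axes
  obtain ⟨p', h1, h2, h3⟩ := ((frequently_off p).and_eventually ((isOpen_DD.eventually_mem hp).and (eventually_eventually_nhds.2 hcon))).exists
  have hp' : p' ∈ DS := mem_DS.2 ⟨h2, h1⟩
  have hρ := (X.box i).an' hp'
  have hmem := (X.box i).mem' hp'
  obtain ⟨σ, τ, hσ, hσ0⟩ := hX.chart (X.ρ i p') hmem.self_of_nhds
  have hτ0 : τ (X.ρ i p') = 0 := by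
    rw [← hσ0]
    exact hσ.left.self_of_nhds
  have hτa : AnalyticAt ℂ τ (X.ρ i p') := by
    rw [← hσ0]
    exact hσ.τ_an
  have hφa : AnalyticAt ℂ (fun x => τ (X.ρ i x)) p' := AnalyticAt.fun_comp (g := τ) hτa hρ
  have hφd : ∀ w, fderiv ℂ (fun x => τ (X.ρ i x)) p' w = fderiv ℂ τ (X.ρ i p') (fderiv ℂ (X.ρ i) p' w) := by
    intro w
    have h4 : HasFDerivAt (fun x => τ (X.ρ i x)) ((fderiv ℂ τ (X.ρ i p')).comp (fderiv ℂ (X.ρ i) p')) p' :=
      HasFDerivAt.comp p' (g := τ) (f := X.ρ i) hτa.differentiableAt.hasFDerivAt hρ.differentiableAt.hasFDerivAt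
    rw [h4.fderiv]
    rfl
  -- the differential of `τ`
  have hτσ : ∀ u, fderiv ℂ τ (σ 0) (fderiv ℂ σ 0 u) = u := by
    intro u
    have h4 : HasFDerivAt (fun x => τ (σ x)) ((fderiv ℂ τ (σ 0)).comp (fderiv ℂ σ 0)) 0 :=
      HasFDerivAt.comp (0 : ℂ × ℂ) (g := τ) (f := σ) hσ.τ_an.differentiableAt.hasFDerivAt hσ.σ_an.differentiableAt.hasFDerivAt
    have h5 : HasFDerivAt (fun x => τ (σ x)) (ContinuousLinearMap.id ℂ (ℂ × ℂ)) 0 := (hasFDerivAt_id (0 : ℂ × ℂ)).congr_of_eventuallyEq hσ.left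
    have h6 := congrArg (fun L : ℂ × ℂ →L[ℂ] ℂ × ℂ => L u) (h4.unique h5)
    simpa using h6
  have hτr : fderiv ℂ τ (σ 0) (σ 0) = 0 := by
    have h4 : HasDerivAt (fun c : ℂ => c • σ 0) (σ 0) 1 := by
      have := (hasDerivAt_id (1 : ℂ)).smul_const (σ 0)
      simpa using this
    have h5 : HasFDerivAt τ (fderiv ℂ τ (σ 0)) ((1 : ℂ) • σ 0) := by
      rw [one_smul]
      exact hσ.τ_an.differentiableAt.hasFDerivAt
    have h6 : HasDerivAt (fun c : ℂ => τ (c • σ 0)) (fderiv ℂ τ (σ 0) (σ 0)) 1 := HasFDerivAt.comp_hasDerivAt (1 : ℂ) h5 h4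
    have ht : Tendsto (fun c : ℂ => ((σ 0, c) : EN M × ℂ)) (𝓝 1) (𝓝 (σ 0, 1)) := by
      have h : Continuous fun c : ℂ => ((σ 0, c) : EN M × ℂ) := by fun_prop
      exact h.tendsto 1
    have h7 : (fun c : ℂ => τ (c • σ 0)) =ᶠ[𝓝 1] fun _ => τ (σ 0) := ht.eventually hσ.inv
    have h8 := h6.deriv
    rw [h7.deriv_eq, deriv_const] at h8
    exact h8.symm
  have hnh : map (fun x => τ (X.ρ i x)) (𝓝 p') = 𝓝 (τ (X.ρ i p')) := by
    refine hφa.hasStrictFDerivAt.map_nhds_eq_of_surj ?_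
    rw [LinearMap.range_eq_top]
    intro u
    have h4 : Tan (coneE P) (X.ρ i p') (fderiv ℂ σ 0 u) := by
      rw [← hσ0]
      exact Pool.Agent.E1.ResL_tan hσ.σ_an hσ.σ_mem u
    obtain ⟨w, a, hw⟩ := (X.box i).span hX hp' _ h4
    refine ⟨w, ?_⟩
    show fderiv ℂ (fun x => τ (X.ρ i x)) p' w = u
    rw [hφd, ← hσ0]
    have h5 : fderiv ℂ (X.ρ i) p' w = fderiv ℂ σ 0 u - a • σ 0 := by
      rw [hw, hσ0, add_sub_cancel_right]
    rw [h5, map_sub, map_smul, hτσ, hτr, smul_zero, sub_zero]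
  rw [hτ0] at hnh
  -- contradiction
  have hthin := Pool.Agent.H90.SG.thin_coneE hP hz hsm hd hRa hσ
  rw [← hnh, frequently_map] at hthin
  have hright : ∀ᶠ x in 𝓝 p', ∃ c : ℂ, c ≠ 0 ∧ X.ρ i x = c • σ (τ (X.ρ i x)) := by
    have h4 : Tendsto (X.ρ i) (𝓝 p') (𝓝 (σ 0)) := by
      rw [hσ0]
      exact hρ.continuousAt.tendsto
    filter_upwards [h4.eventually hσ.right, hmem] with x x1 x2
    exact x1 x2
  obtain ⟨x, x1, x2, c, hc, x3⟩ := (hthin.and_eventually (h3.and hright)).exists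
  apply x1
  have h9 : eval (X.ρ i x).ofLp Ra = 0 := not_not.1 x2
  rw [x3] at h9
  have h10 : (c • σ (τ (X.ρ i x))).ofLp = c • (σ (τ (X.ρ i x))).ofLp := rfl
  rw [h10, Pool.Agent.H17EF.eval_smul_form hd] at h9
  exact (mul_eq_zero.1 h9).resolve_left (pow_ne_zero _ hc)

end Pool.Agent.MQ3
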