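import Pool.Agent.MQ3.Cov
import Pool.Agent.MQ3.SatN
import Pool.Agent.MQ3.GInvN
import Pool.Agent.MQ3.AlgR3
import Pool.Agent.MQ3.RNe
import Pool.Agent.MQ3.LocN
import Pool.Agent.MQ3.DensN
import Pool.Agent.MQ3.AsmN
import Pool.Agent.MQ3.WtNB
import Pool.Agent.MQ3.BoxW
import Pool.Agent.MQ3.Bad
import Pool.Agent.MQ3.GReg0
import Pool.Agent.MQ3.GlobB
import Pool.Agent.MQ2.GoodT
import Pool.Agent.MQ2.SepC
import Pool.Agent.MQ.Sieg
import Pool.Agent.MQ.VFin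
import Pool.Agent.E2.Kod
import Pool.Agent.AD.T.NCProof

/-!
# MQ3 FinW: the entire curves of order two which are null for a symmetric differential lie in one algebraic curve
-/

set_option autoImplicit false

open Topology Filter Metric MvPolynomial Asymptotics MeasureTheory Laplacian

noncomputable section

namespace Pool.Agent.MQ3

open Pool.Agent.H36.BP (EN fs)
open Pool.Agent.H14.PP (Tan)
open Pool.Agent.H17BP (Surface IsForm)
open Pool.Agent.H17EF (projVar coneE)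
open Pool.Agent.H30M (tau avg LogSing tau_nonneg)
open Pool.Agent.H62.FC (Homog)
open Pool.Agent.H17LG.Variety (FunField)
open Pool.Agent.MQ (lam En ztv dvg DDv gr dv Pack false_of_pack sieg)
open Pool.Agent.MQ2 (Iso Wt Sep FZero HasOrd LocX Good PT Dat hasOrd_of)

/-! ## the packages -/

/-- the package is monotone in the constants -/
theorem locX_mono {v : ℂ × ℂ → ℂ × ℂ} {g J : ℂ × ℂ → ℂ} {Om : Set ℂ} {p : ℂ → ℂ × ℂ} {lm : ℂ → ℝ} {s A A' δ δ' : ℝ} (h : LocX v g J Om p lm s A δ)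
    (hA : A ≤ A') (hδ : δ ≤ δ') : LocX v g J Om p lm s A' δ' := by
  obtain ⟨C, l, η, Φ, err, h0, h1, h2, h3, h4, h5, h6, h7, h8, h9, h10, h11⟩ := h
  have hI : ∀ R, 1 ≤ R → 0 ≤ ∫ z, tau R z * lm z ^ 2 := fun R hR => integral_nonneg fun z => mul_nonneg (tau_nonneg hR z) (sq_nonneg _)
  refine ⟨C, l, η, Φ, err, h0, h1, h2, fun R hR => (h3 R hR).trans ?_, h4, h5, h6, h7, h8, h9, h10, fun R hR => (h11 R hR).trans ?_⟩
  · have := mul_le_mul_of_nonneg_right hA (hI R hR)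
    linarith
  · have := mul_le_mul_of_nonneg_right hδ (hI R hR)
    linarith

/-- the package for one radius `r` -/
def Gr {m : ℕ} (c : Fin m → ℕ → ℂ → ℂ × ℂ) (v : ℂ × ℂ → ℂ × ℂ) (g J : ℂ × ℂ → ℂ) (r : ℝ) : Prop :=
  ∀ s, 0 < s → s < r → ∀ B, 0 ≤ B → ∃ A C₀ : ℝ, 0 ≤ A ∧ 0 ≤ C₀ ∧
    ∀ (d n : ℕ) (q : ℂ × ℂ → ℂ) (ψ : ℂ × ℂ → ℝ), 1 ≤ d → 1 ≤ n → AnalyticAt ℂ q 0 → ContDiffAt ℝ 1 ψ 0 → (∀ i, FZero (c i) g ∨ HasOrd (c i) q n) →
      ∀ (M : ℕ) (F : ℂ → EN M) (Q : ℂ → ℂ) (lm : ℂ → ℝ) (Om : Set ℂ) (p : ℂ → ℂ × ℂ), Dat v g r B d q ψ F Q lm Om p →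
        LocX v g J Om p lm s A (C₀ * d / n)

/-- the package of every germ of a vector field; no separatrices at a regular point -/
theorem exists_fam_pk : ∃ (m : (ℂ × ℂ → ℂ × ℂ) → ℕ) (fam : ∀ v : ℂ × ℂ → ℂ × ℂ, Fin (m v) → ℕ → ℂ → ℂ × ℂ), (∀ v, Iso v → ∀ i, Sep v (fam v i)) ∧
    (∀ v, v 0 ≠ 0 → m v = 0) ∧ ∀ v, AnalyticAt ℂ v 0 → (v 0 = 0 → Iso v) → ∀ g J, Wt v g → AnalyticAt ℂ J 0 → ∀ᶠ r in 𝓝[>] (0 : ℝ), Gr (fam v) v g J r := by
  have key : ∀ v : ℂ × ℂ → ℂ × ℂ, ∃ (m : ℕ) (c : Fin m → ℕ → ℂ → ℂ × ℂ), (Iso v → ∀ i, Sep v (c i)) ∧ (v 0 ≠ 0 → m = 0) ∧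
      (AnalyticAt ℂ v 0 → (v 0 = 0 → Iso v) → ∀ g J, Wt v g → AnalyticAt ℂ J 0 → ∀ᶠ r in 𝓝[>] (0 : ℝ), Gr c v g J r) := by
    intro v
    by_cases h0 : v 0 = 0
    · by_cases hI : Iso v
      · obtain ⟨m, c, h1, h2⟩ := Pool.Agent.MQ2.good_of_iso hI
        exact ⟨m, c, fun _ => h1, fun h => absurd h0 h, fun _ _ g J hg hJ => h2 g J trivial hg hJ⟩
      · exact ⟨0, fun i => i.elim0, fun h => absurd h hI, fun _ => rfl, fun _ h => absurd (h h0) hI⟩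
    · refine ⟨0, fun i => i.elim0, fun _ i => i.elim0, fun _ => rfl, fun hv _ g J hg hJ => ?_⟩
      filter_upwards [good_reg0 hv h0 hg hJ] with r h s hs hsr B hB
      obtain ⟨A, C₀, h1, h2, h3⟩ := h s hs hsr B hB
      exact ⟨A, C₀, h1, h2, fun d n q ψ hd hn hq hψ _ => h3 d n q ψ hd hn hq hψ⟩
  choose m fam h1 h2 h3 using key
  exact ⟨m, fam, h1, h2, h3⟩

variable {M : ℕ} {P : Ideal (MvPolynomial (Fin (M + 1)) ℂ)} {m : ℕ}

/-- the data of a chart point -/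
private theorem exists_pt {RD Ra : MvPolynomial (Fin (M + 1)) ℂ} {X : NCModel P RD} {θ : WDiff (coneE P) m} {l : LF M} {S : Web X θ l} {d dR : ℕ}
    (hd : RD.IsHomogeneous d) (hdR : Ra.IsHomogeneous dR) (hRa : RNe X Ra) (m' : (ℂ × ℂ → ℂ × ℂ) → ℕ)
    (fam : ∀ v : ℂ × ℂ → ℂ × ℂ, Fin (m' v) → ℕ → ℂ → ℂ × ℂ)
    (hpk : ∀ v, AnalyticAt ℂ v 0 → (v 0 = 0 → Iso v) → ∀ g J, Wt v g → AnalyticAt ℂ J 0 → ∀ᶠ r in 𝓝[>] (0 : ℝ), Gr (fam v) v g J r)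
    {k : S.ι} {q : ℂ × ℂ} (hq : q ∈ S.D k) :
    ∃ (r₀ : ℝ) (g : ℂ × ℂ → ℂ), 0 < r₀ ∧ Wt (fun x => S.v k (q + x)) (fun x => g (q + x)) ∧
      (∀ x ∈ closedBall q r₀, x ≠ q → InvAt S Ra k x g) ∧
      (∀ c : ℕ → ℂ → ℂ × ℂ, Sep (fun x => S.v k (q + x)) c → FZero c (fun x => eval (S.σ k (q + x)).ofLp Ra) → FZero c fun x => g (q + x)) ∧
      ∀ r, 0 < r → r ≤ r₀ → Gr (fam fun x => S.v k (q + x)) (fun x => S.v k (q + x)) (fun x => g (q + x)) (fun x => jc (S.κ k) (q + x)) r := by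
  have htr : ∀ {E : Type} [NormedAddCommGroup E] [NormedSpace ℂ E] {f : ℂ × ℂ → E}, AnalyticAt ℂ f q → AnalyticAt ℂ (fun x => f (q + x)) 0 := by
    intro E _ _ f hf
    have h1 : AnalyticAt ℂ (fun x : ℂ × ℂ => q + x) 0 := analyticAt_const.add analyticAt_id
    have h2 : AnalyticAt ℂ f ((fun x : ℂ × ℂ => q + x) 0) := by simpa using hf
    exact h2.comp h1
  obtain ⟨g, hg1, hg2, hg3⟩ := exists_gq hd hdR hRa hq
  have hv : AnalyticAt ℂ (fun x => S.v k (q + x)) 0 := htr (v_an k q hq)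
  have hiso : (fun x => S.v k (q + x)) 0 = 0 → Iso fun x => S.v k (q + x) := by
    intro h0
    refine ⟨hv, h0, ?_⟩
    have h1 := v_iso k q hq
    rw [eventually_nhdsWithin_iff] at h1
    have h2 : Tendsto (fun x : ℂ × ℂ => q + x) (𝓝 0) (𝓝 q) := by
      have h3 : Continuous fun x : ℂ × ℂ => q + x := continuous_const.add continuous_id
      have h4 := h3.tendsto 0
      rwa [add_zero] at h4
    filter_upwards [h2.eventually h1] with x h3 hx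
    exact h3 (by simpa using hx)
  have hJ : AnalyticAt ℂ (fun x => jc (S.κ k) (q + x)) 0 := by
    exact htr (f := jc (S.κ k)) (jc_an (analyticAt_mchart (S.c k).w.1 (S.c k).w'.1 (S.c k).w.2 (S.c k).w'.2 q))
  have h1 := hpk _ hv hiso _ _ hg1 hJ
  rw [eventually_nhdsWithin_iff] at hg2
  obtain ⟨ε, hε, h2⟩ := Metric.eventually_nhds_iff_ball.1 hg2
  obtain ⟨ε', hε', h3⟩ := mem_nhdsGT_iff_exists_Ioo_subset.1 h1
  refine ⟨min ε ε' / 2, g, by have := lt_min hε hε'; linarith, hg1, fun x hx hxq => ?_, hg3, fun r hr hr' => ?_⟩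
  · refine h2 x ?_ hxq
    refine lt_of_le_of_lt (mem_closedBall.1 hx) ?_
    have := min_le_left ε ε'
    linarith
  · refine h3 ⟨hr, ?_⟩
    have := min_le_right ε ε'
    have h4 : (0 : ℝ) < ε' := hε'
    linarith

/-- **The entire curves of order two which are null for a symmetric differential lie in one algebraic curve.** -/
theorem exists_R_web [P.IsPrime] (hP : Homog P) (hdim : ∃ z : Fin 2 → FunField P, IsTranscendenceBasis ℂ z) (hsmooth : Pool.Agent.AD.NC.IsSmooth P 2)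
    (hgt : Pool.Agent.AD.NC.IsOfLogGeneralType P (Fin.elim0 : Fin 0 → MvPolynomial (Fin (M + 1)) ℂ) 2) (hm : 1 ≤ m) (θ : WDiff (coneE P) m)
    (hθ : coneE P ⊆ closure {x | x ∈ coneE P ∧ ∃ v, Tan (coneE P) x v ∧ θ.toFun x v ≠ 0}) :
    ∃ (R : MvPolynomial (Fin (M + 1)) ℂ) (d : ℕ), R.IsHomogeneous d ∧ R ∉ P ∧ ∀ F : ℂ → EN M, Differentiable ℂ F → (∀ z, F z ∈ coneE P) →
      (∃ A : ℝ, ∀ r : ℝ, 0 < r → Real.circleAverage (fun z => Real.log ‖F z‖) 0 r ≤ A * (1 + r ^ 2)) → (∃ z w, ∀ c : ℂ, F z ≠ c • F w) →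
      (∀ z, θ.toFun (F z) (deriv F z) = 0) → ∀ z, eval (F z).ofLp R = 0 := by
  classical
  obtain ⟨z, hz⟩ := id hdim
  have hsm : ∀ y : Fin (M + 1) → ℂ, y ≠ 0 → (∀ Q ∈ P, eval y Q = 0) → Module.finrank ℂ (Pool.Agent.H13.SM.conTan P y) ≤ 3 :=
    fun y h0 h1 => hsmooth y h0 h1
  have hgt' : Pool.Agent.H62.FC.LogGeneralType P ∅ 2 := by
    have h1 : (Pool.Agent.H62.FC.OnBoundary P ∅ (w := 2)) = fun _ => False := by
      funext E
      apply propext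
      constructor
      · rintro ⟨j, -, -, i, hi, -⟩
        exact absurd hi (Finset.notMem_empty i)
      · exact False.elim
    have h2 := (Pool.Agent.AD.NC.isOfLogGeneralType_zero P _ 2).1 hgt
    unfold Pool.Agent.H62.FC.LogGeneralType
    rw [h1]
    exact h2
  have hX : Surface (coneE P) := Pool.Agent.H90.SG.surface_coneE hP hz hsm
  have hPp : P.IsPrime := inferInstance
  -- the frame and the model
  obtain ⟨l, RD, d, hRD, hRDP, hgood⟩ := exists_R_good hz hX hm θ hθ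
  obtain ⟨X, A₀, CK, hmodel⟩ := exists_ncModel hP hz hsm hRD hRDP
  -- the web
  have hbw : ∀ i, Nonempty (BoxWeb θ l (X.ρ i)) := fun i => exists_boxWeb hX hm (X.box i) fun p hp =>
    hgood _ ((X.box i).mem' hp).self_of_nhds (X.good i p hp)
  let W₀ : ∀ i, BoxWeb θ l (X.ρ i) := fun i => (hbw i).some
  let S : Web X θ l := ⟨W₀, fun i => (exists_webOver (W₀ i)).some⟩
  -- the packages
  obtain ⟨mv, fam, hfam, hfam0, hpk⟩ := exists_fam_pk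
  obtain ⟨Ra, dR, hRa, hRaP, hRaZ⟩ := exists_Ra hz S mv fam hfam
  have hRne : RNe X Ra := rne_of hP hz hsm X hRa hRaP
  have hpt : ∀ (k : S.ι) (q : ℂ × ℂ), ∃ (r₀ : ℝ) (g : ℂ × ℂ → ℂ), 0 < r₀ ∧ (q ∈ S.D k → Wt (fun x => S.v k (q + x)) (fun x => g (q + x)) ∧
      (∀ x ∈ closedBall q r₀, x ≠ q → InvAt S Ra k x g) ∧
      (∀ c : ℕ → ℂ → ℂ × ℂ, Sep (fun x => S.v k (q + x)) c → FZero c (fun x => eval (S.σ k (q + x)).ofLp Ra) → FZero c fun x => g (q + x)) ∧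
      ∀ r, 0 < r → r ≤ r₀ → Gr (fam fun x => S.v k (q + x)) (fun x => S.v k (q + x)) (fun x => g (q + x)) (fun x => jc (S.κ k) (q + x)) r) := by
    intro k q
    by_cases hq : q ∈ S.D k
    · obtain ⟨r₀, g, h1, h2, h3, h4, h5⟩ := exists_pt hRD hRa hRne mv fam hpk hq
      exact ⟨r₀, g, h1, fun _ => ⟨h2, h3, h4, h5⟩⟩
    · exact ⟨1, fun _ => 0, one_pos, fun h => absurd h hq⟩
  choose r₀ gq hr₀ hgq using hpt
  obtain ⟨C, hCr⟩ := exists_cov hRD hRa hRne S r₀ fun k q _ => hr₀ k q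
  have hQD : ∀ j, C.Q j ∈ S.D (C.ck j) := fun j => (cp_compact (C.ck j)).2 (C.Q_mem j)
  set g : Fin C.nP → ℂ × ℂ → ℂ := fun j => gq (C.ck j) (C.Q j) with hgdef
  have hgj := fun j => hgq (C.ck j) (C.Q j) (hQD j)
  have hrpos : ∀ j, 0 < C.r j := fun j => (C.s_pos j).trans (C.s_lt j)
  have hPG : PG C g := by
    refine ⟨fun j => ?_, fun j x hx hxQ => (hgj j).2.1 x (closedBall_subset_closedBall (hCr j) hx) hxQ⟩
    have h1 : AnalyticAt ℂ (fun x => g j (C.Q j + x)) 0 := (hgj j).1.an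
    have h2 : AnalyticAt ℂ (fun x : ℂ × ℂ => x - C.Q j) (C.Q j) := analyticAt_id.sub analyticAt_const
    have h4 : AnalyticAt ℂ ((fun x => g j (C.Q j + x)) ∘ fun x : ℂ × ℂ => x - C.Q j) (C.Q j) := h1.comp_of_eq h2 (sub_self _)
    refine h4.congr (Eventually.of_forall fun x => ?_)
    simp
  obtain ⟨A, hA0, hdens⟩ := exists_densN C A₀ CK
  have hGr : ∀ j, ∃ A' C₀ : ℝ, 0 ≤ A' ∧ 0 ≤ C₀ ∧
      ∀ (d n : ℕ) (q : ℂ × ℂ → ℂ) (ψ : ℂ × ℂ → ℝ), 1 ≤ d → 1 ≤ n → AnalyticAt ℂ q 0 → ContDiffAt ℝ 1 ψ 0 →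
        (∀ i, FZero (fam (fun x => S.v (C.ck j) (C.Q j + x)) i) (fun x => g j (C.Q j + x)) ∨ HasOrd (fam (fun x => S.v (C.ck j) (C.Q j + x)) i) q n) →
          ∀ (M : ℕ) (F : ℂ → EN M) (Q : ℂ → ℂ) (lm : ℂ → ℝ) (Om : Set ℂ) (p : ℂ → ℂ × ℂ),
            Dat (fun x => S.v (C.ck j) (C.Q j + x)) (fun x => g j (C.Q j + x)) (C.r j) 1 d q ψ F Q lm Om p →
              LocX (fun x => S.v (C.ck j) (C.Q j + x)) (fun x => g j (C.Q j + x)) (fun x => jc (S.κ (C.ck j)) (C.Q j + x)) Om p lm (C.s j) A' (C₀ * d / n) :=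
    fun j => (hgj j).2.2.2 (C.r j) (hrpos j) (hCr j) (C.s j) (C.s_pos j) (C.s_lt j) 1 zero_le_one
  choose A' C₀ hA' hC₀ hLoc using hGr
  obtain ⟨A₁, hA₁, hA₁'⟩ : ∃ A₁ : ℝ, 0 ≤ A₁ ∧ ∀ j, A' j ≤ A₁ :=
    ⟨∑ j, A' j, Finset.sum_nonneg fun j _ => hA' j, fun j => Finset.single_le_sum (fun j _ => hA' j) (Finset.mem_univ j)⟩
  obtain ⟨C₁, hC₁, hC₁'⟩ : ∃ C₁ : ℝ, 0 ≤ C₁ ∧ ∀ j, C₀ j ≤ C₁ :=
    ⟨∑ j, C₀ j, Finset.sum_nonneg fun j _ => hC₀ j, fun j => Finset.single_le_sum (fun j _ => hC₀ j) (Finset.mem_univ j)⟩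
  -- the form of general type
  obtain ⟨mK, Wf, dW, QW, hm1, hQW, hQWP, hW, hWz⟩ := Pool.Agent.E2.exists_form_gt hP hz hsm hgt'
  -- the number `k`
  obtain ⟨k, hk⟩ := exists_nat_gt ((mK : ℝ) * (C.nP * (C₁ + 1) * A))
  have hk0 : 0 < k := by
    have h1 : (0 : ℝ) < k := lt_of_le_of_lt (by positivity) hk
    exact_mod_cast h1
  have hkr : (0 : ℝ) < k := by exact_mod_cast hk0
  -- the form with high contact
  obtain ⟨e⟩ : Nonempty (Fin (Fintype.card (Σ j : Fin C.nP, Fin (mv fun x => S.v (C.ck j) (C.Q j + x)))) ≃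
      (Σ j : Fin C.nP, Fin (mv fun x => S.v (C.ck j) (C.Q j + x)))) := ⟨(Fintype.equivFin _).symm⟩
  have htr : ∀ {E : Type} [NormedAddCommGroup E] [NormedSpace ℂ E] {f : ℂ × ℂ → E} {q : ℂ × ℂ}, AnalyticAt ℂ f q → AnalyticAt ℂ (fun x => f (q + x)) 0 := by
    intro E _ _ f q hf
    have h1 : AnalyticAt ℂ (fun x : ℂ × ℂ => q + x) 0 := analyticAt_const.add analyticAt_id
    have h2 : AnalyticAt ℂ f ((fun x : ℂ × ℂ => q + x) 0) := by simpa using hf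
    exact h2.comp h1
  have hvan : ∀ j, AnalyticAt ℂ (fun x => S.v (C.ck j) (C.Q j + x)) 0 := fun j => htr (v_an _ _ (hQD j))
  -- `v` at a special point with separatrices is singular
  have hsing : ∀ j, ∀ _ : Fin (mv fun x => S.v (C.ck j) (C.Q j + x)), S.v (C.ck j) (C.Q j) = 0 := by
    intro j i
    by_contra h0
    have h1 := hfam0 (fun x => S.v (C.ck j) (C.Q j + x)) (by simpa using h0)
    rw [h1] at i
    exact i.elim0
  have hiso : ∀ j, S.v (C.ck j) (C.Q j) = 0 → Iso fun x => S.v (C.ck j) (C.Q j + x) := by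
    intro j h0
    refine ⟨hvan j, by simpa using h0, ?_⟩
    have h1 := v_iso (C.ck j) (C.Q j) (hQD j)
    rw [eventually_nhdsWithin_iff] at h1
    have h2 : Tendsto (fun x : ℂ × ℂ => C.Q j + x) (𝓝 0) (𝓝 (C.Q j)) := by
      have h3 : Continuous fun x : ℂ × ℂ => C.Q j + x := continuous_const.add continuous_id
      have h4 := h3.tendsto 0
      rwa [add_zero] at h4
    filter_upwards [h2.eventually h1] with x h3 hx
    exact h3 (by simpa using hx)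
  have hsep : ∀ j, ∀ i, Sep (fun x => S.v (C.ck j) (C.Q j + x)) (fam (fun x => S.v (C.ck j) (C.Q j + x)) i) := fun j i => hfam _ (hiso j (hsing j i)) i
  have hσan : ∀ j, AnalyticAt ℂ (fun x => S.σ (C.ck j) (C.Q j + x)) 0 := fun j => htr (σ_an _ _ (hQD j)).1
  have hcan : ∀ n (t : Fin (Fintype.card (Σ j : Fin C.nP, Fin (mv fun x => S.v (C.ck j) (C.Q j + x))))),
      AnalyticAt ℂ (fun s => S.σ (C.ck (e t).1) (C.Q (e t).1 + fam (fun x => S.v (C.ck (e t).1) (C.Q (e t).1 + x)) (e t).2 n s)) 0 := by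
    intro n t
    have h1 := hsep (e t).1 (e t).2
    have h2 : AnalyticAt ℂ (fun x => S.σ (C.ck (e t).1) (C.Q (e t).1 + x)) (fam (fun x => S.v (C.ck (e t).1) (C.Q (e t).1 + x)) (e t).2 n 0) := by
      rw [h1.zero n]
      exact hσan _
    exact h2.comp (h1.an n)
  obtain ⟨dQ, Qf, hdQ, hQf, hQfP, hQc⟩ := sieg hz (Pool.Agent.H62.FC.exists_X_notMem (r := 2) (by norm_num) ⟨z, hz⟩) _ hcan k
  have hQc' : ∀ j i, (fun s => eval (S.σ (C.ck j) (C.Q j + fam (fun x => S.v (C.ck j) (C.Q j + x)) i (k * dQ) s)).ofLp Qf) =O[𝓝 0] fun t : ℂ => t ^ (k * dQ) := by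
    have h1 : ∀ x : (Σ j : Fin C.nP, Fin (mv fun x => S.v (C.ck j) (C.Q j + x))),
        (fun s => eval (S.σ (C.ck x.1) (C.Q x.1 + fam (fun y => S.v (C.ck x.1) (C.Q x.1 + y)) x.2 (k * dQ) s)).ofLp Qf) =O[𝓝 0] fun t : ℂ => t ^ (k * dQ) := by
      intro x
      obtain ⟨t, rfl⟩ := e.surjective x
      exact hQc t
    exact fun j i => h1 ⟨j, i⟩
  have hn1 : 1 ≤ k * dQ := Nat.mul_pos hk0 hdQ
  have hdr : (0 : ℝ) < dQ := by exact_mod_cast hdQ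
  refine ⟨RD * Ra * QW * Qf, d + dR + dW + dQ, ((hRD.mul hRa).mul hQW).mul hQf, fun h1 => ?_, fun F hF hFX hord hnc htan => ?_⟩
  · rcases hPp.mem_or_mem h1 with h2 | h2
    · rcases hPp.mem_or_mem h2 with h3 | h3
      · rcases hPp.mem_or_mem h3 with h4 | h4
        · exact hRDP h4
        · exact hRaP h4
      · exact hQWP h3
    · exact hQfP h2
  by_contra hcon
  push Not at hcon
  obtain ⟨z₀, hz₀⟩ := hcon
  rw [map_mul, map_mul, map_mul] at hz₀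
  have hDz : eval (F z₀).ofLp RD ≠ 0 := fun h1 => hz₀ (by rw [h1]; ring)
  have hRz : eval (F z₀).ofLp Ra ≠ 0 := fun h1 => hz₀ (by rw [h1]; ring)
  have hWz₀ : eval (F z₀).ofLp QW ≠ 0 := fun h1 => hz₀ (by rw [h1]; ring)
  have hQz : eval (F z₀).ofLp Qf ≠ 0 := fun h1 => hz₀ (by rw [h1]; ring)
  have hFW : WCrv θ RD F := ⟨⟨d, hRD⟩, hF, hFX, htan, hord, hnc, ⟨z₀, hDz⟩⟩
  have hFR : RCrv θ RD Ra F := ⟨hFW, ⟨dR, hRa⟩, ⟨z₀, hRz⟩⟩
  obtain ⟨Y, lm₀, hY⟩ := hmodel F hF hFX hnc ⟨z₀, hDz⟩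
  obtain ⟨lm, hlm⟩ := hdens F hFW Y lm₀ hY
  have hWF : ∃ z w, Pool.Agent.H17BP.Tan (coneE P) (F z) w ∧ Wf (F z) (deriv F z) w ≠ 0 := by
    by_contra hno
    push Not at hno
    refine hWz₀ (hWz F hF hFX hnc (fun z w hw => ?_) z₀)
    obtain ⟨γ, ⟨h1, h2⟩, h3, h4⟩ := hw
    exact hno z w ⟨γ, h1, h2, h3, h4⟩
  have hWne : WNe Wf Y := wne hX hm1 hW hFW Y hWF
  -- the local packages
  have hL : ∀ j, LocX (C.vj j) (fun x => g j (C.Q j + x)) (C.Jj j) (C.UP Y j) (C.pj Y j) lm (C.s j) A₁ ((C₁ + 1) / k) := by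
    intro j
    obtain ⟨Q, hD⟩ := dat_web C hPG j hFR Y hlm hQf ⟨z₀, hQz⟩
    have hqan : AnalyticAt ℂ (fun x => eval (S.σ (C.ck j) (C.Q j + x)).ofLp Qf) 0 := by
      exact (Pool.Agent.H14.PP.analyticAt_evalEN Qf _).comp (hσan j)
    have hψ : ContDiffAt ℝ 1 (fun x => Real.log ‖S.σ (C.ck j) (C.Q j + x)‖) 0 := by
      have h1 : ContDiffAt ℝ 1 (fun x => S.σ (C.ck j) (C.Q j + x)) 0 := ((hσan j).contDiffAt (n := 1)).restrict_scalars ℝ
      have h2 : S.σ (C.ck j) (C.Q j + 0) ≠ 0 := by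
        intro h0
        have h3 := (σ_an _ _ (hQD j)).2
        rw [add_zero] at h0
        rw [h0] at h3
        exact hX.zero h3
      exact (h1.norm ℂ h2).log (norm_ne_zero_iff.2 h2)
    have h1 := hLoc j dQ (k * dQ) _ _ hdQ hn1 hqan hψ (fun i => ?_) M F Q lm (C.UP Y j) (C.pj Y j) hD
    · refine locX_mono h1 (hA₁' j) ?_
      push_cast
      rw [mul_div_mul_right _ _ hdr.ne']
      exact div_le_div_of_nonneg_right ((hC₁' j).trans (by linarith)) hkr.le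
    · rcases hRaZ (C.ck j) (C.Q j) (C.Q_mem j) (hsing j i) i with h2 | h2
      · exact Or.inl ((hgj j).2.2.1 _ (hsep j i) h2)
      · exact Or.inr (hasOrd_of (hsep j i) hqan (h2 Qf dQ hQf hQfP) (hQc' j i))
  obtain ⟨L, hLc, hLle, hLen, hPack⟩ := pack_web hX hm1 hW C hPG hFR Y hWne hA0 hlm (δ := (C₁ + 1) / k) (by positivity) hL
  have hmr : (0 : ℝ) < mK := by exact_mod_cast hm1
  have hcrv : Pool.Agent.MQ.Crv P Set.univ F := ⟨hF, hFX, fun _ => Set.mem_univ _, hord, hnc⟩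
  refine false_of_pack hcrv hLc (fun z => (Pool.Agent.MQ.lam_nonneg F z).trans (hLle z)) hLle hLen hPack ?_
  push_cast
  have h3 : (C.nP * (C₁ + 1) * A) / (k : ℝ) < 1 / mK := by
    rw [div_lt_div_iff₀ hkr hmr]
    linarith
  have h4 : 2 * (1 : ℝ) / mK = 2 * (1 / mK) := by ring
  have h5 : 2 * ((C.nP : ℝ) * ((C₁ + 1) / k * A)) = 2 * ((C.nP * (C₁ + 1) * A) / k) := by ring
  rw [h4, h5]
  linarith

end Pool.Agent.MQ3
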