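import Pool.Agent.MQ3.WDiff
import Pool.Agent.E1.ResX

/-!
# MQ3 Fr: the slopes of a symmetric differential with respect to three linear forms

`l : Fin 3 → EN N →L[ℂ] ℂ`; `om l i x v = l₀ x * l_i v - l_i x * l₀ v` is `l₀² d (l_i / l₀)`.  In a chart `σ` the vector fields `v₁`, `v₂` are dual to
`om l 1`, `om l 2`, up to the factor `dl`.  The slopes of `θ` are the roots of `s ↦ θ (σ p; Dσ (v₁ + s v₂))`.
-/

set_option autoImplicit false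

open Topology Filter Metric

noncomputable section

namespace Pool.Agent.MQ3

open Pool.Agent.H36.BP (EN)
open Pool.Agent.H14.PP (Tan)
open Pool.Agent.H17BP (Surface IsChart LocalEq)
open Pool.Agent.E1 (ResL_tan ResL_span ResL_indep ResX_family)

variable {N : ℕ} {X : Set (EN N)} {m : ℕ}

/-- three linear forms -/
abbrev LF (N : ℕ) := Fin 3 → EN N →L[ℂ] ℂ

/-- the 1-form `l₀² d (l_i / l₀)` -/
def om (l : LF N) (i : Fin 3) (x v : EN N) : ℂ := l 0 x * l i v - l i x * l 0 v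

theorem om_add_smul (l : LF N) (i : Fin 3) (x v : EN N) (a : ℂ) : om l i x (v + a • x) = om l i x v := by
  simp only [om, map_add, map_smul, smul_eq_mul]; ring

theorem om_smul_smul (l : LF N) (i : Fin 3) (x v : EN N) (c : ℂ) : om l i (c • x) (c • v) = c ^ 2 * om l i x v := by
  simp only [om, map_smul, smul_eq_mul]; ring

theorem om_smul (l : LF N) (i : Fin 3) (x v : EN N) (c : ℂ) : om l i x (c • v) = c * om l i x v := by
  simp only [om, map_smul, smul_eq_mul]; ring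

theorem om_add (l : LF N) (i : Fin 3) (x v w : EN N) : om l i x (v + w) = om l i x v + om l i x w := by
  simp only [om, map_add]; ring

/-- the coefficients of `om l i` in a chart -/
def ca (l : LF N) (σ : ℂ × ℂ → EN N) (i : Fin 3) (p : ℂ × ℂ) : ℂ := om l i (σ p) (fderiv ℂ σ p (1, 0))

def cb (l : LF N) (σ : ℂ × ℂ → EN N) (i : Fin 3) (p : ℂ × ℂ) : ℂ := om l i (σ p) (fderiv ℂ σ p (0, 1))

/-- the determinant of `om l 1`, `om l 2` in a chart -/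
def dl (l : LF N) (σ : ℂ × ℂ → EN N) (p : ℂ × ℂ) : ℂ := ca l σ 1 p * cb l σ 2 p - ca l σ 2 p * cb l σ 1 p

/-- the dual frame -/
def v₁ (l : LF N) (σ : ℂ × ℂ → EN N) (p : ℂ × ℂ) : ℂ × ℂ := (cb l σ 2 p, -ca l σ 2 p)

def v₂ (l : LF N) (σ : ℂ × ℂ → EN N) (p : ℂ × ℂ) : ℂ × ℂ := (-cb l σ 1 p, ca l σ 1 p)

theorem om_chart (l : LF N) (σ : ℂ × ℂ → EN N) (i : Fin 3) (p w : ℂ × ℂ) :
    om l i (σ p) (fderiv ℂ σ p w) = ca l σ i p * w.1 + cb l σ i p * w.2 := by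
  have h : w = w.1 • ((1 : ℂ), (0 : ℂ)) + w.2 • ((0 : ℂ), (1 : ℂ)) := by
    ext <;> simp
  conv_lhs => rw [h]
  rw [map_add, map_smul, map_smul, om_add, om_smul, om_smul, ca, cb]
  ring

theorem om_v₁_1 (l : LF N) (σ : ℂ × ℂ → EN N) (p : ℂ × ℂ) : om l 1 (σ p) (fderiv ℂ σ p (v₁ l σ p)) = dl l σ p := by
  rw [om_chart, v₁, dl]; ring

theorem om_v₁_2 (l : LF N) (σ : ℂ × ℂ → EN N) (p : ℂ × ℂ) : om l 2 (σ p) (fderiv ℂ σ p (v₁ l σ p)) = 0 := by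
  rw [om_chart, v₁]; ring

theorem om_v₂_1 (l : LF N) (σ : ℂ × ℂ → EN N) (p : ℂ × ℂ) : om l 1 (σ p) (fderiv ℂ σ p (v₂ l σ p)) = 0 := by
  rw [om_chart, v₂]; ring

theorem om_v₂_2 (l : LF N) (σ : ℂ × ℂ → EN N) (p : ℂ × ℂ) : om l 2 (σ p) (fderiv ℂ σ p (v₂ l σ p)) = dl l σ p := by
  rw [om_chart, v₂, dl]; ring

/-- every vector is a combination of the frame -/
theorem dl_smul (l : LF N) (σ : ℂ × ℂ → EN N) (p w : ℂ × ℂ) :
    dl l σ p • w = om l 1 (σ p) (fderiv ℂ σ p w) • v₁ l σ p + om l 2 (σ p) (fderiv ℂ σ p w) • v₂ l σ p := by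
  rw [om_chart, om_chart, dl, v₁, v₂]
  ext
  · simp only [Prod.smul_fst, Prod.fst_add, smul_eq_mul]; ring
  · simp only [Prod.smul_snd, Prod.snd_add, smul_eq_mul]; ring

theorem analyticAt_om (l : LF N) {σ : ℂ × ℂ → EN N} (i : Fin 3) {p : ℂ × ℂ} (hσ : AnalyticAt ℂ σ p) {w : ℂ × ℂ → ℂ × ℂ} (hw : AnalyticAt ℂ w p) :
    AnalyticAt ℂ (fun q => om l i (σ q) (fderiv ℂ σ q (w q))) p := by
  have h1 : AnalyticAt ℂ (fun q => fderiv ℂ σ q (w q)) p :=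
    AnalyticAt.comp (g := fun z : (ℂ × ℂ →L[ℂ] EN N) × (ℂ × ℂ) => z.1 z.2) (f := fun q => (fderiv ℂ σ q, w q))
      (ContinuousLinearMap.analyticAt_bilinear (ContinuousLinearMap.id ℂ (ℂ × ℂ →L[ℂ] EN N)) _) (hσ.fderiv.prod hw)
  have h2 : ∀ j, AnalyticAt ℂ (fun q => l j (σ q)) p := fun j => ((l j).analyticAt _).comp hσ
  have h3 : ∀ j, AnalyticAt ℂ (fun q => l j (fderiv ℂ σ q (w q))) p := fun j => ((l j).analyticAt _).comp h1
  exact ((h2 0).mul (h3 i)).sub ((h2 i).mul (h3 0))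

theorem analyticAt_ca (l : LF N) {σ : ℂ × ℂ → EN N} (i : Fin 3) {p : ℂ × ℂ} (hσ : AnalyticAt ℂ σ p) : AnalyticAt ℂ (ca l σ i) p :=
  analyticAt_om l i hσ analyticAt_const

theorem analyticAt_cb (l : LF N) {σ : ℂ × ℂ → EN N} (i : Fin 3) {p : ℂ × ℂ} (hσ : AnalyticAt ℂ σ p) : AnalyticAt ℂ (cb l σ i) p :=
  analyticAt_om l i hσ analyticAt_const

theorem analyticAt_dl (l : LF N) {σ : ℂ × ℂ → EN N} {p : ℂ × ℂ} (hσ : AnalyticAt ℂ σ p) : AnalyticAt ℂ (dl l σ) p :=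
  ((analyticAt_ca l 1 hσ).mul (analyticAt_cb l 2 hσ)).sub ((analyticAt_ca l 2 hσ).mul (analyticAt_cb l 1 hσ))

theorem analyticAt_v₁ (l : LF N) {σ : ℂ × ℂ → EN N} {p : ℂ × ℂ} (hσ : AnalyticAt ℂ σ p) : AnalyticAt ℂ (v₁ l σ) p :=
  (analyticAt_cb l 2 hσ).prod (analyticAt_ca l 2 hσ).neg

theorem analyticAt_v₂ (l : LF N) {σ : ℂ × ℂ → EN N} {p : ℂ × ℂ} (hσ : AnalyticAt ℂ σ p) : AnalyticAt ℂ (v₂ l σ) p :=
  (analyticAt_cb l 1 hσ).neg.prod (analyticAt_ca l 1 hσ)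

/-! ### the differential in a chart -/

/-- `θ` in a chart is a binary form with analytic coefficients -/
theorem exists_form_coef (θ : WDiff X m) {σ : ℂ × ℂ → EN N} (hσ : AnalyticAt ℂ σ 0) (hX : ∀ᶠ p in 𝓝 (0 : ℂ × ℂ), σ p ∈ X) :
    ∃ c : ℕ → ℂ × ℂ → ℂ, (∀ k, AnalyticAt ℂ (c k) 0) ∧
      ∀ᶠ p in 𝓝 (0 : ℂ × ℂ), ∀ v : ℂ × ℂ, θ.toFun (σ p) (fderiv ℂ σ p v) = ∑ k ∈ Finset.range (m + 1), c k p * v.1 ^ k * v.2 ^ (m - k) := by
  have hhom : ∀ᶠ p in 𝓝 (0 : ℂ × ℂ), ∀ (c : ℂ) (v : ℂ × ℂ), θ.toFun (σ p) (fderiv ℂ σ p (c • v)) = c ^ m * θ.toFun (σ p) (fderiv ℂ σ p v) := by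
    filter_upwards [hσ.eventually_analyticAt, eventually_eventually_nhds.2 hX] with p hp hpX c v
    rw [map_smul, θ.smul _ _ (ResL_tan hp hpX v)]
  obtain ⟨A, hA, hA'⟩ := ResX_family (m := m) (a := fun q => θ.toFun (σ q.1) (fderiv ℂ σ q.1 q.2)) (θ.res_analytic hσ hX) hhom
  refine ⟨fun k p => (A p).coeff k, hA, ?_⟩
  filter_upwards [hA', hhom] with p ⟨h1, h2, h3⟩ h4 v
  by_cases hv : v.2 = 0
  · have h5 : v = v.1 • ((1 : ℂ), (0 : ℂ)) := by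
      ext
      · simp
      · simp [hv]
    rw [Finset.sum_eq_single m]
    · rw [h5, h4]
      simp only [Prod.smul_fst, smul_eq_mul, mul_one, Prod.smul_snd, mul_zero, Nat.sub_self, pow_zero]
      rw [h3, mul_comm]
    · intro k hk hkm
      have : m - k ≠ 0 := by
        have := Finset.mem_range.1 hk
        omega
      rw [hv, zero_pow this, mul_zero]
    · intro h
      exact absurd (Finset.mem_range.2 (Nat.lt_succ_self m)) h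
  · have h5 : v = v.2 • ((v.1 / v.2, (1 : ℂ)) : ℂ × ℂ) := by
      ext
      · simp only [Prod.smul_fst, smul_eq_mul]
        field_simp
      · simp
    conv_lhs => rw [h5, h4]
    have h6 := h2 (v.1 / v.2)
    rw [← h6, Polynomial.eval_eq_sum_range' (Nat.lt_succ_of_le h1), Finset.mul_sum]
    refine Finset.sum_congr rfl fun k hk => ?_
    have hk' : k ≤ m := Nat.lt_succ_iff.1 (Finset.mem_range.1 hk)
    have h7 : v.2 ^ m = v.2 ^ k * v.2 ^ (m - k) := by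
      rw [← pow_add]
      congr 1
      omega
    rw [h7, div_pow]
    field_simp

/-- the slopes of `θ` in a chart: the roots of a polynomial with analytic coefficients -/
theorem exists_fam (θ : WDiff X m) (l : LF N) {σ : ℂ × ℂ → EN N} (hσ : AnalyticAt ℂ σ 0) (hX : ∀ᶠ p in 𝓝 (0 : ℂ × ℂ), σ p ∈ X) :
    ∃ A : ℂ × ℂ → Polynomial ℂ, (∀ k, AnalyticAt ℂ (fun p => (A p).coeff k) 0) ∧
      ∀ᶠ p in 𝓝 (0 : ℂ × ℂ), (A p).natDegree ≤ m ∧ (∀ s, (A p).eval s = θ.toFun (σ p) (fderiv ℂ σ p (v₁ l σ p + s • v₂ l σ p))) ∧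
        (A p).coeff m = θ.toFun (σ p) (fderiv ℂ σ p (v₂ l σ p)) := by
  have hhom : ∀ᶠ p in 𝓝 (0 : ℂ × ℂ), ∀ (c : ℂ) (v : ℂ × ℂ), θ.toFun (σ p) (fderiv ℂ σ p ((c • v).2 • v₁ l σ p + (c • v).1 • v₂ l σ p)) =
      c ^ m * θ.toFun (σ p) (fderiv ℂ σ p (v.2 • v₁ l σ p + v.1 • v₂ l σ p)) := by
    filter_upwards [hσ.eventually_analyticAt, eventually_eventually_nhds.2 hX] with p hp hpX c v
    have h1 : (c • v).2 • v₁ l σ p + (c • v).1 • v₂ l σ p = c • (v.2 • v₁ l σ p + v.1 • v₂ l σ p) := by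
      simp only [Prod.smul_fst, Prod.smul_snd, smul_eq_mul, smul_add, smul_smul]
    rw [h1, map_smul, θ.smul _ _ (ResL_tan hp hpX _)]
  have hana : ∀ v : ℂ × ℂ, AnalyticAt ℂ (fun q : (ℂ × ℂ) × (ℂ × ℂ) => θ.toFun (σ q.1) (fderiv ℂ σ q.1 (q.2.2 • v₁ l σ q.1 + q.2.1 • v₂ l σ q.1))) (0, v) := by
    intro v
    have hG : AnalyticAt ℂ (fun q : (ℂ × ℂ) × (ℂ × ℂ) => (q.1, q.2.2 • v₁ l σ q.1 + q.2.1 • v₂ l σ q.1)) (0, v) := by
      have h1 : AnalyticAt ℂ (fun q : (ℂ × ℂ) × (ℂ × ℂ) => v₁ l σ q.1) (0, v) :=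
        AnalyticAt.comp (g := v₁ l σ) (f := fun q : (ℂ × ℂ) × (ℂ × ℂ) => q.1) (x := (0, v)) (analyticAt_v₁ l hσ) analyticAt_fst
      have h2 : AnalyticAt ℂ (fun q : (ℂ × ℂ) × (ℂ × ℂ) => v₂ l σ q.1) (0, v) :=
        AnalyticAt.comp (g := v₂ l σ) (f := fun q : (ℂ × ℂ) × (ℂ × ℂ) => q.1) (x := (0, v)) (analyticAt_v₂ l hσ) analyticAt_fst
      have h3 : AnalyticAt ℂ (fun q : (ℂ × ℂ) × (ℂ × ℂ) => q.2.2) (0, v) :=
        ((ContinuousLinearMap.snd ℂ ℂ ℂ).comp (ContinuousLinearMap.snd ℂ (ℂ × ℂ) (ℂ × ℂ))).analyticAt _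
      have h4 : AnalyticAt ℂ (fun q : (ℂ × ℂ) × (ℂ × ℂ) => q.2.1) (0, v) :=
        ((ContinuousLinearMap.fst ℂ ℂ ℂ).comp (ContinuousLinearMap.snd ℂ (ℂ × ℂ) (ℂ × ℂ))).analyticAt _
      exact analyticAt_fst.prod ((h3.smul h1).add (h4.smul h2))
    have h0 := θ.res_analytic hσ hX (v.2 • v₁ l σ 0 + v.1 • v₂ l σ 0)
    exact AnalyticAt.comp (g := fun q : (ℂ × ℂ) × (ℂ × ℂ) => θ.toFun (σ q.1) (fderiv ℂ σ q.1 q.2))
      (f := fun q : (ℂ × ℂ) × (ℂ × ℂ) => (q.1, q.2.2 • v₁ l σ q.1 + q.2.1 • v₂ l σ q.1)) (x := (0, v)) h0 hG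
  obtain ⟨A, hA, hA'⟩ := ResX_family (m := m) (a := fun q => θ.toFun (σ q.1) (fderiv ℂ σ q.1 (q.2.2 • v₁ l σ q.1 + q.2.1 • v₂ l σ q.1))) hana hhom
  refine ⟨A, hA, ?_⟩
  filter_upwards [hA'] with p ⟨h1, h2, h3⟩
  refine ⟨h1, fun s => ?_, ?_⟩
  · have := h2 s
    simpa using this
  · simpa using h3

end Pool.Agent.MQ3
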