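import Pool.Agent.MQ3.Fr

/-!
# MQ3 FrE: three linear forms in general position

`GA`: at `x` the forms `om l 1`, `om l 2` are independent on the tangent space; `GB`: the kernel of `om l 1` is not a null direction of `θ`.  If `θ` is not
zero on a dense subset, then for some `l` the points with `GA` and `GB` are dense.
-/

set_option autoImplicit false

open Topology Filter Metric

noncomputable section

namespace Pool.Agent.MQ3

open Pool.Agent.H36.BP (EN)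
open Pool.Agent.H14.PP (Tan)
open Pool.Agent.H17BP (Surface IsChart LocalEq)
open Pool.Agent.E1 (ResL_tan ResL_span ResL_indep ResX_family)

variable {N : ℕ} {X : Set (EN N)} {m : ℕ}

/-- `om l 1` and `om l 2` are independent on the tangent space at `x` -/
def GA (X : Set (EN N)) (l : LF N) (x : EN N) : Prop := ∀ v, Tan X x v → om l 1 x v = 0 → om l 2 x v = 0 → ∃ a : ℂ, v = a • x

/-- the kernel of `om l 1` is not a null direction of `θ` -/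
def GB (θ : WDiff X m) (l : LF N) (x : EN N) : Prop := ∀ v, Tan X x v → om l 1 x v = 0 → θ.toFun x v = 0 → ∃ a : ℂ, v = a • x

/-! ### scaling -/

theorem tan_smul (hX : ∀ x ∈ X, ∀ c : ℂ, c ≠ 0 → c • x ∈ X) {x v : EN N} (h : Tan X x v) {c : ℂ} (hc : c ≠ 0) : Tan X (c • x) (c • v) := by
  obtain ⟨F, ⟨hF, hFX⟩, h0, h1⟩ := h
  refine ⟨fun z => c • F z, ⟨hF.fun_const_smul, ?_⟩, by simp only [h0], ?_⟩
  · filter_upwards [hFX] with z hz using hX _ hz c hc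
  · rw [deriv_fun_const_smul c hF.differentiableAt, h1]

theorem tan_smul_iff (hX : ∀ x ∈ X, ∀ c : ℂ, c ≠ 0 → c • x ∈ X) {x v : EN N} {c : ℂ} (hc : c ≠ 0) : Tan X (c • x) (c • v) ↔ Tan X x v := by
  refine ⟨fun h => ?_, fun h => tan_smul hX h hc⟩
  have := tan_smul hX h (inv_ne_zero hc)
  rwa [smul_smul, smul_smul, inv_mul_cancel₀ hc, one_smul, one_smul] at this

theorem ga_smul (hX : ∀ x ∈ X, ∀ c : ℂ, c ≠ 0 → c • x ∈ X) {l : LF N} {x : EN N} (h : GA X l x) {c : ℂ} (hc : c ≠ 0) : GA X l (c • x) := by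
  intro v hv h1 h2
  have e : v = c • (c⁻¹ • v) := by rw [smul_smul, mul_inv_cancel₀ hc, one_smul]
  rw [e] at hv h1 h2
  rw [om_smul_smul] at h1 h2
  have hc2 : c ^ 2 ≠ 0 := pow_ne_zero 2 hc
  obtain ⟨a, ha⟩ := h _ ((tan_smul_iff hX hc).1 hv) ((mul_eq_zero.1 h1).resolve_left hc2) ((mul_eq_zero.1 h2).resolve_left hc2)
  exact ⟨a, by rw [e, ha, smul_comm]⟩

theorem gb_smul (hX : ∀ x ∈ X, ∀ c : ℂ, c ≠ 0 → c • x ∈ X) {θ : WDiff X m} {l : LF N} {x : EN N} (h : GB θ l x) {c : ℂ} (hc : c ≠ 0) :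
    GB θ l (c • x) := by
  intro v hv h1 h2
  have e : v = c • (c⁻¹ • v) := by rw [smul_smul, mul_inv_cancel₀ hc, one_smul]
  rw [e] at hv h1 h2
  have hv' := (tan_smul_iff hX hc).1 hv
  rw [om_smul_smul] at h1
  rw [θ.scale_eq_zero hv' hc] at h2
  have hc2 : c ^ 2 ≠ 0 := pow_ne_zero 2 hc
  obtain ⟨a, ha⟩ := h _ hv' ((mul_eq_zero.1 h1).resolve_left hc2) h2
  exact ⟨a, by rw [e, ha, smul_comm]⟩

/-! ### in a chart -/

theorem ga_chart {l : LF N} {σ : ℂ × ℂ → EN N} {p : ℂ × ℂ} (hT : ∀ v, Tan X (σ p) (fderiv ℂ σ p v))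
    (hsp : ∀ w, Tan X (σ p) w → ∃ (v : ℂ × ℂ) (a : ℂ), w = fderiv ℂ σ p v + a • σ p) (hin : ∀ (v : ℂ × ℂ) (a : ℂ), fderiv ℂ σ p v = a • σ p → v = 0) :
    GA X l (σ p) ↔ dl l σ p ≠ 0 := by
  constructor
  · intro h h0
    -- a common zero of the two forms
    have key : ∀ w : ℂ × ℂ, om l 1 (σ p) (fderiv ℂ σ p w) = 0 → om l 2 (σ p) (fderiv ℂ σ p w) = 0 → w = 0 := by
      intro w h1 h2
      obtain ⟨a, ha⟩ := h _ (hT w) h1 h2
      exact hin w a ha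
    have k1 : v₁ l σ p = 0 := key _ (by rw [om_v₁_1, h0]) (om_v₁_2 l σ p)
    have k2 : v₂ l σ p = 0 := key _ (om_v₂_1 l σ p) (by rw [om_v₂_2, h0])
    have e1 : cb l σ 2 p = 0 := congrArg Prod.fst k1
    have e2 : ca l σ 2 p = 0 := by simpa [v₁] using congrArg Prod.snd k1
    have e3 : cb l σ 1 p = 0 := by simpa [v₂] using congrArg Prod.fst k2
    have e4 : ca l σ 1 p = 0 := congrArg Prod.snd k2
    have k3 := key (1, 0) (by rw [om_chart, e3, e4]; ring) (by rw [om_chart, e1, e2]; ring)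
    exact one_ne_zero (congrArg Prod.fst k3)
  · intro h0 v hv h1 h2
    obtain ⟨w, a, rfl⟩ := hsp v hv
    rw [om_add_smul] at h1 h2
    have h3 := dl_smul l σ p w
    rw [h1, h2, zero_smul, zero_smul, add_zero] at h3
    have h4 : w = 0 := (smul_eq_zero.1 h3).resolve_left h0
    exact ⟨a, by rw [h4, map_zero, zero_add]⟩

theorem gb_chart (hm : 1 ≤ m) {θ : WDiff X m} {l : LF N} {σ : ℂ × ℂ → EN N} {p : ℂ × ℂ} (hT : ∀ v, Tan X (σ p) (fderiv ℂ σ p v))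
    (hsp : ∀ w, Tan X (σ p) w → ∃ (v : ℂ × ℂ) (a : ℂ), w = fderiv ℂ σ p v + a • σ p) (hin : ∀ (v : ℂ × ℂ) (a : ℂ), fderiv ℂ σ p v = a • σ p → v = 0)
    (hd : dl l σ p ≠ 0) : GB θ l (σ p) ↔ θ.toFun (σ p) (fderiv ℂ σ p (v₂ l σ p)) ≠ 0 := by
  constructor
  · intro h h0
    obtain ⟨a, ha⟩ := h _ (hT _) (om_v₂_1 l σ p) h0
    have h1 := hin _ a ha
    apply hd
    rw [← om_v₂_2, h1, map_zero]
    simp [om]
  · intro h0 v hv h1 h2
    obtain ⟨w, a, rfl⟩ := hsp v hv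
    rw [om_add_smul] at h1
    rw [θ.add_smul _ _ (hT w)] at h2
    have h3 := dl_smul l σ p w
    rw [h1, zero_smul, zero_add] at h3
    obtain ⟨c, hc⟩ : ∃ c : ℂ, w = c • v₂ l σ p := by
      refine ⟨(dl l σ p)⁻¹ * om l 2 (σ p) (fderiv ℂ σ p w), ?_⟩
      rw [← smul_smul, ← h3, smul_smul, inv_mul_cancel₀ hd, one_smul]
    rw [hc, map_smul, θ.smul _ _ (hT _)] at h2
    have h4 : c = 0 := by
      have := (mul_eq_zero.1 h2).resolve_right h0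
      exact (pow_eq_zero_iff (by omega)).1 this
    exact ⟨a, by rw [hc, h4, zero_smul, map_zero, zero_add]⟩

/-- the product of the two determinants -/
def ph (θ : WDiff X m) (l : LF N) (σ : ℂ × ℂ → EN N) (p : ℂ × ℂ) : ℂ := dl l σ p * θ.toFun (σ p) (fderiv ℂ σ p (v₂ l σ p))

theorem gab_chart (hm : 1 ≤ m) {θ : WDiff X m} {l : LF N} {σ : ℂ × ℂ → EN N} {p : ℂ × ℂ} (hT : ∀ v, Tan X (σ p) (fderiv ℂ σ p v))
    (hsp : ∀ w, Tan X (σ p) w → ∃ (v : ℂ × ℂ) (a : ℂ), w = fderiv ℂ σ p v + a • σ p) (hin : ∀ (v : ℂ × ℂ) (a : ℂ), fderiv ℂ σ p v = a • σ p → v = 0) :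
    (GA X l (σ p) ∧ GB θ l (σ p)) ↔ ph θ l σ p ≠ 0 := by
  rw [ph, mul_ne_zero_iff]
  constructor
  · rintro ⟨h1, h2⟩
    have h3 := (ga_chart hT hsp hin).1 h1
    exact ⟨h3, (gb_chart hm hT hsp hin h3).1 h2⟩
  · rintro ⟨h1, h2⟩
    exact ⟨(ga_chart hT hsp hin).2 h1, (gb_chart hm hT hsp hin h1).2 h2⟩

/-! ### linear forms with given values -/

theorem exists_form {x w₁ w₂ : EN N} (h : LinearIndependent ℂ ![x, w₁, w₂]) (a b c : ℂ) : ∃ f : EN N →L[ℂ] ℂ, f x = a ∧ f w₁ = b ∧ f w₂ = c := by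
  classical
  let g : (Fin 3 → ℂ) →ₗ[ℂ] EN N := Fintype.linearCombination ℂ ![x, w₁, w₂]
  have hg : LinearMap.ker g = ⊥ := LinearMap.ker_eq_bot.2 (linearIndependent_iff_injective_fintypeLinearCombination.1 h)
  obtain ⟨r, hr⟩ := g.exists_leftInverse_of_injective hg
  let k : (Fin 3 → ℂ) →ₗ[ℂ] ℂ := Fintype.linearCombination ℂ ![a, b, c]
  have hv : ∀ i, k (r (![x, w₁, w₂] i)) = ![a, b, c] i := by
    intro i
    have h1 : g (Pi.single i 1) = ![x, w₁, w₂] i := by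
      simp [g, Fintype.linearCombination_apply, Pi.single_apply]
    have h2 : r (![x, w₁, w₂] i) = Pi.single i 1 := by
      rw [← h1]
      exact congrArg (fun f : (Fin 3 → ℂ) →ₗ[ℂ] (Fin 3 → ℂ) => f (Pi.single i 1)) hr
    rw [h2]
    simp [k, Fintype.linearCombination_apply, Pi.single_apply]
  refine ⟨LinearMap.toContinuousLinearMap (k ∘ₗ r), ?_, ?_, ?_⟩
  · exact hv 0
  · exact hv 1
  · exact hv 2

/-- forms in general position with respect to one point -/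
theorem exists_lf {x w₁ w₂ : EN N} (h : LinearIndependent ℂ ![x, w₁, w₂]) {u : ℂ × ℂ} (hu : u ≠ 0) :
    ∃ l : LF N, (-om l 1 x w₂, om l 1 x w₁) = u ∧ om l 1 x w₁ * om l 2 x w₂ - om l 2 x w₁ * om l 1 x w₂ ≠ 0 := by
  obtain ⟨f₀, h0, h0', h0''⟩ := exists_form h 1 0 0
  obtain ⟨f₁, h1, h1', h1''⟩ := exists_form h 0 u.2 (-u.1)
  obtain ⟨f₂, h2, h2', h2''⟩ := exists_form h 0 ((starRingEnd ℂ) u.1) ((starRingEnd ℂ) u.2)
  refine ⟨![f₀, f₁, f₂], ?_, ?_⟩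
  · simp only [om, Matrix.cons_val_zero, Matrix.cons_val_one, h0, h0', h0'', h1, h1', h1'']
    ext <;> simp
  · simp only [om, Matrix.cons_val_zero, Matrix.cons_val_one, Matrix.cons_val, h0, h0', h0'', h1, h1', h1'', h2, h2', h2'']
    intro h3
    apply hu
    have h4 : ((‖u.1‖ ^ 2 + ‖u.2‖ ^ 2 : ℝ) : ℂ) = 0 := by
      have e1 : ((‖u.1‖ ^ 2 : ℝ) : ℂ) = u.1 * (starRingEnd ℂ) u.1 := by
        rw [Complex.mul_conj, Complex.normSq_eq_norm_sq]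
      have e2 : ((‖u.2‖ ^ 2 : ℝ) : ℂ) = u.2 * (starRingEnd ℂ) u.2 := by
        rw [Complex.mul_conj, Complex.normSq_eq_norm_sq]
      rw [Complex.ofReal_add, e1, e2]
      linear_combination h3
    have h5 : ‖u.1‖ ^ 2 + ‖u.2‖ ^ 2 = 0 := by exact_mod_cast h4
    have h6 : ‖u.1‖ = 0 := by nlinarith [sq_nonneg ‖u.1‖, sq_nonneg ‖u.2‖, norm_nonneg u.1]
    have h7 : ‖u.2‖ = 0 := by nlinarith [sq_nonneg ‖u.1‖, sq_nonneg ‖u.2‖, norm_nonneg u.2]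
    exact Prod.ext (norm_eq_zero.1 h6) (norm_eq_zero.1 h7)

/-- the forms which are in general position with respect to one point are an open dense set -/
theorem open_dense_lf {x w₁ w₂ : EN N} (h : LinearIndependent ℂ ![x, w₁, w₂]) {c : ℕ → ℂ} {u : ℂ × ℂ} (hu : u ≠ 0)
    (hcu : ∑ k ∈ Finset.range (m + 1), c k * u.1 ^ k * u.2 ^ (m - k) ≠ 0) :
    IsOpen {l : LF N | (om l 1 x w₁ * om l 2 x w₂ - om l 2 x w₁ * om l 1 x w₂) *
      ∑ k ∈ Finset.range (m + 1), c k * (-om l 1 x w₂) ^ k * (om l 1 x w₁) ^ (m - k) ≠ 0} ∧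
    Dense {l : LF N | (om l 1 x w₁ * om l 2 x w₂ - om l 2 x w₁ * om l 1 x w₂) *
      ∑ k ∈ Finset.range (m + 1), c k * (-om l 1 x w₂) ^ k * (om l 1 x w₁) ^ (m - k) ≠ 0} := by
  set Φ : LF N → ℂ := fun l => (om l 1 x w₁ * om l 2 x w₂ - om l 2 x w₁ * om l 1 x w₂) *
      ∑ k ∈ Finset.range (m + 1), c k * (-om l 1 x w₂) ^ k * (om l 1 x w₁) ^ (m - k) with hΦ
  have hev : ∀ (i : Fin 3) (y : EN N), Differentiable ℂ fun l : LF N => l i y := by
    intro i y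
    have h1 : (fun l : LF N => l i y) = fun l => (ContinuousLinearMap.apply ℂ ℂ y) ((ContinuousLinearMap.proj i : LF N →L[ℂ] _) l) := by
      funext l
      simp
    rw [h1]
    exact ((ContinuousLinearMap.apply ℂ ℂ y).comp (ContinuousLinearMap.proj i : LF N →L[ℂ] _)).differentiable
  have hom : ∀ (i : Fin 3) (y : EN N), Differentiable ℂ fun l : LF N => om l i x y := fun i y =>
    ((hev 0 x).mul (hev i y)).sub ((hev i x).mul (hev 0 y))
  have hd : Differentiable ℂ Φ := by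
    refine (((hom 1 w₁).mul (hom 2 w₂)).sub ((hom 2 w₁).mul (hom 1 w₂))).mul ?_
    refine Differentiable.fun_sum fun k _ => ?_
    exact ((differentiable_const _).mul ((hom 1 w₂).neg.pow k)).mul ((hom 1 w₁).pow (m - k))
  refine ⟨isOpen_ne_fun hd.continuous continuous_const, ?_⟩
  obtain ⟨l', h1, h2⟩ := exists_lf h hu
  have hl' : Φ l' ≠ 0 := by
    refine mul_ne_zero h2 ?_
    have e1 : -om l' 1 x w₂ = u.1 := congrArg Prod.fst h1
    have e2 : om l' 1 x w₁ = u.2 := congrArg Prod.snd h1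
    rw [e1, e2]
    exact hcu
  intro l
  rw [mem_closure_iff_frequently]
  -- along the line to `l'`
  have hline : Differentiable ℂ fun s : ℂ => Φ (l + s • (l' - l)) := by
    refine hd.comp ((differentiable_const l).add ?_)
    have h3 := (ContinuousLinearMap.toSpanSingleton ℂ (l' - l)).differentiable
    exact h3
  have hfr : ∃ᶠ s in 𝓝 (0 : ℂ), Φ (l + s • (l' - l)) ≠ 0 := by
    intro hcon
    have h3 : ∀ᶠ s in 𝓝 (0 : ℂ), Φ (l + s • (l' - l)) = 0 := by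
      filter_upwards [hcon] with s hs using not_not.1 hs
    have h4 : (fun s : ℂ => Φ (l + s • (l' - l))) = 0 :=
      AnalyticOnNhd.eq_of_eventuallyEq (𝕜 := ℂ) (z₀ := (0 : ℂ)) (fun s _ => (hline.analyticAt s)) (fun s _ => analyticAt_const) h3
    have h5 := congrFun h4 1
    simp only [one_smul, Pi.zero_apply] at h5
    apply hl'
    rwa [add_sub_cancel] at h5
  have ht : Tendsto (fun s : ℂ => l + s • (l' - l)) (𝓝 0) (𝓝 l) := by
    have h3 : Continuous fun s : ℂ => l + s • (l' - l) := by fun_prop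
    have := h3.tendsto 0
    have e : l + (0 : ℂ) • (l' - l) = l := by
      funext i
      ext y
      simp
    rwa [e] at this
  exact ht.frequently hfr

/-! ### the existence of the linear forms -/

/-- the data of a chart on a ball -/
private theorem FrE_ball (θ : WDiff X m) {σ : ℂ × ℂ → EN N} {τ : EN N → ℂ × ℂ} (hσ : IsChart X σ τ) :
    ∃ (c : ℕ → ℂ × ℂ → ℂ) (r : ℝ), 0 < r ∧ ∀ p ∈ ball (0 : ℂ × ℂ) r, AnalyticAt ℂ σ p ∧ (∀ᶠ q in 𝓝 p, σ q ∈ X) ∧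
      (∀ w, Tan X (σ p) w → ∃ (v : ℂ × ℂ) (a : ℂ), w = fderiv ℂ σ p v + a • σ p) ∧ (∀ (v : ℂ × ℂ) (a : ℂ), fderiv ℂ σ p v = a • σ p → v = 0) ∧
      σ p ≠ 0 ∧ (∀ k ∈ Finset.range (m + 1), AnalyticAt ℂ (c k) p) ∧
      ∀ v : ℂ × ℂ, θ.toFun (σ p) (fderiv ℂ σ p v) = ∑ k ∈ Finset.range (m + 1), c k p * v.1 ^ k * v.2 ^ (m - k) := by
  obtain ⟨c, hc, hc'⟩ := exists_form_coef θ hσ.σ_an hσ.σ_mem
  have h1 : ∀ᶠ p in 𝓝 (0 : ℂ × ℂ), ∀ k ∈ Finset.range (m + 1), AnalyticAt ℂ (c k) p :=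
    (Finset.eventually_all _).2 fun k _ => (hc k).eventually_analyticAt
  have h2 : ∀ᶠ p in 𝓝 (0 : ℂ × ℂ), σ p ≠ 0 := hσ.σ_an.continuousAt.eventually_ne hσ.ne
  obtain ⟨r, hr, h⟩ := Metric.eventually_nhds_iff_ball.1 (hσ.σ_an.eventually_analyticAt.and ((eventually_eventually_nhds.2 hσ.σ_mem).and
    ((ResL_span hσ).and ((ResL_indep hσ).and (h2.and (h1.and hc'))))))
  exact ⟨c, r, hr, h⟩

private theorem FrE_indep {σ : ℂ × ℂ → EN N} {p : ℂ × ℂ} (h0 : σ p ≠ 0) (hin : ∀ (v : ℂ × ℂ) (a : ℂ), fderiv ℂ σ p v = a • σ p → v = 0) :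
    LinearIndependent ℂ ![σ p, fderiv ℂ σ p (1, 0), fderiv ℂ σ p (0, 1)] := by
  rw [Fintype.linearIndependent_iff]
  intro g hg
  rw [Fin.sum_univ_three] at hg
  simp only [Matrix.cons_val_zero, Matrix.cons_val_one, Matrix.cons_val] at hg
  have h1 : fderiv ℂ σ p (g 1, g 2) = (-g 0) • σ p := by
    have e : ((g 1, g 2) : ℂ × ℂ) = g 1 • ((1 : ℂ), (0 : ℂ)) + g 2 • ((0 : ℂ), (1 : ℂ)) := by
      ext <;> simp
    rw [e, map_add, map_smul, map_smul, neg_smul, eq_neg_iff_add_eq_zero]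
    rw [← hg]
    abel
  have h2 := hin _ _ h1
  have h3 : g 1 = 0 := congrArg Prod.fst h2
  have h4 : g 2 = 0 := congrArg Prod.snd h2
  rw [h3, h4, zero_smul, zero_smul, add_zero, add_zero] at hg
  have h5 : g 0 = 0 := (smul_eq_zero.1 hg).resolve_right h0
  intro i
  fin_cases i
  · exact h5
  · exact h3
  · exact h4

private theorem FrE_near (hX : Surface X) (hm : 1 ≤ m) (θ : WDiff X m) (hd : X ⊆ closure {x | x ∈ X ∧ ∃ v, Tan X x v ∧ θ.toFun x v ≠ 0}) {x : EN N}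
    (hx : x ∈ X) : ∃ O : Set (LF N), IsOpen O ∧ Dense O ∧ ∀ᶠ y in 𝓝 x, ∀ l ∈ O, y ∈ X → y ∈ closure {x | x ∈ X ∧ GA X l x ∧ GB θ l x} := by
  obtain ⟨σ, τ, hσ, hσ0⟩ := hX.chart x hx
  obtain ⟨c, r, hr, H⟩ := FrE_ball θ hσ
  have hτ0 : τ (σ 0) = 0 := hσ.left.self_of_nhds
  have hτ : Tendsto τ (𝓝 (σ 0)) (𝓝 0) := by
    have h1 := hσ.τ_an.continuousAt.tendsto
    rwa [hτ0] at h1
  have hball : ∀ᶠ y in 𝓝 (σ 0), τ y ∈ ball (0 : ℂ × ℂ) r := hτ.eventually (ball_mem_nhds 0 hr)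
  -- a point where `θ` is not zero
  obtain ⟨p₀, hp₀, u, hu⟩ : ∃ p ∈ ball (0 : ℂ × ℂ) r, ∃ u : ℂ × ℂ, θ.toFun (σ p) (fderiv ℂ σ p u) ≠ 0 := by
    have h1 : σ 0 ∈ closure {x | x ∈ X ∧ ∃ v, Tan X x v ∧ θ.toFun x v ≠ 0} := by
      rw [hσ0]
      exact hd hx
    obtain ⟨y, ⟨hyX, v, hv, hv0⟩, hyb, hyr⟩ := ((mem_closure_iff_frequently.1 h1).and_eventually (hball.and hσ.right)).exists
    obtain ⟨a, ha, hya⟩ := hyr hyX
    have e : v = a • (a⁻¹ • v) := by rw [smul_smul, mul_inv_cancel₀ ha, one_smul]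
    have hv' : Tan X (σ (τ y)) (a⁻¹ • v) := by
      rw [hya, e] at hv
      exact (tan_smul_iff hX.smul ha).1 hv
    obtain ⟨u, b, hub⟩ := (H _ hyb).2.2.1 _ hv'
    refine ⟨τ y, hyb, u, ?_⟩
    intro h0
    apply hv0
    rw [hya, e, θ.scale_eq_zero hv' ha, hub, θ.add_smul _ _ (ResL_tan (H _ hyb).1 (H _ hyb).2.1 u), h0]
  have Hp₀ := H p₀ hp₀
  have hu0 : u ≠ 0 := by
    rintro rfl
    apply hu
    have h1 := θ.smul _ _ (ResL_tan Hp₀.1 Hp₀.2.1 (0 : ℂ × ℂ)) 0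
    rw [map_zero, smul_zero, zero_pow (by omega), zero_mul] at h1
    rw [map_zero, h1]
  have hind := FrE_indep Hp₀.2.2.2.2.1 Hp₀.2.2.2.1
  rw [Hp₀.2.2.2.2.2.2 u] at hu
  obtain ⟨hO, hD⟩ := open_dense_lf (m := m) hind hu0 hu
  refine ⟨_, hO, hD, ?_⟩
  rw [← hσ0]
  filter_upwards [hball, hσ.right] with y hyb hyr l hl hyX
  -- the analytic function on the ball
  set Φ : ℂ × ℂ → ℂ := fun q => dl l σ q * ∑ k ∈ Finset.range (m + 1), c k q * (v₂ l σ q).1 ^ k * (v₂ l σ q).2 ^ (m - k) with hΦ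
  have hΦa : AnalyticOnNhd ℂ Φ (ball 0 r) := by
    intro q hq
    have Hq := H q hq
    refine (analyticAt_dl l Hq.1).mul (Finset.analyticAt_fun_sum _ fun k hk => ?_)
    exact ((Hq.2.2.2.2.2.1 k hk).mul ((analyticAt_cb l 1 Hq.1).neg.pow k)).mul ((analyticAt_ca l 1 Hq.1).pow (m - k))
  have hΦph : ∀ q ∈ ball (0 : ℂ × ℂ) r, Φ q = ph θ l σ q := by
    intro q hq
    rw [hΦ, ph, (H q hq).2.2.2.2.2.2 (v₂ l σ q)]
  have hfr : ∃ᶠ q in 𝓝 (τ y), Φ q ≠ 0 := by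
    intro hcon
    have h3 : ∀ᶠ q in 𝓝 (τ y), Φ q = 0 := by
      filter_upwards [hcon] with q hq using not_not.1 hq
    have h4 := hΦa.eqOn_zero_of_preconnected_of_eventuallyEq_zero (convex_ball (0 : ℂ × ℂ) r).isPreconnected hyb h3
    exact hl (h4 hp₀)
  obtain ⟨a, ha, hya⟩ := hyr hyX
  have ht : Tendsto (fun q => a • σ q) (𝓝 (τ y)) (𝓝 y) := by
    have h3 : Tendsto (fun q => a • σ q) (𝓝 (τ y)) (𝓝 (a • σ (τ y))) := ((H _ hyb).1.continuousAt.tendsto).const_smul a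
    rwa [← hya] at h3
  rw [mem_closure_iff_frequently]
  refine ht.frequently (p := fun z => z ∈ X ∧ GA X l z ∧ GB θ l z) ?_
  refine (hfr.and_eventually (isOpen_ball.eventually_mem hyb)).mono ?_
  rintro q ⟨hq, hqb⟩
  have Hq := H q hqb
  rw [hΦph q hqb] at hq
  obtain ⟨g1, g2⟩ := (gab_chart hm (fun v => ResL_tan Hq.1 Hq.2.1 v) Hq.2.2.1 Hq.2.2.2.1).2 hq
  exact ⟨hX.smul _ Hq.2.1.self_of_nhds a ha, ga_smul hX.smul g1 ha, gb_smul hX.smul g2 ha⟩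

/-- **Linear forms in general position.** -/
theorem exists_frame (hX : Surface X) (hm : 1 ≤ m) (θ : WDiff X m) (hd : X ⊆ closure {x | x ∈ X ∧ ∃ v, Tan X x v ∧ θ.toFun x v ≠ 0}) :
    ∃ l : LF N, X ⊆ closure {x | x ∈ X ∧ GA X l x ∧ GB θ l x} := by
  have hK : IsCompact (X ∩ sphere (0 : EN N) 1) := by
    refine (isCompact_sphere (0 : EN N) 1).of_isClosed_subset ?_ Set.inter_subset_right
    refine isClosed_of_closure_subset fun x hx => ?_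
    have h1 : x ∈ sphere (0 : EN N) 1 := by
      have h2 : closure (X ∩ sphere (0 : EN N) 1) ⊆ sphere (0 : EN N) 1 := closure_minimal Set.inter_subset_right isClosed_sphere
      exact h2 hx
    have h3 : x ≠ 0 := by
      rintro rfl
      simp at h1
    exact ⟨hX.closed x (closure_mono Set.inter_subset_left hx) h3, h1⟩
  obtain ⟨O, hO, hD, h⟩ : ∃ O : Set (LF N), IsOpen O ∧ Dense O ∧ ∀ y ∈ X ∩ sphere (0 : EN N) 1, ∀ l ∈ O, y ∈ X →
      y ∈ closure {x | x ∈ X ∧ GA X l x ∧ GB θ l x} := by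
    refine hK.induction_on (p := fun S : Set (EN N) => ∃ O : Set (LF N), IsOpen O ∧ Dense O ∧ ∀ y ∈ S, ∀ l ∈ O, y ∈ X →
      y ∈ closure {x | x ∈ X ∧ GA X l x ∧ GB θ l x}) ?_ ?_ ?_ ?_
    · exact ⟨Set.univ, isOpen_univ, dense_univ, by simp⟩
    · rintro s t hst ⟨O, h1, h2, h3⟩
      exact ⟨O, h1, h2, fun y hy => h3 y (hst hy)⟩
    · rintro s t ⟨O, h1, h2, h3⟩ ⟨O', h1', h2', h3'⟩
      refine ⟨O ∩ O', h1.inter h1', h2.inter_of_isOpen_left h2' h1, ?_⟩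
      rintro y (h | h) l ⟨hl, hl'⟩ hy
      · exact h3 y h l hl hy
      · exact h3' y h l hl' hy
    · rintro x ⟨hx, -⟩
      obtain ⟨O, h1, h2, h3⟩ := FrE_near hX hm θ hd hx
      exact ⟨_, mem_nhdsWithin_of_mem_nhds h3, O, h1, h2, fun y hy => hy⟩
  obtain ⟨l, hl⟩ := hD.nonempty
  refine ⟨l, fun x hx => ?_⟩
  have hx0 : x ≠ 0 := by
    rintro rfl
    exact hX.zero hx
  have hn : (‖x‖ : ℂ) ≠ 0 := by
    simpa using hx0
  have h1 : (‖x‖ : ℂ)⁻¹ • x ∈ X := hX.smul x hx _ (inv_ne_zero hn)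
  have h2 : (‖x‖ : ℂ)⁻¹ • x ∈ sphere (0 : EN N) 1 := by
    rw [mem_sphere_zero_iff_norm, norm_smul, norm_inv, Complex.norm_real, norm_norm]
    exact inv_mul_cancel₀ (norm_ne_zero_iff.2 hx0)
  have h3 := h _ ⟨h1, h2⟩ l hl h1
  -- scale back
  have ht : Tendsto (fun y : EN N => (‖x‖ : ℂ) • y) (𝓝 ((‖x‖ : ℂ)⁻¹ • x)) (𝓝 x) := by
    have h4 : Continuous fun y : EN N => (‖x‖ : ℂ) • y := continuous_const_smul _
    have h5 := h4.tendsto ((‖x‖ : ℂ)⁻¹ • x)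
    rwa [smul_smul, mul_inv_cancel₀ hn, one_smul] at h5
  rw [mem_closure_iff_frequently] at h3 ⊢
  refine ht.frequently (h3.mono ?_)
  rintro y ⟨hy, g1, g2⟩
  exact ⟨hX.smul y hy _ hn, ga_smul hX.smul g1 hn, gb_smul hX.smul g2 hn⟩

end Pool.Agent.MQ3
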