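import Pool.Agent.MQ2.GInv
import Pool.Agent.MQ3.RegL

/-!
# MQ3 GInvNL: the equation of the leaves in the zero set of a function, near an arbitrary point

`v` has at most an isolated zero at `0`.  `g` = the reduced equation of the leaves in `{f = 0}` (`leaf_set`, `exists_ginv`); near every other point `f` has the
zeros of `g h`, where `{h = 0}` is transversal to `v` and does not meet `{g = 0}` (`regPt_off`).
-/

set_option autoImplicit false

open Topology Filter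

noncomputable section

namespace Pool.Agent.MQ3

open Pool.Agent.H17BP (Bihol bihol_iff)
open Pool.Agent.MQ (LeafIn ld_lin ld_chain ld_clm)
open Pool.Agent.MQ2 (Wt Iso exists_ginv leaf_set div_smooth)

/-- near `x` the function `g` is a reduced equation of the invariant part of `{f = 0}` -/
def LInv (v : ℂ × ℂ → ℂ × ℂ) (f g : ℂ × ℂ → ℂ) (x : ℂ × ℂ) : Prop :=
  AnalyticAt ℂ g x ∧ (∀ᶠ y in 𝓝 x, g y = 0 → fderiv ℂ g y ≠ 0) ∧
    (∃ c : ℂ × ℂ → ℂ, AnalyticAt ℂ c x ∧ ∀ᶠ y in 𝓝 x, fderiv ℂ g y (v y) = c y * g y) ∧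
    ∃ h : ℂ × ℂ → ℂ, AnalyticAt ℂ h x ∧ (∀ᶠ y in 𝓝 x, f y = 0 ↔ g y * h y = 0) ∧
      ∀ᶠ y in 𝓝 x, h y = 0 → g y ≠ 0 ∧ fderiv ℂ h y (v y) ≠ 0

/-- the equation of the leaves in the zero set of `f` -/
theorem exists_gloc {v : ℂ × ℂ → ℂ × ℂ} {f : ℂ × ℂ → ℂ} (hv : AnalyticAt ℂ v 0) (hv0 : ∀ᶠ p in 𝓝 (0 : ℂ × ℂ), p ≠ 0 → v p ≠ 0)
    (hf : AnalyticAt ℂ f 0) (hf0 : ∃ᶠ p in 𝓝 (0 : ℂ × ℂ), f p ≠ 0) :
    ∃ g : ℂ × ℂ → ℂ, Wt v g ∧ ∀ᶠ p in 𝓝 (0 : ℂ × ℂ), p ≠ 0 → (g p = 0 ↔ LeafIn v f p) ∧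
      (g p = 0 → fderiv ℂ g p ≠ 0 ∧ f p = 0 ∧ fderiv ℂ g p (v p) = 0) := by
  by_cases h0 : v 0 = 0
  · exact exists_ginv ⟨hv, h0, hv0⟩ hf hf0
  · rcases leaf_set hv h0 hf hf0 with h1 | ⟨l, h1, h2, h3, h4⟩
    · refine ⟨fun _ => 1, ⟨analyticAt_const, Eventually.frequently (Eventually.of_forall fun _ => one_ne_zero), ⟨fun _ => 0, analyticAt_const, ?_⟩, ?_⟩, ?_⟩
      · exact Eventually.of_forall fun p => by simp
      · exact Eventually.of_forall fun p _ h => absurd h one_ne_zero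
      · filter_upwards [h1] with p hp _
        exact ⟨⟨fun h => absurd h one_ne_zero, fun h => absurd h hp⟩, fun h => absurd h one_ne_zero⟩
    · have h5 : ∀ᶠ p in 𝓝 (0 : ℂ × ℂ), fderiv ℂ l p ≠ 0 := h1.fderiv.continuousAt.eventually_ne h3
      refine ⟨l, ⟨h1, ?_, ?_, ?_⟩, ?_⟩
      · intro hcon
        apply h3
        have e : l =ᶠ[𝓝 0] fun _ => 0 := by
          filter_upwards [hcon] with p hp using not_not.1 hp
        rw [e.fderiv_eq]
        simp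
      · exact div_smooth (l' := fun p => fderiv ℂ l p (v p)) h1 (ld_clm h1.fderiv hv) (fun _ => h3) (by
          filter_upwards [h4] with p hp h using (hp.2 h).2)
      · filter_upwards [h5] with p hp _ _ using hp
      · filter_upwards [h4, h5] with p hp hp5 _
        exact ⟨hp.1.symm, fun h => ⟨hp5, hp.2 h⟩⟩

/-- a linear form with prescribed independence -/
private theorem GInvNL_form {L : ℂ × ℂ →L[ℂ] ℂ} (h : L ≠ 0) : ∃ l : ℂ × ℂ →L[ℂ] ℂ, L (1, 0) * l (0, 1) - L (0, 1) * l (1, 0) ≠ 0 := by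
  by_cases h1 : L (1, 0) = 0
  · refine ⟨ContinuousLinearMap.fst ℂ ℂ ℂ, ?_⟩
    intro h2
    apply h
    have h3 : L (0, 1) = 0 := by
      rw [h1] at h2
      simpa using h2
    ext
    · simpa using h1
    · simpa using h3
  · refine ⟨ContinuousLinearMap.snd ℂ ℂ ℂ, ?_⟩
    simpa using h1

/-- a smooth invariant curve is a leaf -/
theorem leafIn_of_smooth {v : ℂ × ℂ → ℂ × ℂ} {f G : ℂ × ℂ → ℂ} {w : ℂ × ℂ} (hG : AnalyticAt ℂ G w) (h0 : G w = 0) (h1 : fderiv ℂ G w ≠ 0)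
    (hinv : ∀ᶠ y in 𝓝 w, G y = 0 → fderiv ℂ G y (v y) = 0) (hfG : ∀ᶠ y in 𝓝 w, G y = 0 → f y = 0) : LeafIn v f w := by
  obtain ⟨m, hm⟩ := GInvNL_form h1
  obtain ⟨θ, hθ⟩ : ∃ θ : ℂ × ℂ → ℂ × ℂ, θ = fun x => (G (w + x), m x) := ⟨_, rfl⟩
  have hqa : AnalyticAt ℂ (fun x : ℂ × ℂ => w + x) 0 := analyticAt_const.add analyticAt_id
  have hl' : AnalyticAt ℂ (fun x : ℂ × ℂ => G (w + x)) 0 := AnalyticAt.fun_comp (g := G) (f := fun x : ℂ × ℂ => w + x) (by rwa [add_zero]) hqa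
  have hθa : AnalyticAt ℂ θ 0 := by
    rw [hθ]
    exact hl'.prod (m.analyticAt 0)
  have hθ0 : θ 0 = 0 := by
    rw [hθ]
    simp [h0]
  have hd : HasFDerivAt θ ((fderiv ℂ G w).prod m) 0 := by
    have h1 : HasFDerivAt G (fderiv ℂ G w) (w + 0) := by
      rw [add_zero]
      exact hG.differentiableAt.hasFDerivAt
    have h2 : HasFDerivAt (fun x : ℂ × ℂ => w + x) (ContinuousLinearMap.id ℂ (ℂ × ℂ)) 0 := (hasFDerivAt_id (0 : ℂ × ℂ)).const_add w
    have h3 : HasFDerivAt (fun x : ℂ × ℂ => G (w + x)) ((fderiv ℂ G w).comp (ContinuousLinearMap.id ℂ (ℂ × ℂ))) 0 :=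
      HasFDerivAt.comp (0 : ℂ × ℂ) (g := G) (f := fun x : ℂ × ℂ => w + x) h1 h2
    rw [ContinuousLinearMap.comp_id] at h3
    rw [hθ]
    exact h3.prodMk m.hasFDerivAt
  have hB : Bihol θ := by
    rw [bihol_iff hθa hθ0, hd.fderiv]
    simpa using hm
  obtain ⟨θ', a1, -, a3⟩ := hB.exists_inv
  have hline : AnalyticAt ℂ (fun t : ℂ => ((0, t) : ℂ × ℂ)) 0 := analyticAt_const.prod analyticAt_id
  have hlt : Tendsto (fun t : ℂ => ((0, t) : ℂ × ℂ)) (𝓝 0) (𝓝 0) := by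
    have := hline.continuousAt.tendsto
    exact this
  have hγ' : AnalyticAt ℂ (fun t : ℂ => θ' (0, t)) 0 := AnalyticAt.fun_comp (g := θ') (f := fun t : ℂ => ((0, t) : ℂ × ℂ)) a1.an hline
  have hγ : AnalyticAt ℂ (fun t : ℂ => w + θ' (0, t)) 0 := analyticAt_const.add hγ'
  have hγ0 : w + θ' (0, 0) = w := by
    have : θ' (0, 0) = 0 := a1.zero
    rw [this, add_zero]
  have hγt : Tendsto (fun t : ℂ => w + θ' (0, t)) (𝓝 0) (𝓝 w) := by
    have h2 := hγ.continuousAt.tendsto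
    rwa [hγ0] at h2
  have hrel : ∀ᶠ t in 𝓝 (0 : ℂ), G (w + θ' (0, t)) = 0 ∧ m (θ' (0, t)) = t := by
    filter_upwards [hlt.eventually a3] with t ht
    rw [hθ] at ht
    exact ⟨congrArg Prod.fst ht, congrArg Prod.snd ht⟩
  have hGne : ∀ᶠ y in 𝓝 w, fderiv ℂ G y ≠ 0 := hG.fderiv.continuousAt.eventually_ne h1
  refine ⟨fun t => w + θ' (0, t), hγ, hγ0, ?_, ?_⟩
  · filter_upwards [eventually_eventually_nhds.2 hrel, hγ.eventually_analyticAt, hγt.eventually hG.eventually_analyticAt, hγt.eventually hinv,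
      hγt.eventually hfG, hγt.eventually hGne] with t t1 t2 t3 t4 t5 t6
    refine ⟨?_, t5 t1.self_of_nhds.1⟩
    have e1 : fderiv ℂ G (w + θ' (0, t)) (deriv (fun t => w + θ' (0, t)) t) = 0 :=
      ld_chain (c := fun t => w + θ' (0, t)) t3 t2 (t1.mono fun s hs => hs.1)
    have e2 := t4 t1.self_of_nhds.1
    by_contra hne
    exact t6 (ld_lin e2 e1 (sub_ne_zero.2 hne))
  · intro hcon
    have h2 : ∀ᶠ t in 𝓝 (0 : ℂ), t = 0 := by
      filter_upwards [hcon, hrel] with t t1 t2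
      have t3 : θ' (0, t) = 0 := by
        have := not_not.1 t1
        simpa using this
      rw [← t2.2, t3, map_zero]
    have h3 : ∀ᶠ t in 𝓝[≠] (0 : ℂ), False := by
      filter_upwards [h2.filter_mono nhdsWithin_le_nhds, self_mem_nhdsWithin] with t t1 t2
      exact t2 t1
    exact h3.exists.elim fun _ h => h

/-- **The invariant part off the center.** -/
theorem linv_off {v : ℂ × ℂ → ℂ × ℂ} {f g : ℂ × ℂ → ℂ} (hv : AnalyticAt ℂ v 0) (hv0 : ∀ᶠ p in 𝓝 (0 : ℂ × ℂ), p ≠ 0 → v p ≠ 0)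
    (hf : AnalyticAt ℂ f 0) (hf0 : ∃ᶠ p in 𝓝 (0 : ℂ × ℂ), f p ≠ 0) (hg : Wt v g)
    (h : ∀ᶠ p in 𝓝 (0 : ℂ × ℂ), p ≠ 0 → (g p = 0 ↔ LeafIn v f p) ∧ (g p = 0 → fderiv ℂ g p ≠ 0 ∧ f p = 0 ∧ fderiv ℂ g p (v p) = 0)) :
    ∀ᶠ p in 𝓝 (0 : ℂ × ℂ), p ≠ 0 → LInv v f g p := by
  obtain ⟨c, hc, hcg⟩ := hg.cof
  filter_upwards [regPt_off hv hv0 hf hf0, eventually_eventually_nhds.2 h, hg.an.eventually_analyticAt, hc.eventually_analyticAt,
    eventually_eventually_nhds.2 hcg, hv.eventually_analyticAt, hf.eventually_analyticAt] with x x1 x2 x3 x4 x5 x6 x7 hx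
  have hx0 : ∀ᶠ y in 𝓝 x, y ≠ 0 := isOpen_ne.mem_nhds hx
  have hloc : ∀ᶠ y in 𝓝 x, (g y = 0 ↔ LeafIn v f y) ∧ (g y = 0 → fderiv ℂ g y ≠ 0 ∧ f y = 0 ∧ fderiv ℂ g y (v y) = 0) := by
    filter_upwards [x2, hx0] with y y1 y2 using y1 y2
  refine ⟨x3, by filter_upwards [hloc] with y hy h0 using (hy.2 h0).1, ⟨c, x4, x5⟩, ?_⟩
  obtain ⟨hvx, hr⟩ := x1 hx
  rcases hr with hr | ⟨G, g1, g2, g3, g4, g5⟩
  · refine ⟨fun _ => 1, analyticAt_const, ?_, Eventually.of_forall fun y h => absurd h one_ne_zero⟩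
    filter_upwards [hloc, x7.continuousAt.eventually_ne hr] with y y1 y2
    rw [mul_one]
    exact ⟨fun h => absurd h y2, fun h => absurd (y1.2 h).2.1 y2⟩
  · rcases g5 with g5 | g5
    · -- transversal
      have hgx : g x ≠ 0 := by
        intro h0
        obtain ⟨u, hu, hue⟩ := div_smooth (l := g) (l' := G) x3 g1 (fun h => (hloc.self_of_nhds.2 h).1) (by
          filter_upwards [hloc, g4] with y y1 y2 y3
          exact y2.1 (y1.2 y3).2.1)
        apply g5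
        have e1 : HasFDerivAt (fun y => u y * g y) (u x • fderiv ℂ g x + g x • fderiv ℂ u x) x :=
          hu.differentiableAt.hasFDerivAt.mul x3.differentiableAt.hasFDerivAt
        have e2 : G =ᶠ[𝓝 x] fun y => u y * g y := hue
        rw [e2.fderiv_eq, e1.fderiv]
        simp [h0, (hloc.self_of_nhds.2 h0).2.2]
      have hD : AnalyticAt ℂ (fun y => fderiv ℂ G y (v y)) x := ld_clm g1.fderiv x6
      refine ⟨G, g1, ?_, ?_⟩
      · filter_upwards [g4, x3.continuousAt.eventually_ne hgx] with y y1 y2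
        rw [y1]
        exact ⟨fun h => by rw [h, mul_zero], fun h => (mul_eq_zero.1 h).resolve_left y2⟩
      · filter_upwards [x3.continuousAt.eventually_ne hgx, hD.continuousAt.eventually_ne g5] with y y1 y2 _
        exact ⟨y1, y2⟩
    · -- invariant
      refine ⟨fun _ => 1, analyticAt_const, ?_, Eventually.of_forall fun y h => absurd h one_ne_zero⟩
      filter_upwards [hloc, g4, eventually_eventually_nhds.2 g4, eventually_eventually_nhds.2 g5, g1.eventually_analyticAt,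
        g1.fderiv.continuousAt.eventually_ne g3] with y y1 y2 y3 y4 y5 y6
      rw [mul_one]
      refine ⟨fun h => y1.1.2 ?_, fun h => (y1.2 h).2.1⟩
      exact leafIn_of_smooth y5 (y2.1 h) y6 y4 (y3.mono fun w hw => hw.2)

end Pool.Agent.MQ3
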