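import Pool.Agent.MQ2.RegE
import Pool.Agent.MQ.Bridge

/-!
# MQ3 GReg: the package at a regular point of the vector field

`ζ'` and `D = h (p) ζ'` are holomorphic, `η = conj D`, no error and no exact term.
-/

set_option autoImplicit false

open Topology Filter Metric MeasureTheory Laplacian

noncomputable section

namespace Pool.Agent.MQ3

open Pool.Agent.H36.BP (EN)
open Pool.Agent.H30M (tau LogSing)
open Pool.Agent.MQ Pool.Agent.MQ2

/-- `log ‖f‖` is bounded above on the small polydiscs -/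
private theorem log_bdd {f : ℂ × ℂ → ℂ} (hf : AnalyticAt ℂ f 0) :
    ∃ C : ℝ, 0 ≤ C ∧ ∀ᶠ r in 𝓝[>] (0 : ℝ), ∀ q ∈ ball (0 : ℂ × ℂ) r, f q ≠ 0 → Real.log ‖f q‖ ≤ C := by
  refine ⟨‖f 0‖ + 1, by positivity, ?_⟩
  have h1 : ∀ᶠ q in 𝓝 (0 : ℂ × ℂ), ‖f q‖ < ‖f 0‖ + 1 := hf.continuousAt.norm.eventually (gt_mem_nhds (by linarith))
  obtain ⟨ε, hε, h2⟩ := Metric.eventually_nhds_iff_ball.1 h1
  filter_upwards [Ioo_mem_nhdsGT hε] with r hr q hq h0
  have h3 := h2 q (ball_subset_ball hr.2.le hq)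
  have h4 := Real.log_le_sub_one_of_pos (norm_pos_iff.2 h0)
  linarith

/-- **The package at a regular point.** -/
theorem good_reg {P : (ℂ × ℂ → ℂ) → (ℂ × ℂ → ℂ) → Prop} {v : ℂ × ℂ → ℂ × ℂ} (hv : AnalyticAt ℂ v 0) (h0 : v 0 ≠ 0) : Good P v := by
  refine ⟨0, fun i => i.elim0, fun i => i.elim0, fun g J _ hg hJ => ?_⟩
  have hvne : ∀ᶠ p in 𝓝 (0 : ℂ × ℂ), v p ≠ 0 := hv.continuousAt.eventually_ne h0
  have hiso : ∀ᶠ p in 𝓝 (0 : ℂ × ℂ), p ≠ 0 → v p ≠ 0 := hvne.mono fun p hp _ => hp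
  obtain ⟨Cg, hCg, hg1⟩ := log_bdd hg.an
  obtain ⟨CJ, hCJ, hJ1⟩ := log_bdd hJ
  obtain ⟨ε, hε, hvε⟩ := Metric.eventually_nhds_iff_ball.1 hvne
  filter_upwards [DD_cof hv hiso hg, DD_bound hv hiso hg, hg1, hJ1, Ioo_mem_nhdsGT hε] with r h1 h2 h3 h4 hr s _ _ B hB
  obtain ⟨h, hh, hcof⟩ := h1
  obtain ⟨C, hC, hbd⟩ := h2 0 (Or.inr h0)
  refine ⟨1, 0, zero_le_one, le_rfl, fun d n q ψ _ _ _ _ _ M F Q lm Om p hD => ?_⟩
  have hvz : ∀ z ∈ Om, v (p z) ≠ 0 := fun z hz => hvε _ (ball_subset_ball hr.2.le (hD.crv.mem z hz))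
  have hreg := fun z hz => hcof Om p hD.crv hD.g_ne z hz (hvz z hz)
  have hbd' : ∀ z ∈ Om, ‖ztv v p z‖ ≤ C * ‖deriv p z‖ ∧ ‖DDv v g p z‖ ≤ C * ‖deriv p z‖ := fun z hz =>
    hbd Om p hD.crv hD.g_ne z hz (by simp)
  have hDan : ∀ z ∈ Om, AnalyticAt ℂ (DDv v g p) z := by
    intro z hz
    obtain ⟨-, ha, hev⟩ := hreg z hz
    have hh' : AnalyticAt ℂ h (p z) := hh _ (ball_subset_closedBall (hD.crv.mem z hz))
    have e : (fun w => h (p w) * ztv v p w) =ᶠ[𝓝 z] DDv v g p := hev.mono fun w hw => hw.symm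
    exact ((hh'.comp (hD.crv.an z hz)).mul ha).congr e
  have hCB : 0 ≤ C * B := mul_nonneg hC.le hB
  refine ⟨Real.log (1 + C * B) + Cg + CJ + C * B, lm, fun z => (starRingEnd ℂ) (DDv v g p z), fun _ => 0, fun _ => 0, ?_, hD.lm_cont, fun z => le_rfl, ?_,
    ?_, continuousOn_const, fun z _ => ⟨0, LogSing.of_contDiffAt contDiffAt_const⟩, fun z _ _ => ⟨rfl, rfl, rfl⟩, ?_, ?_, ?_, ?_⟩
  · have := Real.log_nonneg (show (1 : ℝ) ≤ 1 + C * B by linarith)
    linarith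
  · intro R _
    rw [one_mul]
    have := Real.log_nonneg (show (1 : ℝ) ≤ 1 + C * B by linarith)
    linarith
  · intro z hz
    have h5 : ContDiffAt ℝ 1 (DDv v g p) z := (hDan z hz).contDiffAt.restrict_scalars ℝ
    exact (Complex.conjCLE.contDiff.contDiffAt.comp z h5).contDiffWithinAt
  · intro z hz _
    rw [RCLike.norm_conj]
    have h5 := (hbd' z hz).2
    have h6 := hD.lm_ge z hz
    have h7 : ‖DDv v g p z‖ ≤ C * (B * lm z) := h5.trans (mul_le_mul_of_nonneg_left h6 hC.le)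
    have h8 : C * B * lm z ≤ (Real.log (1 + C * B) + Cg + CJ + C * B) * lm z := by
      refine mul_le_mul_of_nonneg_right ?_ (hD.lm_nonneg z)
      have := Real.log_nonneg (show (1 : ℝ) ≤ 1 + C * B by linarith)
      linarith
    linarith
  · intro z hz _
    have h5 : Δ (fun _ : ℂ => (0 : ℝ)) z = 0 := by simp
    rw [dv_conj (hDan z hz).differentiableAt, h5]
    norm_num
  · intro z hz _ hz1 hz2 hz3
    have h5 := h3 _ (hD.crv.mem z hz) hz2
    have h6 := h4 _ (hD.crv.mem z hz) hz3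
    have h7 : ‖ztv v p z‖ ≤ C * B * lm z := by
      calc ‖ztv v p z‖ ≤ C * ‖deriv p z‖ := (hbd' z hz).1
        _ ≤ C * (B * lm z) := mul_le_mul_of_nonneg_left (hD.lm_ge z hz) hC.le
        _ = _ := by ring
    have h8 : Real.log ‖ztv v p z‖ ≤ Real.log (1 + C * B) + Real.log (1 + lm z) := by
      have hl := hD.lm_nonneg z
      rw [← Real.log_mul (by linarith) (by linarith)]
      refine Real.log_le_log (norm_pos_iff.2 hz1) (h7.trans ?_)
      nlinarith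
    linarith
  · intro R hR
    simp only [mul_zero, integral_zero]
    have h5 : 0 ≤ ∫ z, ‖gr (tau R) z‖ * lm z := integral_nonneg fun z => mul_nonneg (norm_nonneg _) (hD.lm_nonneg z)
    have h6 := Real.log_nonneg (show (1 : ℝ) ≤ 1 + C * B by linarith)
    have h7 : 0 ≤ (Real.log (1 + C * B) + Cg + CJ + C * B) * ∫ z, ‖gr (tau R) z‖ * lm z := mul_nonneg (by linarith) h5
    have h8 : (0 : ℝ) * d / n * (∫ z, tau R z * lm z ^ 2) = 0 := by ring
    rw [h8]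
    linarith

end Pool.Agent.MQ3
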