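import Pool.Agent.H17BP.Ind

/-!
# MQ3 GlobD: a surface on which the total transform of a curve has normal crossings

`X` is the cone of a closed surface in `ℙ(V)`, `B` the cone of a curve in it.  `Y` is the cone of a smooth closed surface in `ℙ(V')`, a composition of
blow-ups of points of `B`; the map to `X` is given by `L a` where `L a y ≠ 0`.
-/

set_option autoImplicit false

open Topology Filter

noncomputable section

namespace Pool.Agent.MQ3

open Pool.Agent.H17BP (Pr Surface NodalAt Tan)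

/-- A surface over `X` on which the total transform of `B` has normal crossings. -/
structure NCSurf {V : Type} [NormedAddCommGroup V] [NormedSpace ℂ V] (X B : Set V) where
  V' : Type
  [ng : NormedAddCommGroup V']
  [ns : NormedSpace ℂ V']
  [fd : FiniteDimensional ℂ V']
  /-- the surface -/
  Y : Set V'
  κ : Type
  [fin : Fintype κ]
  /-- the projections -/
  L : κ → V' →L[ℂ] V
  surf : Surface Y
  ex : ∀ y ∈ Y, ∃ a, L a y ≠ 0
  mem : ∀ y ∈ Y, ∀ a, L a y ≠ 0 → L a y ∈ X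
  pr : ∀ y ∈ Y, ∀ a b, L a y ≠ 0 → L b y ≠ 0 → Pr (L a y) (L b y)
  nodal : ∀ y ∈ Y, NodalAt Y {y | y ∈ Y ∧ ∀ a, L a y ≠ 0 → L a y ∈ B} y
  /-- off the total transform of `B` the projection is immersive -/
  imm : ∀ y ∈ Y, ∀ a, L a y ≠ 0 → L a y ∉ B → ∀ v ∈ Tan Y y, (∃ c : ℂ, L a v = c • L a y) → ∃ c : ℂ, v = c • y
  d : ℕ
  K : ℝ
  /-- the lift of a curve -/
  lift : ∀ F : ℂ → V, Differentiable ℂ F → (∀ z, F z ∈ X) → (∃ z, F z ∉ B) → ∃ (F' : ℂ → V') (h : ℂ → ℂ),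
    Differentiable ℂ F' ∧ (∀ z, F' z ∈ Y) ∧ Differentiable ℂ h ∧ (∃ z, h z ≠ 0) ∧ (∀ z, ‖h z‖ * ‖F' z‖ ≤ K * ‖F z‖ ^ d) ∧
      ∀ z a, ∃ c : ℂ, L a (F' z) = c • F z

attribute [instance] NCSurf.ng NCSurf.ns NCSurf.fd NCSurf.fin

end Pool.Agent.MQ3
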