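import Pool.Agent.MQ3.GlobE

/-!
# MQ3 GlobL: the density of a lift

`lm = lam F + lam (e ∘ G)` is continuous, it dominates `lam F` and `lam (e ∘ G)`, and `∫ τ_R lm² ≤ 2 (1 + d) En F R + K`.  The factor `2 (1 + d)`
depends only on the degree `d` of the lift; only `K` depends on the curve.
-/

set_option autoImplicit false

open Topology Filter Metric MeasureTheory Laplacian

noncomputable section

namespace Pool.Agent.MQ3

open Pool.Agent.H36.BP (EN)
open Pool.Agent.H30M (tau tau_nonneg contDiff_tau hcs_tau)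
open Pool.Agent.MQ (lam En lam_nonneg continuous_lam)

variable {N N' : ℕ}

theorem gl_int {R : ℝ} (hR : 1 ≤ R) {f : ℂ → ℝ} (hf : Continuous f) : Integrable fun z => tau R z * f z :=
  ((contDiff_tau R).continuous.mul hf).integrable_of_hasCompactSupport (hcs_tau hR).mul_right

/-- the energy of a sum of two densities -/
theorem int_add_sq_le {f g : ℂ → ℝ} (hf : Continuous f) (hg : Continuous g) {R : ℝ} (hR : 1 ≤ R) :
    ∫ z, tau R z * (f z + g z) ^ 2 ≤ 2 * (∫ z, tau R z * f z ^ 2) + 2 * ∫ z, tau R z * g z ^ 2 := by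
  have i1 : Integrable fun z => tau R z * f z ^ 2 := gl_int hR (hf.pow 2)
  have i2 : Integrable fun z => tau R z * g z ^ 2 := gl_int hR (hg.pow 2)
  have i3 : Integrable fun z => tau R z * (f z + g z) ^ 2 := gl_int hR ((hf.add hg).pow 2)
  rw [← integral_const_mul, ← integral_const_mul, ← integral_add (i1.const_mul 2) (i2.const_mul 2)]
  refine integral_mono i3 ((i1.const_mul 2).add (i2.const_mul 2)) fun z => ?_
  have h1 := tau_nonneg hR z
  have h2 : (f z + g z) ^ 2 ≤ 2 * f z ^ 2 + 2 * g z ^ 2 := by nlinarith [sq_nonneg (f z - g z)]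
  calc tau R z * (f z + g z) ^ 2 ≤ tau R z * (2 * f z ^ 2 + 2 * g z ^ 2) := mul_le_mul_of_nonneg_left h2 h1
    _ = 2 * (tau R z * f z ^ 2) + 2 * (tau R z * g z ^ 2) := by ring

/-- the density of a lift, the explicit form -/
theorem lm_lift {V : Type*} [NormedAddCommGroup V] [NormedSpace ℂ V] (e : V ≃L[ℂ] EN N') {F : ℂ → EN N} {G : ℂ → V} {h : ℂ → ℂ} {K : ℝ} {d : ℕ}
    (hF : Differentiable ℂ F) (hF0 : ∀ z, F z ≠ 0) (hG : Differentiable ℂ G) (hG0 : ∀ z, G z ≠ 0) (hh : Differentiable ℂ h) (hh0 : ∃ z, h z ≠ 0)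
    (hle : ∀ z, ‖h z‖ * ‖G z‖ ≤ K * ‖F z‖ ^ d) : Continuous (fun z => lam F z + lam (fun z => e (G z)) z) ∧
      ∃ C : ℝ, ∀ R, 1 ≤ R → ∫ z, tau R z * (lam F z + lam (fun z => e (G z)) z) ^ 2 ≤ 2 * (1 + d) * En F R + C := by
  have c1 : Continuous (lam F) := continuous_lam hF hF0
  have c2 : Continuous (lam fun z => e (G z)) :=
    continuous_lam (F := fun z => e (G z)) (e.differentiable.comp hG) fun z h0 => hG0 z (e.map_eq_zero_iff.1 h0)
  obtain ⟨C, hC⟩ := en_le_iso e hF hF0 hG hG0 hh hh0 hle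
  refine ⟨c1.add c2, 2 * C, fun R hR => (int_add_sq_le c1 c2 hR).trans ?_⟩
  have h1 := hC R hR
  change 2 * En F R + 2 * En (fun z => e (G z)) R ≤ _
  linarith

/-- **GlobL: the density of a lift.**  The number `2 (1 + d)` is uniform in the curve `F`. -/
theorem exists_lm {V : Type*} [NormedAddCommGroup V] [NormedSpace ℂ V] (e : V ≃L[ℂ] EN N') {F : ℂ → EN N} {G : ℂ → V} {h : ℂ → ℂ} {K : ℝ} {d : ℕ}
    (hF : Differentiable ℂ F) (hF0 : ∀ z, F z ≠ 0) (hG : Differentiable ℂ G) (hG0 : ∀ z, G z ≠ 0) (hh : Differentiable ℂ h) (hh0 : ∃ z, h z ≠ 0)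
    (hle : ∀ z, ‖h z‖ * ‖G z‖ ≤ K * ‖F z‖ ^ d) : ∃ lm : ℂ → ℝ, Continuous lm ∧ (∀ z, 0 ≤ lm z) ∧ (∀ z, lam F z ≤ lm z) ∧
      (∀ z, lam (fun z => e (G z)) z ≤ lm z) ∧ ∃ C : ℝ, ∀ R, 1 ≤ R → ∫ z, tau R z * lm z ^ 2 ≤ 2 * (1 + d) * En F R + C := by
  obtain ⟨h1, h2⟩ := lm_lift e hF hF0 hG hG0 hh hh0 hle
  exact ⟨fun z => lam F z + lam (fun z => e (G z)) z, h1, fun z => add_nonneg (lam_nonneg _ _) (lam_nonneg _ _),
    fun z => le_add_of_nonneg_right (lam_nonneg _ _), fun z => le_add_of_nonneg_left (lam_nonneg _ _), h2⟩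

end Pool.Agent.MQ3
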