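import Pool.Agent.MQ3.GlobE
import Pool.Agent.H17BP.ChLem

/-!
# MQ3 GlobO: the surface on which `{RD = 0}` has normal crossings (helper22's form)

`NCOver P RD`: a smooth closed surface (cone) `Y` in a finite dimensional space, the relation `Ov y x` (the point `y` of `Y` lies over the point `x` of
`coneE P`), the total transform `D` of `{RD = 0}` is nodal at every point.  `NCOver.Lift`: the lift of a curve.
-/

set_option autoImplicit false

open Topology Filter Metric MvPolynomial MeasureTheory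

noncomputable section

namespace Pool.Agent.MQ3

open Pool.Agent.H36.BP (EN fs)
open Pool.Agent.H17BP (Surface IsChart NodalAt Pr)
open Pool.Agent.H17EF (projVar coneE)
open Pool.Agent.MQ (lam En)

variable {M : ℕ} {P : Ideal (MvPolynomial (Fin (M + 1)) ℂ)} {RD : MvPolynomial (Fin (M + 1)) ℂ}

/-- a smooth surface over `coneE P` on which `{RD = 0}` has normal crossings -/
structure NCOver (P : Ideal (MvPolynomial (Fin (M + 1)) ℂ)) (RD : MvPolynomial (Fin (M + 1)) ℂ) where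
  V : Type
  [ng : NormedAddCommGroup V]
  [ns : NormedSpace ℂ V]
  [fd : FiniteDimensional ℂ V]
  Y : Set V
  D : Set V
  /-- `y` lies over `x` -/
  Ov : V → EN M → Prop
  N : ℕ
  /-- an injective map to a Hermitian space, in order to speak of the energy of curves in `Y` -/
  e : V →L[ℂ] EN N
  e_inj : Function.Injective e
  /-- the factor for the energy of the lift -/
  A : ℝ
  surf : Surface Y
  D_smul : ∀ y ∈ D, ∀ c : ℂ, c ≠ 0 → c • y ∈ D
  nodal : ∀ y ∈ Y, NodalAt Y D y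
  mem : ∀ y x, Ov y x → y ∈ Y ∧ x ∈ coneE P
  germ : ∀ y ∈ Y, ∃ π : V → EN M, AnalyticAt ℂ π y ∧ ∀ᶠ y' in 𝓝 y, y' ∈ Y → Ov y' (π y')
  uniq : ∀ y y' x x', Pr y y' → Ov y x → Ov y' x' → Pr x x'
  div : ∀ y x, Ov y x → (y ∈ D ↔ eval x.ofLp RD = 0)
  /-- off the divisor the map to `coneE P` is immersive -/
  imm : ∀ σ τ, IsChart Y σ τ → σ 0 ∉ D → ∀ ρ : ℂ × ℂ → EN M, AnalyticAt ℂ ρ 0 → (∀ᶠ p in 𝓝 (0 : ℂ × ℂ), Ov (σ p) (ρ p)) →
    ∀ (w : ℂ × ℂ) (a : ℂ), fderiv ℂ ρ 0 w = a • ρ 0 → w = 0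

attribute [instance] NCOver.ng NCOver.ns NCOver.fd

/-- the curve `G` in `Y` lies over `F` -/
structure NCOver.Lift (S : NCOver P RD) (F : ℂ → EN M) (G : ℂ → S.V) : Prop where
  an : ∀ z, AnalyticAt ℂ G z
  ov : ∀ z, S.Ov (G z) (F z)
  en : ∃ B : ℝ, ∀ R, 1 ≤ R → En (fun z => S.e (G z)) R ≤ S.A * En F R + B

end Pool.Agent.MQ3
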