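import Pool.Agent.MQ3.GlobO
import Pool.Agent.MQ3.Defs
import Pool.Agent.H17BP.ChLem
import Pool.Agent.H17BP.Ift

/-!
# MQ3 GlobP: boxes of the surface `Y`
-/

set_option autoImplicit false

open Topology Filter Metric MvPolynomial MeasureTheory

noncomputable section

namespace Pool.Agent.MQ3

open Pool.Agent.H36.BP (EN fs)
open Pool.Agent.H17BP (Surface IsChart NodalAt Pr Bihol)
open Pool.Agent.H17EF (projVar coneE)
open Pool.Agent.MQ (lam En)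

/-! ## charts in a normed space -/

section general

variable {V : Type} [NormedAddCommGroup V] [NormedSpace ℂ V] {Y : Set V} {σ : ℂ × ℂ → V} {τ : V → ℂ × ℂ}

theorem gp_dual {x : V} (hx : x ≠ 0) : ∃ Λ : V →L[ℂ] ℂ, Λ x ≠ 0 := by
  obtain ⟨Λ, hΛ⟩ := exists_dual_vector ℂ x (norm_ne_zero_iff.mpr hx)
  refine ⟨Λ, ?_⟩
  rw [hΛ.2]
  simpa using hx

/-- being proportional is a closed condition -/
theorem not_pr_eventually {v w : V} (hv : v ≠ 0) (hw : w ≠ 0) (h : ¬ Pr v w) : ∀ᶠ p in 𝓝 (v, w), ¬ Pr p.1 p.2 := by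
  obtain ⟨Λ, hΛ⟩ := gp_dual hw
  have h1 : Λ w • v - Λ v • w ≠ 0 := by
    intro h0
    have h2 : v = ((Λ w)⁻¹ * Λ v) • w := by
      rw [mul_smul, ← sub_eq_zero.1 h0, smul_smul, inv_mul_cancel₀ hΛ, one_smul]
    refine h ⟨_, ?_, h2⟩
    intro h3
    rw [h3, zero_smul] at h2
    exact hv h2
  have hc : Continuous fun p : V × V => Λ p.2 • p.1 - Λ p.1 • p.2 := by fun_prop
  have h2 : ∀ᶠ p in 𝓝 (v, w), Λ p.2 • p.1 - Λ p.1 • p.2 ≠ 0 := hc.continuousAt.eventually_ne h1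
  filter_upwards [h2] with p hp
  rintro ⟨c, -, hc⟩
  apply hp
  rw [hc, map_smul, smul_eq_mul, smul_smul, mul_comm, sub_self]

theorem chart_inj_pr (h : IsChart Y σ τ) : ∀ᶠ p in 𝓝 ((0 : ℂ × ℂ), (0 : ℂ × ℂ)), Pr (σ p.1) (σ p.2) → p.1 = p.2 := by
  obtain ⟨Λ, hΛ⟩ := gp_dual h.ne
  have hσ : Tendsto σ (𝓝 0) (𝓝 (σ 0)) := h.σ_an.continuousAt.tendsto
  have t1 : Tendsto (fun p : (ℂ × ℂ) × (ℂ × ℂ) => p.1) (𝓝 ((0 : ℂ × ℂ), (0 : ℂ × ℂ))) (𝓝 0) := continuous_fst.tendsto _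
  have t2 : Tendsto (fun p : (ℂ × ℂ) × (ℂ × ℂ) => p.2) (𝓝 ((0 : ℂ × ℂ), (0 : ℂ × ℂ))) (𝓝 0) := continuous_snd.tendsto _
  have hL : Tendsto (fun p => Λ (σ p)) (𝓝 0) (𝓝 (Λ (σ 0))) := (Λ.continuous.tendsto _).comp hσ
  have h1 : Tendsto (fun p : (ℂ × ℂ) × (ℂ × ℂ) => (σ p.2, Λ (σ p.1) / Λ (σ p.2))) (𝓝 ((0 : ℂ × ℂ), (0 : ℂ × ℂ))) (𝓝 (σ 0, (1 : ℂ))) := by
    refine (hσ.comp t2).prodMk_nhds ?_
    have := (hL.comp t1).div (hL.comp t2) hΛ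
    rwa [div_self hΛ] at this
  filter_upwards [h1.eventually h.inv, t1.eventually h.left, t2.eventually h.left, (hL.comp t2).eventually_ne hΛ] with p g1 g2 g3 g4
  rintro ⟨c, hc, g5⟩
  have g4' : Λ (σ p.2) ≠ 0 := g4
  have g6 : Λ (σ p.1) / Λ (σ p.2) = c := by
    rw [div_eq_iff g4', g5, map_smul, smul_eq_mul]
  simp only [g6] at g1
  rw [← g2, g5, g1, g3]

/-- a chart is immersive modulo the radial direction -/
theorem chart_imm_zero [FiniteDimensional ℂ V] (h : IsChart Y σ τ) {w : ℂ × ℂ} {a : ℂ} (hw : fderiv ℂ σ 0 w = a • σ 0) : w = 0 := by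
  have d1 : HasFDerivAt σ (fderiv ℂ σ 0) 0 := h.σ_an.differentiableAt.hasFDerivAt
  have d2 : HasFDerivAt τ (fderiv ℂ τ (σ 0)) (σ 0) := h.τ_an.differentiableAt.hasFDerivAt
  have d3 : HasFDerivAt (τ ∘ σ) ((fderiv ℂ τ (σ 0)).comp (fderiv ℂ σ 0)) 0 := d2.comp 0 d1
  have d4 : HasFDerivAt (τ ∘ σ) (ContinuousLinearMap.id ℂ (ℂ × ℂ)) 0 := by
    refine (hasFDerivAt_id (0 : ℂ × ℂ)).congr_of_eventuallyEq ?_
    filter_upwards [h.left] with x hx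
    exact hx
  have d5 := d3.unique d4
  have d6 : fderiv ℂ τ (σ 0) (fderiv ℂ σ 0 w) = w := by
    have : ((fderiv ℂ τ (σ 0)).comp (fderiv ℂ σ 0)) w = w := by rw [d5]; rfl
    exact this
  have d7 : fderiv ℂ τ (σ 0) (σ 0) = 0 := by
    have e1 : HasDerivAt (fun c : ℂ => c • σ 0) (σ 0) 1 := by
      simpa using (hasDerivAt_id (1 : ℂ)).smul_const (σ 0)
    have d2' : HasFDerivAt τ (fderiv ℂ τ (σ 0)) ((1 : ℂ) • σ 0) := by rwa [one_smul]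
    have e2 : HasDerivAt (fun c : ℂ => τ (c • σ 0)) (fderiv ℂ τ (σ 0) (σ 0)) 1 := d2'.comp_hasDerivAt (1 : ℂ) e1
    have t : Tendsto (fun c : ℂ => (σ 0, c)) (𝓝 1) (𝓝 (σ 0, (1 : ℂ))) := tendsto_const_nhds.prodMk_nhds tendsto_id
    have e3 : HasDerivAt (fun c : ℂ => τ (c • σ 0)) 0 1 := by
      refine (hasDerivAt_const (1 : ℂ) (τ (σ 0))).congr_of_eventuallyEq ?_
      filter_upwards [t.eventually h.inv] with c hc
      exact hc
    exact e2.unique e3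
  rw [← d6, hw, map_smul, d7, smul_zero]

theorem gp_closedBall {E : Type*} [NormedAddCommGroup E] {p : E → Prop} (h : ∀ᶠ x in 𝓝 (0 : E), p x) :
    ∀ᶠ r in 𝓝[>] (0 : ℝ), ∀ x ∈ closedBall (0 : E) r, p x := by
  obtain ⟨ε, hε, h1⟩ := Metric.eventually_nhds_iff_ball.1 h
  filter_upwards [mem_nhdsWithin_of_mem_nhds (Iio_mem_nhds hε)] with r hr x hx
  exact h1 x (mem_ball.2 (lt_of_le_of_lt (mem_closedBall.1 hx) (Set.mem_Iio.1 hr)))

/-- scaling of the coordinates -/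
theorem bihol_scale {s : ℂ} (hs : s ≠ 0) : Bihol (fun x => s • x) := by
  refine ⟨analyticAt_id.const_smul (c := s), smul_zero s, fun x => s⁻¹ • x, analyticAt_id.const_smul (c := s⁻¹), smul_zero _,
    Eventually.of_forall fun x => ?_, Eventually.of_forall fun x => ?_⟩
  · show s⁻¹ • s • x = x
    rw [smul_smul, inv_mul_cancel₀ hs, one_smul]
  · show s • s⁻¹ • x = x
    rw [smul_smul, mul_inv_cancel₀ hs, one_smul]

theorem chart_smul (h : IsChart Y σ τ) {s : ℂ} (hs : s ≠ 0) : IsChart Y (fun x => σ (s • x)) (fun y => s⁻¹ • τ y) :=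
  h.comp (bihol_scale hs) (bihol_scale (inv_ne_zero hs))
    (Eventually.of_forall fun x => by rw [smul_smul, inv_mul_cancel₀ hs, one_smul])
    (Eventually.of_forall fun x => by rw [smul_smul, mul_inv_cancel₀ hs, one_smul])

theorem bihol_swap : Bihol (fun x => (x.2, x.1)) :=
  ⟨analyticAt_snd.prod analyticAt_fst, rfl, fun x => (x.2, x.1), analyticAt_snd.prod analyticAt_fst, rfl,
    Eventually.of_forall fun _ => rfl, Eventually.of_forall fun _ => rfl⟩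

theorem chart_swap (h : IsChart Y σ τ) : IsChart Y (fun x => σ (x.2, x.1)) (fun y => ((τ y).2, (τ y).1)) :=
  h.comp bihol_swap bihol_swap (Eventually.of_forall fun _ => rfl) (Eventually.of_forall fun _ => rfl)

end general

/-! ## the boxes -/

variable {M : ℕ} {P : Ideal (MvPolynomial (Fin (M + 1)) ℂ)} {RD : MvPolynomial (Fin (M + 1)) ℂ}

/-- `y` is a crossing point of the divisor -/
def Cr (S : NCOver P RD) (y : S.V) : Prop :=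
  ¬ ∃ (σ : ℂ × ℂ → S.V) (τ : S.V → ℂ × ℂ), IsChart S.Y σ τ ∧ Pr (σ 0) y ∧
    ((∀ᶠ p in 𝓝 (0 : ℂ × ℂ), σ p ∉ S.D) ∨ ∀ᶠ p in 𝓝 (0 : ℂ × ℂ), (σ p ∈ S.D ↔ p.1 = 0))

theorem Cr.pr {S : NCOver P RD} {y y' : S.V} (h : Cr S y) (hy : Pr y y') : Cr S y' := by
  rintro ⟨σ, τ, h1, h2, h3⟩
  exact h ⟨σ, τ, h1, h2.trans hy.symm, h3⟩

/-- a box of `Y` -/
structure PBox (S : NCOver P RD) where
  σ : ℂ × ℂ → S.V
  ρ : ℂ × ℂ → EN M
  c : ℂ × ℂ
  b : ℝ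
  ty : (c = 0 ∧ b = 1) ∨ (c = (0, 1 / 2) ∧ b = 1 / 4) ∨ (c = (1 / 2, 1 / 2) ∧ b = 1 / 4)
  chart : ∀ p ∈ closedBall (0 : ℂ × ℂ) 1, ∃ τ, IsChart S.Y (fun x => σ (p + x)) τ
  inj : ∀ p ∈ closedBall (0 : ℂ × ℂ) 1, ∀ q ∈ closedBall (0 : ℂ × ℂ) 1, Pr (σ p) (σ q) → p = q
  ρ_an : ∀ p ∈ closedBall (0 : ℂ × ℂ) 1, AnalyticAt ℂ ρ p
  ov : ∀ p ∈ closedBall (0 : ℂ × ℂ) 1, ∀ᶠ q in 𝓝 p, S.Ov (σ q) (ρ q)
  off : ∀ p ∈ DS, σ p ∉ S.D
  div : ∀ p ∈ ball c b, (σ p ∈ S.D ↔ p.1 * p.2 = 0)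
  cr : c = 0 → Cr S (σ 0)

theorem DD_eq : DD = ball (0 : ℂ × ℂ) 1 := by
  ext p
  rw [mem_ball_zero_iff, Prod.norm_def, max_lt_iff]
  rfl

variable {S : NCOver P RD}

theorem PBox.b_pos (B : PBox S) : 0 < B.b := by
  rcases B.ty with ⟨-, h⟩ | ⟨-, h⟩ | ⟨-, h⟩ <;> rw [h] <;> norm_num

theorem PBox.sub (B : PBox S) : ball B.c B.b ⊆ ball (0 : ℂ × ℂ) 1 := by
  have key : ‖B.c‖ + B.b ≤ 1 := by
    rcases B.ty with ⟨h1, h2⟩ | ⟨h1, h2⟩ | ⟨h1, h2⟩ <;> rw [h1, h2]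
    · simp
    · rw [Prod.norm_def]
      norm_num
    · rw [Prod.norm_def]
      norm_num
  intro p hp
  rw [mem_ball_zero_iff]
  rw [mem_ball, dist_eq_norm] at hp
  calc ‖p‖ = ‖(p - B.c) + B.c‖ := by rw [sub_add_cancel]
    _ ≤ ‖p - B.c‖ + ‖B.c‖ := norm_add_le _ _
    _ < 1 := by linarith

theorem PBox.sub' (B : PBox S) : ball B.c B.b ⊆ closedBall (0 : ℂ × ℂ) 1 := B.sub.trans ball_subset_closedBall

theorem DS_sub : DS ⊆ closedBall (0 : ℂ × ℂ) 1 := by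
  intro p hp
  rw [mem_closedBall_zero_iff, Prod.norm_def]
  exact max_le hp.1.2.le hp.2.2.le

/-- only the center of a corner box is a crossing point -/
theorem PBox.ncr (B : PBox S) {p : ℂ × ℂ} (hp : p ∈ ball B.c B.b) (h0 : p ≠ 0) : ¬ Cr S (B.σ p) := by
  obtain ⟨τ, hτ⟩ := B.chart p (B.sub' hp)
  intro hcr
  have hadd : Tendsto (fun x : ℂ × ℂ => p + x) (𝓝 0) (𝓝 p) := by
    have h1 : Continuous fun x : ℂ × ℂ => p + x := by fun_prop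
    simpa using h1.tendsto 0
  have hD : ∀ᶠ x in 𝓝 (0 : ℂ × ℂ), (B.σ (p + x) ∈ S.D ↔ (p.1 + x.1) * (p.2 + x.2) = 0) := by
    filter_upwards [hadd.eventually (isOpen_ball.mem_nhds hp)] with x hx
    exact B.div _ hx
  have e0 : B.σ (p + 0) = B.σ p := by rw [add_zero]
  have n1 : p.1 ≠ 0 → ∀ᶠ x in 𝓝 (0 : ℂ × ℂ), p.1 + x.1 ≠ 0 := fun h => by
    have h1 : ContinuousAt (fun x : ℂ × ℂ => p.1 + x.1) 0 := by fun_prop
    exact h1.eventually_ne (by simpa using h)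
  have n2 : p.2 ≠ 0 → ∀ᶠ x in 𝓝 (0 : ℂ × ℂ), p.2 + x.2 ≠ 0 := fun h => by
    have h1 : ContinuousAt (fun x : ℂ × ℂ => p.2 + x.2) 0 := by fun_prop
    exact h1.eventually_ne (by simpa using h)
  by_cases h1 : p.1 = 0
  · have h2 : p.2 ≠ 0 := fun h => h0 (Prod.ext h1 h)
    refine hcr ⟨_, _, hτ, by rw [e0]; exact Pool.Agent.H17BP.Pr.refl _, Or.inr ?_⟩
    filter_upwards [hD, n2 h2] with x h3 h4
    rw [h3, h1, zero_add, mul_eq_zero]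
    exact ⟨fun h => h.resolve_right h4, Or.inl⟩
  · by_cases h2 : p.2 = 0
    · have ht : Tendsto (fun x : ℂ × ℂ => ((x.2, x.1) : ℂ × ℂ)) (𝓝 0) (𝓝 0) := by
        have : Continuous fun x : ℂ × ℂ => ((x.2, x.1) : ℂ × ℂ) := by fun_prop
        exact this.tendsto' _ _ rfl
      refine hcr ⟨_, _, chart_swap hτ, ?_, Or.inr ?_⟩
      · show Pr (B.σ (p + (0, 0))) _
        rw [show ((0 : ℂ), (0 : ℂ)) = 0 from rfl, e0]
        exact Pool.Agent.H17BP.Pr.refl _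
      · filter_upwards [ht.eventually hD, ht.eventually (n1 h1)] with x h3 h4
        rw [h3, h2, zero_add, mul_eq_zero]
        exact ⟨fun h => h.resolve_left h4, Or.inr⟩
    · refine hcr ⟨_, _, hτ, by rw [e0]; exact Pool.Agent.H17BP.Pr.refl _, Or.inl ?_⟩
      filter_upwards [hD, n1 h1, n2 h2] with x h3 h4 h5
      rw [h3]
      exact mul_ne_zero h4 h5

/-! ## existence of boxes -/

theorem mk_pbox (S : NCOver P RD) {σ : ℂ × ℂ → S.V} {τ : S.V → ℂ × ℂ} (h : IsChart S.Y σ τ) {Z : ℂ × ℂ → Prop}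
    (hZ : ∀ᶠ x in 𝓝 (0 : ℂ × ℂ), (σ x ∈ S.D ↔ Z x)) {c : ℂ × ℂ} {b : ℝ}
    (ty : (c = 0 ∧ b = 1) ∨ (c = (0, 1 / 2) ∧ b = 1 / 4) ∨ (c = (1 / 2, 1 / 2) ∧ b = 1 / 4))
    (hoff : ∀ s : ℂ, s ≠ 0 → ∀ p ∈ DS, ¬ Z (s • (p - c))) (hdiv : ∀ s : ℂ, s ≠ 0 → ∀ p ∈ ball c b, (Z (s • (p - c)) ↔ p.1 * p.2 = 0))
    (hcr : c = 0 → Cr S (σ 0)) : ∃ B : PBox S, B.σ B.c = σ 0 := by
  obtain ⟨π, hπ, hov⟩ := S.germ (σ 0) h.σ_mem.self_of_nhds
  have hσ : Tendsto σ (𝓝 0) (𝓝 (σ 0)) := h.σ_an.continuousAt.tendsto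
  have hρ : AnalyticAt ℂ (fun x => π (σ x)) 0 := AnalyticAt.comp (g := π) (f := σ) hπ h.σ_an
  have hov' : ∀ᶠ x in 𝓝 (0 : ℂ × ℂ), S.Ov (σ x) (π (σ x)) := by
    filter_upwards [hσ.eventually hov, h.σ_mem] with x h1 h2
    exact h1 h2
  obtain ⟨r, h1, h2, h3, h4, h5, h6⟩ := ((gp_closedBall h.near).and ((gp_closedBall (E := (ℂ × ℂ) × (ℂ × ℂ)) (chart_inj_pr h)).and
    ((gp_closedBall hρ.eventually_analyticAt).and ((gp_closedBall hov'.eventually_nhds).and ((gp_closedBall hZ).and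
      (self_mem_nhdsWithin : ∀ᶠ r in 𝓝[>] (0 : ℝ), r ∈ Set.Ioi (0 : ℝ))))))).exists
  have h6' : 0 < r := h6
  set s : ℂ := ((r / 2 : ℝ) : ℂ) with hs
  have hs0 : s ≠ 0 := by
    rw [hs]
    exact_mod_cast (by positivity : (r / 2 : ℝ) ≠ 0)
  have hsn : ‖s‖ = r / 2 := by
    rw [hs, Complex.norm_real, Real.norm_of_nonneg (by positivity)]
  have hcn : ‖c‖ ≤ 1 / 2 := by
    rcases ty with ⟨h7, -⟩ | ⟨h7, -⟩ | ⟨h7, -⟩ <;> rw [h7]
    · simp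
    · rw [Prod.norm_def]; norm_num
    · rw [Prod.norm_def]; norm_num
  obtain ⟨m, hm⟩ : ∃ m : ℂ × ℂ → ℂ × ℂ, ∀ p, m p = s • (p - c) := ⟨fun p => s • (p - c), fun _ => rfl⟩
  have hmb : ∀ p ∈ closedBall (0 : ℂ × ℂ) 1, m p ∈ closedBall (0 : ℂ × ℂ) r := by
    intro p hp
    rw [mem_closedBall_zero_iff] at hp ⊢
    rw [hm, norm_smul, hsn]
    have h7 : ‖p - c‖ ≤ ‖p‖ + ‖c‖ := norm_sub_le _ _
    nlinarith
  have hmc : Continuous m := by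
    have : m = fun p => s • (p - c) := funext hm
    rw [this]
    fun_prop
  have hman : ∀ p, AnalyticAt ℂ m p := fun p => by
    have : m = fun p => s • (p - c) := funext hm
    rw [this]
    exact (analyticAt_id.sub analyticAt_const).const_smul (c := s)
  have hminj : ∀ p q, m p = m q → p = q := by
    intro p q h7
    rw [hm, hm] at h7
    have h8 := (smul_right_injective (ℂ × ℂ) hs0) h7
    exact sub_left_injective h8
  refine ⟨{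
    σ := fun p => σ (m p)
    ρ := fun p => π (σ (m p))
    c := c
    b := b
    ty := ty
    chart := ?_
    inj := ?_
    ρ_an := ?_
    ov := ?_
    off := ?_
    div := ?_
    cr := ?_ }, ?_⟩
  · intro p hp
    have h7 := chart_smul (h1 _ (hmb p hp)) hs0
    refine ⟨fun y => s⁻¹ • (τ y - m p), ?_⟩
    have h8 : (fun x => σ (m (p + x))) = fun x => σ (m p + s • x) := by
      funext x
      rw [hm, hm, ← smul_add]
      congr 2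
      abel
    rw [h8]
    exact h7
  · intro p hp q hq h7
    refine hminj p q (h2 (m p, m q) ?_ h7)
    rw [mem_closedBall_zero_iff, Prod.norm_def]
    exact max_le (mem_closedBall_zero_iff.1 (hmb p hp)) (mem_closedBall_zero_iff.1 (hmb q hq))
  · intro p hp
    exact AnalyticAt.comp (g := fun x => π (σ x)) (f := m) (h3 _ (hmb p hp)) (hman p)
  · intro p hp
    exact (hmc.tendsto p).eventually (h4 _ (hmb p hp))
  · intro p hp h7
    have h8 := (h5 _ (hmb p (DS_sub hp))).1 h7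
    rw [hm] at h8
    exact hoff s hs0 p hp h8
  · intro p hp
    have hp' : p ∈ closedBall (0 : ℂ × ℂ) 1 := by
      have key : ‖c‖ + b ≤ 1 := by
        rcases ty with ⟨h1, h2⟩ | ⟨h1, h2⟩ | ⟨h1, h2⟩ <;> rw [h1, h2]
        · simp
        · rw [Prod.norm_def]; norm_num
        · rw [Prod.norm_def]; norm_num
      rw [mem_closedBall_zero_iff]
      rw [mem_ball, dist_eq_norm] at hp
      calc ‖p‖ = ‖(p - c) + c‖ := by rw [sub_add_cancel]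
        _ ≤ ‖p - c‖ + ‖c‖ := norm_add_le _ _
        _ ≤ 1 := by linarith
    have h7 := h5 _ (hmb p hp')
    rw [hm] at h7
    show σ (m p) ∈ S.D ↔ _
    rw [hm, h7]
    exact hdiv s hs0 p hp
  · intro h7
    show Cr S (σ (m 0))
    have h8 : m 0 = 0 := by rw [hm, h7, sub_zero, smul_zero]
    rw [h8]
    exact hcr h7
  · show σ (m c) = σ 0
    rw [hm, sub_self, smul_zero]

theorem exists_pbox (S : NCOver P RD) {y : S.V} (hy : y ∈ S.Y) : ∃ B : PBox S, Pr (B.σ B.c) y := by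
  have hhalf : ∀ z : ℂ, ‖z - 1 / 2‖ < 1 / 4 → z ≠ 0 := by
    rintro z hz rfl
    rw [zero_sub, norm_neg] at hz
    norm_num at hz
  by_cases hcr : Cr S y
  · obtain ⟨σ, τ, h, h0, h1⟩ := S.nodal y hy
    have hp : Pr (σ 0) y := by rw [h0]; exact Pool.Agent.H17BP.Pr.refl _
    rcases h1 with h1 | h1 | h1
    · exact absurd ⟨σ, τ, h, hp, Or.inl h1⟩ hcr
    · exact absurd ⟨σ, τ, h, hp, Or.inr h1⟩ hcr
    · have e1 : ∀ s : ℂ, s ≠ 0 → ∀ p ∈ DS, ¬ (fun x : ℂ × ℂ => x.1 * x.2 = 0) (s • (p - 0)) := by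
        intro s hs p hp
        rw [sub_zero]
        exact mul_ne_zero (mul_ne_zero hs hp.1.1) (mul_ne_zero hs hp.2.1)
      have e2 : ∀ s : ℂ, s ≠ 0 → ∀ p ∈ ball (0 : ℂ × ℂ) 1, ((fun x : ℂ × ℂ => x.1 * x.2 = 0) (s • (p - 0)) ↔ p.1 * p.2 = 0) := by
        intro s hs p hp
        simp only [sub_zero, Prod.smul_fst, Prod.smul_snd, smul_eq_mul, mul_eq_zero, hs, false_or]
      obtain ⟨B, hB⟩ := mk_pbox S h h1 (c := 0) (b := 1) (Or.inl ⟨rfl, rfl⟩) e1 e2 (fun _ => by rw [h0]; exact hcr)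
      exact ⟨B, by rw [hB]; exact hp⟩
  · have h1 : ∃ (σ : ℂ × ℂ → S.V) (τ : S.V → ℂ × ℂ), IsChart S.Y σ τ ∧ Pr (σ 0) y ∧
        ((∀ᶠ p in 𝓝 (0 : ℂ × ℂ), σ p ∉ S.D) ∨ ∀ᶠ p in 𝓝 (0 : ℂ × ℂ), (σ p ∈ S.D ↔ p.1 = 0)) := not_not.1 hcr
    obtain ⟨σ, τ, h, h0, h1 | h1⟩ := h1
    · have e2 : ∀ s : ℂ, s ≠ 0 → ∀ p ∈ ball ((1 / 2, 1 / 2) : ℂ × ℂ) (1 / 4), ((fun _ : ℂ × ℂ => False) (s • (p - (1 / 2, 1 / 2))) ↔ p.1 * p.2 = 0) := by
        intro s hs p hp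
        rw [mem_ball, dist_eq_norm, Prod.norm_def, max_lt_iff] at hp
        exact iff_of_false (fun h => h) (mul_ne_zero (hhalf _ hp.1) (hhalf _ hp.2))
      obtain ⟨B, hB⟩ := mk_pbox S h (Z := fun _ => False) (h1.mono fun x hx => iff_false_intro hx) (c := (1 / 2, 1 / 2)) (b := 1 / 4)
        (Or.inr (Or.inr ⟨rfl, rfl⟩)) (fun s hs p hp h => h) e2 (fun h2 => absurd (congrArg Prod.fst h2) (by norm_num))
      exact ⟨B, by rw [hB]; exact h0⟩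
    · have e1 : ∀ s : ℂ, s ≠ 0 → ∀ p ∈ DS, ¬ (fun x : ℂ × ℂ => x.1 = 0) (s • (p - (0, 1 / 2))) := by
        intro s hs p hp
        show s * (p.1 - 0) ≠ 0
        rw [sub_zero]
        exact mul_ne_zero hs hp.1.1
      have e2 : ∀ s : ℂ, s ≠ 0 → ∀ p ∈ ball ((0, 1 / 2) : ℂ × ℂ) (1 / 4), ((fun x : ℂ × ℂ => x.1 = 0) (s • (p - (0, 1 / 2))) ↔ p.1 * p.2 = 0) := by
        intro s hs p hp
        rw [mem_ball, dist_eq_norm, Prod.norm_def, max_lt_iff] at hp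
        show s * (p.1 - 0) = 0 ↔ _
        rw [sub_zero, mul_eq_zero, mul_eq_zero]
        exact ⟨fun h => Or.inl (h.resolve_left hs), fun h => Or.inr (h.resolve_right (hhalf _ hp.2))⟩
      obtain ⟨B, hB⟩ := mk_pbox S h h1 (c := (0, 1 / 2)) (b := 1 / 4) (Or.inr (Or.inl ⟨rfl, rfl⟩)) e1 e2
        (fun h2 => absurd (congrArg Prod.snd h2) (by norm_num))
      exact ⟨B, by rw [hB]; exact h0⟩

/-- the coordinates near a point of the box -/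
theorem PBox.loc (B : PBox S) {p : ℂ × ℂ} (hp : p ∈ closedBall (0 : ℂ × ℂ) 1) {y : S.V} (hy : Pr y (B.σ p)) :
    ∃ T : S.V → ℂ × ℂ, AnalyticAt ℂ T y ∧ T y = p ∧ ∀ᶠ y' in 𝓝 y, y' ∈ S.Y → Pr y' (B.σ (T y')) := by
  obtain ⟨a, ha, rfl⟩ := hy
  obtain ⟨τ, hτ⟩ := B.chart p hp
  have hs := hτ.scale S.surf.smul ha
  have e0 : a • B.σ (p + 0) = a • B.σ p := by rw [add_zero]
  have h1 := hs.τ_an
  have h2 := hs.left.self_of_nhds
  have h3 := hs.right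
  simp only [e0] at h1 h2 h3
  refine ⟨fun y => p + τ (a⁻¹ • y), analyticAt_const.add h1, ?_, ?_⟩
  · show p + τ (a⁻¹ • a • B.σ p) = p
    rw [h2, add_zero]
  · filter_upwards [h3] with y' h4 h5
    obtain ⟨c, hc, h6⟩ := h4 h5
    exact ⟨c * a, mul_ne_zero hc ha, by rw [mul_smul]; exact h6⟩

theorem PBox.nhds (B : PBox S) {p : ℂ × ℂ} (hp : p ∈ closedBall (0 : ℂ × ℂ) 1) {W : Set (ℂ × ℂ)} (hW : W ∈ 𝓝 p) {y : S.V}
    (hy : Pr y (B.σ p)) : ∀ᶠ y' in 𝓝 y, y' ∈ S.Y → ∃ q ∈ W, Pr y' (B.σ q) := by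
  obtain ⟨T, h1, h2, h3⟩ := B.loc hp hy
  have h4 : Tendsto T (𝓝 y) (𝓝 p) := by
    have := h1.continuousAt.tendsto
    rwa [h2] at this
  filter_upwards [h3, h4.eventually hW] with y' h5 h6 h7
  exact ⟨_, h6, h5 h7⟩

theorem PBox.mem_Y (B : PBox S) {p : ℂ × ℂ} (hp : p ∈ closedBall (0 : ℂ × ℂ) 1) : B.σ p ∈ S.Y := (S.mem _ _ (B.ov p hp).self_of_nhds).1

theorem PBox.ne_zero (B : PBox S) {p : ℂ × ℂ} (hp : p ∈ closedBall (0 : ℂ × ℂ) 1) : B.σ p ≠ 0 := fun h => S.surf.zero (h ▸ B.mem_Y hp)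

/-- finitely many boxes -/
theorem exists_family (S : NCOver P RD) : ∃ (ι : Type) (_ : Fintype ι) (B : ι → PBox S),
    (∀ y ∈ S.Y, ∃ i, ∃ q ∈ closedBall (B i).c ((B i).b / 2), Pr y ((B i).σ q)) ∧
      ∀ i j, Pr ((B i).σ (B i).c) ((B j).σ (B j).c) → i = j := by
  classical
  have : ProperSpace S.V := FiniteDimensional.proper ℂ S.V
  let st : Setoid S.V := ⟨fun x y => Pr x y, ⟨fun x => Pool.Agent.H17BP.Pr.refl x, fun h => h.symm, fun h h' => h.trans h'⟩⟩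
  obtain ⟨rep, hrep1, hrep2⟩ : ∃ rep : S.V → S.V, (∀ y, Pr (rep y) y) ∧ ∀ y y', Pr y y' → rep y = rep y' := by
    refine ⟨fun y => (Quotient.mk st y).out, fun y => ?_, fun y y' h => ?_⟩
    · exact Quotient.exact (Quotient.out_eq (Quotient.mk st y))
    · have : Quotient.mk st y = Quotient.mk st y' := Quotient.sound h
      show (Quotient.mk st y).out = (Quotient.mk st y').out
      rw [this]
  have hprY : ∀ x y, Pr x y → y ∈ S.Y → x ∈ S.Y := by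
    rintro x y ⟨c, hc, rfl⟩ hy
    exact S.surf.smul y hy c hc
  choose bx hbx using fun (y : S.V) (hy : y ∈ S.Y) => exists_pbox S hy
  have hcl : IsClosed (S.Y ∩ Metric.sphere (0 : S.V) 1) := by
    refine isClosed_of_closure_subset fun y hy => ?_
    have h1 : y ∈ Metric.sphere (0 : S.V) 1 := by
      have := closure_mono Set.inter_subset_right hy
      rwa [Metric.isClosed_sphere.closure_eq] at this
    have h2 : y ∈ closure S.Y := closure_mono Set.inter_subset_left hy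
    refine ⟨S.surf.closed y h2 ?_, h1⟩
    rintro rfl
    simp at h1
  have hK : IsCompact (S.Y ∩ Metric.sphere (0 : S.V) 1) :=
    (isCompact_sphere (0 : S.V) 1).of_isClosed_subset hcl Set.inter_subset_right
  obtain ⟨U, hU⟩ : ∃ U : S.V → Set S.V, ∀ x, ∀ v, v ∈ U x ↔ ∀ hx : rep x ∈ S.Y, v ∈ S.Y →
      ∃ q ∈ closedBall (bx _ hx).c ((bx _ hx).b / 2), Pr v ((bx _ hx).σ q) := ⟨fun x => {v | ∀ hx : rep x ∈ S.Y, v ∈ S.Y →
      ∃ q ∈ closedBall (bx _ hx).c ((bx _ hx).b / 2), Pr v ((bx _ hx).σ q)}, fun x v => Iff.rfl⟩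
  obtain ⟨F, hF, hcov⟩ := hK.elim_nhds_subcover U fun x hx => by
    have hx' : rep x ∈ S.Y := hprY _ _ (hrep1 x) hx.1
    have h1 : Pr x ((bx _ hx').σ (bx _ hx').c) := (hrep1 x).symm.trans (hbx _ hx').symm
    have h2 : closedBall (bx _ hx').c ((bx _ hx').b / 2) ∈ 𝓝 (bx _ hx').c := closedBall_mem_nhds _ (half_pos (bx _ hx').b_pos)
    have h3 : (bx _ hx').c ∈ closedBall (0 : ℂ × ℂ) 1 := (bx _ hx').sub' (mem_ball_self (bx _ hx').b_pos)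
    have h4 := (bx _ hx').nhds h3 h2 h1
    filter_upwards [h4] with v hv
    rw [hU]
    intro _ hv'
    exact hv hv'
  have hmem : ∀ y ∈ F.image rep, y ∈ S.Y := by
    intro y hy
    obtain ⟨x, hx, rfl⟩ := Finset.mem_image.1 hy
    exact hprY _ _ (hrep1 x) (hF x hx).1
  refine ⟨{y : S.V // y ∈ F.image rep}, inferInstance, fun i => bx i.1 (hmem i.1 i.2), fun y hy => ?_, fun i j h => ?_⟩
  · have hy0 : y ≠ 0 := fun h0 => S.surf.zero (h0 ▸ hy)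
    have hn : ((‖y‖⁻¹ : ℝ) : ℂ) ≠ 0 := by
      exact_mod_cast inv_ne_zero (norm_ne_zero_iff.2 hy0)
    have hy1 : ((‖y‖⁻¹ : ℝ) : ℂ) • y ∈ S.Y := S.surf.smul y hy _ hn
    have hy2 : ((‖y‖⁻¹ : ℝ) : ℂ) • y ∈ Metric.sphere (0 : S.V) 1 := by
      rw [mem_sphere_zero_iff_norm, norm_smul, Complex.norm_real, norm_inv, norm_norm,
        inv_mul_cancel₀ (norm_ne_zero_iff.2 hy0)]
    have hyy : Pr y (((‖y‖⁻¹ : ℝ) : ℂ) • y) := Pr.symm ⟨_, hn, rfl⟩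
    obtain ⟨x, hx, hxy⟩ := Set.mem_iUnion₂.1 (hcov ⟨hy1, hy2⟩)
    rw [hU] at hxy
    have hx' : rep x ∈ S.Y := hprY _ _ (hrep1 x) (hF x hx).1
    obtain ⟨q, hq, hyq⟩ := hxy hx' hy1
    exact ⟨⟨rep x, Finset.mem_image_of_mem _ hx⟩, q, hq, hyy.trans hyq⟩
  · have h1 : Pr i.1 j.1 := ((hbx i.1 (hmem i.1 i.2)).symm.trans h).trans (hbx j.1 (hmem j.1 j.2))
    obtain ⟨x, hx, hxi⟩ := Finset.mem_image.1 i.2
    obtain ⟨x', hx', hxj⟩ := Finset.mem_image.1 j.2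
    apply Subtype.ext
    rw [← hxi, ← hxj] at h1 ⊢
    exact hrep2 _ _ (((hrep1 x).symm.trans h1).trans (hrep1 x'))

end Pool.Agent.MQ3
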