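import Pool.Agent.MQ3.GlobD
import Pool.Agent.SY.EiL1

/-!
# MQ3 GlobT: the tower of blow-ups
-/

set_option autoImplicit false

open Topology Filter

noncomputable section

namespace Pool.Agent.MQ3

open Pool.Agent.H17BP (Pr Surface NodalAt Tan Eqs IsChart ResAt eqs_blow thin_blow resAt_blow exists_forms exists_finset_of_isolated exists_resAt phi_pr
  surface_iff)
open Pool.Agent.H62.BU (blow total Ker phi)
open Pool.Agent.SY (Ent IsLiftB exists_liftB)

/-! ## no blow-up -/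

/-- If the curve has normal crossings there is nothing to do. -/
def NCSurf.base {V : Type} [NormedAddCommGroup V] [NormedSpace ℂ V] [FiniteDimensional ℂ V] {X B : Set V} (hX : Surface X) (hB : B ⊆ X)
    (hn : ∀ x ∈ X, NodalAt X B x) : NCSurf X B where
  V' := V
  Y := X
  κ := Unit
  L := fun _ => ContinuousLinearMap.id ℂ V
  surf := hX
  ex := fun y hy => ⟨(), fun h => hX.zero (by rw [← h]; exact hy)⟩
  mem := fun y hy _ _ => hy
  pr := fun y _ _ _ _ _ => ⟨1, one_ne_zero, (one_smul _ _).symm⟩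
  nodal := fun y hy => by
    have h1 : {y | y ∈ X ∧ ∀ _ : Unit, (ContinuousLinearMap.id ℂ V) y ≠ 0 → (ContinuousLinearMap.id ℂ V) y ∈ B} = B := by
      ext y
      constructor
      · rintro ⟨h1, h2⟩
        exact h2 () fun h => hX.zero (by rw [← h]; exact h1)
      · intro h1
        exact ⟨hB h1, fun _ _ => h1⟩
    rw [h1]
    exact hn y hy
  imm := fun y _ _ _ _ v _ h => h
  d := 1
  K := 1
  lift := fun F hF hFX _ => ⟨F, fun _ => 1, hF, hFX, differentiable_const _, ⟨0, one_ne_zero⟩, fun z => by simp,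
    fun z _ => ⟨1, (one_smul _ _).symm⟩⟩

/-! ## one blow-up -/

section

variable {V : Type} [NormedAddCommGroup V] [NormedSpace ℂ V] {ι : Type} [Fintype ι] {l : ι → V →L[ℂ] ℂ} {X B : Set V} {q : V}

/-- off the exceptional curve the projection of the blow-up is immersive -/
theorem imm_blow (hl : Ker l q) (hq : q ∈ B) (hB : ∀ x ∈ B, ∀ c : ℂ, c ≠ 0 → c • x ∈ B) {y : ι → V} (hy : y ∈ blow l X) {b : ι} (hb : y b ≠ 0)
    (hyB : y b ∉ B) {u : ι → V} (hu : u ∈ Tan (blow l X) y) {c₀ : ℂ} (h : u b = c₀ • y b) : u = c₀ • y := by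
  obtain ⟨b', hb'⟩ : ∃ b', l b' (y b) ≠ 0 := by
    by_contra hcon
    push Not at hcon
    obtain ⟨c, hc⟩ := (hl (y b)).mp hcon
    have hc0 : c ≠ 0 := by
      rintro rfl
      exact hb (by rw [hc, zero_smul])
    exact hyB (hc ▸ hB q hq c hc0)
  have h0 : l b (y b) ≠ 0 := Pool.Agent.H62.BU.ne_of_ne y hy hb hb'
  obtain ⟨γ, hγ, hγX, hγ0, hγ1⟩ := hu
  have hd : HasDerivAt γ u 0 := by
    rw [← hγ1]
    exact hγ.differentiableAt.hasDerivAt
  have hd' := hasDerivAt_pi.1 hd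
  funext c
  have h1 : HasDerivAt (fun z => l b (γ z b) • γ z c) (l b (γ 0 b) • u c + l b (u b) • γ 0 c) 0 :=
    ((l b).hasFDerivAt.comp_hasDerivAt (0 : ℂ) (hd' b)).smul (hd' c)
  have h2 : HasDerivAt (fun z => l c (γ z b) • γ z b) (l c (γ 0 b) • u b + l c (u b) • γ 0 b) 0 :=
    ((l c).hasFDerivAt.comp_hasDerivAt (0 : ℂ) (hd' b)).smul (hd' b)
  have h3 : (fun z => l b (γ z b) • γ z c) =ᶠ[𝓝 0] fun z => l c (γ z b) • γ z b := by
    filter_upwards [hγX] with z hz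
    have h4 := Pool.Agent.H62.BU.prop (γ z) hz (l b) b c
    rw [Pool.Agent.H62.BU.symm (γ z) hz b c] at h4
    exact h4
  have h4 := h1.unique (h2.congr_of_eventuallyEq h3)
  have h5 := h3.self_of_nhds
  simp only [hγ0] at h4 h5
  rw [h] at h4
  simp only [map_smul, smul_eq_mul] at h4
  have h6 : l b (y b) • u c = l b (y b) • (c₀ • y c) := by
    have h7 : (c₀ * l b (y b)) • y c = c₀ • (l c (y b) • y b) := by rw [← h5, smul_smul]
    rw [h7, smul_smul, smul_smul] at h4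
    have h8 : l b (y b) • u c = (l c (y b) * c₀) • y b + (c₀ * l c (y b)) • y b - (c₀ * l c (y b)) • y b := by
      rw [← h4]
      abel
    rw [h8, add_sub_cancel_right, smul_comm, h5, smul_smul, mul_comm]
  have h7 := smul_right_injective V h0 h6
  simpa using h7

/-- the tangent vectors of `Y` are mapped to tangent vectors -/
theorem NCSurf.tan (S : NCSurf X B) {y : S.V'} {a : S.κ} (ha : S.L a y ≠ 0) {v : S.V'} (hv : v ∈ Tan S.Y y) : S.L a v ∈ Tan X (S.L a y) := by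
  obtain ⟨γ, hγ, hγX, hγ0, hγ1⟩ := hv
  have h1 : AnalyticAt ℂ (fun z => S.L a (γ z)) 0 := ((S.L a).analyticAt _).comp hγ
  refine ⟨fun z => S.L a (γ z), h1, ?_, congrArg (S.L a) hγ0, ?_⟩
  · have h2 : ∀ᶠ z in 𝓝 (0 : ℂ), S.L a (γ z) ≠ 0 := h1.continuousAt.eventually_ne (by rw [hγ0]; exact ha)
    filter_upwards [hγX, h2] with z h3 h4
    exact S.mem _ h3 a h4
  · rw [← hγ1]
    exact ((S.L a).hasFDerivAt.comp_hasDerivAt (0 : ℂ) hγ.differentiableAt.hasDerivAt).deriv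

private theorem phi_bound (l : ι → V →L[ℂ] ℂ) : ∃ C : ℝ, 0 ≤ C ∧ ∀ x : V, ‖phi l x‖ ≤ C * ‖x‖ ^ 2 := by
  refine ⟨∑ b, ‖l b‖, Finset.sum_nonneg fun b _ => norm_nonneg _, fun x => ?_⟩
  refine (pi_norm_le_iff_of_nonneg (mul_nonneg (Finset.sum_nonneg fun b _ => norm_nonneg _) (by positivity))).2 fun b => ?_
  show ‖l b x • x‖ ≤ _
  rw [norm_smul]
  calc ‖l b x‖ * ‖x‖ ≤ (‖l b‖ * ‖x‖) * ‖x‖ := mul_le_mul_of_nonneg_right ((l b).le_opNorm x) (norm_nonneg x)
    _ = ‖l b‖ * ‖x‖ ^ 2 := by ring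
    _ ≤ (∑ b, ‖l b‖) * ‖x‖ ^ 2 := mul_le_mul_of_nonneg_right
        (Finset.single_le_sum (f := fun b => ‖l b‖) (fun b _ => norm_nonneg _) (Finset.mem_univ b)) (by positivity)

/-- a product of entire functions which are not `0` -/
private theorem exists_mul_ne {f g : ℂ → ℂ} (hf : Differentiable ℂ f) (hf0 : ∃ z, f z ≠ 0) (hg : Differentiable ℂ g) (hg0 : ∃ z, g z ≠ 0) (n : ℕ) :
    ∃ z, f z ^ n * g z ≠ 0 := by
  obtain ⟨z₁, h1⟩ := hg0
  have h2 : ∀ᶠ z in 𝓝 z₁, g z ≠ 0 := hg.continuous.continuousAt.eventually_ne h1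
  have h3 : ∃ᶠ z in 𝓝 z₁, f z ≠ 0 := by
    intro h4
    simp only [not_not] at h4
    have h5 : f = 0 := by
      have h6 : AnalyticOnNhd ℂ f Set.univ := fun z _ => hf.analyticAt z
      exact h6.eq_of_eventuallyEq (fun z _ => analyticAt_const) h4
    obtain ⟨z₀, h0⟩ := hf0
    exact h0 (congrFun h5 z₀)
  obtain ⟨z, h4, h5⟩ := (h3.and_eventually h2).exists
  exact ⟨z, mul_ne_zero (pow_ne_zero _ h4) h5⟩

omit [Fintype ι] in
/-- the components of the lift are proportional to the curve -/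
private theorem lift_prop {F : ℂ → V} (hF : Differentiable ℂ F) (hF0 : ∀ z, F z ≠ 0) {Φ : ℂ → ι → V} (hΦ : Differentiable ℂ Φ) {h : ℂ → ℂ}
    (hh : Differentiable ℂ h) (hh0 : ∃ z, h z ≠ 0) (he : ∀ z, phi l (F z) = h z • Φ z) (z : ℂ) (b : ι) : ∃ c : ℂ, Φ z b = c • F z := by
  obtain ⟨Λ, hΛ⟩ := exists_dual_vector ℂ (F z) (norm_ne_zero_iff.mpr (hF0 z))
  have hΛ0 : Λ (F z) ≠ 0 := by
    rw [hΛ.2]
    simpa using hF0 z
  have h1 : ∀ᶠ w in 𝓝[≠] z, h w ≠ 0 := by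
    rcases (hh.analyticAt z).eventually_eq_zero_or_eventually_ne_zero with h2 | h2
    · exfalso
      have h6 : AnalyticOnNhd ℂ h Set.univ := fun z _ => hh.analyticAt z
      have h5 : h = 0 := h6.eq_of_eventuallyEq (fun z _ => analyticAt_const) h2
      obtain ⟨z₀, h0⟩ := hh0
      exact h0 (congrFun h5 z₀)
    · exact h2
  have hb : Continuous fun w => Φ w b := (continuous_apply b).comp hΦ.continuous
  have h2 : Λ (F z) • Φ z b = Λ (Φ z b) • F z := by
    have h3 : Tendsto (fun w => Λ (F w) • Φ w b) (𝓝[≠] z) (𝓝 (Λ (F z) • Φ z b)) :=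
      (((Λ.continuous.comp hF.continuous).smul hb).tendsto z).mono_left nhdsWithin_le_nhds
    have h4 : Tendsto (fun w => Λ (Φ w b) • F w) (𝓝[≠] z) (𝓝 (Λ (Φ z b) • F z)) :=
      (((Λ.continuous.comp hb).smul hF.continuous).tendsto z).mono_left nhdsWithin_le_nhds
    refine tendsto_nhds_unique_of_eventuallyEq h3 h4 ?_
    filter_upwards [h1] with w hw
    have h5 : h w • Φ w b = l b (F w) • F w := (congrFun (he w) b).symm
    have h6 : Φ w b = ((h w)⁻¹ * l b (F w)) • F w := by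
      rw [mul_smul, ← h5, smul_smul, inv_mul_cancel₀ hw, one_smul]
    rw [h6, map_smul, smul_eq_mul, smul_smul, mul_comm]
  refine ⟨(Λ (F z))⁻¹ * Λ (Φ z b), ?_⟩
  rw [mul_smul, ← h2, smul_smul, inv_mul_cancel₀ hΛ0, one_smul]

/-- A surface over the blow-up is a surface over `X`. -/
def NCSurf.down (hX : Surface X) (hBX : B ⊆ X) (hB : ∀ x ∈ B, ∀ c : ℂ, c ≠ 0 → c • x ∈ B) (hl : Ker l q) (hq : q ∈ B)
    (S : NCSurf (blow l X) (total l X B)) : NCSurf X B where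
  V' := S.V'
  Y := S.Y
  κ := S.κ × ι
  L := fun a => (ContinuousLinearMap.proj (R := ℂ) (φ := fun _ : ι => V) a.2).comp (S.L a.1)
  surf := S.surf
  ex := fun y hy => by
    obtain ⟨a, ha⟩ := S.ex y hy
    obtain ⟨b, hb⟩ : ∃ b, S.L a y b ≠ 0 := by
      by_contra hcon
      push Not at hcon
      exact ha (funext hcon)
    exact ⟨(a, b), hb⟩
  mem := fun y hy a ha => by
    have h1 : S.L a.1 y ≠ 0 := fun h => ha (congrFun h a.2)
    exact Pool.Agent.H62.BU.comp_mem (surface_iff.2 hX) _ (S.mem y hy a.1 h1) ha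
  pr := fun y hy a b ha hb => by
    have h1 : S.L a.1 y ≠ 0 := fun h => ha (congrFun h a.2)
    have h2 : S.L b.1 y ≠ 0 := fun h => hb (congrFun h b.2)
    obtain ⟨c, hc, h3⟩ := S.pr y hy a.1 b.1 h1 h2
    have h4 : S.L b.1 y a.2 ≠ 0 := by
      intro h5
      refine ha ?_
      show S.L a.1 y a.2 = 0
      rw [h3]
      show c • S.L b.1 y a.2 = 0
      rw [h5, smul_zero]
    obtain ⟨c', hc'⟩ := Pool.Agent.H62.BU.comp_smul _ (S.mem y hy b.1 h2) hb a.2
    have hc'0 : c' ≠ 0 := by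
      rintro rfl
      exact h4 (by rw [hc']; exact zero_smul _ _)
    refine ⟨c * c', mul_ne_zero hc hc'0, ?_⟩
    show S.L a.1 y a.2 = (c * c') • S.L b.1 y b.2
    rw [h3]
    show c • S.L b.1 y a.2 = _
    rw [hc', smul_smul]
  nodal := fun y hy => by
    have h1 : {y | y ∈ S.Y ∧ ∀ a : S.κ × ι, ((ContinuousLinearMap.proj (R := ℂ) (φ := fun _ : ι => V) a.2).comp (S.L a.1)) y ≠ 0 →
        ((ContinuousLinearMap.proj (R := ℂ) (φ := fun _ : ι => V) a.2).comp (S.L a.1)) y ∈ B} =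
        {y | y ∈ S.Y ∧ ∀ a, S.L a y ≠ 0 → S.L a y ∈ total l X B} := by
      ext y
      constructor
      · rintro ⟨h1, h2⟩
        exact ⟨h1, fun a ha => ⟨S.mem y h1 a ha, fun b hb => h2 (a, b) hb⟩⟩
      · rintro ⟨h1, h2⟩
        refine ⟨h1, fun a ha => ?_⟩
        have h3 : S.L a.1 y ≠ 0 := fun h => ha (congrFun h a.2)
        exact (h2 a.1 h3).2 a.2 ha
    rw [h1]
    exact S.nodal y hy
  imm := fun y hy a ha haB v hv h => by
    have h1 : S.L a.1 y ≠ 0 := fun h => ha (congrFun h a.2)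
    obtain ⟨c, hc⟩ := h
    have h2 := imm_blow hl hq hB (S.mem y hy a.1 h1) ha haB (S.tan h1 hv) hc
    refine S.imm y hy a.1 h1 (fun h3 => haB (h3.2 a.2 ha)) v hv ⟨c, h2⟩
  d := 2 * S.d
  K := |S.K| * (phi_bound l).choose ^ S.d
  lift := fun F hF hFX hFB => by
    have hF0 : ∀ z, F z ≠ 0 := fun z h => hX.zero (h ▸ hFX z)
    obtain ⟨Φ, ⟨hΦd, hΦm, z₁, hz₁⟩, h, hh, he⟩ := exists_liftB hX hl hBX hB hq (F := F) ⟨hF, hFX, hFB⟩
    have hh0 : ∃ z, h z ≠ 0 := by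
      obtain ⟨z₀, hz₀⟩ := hFB
      refine ⟨z₀, fun h1 => ?_⟩
      have h2 : phi l (F z₀) = 0 := by rw [he, h1, zero_smul]
      refine Pool.Agent.H62.BU.phi_ne (l := l) (x := F z₀) ?_ h2
      by_contra hcon
      push Not at hcon
      obtain ⟨c, hc⟩ := (hl (F z₀)).mp hcon
      have hc0 : c ≠ 0 := by
        rintro rfl
        exact hF0 z₀ (by rw [hc, zero_smul])
      exact hz₀ (hc ▸ hB q hq c hc0)
    obtain ⟨F', h', h1, h2, h3, h4, h5, h6⟩ := S.lift Φ hΦd hΦm ⟨z₁, hz₁⟩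
    refine ⟨F', fun z => h z ^ S.d * h' z, h1, h2, (hh.pow S.d).mul h3, exists_mul_ne hh hh0 h3 h4 S.d, fun z => ?_, fun z a => ?_⟩
    · obtain ⟨hC, hC'⟩ := (phi_bound l).choose_spec
      set C := (phi_bound l).choose
      set d := S.d
      set K := S.K
      have h7 : ‖h z‖ * ‖Φ z‖ ≤ C * ‖F z‖ ^ 2 := by
        rw [← norm_smul, ← he]
        exact hC' _
      calc ‖h z ^ d * h' z‖ * ‖F' z‖ = ‖h z‖ ^ d * (‖h' z‖ * ‖F' z‖) := by rw [norm_mul, norm_pow]; ring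
        _ ≤ ‖h z‖ ^ d * (K * ‖Φ z‖ ^ d) := mul_le_mul_of_nonneg_left (h5 z) (by positivity)
        _ ≤ ‖h z‖ ^ d * (|K| * ‖Φ z‖ ^ d) := by gcongr; exact le_abs_self K
        _ = |K| * (‖h z‖ * ‖Φ z‖) ^ d := by rw [mul_pow]; ring
        _ ≤ |K| * (C * ‖F z‖ ^ 2) ^ d := by gcongr
        _ = |K| * C ^ d * ‖F z‖ ^ (2 * d) := by rw [mul_pow, ← pow_mul]; ring
    · obtain ⟨c, hc⟩ := h6 z a.1
      obtain ⟨c', hc'⟩ := lift_prop (l := l) hF hF0 hΦd hh hh0 he z a.2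
      refine ⟨c * c', ?_⟩
      show S.L a.1 (F' z) a.2 = _
      rw [hc]
      show c • Φ z a.2 = _
      rw [hc', smul_smul]

end

/-! ## the induction -/

/-- the statement for curves which are resolved by `n` blow-ups over every point -/
private def GN (n : ℕ) : Prop :=
  ∀ (V : Type) [NormedAddCommGroup V] [NormedSpace ℂ V] [FiniteDimensional ℂ V] (X B : Set V) (κ : Type) [Fintype κ] (Q : κ → V → ℂ) (D : ℕ),
    Surface X → Eqs X B Q D → (∀ σ τ, IsChart X σ τ → ∃ᶠ p in 𝓝 (0 : ℂ × ℂ), σ p ∉ B) → (∀ x ∈ X, ResAt X B x n) → Nonempty (NCSurf X B)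

private theorem gN_zero : GN 0 := by
  intro V _ _ _ X B κ _ Q D hX hE ht h0
  exact ⟨NCSurf.base hX hE.sub fun x hx => (h0 x hx).nodal⟩

private theorem gN_step {n : ℕ} (ih : GN n) : ∀ (k : ℕ) (V : Type) [NormedAddCommGroup V] [NormedSpace ℂ V] [FiniteDimensional ℂ V] (X B : Set V)
    (κ : Type) [Fintype κ] (Q : κ → V → ℂ) (D : ℕ), Surface X → Eqs X B Q D → (∀ σ τ, IsChart X σ τ → ∃ᶠ p in 𝓝 (0 : ℂ × ℂ), σ p ∉ B) →
    (∀ x ∈ X, ResAt X B x (n + 1)) → (∃ F : Finset V, F.card ≤ k ∧ ∀ x ∈ X, ResAt X B x n ∨ ∃ q ∈ F, Pr x q) → Nonempty (NCSurf X B) := by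
  intro k
  induction k with
  | zero =>
    intro V _ _ _ X B κ _ Q D hX hE ht h0 hF
    obtain ⟨F, hF1, hF2⟩ := hF
    have hF0 : F = ∅ := Finset.card_eq_zero.1 (by omega)
    refine ih V X B κ Q D hX hE ht fun x hx => ?_
    rcases hF2 x hx with h1 | ⟨q, hq, -⟩
    · exact h1
    · rw [hF0] at hq
      simp at hq
  | succ k ihk =>
    intro V _ _ _ X B κ _ Q D hX hE ht h0 hF
    obtain ⟨F, hF1, hF2⟩ := hF
    have hXs := hX.smul
    have hB := hE.cone hX.smul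
    by_cases hall : ∀ x ∈ X, ResAt X B x n
    · exact ih V X B κ Q D hX hE ht hall
    push Not at hall
    obtain ⟨x₀, hx₀, hx₀n⟩ := hall
    rcases hF2 x₀ hx₀ with h1 | ⟨q, hqF, hxq⟩
    · exact absurd h1 hx₀n
    have hqX : q ∈ X := (hxq.mem_iff hXs).1 hx₀
    have hqn : ¬ ResAt X B q n := fun h1 => hx₀n (h1.pr hXs hB hxq)
    have hq0 : ¬ ResAt X B q 0 := fun h1 => hqn (h1.mono_le (Nat.zero_le n))
    have hqB : q ∈ B := by
      by_contra hqB
      exact hq0 (ResAt.of_notMem hX hE hqX hqB)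
    have hqne : q ≠ 0 := fun e => hX.zero (e ▸ hqX)
    obtain ⟨r, l, hl⟩ := exists_forms hqne
    classical
    have key : Nonempty (NCSurf (blow l X) (total l X B)) := by
      refine ihk (Fin r → V) (blow l X) (total l X B) (κ × Fin r) _ D
        (surface_iff.1 (Pool.Agent.H62.BU.surface_blow (surface_iff.2 hX) hl hqX)) (eqs_blow hX hE)
        (fun σ τ h' => thin_blow hX hE ht hl hqB h') ?_ ⟨(F.erase q).image (phi l), ?_, ?_⟩
      · intro y hy
        rcases resAt_blow hX hE hl hqB (h0 q hqX) hq0 hy with h1 | ⟨x, hx, -, -, h2⟩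
        · exact h1.mono_le (Nat.le_succ n)
        · exact h2 _ (h0 x hx)
      · have h1 := Finset.card_image_le (s := F.erase q) (f := phi l)
        have h2 := Finset.card_erase_of_mem hqF
        omega
      · intro y hy
        rcases resAt_blow hX hE hl hqB (h0 q hqX) hq0 hy with h1 | ⟨x, hx, hxq', hyx, h2⟩
        · exact Or.inl h1
        · rcases hF2 x hx with h3 | ⟨q', hq'F, hxq''⟩
          · exact Or.inl (h2 _ h3)
          · refine Or.inr ⟨phi l q', Finset.mem_image_of_mem _ (Finset.mem_erase.2 ⟨?_, hq'F⟩),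
              hyx.trans (phi_pr hxq'')⟩
            rintro rfl
            exact hxq' hxq''
    obtain ⟨S⟩ := key
    exact ⟨S.down hX hE.sub hB hl hqB⟩

private theorem exists_finset {V : Type} [NormedAddCommGroup V] [NormedSpace ℂ V] [FiniteDimensional ℂ V]
    {X B : Set V} {κ : Type} {Q : κ → V → ℂ} {D : ℕ} (hX : Surface X) (hE : Eqs X B Q D) (ht : ∀ σ τ, IsChart X σ τ → ∃ᶠ p in 𝓝 (0 : ℂ × ℂ), σ p ∉ B) :
    ∃ F : Finset V, (∀ q ∈ F, q ∈ X) ∧ ∀ x ∈ X, ResAt X B x 0 ∨ ∃ q ∈ F, Pr x q := by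
  have hXs := hX.smul
  have hB := hE.cone hX.smul
  refine exists_finset_of_isolated hX (fun x y hxy hy => hy.pr hXs hB hxy) fun x hx => ?_
  obtain ⟨n, hn⟩ := exists_resAt hX hE ht hx
  exact hn.near hXs hB

private theorem gN (n : ℕ) : GN n := by
  induction n with
  | zero => exact gN_zero
  | succ n ih =>
    intro V _ _ _ X B κ _ Q D hX hE ht h0
    obtain ⟨F, -, hF⟩ := exists_finset hX hE ht
    refine gN_step ih F.card V X B κ Q D hX hE ht h0 ⟨F, le_rfl, fun x hx => ?_⟩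
    rcases hF x hx with h1 | h1
    · exact Or.inl (h1.mono_le (Nat.zero_le n))
    · exact Or.inr h1

/-- **Embedded resolution** of a curve in a closed surface. -/
theorem exists_ncSurf {V : Type} [NormedAddCommGroup V] [NormedSpace ℂ V] [FiniteDimensional ℂ V] {X B : Set V} {κ : Type} [Fintype κ]
    {Q : κ → V → ℂ} {D : ℕ} (hX : Surface X) (hE : Eqs X B Q D) (ht : ∀ σ τ, IsChart X σ τ → ∃ᶠ p in 𝓝 (0 : ℂ × ℂ), σ p ∉ B) :
    Nonempty (NCSurf X B) := by
  classical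
  have hXs := hX.smul
  have hB := hE.cone hX.smul
  obtain ⟨F, hFX, hF⟩ := exists_finset hX hE ht
  have h1 : ∀ q : V, ∃ n, q ∈ F → ResAt X B q n := by
    intro q
    by_cases hq : q ∈ F
    · obtain ⟨n, hn⟩ := exists_resAt hX hE ht (hFX q hq)
      exact ⟨n, fun _ => hn⟩
    · exact ⟨0, fun h2 => absurd h2 hq⟩
  choose n hn using h1
  refine gN (F.sup n) V X B κ Q D hX hE ht fun x hx => ?_
  rcases hF x hx with h2 | ⟨q, hq, hxq⟩
  · exact h2.mono_le (Nat.zero_le _)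
  · exact ((hn q hq).mono_le (Finset.le_sup (f := n) hq)).pr hXs hB hxq

end Pool.Agent.MQ3
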