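import Pool.Agent.MQ3.InvS
import Pool.Agent.MQ.LeafDisc

/-!
# MQ3 InvP: regular points of a foliation and a curve

`RegPt v f q`: near `q` the vector field `v` has no zero and the curve `{f = 0}` is empty or smooth, and then it is transversal to `v` at `q` or invariant.
The points which are not regular are isolated (`regPt_off`).
-/

set_option autoImplicit false

open Topology Filter

noncomputable section

namespace Pool.Agent.MQ3

open Pool.Agent.H17BP (exists_resN Bihol bihol_iff)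
open Pool.Agent.MQ (ld_lin ld_chain ld_ext ld_deriv_ne)

/-- regular points -/
def RegPt (v : ℂ × ℂ → ℂ × ℂ) (f : ℂ × ℂ → ℂ) (q : ℂ × ℂ) : Prop :=
  v q ≠ 0 ∧ (f q ≠ 0 ∨ ∃ G : ℂ × ℂ → ℂ, AnalyticAt ℂ G q ∧ G q = 0 ∧ fderiv ℂ G q ≠ 0 ∧ (∀ᶠ w in 𝓝 q, (f w = 0 ↔ G w = 0)) ∧
    (fderiv ℂ G q (v q) ≠ 0 ∨ ∀ᶠ w in 𝓝 q, G w = 0 → fderiv ℂ G w (v w) = 0))

/-- selection of a curve -/
theorem curve_sel {f : ℂ × ℂ → ℂ} (hf : AnalyticAt ℂ f 0) (hf0 : ∃ᶠ p in 𝓝 (0 : ℂ × ℂ), f p ≠ 0) {B : ℂ × ℂ → Prop}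
    (hB : ∃ᶠ p in 𝓝 (0 : ℂ × ℂ), p ≠ 0 ∧ f p = 0 ∧ B p) :
    ∃ c : ℂ → ℂ × ℂ, AnalyticAt ℂ c 0 ∧ c 0 = 0 ∧ (∀ᶠ t in 𝓝 (0 : ℂ), f (c t) = 0) ∧ ∃ᶠ t in 𝓝 (0 : ℂ), c t ≠ 0 ∧ B (c t) := by
  obtain ⟨n, hn⟩ := exists_resN hf fun h => hf0 (h.mono fun p hp => not_not.2 hp)
  obtain ⟨r, d, hd1, hd2, hd3⟩ := Pool.Agent.E1.disc_cover n hn (W := Set.univ) univ_mem
  obtain ⟨i, z₀, hz₀, hz0, hfr⟩ : ∃ (i : Fin r) (z₀ : ℂ), z₀ ∈ Metric.closedBall (0 : ℂ) (1 / 2) ∧ d i z₀ = 0 ∧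
      ∃ᶠ z in 𝓝 z₀, d i z ≠ 0 ∧ B (d i z) := by
    by_contra hcon
    push Not at hcon
    have h1 : ∀ i : Fin r, ∀ᶠ p in 𝓝 (0 : ℂ × ℂ), ∀ z ∈ Metric.closedBall (0 : ℂ) (1 / 2), d i z = p → ¬ (p ≠ 0 ∧ B p) := by
      intro i
      refine (isCompact_closedBall (0 : ℂ) (1 / 2)).eventually_forall_of_forall_eventually fun z₀ hz₀ => ?_
      have hz1 : z₀ ∈ Metric.closedBall (0 : ℂ) 1 := Metric.closedBall_subset_closedBall (by norm_num) hz₀
      have hcont : ContinuousAt (d i) z₀ := (hd1 i z₀ hz1).continuousAt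
      by_cases h0 : d i z₀ = 0
      · have h2 := hcon i z₀ hz₀ h0
        have h3 : ∀ᶠ x : (ℂ × ℂ) × ℂ in 𝓝 ((0 : ℂ × ℂ), z₀), d i x.2 ≠ 0 → ¬ B (d i x.2) :=
          continuousAt_snd.eventually (p := fun z => d i z ≠ 0 → ¬ B (d i z)) h2
        filter_upwards [h3] with x hx he
        rw [← he]
        exact fun hh => hx hh.1 hh.2
      · have h3 : ContinuousAt (fun x : (ℂ × ℂ) × ℂ => d i x.2 - x.1) ((0 : ℂ × ℂ), z₀) :=
          (ContinuousAt.comp (f := fun x : (ℂ × ℂ) × ℂ => x.2) (g := d i) hcont continuousAt_snd).sub continuousAt_fst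
        have h4 : ∀ᶠ x : (ℂ × ℂ) × ℂ in 𝓝 ((0 : ℂ × ℂ), z₀), d i x.2 - x.1 ≠ 0 := h3.eventually_ne (by simpa using h0)
        filter_upwards [h4] with x hx he
        exact absurd (sub_eq_zero.2 he) hx
    refine hB ?_
    filter_upwards [eventually_all.2 h1, hd3] with p a1 a2 a3
    obtain ⟨i, z, hz, he⟩ := a2 a3.2.1
    exact a1 i z hz he ⟨a3.1, a3.2.2⟩
  have hz1 : z₀ ∈ Metric.closedBall (0 : ℂ) 1 := Metric.closedBall_subset_closedBall (by norm_num) hz₀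
  refine ⟨fun t => d i (z₀ + t), ?_, by simpa using hz0, ?_, ?_⟩
  · refine AnalyticAt.fun_comp (g := d i) (f := fun t : ℂ => z₀ + t) ?_ (analyticAt_const.add analyticAt_id)
    rw [add_zero]
    exact hd1 i z₀ hz1
  · have h1 : ∀ᶠ t in 𝓝 (0 : ℂ), t ∈ Metric.closedBall (0 : ℂ) (1 / 2) := Metric.closedBall_mem_nhds _ (by norm_num)
    filter_upwards [h1] with t ht
    refine (hd2 i (z₀ + t) ?_).2
    rw [mem_closedBall_zero_iff] at hz₀ ht ⊢
    exact (norm_add_le _ _).trans (by linarith)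
  · intro hcon
    apply hfr
    have h1 : Tendsto (fun z : ℂ => z - z₀) (𝓝 z₀) (𝓝 0) := by
      have : ContinuousAt (fun z : ℂ => z - z₀) z₀ := by fun_prop
      simpa using this.tendsto
    filter_upwards [h1.eventually hcon] with z hz
    simpa using hz

/-- a linear form with prescribed independence -/
private theorem InvP_form {L : ℂ × ℂ →L[ℂ] ℂ} (h : L ≠ 0) : ∃ l : ℂ × ℂ →L[ℂ] ℂ, L (1, 0) * l (0, 1) - L (0, 1) * l (1, 0) ≠ 0 := by
  by_cases h1 : L (1, 0) = 0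
  · refine ⟨ContinuousLinearMap.fst ℂ ℂ ℂ, ?_⟩
    intro h2
    apply h
    have h3 : L (0, 1) = 0 := by
      rw [h1] at h2
      simpa using h2
    ext
    · simpa using h1
    · simpa using h3
  · refine ⟨ContinuousLinearMap.snd ℂ ℂ ℂ, ?_⟩
    simpa using h1

/-- A function which vanishes on a curve in a smooth curve vanishes on the smooth curve. -/
theorem smooth_ident {l h : ℂ × ℂ → ℂ} {q : ℂ × ℂ} (hl : AnalyticAt ℂ l q) (hl0 : l q = 0) (hl1 : fderiv ℂ l q ≠ 0) (hh : AnalyticAt ℂ h q)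
    {c : ℂ → ℂ × ℂ} {t₁ : ℂ} (hc : ContinuousAt c t₁) (hct : c t₁ = q) (hne : ∃ᶠ t in 𝓝 t₁, c t ≠ q) (hlc : ∀ᶠ t in 𝓝 t₁, l (c t) = 0)
    (hhc : ∀ᶠ t in 𝓝 t₁, h (c t) = 0) : ∀ᶠ w in 𝓝 q, l w = 0 → h w = 0 := by
  obtain ⟨m, hm⟩ := InvP_form hl1
  set θ : ℂ × ℂ → ℂ × ℂ := fun x => (l (q + x), m x) with hθ
  have hq : Tendsto (fun x : ℂ × ℂ => q + x) (𝓝 0) (𝓝 q) := by
    have : Continuous fun x : ℂ × ℂ => q + x := by fun_prop
    simpa using this.tendsto 0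
  have hqa : AnalyticAt ℂ (fun x : ℂ × ℂ => q + x) 0 := analyticAt_const.add analyticAt_id
  have hl' : AnalyticAt ℂ (fun x : ℂ × ℂ => l (q + x)) 0 := AnalyticAt.fun_comp (g := l) (f := fun x : ℂ × ℂ => q + x) (by rwa [add_zero]) hqa
  have hθa : AnalyticAt ℂ θ 0 := hl'.prod (m.analyticAt 0)
  have hθ0 : θ 0 = 0 := by
    rw [hθ]
    simp [hl0]
  have hd : HasFDerivAt θ ((fderiv ℂ l q).prod m) 0 := by
    have h1 : HasFDerivAt l (fderiv ℂ l q) (q + 0) := by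
      rw [add_zero]
      exact hl.differentiableAt.hasFDerivAt
    have h2 : HasFDerivAt (fun x : ℂ × ℂ => q + x) (ContinuousLinearMap.id ℂ (ℂ × ℂ)) 0 := (hasFDerivAt_id (0 : ℂ × ℂ)).const_add q
    have h3 : HasFDerivAt (fun x : ℂ × ℂ => l (q + x)) ((fderiv ℂ l q).comp (ContinuousLinearMap.id ℂ (ℂ × ℂ))) 0 :=
      HasFDerivAt.comp (0 : ℂ × ℂ) (g := l) (f := fun x : ℂ × ℂ => q + x) h1 h2
    rw [ContinuousLinearMap.comp_id] at h3
    exact h3.prodMk m.hasFDerivAt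
  have hB : Bihol θ := by
    rw [bihol_iff hθa hθ0, hd.fderiv]
    simpa using hm
  obtain ⟨θ', a1, a2, a3⟩ := hB.exists_inv
  -- in the coordinates
  have hqθ : AnalyticAt ℂ (fun y => h (q + θ' y)) 0 := by
    refine AnalyticAt.fun_comp (g := h) (f := fun y => q + θ' y) ?_ (analyticAt_const.add a1.an)
    rwa [a1.zero, add_zero]
  have hH : AnalyticAt ℂ (fun s : ℂ => h (q + θ' (0, s))) 0 := by
    have e1 : AnalyticAt ℂ (fun s : ℂ => ((0, s) : ℂ × ℂ)) 0 := analyticAt_const.prod analyticAt_id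
    exact AnalyticAt.fun_comp (g := fun y => h (q + θ' y)) (f := fun s : ℂ => ((0, s) : ℂ × ℂ)) hqθ e1
  have hcq : Tendsto (fun t => c t - q) (𝓝 t₁) (𝓝 0) := by
    have h1 := hc.tendsto.sub_const q
    rwa [hct, sub_self] at h1
  have hmt : Tendsto (fun t => m (c t - q)) (𝓝 t₁) (𝓝 0) := by
    have h1 := (m.continuous.tendsto 0).comp hcq
    rw [map_zero] at h1
    exact h1
  have hz : ∀ᶠ s in 𝓝 (0 : ℂ), h (q + θ' (0, s)) = 0 := by
    rcases hH.eventually_eq_zero_or_eventually_ne_zero with h1 | h1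
    · exact h1
    · exfalso
      rw [eventually_nhdsWithin_iff] at h1
      refine hne ?_
      filter_upwards [hcq.eventually a2, hlc, hhc, hmt.eventually h1] with t t1 t2 t3 t4 t5
      have e1 : θ (c t - q) = (0, m (c t - q)) := by
        rw [hθ]
        simp only [add_sub_cancel, t2]
      rw [e1] at t1
      have e2 : m (c t - q) ≠ 0 := by
        intro h2
        apply t5
        have e3 : ((0 : ℂ), m (c t - q)) = 0 := by
          rw [h2]
          rfl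
        rw [e3, a1.zero] at t1
        exact (sub_eq_zero.1 t1.symm)
      refine t4 e2 ?_
      rw [t1, add_sub_cancel, t3]
  have hwt : Tendsto (fun w : ℂ × ℂ => w - q) (𝓝 q) (𝓝 0) := by
    have : Continuous fun w : ℂ × ℂ => w - q := by fun_prop
    simpa using this.tendsto q
  have hmw : Tendsto (fun w : ℂ × ℂ => m (w - q)) (𝓝 q) (𝓝 0) := by
    have h1 := (m.continuous.tendsto 0).comp hwt
    rw [map_zero] at h1
    exact h1
  filter_upwards [hwt.eventually a2, hmw.eventually hz] with w w1 w2 w3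
  have e1 : θ (w - q) = (0, m (w - q)) := by
    rw [hθ]
    simp only [add_sub_cancel, w3]
  rw [e1] at w1
  rwa [w1, add_sub_cancel] at w2

/-- **The points which are not regular are isolated.** -/
theorem regPt_off {v : ℂ × ℂ → ℂ × ℂ} {f : ℂ × ℂ → ℂ} (hv : AnalyticAt ℂ v 0) (hv0 : ∀ᶠ p in 𝓝 (0 : ℂ × ℂ), p ≠ 0 → v p ≠ 0) (hf : AnalyticAt ℂ f 0)
    (hf0 : ∃ᶠ p in 𝓝 (0 : ℂ × ℂ), f p ≠ 0) : ∀ᶠ q in 𝓝 (0 : ℂ × ℂ), q ≠ 0 → RegPt v f q := by
  by_contra hcon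
  have hbad : ∃ᶠ q in 𝓝 (0 : ℂ × ℂ), q ≠ 0 ∧ f q = 0 ∧ (Sm f q ∧ ¬ RegPt v f q) := by
    have h1 : ∃ᶠ q in 𝓝 (0 : ℂ × ℂ), ¬ (q ≠ 0 → RegPt v f q) := not_eventually.1 hcon
    refine (h1.and_eventually ((sm_off hf hf0).and hv0)).mono ?_
    rintro q ⟨h2, h3, h4⟩
    push Not at h2
    refine ⟨h2.1, ?_, h3 h2.1, h2.2⟩
    by_contra h5
    exact h2.2 ⟨h4 h2.1, Or.inl h5⟩
  obtain ⟨c, hc, hc0, hfc, hbc⟩ := curve_sel hf hf0 hbad
  have hct : Tendsto c (𝓝 0) (𝓝 0) := by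
    have := hc.continuousAt.tendsto
    rwa [hc0] at this
  -- the determinant
  have hvc : AnalyticAt ℂ (fun t => v (c t)) 0 := AnalyticAt.fun_comp (by rw [hc0]; exact hv) hc
  have hJa : AnalyticAt ℂ (fun t => (v (c t)).1 * (deriv c t).2 - (v (c t)).2 * (deriv c t).1) 0 := by
    have a1 := AnalyticAt.fun_comp (g := fun x : ℂ × ℂ => x.1) (f := fun t => v (c t)) analyticAt_fst hvc
    have a2 := AnalyticAt.fun_comp (g := fun x : ℂ × ℂ => x.2) (f := fun t => v (c t)) analyticAt_snd hvc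
    have b1 := AnalyticAt.fun_comp (g := fun x : ℂ × ℂ => x.1) (f := fun t => deriv c t) analyticAt_fst hc.deriv
    have b2 := AnalyticAt.fun_comp (g := fun x : ℂ × ℂ => x.2) (f := fun t => deriv c t) analyticAt_snd hc.deriv
    exact (a1.mul b2).sub (a2.mul b1)
  have hfc2 : ∀ᶠ t in 𝓝 (0 : ℂ), ∀ᶠ s in 𝓝 t, f (c s) = 0 := eventually_eventually_nhds.2 hfc
  have hca : ∀ᶠ t in 𝓝 (0 : ℂ), AnalyticAt ℂ c t := hc.eventually_analyticAt
  have hva : ∀ᶠ t in 𝓝 (0 : ℂ), AnalyticAt ℂ v (c t) := hct.eventually hv.eventually_analyticAt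
  have hne' : ∃ᶠ t in 𝓝[≠] (0 : ℂ), c t ≠ 0 ∧ (Sm f (c t) ∧ ¬ RegPt v f (c t)) := by
    rw [frequently_nhdsWithin_iff]
    refine hbc.mono fun t ht => ⟨ht, ?_⟩
    rintro rfl
    exact ht.1 hc0
  -- at the points which are not regular the determinant vanishes
  have hJ0 : ∀ᶠ t in 𝓝 (0 : ℂ), (v (c t)).1 * (deriv c t).2 - (v (c t)).2 * (deriv c t).1 = 0 := by
    rcases hJa.eventually_eq_zero_or_eventually_ne_zero with h1 | h1
    · exact h1
    · exfalso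
      have h2 : ∀ᶠ t in 𝓝[≠] (0 : ℂ), (∀ᶠ s in 𝓝 t, f (c s) = 0) ∧ AnalyticAt ℂ c t ∧ (c t ≠ 0 → v (c t) ≠ 0) :=
        (hfc2.and (hca.and (hct.eventually hv0))).filter_mono nhdsWithin_le_nhds
      obtain ⟨t, ⟨b0, b1, b2⟩, h3, h4, h5, h6⟩ := (hne'.and_eventually (h1.and h2)).exists
      have hv1 := h6 b0
      rcases b1 with b1 | ⟨l, l1, l2, l3, l4⟩
      · exact b1 h4.self_of_nhds
      · have e1 : fderiv ℂ l (c t) (v (c t)) = 0 := by
          by_contra h7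
          exact b2 ⟨hv1, Or.inr ⟨l, l1, l2, l3, l4, Or.inl h7⟩⟩
        have e2 : fderiv ℂ l (c t) (deriv c t) = 0 := by
          refine ld_chain l1 h5 ?_
          filter_upwards [h4, h5.continuousAt.eventually l4] with s s1 s2
          exact s2.1 s1
        exact l3 (ld_lin e1 e2 h3)
  have hder : ∀ᶠ t in 𝓝[≠] (0 : ℂ), deriv c t ≠ 0 := ld_deriv_ne hc (by
    refine hbc.mono fun t ht => ?_
    rw [hc0]
    exact ht.1)
  have hder2 : ∀ᶠ t in 𝓝[≠] (0 : ℂ), ∀ᶠ s in 𝓝 t, deriv c s ≠ 0 := by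
    have h1 := eventually_eventually_nhdsWithin.2 hder
    have h2 : ∀ᶠ t in 𝓝[≠] (0 : ℂ), t ≠ 0 := self_mem_nhdsWithin
    filter_upwards [h1, h2] with t ht ht0
    have h4 : 𝓝[({0}ᶜ : Set ℂ)] t = 𝓝 t := IsOpen.nhdsWithin_eq isOpen_compl_singleton (by simpa using ht0)
    rwa [h4] at ht
  have h2 : ∀ᶠ t in 𝓝[≠] (0 : ℂ), (∀ᶠ s in 𝓝 t, f (c s) = 0) ∧ AnalyticAt ℂ c t ∧ (c t ≠ 0 → v (c t) ≠ 0) ∧
      (∀ᶠ s in 𝓝 t, (v (c s)).1 * (deriv c s).2 - (v (c s)).2 * (deriv c s).1 = 0) ∧ AnalyticAt ℂ v (c t) :=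
    (hfc2.and (hca.and ((hct.eventually hv0).and ((eventually_eventually_nhds.2 hJ0).and hva)))).filter_mono nhdsWithin_le_nhds
  obtain ⟨t, ⟨b0, b1, b2⟩, h3, h4, h5, h6, h7, h8⟩ := (hne'.and_eventually (hder2.and h2)).exists
  have hv1 := h6 b0
  rcases b1 with b1 | ⟨l, l1, l2, l3, l4⟩
  · exact b1 h4.self_of_nhds
  · refine b2 ⟨hv1, Or.inr ⟨l, l1, l2, l3, l4, Or.inr ?_⟩⟩
    have hh : AnalyticAt ℂ (fun w => fderiv ℂ l w (v w)) (c t) := by
      exact AnalyticAt.comp (g := fun z : (ℂ × ℂ →L[ℂ] ℂ) × (ℂ × ℂ) => z.1 z.2) (f := fun w => (fderiv ℂ l w, v w))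
        (ContinuousLinearMap.analyticAt_bilinear (ContinuousLinearMap.id ℂ (ℂ × ℂ →L[ℂ] ℂ)) _) (l1.fderiv.prod h8)
    have hlc : ∀ᶠ s in 𝓝 t, l (c s) = 0 := by
      filter_upwards [h4, h5.continuousAt.eventually l4] with s s1 s2
      exact s2.1 s1
    refine smooth_ident l1 l2 l3 hh h5.continuousAt rfl ?_ hlc ?_
    · -- `c` is not constant near `t`
      intro h9
      have h10 : ∀ᶠ s in 𝓝 t, c s = c t := by
        filter_upwards [h9] with s hs using not_not.1 hs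
      have h11 : deriv c t = 0 := by
        have e1 : c =ᶠ[𝓝 t] fun _ => c t := h10
        rw [e1.deriv_eq, deriv_const]
      exact h3.self_of_nhds h11
    · filter_upwards [eventually_eventually_nhds.2 hlc, h3, h7, h5.eventually_analyticAt, h5.continuousAt.eventually l1.eventually_analyticAt] with s s1 s2 s3 s4 s5
      have e2 : fderiv ℂ l (c s) (deriv c s) = 0 := ld_chain s5 s4 s1
      -- `v` is a multiple of the derivative
      obtain ⟨a, ha⟩ : ∃ a : ℂ, v (c s) = a • deriv c s := by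
        by_cases h9 : (deriv c s).1 = 0
        · have h10 : (deriv c s).2 ≠ 0 := fun h10 => s2 (Prod.ext h9 h10)
          refine ⟨(v (c s)).2 / (deriv c s).2, ?_⟩
          ext
          · simp only [Prod.smul_fst, smul_eq_mul, h9, mul_zero]
            rw [h9, mul_zero, sub_zero] at s3
            exact (mul_eq_zero.1 s3).resolve_right h10
          · simp only [Prod.smul_snd, smul_eq_mul]
            field_simp
        · refine ⟨(v (c s)).1 / (deriv c s).1, ?_⟩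
          ext
          · simp only [Prod.smul_fst, smul_eq_mul]
            field_simp
          · simp only [Prod.smul_snd, smul_eq_mul]
            field_simp
            linear_combination -s3
      rw [ha, map_smul, e2, smul_zero]

end Pool.Agent.MQ3
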