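import Pool.Agent.H17BP.FinG
import Pool.Agent.H17BP.Art

/-!
# MQ3 InvS: the zeros of a germ in two variables are smooth off the origin
-/

set_option autoImplicit false

open Topology Filter

noncomputable section

namespace Pool.Agent.MQ3

open Pool.Agent.H17BP

/-- bounded functions converge along an ultrafilter -/
private theorem InvS_lim {U : Ultrafilter (ℂ × ℂ)} {f : ℂ × ℂ → ℂ}
    (h : ∀ᶠ p in (U : Filter (ℂ × ℂ)), ‖f p‖ ≤ 1) : ∃ c : ℂ, Tendsto f U (𝓝 c) := by
  have h1 : ((U.map f : Ultrafilter ℂ) : Filter ℂ) ≤ 𝓟 (Metric.closedBall (0 : ℂ) 1) := by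
    rw [Filter.le_principal_iff, Ultrafilter.coe_map, Filter.mem_map]
    filter_upwards [h] with p hp
    simpa using hp
  obtain ⟨c, -, hc⟩ := (isCompact_closedBall (0 : ℂ) 1).ultrafilter_le_nhds (U.map f) h1
  exact ⟨c, hc⟩

/-- Induction over the resolution of a germ. -/
theorem resN_near (Q : (ℂ × ℂ → ℂ) → ℂ × ℂ → Prop) (h0 : ∀ g, Mono g → ∀ᶠ p in 𝓝[≠] (0 : ℂ × ℂ), Q g p)
    (h1 : ∀ g (c : ℂ) (p : ℂ × ℂ), p.1 ≠ 0 → Q (g ∘ bl c) p → Q g (bl c p))
    (h2 : ∀ g (p : ℂ × ℂ), p.2 ≠ 0 → Q (g ∘ blInf) p → Q g (blInf p)) {n : ℕ} :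
    ∀ {g : ℂ × ℂ → ℂ}, ResN n g → ∀ᶠ p in 𝓝[≠] (0 : ℂ × ℂ), Q g p := by
  have key1 : ∀ {g : ℂ × ℂ → ℂ} {U : Ultrafilter (ℂ × ℂ)}, (U : Filter (ℂ × ℂ)) ≤ 𝓝 0 →
      (∀ᶠ p in (U : Filter (ℂ × ℂ)), ¬ Q g p) → ∀ {c : ℂ}, Tendsto (fun p : ℂ × ℂ => p.2 / p.1) U (𝓝 c) →
      (∀ᶠ p in (U : Filter (ℂ × ℂ)), p.1 ≠ 0) → (∀ᶠ p in 𝓝[≠] (0 : ℂ × ℂ), Q (g ∘ bl c) p) → False := by
    intro g U hU0 hbad c hc hne hih
    have ht1 : Tendsto (fun p : ℂ × ℂ => p.1) U (𝓝 0) := by
      have h2 : Tendsto (fun p : ℂ × ℂ => p.1) (𝓝 0) (𝓝 (0 : ℂ × ℂ).1) := continuous_fst.tendsto 0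
      exact h2.mono_left hU0
    have ht2 : Tendsto (fun p : ℂ × ℂ => p.2 / p.1 - c) U (𝓝 0) := by
      have h2 := hc.sub_const c
      rwa [sub_self] at h2
    have ht : Tendsto (fun p : ℂ × ℂ => (p.1, p.2 / p.1 - c)) U (𝓝[≠] 0) := by
      rw [tendsto_nhdsWithin_iff]
      refine ⟨?_, ?_⟩
      · exact ht1.prodMk_nhds ht2
      · filter_upwards [hne] with p hp
        intro h0
        exact hp (congrArg Prod.fst h0)
    obtain ⟨p, hp1, hp2, hp3⟩ := ((ht.eventually hih).and (hne.and hbad)).exists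
    apply hp3
    have h4 : bl c (p.1, p.2 / p.1 - c) = p := by
      unfold bl
      ext
      · rfl
      · simp only
        field_simp
        ring
    have h5 := h1 g c (p.1, p.2 / p.1 - c) hp2 hp1
    rwa [h4] at h5
  have key2 : ∀ {g : ℂ × ℂ → ℂ} {U : Ultrafilter (ℂ × ℂ)}, (U : Filter (ℂ × ℂ)) ≤ 𝓝 0 →
      (∀ᶠ p in (U : Filter (ℂ × ℂ)), ¬ Q g p) → Tendsto (fun p : ℂ × ℂ => p.1 / p.2) U (𝓝 0) →
      (∀ᶠ p in (U : Filter (ℂ × ℂ)), p.2 ≠ 0) → (∀ᶠ p in 𝓝[≠] (0 : ℂ × ℂ), Q (g ∘ blInf) p) → False := by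
    intro g U hU0 hbad hc hne hih
    have ht1 : Tendsto (fun p : ℂ × ℂ => p.2) U (𝓝 0) := by
      have h2 : Tendsto (fun p : ℂ × ℂ => p.2) (𝓝 0) (𝓝 (0 : ℂ × ℂ).2) := continuous_snd.tendsto 0
      exact h2.mono_left hU0
    have ht : Tendsto (fun p : ℂ × ℂ => (p.1 / p.2, p.2)) U (𝓝[≠] 0) := by
      rw [tendsto_nhdsWithin_iff]
      refine ⟨?_, ?_⟩
      · exact hc.prodMk_nhds ht1
      · filter_upwards [hne] with p hp
        intro h0
        exact hp (congrArg Prod.snd h0)
    obtain ⟨p, hp1, hp2, hp3⟩ := ((ht.eventually hih).and (hne.and hbad)).exists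
    apply hp3
    have h4 : blInf (p.1 / p.2, p.2) = p := by
      unfold blInf
      ext
      · simp only
        field_simp
      · rfl
    have h5 := h2 g (p.1 / p.2, p.2) hp2 hp1
    rwa [h4] at h5
  induction n with
  | zero =>
    intro g h
    exact h0 g h
  | succ n ih =>
    intro g h
    rcases h with h | h
    · exact h0 g h
    · by_contra hne
      have hf : ∃ᶠ p in 𝓝[≠] (0 : ℂ × ℂ), ¬ Q g p := Filter.not_eventually.mp hne
      have hnb := Filter.frequently_iff_neBot.mp hf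
      obtain ⟨U, hU⟩ := Ultrafilter.exists_le (𝓝[≠] (0 : ℂ × ℂ) ⊓ 𝓟 {p | ¬ Q g p})
      have hU1 : (U : Filter (ℂ × ℂ)) ≤ 𝓝[≠] 0 := hU.trans inf_le_left
      have hU0 : (U : Filter (ℂ × ℂ)) ≤ 𝓝 0 := hU1.trans nhdsWithin_le_nhds
      have hbad : ∀ᶠ p in (U : Filter (ℂ × ℂ)), ¬ Q g p := Filter.le_principal_iff.mp (hU.trans inf_le_right)
      have hne0 : ∀ᶠ p in (U : Filter (ℂ × ℂ)), p ≠ 0 := by
        have h1 : ∀ᶠ p in 𝓝[≠] (0 : ℂ × ℂ), p ≠ 0 := eventually_mem_nhdsWithin
        exact h1.filter_mono hU1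
      rcases U.em (fun p => ‖p.2‖ ≤ ‖p.1‖) with h1 | h1
      · have h2 : ∀ᶠ p in (U : Filter (ℂ × ℂ)), p.1 ≠ 0 := by
          filter_upwards [h1, hne0] with p hp1 hp2 h0
          apply hp2
          rw [h0, norm_zero] at hp1
          exact Prod.ext h0 (norm_le_zero_iff.mp hp1)
        obtain ⟨c, hc⟩ := InvS_lim (U := U) (f := fun p => p.2 / p.1) (by
          filter_upwards [h1] with p hp
          rw [norm_div]
          exact div_le_one_of_le₀ hp (norm_nonneg _))
        exact key1 hU0 hbad hc h2 (ih (h (bl c) (bchart_bl c)))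
      · have h2 : ∀ᶠ p in (U : Filter (ℂ × ℂ)), p.2 ≠ 0 := by
          filter_upwards [h1] with p hp1 h0
          apply hp1
          rw [h0, norm_zero]
          exact norm_nonneg _
        obtain ⟨c, hc⟩ := InvS_lim (U := U) (f := fun p => p.1 / p.2) (by
          filter_upwards [h1] with p hp
          rw [norm_div]
          exact div_le_one_of_le₀ (not_le.mp hp).le (norm_nonneg _))
        by_cases hc0 : c = 0
        · rw [hc0] at hc
          exact key2 hU0 hbad hc h2 (ih (h blInf bchart_blInf))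
        · have h3 : ∀ᶠ p in (U : Filter (ℂ × ℂ)), p.1 ≠ 0 := by
            filter_upwards [hc.eventually_ne hc0] with p hp h0
            apply hp
            rw [h0, zero_div]
          have h4 : Tendsto (fun p : ℂ × ℂ => p.2 / p.1) U (𝓝 c⁻¹) := by
            have h5 := hc.inv₀ hc0
            refine h5.congr ?_
            intro p
            rw [inv_div]
          exact key1 hU0 hbad h4 h3 (ih (h (bl c⁻¹) (bchart_bl c⁻¹)))

/-- near `p` the zero set of `g` is empty or smooth -/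
def Sm (g : ℂ × ℂ → ℂ) (p : ℂ × ℂ) : Prop :=
  g p ≠ 0 ∨ ∃ l : ℂ × ℂ → ℂ, AnalyticAt ℂ l p ∧ l p = 0 ∧ fderiv ℂ l p ≠ 0 ∧ ∀ᶠ w in 𝓝 p, (g w = 0 ↔ l w = 0)

/-- transfer under a local isomorphism -/
theorem Sm.map {g : ℂ × ℂ → ℂ} {β γ : ℂ × ℂ → ℂ × ℂ} {x : ℂ × ℂ} (hβ : AnalyticAt ℂ β x) (hγ : AnalyticAt ℂ γ (β x)) (h0 : γ (β x) = x)
    (h1 : ∀ᶠ w in 𝓝 (β x), β (γ w) = w) (h2 : ∀ᶠ y in 𝓝 x, γ (β y) = y) (h : Sm (g ∘ β) x) : Sm g (β x) := by
  rcases h with h | ⟨l, hl, hl0, hl1, hl2⟩
  · exact Or.inl h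
  · refine Or.inr ⟨l ∘ γ, AnalyticAt.comp (by rwa [h0]) hγ, by rw [Function.comp_apply, h0, hl0], ?_, ?_⟩
    · intro h3
      apply hl1
      have h4 : l =ᶠ[𝓝 x] (l ∘ γ) ∘ β := by
        filter_upwards [h2] with y hy
        simp only [Function.comp_apply, hy]
      have h5 : DifferentiableAt ℂ (l ∘ γ) (β x) := (AnalyticAt.comp (by rwa [h0]) hγ).differentiableAt
      rw [h4.fderiv_eq, fderiv_comp x h5 hβ.differentiableAt, h3, ContinuousLinearMap.zero_comp]
    · have ht : Tendsto γ (𝓝 (β x)) (𝓝 x) := by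
        have := hγ.continuousAt.tendsto
        rwa [h0] at this
      filter_upwards [h1, ht.eventually hl2] with w hw1 hw2
      simp only [Function.comp_apply] at hw2 ⊢
      rwa [hw1] at hw2

theorem Sm.mono {g : ℂ × ℂ → ℂ} (h : Mono g) : ∀ᶠ p in 𝓝[≠] (0 : ℂ × ℂ), Sm g p := by
  obtain ⟨S, T, a, b, u, hST, hu, hu0, hgu⟩ := h
  obtain ⟨θ, hθ, h1, h2⟩ := Bihol.exists_inv hST
  have hθ' : AnalyticAt ℂ θ (S 0, T 0) := by
    have h3 : (S 0, T 0) = (0 : ℂ × ℂ) := hST.zero
    rw [h3]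
    exact hθ.an
  have hSa : AnalyticAt ℂ S 0 := (ContinuousLinearMap.fst ℂ ℂ ℂ).analyticAt _ |>.comp hST.an
  have hTa : AnalyticAt ℂ T 0 := (ContinuousLinearMap.snd ℂ ℂ ℂ).analyticAt _ |>.comp hST.an
  have hT0 : T 0 = 0 := congrArg Prod.snd hST.zero
  have hS0 : S 0 = 0 := congrArg Prod.fst hST.zero
  have hθt : Tendsto (fun p => (S p, T p)) (𝓝 0) (𝓝 0) := hST.tendsto
  rw [eventually_nhdsWithin_iff]
  filter_upwards [hSa.eventually_analyticAt, hTa.eventually_analyticAt, eventually_eventually_nhds.2 h1, hθt.eventually hθ.an.eventually_analyticAt,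
    eventually_eventually_nhds.2 hgu, hu.eventually_analyticAt, hu.continuousAt.eventually_ne hu0] with p p1 p2 p3 p4 p5 p6 p7 hp
  have hp0 : p ≠ 0 := hp
  -- the derivatives of `S` and `T` are independent
  have hind : ∀ α β : ℂ, (α ≠ 0 ∨ β ≠ 0) → fderiv ℂ (fun x => α * S x + β * T x) p ≠ 0 := by
    intro α β hαβ h0
    have hST' : HasFDerivAt (fun x => (S x, T x)) ((fderiv ℂ S p).prod (fderiv ℂ T p)) p :=
      p1.differentiableAt.hasFDerivAt.prodMk p2.differentiableAt.hasFDerivAt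
    have h3 : HasFDerivAt (fun x => θ (S x, T x)) ((fderiv ℂ θ (S p, T p)).comp ((fderiv ℂ S p).prod (fderiv ℂ T p))) p :=
      HasFDerivAt.comp p (g := θ) (f := fun x => (S x, T x)) p4.differentiableAt.hasFDerivAt hST'
    have h4 : HasFDerivAt (fun x => θ (S x, T x)) (ContinuousLinearMap.id ℂ (ℂ × ℂ)) p :=
      (hasFDerivAt_id p).congr_of_eventuallyEq p3
    have h5 := h3.unique h4
    have h6 : HasFDerivAt (fun x => α * S x + β * T x) (α • fderiv ℂ S p + β • fderiv ℂ T p) p := by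
      have h7 := (p1.differentiableAt.hasFDerivAt.const_mul α).add (p2.differentiableAt.hasFDerivAt.const_mul β)
      exact h7
    rw [h6.fderiv] at h0
    -- the kernel
    have h8 : ∀ w : ℂ × ℂ, fderiv ℂ θ (S p, T p) (fderiv ℂ S p w, fderiv ℂ T p w) = w := by
      intro w
      have := congrArg (fun L : ℂ × ℂ →L[ℂ] ℂ × ℂ => L w) h5
      simpa using this
    have h9 : ∀ w : ℂ × ℂ, α * fderiv ℂ S p w + β * fderiv ℂ T p w = 0 := by
      intro w
      have := congrArg (fun L : ℂ × ℂ →L[ℂ] ℂ => L w) h0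
      simpa using this
    -- the vectors `(β, -α)` span the image
    have h10 : ∀ w : ℂ × ℂ, ∃ c : ℂ, w = c • fderiv ℂ θ (S p, T p) (β, -α) := by
      intro w
      rcases hαβ with hα | hβ
      · refine ⟨-(fderiv ℂ T p w) / α, ?_⟩
        rw [← map_smul]
        conv_lhs => rw [← h8 w]
        congr 1
        have := h9 w
        ext
        · simp only [Prod.smul_fst, smul_eq_mul]
          field_simp
          linear_combination this
        · simp only [Prod.smul_snd, smul_eq_mul]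
          field_simp
      · refine ⟨(fderiv ℂ S p w) / β, ?_⟩
        rw [← map_smul]
        conv_lhs => rw [← h8 w]
        congr 1
        have := h9 w
        ext
        · simp only [Prod.smul_fst, smul_eq_mul]
          field_simp
        · simp only [Prod.smul_snd, smul_eq_mul]
          field_simp
          linear_combination this
    obtain ⟨c, hc⟩ := h10 (1, 0)
    obtain ⟨d, hd⟩ := h10 (0, 1)
    set z := fderiv ℂ θ (S p, T p) (β, -α) with hz
    have e1 : c * z.1 = 1 := (congrArg Prod.fst hc).symm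
    have e2 : c * z.2 = 0 := (congrArg Prod.snd hc).symm
    have e4 : d * z.2 = 1 := (congrArg Prod.snd hd).symm
    have hc0 : c ≠ 0 := by
      rintro rfl
      rw [zero_mul] at e1
      exact zero_ne_one e1
    have hz2 : z.2 = 0 := (mul_eq_zero.1 e2).resolve_left hc0
    rw [hz2, mul_zero] at e4
    exact zero_ne_one e4
  have hST0 : S p ≠ 0 ∨ T p ≠ 0 := by
    by_contra hcon
    push Not at hcon
    apply hp0
    have h3 := p3.self_of_nhds
    rw [hcon.1, hcon.2] at h3
    rw [← h3]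
    exact hθ.zero
  have hune : ∀ᶠ w in 𝓝 p, u w ≠ 0 := p6.continuousAt.eventually_ne p7
  by_cases hS : S p = 0
  · have hT : T p ≠ 0 := hST0.resolve_left (fun h => h hS)
    rcases Nat.eq_zero_or_pos a with ha | ha
    · left
      rw [p5.self_of_nhds, ha, pow_zero, one_mul]
      exact mul_ne_zero (pow_ne_zero _ hT) p7
    · right
      refine ⟨S, p1, hS, ?_, ?_⟩
      · have h3 := hind 1 0 (Or.inl one_ne_zero)
        have h4 : (fun x => 1 * S x + 0 * T x) = S := by
          funext x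
          ring
        rwa [h4] at h3
      · filter_upwards [p5, hune, p2.continuousAt.eventually_ne hT] with w hw1 hw2 hw3
        rw [hw1, mul_eq_zero, mul_eq_zero]
        constructor
        · rintro ((h | h) | h)
          · exact pow_eq_zero_iff (by omega) |>.1 h
          · exact absurd h (pow_ne_zero _ hw3)
          · exact absurd h hw2
        · intro h
          left; left
          rw [h, zero_pow (by omega)]
  · by_cases hT : T p = 0
    · rcases Nat.eq_zero_or_pos b with hb | hb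
      · left
        rw [p5.self_of_nhds, hb, pow_zero, mul_one]
        exact mul_ne_zero (pow_ne_zero _ hS) p7
      · right
        refine ⟨T, p2, hT, ?_, ?_⟩
        · have h3 := hind 0 1 (Or.inr one_ne_zero)
          have h4 : (fun x => 0 * S x + 1 * T x) = T := by
            funext x
            ring
          rwa [h4] at h3
        · filter_upwards [p5, hune, p1.continuousAt.eventually_ne hS] with w hw1 hw2 hw3
          rw [hw1, mul_eq_zero, mul_eq_zero]
          constructor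
          · rintro ((h | h) | h)
            · exact absurd h (pow_ne_zero _ hw3)
            · exact pow_eq_zero_iff (by omega) |>.1 h
            · exact absurd h hw2
          · intro h
            left; right
            rw [h, zero_pow (by omega)]
    · left
      rw [p5.self_of_nhds]
      exact mul_ne_zero (mul_ne_zero (pow_ne_zero _ hS) (pow_ne_zero _ hT)) p7

/-- **The zeros of a germ in two variables are smooth off the origin.** -/
theorem sm_off {g : ℂ × ℂ → ℂ} (hg : AnalyticAt ℂ g 0) (h : ∃ᶠ p in 𝓝 (0 : ℂ × ℂ), g p ≠ 0) : ∀ᶠ p in 𝓝 (0 : ℂ × ℂ), p ≠ 0 → Sm g p := by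
  obtain ⟨n, hn⟩ := exists_resN hg (fun h' => h (h'.mono fun p hp hne => hne hp))
  have h1 := resN_near Sm (fun g hg => Sm.mono hg) (fun g c p hp hQ => by
    refine Sm.map (β := bl c) (γ := fun w => (w.1, w.2 / w.1 - c)) (analyticAt_bl c p) ?_ ?_ ?_ ?_ hQ
    · refine analyticAt_fst.prod ((analyticAt_snd.div analyticAt_fst ?_).sub analyticAt_const)
      exact hp
    · simp only [bl]
      ext
      · rfl
      · simp only
        field_simp
        ring
    · have h2 : ∀ᶠ w in 𝓝 (bl c p), w.1 ≠ 0 := continuous_fst.continuousAt.eventually_ne hp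
      filter_upwards [h2] with w hw
      simp only [bl]
      ext
      · rfl
      · simp only
        field_simp
        ring
    · have h2 : ∀ᶠ w in 𝓝 p, w.1 ≠ 0 := continuous_fst.continuousAt.eventually_ne hp
      filter_upwards [h2] with w hw
      simp only [bl]
      ext
      · rfl
      · simp only
        field_simp
        ring) (fun g p hp hQ => by
    refine Sm.map (β := blInf) (γ := fun w => (w.1 / w.2, w.2)) (analyticAt_blInf p) ?_ ?_ ?_ ?_ hQ
    · refine (analyticAt_fst.div analyticAt_snd ?_).prod analyticAt_snd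
      exact hp
    · simp only [blInf]
      ext
      · simp only
        field_simp
      · rfl
    · have h2 : ∀ᶠ w in 𝓝 (blInf p), w.2 ≠ 0 := continuous_snd.continuousAt.eventually_ne hp
      filter_upwards [h2] with w hw
      simp only [blInf]
      ext
      · simp only
        field_simp
      · rfl
    · have h2 : ∀ᶠ w in 𝓝 p, w.2 ≠ 0 := continuous_snd.continuousAt.eventually_ne hp
      filter_upwards [h2] with w hw
      simp only [blInf]
      ext
      · simp only
        field_simp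
      · rfl) hn
  rw [eventually_nhdsWithin_iff] at h1
  exact h1

end Pool.Agent.MQ3
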