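import Pool.Agent.MQ3.LiftDefs

/-!
Lifts to the monomial charts are unique off the axes.
-/

namespace Pool.Agent.MQ3

open Complex Set Filter Topology

variable {p : ℕ} {T : Fin p → ℂ × ℂ → ℂ}

lemma shift_mem {n : ℤ × ℤ} {P : ℂ × ℂ} (hP : P ∈ HH) : shift n P ∈ HH := by
  simpa [HH, shift] using hP

lemma shift_mem_iff {n : ℤ × ℤ} {P : ℂ × ℂ} : shift n P ∈ HH ↔ P ∈ HH := by
  simp [HH, shift]

lemma shift_shift (n n' : ℤ × ℤ) (P : ℂ × ℂ) : shift n (shift n' P) = shift (n + n') P := by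
  simp only [shift, Prod.fst_add, Prod.snd_add, Int.cast_add]
  ext <;> simp <;> ring

lemma shift_zero (P : ℂ × ℂ) : shift 0 P = P := by
  simp [shift]

lemma exp_add_int (z : ℂ) (n : ℤ) : exp (z + n * (2 * Real.pi * I)) = exp z := by
  rw [Complex.exp_eq_exp_iff_exists_int]; exact ⟨n, rfl⟩

lemma exp_shift_fst (n : ℤ × ℤ) (P : ℂ × ℂ) : exp (shift n P).1 = exp P.1 := exp_add_int _ _

lemma exp_shift_snd (n : ℤ × ℤ) (P : ℂ × ℂ) : exp (shift n P).2 = exp P.2 := exp_add_int _ _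

lemma exists_shift {P P' : ℂ × ℂ} (h1 : exp P.1 = exp P'.1) (h2 : exp P.2 = exp P'.2) :
    ∃ n : ℤ × ℤ, P = shift n P' := by
  obtain ⟨a, ha⟩ := Complex.exp_eq_exp_iff_exists_int.1 h1
  obtain ⟨b, hb⟩ := Complex.exp_eq_exp_iff_exists_int.1 h2
  exact ⟨(a, b), Prod.ext ha hb⟩

lemma mem_HH_of_exp {P : ℂ × ℂ} (h1 : ‖exp P.1‖ < 1) (h2 : ‖exp P.2‖ < 1) : P ∈ HH := by
  rw [Complex.norm_exp] at h1 h2
  exact ⟨by simpa using (Real.exp_lt_one_iff.1 h1 : _), by simpa using (Real.exp_lt_one_iff.1 h2 : _)⟩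

lemma exp_lin_fst (w w' : ℕ × ℕ) (Q : ℂ × ℂ) :
    exp (lin w w' Q).1 = exp Q.1 ^ w.1 * exp Q.2 ^ w'.1 := by
  simp only [lin]; rw [exp_add, exp_nat_mul, exp_nat_mul]

lemma exp_lin_snd (w w' : ℕ × ℕ) (Q : ℂ × ℂ) :
    exp (lin w w' Q).2 = exp Q.1 ^ w.2 * exp Q.2 ^ w'.2 := by
  simp only [lin]; rw [exp_add, exp_nat_mul, exp_nat_mul]

lemma lin_shift (w w' : ℕ × ℕ) (a b : ℤ) (Q : ℂ × ℂ) :
    lin w w' (shift (a, b) Q) =
      shift (a * w.1 + b * w'.1, a * w.2 + b * w'.2) (lin w w' Q) := by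
  simp only [lin, shift]
  ext <;> push_cast <;> ring

lemma lin_inj {w w' : ℕ × ℕ} (h : (w.1 : ℤ) * w'.2 - w.2 * w'.1 ≠ 0) {Q Q' : ℂ × ℂ}
    (hQ : lin w w' Q = lin w w' Q') : Q = Q' := by
  have hd : (w.1 : ℂ) * w'.2 - w.2 * w'.1 ≠ 0 := by exact_mod_cast h
  have h1 := congrArg Prod.fst hQ
  have h2 := congrArg Prod.snd hQ
  simp only [lin] at h1 h2
  ext
  · apply mul_left_cancel₀ hd
    linear_combination (w'.2 : ℂ) * h1 - (w'.1 : ℂ) * h2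
  · apply mul_left_cancel₀ hd
    linear_combination (w.1 : ℂ) * h2 - (w.2 : ℂ) * h1

lemma exists_lin {w w' : ℕ × ℕ} (h : (w.1 : ℤ) * w'.2 - w.2 * w'.1 ≠ 0) (P : ℂ × ℂ) :
    lin w w' (((w'.2 : ℂ) * P.1 - w'.1 * P.2) / ((w.1 : ℂ) * w'.2 - w.2 * w'.1),
      ((w.1 : ℂ) * P.2 - w.2 * P.1) / ((w.1 : ℂ) * w'.2 - w.2 * w'.1)) = P := by
  have hd : (w.1 : ℂ) * w'.2 - w.2 * w'.1 ≠ 0 := by exact_mod_cast h
  simp only [lin]
  ext
  · simp only
    rw [← mul_div_assoc, ← mul_div_assoc, ← add_div, div_eq_iff hd]; ring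
  · simp only
    rw [← mul_div_assoc, ← mul_div_assoc, ← add_div, div_eq_iff hd]; ring

/-- One coincidence suffices for a period. -/
lemma Roots.period (hT : Roots T) {k : Fin p} {n : ℤ × ℤ} {P : ℂ × ℂ} (hP : P ∈ HH)
    (h : T k (shift n P) = T k P) : ∀ P' ∈ HH, T k (shift n P') = T k P' := by
  obtain ⟨j, hj⟩ := hT.perm n k
  have : j = k := by
    by_contra hne
    exact hT.ne P hP j k hne ((hj P hP).symm.trans h)
  subst this
  exact hj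

lemma Tt_exp {k : Fin p} {w w' : ℕ × ℕ} (hb : LatBasis T k w w') {Q : ℂ × ℂ}
    (hQ : lin w w' Q ∈ HH) : Tt T k w w' (exp Q.1, exp Q.2) = T k (lin w w' Q) := by
  obtain ⟨n, hn⟩ := exists_shift (P := (log (exp Q.1), log (exp Q.2))) (P' := Q)
    (exp_log (exp_ne_zero _)) (exp_log (exp_ne_zero _))
  unfold Tt
  simp only
  rw [hn]
  obtain ⟨a, b⟩ := n
  rw [lin_shift]
  exact (hb.mem _).2 ⟨a, b, rfl, rfl⟩ _ hQ

lemma lin_log_mem {w w' : ℕ × ℕ} {q : ℂ × ℂ} (h1 : q.1 ≠ 0) (h2 : q.2 ≠ 0)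
    (h3 : ‖(mono w w' q).1‖ < 1) (h4 : ‖(mono w w' q).2‖ < 1) :
    lin w w' (log q.1, log q.2) ∈ HH := by
  apply mem_HH_of_exp
  · rw [exp_lin_fst]; simpa [exp_log h1, exp_log h2, mono] using h3
  · rw [exp_lin_snd]; simpa [exp_log h1, exp_log h2, mono] using h4

/-- Uniqueness of the lift off the axes. -/
theorem lift_unique (hT : Roots T) {k : Fin p} {w w' : ℕ × ℕ} (hb : LatBasis T k w w')
    {q q' : ℂ × ℂ} (h1 : q.1 ≠ 0) (h2 : q.2 ≠ 0) (h1' : q'.1 ≠ 0) (h2' : q'.2 ≠ 0)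
    (h3 : ‖(mono w w' q).1‖ < 1) (h4 : ‖(mono w w' q).2‖ < 1)
    (hm : mono w w' q = mono w w' q') (ht : Tt T k w w' q = Tt T k w w' q') : q = q' := by
  have hP := lin_log_mem h1 h2 h3 h4
  have hP' : lin w w' (log q'.1, log q'.2) ∈ HH :=
    lin_log_mem h1' h2' (hm ▸ h3) (hm ▸ h4)
  obtain ⟨n, hn⟩ := exists_shift (P := lin w w' (log q.1, log q.2))
    (P' := lin w w' (log q'.1, log q'.2))
    (by rw [exp_lin_fst, exp_lin_fst]; simpa [exp_log h1, exp_log h2, exp_log h1', exp_log h2', mono]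
          using congrArg Prod.fst hm)
    (by rw [exp_lin_snd, exp_lin_snd]; simpa [exp_log h1, exp_log h2, exp_log h1', exp_log h2', mono]
          using congrArg Prod.snd hm)
  have hper : ∀ P ∈ HH, T k (shift n P) = T k P := by
    apply hT.period hP'
    rw [← hn]
    exact ht
  obtain ⟨a, b, ha, hb'⟩ := (hb.mem n).1 hper
  have hQ : lin w w' (log q.1, log q.2) = lin w w' (shift (a, b) (log q'.1, log q'.2)) := by
    rw [lin_shift, hn, ← ha, ← hb']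
  have := lin_inj hb.det hQ
  have e1 := congrArg (fun P : ℂ × ℂ => exp P.1) this
  have e2 := congrArg (fun P : ℂ × ℂ => exp P.2) this
  simp only [exp_shift_fst, exp_shift_snd, exp_log h1, exp_log h2, exp_log h1', exp_log h2'] at e1 e2
  exact Prod.ext e1 e2

end Pool.Agent.MQ3
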