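import Pool.Agent.MQ3.LiftA

/-!
Local lifts to the monomial charts exist and are holomorphic, also at the zeros.
-/

namespace Pool.Agent.MQ3

open Complex Set Filter Topology

variable {p : ℕ} {T : Fin p → ℂ × ℂ → ℂ}

/-- Logarithmic normal form of a nonzero germ. -/
lemma exists_pow_exp {x : ℂ → ℂ} {z0 : ℂ} (hx : AnalyticAt ℂ x z0)
    (hx0 : ¬ ∀ᶠ z in 𝓝 z0, x z = 0) :
    ∃ (n : ℕ) (g : ℂ → ℂ), AnalyticAt ℂ g z0 ∧
      ∀ᶠ z in 𝓝 z0, x z = (z - z0) ^ n * exp (g z) := by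
  obtain ⟨n, u, hu, hu0, he⟩ := (hx.exists_eventuallyEq_pow_smul_nonzero_iff).2 hx0
  refine ⟨n, fun z => log (u z / u z0) + log (u z0), ?_, ?_⟩
  · refine AnalyticAt.add (AnalyticAt.clog (hu.div analyticAt_const hu0) ?_) analyticAt_const
    rw [div_self hu0]; exact one_mem_slitPlane
  · filter_upwards [he, hu.continuousAt.eventually_ne hu0] with z hz hz'
    rw [hz, exp_add, exp_log (div_ne_zero hz' hu0), exp_log hu0, div_mul_cancel₀ _ hu0]
    rfl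

/-- A continuous selection of one of finitely many distinct continuous functions. -/
lemma constant_branch {S : Set ℂ} (hS : IsPreconnected S) (hne : S.Nonempty)
    {F : Fin p → ℂ → ℂ} {M : ℂ → ℂ} (hF : ∀ j, ContinuousOn (F j) S) (hM : ContinuousOn M S)
    (hd : ∀ ζ ∈ S, ∀ j k, j ≠ k → F j ζ ≠ F k ζ) (hex : ∀ ζ ∈ S, ∃ j, F j ζ = M ζ) :
    ∃ j, ∀ ζ ∈ S, F j ζ = M ζ := by
  classical
  have : Nonempty (Fin p) := ⟨(hex _ hne.some_mem).choose⟩
  choose! J hJ using hex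
  have hc : ContinuousOn J S := by
    intro ζ hζ
    have : ∀ᶠ η in 𝓝[S] ζ, J η = J ζ := by
      have h1 : ∀ j, j ≠ J ζ → ∀ᶠ η in 𝓝[S] ζ, F j η ≠ M η := by
        intro j hj
        have hne' : F j ζ - M ζ ≠ 0 := by
          rw [← hJ ζ hζ, sub_ne_zero]; exact hd ζ hζ j _ hj
        have := ((hF j ζ hζ).sub (hM ζ hζ)).eventually_ne hne'
        filter_upwards [this] with η hη
        exact sub_ne_zero.1 hη
      have h2 : ∀ᶠ η in 𝓝[S] ζ, ∀ j, j ≠ J ζ → F j η ≠ M η := by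
        rw [eventually_all]
        intro j
        by_cases hj : j = J ζ
        · exact Eventually.of_forall fun _ h => absurd hj h
        · filter_upwards [h1 j hj] with η hη _ using hη
      filter_upwards [h2, self_mem_nhdsWithin] with η hη hηS
      by_contra hcon
      exact hη (J η) hcon (hJ η hηS)
    exact (tendsto_nhds_of_eventually_eq this)
  obtain ⟨ζ0, h0⟩ := hne
  refine ⟨J ζ0, fun ζ hζ => ?_⟩
  rw [hS.constant hc h0 hζ]
  exact hJ ζ hζ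

/-- A bounded power is a nonnegative power. -/
lemma zpow_bounded {z0 : ℂ} {g : ℂ → ℂ} (hg : AnalyticAt ℂ g z0) {a : ℤ}
    (h : ∃ᶠ z in 𝓝[≠] z0, ‖(z - z0) ^ a * exp (g z)‖ ≤ 1) : 0 ≤ a := by
  by_contra hneg
  rw [not_le] at hneg
  obtain ⟨n, hn⟩ : ∃ n : ℕ, a = -(n + 1 : ℕ) := ⟨(-a - 1).toNat, by omega⟩
  have hc : Tendsto (fun z => ‖exp (g z)‖) (𝓝[≠] z0) (𝓝 ‖exp (g z0)‖) :=
    (((hg.continuousAt).cexp).norm).tendsto.mono_left nhdsWithin_le_nhds
  have hz : Tendsto (fun z : ℂ => ‖(z - z0) ^ (n + 1)‖) (𝓝[≠] z0) (𝓝 0) := by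
    have : ContinuousAt (fun z : ℂ => ‖(z - z0) ^ (n + 1)‖) z0 := by fun_prop
    have h2 := this.tendsto.mono_left (nhdsWithin_le_nhds (s := {z0}ᶜ))
    simpa using h2
  have hpos : (0:ℝ) < ‖exp (g z0)‖ := norm_pos_iff.2 (exp_ne_zero _)
  have e1 := hc.eventually (lt_mem_nhds (half_lt_self hpos))
  have e2 := hz.eventually (gt_mem_nhds (half_pos hpos))
  obtain ⟨z, hz1, hz2, hz3, hz4⟩ := (h.and_eventually
    (e1.and (e2.and self_mem_nhdsWithin))).exists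
  have hzz : z - z0 ≠ 0 := sub_ne_zero.2 hz4
  rw [hn, zpow_neg, zpow_natCast, norm_mul, norm_inv] at hz1
  have h5 : 0 < ‖(z - z0) ^ (n + 1)‖ := norm_pos_iff.2 (pow_ne_zero _ hzz)
  rw [inv_mul_le_iff₀ h5, mul_one] at hz1
  linarith

theorem exists_lift (hT : Roots T) (K : Finset (Fin p))
    (Bs : Fin p → Finset ((ℕ × ℕ) × (ℕ × ℕ)))
    (hK : ∀ j, ∃ k ∈ K, ∃ n : ℤ × ℤ, ∀ P ∈ HH, T j P = T k (shift n P))
    (hB : ∀ k ∈ K, ∀ b ∈ Bs k, LatBasis T k b.1 b.2)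
    (hcov : ∀ k ∈ K, ∀ A B : ℝ, 0 ≤ A → 0 ≤ B → ∃ b ∈ Bs k, ∃ l l' : ℝ, 0 ≤ l ∧ 0 ≤ l' ∧
      A = l * b.1.1 + l' * b.2.1 ∧ B = l * b.1.2 + l' * b.2.2)
    {x y m : ℂ → ℂ} {z0 : ℂ} (hx : AnalyticAt ℂ x z0) (hy : AnalyticAt ℂ y z0)
    (hx0 : ¬ ∀ᶠ z in 𝓝 z0, x z = 0) (hy0 : ¬ ∀ᶠ z in 𝓝 z0, y z = 0)
    (hx1 : ∀ᶠ z in 𝓝[≠] z0, ‖x z‖ < 1) (hy1 : ∀ᶠ z in 𝓝[≠] z0, ‖y z‖ < 1)
    (hm : ∀ᶠ z in 𝓝[≠] z0, ContinuousAt m z)
    (hsl : ∀ᶠ z in 𝓝[≠] z0, IsSlope T (x z) (y z) (m z)) :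
    ∃ k ∈ K, ∃ b ∈ Bs k, ∃ s t : ℂ → ℂ, AnalyticAt ℂ s z0 ∧ AnalyticAt ℂ t z0 ∧
      ‖s z0‖ ≤ 1 ∧ ‖t z0‖ ≤ 1 ∧ (∀ᶠ z in 𝓝 z0, mono b.1 b.2 (s z, t z) = (x z, y z)) ∧
      ∀ᶠ z in 𝓝[≠] z0, s z ≠ 0 ∧ t z ≠ 0 ∧ Tt T k b.1 b.2 (s z, t z) = m z := by
  classical
  obtain ⟨α, g, hg, hxg⟩ := exists_pow_exp hx hx0
  obtain ⟨β, h, hh, hyh⟩ := exists_pow_exp hy hy0
  -- a good radius
  have hgood : ∀ᶠ z in 𝓝 z0, AnalyticAt ℂ g z ∧ AnalyticAt ℂ h z ∧
      x z = (z - z0) ^ α * exp (g z) ∧ y z = (z - z0) ^ β * exp (h z) ∧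
      (z ≠ z0 → ‖x z‖ < 1 ∧ ‖y z‖ < 1 ∧ ContinuousAt m z ∧ IsSlope T (x z) (y z) (m z)) := by
    filter_upwards [hg.eventually_analyticAt, hh.eventually_analyticAt, hxg, hyh,
      eventually_nhdsWithin_iff.1 hx1, eventually_nhdsWithin_iff.1 hy1,
      eventually_nhdsWithin_iff.1 hm, eventually_nhdsWithin_iff.1 hsl] with
      z a1 a2 a3 a4 a5 a6 a7 a8
    exact ⟨a1, a2, a3, a4, fun hz => ⟨a5 hz, a6 hz, a7 hz, a8 hz⟩⟩
  obtain ⟨r, hr, hball⟩ := Metric.eventually_nhds_iff_ball.1 hgood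
  -- the half plane
  set S : Set ℂ := {ζ | ζ.re < Real.log r} with hSdef
  have hSconv : Convex ℝ S := convex_halfSpace_re_lt _
  have hSmem : ∀ ζ ∈ S, z0 + exp ζ ∈ Metric.ball z0 r ∧ z0 + exp ζ ≠ z0 := by
    intro ζ hζ
    constructor
    · rw [Metric.mem_ball, dist_eq_norm, add_sub_cancel_left, Complex.norm_exp]
      calc Real.exp ζ.re < Real.exp (Real.log r) := Real.exp_lt_exp.2 hζ
        _ = r := Real.exp_log hr
    · simp [exp_ne_zero]
  have hSne : S.Nonempty := ⟨((Real.log r - 1 : ℝ) : ℂ), by simp [hSdef]⟩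
  let P : ℂ → ℂ × ℂ := fun ζ => (α * ζ + g (z0 + exp ζ), β * ζ + h (z0 + exp ζ))
  have hPexp : ∀ ζ ∈ S, exp (P ζ).1 = x (z0 + exp ζ) ∧ exp (P ζ).2 = y (z0 + exp ζ) := by
    intro ζ hζ
    obtain ⟨h1, h2⟩ := hSmem ζ hζ
    obtain ⟨-, -, h3, h4, -⟩ := hball _ h1
    constructor
    · rw [h3, add_sub_cancel_left]
      simp only [P]
      rw [exp_add, exp_nat_mul]
    · rw [h4, add_sub_cancel_left]
      simp only [P]
      rw [exp_add, exp_nat_mul]
  have hPHH : ∀ ζ ∈ S, P ζ ∈ HH := by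
    intro ζ hζ
    obtain ⟨h1, h2⟩ := hSmem ζ hζ
    obtain ⟨-, -, -, -, h5⟩ := hball _ h1
    obtain ⟨h6, h7, -, -⟩ := h5 h2
    obtain ⟨e1, e2⟩ := hPexp ζ hζ
    exact mem_HH_of_exp (e1 ▸ h6) (e2 ▸ h7)
  have hPcont : ContinuousOn P S := by
    intro ζ hζ
    obtain ⟨h1, h2⟩ := hSmem ζ hζ
    obtain ⟨a1, a2, -, -, -⟩ := hball _ h1
    have c0 : ContinuousAt (fun ζ => z0 + exp ζ) ζ := by fun_prop
    have c1 : ContinuousAt (fun ζ => g (z0 + exp ζ)) ζ :=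
      ContinuousAt.comp (f := fun ζ => z0 + exp ζ) (g := g) a1.continuousAt c0
    have c2 : ContinuousAt (fun ζ => h (z0 + exp ζ)) ζ :=
      ContinuousAt.comp (f := fun ζ => z0 + exp ζ) (g := h) a2.continuousAt c0
    exact (((continuousAt_const.mul continuousAt_id).add c1).prodMk
      ((continuousAt_const.mul continuousAt_id).add c2)).continuousWithinAt
  have hMcont : ContinuousOn (fun ζ => m (z0 + exp ζ)) S := by
    intro ζ hζ
    obtain ⟨h1, h2⟩ := hSmem ζ hζ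
    obtain ⟨-, -, -, -, h5⟩ := hball _ h1
    have c0 : ContinuousAt (fun ζ => z0 + exp ζ) ζ := by fun_prop
    exact (ContinuousAt.comp (f := fun ζ => z0 + exp ζ) (g := m)
      (h5 h2).2.2.1 c0).continuousWithinAt
  obtain ⟨j, hj⟩ := constant_branch (S := S) hSconv.isPreconnected hSne
    (F := fun j ζ => T j (P ζ)) (M := fun ζ => m (z0 + exp ζ))
    (fun j => (hT.cont j).comp hPcont hPHH) hMcont
    (fun ζ hζ j k hjk => hT.ne _ (hPHH ζ hζ) j k hjk) (by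
      intro ζ hζ
      obtain ⟨h1, h2⟩ := hSmem ζ hζ
      obtain ⟨-, -, -, -, h5⟩ := hball _ h1
      obtain ⟨i, P', hP', q1, q2, q3⟩ := (h5 h2).2.2.2
      obtain ⟨n, hn⟩ := exists_shift (P := P') (P' := P ζ)
        (q1.trans (hPexp ζ hζ).1.symm) (q2.trans (hPexp ζ hζ).2.symm)
      obtain ⟨i', hi'⟩ := hT.perm n i
      refine ⟨i', ?_⟩
      show T i' (P ζ) = m (z0 + exp ζ)
      rw [← hi' _ (hPHH ζ hζ), ← hn, q3])
  obtain ⟨k, hk, n, hn⟩ := hK j
  -- corrected logarithms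
  let P2 : ℂ → ℂ × ℂ := fun ζ => shift n (P ζ)
  have hP2 : ∀ ζ ∈ S, P2 ζ ∈ HH := fun ζ hζ => shift_mem (hPHH ζ hζ)
  have hTP2 : ∀ ζ ∈ S, T k (P2 ζ) = m (z0 + exp ζ) := by
    intro ζ hζ
    have h0 : T j (P ζ) = m (z0 + exp ζ) := hj ζ hζ
    rw [← h0, hn _ (hPHH ζ hζ)]
  have hper : ∀ P' ∈ HH, T k (shift ((α : ℤ), (β : ℤ)) P') = T k P' := by
    obtain ⟨ζ, hζ⟩ := hSne
    have hζ' : ζ + 2 * Real.pi * I ∈ S := by
      simpa [hSdef] using hζ
    have e0 : exp (ζ + 2 * Real.pi * I) = exp ζ := by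
      have := exp_add_int ζ 1
      simpa using this
    have e1 : P2 (ζ + 2 * Real.pi * I) = shift ((α : ℤ), (β : ℤ)) (P2 ζ) := by
      simp only [P2, P, e0, shift]
      ext <;> push_cast <;> ring
    apply hT.period (hP2 ζ hζ)
    rw [← e1, hTP2 _ hζ', hTP2 _ hζ, e0]
  -- charts
  have hchart : ∀ b ∈ Bs k, ∃ (a c : ℤ) (G H : ℂ → ℂ), AnalyticAt ℂ G z0 ∧ AnalyticAt ℂ H z0 ∧
      ∀ z ∈ Metric.ball z0 r, z ≠ z0 →
        mono b.1 b.2 ((z - z0) ^ a * exp (G z), (z - z0) ^ c * exp (H z)) = (x z, y z) ∧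
        Tt T k b.1 b.2 ((z - z0) ^ a * exp (G z), (z - z0) ^ c * exp (H z)) = m z := by
    intro b hb
    have hbb := hB k hk b hb
    obtain ⟨a, c, ha, hc⟩ := (hbb.mem ((α : ℤ), (β : ℤ))).1 hper
    simp only at ha hc
    set d : ℂ := (b.1.1 : ℂ) * b.2.2 - b.1.2 * b.2.1 with hd
    let g' : ℂ → ℂ := fun z => g z + n.1 * (2 * Real.pi * I)
    let h' : ℂ → ℂ := fun z => h z + n.2 * (2 * Real.pi * I)
    have hg' : AnalyticAt ℂ g' z0 := hg.add analyticAt_const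
    have hh' : AnalyticAt ℂ h' z0 := hh.add analyticAt_const
    refine ⟨a, c, fun z => ((b.2.2 : ℂ) * g' z - b.2.1 * h' z) / d,
      fun z => ((b.1.1 : ℂ) * h' z - b.1.2 * g' z) / d, ?_, ?_, ?_⟩
    · have hdne : d ≠ 0 := by rw [hd]; exact_mod_cast hbb.det
      exact ((analyticAt_const.mul hg').sub (analyticAt_const.mul hh')).div analyticAt_const hdne
    · have hdne : d ≠ 0 := by rw [hd]; exact_mod_cast hbb.det
      exact ((analyticAt_const.mul hh').sub (analyticAt_const.mul hg')).div analyticAt_const hdne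
    · intro z hz hzne
      have hsub : z - z0 ≠ 0 := sub_ne_zero.2 hzne
      set ζ := log (z - z0) with hζdef
      have hez : exp ζ = z - z0 := exp_log hsub
      have hzz : z0 + exp ζ = z := by rw [hez]; ring
      have hζ : ζ ∈ S := by
        show (log (z - z0)).re < Real.log r
        rw [Complex.log_re]
        apply Real.log_lt_log (norm_pos_iff.2 hsub)
        rwa [Metric.mem_ball, dist_eq_norm] at hz
      set Q : ℂ × ℂ := (a * ζ + ((b.2.2 : ℂ) * g' z - b.2.1 * h' z) / d,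
        c * ζ + ((b.1.1 : ℂ) * h' z - b.1.2 * g' z) / d) with hQ
      have hlin : lin b.1 b.2 Q = P2 ζ := by
        have key := exists_lin hbb.det (g' z, h' z)
        have k1 := congrArg Prod.fst key
        have k2 := congrArg Prod.snd key
        simp only [lin, ← hd] at k1 k2
        have haC : (α : ℂ) = a * b.1.1 + c * b.2.1 := by exact_mod_cast ha
        have hcC : (β : ℂ) = a * b.1.2 + c * b.2.2 := by exact_mod_cast hc
        have f1 : (P2 ζ).1 = α * ζ + g' z := by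
          simp only [P2, P, shift, g', hzz]; ring
        have f2 : (P2 ζ).2 = β * ζ + h' z := by
          simp only [P2, P, shift, h', hzz]; ring
        ext
        · rw [f1, haC, ← k1]
          simp only [lin, hQ]; ring
        · rw [f2, hcC, ← k2]
          simp only [lin, hQ]; ring
      have hs : (z - z0) ^ a * exp (((b.2.2 : ℂ) * g' z - b.2.1 * h' z) / d) = exp Q.1 := by
        simp only [hQ]
        rw [exp_add, ← hez, ← exp_int_mul]
      have ht : (z - z0) ^ c * exp (((b.1.1 : ℂ) * h' z - b.1.2 * g' z) / d) = exp Q.2 := by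
        simp only [hQ]
        rw [exp_add, ← hez, ← exp_int_mul]
      have hP2z : P2 ζ ∈ HH := hP2 ζ hζ
      constructor
      · simp only [hs, ht, mono]
        have e1 := (hPexp ζ hζ).1
        have e2 := (hPexp ζ hζ).2
        rw [hzz] at e1 e2
        ext
        · show exp Q.1 ^ b.1.1 * exp Q.2 ^ b.2.1 = x z
          rw [← exp_lin_fst, hlin]
          simp only [P2]
          rw [exp_shift_fst, e1]
        · show exp Q.1 ^ b.1.2 * exp Q.2 ^ b.2.2 = y z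
          rw [← exp_lin_snd, hlin]
          simp only [P2]
          rw [exp_shift_snd, e2]
      · simp only [hs, ht]
        rw [Tt_exp hbb (by rw [hlin]; exact hP2z), hlin, hTP2 ζ hζ, hzz]
  choose! a c G H hG hH hch using hchart
  -- one chart is good infinitely often
  have hfreq : ∃ b ∈ Bs k, ∃ᶠ z in 𝓝[≠] z0,
      ‖(z - z0) ^ a b * exp (G b z)‖ ≤ 1 ∧ ‖(z - z0) ^ c b * exp (H b z)‖ ≤ 1 := by
    by_contra hcon
    have hall : ∀ᶠ z in 𝓝[≠] z0, ∀ b ∈ Bs k,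
        ¬ (‖(z - z0) ^ a b * exp (G b z)‖ ≤ 1 ∧ ‖(z - z0) ^ c b * exp (H b z)‖ ≤ 1) := by
      rw [Filter.eventually_all_finset]
      intro b hb
      exact Filter.not_frequently.1 fun hfr => hcon ⟨b, hb, hfr⟩
    have hmem : ∀ᶠ z in 𝓝[≠] z0, z ∈ Metric.ball z0 r ∧ z ≠ z0 :=
      (eventually_nhdsWithin_of_eventually_nhds (Metric.ball_mem_nhds z0 hr)).and
        self_mem_nhdsWithin
    obtain ⟨z, hz1, hz2, hz3⟩ := (hall.and hmem).exists
    have hsub : z - z0 ≠ 0 := sub_ne_zero.2 hz3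
    obtain ⟨-, -, e3, e4, e5⟩ := hball z hz2
    obtain ⟨e6, e7, -, -⟩ := e5 hz3
    have hxne : x z ≠ 0 := by rw [e3]; exact mul_ne_zero (pow_ne_zero _ hsub) (exp_ne_zero _)
    have hyne : y z ≠ 0 := by rw [e4]; exact mul_ne_zero (pow_ne_zero _ hsub) (exp_ne_zero _)
    obtain ⟨b, hb, l, l', hl, hl', q1, q2⟩ := hcov k hk (-Real.log ‖x z‖) (-Real.log ‖y z‖)
      (by simpa using Real.log_nonpos (norm_nonneg _) e6.le)
      (by simpa using Real.log_nonpos (norm_nonneg _) e7.le)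
    apply hz1 b hb
    obtain ⟨hmo, -⟩ := hch b hb z hz2 hz3
    set s := (z - z0) ^ a b * exp (G b z) with hs
    set t := (z - z0) ^ c b * exp (H b z) with ht
    have hsne : s ≠ 0 := mul_ne_zero (zpow_ne_zero _ hsub) (exp_ne_zero _)
    have htne : t ≠ 0 := mul_ne_zero (zpow_ne_zero _ hsub) (exp_ne_zero _)
    have m1 : s ^ b.1.1 * t ^ b.2.1 = x z := congrArg Prod.fst hmo
    have m2 : s ^ b.1.2 * t ^ b.2.2 = y z := congrArg Prod.snd hmo
    have l1 : Real.log ‖x z‖ = b.1.1 * Real.log ‖s‖ + b.2.1 * Real.log ‖t‖ := by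
      rw [← m1, norm_mul, norm_pow, norm_pow,
        Real.log_mul (pow_ne_zero _ (norm_ne_zero_iff.2 hsne))
          (pow_ne_zero _ (norm_ne_zero_iff.2 htne)), Real.log_pow, Real.log_pow]
    have l2 : Real.log ‖y z‖ = b.1.2 * Real.log ‖s‖ + b.2.2 * Real.log ‖t‖ := by
      rw [← m2, norm_mul, norm_pow, norm_pow,
        Real.log_mul (pow_ne_zero _ (norm_ne_zero_iff.2 hsne))
          (pow_ne_zero _ (norm_ne_zero_iff.2 htne)), Real.log_pow, Real.log_pow]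
    have hdet : (b.1.1 : ℝ) * b.2.2 - b.1.2 * b.2.1 ≠ 0 := by
      exact_mod_cast (hB k hk b hb).det
    rw [l1] at q1
    rw [l2] at q2
    have r1 : -Real.log ‖s‖ = l := by
      apply mul_left_cancel₀ hdet
      linear_combination (b.2.2 : ℝ) * q1 - (b.2.1 : ℝ) * q2
    have r2 : -Real.log ‖t‖ = l' := by
      apply mul_left_cancel₀ hdet
      linear_combination (b.1.1 : ℝ) * q2 - (b.1.2 : ℝ) * q1
    constructor
    · by_contra hgt
      rw [not_le] at hgt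
      have := Real.log_pos hgt
      linarith
    · by_contra hgt
      rw [not_le] at hgt
      have := Real.log_pos hgt
      linarith
  obtain ⟨b, hb, hfr⟩ := hfreq
  have ha0 : 0 ≤ a b := zpow_bounded (hG b hb) (hfr.mono fun z hz => hz.1)
  have hc0 : 0 ≤ c b := zpow_bounded (hH b hb) (hfr.mono fun z hz => hz.2)
  obtain ⟨a', ha'⟩ := Int.eq_ofNat_of_zero_le ha0
  obtain ⟨c', hc'⟩ := Int.eq_ofNat_of_zero_le hc0
  have hsA : AnalyticAt ℂ (fun z => (z - z0) ^ a' * exp (G b z)) z0 :=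
    ((analyticAt_id.sub analyticAt_const).pow _).mul (hG b hb).cexp
  have htA : AnalyticAt ℂ (fun z => (z - z0) ^ c' * exp (H b z)) z0 :=
    ((analyticAt_id.sub analyticAt_const).pow _).mul (hH b hb).cexp
  have hfr' : ∃ᶠ z in 𝓝[≠] z0,
      ‖(z - z0) ^ a' * exp (G b z)‖ ≤ 1 ∧ ‖(z - z0) ^ c' * exp (H b z)‖ ≤ 1 := by
    refine hfr.mono fun z hz => ?_
    rw [ha', hc'] at hz
    simpa using hz
  have hpun : ∀ᶠ z in 𝓝[≠] z0, z ∈ Metric.ball z0 r ∧ z ≠ z0 :=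
    (eventually_nhdsWithin_of_eventually_nhds (Metric.ball_mem_nhds z0 hr)).and
      self_mem_nhdsWithin
  have hmn : ∀ᶠ z in 𝓝[≠] z0, mono b.1 b.2 ((z - z0) ^ a' * exp (G b z),
      (z - z0) ^ c' * exp (H b z)) = (x z, y z) ∧
      Tt T k b.1 b.2 ((z - z0) ^ a' * exp (G b z), (z - z0) ^ c' * exp (H b z)) = m z := by
    filter_upwards [hpun] with z hz
    have := hch b hb z hz.1 hz.2
    rw [ha', hc'] at this
    simpa using this
  refine ⟨k, hk, b, hb, fun z => (z - z0) ^ a' * exp (G b z),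
    fun z => (z - z0) ^ c' * exp (H b z), hsA, htA, ?_, ?_, ?_, ?_⟩
  · have : IsClosed {w : ℂ | ‖w‖ ≤ 1} := isClosed_le continuous_norm continuous_const
    exact this.mem_of_frequently_of_tendsto (hfr'.mono fun z hz => hz.1)
      (hsA.continuousAt.tendsto.mono_left nhdsWithin_le_nhds)
  · have : IsClosed {w : ℂ | ‖w‖ ≤ 1} := isClosed_le continuous_norm continuous_const
    exact this.mem_of_frequently_of_tendsto (hfr'.mono fun z hz => hz.2)
      (htA.continuousAt.tendsto.mono_left nhdsWithin_le_nhds)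
  · have h1 : ∀ᶠ z in 𝓝 z0, (fun z => ((z - z0) ^ a' * exp (G b z)) ^ b.1.1 *
        ((z - z0) ^ c' * exp (H b z)) ^ b.2.1) z = x z := by
      apply (AnalyticAt.frequently_eq_iff_eventually_eq ((hsA.pow _).mul (htA.pow _)) hx).1
      exact (hmn.mono fun z hz => congrArg Prod.fst hz.1).frequently
    have h2 : ∀ᶠ z in 𝓝 z0, (fun z => ((z - z0) ^ a' * exp (G b z)) ^ b.1.2 *
        ((z - z0) ^ c' * exp (H b z)) ^ b.2.2) z = y z := by
      apply (AnalyticAt.frequently_eq_iff_eventually_eq ((hsA.pow _).mul (htA.pow _)) hy).1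
      exact (hmn.mono fun z hz => congrArg Prod.snd hz.1).frequently
    filter_upwards [h1, h2] with z e1 e2
    exact Prod.ext e1 e2
  · filter_upwards [hmn, hpun] with z hz hz2
    have hsub : z - z0 ≠ 0 := sub_ne_zero.2 hz2.2
    exact ⟨mul_ne_zero (pow_ne_zero _ hsub) (exp_ne_zero _),
      mul_ne_zero (pow_ne_zero _ hsub) (exp_ne_zero _), hz.2⟩

end Pool.Agent.MQ3
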