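import Pool.Agent.MQ3.LiftB

/-!
The local lifts for a web box.
-/

namespace Pool.Agent.MQ3

open Complex Set Filter Topology

variable {p : ℕ} {T : Fin p → ℂ × ℂ → ℂ} {a b : Equiv.Perm (Fin p)}

lemma shift_eq (n : ℤ × ℤ) (v : ℂ × ℂ) : shift n v = v + per n.1 n.2 := by
  ext <;> simp [shift, per]

theorem WebBox.roots (h : WebBox p T a b) : Roots T where
  cont j := fun v hv => (h.an j v hv).continuousAt.continuousWithinAt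
  ne P hP j k hjk := fun e => hjk (h.inj P hP j k e)
  perm n j := ⟨(a ^ n.1 * b ^ n.2) j, fun P hP => by rw [shift_eq]; exact h.mon j hP _ _⟩

/-- `w`, `w'` is a basis of the lattice `L`. -/
structure IsBas (L : AddSubgroup (ℤ × ℤ)) (w w' : ℕ × ℕ) : Prop where
  det : (w.1 : ℤ) * w'.2 - w.2 * w'.1 ≠ 0
  mem : ∀ n : ℤ × ℤ, n ∈ L ↔ ∃ i j : ℤ, n.1 = i * w.1 + j * w'.1 ∧ n.2 = i * w.2 + j * w'.2

theorem WebBox.mem_stab_iff (h : WebBox p T a b) {k : Fin p} {n : ℤ × ℤ} :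
    n ∈ stab a b h.comm k ↔ ∀ P ∈ HH, T k (shift n P) = T k P := by
  rw [mem_stab]
  constructor
  · intro hn P hP
    rw [shift_eq, h.mon k hP, hn]
  · intro hn
    refine h.inj _ HH_mem _ _ ?_
    rw [← h.mon k HH_mem, ← shift_eq, hn _ HH_mem]

theorem WebBox.latBasis (h : WebBox p T a b) {k : Fin p} {w w' : ℕ × ℕ}
    (hb : IsBas (stab a b h.comm k) w w') : LatBasis T k w w' where
  det := hb.det
  mem n := by rw [← h.mem_stab_iff, hb.mem]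

/-- The bases cover the quadrant. -/
def Covers (F : Finset ((ℕ × ℕ) × (ℕ × ℕ))) : Prop :=
  ∀ A B : ℝ, 0 ≤ A → 0 ≤ B → ∃ c ∈ F, ∃ l l' : ℝ, 0 ≤ l ∧ 0 ≤ l' ∧
    A = l * c.1.1 + l' * c.2.1 ∧ B = l * c.1.2 + l' * c.2.2

/-- Local lifts of a curve in a web box, at every point. -/
theorem WebBox.exists_lift (h : WebBox p T a b) {K : Finset (Fin p)}
    {Bs : Fin p → Finset ((ℕ × ℕ) × (ℕ × ℕ))}
    (hK : ∀ j, ∃ k ∈ K, ∃ n : ℤ × ℤ, (a ^ n.1 * b ^ n.2) k = j)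
    (hB : ∀ k ∈ K, ∀ c ∈ Bs k, IsBas (stab a b h.comm k) c.1 c.2)
    (hcov : ∀ k ∈ K, Covers (Bs k))
    {x y m : ℂ → ℂ} {z0 : ℂ} (hx : AnalyticAt ℂ x z0) (hy : AnalyticAt ℂ y z0)
    (hx0 : ¬ ∀ᶠ z in 𝓝 z0, x z = 0) (hy0 : ¬ ∀ᶠ z in 𝓝 z0, y z = 0)
    (hx1 : ∀ᶠ z in 𝓝[≠] z0, ‖x z‖ < 1) (hy1 : ∀ᶠ z in 𝓝[≠] z0, ‖y z‖ < 1)
    (hm : ∀ᶠ z in 𝓝[≠] z0, ContinuousAt m z)
    (hsl : ∀ᶠ z in 𝓝[≠] z0, IsSlope T (x z) (y z) (m z)) :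
    ∃ k ∈ K, ∃ c ∈ Bs k, ∃ s t : ℂ → ℂ, AnalyticAt ℂ s z0 ∧ AnalyticAt ℂ t z0 ∧
      ‖s z0‖ ≤ 1 ∧ ‖t z0‖ ≤ 1 ∧ (∀ᶠ z in 𝓝 z0, mono c.1 c.2 (s z, t z) = (x z, y z)) ∧
      ∀ᶠ z in 𝓝[≠] z0, s z ≠ 0 ∧ t z ≠ 0 ∧ Tt T k c.1 c.2 (s z, t z) = m z := by
  refine Pool.Agent.MQ3.exists_lift h.roots K Bs ?_ (fun k hk c hc => h.latBasis (hB k hk c hc))
    (fun k hk => hcov k hk) hx hy hx0 hy0 hx1 hy1 hm hsl
  intro j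
  obtain ⟨k, hk, n, hn⟩ := hK j
  refine ⟨k, hk, n, fun P hP => ?_⟩
  rw [shift_eq, h.mon k hP, hn]

theorem WebBox.lift_unique (h : WebBox p T a b) {k : Fin p} {w w' : ℕ × ℕ}
    (hb : IsBas (stab a b h.comm k) w w')
    {q q' : ℂ × ℂ} (h1 : q.1 ≠ 0) (h2 : q.2 ≠ 0) (h1' : q'.1 ≠ 0) (h2' : q'.2 ≠ 0)
    (h3 : ‖(mono w w' q).1‖ < 1) (h4 : ‖(mono w w' q).2‖ < 1)
    (hm : mono w w' q = mono w w' q') (ht : Tt T k w w' q = Tt T k w w' q') : q = q' :=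
  Pool.Agent.MQ3.lift_unique h.roots (h.latBasis hb) h1 h2 h1' h2' h3 h4 hm ht

/-- Two analytic lifts at a point, equal root: they coincide. -/
theorem WebBox.lift_unique_germ (h : WebBox p T a b) {k : Fin p} {w w' : ℕ × ℕ}
    (hb : IsBas (stab a b h.comm k) w w')
    {s t s' t' : ℂ → ℂ} {z0 : ℂ} (hs : AnalyticAt ℂ s z0) (ht : AnalyticAt ℂ t z0)
    (hs' : AnalyticAt ℂ s' z0) (ht' : AnalyticAt ℂ t' z0)
    (hne : ∀ᶠ z in 𝓝[≠] z0, s z ≠ 0 ∧ t z ≠ 0 ∧ s' z ≠ 0 ∧ t' z ≠ 0)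
    (hlt : ∀ᶠ z in 𝓝[≠] z0, ‖(mono w w' (s z, t z)).1‖ < 1 ∧ ‖(mono w w' (s z, t z)).2‖ < 1)
    (hm : ∀ᶠ z in 𝓝[≠] z0, mono w w' (s z, t z) = mono w w' (s' z, t' z))
    (hT : ∀ᶠ z in 𝓝[≠] z0, Tt T k w w' (s z, t z) = Tt T k w w' (s' z, t' z)) :
    (∀ᶠ z in 𝓝 z0, s z = s' z) ∧ ∀ᶠ z in 𝓝 z0, t z = t' z := by
  have key : ∀ᶠ z in 𝓝[≠] z0, (s z, t z) = (s' z, t' z) := by
    filter_upwards [hne, hlt, hm, hT] with z e1 e2 e3 e4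
    exact h.lift_unique hb (q := (s z, t z)) (q' := (s' z, t' z)) e1.1 e1.2.1 e1.2.2.1
      e1.2.2.2 e2.1 e2.2 e3 e4
  constructor
  · exact (hs.frequently_eq_iff_eventually_eq hs').1
      (key.mono fun z hz => congrArg Prod.fst hz).frequently
  · exact (ht.frequently_eq_iff_eventually_eq ht').1
      (key.mono fun z hz => congrArg Prod.snd hz).frequently

end Pool.Agent.MQ3
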