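import Mathlib

/-!
# MQ3 WebBox: the sheets of a web over the product of two half planes
-/

set_option autoImplicit false

open Topology Filter

noncomputable section

namespace Pool.Agent.MQ3

/-- the product of two left half planes -/
def HH : Set (ℂ × ℂ) := {v | v.1.re < 0 ∧ v.2.re < 0}

/-- the period vector -/
def per (u v : ℤ) : ℂ × ℂ := (u * (2 * Real.pi * Complex.I), v * (2 * Real.pi * Complex.I))

/-- the sheets (holomorphic functions on `HH` with distinct values) and their monodromy -/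
structure WebBox (p : ℕ) (T : Fin p → ℂ × ℂ → ℂ) (a b : Equiv.Perm (Fin p)) : Prop where
  an : ∀ k, ∀ v ∈ HH, AnalyticAt ℂ (T k) v
  inj : ∀ v ∈ HH, ∀ i j, T i v = T j v → i = j
  mon₁ : ∀ k, ∀ v ∈ HH, T k (v + per 1 0) = T (a k) v
  mon₂ : ∀ k, ∀ v ∈ HH, T k (v + per 0 1) = T (b k) v

variable {p : ℕ} {T : Fin p → ℂ × ℂ → ℂ} {a b : Equiv.Perm (Fin p)}

theorem two_pi_I_re (n : ℤ) : ((n : ℂ) * (2 * Real.pi * Complex.I)).re = 0 := by
  have h : ((n : ℂ) * (2 * Real.pi * Complex.I)) = (((n : ℝ) * (2 * Real.pi) : ℝ) : ℂ) * Complex.I := by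
    push_cast
    ring
  rw [h, Complex.re_ofReal_mul, Complex.I_re, mul_zero]

theorem HH_add_per {v : ℂ × ℂ} (hv : v ∈ HH) (m n : ℤ) : v + per m n ∈ HH := by
  refine ⟨?_, ?_⟩
  · show (v.1 + (m : ℂ) * (2 * Real.pi * Complex.I)).re < 0
    rw [Complex.add_re, two_pi_I_re, add_zero]
    exact hv.1
  · show (v.2 + (n : ℂ) * (2 * Real.pi * Complex.I)).re < 0
    rw [Complex.add_re, two_pi_I_re, add_zero]
    exact hv.2

theorem per_add (m n m' n' : ℤ) : per (m + m') (n + n') = per m n + per m' n' := by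
  simp only [per, Prod.mk_add_mk]
  push_cast
  ext <;> simp <;> ring

theorem per_zero : per 0 0 = 0 := by
  simp [per]

theorem HH_mem : ((-1 : ℂ), (-1 : ℂ)) ∈ HH := by
  constructor <;> simp

theorem WebBox.comm (h : WebBox p T a b) : Commute a b := by
  refine Equiv.ext fun k => ?_
  refine h.inj _ HH_mem _ _ ?_
  rw [Equiv.Perm.mul_apply, Equiv.Perm.mul_apply]
  have h1 := h.mon₁ (b k) _ HH_mem
  have h2 := h.mon₂ (a k) _ HH_mem
  have h3 := h.mon₁ k _ (HH_add_per HH_mem 0 1)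
  have h4 := h.mon₂ k _ (HH_add_per HH_mem 1 0)
  have h5 : ((-1 : ℂ), (-1 : ℂ)) + per 0 1 + per 1 0 = ((-1 : ℂ), (-1 : ℂ)) + per 1 0 + per 0 1 := by abel
  rw [← h1, ← h2, ← h4, ← h3, h5]

theorem WebBox.mon₁_zpow (h : WebBox p T a b) (n : ℤ) : ∀ (k : Fin p), ∀ v ∈ HH, T k (v + per n 0) = T ((a ^ n) k) v := by
  induction n with
  | zero =>
    intro k v _
    rw [per_zero, add_zero, zpow_zero, Equiv.Perm.one_apply]
  | succ n ih =>
    intro k v hv
    have h1 : v + per ((n : ℤ) + 1) 0 = v + per n 0 + per 1 0 := by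
      rw [add_assoc, ← per_add, add_zero]
    rw [h1, h.mon₁ _ _ (HH_add_per hv _ _), ih _ v hv, zpow_add_one, Equiv.Perm.mul_apply]
  | pred n ih =>
    intro k v hv
    have h1 := h.mon₁ (a⁻¹ k) _ (HH_add_per hv (-(n : ℤ) - 1) 0)
    have h2 : v + per (-(n : ℤ) - 1) 0 + per 1 0 = v + per (-(n : ℤ)) 0 := by
      rw [add_assoc, ← per_add]
      congr 2 <;> ring
    have h0a : a (a⁻¹ k) = k := by rw [← Equiv.Perm.mul_apply, mul_inv_cancel, Equiv.Perm.one_apply]
    rw [h2, h0a, ih _ v hv] at h1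
    rw [← h1, zpow_sub_one, Equiv.Perm.mul_apply]

theorem WebBox.mon₂_zpow (h : WebBox p T a b) (n : ℤ) : ∀ (k : Fin p), ∀ v ∈ HH, T k (v + per 0 n) = T ((b ^ n) k) v := by
  induction n with
  | zero =>
    intro k v _
    rw [per_zero, add_zero, zpow_zero, Equiv.Perm.one_apply]
  | succ n ih =>
    intro k v hv
    have h1 : v + per 0 ((n : ℤ) + 1) = v + per 0 n + per 0 1 := by
      rw [add_assoc, ← per_add, add_zero]
    rw [h1, h.mon₂ _ _ (HH_add_per hv _ _), ih _ v hv, zpow_add_one, Equiv.Perm.mul_apply]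
  | pred n ih =>
    intro k v hv
    have h1 := h.mon₂ (b⁻¹ k) _ (HH_add_per hv 0 (-(n : ℤ) - 1))
    have h2 : v + per 0 (-(n : ℤ) - 1) + per 0 1 = v + per 0 (-(n : ℤ)) := by
      rw [add_assoc, ← per_add]
      congr 2 <;> ring
    have h0a : b (b⁻¹ k) = k := by rw [← Equiv.Perm.mul_apply, mul_inv_cancel, Equiv.Perm.one_apply]
    rw [h2, h0a, ih _ v hv] at h1
    rw [← h1, zpow_sub_one, Equiv.Perm.mul_apply]

theorem WebBox.mon (h : WebBox p T a b) (k : Fin p) {v : ℂ × ℂ} (hv : v ∈ HH) (m n : ℤ) :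
    T k (v + per m n) = T ((a ^ m * b ^ n) k) v := by
  have h1 : v + per m n = v + per m 0 + per 0 n := by
    rw [add_assoc, ← per_add]
    simp
  rw [h1, h.mon₂_zpow n _ _ (HH_add_per hv _ _), h.mon₁_zpow m _ _ hv, Equiv.Perm.mul_apply]

/-- the stabilizer of a sheet -/
def stab (a b : Equiv.Perm (Fin p)) (hab : Commute a b) (k : Fin p) : AddSubgroup (ℤ × ℤ) where
  carrier := {n | (a ^ n.1 * b ^ n.2) k = k}
  zero_mem' := by simp
  add_mem' := by
    intro m n hm hn
    rw [Set.mem_ofPred_eq] at hm hn ⊢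
    have h1 : a ^ (m + n).1 * b ^ (m + n).2 = (a ^ m.1 * b ^ m.2) * (a ^ n.1 * b ^ n.2) := by
      rw [Prod.fst_add, Prod.snd_add, zpow_add, zpow_add]
      have h2 : Commute (b ^ m.2) (a ^ n.1) := (hab.zpow_zpow n.1 m.2).symm
      calc a ^ m.1 * a ^ n.1 * (b ^ m.2 * b ^ n.2) = a ^ m.1 * (a ^ n.1 * b ^ m.2) * b ^ n.2 := by group
        _ = a ^ m.1 * (b ^ m.2 * a ^ n.1) * b ^ n.2 := by rw [h2.eq]
        _ = _ := by group
    rw [h1, Equiv.Perm.mul_apply, hn, hm]
  neg_mem' := by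
    intro m hm
    rw [Set.mem_ofPred_eq] at hm ⊢
    have h1 : a ^ (-m).1 * b ^ (-m).2 = (a ^ m.1 * b ^ m.2)⁻¹ := by
      rw [Prod.fst_neg, Prod.snd_neg, zpow_neg, zpow_neg, mul_inv_rev]
      exact (((hab.zpow_zpow m.1 m.2).inv_inv).eq)
    rw [h1]
    conv_lhs => rw [← hm]
    rw [← Equiv.Perm.mul_apply, inv_mul_cancel, Equiv.Perm.one_apply]

theorem mem_stab {hab : Commute a b} {k : Fin p} {n : ℤ × ℤ} : n ∈ stab a b hab k ↔ (a ^ n.1 * b ^ n.2) k = k := Iff.rfl

/-- the stabilizer has finite index -/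
theorem stab_finiteIndex (hab : Commute a b) (k : Fin p) : (stab a b hab k).FiniteIndex := by
  have h1 : ∀ n : ℤ × ℤ, (Nat.factorial p : ℤ) • n ∈ stab a b hab k := by
    intro n
    rw [mem_stab]
    have h2 : ∀ c : Equiv.Perm (Fin p), ∀ j : ℤ, c ^ ((Nat.factorial p : ℤ) * j) = 1 := by
      intro c j
      have h3 : c ^ Nat.factorial p = 1 := by
        have h4 := pow_card_eq_one' (G := Equiv.Perm (Fin p)) (x := c)
        rwa [Nat.card_perm, Nat.card_eq_fintype_card, Fintype.card_fin] at h4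
      rw [zpow_mul, zpow_natCast, h3, one_zpow]
    rw [Prod.smul_fst, Prod.smul_snd, smul_eq_mul, smul_eq_mul, h2, h2, mul_one, Equiv.Perm.one_apply]
  let φ : Multiplicative (ℤ × ℤ) →* Equiv.Perm (Fin p) :=
    { toFun := fun n => a ^ (Multiplicative.toAdd n).1 * b ^ (Multiplicative.toAdd n).2
      map_one' := by simp
      map_mul' := by
        intro m n
        have h2 : Commute (b ^ (Multiplicative.toAdd m).2) (a ^ (Multiplicative.toAdd n).1) := (hab.zpow_zpow _ _).symm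
        rw [toAdd_mul, Prod.fst_add, Prod.snd_add, zpow_add, zpow_add]
        calc _ = a ^ (Multiplicative.toAdd m).1 * (a ^ (Multiplicative.toAdd n).1 * b ^ (Multiplicative.toAdd m).2) * b ^ (Multiplicative.toAdd n).2 := by group
          _ = a ^ (Multiplicative.toAdd m).1 * (b ^ (Multiplicative.toAdd m).2 * a ^ (Multiplicative.toAdd n).1) * b ^ (Multiplicative.toAdd n).2 := by
            rw [h2.eq]
          _ = _ := by group }
  have h2 : Finite (Multiplicative (ℤ × ℤ) ⧸ φ.ker) := Finite.of_injective _ (QuotientGroup.kerLift_injective φ)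
  have h3 : (φ.ker).FiniteIndex := Subgroup.finiteIndex_of_finite_quotient
  have h4 : AddSubgroup.toSubgroup (stab a b hab k) ≥ φ.ker := by
    intro n hn
    rw [MonoidHom.mem_ker] at hn
    show (a ^ (Multiplicative.toAdd n).1 * b ^ (Multiplicative.toAdd n).2) k = k
    have h5 : φ n = a ^ (Multiplicative.toAdd n).1 * b ^ (Multiplicative.toAdd n).2 := rfl
    rw [← h5, hn, Equiv.Perm.one_apply]
  have h5 : (AddSubgroup.toSubgroup (stab a b hab k)).FiniteIndex := Subgroup.finiteIndex_of_le h4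
  exact ⟨fun h6 => h5.index_ne_zero (by simpa using h6)⟩

/-- a continuous selection of sheets is constant -/
theorem WebBox.index (h : WebBox p T a b) {E : Type*} [TopologicalSpace E] {S : Set E} (hS : IsPreconnected S) (hne : S.Nonempty) {v : E → ℂ × ℂ}
    {Q : E → ℂ} (hv : ContinuousOn v S) (hm : ∀ s ∈ S, v s ∈ HH) (hQ : ContinuousOn Q S) (hr : ∀ s ∈ S, ∃ i, Q s = T i (v s)) :
    ∃ i, ∀ s ∈ S, Q s = T i (v s) := by
  classical
  obtain ⟨s₀, hs₀⟩ := hne
  have hr' : ∀ s : E, ∃ i, s ∈ S → Q s = T i (v s) := by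
    intro s
    by_cases hs : s ∈ S
    · obtain ⟨i, hi⟩ := hr s hs
      exact ⟨i, fun _ => hi⟩
    · obtain ⟨i, -⟩ := hr s₀ hs₀
      exact ⟨i, fun h => absurd h hs⟩
  choose f hf using hr'
  have hc : ContinuousOn f S := by
    intro s hs
    have h1 : ∀ᶠ s' in 𝓝[S] s, f s' = f s := by
      have h2 : ∀ j, j ≠ f s → ∀ᶠ s' in 𝓝[S] s, Q s' ≠ T j (v s') := by
        intro j hj
        have h3 : ContinuousWithinAt (fun s' => Q s' - T j (v s')) S s :=
          (hQ s hs).sub ((h.an j _ (hm s hs)).continuousAt.comp_continuousWithinAt (hv s hs))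
        have h4 : Q s - T j (v s) ≠ 0 := by
          intro h5
          apply hj
          refine h.inj _ (hm s hs) _ _ ?_
          rw [← sub_eq_zero.1 h5, hf s hs]
        filter_upwards [h3.eventually_ne h4] with s' h5 h6
        exact h5 (by rw [h6, sub_self])
      have h3 : ∀ᶠ s' in 𝓝[S] s, ∀ j, j ≠ f s → Q s' ≠ T j (v s') := by
        rw [Filter.eventually_all]
        intro j
        by_cases hj : j = f s
        · exact Eventually.of_forall fun s' h => absurd hj h
        · filter_upwards [h2 j hj] with s' hs' _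
          exact hs'
      filter_upwards [h3, self_mem_nhdsWithin] with s' h4 h5
      by_contra h6
      exact h4 _ h6 (hf s' h5)
    exact (continuousWithinAt_const (b := f s)).congr_of_eventuallyEq h1 rfl
  refine ⟨f s₀, fun s hs => ?_⟩
  rw [← hS.constant hc hs hs₀]
  exact hf s hs

end Pool.Agent.MQ3
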