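import Pool.Agent.TG.Rm
import Pool.Agent.MQ3.WebBox

/-!
# MQ3 Mono: monomial charts (note 4592 (3))

`T` analytic on `H × H` (`H` the left half plane), with the periods `2πi (a, c)` and `2πi (b, d)`.  Then `T (a σ + b τ, c σ + d τ)` is a function
of `(s, t) = (exp σ, exp τ)`, analytic on the product of the punctured unit discs; if `T` is bounded, it extends to the unit bidisc.
-/

set_option autoImplicit false

open Topology Filter Metric Complex

noncomputable section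

namespace Pool.Agent.MQ3

/-- the unit bidisc -/
def DD : Set (ℂ × ℂ) := {p | ‖p.1‖ < 1 ∧ ‖p.2‖ < 1}

/-- the product of two punctured unit discs -/
def DS : Set (ℂ × ℂ) := {p | (p.1 ≠ 0 ∧ ‖p.1‖ < 1) ∧ (p.2 ≠ 0 ∧ ‖p.2‖ < 1)}

/-- the monomial chart -/
def mchart (a b c d : ℕ) (p : ℂ × ℂ) : ℂ × ℂ := (p.1 ^ a * p.2 ^ b, p.1 ^ c * p.2 ^ d)

/-- the monomial chart in logarithmic coordinates -/
def lchart (a b c d : ℕ) (p : ℂ × ℂ) : ℂ × ℂ := (a * p.1 + b * p.2, c * p.1 + d * p.2)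

/-- the exponential of a pair -/
def pexp (p : ℂ × ℂ) : ℂ × ℂ := (exp p.1, exp p.2)

theorem isOpen_HH : IsOpen HH :=
  (isOpen_lt (continuous_re.comp continuous_fst) continuous_const).inter
    (isOpen_lt (continuous_re.comp continuous_snd) continuous_const)

theorem isOpen_DD : IsOpen DD :=
  (isOpen_lt (continuous_norm.comp continuous_fst) continuous_const).inter
    (isOpen_lt (continuous_norm.comp continuous_snd) continuous_const)

theorem isOpen_DS : IsOpen DS := by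
  refine ((isOpen_ne_fun continuous_fst continuous_const).inter (isOpen_lt (continuous_norm.comp continuous_fst) continuous_const)).inter
    ((isOpen_ne_fun continuous_snd continuous_const).inter (isOpen_lt (continuous_norm.comp continuous_snd) continuous_const))

theorem mem_DS {p : ℂ × ℂ} : p ∈ DS ↔ p ∈ DD ∧ p.1 * p.2 ≠ 0 := by
  constructor
  · rintro ⟨⟨h1, h2⟩, h3, h4⟩
    exact ⟨⟨h2, h4⟩, mul_ne_zero h1 h3⟩
  · rintro ⟨⟨h1, h2⟩, h3⟩
    exact ⟨⟨left_ne_zero_of_mul h3, h1⟩, right_ne_zero_of_mul h3, h2⟩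

theorem pexp_mem {p : ℂ × ℂ} (h : p ∈ HH) : pexp p ∈ DS := by
  refine ⟨⟨exp_ne_zero _, ?_⟩, exp_ne_zero _, ?_⟩
  · show ‖exp p.1‖ < 1
    rw [norm_exp, Real.exp_lt_one_iff]
    exact h.1
  · show ‖exp p.2‖ < 1
    rw [norm_exp, Real.exp_lt_one_iff]
    exact h.2

theorem exists_pexp {p : ℂ × ℂ} (h : p ∈ DS) : ∃ q ∈ HH, pexp q = p := by
  have key : ∀ s : ℂ, s ≠ 0 → ‖s‖ < 1 → (log s).re < 0 := by
    intro s h0 h1
    rw [log_re]
    exact Real.log_neg (norm_pos_iff.2 h0) h1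
  exact ⟨(log p.1, log p.2), ⟨key _ h.1.1 h.1.2, key _ h.2.1 h.2.2⟩, Prod.ext (exp_log h.1.1) (exp_log h.2.1)⟩

theorem pexp_lchart (a b c d : ℕ) (p : ℂ × ℂ) : pexp (lchart a b c d p) = mchart a b c d (pexp p) := by
  refine Prod.ext ?_ ?_
  · show exp (a * p.1 + b * p.2) = exp p.1 ^ a * exp p.2 ^ b
    rw [exp_add, exp_nat_mul, exp_nat_mul]
  · show exp (c * p.1 + d * p.2) = exp p.1 ^ c * exp p.2 ^ d
    rw [exp_add, exp_nat_mul, exp_nat_mul]

private theorem re_neg {a b : ℕ} (h : 0 < a + b) {p : ℂ × ℂ} (hp : p ∈ HH) : ((a : ℂ) * p.1 + b * p.2).re < 0 := by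
  have h1 := hp.1
  have h2 := hp.2
  simp only [add_re, mul_re, natCast_re, natCast_im, zero_mul, sub_zero]
  have ha : (0 : ℝ) ≤ a := Nat.cast_nonneg a
  have hb : (0 : ℝ) ≤ b := Nat.cast_nonneg b
  have hab : (0 : ℝ) < a + b := by exact_mod_cast h
  by_cases h0 : (a : ℝ) = 0
  · have : (0 : ℝ) < b := by linarith
    rw [h0, zero_mul, zero_add]
    exact mul_neg_of_pos_of_neg this h2
  · have : (0 : ℝ) < a := lt_of_le_of_ne ha (Ne.symm h0)
    have h3 := mul_neg_of_pos_of_neg this h1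
    have h4 := mul_nonpos_of_nonneg_of_nonpos hb h2.le
    linarith

theorem lchart_mem {a b c d : ℕ} (hab : 0 < a + b) (hcd : 0 < c + d) {p : ℂ × ℂ} (hp : p ∈ HH) : lchart a b c d p ∈ HH :=
  ⟨re_neg hab hp, re_neg hcd hp⟩

theorem mchart_mem {a b c d : ℕ} (hab : 0 < a + b) (hcd : 0 < c + d) {p : ℂ × ℂ} (hp : p ∈ DS) : mchart a b c d p ∈ DS := by
  obtain ⟨q, hq, rfl⟩ := exists_pexp hp
  rw [← pexp_lchart]
  exact pexp_mem (lchart_mem hab hcd hq)

private theorem pow_lt {a b : ℕ} (h : 0 < a + b) {s t : ℂ} (hs : ‖s‖ < 1) (ht : ‖t‖ < 1) : ‖s ^ a * t ^ b‖ < 1 := by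
  rw [norm_mul, norm_pow, norm_pow]
  rcases Nat.eq_zero_or_pos a with h0 | h0
  · subst h0
    rw [pow_zero, one_mul]
    exact pow_lt_one₀ (norm_nonneg _) ht (by omega)
  · have h1 : ‖s‖ ^ a < 1 := pow_lt_one₀ (norm_nonneg _) hs (by omega)
    have h2 : ‖t‖ ^ b ≤ 1 := pow_le_one₀ (norm_nonneg _) ht.le
    calc ‖s‖ ^ a * ‖t‖ ^ b ≤ ‖s‖ ^ a * 1 := by gcongr
      _ < 1 := by rw [mul_one]; exact h1

theorem mchart_mem_DD {a b c d : ℕ} (hab : 0 < a + b) (hcd : 0 < c + d) {p : ℂ × ℂ} (hp : p ∈ DD) : mchart a b c d p ∈ DD :=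
  ⟨pow_lt hab hp.1 hp.2, pow_lt hcd hp.1 hp.2⟩

theorem analyticAt_mchart (a b c d : ℕ) (p : ℂ × ℂ) : AnalyticAt ℂ (mchart a b c d) p :=
  ((analyticAt_fst.pow a).mul (analyticAt_snd.pow b)).prod ((analyticAt_fst.pow c).mul (analyticAt_snd.pow d))

theorem analyticAt_lchart (a b c d : ℕ) (p : ℂ × ℂ) : AnalyticAt ℂ (lchart a b c d) p :=
  ((analyticAt_const.mul analyticAt_fst).add (analyticAt_const.mul analyticAt_snd)).prod
    ((analyticAt_const.mul analyticAt_fst).add (analyticAt_const.mul analyticAt_snd))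

/-- A function on `H × H` with the periods `(2πi, 0)` and `(0, 2πi)` is a function of the exponentials. -/
theorem exists_of_periodic {E : Type*} [NormedAddCommGroup E] [NormedSpace ℂ E] {G : ℂ × ℂ → E} (hG : AnalyticOnNhd ℂ G HH)
    (h1 : ∀ p ∈ HH, G (p.1 + 2 * Real.pi * I, p.2) = G p) (h2 : ∀ p ∈ HH, G (p.1, p.2 + 2 * Real.pi * I) = G p) :
    ∃ B : ℂ × ℂ → E, AnalyticOnNhd ℂ B DS ∧ ∀ p ∈ HH, B (pexp p) = G p := by
  have n1 : ∀ (n : ℕ) (p : ℂ × ℂ), p ∈ HH → G (p.1 + n * (2 * Real.pi * I), p.2) = G p := by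
    intro n
    induction n with
    | zero => intro p _; simp
    | succ n ih =>
      intro p hp
      have hm : ((p.1 + n * (2 * Real.pi * I), p.2) : ℂ × ℂ) ∈ HH := by
        refine ⟨?_, hp.2⟩
        have : (p.1 + n * (2 * Real.pi * I)).re = p.1.re := by simp
        show (p.1 + n * (2 * Real.pi * I)).re < 0
        rw [this]
        exact hp.1
      have := h1 _ hm
      rw [ih p hp] at this
      rw [← this]
      congr 2
      push_cast
      ring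
  have n2 : ∀ (n : ℕ) (p : ℂ × ℂ), p ∈ HH → G (p.1, p.2 + n * (2 * Real.pi * I)) = G p := by
    intro n
    induction n with
    | zero => intro p _; simp
    | succ n ih =>
      intro p hp
      have hm : ((p.1, p.2 + n * (2 * Real.pi * I)) : ℂ × ℂ) ∈ HH := by
        refine ⟨hp.1, ?_⟩
        have : (p.2 + n * (2 * Real.pi * I)).re = p.2.re := by simp
        show (p.2 + n * (2 * Real.pi * I)).re < 0
        rw [this]
        exact hp.2
      have := h2 _ hm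
      rw [ih p hp] at this
      rw [← this]
      congr 2
      push_cast
      ring
  have z1 : ∀ (n : ℤ) (p : ℂ × ℂ), p ∈ HH → G (p.1 + n * (2 * Real.pi * I), p.2) = G p := by
    intro n p hp
    obtain ⟨m, rfl | rfl⟩ := n.eq_nat_or_neg
    · have := n1 m p hp
      simpa using this
    · have hm : ((p.1 + ((-(m : ℤ) : ℤ) : ℂ) * (2 * Real.pi * I), p.2) : ℂ × ℂ) ∈ HH := by
        refine ⟨?_, hp.2⟩
        have : (p.1 + ((-(m : ℤ) : ℤ) : ℂ) * (2 * Real.pi * I)).re = p.1.re := by simp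
        show (p.1 + ((-(m : ℤ) : ℤ) : ℂ) * (2 * Real.pi * I)).re < 0
        rw [this]
        exact hp.1
      have := n1 m _ hm
      rw [← this]
      congr 1
      refine Prod.ext ?_ rfl
      push_cast
      ring
  have z2 : ∀ (n : ℤ) (p : ℂ × ℂ), p ∈ HH → G (p.1, p.2 + n * (2 * Real.pi * I)) = G p := by
    intro n p hp
    obtain ⟨m, rfl | rfl⟩ := n.eq_nat_or_neg
    · have := n2 m p hp
      simpa using this
    · have hm : ((p.1, p.2 + ((-(m : ℤ) : ℤ) : ℂ) * (2 * Real.pi * I)) : ℂ × ℂ) ∈ HH := by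
        refine ⟨hp.1, ?_⟩
        have : (p.2 + ((-(m : ℤ) : ℤ) : ℂ) * (2 * Real.pi * I)).re = p.2.re := by simp
        show (p.2 + ((-(m : ℤ) : ℤ) : ℂ) * (2 * Real.pi * I)).re < 0
        rw [this]
        exact hp.2
      have := n2 m _ hm
      rw [← this]
      congr 1
      refine Prod.ext rfl ?_
      push_cast
      ring
  -- two points of `H × H` with the same exponentials
  have huniq : ∀ p ∈ HH, ∀ q ∈ HH, pexp p = pexp q → G p = G q := by
    intro p hp q hq h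
    have e1 : exp p.1 = exp q.1 := congrArg Prod.fst h
    have e2 : exp p.2 = exp q.2 := congrArg Prod.snd h
    obtain ⟨m, hm⟩ := exp_eq_exp_iff_exists_int.1 e1
    obtain ⟨n, hn⟩ := exp_eq_exp_iff_exists_int.1 e2
    have hmid : ((q.1, p.2) : ℂ × ℂ) ∈ HH := ⟨hq.1, hp.2⟩
    have a1 := z1 m _ hmid
    have a2 := z2 n _ hq
    have b1 : G p = G (q.1, p.2) := by
      rw [← a1]
      congr 1
      exact Prod.ext hm rfl
    rw [b1, ← a2]
    congr 1
    exact Prod.ext rfl hn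
  have hlog : ∀ p ∈ DS, ((log p.1, log p.2) : ℂ × ℂ) ∈ HH ∧ pexp (log p.1, log p.2) = p := by
    intro p hp
    refine ⟨⟨?_, ?_⟩, Prod.ext (exp_log hp.1.1) (exp_log hp.2.1)⟩
    · show (log p.1).re < 0
      rw [log_re]
      exact Real.log_neg (norm_pos_iff.2 hp.1.1) hp.1.2
    · show (log p.2).re < 0
      rw [log_re]
      exact Real.log_neg (norm_pos_iff.2 hp.2.1) hp.2.2
  refine ⟨fun p => G (log p.1, log p.2), ?_, ?_⟩
  · intro p₀ hp₀
    -- a branch of the logarithm near `p₀`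
    have hl1 : AnalyticAt ℂ (fun p : ℂ × ℂ => log (p.1 / p₀.1) + log p₀.1) p₀ := by
      have hs : p₀.1 / p₀.1 ∈ slitPlane := by rw [div_self hp₀.1.1]; exact one_mem_slitPlane
      exact ((analyticAt_fst.div_const).clog hs).add analyticAt_const
    have hl2 : AnalyticAt ℂ (fun p : ℂ × ℂ => log (p.2 / p₀.2) + log p₀.2) p₀ := by
      have hs : p₀.2 / p₀.2 ∈ slitPlane := by rw [div_self hp₀.2.1]; exact one_mem_slitPlane
      exact ((analyticAt_snd.div_const).clog hs).add analyticAt_const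
    have hl := hl1.prod hl2
    have hval : (fun p : ℂ × ℂ => ((log (p.1 / p₀.1) + log p₀.1, log (p.2 / p₀.2) + log p₀.2) : ℂ × ℂ)) p₀ = (log p₀.1, log p₀.2) := by
      simp [div_self hp₀.1.1, div_self hp₀.2.1]
    have hcomp : AnalyticAt ℂ (fun p : ℂ × ℂ => G (log (p.1 / p₀.1) + log p₀.1, log (p.2 / p₀.2) + log p₀.2)) p₀ := by
      refine AnalyticAt.comp (g := G) (f := fun p : ℂ × ℂ => ((log (p.1 / p₀.1) + log p₀.1, log (p.2 / p₀.2) + log p₀.2) : ℂ × ℂ)) ?_ hl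
      have hval' : ((log (p₀.1 / p₀.1) + log p₀.1, log (p₀.2 / p₀.2) + log p₀.2) : ℂ × ℂ) = (log p₀.1, log p₀.2) := hval
      show AnalyticAt ℂ G (log (p₀.1 / p₀.1) + log p₀.1, log (p₀.2 / p₀.2) + log p₀.2)
      rw [hval']
      exact hG _ (hlog p₀ hp₀).1
    refine hcomp.congr ?_
    have hmem : ∀ᶠ p in 𝓝 p₀, p ∈ DS := isOpen_DS.mem_nhds hp₀
    have hmem2 : ∀ᶠ p : ℂ × ℂ in 𝓝 p₀, ((log (p.1 / p₀.1) + log p₀.1, log (p.2 / p₀.2) + log p₀.2) : ℂ × ℂ) ∈ HH := by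
      have := hl.continuousAt.eventually (isOpen_HH.mem_nhds (show _ ∈ HH by rw [hval]; exact (hlog p₀ hp₀).1))
      exact this
    filter_upwards [hmem, hmem2] with p hp hp2
    refine huniq _ hp2 _ (hlog p hp).1 ?_
    rw [(hlog p hp).2]
    refine Prod.ext ?_ ?_
    · show exp (log (p.1 / p₀.1) + log p₀.1) = p.1
      rw [exp_add, exp_log (div_ne_zero hp.1.1 hp₀.1.1), exp_log hp₀.1.1, div_mul_cancel₀ _ hp₀.1.1]
    · show exp (log (p.2 / p₀.2) + log p₀.2) = p.2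
      rw [exp_add, exp_log (div_ne_zero hp.2.1 hp₀.2.1), exp_log hp₀.2.1, div_mul_cancel₀ _ hp₀.2.1]
  · intro p hp
    have hm := hlog _ (pexp_mem hp)
    exact huniq _ hm.1 _ hp hm.2

/-- Riemann's extension theorem on the unit bidisc: a bounded analytic function on the product of the punctured discs extends. -/
theorem exists_ext_DD {B : ℂ × ℂ → ℂ} (hB : AnalyticOnNhd ℂ B DS) {C : ℝ} (hC : ∀ p ∈ DS, ‖B p‖ ≤ C) :
    ∃ B' : ℂ × ℂ → ℂ, AnalyticOnNhd ℂ B' DD ∧ ∀ p ∈ DS, B' p = B p := by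
  have hne : ∀ p : ℂ × ℂ, ∃ᶠ q in 𝓝 p, q.1 * q.2 ≠ 0 := by
    intro p
    have hd : ∀ z : ℂ, ∃ᶠ w in 𝓝 z, w ≠ 0 := by
      intro z
      have h1 : ∃ᶠ w in 𝓝[≠] z, w ≠ 0 := by
        have : ∀ᶠ w in 𝓝[≠] z, w ≠ 0 := by
          by_cases hz : z = 0
          · subst hz; exact eventually_mem_nhdsWithin
          · have h2 : ∀ᶠ w in 𝓝 z, w ≠ 0 := isOpen_ne.mem_nhds hz
            exact h2.filter_mono nhdsWithin_le_nhds
        exact this.frequently
      exact h1.filter_mono nhdsWithin_le_nhds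
    rw [Filter.frequently_iff]
    intro U hU
    rw [nhds_prod_eq, mem_prod_iff] at hU
    obtain ⟨U1, hU1, U2, hU2, hU⟩ := hU
    obtain ⟨x, hx, hx0⟩ := (Filter.frequently_iff.1 (hd p.1)) hU1
    obtain ⟨y, hy, hy0⟩ := (Filter.frequently_iff.1 (hd p.2)) hU2
    exact ⟨(x, y), hU ⟨hx, hy⟩, mul_ne_zero hx0 hy0⟩
  have hloc : ∀ p ∈ DD, ∃ φ : ℂ × ℂ → ℂ, AnalyticAt ℂ φ p ∧ ∀ᶠ q in 𝓝 p, q.1 * q.2 ≠ 0 → φ q = B q := by
    intro p hp
    refine Pool.Agent.TG.riemann_one (h := fun q : ℂ × ℂ => q.1 * q.2) (M := C) (analyticAt_fst.mul analyticAt_snd) ?_ ?_ ?_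
    · intro h
      exact (hne p) (h.mono fun q hq h' => h' hq)
    · filter_upwards [isOpen_DD.mem_nhds hp] with q hq h0
      exact hB q (mem_DS.2 ⟨hq, h0⟩)
    · filter_upwards [isOpen_DD.mem_nhds hp] with q hq h0
      exact hC q (mem_DS.2 ⟨hq, h0⟩)
  choose! φ hφ1 hφ2 using hloc
  have hag : ∀ p ∈ DD, ∀ᶠ q in 𝓝 p, φ q q = φ p q := by
    intro p hp
    have h1 : ∀ᶠ q in 𝓝 p, ∀ᶠ q' in 𝓝 q, q'.1 * q'.2 ≠ 0 → φ p q' = B q' := eventually_eventually_nhds.2 (hφ2 p hp)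
    filter_upwards [h1, (hφ1 p hp).eventually_analyticAt, isOpen_DD.mem_nhds hp] with q hq han hqD
    -- both functions are continuous at `q` and agree off the axes
    have hc1 : ContinuousAt (φ q) q := (hφ1 q hqD).continuousAt
    have hc2 : ContinuousAt (φ p) q := han.continuousAt
    have hev : ∀ᶠ q' in 𝓝 q, q'.1 * q'.2 ≠ 0 → φ q q' = φ p q' := by
      filter_upwards [hq, hφ2 q hqD] with q' h2 h3 h0
      rw [h2 h0, h3 h0]
    by_contra hcon
    have hsub : ∀ᶠ q' in 𝓝 q, φ q q' - φ p q' ≠ 0 :=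
      (hc1.sub hc2).eventually_ne (sub_ne_zero.2 hcon)
    obtain ⟨q', h0, h4, h5⟩ := ((hne q).and_eventually (hev.and hsub)).exists
    exact h5 (sub_eq_zero.2 (h4 h0))
  refine ⟨fun p => φ p p, fun p hp => ?_, fun p hp => ?_⟩
  · refine (hφ1 p hp).congr ?_
    filter_upwards [hag p hp] with q hq using hq.symm
  · have h := mem_DS.1 hp
    exact (hφ2 p h.1).self_of_nhds h.2

/-- MODULE Mono, first form: the function `T`, with the periods `2πi (a, c)` and `2πi (b, d)`, in the monomial chart. -/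
theorem exists_mono {T : ℂ × ℂ → ℂ} (hT : AnalyticOnNhd ℂ T HH) {a b c d : ℕ} (hab : 0 < a + b) (hcd : 0 < c + d)
    (h1 : ∀ p ∈ HH, T (p.1 + a * (2 * Real.pi * I), p.2 + c * (2 * Real.pi * I)) = T p)
    (h2 : ∀ p ∈ HH, T (p.1 + b * (2 * Real.pi * I), p.2 + d * (2 * Real.pi * I)) = T p) :
    ∃ B : ℂ × ℂ → ℂ, AnalyticOnNhd ℂ B DS ∧ ∀ p ∈ HH, B (pexp p) = T (lchart a b c d p) := by
  refine exists_of_periodic (G := fun p => T (lchart a b c d p)) ?_ ?_ ?_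
  · intro p hp
    exact AnalyticAt.comp (g := T) (hT _ (lchart_mem hab hcd hp)) (analyticAt_lchart a b c d p)
  · intro p hp
    have := h1 _ (lchart_mem hab hcd hp)
    rw [← this]
    show T _ = T _
    congr 1
    refine Prod.ext ?_ ?_
    · show (a : ℂ) * (p.1 + 2 * Real.pi * I) + b * p.2 = a * p.1 + b * p.2 + a * (2 * Real.pi * I)
      ring
    · show (c : ℂ) * (p.1 + 2 * Real.pi * I) + d * p.2 = c * p.1 + d * p.2 + c * (2 * Real.pi * I)
      ring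
  · intro p hp
    have := h2 _ (lchart_mem hab hcd hp)
    rw [← this]
    show T _ = T _
    congr 1
    refine Prod.ext ?_ ?_
    · show (a : ℂ) * p.1 + b * (p.2 + 2 * Real.pi * I) = a * p.1 + b * p.2 + b * (2 * Real.pi * I)
      ring
    · show (c : ℂ) * p.1 + d * (p.2 + 2 * Real.pi * I) = c * p.1 + d * p.2 + d * (2 * Real.pi * I)
      ring

/-- MODULE Mono, second form: if `T` is bounded, the function of the chart is analytic on the unit bidisc. -/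
theorem exists_mono_ext {T : ℂ × ℂ → ℂ} (hT : AnalyticOnNhd ℂ T HH) {C : ℝ} (hC : ∀ p ∈ HH, ‖T p‖ ≤ C) {a b c d : ℕ} (hab : 0 < a + b)
    (hcd : 0 < c + d) (h1 : ∀ p ∈ HH, T (p.1 + a * (2 * Real.pi * I), p.2 + c * (2 * Real.pi * I)) = T p)
    (h2 : ∀ p ∈ HH, T (p.1 + b * (2 * Real.pi * I), p.2 + d * (2 * Real.pi * I)) = T p) :
    ∃ B : ℂ × ℂ → ℂ, AnalyticOnNhd ℂ B DD ∧ ∀ p ∈ HH, B (pexp p) = T (lchart a b c d p) := by
  obtain ⟨B, hB, hBT⟩ := exists_mono hT hab hcd h1 h2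
  obtain ⟨B', hB', hBB⟩ := exists_ext_DD (C := C) hB (by
    intro p hp
    obtain ⟨q, hq, rfl⟩ := exists_pexp hp
    rw [hBT q hq]
    exact hC _ (lchart_mem hab hcd hq))
  exact ⟨B', hB', fun p hp => by rw [hBB _ (pexp_mem hp), hBT p hp]⟩

/-- MODULE Mono, third form: if `T` has at most a pole along the axes (order `m`), `(x y) ^ m T` is analytic on the unit bidisc of the chart. -/
theorem exists_mono_pole {T : ℂ × ℂ → ℂ} (hT : AnalyticOnNhd ℂ T HH) {C : ℝ} {m : ℕ} (hC : ∀ p ∈ HH, ‖(exp p.1 * exp p.2) ^ m * T p‖ ≤ C)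
    {a b c d : ℕ} (hab : 0 < a + b) (hcd : 0 < c + d)
    (h1 : ∀ p ∈ HH, T (p.1 + a * (2 * Real.pi * I), p.2 + c * (2 * Real.pi * I)) = T p)
    (h2 : ∀ p ∈ HH, T (p.1 + b * (2 * Real.pi * I), p.2 + d * (2 * Real.pi * I)) = T p) :
    ∃ B : ℂ × ℂ → ℂ, AnalyticOnNhd ℂ B DD ∧ ∀ p ∈ HH, B (pexp p) =
      ((mchart a b c d (pexp p)).1 * (mchart a b c d (pexp p)).2) ^ m * T (lchart a b c d p) := by
  have hper : ∀ (n : ℕ) (z : ℂ), exp (z + n * (2 * Real.pi * I)) = exp z := by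
    intro n z
    rw [exp_add, exp_nat_mul_two_pi_mul_I, mul_one]
  obtain ⟨B, hB, hBT⟩ := exists_mono_ext (T := fun p => (exp p.1 * exp p.2) ^ m * T p) (C := C) (a := a) (b := b) (c := c) (d := d)
    (fun p hp => (((analyticAt_fst.cexp).mul (analyticAt_snd.cexp)).pow m).mul (hT p hp)) hC hab hcd
    (fun p hp => by
      show (exp (p.1 + a * (2 * Real.pi * I)) * exp (p.2 + c * (2 * Real.pi * I))) ^ m * _ = _
      rw [hper, hper, h1 p hp])
    (fun p hp => by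
      show (exp (p.1 + b * (2 * Real.pi * I)) * exp (p.2 + d * (2 * Real.pi * I))) ^ m * _ = _
      rw [hper, hper, h2 p hp])
  refine ⟨B, hB, fun p hp => ?_⟩
  rw [hBT p hp, ← pexp_lchart]
  rfl

/-- two analytic functions on the unit bidisc which agree on the exponentials agree -/
theorem eqOn_DD_of_pexp {B B' : ℂ × ℂ → ℂ} (hB : AnalyticOnNhd ℂ B DD) (hB' : AnalyticOnNhd ℂ B' DD)
    (h : ∀ p ∈ HH, B (pexp p) = B' (pexp p)) : ∀ p ∈ DD, B p = B' p := by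
  intro p hp
  have hcl : p ∈ closure DS := by
    have hd : ∀ z : ℂ, ‖z‖ < 1 → z ∈ closure {w : ℂ | w ≠ 0 ∧ ‖w‖ < 1} := by
      intro z hz
      have h1 : ∃ᶠ w in 𝓝[≠] z, w ≠ 0 ∧ ‖w‖ < 1 := by
        have h2 : ∀ᶠ w in 𝓝[≠] z, w ≠ 0 := by
          by_cases hz : z = 0
          · subst hz; exact eventually_mem_nhdsWithin
          · have h2 : ∀ᶠ w in 𝓝 z, w ≠ 0 := isOpen_ne.mem_nhds hz
            exact h2.filter_mono nhdsWithin_le_nhds
        have h3 : ∀ᶠ w in 𝓝[≠] z, ‖w‖ < 1 :=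
          ((continuous_norm.tendsto z).eventually_lt_const hz).filter_mono nhdsWithin_le_nhds
        exact (h2.and h3).frequently
      exact mem_closure_iff_frequently.2 (h1.filter_mono nhdsWithin_le_nhds)
    have h4 : p ∈ closure ({w : ℂ | w ≠ 0 ∧ ‖w‖ < 1} ×ˢ {w : ℂ | w ≠ 0 ∧ ‖w‖ < 1}) := by
      rw [closure_prod_eq]
      exact ⟨hd _ hp.1, hd _ hp.2⟩
    exact h4
  by_contra hcon
  have hne : ∀ᶠ q in 𝓝 p, B q - B' q ≠ 0 :=
    ((hB p hp).continuousAt.sub (hB' p hp).continuousAt).eventually_ne (sub_ne_zero.2 hcon)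
  obtain ⟨q, hq, hqS⟩ := ((mem_closure_iff_frequently.1 hcl).and_eventually hne).exists
  obtain ⟨r, hr, rfl⟩ := exists_pexp hq
  exact hqS (sub_eq_zero.2 (h r hr))

/-- the derivative of the chart -/
theorem fderiv_mchart (a b c d : ℕ) (p v : ℂ × ℂ) : fderiv ℂ (mchart a b c d) p v =
    (a * p.1 ^ (a - 1) * p.2 ^ b * v.1 + b * p.1 ^ a * p.2 ^ (b - 1) * v.2,
      c * p.1 ^ (c - 1) * p.2 ^ d * v.1 + d * p.1 ^ c * p.2 ^ (d - 1) * v.2) := by
  have hf : HasFDerivAt (fun q : ℂ × ℂ => q.1) (ContinuousLinearMap.fst ℂ ℂ ℂ) p := hasFDerivAt_fst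
  have hs : HasFDerivAt (fun q : ℂ × ℂ => q.2) (ContinuousLinearMap.snd ℂ ℂ ℂ) p := hasFDerivAt_snd
  have h1 := (hf.pow a).mul (hs.pow b)
  have h2 := (hf.pow c).mul (hs.pow d)
  have h3 : HasFDerivAt (mchart a b c d) _ p := h1.prodMk h2
  rw [h3.fderiv]
  refine Prod.ext ?_ ?_
  · simp
    ring
  · simp
    ring

/-- the Jacobian of the chart -/
theorem jac_mchart {a b c d : ℕ} (h : b * c < a * d) (p : ℂ × ℂ) :
    (fderiv ℂ (mchart a b c d) p (1, 0)).1 * (fderiv ℂ (mchart a b c d) p (0, 1)).2 -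
      (fderiv ℂ (mchart a b c d) p (0, 1)).1 * (fderiv ℂ (mchart a b c d) p (1, 0)).2 =
      ((a * d - b * c : ℕ) : ℂ) * p.1 ^ (a + c - 1) * p.2 ^ (b + d - 1) := by
  have ha : 0 < a := Nat.pos_of_ne_zero fun h0 => by subst h0; simp at h
  have hd : 0 < d := Nat.pos_of_ne_zero fun h0 => by subst h0; simp at h
  obtain ⟨a, rfl⟩ : ∃ a', a = a' + 1 := ⟨a - 1, by omega⟩
  obtain ⟨d, rfl⟩ : ∃ d', d = d' + 1 := ⟨d - 1, by omega⟩
  rw [fderiv_mchart, fderiv_mchart, Nat.cast_sub h.le]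
  have e1 : a + 1 + c - 1 = a + c := by omega
  have e2 : b + (d + 1) - 1 = b + d := by omega
  rw [e1, e2]
  simp only [mul_one, mul_zero, add_zero, zero_add, Nat.add_sub_cancel]
  rcases Nat.eq_zero_or_pos b with hb | hb <;> rcases Nat.eq_zero_or_pos c with hc | hc
  · subst hb hc
    push_cast
    ring
  · subst hb
    push_cast
    ring
  · subst hc
    push_cast
    ring
  · obtain ⟨b, rfl⟩ : ∃ b', b = b' + 1 := ⟨b - 1, by omega⟩
    obtain ⟨c, rfl⟩ : ∃ c', c = c' + 1 := ⟨c - 1, by omega⟩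
    simp only [Nat.add_sub_cancel]
    push_cast
    ring

end Pool.Agent.MQ3
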