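import Pool.Agent.MQ3.NC

/-!
# MQ3 NCB: lemma NC at a smooth point of an algebraic curve

`κ` is étale at `P`, `u` is a local equation of the curve downstairs.  The vector `hvB = (d (u κ) v, (u κ) Dκ v)` is `jc κ * g` times a vector without zeros,
where `g = 1` if the curve is transversal to `v` (or `u (κ P) ≠ 0`), and `g = u κ` if it is invariant.
-/

set_option autoImplicit false

open Topology Filter Metric

noncomputable section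

namespace Pool.Agent.MQ3

variable {κ v : ℂ × ℂ → ℂ × ℂ} {u a : ℂ × ℂ → ℂ} {P : ℂ × ℂ}

/-- the canonical vector at a smooth point of the curve `{u = 0}` -/
def hvB (u : ℂ × ℂ → ℂ) (κ v : ℂ × ℂ → ℂ × ℂ) (Q : ℂ × ℂ) : ℂ × (ℂ × ℂ) :=
  (fderiv ℂ (fun q => u (κ q)) Q (v Q), u (κ Q) • fderiv ℂ κ Q (v Q))

theorem analyticAt_hvB (hκ : AnalyticAt ℂ κ P) (hu : AnalyticAt ℂ u (κ P)) (hv : AnalyticAt ℂ v P) : AnalyticAt ℂ (hvB u κ v) P := by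
  have h1 : AnalyticAt ℂ (fun q => u (κ q)) P := hu.fun_comp hκ
  exact (analyticAt_fderiv_app h1 hv).prod (h1.smul (analyticAt_fderiv_app hκ hv))

theorem hvB_ne (hJ : jc κ P ≠ 0) (hv : v P ≠ 0) (h : u (κ P) ≠ 0) : hvB u κ v P ≠ 0 := by
  intro h0
  have h1 : u (κ P) • fderiv ℂ κ P (v P) = 0 := congrArg Prod.snd h0
  exact hv (eq_zero_of_jc hJ ((smul_eq_zero.1 h1).resolve_left h))

/-- off the curve -/
theorem ncB_off (hκ : AnalyticAt ℂ κ P) (hJ : jc κ P ≠ 0) (hu : AnalyticAt ℂ u (κ P)) (hv : AnalyticAt ℂ v P) (hv0 : v P ≠ 0) (h : u (κ P) ≠ 0) :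
    ∃ N : ℂ × ℂ → ℂ × (ℂ × ℂ), AnalyticAt ℂ N P ∧ N P ≠ 0 ∧ ∀ᶠ Q in 𝓝 P, hvB u κ v Q = jc κ Q • N Q := by
  refine ⟨fun Q => (jc κ Q)⁻¹ • hvB u κ v Q, ((jc_an hκ).inv hJ).smul (analyticAt_hvB hκ hu hv), smul_ne_zero (inv_ne_zero hJ) (hvB_ne hJ hv0 h), ?_⟩
  filter_upwards [(jc_an hκ).continuousAt.eventually_ne hJ] with Q hQ
  rw [smul_smul, mul_inv_cancel₀ hQ, one_smul]

/-- the curve is transversal to `v` -/
theorem ncB_trans (hκ : AnalyticAt ℂ κ P) (hJ : jc κ P ≠ 0) (hu : AnalyticAt ℂ u (κ P)) (hv : AnalyticAt ℂ v P)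
    (ht : fderiv ℂ (fun q => u (κ q)) P (v P) ≠ 0) :
    ∃ N : ℂ × ℂ → ℂ × (ℂ × ℂ), AnalyticAt ℂ N P ∧ N P ≠ 0 ∧ ∀ᶠ Q in 𝓝 P, hvB u κ v Q = jc κ Q • N Q := by
  have h0 : hvB u κ v P ≠ 0 := fun h => ht (congrArg Prod.fst h)
  refine ⟨fun Q => (jc κ Q)⁻¹ • hvB u κ v Q, ((jc_an hκ).inv hJ).smul (analyticAt_hvB hκ hu hv), smul_ne_zero (inv_ne_zero hJ) h0, ?_⟩
  filter_upwards [(jc_an hκ).continuousAt.eventually_ne hJ] with Q hQ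
  rw [smul_smul, mul_inv_cancel₀ hQ, one_smul]

/-- the curve is invariant -/
theorem ncB_inv (hκ : AnalyticAt ℂ κ P) (hJ : jc κ P ≠ 0) (hv : AnalyticAt ℂ v P) (hv0 : v P ≠ 0) (ha : AnalyticAt ℂ a P)
    (hinv : ∀ᶠ Q in 𝓝 P, fderiv ℂ (fun q => u (κ q)) Q (v Q) = u (κ Q) * a Q) :
    ∃ N : ℂ × ℂ → ℂ × (ℂ × ℂ), AnalyticAt ℂ N P ∧ N P ≠ 0 ∧ ∀ᶠ Q in 𝓝 P, hvB u κ v Q = (jc κ Q * u (κ Q)) • N Q := by
  have h0 : ((a P, fderiv ℂ κ P (v P)) : ℂ × (ℂ × ℂ)) ≠ 0 := fun h => hv0 (eq_zero_of_jc hJ (congrArg Prod.snd h))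
  refine ⟨fun Q => (jc κ Q)⁻¹ • (a Q, fderiv ℂ κ Q (v Q)), ((jc_an hκ).inv hJ).smul (ha.prod (analyticAt_fderiv_app hκ hv)),
    smul_ne_zero (inv_ne_zero hJ) h0, ?_⟩
  filter_upwards [(jc_an hκ).continuousAt.eventually_ne hJ, hinv] with Q hQ h1
  rw [smul_smul, mul_assoc, mul_comm (u (κ Q)), ← mul_assoc, mul_inv_cancel₀ hQ, one_mul]
  refine Prod.ext ?_ rfl
  exact h1

end Pool.Agent.MQ3
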