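import Pool.Agent.MQ3.DivR

/-!
# MQ3 ThInd: the function `Θ` does not depend on the chart

`Th v om m p = ζ' / ζ + ζ div v (p) + (1 / m) (om p)' / om p`, where `p' = ζ v (p)`.
-/

set_option autoImplicit false

open Topology Filter Metric

noncomputable section

namespace Pool.Agent.MQ3

open Pool.Agent.MQ (dvg ztv)

/-- `Θ` -/
def Th (v : ℂ × ℂ → ℂ × ℂ) (om : ℂ × ℂ → ℂ) (m : ℕ) (p : ℂ → ℂ × ℂ) (z : ℂ) : ℂ :=
  deriv (ztv v p) z / ztv v p z + dvg v (p z) * ztv v p z + 1 / m * (deriv (fun w => om (p w)) z / om (p z))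

theorem ztv_of {v : ℂ × ℂ → ℂ × ℂ} {g : ℂ → ℂ × ℂ} {z c : ℂ} (h : deriv g z = c • v (g z)) (h0 : v (g z) ≠ 0) : ztv v g z = c := by
  classical
  unfold ztv
  rw [h]
  split_ifs with h2
  · have h1 : (v (g z)).1 ≠ 0 := fun h1 => h0 (Prod.ext h1 h2)
    simp only [Prod.smul_fst, smul_eq_mul]
    rw [mul_div_cancel_right₀ _ h1]
  · simp only [Prod.smul_snd, smul_eq_mul]
    rw [mul_div_cancel_right₀ _ h2]

/-- `p' = ζ v (p)` -/
theorem ztv_smul {v : ℂ × ℂ → ℂ × ℂ} {g : ℂ → ℂ × ℂ} {z : ℂ} (h : (v (g z)).1 * (deriv g z).2 - (v (g z)).2 * (deriv g z).1 = 0) (h0 : v (g z) ≠ 0) :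
    deriv g z = ztv v g z • v (g z) := by
  classical
  unfold ztv
  split_ifs with h2
  · have h1 : (v (g z)).1 ≠ 0 := fun h1 => h0 (Prod.ext h1 h2)
    refine Prod.ext ?_ ?_
    · simp only [Prod.smul_fst, smul_eq_mul]
      rw [div_mul_cancel₀ _ h1]
    · simp only [Prod.smul_snd, smul_eq_mul]
      rw [h2, mul_zero]
      rw [h2, zero_mul, sub_zero] at h
      exact (mul_eq_zero.1 h).resolve_left h1
  · refine Prod.ext ?_ ?_
    · simp only [Prod.smul_fst, smul_eq_mul]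
      rw [div_mul_eq_mul_div, eq_div_iff h2]
      linear_combination -h
    · simp only [Prod.smul_snd, smul_eq_mul]
      rw [div_mul_cancel₀ _ h2]

theorem ztv_an {v : ℂ × ℂ → ℂ × ℂ} {g : ℂ → ℂ × ℂ} {z : ℂ} (hg : AnalyticAt ℂ g z) (hv : AnalyticAt ℂ v (g z))
    (h : ∀ᶠ w in 𝓝 z, (v (g w)).1 * (deriv g w).2 - (v (g w)).2 * (deriv g w).1 = 0) (h0 : v (g z) ≠ 0) : AnalyticAt ℂ (ztv v g) z := by
  have hvg : AnalyticAt ℂ (fun w => v (g w)) z := AnalyticAt.fun_comp (g := v) (f := g) hv hg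
  have hne : ∀ᶠ w in 𝓝 z, v (g w) ≠ 0 := hvg.continuousAt.eventually_ne h0
  by_cases h2 : (v (g z)).2 = 0
  · have h3 : (v (g z)).1 ≠ 0 := fun h3 => h0 (Prod.ext h3 h2)
    have h5 : AnalyticAt ℂ (fun w => (v (g w)).1) z := analyticAt_fst.comp hvg
    have h6 : AnalyticAt ℂ (fun w => (deriv g w).1) z := analyticAt_fst.comp hg.deriv
    refine (h6.div h5 h3).congr ?_
    filter_upwards [h, hne, h5.continuousAt.eventually_ne h3] with w e1 e2 e3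
    have h4 := congrArg Prod.fst (ztv_smul e1 e2)
    simp only [Prod.smul_fst, smul_eq_mul] at h4
    show (deriv g w).1 / (v (g w)).1 = _
    rw [h4, mul_div_cancel_right₀ _ e3]
  · have h5 : AnalyticAt ℂ (fun w => (v (g w)).2) z := analyticAt_snd.comp hvg
    have h6 : AnalyticAt ℂ (fun w => (deriv g w).2) z := analyticAt_snd.comp hg.deriv
    refine (h6.div h5 h2).congr ?_
    filter_upwards [h, hne, h5.continuousAt.eventually_ne h2] with w e1 e2 e3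
    have h4 := congrArg Prod.snd (ztv_smul e1 e2)
    simp only [Prod.smul_snd, smul_eq_mul] at h4
    show (deriv g w).2 / (v (g w)).2 = _
    rw [h4, mul_div_cancel_right₀ _ e3]

/-- **`Θ` is invariant.** -/
theorem Th_trans {v v' Φ : ℂ × ℂ → ℂ × ℂ} {h om om' : ℂ × ℂ → ℂ} {m : ℕ} (hm : m ≠ 0) {p p₁ : ℂ → ℂ × ℂ} {z : ℂ} (hΦ : AnalyticAt ℂ Φ (p z))
    (hv : AnalyticAt ℂ v (p z)) (hv' : AnalyticAt ℂ v' (Φ (p z))) (hh : AnalyticAt ℂ h (p z)) (hom' : AnalyticAt ℂ om' (Φ (p z)))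
    (hrel : ∀ᶠ Q in 𝓝 (p z), fderiv ℂ Φ Q (v Q) = h Q • v' (Φ Q)) (hom : ∀ᶠ Q in 𝓝 (p z), om Q = jc Φ Q ^ m * om' (Φ Q))
    (hp : AnalyticAt ℂ p z) (hp₁ : ∀ᶠ w in 𝓝 z, p₁ w = Φ (p w)) (hode : ∀ᶠ w in 𝓝 z, (v (p w)).1 * (deriv p w).2 - (v (p w)).2 * (deriv p w).1 = 0)
    (hv0 : v (p z) ≠ 0) (hd : deriv p z ≠ 0) (hJ : jc Φ (p z) ≠ 0) (ho : om' (Φ (p z)) ≠ 0) (hh0 : h (p z) ≠ 0) (hv'0 : v' (Φ (p z)) ≠ 0) :
    Th v om m p z = Th v' om' m p₁ z := by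
  have hvp : AnalyticAt ℂ (fun w => v (p w)) z := AnalyticAt.fun_comp (g := v) (f := p) hv hp
  have hvne : ∀ᶠ w in 𝓝 z, v (p w) ≠ 0 := hvp.continuousAt.eventually_ne hv0
  have hζ : AnalyticAt ℂ (ztv v p) z := ztv_an hp hv hode hv0
  have hder : ∀ᶠ w in 𝓝 z, deriv p w = ztv v p w • v (p w) := by
    filter_upwards [hode, hvne] with w e1 e2
    exact ztv_smul e1 e2
  have hζ0 : ztv v p z ≠ 0 := by
    intro h1
    have h2 := hder.self_of_nhds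
    rw [h1, zero_smul] at h2
    exact hd h2
  have hv'p : AnalyticAt ℂ (fun w => v' (Φ (p w))) z :=
    AnalyticAt.fun_comp (g := v') (f := fun w => Φ (p w)) hv' (AnalyticAt.fun_comp (g := Φ) (f := p) hΦ hp)
  have hz₁ : ∀ᶠ w in 𝓝 z, ztv v' p₁ w = h (p w) * ztv v p w := by
    filter_upwards [hder, hp₁, hp₁.eventually_nhds, hp.continuousAt.eventually hrel, hp.continuousAt.eventually hΦ.eventually_analyticAt,
      hp.eventually_analyticAt, hv'p.continuousAt.eventually_ne hv'0] with w e1 e2 e3 e4 e5 e6 e7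
    refine ztv_of ?_ (by rw [e2]; exact e7)
    have h1 : deriv p₁ w = fderiv ℂ Φ (p w) (deriv p w) := by
      have h2 : p₁ =ᶠ[𝓝 w] fun w => Φ (p w) := e3
      rw [h2.deriv_eq]
      exact (e5.differentiableAt.hasFDerivAt.comp_hasDerivAt w e6.differentiableAt.hasDerivAt).deriv
    rw [h1, e1, map_smul, e4, smul_smul, e2, mul_comm]
  have hz₁' : ztv v' p₁ =ᶠ[𝓝 z] fun w => h (p w) * ztv v p w := hz₁
  have ho₁ : (fun w => om' (p₁ w)) =ᶠ[𝓝 z] fun w => om' (Φ (p w)) := hp₁.mono fun w hw => by simp only [hw]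
  have ho₂ : (fun w => om (p w)) =ᶠ[𝓝 z] fun w => jc Φ (p w) ^ m * om' (Φ (p w)) := hp.continuousAt.eventually hom
  have key := theta_rule hm hΦ hv hv' hh hom' hrel hp hζ hder.self_of_nhds hζ0 hh0 hJ ho
  rw [Th, Th, hz₁'.deriv_eq, hz₁.self_of_nhds, hp₁.self_of_nhds, ho₁.deriv_eq, ho₂.deriv_eq, hom.self_of_nhds]
  linear_combination -key

/-- multiplication of the vector field by a unit -/
theorem Th_unit {v v' : ℂ × ℂ → ℂ × ℂ} {u om : ℂ × ℂ → ℂ} {m : ℕ} (hm : m ≠ 0) {p : ℂ → ℂ × ℂ} {z : ℂ} (hv : AnalyticAt ℂ v (p z))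
    (hv' : AnalyticAt ℂ v' (p z)) (hu : AnalyticAt ℂ u (p z)) (hom : AnalyticAt ℂ om (p z)) (hrel : ∀ᶠ Q in 𝓝 (p z), v Q = u Q • v' Q)
    (hp : AnalyticAt ℂ p z) (hode : ∀ᶠ w in 𝓝 z, (v (p w)).1 * (deriv p w).2 - (v (p w)).2 * (deriv p w).1 = 0)
    (hv0 : v (p z) ≠ 0) (hd : deriv p z ≠ 0) (ho : om (p z) ≠ 0) : Th v om m p z = Th v' om m p z := by
  have h0 := hrel.self_of_nhds
  have hjc : ∀ Q, jc (fun x : ℂ × ℂ => x) Q = 1 := by
    intro Q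
    have h1 : fderiv ℂ (fun x : ℂ × ℂ => x) Q = ContinuousLinearMap.id ℂ (ℂ × ℂ) := fderiv_fun_id
    rw [jc, h1]
    simp
  refine Th_trans (Φ := fun x => x) (h := u) hm analyticAt_id hv hv' hu hom ?_ ?_ hp (Eventually.of_forall fun _ => rfl) hode hv0 hd ?_ ho ?_ ?_
  · filter_upwards [hrel] with Q hQ
    have h1 : fderiv ℂ (fun x : ℂ × ℂ => x) Q = ContinuousLinearMap.id ℂ (ℂ × ℂ) := fderiv_fun_id
    rw [h1]
    exact hQ
  · exact Eventually.of_forall fun Q => by rw [hjc, one_pow, one_mul]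
  · rw [hjc]
    exact one_ne_zero
  · intro h1
    rw [h1, zero_smul] at h0
    exact hv0 h0
  · intro h1
    rw [h1, smul_zero] at h0
    exact hv0 h0

end Pool.Agent.MQ3
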