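import Pool.Agent.MQ3.Defs
import Pool.Agent.MQ3.ThInd
import Pool.Agent.MQ2.Defs

/-!
# MQ3 NDefs: the web over the whole model, the potentials of the boxes, regular points, the cover

* `Web X θ l`: the charts over all boxes of the model `X`; `S.ι` is the set of all charts, `S.D k` the domain of the chart `k`, `S.σ k` its map to the surface.
* `S.Om Y k`, `S.lf Y k`: the lift of the curve to the chart `k`.
* `hA`, `hB u`: the vectors `(y x', x y', 0)` and `(u', u x', u y')`; the potential of a box is the logarithm of the length of such a vector plus the logarithm of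
  the section `W` of `m K - j H`.
* `RegA`, `RegB`: regular chart points (off the curve `{Ra = 0}`, on it).
* `Cov`: finitely many polydiscs `P` (centers `Q j`, in charts) and `N` (centers `y k`, in boxes).
-/

set_option autoImplicit false

open Topology Filter Metric MvPolynomial MeasureTheory Laplacian

noncomputable section

namespace Pool.Agent.MQ3

open Pool.Agent.H36.BP (EN fs)
open Pool.Agent.H14.PP (Tan)
open Pool.Agent.H17BP (Surface IsForm)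
open Pool.Agent.H17EF (projVar coneE)
open Pool.Agent.H30M (tau LogSing)
open Pool.Agent.MQ (lam En ztv dvg DDv gr dv)

/-! ## vectors -/

/-- `(y x', x y', 0)` -/
def hA (p w : ℂ × ℂ) : EN 2 := WithLp.toLp 2 ![p.2 * w.1, p.1 * w.2, 0]

/-- `(u', u x', u y')` -/
def hB (u : ℂ × ℂ → ℂ) (p w : ℂ × ℂ) : EN 2 := WithLp.toLp 2 ![fderiv ℂ u p w, u p * w.1, u p * w.2]

/-- the vector of a box: `hA` or `hB u` -/
def hN : Option (ℂ × ℂ → ℂ) → ℂ × ℂ → ℂ × ℂ → EN 2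
  | none => hA
  | some u => hB u

variable {M : ℕ} {P : Ideal (MvPolynomial (Fin (M + 1)) ℂ)} {RD : MvPolynomial (Fin (M + 1)) ℂ} {m : ℕ}

/-! ## curves -/

/-- the curves of the theorem: lifts of nonconstant entire curves of order two in the surface, null for `θ`, not contained in `{RD = 0}` -/
structure WCrv (θ : WDiff (coneE P) m) (RD : MvPolynomial (Fin (M + 1)) ℂ) (F : ℂ → EN M) : Prop where
  hom : ∃ d, RD.IsHomogeneous d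
  diff : Differentiable ℂ F
  mem : ∀ z, F z ∈ coneE P
  tan : ∀ z, θ.toFun (F z) (deriv F z) = 0
  ord : ∃ A : ℝ, ∀ r : ℝ, 0 < r → Real.circleAverage (fun z => Real.log ‖F z‖) 0 r ≤ A * (1 + r ^ 2)
  nc : ∃ z w, ∀ c : ℂ, F z ≠ c • F w
  ne : ∃ z, eval (F z).ofLp RD ≠ 0

/-- moreover the curve is not contained in `{Ra = 0}` -/
structure RCrv (θ : WDiff (coneE P) m) (RD Ra : MvPolynomial (Fin (M + 1)) ℂ) (F : ℂ → EN M) : Prop extends WCrv θ RD F where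
  homR : ∃ d, Ra.IsHomogeneous d
  neR : ∃ z, eval (F z).ofLp Ra ≠ 0

/-- the form `Ra` does not vanish identically in any box -/
def RNe (X : NCModel P RD) (Ra : MvPolynomial (Fin (M + 1)) ℂ) : Prop := ∀ i, ∀ p ∈ DD, ∃ᶠ x in 𝓝 p, eval (X.ρ i x).ofLp Ra ≠ 0

/-! ## the web over the model -/

/-- the charts over all boxes -/
structure Web (X : NCModel P RD) (θ : WDiff (coneE P) m) (l : LF M) where
  W : ∀ i, BoxWeb θ l (X.ρ i)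
  V : ∀ i, WebOver (W i)

variable {X : NCModel P RD} {θ : WDiff (coneE P) m} {l : LF M}

/-- the set of all charts -/
def Web.ι (S : Web X θ l) : Type := Σ i : X.ι, (S.V i).ι

instance (S : Web X θ l) : Fintype S.ι := inferInstanceAs (Fintype (Σ i : X.ι, (S.V i).ι))

/-- the chart `k` -/
def Web.c (S : Web X θ l) (k : S.ι) : MChart (S.W k.1) := (S.V k.1).c k.2

/-- the map of the chart `k` to its box -/
def Web.κ (S : Web X θ l) (k : S.ι) : ℂ × ℂ → ℂ × ℂ := (S.c k).κ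

/-- the vector field of the chart `k` -/
def Web.v (S : Web X θ l) (k : S.ι) : ℂ × ℂ → ℂ × ℂ := (S.c k).v

/-- the map of the chart `k` to the surface -/
def Web.σ (S : Web X θ l) (k : S.ι) (q : ℂ × ℂ) : EN M := X.ρ k.1 (S.κ k q)

/-- the part of the chart `k` over the part `B` of the box -/
def Web.D (S : Web X θ l) (k : S.ι) : Set (ℂ × ℂ) := {q | q ∈ (S.c k).D ∧ S.κ k q ∈ X.B k.1}

/-- the compact part of the chart `k` -/
def Web.cp (S : Web X θ l) (k : S.ι) : Set (ℂ × ℂ) := {q | ‖q.1‖ ≤ 1 ∧ ‖q.2‖ ≤ 1 ∧ S.κ k q ∈ X.C k.1}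

/-- the part of the plane where the curve lifts to the chart `k` -/
def Web.Om (S : Web X θ l) {F : ℂ → EN M} (Y : NCLift X F) (k : S.ι) : Set ℂ := (S.c k).Om F (Y.U k.1) (Y.p k.1)

/-- the lift of the curve to the chart `k` -/
def Web.lf (S : Web X θ l) {F : ℂ → EN M} (Y : NCLift X F) (k : S.ι) : ℂ → ℂ × ℂ := (S.c k).lf F (Y.U k.1) (Y.p k.1)

/-! ## the weight -/

open Classical in
/-- `F = cf ρ (p)` in the box `i` -/
def cf {F : ℂ → EN M} (Y : NCLift X F) (i : X.ι) (z : ℂ) : ℂ :=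
  if h : ∃ c : ℂ, c ≠ 0 ∧ F z = c • X.ρ i (Y.p i z) then h.choose else 1

/-- the value of the form `Wf` on `cf ∂₁ρ`, `cf ∂₂ρ`: a holomorphic function on `U i` -/
def wt (Wf : EN M → EN M → EN M → ℂ) {F : ℂ → EN M} (Y : NCLift X F) (i : X.ι) (z : ℂ) : ℂ :=
  Wf (F z) (cf Y i z • fderiv ℂ (X.ρ i) (Y.p i z) (1, 0)) (cf Y i z • fderiv ℂ (X.ρ i) (Y.p i z) (0, 1))

/-- the holomorphic part of the potential of a box -/
def eH (H : ℂ × ℂ → ℂ × ℂ → EN 2) (Wf : EN M → EN M → EN M → ℂ) (mK : ℕ) {F : ℂ → EN M} (Y : NCLift X F) (i : X.ι) (z : ℂ) : ℝ :=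
  Real.log ‖H (Y.p i z) (deriv (Y.p i) z)‖ + 1 / mK * Real.log ‖wt Wf Y i z‖

/-- the potential of a box -/
def eN (H : ℂ × ℂ → ℂ × ℂ → EN 2) (Wf : EN M → EN M → EN M → ℂ) (mK jH : ℕ) {F : ℂ → EN M} (Y : NCLift X F) (i : X.ι) (z : ℂ) : ℝ :=
  eH H Wf mK Y i z + jH / mK * Real.log ‖F z‖

/-- the potential of a special point; `g` is the equation of the invariant curve -/
def eP (S : Web X θ l) (g : ℂ × ℂ → ℂ) (Wf : EN M → EN M → EN M → ℂ) (mK jH : ℕ) {F : ℂ → EN M} (Y : NCLift X F) (k : S.ι) (z : ℂ) : ℝ :=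
  Real.log ‖ztv (S.v k) (S.lf Y k) z‖ + Real.log ‖jc (S.κ k) (S.lf Y k z)‖ + Real.log ‖g (S.lf Y k z)‖ + 1 / mK * Real.log ‖wt Wf Y k.1 z‖ +
    jH / mK * Real.log ‖F z‖

/-- `Θ` in the chart `k` -/
def ThC (S : Web X θ l) (Wf : EN M → EN M → EN M → ℂ) (mK : ℕ) {F : ℂ → EN M} (Y : NCLift X F) (k : S.ι) (z : ℂ) : ℂ :=
  deriv (ztv (S.v k) (S.lf Y k)) z / ztv (S.v k) (S.lf Y k) z + dvg (S.v k) (S.lf Y k z) * ztv (S.v k) (S.lf Y k) z +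
    deriv (fun w => jc (S.κ k) (S.lf Y k w)) z / jc (S.κ k) (S.lf Y k z) + 1 / mK * (deriv (wt Wf Y k.1) z / wt Wf Y k.1 z)

/-- `Θ` is the function of all charts -/
def IsTh (S : Web X θ l) (Wf : EN M → EN M → EN M → ℂ) (mK : ℕ) {F : ℂ → EN M} (Y : NCLift X F) (Θ : ℂ → ℂ) : Prop :=
  ∀ k, ∀ z ∈ S.Om Y k, ∀ᶠ w in 𝓝[≠] z, Θ w = ThC S Wf mK Y k w

/-- the weight is not identically zero along the curve -/
def WNe (Wf : EN M → EN M → EN M → ℂ) {F : ℂ → EN M} (Y : NCLift X F) : Prop := ∀ i, ∀ z ∈ Y.U i, ∀ᶠ w in 𝓝[≠] z, wt Wf Y i w ≠ 0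

/-! ## regular chart points -/

/-- a regular point off the curve `{Ra = 0}`: transversal to the axis, or the axis is invariant -/
structure RegA (S : Web X θ l) (Ra : MvPolynomial (Fin (M + 1)) ℂ) (k : S.ι) (q : ℂ × ℂ) : Prop where
  mem : q ∈ S.D k
  v_ne : S.v k q ≠ 0
  ne : q ≠ 0
  ax₁ : q.1 = 0 → (S.v k q).1 ≠ 0 ∨ ∀ᶠ x in 𝓝 q, x.1 = 0 → (S.v k x).1 = 0
  ax₂ : q.2 = 0 → (S.v k q).2 ≠ 0 ∨ ∀ᶠ x in 𝓝 q, x.2 = 0 → (S.v k x).2 = 0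
  alg : ∀ᶠ x in 𝓝 q, x.1 * x.2 ≠ 0 → eval (S.σ k x).ofLp Ra ≠ 0

/-- a regular point on the curve `{Ra = 0}`, off the axes -/
structure RegB (S : Web X θ l) (Ra : MvPolynomial (Fin (M + 1)) ℂ) (k : S.ι) (q : ℂ × ℂ) : Prop where
  mem : q ∈ S.D k
  v_ne : S.v k q ≠ 0
  ne : q.1 * q.2 ≠ 0
  crv : ∃ G : ℂ × ℂ → ℂ, AnalyticAt ℂ G q ∧ G q = 0 ∧ fderiv ℂ G q ≠ 0 ∧ (∀ᶠ x in 𝓝 q, eval (S.σ k x).ofLp Ra = 0 ↔ G x = 0) ∧
    (fderiv ℂ G q (S.v k q) ≠ 0 ∨ ∀ᶠ x in 𝓝 q, G x = 0 → fderiv ℂ G x (S.v k x) = 0)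

/-- a regular chart point -/
def Reg (S : Web X θ l) (Ra : MvPolynomial (Fin (M + 1)) ℂ) (k : S.ι) (q : ℂ × ℂ) : Prop := RegA S Ra k q ∨ RegB S Ra k q

/-! ## the invariant curve and changes of vectors -/

/-- near `q` the function `g` is a reduced equation of the invariant part of `{RD Ra = 0}` -/
def InvAt (S : Web X θ l) (Ra : MvPolynomial (Fin (M + 1)) ℂ) (k : S.ι) (q : ℂ × ℂ) (g : ℂ × ℂ → ℂ) : Prop :=
  AnalyticAt ℂ g q ∧ (∀ᶠ x in 𝓝 q, g x = 0 → fderiv ℂ g x ≠ 0) ∧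
    (∃ c : ℂ × ℂ → ℂ, AnalyticAt ℂ c q ∧ ∀ᶠ x in 𝓝 q, fderiv ℂ g x (S.v k x) = c x * g x) ∧
    ∃ h : ℂ × ℂ → ℂ, AnalyticAt ℂ h q ∧ (∀ᶠ x in 𝓝 q, eval (S.σ k x).ofLp (RD * Ra) = 0 ↔ g x * h x = 0) ∧
      ∀ᶠ x in 𝓝 q, h x = 0 → g x ≠ 0 ∧ fderiv ℂ h x (S.v k x) ≠ 0

/-- under the map `Φ` the vectors `H`, `H'` are related by invertible matrices -/
def VRel (H H' : ℂ × ℂ → ℂ × ℂ → EN 2) (Φ : ℂ × ℂ → ℂ × ℂ) (p : ℂ × ℂ) : Prop :=
  ∃ A A' : ℂ × ℂ → EN 2 →L[ℂ] EN 2, AnalyticAt ℂ A p ∧ AnalyticAt ℂ A' p ∧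
    ∀ᶠ x in 𝓝 p, ∀ w, H' (Φ x) (fderiv ℂ Φ x w) = A x (H x w) ∧ H x w = A' x (H' (Φ x) (fderiv ℂ Φ x w))

/-- the change of boxes of `NCModel.iso` -/
structure Chg (X : NCModel P RD) (i j : X.ι) (Φ : ℂ × ℂ → ℂ × ℂ) (p : ℂ × ℂ) : Prop where
  mem : p ∈ X.B i
  mem' : Φ p ∈ X.B j
  an : AnalyticAt ℂ Φ p
  det : (fderiv ℂ Φ p).det ≠ 0
  rel : ∀ᶠ x in 𝓝 p, X.rel i x j (Φ x)
  eq : ∀ᶠ x in 𝓝 p, ∃ c : ℂ, c ≠ 0 ∧ X.ρ i x = c • X.ρ j (Φ x)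

/-! ## the cover -/

/-- The polydiscs `P` (in charts, radius `r j`, core of radius `s j`) and `N` (in boxes, radius `t k`; `u k = none`: off the curve `{Ra = 0}`, or all lifts on
the curve are in the cores). -/
structure Cov (S : Web X θ l) (Ra : MvPolynomial (Fin (M + 1)) ℂ) where
  nP : ℕ
  ck : Fin nP → S.ι
  Q : Fin nP → ℂ × ℂ
  r : Fin nP → ℝ
  s : Fin nP → ℝ
  nN : ℕ
  b : Fin nN → X.ι
  y : Fin nN → ℂ × ℂ
  t : Fin nN → ℝ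
  u : Fin nN → Option (ℂ × ℂ → ℂ)
  s_pos : ∀ j, 0 < s j
  s_lt : ∀ j, s j < r j
  Q_mem : ∀ j, Q j ∈ S.cp (ck j)
  P_sub : ∀ j, closedBall (Q j) (r j) ⊆ S.D (ck j)
  P_reg : ∀ j, ∀ x ∈ closedBall (Q j) (r j), x ≠ Q j → Reg S Ra (ck j) x
  t_pos : ∀ k, 0 < t k
  N_sub : ∀ k, closedBall (y k) (t k) ⊆ X.B (b k)
  /-- the second type: a polydisc off the axes with a reduced equation of the curve -/
  N_B : ∀ k, ∀ u', u k = some u' → closedBall (y k) (t k) ⊆ DS ∧ AnalyticOnNhd ℂ u' (closedBall (y k) (t k)) ∧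
    ∀ p ∈ closedBall (y k) (t k), ∀ᶠ x in 𝓝 p, (eval (X.ρ (b k) x).ofLp Ra = 0 ↔ u' x = 0) ∧ (u' x = 0 → fderiv ℂ u' x ≠ 0)
  /-- compact sets of regular chart points over the polydisc `k` -/
  K : (k : Fin nN) → (S.V (b k)).ι → Set (ℂ × ℂ)
  K_compact : ∀ k a, IsCompact (K k a)
  K_A : ∀ k a, u k = none → ∀ q ∈ K k a, RegA S Ra ⟨b k, a⟩ q ∧ S.κ ⟨b k, a⟩ q ∈ closedBall (y k) (t k)
  K_B : ∀ k a u', u k = some u' → ∀ q ∈ K k a, Reg S Ra ⟨b k, a⟩ q ∧ S.κ ⟨b k, a⟩ q ∈ closedBall (y k) (t k)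
  cover : ∀ F : ℂ → EN M, WCrv θ RD F → ∀ Y : NCLift X F, ∀ z, ∃ k, z ∈ Y.U (b k) ∧ Y.p (b k) z ∈ ball (y k) (t k / 4)
  disj : ∀ F : ℂ → EN M, WCrv θ RD F → ∀ Y : NCLift X F, ∀ j j', j ≠ j' → ∀ z, z ∈ S.Om Y (ck j) → S.lf Y (ck j) z ∈ closedBall (Q j) (r j) →
    z ∈ S.Om Y (ck j') → S.lf Y (ck j') z ∉ closedBall (Q j') (r j')
  lift : ∀ F : ℂ → EN M, WCrv θ RD F → ∀ Y : NCLift X F, ∀ k, ∀ z ∈ Y.U (b k), Y.p (b k) z ∈ closedBall (y k) (t k) →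
    (∀ j, z ∈ S.Om Y (ck j) → S.lf Y (ck j) z ∉ ball (Q j) (s j)) → ∃ a, z ∈ S.Om Y ⟨b k, a⟩ ∧ S.lf Y ⟨b k, a⟩ z ∈ K k a

variable {S : Web X θ l} {Ra : MvPolynomial (Fin (M + 1)) ℂ}

/-- the part of the plane in the closed core `j` -/
def Cov.core (C : Cov S Ra) {F : ℂ → EN M} (Y : NCLift X F) (j : Fin C.nP) : Set ℂ :=
  {z | z ∈ S.Om Y (C.ck j) ∧ S.lf Y (C.ck j) z ∈ closedBall (C.Q j) (C.s j)}

/-- the open set of the special point `j` -/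
def Cov.UP (C : Cov S Ra) {F : ℂ → EN M} (Y : NCLift X F) (j : Fin C.nP) : Set ℂ :=
  {z | z ∈ S.Om Y (C.ck j) ∧ S.lf Y (C.ck j) z ∈ ball (C.Q j) (C.r j)}

/-- the open set of the box `k` -/
def Cov.UN (C : Cov S Ra) {F : ℂ → EN M} (Y : NCLift X F) (k : Fin C.nN) : Set ℂ :=
  {z | z ∈ Y.U (C.b k) ∧ Y.p (C.b k) z ∈ ball (C.y k) (C.t k) ∧ ∀ j, z ∉ C.core Y j}

/-- the vector of the box `k` -/
def Cov.H (C : Cov S Ra) (k : Fin C.nN) : ℂ × ℂ → ℂ × ℂ → EN 2 := hN (C.u k)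

/-- `lm` is a density for the cover; the constant `A` does not depend on the curve -/
structure Dens (C : Cov S Ra) {F : ℂ → EN M} (Y : NCLift X F) (A : ℝ) (lm : ℂ → ℝ) : Prop where
  cont : Continuous lm
  le : ∀ z, lam F z ≤ lm z
  energy : ∃ K : ℝ, ∀ R, 1 ≤ R → ∫ z, tau R z * lm z ^ 2 ≤ A * En F R + K
  box : ∀ k, ∀ z ∈ Y.U (C.b k), Y.p (C.b k) z ∈ closedBall (C.y k) (C.t k) → ‖deriv (Y.p (C.b k)) z‖ ≤ lm z
  chart : ∀ k a, ∀ z ∈ S.Om Y ⟨C.b k, a⟩, S.lf Y ⟨C.b k, a⟩ z ∈ C.K k a → ‖deriv (S.lf Y ⟨C.b k, a⟩) z‖ ≤ lm z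
  pt : ∀ j, ∀ z ∈ S.Om Y (C.ck j), S.lf Y (C.ck j) z ∈ closedBall (C.Q j) (C.r j) → ‖deriv (S.lf Y (C.ck j)) z‖ ≤ lm z

/-- the equations at the special points -/
structure PG (C : Cov S Ra) (g : Fin C.nP → ℂ × ℂ → ℂ) : Prop where
  an : ∀ j, AnalyticAt ℂ (g j) (C.Q j)
  inv : ∀ j, ∀ x ∈ closedBall (C.Q j) (C.r j), x ≠ C.Q j → InvAt S Ra (C.ck j) x (g j)

/-- the vector field at the special point `j`, with the center at `0` -/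
def Cov.vj (C : Cov S Ra) (j : Fin C.nP) (x : ℂ × ℂ) : ℂ × ℂ := S.v (C.ck j) (C.Q j + x)

/-- the Jacobian at the special point `j` -/
def Cov.Jj (C : Cov S Ra) (j : Fin C.nP) (x : ℂ × ℂ) : ℂ := jc (S.κ (C.ck j)) (C.Q j + x)

/-- the curve at the special point `j` -/
def Cov.pj (C : Cov S Ra) {F : ℂ → EN M} (Y : NCLift X F) (j : Fin C.nP) (z : ℂ) : ℂ × ℂ := S.lf Y (C.ck j) z - C.Q j

end Pool.Agent.MQ3
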