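import Pool.Agent.MQ3.Mono

/-!
# MQ3 OvB: two charts over a smooth point of the discriminant

Near `(0, t₀)` a chart is `κ (s, t) = (s^e t^a, t^b)`, with a sheet function `B` (the slope) which takes `e` distinct values over the points
with `s ≠ 0`.  Two such charts over the same point of the base whose sheets agree at some nearby points have the same `e` and are isomorphic.
-/

set_option autoImplicit false

open Topology Filter Metric

noncomputable section

namespace Pool.Agent.MQ3

/-- the values of `S` near `q` are among the values of finitely many continuous functions with distinct values at `q` -/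
def Disc (S : ℂ × ℂ → Set ℂ) (q : ℂ × ℂ) : Prop :=
  ∃ (p : ℕ) (T : Fin p → ℂ × ℂ → ℂ), (∀ j, ContinuousAt (T j) q) ∧ (∀ i j, T i q = T j q → i = j) ∧ ∀ᶠ q' in 𝓝 q, ∀ m ∈ S q', ∃ j, m = T j q'

/-- two continuous selections of a discrete family which agree at one point agree everywhere -/
theorem eqOn_of_disc {E : Type*} [TopologicalSpace E] {U : Set E} (hU : IsPreconnected U) {f g : E → ℂ} (hf : ContinuousOn f U)
    (hg : ContinuousOn g U) {S : ℂ × ℂ → Set ℂ} {β : E → ℂ × ℂ} (hβ : ContinuousOn β U) (hfS : ∀ x ∈ U, f x ∈ S (β x)) (hgS : ∀ x ∈ U, g x ∈ S (β x))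
    (hS : ∀ x ∈ U, Disc S (β x)) {x₀ : E} (hx₀ : x₀ ∈ U) (h0 : f x₀ = g x₀) : ∀ x ∈ U, f x = g x := by
  classical
  have hc : ContinuousOn (fun x => decide (f x = g x)) U := by
    intro x hx
    suffices h : ∀ᶠ y in 𝓝[U] x, decide (f y = g y) = decide (f x = g x) from
      (continuousWithinAt_const (b := decide (f x = g x))).congr_of_eventuallyEq h rfl
    by_cases hfg : f x = g x
    · obtain ⟨p, T, hT, hinj, hr⟩ := hS x hx
      obtain ⟨j, hj⟩ := hr.self_of_nhds _ (hfS x hx)
      have hr' : ∀ᶠ y in 𝓝[U] x, ∀ m ∈ S (β y), ∃ j, m = T j (β y) := (hβ x hx).eventually hr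
      have key : ∀ k : E → ℂ, ContinuousWithinAt k U x → k x = T j (β x) → (∀ᶠ y in 𝓝[U] x, k y ∈ S (β y)) →
          ∀ᶠ y in 𝓝[U] x, k y = T j (β y) := by
        intro k hk hkx hkS
        have h1 : ∀ i, i ≠ j → ∀ᶠ y in 𝓝[U] x, k y ≠ T i (β y) := by
          intro i hi
          have h2 : ContinuousWithinAt (fun y => k y - T i (β y)) U x := hk.sub ((hT i).comp_continuousWithinAt (hβ x hx))
          have h3 : k x - T i (β x) ≠ 0 := by
            intro h4
            exact hi (hinj _ _ (by rw [← hkx]; exact (sub_eq_zero.1 h4).symm))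
          filter_upwards [h2.eventually_ne h3] with y hy h4
          exact hy (by rw [h4, sub_self])
        have h2 : ∀ᶠ y in 𝓝[U] x, ∀ i, i ≠ j → k y ≠ T i (β y) := by
          rw [Filter.eventually_all]
          intro i
          by_cases hi : i = j
          · exact Eventually.of_forall fun y h => absurd hi h
          · filter_upwards [h1 i hi] with y hy _
            exact hy
        filter_upwards [h2, hr', hkS] with y h3 h4 h5
        obtain ⟨i, hi⟩ := h4 _ h5
        by_contra hcon
        by_cases hij : i = j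
        · exact hcon (by rw [hi, hij])
        · exact h3 i hij hi
      have e1 := key f (hf x hx) hj (eventually_nhdsWithin_of_forall fun y hy => hfS y hy)
      have e2 := key g (hg x hx) (by rw [← hfg]; exact hj) (eventually_nhdsWithin_of_forall fun y hy => hgS y hy)
      filter_upwards [e1, e2] with y h1 h2
      rw [decide_eq_true hfg, decide_eq_true (h1.trans h2.symm)]
    · have h1 : ContinuousWithinAt (fun y => f y - g y) U x := (hf x hx).sub (hg x hx)
      filter_upwards [h1.eventually_ne (sub_ne_zero.2 hfg)] with y hy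
      rw [decide_eq_false hfg, decide_eq_false (sub_ne_zero.1 hy)]
  intro x hx
  have h1 := hU.constant hc hx hx₀
  have h2 : decide (f x₀ = g x₀) = true := decide_eq_true h0
  rw [h2] at h1
  exact of_decide_eq_true h1

/-- the punctured polydisc is connected -/
theorem isPreconnected_punct (δ : ℝ) (t₀ : ℂ) : IsPreconnected {p : ℂ × ℂ | (p.1 ≠ 0 ∧ ‖p.1‖ < δ) ∧ ‖p.2 - t₀‖ < δ} := by
  rcases le_or_gt δ 0 with hδ | hδ
  · have : {p : ℂ × ℂ | (p.1 ≠ 0 ∧ ‖p.1‖ < δ) ∧ ‖p.2 - t₀‖ < δ} = ∅ := by
      ext p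
      simp only [Set.mem_ofPred_eq, Set.mem_empty_iff_false, iff_false]
      rintro ⟨⟨h1, h2⟩, h3⟩
      have := norm_nonneg p.1
      linarith
    rw [this]
    exact isPreconnected_empty
  · have h1 : IsPreconnected ({w : ℂ | w.re < Real.log δ} ×ˢ ball t₀ δ) :=
      ((convex_halfSpace_re_lt _).prod (convex_ball _ _)).isPreconnected
    have h2 := h1.image (fun p : ℂ × ℂ => (Complex.exp p.1, p.2)) (by fun_prop)
    have h3 : (fun p : ℂ × ℂ => (Complex.exp p.1, p.2)) '' ({w : ℂ | w.re < Real.log δ} ×ˢ ball t₀ δ)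
        = {p : ℂ × ℂ | (p.1 ≠ 0 ∧ ‖p.1‖ < δ) ∧ ‖p.2 - t₀‖ < δ} := by
      ext ⟨r, t⟩
      constructor
      · rintro ⟨⟨w, t'⟩, ⟨hw, ht⟩, he⟩
        rw [Prod.mk.injEq] at he
        obtain ⟨rfl, rfl⟩ := he
        refine ⟨⟨Complex.exp_ne_zero _, ?_⟩, ?_⟩
        · rw [Complex.norm_exp]
          have hw' : w.re < Real.log δ := hw
          calc Real.exp w.re < Real.exp (Real.log δ) := Real.exp_lt_exp.2 hw'
            _ = δ := Real.exp_log hδ
        · rw [← dist_eq_norm]
          exact ht
      · rintro ⟨⟨h4, h5⟩, h6⟩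
        refine ⟨(Complex.log r, t), ⟨?_, ?_⟩, ?_⟩
        · show (Complex.log r).re < Real.log δ
          rw [Complex.log_re]
          exact Real.log_lt_log (norm_pos_iff.2 h4) h5
        · show dist t t₀ < δ
          rw [dist_eq_norm]
          exact h6
        · show (Complex.exp (Complex.log r), t) = (r, t)
          rw [Complex.exp_log h4]
    rw [← h3]
    exact h2

/-- roots of an analytic function which is not zero at the point -/
theorem exists_root {n : ℕ} (hn : 0 < n) {g : ℂ × ℂ → ℂ} {p : ℂ × ℂ} (hg : AnalyticAt ℂ g p) {c : ℂ} (hc : c ≠ 0) (h : c ^ n = g p) :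
    ∃ h : ℂ × ℂ → ℂ, AnalyticAt ℂ h p ∧ h p = c ∧ ∀ᶠ q in 𝓝 p, h q ^ n = g q := by
  have h0 : g p ≠ 0 := by
    rw [← h]
    exact pow_ne_zero _ hc
  have h1 : AnalyticAt ℂ (fun q => g q / g p) p := hg.div analyticAt_const h0
  have h2 : g p / g p ∈ Complex.slitPlane := by
    rw [div_self h0]
    exact Complex.one_mem_slitPlane
  refine ⟨fun q => c * Complex.exp (Complex.log (g q / g p) / n), ?_, ?_, ?_⟩
  · exact analyticAt_const.mul (((h1.clog h2).div analyticAt_const (by exact_mod_cast hn.ne')).cexp)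
  · show c * Complex.exp (Complex.log (g p / g p) / n) = c
    rw [div_self h0, Complex.log_one, zero_div, Complex.exp_zero, mul_one]
  · filter_upwards [hg.continuousAt.eventually_ne h0] with q hq
    have hn' : (n : ℂ) ≠ 0 := by exact_mod_cast hn.ne'
    rw [mul_pow, ← Complex.exp_nat_mul, mul_div_cancel₀ _ hn', Complex.exp_log (div_ne_zero hq h0), h]
    field_simp

/-- near a point `c ≠ 0` the power is injective -/
theorem pow_inj_near {n : ℕ} (hn : 0 < n) {c : ℂ} (hc : c ≠ 0 ∨ n = 1) : ∀ᶠ x in 𝓝 ((c, c) : ℂ × ℂ), x.1 ^ n = x.2 ^ n → x.1 = x.2 := by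
  rcases hc with hc | rfl
  · have h1 : ContinuousAt (fun x : ℂ × ℂ => ∑ i ∈ Finset.range n, x.1 ^ i * x.2 ^ (n - 1 - i)) (c, c) := by fun_prop
    have h2 : (∑ i ∈ Finset.range n, c ^ i * c ^ (n - 1 - i)) ≠ 0 := by
      have h3 : ∀ i ∈ Finset.range n, c ^ i * c ^ (n - 1 - i) = c ^ (n - 1) := by
        intro i hi
        rw [← pow_add]
        congr 1
        have := Finset.mem_range.1 hi
        omega
      rw [Finset.sum_congr rfl h3, Finset.sum_const, Finset.card_range, nsmul_eq_mul]
      exact mul_ne_zero (by exact_mod_cast hn.ne') (pow_ne_zero _ hc)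
    filter_upwards [h1.eventually_ne h2] with x hx hxy
    have h3 := geom_sum₂_mul x.1 x.2 n
    rw [hxy, sub_self] at h3
    rcases mul_eq_zero.1 h3 with h4 | h4
    · exact absurd h4 hx
    · exact sub_eq_zero.1 h4
  · exact Eventually.of_forall fun x hx => by simpa using hx

end Pool.Agent.MQ3
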