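import Pool.Agent.MQ3.OvB

/-!
# MQ3 OvC: two charts over a smooth point of the discriminant are isomorphic
-/

set_option autoImplicit false

open Topology Filter Metric

noncomputable section

namespace Pool.Agent.MQ3

/-- a chart `κ (s, t) = (s^e t^a, t^b)` near `(0, t₀)` with a sheet function `B`, which takes `e` distinct values over the points with `s ≠ 0` -/
structure SheetGerm (S : ℂ × ℂ → Set ℂ) (e a b : ℕ) (t₀ : ℂ) (B : ℂ × ℂ → ℂ) : Prop where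
  he : 0 < e
  hb : 0 < b
  tw : t₀ ≠ 0 ∨ (a = 0 ∧ b = 1)
  an : AnalyticAt ℂ B (0, t₀)
  mem : ∀ᶠ p in 𝓝 ((0, t₀) : ℂ × ℂ), p.1 ≠ 0 → B p ∈ S (mchart e a 0 b p)
  inj : ∀ᶠ p in 𝓝 ((0, t₀) : ℂ × ℂ), p.1 ≠ 0 → ∀ ζ : ℂ, ζ ^ e = 1 → B (ζ * p.1, p.2) = B p → ζ = 1

theorem mchart_zero {e a b : ℕ} (he : 0 < e) (t₀ : ℂ) : mchart e a 0 b (0, t₀) = (0, t₀ ^ b) := by
  simp [mchart, zero_pow he.ne']

/-- the auxiliary roots -/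
theorem over_aux {S S' : ℂ × ℂ → Set ℂ} {e a b e' a' b' : ℕ} {t₀ t₀' : ℂ} {B B' : ℂ × ℂ → ℂ} (h : SheetGerm S e a b t₀ B)
    (h' : SheetGerm S' e' a' b' t₀' B') {φ : ℂ × ℂ → ℂ × ℂ} {u : ℂ × ℂ → ℂ} (hφ : AnalyticAt ℂ φ (0, t₀ ^ b))
    (hφ0 : φ (0, t₀ ^ b) = (0, t₀' ^ b')) (hu : AnalyticAt ℂ u (0, t₀ ^ b)) (hu0 : u (0, t₀ ^ b) ≠ 0)
    (hφu : ∀ᶠ q in 𝓝 ((0, t₀ ^ b) : ℂ × ℂ), (φ q).1 = q.1 * u q) :
    ∃ T V : ℂ × ℂ → ℂ, AnalyticAt ℂ T (0, t₀) ∧ AnalyticAt ℂ V (0, t₀) ∧ T (0, t₀) = t₀' ∧ V (0, t₀) ≠ 0 ∧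
      (∀ᶠ p in 𝓝 ((0, t₀) : ℂ × ℂ), V p ≠ 0 ∧ T p ^ a' ≠ 0 ∧ p.2 ^ a ≠ 0 ∧ u (p.1 * p.2 ^ a, p.2 ^ b) ≠ 0 ∧
        ∀ x : ℂ, (x ^ e' * (p.1 * V p ^ e') * T p ^ a', T p ^ b') =
          ((x ^ e' * (φ (p.1 * p.2 ^ a, p.2 ^ b)).1, (φ (p.1 * p.2 ^ a, p.2 ^ b)).2) : ℂ × ℂ)) ∧
      ∀ᶠ pp in 𝓝 (((0, t₀), (0, t₀')) : (ℂ × ℂ) × (ℂ × ℂ)), mchart e' a' 0 b' pp.2 = φ (mchart e a 0 b pp.1) →
        pp.2.2 = T (pp.1.1 ^ e, pp.1.2) ∧ pp.2.1 ^ e' = pp.1.1 ^ e * V (pp.1.1 ^ e, pp.1.2) ^ e' := by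
  have hκ : AnalyticAt ℂ (fun p : ℂ × ℂ => ((p.1 * p.2 ^ a, p.2 ^ b) : ℂ × ℂ)) (0, t₀) :=
    (analyticAt_fst.mul (analyticAt_snd.pow a)).prod (analyticAt_snd.pow b)
  have hκ0 : ((fun p : ℂ × ℂ => ((p.1 * p.2 ^ a, p.2 ^ b) : ℂ × ℂ)) (0, t₀)) = (0, t₀ ^ b) := by simp
  have hφκ : AnalyticAt ℂ (fun p : ℂ × ℂ => φ (p.1 * p.2 ^ a, p.2 ^ b)) (0, t₀) :=
    AnalyticAt.comp (g := φ) (f := fun p : ℂ × ℂ => ((p.1 * p.2 ^ a, p.2 ^ b) : ℂ × ℂ)) (by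
      show AnalyticAt ℂ φ (0 * t₀ ^ a, t₀ ^ b)
      rw [zero_mul]
      exact hφ) hκ
  have huκ : AnalyticAt ℂ (fun p : ℂ × ℂ => u (p.1 * p.2 ^ a, p.2 ^ b)) (0, t₀) :=
    AnalyticAt.comp (g := u) (f := fun p : ℂ × ℂ => ((p.1 * p.2 ^ a, p.2 ^ b) : ℂ × ℂ)) (by
      show AnalyticAt ℂ u (0 * t₀ ^ a, t₀ ^ b)
      rw [zero_mul]
      exact hu) hκ
  have hψ : AnalyticAt ℂ (fun p : ℂ × ℂ => (φ (p.1 * p.2 ^ a, p.2 ^ b)).2) (0, t₀) :=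
    ((ContinuousLinearMap.snd ℂ ℂ ℂ).analyticAt _).comp hφκ
  have hψ0 : (φ (((0, t₀) : ℂ × ℂ).1 * ((0, t₀) : ℂ × ℂ).2 ^ a, ((0, t₀) : ℂ × ℂ).2 ^ b)).2 = t₀' ^ b' := by
    simp only [zero_mul]
    rw [hφ0]
  -- the root `T`
  obtain ⟨T, hT, hT0, hTb⟩ : ∃ T : ℂ × ℂ → ℂ, AnalyticAt ℂ T (0, t₀) ∧ T (0, t₀) = t₀' ∧
      ∀ᶠ p in 𝓝 ((0, t₀) : ℂ × ℂ), T p ^ b' = (φ (p.1 * p.2 ^ a, p.2 ^ b)).2 := by
    rcases h'.tw with h1 | ⟨h1, h2⟩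
    · exact exists_root h'.hb hψ h1 hψ0.symm
    · refine ⟨_, hψ, ?_, ?_⟩
      · rw [hψ0, h2, pow_one]
      · exact Eventually.of_forall fun p => by rw [h2, pow_one]
  have hta : ((0, t₀) : ℂ × ℂ).2 ^ a ≠ 0 := by
    rcases h.tw with h1 | ⟨h1, h2⟩
    · exact pow_ne_zero _ h1
    · rw [h1, pow_zero]
      exact one_ne_zero
  have hTa : T (0, t₀) ^ a' ≠ 0 := by
    rw [hT0]
    rcases h'.tw with h1 | ⟨h1, h2⟩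
    · exact pow_ne_zero _ h1
    · rw [h1, pow_zero]
      exact one_ne_zero
  have hu1 : u (((0, t₀) : ℂ × ℂ).1 * ((0, t₀) : ℂ × ℂ).2 ^ a, ((0, t₀) : ℂ × ℂ).2 ^ b) ≠ 0 := by
    simp only [zero_mul]
    exact hu0
  have hta' : AnalyticAt ℂ (fun p : ℂ × ℂ => p.2 ^ a) (0, t₀) := analyticAt_snd.pow a
  have hTa' : AnalyticAt ℂ (fun p : ℂ × ℂ => T p ^ a') (0, t₀) := hT.pow a'
  -- the root `V`
  have hg : AnalyticAt ℂ (fun p : ℂ × ℂ => p.2 ^ a * u (p.1 * p.2 ^ a, p.2 ^ b) / T p ^ a') (0, t₀) := (hta'.mul huκ).div hTa' hTa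
  have hg0 : ((fun p : ℂ × ℂ => p.2 ^ a * u (p.1 * p.2 ^ a, p.2 ^ b) / T p ^ a') (0, t₀)) ≠ 0 := div_ne_zero (mul_ne_zero hta hu1) hTa
  obtain ⟨c, hc⟩ := IsAlgClosed.exists_pow_nat_eq ((fun p : ℂ × ℂ => p.2 ^ a * u (p.1 * p.2 ^ a, p.2 ^ b) / T p ^ a') (0, t₀)) h'.he
  have hc0 : c ≠ 0 := by
    rintro rfl
    rw [zero_pow h'.he.ne'] at hc
    exact hg0 hc.symm
  obtain ⟨V, hV, hV0, hVe⟩ := exists_root h'.he hg hc0 hc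
  have hVne : V (0, t₀) ≠ 0 := by
    rw [hV0]
    exact hc0
  have hφuκ : ∀ᶠ p in 𝓝 ((0, t₀) : ℂ × ℂ), (φ (p.1 * p.2 ^ a, p.2 ^ b)).1 = p.1 * p.2 ^ a * u (p.1 * p.2 ^ a, p.2 ^ b) := by
    have := hκ.continuousAt.eventually (show ∀ᶠ q in 𝓝 ((fun p : ℂ × ℂ => ((p.1 * p.2 ^ a, p.2 ^ b) : ℂ × ℂ)) (0, t₀)), (φ q).1 = q.1 * u q by
      rw [hκ0]; exact hφu)
    filter_upwards [this] with p hp
    exact hp
  have main : ∀ᶠ p in 𝓝 ((0, t₀) : ℂ × ℂ), V p ≠ 0 ∧ T p ^ a' ≠ 0 ∧ p.2 ^ a ≠ 0 ∧ u (p.1 * p.2 ^ a, p.2 ^ b) ≠ 0 ∧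
      p.1 * V p ^ e' * T p ^ a' = (φ (p.1 * p.2 ^ a, p.2 ^ b)).1 ∧ T p ^ b' = (φ (p.1 * p.2 ^ a, p.2 ^ b)).2 := by
    filter_upwards [hV.continuousAt.eventually_ne hVne, hTa'.continuousAt.eventually_ne hTa, hta'.continuousAt.eventually_ne hta,
      huκ.continuousAt.eventually_ne hu1, hVe, hTb, hφuκ] with p h1 h2 h3 h4 h5 h6 h7
    refine ⟨h1, h2, h3, h4, ?_, h6⟩
    rw [h5, h7]
    field_simp
  refine ⟨T, V, hT, hV, hT0, hVne, ?_, ?_⟩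
  · filter_upwards [main] with p h1
    refine ⟨h1.1, h1.2.1, h1.2.2.1, h1.2.2.2.1, fun x => ?_⟩
    rw [h1.2.2.2.2.2, ← h1.2.2.2.2.1]
    ring_nf
  · have hpr : Tendsto (fun pp : (ℂ × ℂ) × (ℂ × ℂ) => ((pp.1.1 ^ e, pp.1.2) : ℂ × ℂ)) (𝓝 (((0, t₀), (0, t₀')) : (ℂ × ℂ) × (ℂ × ℂ)))
        (𝓝 ((0, t₀) : ℂ × ℂ)) := by
      have : ContinuousAt (fun pp : (ℂ × ℂ) × (ℂ × ℂ) => ((pp.1.1 ^ e, pp.1.2) : ℂ × ℂ)) (((0, t₀), (0, t₀')) : (ℂ × ℂ) × (ℂ × ℂ)) := by fun_prop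
      have h2 := this.tendsto
      simpa [zero_pow h.he.ne'] using h2
    have hT2 : Tendsto (fun pp : (ℂ × ℂ) × (ℂ × ℂ) => ((pp.2.2, T (pp.1.1 ^ e, pp.1.2)) : ℂ × ℂ)) (𝓝 (((0, t₀), (0, t₀')) : (ℂ × ℂ) × (ℂ × ℂ)))
        (𝓝 ((t₀', t₀') : ℂ × ℂ)) := by
      refine Tendsto.prodMk_nhds ?_ ?_
      · exact (continuous_snd.comp continuous_snd).tendsto' _ _ rfl
      · have := hT.continuousAt.tendsto.comp hpr
        rw [hT0] at this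
        exact this
    have hinj := hT2.eventually (pow_inj_near h'.hb (c := t₀') (by
      rcases h'.tw with h1 | ⟨h1, h2⟩
      · exact Or.inl h1
      · exact Or.inr h2))
    filter_upwards [hpr.eventually main, hinj] with pp h1 h2 h3
    obtain ⟨g1, g2, g3, g4, g5, g6⟩ := h1
    have e0 : φ (mchart e a 0 b pp.1) = φ (pp.1.1 ^ e * pp.1.2 ^ a, pp.1.2 ^ b) := by simp [mchart]
    rw [e0] at h3
    have e1 : pp.2.1 ^ e' * pp.2.2 ^ a' = (φ (pp.1.1 ^ e * pp.1.2 ^ a, pp.1.2 ^ b)).1 := by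
      have := congrArg Prod.fst h3
      simpa [mchart] using this
    have e2 : pp.2.2 ^ b' = (φ (pp.1.1 ^ e * pp.1.2 ^ a, pp.1.2 ^ b)).2 := by
      have := congrArg Prod.snd h3
      simpa [mchart] using this
    have e3 : pp.2.2 = T (pp.1.1 ^ e, pp.1.2) := h2 (by rw [e2, ← g6])
    refine ⟨e3, ?_⟩
    rw [e3, ← g5] at e1
    exact mul_right_cancel₀ g2 e1

/-- **Over1**: two charts over a smooth point of the discriminant whose sheets agree at nearby points are isomorphic. -/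
theorem over1 {S S' : ℂ × ℂ → Set ℂ} {e a b e' a' b' : ℕ} {t₀ t₀' : ℂ} {B B' : ℂ × ℂ → ℂ} (h : SheetGerm S e a b t₀ B)
    (h' : SheetGerm S' e' a' b' t₀' B') {φ : ℂ × ℂ → ℂ × ℂ} {u : ℂ × ℂ → ℂ} (hφ : AnalyticAt ℂ φ (0, t₀ ^ b))
    (hφ0 : φ (0, t₀ ^ b) = (0, t₀' ^ b')) (hu : AnalyticAt ℂ u (0, t₀ ^ b)) (hu0 : u (0, t₀ ^ b) ≠ 0)
    (hφu : ∀ᶠ q in 𝓝 ((0, t₀ ^ b) : ℂ × ℂ), (φ q).1 = q.1 * u q)
    (hS : ∀ᶠ q in 𝓝 ((0, t₀ ^ b) : ℂ × ℂ), q.1 ≠ 0 → S q ⊆ S' (φ q))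
    (hD : ∀ᶠ q in 𝓝 ((0, t₀' ^ b') : ℂ × ℂ), q.1 ≠ 0 → Disc S' q)
    (hfr : ∃ᶠ pp in 𝓝 (((0, t₀), (0, t₀')) : (ℂ × ℂ) × (ℂ × ℂ)), pp.1.1 ≠ 0 ∧
      mchart e' a' 0 b' pp.2 = φ (mchart e a 0 b pp.1) ∧ B' pp.2 = B pp.1) :
    e = e' ∧ ∃ Φ : ℂ × ℂ → ℂ × ℂ, AnalyticAt ℂ Φ (0, t₀) ∧ Φ (0, t₀) = (0, t₀') ∧
      (∀ᶠ p in 𝓝 ((0, t₀) : ℂ × ℂ), mchart e' a' 0 b' (Φ p) = φ (mchart e a 0 b p)) ∧
      (∀ᶠ p in 𝓝 ((0, t₀) : ℂ × ℂ), B' (Φ p) = B p) ∧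
      ∀ᶠ pp in 𝓝 (((0, t₀), (0, t₀')) : (ℂ × ℂ) × (ℂ × ℂ)), mchart e' a' 0 b' pp.2 = φ (mchart e a 0 b pp.1) → B' pp.2 = B pp.1 →
        pp.2 = Φ pp.1 := by
  obtain ⟨T, V, hT, hV, hT0, hV0, hTV, hpair⟩ := over_aux h h' hφ hφ0 hu hu0 hφu
  have he := h.he
  have he' := h'.he
  -- conditions on a ball around `(0, t₀')`
  obtain ⟨ε, hε, hB'⟩ := Metric.eventually_nhds_iff_ball.1 (h'.an.eventually_analyticAt.and (h'.mem.and h'.inj))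
  -- the map `κ₀ (x, t) = (x t^a, t^b)`
  have hκ : ContinuousAt (fun p : ℂ × ℂ => ((p.1 * p.2 ^ a, p.2 ^ b) : ℂ × ℂ)) (0, t₀) := by fun_prop
  have hκt : Tendsto (fun p : ℂ × ℂ => ((p.1 * p.2 ^ a, p.2 ^ b) : ℂ × ℂ)) (𝓝 (0, t₀)) (𝓝 (0, t₀ ^ b)) := by
    have := hκ.tendsto
    simpa using this
  have hφt : Tendsto (fun p : ℂ × ℂ => φ (p.1 * p.2 ^ a, p.2 ^ b)) (𝓝 (0, t₀)) (𝓝 (0, t₀' ^ b')) := by
    have := hφ.continuousAt.tendsto.comp hκt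
    rwa [hφ0] at this
  -- conditions in the variables `(x, t)`, `x = s^e`
  have hX : ∀ᶠ p in 𝓝 ((0, t₀) : ℂ × ℂ), AnalyticAt ℂ T p ∧ AnalyticAt ℂ V p ∧ AnalyticAt ℂ φ (p.1 * p.2 ^ a, p.2 ^ b) ∧
      (V p ≠ 0 ∧ T p ^ a' ≠ 0 ∧ p.2 ^ a ≠ 0 ∧ u (p.1 * p.2 ^ a, p.2 ^ b) ≠ 0 ∧
        ∀ x : ℂ, (x ^ e' * (p.1 * V p ^ e') * T p ^ a', T p ^ b') =
          ((x ^ e' * (φ (p.1 * p.2 ^ a, p.2 ^ b)).1, (φ (p.1 * p.2 ^ a, p.2 ^ b)).2) : ℂ × ℂ)) ∧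
      (p.1 ≠ 0 → S (p.1 * p.2 ^ a, p.2 ^ b) ⊆ S' (φ (p.1 * p.2 ^ a, p.2 ^ b))) ∧
      (p.1 ≠ 0 → Disc S' (φ (p.1 * p.2 ^ a, p.2 ^ b))) ∧ ‖T p - t₀'‖ < ε := by
    have h1 : ∀ᶠ p in 𝓝 ((0, t₀) : ℂ × ℂ), ‖T p - t₀'‖ < ε := by
      have h2 : ContinuousAt (fun p => ‖T p - t₀'‖) (0, t₀) := (hT.continuousAt.sub continuousAt_const).norm
      refine h2.eventually (gt_mem_nhds ?_)
      show ‖T (0, t₀) - t₀'‖ < ε
      rw [hT0, sub_self, norm_zero]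
      exact hε
    filter_upwards [hT.eventually_analyticAt, hV.eventually_analyticAt, hκt.eventually hφ.eventually_analyticAt, hTV, hκt.eventually hS,
      hφt.eventually hD, h1, hκt.eventually hφu] with p g1 g2 g3 g4 g5 g6 g7 g8
    refine ⟨g1, g2, g3, g4, fun hp => g5 (mul_ne_zero hp g4.2.2.1), fun hp => g6 ?_, g7⟩
    rw [g8]
    exact mul_ne_zero (mul_ne_zero hp g4.2.2.1) g4.2.2.2.1
  -- conditions in the variables `(r, t)`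
  have hr1 : Tendsto (fun p : ℂ × ℂ => ((p.1 ^ e', p.2) : ℂ × ℂ)) (𝓝 (0, t₀)) (𝓝 (0, t₀)) := by
    have : ContinuousAt (fun p : ℂ × ℂ => ((p.1 ^ e', p.2) : ℂ × ℂ)) (0, t₀) := by fun_prop
    simpa [zero_pow he'.ne'] using this.tendsto
  have hr2 : Tendsto (fun p : ℂ × ℂ => (((p.1 ^ e') ^ e, p.2) : ℂ × ℂ)) (𝓝 (0, t₀)) (𝓝 (0, t₀)) := by
    have : ContinuousAt (fun p : ℂ × ℂ => (((p.1 ^ e') ^ e, p.2) : ℂ × ℂ)) (0, t₀) := by fun_prop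
    simpa [zero_pow he'.ne', zero_pow he.ne'] using this.tendsto
  have hr3 : ∀ᶠ p in 𝓝 ((0, t₀) : ℂ × ℂ), ‖p.1 ^ e * V ((p.1 ^ e') ^ e, p.2)‖ < ε := by
    have h2 : ContinuousAt (fun p : ℂ × ℂ => ‖p.1 ^ e * V ((p.1 ^ e') ^ e, p.2)‖) (0, t₀) := by
      have h3 : ContinuousAt (fun p : ℂ × ℂ => V ((p.1 ^ e') ^ e, p.2)) (0, t₀) := by
        refine ContinuousAt.comp (g := V) (f := fun p : ℂ × ℂ => (((p.1 ^ e') ^ e, p.2) : ℂ × ℂ)) ?_ (by fun_prop)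
        simpa [zero_pow he'.ne', zero_pow he.ne'] using hV.continuousAt
      exact ((continuousAt_fst.pow e).mul h3).norm
    refine h2.eventually (gt_mem_nhds ?_)
    simp [zero_pow he.ne', hε]
  obtain ⟨δ, hδ, hall⟩ := Metric.eventually_nhds_iff_ball.1 ((hr1.eventually (h.an.eventually_analyticAt.and (h.mem.and h.inj))).and
    ((hr2.eventually hX).and hr3))
  set U : Set (ℂ × ℂ) := {p | (p.1 ≠ 0 ∧ ‖p.1‖ < δ) ∧ ‖p.2 - t₀‖ < δ} with hU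
  have hUb : ∀ p ∈ U, p ∈ ball ((0, t₀) : ℂ × ℂ) δ := by
    intro p hp
    rw [mem_ball, Prod.dist_eq, dist_eq_norm, dist_eq_norm]
    simp only [sub_zero]
    exact max_lt hp.1.2 hp.2
  -- a matching pair
  have hsmall : ∀ᶠ pp in 𝓝 (((0, t₀), (0, t₀')) : (ℂ × ℂ) × (ℂ × ℂ)), ‖pp.1.1‖ < δ ^ e' ∧ ‖pp.1.2 - t₀‖ < δ := by
    refine Filter.Eventually.and ?_ ?_
    · have : ContinuousAt (fun pp : (ℂ × ℂ) × (ℂ × ℂ) => ‖pp.1.1‖) (((0, t₀), (0, t₀')) : (ℂ × ℂ) × (ℂ × ℂ)) := by fun_prop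
      refine this.eventually (gt_mem_nhds ?_)
      simp only [norm_zero]
      positivity
    · have : ContinuousAt (fun pp : (ℂ × ℂ) × (ℂ × ℂ) => ‖pp.1.2 - t₀‖) (((0, t₀), (0, t₀')) : (ℂ × ℂ) × (ℂ × ℂ)) := by fun_prop
      refine this.eventually (gt_mem_nhds ?_)
      simp only [sub_self, norm_zero]
      exact hδ
  obtain ⟨⟨⟨s₁, t₁⟩, ⟨s₂, t₂⟩⟩, ⟨hs₁, hk, hBB⟩, hp1, hp2, hp3⟩ := (hfr.and_eventually (hpair.and hsmall)).exists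
  simp only at hs₁ hk hBB hp1 hp2 hp3
  obtain ⟨p5, p6⟩ := hp1 hk
  obtain ⟨r₁, hr₁⟩ := IsAlgClosed.exists_pow_nat_eq s₁ he'
  have hr₁0 : r₁ ≠ 0 := by
    rintro rfl
    rw [zero_pow he'.ne'] at hr₁
    exact hs₁ hr₁.symm
  have hr₁δ : ‖r₁‖ < δ := by
    rw [← hr₁, norm_pow] at hp2
    exact lt_of_pow_lt_pow_left₀ e' hδ.le hp2
  have hU₁ : ((r₁, t₁) : ℂ × ℂ) ∈ U := ⟨⟨hr₁0, hr₁δ⟩, hp3⟩
  obtain ⟨⟨g1, g2, g3⟩, ⟨⟨g4, g5, g6, g7, g8, g9, g10⟩, g11⟩⟩ := hall _ (hUb _ hU₁)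
  set v₁ := V ((r₁ ^ e') ^ e, t₁) with hv₁
  have hv₁0 : v₁ ≠ 0 := g7.1
  -- the root of unity
  set w := s₂ / (r₁ ^ e * v₁) with hw
  have hw1 : s₂ = w * (r₁ ^ e * v₁) := by
    rw [hw, div_mul_cancel₀]
    exact mul_ne_zero (pow_ne_zero _ hr₁0) hv₁0
  have hwe : w ^ e' = 1 := by
    rw [hw, div_pow, p6, ← hr₁, ← hv₁, mul_pow]
    have h1 : (r₁ ^ e') ^ e = (r₁ ^ e) ^ e' := by rw [← pow_mul, ← pow_mul, mul_comm]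
    rw [h1]
    exact div_self (mul_ne_zero (pow_ne_zero _ (pow_ne_zero _ hr₁0)) (pow_ne_zero _ hv₁0))
  have hwn : ‖w‖ = 1 := by
    have h1 : ‖w‖ ^ e' = 1 := by rw [← norm_pow, hwe, norm_one]
    exact (pow_eq_one_iff_of_nonneg (norm_nonneg _) he'.ne').1 h1
  -- the two functions
  set Ψ : ℂ × ℂ → ℂ × ℂ := fun p => (w * (p.1 ^ e * V ((p.1 ^ e') ^ e, p.2)), T ((p.1 ^ e') ^ e, p.2)) with hΨ
  have hΨb : ∀ p ∈ U, Ψ p ∈ ball ((0, t₀') : ℂ × ℂ) ε := by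
    intro p hp
    obtain ⟨-, ⟨k1, k2⟩⟩ := hall _ (hUb _ hp)
    rw [mem_ball, Prod.dist_eq, dist_eq_norm, dist_eq_norm]
    refine max_lt ?_ ?_
    · show ‖w * (p.1 ^ e * V ((p.1 ^ e') ^ e, p.2)) - 0‖ < ε
      rw [sub_zero, norm_mul, hwn, one_mul]
      exact k2
    · exact k1.2.2.2.2.2.2
  have hΨ1 : ∀ p ∈ U, (Ψ p).1 ≠ 0 := by
    intro p hp
    obtain ⟨-, ⟨k1, k2⟩⟩ := hall _ (hUb _ hp)
    have hw0 : w ≠ 0 := by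
      intro h0
      rw [h0, norm_zero] at hwn
      exact zero_ne_one hwn
    exact mul_ne_zero hw0 (mul_ne_zero (pow_ne_zero _ hp.1.1) k1.2.2.2.1.1)
  have hκΨ : ∀ p ∈ U, mchart e' a' 0 b' (Ψ p) = φ ((p.1 ^ e') ^ e * p.2 ^ a, p.2 ^ b) := by
    intro p hp
    obtain ⟨-, ⟨k1, k2⟩⟩ := hall _ (hUb _ hp)
    have k3 := k1.2.2.2.1.2.2.2.2 w
    simp only [Prod.mk.injEq] at k3
    rw [hwe, one_mul, one_mul] at k3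
    have k4 : (p.1 ^ e) ^ e' = (p.1 ^ e') ^ e := by rw [← pow_mul, ← pow_mul, mul_comm]
    simp only [mchart, hΨ, pow_zero, one_mul]
    refine Prod.ext ?_ k3.2
    show (w * (p.1 ^ e * V ((p.1 ^ e') ^ e, p.2))) ^ e' * T ((p.1 ^ e') ^ e, p.2) ^ a' = _
    rw [mul_pow, mul_pow, hwe, one_mul, k4, ← k3.1]
  have hΨc : ContinuousOn Ψ U := by
    intro p hp
    obtain ⟨-, ⟨k1, k2⟩⟩ := hall _ (hUb _ hp)
    have c0 : ContinuousAt (fun p : ℂ × ℂ => (((p.1 ^ e') ^ e, p.2) : ℂ × ℂ)) p := by fun_prop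
    have c1 : ContinuousAt (fun p : ℂ × ℂ => V ((p.1 ^ e') ^ e, p.2)) p :=
      ContinuousAt.comp (g := V) (f := fun p : ℂ × ℂ => (((p.1 ^ e') ^ e, p.2) : ℂ × ℂ)) k1.2.1.continuousAt c0
    have c2 : ContinuousAt (fun p : ℂ × ℂ => T ((p.1 ^ e') ^ e, p.2)) p :=
      ContinuousAt.comp (g := T) (f := fun p : ℂ × ℂ => (((p.1 ^ e') ^ e, p.2) : ℂ × ℂ)) k1.1.continuousAt c0
    exact ((continuousAt_const.mul ((continuousAt_fst.pow e).mul c1)).prodMk c2).continuousWithinAt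
  have hfg : ∀ p ∈ U, B (p.1 ^ e', p.2) = B' (Ψ p) := by
    refine eqOn_of_disc (isPreconnected_punct δ t₀) (f := fun p => B (p.1 ^ e', p.2)) (g := fun p => B' (Ψ p)) (S := S')
      (β := fun p => φ ((p.1 ^ e') ^ e * p.2 ^ a, p.2 ^ b)) ?_ ?_ ?_ ?_ ?_ ?_ hU₁ ?_
    · intro p hp
      obtain ⟨⟨k1, k2, k3⟩, -⟩ := hall _ (hUb _ hp)
      exact (ContinuousAt.comp (g := B) (f := fun p : ℂ × ℂ => ((p.1 ^ e', p.2) : ℂ × ℂ)) k1.continuousAt (by fun_prop)).continuousWithinAt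
    · intro p hp
      exact (hB' _ (hΨb p hp)).1.continuousAt.comp_continuousWithinAt (hΨc p hp)
    · intro p hp
      obtain ⟨-, ⟨k1, k2⟩⟩ := hall _ (hUb _ hp)
      exact (ContinuousAt.comp (g := φ) (f := fun p : ℂ × ℂ => (((p.1 ^ e') ^ e * p.2 ^ a, p.2 ^ b) : ℂ × ℂ)) k1.2.2.1.continuousAt
        (by fun_prop)).continuousWithinAt
    · intro p hp
      obtain ⟨⟨k1, k2, k3⟩, ⟨k4, k5⟩⟩ := hall _ (hUb _ hp)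
      have k6 := k2 (pow_ne_zero _ hp.1.1)
      simp only [mchart, pow_zero, one_mul] at k6
      exact k4.2.2.2.2.1 (pow_ne_zero _ (pow_ne_zero _ hp.1.1)) k6
    · intro p hp
      have k6 := (hB' _ (hΨb p hp)).2.1 (hΨ1 p hp)
      rwa [hκΨ p hp] at k6
    · intro p hp
      obtain ⟨-, ⟨k4, k5⟩⟩ := hall _ (hUb _ hp)
      exact k4.2.2.2.2.2.1 (pow_ne_zero _ (pow_ne_zero _ hp.1.1))
    · show B (r₁ ^ e', t₁) = B' (w * (r₁ ^ e * V ((r₁ ^ e') ^ e, t₁)), T ((r₁ ^ e') ^ e, t₁))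
      rw [← hv₁, ← hw1, hr₁, ← p5, hBB]
  -- `e' ∣ e`
  have hU₂ : ∀ ζ : ℂ, ‖ζ‖ = 1 → ((ζ * r₁, t₁) : ℂ × ℂ) ∈ U := by
    intro ζ hζ
    refine ⟨⟨mul_ne_zero ?_ hr₁0, ?_⟩, hp3⟩
    · intro h0
      rw [h0, norm_zero] at hζ
      exact zero_ne_one hζ
    · rw [norm_mul, hζ, one_mul]
      exact hr₁δ
  have hd1 : e' ∣ e := by
    have hζ := Complex.isPrimitiveRoot_exp e' he'.ne'
    set ζ := Complex.exp (2 * Real.pi * Complex.I / e') with hζd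
    have hζ1 : ζ ^ e' = 1 := hζ.pow_eq_one
    have hζn : ‖ζ‖ = 1 := by
      have h1 : ‖ζ‖ ^ e' = 1 := by rw [← norm_pow, hζ1, norm_one]
      exact (pow_eq_one_iff_of_nonneg (norm_nonneg _) he'.ne').1 h1
    have h1 := hfg _ (hU₂ ζ hζn)
    have h2 := hfg _ hU₁
    have e1 : (ζ * r₁) ^ e' = r₁ ^ e' := by rw [mul_pow, hζ1, one_mul]
    have e2 : Ψ (ζ * r₁, t₁) = (ζ ^ e * (Ψ (r₁, t₁)).1, (Ψ (r₁, t₁)).2) := by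
      simp only [hΨ, e1]
      refine Prod.ext ?_ rfl
      show w * ((ζ * r₁) ^ e * V ((r₁ ^ e') ^ e, t₁)) = ζ ^ e * (w * (r₁ ^ e * V ((r₁ ^ e') ^ e, t₁)))
      rw [mul_pow]
      ring
    rw [e2] at h1
    simp only [e1] at h1
    have h3 : B' (ζ ^ e * (Ψ (r₁, t₁)).1, (Ψ (r₁, t₁)).2) = B' (Ψ (r₁, t₁)) := by
      rw [← h1]
      exact h2
    have h4 := (hB' _ (hΨb _ hU₁)).2.2 (hΨ1 _ hU₁) (ζ ^ e) (by rw [← pow_mul, mul_comm, pow_mul, hζ1, one_pow]) h3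
    exact hζ.dvd_of_pow_eq_one e h4
  have hd2 : e ∣ e' := by
    have hζ := Complex.isPrimitiveRoot_exp e he.ne'
    set ζ := Complex.exp (2 * Real.pi * Complex.I / e) with hζd
    have hζ1 : ζ ^ e = 1 := hζ.pow_eq_one
    have hζn : ‖ζ‖ = 1 := by
      have h1 : ‖ζ‖ ^ e = 1 := by rw [← norm_pow, hζ1, norm_one]
      exact (pow_eq_one_iff_of_nonneg (norm_nonneg _) he.ne').1 h1
    have h1 := hfg _ (hU₂ ζ hζn)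
    have h2 := hfg _ hU₁
    have e1 : ((ζ * r₁) ^ e') ^ e = (r₁ ^ e') ^ e := by
      rw [mul_pow, mul_pow, ← pow_mul, mul_comm e' e, pow_mul, hζ1, one_pow, one_mul]
    have e2 : Ψ (ζ * r₁, t₁) = Ψ (r₁, t₁) := by
      simp only [hΨ, e1]
      refine Prod.ext ?_ rfl
      show w * ((ζ * r₁) ^ e * V ((r₁ ^ e') ^ e, t₁)) = w * (r₁ ^ e * V ((r₁ ^ e') ^ e, t₁))
      rw [mul_pow, hζ1, one_mul]
    rw [e2] at h1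
    have h3 : B (ζ ^ e' * r₁ ^ e', t₁) = B (r₁ ^ e', t₁) := by
      rw [← mul_pow]
      exact h1.trans h2.symm
    have h4 := g3 (pow_ne_zero _ hr₁0) (ζ ^ e') (by rw [← pow_mul, mul_comm, pow_mul, hζ1, one_pow]) h3
    exact hζ.dvd_of_pow_eq_one e' h4
  have hee : e = e' := Nat.dvd_antisymm hd2 hd1
  refine ⟨hee, ?_⟩
  subst hee
  have hcs : AnalyticAt ℂ (fun p : ℂ × ℂ => ((p.1 ^ e, p.2) : ℂ × ℂ)) (0, t₀) := (analyticAt_fst.pow e).prod analyticAt_snd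
  have hcs0 : ((fun p : ℂ × ℂ => ((p.1 ^ e, p.2) : ℂ × ℂ)) (0, t₀)) = (0, t₀) := by simp [zero_pow he.ne']
  have hVs : AnalyticAt ℂ (fun p : ℂ × ℂ => V (p.1 ^ e, p.2)) (0, t₀) :=
    AnalyticAt.comp (g := V) (f := fun p : ℂ × ℂ => ((p.1 ^ e, p.2) : ℂ × ℂ)) (by
      show AnalyticAt ℂ V (0 ^ e, t₀)
      rw [zero_pow he.ne']
      exact hV) hcs
  have hTs : AnalyticAt ℂ (fun p : ℂ × ℂ => T (p.1 ^ e, p.2)) (0, t₀) :=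
    AnalyticAt.comp (g := T) (f := fun p : ℂ × ℂ => ((p.1 ^ e, p.2) : ℂ × ℂ)) (by
      show AnalyticAt ℂ T (0 ^ e, t₀)
      rw [zero_pow he.ne']
      exact hT) hcs
  set Φ : ℂ × ℂ → ℂ × ℂ := fun p => (w * (p.1 * V (p.1 ^ e, p.2)), T (p.1 ^ e, p.2)) with hΦ
  have hΦa : AnalyticAt ℂ Φ (0, t₀) := (analyticAt_const.mul (analyticAt_fst.mul hVs)).prod hTs
  have hΦ0 : Φ (0, t₀) = (0, t₀') := by
    simp only [hΦ, zero_mul, mul_zero, zero_pow he.ne', hT0]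
  -- `B' (Φ p) = B p` for `p.1 ≠ 0`
  have hne : ∀ p : ℂ × ℂ, p.1 ≠ 0 → ‖p.1‖ < δ ^ e → ‖p.2 - t₀‖ < δ → B' (Φ p) = B p := by
    intro p hp0 hp1 hp2
    obtain ⟨r, hr⟩ := IsAlgClosed.exists_pow_nat_eq p.1 he
    have hr0 : r ≠ 0 := by
      rintro rfl
      rw [zero_pow he.ne'] at hr
      exact hp0 hr.symm
    have hrδ : ‖r‖ < δ := by
      rw [← hr, norm_pow] at hp1
      exact lt_of_pow_lt_pow_left₀ e hδ.le hp1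
    have h1 := hfg (r, p.2) ⟨⟨hr0, hrδ⟩, hp2⟩
    have h2 : Ψ (r, p.2) = Φ p := by
      simp only [hΨ, hΦ, hr]
    rw [h2] at h1
    simp only [hr] at h1
    exact h1.symm
  have hcr : Tendsto (fun p : ℂ × ℂ => ((p.1 ^ e, p.2) : ℂ × ℂ)) (𝓝 (0, t₀)) (𝓝 (0, t₀)) := hr1
  have hΦκ : ∀ᶠ p in 𝓝 ((0, t₀) : ℂ × ℂ), mchart e a' 0 b' (Φ p) = φ (mchart e a 0 b p) := by
    filter_upwards [hcr.eventually hTV] with p hp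
    have k3 := hp.2.2.2.2 w
    simp only [Prod.mk.injEq] at k3
    rw [hwe, one_mul, one_mul] at k3
    simp only [mchart, hΦ, pow_zero, one_mul]
    refine Prod.ext ?_ k3.2
    show (w * (p.1 * V (p.1 ^ e, p.2))) ^ e * T (p.1 ^ e, p.2) ^ a' = _
    rw [mul_pow, mul_pow, hwe, one_mul, ← k3.1]
  have hnear : ∀ᶠ p in 𝓝 ((0, t₀) : ℂ × ℂ), ‖p.1‖ < δ ^ e ∧ ‖p.2 - t₀‖ < δ := by
    refine Filter.Eventually.and ?_ ?_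
    · have : ContinuousAt (fun p : ℂ × ℂ => ‖p.1‖) ((0, t₀) : ℂ × ℂ) := by fun_prop
      refine this.eventually (gt_mem_nhds ?_)
      simp only [norm_zero]
      positivity
    · have : ContinuousAt (fun p : ℂ × ℂ => ‖p.2 - t₀‖) ((0, t₀) : ℂ × ℂ) := by fun_prop
      refine this.eventually (gt_mem_nhds ?_)
      simp only [sub_self, norm_zero]
      exact hδ
  have hΦB : ∀ᶠ p in 𝓝 ((0, t₀) : ℂ × ℂ), B' (Φ p) = B p := by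
    have h1 : ∀ᶠ p in 𝓝 ((0, t₀) : ℂ × ℂ), AnalyticAt ℂ B' (Φ p) := by
      refine hΦa.continuousAt.eventually ?_
      rw [hΦ0]
      exact h'.an.eventually_analyticAt
    filter_upwards [h1, hΦa.eventually_analyticAt, h.an.eventually_analyticAt, hnear] with p k1 k2 k3 k4
    by_cases hp : p.1 = 0
    · -- continuity
      have c1 : ContinuousAt (fun s : ℂ => B' (Φ (s, p.2))) 0 := by
        have hpe : ((0 : ℂ), p.2) = p := Prod.ext hp.symm rfl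
        have c2 : ContinuousAt (fun s : ℂ => Φ (s, p.2)) 0 :=
          ContinuousAt.comp (g := Φ) (f := fun s : ℂ => (s, p.2)) (by rw [hpe]; exact k2.continuousAt) (by fun_prop)
        exact ContinuousAt.comp (g := B') (f := fun s : ℂ => Φ (s, p.2)) (by simp only [hpe]; exact k1.continuousAt) c2
      have c3 : ContinuousAt (fun s : ℂ => B (s, p.2)) 0 := by
        have hpe : ((0 : ℂ), p.2) = p := Prod.ext hp.symm rfl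
        exact ContinuousAt.comp (g := B) (f := fun s : ℂ => (s, p.2)) (by rw [hpe]; exact k3.continuousAt) (by fun_prop)
      have c4 : ∀ᶠ s in 𝓝[≠] (0 : ℂ), B' (Φ (s, p.2)) = B (s, p.2) := by
        have c5 : ∀ᶠ s : ℂ in 𝓝 0, ‖s‖ < δ ^ e := by
          have : ContinuousAt (fun s : ℂ => ‖s‖) 0 := by fun_prop
          refine this.eventually (gt_mem_nhds ?_)
          show ‖(0 : ℂ)‖ < δ ^ e
          rw [norm_zero]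
          positivity
        filter_upwards [c5.filter_mono nhdsWithin_le_nhds, self_mem_nhdsWithin] with s hs hs0
        exact hne (s, p.2) hs0 hs k4.2
      have c6 := tendsto_nhds_unique_of_eventuallyEq (c1.tendsto.mono_left nhdsWithin_le_nhds) (c3.tendsto.mono_left nhdsWithin_le_nhds) c4
      have hpe : ((0 : ℂ), p.2) = p := Prod.ext hp.symm rfl
      simp only [hpe] at c6
      exact c6
    · exact hne p hp k4.1 k4.2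
  refine ⟨Φ, hΦa, hΦ0, hΦκ, hΦB, ?_⟩
  -- uniqueness
  have hfst : Tendsto (fun pp : (ℂ × ℂ) × (ℂ × ℂ) => pp.1) (𝓝 (((0, t₀), (0, t₀')) : (ℂ × ℂ) × (ℂ × ℂ))) (𝓝 ((0, t₀) : ℂ × ℂ)) :=
    continuous_fst.tendsto' _ _ rfl
  have hΦin : ∀ᶠ p in 𝓝 ((0, t₀) : ℂ × ℂ), (p.1 ≠ 0 → (Φ p).1 ≠ 0) ∧ Φ p ∈ ball ((0, t₀') : ℂ × ℂ) ε ∧ V (p.1 ^ e, p.2) ≠ 0 := by
    have k1 : ∀ᶠ p in 𝓝 ((0, t₀) : ℂ × ℂ), Φ p ∈ ball ((0, t₀') : ℂ × ℂ) ε := by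
      refine hΦa.continuousAt.eventually ?_
      rw [hΦ0]
      exact isOpen_ball.mem_nhds (mem_ball_self hε)
    filter_upwards [k1, hcr.eventually hTV] with p k2 k3
    refine ⟨fun hp => ?_, k2, k3.1⟩
    have hw0 : w ≠ 0 := by
      intro h0
      rw [h0, norm_zero] at hwn
      exact zero_ne_one hwn
    exact mul_ne_zero hw0 (mul_ne_zero hp k3.1)
  filter_upwards [hpair, hfst.eventually hΦB, hfst.eventually hΦin] with pp k1 k2 k3 k4 k5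
  obtain ⟨k6, k7⟩ := k1 k4
  by_cases hp : pp.1.1 = 0
  · refine Prod.ext ?_ k6
    rw [hp, zero_pow he.ne', zero_mul] at k7
    have k8 : pp.2.1 = 0 := pow_eq_zero_iff he.ne' |>.1 k7
    rw [k8]
    simp only [hΦ, hp, zero_mul, mul_zero]
  · have k8 := k3.1 hp
    have k9 : ((pp.2.1 / (Φ pp.1).1) ^ e) = 1 := by
      rw [div_pow, k7]
      simp only [hΦ]
      rw [mul_pow, hwe, one_mul, mul_pow]
      exact div_self (mul_ne_zero (pow_ne_zero _ hp) (pow_ne_zero _ k3.2.2))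
    have k10 : ((pp.2.1 / (Φ pp.1).1) * (Φ pp.1).1, (Φ pp.1).2) = pp.2 := by
      refine Prod.ext ?_ k6.symm
      show (pp.2.1 / (Φ pp.1).1) * (Φ pp.1).1 = pp.2.1
      rw [div_mul_cancel₀ _ k8]
    have k11 := (hB' _ k3.2.1).2.2 k8 _ k9 (by rw [k10, k5, k2])
    rw [← k10, k11, one_mul]

end Pool.Agent.MQ3
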