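import Pool.Agent.MQ3.WForm
import Pool.Agent.MQ.Fin

/-!
# MQ3 RForm: from lifts to curves in the projective space

The conclusion of `exists_R_web` for the entire curves `f : ℂ → ℙ^M` which are tangent to a twisted symmetric differential (`TangentW`), or null for a form `G`
(`NullFor G f`: `G (F, F ∧ F') = 0`).
-/

set_option autoImplicit false

open Topology Filter Metric MvPolynomial

noncomputable section

namespace Pool.Agent.MQ3

open Pool.Agent.H36.BP (EN)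
open Pool.Agent.H14.PP (Tan)
open Pool.Agent.H14.V (IsLift)
open Pool.Agent.H17 (PN VanishesAt HolomorphicInto)
open Pool.Agent.H17EF (projVar coneE)
open Pool.Agent.H13.OT (OrderTwo)
open Pool.Agent.H62.FC (Homog)
open Pool.Agent.AD (SymDiff TangentTo)

variable {M : ℕ} {P : Ideal (MvPolynomial (Fin (M + 1)) ℂ)} {X : Set (EN M)} {m : ℕ}

/-- the entire curve `f` is tangent to the twisted symmetric differential `θ` -/
def TangentW (θ : WDiff X m) (f : ℂ → PN M) : Prop := ∃ F, IsLift F f ∧ ∀ z, θ.toFun (F z) (deriv F z) = 0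

/-- the entire curve `f` is null for the form `G`: `G (F, F ∧ F') = 0` -/
def NullFor (G : MvPolynomial (Fin (M + 1) ⊕ Fin (M + 1) × Fin (M + 1)) ℂ) (f : ℂ → PN M) : Prop :=
  ∃ F, IsLift F f ∧ ∀ z, webVal G (F z).ofLp (deriv F z).ofLp = 0

theorem tangentW_toW (θ : SymDiff X m) (f : ℂ → PN M) : TangentW θ.toW f ↔ TangentTo θ f := Iff.rfl

theorem tangentW_ofForm {a : ℕ} {G : MvPolynomial (Fin (M + 1) ⊕ Fin (M + 1) × Fin (M + 1)) ℂ} (hG : IsBihom a m G) (f : ℂ → PN M) :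
    TangentW (WDiff.ofForm X hG) f ↔ NullFor G f := Iff.rfl

/-- from the lifts to the curves -/
theorem curves_of_lifts (hP : Homog P) {θ : WDiff (coneE P) m} {R : MvPolynomial (Fin (M + 1)) ℂ} {d : ℕ} (hR : R.IsHomogeneous d)
    (h : ∀ F : ℂ → EN M, Differentiable ℂ F → (∀ z, F z ∈ coneE P) →
      (∃ A : ℝ, ∀ r : ℝ, 0 < r → Real.circleAverage (fun z => Real.log ‖F z‖) 0 r ≤ A * (1 + r ^ 2)) → (∃ z w, ∀ c : ℂ, F z ≠ c • F w) →
      (∀ z, θ.toFun (F z) (deriv F z) = 0) → ∀ z, eval (F z).ofLp R = 0) {f : ℂ → PN M} (hf : OrderTwo f)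
    (hfP : ∀ z, f z ∈ projVar P) (hne : ∃ z w, f z ≠ f w) (ht : TangentW θ f) (z : ℂ) : VanishesAt R (f z) := by
  obtain ⟨F, hF, hFt⟩ := ht
  rw [Pool.Agent.H22.WL.vanishesAt_lift hF hR z]
  refine h F hF.1 (fun w => (hF.mem_iff hP w).1 (hfP w)) (Pool.Agent.MQ.growth_of_orderTwo hf hF) ?_ hFt z
  obtain ⟨z, w, hzw⟩ := hne
  refine ⟨z, w, fun c hc => hzw ?_⟩
  obtain ⟨h1, h2⟩ := hF.2 z
  obtain ⟨h3, h4⟩ := hF.2 w
  rw [h2, h4, Projectivization.mk_eq_mk_iff']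
  exact ⟨c, by rw [hc]; rfl⟩

end Pool.Agent.MQ3
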