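import Pool.Agent.MQ3.RForm
import Pool.Agent.MQ3.FinW

/-!
# MQ3 RFormW: the entire curves of order two which are null for a form lie in one algebraic curve

`exists_R_tangent`: the curves `f : ℂ → ℙ^M` in the surface which are tangent to a twisted symmetric differential; `exists_R_form`: the curves which are null for
a bihomogeneous form `G (x, x ∧ v)`.
-/

set_option autoImplicit false

open Topology Filter Metric MvPolynomial

noncomputable section

namespace Pool.Agent.MQ3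

open Pool.Agent.H36.BP (EN)
open Pool.Agent.H14.PP (Tan)
open Pool.Agent.H17 (PN VanishesAt)
open Pool.Agent.H17EF (projVar coneE)
open Pool.Agent.H13.OT (OrderTwo)
open Pool.Agent.H62.FC (Homog)
open Pool.Agent.H17LG.Variety (FunField)

variable {M : ℕ} {P : Ideal (MvPolynomial (Fin (M + 1)) ℂ)} {m : ℕ}

/-- **The curves which are tangent to a twisted symmetric differential.** -/
theorem exists_R_tangentW [P.IsPrime] (hP : Homog P) (hdim : ∃ z : Fin 2 → FunField P, IsTranscendenceBasis ℂ z) (hsmooth : Pool.Agent.AD.NC.IsSmooth P 2)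
    (hgt : Pool.Agent.AD.NC.IsOfLogGeneralType P (Fin.elim0 : Fin 0 → MvPolynomial (Fin (M + 1)) ℂ) 2) (hm : 1 ≤ m) (θ : WDiff (coneE P) m)
    (hθ : coneE P ⊆ closure {x | x ∈ coneE P ∧ ∃ v, Tan (coneE P) x v ∧ θ.toFun x v ≠ 0}) :
    ∃ (R : MvPolynomial (Fin (M + 1)) ℂ) (d : ℕ), R.IsHomogeneous d ∧ R ∉ P ∧ ∀ f : ℂ → PN M, OrderTwo f → (∀ z, f z ∈ projVar P) →
      (∃ z w, f z ≠ f w) → TangentW θ f → ∀ z, VanishesAt R (f z) := by
  obtain ⟨R, d, hR, hRP, h⟩ := exists_R_web hP hdim hsmooth hgt hm θ hθ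
  exact ⟨R, d, hR, hRP, fun f hf hfP hne ht => curves_of_lifts hP hR h hf hfP hne ht⟩

/-- **The curves which are null for a form.** -/
theorem exists_R_form [P.IsPrime] (hP : Homog P) (hdim : ∃ z : Fin 2 → FunField P, IsTranscendenceBasis ℂ z) (hsmooth : Pool.Agent.AD.NC.IsSmooth P 2)
    (hgt : Pool.Agent.AD.NC.IsOfLogGeneralType P (Fin.elim0 : Fin 0 → MvPolynomial (Fin (M + 1)) ℂ) 2) (hm : 1 ≤ m) {a : ℕ}
    {G : MvPolynomial (Fin (M + 1) ⊕ Fin (M + 1) × Fin (M + 1)) ℂ} (hG : IsBihom a m G)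
    (hθ : coneE P ⊆ closure {x | x ∈ coneE P ∧ ∃ v : EN M, Tan (coneE P) x v ∧ webVal G x.ofLp v.ofLp ≠ 0}) :
    ∃ (R : MvPolynomial (Fin (M + 1)) ℂ) (d : ℕ), R.IsHomogeneous d ∧ R ∉ P ∧ ∀ f : ℂ → PN M, OrderTwo f → (∀ z, f z ∈ projVar P) →
      (∃ z w, f z ≠ f w) → NullFor G f → ∀ z, VanishesAt R (f z) := by
  obtain ⟨R, d, hR, hRP, h⟩ := exists_R_tangentW hP hdim hsmooth hgt hm (WDiff.ofForm (coneE P) hG) hθ
  exact ⟨R, d, hR, hRP, fun f hf hfP hne ht => h f hf hfP hne ((tangentW_ofForm hG f).2 ht)⟩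

end Pool.Agent.MQ3
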