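import Pool.Agent.MQ3.NDefs

/-!
# MQ3 RadL: compactness lemmas for the choice of radii; separated chart points
-/

set_option autoImplicit false

noncomputable section

open Topology Filter Metric Set

namespace Pool.Agent.MQ3

open Pool.Agent.H36.BP (EN fs)
open Pool.Agent.H17EF (projVar coneE)

/-- the part of `K` over a small closed ball around `y` is in the open set `O`, if the fibre over `y` is -/
theorem exists_radius {α β : Type*} [TopologicalSpace α] [MetricSpace β] {K : Set α} (hK : IsCompact K)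
    {f : α → β} (hf : ContinuousOn f K) {y : β} {O : Set α} (hO : IsOpen O) (h : ∀ q ∈ K, f q = y → q ∈ O) :
    ∃ r : ℝ, 0 < r ∧ ∀ q ∈ K, dist (f q) y ≤ r → q ∈ O := by
  have hK' : IsCompact (K \ O) := hK.diff hO
  rcases (K \ O).eq_empty_or_nonempty with he | hne
  · refine ⟨1, one_pos, fun q hq _ => ?_⟩
    by_contra hn
    have : q ∈ K \ O := ⟨hq, hn⟩
    rw [he] at this
    exact this
  · have hf' : ContinuousOn f (K \ O) := hf.mono Set.sdiff_subset
    have hc : ContinuousOn (fun q => dist (f q) y) (K \ O) := continuous_dist.comp_continuousOn (hf'.prodMk continuousOn_const)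
    obtain ⟨q0, hq0, hmin⟩ := hK'.exists_isMinOn hne hc
    have hpos : 0 < dist (f q0) y := by
      rw [dist_pos]
      intro e
      exact hq0.2 (h q0 hq0.1 e)
    refine ⟨dist (f q0) y / 2, by positivity, fun q hq hd => ?_⟩
    by_contra hn
    have h1 : dist (f q0) y ≤ dist (f q) y := hmin (show q ∈ K \ O from ⟨hq, hn⟩)
    linarith

/-- the same for finitely many maps -/
theorem exists_radius_fin {ι α β : Type*} [Finite ι] [TopologicalSpace α] [MetricSpace β] {K : ι → Set α} (hK : ∀ i, IsCompact (K i))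
    {f : ι → α → β} (hf : ∀ i, ContinuousOn (f i) (K i)) {y : β} {O : ι → Set α} (hO : ∀ i, IsOpen (O i))
    (h : ∀ i, ∀ q ∈ K i, f i q = y → q ∈ O i) :
    ∃ r : ℝ, 0 < r ∧ ∀ i, ∀ q ∈ K i, dist (f i q) y ≤ r → q ∈ O i := by
  classical
  cases nonempty_fintype ι
  choose r hr hr' using fun i => exists_radius (hK i) (hf i) (hO i) (h i)
  rcases isEmpty_or_nonempty ι with he | hne
  · exact ⟨1, one_pos, fun i => (he.false i).elim⟩
  · refine ⟨Finset.univ.inf' Finset.univ_nonempty r, ?_, fun i q hq hd => ?_⟩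
    · rw [Finset.lt_inf'_iff]
      exact fun i _ => hr i
    · exact hr' i q hq (hd.trans (Finset.inf'_le _ (Finset.mem_univ i)))

/-- finitely many positive numbers have a positive lower bound -/
theorem exists_pos_le {ι : Type*} [Finite ι] {r : ι → ℝ} (hr : ∀ i, 0 < r i) : ∃ s : ℝ, 0 < s ∧ ∀ i, s ≤ r i := by
  classical
  cases nonempty_fintype ι
  rcases isEmpty_or_nonempty ι with he | hne
  · exact ⟨1, one_pos, fun i => (he.false i).elim⟩
  · refine ⟨Finset.univ.inf' Finset.univ_nonempty r, ?_, fun i => Finset.inf'_le _ (Finset.mem_univ i)⟩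
    rw [Finset.lt_inf'_iff]
    exact fun i _ => hr i

/-- finitely many points have disjoint closed balls of the same radius, inside given neighbourhoods -/
theorem exists_sep {α : Type*} [MetricSpace α] {S : Set α} (hS : S.Finite) {O : α → Set α} (hO : ∀ x ∈ S, O x ∈ 𝓝 x) :
    ∃ r : ℝ, 0 < r ∧ (∀ x ∈ S, closedBall x r ⊆ O x) ∧ ∀ x ∈ S, ∀ y ∈ S, x ≠ y → Disjoint (closedBall x r) (closedBall y r) := by
  classical
  have := hS.to_subtype
  have h1 : ∀ x : S, ∃ r : ℝ, 0 < r ∧ closedBall (x : α) r ⊆ O x := fun x =>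
    Metric.nhds_basis_closedBall.mem_iff.1 (hO x x.2)
  choose r hr hr' using h1
  obtain ⟨s, hs, hs'⟩ := exists_pos_le hr
  have h2 : ∀ p : S × S, ∃ t : ℝ, 0 < t ∧ (p.1 ≠ p.2 → 2 * t < dist (p.1 : α) p.2) := by
    intro p
    by_cases hp : p.1 = p.2
    · exact ⟨1, one_pos, fun h => absurd hp h⟩
    · have : 0 < dist (p.1 : α) p.2 := dist_pos.2 fun e => hp (Subtype.ext e)
      exact ⟨dist (p.1 : α) p.2 / 4, by positivity, fun _ => by linarith⟩
  choose t ht ht' using h2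
  obtain ⟨u, hu, hu'⟩ := exists_pos_le ht
  refine ⟨min s u, lt_min hs hu, fun x hx => ?_, fun x hx y hy hxy => ?_⟩
  · exact (closedBall_subset_closedBall ((min_le_left _ _).trans (hs' ⟨x, hx⟩))).trans (hr' ⟨x, hx⟩)
  · rw [Set.disjoint_left]
    intro z hz1 hz2
    rw [mem_closedBall] at hz1 hz2
    have h3 : 2 * t (⟨x, hx⟩, ⟨y, hy⟩) < dist x y := ht' (⟨x, hx⟩, ⟨y, hy⟩) fun e => hxy (congrArg Subtype.val e)
    have h4 := dist_triangle_left x y z
    have h5 := min_le_right s u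
    have h6 := hu' (⟨x, hx⟩, ⟨y, hy⟩)
    linarith

/-- a compact set is covered by finitely many balls with centres in it -/
theorem exists_balls {α : Type*} [MetricSpace α] {C : Set α} (hC : IsCompact C) {r : α → ℝ} (hr : ∀ x ∈ C, 0 < r x) :
    ∃ t : Finset α, ↑t ⊆ C ∧ C ⊆ ⋃ x ∈ t, ball x (r x) := by
  obtain ⟨t, ht, h⟩ := hC.elim_nhds_subcover (fun x => ball x (r x)) fun x hx => ball_mem_nhds x (hr x hx)
  exact ⟨t, fun x hx => ht x hx, h⟩

/-- isolated points of a compact set which is the set of all accumulation-free points: a closed subset without accumulation points is finite -/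
theorem finite_of_isolated {α : Type*} [TopologicalSpace α] [T1Space α] {K Z : Set α} (hK : IsCompact K)
    (h : ∀ x ∈ K, ∀ᶠ y in 𝓝 x, y ≠ x → y ∉ Z) : (K ∩ Z).Finite := by
  classical
  have h1 : ∀ x ∈ K, {y | y ≠ x → y ∉ Z} ∈ 𝓝 x := h
  obtain ⟨t, -, ht⟩ := hK.elim_nhds_subcover (fun x => {y | y ≠ x → y ∉ Z}) h1
  refine t.finite_toSet.subset fun y hy => ?_
  obtain ⟨x, hx, hxy⟩ := Set.mem_iUnion₂.1 (ht hy.1)
  have : y = x := by
    by_contra hne
    exact hxy hne hy.2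
  rw [this]
  exact hx

theorem shrink {E : Type*} [TopologicalSpace E] {K O : Set E} (hK : IsCompact K) {f : E → ℂ × ℂ} (hf : ContinuousOn f K) (hO : IsOpen O) {p : ℂ × ℂ}
    (h : ∀ q ∈ K, f q = p → q ∈ O) : ∃ t > 0, ∀ q ∈ K, f q ∈ closedBall p t → q ∈ O := by
  obtain ⟨r, hr, h1⟩ := exists_radius hK hf hO h
  exact ⟨r, hr, fun q hq hd => h1 q hq (mem_closedBall.1 hd)⟩

/-- a maximal subset without related pairs -/
theorem exists_max_sub {α : Type*} {A : Set α} (hA : A.Finite) (R : α → α → Prop) : ∃ B ⊆ A, (∀ x ∈ B, ∀ y ∈ B, x ≠ y → ¬ R x y) ∧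
    ∀ x ∈ A, x ∉ B → ∃ y ∈ B, R x y ∨ R y x := by
  classical
  have hfin : {B : Set α | B ⊆ A ∧ ∀ x ∈ B, ∀ y ∈ B, x ≠ y → ¬ R x y}.Finite :=
    hA.finite_subsets.subset fun B hB => hB.1
  have hne : {B : Set α | B ⊆ A ∧ ∀ x ∈ B, ∀ y ∈ B, x ≠ y → ¬ R x y}.Nonempty :=
    ⟨∅, Set.empty_subset _, fun x hx => absurd hx (Set.notMem_empty x)⟩
  obtain ⟨B, hB⟩ := hfin.exists_maximal hne
  refine ⟨B, hB.prop.1, hB.prop.2, fun x hx hxB => ?_⟩
  by_contra hcon
  push Not at hcon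
  have h1 : insert x B ∈ {B : Set α | B ⊆ A ∧ ∀ x ∈ B, ∀ y ∈ B, x ≠ y → ¬ R x y} := by
    refine ⟨Set.insert_subset hx hB.prop.1, ?_⟩
    rintro a (rfl | ha) b (rfl | hb) hab
    · exact absurd rfl hab
    · exact (hcon b hb).1
    · exact (hcon a ha).2
    · exact hB.prop.2 a ha b hb hab
  exact hxB (hB.le_of_ge h1 (Set.subset_insert x B) (Set.mem_insert x B))

variable {M : ℕ} {P : Ideal (MvPolynomial (Fin (M + 1)) ℂ)} {RD : MvPolynomial (Fin (M + 1)) ℂ} {m : ℕ} {X : NCModel P RD} {θ : WDiff (coneE P) m}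
  {l : LF M} {S : Web X θ l}

/-- two chart points are separated: no curve is near both -/
def Sepd (S : Web X θ l) (k k' : S.ι) (q q' : ℂ × ℂ) : Prop :=
  ∃ N ∈ 𝓝 q, ∃ N' ∈ 𝓝 q', ∀ F : ℂ → EN M, WCrv θ RD F → ∀ Y : NCLift X F, ∀ z, z ∈ S.Om Y k → S.lf Y k z ∈ N → z ∈ S.Om Y k' → S.lf Y k' z ∉ N'

theorem Sepd.symm {k k' : S.ι} {q q' : ℂ × ℂ} (h : Sepd S k k' q q') : Sepd S k' k q' q := by
  obtain ⟨N, hN, N', hN', h1⟩ := h
  exact ⟨N', hN', N, hN, fun F hF Y z hz' hl' hz hl => h1 F hF Y z hz hl hz' hl'⟩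

theorem exists_radii {n : ℕ} (k : Fin n → S.ι) (Q : Fin n → ℂ × ℂ) (h : ∀ j j', j ≠ j' → Sepd S (k j) (k j') (Q j) (Q j')) (r₀ : Fin n → ℝ)
    (h₀ : ∀ j, 0 < r₀ j) : ∃ r : Fin n → ℝ, (∀ j, 0 < r j ∧ r j ≤ r₀ j) ∧ ∀ F : ℂ → EN M, WCrv θ RD F → ∀ Y : NCLift X F, ∀ j j', j ≠ j' → ∀ z,
      z ∈ S.Om Y (k j) → S.lf Y (k j) z ∈ closedBall (Q j) (r j) → z ∈ S.Om Y (k j') → S.lf Y (k j') z ∉ closedBall (Q j') (r j') := by
  have h1 : ∀ p : Fin n × Fin n, ∃ d : ℝ, 0 < d ∧ (p.1 ≠ p.2 → ∀ F : ℂ → EN M, WCrv θ RD F → ∀ Y : NCLift X F, ∀ z,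
      z ∈ S.Om Y (k p.1) → S.lf Y (k p.1) z ∈ closedBall (Q p.1) d → z ∈ S.Om Y (k p.2) → S.lf Y (k p.2) z ∉ closedBall (Q p.2) d) := by
    intro p
    by_cases hp : p.1 = p.2
    · exact ⟨1, one_pos, fun hn => absurd hp hn⟩
    · obtain ⟨N, hN, N', hN', h2⟩ := h p.1 p.2 hp
      obtain ⟨a, ha, ha'⟩ := Metric.nhds_basis_closedBall.mem_iff.1 hN
      obtain ⟨b, hb, hb'⟩ := Metric.nhds_basis_closedBall.mem_iff.1 hN'
      refine ⟨min a b, lt_min ha hb, fun _ F hF Y z hz hl hz' hl' => ?_⟩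
      exact h2 F hF Y z hz (ha' (closedBall_subset_closedBall (min_le_left _ _) hl)) hz' (hb' (closedBall_subset_closedBall (min_le_right _ _) hl'))
  choose d hd hd' using h1
  obtain ⟨t, ht, ht'⟩ := exists_pos_le hd
  refine ⟨fun j => min (r₀ j) t, fun j => ⟨lt_min (h₀ j) ht, min_le_left _ _⟩, fun F hF Y j j' hj z hz hl hz' hl' => ?_⟩
  exact hd' (j, j') hj F hF Y z hz (closedBall_subset_closedBall ((min_le_right _ _).trans (ht' _)) hl) hz'
    (closedBall_subset_closedBall ((min_le_right _ _).trans (ht' _)) hl')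

end Pool.Agent.MQ3
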