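import Pool.Agent.MQ.AJMul

/-!
# MQ3 SecMul: the distinct roots of a family of monic polynomials over a convex set

`Ω` open and convex, the coefficients analytic on `Ω`, exactly `e` distinct roots at every point: the `e` roots are analytic functions on `Ω`,
everywhere distinct, with constant multiplicities.
-/

set_option autoImplicit false
set_option linter.unusedSectionVars false

open Topology Filter Metric

noncomputable section

namespace Pool.Agent.MQ.AJ

variable {d e : ℕ}

section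

variable {E : Type*} [NormedAddCommGroup E] [NormedSpace ℂ E] {Ω : Set E}

/-- a continuous selection of roots is a permutation -/
theorem exists_perm {E : Type*} [TopologicalSpace E] {Ω : Set E} (hΩ : IsPreconnected Ω) {F G : E → Fin e → ℂ} (hF : ContinuousOn F Ω)
    (hG : ContinuousOn G Ω) (hFi : ∀ ω ∈ Ω, Function.Injective (F ω)) (hGi : ∀ ω ∈ Ω, Function.Injective (G ω))
    (h : ∀ ω ∈ Ω, ∀ j, ∃ k, G ω j = F ω k) : ∃ σ : Equiv.Perm (Fin e), ∀ ω ∈ Ω, ∀ j, G ω j = F ω (σ j) := by
  classical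
  rcases Set.eq_empty_or_nonempty Ω with he | ⟨ω₀, hω₀⟩
  · refine ⟨1, fun ω hω => ?_⟩
    rw [he] at hω
    exact absurd hω (Set.notMem_empty ω)
  have hex : ∀ j, ∃ k, ∀ ω ∈ Ω, G ω j = F ω k := by
    intro j
    have h1 : ∀ ω : E, ∃ k, ω ∈ Ω → G ω j = F ω k := by
      intro ω
      by_cases hω : ω ∈ Ω
      · obtain ⟨k, hk⟩ := h ω hω j
        exact ⟨k, fun _ => hk⟩
      · exact ⟨j, fun h => absurd h hω⟩
    choose f hf using h1
    have hc : ContinuousOn f Ω := by
      intro ω hω
      have h1 : ∀ᶠ ω' in 𝓝[Ω] ω, f ω' = f ω := by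
        have h2 : ∀ k, k ≠ f ω → ∀ᶠ ω' in 𝓝[Ω] ω, G ω' j ≠ F ω' k := by
          intro k hk
          have h3 : ContinuousWithinAt (fun ω' => G ω' j - F ω' k) Ω ω :=
            ((continuous_apply j).continuousAt.comp_continuousWithinAt (hG ω hω)).sub
              ((continuous_apply k).continuousAt.comp_continuousWithinAt (hF ω hω))
          have h4 : G ω j - F ω k ≠ 0 := by
            intro h5
            apply hk
            apply hFi ω hω
            rw [← sub_eq_zero.1 h5, hf ω hω]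
          filter_upwards [h3.eventually_ne h4] with ω' h5 h6
          exact h5 (by rw [h6, sub_self])
        have h3 : ∀ᶠ ω' in 𝓝[Ω] ω, ∀ k, k ≠ f ω → G ω' j ≠ F ω' k := by
          rw [Filter.eventually_all]
          intro k
          by_cases hk : k = f ω
          · exact Eventually.of_forall fun ω' h => absurd hk h
          · filter_upwards [h2 k hk] with ω' h _
            exact h
        filter_upwards [h3, self_mem_nhdsWithin] with ω' h4 h5
        by_contra h6
        exact h4 _ h6 (hf ω' h5)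
      exact (continuousWithinAt_const (b := f ω)).congr_of_eventuallyEq h1 rfl
    refine ⟨f ω₀, fun ω hω => ?_⟩
    rw [← hΩ.constant hc hω hω₀]
    exact hf ω hω
  choose s hs using hex
  have hsi : Function.Injective s := by
    intro a b hab
    apply hGi ω₀ hω₀
    rw [hs a ω₀ hω₀, hs b ω₀ hω₀, hab]
  exact ⟨Equiv.ofBijective s (Finite.injective_iff_bijective.1 hsi), fun ω hω j => hs j ω hω⟩

/-- **The distinct roots over a convex set, with multiplicities.** -/
theorem exists_sections_mul (hΩ : IsOpen Ω) (hc : Convex ℝ Ω) {p : Fin d → E → ℂ} (hp : ∀ i, ∀ ω ∈ Ω, AnalyticAt ℂ (p i) ω)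
    (hs : ∀ ω ∈ Ω, ∀ l : Fin d → ℂ, (∀ t, pv d (fun i => p i ω) t = ∏ j, (t - l j)) → (Finset.univ.image l).card = e) :
    ∃ (T : E → Fin e → ℂ) (μ : Fin e → ℕ), (∀ k, 1 ≤ μ k) ∧ (∀ ω ∈ Ω, AnalyticAt ℂ T ω) ∧ (∀ ω ∈ Ω, Function.Injective (T ω)) ∧
      ∀ ω ∈ Ω, ∀ t, pv d (fun i => p i ω) t = ∏ k, (t - T ω k) ^ μ k := by
  classical
  rcases Set.eq_empty_or_nonempty Ω with he | ⟨ω₀, hω₀⟩
  · refine ⟨0, fun _ => 1, fun _ => le_rfl, fun ω hω => ?_, fun ω hω => ?_, fun ω hω => ?_⟩ <;>
    · rw [he] at hω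
      exact absurd hω (Set.notMem_empty ω)
  -- roots
  choose l hl using fun x : E => exists_roots fun i => p i x
  have hm' : ∀ x : E, ∃ m : Fin e → ℂ, x ∈ Ω →
      Function.Injective m ∧ (∀ j, ∃ k, l x j = m k) ∧ ∀ k, ∃ j, m k = l x j := by
    intro x
    by_cases h : x ∈ Ω
    · obtain ⟨m, h1⟩ := exists_distinct (hs x h (l x) (hl x))
      exact ⟨m, fun _ => h1⟩
    · exact ⟨0, fun h' => absurd h' h⟩
  choose m hm using hm'
  -- power sums
  choose S hSa hS using fun k => exists_psum (d := d) k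
  have hSx : ∀ k {x : E}, x ∈ Ω → AnalyticAt ℂ (fun y => ∑ j, l y j ^ k) x := by
    intro k x hx
    have h1 : (fun y => ∑ j, l y j ^ k) = fun y => S k (fun i => p i y) := by
      funext y
      exact hS k _ _ (hl y)
    rw [h1]
    exact (hSa k _).fun_comp (analyticAt_pi_iff.2 fun i => hp i x hx)
  -- the coefficients of the reduced polynomial
  have hqa : ∀ i : Fin e, ∀ y ∈ Ω, AnalyticAt ℂ (fun y => (mp (m y)).coeff i) y := by
    intro i y hy
    obtain ⟨h3, h4, h5⟩ := hm y hy
    refine solve_analytic (A := fun y => Matrix.of fun i j : Fin e => ∑ k, l y k ^ ((i : ℕ) + j)) (b := fun y i => -∑ k, l y k ^ ((i : ℕ) + e))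
      (c := fun y i => (mp (m y)).coeff i) ?_ ?_ (hankel_det h3 h4 h5) ?_ i
    · intro a b
      exact hSx _ hy
    · intro a
      exact (hSx _ hy).fun_neg
    · filter_upwards [hΩ.mem_nhds hy] with y' h6
      obtain ⟨h8, h9, -⟩ := hm y' h6
      exact hankel_solve h8 h9
  have hq : ∀ y, ∀ t, pv e (fun i : Fin e => (mp (m y)).coeff i) t = ∏ j, (t - m y j) := fun y t => pv_coeff _ _
  have hsimp : Simp Ω (fun (i : Fin e) y => (mp (m y)).coeff i) := by
    intro y hy l' hl'
    exact inj_of_prod (hm y hy).1 fun t => by rw [← hl', hq]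
  obtain ⟨T, hTa, hTr⟩ := exists_sections hΩ hc hqa hsimp
  have hTp : ∀ y ∈ Ω, ∀ t, ∏ j, (t - T y j) = ∏ j, (t - m y j) := by
    intro y hy t
    rw [← hq y t]
    exact (pv_of_rm (hTr y hy) t).symm
  have hTi : ∀ y ∈ Ω, Function.Injective (T y) := fun y hy => inj_of_prod (hm y hy).1 (hTp y hy)
  have hT1 : ∀ y ∈ Ω, (∀ j, ∃ k, l y j = T y k) ∧ ∀ k, ∃ j, T y k = l y j := by
    intro y hy
    obtain ⟨h7, h8, h9⟩ := hm y hy
    have h10 := hTp y hy
    refine ⟨fun j => ?_, fun k => ?_⟩
    · obtain ⟨k, hk⟩ := h8 j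
      have h11 := h10 (m y k)
      rw [Finset.prod_eq_zero (f := fun j => m y k - m y j) (Finset.mem_univ k) (sub_self _)] at h11
      obtain ⟨k', -, hk'⟩ := Finset.prod_eq_zero_iff.1 h11
      exact ⟨k', by rw [hk]; exact sub_eq_zero.1 hk'⟩
    · have h11 := h10 (T y k)
      rw [Finset.prod_eq_zero (f := fun j => T y k - T y j) (Finset.mem_univ k) (sub_self _)] at h11
      obtain ⟨k', -, hk'⟩ := Finset.prod_eq_zero_iff.1 h11.symm
      obtain ⟨j, hj⟩ := h9 k'
      exact ⟨j, by rw [← hj]; exact sub_eq_zero.1 hk'⟩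
  -- multiplicities are continuous
  have hmc : ∀ k, ∀ s ∈ Ω, ContinuousAt (fun s => (mu (l s) (T s) k : ℂ)) s := by
    intro k s hsU
    refine (solve_analytic (A := fun s : E => (Matrix.vandermonde (T s)).transpose) (b := fun s i => ∑ j, l s j ^ (i : ℕ))
      (c := fun s k => (mu (l s) (T s) k : ℂ)) ?_ ?_ ?_ ?_ k).continuousAt
    · intro i j
      simp only [Matrix.transpose_apply, Matrix.vandermonde_apply]
      exact ((analyticAt_pi_iff.1 (hTa s hsU)) j).fun_pow _
    · intro i
      exact hSx i hsU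
    · rw [Matrix.det_transpose]
      exact Matrix.det_vandermonde_ne_zero_iff.2 (hTi s hsU)
    · filter_upwards [hΩ.mem_nhds hsU] with s' hs'
      funext i
      have h3 := sum_mu (hTi s' hs') (hT1 s' hs').1 (fun t => t ^ (i : ℕ))
      rw [h3, Matrix.mulVec, dotProduct]
      refine Finset.sum_congr rfl fun k _ => ?_
      rw [Matrix.transpose_apply, Matrix.vandermonde_apply, mul_comm]
  have hconst : ∀ k, ∀ s ∈ Ω, mu (l s) (T s) k = mu (l ω₀) (T ω₀) k := by
    intro k s hsU
    have hcc : ContinuousOn (fun s => mu (l s) (T s) k) Ω := by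
      intro s hsU
      have h1 : ContinuousAt (fun s => (mu (l s) (T s) k : ℂ)) s := hmc k s hsU
      have h2 : IsClosedEmbedding (fun k : ℕ => (k : ℂ)) := by
        have h3 := Complex.isometry_ofReal.isClosedEmbedding.comp Nat.isClosedEmbedding_coe_real
        exact h3
      exact (h2.isInducing.continuousAt_iff.2 h1).continuousWithinAt
    exact hc.isPreconnected.constant hcc hsU hω₀
  refine ⟨T, fun k => mu (l ω₀) (T ω₀) k, fun k => mu_pos (hT1 ω₀ hω₀).2 k, hTa, hTi, fun ω hω t => ?_⟩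
  rw [hl, prod_mu (hTi ω hω) (hT1 ω hω).1 (fun z => t - z)]
  exact Finset.prod_congr rfl fun k _ => by rw [hconst k ω hω]

end

end Pool.Agent.MQ.AJ
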