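import Pool.Agent.MQ3.SmallD
import Pool.Agent.MQ3.FinW
import Pool.Agent.SG2.Fin2

/-!
# MQ3 Small: the main theorem for small classes
-/

set_option autoImplicit false

open Topology Filter Metric MvPolynomial

noncomputable section

namespace Pool.Agent.MQ3

open Pool.Agent.H36.BP (EN)
open Pool.Agent.H14.PP (Tan)
open Pool.Agent.H17 (PN VanishesAt HolomorphicInto)
open Pool.Agent.H17EF (projVar coneE)
open Pool.Agent.H17LG.Variety (FunField)
open Pool.Agent.H13.OT (OrderTwo)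
open Pool.Agent.H62.FC (Homog)
open Pool.Agent.AD (NullClass)
open Pool.Agent.AD.NC (IsSmooth IsOfLogGeneralType)
open Pool.Agent.SY (IsHyperbolicSurface)
open Pool.Agent.SG2 (NegSurf)

variable {N : ℕ}

/-- the curves of order two which are tangent to a web lie in one curve -/
theorem exists_R_tangent {P : Ideal (MvPolynomial (Fin (N + 1)) ℂ)} [P.IsPrime] (hP : Homog P) (hdim : ∃ z : Fin 2 → FunField P, IsTranscendenceBasis ℂ z)
    (hsmooth : IsSmooth P 2) (hgt : IsOfLogGeneralType P (Fin.elim0 : Fin 0 → MvPolynomial (Fin (N + 1)) ℂ) 2) {m : ℕ} (hm : 1 ≤ m)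
    (θ : WDiff (coneE P) m) (hθ : coneE P ⊆ closure {x | x ∈ coneE P ∧ ∃ v, Tan (coneE P) x v ∧ θ.toFun x v ≠ 0}) :
    ∃ (R : MvPolynomial (Fin (N + 1)) ℂ) (d : ℕ), R.IsHomogeneous d ∧ R ∉ P ∧ ∀ f : ℂ → PN N, HolomorphicInto f Set.univ → OrderTwo f →
      (∀ z, f z ∈ projVar P) → (∃ z w, f z ≠ f w) → TangentW θ f → ∀ z, VanishesAt R (f z) := by
  obtain ⟨R, d, hR, hRP, h⟩ := exists_R_web hP hdim hsmooth hgt hm θ hθ
  exact ⟨R, d, hR, hRP, fun f _ h2 hfX hne ht => curves_of_lifts hP hR h h2 hfX hne ht⟩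

/-- the members of a small class lie in one curve -/
theorem exists_R_small {P : Ideal (MvPolynomial (Fin (N + 1)) ℂ)} [P.IsPrime] (hP : Homog P) (hdim : ∃ z : Fin 2 → FunField P, IsTranscendenceBasis ℂ z)
    (hsmooth : IsSmooth P 2) (hgt : IsOfLogGeneralType P (Fin.elim0 : Fin 0 → MvPolynomial (Fin (N + 1)) ℂ) 2) {A : Set (ℂ → PN N)}
    (hs : SmallClass P A) :
    ∃ (R : MvPolynomial (Fin (N + 1)) ℂ) (d : ℕ), R.IsHomogeneous d ∧ R ∉ P ∧ ∀ f : ℂ → PN N, HolomorphicInto f Set.univ → OrderTwo f →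
      (∀ z, f z ∈ projVar P) → (∃ z w, f z ≠ f w) → f ∈ A → ∀ z, VanishesAt R (f z) := by
  obtain ⟨m, θ, R₁, d₁, hm, hθ, hR₁, hRP₁, h₁⟩ := hs
  obtain ⟨R₂, d₂, hR₂, hRP₂, h₂⟩ := exists_R_tangent hP hdim hsmooth hgt hm θ hθ
  refine ⟨R₁ * R₂, d₁ + d₂, hR₁.mul hR₂, fun h3 => ?_, fun f hf h2 hfX hfn hfA w => ?_⟩
  · rcases (inferInstance : P.IsPrime).mem_or_mem h3 with h4 | h4
    · exact hRP₁ h4
    · exact hRP₂ h4
  · show eval (f w).rep (R₁ * R₂) = 0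
    rw [map_mul]
    rcases h₁ f hf h2 hfX hfn hfA with h4 | h4
    · have h5 : eval (f w).rep R₁ = 0 := h4 w
      rw [h5, zero_mul]
    · have h5 : eval (f w).rep R₂ = 0 := h₂ f hf h2 hfX hfn h4 w
      rw [h5, mul_zero]

/-- **SE**, for small null classes. -/
theorem main_small {P : Ideal (MvPolynomial (Fin (N + 1)) ℂ)} {m j : ℕ} {Ω : EN N → EN N → EN N → ℂ} {κ : Type}
    {Q : κ → MvPolynomial (Fin (N + 1)) ℂ} {e μ : ℕ} [P.IsPrime] (hP : Homog P) (hdim : ∃ z : Fin 2 → FunField P, IsTranscendenceBasis ℂ z)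
    (hsmooth : IsSmooth P 2) (hgt : IsOfLogGeneralType P (Fin.elim0 : Fin 0 → MvPolynomial (Fin (N + 1)) ℂ) 2)
    (hX : NegSurf P m j Ω Q e μ) (A : Set (ℂ → PN N)) (hA : NullClass P A) (hs : SmallClass P A) : IsHyperbolicSurface P := by
  obtain ⟨R, d, hR, hRP, h⟩ := exists_R_small hP hdim hsmooth hgt hs
  exact Pool.Agent.SG2.main_neg hP hdim hsmooth hgt hX A hA R d hR hRP h

end Pool.Agent.MQ3
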