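import Pool.Agent.MQ3.RForm

/-!
# MQ3 SmallD: small classes of entire curves
-/

set_option autoImplicit false

open MvPolynomial

namespace Pool.Agent.MQ3

open Pool.Agent.H36.BP (EN)
open Pool.Agent.H14.PP (Tan)
open Pool.Agent.H17 (PN VanishesAt HolomorphicInto)
open Pool.Agent.H17EF (projVar coneE)
open Pool.Agent.H13.OT (OrderTwo)

/-- The set `A` of entire curves in the surface of `P` is small: its nonconstant members with `T_f (r) = O (r ^ 2)` lie in one curve `{R = 0}` or are tangent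
to one twisted symmetric differential `θ` of degree `m ≥ 1` which is not `0` at the points of a dense subset of the surface. -/
def SmallClass {N : ℕ} (P : Ideal (MvPolynomial (Fin (N + 1)) ℂ)) (A : Set (ℂ → PN N)) : Prop :=
  ∃ (m : ℕ) (θ : WDiff (coneE P) m) (R : MvPolynomial (Fin (N + 1)) ℂ) (d : ℕ), 1 ≤ m ∧
    coneE P ⊆ closure {x | x ∈ coneE P ∧ ∃ v, Tan (coneE P) x v ∧ θ.toFun x v ≠ 0} ∧ R.IsHomogeneous d ∧ R ∉ P ∧
      ∀ f : ℂ → PN N, HolomorphicInto f Set.univ → OrderTwo f → (∀ z, f z ∈ projVar P) → (∃ z w, f z ≠ f w) → f ∈ A →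
        (∀ z, VanishesAt R (f z)) ∨ TangentW θ f

end Pool.Agent.MQ3
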