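import Mathlib

/-!
# MQ3 Split

The roots of a separable polynomial whose coefficients are holomorphic functions on a convex open set are holomorphic functions.
-/

set_option autoImplicit false

open Topology Filter Polynomial

noncomputable section

namespace Pool.Agent.MQ3

variable {Ω : Set (ℂ × ℂ)} {n : ℕ} {P : ℂ × ℂ → ℂ[X]}

lemma card_rootsF {Q : ℂ[X]} (hs : Q.Separable) (hn : Q.natDegree = n) : Q.roots.toFinset.card = n := by
  rw [Multiset.toFinset_card_of_nodup (Polynomial.nodup_roots hs), ← hn]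
  exact IsAlgClosed.card_roots_eq_natDegree

lemma exists_enum {Q : ℂ[X]} (hs : Q.Separable) (hn : Q.natDegree = n) :
    ∃ t : Fin n → ℂ, Function.Injective t ∧ ∀ z, Q.IsRoot z ↔ ∃ k, t k = z := by
  have hc := card_rootsF hs hn
  have h0 : Q ≠ 0 := hs.ne_zero
  let e := (Finset.equivFinOfCardEq hc).symm
  refine ⟨fun k => (e k : ℂ), fun i j h => e.injective (Subtype.ext h), fun z => ⟨fun hz => ?_, ?_⟩⟩
  · have hm : z ∈ Q.roots.toFinset := by
      rw [Multiset.mem_toFinset, mem_roots h0]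
      exact hz
    exact ⟨e.symm ⟨z, hm⟩, by simp⟩
  · rintro ⟨k, rfl⟩
    have := (e k).2
    rw [Multiset.mem_toFinset, mem_roots h0] at this
    exact this

/-- `n` distinct roots are all the roots -/
lemma all_roots {Q : ℂ[X]} (hs : Q.Separable) (hn : Q.natDegree = n) {t : Fin n → ℂ} (hi : Function.Injective t)
    (hr : ∀ k, Q.IsRoot (t k)) {z : ℂ} (hz : Q.IsRoot z) : ∃ k, t k = z := by
  classical
  have hc := card_rootsF hs hn
  have h0 : Q ≠ 0 := hs.ne_zero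
  have hsub : Finset.univ.image t ⊆ Q.roots.toFinset := by
    intro w hw
    obtain ⟨k, -, rfl⟩ := Finset.mem_image.1 hw
    rw [Multiset.mem_toFinset, mem_roots h0]
    exact hr k
  have heq : Finset.univ.image t = Q.roots.toFinset := by
    apply Finset.eq_of_subset_of_card_le hsub
    rw [hc, Finset.card_image_of_injective _ hi, Finset.card_univ, Fintype.card_fin]
  have hm : z ∈ Finset.univ.image t := by
    rw [heq, Multiset.mem_toFinset, mem_roots h0]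
    exact hz
  obtain ⟨k, -, hk⟩ := Finset.mem_image.1 hm
  exact ⟨k, hk⟩

/-- the polynomial as a function of the point and the variable -/
def ev (P : ℂ × ℂ → ℂ[X]) (v : (ℂ × ℂ) × ℂ) : ℂ := (P v.1).eval v.2

lemma ev_eq {v : (ℂ × ℂ) × ℂ} (h : (P v.1).natDegree = n) : ev P v = ∑ i ∈ Finset.range (n + 1), (P v.1).coeff i * v.2 ^ i := by
  rw [ev, eval_eq_sum_range, h]

lemma ev_der {v : (ℂ × ℂ) × ℂ} (h : (P v.1).natDegree = n) :
    (P v.1).derivative.eval v.2 = ∑ i ∈ Finset.range (n + 1), (P v.1).coeff i * (i * v.2 ^ (i - 1)) := by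
  rw [derivative_eval, sum_over_range' _ _ (n + 1) (by rw [h]; omega)]
  · exact Finset.sum_congr rfl fun i _ => by ring
  · intro i
    simp

lemma analyticAt_ev (ho : IsOpen Ω) (han : ∀ i, AnalyticOnNhd ℂ (fun p => (P p).coeff i) Ω)
    (hdeg : ∀ p ∈ Ω, (P p).natDegree = n) {p : ℂ × ℂ} (hp : p ∈ Ω) (t : ℂ) : AnalyticAt ℂ (ev P) (p, t) := by
  have h1 : AnalyticAt ℂ (fun v : (ℂ × ℂ) × ℂ => ∑ i ∈ Finset.range (n + 1), (P v.1).coeff i * v.2 ^ i) (p, t) := by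
    apply Finset.analyticAt_fun_sum
    intro i _
    have ha : AnalyticAt ℂ (fun v : (ℂ × ℂ) × ℂ => (P v.1).coeff i) (p, t) :=
      AnalyticAt.comp' (g := fun p => (P p).coeff i) (f := Prod.fst) (han i p hp) analyticAt_fst
    exact ha.mul (analyticAt_snd.pow i)
  refine h1.congr ?_
  have hn : Ω ×ˢ (Set.univ : Set ℂ) ∈ 𝓝 (p, t) := (ho.prod isOpen_univ).mem_nhds ⟨hp, trivial⟩
  filter_upwards [hn] with v hv
  rw [ev_eq (hdeg _ hv.1)]

lemma fderiv_ev (ho : IsOpen Ω) (han : ∀ i, AnalyticOnNhd ℂ (fun p => (P p).coeff i) Ω)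
    (hdeg : ∀ p ∈ Ω, (P p).natDegree = n) {p : ℂ × ℂ} (hp : p ∈ Ω) (t s : ℂ) :
    fderiv ℂ (ev P) (p, t) (0, s) = s * (P p).derivative.eval t := by
  have hd := (analyticAt_ev ho han hdeg hp t).differentiableAt
  have h1 : HasFDerivAt (fun w : ℂ => (p, w)) (ContinuousLinearMap.inr ℂ (ℂ × ℂ) ℂ) t := hasFDerivAt_prodMk_right p t
  have h2 := (hd.hasFDerivAt.comp t h1).hasDerivAt
  have h3 : HasDerivAt (fun w : ℂ => (P p).eval w) ((P p).derivative.eval t) t := (P p).hasDerivAt t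
  have h4 := h2.unique h3
  have h5 : fderiv ℂ (ev P) (p, t) (0, 1) = (P p).derivative.eval t := by
    simpa using h4
  have h6 : ((0 : ℂ × ℂ), s) = s • ((0 : ℂ × ℂ), (1 : ℂ)) := by simp
  rw [h6, map_smul, h5, smul_eq_mul]

/-- the local roots -/
lemma exists_local (ho : IsOpen Ω) (han : ∀ i, AnalyticOnNhd ℂ (fun p => (P p).coeff i) Ω)
    (hdeg : ∀ p ∈ Ω, (P p).natDegree = n) (hsep : ∀ p ∈ Ω, (P p).Separable) {p : ℂ × ℂ} (hp : p ∈ Ω) {t : ℂ} (ht : (P p).IsRoot t) :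
    ∃ ψ : ℂ × ℂ → ℂ, AnalyticAt ℂ ψ p ∧ ψ p = t ∧ ∀ᶠ v in 𝓝 (p, t), (P v.1).IsRoot v.2 ↔ ψ v.1 = v.2 := by
  have ha := analyticAt_ev ho han hdeg hp t
  have hcd : ContDiffAt ℂ ⊤ (ev P) (p, t) := ha.contDiffAt
  have hne : (P p).derivative.eval t ≠ 0 := by
    intro h0
    obtain ⟨a, b, hab⟩ := hsep p hp
    have h1 := congrArg (Polynomial.eval t) hab
    rw [eval_add, eval_mul, eval_mul, h0, IsRoot.def.1 ht] at h1
    simp at h1
  have hinv : (fderiv ℂ (ev P) (p, t) ∘L ContinuousLinearMap.inr ℂ (ℂ × ℂ) ℂ).IsInvertible := by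
    refine ⟨ContinuousLinearEquiv.unitsEquivAut ℂ (Units.mk0 _ hne), ?_⟩
    ext
    simp [fderiv_ev ho han hdeg hp]
  refine ⟨hcd.implicitFunction (by simp) hinv, ?_, hcd.implicitFunction_apply_self (by simp) hinv, ?_⟩
  · exact (hcd.contDiffAt_implicitFunction (by simp) hinv).analyticAt
  · have h0 : ev P (p, t) = 0 := ht
    have := hcd.eventually_apply_eq_iff_implicitFunction (by simp) hinv
    filter_upwards [this] with v hv
    rw [h0] at hv
    exact hv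

/-- the space of the roots -/
abbrev RootsE (Ω : Set (ℂ × ℂ)) (P : ℂ × ℂ → ℂ[X]) : Type := {e : Ω × ℂ // (P e.1).IsRoot e.2}

/-- the projection -/
def pr (Ω : Set (ℂ × ℂ)) (P : ℂ × ℂ → ℂ[X]) (e : RootsE Ω P) : Ω := e.1.1

lemma continuous_pr : Continuous (pr Ω P) := continuous_fst.comp continuous_subtype_val

lemma isLocalHomeomorph_pr (ho : IsOpen Ω) (han : ∀ i, AnalyticOnNhd ℂ (fun p => (P p).coeff i) Ω)
    (hdeg : ∀ p ∈ Ω, (P p).natDegree = n) (hsep : ∀ p ∈ Ω, (P p).Separable) : IsLocalHomeomorph (pr Ω P) := by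
  classical
  intro e
  obtain ⟨ψ, hψ, hψ0, hev⟩ := exists_local ho han hdeg hsep e.1.1.2 e.2
  have hψc : ∀ᶠ p in 𝓝 (e.1.1 : ℂ × ℂ), AnalyticAt ℂ ψ p := hψ.eventually_analyticAt
  rw [nhds_prod_eq] at hev
  obtain ⟨A, hA, B, hB, hAB⟩ := Filter.mem_prod_iff.1 hev
  obtain ⟨B', hB'B, hB'o, hB'm⟩ := mem_nhds_iff.1 hB
  have hV : ∀ᶠ p in 𝓝 (e.1.1 : ℂ × ℂ), p ∈ A ∧ AnalyticAt ℂ ψ p ∧ ψ p ∈ B' ∧ p ∈ Ω := by
    have h1 : ∀ᶠ p in 𝓝 (e.1.1 : ℂ × ℂ), ψ p ∈ B' := hψ.continuousAt.eventually_mem (by rw [hψ0]; exact hB'o.mem_nhds hB'm)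
    filter_upwards [hA, hψc, h1, ho.mem_nhds e.1.1.2] with p h1 h2 h3 h4 using ⟨h1, h2, h3, h4⟩
  obtain ⟨V, hVs, hVo, hVm⟩ := mem_nhds_iff.1 hV
  have key : ∀ p ∈ V, ∀ t ∈ B', (P p).IsRoot t ↔ ψ p = t := fun p hp t ht => hAB (Set.mk_mem_prod (hVs hp).1 (hB'B ht))
  let inv : Ω → RootsE Ω P := fun p => if h : (p : ℂ × ℂ) ∈ V then ⟨(p, ψ p), (key p h _ (hVs h).2.2.1).2 rfl⟩ else e
  refine ⟨{ toFun := pr Ω P
            invFun := inv
            source := {x | (x.1.1 : ℂ × ℂ) ∈ V ∧ x.1.2 ∈ B'}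
            target := {p | (p : ℂ × ℂ) ∈ V}
            map_source' := fun x hx => hx.1
            map_target' := ?_
            left_inv' := ?_
            right_inv' := ?_
            open_source := ?_
            open_target := ?_
            continuousOn_toFun := continuous_pr.continuousOn
            continuousOn_invFun := ?_ }, ⟨hVm, hB'm⟩, rfl⟩
  · intro p hp
    have hp' : (p : ℂ × ℂ) ∈ V := hp
    simp only [inv, dif_pos hp', Set.mem_setOf_eq]
    exact ⟨hp', (hVs hp').2.2.1⟩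
  · rintro ⟨⟨p, t⟩, hr⟩ ⟨hx1, hx2⟩
    have hx1' : (p : ℂ × ℂ) ∈ V := hx1
    have : ψ p = t := (key p hx1' t hx2).1 hr
    simp only [pr, inv, dif_pos hx1']
    subst this
    rfl
  · intro p hp
    have hp' : (p : ℂ × ℂ) ∈ V := hp
    simp only [inv, dif_pos hp', pr]
  · intro p hp
    have hp' : (p : ℂ × ℂ) ∈ V := hp
    have hVn : {q : Ω | (q : ℂ × ℂ) ∈ V} ∈ 𝓝 p := (hVo.preimage continuous_subtype_val).mem_nhds hp'
    apply ContinuousAt.continuousWithinAt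
    rw [ContinuousAt, tendsto_subtype_rng]
    have h1 : ContinuousAt (fun q : Ω => ((q, ψ q) : Ω × ℂ)) p :=
      continuousAt_id.prodMk ((hVs hp').2.1.continuousAt.comp continuous_subtype_val.continuousAt)
    have h2 : ((inv p : RootsE Ω P) : Ω × ℂ) = (p, ψ p) := by simp only [inv, dif_pos hp']
    rw [h2]
    refine h1.congr' ?_
    filter_upwards [hVn] with q hq
    have hq' : (q : ℂ × ℂ) ∈ V := hq
    simp only [inv, dif_pos hq']
  · exact (hVo.preimage (continuous_subtype_val.comp (continuous_fst.comp continuous_subtype_val))).inter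
      (hB'o.preimage (continuous_snd.comp continuous_subtype_val))
  · exact hVo.preimage continuous_subtype_val

lemma isClosedMap_pr (ho : IsOpen Ω) (han : ∀ i, AnalyticOnNhd ℂ (fun p => (P p).coeff i) Ω)
    (hdeg : ∀ p ∈ Ω, (P p).natDegree = n) (hsep : ∀ p ∈ Ω, (P p).Separable) : IsClosedMap (pr Ω P) := by
  classical
  rw [isClosedMap_iff_comap_nhds_le]
  intro p W hW
  obtain ⟨t, hti, htr⟩ := exists_enum (hsep p p.2) (hdeg p p.2)
  have hloc := fun k => exists_local ho han hdeg hsep p.2 ((htr (t k)).2 ⟨k, rfl⟩)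
  choose ψ hψ hψ0 hev using hloc
  -- the sections are distinct roots near p
  have hd : ∀ᶠ q in 𝓝 (p : ℂ × ℂ), ∀ k l, k ≠ l → ψ k q ≠ ψ l q := by
    rw [eventually_all]
    intro k
    rw [eventually_all]
    intro l
    by_cases hkl : k = l
    · exact Eventually.of_forall fun q h => absurd hkl h
    · have : ψ k p ≠ ψ l p := by
        rw [hψ0, hψ0]
        exact fun h => hkl (hti h)
      filter_upwards [((hψ k).continuousAt.sub (hψ l).continuousAt).eventually_ne (sub_ne_zero.2 this)] with q hq _ using sub_ne_zero.1 hq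
  have hr : ∀ᶠ q in 𝓝 (p : ℂ × ℂ), ∀ k, (P q).IsRoot (ψ k q) := by
    rw [eventually_all]
    intro k
    have h1 : Tendsto (fun q => (q, ψ k q)) (𝓝 (p : ℂ × ℂ)) (𝓝 ((p : ℂ × ℂ), t k)) := by
      have : ContinuousAt (fun q => (q, ψ k q)) (p : ℂ × ℂ) := continuousAt_id.prodMk (hψ k).continuousAt
      rw [ContinuousAt, hψ0] at this
      exact this
    filter_upwards [h1.eventually (hev k)] with q hq using hq.2 rfl
  have hall : ∀ᶠ q in 𝓝 (p : ℂ × ℂ), ∀ z, (P q).IsRoot z → ∃ k, ψ k q = z := by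
    filter_upwards [hd, hr, ho.mem_nhds p.2] with q h1 h2 h3 z hz
    exact all_roots (hsep q h3) (hdeg q h3) (t := fun k => ψ k q)
      (fun k l hkl => by
        by_contra hne
        exact h1 k l hne hkl) h2 hz
  -- the sections are in W
  obtain ⟨W', hW'o, hW'p, hW'W⟩ := mem_nhdsSet_iff_exists.1 hW
  obtain ⟨O, hOo, hOW⟩ := isOpen_induced_iff.1 hW'o
  have hsec : ∀ᶠ q : Ω in 𝓝 p, ∀ k, ((q, ψ k q) : Ω × ℂ) ∈ O := by
    rw [eventually_all]
    intro k
    have h1 : ContinuousAt (fun q : Ω => ((q, ψ k q) : Ω × ℂ)) p :=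
      continuousAt_id.prodMk ((hψ k).continuousAt.comp continuous_subtype_val.continuousAt)
    apply h1.eventually_mem
    apply hOo.mem_nhds
    have hm : (⟨(p, t k), (htr (t k)).2 ⟨k, rfl⟩⟩ : RootsE Ω P) ∈ W' := hW'p rfl
    rw [← hOW] at hm
    rw [hψ0]
    exact hm
  have hall' : ∀ᶠ q : Ω in 𝓝 p, ∀ z, (P q).IsRoot z → ∃ k, ψ k q = z := continuous_subtype_val.continuousAt.eventually hall
  rw [mem_comap]
  refine ⟨_, hsec.and hall', ?_⟩
  rintro ⟨⟨q, z⟩, hz⟩ hq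
  obtain ⟨h1, h2⟩ : (∀ k, ((q, ψ k q) : Ω × ℂ) ∈ O) ∧ ∀ z, (P q).IsRoot z → ∃ k, ψ k q = z := hq
  obtain ⟨k, rfl⟩ := h2 z hz
  apply hW'W
  rw [← hOW]
  exact h1 k

lemma isCoveringMap_pr (ho : IsOpen Ω) (han : ∀ i, AnalyticOnNhd ℂ (fun p => (P p).coeff i) Ω)
    (hdeg : ∀ p ∈ Ω, (P p).natDegree = n) (hsep : ∀ p ∈ Ω, (P p).Separable) : IsCoveringMap (pr Ω P) := by
  rw [isCoveringMap_iff_isCoveringMapOn_univ]
  apply (isClosedMap_pr ho han hdeg hsep).isCoveringMapOn_of_isLocalHomeomorphOn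
  · intro p _
    obtain ⟨t, hti, htr⟩ := exists_enum (hsep p p.2) (hdeg p p.2)
    apply (Set.finite_range (fun k => (⟨(p, t k), (htr (t k)).2 ⟨k, rfl⟩⟩ : RootsE Ω P))).subset
    rintro ⟨⟨q, z⟩, hz⟩ hq
    have hq' : q = p := hq
    subst hq'
    obtain ⟨k, rfl⟩ := (htr z).1 hz
    exact ⟨k, rfl⟩
  · exact isLocalHomeomorph_iff_isLocalHomeomorphOn_univ.1 (isLocalHomeomorph_pr ho han hdeg hsep)

/-- The roots of a separable polynomial with holomorphic coefficients on a convex open set are holomorphic functions. -/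
theorem exists_roots (hc : Convex ℝ Ω) (ho : IsOpen Ω) (hne : Ω.Nonempty) (han : ∀ i, AnalyticOnNhd ℂ (fun p => (P p).coeff i) Ω)
    (hdeg : ∀ p ∈ Ω, (P p).natDegree = n) (hsep : ∀ p ∈ Ω, (P p).Separable) :
    ∃ T : Fin n → ℂ × ℂ → ℂ, (∀ k, AnalyticOnNhd ℂ (T k) Ω) ∧ (∀ p ∈ Ω, Function.Injective fun k => T k p) ∧
      (∀ p ∈ Ω, ∀ k, (P p).IsRoot (T k p)) ∧ ∀ p ∈ Ω, ∀ t, (P p).IsRoot t → ∃ k, T k p = t := by
  classical
  obtain ⟨p₀, hp₀⟩ := hne
  have hcov := isCoveringMap_pr ho han hdeg hsep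
  haveI : ContractibleSpace Ω := hc.contractibleSpace ⟨p₀, hp₀⟩
  haveI : LocallyPathConnectedSpace Ω := ho.locallyPathConnectedSpace
  obtain ⟨t, hti, htr⟩ := exists_enum (hsep p₀ hp₀) (hdeg p₀ hp₀)
  have hex := fun k => (hcov.existsUnique_continuousMap_lifts (ContinuousMap.id Ω) ⟨p₀, hp₀⟩
    (⟨(⟨p₀, hp₀⟩, t k), (htr (t k)).2 ⟨k, rfl⟩⟩ : RootsE Ω P) rfl).exists
  choose F hF0 hF using hex
  have hF1 : ∀ k (p : Ω), (F k p).1.1 = p := fun k p => congrFun (hF k) p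
  have hroot : ∀ k (p : Ω), (P p).IsRoot (F k p).1.2 := fun k p => by
    have := (F k p).2
    rw [hF1] at this
    exact this
  have hinj : ∀ (p : Ω), Function.Injective fun k => (F k p).1.2 := by
    intro p k l hkl
    have h1 : F k p = F l p := Subtype.ext (Prod.ext (by rw [hF1, hF1]) hkl)
    have h2 := (hcov.existsUnique_continuousMap_lifts (ContinuousMap.id Ω) p (F k p) (congrFun (hF k) p)).unique
      ⟨rfl, hF k⟩ ⟨h1.symm, hF l⟩
    have h3 : F k ⟨p₀, hp₀⟩ = F l ⟨p₀, hp₀⟩ := by rw [h2]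
    rw [hF0, hF0] at h3
    exact hti (congrArg (fun e : RootsE Ω P => e.1.2) h3)
  refine ⟨fun k p => if h : p ∈ Ω then (F k ⟨p, h⟩).1.2 else 0, ?_, ?_, ?_, ?_⟩
  · intro k p hp
    obtain ⟨ψ, hψ, hψ0, hev⟩ := exists_local ho han hdeg hsep hp (hroot k ⟨p, hp⟩)
    refine hψ.congr ?_
    have hc1 : ContinuousAt (fun q : Ω => ((q : ℂ × ℂ), (F k q).1.2)) ⟨p, hp⟩ := by
      apply Continuous.continuousAt
      exact continuous_subtype_val.prodMk (continuous_snd.comp (continuous_subtype_val.comp (F k).continuous))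
    have h1 : ∀ᶠ q : Ω in 𝓝 ⟨p, hp⟩, (P q).IsRoot (F k q).1.2 ↔ ψ q = (F k q).1.2 := hc1.eventually hev
    have h2 : ∀ᶠ q : Ω in 𝓝 ⟨p, hp⟩, ψ q = if h : (q : ℂ × ℂ) ∈ Ω then (F k ⟨q, h⟩).1.2 else 0 := by
      filter_upwards [h1] with q hq
      rw [dif_pos q.2]
      exact hq.1 (hroot k q)
    rw [nhds_subtype_eq_comap, eventually_comap] at h2
    filter_upwards [h2, ho.mem_nhds hp] with q hq hqΩ
    exact hq ⟨q, hqΩ⟩ rfl
  · intro p hp k l hkl
    simp only [dif_pos hp] at hkl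
    exact hinj ⟨p, hp⟩ hkl
  · intro p hp k
    simp only [dif_pos hp]
    exact hroot k ⟨p, hp⟩
  · intro p hp z hz
    obtain ⟨k, hk⟩ := all_roots (hsep p hp) (hdeg p hp) (hinj ⟨p, hp⟩) (fun k => hroot k ⟨p, hp⟩) hz
    exact ⟨k, by simp only [dif_pos hp]; exact hk⟩

end Pool.Agent.MQ3
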