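import Pool.Agent.MQ3.Defs
import Pool.Agent.H90.SG.Poly

/-!
# MQ3 Stub: the product per box, the normal crossings model (statements; never import this file in a hand-in)

Every theorem is one module `Pool/Agent/MQ3/<Name>.lean`, namespace `Pool.Agent.MQ3`, with the same statement.
-/

set_option autoImplicit false

open Topology Filter Metric MvPolynomial MeasureTheory

noncomputable section

namespace Pool.Agent.MQ3.Stub

open Pool.Agent.H36.BP (EN fs)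
open Pool.Agent.H14.PP (Tan)
open Pool.Agent.H17BP (Surface)
open Pool.Agent.H17EF (projVar coneE)
open Pool.Agent.H30M (tau)
open Pool.Agent.H62.FC (Homog)
open Pool.Agent.H17LG.Variety (FunField)
open Pool.Agent.H13.SM (conTan)
open Pool.Agent.MQ (lam En)
open Pool.Agent.MQ3

variable {M : ℕ} {X : Set (EN M)} {m : ℕ} {θ : WDiff X m} {l : LF M} {ρ : ℂ × ℂ → EN M}

/-! ## module BoxW (helper4, from WBx, WebR) -/

theorem exists_boxWeb (hX : Surface X) (hm : 1 ≤ m) (hb : NCBox X ρ) (hg : ∀ p ∈ DS, GoodPt θ l (ρ p)) : Nonempty (BoxWeb θ l ρ) := by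
  sorry

/-! ## module WOver (helper4, from Latt, Branch, Lift) -/

theorem exists_webOver (W : BoxWeb θ l ρ) : Nonempty (WebOver W) := by
  sorry

/-! ## module BLift (helper4, from Lift): the lift to a chart -/

section

variable {W : BoxWeb θ l ρ} {F : ℂ → EN M} {U : Set ℂ} {p : ℂ → ℂ × ℂ}

theorem om_open (h : BCrv θ l ρ F U p) (c : MChart W) : IsOpen (c.Om F U p) := by
  sorry

theorem om_sub (h : BCrv θ l ρ F U p) (c : MChart W) : c.Om F U p ⊆ U := by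
  sorry

theorem lf_an (h : BCrv θ l ρ F U p) (c : MChart W) : ∀ z ∈ c.Om F U p, AnalyticAt ℂ (c.lf F U p) z := by
  sorry

theorem lf_mem (h : BCrv θ l ρ F U p) (c : MChart W) : ∀ z ∈ c.Om F U p, c.lf F U p z ∈ c.D ∧ c.κ (c.lf F U p z) = p z := by
  sorry

theorem lf_ne (h : BCrv θ l ρ F U p) (c : MChart W) : ∀ z ∈ c.Om F U p, ∀ᶠ w in 𝓝[≠] z, (c.lf F U p w).1 * (c.lf F U p w).2 ≠ 0 ∧
    deriv (c.lf F U p) w ≠ 0 := by
  sorry

/-- the lift is tangent to the foliation -/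
theorem lf_tan (h : BCrv θ l ρ F U p) (c : MChart W) : ∀ z ∈ c.Om F U p,
    (c.v (c.lf F U p z)).1 * (deriv (c.lf F U p) z).2 = (c.v (c.lf F U p z)).2 * (deriv (c.lf F U p) z).1 := by
  sorry

/-- off the axes the slope is the value of the sheet -/
theorem lf_slope (h : BCrv θ l ρ F U p) (c : MChart W) : ∀ z ∈ c.Om F U p, ∀ P : ℂ × ℂ, pexp P = c.lf F U p z → slp l F z = W.T c.k (ln c.w c.w' P) := by
  sorry

theorem lf_closed (h : BCrv θ l ρ F U p) (c : MChart W) {C : Set ℂ} (hC : IsClosed C) (hCU : C ⊆ U) {K : Set (ℂ × ℂ)} (hK : IsCompact K) :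
    IsClosed {z | z ∈ C ∧ z ∈ c.Om F U p ∧ c.lf F U p z ∈ K} := by
  sorry

theorem om_disjoint (h : BCrv θ l ρ F U p) (c c' : MChart W) (hcc : ∀ r s : ℤ, (W.a ^ r * W.b ^ s) c.k ≠ c'.k) {z : ℂ} (hz : z ∈ c.Om F U p) :
    z ∉ c'.Om F U p := by
  sorry

end

/-- module Dens (helper58): the density of a chart; `A` does not depend on the curve -/
theorem exists_dens {W : BoxWeb θ l ρ} (c : MChart W) {r r' : ℝ} (hr : 0 < r) (hrr : r < r') (hr1 : r' < 1) (S C : ℝ) :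
    ∃ A : ℝ, ∀ (F : ℂ → EN M) (U : Set ℂ) (p : ℂ → ℂ × ℂ), BCrv θ l ρ F U p → ∀ lm : ℂ → ℝ, Continuous lm → (∀ z, 0 ≤ lm z) →
      IsClosed {z | z ∈ U ∧ ‖(p z).1‖ ≤ r' ∧ ‖(p z).2‖ ≤ r'} → (∀ z ∈ U, ‖(p z).1‖ ≤ r' → ‖(p z).2‖ ≤ r' → ‖deriv p z‖ ≤ C * lm z) →
      ∃ lm' : ℂ → ℝ, Continuous lm' ∧ (∀ z, lm z ≤ lm' z) ∧
        (∃ K : ℝ, ∀ R, 1 ≤ R → ∫ z, tau R z * lm' z ^ 2 ≤ A * (∫ z, tau R z * lm z ^ 2) + K) ∧
        ∀ z ∈ c.Om F U p, ‖(p z).1‖ ≤ r → ‖(p z).2‖ ≤ r → ‖c.lf F U p z‖ ≤ S → ‖deriv (c.lf F U p) z‖ ≤ lm' z := by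
  sorry

/-! ## modules Glob (helper98, helper22, helper31) -/

/-- the constants `A`, `CK` do not depend on the curve -/
theorem exists_ncModel {P : Ideal (MvPolynomial (Fin (M + 1)) ℂ)} [P.IsPrime] (hP : Homog P) {z : Fin 2 → FunField P} (hz : IsTranscendenceBasis ℂ z)
    (hsm : ∀ y : Fin (M + 1) → ℂ, y ≠ 0 → (∀ Q ∈ P, eval y Q = 0) → Module.finrank ℂ (conTan P y) ≤ 3) {RD : MvPolynomial (Fin (M + 1)) ℂ}
    {d : ℕ} (hd : RD.IsHomogeneous d) (hR : RD ∉ P) :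
    ∃ (X : NCModel P RD) (A : ℝ) (CK : X.ι → Set (ℂ × ℂ) → ℝ), ∀ F : ℂ → EN M, Differentiable ℂ F → (∀ z, F z ∈ coneE P) →
      (∃ z w, ∀ c : ℂ, F z ≠ c • F w) → (∃ z, eval (F z).ofLp RD ≠ 0) → ∃ (Y : NCLift X F) (lm : ℂ → ℝ), NCDens Y A CK lm := by
  sorry

end Pool.Agent.MQ3.Stub
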