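import Pool.Agent.MQ3.NDefs

/-!
# MQ3 StubR: the pieces of `exists_cov` (statements; never import this file in a hand-in)

Proof of `exists_cov` (assembly, module CovN).  `Bad` base points of `C i`: there is a chart point `q ∈ cp ⟨i, a⟩` over it which is not `Reg`; finitely many
(`bad_finite`).  `𝔅'` = a maximal subset without related pairs (`exists_max_sub` with `R = rel`).  For `y ∈ 𝔅'` (box `i`): the finite set of the chart points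
`(a, q)`, `‖q.1‖, ‖q.2‖ ≤ 1`, over `y` which are not `RegA` (`nonA_finite`); a maximal subset of pairwise separated ones (`Sepd`, the first alternative of `avatar`): these
are the centers `Q j`; any other one `q` has, by `avatar`, a neighbourhood `N` with `lf ∈ N → lf' = Φ (lf) ∈ ball (Q j) (s j)` for some `j`.  Radii `r j` by
`exists_radii` (`Sepd` for two centers over the same `y` by maximality, over different `y` by `sepd_of_not_rel`), `≤ r₀`, and inside the isolated-regular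
neighbourhoods (`reg_off`); `s j = r j / 2`.  The box of `y`: `u = none`, `K a = {‖q.1‖, ‖q.2‖ ≤ 1, κ q ∈ closedBall y t} ∖ ⋃ N`, `t` by `shrink` with the open set
`{RegA}` (`regA_open`).  For `p ∈ C i` not related to any `y ∈ 𝔅'`: all chart points over `p` are `Reg`; if all are `RegA`: `u = none`, `K a = {.., κ q ∈ closedBall p t}`;
otherwise `p ∈ DS`, `u` from `exists_u` (`type_B`), again `shrink`.  Finitely many by compactness of `C i`; a point of `C i` related to `y ∈ 𝔅'` has the neighbourhood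
`{x | rel i x i(y) (Φ x), Φ x ∈ ball y (t / 4)}` and `NCLift.full` gives the cover.
-/

set_option autoImplicit false

open Topology Filter Metric MvPolynomial MeasureTheory

noncomputable section

namespace Pool.Agent.MQ3.Stub

open Pool.Agent.H36.BP (EN fs)
open Pool.Agent.H17BP (Surface IsForm)
open Pool.Agent.H17EF (projVar coneE)
open Pool.Agent.MQ3

variable {M : ℕ} {P : Ideal (MvPolynomial (Fin (M + 1)) ℂ)} {RD : MvPolynomial (Fin (M + 1)) ℂ} {m : ℕ} {X : NCModel P RD} {θ : WDiff (coneE P) m}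
  {l : LF M} {S : Web X θ l} {Ra : MvPolynomial (Fin (M + 1)) ℂ}

/-! ## module RegO (helper54) -/

theorem regA_open {k : S.ι} {q : ℂ × ℂ} (h : RegA S Ra k q) : ∀ᶠ x in 𝓝 q, RegA S Ra k x := by sorry

/-- from `reg_off` -/
theorem reg_open {d dR : ℕ} (hd : RD.IsHomogeneous d) (hdR : Ra.IsHomogeneous dR) (hRa : RNe X Ra) {k : S.ι} {q : ℂ × ℂ} (h : Reg S Ra k q) :
    ∀ᶠ x in 𝓝 q, Reg S Ra k x := by sorry

/-- off the crossing the fibre is finite; over the crossing a point which is not `RegA` is not `Reg` -/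
theorem nonA_finite {d dR : ℕ} (hd : RD.IsHomogeneous d) (hdR : Ra.IsHomogeneous dR) (hRa : RNe X Ra) (k : S.ι) {p : ℂ × ℂ} (hp : p ∈ X.B k.1) :
    {q : ℂ × ℂ | ‖q.1‖ ≤ 1 ∧ ‖q.2‖ ≤ 1 ∧ S.κ k q = p ∧ ¬ RegA S Ra k q}.Finite := by sorry

theorem bad_finite {d dR : ℕ} (hd : RD.IsHomogeneous d) (hdR : Ra.IsHomogeneous dR) (hRa : RNe X Ra) (i : X.ι) :
    {p : ℂ × ℂ | p ∈ X.C i ∧ ∃ (a : (S.V i).ι) (q : ℂ × ℂ), ‖q.1‖ ≤ 1 ∧ ‖q.2‖ ≤ 1 ∧ S.κ ⟨i, a⟩ q = p ∧ ¬ Reg S Ra ⟨i, a⟩ q}.Finite := by sorry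

/-! ## module RadL (helper62): topology -/

theorem shrink {E : Type*} [TopologicalSpace E] {K O : Set E} (hK : IsCompact K) {f : E → ℂ × ℂ} (hf : ContinuousOn f K) (hO : IsOpen O) {p : ℂ × ℂ}
    (h : ∀ q ∈ K, f q = p → q ∈ O) : ∃ t > 0, ∀ q ∈ K, f q ∈ closedBall p t → q ∈ O := by sorry

theorem exists_max_sub {α : Type*} {A : Set α} (hA : A.Finite) (R : α → α → Prop) : ∃ B ⊆ A, (∀ x ∈ B, ∀ y ∈ B, x ≠ y → ¬ R x y) ∧
    ∀ x ∈ A, x ∉ B → ∃ y ∈ B, R x y ∨ R y x := by sorry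

/-- two chart points are separated: no curve is near both -/
def Sepd (S : Web X θ l) (k k' : S.ι) (q q' : ℂ × ℂ) : Prop :=
  ∃ N ∈ 𝓝 q, ∃ N' ∈ 𝓝 q', ∀ F : ℂ → EN M, WCrv θ RD F → ∀ Y : NCLift X F, ∀ z, z ∈ S.Om Y k → S.lf Y k z ∈ N → z ∈ S.Om Y k' → S.lf Y k' z ∉ N'

theorem Sepd.symm {k k' : S.ι} {q q' : ℂ × ℂ} (h : Sepd S k k' q q') : Sepd S k' k q' q := by sorry

/-- over points which are not related -/
theorem sepd_of_not_rel {k k' : S.ι} {q q' : ℂ × ℂ} (hq : q ∈ S.D k) (hq' : q' ∈ S.D k') (h : ¬ X.rel k.1 (S.κ k q) k'.1 (S.κ k' q')) :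
    Sepd S k k' q q' := by sorry

theorem exists_radii {n : ℕ} (k : Fin n → S.ι) (Q : Fin n → ℂ × ℂ) (h : ∀ j j', j ≠ j' → Sepd S (k j) (k j') (Q j) (Q j')) (r₀ : Fin n → ℝ)
    (h₀ : ∀ j, 0 < r₀ j) : ∃ r : Fin n → ℝ, (∀ j, 0 < r j ∧ r j ≤ r₀ j) ∧ ∀ F : ℂ → EN M, WCrv θ RD F → ∀ Y : NCLift X F, ∀ j j', j ≠ j' → ∀ z,
      z ∈ S.Om Y (k j) → S.lf Y (k j) z ∈ closedBall (Q j) (r j) → z ∈ S.Om Y (k j') → S.lf Y (k j') z ∉ closedBall (Q j') (r j') := by sorry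

/-! ## module TypB (helper49): points on the curve `{Ra = 0}` -/

/-- over a point with a `Reg` chart point which is not `RegA` there is a local equation; `κ` is étale off the axes -/
theorem exists_u {d dR : ℕ} (hd : RD.IsHomogeneous d) (hdR : Ra.IsHomogeneous dR) (hRa : RNe X Ra) {k : S.ι} {q : ℂ × ℂ} (h : Reg S Ra k q)
    (hA : ¬ RegA S Ra k q) : S.κ k q ∈ DS ∧ ∃ (u : ℂ × ℂ → ℂ) (t : ℝ), 0 < t ∧ closedBall (S.κ k q) t ⊆ DS ∧ closedBall (S.κ k q) t ⊆ X.B k.1 ∧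
      AnalyticOnNhd ℂ u (closedBall (S.κ k q) t) ∧
      ∀ p ∈ closedBall (S.κ k q) t, ∀ᶠ x in 𝓝 p, (eval (X.ρ k.1 x).ofLp Ra = 0 ↔ u x = 0) ∧ (u x = 0 → fderiv ℂ u x ≠ 0) := by sorry

/-! ## module NPt (helper85): one box -/

/-- a point over which all chart points are regular -/
theorem box_good {d dR : ℕ} (hd : RD.IsHomogeneous d) (hdR : Ra.IsHomogeneous dR) (hRa : RNe X Ra) {i : X.ι} {p : ℂ × ℂ} (hp : p ∈ X.B i)
    (h : ∀ (a : (S.V i).ι) (q : ℂ × ℂ), ‖q.1‖ ≤ 1 → ‖q.2‖ ≤ 1 → S.κ ⟨i, a⟩ q = p → Reg S Ra ⟨i, a⟩ q) :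
    ∃ (t : ℝ) (u : Option (ℂ × ℂ → ℂ)) (K : (S.V i).ι → Set (ℂ × ℂ)), 0 < t ∧ closedBall p t ⊆ X.B i ∧ (∀ a, IsCompact (K a)) ∧
      (∀ u', u = some u' → closedBall p t ⊆ DS ∧ AnalyticOnNhd ℂ u' (closedBall p t) ∧
        ∀ p' ∈ closedBall p t, ∀ᶠ x in 𝓝 p', (eval (X.ρ i x).ofLp Ra = 0 ↔ u' x = 0) ∧ (u' x = 0 → fderiv ℂ u' x ≠ 0)) ∧
      (∀ a, u = none → ∀ q ∈ K a, RegA S Ra ⟨i, a⟩ q ∧ S.κ ⟨i, a⟩ q ∈ closedBall p t) ∧
      (∀ a u', u = some u' → ∀ q ∈ K a, Reg S Ra ⟨i, a⟩ q ∧ S.κ ⟨i, a⟩ q ∈ closedBall p t) ∧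
      ∀ F : ℂ → EN M, WCrv θ RD F → ∀ Y : NCLift X F, ∀ z ∈ Y.U i, Y.p i z ∈ closedBall p t → ∃ a, z ∈ S.Om Y ⟨i, a⟩ ∧ S.lf Y ⟨i, a⟩ z ∈ K a := by sorry

/-- a point with neighbourhoods `N a` of the points over it which are not `RegA` -/
theorem box_bad {i : X.ι} {p : ℂ × ℂ} (hp : p ∈ X.B i) (N : (S.V i).ι → Set (ℂ × ℂ)) (hN : ∀ a, IsOpen (N a))
    (h : ∀ (a : (S.V i).ι) (q : ℂ × ℂ), ‖q.1‖ ≤ 1 → ‖q.2‖ ≤ 1 → S.κ ⟨i, a⟩ q = p → q ∉ N a → RegA S Ra ⟨i, a⟩ q) :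
    ∃ (t : ℝ) (K : (S.V i).ι → Set (ℂ × ℂ)), 0 < t ∧ closedBall p t ⊆ X.B i ∧ (∀ a, IsCompact (K a)) ∧
      (∀ a, ∀ q ∈ K a, RegA S Ra ⟨i, a⟩ q ∧ S.κ ⟨i, a⟩ q ∈ closedBall p t) ∧
      ∀ F : ℂ → EN M, WCrv θ RD F → ∀ Y : NCLift X F, ∀ z ∈ Y.U i, Y.p i z ∈ closedBall p t →
        (∀ a, z ∈ S.Om Y ⟨i, a⟩ → S.lf Y ⟨i, a⟩ z ∉ N a) → ∃ a, z ∈ S.Om Y ⟨i, a⟩ ∧ S.lf Y ⟨i, a⟩ z ∈ K a := by sorry

/-! ## module CovN (helper4, helper16): `exists_cov` from these pieces, `avatar`, `reg_off` (statement in StubN) -/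

end Pool.Agent.MQ3.Stub
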