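import Pool.Agent.MQ3.Latt

/-!
# MQ3 Tor: the change of monomial charts is analytic at limit points

Two charts with bases `w, w'` and `u, u'` of the same lattice, cones of one fan; `Gm a b c d` is the change of charts off the axes.
-/

set_option autoImplicit false

open Topology Filter Metric

noncomputable section

namespace Pool.Agent.MQ3

/-- the monomial map with integral exponents -/
def Gm (a b c d : ℤ) (q : ℂ × ℂ) : ℂ × ℂ := (q.1 ^ a * q.2 ^ b, q.1 ^ c * q.2 ^ d)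

/-- the change of charts from the basis `w, w'` to the basis `u, u'` -/
structure Tr (w w' u u' : ℕ × ℕ) (a b c d : ℤ) : Prop where
  pos : 0 < dt w w'
  pos' : 0 < dt u u'
  e1 : (w.1 : ℤ) = a * u.1 + c * u'.1
  e2 : (w.2 : ℤ) = a * u.2 + c * u'.2
  e3 : (w'.1 : ℤ) = b * u.1 + d * u'.1
  e4 : (w'.2 : ℤ) = b * u.2 + d * u'.2
  det : a * d - b * c = 1
  fan : 0 ≤ dt w' u ∨ 0 ≤ dt u' w ∨ (w = u ∧ w' = u')

variable {w w' u u' : ℕ × ℕ} {a b c d : ℤ}

theorem Tr.symm (h : Tr w w' u u' a b c d) : Tr u u' w w' d (-b) (-c) a where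
  pos := h.pos'
  pos' := h.pos
  e1 := by rw [h.e1, h.e3]; linear_combination (-(u.1 : ℤ)) * h.det
  e2 := by rw [h.e2, h.e4]; linear_combination (-(u.2 : ℤ)) * h.det
  e3 := by rw [h.e1, h.e3]; linear_combination (-(u'.1 : ℤ)) * h.det
  e4 := by rw [h.e2, h.e4]; linear_combination (-(u'.2 : ℤ)) * h.det
  det := by linear_combination h.det
  fan := by
    rcases h.fan with h1 | h1 | ⟨h1, h2⟩
    · exact Or.inr (Or.inl h1)
    · exact Or.inl h1
    · exact Or.inr (Or.inr ⟨h1.symm, h2.symm⟩)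

/-- `P` and `P'` are limits of corresponding points off the axes -/
def NearG (a b c d : ℤ) (P P' : ℂ × ℂ) : Prop :=
  ∀ U ∈ 𝓝 P, ∀ U' ∈ 𝓝 P', ∃ q ∈ U, q.1 ≠ 0 ∧ q.2 ≠ 0 ∧ Gm a b c d q ∈ U'

theorem Gm_ne {q : ℂ × ℂ} (h1 : q.1 ≠ 0) (h2 : q.2 ≠ 0) : (Gm a b c d q).1 ≠ 0 ∧ (Gm a b c d q).2 ≠ 0 :=
  ⟨mul_ne_zero (zpow_ne_zero _ h1) (zpow_ne_zero _ h2), mul_ne_zero (zpow_ne_zero _ h1) (zpow_ne_zero _ h2)⟩

theorem Gm_inv (hdet : a * d - b * c = 1) {q : ℂ × ℂ} (h1 : q.1 ≠ 0) (h2 : q.2 ≠ 0) :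
    Gm d (-b) (-c) a (Gm a b c d q) = q := by
  have key : ∀ (x y : ℂ) (i j k l r s : ℤ), x ≠ 0 → y ≠ 0 →
      (x ^ i * y ^ j) ^ r * (x ^ k * y ^ l) ^ s = x ^ (i * r + k * s) * y ^ (j * r + l * s) := by
    intro x y i j k l r s hx hy
    rw [mul_zpow, mul_zpow, ← zpow_mul, ← zpow_mul, ← zpow_mul, ← zpow_mul, zpow_add₀ hx, zpow_add₀ hy]
    ring
  unfold Gm
  ext
  · simp only
    rw [key _ _ _ _ _ _ _ _ h1 h2]
    have e1 : a * d + c * (-b) = 1 := by linarith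
    have e2 : b * d + d * (-b) = 0 := by ring
    rw [e1, e2, zpow_one, zpow_zero, mul_one]
  · simp only
    rw [key _ _ _ _ _ _ _ _ h1 h2]
    have e1 : a * (-c) + c * a = 0 := by ring
    have e2 : b * (-c) + d * a = 1 := by linarith
    rw [e1, e2, zpow_one, zpow_zero, one_mul]

theorem NearG.symm (hdet : a * d - b * c = 1) {P P' : ℂ × ℂ} (h : NearG a b c d P P') : NearG d (-b) (-c) a P' P := by
  intro U' hU' U hU
  obtain ⟨q, hq, h1, h2, h3⟩ := h U hU U' hU'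
  obtain ⟨g1, g2⟩ := Gm_ne (a := a) (b := b) (c := c) (d := d) h1 h2
  refine ⟨Gm a b c d q, h3, g1, g2, ?_⟩
  rw [Gm_inv hdet h1 h2]
  exact hq

/-- pure inequality: if `a A + b B` is bounded below, `A` is large and `a < 0`, then `b > 0` -/
private theorem pos_of_bdd {a b : ℤ} {A B C : ℝ} (ha : a < 0) (hB : -C ≤ B) (hC : 0 ≤ C) (hA : C + |(b : ℝ)| * C < A)
    (h : -C ≤ a * A + b * B) : 0 < b := by
  by_contra hb
  rw [not_lt] at hb
  have ha' : (a : ℝ) ≤ -1 := by exact_mod_cast (by omega : a ≤ -1)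
  have hb' : (b : ℝ) ≤ 0 := by exact_mod_cast hb
  have hA0 : 0 < A := by
    have : 0 ≤ |(b : ℝ)| * C := by positivity
    linarith
  have h1 : (a : ℝ) * A ≤ -A := by nlinarith
  have h2 : (b : ℝ) * B ≤ |(b : ℝ)| * C := by
    rw [abs_of_nonpos hb']
    nlinarith
  linarith

theorem Tr.nonneg (h : Tr w w' u u' a b c d) {P P' : ℂ × ℂ} (hn : NearG a b c d P P') :
    (P.1 = 0 → 0 ≤ a ∧ 0 ≤ c) ∧ (P.2 = 0 → 0 ≤ b ∧ 0 ≤ d) := by
  have hu : 0 < u.1 + u.2 := by
    rcases Nat.eq_zero_or_pos (u.1 + u.2) with h0 | h0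
    · exfalso
      have h1 : u.1 = 0 := by omega
      have h2 : u.2 = 0 := by omega
      have := h.pos'
      unfold dt at this
      rw [h1, h2] at this
      simp at this
    · exact h0
  have hu' : 0 < u'.1 + u'.2 := by
    rcases Nat.eq_zero_or_pos (u'.1 + u'.2) with h0 | h0
    · exfalso
      have h1 : u'.1 = 0 := by omega
      have h2 : u'.2 = 0 := by omega
      have := h.pos'
      unfold dt at this
      rw [h1, h2] at this
      simp at this
    · exact h0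
  have hw : 0 < w.1 + w.2 := by
    rcases Nat.eq_zero_or_pos (w.1 + w.2) with h0 | h0
    · exfalso
      have h1 : w.1 = 0 := by omega
      have h2 : w.2 = 0 := by omega
      have := h.pos
      unfold dt at this
      rw [h1, h2] at this
      simp at this
    · exact h0
  -- determinants
  have d1 : dt w u' = a * dt u u' := by
    unfold dt; rw [h.e1, h.e2]; ring
  have d2 : dt w' u' = b * dt u u' := by
    unfold dt; rw [h.e3, h.e4]; ring
  have d3 : dt u w = c * dt u u' := by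
    unfold dt; rw [h.e1, h.e2]; ring
  have d4 : dt u w' = d * dt u u' := by
    unfold dt; rw [h.e3, h.e4]; ring
  have hp := h.pos'
  -- bounds
  set C : ℝ := |Real.log (‖P‖ + 1)| + |Real.log (‖P'‖ + 1)| with hCdef
  have hC0 : 0 ≤ C := by positivity
  have hlog : ∀ (z : ℂ) (r : ℝ), z ≠ 0 → ‖z‖ ≤ r + 1 → |Real.log (r + 1)| ≤ C → -C ≤ -Real.log ‖z‖ := by
    intro z r hz hr hC
    have h1 : Real.log ‖z‖ ≤ Real.log (r + 1) := Real.log_le_log (norm_pos_iff.2 hz) hr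
    have h2 := le_abs_self (Real.log (r + 1))
    linarith
  have hCP : |Real.log (‖P‖ + 1)| ≤ C := by
    have : 0 ≤ |Real.log (‖P'‖ + 1)| := abs_nonneg _
    linarith
  have hCP' : |Real.log (‖P'‖ + 1)| ≤ C := by
    have : 0 ≤ |Real.log (‖P‖ + 1)| := abs_nonneg _
    linarith
  have near : ∀ (V : Set (ℂ × ℂ)), V ∈ 𝓝 P → ∃ q ∈ V, q.1 ≠ 0 ∧ q.2 ≠ 0 ∧ -C ≤ -Real.log ‖q.1‖ ∧ -C ≤ -Real.log ‖q.2‖ ∧
      -C ≤ a * (-Real.log ‖q.1‖) + b * (-Real.log ‖q.2‖) ∧ -C ≤ c * (-Real.log ‖q.1‖) + d * (-Real.log ‖q.2‖) := by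
    intro V hV
    obtain ⟨q, hq, h1, h2, h3⟩ := hn (V ∩ ball P 1) (inter_mem hV (ball_mem_nhds _ one_pos)) (ball P' 1) (ball_mem_nhds _ one_pos)
    obtain ⟨g1, g2⟩ := Gm_ne (a := a) (b := b) (c := c) (d := d) h1 h2
    have nq : ‖q‖ ≤ ‖P‖ + 1 := by
      have := hq.2
      rw [mem_ball, dist_eq_norm] at this
      have h5 := norm_sub_norm_le q P
      linarith
    have ng : ‖Gm a b c d q‖ ≤ ‖P'‖ + 1 := by
      rw [mem_ball, dist_eq_norm] at h3
      have h5 := norm_sub_norm_le (Gm a b c d q) P'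
      linarith
    have lg : ∀ i j : ℤ, Real.log ‖q.1 ^ i * q.2 ^ j‖ = i * Real.log ‖q.1‖ + j * Real.log ‖q.2‖ := by
      intro i j
      rw [norm_mul, norm_zpow, norm_zpow, Real.log_mul (zpow_ne_zero _ (norm_ne_zero_iff.2 h1)) (zpow_ne_zero _ (norm_ne_zero_iff.2 h2)),
        Real.log_zpow, Real.log_zpow]
    refine ⟨q, hq.1, h1, h2, hlog _ _ h1 ((norm_fst_le q).trans nq) hCP, hlog _ _ h2 ((norm_snd_le q).trans nq) hCP, ?_, ?_⟩
    · have := hlog _ _ g1 ((norm_fst_le _).trans ng) hCP'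
      have e : (Gm a b c d q).1 = q.1 ^ a * q.2 ^ b := rfl
      rw [e, lg] at this
      linarith
    · have := hlog _ _ g2 ((norm_snd_le _).trans ng) hCP'
      have e : (Gm a b c d q).2 = q.1 ^ c * q.2 ^ d := rfl
      rw [e, lg] at this
      linarith
  -- points with a large logarithm
  have large1 : ∀ K : ℝ, P.1 = 0 → {q : ℂ × ℂ | q.1 ≠ 0 → K < -Real.log ‖q.1‖} ∈ 𝓝 P := by
    intro K h0
    have hc : ContinuousAt (fun q : ℂ × ℂ => ‖q.1‖) P := continuous_fst.norm.continuousAt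
    have h1 : ∀ᶠ q : ℂ × ℂ in 𝓝 P, ‖q.1‖ < Real.exp (-K) := by
      apply hc.eventually_lt_const
      simp only [h0, norm_zero]
      exact Real.exp_pos _
    filter_upwards [h1] with q hq hne
    have := Real.log_lt_log (norm_pos_iff.2 hne) hq
    rw [Real.log_exp] at this
    linarith
  have large2 : ∀ K : ℝ, P.2 = 0 → {q : ℂ × ℂ | q.2 ≠ 0 → K < -Real.log ‖q.2‖} ∈ 𝓝 P := by
    intro K h0
    have hc : ContinuousAt (fun q : ℂ × ℂ => ‖q.2‖) P := continuous_snd.norm.continuousAt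
    have h1 : ∀ᶠ q : ℂ × ℂ in 𝓝 P, ‖q.2‖ < Real.exp (-K) := by
      apply hc.eventually_lt_const
      simp only [h0, norm_zero]
      exact Real.exp_pos _
    filter_upwards [h1] with q hq hne
    have := Real.log_lt_log (norm_pos_iff.2 hne) hq
    rw [Real.log_exp] at this
    linarith
  refine ⟨fun h0 => ⟨?_, ?_⟩, fun h0 => ⟨?_, ?_⟩⟩
  · by_contra hneg
    rw [not_le] at hneg
    obtain ⟨q, hq, n1, n2, -, i2, i3, -⟩ := near _ (large1 (C + |(b : ℝ)| * C) h0)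
    have hb : 0 < b := pos_of_bdd hneg i2 hC0 (hq n1) i3
    have f1 : 0 < dt u' w := by
      rw [dt_swap, d1]
      have := mul_neg_of_neg_of_pos hneg hp
      linarith
    have f2 : 0 < dt w' u' := by rw [d2]; exact mul_pos hb hp
    have f3 := dt_trans hu' f2.le f1.le
    have f4 := h.pos
    rw [dt_swap] at f3
    linarith
  · by_contra hneg
    rw [not_le] at hneg
    obtain ⟨q, hq, n1, n2, -, i2, -, i4⟩ := near _ (large1 (C + |(d : ℝ)| * C) h0)
    have hd : 0 < d := pos_of_bdd hneg i2 hC0 (hq n1) i4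
    have f1 : 0 < dt w u := by
      rw [dt_swap, d3]
      have := mul_neg_of_neg_of_pos hneg hp
      linarith
    have f2 : 0 < dt u w' := by rw [d4]; exact mul_pos hd hp
    rcases h.fan with h1 | h1 | ⟨h1, h2⟩
    · rw [dt_swap] at h1; linarith
    · have f3 := dt_trans hw h1 f1.le
      rw [dt_swap] at f3
      linarith
    · rw [h1, dt_self] at f1
      exact lt_irrefl _ f1
  · by_contra hneg
    rw [not_le] at hneg
    obtain ⟨q, hq, n1, n2, i1, -, i3, -⟩ := near _ (large2 (C + |(a : ℝ)| * C) h0)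
    have ha : 0 < a := pos_of_bdd hneg i1 hC0 (hq n2) (by linarith)
    have f1 : 0 < dt w u' := by rw [d1]; exact mul_pos ha hp
    have f2 : dt w' u' < 0 := by rw [d2]; exact mul_neg_of_neg_of_pos hneg hp
    rcases h.fan with h1 | h1 | ⟨h1, h2⟩
    · have f3 := dt_trans hu h1 hp.le
      linarith
    · rw [dt_swap] at h1; linarith
    · rw [h2, dt_self] at f2
      exact lt_irrefl _ f2
  · by_contra hneg
    rw [not_le] at hneg
    obtain ⟨q, hq, n1, n2, i1, -, -, i4⟩ := near _ (large2 (C + |(c : ℝ)| * C) h0)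
    have hc : 0 < c := pos_of_bdd hneg i1 hC0 (hq n2) (by linarith)
    have f1 : 0 < dt u w := by rw [d3]; exact mul_pos hc hp
    have f2 : 0 < dt w' u := by
      rw [dt_swap, d4]
      have := mul_neg_of_neg_of_pos hneg hp
      linarith
    have f3 := dt_trans hu f2.le f1.le
    have f4 := h.pos
    rw [dt_swap] at f3
    linarith

theorem analyticAt_Gm {P : ℂ × ℂ} (h1 : P.1 = 0 → 0 ≤ a ∧ 0 ≤ c) (h2 : P.2 = 0 → 0 ≤ b ∧ 0 ≤ d) : AnalyticAt ℂ (Gm a b c d) P := by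
  have key : ∀ (f : ℂ × ℂ → ℂ) (n : ℤ), AnalyticAt ℂ f P → (f P = 0 → 0 ≤ n) → AnalyticAt ℂ (fun q => f q ^ n) P := by
    intro f n hf hn
    by_cases h0 : f P = 0
    · exact hf.zpow_nonneg (hn h0)
    · exact hf.zpow h0
  exact ((key _ a analyticAt_fst fun h => (h1 h).1).mul (key _ b analyticAt_snd fun h => (h2 h).1)).prod
    ((key _ c analyticAt_fst fun h => (h1 h).2).mul (key _ d analyticAt_snd fun h => (h2 h).2))

/-- the two charts have the same map near `P` -/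
theorem Tr.mono_Gm (h : Tr w w' u u' a b c d) {q : ℂ × ℂ} (h1 : q.1 = 0 → 0 ≤ a ∧ 0 ≤ c) (h2 : q.2 = 0 → 0 ≤ b ∧ 0 ≤ d) :
    mono u u' (Gm a b c d q) = mono w w' q := by
  have key : ∀ (x : ℂ) (i j : ℤ) (m n k : ℕ), (x = 0 → 0 ≤ i ∧ 0 ≤ j) → (k : ℤ) = i * m + j * n → (x ^ i) ^ m * (x ^ j) ^ n = x ^ k := by
    intro x i j m n k hx hk
    by_cases h0 : x = 0
    · obtain ⟨hi, hj⟩ := hx h0
      obtain ⟨i', rfl⟩ := Int.eq_ofNat_of_zero_le hi
      obtain ⟨j', rfl⟩ := Int.eq_ofNat_of_zero_le hj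
      have hk' : k = i' * m + j' * n := by exact_mod_cast hk
      rw [zpow_natCast, zpow_natCast, ← pow_mul, ← pow_mul, ← pow_add, hk']
    · rw [← zpow_natCast x k, hk, zpow_add₀ h0, zpow_mul, zpow_mul, zpow_natCast, zpow_natCast]
  have e1 := h.e1
  have e2 := h.e2
  have e3 := h.e3
  have e4 := h.e4
  unfold mono Gm
  ext
  · simp only
    rw [mul_pow, mul_pow]
    have k1 := key q.1 a c u.1 u'.1 w.1 h1 e1
    have k2 := key q.2 b d u.1 u'.1 w'.1 h2 e3
    rw [← k1, ← k2]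
    ring
  · simp only
    rw [mul_pow, mul_pow]
    have k1 := key q.1 a c u.2 u'.2 w.2 h1 e2
    have k2 := key q.2 b d u.2 u'.2 w'.2 h2 e4
    rw [← k1, ← k2]
    ring

/-- **The change of charts is analytic at limit points.** -/
theorem Tr.ext (h : Tr w w' u u' a b c d) {P P' : ℂ × ℂ} (hn : NearG a b c d P P') :
    AnalyticAt ℂ (Gm a b c d) P ∧ Gm a b c d P = P' ∧ AnalyticAt ℂ (Gm d (-b) (-c) a) P' ∧ Gm d (-b) (-c) a P' = P ∧
      ∀ᶠ q in 𝓝 P, mono u u' (Gm a b c d q) = mono w w' q := by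
  obtain ⟨h1, h2⟩ := h.nonneg hn
  obtain ⟨h1', h2'⟩ := h.symm.nonneg (hn.symm h.det)
  have hA := analyticAt_Gm h1 h2
  have hA' : AnalyticAt ℂ (Gm d (-b) (-c) a) P' := analyticAt_Gm h1' h2'
  have lim : ∀ {a b c d : ℤ} {P P' : ℂ × ℂ}, NearG a b c d P P' → ContinuousAt (Gm a b c d) P → Gm a b c d P = P' := by
    intro a b c d P P' hn hc
    by_contra hne
    obtain ⟨U, hU, V, hV, hd⟩ := Filter.disjoint_iff.1 (disjoint_nhds_nhds.2 hne)
    obtain ⟨q, hq, -, -, hq'⟩ := hn _ (hc hU) _ hV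
    exact (Set.disjoint_left.1 hd) hq hq'
  refine ⟨hA, lim hn hA.continuousAt, hA', lim (hn.symm h.det) hA'.continuousAt, ?_⟩
  have q1 : ∀ᶠ q : ℂ × ℂ in 𝓝 P, q.1 = 0 → 0 ≤ a ∧ 0 ≤ c := by
    by_cases h0 : P.1 = 0
    · exact Eventually.of_forall fun q _ => h1 h0
    · filter_upwards [continuous_fst.continuousAt.eventually_ne h0] with q hq hq'
      exact absurd hq' hq
  have q2 : ∀ᶠ q : ℂ × ℂ in 𝓝 P, q.2 = 0 → 0 ≤ b ∧ 0 ≤ d := by
    by_cases h0 : P.2 = 0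
    · exact Eventually.of_forall fun q _ => h2 h0
    · filter_upwards [continuous_snd.continuousAt.eventually_ne h0] with q hq hq'
      exact absurd hq' hq
  filter_upwards [q1, q2] with q g1 g2
  exact h.mono_Gm g1 g2

end Pool.Agent.MQ3
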