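import Pool.Agent.MQ3.SecMul
import Pool.Agent.MQ3.Mono

/-!
# MQ3 WebR: the sheets of a (non-reduced) web over a normal crossing point

`∑ A i (x, y) t ^ i` (`i ≤ m`), bounded analytic coefficients off the axes of the unit bidisc, leading coefficient without zeros and exactly `e`
distinct roots off the axes: over the product of two half planes the roots are the sheets of a web box, with constant multiplicities.
-/

set_option autoImplicit false

open Topology Filter Polynomial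

noncomputable section

namespace Pool.Agent.MQ3

open Pool.Agent.MQ.AJ

variable {m e : ℕ} {A : ℕ → ℂ × ℂ → ℂ}

/-- the polynomial of the null directions -/
def Pe (m : ℕ) (A : ℕ → ℂ × ℂ → ℂ) (p : ℂ × ℂ) (t : ℂ) : ℂ := ∑ i ∈ Finset.range (m + 1), A i p * t ^ i

theorem Pe_eq {p : ℂ × ℂ} (h : A m p ≠ 0) (t : ℂ) : Pe m A p t = A m p * pv m (fun i : Fin m => A i p / A m p) t := by
  rw [Pe, Finset.sum_range_succ, Finset.sum_range, pv, mul_add, Finset.mul_sum, add_comm]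
  congr 1
  refine Finset.sum_congr rfl fun i _ => ?_
  rw [← mul_assoc, mul_div_cancel₀ _ h]

/-- a bound for the roots of a monic polynomial -/
theorem root_bound {c : ℕ → ℂ} {B : ℝ} (hB : ∀ i < m, ‖c i‖ ≤ B) {w : ℂ} (hw : w ^ m + ∑ i ∈ Finset.range m, c i * w ^ i = 0) : ‖w‖ ≤ 1 + m * B := by
  rcases Nat.eq_zero_or_pos m with rfl | hm
  · simp at hw
  have hB0 : 0 ≤ B := (norm_nonneg _).trans (hB 0 hm)
  by_contra hcon
  push Not at hcon
  have h1 : 1 < ‖w‖ := lt_of_le_of_lt (by nlinarith [mul_nonneg (Nat.cast_nonneg (α := ℝ) m) hB0]) hcon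
  have h2 : ‖w‖ ^ m ≤ m * B * ‖w‖ ^ (m - 1) := by
    have h3 : w ^ m = -∑ i ∈ Finset.range m, c i * w ^ i := eq_neg_of_add_eq_zero_left hw
    rw [← norm_pow, h3, norm_neg]
    refine (norm_sum_le _ _).trans ?_
    have h4 : ∀ i ∈ Finset.range m, ‖c i * w ^ i‖ ≤ B * ‖w‖ ^ (m - 1) := by
      intro i hi
      have hi' := Finset.mem_range.1 hi
      rw [norm_mul, norm_pow]
      exact mul_le_mul (hB i hi') (pow_le_pow_right₀ h1.le (by omega)) (by positivity) hB0
    refine (Finset.sum_le_sum h4).trans ?_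
    rw [Finset.sum_const, Finset.card_range, nsmul_eq_mul]
    exact le_of_eq (by ring)
  have h3 : ‖w‖ ^ m = ‖w‖ * ‖w‖ ^ (m - 1) := by
    rw [← pow_succ']
    congr 1
    omega
  rw [h3] at h2
  have h4 : 0 < ‖w‖ ^ (m - 1) := by positivity
  have h5 := le_of_mul_le_mul_right h2 h4
  linarith

/-- the bound of `A_m t` at a root `t` -/
theorem root_bound' {C : ℝ} {p : ℂ × ℂ} (hb : ∀ i ≤ m, ‖A i p‖ ≤ C) {t : ℂ} (ht : Pe m A p t = 0) (hm0 : 0 < m) :
    ‖A m p * t‖ ≤ 1 + m * (1 + C) ^ m := by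
  have hC0 : 0 ≤ C := (norm_nonneg _).trans (hb m le_rfl)
  refine root_bound (m := m) (c := fun i => A i p * A m p ^ (m - 1 - i)) (fun i hi => ?_) ?_
  · rw [norm_mul, norm_pow]
    have h1 : ‖A i p‖ ≤ 1 + C := (hb i hi.le).trans (by linarith)
    have h2 : ‖A m p‖ ^ (m - 1 - i) ≤ (1 + C) ^ (m - 1 - i) := pow_le_pow_left₀ (norm_nonneg _) ((hb m le_rfl).trans (by linarith)) _
    calc ‖A i p‖ * ‖A m p‖ ^ (m - 1 - i) ≤ (1 + C) * (1 + C) ^ (m - 1 - i) := mul_le_mul h1 h2 (by positivity) (by positivity)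
      _ = (1 + C) ^ (m - 1 - i + 1) := by rw [pow_succ']
      _ ≤ (1 + C) ^ m := pow_le_pow_right₀ (by linarith) (by omega)
  · have h1 : A m p ^ (m - 1) * Pe m A p t = (A m p * t) ^ m + ∑ i ∈ Finset.range m, A i p * A m p ^ (m - 1 - i) * (A m p * t) ^ i := by
      rw [Pe, Finset.sum_range_succ, mul_add, Finset.mul_sum, add_comm]
      congr 1
      · rw [mul_pow, ← mul_assoc, ← pow_succ]
        congr 2
        omega
      · refine Finset.sum_congr rfl fun i hi => ?_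
        have hi' := Finset.mem_range.1 hi
        have h2 : A m p ^ (m - 1) = A m p ^ (m - 1 - i) * A m p ^ i := by
          rw [← pow_add]
          congr 1
          omega
        rw [h2, mul_pow]
        ring
    rw [← h1, ht, mul_zero]

theorem pexp_per₁ (v : ℂ × ℂ) : pexp (v + per 1 0) = pexp v := by
  unfold pexp per
  simp only [Prod.fst_add, Prod.snd_add, Int.cast_one, one_mul, Int.cast_zero, zero_mul, add_zero]
  rw [Complex.exp_add, Complex.exp_two_pi_mul_I, mul_one]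

theorem pexp_per₂ (v : ℂ × ℂ) : pexp (v + per 0 1) = pexp v := by
  unfold pexp per
  simp only [Prod.fst_add, Prod.snd_add, Int.cast_one, one_mul, Int.cast_zero, zero_mul, add_zero]
  rw [Complex.exp_add, Complex.exp_two_pi_mul_I, mul_one]

theorem convex_HH : Convex ℝ HH := by
  refine Convex.inter ?_ ?_
  · exact convex_halfSpace_lt ((Complex.reLm.comp (LinearMap.fst ℝ ℂ ℂ)).isLinear) 0
  · exact convex_halfSpace_lt ((Complex.reLm.comp (LinearMap.snd ℝ ℂ ℂ)).isLinear) 0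

theorem count_prod {c : Fin e → ℂ} (hc : Function.Injective c) (n : Fin e → ℕ) (k : Fin e) :
    (∏ j, (X - C (c j)) ^ n j : ℂ[X]).roots.count (c k) = n k := by
  classical
  rw [roots_prod _ _ (Finset.prod_ne_zero_iff.2 fun j _ => pow_ne_zero _ (X_sub_C_ne_zero _)), Multiset.count_bind]
  simp only [roots_pow, roots_X_sub_C, Multiset.count_nsmul, Multiset.count_singleton]
  show (Multiset.map _ (Finset.univ : Finset (Fin e)).val).sum = n k
  rw [← Finset.sum_eq_multiset_sum, Finset.sum_eq_single k]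
  · simp
  · intro j _ hj
    rw [if_neg fun h => hj (hc h).symm, mul_zero]
  · intro h
    exact absurd (Finset.mem_univ k) h

/-- equal products have equal multiplicities -/
theorem mult_eq {c c' : Fin e → ℂ} (hc : Function.Injective c) (hc' : Function.Injective c') {n n' : Fin e → ℕ}
    (h : ∀ t, ∏ j, (t - c j) ^ n j = ∏ j, (t - c' j) ^ n' j) {j k : Fin e} (hjk : c j = c' k) : n j = n' k := by
  have h1 : (∏ j, (X - C (c j)) ^ n j : ℂ[X]) = ∏ j, (X - C (c' j)) ^ n' j := by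
    refine Polynomial.funext fun t => ?_
    simp only [eval_prod, eval_pow, eval_sub, eval_X, eval_C]
    exact h t
  rw [← count_prod hc n j, ← count_prod hc' n' k, h1, hjk]

/-- **The sheets over the product of two half planes.** -/
theorem exists_webBox (hA : ∀ i ≤ m, ∀ p ∈ DS, AnalyticAt ℂ (A i) p) {C : ℝ} (hb : ∀ i ≤ m, ∀ p ∈ DS, ‖A i p‖ ≤ C) (hm : ∀ p ∈ DS, A m p ≠ 0)
    (he : ∀ p ∈ DS, {t | Pe m A p t = 0}.ncard = e) :
    ∃ (T : Fin e → ℂ × ℂ → ℂ) (a b : Equiv.Perm (Fin e)) (μ : Fin e → ℕ), WebBox e T a b ∧ (∀ k, 1 ≤ μ k) ∧ (∀ k, μ (a k) = μ k) ∧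
      (∀ k, μ (b k) = μ k) ∧ (∀ v ∈ HH, ∀ t, Pe m A (pexp v) t = A m (pexp v) * ∏ k, (t - T k v) ^ μ k) ∧
      (∀ v ∈ HH, ∀ t, Pe m A (pexp v) t = 0 ↔ ∃ k, T k v = t) ∧ ∃ C' : ℝ, ∀ k, ∀ v ∈ HH, ‖A m (pexp v) * T k v‖ ≤ C' := by
  classical
  have hpe : ∀ v, AnalyticAt ℂ pexp v := fun v => by
    unfold pexp
    exact (analyticAt_fst.cexp).prod (analyticAt_snd.cexp)
  have hp : ∀ i : Fin m, ∀ v ∈ HH, AnalyticAt ℂ (fun v => A i (pexp v) / A m (pexp v)) v := by
    intro i v hv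
    exact ((hA i i.2.le _ (pexp_mem hv)).fun_comp (hpe v)).fun_div ((hA m le_rfl _ (pexp_mem hv)).fun_comp (hpe v)) (hm _ (pexp_mem hv))
  obtain ⟨T, μ, hμ, hTa, hTi, hT⟩ := exists_sections_mul (e := e) isOpen_HH convex_HH hp (fun v hv l hl => by
    have h1 : {t | Pe m A (pexp v) t = 0} = ((Finset.univ.image l : Finset ℂ) : Set ℂ) := by
      ext t
      rw [Set.mem_ofPred_eq, Pe_eq (hm _ (pexp_mem hv)), hl t, mul_eq_zero, or_iff_right (hm _ (pexp_mem hv)), Finset.prod_eq_zero_iff]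
      simp only [Finset.mem_univ, true_and, Finset.coe_image, Finset.coe_univ, Set.image_univ, Set.mem_range, sub_eq_zero]
      exact ⟨fun ⟨j, h⟩ => ⟨j, h.symm⟩, fun ⟨j, h⟩ => ⟨j, h.symm⟩⟩
    rw [← he _ (pexp_mem hv), h1, Set.ncard_coe_finset])
  have hroot : ∀ v ∈ HH, ∀ t, Pe m A (pexp v) t = A m (pexp v) * ∏ k, (t - T v k) ^ μ k := by
    intro v hv t
    rw [Pe_eq (hm _ (pexp_mem hv)), hT v hv t]
  have hroot' : ∀ v ∈ HH, ∀ t, Pe m A (pexp v) t = 0 ↔ ∃ k, T v k = t := by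
    intro v hv t
    rw [hroot v hv t, mul_eq_zero, or_iff_right (hm _ (pexp_mem hv)), Finset.prod_eq_zero_iff]
    constructor
    · rintro ⟨k, -, hk⟩
      exact ⟨k, (sub_eq_zero.1 (pow_eq_zero_iff (by have := hμ k; omega) |>.1 hk)).symm⟩
    · rintro ⟨k, hk⟩
      exact ⟨k, Finset.mem_univ k, by rw [hk, sub_self, zero_pow (by have := hμ k; omega)]⟩
  have hshift : ∀ c : ℂ × ℂ, (∀ v ∈ HH, v + c ∈ HH) → (∀ v, pexp (v + c) = pexp v) →
      ∃ σ : Equiv.Perm (Fin e), (∀ v ∈ HH, ∀ k, T (v + c) k = T v (σ k)) ∧ ∀ k, μ (σ k) = μ k := by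
    intro c hc1 hc2
    obtain ⟨σ, hσ⟩ := exists_perm (F := T) (G := fun v => T (v + c)) convex_HH.isPreconnected (fun v hv => (hTa v hv).continuousAt.continuousWithinAt)
      (fun v hv => by
        have h1 : ContinuousAt T (v + c) := (hTa _ (hc1 v hv)).continuousAt
        exact (ContinuousAt.comp (f := fun v => v + c) h1 (by fun_prop)).continuousWithinAt) hTi (fun v hv => hTi _ (hc1 v hv)) (fun v hv j => by
        have h1 := (hroot' _ (hc1 v hv) (T (v + c) j)).2 ⟨j, rfl⟩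
        rw [hc2] at h1
        obtain ⟨k, hk⟩ := (hroot' v hv _).1 h1
        exact ⟨k, hk.symm⟩)
    refine ⟨σ, hσ, fun k => ?_⟩
    have h0 := HH_mem
    set v : ℂ × ℂ := ((-1 : ℂ), (-1 : ℂ)) with hv
    refine (mult_eq (c := T v) (c' := fun j => T (v + c) j) (hTi v h0) (hTi _ (hc1 v h0)) (n := μ) (n' := μ) (fun t => ?_) (hσ v h0 k).symm)
    have h1 := hroot v h0 t
    have h2 := hroot _ (hc1 v h0) t
    rw [hc2, h1] at h2
    exact mul_left_cancel₀ (hm _ (pexp_mem h0)) h2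
  obtain ⟨a, ha1, ha2⟩ := hshift (per 1 0) (fun v hv => HH_add_per hv 1 0) pexp_per₁
  obtain ⟨b, hb1, hb2⟩ := hshift (per 0 1) (fun v hv => HH_add_per hv 0 1) pexp_per₂
  refine ⟨fun k v => T v k, a, b, μ, ⟨fun k v hv => analyticAt_pi_iff.1 (hTa v hv) k, fun v hv i j hij => hTi v hv hij, fun k v hv => ha1 v hv k,
    fun k v hv => hb1 v hv k⟩, hμ, ha2, hb2, hroot, hroot', 1 + m * (1 + C) ^ m, fun k v hv => ?_⟩
  refine root_bound' (fun i hi => hb i hi _ (pexp_mem hv)) ((hroot' v hv _).2 ⟨k, rfl⟩) ?_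
  rcases Nat.eq_zero_or_pos m with hm0 | hm0
  · exfalso
    subst hm0
    have h1 := (hroot' v hv (T v k)).2 ⟨k, rfl⟩
    rw [Pe, Finset.sum_range_one, pow_zero, mul_one] at h1
    exact hm _ (pexp_mem hv) h1
  · exact hm0

end Pool.Agent.MQ3
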