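import Pool.Agent.MQ3.WBxA
import Pool.Agent.MQ3.Bad
import Pool.Agent.MQ3.WebR
import Pool.Agent.MQ3.Lift

/-!
# MQ3 WBx: from a normal crossings box to the sheets of the web

`ρ` is a parametrization of a surface over the closed unit bidisc, an immersion off the axes, such that the points `ρ p` off the axes are good for
`θ`: the polynomials of the slopes satisfy the hypotheses of `exists_webBox`, and the curves tangent to `θ` satisfy `Crv`.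
-/

set_option autoImplicit false

open Topology Filter Metric

noncomputable section

namespace Pool.Agent.MQ3

open Pool.Agent.H36.BP (EN)
open Pool.Agent.H14.PP (Tan)
open Pool.Agent.H17BP (Surface IsChart)
open Pool.Agent.E1 (ResL_tan)

variable {N : ℕ} {X : Set (EN N)} {m : ℕ}

/-! ### analyticity -/

/-- A symmetric differential in a parametrization is analytic. -/
theorem analyticAt_theta (θ : WDiff X m) {ρ : ℂ × ℂ → EN N} {p : ℂ × ℂ} (hρ : AnalyticAt ℂ ρ p) (hX : ∀ᶠ q in 𝓝 p, ρ q ∈ X)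
    {w : ℂ × ℂ → ℂ × ℂ} (hw : AnalyticAt ℂ w p) : AnalyticAt ℂ (fun q => θ.toFun (ρ q) (fderiv ℂ ρ q (w q))) p := by
  have hl : AnalyticAt ℂ (fun q : ℂ × ℂ => p + q) 0 := analyticAt_const.add analyticAt_id
  have hσ : AnalyticAt ℂ (fun q => ρ (p + q)) 0 := by
    have h1 : AnalyticAt ℂ ρ (p + 0) := by rwa [add_zero]
    exact AnalyticAt.comp (g := ρ) (f := fun q : ℂ × ℂ => p + q) (x := 0) h1 hl
  have ht : Tendsto (fun q : ℂ × ℂ => p + q) (𝓝 0) (𝓝 p) := by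
    have := hl.continuousAt.tendsto
    rwa [add_zero] at this
  have h1 := θ.res_analytic hσ (ht.eventually hX) (w p)
  have h2 : AnalyticAt ℂ (fun q : ℂ × ℂ => (q - p, w q)) p := (analyticAt_id.sub analyticAt_const).prod hw
  have h3 : AnalyticAt ℂ (fun q : (ℂ × ℂ) × (ℂ × ℂ) => θ.toFun (ρ (p + q.1)) (fderiv ℂ (fun q => ρ (p + q)) q.1 q.2)) (p - p, w p) := by
    rw [sub_self]
    exact h1
  have h4 := AnalyticAt.comp (g := fun q : (ℂ × ℂ) × (ℂ × ℂ) => θ.toFun (ρ (p + q.1)) (fderiv ℂ (fun q => ρ (p + q)) q.1 q.2))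
    (f := fun q : ℂ × ℂ => (q - p, w q)) (x := p) h3 h2
  refine h4.congr (Eventually.of_forall fun q => ?_)
  show θ.toFun (ρ (p + (q - p))) (fderiv ℂ (fun q => ρ (p + q)) (q - p) (w q)) = _
  rw [fderiv_comp_add_left, add_sub_cancel]

theorem v₁_shift (l : LF N) (ρ : ℂ × ℂ → EN N) (p q : ℂ × ℂ) : v₁ l (fun q => ρ (p + q)) q = v₁ l ρ (p + q) := by
  simp only [v₁, ca, cb, fderiv_comp_add_left]

theorem v₂_shift (l : LF N) (ρ : ℂ × ℂ → EN N) (p q : ℂ × ℂ) : v₂ l (fun q => ρ (p + q)) q = v₂ l ρ (p + q) := by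
  simp only [v₂, ca, cb, fderiv_comp_add_left]

/-- the polynomial of the slopes of `θ` -/
def sP (θ : WDiff X m) (l : LF N) (ρ : ℂ × ℂ → EN N) (p : ℂ × ℂ) : Polynomial ℂ :=
  Lagrange.interpolate (Finset.range (m + 1)) (fun j : ℕ => (j : ℂ))
    fun j : ℕ => θ.toFun (ρ p) (fderiv ℂ ρ p (v₁ l ρ p + (j : ℂ) • v₂ l ρ p))

/-- the coefficients of the polynomial of the slopes -/
def sA (θ : WDiff X m) (l : LF N) (ρ : ℂ × ℂ → EN N) (k : ℕ) (p : ℂ × ℂ) : ℂ := (sP θ l ρ p).coeff k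

theorem analyticAt_sA (θ : WDiff X m) (l : LF N) {ρ : ℂ × ℂ → EN N} {p : ℂ × ℂ} (hρ : AnalyticAt ℂ ρ p) (hX : ∀ᶠ q in 𝓝 p, ρ q ∈ X) (k : ℕ) :
    AnalyticAt ℂ (sA θ l ρ k) p := by
  have h1 : sA θ l ρ k = fun p => ∑ j ∈ Finset.range (m + 1), θ.toFun (ρ p) (fderiv ℂ ρ p (v₁ l ρ p + ((j : ℕ) : ℂ) • v₂ l ρ p)) *
      (Lagrange.basis (Finset.range (m + 1)) (fun j : ℕ => (j : ℂ)) j).coeff k := by
    funext p
    rw [sA, sP, Lagrange.interpolate_apply, Polynomial.finsetSum_coeff]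
    refine Finset.sum_congr rfl fun j _ => ?_
    rw [Polynomial.coeff_C_mul]
  rw [h1]
  refine Finset.analyticAt_fun_sum _ fun j _ => AnalyticAt.mul ?_ analyticAt_const
  exact analyticAt_theta θ hρ hX ((analyticAt_v₁ l hρ).fun_add (analyticAt_v₂ l hρ).fun_const_smul)

theorem sP_spec (θ : WDiff X m) (l : LF N) {ρ : ℂ × ℂ → EN N} {p : ℂ × ℂ} (hρ : AnalyticAt ℂ ρ p) (hX : ∀ᶠ q in 𝓝 p, ρ q ∈ X) :
    (sP θ l ρ p).natDegree ≤ m ∧ (∀ s, (sP θ l ρ p).eval s = θ.toFun (ρ p) (fderiv ℂ ρ p (v₁ l ρ p + s • v₂ l ρ p))) ∧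
      sA θ l ρ m p = θ.toFun (ρ p) (fderiv ℂ ρ p (v₂ l ρ p)) := by
  have hl : AnalyticAt ℂ (fun q : ℂ × ℂ => p + q) 0 := analyticAt_const.add analyticAt_id
  have hσ : AnalyticAt ℂ (fun q => ρ (p + q)) 0 := by
    have h1 : AnalyticAt ℂ ρ (p + 0) := by rwa [add_zero]
    exact AnalyticAt.comp (g := ρ) (f := fun q : ℂ × ℂ => p + q) (x := 0) h1 hl
  have ht : Tendsto (fun q : ℂ × ℂ => p + q) (𝓝 0) (𝓝 p) := by
    have := hl.continuousAt.tendsto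
    rwa [add_zero] at this
  obtain ⟨A, -, hA⟩ := exists_fam θ l hσ (ht.eventually hX)
  obtain ⟨h1, h2, h3⟩ := hA.self_of_nhds
  rw [v₂_shift, fderiv_comp_add_left, add_zero] at h3
  have h2' : ∀ s, (A 0).eval s = θ.toFun (ρ p) (fderiv ℂ ρ p (v₁ l ρ p + s • v₂ l ρ p)) := by
    intro s
    rw [h2 s, v₁_shift, v₂_shift, fderiv_comp_add_left, add_zero]
  have h4 : A 0 = sP θ l ρ p := by
    refine Lagrange.eq_interpolate_of_eval_eq _ ?_ ?_ ?_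
    · intro i _ j _ hij
      exact Nat.cast_injective hij
    · rw [Finset.card_range]
      exact lt_of_le_of_lt (Polynomial.degree_le_of_natDegree_le h1) (by exact_mod_cast Nat.lt_succ_self m)
    · intro j _
      exact h2' _
  rw [sA, ← h4]
  exact ⟨h1, h2', h3⟩

theorem Pe_sA (θ : WDiff X m) (l : LF N) {ρ : ℂ × ℂ → EN N} {p : ℂ × ℂ} (hρ : AnalyticAt ℂ ρ p) (hX : ∀ᶠ q in 𝓝 p, ρ q ∈ X) (t : ℂ) :
    Pe m (sA θ l ρ) p t = θ.toFun (ρ p) (fderiv ℂ ρ p (v₁ l ρ p + t • v₂ l ρ p)) := by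
  obtain ⟨h1, h2, -⟩ := sP_spec θ l hρ hX
  rw [← h2 t, Polynomial.eval_eq_sum_range' (Nat.lt_succ_of_le h1), Pe]
  rfl

/-! ### the box -/

/-- A parametrization of the surface over the closed unit bidisc, an immersion off the axes. -/
structure NCBox (X : Set (EN N)) (ρ : ℂ × ℂ → EN N) : Prop where
  an : ∀ p : ℂ × ℂ, ‖p.1‖ ≤ 1 → ‖p.2‖ ≤ 1 → AnalyticAt ℂ ρ p
  mem : ∀ p : ℂ × ℂ, ‖p.1‖ ≤ 1 → ‖p.2‖ ≤ 1 → ∀ᶠ q in 𝓝 p, ρ q ∈ X
  indep : ∀ p ∈ DS, ∀ (w : ℂ × ℂ) (a : ℂ), fderiv ℂ ρ p w = a • ρ p → w = 0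

variable {ρ : ℂ × ℂ → EN N}

theorem NCBox.an' (hb : NCBox X ρ) {p : ℂ × ℂ} (hp : p ∈ DS) : AnalyticAt ℂ ρ p := hb.an p hp.1.2.le hp.2.2.le

theorem NCBox.mem' (hb : NCBox X ρ) {p : ℂ × ℂ} (hp : p ∈ DS) : ∀ᶠ q in 𝓝 p, ρ q ∈ X := hb.mem p hp.1.2.le hp.2.2.le

theorem NCBox.span (hb : NCBox X ρ) (hX : Surface X) {p : ℂ × ℂ} (hp : p ∈ DS) (v : EN N) (hv : Tan X (ρ p) v) :
    ∃ (w : ℂ × ℂ) (a : ℂ), v = fderiv ℂ ρ p w + a • ρ p := span_of_indep hX (hb.an' hp) (hb.mem' hp) (hb.indep p hp) hv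

theorem NCBox.dl_ne (hb : NCBox X ρ) (hX : Surface X) {l : LF N} {p : ℂ × ℂ} (hp : p ∈ DS) (hG : GA X l (ρ p)) : dl l ρ p ≠ 0 :=
  (ga_chart (fun v => ResL_tan (hb.an' hp) (hb.mem' hp) v) (hb.span hX hp) (hb.indep p hp)).1 hG

theorem NCBox.lead_ne (hb : NCBox X ρ) (hX : Surface X) (hm : 1 ≤ m) {θ : WDiff X m} {l : LF N} {p : ℂ × ℂ} (hp : p ∈ DS)
    (hG : GA X l (ρ p)) (hG' : GB θ l (ρ p)) : sA θ l ρ m p ≠ 0 := by
  rw [(sP_spec θ l (hb.an' hp) (hb.mem' hp)).2.2]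
  exact (gb_chart hm (fun v => ResL_tan (hb.an' hp) (hb.mem' hp) v) (hb.span hX hp) (hb.indep p hp) (hb.dl_ne hX hp hG)).1 hG'

/-- the roots are the slopes of the null directions -/
theorem NCBox.roots_eq (hb : NCBox X ρ) (hX : Surface X) (hm : 1 ≤ m) (θ : WDiff X m) {l : LF N} {p : ℂ × ℂ} (hp : p ∈ DS)
    (hG : GA X l (ρ p)) : {t | Pe m (sA θ l ρ) p t = 0} = NS θ l (ρ p) := by
  have hd := hb.dl_ne hX hp hG
  have hT : ∀ w, Tan X (ρ p) (fderiv ℂ ρ p w) := fun w => ResL_tan (hb.an' hp) (hb.mem' hp) w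
  ext t
  rw [Set.mem_ofPred_eq, Pe_sA θ l (hb.an' hp) (hb.mem' hp)]
  constructor
  · intro h
    refine ⟨_, hT _, ?_, ?_, h⟩
    · rw [map_add, map_smul, om_add, om_smul, om_v₁_1, om_v₂_1, mul_zero, add_zero]
      exact hd
    · rw [map_add, map_smul, om_add, om_smul, om_add, om_smul, om_v₁_1, om_v₂_1, om_v₁_2, om_v₂_2]
      ring
  · rintro ⟨v, hv, h1, h2, h3⟩
    obtain ⟨w, a, rfl⟩ := hb.span hX hp v hv
    rw [om_add_smul] at h1 h2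
    rw [om_add_smul] at h2
    rw [θ.add_smul _ _ (hT w)] at h3
    have h4 := dl_smul l ρ p w
    rw [h2] at h4
    have h5 : dl l ρ p • w = om l 1 (ρ p) (fderiv ℂ ρ p w) • (v₁ l ρ p + t • v₂ l ρ p) := by
      rw [h4, smul_add, smul_smul, mul_comm t]
    have h6 : θ.toFun (ρ p) (fderiv ℂ ρ p (dl l ρ p • w)) = 0 := by
      rw [map_smul, θ.smul _ _ (hT w), h3, mul_zero]
    rw [h5, map_smul, θ.smul _ _ (hT _)] at h6
    exact (mul_eq_zero.1 h6).resolve_left (pow_ne_zero _ h1)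

theorem isPreconnected_DS : IsPreconnected DS := by
  have h : DS = pexp '' HH := by
    ext p
    constructor
    · intro hp
      obtain ⟨q, hq, h⟩ := exists_pexp hp
      exact ⟨q, hq, h⟩
    · rintro ⟨q, hq, rfl⟩
      exact pexp_mem hq
  rw [h]
  refine convex_HH.isPreconnected.image _ ?_
  unfold pexp
  fun_prop

/-- the number of the null directions is constant off the axes -/
theorem NCBox.ncard_const (hb : NCBox X ρ) {θ : WDiff X m} {l : LF N} (hG : ∀ p ∈ DS, GoodPt θ l (ρ p)) :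
    ∃ e : ℕ, ∀ p ∈ DS, (NS θ l (ρ p)).ncard = e := by
  obtain ⟨p₀, hp₀⟩ : DS.Nonempty := ⟨_, pexp_mem HH_mem⟩
  refine ⟨(NS θ l (ρ p₀)).ncard, fun p hp => ?_⟩
  refine isPreconnected_DS.constant (f := fun p => (NS θ l (ρ p)).ncard) ?_ hp hp₀
  intro q hq
  have h1 := (hG q hq).2.2.2
  have h2 : ∀ᶠ q' in 𝓝 q, (NS θ l (ρ q')).ncard = (NS θ l (ρ q)).ncard := by
    filter_upwards [(hb.an' hq).continuousAt.eventually h1, hb.mem' hq] with q' h3 h4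
    exact h3 h4
  exact (tendsto_nhds_of_eventually_eq h2).mono_left nhdsWithin_le_nhds

theorem NCBox.bound (hb : NCBox X ρ) (θ : WDiff X m) (l : LF N) : ∃ C : ℝ, ∀ i ≤ m, ∀ p ∈ DS, ‖sA θ l ρ i p‖ ≤ C := by
  have hc : ContinuousOn (fun p => fun i : Fin (m + 1) => sA θ l ρ i p) (closedBall (0 : ℂ × ℂ) 1) := by
    intro p hp
    rw [mem_closedBall_zero_iff] at hp
    have h1 : ‖p.1‖ ≤ 1 := (norm_fst_le p).trans hp
    have h2 : ‖p.2‖ ≤ 1 := (norm_snd_le p).trans hp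
    refine ContinuousAt.continuousWithinAt (continuousAt_pi.2 fun i => ?_)
    exact (analyticAt_sA θ l (hb.an p h1 h2) (hb.mem p h1 h2) i).continuousAt
  obtain ⟨C, hC⟩ := (isCompact_closedBall (0 : ℂ × ℂ) 1).exists_bound_of_continuousOn hc
  refine ⟨C, fun i hi p hp => ?_⟩
  have h1 : p ∈ closedBall (0 : ℂ × ℂ) 1 := by
    rw [mem_closedBall_zero_iff]
    exact max_le hp.1.2.le hp.2.2.le
  exact (norm_le_pi_norm (fun i : Fin (m + 1) => sA θ l ρ i p) ⟨i, Nat.lt_succ_of_le hi⟩).trans (hC p h1)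

/-- **The sheets of the web over a normal crossings box.** -/
theorem NCBox.exists_sheets (hb : NCBox X ρ) (hX : Surface X) (hm : 1 ≤ m) {θ : WDiff X m} {l : LF N} (hG : ∀ p ∈ DS, GoodPt θ l (ρ p)) :
    ∃ (e : ℕ) (T : Fin e → ℂ × ℂ → ℂ) (a b : Equiv.Perm (Fin e)) (μ : Fin e → ℕ), (∀ p ∈ DS, (NS θ l (ρ p)).ncard = e) ∧ WebBox e T a b ∧
      (∀ k, 1 ≤ μ k) ∧ (∀ k, μ (a k) = μ k) ∧ (∀ k, μ (b k) = μ k) ∧
      (∀ v ∈ HH, ∀ t, Pe m (sA θ l ρ) (pexp v) t = sA θ l ρ m (pexp v) * ∏ k, (t - T k v) ^ μ k) ∧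
      (∀ v ∈ HH, ∀ t, t ∈ NS θ l (ρ (pexp v)) ↔ ∃ k, T k v = t) ∧ ∃ C' : ℝ, ∀ k, ∀ v ∈ HH, ‖sA θ l ρ m (pexp v) * T k v‖ ≤ C' := by
  obtain ⟨e, he⟩ := hb.ncard_const hG
  obtain ⟨C, hC⟩ := hb.bound θ l
  obtain ⟨T, a, b, μ, h1, h2, h3, h4, h5, h6, h7⟩ := exists_webBox (m := m) (e := e) (A := sA θ l ρ)
    (fun i _ p hp => analyticAt_sA θ l (hb.an' hp) (hb.mem' hp) i) hC (fun p hp => hb.lead_ne hX hm hp (hG p hp).1 (hG p hp).2.1)
    (fun p hp => by rw [hb.roots_eq hX hm θ hp (hG p hp).1, he p hp])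
  refine ⟨e, T, a, b, μ, he, h1, h2, h3, h4, h5, fun v hv t => ?_, h7⟩
  rw [← h6 v hv t, ← hb.roots_eq hX hm θ (pexp_mem hv) (hG _ (pexp_mem hv)).1]
  rfl

end Pool.Agent.MQ3
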