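import Pool.Agent.E1.ResL

/-!
# MQ3 WDiff: symmetric differentials of arbitrary weight

`WDiff X m`: a function `Θ (x; v)` which is homogeneous of degree `m` in `v`, analytic along analytic families of tangent vectors of the cone `X`, does not change
if `v` is replaced by `v + a x`, and is multiplied by a constant if `(x, v)` is replaced by `(c x, c v)`: a symmetric differential with values in a power of the
hyperplane bundle.  `SymDiff.toW`: weight zero.
-/

set_option autoImplicit false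

open Topology Filter Metric MvPolynomial

noncomputable section

namespace Pool.Agent.MQ3

open Pool.Agent.H36.BP (EN)
open Pool.Agent.H14.PP (Tan)
open Pool.Agent.AD (SymDiff)

variable {N : ℕ}

/-- A symmetric differential `Θ (x; v)` of degree `m` on the cone `X`, with values in some power of the hyperplane bundle. -/
structure WDiff (X : Set (EN N)) (m : ℕ) where
  /-- the differential -/
  toFun : EN N → EN N → ℂ
  add_smul : ∀ x v, Tan X x v → ∀ a : ℂ, toFun x (v + a • x) = toFun x v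
  smul : ∀ x v, Tan X x v → ∀ a : ℂ, toFun x (a • v) = a ^ m * toFun x v
  scale : ∀ c : ℂ, c ≠ 0 → ∃ a : ℂ, a ≠ 0 ∧ ∀ x v, Tan X x v → toFun (c • x) (c • v) = a * toFun x v
  analytic : ∀ (k : ℕ) (φ : (Fin k → ℂ) → EN N) (p w : Fin k → ℂ), AnalyticAt ℂ φ p → (∀ᶠ y in 𝓝 p, φ y ∈ X) →
    AnalyticAt ℂ (fun y : (Fin k → ℂ) × (Fin k → ℂ) => toFun (φ y.1) (fderiv ℂ φ y.1 y.2)) (p, w)

variable {X : Set (EN N)} {m : ℕ}

/-- a symmetric differential is of weight zero -/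
def _root_.Pool.Agent.AD.SymDiff.toW (θ : SymDiff X m) : WDiff X m where
  toFun := θ.toFun
  add_smul := θ.add_smul
  smul := θ.smul
  scale c hc := ⟨1, one_ne_zero, fun x v hv => by rw [θ.scale x v hv c hc, one_mul]⟩
  analytic := θ.analytic

@[simp] theorem toW_toFun (θ : SymDiff X m) : θ.toW.toFun = θ.toFun := rfl

theorem WDiff.scale_eq_zero (θ : WDiff X m) {x v : EN N} (hv : Tan X x v) {c : ℂ} (hc : c ≠ 0) : θ.toFun (c • x) (c • v) = 0 ↔ θ.toFun x v = 0 := by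
  obtain ⟨a, ha, h⟩ := θ.scale c hc
  rw [h x v hv, mul_eq_zero]
  exact or_iff_right ha

/-- a symmetric differential in the coordinates of a parametrization is analytic (`ResL_analytic` for `WDiff`) -/
theorem WDiff.res_analytic (θ : WDiff X m) {σ : ℂ × ℂ → EN N} (hσ : AnalyticAt ℂ σ 0) (hX : ∀ᶠ p in 𝓝 (0 : ℂ × ℂ), σ p ∈ X)
    (v : ℂ × ℂ) : AnalyticAt ℂ (fun q : (ℂ × ℂ) × (ℂ × ℂ) => θ.toFun (σ q.1) (fderiv ℂ σ q.1 q.2)) (0, v) := by
  set e : (Fin 2 → ℂ) →L[ℂ] ℂ × ℂ := (ContinuousLinearMap.proj 0).prod (ContinuousLinearMap.proj 1) with he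
  set f : ℂ × ℂ →L[ℂ] (Fin 2 → ℂ) := ContinuousLinearMap.pi ![ContinuousLinearMap.fst ℂ ℂ ℂ, ContinuousLinearMap.snd ℂ ℂ ℂ] with hf
  have hef : ∀ p : ℂ × ℂ, e (f p) = p := by
    intro p
    ext <;> simp [he, hf]
  have he0 : e 0 = 0 := map_zero e
  have hφ : AnalyticAt ℂ (fun y : Fin 2 → ℂ => σ (e y)) 0 := by
    have h1 : AnalyticAt ℂ σ (e 0) := by rwa [he0]
    exact AnalyticAt.comp (g := σ) (f := fun y => e y) h1 (e.analyticAt 0)
  have het : Tendsto e (𝓝 0) (𝓝 (0 : ℂ × ℂ)) := by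
    have := e.continuous.tendsto 0
    rwa [he0] at this
  have hφX : ∀ᶠ y in 𝓝 (0 : Fin 2 → ℂ), σ (e y) ∈ X := het.eventually hX
  have h1 := θ.analytic 2 (fun y => σ (e y)) 0 (f v) hφ hφX
  set G : (ℂ × ℂ) × (ℂ × ℂ) →L[ℂ] (Fin 2 → ℂ) × (Fin 2 → ℂ) := f.prodMap f with hG
  have hG0 : G (0, v) = (0, f v) := by
    simp [hG]
  have h2 : AnalyticAt ℂ (fun q : (ℂ × ℂ) × (ℂ × ℂ) => θ.toFun (σ (e (G q).1)) (fderiv ℂ (fun y => σ (e y)) (G q).1 (G q).2)) (0, v) := by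
    have h3 : AnalyticAt ℂ (fun y : (Fin 2 → ℂ) × (Fin 2 → ℂ) => θ.toFun (σ (e y.1)) (fderiv ℂ (fun y => σ (e y)) y.1 y.2)) (G (0, v)) := by
      rw [hG0]
      exact h1
    exact AnalyticAt.comp (g := fun y : (Fin 2 → ℂ) × (Fin 2 → ℂ) => θ.toFun (σ (e y.1)) (fderiv ℂ (fun y => σ (e y)) y.1 y.2))
      (f := fun q => G q) h3 (G.analyticAt _)
  refine h2.congr ?_
  have h4 : ∀ᶠ q in 𝓝 ((0 : ℂ × ℂ), v), AnalyticAt ℂ σ q.1 :=
    (continuous_fst.tendsto ((0 : ℂ × ℂ), v)).eventually hσ.eventually_analyticAt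
  filter_upwards [h4] with q hq
  have h5 : (G q).1 = f q.1 := rfl
  have h6 : (G q).2 = f q.2 := rfl
  rw [h5, h6, hef]
  have h7 : HasFDerivAt (fun y : Fin 2 → ℂ => σ (e y)) ((fderiv ℂ σ q.1).comp e) (f q.1) := by
    have h8 : HasFDerivAt σ (fderiv ℂ σ q.1) (e (f q.1)) := by
      rw [hef]
      exact hq.differentiableAt.hasFDerivAt
    exact h8.comp (f q.1) e.hasFDerivAt
  rw [h7.fderiv, ContinuousLinearMap.comp_apply, hef]

end Pool.Agent.MQ3
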