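import Pool.Agent.MQ3.WDiff

/-!
# MQ3 WForm: webs given by forms

A polynomial `G (x, z)` in `x` and in the Pluecker coordinates `z` of lines, homogeneous of degree `a` in `x` and of degree `m` in `z`, gives the web
`Θ (x; v) = G (x, x ∧ v)`.
-/

set_option autoImplicit false

open Topology Filter Metric MvPolynomial

noncomputable section

namespace Pool.Agent.MQ3

open Pool.Agent.H36.BP (EN)
open Pool.Agent.H14.PP (Tan)

variable {N : ℕ}

/-- the Pluecker coordinates of the line through `x` and `v` -/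
def plk (x v : Fin (N + 1) → ℂ) (s : Fin (N + 1) × Fin (N + 1)) : ℂ := x s.1 * v s.2 - x s.2 * v s.1

/-- the value of the polynomial `G` at `(x, x ∧ v)` -/
def webVal (G : MvPolynomial (Fin (N + 1) ⊕ Fin (N + 1) × Fin (N + 1)) ℂ) (x v : Fin (N + 1) → ℂ) : ℂ := eval (Sum.elim x (plk x v)) G

/-- `G` is homogeneous of degree `a` in `x` and of degree `m` in `z` -/
def IsBihom (a m : ℕ) (G : MvPolynomial (Fin (N + 1) ⊕ Fin (N + 1) × Fin (N + 1)) ℂ) : Prop :=
  ∀ (c d : ℂ) (x : Fin (N + 1) → ℂ) (z : Fin (N + 1) × Fin (N + 1) → ℂ), eval (Sum.elim (fun i => c * x i) fun s => d * z s) G =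
    c ^ a * d ^ m * eval (Sum.elim x z) G

theorem webVal_add (G : MvPolynomial (Fin (N + 1) ⊕ Fin (N + 1) × Fin (N + 1)) ℂ) (x v : Fin (N + 1) → ℂ) (a : ℂ) :
    webVal G x (fun i => v i + a * x i) = webVal G x v := by
  unfold webVal
  congr 2
  have : plk x (fun i => v i + a * x i) = plk x v := by
    funext s
    simp only [plk]
    ring
  rw [this]

theorem webVal_smul {a m : ℕ} {G : MvPolynomial (Fin (N + 1) ⊕ Fin (N + 1) × Fin (N + 1)) ℂ} (hG : IsBihom a m G) (c d : ℂ) (x v : Fin (N + 1) → ℂ) :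
    webVal G (fun i => c * x i) (fun i => d * v i) = c ^ (a + m) * d ^ m * webVal G x v := by
  unfold webVal
  have h1 : plk (fun i => c * x i) (fun i => d * v i) = fun s => (c * d) * plk x v s := by
    funext s
    simp only [plk]
    ring
  rw [h1, hG c (c * d) x (plk x v)]
  ring

/-- the web of a form, as a twisted symmetric differential -/
def WDiff.ofForm (X : Set (EN N)) {a m : ℕ} {G : MvPolynomial (Fin (N + 1) ⊕ Fin (N + 1) × Fin (N + 1)) ℂ} (hG : IsBihom a m G) : WDiff X m where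
  toFun x v := webVal G x.ofLp v.ofLp
  add_smul x v _ b := webVal_add G x.ofLp v.ofLp b
  smul x v _ c := by
    have h1 := webVal_smul hG 1 c x.ofLp v.ofLp
    simp only [one_mul, one_pow] at h1
    exact h1
  scale c hc := ⟨c ^ (a + m) * c ^ m, mul_ne_zero (pow_ne_zero _ hc) (pow_ne_zero _ hc), fun x v _ => webVal_smul hG c c x.ofLp v.ofLp⟩
  analytic k φ p w hφ _ := by
    have h1 : AnalyticAt ℂ (fun y : (Fin k → ℂ) × (Fin k → ℂ) => φ y.1) (p, w) := AnalyticAt.comp (g := φ) (f := Prod.fst) hφ analyticAt_fst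
    have h2 : AnalyticAt ℂ (fun y : (Fin k → ℂ) × (Fin k → ℂ) => fderiv ℂ φ y.1 y.2) (p, w) := by
      have h3 : AnalyticAt ℂ (fun y : (Fin k → ℂ) × (Fin k → ℂ) => fderiv ℂ φ y.1) (p, w) :=
        AnalyticAt.comp (g := fderiv ℂ φ) (f := Prod.fst) hφ.fderiv analyticAt_fst
      exact (ContinuousLinearMap.analyticAt_bilinear (ContinuousLinearMap.id ℂ ((Fin k → ℂ) →L[ℂ] EN N)) _).comp₂ h3 analyticAt_snd
    have h4 : ∀ (g : (Fin k → ℂ) × (Fin k → ℂ) → EN N), AnalyticAt ℂ g (p, w) → ∀ i, AnalyticAt ℂ (fun y => (g y).ofLp i) (p, w) := fun g hg i =>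
      ((EuclideanSpace.proj (𝕜 := ℂ) i).analyticAt _).comp hg
    have h5 : ∀ s : Fin (N + 1) ⊕ Fin (N + 1) × Fin (N + 1), AnalyticAt ℂ (fun y : (Fin k → ℂ) × (Fin k → ℂ) =>
        (Sum.elim (φ y.1).ofLp (plk (φ y.1).ofLp (fderiv ℂ φ y.1 y.2).ofLp) : Fin (N + 1) ⊕ Fin (N + 1) × Fin (N + 1) → ℂ) s) (p, w) := by
      rintro (i | s)
      · exact h4 _ h1 i
      · exact ((h4 _ h1 s.1).mul (h4 _ h2 s.2)).sub ((h4 _ h1 s.2).mul (h4 _ h2 s.1))
    have h6 := AnalyticAt.aeval_mvPolynomial h5 G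
    exact h6

@[simp] theorem WDiff.ofForm_toFun (X : Set (EN N)) {a m : ℕ} {G : MvPolynomial (Fin (N + 1) ⊕ Fin (N + 1) × Fin (N + 1)) ℂ} (hG : IsBihom a m G)
    (x v : EN N) : (WDiff.ofForm X hG).toFun x v = webVal G x.ofLp v.ofLp := rfl

end Pool.Agent.MQ3
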